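import Mathlib
import Pool.Agent.H40.SQ.Defs
import Pool.Agent.H40.SQ.LNb
import Pool.Agent.H40.SQ.LSum

/-!
# QDefs: the gas of closed polymers in a finite set of edges (definitions only)

`VCs D` = subsets of `D` with the vertex condition, `ZV q D` the partition function with weight `q^|g|`,
`N1 A` = edges touching `A`, `psiD q D A = log ZV D - log ZV (D \ N1 A)` = the cost of forbidding the edges touching `A`.
-/

set_option autoImplicit false

namespace Pool.Agent.H40.WM

open Pool.Agent.H40.SQ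

noncomputable section

open Classical in
/-- Subsets of `D` with the vertex condition. -/
def VCs (D : Finset Edge) : Finset (Finset Edge) := D.powerset.filter VC

theorem mem_VCs {D g : Finset Edge} : g ∈ VCs D ↔ g ⊆ D ∧ VC g := by
  classical
  unfold VCs
  rw [Finset.mem_filter, Finset.mem_powerset]

/-- Partition function. -/
def ZV (q : ℝ) (D : Finset Edge) : ℝ := ∑ g ∈ VCs D, q ^ g.card

/-- Edges touching `A`. -/
def N1 (A : Finset Edge) : Finset Edge := A.biUnion nb

theorem mem_N1 {A : Finset Edge} {b : Edge} : b ∈ N1 A ↔ ∃ a ∈ A, Tch a b := by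
  unfold N1
  rw [Finset.mem_biUnion]
  exact exists_congr fun a => and_congr_right fun _ => mem_nb

/-- Cost of forbidding all edges touching `A`, in the finite volume `D`. -/
def psiD (q : ℝ) (D A : Finset Edge) : ℝ := Real.log (ZV q D) - Real.log (ZV q (D \ N1 A))

/-- All edges with labels in `[-M, M]^2`. -/
def EM (M : ℕ) : Finset Edge :=
  Finset.univ ×ˢ (Finset.Icc (-(M : ℤ)) (M : ℤ) ×ˢ Finset.Icc (-(M : ℤ)) (M : ℤ))

theorem mem_EM {M : ℕ} {e : Edge} :
    e ∈ EM M ↔ -(M : ℤ) ≤ e.2.1 ∧ e.2.1 ≤ M ∧ -(M : ℤ) ≤ e.2.2 ∧ e.2.2 ≤ M := by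
  unfold EM
  simp only [Finset.mem_product, Finset.mem_univ, Finset.mem_Icc, true_and]
  tauto

/-- The infinite volume cost. -/
def psi (q : ℝ) (A : Finset Edge) : ℝ := Filter.limUnder Filter.atTop (fun M : ℕ => psiD q (EM M) A)

/-- Sup distance of the labels. -/
def dd (a b : Edge) : ℕ := max (a.2.1 - b.2.1).natAbs (a.2.2 - b.2.2).natAbs

/-- The slice of an edge: the edge joins the lines `x - y = us e` and `x - y = us e + 1`. -/
def us (e : Edge) : ℤ := e.2.1 - e.2.2 - (if e.1 then 1 else 0)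

/-- Translation of edges. -/
def shE (v : ℤ × ℤ) (e : Edge) : Edge := (e.1, e.2.1 + v.1, e.2.2 + v.2)

def sh (v : ℤ × ℤ) (A : Finset Edge) : Finset Edge := A.image (shE v)

/-- Transposition `(x,y) -> (y,x)` of edges. -/
def trE (e : Edge) : Edge := (!e.1, e.2.2, e.2.1)

def tr (A : Finset Edge) : Finset Edge := A.image trE

open Classical in
/-- The component of `e` in the set `W` of edges (empty if `e` is not in `W`). -/
def cmp (W : Finset Edge) (e : Edge) : Finset Edge :=
  W.filter (fun f => e ∈ W ∧ Relation.ReflTransGen (fun a b => Tch a b ∧ b ∈ W) e f)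

/-- Exchange of two configurations on the component of `e` in their union. -/
def swp (e : Edge) (P : Finset Edge × Finset Edge) : Finset Edge × Finset Edge :=
  ((P.1 \ cmp (P.1 ∪ P.2) e) ∪ (P.2 ∩ cmp (P.1 ∪ P.2) e),
    (P.2 \ cmp (P.1 ∪ P.2) e) ∪ (P.1 ∩ cmp (P.1 ∪ P.2) e))

/-- The probability of the edge `e` in the gas on `D`. -/
def pe (q : ℝ) (D : Finset Edge) (e : Edge) : ℝ :=
  (∑ g ∈ (VCs D).filter (fun g => e ∈ g), q ^ g.card) / ZV q D

end

end Pool.Agent.H40.WM
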