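import Mathlib
import Pool.Agent.H40.WM.QDefs
import Pool.Agent.H40.SQ.CMon

/-!
# ADefs: restricted chains on up-sets, Dirichlet form, weak Poincare inequality, ladders (definitions only)

`s = 1` or `s = -1` is the direction.  `LeS s g g'`: `s F g <= s F g'` everywhere.  An up-set `EE` of `Om n` is closed under raising `s F`.
`TPR` is the chain `TP` with the moves leaving `EE` rejected, `TR` its lazy version.  `Dir` = Dirichlet form of single flips inside `EE`.
-/

set_option autoImplicit false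

namespace Pool.Agent.H40.WM

open Pool.Agent.H40.SQ

noncomputable section

def LeS (s : ℤ) (g g' : Finset Edge) : Prop := ∀ i j : ℤ, s * F g i j ≤ s * F g' i j

def UpS (n : ℕ) (s : ℤ) (EE : Finset (Finset Edge)) : Prop :=
  EE ⊆ Om n ∧ ∀ g ∈ EE, ∀ g' ∈ Om n, LeS s g g' → g' ∈ EE

/-- Total weight of `EE`. -/
def ZE (q : ℝ) (EE : Finset (Finset Edge)) : ℝ := ∑ g ∈ EE, q ^ g.card

/-- Mean with respect to the weight `q^|g|` on `EE`. -/
def mu (q : ℝ) (EE : Finset (Finset Edge)) (u : Finset Edge → ℝ) : ℝ := (∑ g ∈ EE, q ^ g.card * u g) / ZE q EE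

/-- Dirichlet form: flips inside `EE`. -/
def Dir (q : ℝ) (n : ℕ) (EE : Finset (Finset Edge)) (u : Finset Edge → ℝ) : ℝ :=
  ∑ x ∈ box n, ∑ g ∈ EE.filter (fun g => flip x g ∈ EE), q ^ g.card * (u (flip x g) - u g) ^ 2

/-- Weak Poincare inequality. -/
def WPo (q : ℝ) (n : ℕ) (EE : Finset (Finset Edge)) (A β : ℝ) : Prop :=
  ∀ (u : Finset Edge → ℝ) (B : ℝ), 0 ≤ B → (∀ g ∈ EE, |u g| ≤ B) →
    ∑ g ∈ EE, q ^ g.card * (u g - mu q EE u) ^ 2 ≤ A * Dir q n EE u + β * B ^ 2 * ZE q EE

/-- The chain with the moves leaving `EE` rejected. -/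
def TPR (lam : ℝ) (n : ℕ) (EE : Finset (Finset Edge)) : (Finset Edge → ℝ) →ₗ[ℝ] (Finset Edge → ℝ) where
  toFun u := fun g => u g + (1 / (n : ℝ) ^ 2) *
    ∑ c ∈ box n, (if flip c g ∈ EE then rate lam c g else 0) * (u (flip c g) - u g)
  map_add' u v := by
    funext g
    simp only [Pi.add_apply]
    have : ∀ c ∈ box n, (if flip c g ∈ EE then rate lam c g else 0) * (u (flip c g) + v (flip c g) - (u g + v g)) =
        (if flip c g ∈ EE then rate lam c g else 0) * (u (flip c g) - u g) +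
          (if flip c g ∈ EE then rate lam c g else 0) * (v (flip c g) - v g) := by
      intro c _; ring
    rw [Finset.sum_congr rfl this, Finset.sum_add_distrib]
    ring
  map_smul' a u := by
    funext g
    simp only [Pi.smul_apply, smul_eq_mul, RingHom.id_apply]
    have : ∀ c ∈ box n, (if flip c g ∈ EE then rate lam c g else 0) * (a * u (flip c g) - a * u g) =
        a * ((if flip c g ∈ EE then rate lam c g else 0) * (u (flip c g) - u g)) := by
      intro c _; ring
    rw [Finset.sum_congr rfl this, ← Finset.mul_sum]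
    ring

/-- The lazy version. -/
def TR (lam : ℝ) (n : ℕ) (EE : Finset (Finset Edge)) : (Finset Edge → ℝ) →ₗ[ℝ] (Finset Edge → ℝ) :=
  (1 / 2 : ℝ) • (LinearMap.id + TPR lam n EE)

/-- A ladder of up-sets from the top configuration to `Om n`. -/
structure Ladder (q : ℝ) (n : ℕ) (s : ℤ) (H A β : ℝ) (r : ℕ) (EE : ℕ → Finset (Finset Edge)) : Prop where
  top : ∃ g0, EE 0 = {g0} ∧ ∀ g ∈ Om n, LeS s g g0
  last : EE r = Om n
  up : ∀ i, i ≤ r → UpS n s (EE i)
  mono : ∀ i, i < r → EE i ⊆ EE (i + 1)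
  dens : ∀ i, i < r → ZE q (EE (i + 1)) ≤ H * ZE q (EE i)
  wp : ∀ i, 1 ≤ i → i ≤ r → WPo q n (EE i) A β

end

end Pool.Agent.H40.WM
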