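import Mathlib
import Pool.Agent.H40.WM.ADefs
import Pool.Agent.H40.SQ.CSa
import Pool.Agent.H40.SQ.HFlip

/-!
# ASa: the restricted chain is reversible and contracting (analogue of `SQ.CSa`)

`flip c` is an involution (`flip_flip`), so `g ↦ flip c g` is a permutation of `{g ∈ EE : flip c g ∈ EE}`; `csa_inv`: `q^|flip c g| rate c (flip c g) = q^|g| rate c g`.
* `tpr_sa`: expand, the terms `q^|g| rate 1[flip ∈ EE] u (flip c g) v g` are symmetric after reindexing by the involution.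
* `tpr_dir`: `<u, u - TPR u> = 1/(2 n^2) ∑_c ∑_{g, flip c g ∈ EE} q^|g| rate (u (flip c g) - u g)^2` (same reindexing), `rate ≥ lam` (`csa_le_rate`).
* `tpr_contr`, `tpr_bd`: `TPR u g` is a convex combination of `u g` and the `u (flip c g)` with `flip c g ∈ EE`, with weights `rate/n^2` (`csa_box_le`, `csa_rate_le`);
  Jensen for the square, then sum with the invariance `∑_g q^|g| TPR w g = ∑_g q^|g| w g` (`tpr_sa` with the constant function).
* `tr_om`: for `g ∈ Om n` all flips are in `Om n` (`flip_mem`), `TL = (1/2)(id + TP)`, `csa_apply`.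
-/

set_option autoImplicit false

namespace Pool.Agent.H40.WM

open Pool.Agent.H40.SQ

noncomputable section

theorem tpr_apply (lam : ℝ) (n : ℕ) (EE : Finset (Finset Edge)) (u : Finset Edge → ℝ) (g : Finset Edge) :
    TPR lam n EE u g = u g + (1 / (n : ℝ) ^ 2) *
      ∑ c ∈ box n, (if flip c g ∈ EE then rate lam c g else 0) * (u (flip c g) - u g) :=
  rfl

private theorem tr_apply (lam : ℝ) (n : ℕ) (EE : Finset (Finset Edge)) (u : Finset Edge → ℝ)
    (g : Finset Edge) : TR lam n EE u g = (1 / 2 : ℝ) * (u g + TPR lam n EE u g) :=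
  rfl

theorem tpr_const (lam : ℝ) (n : ℕ) (EE : Finset (Finset Edge)) (c : ℝ) : TPR lam n EE (fun _ => c) = fun _ => c := by
  funext g
  rw [tpr_apply]
  simp

/-- Reversibility. -/
private theorem asa_rev (q lam : ℝ) (hq : q ^ 4 = lam) (EE : Finset (Finset Edge)) (c : ℤ × ℤ)
    (ψ : Finset Edge → Finset Edge → ℝ) :
    ∑ g ∈ EE, q ^ g.card * (if flip c g ∈ EE then rate lam c g else 0) * ψ g (flip c g) =
      ∑ g ∈ EE, q ^ g.card * (if flip c g ∈ EE then rate lam c g else 0) * ψ (flip c g) g := by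
  classical
  have h1 : ∀ φ : Finset Edge → ℝ,
      ∑ g ∈ EE, q ^ g.card * (if flip c g ∈ EE then rate lam c g else 0) * φ g =
      ∑ g ∈ EE.filter (fun g => flip c g ∈ EE), q ^ g.card * rate lam c g * φ g := by
    intro φ
    rw [Finset.sum_filter]
    refine Finset.sum_congr rfl fun g _ => ?_
    split_ifs
    · rfl
    · ring
  rw [h1 (fun g => ψ g (flip c g)), h1 (fun g => ψ (flip c g) g)]
  refine Finset.sum_nbij' (fun γ => flip c γ) (fun γ => flip c γ) ?_ ?_ ?_ ?_ ?_
  · intro g hg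
    rw [Finset.mem_filter] at hg ⊢
    refine ⟨hg.2, ?_⟩
    rw [SQ.flip_flip]
    exact hg.1
  · intro g hg
    rw [Finset.mem_filter] at hg ⊢
    refine ⟨hg.2, ?_⟩
    rw [SQ.flip_flip]
    exact hg.1
  · intro g _
    exact SQ.flip_flip c g
  · intro g _
    exact SQ.flip_flip c g
  · intro g _
    rw [csa_inv q lam hq, SQ.flip_flip]

/-- The bilinear form. -/
private theorem asa_form (n : ℕ) (q lam : ℝ) (hq : q ^ 4 = lam) (EE : Finset (Finset Edge))
    (u v : Finset Edge → ℝ) :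
    ∑ g ∈ EE, q ^ g.card * TPR lam n EE u g * v g = ∑ g ∈ EE, q ^ g.card * u g * v g -
      (1 / (n : ℝ) ^ 2) * ∑ c ∈ box n, (1 / 2) * ∑ g ∈ EE,
        q ^ g.card * (if flip c g ∈ EE then rate lam c g else 0) *
          ((u (flip c g) - u g) * (v (flip c g) - v g)) := by
  have h1 : ∀ c ∈ box n, ∑ g ∈ EE, q ^ g.card * (if flip c g ∈ EE then rate lam c g else 0) *
      ((u (flip c g) - u g) * v g) = -((1 / 2) * ∑ g ∈ EE,
        q ^ g.card * (if flip c g ∈ EE then rate lam c g else 0) *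
          ((u (flip c g) - u g) * (v (flip c g) - v g))) := by
    intro c _
    have h2 := asa_rev q lam hq EE c (fun g g' => (u g' - u g) * v g)
    have h3 : ∑ g ∈ EE, q ^ g.card * (if flip c g ∈ EE then rate lam c g else 0) *
        ((u (flip c g) - u g) * (v (flip c g) - v g)) =
        -(∑ g ∈ EE, q ^ g.card * (if flip c g ∈ EE then rate lam c g else 0) *
          ((u g - u (flip c g)) * v (flip c g))) -
        ∑ g ∈ EE, q ^ g.card * (if flip c g ∈ EE then rate lam c g else 0) *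
          ((u (flip c g) - u g) * v g) := by
      rw [← Finset.sum_neg_distrib, ← Finset.sum_sub_distrib]
      refine Finset.sum_congr rfl fun g _ => ?_
      ring
    rw [h3]
    linarith
  have h4 : ∑ g ∈ EE, q ^ g.card * TPR lam n EE u g * v g = ∑ g ∈ EE, q ^ g.card * u g * v g +
      (1 / (n : ℝ) ^ 2) * ∑ c ∈ box n, ∑ g ∈ EE,
        q ^ g.card * (if flip c g ∈ EE then rate lam c g else 0) * ((u (flip c g) - u g) * v g) := by
    rw [Finset.sum_comm, Finset.mul_sum, ← Finset.sum_add_distrib]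
    refine Finset.sum_congr rfl fun g _ => ?_
    have h5 : ∑ c ∈ box n, q ^ g.card * (if flip c g ∈ EE then rate lam c g else 0) *
        ((u (flip c g) - u g) * v g) = (q ^ g.card * v g) *
        ∑ c ∈ box n, (if flip c g ∈ EE then rate lam c g else 0) * (u (flip c g) - u g) := by
      rw [Finset.mul_sum]
      refine Finset.sum_congr rfl fun c _ => ?_
      ring
    rw [h5, tpr_apply]
    ring
  rw [h4, Finset.sum_congr rfl h1, Finset.sum_neg_distrib]
  ring

theorem tpr_sa (n : ℕ) (q lam : ℝ) (hq : q ^ 4 = lam) (EE : Finset (Finset Edge)) (u v : Finset Edge → ℝ) :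
    ∑ g ∈ EE, q ^ g.card * TPR lam n EE u g * v g = ∑ g ∈ EE, q ^ g.card * u g * TPR lam n EE v g := by
  have h2 : ∑ g ∈ EE, q ^ g.card * u g * TPR lam n EE v g =
      ∑ g ∈ EE, q ^ g.card * TPR lam n EE v g * u g :=
    Finset.sum_congr rfl fun g _ => by ring
  rw [h2, asa_form n q lam hq, asa_form n q lam hq]
  congr 1
  · exact Finset.sum_congr rfl fun g _ => by ring
  · congr 1
    refine Finset.sum_congr rfl fun c _ => ?_
    congr 1
    exact Finset.sum_congr rfl fun g _ => by ring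

private theorem asa_upper (n : ℕ) (lam : ℝ) (h0 : 0 ≤ lam) (h1 : lam ≤ 1) (EE : Finset (Finset Edge))
    (u : Finset Edge → ℝ) (b : ℝ) (g : Finset Edge) (hg : u g ≤ b)
    (hf : ∀ c ∈ box n, flip c g ∈ EE → u (flip c g) ≤ b) : TPR lam n EE u g ≤ b := by
  rw [tpr_apply]
  have h2 : ∑ c ∈ box n, (if flip c g ∈ EE then rate lam c g else 0) * (u (flip c g) - u g) ≤
      ∑ c ∈ box n, (b - u g) := by
    apply Finset.sum_le_sum
    intro c hc
    split_ifs with hE
    · calc rate lam c g * (u (flip c g) - u g) ≤ rate lam c g * (b - u g) :=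
            mul_le_mul_of_nonneg_left (by linarith [hf c hc hE]) (csa_rate_nonneg lam h0 c g)
        _ ≤ 1 * (b - u g) :=
            mul_le_mul_of_nonneg_right (csa_rate_le lam h1 c g) (by linarith)
        _ = b - u g := one_mul _
    · rw [zero_mul]
      linarith
  rw [Finset.sum_const, nsmul_eq_mul] at h2
  have h3 : (1 / (n : ℝ) ^ 2) * ∑ c ∈ box n, (if flip c g ∈ EE then rate lam c g else 0) *
      (u (flip c g) - u g) ≤ (1 / (n : ℝ) ^ 2) * (((box n).card : ℝ) * (b - u g)) :=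
    mul_le_mul_of_nonneg_left h2 (by positivity)
  have h4 : (1 / (n : ℝ) ^ 2) * (((box n).card : ℝ) * (b - u g)) ≤ 1 * (b - u g) := by
    rw [← mul_assoc]
    exact mul_le_mul_of_nonneg_right (csa_box_le n) (by linarith)
  linarith

private theorem asa_neg (n : ℕ) (lam : ℝ) (EE : Finset (Finset Edge)) (u : Finset Edge → ℝ)
    (g : Finset Edge) : TPR lam n EE (fun η => - u η) g = - TPR lam n EE u g := by
  rw [tpr_apply, tpr_apply]
  have h : ∀ c ∈ box n, (if flip c g ∈ EE then rate lam c g else 0) * (-u (flip c g) - -u g) =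
      - ((if flip c g ∈ EE then rate lam c g else 0) * (u (flip c g) - u g)) := by
    intro c _
    ring
  rw [Finset.sum_congr rfl h, Finset.sum_neg_distrib]
  ring

private theorem asa_lower (n : ℕ) (lam : ℝ) (h0 : 0 ≤ lam) (h1 : lam ≤ 1) (EE : Finset (Finset Edge))
    (u : Finset Edge → ℝ) (a : ℝ) (g : Finset Edge) (hg : a ≤ u g)
    (hf : ∀ c ∈ box n, flip c g ∈ EE → a ≤ u (flip c g)) : a ≤ TPR lam n EE u g := by
  have h := asa_upper n lam h0 h1 EE (fun η => - u η) (-a) g (by linarith)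
    (fun c hc hE => by have := hf c hc hE; linarith)
  rw [asa_neg] at h
  linarith

theorem tpr_bd (n : ℕ) (lam : ℝ) (h0 : 0 ≤ lam) (h1 : lam ≤ 1) (EE : Finset (Finset Edge)) (u : Finset Edge → ℝ) (a b : ℝ)
    (hu : ∀ g ∈ EE, a ≤ u g ∧ u g ≤ b) : ∀ g ∈ EE, a ≤ TPR lam n EE u g ∧ TPR lam n EE u g ≤ b := by
  intro g hg
  exact ⟨asa_lower n lam h0 h1 EE u a g (hu g hg).1 (fun c _ hE => (hu _ hE).1),
    asa_upper n lam h0 h1 EE u b g (hu g hg).2 (fun c _ hE => (hu _ hE).2)⟩

theorem tpr_contr (n : ℕ) (q lam : ℝ) (hq : q ^ 4 = lam) (hq0 : 0 < q) (hq1 : q ≤ 1) (EE : Finset (Finset Edge))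
    (u : Finset Edge → ℝ) : ∑ g ∈ EE, q ^ g.card * (TPR lam n EE u g) ^ 2 ≤ ∑ g ∈ EE, q ^ g.card * u g ^ 2 := by
  have hlam1 : lam ≤ 1 := by
    rw [← hq]
    exact pow_le_one₀ hq0.le hq1
  have hlam0 : 0 ≤ lam := by
    rw [← hq]
    positivity
  have hJ : ∀ γ, (TPR lam n EE u γ) ^ 2 ≤ TPR lam n EE (fun η => u η ^ 2) γ := by
    intro γ
    obtain ⟨m, hm⟩ : ∃ m, m = TPR lam n EE u γ := ⟨_, rfl⟩
    have h1 := asa_lower n lam hlam0 hlam1 EE (fun η => (u η - m) ^ 2) 0 γ (sq_nonneg _)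
      (fun c _ _ => sq_nonneg _)
    have h2 : TPR lam n EE (fun η => (u η - m) ^ 2) γ =
        TPR lam n EE (fun η => u η ^ 2) γ - 2 * m * TPR lam n EE u γ + m ^ 2 := by
      rw [tpr_apply, tpr_apply, tpr_apply]
      have h3 : ∀ c ∈ box n, (if flip c γ ∈ EE then rate lam c γ else 0) *
          ((u (flip c γ) - m) ^ 2 - (u γ - m) ^ 2) =
          (if flip c γ ∈ EE then rate lam c γ else 0) * (u (flip c γ) ^ 2 - u γ ^ 2) -
            2 * m * ((if flip c γ ∈ EE then rate lam c γ else 0) * (u (flip c γ) - u γ)) := by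
        intro c _
        ring
      rw [Finset.sum_congr rfl h3, Finset.sum_sub_distrib, ← Finset.mul_sum]
      ring
    rw [h2, ← hm] at h1
    rw [← hm]
    nlinarith
  calc ∑ γ ∈ EE, q ^ γ.card * (TPR lam n EE u γ) ^ 2
      ≤ ∑ γ ∈ EE, q ^ γ.card * TPR lam n EE (fun η => u η ^ 2) γ * (fun _ => (1 : ℝ)) γ := by
        apply Finset.sum_le_sum
        intro γ _
        dsimp only
        rw [mul_one]
        exact mul_le_mul_of_nonneg_left (hJ γ) (by positivity)
    _ = ∑ γ ∈ EE, q ^ γ.card * (fun η => u η ^ 2) γ * TPR lam n EE (fun _ => (1 : ℝ)) γ :=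
        tpr_sa n q lam hq EE _ _
    _ = ∑ γ ∈ EE, q ^ γ.card * u γ ^ 2 := by
        rw [tpr_const]
        apply Finset.sum_congr rfl
        intro γ _
        dsimp only
        rw [mul_one]

theorem tr_dir (n : ℕ) (q lam : ℝ) (hq : q ^ 4 = lam) (hq0 : 0 < q) (hq1 : q ≤ 1) (EE : Finset (Finset Edge))
    (u : Finset Edge → ℝ) :
    lam / (4 * (n : ℝ) ^ 2) * Dir q n EE u ≤ ∑ g ∈ EE, q ^ g.card * u g * (u g - TR lam n EE u g) := by
  classical
  have hlam1 : lam ≤ 1 := by
    rw [← hq]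
    exact pow_le_one₀ hq0.le hq1
  have e1 : ∑ g ∈ EE, q ^ g.card * u g * (u g - TR lam n EE u g) =
      (1 / 2) * (∑ g ∈ EE, q ^ g.card * u g * u g -
        ∑ g ∈ EE, q ^ g.card * TPR lam n EE u g * u g) := by
    rw [← Finset.sum_sub_distrib, Finset.mul_sum]
    refine Finset.sum_congr rfl fun g _ => ?_
    rw [tr_apply]
    ring
  rw [e1, asa_form n q lam hq]
  have e2 : ∀ c ∈ box n, lam * ∑ g ∈ EE.filter (fun g => flip c g ∈ EE),
      q ^ g.card * (u (flip c g) - u g) ^ 2 ≤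
      ∑ g ∈ EE, q ^ g.card * (if flip c g ∈ EE then rate lam c g else 0) *
          ((u (flip c g) - u g) * (u (flip c g) - u g)) := by
    intro c _
    rw [Finset.mul_sum, Finset.sum_filter]
    refine Finset.sum_le_sum fun g _ => ?_
    split_ifs
    · have h1 := csa_le_rate lam hlam1 c g
      have h2 : 0 ≤ q ^ g.card * (u (flip c g) - u g) ^ 2 := by positivity
      have h3 := mul_le_mul_of_nonneg_right h1 h2
      have e3 : q ^ g.card * rate lam c g * ((u (flip c g) - u g) * (u (flip c g) - u g)) =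
          rate lam c g * (q ^ g.card * (u (flip c g) - u g) ^ 2) := by ring
      rw [e3]
      exact h3
    · simp
  have e4 : lam * Dir q n EE u ≤ ∑ c ∈ box n, ∑ g ∈ EE,
      q ^ g.card * (if flip c g ∈ EE then rate lam c g else 0) *
          ((u (flip c g) - u g) * (u (flip c g) - u g)) := by
    unfold Dir
    rw [Finset.mul_sum]
    exact Finset.sum_le_sum e2
  have e5 : ∑ c ∈ box n, (1 / 2 : ℝ) * ∑ g ∈ EE,
      q ^ g.card * (if flip c g ∈ EE then rate lam c g else 0) *
          ((u (flip c g) - u g) * (u (flip c g) - u g)) = (1 / 2 : ℝ) * ∑ c ∈ box n, ∑ g ∈ EE,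
      q ^ g.card * (if flip c g ∈ EE then rate lam c g else 0) *
          ((u (flip c g) - u g) * (u (flip c g) - u g)) := by
    rw [Finset.mul_sum]
  rw [e5]
  have e6 : lam / (4 * (n : ℝ) ^ 2) * Dir q n EE u =
      (1 / (4 * (n : ℝ) ^ 2)) * (lam * Dir q n EE u) := by ring
  rw [e6]
  have h7 : (1 / (4 * (n : ℝ) ^ 2)) * (lam * Dir q n EE u) ≤ (1 / (4 * (n : ℝ) ^ 2)) *
      ∑ c ∈ box n, ∑ g ∈ EE, q ^ g.card * (if flip c g ∈ EE then rate lam c g else 0) *
          ((u (flip c g) - u g) * (u (flip c g) - u g)) :=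
    mul_le_mul_of_nonneg_left e4 (by positivity)
  refine h7.trans (le_of_eq ?_)
  by_cases hn : (n : ℝ) ^ 2 = 0
  · rw [hn]
    simp
  · field_simp
    ring

theorem tr_bd (n : ℕ) (lam : ℝ) (h0 : 0 ≤ lam) (h1 : lam ≤ 1) (EE : Finset (Finset Edge)) (u : Finset Edge → ℝ) (a b : ℝ)
    (hu : ∀ g ∈ EE, a ≤ u g ∧ u g ≤ b) (t : ℕ) : ∀ g ∈ EE, a ≤ ((TR lam n EE) ^ t) u g ∧ ((TR lam n EE) ^ t) u g ≤ b := by
  induction t with
  | zero => exact hu
  | succ t ih =>
    intro g hg
    rw [pow_succ', Module.End.mul_apply, tr_apply]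
    have h2 := ih g hg
    have h3 := tpr_bd n lam h0 h1 EE _ a b ih g hg
    constructor <;> linarith [h2.1, h2.2, h3.1, h3.2]

theorem tr_mean (n : ℕ) (q lam : ℝ) (hq : q ^ 4 = lam) (EE : Finset (Finset Edge)) (u : Finset Edge → ℝ) (t : ℕ) :
    mu q EE (((TR lam n EE) ^ t) u) = mu q EE u := by
  induction t with
  | zero => rfl
  | succ t ih =>
    rw [← ih, pow_succ', Module.End.mul_apply]
    unfold mu
    congr 1
    have h1 := tpr_sa n q lam hq EE (((TR lam n EE) ^ t) u) (fun _ => 1)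
    rw [tpr_const] at h1
    simp only [mul_one] at h1
    have h2 : ∑ g ∈ EE, q ^ g.card * TR lam n EE (((TR lam n EE) ^ t) u) g =
        (1 / 2) * (∑ g ∈ EE, q ^ g.card * (((TR lam n EE) ^ t) u) g +
          ∑ g ∈ EE, q ^ g.card * TPR lam n EE (((TR lam n EE) ^ t) u) g) := by
      rw [← Finset.sum_add_distrib, Finset.mul_sum]
      refine Finset.sum_congr rfl fun g _ => ?_
      rw [tr_apply]
      ring
    rw [h2, h1]
    ring

/-- On `Om n` the restricted lazy chain is the lazy chain. -/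
theorem tr_om (n : ℕ) (lam : ℝ) (u v : Finset Edge → ℝ) (h : ∀ g ∈ Om n, u g = v g) (t : ℕ) :
    ∀ g ∈ Om n, ((TR lam n (Om n)) ^ t) u g = ((TL lam n) ^ t) v g := by
  induction t with
  | zero => exact h
  | succ t ih =>
    intro g hg
    rw [pow_succ', Module.End.mul_apply, tr_apply, pow_succ' (TL lam n) t, Module.End.mul_apply]
    have h1 : TL lam n (((TL lam n) ^ t) v) g =
        (1 / 2 : ℝ) * ((((TL lam n) ^ t) v) g + TP lam n (((TL lam n) ^ t) v) g) := rfl
    rw [h1, ih g hg, tpr_apply, csa_apply, ih g hg]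
    have h3 : ∑ c ∈ box n, (if flip c g ∈ Om n then rate lam c g else 0) *
        ((((TR lam n (Om n)) ^ t) u) (flip c g) - (((TL lam n) ^ t) v) g) =
        ∑ c ∈ box n, rate lam c g * ((((TL lam n) ^ t) v) (flip c g) - (((TL lam n) ^ t) v) g) := by
      refine Finset.sum_congr rfl fun c hc => ?_
      have h2 := flip_mem hc hg
      rw [if_pos h2, ih _ h2]
    rw [h3]

end

end Pool.Agent.H40.WM
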