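import Mathlib
import Pool.Agent.H40.WM.ASa
import Pool.Agent.H40.SQ.CMon
import Pool.Agent.H40.SQ.CSa

/-!
# ADom: the chain restricted to an up-set dominates the true chain

`TL v g = ∑_{c ∈ box n} (1/n^2) (v g + (1/2) rate(c,g) (v (flip c g) - v g))` and the same for `TR` with the rejection.  For a face `c` let `ups` = `up c` if `s = 1`,
`dn c` if `s = -1`; `dns` the other one.  Let `pu` = rate of the `s`-raising move at `c` (`lam` if raising means adding the square, i.e. `s * sgn c = 1`, else `1`), `pd` the rate of the lowering move.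
Then `v g + (1/2) rate (v (flip c g) - v g) = (1 - pu/2 - pd/2) v g + (pu/2) v (ups g) + (pd/2) v (dns g)` (at most one of the moves is possible; the impossible one is
the identity; if `flip c g = g` all terms are `v g`).  For the restricted chain the lowering move is replaced by `dns' g' = dns g'` if it is in `EE`, else `g'`; raising moves stay in
`EE` (`UpS`; `LeS s g' (ups g')`; `up_mem`, `dn_mem`).  Monotonicity (`up_mono`, `dn_mono`; for `s = -1` `LeS (-1) g g'` is `Le g' g`): `LeS s (ups g) (ups g')`, `LeS s (dns g) (dns g')`, and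
`LeS s (dns g) g'` because `dns g ≤ g ≤ g'`.  All coefficients are nonnegative (`lam ≤ 1`).
-/

set_option autoImplicit false

namespace Pool.Agent.H40.WM

open Pool.Agent.H40.SQ

noncomputable section

private def pu2 (lam : ℝ) (c : ℤ × ℤ) : ℝ := if sgn c.1 c.2 = 1 then lam else 1

private def pd2 (lam : ℝ) (c : ℤ × ℤ) : ℝ := if sgn c.1 c.2 = 1 then 1 else lam

private theorem rate_rep (lam : ℝ) (c : ℤ × ℤ) (g : Finset Edge → ℝ) (γ : Finset Edge) :
    rate lam c γ * (g (SQ.flip c γ) - g γ) =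
      pu2 lam c * (g (up c γ) - g γ) + pd2 lam c * (g (dn c γ) - g γ) := by
  unfold rate SQ.flip up dn pu2 pd2
  by_cases h1 : sq c ∩ γ = ∅
  · have h2 : ¬ sq c ⊆ γ := by
      intro h
      rw [Finset.inter_eq_left.mpr h] at h1
      exact hflip_nonempty c h1
    by_cases hs : sgn c.1 c.2 = 1
    · simp only [if_pos h1, if_neg h2, if_pos hs]
      ring
    · simp only [if_pos h1, if_neg h2, if_neg hs]
      ring
  · by_cases h2 : sq c ⊆ γ
    · by_cases hs : sgn c.1 c.2 = 1
      · simp only [if_neg h1, if_pos h2, if_pos hs]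
        ring
      · simp only [if_neg h1, if_pos h2, if_neg hs]
        ring
    · by_cases hs : sgn c.1 c.2 = 1
      · simp only [if_neg h1, if_neg h2, if_pos hs]
        ring
      · simp only [if_neg h1, if_neg h2, if_neg hs]
        ring

private theorem up_cases (c : ℤ × ℤ) (γ : Finset Edge) : up c γ = γ ∨ up c γ = SQ.flip c γ := by
  unfold SQ.flip up
  by_cases h1 : sq c ∩ γ = ∅
  · have h2 : ¬ sq c ⊆ γ := by
      intro h
      rw [Finset.inter_eq_left.mpr h] at h1
      exact hflip_nonempty c h1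
    rw [if_pos h1, if_pos h1, if_neg h2]
    split_ifs
    · exact Or.inr rfl
    · exact Or.inl rfl
  · rw [if_neg h1, if_neg h1]
    split_ifs <;> simp

private theorem dn_cases (c : ℤ × ℤ) (γ : Finset Edge) : dn c γ = γ ∨ dn c γ = SQ.flip c γ := by
  unfold SQ.flip dn
  by_cases h1 : sq c ∩ γ = ∅
  · have h2 : ¬ sq c ⊆ γ := by
      intro h
      rw [Finset.inter_eq_left.mpr h] at h1
      exact hflip_nonempty c h1
    rw [if_pos h1, if_pos h1, if_neg h2]
    split_ifs
    · exact Or.inl rfl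
    · exact Or.inr rfl
  · rw [if_neg h1, if_neg h1]
    split_ifs <;> simp

private theorem F_union_sq {n : ℕ} {c : ℤ × ℤ} (hc : c ∈ box n) {γ : Finset Edge}
    (h : sq c ∩ γ = ∅) (i j : ℤ) :
    F (γ ∪ sq c) i j = F γ i j + if (i, j) = c then sgn c.1 c.2 else 0 := by
  have hd : Disjoint γ (sq c) := by
    rw [Finset.disjoint_iff_inter_eq_empty, Finset.inter_comm]
    exact h
  rw [F_union hd, F_sq hc]

private theorem F_sdiff_sq {n : ℕ} {c : ℤ × ℤ} (hc : c ∈ box n) {γ : Finset Edge}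
    (h : sq c ⊆ γ) (i j : ℤ) :
    F (γ \ sq c) i j = F γ i j - if (i, j) = c then sgn c.1 c.2 else 0 := by
  have h1 := F_union (Finset.sdiff_disjoint (s := sq c) (t := γ)) i j
  rw [Finset.sdiff_union_of_subset h, F_sq hc] at h1
  rw [h1]
  ring

private theorem up_ge {n : ℕ} {c : ℤ × ℤ} (hc : c ∈ box n) (γ : Finset Edge) (i j : ℤ) :
    F γ i j ≤ F (up c γ) i j := by
  rcases sgn_cases c.1 c.2 with hs | hs
  · by_cases h : sq c ∩ γ = ∅
    · have h1 : up c γ = γ ∪ sq c := by unfold up; rw [if_pos hs, if_pos h]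
      rw [h1, F_union_sq hc h, hs]
      split_ifs <;> omega
    · have h1 : up c γ = γ := by unfold up; rw [if_pos hs, if_neg h]
      rw [h1]
  · have hs1 : ¬ sgn c.1 c.2 = 1 := by rw [hs]; norm_num
    by_cases h : sq c ⊆ γ
    · have h1 : up c γ = γ \ sq c := by unfold up; rw [if_neg hs1, if_pos h]
      rw [h1, F_sdiff_sq hc h, hs]
      split_ifs <;> omega
    · have h1 : up c γ = γ := by unfold up; rw [if_neg hs1, if_neg h]
      rw [h1]

private theorem dn_le {n : ℕ} {c : ℤ × ℤ} (hc : c ∈ box n) (γ : Finset Edge) (i j : ℤ) :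
    F (dn c γ) i j ≤ F γ i j := by
  rcases sgn_cases c.1 c.2 with hs | hs
  · by_cases h : sq c ⊆ γ
    · have h1 : dn c γ = γ \ sq c := by unfold dn; rw [if_pos hs, if_pos h]
      rw [h1, F_sdiff_sq hc h, hs]
      split_ifs <;> omega
    · have h1 : dn c γ = γ := by unfold dn; rw [if_pos hs, if_neg h]
      rw [h1]
  · have hs1 : ¬ sgn c.1 c.2 = 1 := by rw [hs]; norm_num
    by_cases h : sq c ∩ γ = ∅
    · have h1 : dn c γ = γ ∪ sq c := by unfold dn; rw [if_neg hs1, if_pos h]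
      rw [h1, F_union_sq hc h, hs]
      split_ifs <;> omega
    · have h1 : dn c γ = γ := by unfold dn; rw [if_neg hs1, if_neg h]
      rw [h1]

/-- One face. -/
private theorem face (lam : ℝ) (EE : Finset (Finset Edge)) (c : ℤ × ℤ) (v w : Finset Edge → ℝ)
    (U D : Finset Edge → Finset Edge) (pU pD : ℝ) (hU0 : 0 ≤ pU) (hD0 : 0 ≤ pD)
    (hsum : pU / 2 + pD / 2 ≤ 1)
    (hrep : ∀ (φ : Finset Edge → ℝ) (γ : Finset Edge), rate lam c γ * (φ (SQ.flip c γ) - φ γ) =
      pU * (φ (U γ) - φ γ) + pD * (φ (D γ) - φ γ))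
    (g g' : Finset Edge) (hg' : g' ∈ EE) (hU1 : U g' = g' ∨ U g' = SQ.flip c g')
    (hD1 : D g' = g' ∨ D g' = SQ.flip c g') (hUE : U g' ∈ EE) (a1 : v g ≤ w g')
    (a2 : v (U g) ≤ w (U g')) (a3 : D g' ∈ EE → v (D g) ≤ w (D g')) (a4 : v (D g) ≤ w g') :
    v g + (1 / 2) * (rate lam c g * (v (SQ.flip c g) - v g)) ≤
      w g' + (1 / 2) * ((if SQ.flip c g' ∈ EE then rate lam c g' else 0) *
        (w (SQ.flip c g') - w g')) := by
  rw [hrep v g]
  have m1 := mul_le_mul_of_nonneg_left a1 (show 0 ≤ 1 - pU / 2 - pD / 2 by linarith)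
  by_cases hf : SQ.flip c g' ∈ EE
  · rw [if_pos hf, hrep w g']
    have hDE : D g' ∈ EE := by
      rcases hD1 with h | h
      · rw [h]
        exact hg'
      · rw [h]
        exact hf
    have m2 := mul_le_mul_of_nonneg_left a2 hU0
    have m3 := mul_le_mul_of_nonneg_left (a3 hDE) hD0
    nlinarith
  · rw [if_neg hf, zero_mul]
    have hUg : U g' = g' := by
      rcases hU1 with h | h
      · exact h
      · rw [h] at hUE
        exact absurd hUE hf
    rw [hUg] at a2
    have m2 := mul_le_mul_of_nonneg_left a2 hU0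
    have m3 := mul_le_mul_of_nonneg_left a4 hD0
    nlinarith

private theorem box_card (n : ℕ) : ((box n).card : ℝ) = (n : ℝ) ^ 2 := by
  unfold box
  rw [Finset.card_product, Int.card_Ico, sub_zero, Int.toNat_natCast]
  push_cast
  ring

private theorem avg (n : ℕ) (hn : 1 ≤ n) (a : ℝ) (f : ℤ × ℤ → ℝ) :
    (1 / 2 : ℝ) * (a + (a + (1 / (n : ℝ) ^ 2) * ∑ c ∈ box n, f c)) =
      (1 / (n : ℝ) ^ 2) * ∑ c ∈ box n, (a + (1 / 2) * f c) := by
  have hn0 : (n : ℝ) ≠ 0 := Nat.cast_ne_zero.2 (by omega)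
  rw [Finset.sum_add_distrib, ← Finset.mul_sum, Finset.sum_const, nsmul_eq_mul, box_card]
  field_simp
  ring

theorem cross (n : ℕ) (hn : 1 ≤ n) (lam : ℝ) (h0 : 0 ≤ lam) (h1 : lam ≤ 1) (s : ℤ) (hs : s = 1 ∨ s = -1)
    (EE : Finset (Finset Edge)) (hE : UpS n s EE) (v w : Finset Edge → ℝ)
    (h : ∀ g ∈ Om n, ∀ g' ∈ EE, LeS s g g' → v g ≤ w g') :
    ∀ g ∈ Om n, ∀ g' ∈ EE, LeS s g g' → TL lam n v g ≤ TR lam n EE w g' := by
  intro g hg g' hg' hle
  obtain ⟨hEO, hEup⟩ := hE
  have hg'O := hEO hg'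
  have e1 : TL lam n v g = (1 / 2 : ℝ) * (v g + (v g + (1 / (n : ℝ) ^ 2) *
      ∑ c ∈ box n, rate lam c g * (v (SQ.flip c g) - v g))) := rfl
  have e2 : TR lam n EE w g' = (1 / 2 : ℝ) * (w g' + (w g' + (1 / (n : ℝ) ^ 2) *
      ∑ c ∈ box n, (if SQ.flip c g' ∈ EE then rate lam c g' else 0) *
        (w (SQ.flip c g') - w g'))) := rfl
  rw [e1, e2, avg n hn, avg n hn]
  refine mul_le_mul_of_nonneg_left ?_ (by positivity)
  refine Finset.sum_le_sum fun c hc => ?_
  have hpu0 : 0 ≤ pu2 lam c := by unfold pu2; split_ifs <;> linarith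
  have hpd0 : 0 ≤ pd2 lam c := by unfold pd2; split_ifs <;> linarith
  have hsum : pu2 lam c / 2 + pd2 lam c / 2 ≤ 1 := by
    unfold pu2 pd2
    split_ifs <;> linarith
  rcases hs with rfl | rfl
  · have hLe : Le g g' := by
      intro i j
      have := hle i j
      rwa [one_mul, one_mul] at this
    have hL : ∀ x y : Finset Edge, Le x y → LeS 1 x y := by
      intro x y hxy i j
      rw [one_mul, one_mul]
      exact hxy i j
    have hUE : up c g' ∈ EE := hEup g' hg' _ (up_mem hc hg'O) (hL _ _ (fun i j => up_ge hc g' i j))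
    refine face lam EE c v w (up c) (dn c) (pu2 lam c) (pd2 lam c) hpu0 hpd0 hsum
      (fun φ γ => rate_rep lam c φ γ) g g' hg' (up_cases c g') (dn_cases c g') hUE
      (h g hg g' hg' hle) ?_ ?_ ?_
    · exact h _ (up_mem hc hg) _ hUE (hL _ _ (up_mono hc hg hg'O hLe))
    · intro hD
      exact h _ (dn_mem hc hg) _ hD (hL _ _ (dn_mono hc hg hg'O hLe))
    · exact h _ (dn_mem hc hg) _ hg' (hL _ _ (fun i j => (dn_le hc g i j).trans (hLe i j)))
  · have hLe : Le g' g := by
      intro i j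
      have := hle i j
      omega
    have hL : ∀ x y : Finset Edge, Le y x → LeS (-1) x y := by
      intro x y hxy i j
      have := hxy i j
      omega
    have hUE : dn c g' ∈ EE := hEup g' hg' _ (dn_mem hc hg'O) (hL _ _ (fun i j => dn_le hc g' i j))
    refine face lam EE c v w (dn c) (up c) (pd2 lam c) (pu2 lam c) hpd0 hpu0 (by linarith)
      (fun φ γ => by rw [rate_rep lam c φ γ]; ring) g g' hg' (dn_cases c g') (up_cases c g') hUE
      (h g hg g' hg' hle) ?_ ?_ ?_
    · exact h _ (dn_mem hc hg) _ hUE (hL _ _ (dn_mono hc hg'O hg hLe))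
    · intro hD
      exact h _ (up_mem hc hg) _ hD (hL _ _ (up_mono hc hg'O hg hLe))
    · exact h _ (up_mem hc hg) _ hg' (hL _ _ (fun i j => (hLe i j).trans (up_ge hc g i j)))

theorem cross_pow (n : ℕ) (hn : 1 ≤ n) (lam : ℝ) (h0 : 0 ≤ lam) (h1 : lam ≤ 1) (s : ℤ) (hs : s = 1 ∨ s = -1)
    (EE : Finset (Finset Edge)) (hE : UpS n s EE) (v w : Finset Edge → ℝ)
    (h : ∀ g ∈ Om n, ∀ g' ∈ EE, LeS s g g' → v g ≤ w g') (t : ℕ) :
    ∀ g ∈ Om n, ∀ g' ∈ EE, LeS s g g' → ((TL lam n) ^ t) v g ≤ ((TR lam n EE) ^ t) w g' := by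
  induction t with
  | zero => exact h
  | succ t ih =>
    rw [pow_succ', pow_succ']
    exact cross n hn lam h0 h1 s hs EE hE _ _ ih

end

end Pool.Agent.H40.WM
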