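import Mathlib
import Pool.Agent.H40.WM.QDefs
import Pool.Agent.H40.SQ.CKer
import Pool.Agent.H40.SQ.CMon

/-!
# AFroM: natural number labels

The frozen statement codes edges in `ℕ × ℕ × ℕ`: `(0,i,j)` horizontal, `(1,i,j)` vertical.  `cod e = (decide (e.1 = 1), e.2.1, e.2.2) : Edge`; `img γ = γ.image cod`.
Let `EN n = (range n ×ˢ range n).biUnion sqN` with `sqN c = {(0,i,j),(0,i,j+1),(1,i,j),(1,i+1,j)}`.
* `cod` is injective on labels with first coordinate `0` or `1`, in particular on `EN n` and all `sqN c`; `img (sqN (i,j)) = sq (i,j)`; `img (EN n) = E n`; `img` is a bijection between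
  the subsets of `EN n` and the subsets of `E n`, compatible with `∩, ∪, \, ⊆` (for subsets of `EN n ∪ sqN c`).
* So for `γ, γ' ⊆ EN n` the transition probability of the frozen statement is `PK lam n (img γ) (img γ')` (sum over `range n ×ˢ range n` versus `box n`: bijection `(i,j) ↦ ((i:ℤ),(j:ℤ))`),
  and by induction on `t` `mu lam n γ0 t γ = law lam n (img γ0) t (img γ)` for `γ0, γ ⊆ EN n` (sum over the powersets: `Finset.sum_bij` / `sum_nbij`).
`muN_supp`: for `γ` not a subset of `EN n` and `t ≥ 1`... if `γ0 ⊆ EN n` then `mu lam n γ0 t γ = 0` (the term `t = 0`: `γ ≠ γ0`; `t+1`: all terms of the sum are products with `P γ'' γ` where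
`γ'' ⊆ EN n`; the result of a move from a subset of `EN n` is a subset of `EN n`, so every indicator `γ = ...` is false).
-/

set_option autoImplicit false

namespace Pool.Agent.H40.WM

open Pool.Agent.H40.SQ

noncomputable section

def cod (e : ℕ × ℕ × ℕ) : Edge := (decide (e.1 = 1), (e.2.1 : ℤ), (e.2.2 : ℤ))

def img (γ : Finset (ℕ × ℕ × ℕ)) : Finset Edge := γ.image cod

def sqN (c : ℕ × ℕ) : Finset (ℕ × ℕ × ℕ) := {(0, c.1, c.2), (0, c.1, c.2 + 1), (1, c.1, c.2), (1, c.1 + 1, c.2)}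

def EN (n : ℕ) : Finset (ℕ × ℕ × ℕ) := (Finset.range n ×ˢ Finset.range n).biUnion sqN

def PN (lam : ℝ) (n : ℕ) (γ γ' : Finset (ℕ × ℕ × ℕ)) : ℝ :=
  ∑ c ∈ Finset.range n ×ˢ Finset.range n, (1 / ((n : ℝ) ^ 2)) *
    (if sqN c ∩ γ = ∅ then
      (lam * (if γ' = γ ∪ sqN c then (1 : ℝ) else 0) + (1 - lam) * (if γ' = γ then (1 : ℝ) else 0))
    else if sqN c ⊆ γ then (if γ' = γ \ sqN c then (1 : ℝ) else 0)
    else (if γ' = γ then (1 : ℝ) else 0))

def muN (lam : ℝ) (n : ℕ) (γ0 : Finset (ℕ × ℕ × ℕ)) : ℕ → Finset (ℕ × ℕ × ℕ) → ℝ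
  | 0 => fun γ => if γ = γ0 then 1 else 0
  | t + 1 => fun γ' => ∑ γ ∈ (EN n).powerset, muN lam n γ0 t γ * PN lam n γ γ'

private def Gd (γ : Finset (ℕ × ℕ × ℕ)) : Prop := ∀ e ∈ γ, e.1 = 0 ∨ e.1 = 1

private theorem cod_inj {e e' : ℕ × ℕ × ℕ} (h : e.1 = 0 ∨ e.1 = 1) (h' : e'.1 = 0 ∨ e'.1 = 1)
    (he : cod e = cod e') : e = e' := by
  obtain ⟨a, b, c⟩ := e
  obtain ⟨a', b', c'⟩ := e'
  unfold cod at he
  simp only [Prod.mk.injEq, Nat.cast_inj, decide_eq_decide] at he h h' ⊢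
  refine ⟨?_, he.2.1, he.2.2⟩
  have h1 := he.1
  omega

private theorem gd_sqN (c : ℕ × ℕ) : Gd (sqN c) := by
  intro e he
  unfold sqN at he
  simp only [Finset.mem_insert, Finset.mem_singleton] at he
  rcases he with rfl | rfl | rfl | rfl
  · exact Or.inl rfl
  · exact Or.inl rfl
  · exact Or.inr rfl
  · exact Or.inr rfl

private theorem gd_EN {n : ℕ} {γ : Finset (ℕ × ℕ × ℕ)} (h : γ ⊆ EN n) : Gd γ := by
  intro e he
  have h1 := h he
  unfold EN at h1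
  rw [Finset.mem_biUnion] at h1
  obtain ⟨c, _, hc⟩ := h1
  exact gd_sqN c e hc

private theorem gd_union {γ γ' : Finset (ℕ × ℕ × ℕ)} (h : Gd γ) (h' : Gd γ') : Gd (γ ∪ γ') := by
  intro e he
  rcases Finset.mem_union.1 he with h1 | h1
  · exact h e h1
  · exact h' e h1

private theorem gd_sdiff {γ γ' : Finset (ℕ × ℕ × ℕ)} (h : Gd γ) : Gd (γ \ γ') := by
  intro e he
  exact h e (Finset.mem_sdiff.1 he).1

private theorem mem_img {γ : Finset (ℕ × ℕ × ℕ)} (hγ : Gd γ) {e : ℕ × ℕ × ℕ}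
    (he : e.1 = 0 ∨ e.1 = 1) : cod e ∈ img γ ↔ e ∈ γ := by
  unfold img
  rw [Finset.mem_image]
  constructor
  · rintro ⟨e', h1, h2⟩
    rw [← cod_inj (hγ e' h1) he h2]
    exact h1
  · intro h
    exact ⟨e, h, rfl⟩

private theorem mem_img' {γ : Finset (ℕ × ℕ × ℕ)} {x : Edge} (hx : x ∈ img γ) :
    ∃ e ∈ γ, cod e = x := by
  unfold img at hx
  exact Finset.mem_image.1 hx

private theorem img_sub_iff {γ γ' : Finset (ℕ × ℕ × ℕ)} (h : Gd γ) (h' : Gd γ') :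
    img γ ⊆ img γ' ↔ γ ⊆ γ' := by
  constructor
  · intro h1 e he
    exact (mem_img h' (h e he)).1 (h1 ((mem_img h (h e he)).2 he))
  · intro h1 x hx
    obtain ⟨e, he, rfl⟩ := mem_img' hx
    exact (mem_img h' (h e he)).2 (h1 he)

private theorem img_eq_iff {γ γ' : Finset (ℕ × ℕ × ℕ)} (h : Gd γ) (h' : Gd γ') :
    img γ = img γ' ↔ γ = γ' := by
  constructor
  · intro h1
    exact Finset.Subset.antisymm ((img_sub_iff h h').1 (by rw [h1]))
      ((img_sub_iff h' h).1 (by rw [h1]))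
  · intro h1
    rw [h1]

private theorem img_union (γ γ' : Finset (ℕ × ℕ × ℕ)) : img (γ ∪ γ') = img γ ∪ img γ' := by
  unfold img
  exact Finset.image_union _ _

private theorem img_sdiff {γ γ' : Finset (ℕ × ℕ × ℕ)} (h : Gd γ) (h' : Gd γ') :
    img (γ \ γ') = img γ \ img γ' := by
  ext x
  rw [Finset.mem_sdiff]
  constructor
  · intro hx
    obtain ⟨e, he, rfl⟩ := mem_img' hx
    rw [Finset.mem_sdiff] at he
    exact ⟨(mem_img h (h e he.1)).2 he.1, fun h1 => he.2 ((mem_img h' (h e he.1)).1 h1)⟩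
  · rintro ⟨hx, hx'⟩
    obtain ⟨e, he, rfl⟩ := mem_img' hx
    refine (mem_img (gd_sdiff h) (h e he)).2 (Finset.mem_sdiff.2 ⟨he, ?_⟩)
    intro h1
    exact hx' ((mem_img h' (h e he)).2 h1)

private theorem img_inter_iff {γ γ' : Finset (ℕ × ℕ × ℕ)} (h : Gd γ) (h' : Gd γ') :
    img γ ∩ img γ' = ∅ ↔ γ ∩ γ' = ∅ := by
  rw [Finset.eq_empty_iff_forall_notMem, Finset.eq_empty_iff_forall_notMem]
  constructor
  · intro h1 e he
    rw [Finset.mem_inter] at he
    exact h1 (cod e) (Finset.mem_inter.2 ⟨(mem_img h (h e he.1)).2 he.1,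
      (mem_img h' (h e he.1)).2 he.2⟩)
  · intro h1 x hx
    rw [Finset.mem_inter] at hx
    obtain ⟨e, he, rfl⟩ := mem_img' hx.1
    exact h1 e (Finset.mem_inter.2 ⟨he, (mem_img h' (h e he)).1 hx.2⟩)

private theorem img_sqN (c : ℕ × ℕ) : img (sqN c) = SQ.sq ((c.1 : ℤ), (c.2 : ℤ)) := by
  unfold img sqN SQ.sq cod
  simp [Finset.image_insert]

theorem img_inj {n : ℕ} {γ γ' : Finset (ℕ × ℕ × ℕ)} (h : γ ⊆ EN n) (h' : γ' ⊆ EN n) (he : img γ = img γ') : γ = γ' :=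
  (img_eq_iff (gd_EN h) (gd_EN h')).1 he

private theorem sqN_sub {n : ℕ} {c : ℕ × ℕ} (hc : c ∈ Finset.range n ×ˢ Finset.range n) :
    sqN c ⊆ EN n :=
  Finset.subset_biUnion_of_mem sqN hc

private theorem box_of {n : ℕ} {c : ℕ × ℕ} (hc : c ∈ Finset.range n ×ˢ Finset.range n) :
    ((c.1 : ℤ), (c.2 : ℤ)) ∈ box n := by
  rw [Finset.mem_product, Finset.mem_range, Finset.mem_range] at hc
  unfold box
  rw [Finset.mem_product, Finset.mem_Ico, Finset.mem_Ico]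
  dsimp only
  omega

private theorem of_box {n : ℕ} {x : ℤ × ℤ} (hx : x ∈ box n) :
    (x.1.toNat, x.2.toNat) ∈ Finset.range n ×ˢ Finset.range n ∧
      (((x.1.toNat : ℕ) : ℤ), ((x.2.toNat : ℕ) : ℤ)) = x := by
  unfold box at hx
  rw [Finset.mem_product, Finset.mem_Ico, Finset.mem_Ico] at hx
  refine ⟨?_, ?_⟩
  · rw [Finset.mem_product, Finset.mem_range, Finset.mem_range]
    dsimp only
    omega
  · exact Prod.ext (Int.toNat_of_nonneg hx.1.1) (Int.toNat_of_nonneg hx.2.1)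

theorem img_surj {n : ℕ} {g : Finset Edge} (h : g ⊆ E n) : ∃ γ : Finset (ℕ × ℕ × ℕ), γ ⊆ EN n ∧ img γ = g := by
  classical
  refine ⟨(EN n).filter (fun e => cod e ∈ g), Finset.filter_subset _ _, ?_⟩
  ext x
  constructor
  · intro hx
    obtain ⟨e, he, rfl⟩ := mem_img' hx
    exact (Finset.mem_filter.1 he).2
  · intro hx
    have h1 := h hx
    unfold E at h1
    rw [Finset.mem_biUnion] at h1
    obtain ⟨c, hc, hxc⟩ := h1
    obtain ⟨h2, h3⟩ := of_box hc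
    rw [← h3] at hxc
    have h4 := img_sqN (c.1.toNat, c.2.toNat)
    rw [← h4] at hxc
    obtain ⟨e, he, rfl⟩ := mem_img' hxc
    unfold img
    rw [Finset.mem_image]
    exact ⟨e, Finset.mem_filter.2 ⟨sqN_sub h2 he, hx⟩, rfl⟩

theorem img_sub {n : ℕ} {γ : Finset (ℕ × ℕ × ℕ)} (h : γ ⊆ EN n) : img γ ⊆ E n := by
  intro x hx
  obtain ⟨e, he, rfl⟩ := mem_img' hx
  have h1 := h he
  unfold EN at h1
  rw [Finset.mem_biUnion] at h1
  obtain ⟨c, hc, hec⟩ := h1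
  unfold E
  rw [Finset.mem_biUnion]
  refine ⟨((c.1 : ℤ), (c.2 : ℤ)), box_of hc, ?_⟩
  rw [← img_sqN]
  exact (mem_img (gd_sqN c) (gd_sqN c e hec)).2 hec

theorem PN_eq (lam : ℝ) (n : ℕ) {γ γ' : Finset (ℕ × ℕ × ℕ)} (h : γ ⊆ EN n) (h' : γ' ⊆ EN n) :
    PN lam n γ γ' = PK lam n (img γ) (img γ') := by
  unfold PN PK
  refine Finset.sum_nbij' (fun c => ((c.1 : ℤ), (c.2 : ℤ))) (fun x => (x.1.toNat, x.2.toNat))
    (fun c hc => box_of hc) (fun x hx => (of_box hx).1) ?_ (fun x hx => (of_box hx).2) ?_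
  · intro c _
    exact Prod.ext (Int.toNat_natCast _) (Int.toNat_natCast _)
  · intro c hc
    have g1 := gd_EN h
    have g2 := gd_EN h'
    have g3 := gd_sqN c
    have i1 : (sqN c ∩ γ = ∅) ↔ (SQ.sq ((c.1 : ℤ), (c.2 : ℤ)) ∩ img γ = ∅) := by
      rw [← img_sqN, img_inter_iff g3 g1]
    have i2 : (sqN c ⊆ γ) ↔ (SQ.sq ((c.1 : ℤ), (c.2 : ℤ)) ⊆ img γ) := by
      rw [← img_sqN, img_sub_iff g3 g1]
    have i3 : (γ' = γ ∪ sqN c) ↔ (img γ' = img γ ∪ SQ.sq ((c.1 : ℤ), (c.2 : ℤ))) := by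
      rw [← img_sqN, ← img_union, img_eq_iff g2 (gd_union g1 g3)]
    have i4 : (γ' = γ \ sqN c) ↔ (img γ' = img γ \ SQ.sq ((c.1 : ℤ), (c.2 : ℤ))) := by
      rw [← img_sqN, ← img_sdiff g1 g3, img_eq_iff g2 (gd_sdiff g1)]
    have i5 : (γ' = γ) ↔ (img γ' = img γ) := (img_eq_iff g2 g1).symm
    simp only [i1, i2, i3, i4, i5]

theorem muN_eq (lam : ℝ) (n : ℕ) {γ0 γ : Finset (ℕ × ℕ × ℕ)} (h0 : γ0 ⊆ EN n) (h : γ ⊆ EN n) (t : ℕ) :
    muN lam n γ0 t γ = law lam n (img γ0) t (img γ) := by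
  induction t generalizing γ with
  | zero =>
    unfold muN law
    have i5 : (γ = γ0) ↔ (img γ = img γ0) := (img_eq_iff (gd_EN h) (gd_EN h0)).symm
    simp only [i5]
  | succ t ih =>
    unfold muN law
    refine Finset.sum_bij (fun η _ => img η) ?_ ?_ ?_ ?_
    · intro η hη
      exact Finset.mem_powerset.2 (img_sub (Finset.mem_powerset.1 hη))
    · intro η hη η' hη' he
      exact img_inj (Finset.mem_powerset.1 hη) (Finset.mem_powerset.1 hη') he
    · intro g hg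
      obtain ⟨η, h1, h2⟩ := img_surj (Finset.mem_powerset.1 hg)
      exact ⟨η, Finset.mem_powerset.2 h1, h2⟩
    · intro η hη
      rw [ih (Finset.mem_powerset.1 hη), PN_eq lam n (Finset.mem_powerset.1 hη) h]

theorem muN_supp (lam : ℝ) (n : ℕ) {γ0 : Finset (ℕ × ℕ × ℕ)} (h0 : γ0 ⊆ EN n) (t : ℕ) {γ : Finset (ℕ × ℕ × ℕ)}
    (h : ¬ γ ⊆ EN n) : muN lam n γ0 t γ = 0 := by
  cases t with
  | zero =>
    unfold muN
    rw [if_neg]
    intro h1
    rw [h1] at h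
    exact h h0
  | succ t =>
    unfold muN
    refine Finset.sum_eq_zero fun η hη => ?_
    have hηs := Finset.mem_powerset.1 hη
    have h1 : PN lam n η γ = 0 := by
      unfold PN
      refine Finset.sum_eq_zero fun c hc => ?_
      have e1 : ¬ γ = η ∪ sqN c := fun h2 => h (by
        rw [h2]
        exact Finset.union_subset hηs (sqN_sub hc))
      have e2 : ¬ γ = η \ sqN c := fun h2 => h (by
        rw [h2]
        exact Finset.sdiff_subset.trans hηs)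
      have e3 : ¬ γ = η := fun h2 => h (by
        rw [h2]
        exact hηs)
      rw [if_neg e1, if_neg e2, if_neg e3]
      simp
    rw [h1, mul_zero]

/-- States reached from the empty set are coded by elements of `Om n`. -/
theorem muN_reach (lam : ℝ) (n : ℕ) (t : ℕ) {γ : Finset (ℕ × ℕ × ℕ)} (h : 0 < muN lam n ∅ t γ) :
    γ ⊆ EN n ∧ img γ ∈ Om n := by
  have h0 : (∅ : Finset (ℕ × ℕ × ℕ)) ⊆ EN n := Finset.empty_subset _
  have h1 : γ ⊆ EN n := by
    by_contra h2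
    rw [muN_supp lam n h0 t h2] at h
    exact lt_irrefl _ h
  refine ⟨h1, ?_⟩
  by_contra h2
  rw [muN_eq lam n h0 h1 t] at h
  have h3 : img ∅ = ∅ := rfl
  have h4 : (∅ : Finset Edge) ∈ Om n := by
    rw [mem_Om]
    refine ⟨Finset.empty_subset _, fun i j => ?_⟩
    unfold ind
    simp
  rw [h3, law_supp n lam h4 t h2] at h
  exact lt_irrefl _ h

end

end Pool.Agent.H40.WM
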