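import Mathlib
import Pool.Agent.H40.WM.AFroM
import Pool.Agent.H40.SQ.CKer
import Pool.Agent.H40.SQ.FDef

/-!
# AFroO: total variation and the case `n = 1`

* `tv_of_test`: for probability vectors on the subsets of `E n`: with `ψ γ = 1` if `law γ0 t γ > law γ1 t γ`, else `0`:
  `(1/2) ∑ |p - r| = ∑ (p - r) 1[p > r]` because `∑ p = ∑ r` (both laws have the same total mass: `law_TP` with the constant function, `TP_const`; outside `Om n` both vanish, `law_supp`), and this is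
  `TP^t ψ γ0 - TP^t ψ γ1` by `law_TP`.
* `n = 1`: `Om 1 = {∅, sq (0,0)}`.  Let `d_t = TP^t ψ ∅ - TP^t ψ (sq (0,0))`.  `TP g ∅ = g ∅ + lam (g S - g ∅)`, `TP g S = g ∅`, so `d_{t+1} = - lam'...`: with `g = TP^t ψ`,
  `TP g ∅ - TP g S = lam (g S - g ∅)`, so `|d_{t+1}| = lam |d_t|`; for `t ≥ 1` `|d_t| ≤ lam^t ≤ lam ≤ 1/4`.
-/

set_option autoImplicit false

namespace Pool.Agent.H40.WM

open Pool.Agent.H40.SQ

noncomputable section

private theorem afroo_pow_const (n : ℕ) (lam : ℝ) (t : ℕ) (c : ℝ) :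
    ((TP lam n) ^ t) (fun _ => c) = fun _ => c := by
  induction t with
  | zero => rw [pow_zero, Module.End.one_apply]
  | succ t ih => rw [pow_succ, Module.End.mul_apply, TP_const, ih]

private theorem afroo_pow_sup (n : ℕ) (lam : ℝ) (h0 : 0 ≤ lam) (h1 : lam ≤ 1) (t : ℕ) (g : Finset Edge → ℝ) (a b : ℝ)
    (hg : ∀ γ ∈ Om n, a ≤ g γ ∧ g γ ≤ b) : ∀ γ ∈ Om n, a ≤ ((TP lam n) ^ t) g γ ∧ ((TP lam n) ^ t) g γ ≤ b := by
  induction t with
  | zero =>
    intro γ hγ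
    rw [pow_zero, Module.End.one_apply]
    exact hg γ hγ
  | succ t ih =>
    rw [pow_succ']
    intro γ hγ
    rw [Module.End.mul_apply]
    exact TP_sup n lam h0 h1 _ a b ih γ hγ

private theorem afroo_box : box 1 = {((0 : ℤ), (0 : ℤ))} := by
  ext ⟨i, j⟩
  simp only [box, Finset.mem_product, Finset.mem_Ico, Finset.mem_singleton, Prod.mk.injEq, Nat.cast_one]
  omega

private theorem afroo_Om {γ : Finset Edge} (h : γ ∈ Om 1) : γ = ∅ ∨ γ = SQ.sq (0, 0) := by
  rw [mem_Om] at h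
  obtain ⟨h1, h2⟩ := h
  have hE : E 1 = SQ.sq (0, 0) := by
    unfold E
    rw [afroo_box, Finset.singleton_biUnion]
  rw [hE] at h1
  have hm : ∀ e : Edge, e ∉ SQ.sq (0, 0) → ind γ e = 0 := by
    intro e he
    unfold ind
    rw [if_neg (fun h => he (h1 h))]
  have a1 : ind γ (false, -1, 0) = 0 := hm _ (by decide)
  have a2 : ind γ (true, 0, -1) = 0 := hm _ (by decide)
  have a3 : ind γ (false, 1, 0) = 0 := hm _ (by decide)
  have a4 : ind γ (true, 1, -1) = 0 := hm _ (by decide)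
  have a5 : ind γ (false, -1, 1) = 0 := hm _ (by decide)
  have a6 : ind γ (true, 0, 1) = 0 := hm _ (by decide)
  have v1 := h2 0 0
  have v2 := h2 1 0
  have v3 := h2 0 1
  norm_num at v1 v2 v3
  rw [a1, a2] at v1
  rw [a3, a4] at v2
  rw [a5, a6] at v3
  have b1 : ind γ (true, 0, 0) = ind γ (false, 0, 0) := by linarith
  have b2 : ind γ (true, 1, 0) = ind γ (false, 0, 0) := by linarith
  have b3 : ind γ (false, 0, 1) = ind γ (false, 0, 0) := by linarith
  rcases hflip_ind_cases γ (false, 0, 0) with hc | hc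
  · left
    apply Finset.eq_empty_of_forall_notMem
    intro e he
    have he' := h1 he
    have hi := (hflip_mem_iff γ e).1 he
    simp only [SQ.sq, Finset.mem_insert, Finset.mem_singleton, zero_add] at he'
    rcases he' with rfl | rfl | rfl | rfl
    · rw [hc] at hi; exact absurd hi (by norm_num)
    · rw [b3, hc] at hi; exact absurd hi (by norm_num)
    · rw [b1, hc] at hi; exact absurd hi (by norm_num)
    · rw [b2, hc] at hi; exact absurd hi (by norm_num)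
  · right
    apply Finset.Subset.antisymm h1
    intro e he
    rw [hflip_mem_iff]
    simp only [SQ.sq, Finset.mem_insert, Finset.mem_singleton, zero_add] at he
    rcases he with rfl | rfl | rfl | rfl
    · exact hc
    · rw [b3, hc]
    · rw [b1, hc]
    · rw [b2, hc]

theorem tv_of_test (n : ℕ) (hn : 1 ≤ n) (lam : ℝ) (h0 : 0 ≤ lam) (h1 : lam ≤ 1) (t : ℕ) {g g' : Finset Edge} (hg : g ∈ Om n)
    (hg' : g' ∈ Om n) (δ : ℝ)
    (h : ∀ ψ : Finset Edge → ℝ, (∀ γ ∈ Om n, 0 ≤ ψ γ ∧ ψ γ ≤ 1) → |((TP lam n) ^ t) ψ g - ((TP lam n) ^ t) ψ g'| ≤ δ) :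
    (1 / 2 : ℝ) * ∑ γ ∈ (E n).powerset, |law lam n g t γ - law lam n g' t γ| ≤ δ := by
  classical
  have hOE : Om n ⊆ (E n).powerset := fun η hη => Finset.mem_powerset.2 (mem_Om.1 hη).1
  have e1 : ∑ γ ∈ (E n).powerset, |law lam n g t γ - law lam n g' t γ| =
      ∑ γ ∈ Om n, |law lam n g t γ - law lam n g' t γ| := by
    symm
    apply Finset.sum_subset hOE
    intro γ _ h2
    rw [law_supp n lam hg t h2, law_supp n lam hg' t h2]
    simp
  have hmass : ∀ a ∈ Om n, ∑ γ ∈ Om n, law lam n a t γ = 1 := by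
    intro a ha
    have h2 := law_TP n hn lam ha t (fun _ => (1 : ℝ))
    rw [afroo_pow_const] at h2
    simpa using h2
  set ψ : Finset Edge → ℝ := fun γ => if law lam n g' t γ < law lam n g t γ then 1 else 0 with hψ
  have hψ01 : ∀ γ ∈ Om n, 0 ≤ ψ γ ∧ ψ γ ≤ 1 := by
    intro γ _
    simp only [hψ]
    split_ifs <;> norm_num
  have h3 := h ψ hψ01
  have e2 : ∀ γ ∈ Om n, |law lam n g t γ - law lam n g' t γ| =
      2 * (law lam n g t γ * ψ γ - law lam n g' t γ * ψ γ) - (law lam n g t γ - law lam n g' t γ) := by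
    intro γ _
    simp only [hψ]
    split_ifs with hc
    · rw [abs_of_pos (by linarith)]; ring
    · rw [abs_of_nonpos (by linarith)]; ring
  rw [e1, Finset.sum_congr rfl e2, Finset.sum_sub_distrib, ← Finset.mul_sum, Finset.sum_sub_distrib,
    Finset.sum_sub_distrib, law_TP n hn lam hg t ψ, law_TP n hn lam hg' t ψ, hmass g hg, hmass g' hg']
  have h4 := le_abs_self (((TP lam n) ^ t) ψ g - ((TP lam n) ^ t) ψ g')
  linarith

theorem one_case (lam : ℝ) (h0 : 0 ≤ lam) (h1 : lam ≤ 1 / 4) (t : ℕ) (ht : 1 ≤ t) (ψ : Finset Edge → ℝ)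
    (hψ : ∀ γ ∈ Om 1, 0 ≤ ψ γ ∧ ψ γ ≤ 1) :
    ∀ g ∈ Om 1, ∀ g' ∈ Om 1, |((TP lam 1) ^ t) ψ g - ((TP lam 1) ^ t) ψ g'| ≤ 1 / 4 := by
  obtain ⟨t', rfl⟩ : ∃ t', t = t' + 1 := ⟨t - 1, by omega⟩
  rw [pow_succ']
  set u : Finset Edge → ℝ := ((TP lam 1) ^ t') ψ with hu
  have hS : SQ.sq (0, 0) ∈ Om 1 := sq_mem_Om (by rw [afroo_box]; simp)
  have hO : (∅ : Finset Edge) ∈ Om 1 := by
    rw [mem_Om]
    refine ⟨Finset.empty_subset _, ?_⟩
    intro i j
    simp [ind]
  have hus := afroo_pow_sup 1 lam h0 (by linarith) t' ψ 0 1 hψ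
  have hu0 := hus ∅ hO
  have hu1 := hus _ hS
  rw [← hu] at hu0 hu1
  have hfe : SQ.flip ((0 : ℤ), (0 : ℤ)) ∅ = SQ.sq (0, 0) := by
    unfold SQ.flip
    rw [Finset.inter_empty, if_pos rfl, Finset.empty_union]
  have hfs : SQ.flip ((0 : ℤ), (0 : ℤ)) (SQ.sq (0, 0)) = ∅ := by
    rw [← hfe, SQ.flip_flip]
  have hre : rate lam ((0 : ℤ), (0 : ℤ)) ∅ = lam := by
    unfold rate
    rw [Finset.inter_empty, if_pos rfl]
  have hrs : rate lam ((0 : ℤ), (0 : ℤ)) (SQ.sq (0, 0)) = 1 := by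
    unfold rate
    rw [Finset.inter_self, if_neg (hflip_nonempty _)]
  have ve : TP lam 1 u ∅ = u ∅ + lam * (u (SQ.sq (0, 0)) - u ∅) := by
    rw [csa_apply, afroo_box, Finset.sum_singleton, hfe, hre]
    norm_num
  have vs : TP lam 1 u (SQ.sq (0, 0)) = u ∅ := by
    rw [csa_apply, afroo_box, Finset.sum_singleton, hfs, hrs]
    norm_num
  have key : |TP lam 1 u ∅ - TP lam 1 u (SQ.sq (0, 0))| ≤ 1 / 4 := by
    rw [ve, vs]
    have e1 : u ∅ + lam * (u (SQ.sq (0, 0)) - u ∅) - u ∅ = lam * (u (SQ.sq (0, 0)) - u ∅) := by ring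
    rw [e1, abs_mul, abs_of_nonneg h0]
    have e2 : |u (SQ.sq (0, 0)) - u ∅| ≤ 1 := by
      rw [abs_le]
      constructor <;> linarith [hu0.1, hu0.2, hu1.1, hu1.2]
    calc lam * |u (SQ.sq (0, 0)) - u ∅| ≤ 1 / 4 * 1 := mul_le_mul h1 e2 (abs_nonneg _) (by norm_num)
      _ = 1 / 4 := by norm_num
  intro g hg g' hg'
  rw [Module.End.mul_apply]
  rcases afroo_Om hg with rfl | rfl <;> rcases afroo_Om hg' with rfl | rfl
  · simp
  · exact key
  · rw [abs_sub_comm]; exact key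
  · simp

end

end Pool.Agent.H40.WM
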