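import Mathlib
import Pool.Agent.H40.WM.ASa
import Pool.Agent.H40.SQ.AVar

/-!
# AWarm: mixing from a warm start

Let `m = mu EE u`, `K v := (∀ g ∈ EE, |v g + m| ≤ 1) ∧ ∑_{EE} q^|g| v g = 0`, `P = TPR lam n EE`, `L = TR lam n EE`, weights `q^|g|` on `S = EE`.
`K v → K (L v)` (`L (v + m) = L v + m` by `tpr_const`, `tr_bd`, `tr_mean`).  For `K v`: apply `WPo` to `w = v + m`, `B = 1`: `mu w = m`,
`∑ q^|g| v^2 ≤ A Dir(w) + β Z = A Dir(v) + β Z ≤ A (4 n^2 / lam) <v, v - L v> + β Z` (`tr_dir`).  `var_decay` with `A' = 4 n^2 A / lam + 1 ≥ 1` and the defect `β Z`: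
`∑ q^|g| (L^t (u - m))^2 ≤ (1 - 1/A')^t ∑ q^|g| (u - m)^2 + β Z ≤ ((1-1/A')^t + β) Z` (`|u - m| ≤ 1`).
Then `(mu EE' (L^t u) - m)^2 = (∑_{EE'} q^|g| (L^t u - m))^2 / Z'^2 ≤ ∑_{EE'} q^|g| (L^t u - m)^2 / Z' ≤ (Z / Z') ((1-1/A')^t + β) ≤ H (...)`.
-/

set_option autoImplicit false

namespace Pool.Agent.H40.WM

open Pool.Agent.H40.SQ

noncomputable section

private theorem w_apply (lam : ℝ) (n : ℕ) (EE : Finset (Finset Edge)) (u : Finset Edge → ℝ)
    (g : Finset Edge) : TR lam n EE u g = (1 / 2 : ℝ) * (u g + TPR lam n EE u g) :=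
  rfl

private theorem w_const (lam : ℝ) (n : ℕ) (EE : Finset (Finset Edge)) (c : ℝ) :
    TR lam n EE (fun _ => c) = fun _ => c := by
  funext g
  rw [w_apply, tpr_const]
  ring

private theorem w_const_pow (lam : ℝ) (n : ℕ) (EE : Finset (Finset Edge)) (c : ℝ) (t : ℕ) :
    ((TR lam n EE) ^ t) (fun _ => c) = fun _ => c := by
  induction t with
  | zero => rfl
  | succ t ih => rw [pow_succ', Module.End.mul_apply, ih, w_const]

private theorem ze_pos (q : ℝ) (hq0 : 0 < q) (EE : Finset (Finset Edge)) (hne : EE.Nonempty) :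
    0 < ZE q EE := by
  unfold ZE
  exact Finset.sum_pos (fun g _ => pow_pos hq0 _) hne

private theorem w_dir_nonneg (q : ℝ) (hq0 : 0 < q) (n : ℕ) (EE : Finset (Finset Edge))
    (g : Finset Edge → ℝ) : 0 ≤ Dir q n EE g := by
  unfold Dir
  exact Finset.sum_nonneg fun x _ => Finset.sum_nonneg fun η _ =>
    mul_nonneg (pow_pos hq0 _).le (sq_nonneg _)

theorem warm (n : ℕ) (hn : 1 ≤ n) (q lam : ℝ) (hq : q ^ 4 = lam) (hq0 : 0 < q) (hq1 : q ≤ 1)
    (EE EE' : Finset (Finset Edge)) (hEE : EE' ⊆ EE) (hne : EE'.Nonempty) (H A β : ℝ) (hA : 0 ≤ A) (hβ : 0 ≤ β)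
    (hH : ZE q EE ≤ H * ZE q EE') (hwp : WPo q n EE A β) (u : Finset Edge → ℝ) (hu : ∀ g ∈ EE, 0 ≤ u g ∧ u g ≤ 1) (t : ℕ) :
    |mu q EE' (((TR lam n EE) ^ t) u) - mu q EE u| ≤
      Real.sqrt (H * ((1 - 1 / (4 * (n : ℝ) ^ 2 * A / lam + 1)) ^ t + β)) := by
  have hlam0 : 0 < lam := by
    rw [← hq]
    positivity
  have hlam1 : lam ≤ 1 := by
    rw [← hq]
    exact pow_le_one₀ hq0.le hq1
  have hn' : (1 : ℝ) ≤ n := by exact_mod_cast hn
  have hn0 : (0 : ℝ) < (n : ℝ) ^ 2 := by positivity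
  have hneE : EE.Nonempty := hne.mono hEE
  have hZ := ze_pos q hq0 EE hneE
  have hZ' := ze_pos q hq0 EE' hne
  obtain ⟨m, hm⟩ : ∃ m, m = mu q EE u := ⟨_, rfl⟩
  obtain ⟨A', hA'⟩ : ∃ A', A' = 4 * (n : ℝ) ^ 2 * A / lam + 1 := ⟨_, rfl⟩
  rw [← hm, ← hA']
  have hA1 : 1 ≤ A' := by
    rw [hA']
    have : 0 ≤ 4 * (n : ℝ) ^ 2 * A / lam := by positivity
    linarith
  have hmZ : ∑ g ∈ EE, q ^ g.card * u g = m * ZE q EE := by
    rw [hm]
    unfold mu
    rw [div_mul_cancel₀ _ hZ.ne']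
  have hsumc : ∀ c : ℝ, ∑ g ∈ EE, q ^ g.card * c = c * ZE q EE := by
    intro c
    unfold ZE
    rw [Finset.mul_sum]
    exact Finset.sum_congr rfl fun g _ => by ring
  have hm0 : 0 ≤ m := by
    rw [hm]
    unfold mu
    apply div_nonneg _ hZ.le
    exact Finset.sum_nonneg fun g hg => mul_nonneg (pow_pos hq0 _).le (hu g hg).1
  have hm1 : m ≤ 1 := by
    rw [hm]
    unfold mu
    rw [div_le_one hZ]
    unfold ZE
    refine Finset.sum_le_sum fun g hg => ?_
    have h1 := mul_le_mul_of_nonneg_left (hu g hg).2 (pow_pos hq0 g.card).le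
    linarith
  have hadd : ∀ (v : Finset Edge → ℝ) (c : ℝ) (g : Finset Edge),
      TR lam n EE (fun η => v η + c) g = TR lam n EE v g + c := by
    intro v c g
    have e : (fun η => v η + c) = v + (fun _ => c) := rfl
    rw [e, map_add, w_const]
    rfl
  have hdecay := var_decay EE (fun g => q ^ g.card) (fun g _ => (pow_pos hq0 _).le)
    (TPR lam n EE) (tpr_contr n q lam hq hq0 hq1 EE) (TR lam n EE) rfl A' (β * ZE q EE) hA1
    (by positivity)
    (fun v => (∀ g ∈ EE, |v g + m| ≤ 1) ∧ ∑ g ∈ EE, q ^ g.card * v g = 0)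
    (by
      rintro v ⟨h1, h2⟩
      refine ⟨?_, ?_⟩
      · intro g hg
        rw [← hadd v m g]
        have h3 := tr_bd n lam hlam0.le hlam1 EE (fun η => v η + m) (-1) 1
          (fun g hg => abs_le.1 (h1 g hg)) 1 g hg
        rw [pow_one] at h3
        exact abs_le.2 h3
      · have h3 := tr_mean n q lam hq EE v 1
        rw [pow_one] at h3
        unfold mu at h3
        rw [div_left_inj' hZ.ne'] at h3
        rw [h3]
        exact h2)
    (by
      rintro v ⟨h1, h2⟩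
      have h3 := hwp (fun η => v η + m) 1 zero_le_one h1
      have h4 : mu q EE (fun η => v η + m) = m := by
        unfold mu
        rw [div_eq_iff hZ.ne']
        have : ∑ g ∈ EE, q ^ g.card * (v g + m) = ∑ g ∈ EE, q ^ g.card * v g +
            ∑ g ∈ EE, q ^ g.card * m := by
          rw [← Finset.sum_add_distrib]
          exact Finset.sum_congr rfl fun g _ => by ring
        rw [this, h2, hsumc]
        ring
      rw [h4] at h3
      have h5 : Dir q n EE (fun η => v η + m) = Dir q n EE v := by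
        unfold Dir
        refine Finset.sum_congr rfl fun x _ => Finset.sum_congr rfl fun g _ => ?_
        ring
      rw [h5] at h3
      have h6 : ∑ g ∈ EE, q ^ g.card * (v g + m - m) ^ 2 = ∑ g ∈ EE, q ^ g.card * v g ^ 2 :=
        Finset.sum_congr rfl fun g _ => by ring
      rw [h6] at h3
      have h7 := tr_dir n q lam hq hq0 hq1 EE v
      have h8 := w_dir_nonneg q hq0 n EE v
      have h9 : 0 ≤ ∑ g ∈ EE, q ^ g.card * v g * (v g - TR lam n EE v g) :=
        (mul_nonneg (by positivity) h8).trans h7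
      have h10 : A * Dir q n EE v ≤ (4 * (n : ℝ) ^ 2 * A / lam) *
          ∑ g ∈ EE, q ^ g.card * v g * (v g - TR lam n EE v g) := by
        have h11 := mul_le_mul_of_nonneg_left h7
          (show 0 ≤ 4 * (n : ℝ) ^ 2 * A / lam by positivity)
        refine le_trans (le_of_eq ?_) h11
        field_simp
      have h12 : A' * ∑ g ∈ EE, q ^ g.card * v g * (v g - TR lam n EE v g) =
          (4 * (n : ℝ) ^ 2 * A / lam) *
          ∑ g ∈ EE, q ^ g.card * v g * (v g - TR lam n EE v g) +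
          ∑ g ∈ EE, q ^ g.card * v g * (v g - TR lam n EE v g) := by
        rw [hA']
        ring
      rw [h12]
      linarith)
    (fun g => u g - m)
    (by
      refine ⟨?_, ?_⟩
      · intro g hg
        have h1 := hu g hg
        rw [sub_add_cancel, abs_le]
        constructor <;> linarith
      · have : ∑ g ∈ EE, q ^ g.card * (u g - m) = ∑ g ∈ EE, q ^ g.card * u g -
            ∑ g ∈ EE, q ^ g.card * m := by
          rw [← Finset.sum_sub_distrib]
          exact Finset.sum_congr rfl fun g _ => by ring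
        rw [this, hsumc, hmZ]
        ring) t
  have hsub : ∀ g, ((TR lam n EE) ^ t) (fun g => u g - m) g = ((TR lam n EE) ^ t) u g - m := by
    intro g
    have e : (fun g => u g - m) = u - (fun _ => m) := rfl
    rw [e, map_sub, w_const_pow]
    rfl
  simp only [hsub] at hdecay
  have hinit : ∑ g ∈ EE, q ^ g.card * (u g - m) ^ 2 ≤ ZE q EE := by
    unfold ZE
    refine Finset.sum_le_sum fun g hg => ?_
    have h1 := hu g hg
    have h2 : (u g - m) ^ 2 ≤ 1 := by
      rw [sq_le_one_iff_abs_le_one, abs_le]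
      constructor <;> linarith
    have h3 := mul_le_mul_of_nonneg_left h2 (pow_pos hq0 g.card).le
    linarith
  have hr0 : 0 ≤ 1 - 1 / A' := by
    have : 1 / A' ≤ 1 := by
      rw [div_le_one (by linarith)]
      exact hA1
    linarith
  have hvar : ∑ g ∈ EE, q ^ g.card * (((TR lam n EE) ^ t) u g - m) ^ 2 ≤
      ((1 - 1 / A') ^ t + β) * ZE q EE := by
    have h1 := mul_le_mul_of_nonneg_left hinit (pow_nonneg hr0 t)
    linarith
  have hvar' : ∑ g ∈ EE', q ^ g.card * (((TR lam n EE) ^ t) u g - m) ^ 2 ≤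
      ((1 - 1 / A') ^ t + β) * ZE q EE :=
    (Finset.sum_le_sum_of_subset_of_nonneg hEE fun g _ _ =>
      mul_nonneg (pow_pos hq0 _).le (sq_nonneg _)).trans hvar
  apply Real.abs_le_sqrt
  have hdiff : mu q EE' (((TR lam n EE) ^ t) u) - m =
      (∑ g ∈ EE', q ^ g.card * (((TR lam n EE) ^ t) u g - m)) / ZE q EE' := by
    unfold mu
    rw [eq_div_iff hZ'.ne', sub_mul, div_mul_cancel₀ _ hZ'.ne']
    have : ∑ g ∈ EE', q ^ g.card * (((TR lam n EE) ^ t) u g - m) =
        ∑ g ∈ EE', q ^ g.card * ((TR lam n EE) ^ t) u g - ∑ g ∈ EE', q ^ g.card * m := by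
      rw [← Finset.sum_sub_distrib]
      exact Finset.sum_congr rfl fun g _ => by ring
    rw [this]
    congr 1
    unfold ZE
    rw [Finset.mul_sum]
    exact Finset.sum_congr rfl fun g _ => by ring
  have hCS : (∑ g ∈ EE', q ^ g.card * (((TR lam n EE) ^ t) u g - m)) ^ 2 ≤
      ZE q EE' * ∑ g ∈ EE', q ^ g.card * (((TR lam n EE) ^ t) u g - m) ^ 2 := by
    unfold ZE
    exact Finset.sum_sq_le_sum_mul_sum_of_sq_le_mul EE' (fun g _ => (pow_pos hq0 _).le)
      (fun g _ => mul_nonneg (pow_pos hq0 _).le (sq_nonneg _)) (fun g _ => le_of_eq (by ring))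
  rw [hdiff, div_pow, div_le_iff₀ (by positivity)]
  refine hCS.trans ?_
  have hX : 0 ≤ (1 - 1 / A') ^ t + β := add_nonneg (pow_nonneg hr0 t) hβ
  calc ZE q EE' * ∑ g ∈ EE', q ^ g.card * (((TR lam n EE) ^ t) u g - m) ^ 2
      ≤ ZE q EE' * (((1 - 1 / A') ^ t + β) * ZE q EE) :=
        mul_le_mul_of_nonneg_left hvar' hZ'.le
    _ ≤ ZE q EE' * (((1 - 1 / A') ^ t + β) * (H * ZE q EE')) :=
        mul_le_mul_of_nonneg_left (mul_le_mul_of_nonneg_left hH hX) hZ'.le
    _ = H * ((1 - 1 / A') ^ t + β) * ZE q EE' ^ 2 := by ring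

end

end Pool.Agent.H40.WM
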