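import Mathlib
import Pool.Agent.H40.WM.ADom
import Pool.Agent.H40.WM.AWarm

/-!
# ALad: from the top configuration

Let `ε` be the square root.  Define `w_{r+1} = u`, `w_i = TR_i^t w_{i+1}` (`TR_i = TR lam n (EE i)`), `i = r, ..., 1`.
* domination: by downward induction on `i`: `(TL^(t (r+1-i)) u) g ≤ w_i g'` for `g ∈ Om n`, `g' ∈ EE i`, `LeS s g g'` (start: `u` increasing; step: restrict from `EE (i+1)` to
  `EE i ⊆ EE (i+1)`, then `cross_pow`; `TL^(a+b) = TL^a (TL^b)`).  For `i = 1`, `g = g' = g0 ∈ EE 0 ⊆ EE 1`: `(TL^(t r) u) g0 ≤ w_1 g0`.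
* `mu (EE 0) w_1 = w_1 g0` since `EE 0 = {g0}`, and by `warm` (`EE' = EE (i-1)`, `EE = EE i`, function `w_{i+1}` with values in `[0,1]` on `EE i` by `tr_bd`):
  `mu (EE (i-1)) w_i ≤ mu (EE i) w_{i+1} + ε`.  Sum: `w_1 g0 ≤ mu (EE r) u + r ε`.
If `r = 0`: `EE 0 = Om n = {g0}`.
-/

set_option autoImplicit false

namespace Pool.Agent.H40.WM

open Pool.Agent.H40.SQ

noncomputable section

private theorem mu_singleton (q : ℝ) (hq0 : 0 < q) (g0 : Finset Edge) (v : Finset Edge → ℝ) :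
    mu q {g0} v = v g0 := by
  unfold mu ZE
  rw [Finset.sum_singleton, Finset.sum_singleton, mul_div_cancel_left₀]
  exact (pow_pos hq0 _).ne'

theorem ladder_up (n : ℕ) (hn : 1 ≤ n) (q lam : ℝ) (hq : q ^ 4 = lam) (hq0 : 0 < q) (hq1 : q ≤ 1) (s : ℤ) (hs : s = 1 ∨ s = -1)
    (H A β : ℝ) (hH : 0 ≤ H) (hA : 0 ≤ A) (hβ : 0 ≤ β) (r : ℕ) (EE : ℕ → Finset (Finset Edge)) (hL : Ladder q n s H A β r EE)
    (u : Finset Edge → ℝ) (hu : ∀ g ∈ Om n, 0 ≤ u g ∧ u g ≤ 1) (hmon : ∀ g ∈ Om n, ∀ g' ∈ Om n, LeS s g g' → u g ≤ u g')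
    (t : ℕ) (g0 : Finset Edge) (hg0 : EE 0 = {g0}) :
    ((TL lam n) ^ (t * r)) u g0 ≤ mu q (Om n) u +
      r * Real.sqrt (H * ((1 - 1 / (4 * (n : ℝ) ^ 2 * A / lam + 1)) ^ t + β)) := by
  have hlam0 : 0 < lam := by
    rw [← hq]
    positivity
  have hlam1 : lam ≤ 1 := by
    rw [← hq]
    exact pow_le_one₀ hq0.le hq1
  obtain ⟨ε, hε⟩ : ∃ ε, ε = Real.sqrt (H * ((1 - 1 / (4 * (n : ℝ) ^ 2 * A / lam + 1)) ^ t + β)) :=
    ⟨_, rfl⟩
  rw [← hε]
  have hne : ∀ i, i ≤ r → (EE i).Nonempty := by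
    intro i
    induction i with
    | zero =>
      intro _
      rw [hg0]
      exact Finset.singleton_nonempty _
    | succ i ih =>
      intro hi
      exact (ih (by omega)).mono (hL.mono i (by omega))
  have key : ∀ k, k ≤ r → ∃ W : Finset Edge → ℝ,
      (∀ g ∈ Om n, ∀ g' ∈ EE (r - k), LeS s g g' → ((TL lam n) ^ (t * k)) u g ≤ W g') ∧
      (∀ g ∈ EE (r - k), 0 ≤ W g ∧ W g ≤ 1) ∧
      mu q (EE (r - k)) W ≤ mu q (Om n) u + k * ε := by
    intro k
    induction k with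
    | zero =>
      intro _
      refine ⟨u, ?_, ?_, ?_⟩
      · rw [Nat.sub_zero, hL.last]
        exact hmon
      · rw [Nat.sub_zero, hL.last]
        exact hu
      · rw [Nat.sub_zero, hL.last]
        simp
    | succ k ih =>
      intro hk
      obtain ⟨W, h1, h2, h3⟩ := ih (by omega)
      have e0 : r - k = (r - (k + 1)) + 1 := by omega
      have hsub : EE (r - (k + 1)) ⊆ EE (r - k) := by
        rw [e0]
        exact hL.mono _ (by omega)
      have hup : UpS n s (EE (r - k)) := hL.up _ (by omega)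
      refine ⟨((TR lam n (EE (r - k))) ^ t) W, ?_, ?_, ?_⟩
      · intro g hg g' hg' hle
        have h4 := cross_pow n hn lam hlam0.le hlam1 s hs (EE (r - k)) hup
          (((TL lam n) ^ (t * k)) u) W h1 t g hg g' (hsub hg') hle
        have e1 : t * (k + 1) = t + t * k := by ring
        rw [e1, pow_add, Module.End.mul_apply]
        exact h4
      · intro g hg
        exact tr_bd n lam hlam0.le hlam1 (EE (r - k)) W 0 1 h2 t g (hsub hg)
      · have hdens : ZE q (EE (r - k)) ≤ H * ZE q (EE (r - (k + 1))) := by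
          rw [e0]
          exact hL.dens _ (by omega)
        have hwp : WPo q n (EE (r - k)) A β := hL.wp _ (by omega) (by omega)
        have h5 := warm n hn q lam hq hq0 hq1 (EE (r - k)) (EE (r - (k + 1))) hsub
          (hne _ (by omega)) H A β hA hβ hdens hwp W h2 t
        rw [← hε] at h5
        have h6 := (abs_le.1 h5).2
        push_cast
        linarith
  obtain ⟨W, h1, h2, h3⟩ := key r (le_refl _)
  rw [Nat.sub_self, hg0] at h1 h2 h3
  rw [mu_singleton q hq0] at h3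
  have hg0O : g0 ∈ Om n := by
    have h4 := (hL.up 0 (by omega)).1
    rw [hg0] at h4
    exact h4 (Finset.mem_singleton_self _)
  exact (h1 g0 hg0O g0 (Finset.mem_singleton_self _) (fun i j => le_refl _)).trans h3

end

end Pool.Agent.H40.WM
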