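import Mathlib
import Pool.Agent.H40.WM.ALad
import Pool.Agent.H40.SQ.CMon
import Pool.Agent.H40.SQ.HLat

/-!
# AMix: coupling time of the lazy chain from both ladders

Let `ε` be the square root, `top`, `bot` the configurations `g0` of the two ladders (`s = 1`, `s = -1`): `Le g top` and `Le bot g` for all `g ∈ Om n`.
`|F| ≤ n` (`val_bound`, `val_F`), so `|Phi n g| ≤ n^3` (`csa_box_card`).  Apply `ladder_up` to `u = (Phi + n^3)/(2 n^3)`, `s = 1`, and to `(n^3 - Phi)/(2 n^3)`, `s = -1`: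
`(TL^(t r) Phi) top ≤ mu Phi + 2 n^3 r ε`, `(TL^(t r') Phi) bot ≥ mu Phi - 2 n^3 r' ε`.
For larger times: `TL^T Phi` is increasing on `Om n` (`cross` with `EE = Om n`, `tr_om`), and `TL (w) top` is an average of values of `w` on `Om n` (`TP_sup`-type argument), so
`(TL^(T+1) Phi) top ≤ (TL^T Phi) top`, similarly for `bot`.  So for `T ≥ t r, t r'`: `(TL^T Phi) top - (TL^T Phi) bot ≤ 2 n^3 (r + r') ε`.
For `ψ` with values in `[0,1]` and `g ∈ Om n`: `|TL^T ψ top - TL^T ψ g| ≤ TL^T Phi top - TL^T Phi g ≤ TL^T Phi top - TL^T Phi bot` (`TL_compare`, monotonicity of `TL^T Phi`).  Triangle inequality for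
`g, g'`: `≤ 4 n^3 (r + r') ε`.
-/

set_option autoImplicit false

namespace Pool.Agent.H40.WM

open Pool.Agent.H40.SQ

noncomputable section

private theorem amix_TL_apply (n : ℕ) (lam : ℝ) (g : Finset Edge → ℝ) (γ : Finset Edge) :
    TL lam n g γ = (1 / 2) * (g γ + TP lam n g γ) := by
  unfold TL
  rw [LinearMap.smul_apply, LinearMap.add_apply, LinearMap.id_apply, Pi.smul_apply, Pi.add_apply,
    smul_eq_mul]

private theorem amix_TL_mem (n : ℕ) (lam : ℝ) (h0 : 0 ≤ lam) (h1 : lam ≤ 1) (g : Finset Edge → ℝ)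
    (a b : ℝ) (hg : ∀ γ ∈ Om n, a ≤ g γ ∧ g γ ≤ b) :
    ∀ γ ∈ Om n, a ≤ TL lam n g γ ∧ TL lam n g γ ≤ b := by
  intro γ hγ
  rw [amix_TL_apply]
  have h2 := TP_sup n lam h0 h1 _ a b hg γ hγ
  have h3 := hg γ hγ
  constructor <;> linarith [h2.1, h2.2, h3.1, h3.2]

private theorem amix_TL_const (n : ℕ) (lam c : ℝ) (t : ℕ) : ((TL lam n) ^ t) (fun _ => c) = fun _ => c := by
  induction t with
  | zero => rw [pow_zero, Module.End.one_apply]
  | succ t ih =>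
    rw [pow_succ', Module.End.mul_apply, ih]
    funext γ
    rw [amix_TL_apply, TP_const]
    ring

private theorem amix_mono (n : ℕ) (hn : 1 ≤ n) (lam : ℝ) (h0 : 0 ≤ lam) (h1 : lam ≤ 1) (v : Finset Edge → ℝ)
    (hv : ∀ g ∈ Om n, ∀ g' ∈ Om n, LeS 1 g g' → v g ≤ v g') (t : ℕ) :
    ∀ g ∈ Om n, ∀ g' ∈ Om n, LeS 1 g g' → ((TL lam n) ^ t) v g ≤ ((TL lam n) ^ t) v g' := by
  intro g hg g' hg' hle
  have h2 := cross_pow n hn lam h0 h1 1 (Or.inl rfl) (Om n) ⟨Finset.Subset.refl _, fun _ _ g' hg' _ => hg'⟩ v v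
    hv t g hg g' hg' hle
  rwa [tr_om n lam v v (fun _ _ => rfl) t g' hg'] at h2

private theorem amix_Phi_bd (n : ℕ) (g : Finset Edge) (hg : g ∈ Om n) : |Phi n g| ≤ (n : ℝ) ^ 3 := by
  unfold Phi
  refine (Finset.abs_sum_le_sum_abs _ _).trans ?_
  have h1 : ∀ x ∈ box n, |(F g x.1 x.2 : ℝ)| ≤ (n : ℝ) := by
    intro x _
    have := val_bound (val_F hg) x.1 x.2
    exact_mod_cast this
  refine (Finset.sum_le_sum h1).trans ?_
  rw [Finset.sum_const, nsmul_eq_mul, csa_box_card]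
  exact le_of_eq (by ring)

private theorem amix_Phi_mono (n : ℕ) (g g' : Finset Edge) (h : LeS 1 g g') : Phi n g ≤ Phi n g' := by
  unfold Phi
  refine Finset.sum_le_sum fun x _ => ?_
  have := h x.1 x.2
  rw [one_mul, one_mul] at this
  exact_mod_cast this

private theorem amix_mu_sub (q : ℝ) (EE : Finset (Finset Edge)) (hZ : ZE q EE ≠ 0) (u : Finset Edge → ℝ) :
    mu q EE (fun g => 1 - u g) = 1 - mu q EE u := by
  unfold mu
  have h1 : ∑ g ∈ EE, q ^ g.card * (1 - u g) = ZE q EE - ∑ g ∈ EE, q ^ g.card * u g := by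
    unfold ZE
    rw [← Finset.sum_sub_distrib]
    exact Finset.sum_congr rfl fun g _ => by ring
  rw [h1, sub_div, div_self hZ]

theorem ladder_mix (n : ℕ) (hn : 1 ≤ n) (q lam : ℝ) (hq : q ^ 4 = lam) (hq0 : 0 < q) (hq1 : q ≤ 1)
    (H A β : ℝ) (hH : 0 ≤ H) (hA : 0 ≤ A) (hβ : 0 ≤ β) (r r' : ℕ) (EE EE' : ℕ → Finset (Finset Edge))
    (hL : Ladder q n 1 H A β r EE) (hL' : Ladder q n (-1) H A β r' EE') (t T : ℕ) (hT : t * r ≤ T) (hT' : t * r' ≤ T)
    (ψ : Finset Edge → ℝ) (hψ : ∀ g ∈ Om n, 0 ≤ ψ g ∧ ψ g ≤ 1) :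
    ∀ g ∈ Om n, ∀ g' ∈ Om n, |((TL lam n) ^ T) ψ g - ((TL lam n) ^ T) ψ g'| ≤
      4 * (n : ℝ) ^ 3 * (r + r') * Real.sqrt (H * ((1 - 1 / (4 * (n : ℝ) ^ 2 * A / lam + 1)) ^ t + β)) := by
  have hn0 : (0 : ℝ) < n := by exact_mod_cast (by omega : 0 < n)
  have hn3 : (0 : ℝ) < (n : ℝ) ^ 3 := by positivity
  have hl0 : 0 ≤ lam := by rw [← hq]; positivity
  have hl1 : lam ≤ 1 := by
    rw [← hq]
    exact pow_le_one₀ hq0.le hq1
  obtain ⟨top, htop0, htop⟩ := hL.top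
  obtain ⟨bot, hbot0, hbot'⟩ := hL'.top
  have htopm : top ∈ Om n := (hL.up 0 (Nat.zero_le _)).1 (by rw [htop0]; exact Finset.mem_singleton_self _)
  have hbotm : bot ∈ Om n := (hL'.up 0 (Nat.zero_le _)).1 (by rw [hbot0]; exact Finset.mem_singleton_self _)
  have hbot : ∀ g ∈ Om n, LeS 1 bot g := by
    intro g hg i j
    have := hbot' g hg i j
    linarith
  set ε : ℝ := Real.sqrt (H * ((1 - 1 / (4 * (n : ℝ) ^ 2 * A / lam + 1)) ^ t + β)) with hε
  obtain ⟨u, hu⟩ : ∃ u : Finset Edge → ℝ, u = fun g => (1 / (2 * (n : ℝ) ^ 3)) * Phi n g + 1 / 2 := ⟨_, rfl⟩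
  have hua : ∀ g, u g = (1 / (2 * (n : ℝ) ^ 3)) * Phi n g + 1 / 2 := fun g => by rw [hu]
  have hu01 : ∀ g ∈ Om n, 0 ≤ u g ∧ u g ≤ 1 := by
    intro g hg
    have h1 := abs_le.1 (amix_Phi_bd n g hg)
    have h2 : (1 / (2 * (n : ℝ) ^ 3)) * (n : ℝ) ^ 3 = 1 / 2 := by field_simp
    have h3 : 0 ≤ 1 / (2 * (n : ℝ) ^ 3) := by positivity
    have h4 := mul_le_mul_of_nonneg_left h1.1 h3
    have h5 := mul_le_mul_of_nonneg_left h1.2 h3
    rw [hua]
    constructor <;> linarith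
  have humon : ∀ g ∈ Om n, ∀ g' ∈ Om n, LeS 1 g g' → u g ≤ u g' := by
    intro g _ g' _ hle
    rw [hua, hua]
    have h1 := mul_le_mul_of_nonneg_left (amix_Phi_mono n g g' hle) (by positivity : 0 ≤ 1 / (2 * (n : ℝ) ^ 3))
    linarith
  have hZ : ZE q (Om n) ≠ 0 := by
    apply ne_of_gt
    unfold ZE
    exact Finset.sum_pos (fun g _ => by positivity) ⟨top, htopm⟩
  -- ladders
  have hup := ladder_up n hn q lam hq hq0 hq1 1 (Or.inl rfl) H A β hH hA hβ r EE hL u hu01 humon t top htop0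
  rw [← hε] at hup
  have hdn := ladder_up n hn q lam hq hq0 hq1 (-1) (Or.inr rfl) H A β hH hA hβ r' EE' hL' (fun g => 1 - u g)
    (fun g hg => by
      have := hu01 g hg
      constructor <;> linarith [this.1, this.2])
    (fun g hg g' hg' hle => by
      have := humon g' hg' g hg (fun i j => by
        have := hle i j
        linarith)
      linarith) t bot hbot0
  rw [← hε, amix_mu_sub q (Om n) hZ] at hdn
  have hlin : ∀ k : ℕ, ((TL lam n) ^ k) (fun g => 1 - u g) = fun g => 1 - ((TL lam n) ^ k) u g := by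
    intro k
    have e1 : (fun g => 1 - u g) = (fun _ => (1 : ℝ)) - u := rfl
    rw [e1, map_sub, amix_TL_const]
    rfl
  rw [hlin] at hdn
  simp only at hdn
  -- larger times
  have hbd : ∀ k : ℕ, ∀ g ∈ Om n, ((TL lam n) ^ k) u bot ≤ ((TL lam n) ^ k) u g ∧
      ((TL lam n) ^ k) u g ≤ ((TL lam n) ^ k) u top := by
    intro k g hg
    exact ⟨amix_mono n hn lam hl0 hl1 u humon k bot hbotm g hg (hbot g hg),
      amix_mono n hn lam hl0 hl1 u humon k g hg top htopm (htop g hg)⟩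
  have hanti : Antitone (fun k : ℕ => ((TL lam n) ^ k) u top) := by
    apply antitone_nat_of_succ_le
    intro k
    rw [pow_succ', Module.End.mul_apply]
    exact (amix_TL_mem n lam hl0 hl1 _ _ _ (hbd k) top htopm).2
  have hmono : Monotone (fun k : ℕ => ((TL lam n) ^ k) u bot) := by
    apply monotone_nat_of_le_succ
    intro k
    rw [pow_succ', Module.End.mul_apply]
    exact (amix_TL_mem n lam hl0 hl1 _ _ _ (hbd k) bot hbotm).1
  have h3 : ((TL lam n) ^ T) u top ≤ ((TL lam n) ^ (t * r)) u top := hanti hT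
  have h4 : ((TL lam n) ^ (t * r')) u bot ≤ ((TL lam n) ^ T) u bot := hmono hT'
  have h5 : ((TL lam n) ^ T) u top - ((TL lam n) ^ T) u bot ≤ ((r : ℝ) + r') * ε := by
    rw [add_mul]
    linarith
  have hPhi : ∀ g, ((TL lam n) ^ T) (Phi n) g = 2 * (n : ℝ) ^ 3 * ((TL lam n) ^ T) u g - (n : ℝ) ^ 3 := by
    intro g
    have e1 : Phi n = (2 * (n : ℝ) ^ 3) • u - (fun _ => (n : ℝ) ^ 3) := by
      funext g
      rw [Pi.sub_apply, Pi.smul_apply, smul_eq_mul, hua]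
      field_simp
      ring
    rw [e1, map_sub, map_smul, amix_TL_const, Pi.sub_apply, Pi.smul_apply, smul_eq_mul]
  have h6 : ((TL lam n) ^ T) (Phi n) top - ((TL lam n) ^ T) (Phi n) bot ≤ 2 * (n : ℝ) ^ 3 * (((r : ℝ) + r') * ε) := by
    rw [hPhi, hPhi]
    have := mul_le_mul_of_nonneg_left h5 (by positivity : 0 ≤ 2 * (n : ℝ) ^ 3)
    linarith
  have hleS : ∀ {g g' : Finset Edge}, LeS 1 g g' → Le g g' := by
    intro g g' h i j
    have := h i j
    linarith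
  have h7 : ∀ g ∈ Om n, |((TL lam n) ^ T) ψ top - ((TL lam n) ^ T) ψ g| ≤ 2 * (n : ℝ) ^ 3 * (((r : ℝ) + r') * ε) := by
    intro g hg
    have h8 := TL_compare n hn lam hl0 hl1 ψ hψ T hg htopm (hleS (htop g hg))
    have h9 : ((TL lam n) ^ T) (Phi n) bot ≤ ((TL lam n) ^ T) (Phi n) g := by
      rw [hPhi, hPhi]
      have := mul_le_mul_of_nonneg_left (hbd T g hg).1 (by positivity : 0 ≤ 2 * (n : ℝ) ^ 3)
      linarith
    linarith
  intro g hg g' hg'
  have h10 := abs_le.1 (h7 g hg)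
  have h11 := abs_le.1 (h7 g' hg')
  have e : 4 * (n : ℝ) ^ 3 * ((r : ℝ) + r') * ε = 2 * (2 * (n : ℝ) ^ 3 * (((r : ℝ) + r') * ε)) := by ring
  rw [e, abs_le]
  constructor <;> linarith [h10.1, h10.2, h11.1, h11.2]

end

end Pool.Agent.H40.WM
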