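import Mathlib
import Pool.Agent.H40.WM.QDefs
import Pool.Agent.H40.SQ.AShift
import Pool.Agent.H40.SQ.CHold
import Pool.Agent.H40.SQ.CSa
import Pool.Agent.H40.SQ.AsP

/-!
# ANon: from the lazy to the non-lazy chain (compare `SQ.AsP`)

`a = (1-lam)/n^2`, `a ≤ 1/2` for `n ≥ 2`.  `TP_hold` gives `TP = a id + (1-a) Q`; `shift_bound`: `|TP^t g - TP^(t+1) g| ≤ 2B/√(2a(t+1))` for `|g| ≤ B` on `Om n`.
`TL = (id + TP)/2` commutes with `TP`; `TP^t (TL^(i+1) ψ) - TP^t (TL^i ψ) = (1/2)(TP^(t+1) - TP^t)(TL^i ψ)`, and `TL^i ψ` has values in `[0,1]` (`TP_sup`); so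
`|TP^t TL^s ψ - TP^t ψ| ≤ s/√(2a(t+1))` on `Om n`.  The oscillation of `TP^t w` on `Om n` is at most that of `w = TL^s ψ` (`TP_sup` with `a = inf`, `b = sup`).
-/

set_option autoImplicit false

namespace Pool.Agent.H40.WM

open Pool.Agent.H40.SQ

noncomputable section

private theorem anon_TP_mem (n : ℕ) (lam : ℝ) (h0 : 0 ≤ lam) (h1 : lam ≤ 1) (g : Finset Edge → ℝ)
    (a b : ℝ) (hg : ∀ γ ∈ Om n, a ≤ g γ ∧ g γ ≤ b) (t : ℕ) :
    ∀ γ ∈ Om n, a ≤ ((TP lam n) ^ t) g γ ∧ ((TP lam n) ^ t) g γ ≤ b := by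
  induction t with
  | zero =>
    intro γ hγ
    rw [pow_zero, Module.End.one_apply]
    exact hg γ hγ
  | succ t ih =>
    intro γ hγ
    rw [pow_succ', Module.End.mul_apply]
    exact TP_sup n lam h0 h1 _ a b ih γ hγ

private theorem anon_TL_fun (n : ℕ) (lam : ℝ) (g : Finset Edge → ℝ) :
    TL lam n g = (1 / 2 : ℝ) • (g + TP lam n g) := by
  unfold TL
  rw [LinearMap.smul_apply, LinearMap.add_apply, LinearMap.id_apply]

private theorem anon_TL_apply (n : ℕ) (lam : ℝ) (g : Finset Edge → ℝ) (γ : Finset Edge) :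
    TL lam n g γ = (1 / 2) * (g γ + TP lam n g γ) := by
  rw [anon_TL_fun, Pi.smul_apply, Pi.add_apply, smul_eq_mul]

private theorem anon_TL_mem (n : ℕ) (lam : ℝ) (h0 : 0 ≤ lam) (h1 : lam ≤ 1) (g : Finset Edge → ℝ)
    (a b : ℝ) (hg : ∀ γ ∈ Om n, a ≤ g γ ∧ g γ ≤ b) (t : ℕ) :
    ∀ γ ∈ Om n, a ≤ ((TL lam n) ^ t) g γ ∧ ((TL lam n) ^ t) g γ ≤ b := by
  induction t with
  | zero =>
    intro γ hγ
    rw [pow_zero, Module.End.one_apply]
    exact hg γ hγ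
  | succ t ih =>
    intro γ hγ
    rw [pow_succ', Module.End.mul_apply, anon_TL_apply]
    have h2 := TP_sup n lam h0 h1 _ a b ih γ hγ
    have h3 := ih γ hγ
    constructor <;> linarith [h2.1, h2.2, h3.1, h3.2]

theorem nonlazy (n : ℕ) (hn : 2 ≤ n) (lam : ℝ) (h0 : 0 ≤ lam) (h1 : lam < 1) (t s : ℕ) (ψ : Finset Edge → ℝ)
    (hψ : ∀ g ∈ Om n, 0 ≤ ψ g ∧ ψ g ≤ 1) (δ : ℝ)
    (h : ∀ g ∈ Om n, ∀ g' ∈ Om n, |((TL lam n) ^ s) ψ g - ((TL lam n) ^ s) ψ g'| ≤ δ) :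
    ∀ g ∈ Om n, ∀ g' ∈ Om n, |((TP lam n) ^ t) ψ g - ((TP lam n) ^ t) ψ g'| ≤
      2 * ((s : ℝ) / Real.sqrt (2 * ((1 - lam) / (n : ℝ) ^ 2) * ((t : ℝ) + 1))) + δ := by
  have hn2 : (2 : ℝ) ≤ n := by exact_mod_cast hn
  have hnsq : (4 : ℝ) ≤ (n : ℝ) ^ 2 := by nlinarith
  obtain ⟨Q, hP, hQ⟩ := TP_hold n hn lam h0 h1
  obtain ⟨a, ha⟩ : ∃ a : ℝ, a = (1 - lam) / (n : ℝ) ^ 2 := ⟨_, rfl⟩
  rw [← ha] at hP ⊢
  have ha0 : 0 < a := by
    rw [ha]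
    exact div_pos (by linarith) (by linarith)
  have ha1 : a ≤ 1 / 2 := by
    rw [ha, div_le_div_iff₀ (by linarith) (by norm_num)]
    linarith
  obtain ⟨ρ, hρ⟩ : ∃ ρ : ℝ, ρ = Real.sqrt (2 * a * ((t : ℝ) + 1)) := ⟨_, rfl⟩
  rw [← hρ]
  have hsteps : ∀ s : ℕ, ∀ g ∈ Om n, |((TP lam n) ^ t) (((TL lam n) ^ s) ψ) g - ((TP lam n) ^ t) ψ g| ≤ (s : ℝ) / ρ := by
    intro s
    induction s with
    | zero =>
      intro g _
      rw [pow_zero, Module.End.one_apply]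
      simp
    | succ s ih =>
      intro g hg
      obtain ⟨w, hw⟩ : ∃ w : Finset Edge → ℝ, w = ((TL lam n) ^ s) ψ := ⟨_, rfl⟩
      have hw01 : ∀ γ ∈ Om n, 0 ≤ w γ ∧ w γ ≤ 1 := by
        rw [hw]
        exact anon_TL_mem n lam h0 h1.le ψ 0 1 hψ s
      have hsh := shift_bound (Om n) (TP lam n) Q a ha0 ha1 hP hQ w 1
        (fun η hη => by
          have h1 := hw01 η hη
          rw [abs_of_nonneg h1.1]
          exact h1.2) t g hg
      rw [← hρ] at hsh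
      rw [pow_succ', Module.End.mul_apply, ← hw, anon_TL_fun, map_smul, map_add, Pi.smul_apply,
        Pi.add_apply, smul_eq_mul]
      have e1 : ((TP lam n) ^ t) (TP lam n w) g = ((TP lam n) ^ (t + 1)) w g := by
        rw [pow_succ, Module.End.mul_apply]
      rw [e1]
      have ih' := ih g hg
      rw [← hw] at ih'
      have e2 : 1 / 2 * (((TP lam n) ^ t) w g + ((TP lam n) ^ (t + 1)) w g) - ((TP lam n) ^ t) ψ g =
          (((TP lam n) ^ t) w g - ((TP lam n) ^ t) ψ g) -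
          (1 / 2) * (((TP lam n) ^ t) w g - ((TP lam n) ^ (t + 1)) w g) := by ring
      rw [e2]
      refine (abs_sub _ _).trans ?_
      rw [abs_mul, abs_of_pos (by norm_num : (0 : ℝ) < 1 / 2)]
      have e3 : ((s + 1 : ℕ) : ℝ) / ρ = (s : ℝ) / ρ + (1 / 2) * (2 * 1 / ρ) := by
        push_cast
        ring
      rw [e3]
      exact add_le_add ih' (mul_le_mul_of_nonneg_left hsh (by norm_num))
  intro g hg g' hg'
  obtain ⟨w, hw⟩ : ∃ w : Finset Edge → ℝ, w = ((TL lam n) ^ s) ψ := ⟨_, rfl⟩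
  obtain ⟨gm, hgm, hmin⟩ := Finset.exists_min_image (Om n) w ⟨g, hg⟩
  have hosc := anon_TP_mem n lam h0 h1.le w (w gm) (w gm + δ) (fun γ hγ => by
    refine ⟨hmin γ hγ, ?_⟩
    have h2 := abs_le.1 (h γ hγ gm hgm)
    rw [← hw] at h2
    linarith [h2.2]) t
  have h3 := hosc g hg
  have h4 := hosc g' hg'
  have h5 := abs_le.1 (hsteps s g hg)
  have h6 := abs_le.1 (hsteps s g' hg')
  rw [← hw] at h5 h6
  rw [abs_le]
  constructor <;> linarith [h3.1, h3.2, h4.1, h4.2, h5.1, h5.2, h6.1, h6.2]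

end

end Pool.Agent.H40.WM
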