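import Mathlib
import Pool.Agent.H40.WM.AMix
import Pool.Agent.H40.WM.ANon

/-!
# APar: choice of the parameters

Fix `q ≤ q0`, `lam = q^4` (given `lam < lam0 = min (q0^4) (1/2)`, take `q = lam^(1/4)`, `Real.rpow`; `q ≤ 1` and `q ≤ q0`).  Let `C0` be given by the hypothesis, `K = C0 + 26`, `C` the
corresponding exponent.  `A' = 4 n^2 n^C / lam + 1`, `t1 = ⌈A' (C0 + 26) n⌉`: `(1-1/A')^t1 ≤ exp(-t1/A') ≤ exp(-(C0+26) n) ≤ n^(-(C0+26))`.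
`H ((1-1/A')^t1 + β) ≤ 2 n^(-26)`, so `4 n^3 (r + r') ε ≤ 8 n^6 * √2 * n^(-13) ≤ 12 n^(-7) ≤ 1/8` (`n ≥ 2`: `12/128 < 1/8`).
`s1 = t1 n^3`, then `nonlazy`: need `2 s1/√(2 (1-lam)/n^2 (t+1)) ≤ 1/8`, i.e. `t + 1 ≥ 128 n^2 s1^2/(1-lam)`: true if `t ≥ C' n^k'` for suitable `C', k'` depending on `lam` only
(`t1 ≤ A' (C0+26) n + 1`, `A' ≤ (4/lam + 1) n^(C+2)`).
-/

set_option autoImplicit false

namespace Pool.Agent.H40.WM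

open Pool.Agent.H40.SQ

noncomputable section

theorem par (q0 : ℝ) (hq0 : 0 < q0) (hq01 : q0 ≤ 1)
    (h : ∀ q : ℝ, 0 < q → q ≤ q0 → ∃ C0 : ℕ, ∀ K : ℕ, ∃ C : ℕ, ∀ n : ℕ, 2 ≤ n → ∀ s : ℤ, (s = 1 ∨ s = -1) →
      ∃ (r : ℕ) (EE : ℕ → Finset (Finset Edge)), r ≤ n ^ 3 ∧
        Ladder q n s ((n : ℝ) ^ C0) ((n : ℝ) ^ C) (1 / (n : ℝ) ^ K) r EE) :
    ∃ lam0 : ℝ, 0 < lam0 ∧ lam0 ≤ 1 / 4 ∧ ∀ lam : ℝ, 0 < lam → lam < lam0 →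
      ∃ (C : ℝ) (k : ℕ), ∀ n : ℕ, 2 ≤ n → ∀ t : ℕ, C * (n : ℝ) ^ k ≤ (t : ℝ) →
        ∀ ψ : Finset Edge → ℝ, (∀ g ∈ Om n, 0 ≤ ψ g ∧ ψ g ≤ 1) →
          ∀ g ∈ Om n, ∀ g' ∈ Om n, |((TP lam n) ^ t) ψ g - ((TP lam n) ^ t) ψ g'| ≤ 1 / 4 := by
  refine ⟨min (q0 ^ 4) (1 / 4), lt_min (by positivity) (by norm_num), min_le_right _ _, ?_⟩
  intro lam hl0 hl1
  have hl4 : lam < 1 / 4 := lt_of_lt_of_le hl1 (min_le_right _ _)
  have hlq : lam < q0 ^ 4 := lt_of_lt_of_le hl1 (min_le_left _ _)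
  obtain ⟨q, hq0', hq4⟩ : ∃ q : ℝ, 0 < q ∧ q ^ 4 = lam := by
    refine ⟨lam ^ ((1 : ℝ) / 4), Real.rpow_pos_of_pos hl0 _, ?_⟩
    rw [← Real.rpow_natCast, ← Real.rpow_mul hl0.le]
    norm_num
  have hqq : q ≤ q0 := by
    by_contra hc
    push Not at hc
    have : q0 ^ 4 < q ^ 4 := pow_lt_pow_left₀ hc hq0.le (by norm_num)
    linarith
  obtain ⟨C0, hC0⟩ := h q hq0' hqq
  obtain ⟨C, hC⟩ := hC0 (C0 + 26)
  have hlp : 0 < 4 / lam + 1 := by positivity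
  set M : ℝ := (4 / lam + 1) * ((C0 : ℝ) + 26) + 1 with hM
  have hMp : 0 < M := by positivity
  refine ⟨256 * M ^ 2, 2 * C + 14, ?_⟩
  intro n hn t ht ψ hψ
  have hn1 : (1 : ℝ) ≤ n := by exact_mod_cast (by omega : 1 ≤ n)
  have hn2 : (2 : ℝ) ≤ n := by exact_mod_cast hn
  have hn0 : (0 : ℝ) < n := by linarith
  obtain ⟨r, EE, hr, hL⟩ := hC n hn 1 (Or.inl rfl)
  obtain ⟨r', EE', hr', hL'⟩ := hC n hn (-1) (Or.inr rfl)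
  set A' : ℝ := 4 * (n : ℝ) ^ 2 * (n : ℝ) ^ C / lam + 1 with hA'
  have hA'1 : 1 ≤ A' := by
    have : 0 ≤ 4 * (n : ℝ) ^ 2 * (n : ℝ) ^ C / lam := by positivity
    linarith
  have hA'0 : 0 < A' := by linarith
  set t1 : ℕ := ⌈A' * (((C0 : ℝ) + 26) * n)⌉₊ with ht1
  have ht1l : A' * (((C0 : ℝ) + 26) * n) ≤ (t1 : ℝ) := Nat.le_ceil _
  have ht1u : (t1 : ℝ) ≤ A' * (((C0 : ℝ) + 26) * n) + 1 := by
    have := Nat.ceil_lt_add_one (a := A' * (((C0 : ℝ) + 26) * n)) (by positivity)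
    exact this.le
  have hA'u : A' ≤ (4 / lam + 1) * (n : ℝ) ^ (C + 2) := by
    have e1 : 4 * (n : ℝ) ^ 2 * (n : ℝ) ^ C / lam = (4 / lam) * (n : ℝ) ^ (C + 2) := by
      rw [pow_add]; ring
    have e2 : (1 : ℝ) ≤ (n : ℝ) ^ (C + 2) := one_le_pow₀ hn1
    rw [hA', e1, add_mul, one_mul]
    linarith
  have ht1M : (t1 : ℝ) ≤ M * (n : ℝ) ^ (C + 3) := by
    have e2 : (1 : ℝ) ≤ (n : ℝ) ^ (C + 3) := one_le_pow₀ hn1
    have e3 : A' * (((C0 : ℝ) + 26) * n) ≤ (4 / lam + 1) * (n : ℝ) ^ (C + 2) * (((C0 : ℝ) + 26) * n) :=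
      mul_le_mul_of_nonneg_right hA'u (by positivity)
    have e4 : (4 / lam + 1) * (n : ℝ) ^ (C + 2) * (((C0 : ℝ) + 26) * n) =
        (4 / lam + 1) * ((C0 : ℝ) + 26) * (n : ℝ) ^ (C + 3) := by
      rw [show C + 3 = (C + 2) + 1 by omega, pow_succ]; ring
    rw [hM, add_mul, one_mul]
    linarith
  have hexp : (1 - 1 / A') ^ t1 ≤ 1 / (n : ℝ) ^ (C0 + 26) := by
    have h1 : 0 ≤ 1 - 1 / A' := by
      rw [sub_nonneg, div_le_one hA'0]; exact hA'1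
    have h2 : 1 - 1 / A' ≤ Real.exp (-(1 / A')) := by
      have := Real.add_one_le_exp (-(1 / A'))
      linarith
    have h3 : (1 - 1 / A') ^ t1 ≤ Real.exp (-(1 / A')) ^ t1 := pow_le_pow_left₀ h1 h2 _
    have h4 : Real.exp (-(1 / A')) ^ t1 = Real.exp (-((t1 : ℝ) / A')) := by
      rw [← Real.exp_nat_mul]; congr 1; ring
    have h5 : ((C0 : ℝ) + 26) * n ≤ (t1 : ℝ) / A' := by
      rw [le_div_iff₀ hA'0]; linarith
    have h6 : Real.exp (-((t1 : ℝ) / A')) ≤ Real.exp (-(((C0 : ℝ) + 26) * n)) := by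
      apply Real.exp_le_exp.mpr; linarith
    have h7 : Real.exp (-(((C0 : ℝ) + 26) * n)) = (Real.exp (-(n : ℝ))) ^ (C0 + 26) := by
      rw [← Real.exp_nat_mul]; congr 1; push_cast; ring
    have h8 : Real.exp (-(n : ℝ)) ≤ 1 / (n : ℝ) := by
      rw [Real.exp_neg, ← one_div]
      apply one_div_le_one_div_of_le hn0
      have := Real.add_one_le_exp (n : ℝ)
      linarith
    have h9 : (Real.exp (-(n : ℝ))) ^ (C0 + 26) ≤ (1 / (n : ℝ)) ^ (C0 + 26) :=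
      pow_le_pow_left₀ (Real.exp_pos _).le h8 _
    rw [one_div_pow] at h9
    calc (1 - 1 / A') ^ t1 ≤ _ := h3
      _ = _ := h4
      _ ≤ _ := h6
      _ = _ := h7
      _ ≤ _ := h9
  have hsq : Real.sqrt ((n : ℝ) ^ C0 * ((1 - 1 / A') ^ t1 + 1 / (n : ℝ) ^ (C0 + 26))) ≤ (3 / 2) / (n : ℝ) ^ 13 := by
    apply Real.sqrt_le_iff.mpr
    refine ⟨by positivity, ?_⟩
    have h1 : (n : ℝ) ^ C0 * ((1 - 1 / A') ^ t1 + 1 / (n : ℝ) ^ (C0 + 26)) ≤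
        (n : ℝ) ^ C0 * (1 / (n : ℝ) ^ (C0 + 26) + 1 / (n : ℝ) ^ (C0 + 26)) :=
      mul_le_mul_of_nonneg_left (by linarith) (by positivity)
    have h2 : (n : ℝ) ^ C0 * (1 / (n : ℝ) ^ (C0 + 26) + 1 / (n : ℝ) ^ (C0 + 26)) = 2 / (n : ℝ) ^ 26 := by
      rw [pow_add]; field_simp; ring
    have h3 : ((3 / 2) / (n : ℝ) ^ 13) ^ 2 = (9 / 4) / (n : ℝ) ^ 26 := by
      rw [div_pow, ← pow_mul]; norm_num
    rw [h3]
    rw [h2] at h1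
    refine h1.trans ?_
    exact div_le_div_of_nonneg_right (by norm_num) (by positivity)
  have hδ : ∀ g ∈ Om n, ∀ g' ∈ Om n, |((TL lam n) ^ (t1 * n ^ 3)) ψ g - ((TL lam n) ^ (t1 * n ^ 3)) ψ g'| ≤ 1 / 8 := by
    intro g hg g' hg'
    have h1 := ladder_mix n (by omega) q lam hq4 hq0' (hqq.trans hq01) ((n : ℝ) ^ C0) ((n : ℝ) ^ C)
      (1 / (n : ℝ) ^ (C0 + 26)) (by positivity) (by positivity) (by positivity) r r' EE EE' hL hL' t1 (t1 * n ^ 3)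
      (Nat.mul_le_mul_left _ hr) (Nat.mul_le_mul_left _ hr') ψ hψ g hg g' hg'
    refine h1.trans ?_
    rw [← hA']
    have hrr : (r : ℝ) + r' ≤ 2 * (n : ℝ) ^ 3 := by
      have a1 : (r : ℝ) ≤ (n : ℝ) ^ 3 := by exact_mod_cast hr
      have a2 : (r' : ℝ) ≤ (n : ℝ) ^ 3 := by exact_mod_cast hr'
      linarith
    have h2 : 4 * (n : ℝ) ^ 3 * ((r : ℝ) + r') *
        Real.sqrt ((n : ℝ) ^ C0 * ((1 - 1 / A') ^ t1 + 1 / (n : ℝ) ^ (C0 + 26))) ≤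
        4 * (n : ℝ) ^ 3 * (2 * (n : ℝ) ^ 3) * ((3 / 2) / (n : ℝ) ^ 13) := by
      apply mul_le_mul
      · exact mul_le_mul_of_nonneg_left hrr (by positivity)
      · exact hsq
      · exact Real.sqrt_nonneg _
      · positivity
    refine h2.trans ?_
    have h3 : 4 * (n : ℝ) ^ 3 * (2 * (n : ℝ) ^ 3) * ((3 / 2) / (n : ℝ) ^ 13) = 12 / (n : ℝ) ^ 7 := by
      field_simp; ring
    rw [h3, div_le_div_iff₀ (by positivity) (by norm_num)]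
    have h4 : (2 : ℝ) ^ 7 ≤ (n : ℝ) ^ 7 := pow_le_pow_left₀ (by norm_num) hn2 7
    norm_num at h4
    linarith
  intro g hg g' hg'
  have hfin := nonlazy n hn lam hl0.le (by linarith) t (t1 * n ^ 3) ψ hψ (1 / 8) hδ g hg g' hg'
  refine hfin.trans ?_
  have hT : ((t1 * n ^ 3 : ℕ) : ℝ) ≤ M * (n : ℝ) ^ (C + 6) := by
    push_cast
    have : (t1 : ℝ) * (n : ℝ) ^ 3 ≤ M * (n : ℝ) ^ (C + 3) * (n : ℝ) ^ 3 :=
      mul_le_mul_of_nonneg_right ht1M (by positivity)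
    refine this.trans (le_of_eq ?_)
    rw [show C + 6 = (C + 3) + 3 by omega, pow_add (n : ℝ) (C + 3) 3]; ring
  have hsq2 : 16 * ((t1 * n ^ 3 : ℕ) : ℝ) ≤ Real.sqrt (2 * ((1 - lam) / (n : ℝ) ^ 2) * ((t : ℝ) + 1)) := by
    apply Real.le_sqrt_of_sq_le
    have h1 : (16 * ((t1 * n ^ 3 : ℕ) : ℝ)) ^ 2 ≤ (16 * (M * (n : ℝ) ^ (C + 6))) ^ 2 := by
      apply pow_le_pow_left₀ (by positivity)
      linarith
    have h2 : (16 * (M * (n : ℝ) ^ (C + 6))) ^ 2 = 256 * M ^ 2 * (n : ℝ) ^ (2 * C + 12) := by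
      rw [mul_pow, mul_pow, ← pow_mul, show (C + 6) * 2 = 2 * C + 12 by ring]; ring
    have h3 : 256 * M ^ 2 * (n : ℝ) ^ (2 * C + 12) = 256 * M ^ 2 * (n : ℝ) ^ (2 * C + 14) / (n : ℝ) ^ 2 := by
      rw [show 2 * C + 14 = (2 * C + 12) + 2 by omega, pow_add (n : ℝ) (2 * C + 12) 2]
      field_simp
    have h4 : 256 * M ^ 2 * (n : ℝ) ^ (2 * C + 14) / (n : ℝ) ^ 2 ≤ ((t : ℝ) + 1) / (n : ℝ) ^ 2 :=
      div_le_div_of_nonneg_right (by linarith) (by positivity)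
    have h5 : ((t : ℝ) + 1) / (n : ℝ) ^ 2 ≤ 2 * ((1 - lam) / (n : ℝ) ^ 2) * ((t : ℝ) + 1) := by
      have : 2 * ((1 - lam) / (n : ℝ) ^ 2) * ((t : ℝ) + 1) = (2 * (1 - lam)) * (((t : ℝ) + 1) / (n : ℝ) ^ 2) := by
        ring
      rw [this]
      have h6 : 0 ≤ ((t : ℝ) + 1) / (n : ℝ) ^ 2 := by positivity
      nlinarith
    calc _ ≤ _ := h1
      _ = _ := h2
      _ = _ := h3
      _ ≤ _ := h4
      _ ≤ _ := h5
  have hsp : 0 < Real.sqrt (2 * ((1 - lam) / (n : ℝ) ^ 2) * ((t : ℝ) + 1)) := by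
    apply Real.sqrt_pos.mpr
    have : 0 < 1 - lam := by linarith
    positivity
  have hd : ((t1 * n ^ 3 : ℕ) : ℝ) / Real.sqrt (2 * ((1 - lam) / (n : ℝ) ^ 2) * ((t : ℝ) + 1)) ≤ 1 / 16 := by
    rw [div_le_iff₀ hsp]
    linarith
  linarith

end

end Pool.Agent.H40.WM
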