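import Mathlib
import Pool.Agent.H40.WM.AFroO
import Pool.Agent.H40.WM.APar

/-!
# AFro: the frozen statement from the ladders

Given arbitrary `sq`, `P`, `mu` with the equations of the statement: `sq i j = sqN (i,j)`, so `P = PN`, `mu lam n γ0 t γ = muN lam n γ0 t γ` by induction on `t` (the sum is over the powerset of
`EN n`).  The decidability instances (`open Classical`) are irrelevant (`Subsingleton`, `convert`/`congr`).
Use the `lam0` of `par`; `C' = max C 1`, `k`: for `n ≥ 1` and `C' n^k ≤ t` one has `t ≥ 1` and `C n^k ≤ t`.  Reachable states are in `EN n` and their images are in `Om n` (`muN_reach`).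
Then `muN_eq`, the bijection `img` between the powersets (`img_inj`, `img_surj`, `img_sub`), `tv_of_test`, and `one_case` for `n = 1`, the conclusion of `par` for `n ≥ 2`.
-/

set_option autoImplicit false

namespace Pool.Agent.H40.WM

open Pool.Agent.H40.SQ

noncomputable section

open Classical in
theorem frozen_of_ladders (q0 : ℝ) (hq0 : 0 < q0) (hq01 : q0 ≤ 1)
    (h : ∀ q : ℝ, 0 < q → q ≤ q0 → ∃ C0 : ℕ, ∀ K : ℕ, ∃ C : ℕ, ∀ n : ℕ, 2 ≤ n → ∀ s : ℤ, (s = 1 ∨ s = -1) →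
      ∃ (r : ℕ) (EE : ℕ → Finset (Finset Edge)), r ≤ n ^ 3 ∧
        Ladder q n s ((n : ℝ) ^ C0) ((n : ℝ) ^ C) (1 / (n : ℝ) ^ K) r EE) :
  ∀ (sq : ℕ → ℕ → Finset (ℕ × ℕ × ℕ)),
    (∀ i j : ℕ, sq i j = {(0, i, j), (0, i, j + 1), (1, i, j), (1, i + 1, j)}) →
  ∀ (P : ℝ → ℕ → Finset (ℕ × ℕ × ℕ) → Finset (ℕ × ℕ × ℕ) → ℝ),
    (∀ (lam : ℝ) (n : ℕ) (γ γ' : Finset (ℕ × ℕ × ℕ)),
      P lam n γ γ' = ∑ c ∈ Finset.range n ×ˢ Finset.range n,
        (1 / ((n : ℝ) ^ 2)) *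
          (if sq c.1 c.2 ∩ γ = ∅ then
            (lam * (if γ' = γ ∪ sq c.1 c.2 then (1 : ℝ) else 0)
              + (1 - lam) * (if γ' = γ then (1 : ℝ) else 0))
          else if sq c.1 c.2 ⊆ γ then
            (if γ' = γ \ sq c.1 c.2 then (1 : ℝ) else 0)
          else (if γ' = γ then (1 : ℝ) else 0))) →
  ∀ (mu : ℝ → ℕ → Finset (ℕ × ℕ × ℕ) → ℕ → Finset (ℕ × ℕ × ℕ) → ℝ),
    (∀ (lam : ℝ) (n : ℕ) (γ0 γ : Finset (ℕ × ℕ × ℕ)),
      mu lam n γ0 0 γ = if γ = γ0 then (1 : ℝ) else 0) →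
    (∀ (lam : ℝ) (n : ℕ) (γ0 : Finset (ℕ × ℕ × ℕ)) (t : ℕ) (γ' : Finset (ℕ × ℕ × ℕ)),
      mu lam n γ0 (t + 1) γ' =
        ∑ γ ∈ ((Finset.range n ×ˢ Finset.range n).biUnion (fun c => sq c.1 c.2)).powerset,
          mu lam n γ0 t γ * P lam n γ γ') →
  ∃ lam0 : ℝ, 0 < lam0 ∧ lam0 ≤ 1 ∧ ∀ lam : ℝ, 0 < lam → lam < lam0 →
    ∃ C : ℝ, ∃ k : ℕ, ∀ n : ℕ, 1 ≤ n → ∀ t : ℕ, C * (n : ℝ) ^ k ≤ (t : ℝ) →
      ∀ γ0 γ1 : Finset (ℕ × ℕ × ℕ),
        (∃ s : ℕ, 0 < mu lam n ∅ s γ0) → (∃ s : ℕ, 0 < mu lam n ∅ s γ1) →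
        (1 / 2 : ℝ) *
          ∑ γ ∈ ((Finset.range n ×ˢ Finset.range n).biUnion (fun c => sq c.1 c.2)).powerset,
            |mu lam n γ0 t γ - mu lam n γ1 t γ| ≤ 1 / 4 := by
  intro sq hsq P hP mu hmu0 hmuS
  have hsqN : ∀ c : ℕ × ℕ, sq c.1 c.2 = sqN c := fun c => hsq c.1 c.2
  have hPN : ∀ (lam : ℝ) (n : ℕ) (γ γ' : Finset (ℕ × ℕ × ℕ)), P lam n γ γ' = PN lam n γ γ' := by
    intro lam n γ γ'
    rw [hP]
    unfold PN
    apply Finset.sum_congr rfl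
    intro c _
    rw [hsqN c]
  have hEN : ∀ n : ℕ, ((Finset.range n ×ˢ Finset.range n).biUnion (fun c => sq c.1 c.2)) = EN n := by
    intro n
    unfold EN
    ext x
    simp only [Finset.mem_biUnion, hsqN]
  have hmu : ∀ (lam : ℝ) (n : ℕ) (γ0 : Finset (ℕ × ℕ × ℕ)) (t : ℕ) (γ : Finset (ℕ × ℕ × ℕ)),
      mu lam n γ0 t γ = muN lam n γ0 t γ := by
    intro lam n γ0 t
    induction t with
    | zero =>
      intro γ
      rw [hmu0]
      unfold muN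
      by_cases hc : γ = γ0
      · simp [hc]
      · simp [hc]
    | succ t ih =>
      intro γ
      rw [hmuS, hEN]
      simp only [muN]
      apply Finset.sum_congr rfl
      intro η _
      rw [ih, hPN]
  obtain ⟨lam0, hl0, hl1, hL⟩ := par q0 hq0 hq01 h
  refine ⟨lam0, hl0, by linarith, ?_⟩
  intro lam hlam hlam'
  obtain ⟨C, k, hC⟩ := hL lam hlam hlam'
  refine ⟨max C 1, k, ?_⟩
  intro n hn t ht γ0 γ1 hγ0 hγ1
  obtain ⟨s0, hs0⟩ := hγ0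
  obtain ⟨s1, hs1⟩ := hγ1
  rw [hmu] at hs0 hs1
  obtain ⟨a0, b0⟩ := muN_reach lam n s0 hs0
  obtain ⟨a1, b1⟩ := muN_reach lam n s1 hs1
  have hn1 : (1 : ℝ) ≤ n := by exact_mod_cast hn
  have hnk : (1 : ℝ) ≤ (n : ℝ) ^ k := one_le_pow₀ hn1
  have ht1 : C * (n : ℝ) ^ k ≤ (t : ℝ) := by
    refine le_trans ?_ ht
    exact mul_le_mul_of_nonneg_right (le_max_left _ _) (by positivity)
  have ht2 : 1 ≤ t := by
    have h1 : (1 : ℝ) ≤ (t : ℝ) := by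
      refine le_trans ?_ ht
      have h2 : (1 : ℝ) * 1 ≤ max C 1 * (n : ℝ) ^ k :=
        mul_le_mul (le_max_right _ _) hnk (by norm_num) (by positivity)
      linarith
    exact_mod_cast h1
  have htest : ∀ ψ : Finset Edge → ℝ, (∀ γ ∈ Om n, 0 ≤ ψ γ ∧ ψ γ ≤ 1) →
      |((TP lam n) ^ t) ψ (img γ0) - ((TP lam n) ^ t) ψ (img γ1)| ≤ 1 / 4 := by
    intro ψ hψ
    rcases Nat.lt_or_ge n 2 with hn2 | hn2
    · obtain rfl : n = 1 := by omega
      exact one_case lam hlam.le (by linarith) t ht2 ψ hψ _ b0 _ b1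
    · exact hC n hn2 t ht1 ψ hψ _ b0 _ b1
  have htv := tv_of_test n hn lam hlam.le (by linarith) t b0 b1 (1 / 4) htest
  have hsum : ∑ γ ∈ (EN n).powerset, |mu lam n γ0 t γ - mu lam n γ1 t γ| =
      ∑ γ ∈ (E n).powerset, |law lam n (img γ0) t γ - law lam n (img γ1) t γ| := by
    apply Finset.sum_bij (fun γ _ => img γ)
    · intro γ hγ
      exact Finset.mem_powerset.2 (img_sub (Finset.mem_powerset.1 hγ))
    · intro γ hγ γ' hγ' he
      exact img_inj (Finset.mem_powerset.1 hγ) (Finset.mem_powerset.1 hγ') he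
    · intro g hg
      obtain ⟨γ, h1, h2⟩ := img_surj (Finset.mem_powerset.1 hg)
      exact ⟨γ, Finset.mem_powerset.2 h1, h2⟩
    · intro γ hγ
      rw [hmu, hmu, muN_eq lam n a0 (Finset.mem_powerset.1 hγ), muN_eq lam n a1 (Finset.mem_powerset.1 hγ)]
  rw [hEN, hsum]
  exact htv

end

end Pool.Agent.H40.WM
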