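import Mathlib
import Pool.Agent.H40.WM.QDefs
import Pool.Agent.H40.SQ.LSpr

/-!
# IDefs: interfaces (definitions only)

A vertex is `z = (x,y)`; lines `uu z = x - y`; the slice of an edge is `us` (see `QDefs`): the edge joins the lines `us e` and `us e + 1`.
The edges at `z`: `Hr` (right), `Hl` (left), `Vu` (up), `Vd` (down); `us (Hr z) = us (Vd z) = uu z`, `us (Hl z) = us (Vu z) = uu z - 1`.
`dfc G z` = number of horizontal minus number of vertical edges of `G` at `z`.  `IsP a b G`: `G` is connected, has defects `+1` at `a` and `-1` at `b`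
(`G = ∅` if `a = b`).  Relative to a base line `u` (an integer): double slice `kl u e`, wrong edges `Wr u e`, excess `ex u G k`.
Levels: `lvl a z`; the vertex on the line `uu a + 2k` with level `l` is `vt a k l`.  `lp a b G k` = level at which `G` crosses the line `uu a + 2k`.
`HC u G k`: half clean line: the slice on its left contains only vertical edges of `G`, the slice on its right only horizontal ones.
-/

set_option autoImplicit false

namespace Pool.Agent.H40.WM

open Pool.Agent.H40.SQ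

noncomputable section

def uu (z : ℤ × ℤ) : ℤ := z.1 - z.2

def vv (z : ℤ × ℤ) : ℤ := z.1 + z.2

def Hr (z : ℤ × ℤ) : Edge := (false, z.1, z.2)
def Hl (z : ℤ × ℤ) : Edge := (false, z.1 - 1, z.2)
def Vu (z : ℤ × ℤ) : Edge := (true, z.1, z.2)
def Vd (z : ℤ × ℤ) : Edge := (true, z.1, z.2 - 1)

/-- Defect: horizontal minus vertical edges at `z`. -/
def dfc (G : Finset Edge) (z : ℤ × ℤ) : ℤ := ind G (Hr z) + ind G (Hl z) - ind G (Vu z) - ind G (Vd z)

/-- `G` is a (thick) path from `a` to `b`. -/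
structure IsP (a b : ℤ × ℤ) (G : Finset Edge) : Prop where
  conn : Conn G
  def' : ∀ z, dfc G z = (if z = a then 1 else 0) - (if z = b then 1 else 0)
  emp : a = b → G = ∅

/-- Double slice of an edge relative to the base line `u`. -/
def kl (u : ℤ) (e : Edge) : ℤ := (us e - u) / 2

/-- Wrong edges: vertical in even slices, horizontal in odd slices (relative to `u`). -/
def Wr (u : ℤ) (e : Edge) : Prop := (e.1 = true ∧ (us e - u) % 2 = 0) ∨ (e.1 = false ∧ (us e - u) % 2 = 1)

instance (u : ℤ) : DecidablePred (Wr u) := fun e => by unfold Wr; infer_instance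

/-- Excess in the double slice `k`: twice the number of wrong edges. -/
def ex (u : ℤ) (G : Finset Edge) (k : ℤ) : ℕ := 2 * (G.filter (fun e => kl u e = k ∧ Wr u e)).card

/-- Level of a vertex relative to `a`. -/
def lvl (a z : ℤ × ℤ) : ℤ := (vv z - vv a - (uu z - uu a) % 2) / 2

/-- The vertex on the line `uu a + 2k` with level `l`. -/
def vt (a : ℤ × ℤ) (k l : ℤ) : ℤ × ℤ := (a.1 + k + l, a.2 - k + l)

/-- Level of the crossing of the line `uu a + 2k` (meaningful if the line is half clean). -/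
def lp (a b : ℤ × ℤ) (G : Finset Edge) (k : ℤ) : ℤ :=
  if k ≤ 0 then 0 else if uu b ≤ uu a + 2 * k then lvl a b
  else ∑ e ∈ G.filter (fun e => e.1 = false ∧ us e = uu a + 2 * k), lvl a (e.2.1, e.2.2)

/-- Part of `G` left of the line `u + 2k`. -/
def lf (u : ℤ) (G : Finset Edge) (k : ℤ) : Finset Edge := G.filter (fun e => kl u e < k)

/-- Part of `G` right of the line `u + 2k`. -/
def rt (u : ℤ) (G : Finset Edge) (k : ℤ) : Finset Edge := G.filter (fun e => k ≤ kl u e)

/-- Part of `G` between the lines `u + 2x` and `u + 2y`. -/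
def pc (u : ℤ) (G : Finset Edge) (x y : ℤ) : Finset Edge := G.filter (fun e => x ≤ kl u e ∧ kl u e < y)

/-- Half clean line. -/
def HC (u : ℤ) (G : Finset Edge) (k : ℤ) : Prop :=
  (∀ e ∈ G, us e = u + 2 * k - 1 → e.1 = true) ∧ (∀ e ∈ G, us e = u + 2 * k → e.1 = false)

/-- Vertical connector from `p` to `p + d(1,1)`: in the slice right of the line of `p` if `d > 0`, left of it if `d < 0`. -/
def Vert (p : ℤ × ℤ) (d : ℤ) : Finset Edge :=
  if 0 ≤ d then (Finset.Ico 0 d).image (fun i => ((false, p.1 + i, p.2 + i) : Edge)) ∪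
    (Finset.Ico 0 d).image (fun i => ((true, p.1 + i + 1, p.2 + i) : Edge))
  else (Finset.Ico d 0).image (fun i => ((false, p.1 + i, p.2 + i + 1) : Edge)) ∪
    (Finset.Ico d 0).image (fun i => ((true, p.1 + i, p.2 + i) : Edge))

/-- The straight path from `a` to `a + (m,-m)`. -/
def Str (a : ℤ × ℤ) (m : ℕ) : Finset Edge :=
  (Finset.Ico 0 (m : ℤ)).image (fun i => ((false, a.1 + i, a.2 - i) : Edge)) ∪
    (Finset.Ico 0 (m : ℤ)).image (fun i => ((true, a.1 + i + 1, a.2 - i - 1) : Edge))

/-- Partial sums. -/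
def Sf (f : ℤ → ℕ) (x y : ℤ) : ℕ := ∑ i ∈ Finset.Ico x y, f i

/-- Regular index. -/
def Reg (f : ℤ → ℕ) (k : ℤ) : Prop :=
  (∀ y, k ≤ y → 64 * (Sf f k y : ℤ) ≤ y - k) ∧ (∀ x, x ≤ k → 64 * (Sf f x k : ℤ) ≤ k - x)

/-- Consecutive regular indices. -/
def Cons (f : ℤ → ℕ) (x y : ℤ) : Prop := Reg f x ∧ Reg f y ∧ x < y ∧ ∀ z, x < z → z < y → ¬ Reg f z

/-- Some stretch between consecutive regular indices has excess at least `t`. -/
def Bad (f : ℤ → ℕ) (t : ℕ) : Prop := ∃ x y, Cons f x y ∧ t ≤ Sf f x y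

/-- Finite support. -/
def FSup (f : ℤ → ℕ) : Prop := ∃ N : ℤ, ∀ i : ℤ, N < |i| → f i = 0

end

end Pool.Agent.H40.WM
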