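import Mathlib
import Pool.Agent.H40.WM.IDefs

/-!
# TDefs: weights of paths, partition functions (definitions only)

`om` = infinite volume weight, `omD` = weight in the finite volume `D`.  `Wst q m` = supremum over all end levels `l` of the total weight of paths from `0` to `vt 0 m l`.
`PD D a b` = paths from `a` to `b` inside `D`.  `cd a n0 e` = distance (in double slices) of the edge from the two ends of the range `[0,n0]`.
`ConeD`: a vertex whose level is small compared with the distance to both ends has its four edges in `D`.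
-/

set_option autoImplicit false

namespace Pool.Agent.H40.WM

open Pool.Agent.H40.SQ

noncomputable section

def om (q : ℝ) (G : Finset Edge) : ℝ := q ^ G.card * Real.exp (- psi q G)

def omD (q : ℝ) (D G : Finset Edge) : ℝ := q ^ G.card * Real.exp (- psiD q D G)

def Wst (q : ℝ) (m : ℕ) : ℝ :=
  sSup {x : ℝ | ∃ (l : ℤ) (Q : Finset (Finset Edge)), (∀ G ∈ Q, IsP (0, 0) (vt (0, 0) m l) G) ∧ x = ∑ G ∈ Q, om q G}

open Classical in
def PD (D : Finset Edge) (a b : ℤ × ℤ) : Finset (Finset Edge) := D.powerset.filter (IsP a b)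

theorem mem_PD {D : Finset Edge} {a b : ℤ × ℤ} {G : Finset Edge} : G ∈ PD D a b ↔ G ⊆ D ∧ IsP a b G := by
  classical
  unfold PD
  rw [Finset.mem_filter, Finset.mem_powerset]

/-- Total excess of a pair. -/
def ex2 (u : ℤ) (X Y : Finset Edge) (k : ℤ) : ℕ := ex u X k + ex u Y k

def cd (a : ℤ × ℤ) (n0 : ℕ) (e : Edge) : ℤ := min (kl (uu a) e) (n0 - kl (uu a) e)

def ConeD (a : ℤ × ℤ) (n0 : ℕ) (D : Finset Edge) : Prop :=
  ∀ z : ℤ × ℤ, 2 * |lvl a z| + 4 ≤ uu z - uu a → 2 * |lvl a z| + 4 ≤ 2 * n0 - (uu z - uu a) →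
    Hr z ∈ D ∧ Hl z ∈ D ∧ Vu z ∈ D ∧ Vd z ∈ D

/-- Domains for the interface. -/
structure Dom (n : ℕ) (a b : ℤ × ℤ) (n0 : ℕ) (D : Finset Edge) : Prop where
  pos : 1 ≤ n0
  le : n0 ≤ 2 * n
  hb : b = (a.1 + n0, a.2 - n0)
  cone : ConeD a n0 D
  str : Str a n0 ⊆ D
  card : D.card ≤ 4 * n ^ 2

/-- Partition function of the paths in `D`. -/
def ZP (q : ℝ) (D : Finset Edge) (a b : ℤ × ℤ) : ℝ := ∑ G ∈ PD D a b, omD q D G

/-- The point where `G` crosses the line `x` (clipped to `[0,m]`). -/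
def pt (a b : ℤ × ℤ) (m : ℕ) (G : Finset Edge) (x : ℤ) : ℤ × ℤ := vt a (max 0 (min x m)) (lp a b G x)

/-- Replace the part of `G` between the lines `x` and `y` by a straight path. -/
def strt (a b : ℤ × ℤ) (m : ℕ) (G : Finset Edge) (x y : ℤ) : Finset Edge :=
  lf (uu a) G x ∪ Str (pt a b m G x) (max 0 (min y m) - max 0 (min x m)).toNat ∪
    sh (-(lp a b G y - lp a b G x), -(lp a b G y - lp a b G x)) (rt (uu a) G y)

end

end Pool.Agent.H40.WM
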