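import Mathlib
import Pool.Agent.H40.WM.TDefs
import Pool.Agent.H40.WM.ADefs
import Pool.Agent.H40.SQ.HCfg

/-!
# GDefs: geometry of the up-sets `EE(c)` (definitions only)

Box `[0,n)^2`.  `c` is an integer with `2 ≤ c ≤ 2n - 6`, `n ≥ 5`, and the parity of `c` is tied to the direction `s`: `Par s c` (`sgn c 0 = s`).  A face `(i,j)` is of type 1 if `i + j + c` is even (`gT`), i.e. `sgn i j = s`;
for every configuration `s F(type 1 face) - s F(neighbouring type 0 face) ∈ {0,1}`.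
All predicates are linear arithmetic with `% 2`, `min/max`: unfold and use `omega` (split `max` in `gal`).
Everything here was checked by computer for `4 ≤ n ≤ 14`, both `s`, all `c`.
-/

set_option autoImplicit false

namespace Pool.Agent.H40.WM

open Pool.Agent.H40.SQ

noncomputable section

def gBox (n : ℕ) (i j : ℤ) : Prop := 0 ≤ i ∧ i < n ∧ 0 ≤ j ∧ j < n

def gR0 (n : ℕ) (i j : ℤ) : Prop := gBox n i j ∧ (i = 0 ∨ j = 0 ∨ i = n - 1 ∨ j = n - 1)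

def gR1 (n : ℕ) (i j : ℤ) : Prop :=
  1 ≤ i ∧ i ≤ n - 2 ∧ 1 ≤ j ∧ j ≤ n - 2 ∧ (i = 1 ∨ j = 1 ∨ i = n - 2 ∨ j = n - 2)

/-- Type 1 faces. -/
def gT (c i j : ℤ) : Prop := (i + j + c) % 2 = 0

/-- The faces where the height is required to be maximal. -/
def gR (n : ℕ) (c i j : ℤ) : Prop := (gR1 n i j ∧ i + j ≤ c) ∨ (gR0 n i j ∧ gT c i j ∧ i + j ≤ c - 2)

/-- The faces where the height is forced. -/
def gV (n : ℕ) (c i j : ℤ) : Prop :=
  (gR1 n i j ∧ i + j ≤ c) ∨ (gR0 n i j ∧ i + j ≤ c - 1) ∨ (j = n - 1 ∧ 1 ≤ i ∧ i ≤ n - 2 ∧ i + j ≤ c + 1) ∨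
    (i = n - 1 ∧ 1 ≤ j ∧ j ≤ n - 2 ∧ i + j ≤ c + 1)

/-- The faces of height `s` of the ground state. -/
def gA (n : ℕ) (c i j : ℤ) : Prop :=
  gBox n i j ∧ i + j ≤ c ∧ ((1 ≤ i ∧ 1 ≤ j) ∨ i + j ≤ c - 2) ∧ ¬ (gR0 n i j ∧ ¬ gT c i j)

/-- Known faces. -/
def gK (n : ℕ) (c i j : ℤ) : Prop := gV n c i j ∨ ¬ gBox n i j

/-- Edges with both adjacent faces known. -/
def gFx (n : ℕ) (c : ℤ) (e : Edge) : Prop :=
  gK n c e.2.1 e.2.2 ∧ (if e.1 = true then gK n c (e.2.1 - 1) e.2.2 else gK n c e.2.1 (e.2.2 - 1))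

def gal (n : ℕ) (c : ℤ) : ℤ := max 1 (c - n + 2)

def ga (n : ℕ) (c : ℤ) : ℤ × ℤ := (gal n c, c + 1 - gal n c)

def gb (n : ℕ) (c : ℤ) : ℤ × ℤ := (c + 1 - gal n c, gal n c)

def gn0 (n : ℕ) (c : ℤ) : ℕ := (c + 1 - 2 * gal n c).toNat

open Classical in
def gD (n : ℕ) (c : ℤ) : Finset Edge := (E n).filter (fun e => ¬ gFx n c e) ∪ {Hr (ga n c), Vu (gb n c)}

open Classical in
/-- The ground state. -/
def gS (n : ℕ) (s c : ℤ) : Finset Edge := cfg n (fun i j => if gA n c i j then s else 0)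

/-- The frozen part of the configurations of `EE(c)`. -/
def gP (n : ℕ) (s c : ℤ) : Finset Edge := gS n s c \ Str (ga n c) (gn0 n c)

open Classical in
/-- The up-set. -/
def EEc (n : ℕ) (s c : ℤ) : Finset (Finset Edge) :=
  (Om n).filter (fun g => ∀ x ∈ box n, gR n c x.1 x.2 → 1 ≤ s * F g x.1 x.2)

/-- Compatibility of the direction and the parity of `c`, and the range of `c`. -/
structure Par (n : ℕ) (s c : ℤ) : Prop where
  hn : 5 ≤ n
  lo : 2 ≤ c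
  hi : c ≤ 2 * n - 6
  par : (s = 1 ∧ c % 2 = 0) ∨ (s = -1 ∧ c % 2 = 1)

theorem mem_box' {n : ℕ} {i j : ℤ} : (i, j) ∈ box n ↔ gBox n i j := by
  unfold box gBox
  rw [Finset.mem_product, Finset.mem_Ico, Finset.mem_Ico]
  tauto

end

end Pool.Agent.H40.WM
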