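import Mathlib
import Pool.Agent.H40.WM.GDefs

/-!
# BDefs: embedding of the smaller box (definitions only)

`cap n s`: the configuration with `s F = 1` on all faces of the box except the ring 0 faces with `sgn = -s`.  `Emb N s`: `Om N → Om (N+4)`: two outer rings of maximal height.
`EEt N s` = its image, an up-set.  `PLad` = partial ladder with last set `F`.
-/

set_option autoImplicit false

namespace Pool.Agent.H40.WM

open Pool.Agent.H40.SQ

noncomputable section

def capA (n : ℕ) (s i j : ℤ) : Prop := gBox n i j ∧ (¬ gR0 n i j ∨ sgn i j = s)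

open Classical in
def cap (n : ℕ) (s : ℤ) : Finset Edge := cfg n (fun i j => if capA n s i j then s else 0)

def Emb (N : ℕ) (s : ℤ) (g : Finset Edge) : Finset Edge := cap (N + 4) s ∪ sh (2, 2) g

open Classical in
def EEt (N : ℕ) (s : ℤ) : Finset (Finset Edge) :=
  (Om (N + 4)).filter (fun g => ∀ x ∈ box (N + 4), (gR1 (N + 4) x.1 x.2 ∨ (gR0 (N + 4) x.1 x.2 ∧ sgn x.1 x.2 = s)) →
    1 ≤ s * F g x.1 x.2)

structure PLad (q : ℝ) (n : ℕ) (s : ℤ) (H A β : ℝ) (r : ℕ) (EE : ℕ → Finset (Finset Edge)) (Fs : Finset (Finset Edge)) : Prop where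
  top : ∃ g0, EE 0 = {g0} ∧ ∀ g ∈ Om n, LeS s g g0
  last : EE r = Fs
  up : ∀ i, i ≤ r → UpS n s (EE i)
  mono : ∀ i, i < r → EE i ⊆ EE (i + 1)
  dens : ∀ i, i < r → ZE q (EE (i + 1)) ≤ H * ZE q (EE i)
  wp : ∀ i, 1 ≤ i → i ≤ r → WPo q n (EE i) A β

end

end Pool.Agent.H40.WM
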