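import Mathlib
import Pool.Agent.H40.WM.GDefs
import Pool.Agent.H40.SQ.HLat
import Pool.Agent.H40.SQ.HCfg
import Pool.Agent.H40.SQ.HStep

/-!
# GVal: the ground state is admissible

`Val0`: `sgn i j = s` iff `gT c i j` (`Par`).  For neighbouring faces `x` (type 1), `y` (type 0): `1_A x - 1_A y ∈ {0,1}`, i.e. if `y ∈ A` then `x ∈ A`: `y ∈ A` of type 0 is not in ring 0, so `1 ≤ i,j ≤ n-2`, and `i + j ≤ c`, so by parity `i + j ≤ c - 1`; each neighbour
is in the box, has sum `≤ c`, and if it has a zero coordinate its sum is `≤ c - 2`; it is of type 1.  (`omega` after unfolding.)  Outside the box the value is `0`.  Then `cfg_mem`, `F_cfg`.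
`gR_sub`: `gR` faces are in the box and in `gA` and in `gV`; `gV` faces are in the box.
-/

set_option autoImplicit false

namespace Pool.Agent.H40.WM

open Pool.Agent.H40.SQ

noncomputable section

private theorem sgn_gT {n : ℕ} {s c : ℤ} (h : Par n s c) (i j : ℤ) :
    (gT c i j → sgn i j = s) ∧ (¬ gT c i j → sgn i j = - s) := by
  obtain ⟨hn, lo, hi, par⟩ := h
  unfold sgn gT
  rcases par with ⟨rfl, hc⟩ | ⟨rfl, hc⟩
  · constructor
    · intro h1
      rw [if_pos (by omega)]
    · intro h1
      rw [if_neg (by omega)]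
  · constructor
    · intro h1
      rw [if_neg (by omega)]
    · intro h1
      rw [if_pos (by omega)]
      norm_num

/-- A face of type 0 in `gA` has all its neighbours in `gA`. -/
private theorem gA_nb {n : ℕ} {s c : ℤ} (h : Par n s c) {i j : ℤ} (hA : gA n c i j) (hT : ¬ gT c i j) :
    gA n c (i - 1) j ∧ gA n c (i + 1) j ∧ gA n c i (j - 1) ∧ gA n c i (j + 1) := by
  obtain ⟨hn, lo, hi, -⟩ := h
  have hR : ¬ gR0 n i j := fun h0 => hA.2.2.2 ⟨h0, hT⟩
  have h1 : gBox n i j := hA.1
  have h2 : i + j ≤ c := hA.2.1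
  have h3 : 1 ≤ i ∧ i ≤ n - 2 ∧ 1 ≤ j ∧ j ≤ n - 2 := by
    unfold gR0 at hR
    have : ¬ (i = 0 ∨ j = 0 ∨ i = n - 1 ∨ j = n - 1) := fun h0 => hR ⟨h1, h0⟩
    unfold gBox at h1
    omega
  have h4 : (i + j + c) % 2 = 1 := by
    unfold gT at hT
    omega
  have t1 : gT c (i - 1) j := by unfold gT; omega
  have t2 : gT c (i + 1) j := by unfold gT; omega
  have t3 : gT c i (j - 1) := by unfold gT; omega
  have t4 : gT c i (j + 1) := by unfold gT; omega
  refine ⟨⟨?_, ?_, ?_, fun h0 => h0.2 t1⟩, ⟨?_, ?_, ?_, fun h0 => h0.2 t2⟩, ⟨?_, ?_, ?_, fun h0 => h0.2 t3⟩,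
    ⟨?_, ?_, ?_, fun h0 => h0.2 t4⟩⟩
  all_goals first
    | (unfold gBox; omega)
    | omega

open Classical in
theorem gA_val {n : ℕ} {s c : ℤ} (h : Par n s c) : Val n (fun i j => if gA n c i j then s else 0) := by
  refine ⟨fun i j => ?_, fun i j hij => ?_⟩
  · simp only
    have hs := sgn_gT h i j
    by_cases hT : gT c i j
    · have hs1 := hs.1 hT
      rw [hs1]
      have n1 : gA n c (i - 1) j → gA n c i j := by
        intro hA
        have hT' : ¬ gT c (i - 1) j := by
          unfold gT at hT ⊢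
          omega
        have := (gA_nb h hA hT').2.1
        rwa [sub_add_cancel] at this
      have n2 : gA n c i (j - 1) → gA n c i j := by
        intro hA
        have hT' : ¬ gT c i (j - 1) := by
          unfold gT at hT ⊢
          omega
        have := (gA_nb h hA hT').2.2.2
        rwa [sub_add_cancel] at this
      constructor
      · by_cases h1 : gA n c (i - 1) j
        · rw [if_pos h1, if_pos (n1 h1)]
          left; ring
        · by_cases h2 : gA n c i j
          · rw [if_neg h1, if_pos h2]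
            right; ring
          · rw [if_neg h1, if_neg h2]
            left; ring
      · by_cases h1 : gA n c i (j - 1)
        · rw [if_pos h1, if_pos (n2 h1)]
          left; ring
        · by_cases h2 : gA n c i j
          · rw [if_neg h1, if_pos h2]
            right; ring
          · rw [if_neg h1, if_neg h2]
            left; ring
    · have hs1 := hs.2 hT
      rw [hs1]
      constructor
      · by_cases h2 : gA n c i j
        · rw [if_pos h2, if_pos (gA_nb h h2 hT).1]
          left; ring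
        · by_cases h1 : gA n c (i - 1) j
          · rw [if_neg h2, if_pos h1]
            right; ring
          · rw [if_neg h1, if_neg h2]
            left; ring
      · by_cases h2 : gA n c i j
        · rw [if_pos h2, if_pos (gA_nb h h2 hT).2.2.1]
          left; ring
        · by_cases h1 : gA n c i (j - 1)
          · rw [if_neg h2, if_pos h1]
            right; ring
          · rw [if_neg h1, if_neg h2]
            left; ring
  · simp only
    rw [if_neg]
    intro hA
    exact hij (mem_box'.mpr hA.1)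

theorem gS_mem {n : ℕ} {s c : ℤ} (h : Par n s c) : gS n s c ∈ Om n := by
  unfold gS
  exact cfg_mem (gA_val h)

open Classical in
theorem F_gS {n : ℕ} {s c : ℤ} (h : Par n s c) (i j : ℤ) : F (gS n s c) i j = if gA n c i j then s else 0 := by
  have := F_cfg (gA_val h) i j
  unfold gS
  exact this

theorem gR_sub {n : ℕ} {s c : ℤ} (h : Par n s c) {i j : ℤ} (hR : gR n c i j) : gBox n i j ∧ gA n c i j ∧ gV n c i j := by
  obtain ⟨hn, lo, hi, -⟩ := h
  rcases hR with ⟨h1, h2⟩ | ⟨h1, h2, h3⟩
  · have hb : 1 ≤ i ∧ i ≤ n - 2 ∧ 1 ≤ j ∧ j ≤ n - 2 := ⟨h1.1, h1.2.1, h1.2.2.1, h1.2.2.2.1⟩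
    have hB : gBox n i j := by unfold gBox; omega
    refine ⟨hB, ⟨hB, h2, Or.inl (by omega), fun h0 => ?_⟩, Or.inl ⟨h1, h2⟩⟩
    have := h0.1.2
    omega
  · refine ⟨h1.1, ⟨h1.1, by omega, Or.inr h3, fun h0 => h0.2 h2⟩, Or.inr (Or.inl ⟨h1, by omega⟩)⟩

theorem gV_box {n : ℕ} {s c : ℤ} (h : Par n s c) {i j : ℤ} (hV : gV n c i j) : gBox n i j := by
  obtain ⟨hn, lo, hi, -⟩ := h
  rcases hV with ⟨h1, h2⟩ | ⟨h1, h2⟩ | h1 | h1
  · have hb : 1 ≤ i ∧ i ≤ n - 2 ∧ 1 ≤ j ∧ j ≤ n - 2 := ⟨h1.1, h1.2.1, h1.2.2.1, h1.2.2.2.1⟩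
    unfold gBox; omega
  · exact h1.1
  · unfold gBox; omega
  · unfold gBox; omega

/-- Membership in the ground state: the heights on the two sides differ. -/
theorem mem_gS {n : ℕ} {s c : ℤ} (h : Par n s c) (e : Edge) :
    e ∈ gS n s c ↔ e ∈ E n ∧ ¬ (gA n c e.2.1 e.2.2 ↔ (if e.1 = true then gA n c (e.2.1 - 1) e.2.2 else gA n c e.2.1 (e.2.2 - 1))) := by
  have hs : s ≠ 0 := by
    rcases h.par with ⟨rfl, -⟩ | ⟨rfl, -⟩ <;> norm_num
  obtain ⟨b, i, j⟩ := e
  unfold gS cfg
  rw [Finset.mem_filter]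
  refine and_congr_right fun _ => ?_
  have key : ∀ P Q : Prop, ∀ (_ : Decidable P) (_ : Decidable Q),
      ((if P then s else 0) ≠ (if Q then s else 0)) ↔ ¬ (P ↔ Q) := by
    intro P Q _ _
    by_cases hP : P <;> by_cases hQ : Q <;> simp [hP, hQ, hs, hs.symm]
  cases b
  · simp only [Bool.false_eq_true, false_and, true_and, false_or, if_false]
    exact key _ _ _ _
  · simp only [Bool.true_eq_false, false_and, true_and, or_false, if_true]
    exact key _ _ _ _

/-- Differences of heights across an edge. -/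
theorem s_step {n : ℕ} {s c : ℤ} (h : Par n s c) {g : Finset Edge} (hg : g ∈ Om n) (i j : ℤ) :
    (gT c i j → (s * F g i j - s * F g (i - 1) j = ind g (true, i, j)) ∧ (s * F g i j - s * F g i (j - 1) = ind g (false, i, j))) ∧
    (¬ gT c i j → (s * F g (i - 1) j - s * F g i j = ind g (true, i, j)) ∧ (s * F g i (j - 1) - s * F g i j = ind g (false, i, j))) := by
  have hs := sgn_gT h i j
  have hE := (mem_Om.mp hg).1
  have h1 := F_step hE i j
  have h2 := F_vstep hg i j
  have hss : s * s = 1 := by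
    rcases h.par with ⟨rfl, -⟩ | ⟨rfl, -⟩ <;> norm_num
  constructor
  · intro hT
    rw [hs.1 hT] at h1 h2
    exact ⟨by linear_combination s * h1 + ind g (true, i, j) * hss,
      by linear_combination s * h2 + ind g (false, i, j) * hss⟩
  · intro hT
    rw [hs.2 hT] at h1 h2
    exact ⟨by linear_combination (-s) * h1 + ind g (true, i, j) * hss,
      by linear_combination (-s) * h2 + ind g (false, i, j) * hss⟩

end

end Pool.Agent.H40.WM
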