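import Mathlib
import Pool.Agent.H40.WM.QDefs

/-!
# QBas: elementary properties of `VCs`, `ZV`, `N1`

All proofs are immediate: `∅ ∈ VCs D` (`VC_empty`-type computation: `ind ∅ e = 0`) has weight `1`; larger `D` has more configurations
(all weights are nonnegative); `N1 A = A.biUnion nb`, `card_nb_le`.
`ZV_le_two`: `VCs (insert e D)` consists of the configurations not containing `e` (at most `ZV D`) and those containing `e`; this crude
bound is not needed.
-/

set_option autoImplicit false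

namespace Pool.Agent.H40.WM

open Pool.Agent.H40.SQ

noncomputable section

theorem empty_mem_VCs (D : Finset Edge) : ∅ ∈ VCs D := by
  rw [mem_VCs]
  refine ⟨Finset.empty_subset _, ?_⟩
  intro i j
  simp [ind]

theorem VCs_mono {D D' : Finset Edge} (h : D ⊆ D') : VCs D ⊆ VCs D' := by
  intro g hg
  rw [mem_VCs] at hg ⊢
  exact ⟨hg.1.trans h, hg.2⟩

theorem ZV_one_le (q : ℝ) (hq : 0 ≤ q) (D : Finset Edge) : 1 ≤ ZV q D := by
  unfold ZV
  have h := Finset.single_le_sum (f := fun g : Finset Edge => q ^ g.card)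
    (fun g _ => pow_nonneg hq _) (empty_mem_VCs D)
  simpa using h

theorem ZV_pos (q : ℝ) (hq : 0 ≤ q) (D : Finset Edge) : 0 < ZV q D :=
  lt_of_lt_of_le one_pos (ZV_one_le q hq D)

theorem ZV_mono (q : ℝ) (hq : 0 ≤ q) {D D' : Finset Edge} (h : D ⊆ D') : ZV q D ≤ ZV q D' := by
  unfold ZV
  exact Finset.sum_le_sum_of_subset_of_nonneg (VCs_mono h) (fun g _ _ => pow_nonneg hq _)

theorem ZV_empty (q : ℝ) : ZV q ∅ = 1 := by
  have h : VCs ∅ = {∅} := by
    ext g
    rw [Finset.mem_singleton]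
    constructor
    · intro hg
      exact Finset.subset_empty.1 (mem_VCs.1 hg).1
    · rintro rfl
      exact empty_mem_VCs _
  unfold ZV
  rw [h, Finset.sum_singleton, Finset.card_empty, pow_zero]

theorem subset_N1 (A : Finset Edge) : A ⊆ N1 A := by
  intro a ha
  rw [mem_N1]
  exact ⟨a, ha, tch_refl a⟩

theorem N1_empty : N1 ∅ = ∅ := by
  unfold N1
  exact Finset.biUnion_empty

theorem N1_union (A B : Finset Edge) : N1 (A ∪ B) = N1 A ∪ N1 B := by
  unfold N1
  exact Finset.union_biUnion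

theorem N1_mono {A B : Finset Edge} (h : A ⊆ B) : N1 A ⊆ N1 B := by
  unfold N1
  exact Finset.biUnion_subset_biUnion_of_subset_left _ h

theorem N1_card (A : Finset Edge) : (N1 A).card ≤ 7 * A.card := by
  unfold N1
  rw [mul_comm]
  exact Finset.card_biUnion_le_card_mul _ _ _ (fun a _ => card_nb_le a)

theorem ends_cases (a : Edge) (v : ℤ × ℤ) : v ∈ ends a ↔
    (v = (a.2.1, a.2.2) ∨ (a.1 = true ∧ v = (a.2.1, a.2.2 + 1)) ∨
      (a.1 = false ∧ v = (a.2.1 + 1, a.2.2))) := by
  unfold ends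
  rcases a with ⟨b, x, y⟩
  cases b <;> simp

theorem tch_dd {a b : Edge} (h : Tch a b) : dd a b ≤ 1 := by
  obtain ⟨v, hva, hvb⟩ := h
  rw [ends_cases] at hva hvb
  unfold dd
  rcases hva with rfl | ⟨_, rfl⟩ | ⟨_, rfl⟩ <;> rcases hvb with h | ⟨_, h⟩ | ⟨_, h⟩ <;>
    rw [Prod.mk.injEq] at h <;> rw [max_le_iff] <;> constructor <;> omega

theorem dd_triangle (a b c : Edge) : dd a c ≤ dd a b + dd b c := by
  unfold dd
  omega

theorem dd_comm (a b : Edge) : dd a b = dd b a := by
  unfold dd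
  omega

/-- Touching edges lie in the same slice or in neighbouring slices. -/
theorem tch_us {a b : Edge} (h : Tch a b) : |us a - us b| ≤ 1 := by
  obtain ⟨v, hva, hvb⟩ := h
  rw [ends_cases] at hva hvb
  unfold us
  rw [abs_le]
  rcases a with ⟨a1, x, y⟩
  rcases b with ⟨b1, z, w⟩
  rcases hva with rfl | ⟨_, rfl⟩ | ⟨_, rfl⟩ <;> rcases hvb with h | ⟨_, h⟩ | ⟨_, h⟩ <;>
    rw [Prod.mk.injEq] at h <;> cases a1 <;> cases b1 <;> simp_all <;> omega

end

end Pool.Agent.H40.WM
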