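import Mathlib
import Pool.Agent.H40.WM.QDefs
import Pool.Agent.H40.SQ.LNb

/-!
# QCmp: components

`cmp W e` is the set of the edges of `W` reachable from `e` inside `W`.
* `cmp_closed`: append one step.
* `cmp_conn`: let `A ⊆ C = cmp W e` be nonempty and `≠ C`.  If `e ∈ A`: take `f ∈ C \ A` and the path from `e` to `f` in `W`; all its
  edges are in `C`; the first edge outside `A` (induction on `ReflTransGen`) gives the touching pair.  If `e ∉ A`: take `f ∈ A` and the path
  from `e` to `f`; it passes from `C \ A` to `A` at some step; use symmetry of `Tch` (`tch_symm`).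
* `cmp_unique`: `C ⊆ cmp W e` because `C` is connected: the set `A = C ∩ cmp W e` contains `e`; if `A ≠ C` there are `a ∈ A`, `b ∈ C \ A`
  touching, but then `b ∈ cmp W e` by closedness.  Conversely `C` is closed in `W` and contains `e`: induction on `ReflTransGen`.
* `cmp_conn_sub`: a connected subset of `W` containing `e` is contained in the component (same argument).
-/

set_option autoImplicit false

namespace Pool.Agent.H40.WM

open Pool.Agent.H40.SQ

noncomputable section

private theorem mem_cmp {W : Finset Edge} {e f : Edge} :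
    f ∈ cmp W e ↔ f ∈ W ∧ e ∈ W ∧ Relation.ReflTransGen (fun a b => Tch a b ∧ b ∈ W) e f := by
  classical
  unfold cmp
  rw [Finset.mem_filter]

/-- A set containing `e` and closed under touching inside the component contains the component. -/
private theorem cmp_ind {W : Finset Edge} {e : Edge} (B : Finset Edge) (he : e ∈ B)
    (hB : ∀ a ∈ B, a ∈ cmp W e → ∀ b ∈ W, Tch a b → b ∈ B) : cmp W e ⊆ B := by
  intro f hf
  obtain ⟨hfW, heW, h⟩ := mem_cmp.1 hf
  clear hf hfW
  have key : f ∈ B ∧ f ∈ W := by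
    induction h with
    | refl => exact ⟨he, heW⟩
    | @tail g h hg hgh ih =>
      have hgW : g ∈ W := by
        rcases Relation.ReflTransGen.cases_tail hg with h1 | ⟨c, _, h2⟩
        · rw [h1]
          exact heW
        · exact h2.2
      have hgc : g ∈ cmp W e := mem_cmp.2 ⟨hgW, heW, hg⟩
      exact ⟨hB g ih.1 hgc h hgh.2 hgh.1, hgh.2⟩
  exact key.1

theorem cmp_subset (W : Finset Edge) (e : Edge) : cmp W e ⊆ W := by
  intro f hf
  exact (mem_cmp.1 hf).1

theorem mem_cmp_self {W : Finset Edge} {e : Edge} (h : e ∈ W) : e ∈ cmp W e :=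
  mem_cmp.2 ⟨h, h, Relation.ReflTransGen.refl⟩

theorem cmp_empty {W : Finset Edge} {e : Edge} (h : e ∉ W) : cmp W e = ∅ := by
  rw [Finset.eq_empty_iff_forall_notMem]
  intro f hf
  exact h (mem_cmp.1 hf).2.1

theorem cmp_closed {W : Finset Edge} {e a b : Edge} (ha : a ∈ cmp W e) (hb : b ∈ W) (h : Tch a b) : b ∈ cmp W e := by
  obtain ⟨_, h2, h3⟩ := mem_cmp.1 ha
  exact mem_cmp.2 ⟨hb, h2, h3.tail ⟨h, hb⟩⟩

theorem cmp_conn (W : Finset Edge) (e : Edge) : Conn (cmp W e) := by
  classical
  intro A hA hne hAC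
  by_contra hcon
  push Not at hcon
  by_cases he : e ∈ A
  · refine hAC (Finset.Subset.antisymm hA (cmp_ind A he ?_))
    intro a ha hac b hb hab
    by_contra hbA
    exact hcon a ha b (Finset.mem_sdiff.2 ⟨cmp_closed hac hb hab, hbA⟩) hab
  · obtain ⟨a0, ha0⟩ := hne
    have heW : e ∈ W := (mem_cmp.1 (hA ha0)).2.1
    have h1 : cmp W e ⊆ cmp W e \ A := by
      refine cmp_ind _ (Finset.mem_sdiff.2 ⟨mem_cmp_self heW, he⟩) ?_
      intro a ha hac b hb hab
      refine Finset.mem_sdiff.2 ⟨cmp_closed hac hb hab, ?_⟩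
      intro hbA
      exact hcon b hbA a ha (tch_symm hab)
    exact (Finset.mem_sdiff.1 (h1 (hA ha0))).2 ha0

theorem cmp_conn_sub {W C : Finset Edge} {e : Edge} (hC : C ⊆ W) (he : e ∈ C) (hc : Conn C) : C ⊆ cmp W e := by
  classical
  have h1 : C ∩ cmp W e = C := by
    by_contra hne
    obtain ⟨a, ha, b, hb, hab⟩ := hc (C ∩ cmp W e) Finset.inter_subset_left
      ⟨e, Finset.mem_inter.2 ⟨he, mem_cmp_self (hC he)⟩⟩ hne
    rw [Finset.mem_sdiff] at hb
    exact hb.2 (Finset.mem_inter.2 ⟨hb.1, cmp_closed (Finset.mem_inter.1 ha).2 (hC hb.1) hab⟩)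
  rw [← h1]
  exact Finset.inter_subset_right

theorem cmp_unique {W C : Finset Edge} {e : Edge} (hC : C ⊆ W) (he : e ∈ C) (hc : Conn C)
    (hcl : ∀ a ∈ C, ∀ b ∈ W, Tch a b → b ∈ C) : cmp W e = C := by
  refine Finset.Subset.antisymm (cmp_ind C he ?_) (cmp_conn_sub hC he hc)
  intro a ha _ b hb hab
  exact hcl a ha b hb hab

/-- No edge of `W` outside the component touches the component. -/
theorem cmp_not_tch {W : Finset Edge} {e a b : Edge} (ha : a ∈ cmp W e) (hb : b ∈ W) (hb' : b ∉ cmp W e) : ¬ Tch a b :=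
  fun h => hb' (cmp_closed ha hb h)

end

end Pool.Agent.H40.WM
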