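import Mathlib
import Pool.Agent.H40.WM.QDefs
import Pool.Agent.H40.SQ.HAdd

/-!
# QVC: splitting a configuration along a set of edges separated from the rest

The four edges at the vertex `(i,j)` touch each other.  If `C` is a set of edges such that no edge of `g ∩ C` touches an edge of `g \ C`
then at every vertex either all or none of the edges of `g` are in `C`; hence `VC (g ∩ C)` and `VC (g \ C)`.
Precisely: fix a vertex `(i,j)`; if no edge of `g` at the vertex is in `C` then all four indicators of `g ∩ C` vanish and both sides of the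
vertex condition are `0`.  Otherwise some edge `a ∈ g ∩ C` has the vertex as endpoint; every edge `b ∈ g` at the vertex touches `a`, so
`b ∈ C`: the indicators of `g ∩ C` and of `g` agree at the vertex.  (The four edges at `(i,j)`: `(false,i-1,j)`, `(false,i,j)`,
`(true,i,j-1)`, `(true,i,j)`; check `(i,j) ∈ ends` of each by `simp [ends]`.)
`VC_glue`: if `C` has this separation property with respect to `W`, `g, g' ⊆ W` satisfy VC, then so does `(g \ C) ∪ (g' ∩ C)` (disjoint union).
`VC_union`, `VC_sdiff` are in `SQ.HAdd`.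
-/

set_option autoImplicit false

namespace Pool.Agent.H40.WM

open Pool.Agent.H40.SQ

noncomputable section

private theorem qvc_key {g C : Finset Edge} (h : ∀ a ∈ g, a ∈ C → ∀ b ∈ g, b ∉ C → ¬ Tch a b)
    (v : ℤ × ℤ) : (∀ b, v ∈ ends b → ind (g ∩ C) b = ind g b) ∨
      (∀ b, v ∈ ends b → ind (g ∩ C) b = 0) := by
  by_cases h1 : ∃ a ∈ g, a ∈ C ∧ v ∈ ends a
  · obtain ⟨a, hag, haC, hav⟩ := h1
    left
    intro b hb
    by_cases hbg : b ∈ g
    · have hbC : b ∈ C := by
        by_contra hbC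
        exact h a hag haC b hbg hbC ⟨v, hav, hb⟩
      rw [ind, ind, if_pos (Finset.mem_inter.2 ⟨hbg, hbC⟩), if_pos hbg]
    · rw [ind, ind, if_neg (fun h2 => hbg (Finset.mem_inter.1 h2).1), if_neg hbg]
  · right
    intro b hb
    rw [ind, if_neg]
    intro h2
    exact h1 ⟨b, (Finset.mem_inter.1 h2).1, (Finset.mem_inter.1 h2).2, hb⟩

theorem VC_inter {g C : Finset Edge} (hg : VC g) (h : ∀ a ∈ g, a ∈ C → ∀ b ∈ g, b ∉ C → ¬ Tch a b) : VC (g ∩ C) := by
  intro i j
  have e1 : ((i, j) : ℤ × ℤ) ∈ ends (false, i - 1, j) := by simp [ends]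
  have e2 : ((i, j) : ℤ × ℤ) ∈ ends (false, i, j) := by simp [ends]
  have e3 : ((i, j) : ℤ × ℤ) ∈ ends (true, i, j - 1) := by simp [ends]
  have e4 : ((i, j) : ℤ × ℤ) ∈ ends (true, i, j) := by simp [ends]
  rcases qvc_key h (i, j) with h1 | h1
  · rw [h1 _ e1, h1 _ e2, h1 _ e3, h1 _ e4]
    exact hg i j
  · rw [h1 _ e1, h1 _ e2, h1 _ e3, h1 _ e4]

theorem VC_diff {g C : Finset Edge} (hg : VC g) (h : ∀ a ∈ g, a ∈ C → ∀ b ∈ g, b ∉ C → ¬ Tch a b) : VC (g \ C) := by
  have h1 := VC_sdiff (κ := g ∩ C) Finset.inter_subset_left hg (VC_inter hg h)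
  rwa [Finset.sdiff_inter_self_left] at h1

theorem VC_glue {g g' C : Finset Edge} (hg : VC g) (hg' : VC g')
    (h : ∀ a ∈ g ∪ g', a ∈ C → ∀ b ∈ g ∪ g', b ∉ C → ¬ Tch a b) : VC ((g \ C) ∪ (g' ∩ C)) := by
  refine VC_union ?_ (VC_diff hg ?_) (VC_inter hg' ?_)
  · rw [Finset.disjoint_left]
    intro a ha hb
    exact (Finset.mem_sdiff.1 ha).2 (Finset.mem_inter.1 hb).2
  · intro a ha haC b hb hbC
    exact h a (Finset.mem_union_left _ ha) haC b (Finset.mem_union_left _ hb) hbC
  · intro a ha haC b hb hbC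
    exact h a (Finset.mem_union_right _ ha) haC b (Finset.mem_union_right _ hb) hbC

end

end Pool.Agent.H40.WM
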