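import Mathlib
import Pool.Agent.H40.WM.QCmp
import Pool.Agent.H40.WM.QVC

/-!
# QSwap: the exchange of two configurations on a component of their union

Write `W = P.1 ∪ P.2`, `C = cmp W e`.  The new pair has the same union `W`, hence the same `C`, hence `swp e (swp e P) = P`.
VC of the new configurations: `VC_glue` with `cmp_not_tch`.  Cardinalities: `|P.1 \ C| + |P.1 ∩ C| = |P.1|` etc.; both unions are disjoint.
`swp_mem`: if `e ∈ W` then `e ∈ C`, so `e ∈ new.1` iff `e ∈ P.2`; if `e ∉ W` both sides are false.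
`swp_sub`: if `C` does not meet `T` then the new second configuration is in `D \ T` when `P.1 ⊆ D`, `P.2 ⊆ D \ T`.
-/

set_option autoImplicit false

namespace Pool.Agent.H40.WM

open Pool.Agent.H40.SQ

noncomputable section

private theorem swp_fst (e : Edge) (P : Finset Edge × Finset Edge) :
    (swp e P).1 = (P.1 \ cmp (P.1 ∪ P.2) e) ∪ (P.2 ∩ cmp (P.1 ∪ P.2) e) := rfl

private theorem swp_snd (e : Edge) (P : Finset Edge × Finset Edge) :
    (swp e P).2 = (P.2 \ cmp (P.1 ∪ P.2) e) ∪ (P.1 ∩ cmp (P.1 ∪ P.2) e) := rfl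

theorem swp_union (e : Edge) (P : Finset Edge × Finset Edge) : (swp e P).1 ∪ (swp e P).2 = P.1 ∪ P.2 := by
  rw [swp_fst, swp_snd]
  generalize cmp (P.1 ∪ P.2) e = C
  ext x
  simp only [Finset.mem_union, Finset.mem_sdiff, Finset.mem_inter]
  tauto

theorem swp_swp (e : Edge) (P : Finset Edge × Finset Edge) : swp e (swp e P) = P := by
  have h := swp_union e P
  refine Prod.ext ?_ ?_
  · rw [swp_fst, h, swp_fst, swp_snd]
    generalize cmp (P.1 ∪ P.2) e = C
    ext x
    simp only [Finset.mem_union, Finset.mem_sdiff, Finset.mem_inter]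
    tauto
  · rw [swp_snd, h, swp_fst, swp_snd]
    generalize cmp (P.1 ∪ P.2) e = C
    ext x
    simp only [Finset.mem_union, Finset.mem_sdiff, Finset.mem_inter]
    tauto

theorem swp_VC (e : Edge) {P : Finset Edge × Finset Edge} (h1 : VC P.1) (h2 : VC P.2) :
    VC (swp e P).1 ∧ VC (swp e P).2 := by
  have h : ∀ a ∈ P.1 ∪ P.2, a ∈ cmp (P.1 ∪ P.2) e → ∀ b ∈ P.1 ∪ P.2, b ∉ cmp (P.1 ∪ P.2) e →
      ¬ Tch a b := fun a _ ha b hb hb' => cmp_not_tch ha hb hb'
  constructor
  · rw [swp_fst]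
    exact VC_glue h1 h2 h
  · rw [swp_snd]
    refine VC_glue h2 h1 ?_
    rw [Finset.union_comm P.2 P.1]
    exact h

theorem swp_card (e : Edge) (P : Finset Edge × Finset Edge) :
    (swp e P).1.card + (swp e P).2.card = P.1.card + P.2.card := by
  rw [swp_fst, swp_snd]
  generalize cmp (P.1 ∪ P.2) e = C
  rw [Finset.card_union_of_disjoint, Finset.card_union_of_disjoint]
  · have h1 := Finset.card_sdiff_add_card_inter P.1 C
    have h2 := Finset.card_sdiff_add_card_inter P.2 C
    omega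
  · rw [Finset.disjoint_left]
    intro x hx hx'
    exact (Finset.mem_sdiff.1 hx).2 (Finset.mem_inter.1 hx').2
  · rw [Finset.disjoint_left]
    intro x hx hx'
    exact (Finset.mem_sdiff.1 hx).2 (Finset.mem_inter.1 hx').2

theorem swp_mem (e : Edge) (P : Finset Edge × Finset Edge) : (e ∈ (swp e P).1 ↔ e ∈ P.2) ∧ (e ∈ (swp e P).2 ↔ e ∈ P.1) := by
  rw [swp_fst, swp_snd]
  have h : e ∈ P.1 ∪ P.2 → e ∈ cmp (P.1 ∪ P.2) e := mem_cmp_self
  rw [Finset.mem_union] at h
  simp only [Finset.mem_union, Finset.mem_sdiff, Finset.mem_inter]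
  tauto

theorem swp_sub (e : Edge) {D T : Finset Edge} {P : Finset Edge × Finset Edge} (h1 : P.1 ⊆ D) (h2 : P.2 ⊆ D \ T)
    (h : Disjoint (cmp (P.1 ∪ P.2) e) T) : (swp e P).1 ⊆ D ∧ (swp e P).2 ⊆ D \ T := by
  rw [Finset.disjoint_left] at h
  constructor
  · intro x hx
    rw [swp_fst, Finset.mem_union, Finset.mem_sdiff, Finset.mem_inter] at hx
    rcases hx with hx | hx
    · exact h1 hx.1
    · exact (Finset.mem_sdiff.1 (h2 hx.1)).1
  · intro x hx
    rw [swp_snd, Finset.mem_union, Finset.mem_sdiff, Finset.mem_inter] at hx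
    rcases hx with hx | hx
    · exact h2 hx.1
    · exact Finset.mem_sdiff.2 ⟨h1 hx.1, h hx.2⟩

end

end Pool.Agent.H40.WM
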