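import Mathlib
import Pool.Agent.H40.WM.QCmp
import Pool.Agent.H40.WM.QVC
import Pool.Agent.H40.WM.QBas
import Pool.Agent.H40.SQ.LSum

/-!
# QTail: the component of `e` in the union of two independent configurations rarely reaches far

Proof.  Group the pairs `P` by `C = cmp (P.1 ∪ P.2) e` (a connected set containing `e` -- `C` meets `T` so it is nonempty, so `e ∈ C`; `C ⊆ D ∪ D'`)
and by `K = P.1 ∩ C`, `K' = P.2 ∩ C`; `K ∪ K' = C`, so `|K| + |K'| ≥ |C|` and `q^(|K|+|K'|) ≤ q^|C|`.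
For fixed `(C,K,K')` the map `P ↦ (P.1 \ C, P.2 \ C)` is injective into `VCs D ×ˢ VCs D'` (`VC_diff` with `cmp_not_tch`), and
`q^(|P.1|+|P.2|) = q^(|K|+|K'|) q^(|P.1 \ C| + |P.2 \ C|)`.  Hence the part of the sum with given `(C,K,K')` is at most
`q^|C| ZV D ZV D'`.  For a given `C` the number of the pairs `(K,K')` of subsets of `C` with `K ∪ K' = C` is at most `3^|C|`
(`K' = (C \ K) ∪ S` with `S ⊆ K`: `∑_K 2^|K| = 3^|C|`; simplest: the pairs (K,K') inject into functions `C → Fin 3`; `4^|C|` would not do, 3 is needed;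
alternatively prove `card ≤ 3^|C|` by induction on `C`).
Hence the sum is `≤ ∑_C 3^|C| q^|C| ZV ZV' ≤ (18 * 3q)^d ZV ZV'` by `animal_tail` with `x = 3q`, `EE = D ∪ D'`,
`Q` = the connected `C ⊆ D ∪ D'` with `e ∈ C` and `C ∩ T` nonempty.
-/

set_option autoImplicit false

namespace Pool.Agent.H40.WM

open Pool.Agent.H40.SQ

noncomputable section

private def qtPr (C : Finset Edge) : Finset (Finset Edge × Finset Edge) :=
  (C.powerset ×ˢ C.powerset).filter (fun P => P.1 ∪ P.2 = C)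

private theorem qtPr_card (C : Finset Edge) : (qtPr C).card ≤ 3 ^ C.card := by
  classical
  have h1 : (C.powerset.sigma (fun K => K.powerset)).card = 3 ^ C.card := by
    rw [Finset.card_sigma]
    simp only [Finset.card_powerset]
    have h2 := Finset.sum_pow_mul_eq_add_pow (2 : ℕ) 1 C
    simp only [one_pow, mul_one] at h2
    exact h2
  rw [← h1]
  refine Finset.card_le_card_of_injOn (fun P => (⟨P.1, P.1 ∩ P.2⟩ : Σ _ : Finset Edge, Finset Edge))
    ?_ ?_
  · intro P hP
    have hP' := Finset.mem_coe.1 hP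
    rw [qtPr, Finset.mem_filter, Finset.mem_product, Finset.mem_powerset,
      Finset.mem_powerset] at hP'
    rw [Finset.mem_coe, Finset.mem_sigma, Finset.mem_powerset, Finset.mem_powerset]
    exact ⟨hP'.1.1, Finset.inter_subset_left⟩
  · intro P hP P' hP' h
    have hP1 := Finset.mem_coe.1 hP
    have hP1' := Finset.mem_coe.1 hP'
    rw [qtPr, Finset.mem_filter] at hP1 hP1'
    obtain ⟨K, L⟩ := P
    obtain ⟨K', L'⟩ := P'
    have hK : K = K' := congrArg Sigma.fst h
    subst hK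
    have hL : K ∩ L = K ∩ L' := eq_of_heq (Sigma.mk.inj h).2
    have hU : K ∪ L = K ∪ L' := hP1.2.trans hP1'.2.symm
    have : L = L' := by
      ext a
      have h3 := Finset.ext_iff.1 hL a
      have h4 := Finset.ext_iff.1 hU a
      rw [Finset.mem_inter, Finset.mem_inter] at h3
      rw [Finset.mem_union, Finset.mem_union] at h4
      by_cases ha : a ∈ K
      · constructor
        · intro h5
          exact (h3.1 ⟨ha, h5⟩).2
        · intro h5
          exact (h3.2 ⟨ha, h5⟩).2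
      · constructor
        · intro h5
          exact (h4.1 (Or.inr h5)).resolve_left ha
        · intro h5
          exact (h4.2 (Or.inr h5)).resolve_left ha
    rw [this]

theorem pair_tail (q : ℝ) (hq0 : 0 < q) (hq1 : 54 * q ≤ 1) (D D' T : Finset Edge) (e : Edge) (d : ℕ)
    (hd : ∀ C : Finset Edge, Conn C → e ∈ C → (C ∩ T).Nonempty → d ≤ C.card) :
    ∑ P ∈ (VCs D ×ˢ VCs D').filter (fun P => (cmp (P.1 ∪ P.2) e ∩ T).Nonempty), q ^ (P.1.card + P.2.card) ≤
      (54 * q) ^ d * (ZV q D * ZV q D') := by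
  classical
  obtain ⟨S, hS⟩ : ∃ S, S = (VCs D ×ˢ VCs D').filter
      (fun P => (cmp (P.1 ∪ P.2) e ∩ T).Nonempty) := ⟨_, rfl⟩
  obtain ⟨Q, hQ⟩ : ∃ Q, Q = S.image (fun P => cmp (P.1 ∪ P.2) e) := ⟨_, rfl⟩
  have hq1' : q ≤ 1 := by linarith
  have hZ := ZV_pos q hq0.le D
  have hZ' := ZV_pos q hq0.le D'
  have hmS : ∀ P ∈ S, ((P.1 ⊆ D ∧ VC P.1) ∧ (P.2 ⊆ D' ∧ VC P.2)) ∧
      (cmp (P.1 ∪ P.2) e ∩ T).Nonempty := by
    intro P hP
    rw [hS, Finset.mem_filter, Finset.mem_product, mem_VCs, mem_VCs] at hP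
    exact hP
  have hmQ : ∀ C ∈ Q, C ⊆ D ∪ D' ∧ e ∈ C ∧ Conn C ∧ (C ∩ T).Nonempty := by
    intro C hC
    rw [hQ, Finset.mem_image] at hC
    obtain ⟨P, hP, rfl⟩ := hC
    have h1 := hmS P hP
    refine ⟨(cmp_subset _ _).trans (Finset.union_subset_union h1.1.1.1 h1.1.2.1), ?_,
      cmp_conn _ _, h1.2⟩
    apply mem_cmp_self
    by_contra h2
    have h3 := h1.2
    rw [cmp_empty h2, Finset.empty_inter] at h3
    exact Finset.not_nonempty_empty h3
  rw [← hS]
  -- fibres
  have hfib : ∑ P ∈ S, q ^ (P.1.card + P.2.card) =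
      ∑ C ∈ Q, ∑ P ∈ S.filter (fun P => cmp (P.1 ∪ P.2) e = C), q ^ (P.1.card + P.2.card) := by
    rw [Finset.sum_fiberwise_of_maps_to]
    intro P hP
    rw [hQ]
    exact Finset.mem_image_of_mem _ hP
  rw [hfib]
  have hone : ∀ C ∈ Q, ∑ P ∈ S.filter (fun P => cmp (P.1 ∪ P.2) e = C),
      q ^ (P.1.card + P.2.card) ≤ (3 * q) ^ C.card * (ZV q D * ZV q D') := by
    intro C hC
    obtain ⟨ψ, hψ⟩ : ∃ ψ : Finset Edge × Finset Edge →
        (Finset Edge × Finset Edge) × (Finset Edge × Finset Edge),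
        ψ = fun P => ((P.1 ∩ C, P.2 ∩ C), (P.1 \ C, P.2 \ C)) := ⟨_, rfl⟩
    obtain ⟨G, hG⟩ : ∃ G : (Finset Edge × Finset Edge) × (Finset Edge × Finset Edge) → ℝ,
        G = fun x => q ^ C.card * (q ^ x.2.1.card * q ^ x.2.2.card) := ⟨_, rfl⟩
    have hG0 : ∀ x, 0 ≤ G x := by
      intro x
      rw [hG]
      positivity
    have hinj : Set.InjOn ψ (S.filter (fun P => cmp (P.1 ∪ P.2) e = C) : Finset _) := by
      intro P _ P' _ h
      rw [hψ] at h
      simp only [Prod.mk.injEq] at h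
      obtain ⟨⟨h1, h2⟩, h3, h4⟩ := h
      have e1 : P.1 = P'.1 := by
        rw [← Finset.sdiff_union_inter P.1 C, ← Finset.sdiff_union_inter P'.1 C, h1, h3]
      have e2 : P.2 = P'.2 := by
        rw [← Finset.sdiff_union_inter P.2 C, ← Finset.sdiff_union_inter P'.2 C, h2, h4]
      exact Prod.ext e1 e2
    have hmap : (S.filter (fun P => cmp (P.1 ∪ P.2) e = C)).image ψ ⊆
        qtPr C ×ˢ (VCs D ×ˢ VCs D') := by
      intro x hx
      rw [Finset.mem_image] at hx
      obtain ⟨P, hP, rfl⟩ := hx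
      rw [Finset.mem_filter] at hP
      obtain ⟨hPS, hPC⟩ := hP
      obtain ⟨⟨⟨h1, h2⟩, h3, h4⟩, -⟩ := hmS P hPS
      have hCs : C ⊆ P.1 ∪ P.2 := by
        rw [← hPC]
        exact cmp_subset _ _
      have hsep : ∀ a ∈ P.1 ∪ P.2, a ∈ C → ∀ b ∈ P.1 ∪ P.2, b ∉ C → ¬ Tch a b := by
        intro a _ haC b hb hbC
        rw [← hPC] at haC hbC
        exact cmp_not_tch haC hb hbC
      rw [hψ]
      simp only [Finset.mem_product, qtPr, Finset.mem_filter, Finset.mem_powerset, mem_VCs]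
      refine ⟨⟨⟨Finset.inter_subset_right, Finset.inter_subset_right⟩, ?_⟩,
        ⟨Finset.sdiff_subset.trans h1, VC_diff h2 ?_⟩,
        Finset.sdiff_subset.trans h3, VC_diff h4 ?_⟩
      · rw [← Finset.union_inter_distrib_right]
        exact Finset.inter_eq_right.2 hCs
      · intro a ha haC b hb hbC
        exact hsep a (Finset.mem_union_left _ ha) haC b (Finset.mem_union_left _ hb) hbC
      · intro a ha haC b hb hbC
        exact hsep a (Finset.mem_union_right _ ha) haC b (Finset.mem_union_right _ hb) hbC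
    have hterm : ∀ P ∈ S.filter (fun P => cmp (P.1 ∪ P.2) e = C),
        q ^ (P.1.card + P.2.card) ≤ G (ψ P) := by
      intro P hP
      have hx : (ψ P).1 ∈ qtPr C := by
        have := hmap (Finset.mem_image_of_mem ψ hP)
        rw [Finset.mem_product] at this
        exact this.1
      rw [hψ, qtPr, Finset.mem_filter] at hx
      have hx2 : P.1 ∩ C ∪ P.2 ∩ C = C := hx.2
      rw [hG, hψ]
      change q ^ (P.1.card + P.2.card) ≤ q ^ C.card * (q ^ (P.1 \ C).card * q ^ (P.2 \ C).card)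
      have c1 := Finset.card_sdiff_add_card_inter P.1 C
      have c2 := Finset.card_sdiff_add_card_inter P.2 C
      have c3 : C.card ≤ (P.1 ∩ C).card + (P.2 ∩ C).card := by
        have := Finset.card_union_le (P.1 ∩ C) (P.2 ∩ C)
        rw [hx2] at this
        exact this
      rw [← pow_add, ← pow_add]
      exact pow_le_pow_of_le_one hq0.le hq1' (by omega)
    calc ∑ P ∈ S.filter (fun P => cmp (P.1 ∪ P.2) e = C), q ^ (P.1.card + P.2.card)
        ≤ ∑ P ∈ S.filter (fun P => cmp (P.1 ∪ P.2) e = C), G (ψ P) := Finset.sum_le_sum hterm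
      _ = ∑ x ∈ (S.filter (fun P => cmp (P.1 ∪ P.2) e = C)).image ψ, G x :=
          (Finset.sum_image hinj).symm
      _ ≤ ∑ x ∈ qtPr C ×ˢ (VCs D ×ˢ VCs D'), G x :=
          Finset.sum_le_sum_of_subset_of_nonneg hmap fun x _ _ => hG0 x
      _ = (qtPr C).card * (q ^ C.card * (ZV q D * ZV q D')) := by
          rw [Finset.sum_product, hG]
          simp only
          rw [Finset.sum_const, nsmul_eq_mul, ← Finset.mul_sum]
          congr 2
          rw [Finset.sum_product, ZV, ZV, Finset.sum_mul_sum]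
      _ ≤ (3 : ℝ) ^ C.card * (q ^ C.card * (ZV q D * ZV q D')) := by
          refine mul_le_mul_of_nonneg_right ?_ (by positivity)
          exact_mod_cast qtPr_card C
      _ = (3 * q) ^ C.card * (ZV q D * ZV q D') := by
          rw [mul_pow]
          ring
  refine (Finset.sum_le_sum hone).trans ?_
  rw [← Finset.sum_mul]
  refine mul_le_mul_of_nonneg_right ?_ (by positivity)
  have := animal_tail (D ∪ D') e Q (fun C hC => ⟨(hmQ C hC).1, (hmQ C hC).2.1, (hmQ C hC).2.2.1⟩)
    (3 * q) (by positivity) (by linarith) d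
    (fun C hC => hd C (hmQ C hC).2.2.1 (hmQ C hC).2.1 (hmQ C hC).2.2.2)
  refine this.trans (le_of_eq ?_)
  congr 1
  ring

end

end Pool.Agent.H40.WM
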