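import Mathlib
import Pool.Agent.H40.WM.QSwap
import Pool.Agent.H40.WM.QTail
import Pool.Agent.H40.WM.QBas

/-!
# QInf: influence of a change of the domain

`pe q D e - pe q D' e = (∑_{P ∈ VCs D ×ˢ VCs D'} q^(|P.1|+|P.2|) (1[e ∈ P.1] - 1[e ∈ P.2])) / (ZV D ZV D')`.
With `T = D \ D'` (so `D' = D \ T`) split the pairs by whether `C = cmp (P.1 ∪ P.2) e` meets `T`.  On the pairs with `C ∩ T = ∅` the map `swp e`
is an involution (`swp_union`: the union, hence `C`, is unchanged; `swp_sub`, `swp_VC`, `swp_swp`, `swp_card`) which exchanges the two indicators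
(`swp_mem`), so their contribution is its own negative: `0`.  The other pairs contribute at most `(54q)^d` in absolute value (`pair_tail`; the
difference of indicators is in `[-1,1]`).
`pe_le`: `D' = ∅`, `d = 1` (a set containing `e` has at least one element), `pe q ∅ e = 0` since `VCs ∅ = {∅}`.
-/

set_option autoImplicit false

namespace Pool.Agent.H40.WM

open Pool.Agent.H40.SQ

noncomputable section

theorem pe_nonneg (q : ℝ) (hq0 : 0 < q) (D : Finset Edge) (e : Edge) : 0 ≤ pe q D e := by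
  unfold pe
  exact div_nonneg (Finset.sum_nonneg fun g _ => pow_nonneg hq0.le _) (ZV_pos q hq0.le D).le

open Classical in
/-- The sum over pairs of configurations. -/
theorem qinf_cross (q : ℝ) (D D' : Finset Edge) (e : Edge) :
    (∑ g ∈ (VCs D).filter (fun g => e ∈ g), q ^ g.card) * ZV q D' -
      ZV q D * (∑ g ∈ (VCs D').filter (fun g => e ∈ g), q ^ g.card) =
    ∑ P ∈ VCs D ×ˢ VCs D', q ^ (P.1.card + P.2.card) *
      ((if e ∈ P.1 then (1 : ℝ) else 0) - (if e ∈ P.2 then (1 : ℝ) else 0)) := by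
  unfold ZV
  rw [Finset.sum_filter, Finset.sum_filter, Finset.sum_mul_sum, Finset.sum_mul_sum,
    Finset.sum_product, ← Finset.sum_sub_distrib]
  refine Finset.sum_congr rfl fun g _ => ?_
  rw [← Finset.sum_sub_distrib]
  refine Finset.sum_congr rfl fun g' _ => ?_
  rw [pow_add]
  split_ifs <;> ring

open Classical in
/-- The pairs whose component does not meet the difference contribute nothing. -/
theorem qinf_zero (q : ℝ) {D D' : Finset Edge} (hD : D' ⊆ D) (e : Edge) :
    ∑ P ∈ (VCs D ×ˢ VCs D').filter (fun P => ¬ (cmp (P.1 ∪ P.2) e ∩ (D \ D')).Nonempty),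
      q ^ (P.1.card + P.2.card) *
        ((if e ∈ P.1 then (1 : ℝ) else 0) - (if e ∈ P.2 then (1 : ℝ) else 0)) = 0 := by
  have hanti : ∀ P : Finset Edge × Finset Edge, q ^ (P.1.card + P.2.card) *
        ((if e ∈ P.1 then (1 : ℝ) else 0) - (if e ∈ P.2 then (1 : ℝ) else 0)) +
      q ^ ((swp e P).1.card + (swp e P).2.card) *
        ((if e ∈ (swp e P).1 then (1 : ℝ) else 0) -
          (if e ∈ (swp e P).2 then (1 : ℝ) else 0)) = 0 := by
    intro P
    have h := swp_mem e P
    rw [swp_card]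
    by_cases h1 : e ∈ P.1 <;> by_cases h2 : e ∈ P.2 <;> simp [h.1, h.2, h1, h2]
  refine Finset.sum_involution (fun P _ => swp e P) ?_ ?_ ?_ ?_
  · intro P _
    exact hanti P
  · intro P _ hne heq
    apply hne
    have h := hanti P
    rw [heq] at h
    linarith
  · intro P hP
    rw [Finset.mem_filter, Finset.mem_product, mem_VCs, mem_VCs] at hP ⊢
    obtain ⟨⟨⟨h1, v1⟩, ⟨h2, v2⟩⟩, h3⟩ := hP
    have h4 : Disjoint (cmp (P.1 ∪ P.2) e) (D \ D') := by
      rw [Finset.disjoint_iff_inter_eq_empty]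
      exact Finset.not_nonempty_iff_eq_empty.1 h3
    have h5 : D \ (D \ D') = D' := by
      rw [Finset.sdiff_sdiff_eq_self hD]
    have h6 := swp_sub e (D := D) (T := D \ D') (P := P) h1 (by rw [h5]; exact h2) h4
    rw [h5] at h6
    have h7 := swp_VC e v1 v2
    refine ⟨⟨⟨h6.1, h7.1⟩, ⟨h6.2, h7.2⟩⟩, ?_⟩
    rw [swp_union]
    exact h3
  · intro P _
    exact swp_swp e P

theorem pe_diff (q : ℝ) (hq0 : 0 < q) (hq1 : 54 * q ≤ 1) {D D' : Finset Edge} (hD : D' ⊆ D) (e : Edge) (d : ℕ)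
    (hd : ∀ C : Finset Edge, Conn C → e ∈ C → (C ∩ (D \ D')).Nonempty → d ≤ C.card) :
    |pe q D e - pe q D' e| ≤ (54 * q) ^ d := by
  classical
  have hZ := ZV_pos q hq0.le D
  have hZ' := ZV_pos q hq0.le D'
  have hcr := qinf_cross q D D' e
  have hz := qinf_zero q hD e
  have ht := pair_tail q hq0 hq1 D D' (D \ D') e d hd
  have h1 : pe q D e - pe q D' e =
      ((∑ g ∈ (VCs D).filter (fun g => e ∈ g), q ^ g.card) * ZV q D' -
      ZV q D * (∑ g ∈ (VCs D').filter (fun g => e ∈ g), q ^ g.card)) / (ZV q D * ZV q D') := by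
    unfold pe
    rw [div_sub_div _ _ hZ.ne' hZ'.ne']
  rw [h1, hcr, abs_div, abs_of_pos (mul_pos hZ hZ'), div_le_iff₀ (mul_pos hZ hZ')]
  refine le_trans ?_ ht
  rw [← Finset.sum_filter_add_sum_filter_not (VCs D ×ˢ VCs D')
    (fun P => (cmp (P.1 ∪ P.2) e ∩ (D \ D')).Nonempty), hz, add_zero]
  refine (Finset.abs_sum_le_sum_abs _ _).trans (Finset.sum_le_sum fun P _ => ?_)
  rw [abs_mul, abs_of_nonneg (pow_nonneg hq0.le _)]
  have h2 : |(if e ∈ P.1 then (1 : ℝ) else 0) - (if e ∈ P.2 then (1 : ℝ) else 0)| ≤ 1 := by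
    split_ifs <;> norm_num
  calc q ^ (P.1.card + P.2.card) * |(if e ∈ P.1 then (1 : ℝ) else 0) -
        (if e ∈ P.2 then (1 : ℝ) else 0)| ≤ q ^ (P.1.card + P.2.card) * 1 :=
        mul_le_mul_of_nonneg_left h2 (pow_nonneg hq0.le _)
    _ = q ^ (P.1.card + P.2.card) := mul_one _

theorem pe_le (q : ℝ) (hq0 : 0 < q) (hq1 : 54 * q ≤ 1) (D : Finset Edge) (e : Edge) : pe q D e ≤ 54 * q := by
  have h := pe_diff q hq0 hq1 (Finset.empty_subset D) e 1 (fun C _ he _ =>
    Finset.card_pos.2 ⟨e, he⟩)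
  have h0 : pe q ∅ e = 0 := by
    unfold pe
    have h1 : (VCs ∅).filter (fun g => e ∈ g) = ∅ := by
      rw [Finset.filter_eq_empty_iff]
      intro g hg he
      have h2 := (mem_VCs.1 hg).1 he
      exact Finset.notMem_empty e h2
    rw [h1, Finset.sum_empty, zero_div]
  rw [h0, sub_zero, pow_one, abs_of_nonneg (pe_nonneg q hq0 D e)] at h
  exact h

end

end Pool.Agent.H40.WM
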