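import Mathlib
import Pool.Agent.H40.WM.QInf

/-!
# QRem: removing one edge from the domain

`VCs D` = the configurations containing `e` and those of `VCs (D.erase e)`; so `ZV (D.erase e) = ZV D - ∑_{e ∈ g} q^|g| = ZV D (1 - pe)`.
If `e ∉ D` then `pe q D e = 0` and `D.erase e = D`.  `ZV_erase_half`: `pe ≤ 54 q ≤ 1/2`.
`ZV_sdiff_le`: remove the edges of `S` one after another: `ZV D ≤ 2^|S ∩ D| ZV (D \ S)`, `≤ 2^|S| ZV (D \ S)`.
-/

set_option autoImplicit false

namespace Pool.Agent.H40.WM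

open Pool.Agent.H40.SQ

noncomputable section

private theorem pe_le_half (q : ℝ) (hq0 : 0 < q) (hq1 : 108 * q ≤ 1) (D : Finset Edge) (e : Edge) :
    pe q D e ≤ 54 * q ∧ 54 * q ≤ 1 / 2 :=
  ⟨pe_le q hq0 (by linarith) D e, by linarith⟩

private theorem neg_log_le (p : ℝ) (h0 : 0 ≤ p) (h1 : p ≤ 1 / 2) : -Real.log (1 - p) ≤ 2 * p := by
  have h2 : 0 < 1 - p := by linarith
  have h3 := Real.one_sub_inv_le_log_of_pos h2
  have h4 : (1 - p)⁻¹ ≤ 1 + 2 * p := by
    rw [inv_le_iff_one_le_mul₀ h2]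
    nlinarith
  linarith

theorem ZV_erase (q : ℝ) (hq0 : 0 < q) (D : Finset Edge) (e : Edge) :
    ZV q (D.erase e) = ZV q D * (1 - pe q D e) := by
  classical
  have hpos := ZV_pos q hq0.le D
  have h1 : VCs (D.erase e) = (VCs D).filter (fun g => ¬ e ∈ g) := by
    ext g
    rw [Finset.mem_filter, mem_VCs, mem_VCs, Finset.subset_erase]
    tauto
  have h2 : ZV q D = (∑ g ∈ (VCs D).filter (fun g => e ∈ g), q ^ g.card) +
      ∑ g ∈ (VCs D).filter (fun g => ¬ e ∈ g), q ^ g.card := by
    unfold ZV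
    exact (Finset.sum_filter_add_sum_filter_not _ _ _).symm
  have h3 : ZV q (D.erase e) = ∑ g ∈ (VCs D).filter (fun g => ¬ e ∈ g), q ^ g.card := by
    unfold ZV
    rw [h1]
  rw [mul_sub, mul_one, pe, mul_div_cancel₀ _ hpos.ne', h3]
  linarith

theorem log_erase (q : ℝ) (hq0 : 0 < q) (hq1 : 108 * q ≤ 1) (D : Finset Edge) (e : Edge) :
    Real.log (ZV q D) - Real.log (ZV q (D.erase e)) = - Real.log (1 - pe q D e) := by
  have hpos := ZV_pos q hq0.le D
  have h1 := pe_le_half q hq0 hq1 D e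
  have h2 : (1 - pe q D e) ≠ 0 := by
    have : 0 < 1 - pe q D e := by linarith
    exact this.ne'
  rw [ZV_erase q hq0, Real.log_mul hpos.ne' h2]
  ring

theorem ZV_sdiff_le (q : ℝ) (hq0 : 0 < q) (hq1 : 108 * q ≤ 1) (D S : Finset Edge) :
    ZV q D ≤ 2 ^ S.card * ZV q (D \ S) := by
  classical
  induction S using Finset.induction_on with
  | empty => simp
  | insert e S he ih =>
    have h1 : D \ insert e S = (D \ S).erase e := by
      ext x
      simp only [Finset.mem_sdiff, Finset.mem_insert, Finset.mem_erase]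
      tauto
    have h2 := pe_le_half q hq0 hq1 (D \ S) e
    have h3 := ZV_pos q hq0.le (D \ S)
    rw [h1, ZV_erase q hq0, Finset.card_insert_of_notMem he, pow_succ]
    have h4 : ZV q (D \ S) * (1 / 2) ≤ ZV q (D \ S) * (1 - pe q (D \ S) e) :=
      mul_le_mul_of_nonneg_left (by linarith) h3.le
    have h5 : (0 : ℝ) < 2 ^ S.card := by positivity
    nlinarith [mul_le_mul_of_nonneg_left h4 h5.le]

/-- The cost of removing `S` is at most `108 q |S|`. -/
theorem log_sdiff_le (q : ℝ) (hq0 : 0 < q) (hq1 : 108 * q ≤ 1) (D S : Finset Edge) :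
    Real.log (ZV q D) - Real.log (ZV q (D \ S)) ≤ 108 * q * S.card := by
  classical
  induction S using Finset.induction_on with
  | empty => simp
  | insert e S he ih =>
    have h1 : D \ insert e S = (D \ S).erase e := by
      ext x
      simp only [Finset.mem_sdiff, Finset.mem_insert, Finset.mem_erase]
      tauto
    have h2 := pe_le_half q hq0 hq1 (D \ S) e
    have h3 := log_erase q hq0 hq1 (D \ S) e
    have h4 := neg_log_le (pe q (D \ S) e) (pe_nonneg q hq0 _ _) (h2.1.trans h2.2)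
    rw [h1, Finset.card_insert_of_notMem he]
    push_cast
    linarith

end

end Pool.Agent.H40.WM
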