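import Mathlib
import Pool.Agent.H40.WM.QRem

/-!
# QLem: the four point function decays

Induction on `B` (`Finset.induction_on`), or telescoping over a list of the elements of `B`.  With `f X = log ZV (D \ X) - log ZV ((D \ A) \ X)` the
left side is `|f ∅ - f B|`.  Adding one edge `e ∉ X`, `e ∈ B`:
`f X - f (insert e X) = [log ZV (D \ X) - log ZV ((D \ X).erase e)] - [log ZV (D \ A \ X) - log ZV ((D \ A \ X).erase e)]
 = - log (1 - p) + log (1 - p')`, `p = pe (D \ X) e`, `p' = pe (D \ A \ X) e` (`log_erase`).  If `e ∉ D` both are `0`.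
Otherwise `0 ≤ p, p' ≤ 54 q ≤ 1/2` gives `|log (1-p) - log (1-p')| ≤ 2 |p - p'|` (mean value / concavity: for `x,y ∈ [0,1/2]`,
`log((1-x)/(1-y)) ≤ (1-x)/(1-y) - 1 = (y-x)/(1-y) ≤ 2|y-x|`), and `|p - p'| ≤ (54q)^(max 1 (δ e))` by `pe_diff` with
`D \ A \ X ⊆ D \ X`, whose difference is contained in `A`.
-/

set_option autoImplicit false

namespace Pool.Agent.H40.WM

open Pool.Agent.H40.SQ

noncomputable section

private theorem log_diff {p p' : ℝ} (h1 : p ≤ 1 / 2) (h1' : p' ≤ 1 / 2) :
    |Real.log (1 - p) - Real.log (1 - p')| ≤ 2 * |p - p'| := by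
  have key : ∀ x y : ℝ, x ≤ 1 / 2 → y ≤ 1 / 2 →
      Real.log (1 - x) - Real.log (1 - y) ≤ 2 * |x - y| := by
    intro x y hx hy
    have h2 : 0 < 1 - x := by linarith
    have h3 : 0 < 1 - y := by linarith
    have h4 := Real.log_le_sub_one_of_pos (div_pos h2 h3)
    rw [Real.log_div h2.ne' h3.ne'] at h4
    have h5 : (1 - x) / (1 - y) - 1 ≤ 2 * |x - y| := by
      rw [sub_le_iff_le_add, div_le_iff₀ h3]
      have h6 := neg_abs_le (x - y)
      have h7 := abs_nonneg (x - y)
      nlinarith
    linarith
  rw [abs_le]
  constructor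
  · have := key p' p h1' h1
    rw [abs_sub_comm] at this
    linarith
  · exact key p p' h1 h1'

theorem four_point (q : ℝ) (hq0 : 0 < q) (hq1 : 108 * q ≤ 1) (D A B : Finset Edge) (δ : Edge → ℕ)
    (hδ : ∀ e ∈ B, ∀ C : Finset Edge, Conn C → e ∈ C → (C ∩ A).Nonempty → δ e ≤ C.card) :
    |Real.log (ZV q D) - Real.log (ZV q (D \ A)) - Real.log (ZV q (D \ B)) + Real.log (ZV q (D \ (A ∪ B)))| ≤
      ∑ e ∈ B ∩ D, 2 * (54 * q) ^ (max 1 (δ e)) := by
  classical
  have key : ∀ X : Finset Edge, X ⊆ B →
      |(Real.log (ZV q D) - Real.log (ZV q (D \ A))) -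
        (Real.log (ZV q (D \ X)) - Real.log (ZV q (D \ (A ∪ X))))| ≤
      ∑ e ∈ X ∩ D, 2 * (54 * q) ^ (max 1 (δ e)) := by
    intro X
    induction X using Finset.induction_on with
    | empty =>
      intro _
      simp
    | insert e X he ih =>
      intro hX
      have hXB : X ⊆ B := fun x hx => hX (Finset.mem_insert_of_mem hx)
      have heB : e ∈ B := hX (Finset.mem_insert_self _ _)
      have h0 := ih hXB
      have h1 : D \ insert e X = (D \ X).erase e := by
        ext x
        simp only [Finset.mem_sdiff, Finset.mem_insert, Finset.mem_erase]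
        tauto
      have h2 : D \ (A ∪ insert e X) = (D \ (A ∪ X)).erase e := by
        ext x
        simp only [Finset.mem_sdiff, Finset.mem_insert, Finset.mem_erase, Finset.mem_union]
        tauto
      rw [h1, h2]
      by_cases heD : e ∈ D
      · have h3 : insert e X ∩ D = insert e (X ∩ D) := by
          ext x
          simp only [Finset.mem_inter, Finset.mem_insert]
          constructor
          · rintro ⟨rfl | h, h'⟩
            · exact Or.inl rfl
            · exact Or.inr ⟨h, h'⟩
          · rintro (rfl | ⟨h, h'⟩)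
            · exact ⟨Or.inl rfl, heD⟩
            · exact ⟨Or.inr h, h'⟩
        have h4 : e ∉ X ∩ D := fun h => he (Finset.mem_inter.1 h).1
        rw [h3, Finset.sum_insert h4]
        have h5 := log_erase q hq0 hq1 (D \ X) e
        have h6 := log_erase q hq0 hq1 (D \ (A ∪ X)) e
        have h7 := pe_le q hq0 (by linarith) (D \ X) e
        have h8 := pe_le q hq0 (by linarith) (D \ (A ∪ X)) e
        have h9 := log_diff (p := pe q (D \ X) e) (p' := pe q (D \ (A ∪ X)) e)
          (by linarith) (by linarith)
        have h10 : |pe q (D \ X) e - pe q (D \ (A ∪ X)) e| ≤ (54 * q) ^ (max 1 (δ e)) := by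
          refine pe_diff q hq0 (by linarith) ?_ e _ ?_
          · intro x hx
            simp only [Finset.mem_sdiff, Finset.mem_union] at hx ⊢
            tauto
          · intro C hC heC hne
            apply max_le
            · exact Finset.card_pos.2 ⟨e, heC⟩
            · refine hδ e heB C hC heC ?_
              obtain ⟨x, hx⟩ := hne
              refine ⟨x, ?_⟩
              simp only [Finset.mem_sdiff, Finset.mem_union, Finset.mem_inter] at hx ⊢
              tauto
        have h11 : (Real.log (ZV q D) - Real.log (ZV q (D \ A))) -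
            (Real.log (ZV q ((D \ X).erase e)) - Real.log (ZV q ((D \ (A ∪ X)).erase e))) =
            ((Real.log (ZV q D) - Real.log (ZV q (D \ A))) -
            (Real.log (ZV q (D \ X)) - Real.log (ZV q (D \ (A ∪ X))))) +
            -(Real.log (1 - pe q (D \ X) e) - Real.log (1 - pe q (D \ (A ∪ X)) e)) := by
          linarith
        rw [h11]
        refine (abs_add_le _ _).trans ?_
        rw [abs_neg]
        linarith
      · have h3 : insert e X ∩ D = X ∩ D := by
          ext x
          simp only [Finset.mem_inter, Finset.mem_insert]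
          constructor
          · rintro ⟨rfl | h, h'⟩
            · exact absurd h' heD
            · exact ⟨h, h'⟩
          · rintro ⟨h, h'⟩
            exact ⟨Or.inr h, h'⟩
        rw [h3, Finset.erase_eq_of_notMem (fun h => heD (Finset.mem_sdiff.1 h).1),
          Finset.erase_eq_of_notMem (fun h => heD (Finset.mem_sdiff.1 h).1)]
        exact h0
  have h := key B (Finset.Subset.refl _)
  have e : Real.log (ZV q D) - Real.log (ZV q (D \ A)) - Real.log (ZV q (D \ B)) +
      Real.log (ZV q (D \ (A ∪ B))) = (Real.log (ZV q D) - Real.log (ZV q (D \ A))) -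
        (Real.log (ZV q (D \ B)) - Real.log (ZV q (D \ (A ∪ B)))) := by ring
  rw [e]
  exact h

end

end Pool.Agent.H40.WM
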