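import Mathlib
import Pool.Agent.H40.WM.QLem
import Pool.Agent.H40.SQ.LSpr

/-!
# QLim: comparison of two volumes, and existence of the infinite volume cost

`psiD_two`: `D ⊆ D'`, and `δ a ≤ dd a e` for all `a ∈ A` and all `e ∈ D' \ D`.  Then
`psiD D' A - psiD D A = log ZV D' - log ZV (D' \ N) - log ZV D + log ZV (D \ N)`, `N = N1 A`, is the four point function of `four_point` for the domain
`D'` with `A := D' \ D`, `B := N` (`D' \ (D' \ D) = D`, `D' \ ((D' \ D) ∪ N) = D \ N`).  For `e ∈ N` choose `a ∈ A` touching `e`: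
a connected `C ∋ e` containing some `f ∈ D' \ D` has `|C| ≥ dd e f + 1 ≥ dd a f ≥ δ a` (`conn_spread` for the two coordinates).  To sum over `a` instead
of `e`: the sum over `N` is at most the sum over `a ∈ A` and `e ∈ nb a` of the same quantity with `δ' e := ` (max over the `a ∈ A` touching `e` of `δ a`);
simplest: take `δ' e = sup over a ∈ A, Tch a e of δ a`, then each `e ∈ N` has some `a(e) ∈ A` with `δ' e = δ (a e)`, and
`∑_{e ∈ N} 2(54q)^(max 1 (δ' e)) ≤ ∑_{a ∈ A} ∑_{e ∈ nb a} 2 (54q)^(max 1 (δ a)) ≤ ∑_a 14 (54 q)^(max 1 (δ a))`, and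
`14 (54q)^(max 1 d) ≤ (1/2)^d` for `q ≤ 10^(-6)`.
`psi_tendsto`: for `M ≤ M'` apply this with `D = EM M`, `D' = EM M'`, `δ a = M - r` (natural subtraction; `A ⊆ EM r`): the difference is
`≤ |A| (1/2)^(M - r)`, so the sequence is Cauchy; `limUnder` of a convergent sequence is its limit (`Filter.Tendsto.limUnder_eq`).
`psiD_close`: take `M` large with `D ⊆ EM M` and pass to the limit in `|psiD (EM M) A - psiD D A| ≤ ∑ (1/2)^δ` (`le_of_tendsto`).
-/

set_option autoImplicit false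

namespace Pool.Agent.H40.WM

open Pool.Agent.H40.SQ

noncomputable section

private theorem sum_biUnion_le' {A : Finset Edge} (g : Edge → ℝ) (hg : ∀ e, 0 ≤ g e) :
    ∑ e ∈ A.biUnion nb, g e ≤ ∑ a ∈ A, ∑ e ∈ nb a, g e := by
  classical
  induction A using Finset.induction_on with
  | empty => simp
  | @insert a A ha ih =>
    rw [Finset.biUnion_insert, Finset.sum_insert ha]
    have h1 := Finset.sum_union_inter (s₁ := nb a) (s₂ := A.biUnion nb) (f := g)
    have h2 : 0 ≤ ∑ e ∈ nb a ∩ A.biUnion nb, g e := Finset.sum_nonneg fun e _ => hg e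
    linarith

private theorem pow_half (q : ℝ) (hq0 : 0 < q) (hq1 : q ≤ 1 / 10 ^ 6) (d : ℕ) :
    7 * (2 * (54 * q) ^ (max 1 d)) ≤ ((1 : ℝ) / 2) ^ d := by
  have h1 : 54 * q ≤ 1 / 28 := by
    norm_num at hq1 ⊢
    linarith
  rcases Nat.eq_zero_or_pos d with hd | hd
  · subst hd
    simp only [Nat.max_zero, pow_one, pow_zero]
    linarith
  · rw [max_eq_right hd]
    have h2 : (54 * q) ^ d ≤ (1 / 28 : ℝ) ^ d := pow_le_pow_left₀ (by positivity) h1 d
    have h3 : (1 / 28 : ℝ) ^ d = (1 / 14) ^ d * (1 / 2) ^ d := by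
      rw [← mul_pow]
      norm_num
    have h4 : (1 / 14 : ℝ) ^ d ≤ 1 / 14 := by
      calc (1 / 14 : ℝ) ^ d ≤ (1 / 14) ^ 1 :=
            pow_le_pow_of_le_one (by norm_num) (by norm_num) hd
        _ = 1 / 14 := pow_one _
    have h5 : (0 : ℝ) < (1 / 2) ^ d := by positivity
    have h6 := mul_le_mul_of_nonneg_right h4 h5.le
    linarith

theorem psiD_two (q : ℝ) (hq0 : 0 < q) (hq1 : q ≤ 1 / 10 ^ 6) {D D' A : Finset Edge} (hD : D ⊆ D') (δ : Edge → ℕ)
    (hδ : ∀ a ∈ A, ∀ e ∈ D' \ D, δ a ≤ dd a e) :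
    |psiD q D' A - psiD q D A| ≤ ∑ a ∈ A, ((1 : ℝ) / 2) ^ δ a := by
  classical
  have hq2 : 108 * q ≤ 1 := by
    norm_num at hq1
    linarith
  have hq3 : 54 * q ≤ 1 := by linarith
  obtain ⟨δ', hδ'⟩ : ∃ δ' : Edge → ℕ, ∀ e, δ' e = (nb e ∩ A).sup δ := ⟨_, fun _ => rfl⟩
  have h4 := four_point q hq0 hq2 D' (D' \ D) (N1 A) δ' (by
    intro e _ C hC heC hne
    obtain ⟨f, hf⟩ := hne
    rw [Finset.mem_inter] at hf
    rw [hδ' e]
    refine Finset.sup_le fun a ha => ?_
    rw [Finset.mem_inter, mem_nb] at ha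
    have h1 := hδ a ha.2 f hf.2
    have h2 := dd_triangle a e f
    have h3 := tch_dd (tch_symm ha.1)
    have h5 := conn_spread C hC (fun e => e.2.1) (fun a b h => (tch_coord h).1) heC hf.1
    have h6 := conn_spread C hC (fun e => e.2.2) (fun a b h => (tch_coord h).2) heC hf.1
    have h7 : dd e f < C.card := by
      unfold dd
      simp only [abs_lt] at h5 h6
      omega
    omega)
  have e1 : D' \ (D' \ D) = D := Finset.sdiff_sdiff_eq_self hD
  have e2 : D' \ ((D' \ D) ∪ N1 A) = D \ N1 A := by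
    ext x
    have := @hD x
    simp only [Finset.mem_union, Finset.mem_sdiff]
    tauto
  rw [e1, e2] at h4
  have h5 : psiD q D' A - psiD q D A = Real.log (ZV q D') - Real.log (ZV q D) -
      Real.log (ZV q (D' \ N1 A)) + Real.log (ZV q (D \ N1 A)) := by
    unfold psiD
    ring
  rw [h5]
  refine h4.trans ?_
  have hg : ∀ e, 0 ≤ 2 * (54 * q) ^ (max 1 (δ' e)) := fun e => by positivity
  calc ∑ e ∈ N1 A ∩ D', 2 * (54 * q) ^ (max 1 (δ' e))
      ≤ ∑ e ∈ N1 A, 2 * (54 * q) ^ (max 1 (δ' e)) :=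
        Finset.sum_le_sum_of_subset_of_nonneg Finset.inter_subset_left fun e _ _ => hg e
    _ ≤ ∑ a ∈ A, ∑ e ∈ nb a, 2 * (54 * q) ^ (max 1 (δ' e)) := sum_biUnion_le' _ hg
    _ ≤ ∑ a ∈ A, ((1 : ℝ) / 2) ^ δ a := by
        refine Finset.sum_le_sum fun a ha => ?_
        have h6 : ∀ e ∈ nb a, 2 * (54 * q) ^ (max 1 (δ' e)) ≤ 2 * (54 * q) ^ (max 1 (δ a)) := by
          intro e he
          have h7 : δ a ≤ δ' e := by
            rw [hδ' e]
            exact Finset.le_sup (f := δ) (Finset.mem_inter.2 ⟨mem_nb.2 (tch_symm (mem_nb.1 he)), ha⟩)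
          exact mul_le_mul_of_nonneg_left
            (pow_le_pow_of_le_one (by positivity) hq3 (max_le_max (le_refl _) h7)) (by norm_num)
        refine (Finset.sum_le_card_nsmul _ _ _ h6).trans ?_
        rw [nsmul_eq_mul]
        have h8 : ((nb a).card : ℝ) ≤ 7 := by exact_mod_cast card_nb_le a
        refine le_trans (mul_le_mul_of_nonneg_right h8 (by positivity)) ?_
        exact pow_half q hq0 hq1 (δ a)

private theorem EM_mono {M M' : ℕ} (h : M ≤ M') : EM M ⊆ EM M' := by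
  intro e he
  rw [mem_EM] at he ⊢
  omega

private theorem exists_EM (A : Finset Edge) : ∃ r, A ⊆ EM r := by
  refine ⟨A.sup (fun e => max e.2.1.natAbs e.2.2.natAbs), fun e he => ?_⟩
  have h : max e.2.1.natAbs e.2.2.natAbs ≤ A.sup (fun e => max e.2.1.natAbs e.2.2.natAbs) :=
    Finset.le_sup (f := fun e : Edge => max e.2.1.natAbs e.2.2.natAbs) he
  rw [mem_EM]
  generalize A.sup (fun e => max e.2.1.natAbs e.2.2.natAbs) = r at h
  omega

theorem psi_tendsto (q : ℝ) (hq0 : 0 < q) (hq1 : q ≤ 1 / 10 ^ 6) (A : Finset Edge) :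
    Filter.Tendsto (fun M : ℕ => psiD q (EM M) A) Filter.atTop (nhds (psi q A)) := by
  obtain ⟨r, hr⟩ := exists_EM A
  have h1 : ∀ M : ℕ, dist (psiD q (EM M) A) (psiD q (EM (M + 1)) A) ≤
      (A.card * 2 ^ r : ℝ) * (1 / 2) ^ M := by
    intro M
    rw [dist_comm, Real.dist_eq]
    refine (psiD_two q hq0 hq1 (EM_mono (Nat.le_succ M)) (fun _ => M - r) ?_).trans ?_
    · intro a ha e he
      have h2 := hr ha
      rw [Finset.mem_sdiff, mem_EM, mem_EM] at he
      rw [mem_EM] at h2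
      unfold dd
      omega
    · rw [Finset.sum_const, nsmul_eq_mul, mul_assoc]
      refine mul_le_mul_of_nonneg_left ?_ (by positivity)
      rcases le_or_gt r M with h | h
      · refine le_of_eq ?_
        have h3 : (1 / 2 : ℝ) ^ M = (1 / 2) ^ (M - r) * (1 / 2) ^ r := by
          rw [← pow_add, Nat.sub_add_cancel h]
        rw [h3, mul_comm, mul_assoc, ← mul_pow]
        norm_num
      · rw [Nat.sub_eq_zero_of_le h.le, pow_zero]
        have h3 : (2 : ℝ) ^ M ≤ 2 ^ r := pow_le_pow_right₀ (by norm_num) h.le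
        have h4 : (1 : ℝ) = 2 ^ M * (1 / 2) ^ M := by
          rw [← mul_pow]
          norm_num
        calc (1 : ℝ) = 2 ^ M * (1 / 2) ^ M := h4
          _ ≤ 2 ^ r * (1 / 2) ^ M := mul_le_mul_of_nonneg_right h3 (by positivity)
  have h2 := cauchySeq_of_le_geometric (1 / 2 : ℝ) (A.card * 2 ^ r : ℝ) (by norm_num) h1
  obtain ⟨x, hx⟩ := cauchySeq_tendsto_of_complete h2
  have h3 : psi q A = x := hx.limUnder_eq
  rw [h3]
  exact hx

theorem psiD_close (q : ℝ) (hq0 : 0 < q) (hq1 : q ≤ 1 / 10 ^ 6) (D A : Finset Edge) (δ : Edge → ℕ)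
    (hδ : ∀ a ∈ A, ∀ e : Edge, e ∉ D → δ a ≤ dd a e) :
    |psiD q D A - psi q A| ≤ ∑ a ∈ A, ((1 : ℝ) / 2) ^ δ a := by
  obtain ⟨r, hr⟩ := exists_EM D
  have h1 : Filter.Tendsto (fun M : ℕ => |psiD q (EM M) A - psiD q D A|) Filter.atTop
      (nhds |psi q A - psiD q D A|) := ((psi_tendsto q hq0 hq1 A).sub_const _).abs
  rw [abs_sub_comm]
  refine le_of_tendsto h1 ?_
  filter_upwards [Filter.eventually_ge_atTop r] with M hM
  refine psiD_two q hq0 hq1 (hr.trans (EM_mono hM)) δ ?_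
  intro a ha e he
  exact hδ a ha e (Finset.mem_sdiff.1 he).2

end

end Pool.Agent.H40.WM
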