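import Mathlib
import Pool.Agent.H40.WM.QLim

/-!
# QPsi: elementary properties of `psiD` and `psi`

`psiD ∅ = 0`.  Monotone: `D \ N1 B ⊆ D \ N1 A` for `A ⊆ B`, `ZV_mono`, `Real.log_le_log`.
`psiD (A ∪ B) - psiD A = log ZV (D \ N1 A) - log ZV ((D \ N1 A) \ N1 B) ≤ 108 q |N1 B| ≤ 756 q |B| ≤ |B| / 10` (`log_sdiff_le`, `N1_card`).
The versions for `psi` follow by passing to the limit (`psi_tendsto`, `le_of_tendsto_of_tendsto'`).
-/

set_option autoImplicit false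

namespace Pool.Agent.H40.WM

open Pool.Agent.H40.SQ

noncomputable section

theorem psiD_empty (q : ℝ) (D : Finset Edge) : psiD q D ∅ = 0 := by
  unfold psiD
  rw [N1_empty, Finset.sdiff_empty, sub_self]

theorem psiD_mono (q : ℝ) (hq0 : 0 < q) (D : Finset Edge) {A B : Finset Edge} (h : A ⊆ B) : psiD q D A ≤ psiD q D B := by
  unfold psiD
  have h1 : ZV q (D \ N1 B) ≤ ZV q (D \ N1 A) :=
    ZV_mono q hq0.le (Finset.sdiff_subset_sdiff (Finset.Subset.refl D) (N1_mono h))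
  have h2 := Real.log_le_log (ZV_pos q hq0.le _) h1
  linarith

theorem psiD_union_le (q : ℝ) (hq0 : 0 < q) (hq1 : q ≤ 1 / 10 ^ 6) (D A B : Finset Edge) :
    psiD q D (A ∪ B) ≤ psiD q D A + (B.card : ℝ) / 10 := by
  have h1 := log_sdiff_le q hq0 (by linarith) (D \ N1 A) (N1 B)
  have h2 : (D \ N1 A) \ N1 B = D \ N1 (A ∪ B) := by
    rw [N1_union, sdiff_sdiff_left]
    rfl
  rw [h2] at h1
  have h3 : ((N1 B).card : ℝ) ≤ 7 * B.card := by exact_mod_cast N1_card B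
  have h4 : (0 : ℝ) ≤ B.card := Nat.cast_nonneg _
  have h5 : 108 * q * ((N1 B).card : ℝ) ≤ 108 * q * (7 * B.card) :=
    mul_le_mul_of_nonneg_left h3 (by positivity)
  have h6 : 108 * q * (7 * (B.card : ℝ)) ≤ B.card / 10 := by nlinarith
  unfold psiD
  linarith

theorem psi_empty (q : ℝ) (hq0 : 0 < q) (hq1 : q ≤ 1 / 10 ^ 6) : psi q ∅ = 0 := by
  have h := psi_tendsto q hq0 hq1 ∅
  have h2 : (fun M : ℕ => psiD q (EM M) ∅) = fun _ => (0 : ℝ) := by
    funext M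
    exact psiD_empty q _
  rw [h2] at h
  exact tendsto_nhds_unique h tendsto_const_nhds

theorem psi_mono (q : ℝ) (hq0 : 0 < q) (hq1 : q ≤ 1 / 10 ^ 6) {A B : Finset Edge} (h : A ⊆ B) : psi q A ≤ psi q B :=
  le_of_tendsto_of_tendsto' (psi_tendsto q hq0 hq1 A) (psi_tendsto q hq0 hq1 B)
    (fun M => psiD_mono q hq0 (EM M) h)

theorem psi_nonneg (q : ℝ) (hq0 : 0 < q) (hq1 : q ≤ 1 / 10 ^ 6) (A : Finset Edge) : 0 ≤ psi q A := by
  rw [← psi_empty q hq0 hq1]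
  exact psi_mono q hq0 hq1 (Finset.empty_subset A)

theorem psi_union_le (q : ℝ) (hq0 : 0 < q) (hq1 : q ≤ 1 / 10 ^ 6) (A B : Finset Edge) :
    psi q (A ∪ B) ≤ psi q A + (B.card : ℝ) / 10 :=
  le_of_tendsto_of_tendsto' (psi_tendsto q hq0 hq1 (A ∪ B))
    ((psi_tendsto q hq0 hq1 A).add_const ((B.card : ℝ) / 10))
    (fun M => psiD_union_le q hq0 hq1 (EM M) A B)

theorem psi_le_card (q : ℝ) (hq0 : 0 < q) (hq1 : q ≤ 1 / 10 ^ 6) (A : Finset Edge) : psi q A ≤ (A.card : ℝ) / 10 := by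
  have h := psi_union_le q hq0 hq1 ∅ A
  rw [psi_empty q hq0 hq1, Finset.empty_union, zero_add] at h
  exact h

end

end Pool.Agent.H40.WM
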