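import Mathlib
import Pool.Agent.H40.WM.QPsi

/-!
# QSym: invariance of `psi` under translations and under the transposition

`shE v` and `trE` are injective and preserve touching in both directions, so `N1 (sh v A) = sh v (N1 A)`, `N1 (tr A) = tr (N1 A)`; they preserve `VC`
(transposition exchanges horizontal and vertical edges, and `VC` is symmetric) and cardinalities, so `ZV q (sh v D) = ZV q D`, `ZV q (tr D) = ZV q D`
and `psiD q (sh v D) (sh v A) = psiD q D A`, the same for `tr` (`Finset.image_sdiff` for injective maps).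
* `psi_tr`: `tr (EM M) = EM M`, so the sequences are equal.
* `psi_sh`: `psiD (EM M) (sh v A) = psiD (sh (-v) (EM M)) A`, and by `psiD_close` for `D = sh (-v) (EM M)`:
  `|psiD D A - psi A| ≤ |A| (1/2)^(M - r)` with `r` = (max of the absolute labels of `A`) + `|v.1| + |v.2|`; let `M → ∞`, uniqueness of limits.
-/

set_option autoImplicit false

namespace Pool.Agent.H40.WM

open Pool.Agent.H40.SQ

noncomputable section

theorem shE_tch (v : ℤ × ℤ) (a b : Edge) : Tch (shE v a) (shE v b) ↔ Tch a b := by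
  obtain ⟨t, x, y⟩ := a
  obtain ⟨t', x', y'⟩ := b
  obtain ⟨p, q⟩ := v
  constructor
  · rintro ⟨⟨w, z⟩, h1, h2⟩
    refine ⟨(w - p, z - q), ?_, ?_⟩
    · cases t <;> simp [ends, shE] at h1 ⊢ <;> omega
    · cases t' <;> simp [ends, shE] at h2 ⊢ <;> omega
  · rintro ⟨⟨w, z⟩, h1, h2⟩
    refine ⟨(w + p, z + q), ?_, ?_⟩
    · cases t <;> simp [ends, shE] at h1 ⊢ <;> omega
    · cases t' <;> simp [ends, shE] at h2 ⊢ <;> omega

theorem shE_inj (v : ℤ × ℤ) : Function.Injective (shE v) := by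
  rintro ⟨t, x, y⟩ ⟨t', x', y'⟩ h
  simp only [shE, Prod.mk.injEq] at h
  obtain ⟨h1, h2, h3⟩ := h
  simp only [Prod.mk.injEq]
  exact ⟨h1, by omega, by omega⟩

theorem trE_inj : Function.Injective trE := by
  rintro ⟨t, x, y⟩ ⟨t', x', y'⟩ h
  simp only [trE, Prod.mk.injEq] at h
  obtain ⟨h1, h2, h3⟩ := h
  simp only [Prod.mk.injEq]
  refine ⟨?_, h3, h2⟩
  cases t <;> cases t' <;> simp at h1 ⊢

theorem trE_tch (a b : Edge) : Tch (trE a) (trE b) ↔ Tch a b := by
  obtain ⟨t, x, y⟩ := a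
  obtain ⟨t', x', y'⟩ := b
  constructor
  · rintro ⟨⟨w, z⟩, h1, h2⟩
    refine ⟨(z, w), ?_, ?_⟩
    · cases t <;> simp [ends, trE] at h1 ⊢ <;> omega
    · cases t' <;> simp [ends, trE] at h2 ⊢ <;> omega
  · rintro ⟨⟨w, z⟩, h1, h2⟩
    refine ⟨(z, w), ?_, ?_⟩
    · cases t <;> simp [ends, trE] at h1 ⊢ <;> omega
    · cases t' <;> simp [ends, trE] at h2 ⊢ <;> omega

private theorem qsym_sh_surj (v : ℤ × ℤ) : Function.Surjective (shE v) := by
  rintro ⟨t, x, y⟩
  exact ⟨(t, x - v.1, y - v.2), by simp [shE]⟩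

private theorem qsym_tr_surj : Function.Surjective trE := by
  rintro ⟨t, x, y⟩
  exact ⟨(!t, y, x), by simp [trE]⟩

private theorem qsym_ind_sh (v : ℤ × ℤ) (g : Finset Edge) (t : Bool) (i j : ℤ) :
    ind (sh v g) (t, i, j) = ind g (t, i - v.1, j - v.2) := by
  unfold ind sh
  have h : ((t, i, j) : Edge) ∈ g.image (shE v) ↔ ((t, i - v.1, j - v.2) : Edge) ∈ g := by
    have h1 : ((t, i, j) : Edge) = shE v (t, i - v.1, j - v.2) := by simp [shE]
    rw [h1, Finset.mem_image]
    constructor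
    · rintro ⟨a, ha, hb⟩
      rwa [← shE_inj v hb]
    · intro h
      exact ⟨_, h, rfl⟩
  simp only [h]

private theorem qsym_ind_tr (g : Finset Edge) (t : Bool) (i j : ℤ) :
    ind (tr g) (t, i, j) = ind g (!t, j, i) := by
  unfold ind tr
  have h : ((t, i, j) : Edge) ∈ g.image trE ↔ ((!t, j, i) : Edge) ∈ g := by
    have h1 : ((t, i, j) : Edge) = trE (!t, j, i) := by simp [trE]
    rw [h1, Finset.mem_image]
    constructor
    · rintro ⟨a, ha, hb⟩
      rwa [← trE_inj hb]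
    · intro h
      exact ⟨_, h, rfl⟩
  simp only [h]

theorem VC_sh (v : ℤ × ℤ) (g : Finset Edge) : VC (sh v g) ↔ VC g := by
  constructor
  · intro h i j
    have h1 := h (i + v.1) (j + v.2)
    simp only [qsym_ind_sh] at h1
    have e1 : i + v.1 - 1 - v.1 = i - 1 := by ring
    have e2 : i + v.1 - v.1 = i := by ring
    have e3 : j + v.2 - v.2 = j := by ring
    have e4 : j + v.2 - 1 - v.2 = j - 1 := by ring
    rw [e1, e2, e3, e4] at h1
    exact h1
  · intro h i j
    have h1 := h (i - v.1) (j - v.2)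
    simp only [qsym_ind_sh]
    have e1 : i - 1 - v.1 = i - v.1 - 1 := by ring
    have e4 : j - 1 - v.2 = j - v.2 - 1 := by ring
    rw [e1, e4]
    exact h1

theorem VC_tr (g : Finset Edge) : VC (tr g) ↔ VC g := by
  constructor
  · intro h i j
    have h1 := h j i
    simp only [qsym_ind_tr, Bool.not_false, Bool.not_true] at h1
    exact h1.symm
  · intro h i j
    have h1 := h j i
    simp only [qsym_ind_tr, Bool.not_false, Bool.not_true]
    exact h1.symm

/-! ### Generic facts about an injective touching-preserving map -/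

private theorem qsym_image_filter {f : Edge → Edge} {D g : Finset Edge}
    (hg : g ⊆ D.image f) : (D.filter (fun e => f e ∈ g)).image f = g := by
  ext b
  simp only [Finset.mem_image, Finset.mem_filter]
  constructor
  · rintro ⟨a, ⟨_, ha⟩, rfl⟩
    exact ha
  · intro hb
    obtain ⟨a, ha, rfl⟩ := Finset.mem_image.1 (hg hb)
    exact ⟨a, ⟨ha, hb⟩, rfl⟩

private theorem qsym_conn {f : Edge → Edge} (hf : Function.Injective f)
    (hT : ∀ a b, Tch (f a) (f b) ↔ Tch a b) (g : Finset Edge) :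
    Conn (g.image f) ↔ Conn g := by
  constructor
  · intro h A hA hne hAg
    have h1 : A.image f ≠ g.image f := fun h2 => hAg (Finset.image_injective hf h2)
    obtain ⟨a, ha, b, hb, hab⟩ := h (A.image f) (Finset.image_subset_image hA) (hne.image f) h1
    obtain ⟨a', ha', rfl⟩ := Finset.mem_image.1 ha
    rw [Finset.mem_sdiff] at hb
    obtain ⟨b', hb', rfl⟩ := Finset.mem_image.1 hb.1
    refine ⟨a', ha', b', Finset.mem_sdiff.2 ⟨hb', fun h3 => hb.2 ?_⟩, (hT a' b').1 hab⟩
    exact Finset.mem_image_of_mem f h3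
  · intro h A hA hne hAg
    have h0 := qsym_image_filter hA
    have h1 : g.filter (fun e => f e ∈ A) ≠ g := by
      intro h2
      rw [h2] at h0
      exact hAg h0.symm
    have h2 : (g.filter (fun e => f e ∈ A)).Nonempty := by
      obtain ⟨x, hx⟩ := hne
      rw [← h0] at hx
      obtain ⟨y, hy, _⟩ := Finset.mem_image.1 hx
      exact ⟨y, hy⟩
    obtain ⟨a, ha, b, hb, hab⟩ := h _ (Finset.filter_subset _ _) h2 h1
    rw [Finset.mem_filter] at ha
    rw [Finset.mem_sdiff, Finset.mem_filter] at hb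
    refine ⟨f a, ha.2, f b, Finset.mem_sdiff.2 ⟨Finset.mem_image_of_mem f hb.1, ?_⟩,
      (hT a b).2 hab⟩
    intro h3
    exact hb.2 ⟨hb.1, h3⟩

private theorem qsym_ZV {f : Edge → Edge} (hf : Function.Injective f)
    (hV : ∀ g : Finset Edge, VC (g.image f) ↔ VC g) (q : ℝ) (D : Finset Edge) :
    ZV q (D.image f) = ZV q D := by
  unfold ZV
  symm
  refine Finset.sum_bij (fun g _ => g.image f) ?_ ?_ ?_ ?_
  · intro g hg
    rw [mem_VCs] at hg ⊢
    exact ⟨Finset.image_subset_image hg.1, (hV g).2 hg.2⟩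
  · intro g _ g' _ h
    exact Finset.image_injective hf h
  · intro g hg
    rw [mem_VCs] at hg
    refine ⟨D.filter (fun e => f e ∈ g), ?_, qsym_image_filter hg.1⟩
    rw [mem_VCs]
    refine ⟨Finset.filter_subset _ _, ?_⟩
    rw [← hV, qsym_image_filter hg.1]
    exact hg.2
  · intro g _
    rw [Finset.card_image_of_injective _ hf]

private theorem qsym_N1 {f : Edge → Edge} (hs : Function.Surjective f)
    (hT : ∀ a b, Tch (f a) (f b) ↔ Tch a b) (A : Finset Edge) :
    N1 (A.image f) = (N1 A).image f := by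
  ext b
  rw [mem_N1, Finset.mem_image]
  constructor
  · rintro ⟨a, ha, hab⟩
    obtain ⟨a', ha', rfl⟩ := Finset.mem_image.1 ha
    obtain ⟨b', rfl⟩ := hs b
    exact ⟨b', mem_N1.2 ⟨a', ha', (hT a' b').1 hab⟩, rfl⟩
  · rintro ⟨b', hb', rfl⟩
    obtain ⟨a', ha', hab⟩ := mem_N1.1 hb'
    exact ⟨f a', Finset.mem_image_of_mem f ha', (hT a' b').2 hab⟩

private theorem qsym_psiD {f : Edge → Edge} (hf : Function.Injective f)
    (hs : Function.Surjective f)
    (hT : ∀ a b, Tch (f a) (f b) ↔ Tch a b) (hV : ∀ g : Finset Edge, VC (g.image f) ↔ VC g)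
    (q : ℝ) (D A : Finset Edge) : psiD q (D.image f) (A.image f) = psiD q D A := by
  unfold psiD
  rw [qsym_N1 hs hT, ← Finset.image_sdiff _ _ hf, qsym_ZV hf hV, qsym_ZV hf hV]

theorem Conn_sh (v : ℤ × ℤ) (g : Finset Edge) : Conn (sh v g) ↔ Conn g :=
  qsym_conn (shE_inj v) (shE_tch v) g

theorem Conn_tr (g : Finset Edge) : Conn (tr g) ↔ Conn g :=
  qsym_conn trE_inj trE_tch g

theorem sh_card (v : ℤ × ℤ) (g : Finset Edge) : (sh v g).card = g.card :=
  Finset.card_image_of_injective _ (shE_inj v)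

theorem tr_card (g : Finset Edge) : (tr g).card = g.card :=
  Finset.card_image_of_injective _ trE_inj

theorem ZV_sh (q : ℝ) (v : ℤ × ℤ) (D : Finset Edge) : ZV q (sh v D) = ZV q D :=
  qsym_ZV (shE_inj v) (VC_sh v) q D

theorem ZV_tr (q : ℝ) (D : Finset Edge) : ZV q (tr D) = ZV q D :=
  qsym_ZV trE_inj VC_tr q D

private theorem qsym_psiD_sh (q : ℝ) (v : ℤ × ℤ) (D A : Finset Edge) :
    psiD q (sh v D) (sh v A) = psiD q D A :=
  qsym_psiD (shE_inj v) (qsym_sh_surj v) (shE_tch v) (VC_sh v) q D A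

private theorem qsym_psiD_tr (q : ℝ) (D A : Finset Edge) :
    psiD q (tr D) (tr A) = psiD q D A :=
  qsym_psiD trE_inj qsym_tr_surj trE_tch VC_tr q D A

private theorem qsym_sh_sh (v : ℤ × ℤ) (D : Finset Edge) :
    sh v (sh (-v.1, -v.2) D) = D := by
  unfold sh
  rw [Finset.image_image]
  have h : shE v ∘ shE (-v.1, -v.2) = id := by
    funext e
    obtain ⟨t, x, y⟩ := e
    simp [shE]
  rw [h, Finset.image_id]

private theorem qsym_tr_EM (M : ℕ) : tr (EM M) = EM M := by
  ext e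
  obtain ⟨t, x, y⟩ := e
  unfold tr
  rw [Finset.mem_image]
  constructor
  · rintro ⟨⟨t', x', y'⟩, ha, hb⟩
    rw [mem_EM] at ha ⊢
    simp only [trE, Prod.mk.injEq] at hb
    obtain ⟨_, h2, h3⟩ := hb
    simp only at ha ⊢
    omega
  · intro h
    refine ⟨(!t, y, x), ?_, by simp [trE]⟩
    rw [mem_EM] at h ⊢
    simp only at h ⊢
    omega

private theorem qsym_bound (A : Finset Edge) :
    ∃ R : ℕ, ∀ a ∈ A, a.2.1.natAbs ≤ R ∧ a.2.2.natAbs ≤ R := by
  refine ⟨∑ a ∈ A, (a.2.1.natAbs + a.2.2.natAbs), ?_⟩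
  intro a ha
  have h := Finset.single_le_sum (f := fun a : Edge => a.2.1.natAbs + a.2.2.natAbs)
    (fun i _ => Nat.zero_le _) ha
  have h2 : a.2.1.natAbs + a.2.2.natAbs ≤ ∑ a ∈ A, (a.2.1.natAbs + a.2.2.natAbs) := h
  omega

theorem psi_sh (q : ℝ) (hq0 : 0 < q) (hq1 : q ≤ 1 / 10 ^ 6) (v : ℤ × ℤ) (A : Finset Edge) : psi q (sh v A) = psi q A := by
  obtain ⟨R, hR⟩ := qsym_bound A
  have h1 := psi_tendsto q hq0 hq1 (sh v A)
  obtain ⟨r, hr⟩ : ∃ r : ℕ, r = R + v.1.natAbs + v.2.natAbs := ⟨_, rfl⟩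
  have h2 : ∀ M : ℕ, |psiD q (EM M) (sh v A) - psi q A| ≤
      (A.card : ℝ) * ((1 : ℝ) / 2) ^ (M - r) := by
    intro M
    have e1 : psiD q (EM M) (sh v A) = psiD q (sh (-v.1, -v.2) (EM M)) A := by
      conv_lhs => rw [← qsym_sh_sh v (EM M)]
      exact qsym_psiD_sh q v _ A
    rw [e1]
    have h3 := psiD_close q hq0 hq1 (sh (-v.1, -v.2) (EM M)) A (fun _ => M - r) ?_
    · rw [Finset.sum_const, nsmul_eq_mul] at h3
      exact h3
    · intro a ha e he
      have h4 := hR a ha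
      have h5 : shE v e ∉ EM M := by
        intro h6
        apply he
        unfold sh
        rw [Finset.mem_image]
        refine ⟨shE v e, h6, ?_⟩
        obtain ⟨t, x, y⟩ := e
        simp [shE]
      rw [mem_EM] at h5
      simp only [shE] at h5
      unfold dd
      have h6 : ¬ (-(M : ℤ) ≤ e.2.1 + v.1 ∧ e.2.1 + v.1 ≤ M) ∨
          ¬ (-(M : ℤ) ≤ e.2.2 + v.2 ∧ e.2.2 + v.2 ≤ M) := by
        by_contra h7
        push Not at h7
        exact h5 ⟨h7.1.1, h7.1.2, h7.2.1, h7.2.2⟩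
      rcases h6 with h6 | h6
      · refine le_trans ?_ (le_max_left _ _)
        omega
      · refine le_trans ?_ (le_max_right _ _)
        omega
  have h3 : Filter.Tendsto (fun M : ℕ => (A.card : ℝ) * ((1 : ℝ) / 2) ^ (M - r))
      Filter.atTop (nhds 0) := by
    have h4 : Filter.Tendsto (fun M : ℕ => ((1 : ℝ) / 2) ^ (M - r)) Filter.atTop (nhds 0) :=
      (tendsto_pow_atTop_nhds_zero_of_lt_one (by norm_num) (by norm_num)).comp
        (Filter.tendsto_sub_atTop_nat r)
    simpa using h4.const_mul (A.card : ℝ)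
  have h4 : Filter.Tendsto (fun M : ℕ => psiD q (EM M) (sh v A)) Filter.atTop
      (nhds (psi q A)) := by
    rw [tendsto_iff_norm_sub_tendsto_zero]
    refine squeeze_zero (fun M => norm_nonneg _) (fun M => ?_) h3
    rw [Real.norm_eq_abs]
    exact h2 M
  exact tendsto_nhds_unique h1 h4

theorem psi_tr (q : ℝ) (hq0 : 0 < q) (hq1 : q ≤ 1 / 10 ^ 6) (A : Finset Edge) : psi q (tr A) = psi q A := by
  have h : (fun M : ℕ => psiD q (EM M) (tr A)) = fun M : ℕ => psiD q (EM M) A := by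
    funext M
    conv_lhs => rw [← qsym_tr_EM M]
    exact qsym_psiD_tr q _ A
  have h1 := psi_tendsto q hq0 hq1 (tr A)
  rw [h] at h1
  exact tendsto_nhds_unique h1 (psi_tendsto q hq0 hq1 A)

end

end Pool.Agent.H40.WM
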