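import Mathlib
import Pool.Agent.H40.WM.IDefs
import Pool.Agent.H40.WM.QSym

/-!
# IDfc: defects

All by unfolding `dfc`, `ind` and case analysis.  `VC` at `(i,j)`: `ind (false,i-1,j) + ind (false,i,j) = ind (true,i,j-1) + ind (true,i,j)`, i.e. `dfc G (i,j) = 0`.
* `dfc_parity`: `∑_z sgn(z) dfc G z = 0` for every finite `G`, because the two ends of an edge have opposite parity.  So if `dfc G = 1_{z=a}` were true the sum would be `± 1`; formally
  `no_single`: there is no finite `G` with `dfc G z = [z = a]` for all `z`, and none with `dfc G z = -[z=b]`.  (Induction on `G` for `∑_{z ∈ V} (-1)^(z.1+z.2) dfc G z` with `V` = all ends;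
  use `Finset.sum` over a large box or over the image of `ends`.)
* `IsP_sh`: translation by `v`; `IsP_tr`: transposition exchanges horizontal and vertical edges, so the defect changes its sign and the roles of `a`, `b` are exchanged (`Conn_sh`, `Conn_tr`).
* `IsP_touch`: if `G` is nonempty then `a ≠ b` and some edge of `G` has `a` as an end, some edge has `b` as an end (the defect is nonzero there).
-/

set_option autoImplicit false

namespace Pool.Agent.H40.WM

open Pool.Agent.H40.SQ

noncomputable section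

theorem VC_iff_dfc (g : Finset Edge) : VC g ↔ ∀ z, dfc g z = 0 := by
  unfold VC dfc Hr Hl Vu Vd
  constructor
  · intro h z
    have := h z.1 z.2
    linarith
  · intro h i j
    have := h (i, j)
    simp only at this
    linarith

private theorem id_ind_union {A B : Finset Edge} (h : Disjoint A B) (e : Edge) : ind (A ∪ B) e = ind A e + ind B e := by
  unfold ind
  rw [Finset.disjoint_left] at h
  by_cases h1 : e ∈ A
  · have h2 : e ∉ B := h h1
    simp [h1, h2]
  · by_cases h2 : e ∈ B <;> simp [h1, h2]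

private theorem id_ind_sdiff {A B : Finset Edge} (h : B ⊆ A) (e : Edge) : ind (A \ B) e = ind A e - ind B e := by
  unfold ind
  by_cases h2 : e ∈ B
  · simp [h2, h h2]
  · by_cases h1 : e ∈ A <;> simp [h1, h2]

theorem dfc_union {A B : Finset Edge} (h : Disjoint A B) (z : ℤ × ℤ) : dfc (A ∪ B) z = dfc A z + dfc B z := by
  unfold dfc
  rw [id_ind_union h, id_ind_union h, id_ind_union h, id_ind_union h]
  ring

theorem dfc_sdiff {A B : Finset Edge} (h : B ⊆ A) (z : ℤ × ℤ) : dfc (A \ B) z = dfc A z - dfc B z := by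
  unfold dfc
  rw [id_ind_sdiff h, id_ind_sdiff h, id_ind_sdiff h, id_ind_sdiff h]
  ring

theorem dfc_empty (z : ℤ × ℤ) : dfc ∅ z = 0 := by
  unfold dfc ind
  simp

private theorem id_ind_sh (v : ℤ × ℤ) (G : Finset Edge) (e : Edge) : ind (sh v G) (shE v e) = ind G e := by
  unfold ind sh
  have h : shE v e ∈ G.image (shE v) ↔ e ∈ G := by
    rw [Finset.mem_image]
    constructor
    · rintro ⟨a, ha, hb⟩
      rwa [← shE_inj v hb]
    · intro h
      exact ⟨e, h, rfl⟩
  simp only [h]

private theorem id_ind_tr (G : Finset Edge) (e : Edge) : ind (tr G) (trE e) = ind G e := by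
  unfold ind tr
  have h : trE e ∈ G.image trE ↔ e ∈ G := by
    rw [Finset.mem_image]
    constructor
    · rintro ⟨a, ha, hb⟩
      rwa [← trE_inj hb]
    · intro h
      exact ⟨e, h, rfl⟩
  simp only [h]

theorem dfc_sh (v : ℤ × ℤ) (G : Finset Edge) (z : ℤ × ℤ) : dfc (sh v G) (z.1 + v.1, z.2 + v.2) = dfc G z := by
  have e1 : Hr (z.1 + v.1, z.2 + v.2) = shE v (Hr z) := rfl
  have e2 : Hl (z.1 + v.1, z.2 + v.2) = shE v (Hl z) := by
    unfold Hl shE
    simp only [Prod.mk.injEq, true_and]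
    exact ⟨by ring, trivial⟩
  have e3 : Vu (z.1 + v.1, z.2 + v.2) = shE v (Vu z) := rfl
  have e4 : Vd (z.1 + v.1, z.2 + v.2) = shE v (Vd z) := by
    unfold Vd shE
    simp only [Prod.mk.injEq, true_and]
    ring
  unfold dfc
  rw [e1, e2, e3, e4, id_ind_sh, id_ind_sh, id_ind_sh, id_ind_sh]

theorem dfc_tr (G : Finset Edge) (z : ℤ × ℤ) : dfc (tr G) (z.2, z.1) = - dfc G z := by
  have e1 : Hr (z.2, z.1) = trE (Vu z) := rfl
  have e2 : Hl (z.2, z.1) = trE (Vd z) := rfl
  have e3 : Vu (z.2, z.1) = trE (Hr z) := rfl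
  have e4 : Vd (z.2, z.1) = trE (Hl z) := rfl
  unfold dfc
  rw [e1, e2, e3, e4, id_ind_tr, id_ind_tr, id_ind_tr, id_ind_tr]
  ring

private def id_sg (z : ℤ × ℤ) : ℤ := if (z.1 + z.2) % 2 = 0 then 1 else -1

private theorem id_sg_ne (z : ℤ × ℤ) : id_sg z ≠ 0 := by
  unfold id_sg
  split_ifs <;> norm_num

private theorem id_dfc_one (e : Edge) (z : ℤ × ℤ) : dfc {e} z =
    (if e.1 then -1 else 1) * ((if z = (e.2.1, e.2.2) then 1 else 0) +
      (if z = (if e.1 then (e.2.1, e.2.2 + 1) else (e.2.1 + 1, e.2.2)) then 1 else 0)) := by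
  obtain ⟨t, x, y⟩ := e
  obtain ⟨p, q⟩ := z
  cases t
  · have h1 : ((false, p, q) : Edge) = (false, x, y) ↔ (p, q) = (x, y) := by
      simp
    have h2 : ((false, p - 1, q) : Edge) = (false, x, y) ↔ (p, q) = (x + 1, y) := by
      simp only [Prod.mk.injEq, true_and]
      omega
    have h3 : ¬ ((true, p, q) : Edge) = (false, x, y) := by simp
    have h4 : ¬ ((true, p, q - 1) : Edge) = (false, x, y) := by simp
    simp only [dfc, ind, Hr, Hl, Vu, Vd, Finset.mem_singleton, h1, h2, h3, h4, if_false, Bool.false_eq_true]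
    ring
  · have h1 : ((true, p, q) : Edge) = (true, x, y) ↔ (p, q) = (x, y) := by
      simp
    have h2 : ((true, p, q - 1) : Edge) = (true, x, y) ↔ (p, q) = (x, y + 1) := by
      simp only [Prod.mk.injEq, true_and]
      omega
    have h3 : ¬ ((false, p, q) : Edge) = (true, x, y) := by simp
    have h4 : ¬ ((false, p - 1, q) : Edge) = (true, x, y) := by simp
    simp only [dfc, ind, Hr, Hl, Vu, Vd, Finset.mem_singleton, h1, h2, h3, h4, if_false, if_true]
    ring

private theorem id_sum_one (e : Edge) (V : Finset (ℤ × ℤ)) (h : ∀ z ∈ ends e, z ∈ V) :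
    ∑ z ∈ V, id_sg z * dfc {e} z = 0 := by
  obtain ⟨t, x, y⟩ := e
  have key : ∀ w : ℤ × ℤ, w ∈ V → (∑ z ∈ V, id_sg z * (if z = w then (1 : ℤ) else 0)) = id_sg w := by
    intro w hw
    simp only [mul_ite, mul_one, mul_zero]
    rw [Finset.sum_ite_eq', if_pos hw]
  have hx : (x, y) ∈ V := h _ (by cases t <;> simp [ends])
  cases t
  · have hx' : (x + 1, y) ∈ V := h _ (by simp [ends])
    have e1 : ∀ z ∈ V, id_sg z * dfc {(false, x, y)} z =
        id_sg z * (if z = (x, y) then (1 : ℤ) else 0) + id_sg z * (if z = (x + 1, y) then (1 : ℤ) else 0) := by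
      intro z _
      rw [id_dfc_one]
      simp only [Bool.false_eq_true, if_false]
      ring
    rw [Finset.sum_congr rfl e1, Finset.sum_add_distrib, key _ hx, key _ hx']
    unfold id_sg
    simp only
    split_ifs <;> omega
  · have hx' : (x, y + 1) ∈ V := h _ (by simp [ends])
    have e1 : ∀ z ∈ V, id_sg z * dfc {(true, x, y)} z =
        -(id_sg z * (if z = (x, y) then (1 : ℤ) else 0) + id_sg z * (if z = (x, y + 1) then (1 : ℤ) else 0)) := by
      intro z _
      rw [id_dfc_one]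
      simp only [if_true]
      ring
    rw [Finset.sum_congr rfl e1, Finset.sum_neg_distrib, Finset.sum_add_distrib, key _ hx, key _ hx']
    unfold id_sg
    simp only
    split_ifs <;> omega

private theorem id_sum (V : Finset (ℤ × ℤ)) (G : Finset Edge) (h : ∀ e ∈ G, ∀ z ∈ ends e, z ∈ V) :
    ∑ z ∈ V, id_sg z * dfc G z = 0 := by
  classical
  induction G using Finset.induction_on with
  | empty =>
    apply Finset.sum_eq_zero
    intro z _
    rw [dfc_empty, mul_zero]
  | insert e G heG ih =>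
    have h1 : ∀ z ∈ V, id_sg z * dfc (insert e G) z = id_sg z * dfc {e} z + id_sg z * dfc G z := by
      intro z _
      have h2 : insert e G = {e} ∪ G := rfl
      rw [h2, dfc_union (Finset.disjoint_singleton_left.2 heG)]
      ring
    rw [Finset.sum_congr rfl h1, Finset.sum_add_distrib, id_sum_one e V (h e (Finset.mem_insert_self _ _)),
      ih (fun e' he' => h e' (Finset.mem_insert_of_mem he'))]
    norm_num

theorem no_single (G : Finset Edge) (a : ℤ × ℤ) : ¬ (∀ z, dfc G z = if z = a then 1 else 0) := by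
  intro h
  have h1 := id_sum (G.biUnion ends ∪ {a}) G (fun e he z hz =>
    Finset.mem_union_left _ (Finset.mem_biUnion.2 ⟨e, he, hz⟩))
  simp only [h, mul_ite, mul_one, mul_zero] at h1
  rw [Finset.sum_ite_eq', if_pos (Finset.mem_union_right _ (Finset.mem_singleton_self a))] at h1
  exact id_sg_ne a h1

theorem no_single' (G : Finset Edge) (b : ℤ × ℤ) : ¬ (∀ z, dfc G z = - (if z = b then 1 else 0)) := by
  intro h
  have h1 := id_sum (G.biUnion ends ∪ {b}) G (fun e he z hz =>
    Finset.mem_union_left _ (Finset.mem_biUnion.2 ⟨e, he, hz⟩))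
  simp only [h, mul_neg, mul_ite, mul_one, mul_zero] at h1
  rw [Finset.sum_neg_distrib, Finset.sum_ite_eq', if_pos (Finset.mem_union_right _ (Finset.mem_singleton_self b))] at h1
  exact id_sg_ne b (by linarith)

theorem IsP_empty (a : ℤ × ℤ) : IsP a a ∅ := by
  refine ⟨?_, ?_, fun _ => rfl⟩
  · intro A hA hn _
    exact absurd (Finset.subset_empty.1 hA) hn.ne_empty
  · intro z
    rw [dfc_empty, sub_self]

theorem IsP_empty_iff {a b : ℤ × ℤ} {G : Finset Edge} (h : IsP a b G) : G = ∅ ↔ a = b := by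
  refine ⟨?_, h.emp⟩
  intro hG
  by_contra hab
  have h1 := h.def' a
  rw [hG, dfc_empty, if_pos rfl, if_neg hab] at h1
  norm_num at h1

theorem IsP_sh {a b : ℤ × ℤ} {G : Finset Edge} (h : IsP a b G) (v : ℤ × ℤ) :
    IsP (a.1 + v.1, a.2 + v.2) (b.1 + v.1, b.2 + v.2) (sh v G) := by
  have hinj : ∀ p q : ℤ × ℤ, (p.1 + v.1, p.2 + v.2) = (q.1 + v.1, q.2 + v.2) ↔ p = q := by
    intro p q
    rw [Prod.mk.injEq]
    constructor
    · rintro ⟨h1, h2⟩
      exact Prod.ext (by linarith) (by linarith)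
    · rintro rfl
      exact ⟨rfl, rfl⟩
  refine ⟨(Conn_sh v G).2 h.conn, ?_, ?_⟩
  · intro z
    obtain ⟨w, hw⟩ : ∃ w : ℤ × ℤ, z = (w.1 + v.1, w.2 + v.2) :=
      ⟨(z.1 - v.1, z.2 - v.2), by simp⟩
    rw [hw, dfc_sh, h.def' w]
    simp only [hinj]
  · intro hab
    rw [hinj] at hab
    rw [h.emp hab]
    rfl

theorem IsP_tr {a b : ℤ × ℤ} {G : Finset Edge} (h : IsP a b G) : IsP (b.2, b.1) (a.2, a.1) (tr G) := by
  have hinj : ∀ p q : ℤ × ℤ, (p.2, p.1) = (q.2, q.1) ↔ p = q := by
    intro p q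
    rw [Prod.mk.injEq]
    constructor
    · rintro ⟨h1, h2⟩
      exact Prod.ext h2 h1
    · rintro rfl
      exact ⟨rfl, rfl⟩
  refine ⟨(Conn_tr G).2 h.conn, ?_, ?_⟩
  · intro z
    obtain ⟨w, hw⟩ : ∃ w : ℤ × ℤ, z = (w.2, w.1) := ⟨(z.2, z.1), rfl⟩
    rw [hw, dfc_tr, h.def' w]
    simp only [hinj]
    ring
  · intro hab
    rw [hinj] at hab
    rw [h.emp hab.symm]
    rfl

private theorem id_ends_iff {e : Edge} {z : ℤ × ℤ} : z ∈ ends e ↔ e = Hr z ∨ e = Hl z ∨ e = Vu z ∨ e = Vd z := by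
  obtain ⟨t, x, y⟩ := e
  obtain ⟨p, q⟩ := z
  cases t
  · simp only [ends, Hr, Hl, Vu, Vd, Bool.false_eq_true, if_false, Finset.mem_insert, Finset.mem_singleton, Prod.mk.injEq,
      true_and, false_and, or_false]
    omega
  · simp only [ends, Hr, Hl, Vu, Vd, if_true, Finset.mem_insert, Finset.mem_singleton, Prod.mk.injEq,
      Bool.true_eq_false, true_and, false_and, false_or]
    omega

theorem IsP_touch {a b : ℤ × ℤ} {G : Finset Edge} (h : IsP a b G) (hne : G.Nonempty) :
    (∃ e ∈ G, a ∈ ends e) ∧ (∃ e ∈ G, b ∈ ends e) := by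
  have hab : a ≠ b := fun hc => hne.ne_empty (h.emp hc)
  have key : ∀ z, dfc G z ≠ 0 → ∃ e ∈ G, z ∈ ends e := by
    intro z hz
    by_contra hc
    push Not at hc
    apply hz
    have h0 : ∀ e, (e = Hr z ∨ e = Hl z ∨ e = Vu z ∨ e = Vd z) → ind G e = 0 := by
      intro e he
      unfold ind
      rw [if_neg]
      intro heG
      exact hc e heG (id_ends_iff.2 he)
    unfold dfc
    rw [h0 (Hr z) (Or.inl rfl), h0 (Hl z) (Or.inr (Or.inl rfl)), h0 (Vu z) (Or.inr (Or.inr (Or.inl rfl))),
      h0 (Vd z) (Or.inr (Or.inr (Or.inr rfl)))]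
    norm_num
  constructor
  · apply key
    rw [h.def' a, if_pos rfl, if_neg hab]
    norm_num
  · apply key
    rw [h.def' b, if_pos rfl, if_neg (fun hc => hab hc.symm)]
    norm_num

/-- An end of an edge lies on one of the two lines of its slice. -/
theorem ends_uu {e : Edge} {z : ℤ × ℤ} (h : z ∈ ends e) : uu z = us e ∨ uu z = us e + 1 := by
  rw [id_ends_iff] at h
  rcases h with rfl | rfl | rfl | rfl
  · left
    simp [us, Hr, uu]
  · right
    simp [us, Hl, uu]
    ring
  · right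
    simp [us, Vu, uu]
  · left
    simp [us, Vd, uu]
    ring

theorem ends_iff {e : Edge} {z : ℤ × ℤ} : z ∈ ends e ↔ e = Hr z ∨ e = Hl z ∨ e = Vu z ∨ e = Vd z := id_ends_iff

end

end Pool.Agent.H40.WM
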