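import Mathlib
import Pool.Agent.H40.WM.IDfc

/-!
# IPas: pasting paths

`dfc` is additive on disjoint unions.  Connectedness of `L ∪ R`: if `L = ∅` then `a = p` (`IsP_empty_iff`) and `L ∪ R = R`; if `R = ∅` similarly.  If both are nonempty, some edge of `L` and some edge of `R` have
the end `p` (`IsP_touch`), so they touch; a union of two connected sets which touch is connected (`Conn_union`: let `A ⊆ L ∪ R` nonempty, not all; if `A ∩ L` is nonempty and `≠ L` use `Conn L`; if
`A ∩ R` is nonempty and `≠ R` use `Conn R`; otherwise `A = L` or `A = R`, up to elements in both: use the touching pair).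
`paste3`: among `L, V, R` consecutive nonempty ones share a vertex (`L, V` share `p`; `V, R` share `p'`; if `V = ∅` then `p = p'` and `L, R` share `p`), so the union is connected; the defects add up
(note that `a = p'` or `p = b` is possible, so do not apply `paste` twice).
-/

set_option autoImplicit false

namespace Pool.Agent.H40.WM

open Pool.Agent.H40.SQ

noncomputable section

theorem Conn_union {L R : Finset Edge} (hL : Conn L) (hR : Conn R) (h : ∃ a ∈ L, ∃ b ∈ R, Tch a b) : Conn (L ∪ R) := by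
  intro A hA hne hall
  by_cases h1 : (A ∩ L).Nonempty ∧ A ∩ L ≠ L
  · obtain ⟨a, ha, b, hb, hab⟩ := hL (A ∩ L) Finset.inter_subset_right h1.1 h1.2
    rw [Finset.mem_inter] at ha
    rw [Finset.mem_sdiff, Finset.mem_inter] at hb
    refine ⟨a, ha.1, b, ?_, hab⟩
    rw [Finset.mem_sdiff, Finset.mem_union]
    exact ⟨Or.inl hb.1, fun hb' => hb.2 ⟨hb', hb.1⟩⟩
  by_cases h2 : (A ∩ R).Nonempty ∧ A ∩ R ≠ R
  · obtain ⟨a, ha, b, hb, hab⟩ := hR (A ∩ R) Finset.inter_subset_right h2.1 h2.2
    rw [Finset.mem_inter] at ha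
    rw [Finset.mem_sdiff, Finset.mem_inter] at hb
    refine ⟨a, ha.1, b, ?_, hab⟩
    rw [Finset.mem_sdiff, Finset.mem_union]
    exact ⟨Or.inr hb.1, fun hb' => hb.2 ⟨hb', hb.1⟩⟩
  obtain ⟨a, ha, b, hb, hab⟩ := h
  have e1 : A ∩ L = ∅ ∨ A ∩ L = L := by
    rcases Finset.eq_empty_or_nonempty (A ∩ L) with h | h
    · exact Or.inl h
    · right
      by_contra h'
      exact h1 ⟨h, h'⟩
  have e2 : A ∩ R = ∅ ∨ A ∩ R = R := by
    rcases Finset.eq_empty_or_nonempty (A ∩ R) with h | h
    · exact Or.inl h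
    · right
      by_contra h'
      exact h2 ⟨h, h'⟩
  rcases e1 with e1 | e1 <;> rcases e2 with e2 | e2
  · exfalso
    obtain ⟨x, hx⟩ := hne
    have := hA hx
    rw [Finset.mem_union] at this
    rcases this with h | h
    · have : x ∈ A ∩ L := Finset.mem_inter.2 ⟨hx, h⟩
      rw [e1] at this
      simp at this
    · have : x ∈ A ∩ R := Finset.mem_inter.2 ⟨hx, h⟩
      rw [e2] at this
      simp at this
  · refine ⟨b, ?_, a, ?_, ?_⟩
    · rw [← e2] at hb
      exact (Finset.mem_inter.1 hb).1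
    · rw [Finset.mem_sdiff, Finset.mem_union]
      refine ⟨Or.inl ha, fun h => ?_⟩
      have : a ∈ A ∩ L := Finset.mem_inter.2 ⟨h, ha⟩
      rw [e1] at this
      simp at this
    · obtain ⟨v, h1, h2⟩ := hab
      exact ⟨v, h2, h1⟩
  · refine ⟨a, ?_, b, ?_, hab⟩
    · rw [← e1] at ha
      exact (Finset.mem_inter.1 ha).1
    · rw [Finset.mem_sdiff, Finset.mem_union]
      refine ⟨Or.inr hb, fun h => ?_⟩
      have : b ∈ A ∩ R := Finset.mem_inter.2 ⟨h, hb⟩
      rw [e2] at this
      simp at this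
  · exfalso
    apply hall
    apply Finset.Subset.antisymm hA
    intro x hx
    rw [Finset.mem_union] at hx
    rcases hx with h | h
    · rw [← e1] at h
      exact (Finset.mem_inter.1 h).1
    · rw [← e2] at h
      exact (Finset.mem_inter.1 h).1

theorem Conn_union_or {L R : Finset Edge} (hL : Conn L) (hR : Conn R)
    (h : L.Nonempty → R.Nonempty → ∃ a ∈ L, ∃ b ∈ R, Tch a b) : Conn (L ∪ R) := by
  rcases Finset.eq_empty_or_nonempty L with h1 | h1
  · rw [h1, Finset.empty_union]
    exact hR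
  rcases Finset.eq_empty_or_nonempty R with h2 | h2
  · rw [h2, Finset.union_empty]
    exact hL
  exact Conn_union hL hR (h h1 h2)

theorem paste {a p b : ℤ × ℤ} {L R : Finset Edge} (hL : IsP a p L) (hR : IsP p b R) (hd : Disjoint L R) (hab : a ≠ b) :
    IsP a b (L ∪ R) := by
  refine ⟨?_, ?_, fun h => absurd h hab⟩
  · apply Conn_union_or hL.conn hR.conn
    intro h1 h2
    obtain ⟨-, e, he, hpe⟩ := IsP_touch hL h1
    obtain ⟨⟨f, hf, hpf⟩, -⟩ := IsP_touch hR h2
    exact ⟨e, he, f, hf, p, hpe, hpf⟩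
  · intro z
    rw [dfc_union hd, hL.def', hR.def']
    ring

/-- Pasting three pieces. -/
theorem paste3 {a p p' b : ℤ × ℤ} {L V R : Finset Edge} (hL : IsP a p L) (hV : IsP p p' V) (hR : IsP p' b R)
    (h1 : Disjoint L V) (h2 : Disjoint L R) (h3 : Disjoint V R) (hab : a ≠ b) : IsP a b (L ∪ V ∪ R) := by
  have hd : Disjoint (L ∪ V) R := Finset.disjoint_union_left.2 ⟨h2, h3⟩
  refine ⟨?_, ?_, fun h => absurd h hab⟩
  · apply Conn_union_or
    · apply Conn_union_or hL.conn hV.conn
      intro h1 h2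
      obtain ⟨-, e, he, hpe⟩ := IsP_touch hL h1
      obtain ⟨⟨f, hf, hpf⟩, -⟩ := IsP_touch hV h2
      exact ⟨e, he, f, hf, p, hpe, hpf⟩
    · exact hR.conn
    · intro g1 g2
      obtain ⟨⟨f, hf, hpf⟩, -⟩ := IsP_touch hR g2
      rcases Finset.eq_empty_or_nonempty V with hv | hv
      · have hpp : p = p' := (IsP_empty_iff hV).1 hv
        rw [hv, Finset.union_empty] at g1
        obtain ⟨-, e, he, hpe⟩ := IsP_touch hL g1
        exact ⟨e, Finset.mem_union_left _ he, f, hf, p', by rw [← hpp]; exact hpe, hpf⟩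
      · obtain ⟨-, e, he, hpe⟩ := IsP_touch hV hv
        exact ⟨e, Finset.mem_union_right _ he, f, hf, p', hpe, hpf⟩
  · intro z
    rw [dfc_union hd, dfc_union h1, hL.def', hV.def', hR.def']
    ring

end

end Pool.Agent.H40.WM
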