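import Mathlib
import Pool.Agent.H40.WM.IPas

/-!
# IVer: vertical connectors and straight paths

`Vert p d`, `d > 0`: the staircase `p → p+(1,0) → p+(1,1) → ...`: the edges `(false, p.1+i, p.2+i)`, `(true, p.1+i+1, p.2+i)`, `0 ≤ i < d`; all in the slice `uu p`.  Defects: at `p + i(1,1)`: the horizontal edge `i`
(if `i < d`) and the vertical edge `i-1` (if `i > 0`); at the intermediate vertices `p + (i+1, i)`: one horizontal and one vertical edge.  So `dfc z = [z = p] - [z = p + d(1,1)]`.
`d < 0`: the edges `(false, p.1+i, p.2+i+1)`, `(true, p.1+i, p.2+i)`, `d ≤ i < 0`; all in the slice `uu p - 1`; the staircase `p → p+(-1,0) → p+(-1,-1) → ...`.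
Connectedness: induction on `|d|` or: order the edges along the staircase.  Cardinality `2|d|` (the images are injective and disjoint).
`Str a m`: the staircase `a → a+(1,0) → a+(1,-1) → ...`; `Str_kl`: the edges are in the double slices `0,...,m-1`, one horizontal edge in the even and one vertical edge in the odd slice: no wrong edge.
-/

set_option autoImplicit false
set_option linter.unusedSimpArgs false

namespace Pool.Agent.H40.WM

open Pool.Agent.H40.SQ

noncomputable section

theorem Vert_mem_pf {p : ℤ × ℤ} {d : ℤ} (hd : 0 ≤ d) (x y : ℤ) :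
    ((false, x, y) : Edge) ∈ Vert p d ↔ 0 ≤ x - p.1 ∧ x - p.1 < d ∧ x - p.1 = y - p.2 := by
  unfold Vert
  rw [if_pos hd]
  simp only [Finset.mem_union, Finset.mem_image, Finset.mem_Ico, Prod.mk.injEq, Bool.false_eq_true, false_and, and_false,
    exists_false, or_false, true_and, reduceCtorEq]
  constructor
  · rintro ⟨i, h1, h2, h3⟩
    omega
  · rintro ⟨h1, h2, h3⟩
    exact ⟨x - p.1, ⟨h1, h2⟩, by omega, by omega⟩

theorem Vert_mem_pt {p : ℤ × ℤ} {d : ℤ} (hd : 0 ≤ d) (x y : ℤ) :
    ((true, x, y) : Edge) ∈ Vert p d ↔ 0 ≤ x - p.1 - 1 ∧ x - p.1 - 1 < d ∧ x - p.1 - 1 = y - p.2 := by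
  unfold Vert
  rw [if_pos hd]
  simp only [Finset.mem_union, Finset.mem_image, Finset.mem_Ico, Prod.mk.injEq, Bool.false_eq_true, false_and, and_false,
    exists_false, false_or, true_and, reduceCtorEq]
  constructor
  · rintro ⟨i, h1, h2, h3⟩
    omega
  · rintro ⟨h1, h2, h3⟩
    exact ⟨x - p.1 - 1, ⟨h1, h2⟩, by omega, by omega⟩

theorem Vert_mem_nf {p : ℤ × ℤ} {d : ℤ} (hd : d ≤ 0) (x y : ℤ) :
    ((false, x, y) : Edge) ∈ Vert p d ↔ d ≤ x - p.1 ∧ x - p.1 < 0 ∧ x - p.1 = y - p.2 - 1 := by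
  rcases hd.eq_or_lt with h0 | h0
  · subst h0
    rw [Vert_mem_pf le_rfl]
    omega
  unfold Vert
  rw [if_neg (not_le.2 h0)]
  simp only [Finset.mem_union, Finset.mem_image, Finset.mem_Ico, Prod.mk.injEq, Bool.false_eq_true, false_and, and_false,
    exists_false, or_false, true_and, reduceCtorEq]
  constructor
  · rintro ⟨i, h1, h2, h3⟩
    omega
  · rintro ⟨h1, h2, h3⟩
    exact ⟨x - p.1, ⟨h1, h2⟩, by omega, by omega⟩

theorem Vert_mem_nt {p : ℤ × ℤ} {d : ℤ} (hd : d ≤ 0) (x y : ℤ) :
    ((true, x, y) : Edge) ∈ Vert p d ↔ d ≤ x - p.1 ∧ x - p.1 < 0 ∧ x - p.1 = y - p.2 := by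
  rcases hd.eq_or_lt with h0 | h0
  · subst h0
    rw [Vert_mem_pt le_rfl]
    omega
  unfold Vert
  rw [if_neg (not_le.2 h0)]
  simp only [Finset.mem_union, Finset.mem_image, Finset.mem_Ico, Prod.mk.injEq, Bool.false_eq_true, false_and, and_false,
    exists_false, false_or, true_and, reduceCtorEq]
  constructor
  · rintro ⟨i, h1, h2, h3⟩
    omega
  · rintro ⟨h1, h2, h3⟩
    exact ⟨x - p.1, ⟨h1, h2⟩, by omega, by omega⟩

theorem Str_mem_f {a : ℤ × ℤ} {m : ℕ} (x y : ℤ) :
    ((false, x, y) : Edge) ∈ Str a m ↔ 0 ≤ x - a.1 ∧ x - a.1 < m ∧ x - a.1 = a.2 - y := by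
  unfold Str
  simp only [Finset.mem_union, Finset.mem_image, Finset.mem_Ico, Prod.mk.injEq, Bool.false_eq_true, false_and, and_false,
    exists_false, or_false, true_and, reduceCtorEq]
  constructor
  · rintro ⟨i, h1, h2, h3⟩
    omega
  · rintro ⟨h1, h2, h3⟩
    exact ⟨x - a.1, ⟨h1, h2⟩, by omega, by omega⟩

theorem Str_mem_t {a : ℤ × ℤ} {m : ℕ} (x y : ℤ) :
    ((true, x, y) : Edge) ∈ Str a m ↔ 0 ≤ x - a.1 - 1 ∧ x - a.1 - 1 < m ∧ x - a.1 = a.2 - y := by
  unfold Str
  simp only [Finset.mem_union, Finset.mem_image, Finset.mem_Ico, Prod.mk.injEq, Bool.false_eq_true, false_and, and_false,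
    exists_false, false_or, true_and, reduceCtorEq]
  constructor
  · rintro ⟨i, h1, h2, h3⟩
    omega
  · rintro ⟨h1, h2, h3⟩
    exact ⟨x - a.1 - 1, ⟨h1, h2⟩, by omega, by omega⟩

theorem Conn_empty' : Conn ∅ := by
  intro A hA hne _
  obtain ⟨x, hx⟩ := hne
  exact absurd (hA hx) (Finset.notMem_empty x)

theorem Conn_single' (e : Edge) : Conn {e} := by
  intro A hA hne hall
  exfalso
  apply hall
  obtain ⟨x, hx⟩ := hne
  apply Finset.Subset.antisymm hA
  rw [Finset.singleton_subset_iff]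
  have := hA hx
  rw [Finset.mem_singleton] at this
  rw [← this]
  exact hx

theorem Conn_insert' {G : Finset Edge} (hG : Conn G) {e : Edge} (h : G.Nonempty → ∃ f ∈ G, Tch e f) : Conn (insert e G) := by
  have : insert e G = {e} ∪ G := rfl
  rw [this]
  apply Conn_union_or (Conn_single' e) hG
  intro _ h2
  obtain ⟨f, hf, hef⟩ := h h2
  exact ⟨e, Finset.mem_singleton_self e, f, hf, hef⟩

theorem Vert_succ (p : ℤ × ℤ) (n : ℕ) :
    Vert p ((n + 1 : ℕ) : ℤ) = insert ((true, p.1 + n + 1, p.2 + n) : Edge) (insert ((false, p.1 + n, p.2 + n) : Edge) (Vert p n)) := by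
  ext ⟨b, x, y⟩
  cases b
  · rw [Finset.mem_insert, Finset.mem_insert, Vert_mem_pf (by omega), Vert_mem_pf (by omega)]
    simp only [Prod.mk.injEq, Bool.false_eq_true, false_and, false_or, true_and, reduceCtorEq]
    push_cast
    omega
  · rw [Finset.mem_insert, Finset.mem_insert, Vert_mem_pt (by omega), Vert_mem_pt (by omega)]
    simp only [Prod.mk.injEq, Bool.false_eq_true, false_and, false_or, true_and, reduceCtorEq]
    push_cast
    omega

theorem Vert_pred (p : ℤ × ℤ) (n : ℕ) :
    Vert p (-((n + 1 : ℕ) : ℤ)) = insert ((true, p.1 - n - 1, p.2 - n - 1) : Edge)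
      (insert ((false, p.1 - n - 1, p.2 - n) : Edge) (Vert p (-(n : ℤ)))) := by
  ext ⟨b, x, y⟩
  cases b
  · rw [Finset.mem_insert, Finset.mem_insert, Vert_mem_nf (by omega), Vert_mem_nf (by omega)]
    simp only [Prod.mk.injEq, Bool.false_eq_true, false_and, false_or, true_and, reduceCtorEq]
    push_cast
    omega
  · rw [Finset.mem_insert, Finset.mem_insert, Vert_mem_nt (by omega), Vert_mem_nt (by omega)]
    simp only [Prod.mk.injEq, Bool.false_eq_true, false_and, false_or, true_and, reduceCtorEq]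
    push_cast
    omega

theorem Str_succ (a : ℤ × ℤ) (n : ℕ) :
    Str a (n + 1) = insert ((true, a.1 + n + 1, a.2 - n - 1) : Edge) (insert ((false, a.1 + n, a.2 - n) : Edge) (Str a n)) := by
  ext ⟨b, x, y⟩
  cases b
  · rw [Finset.mem_insert, Finset.mem_insert, Str_mem_f, Str_mem_f]
    simp only [Prod.mk.injEq, Bool.false_eq_true, false_and, false_or, true_and, reduceCtorEq]
    push_cast
    omega
  · rw [Finset.mem_insert, Finset.mem_insert, Str_mem_t, Str_mem_t]
    simp only [Prod.mk.injEq, Bool.false_eq_true, false_and, false_or, true_and, reduceCtorEq]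
    push_cast
    omega

theorem Vert_zero (p : ℤ × ℤ) : Vert p 0 = ∅ := by
  unfold Vert
  simp

theorem Str_zero (a : ℤ × ℤ) : Str a 0 = ∅ := by
  unfold Str
  simp

theorem ends_f (x y : ℤ) : ends ((false, x, y) : Edge) = {(x, y), (x + 1, y)} := by
  unfold ends
  simp

theorem ends_t (x y : ℤ) : ends ((true, x, y) : Edge) = {(x, y), (x, y + 1)} := by
  unfold ends
  simp

theorem Tch_ft {x y x' y' : ℤ} (v : ℤ × ℤ) (h1 : v = (x, y) ∨ v = (x + 1, y)) (h2 : v = (x', y') ∨ v = (x', y' + 1)) :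
    Tch (false, x, y) (true, x', y') := by
  refine ⟨v, ?_, ?_⟩
  · rw [ends_f]
    simpa using h1
  · rw [ends_t]
    simpa using h2

theorem Tch_tf {x y x' y' : ℤ} (v : ℤ × ℤ) (h1 : v = (x, y) ∨ v = (x + 1, y)) (h2 : v = (x', y') ∨ v = (x', y' + 1)) :
    Tch (true, x', y') (false, x, y) := by
  refine ⟨v, ?_, ?_⟩
  · rw [ends_t]
    simpa using h2
  · rw [ends_f]
    simpa using h1

theorem Vert_conn_p (p : ℤ × ℤ) (n : ℕ) : Conn (Vert p n) := by
  induction n with
  | zero =>
    rw [Nat.cast_zero, Vert_zero]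
    exact Conn_empty'
  | succ n ih =>
    rw [Vert_succ]
    apply Conn_insert'
    · apply Conn_insert' ih
      intro hne
      have hn : n ≠ 0 := by
        rintro rfl
        rw [Nat.cast_zero, Vert_zero] at hne
        exact Finset.not_nonempty_empty hne
      refine ⟨(true, p.1 + n, p.2 + n - 1), ?_, ?_⟩
      · rw [Vert_mem_pt (by omega)]
        omega
      · apply Tch_ft (p.1 + n, p.2 + n) (Or.inl rfl)
        right
        simp
    · intro _
      refine ⟨_, Finset.mem_insert_self _ _, ?_⟩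
      exact Tch_tf (p.1 + n + 1, p.2 + n) (Or.inr rfl) (Or.inl rfl)

theorem Vert_conn_n (p : ℤ × ℤ) (n : ℕ) : Conn (Vert p (-(n : ℤ))) := by
  induction n with
  | zero =>
    rw [Nat.cast_zero, neg_zero, Vert_zero]
    exact Conn_empty'
  | succ n ih =>
    rw [Vert_pred]
    apply Conn_insert'
    · apply Conn_insert' ih
      intro hne
      have hn : n ≠ 0 := by
        rintro rfl
        rw [Nat.cast_zero, neg_zero, Vert_zero] at hne
        exact Finset.not_nonempty_empty hne
      refine ⟨(true, p.1 - n, p.2 - n), ?_, ?_⟩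
      · rw [Vert_mem_nt (by omega)]
        omega
      · apply Tch_ft (p.1 - n, p.2 - n) _ (Or.inl rfl)
        right
        simp
    · intro _
      refine ⟨_, Finset.mem_insert_self _ _, ?_⟩
      apply Tch_tf (p.1 - n - 1, p.2 - n) (Or.inl rfl)
      right
      simp

theorem Str_conn (a : ℤ × ℤ) (n : ℕ) : Conn (Str a n) := by
  induction n with
  | zero =>
    rw [Str_zero]
    exact Conn_empty'
  | succ n ih =>
    rw [Str_succ]
    apply Conn_insert'
    · apply Conn_insert' ih
      intro hne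
      have hn : n ≠ 0 := by
        rintro rfl
        rw [Str_zero] at hne
        exact Finset.not_nonempty_empty hne
      refine ⟨(true, a.1 + n, a.2 - n), ?_, ?_⟩
      · rw [Str_mem_t]
        omega
      · exact Tch_ft (a.1 + n, a.2 - n) (Or.inl rfl) (Or.inl rfl)
    · intro _
      refine ⟨_, Finset.mem_insert_self _ _, ?_⟩
      apply Tch_tf (a.1 + n + 1, a.2 - n) (Or.inr rfl)
      right
      simp

theorem Vert_isP (p : ℤ × ℤ) (d : ℤ) : IsP p (p.1 + d, p.2 + d) (Vert p d) := by
  refine ⟨?_, ?_, ?_⟩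
  · rcases le_total 0 d with h | h
    · obtain ⟨n, rfl⟩ := Int.eq_ofNat_of_zero_le h
      exact Vert_conn_p p n
    · obtain ⟨n, hn⟩ := Int.eq_ofNat_of_zero_le (neg_nonneg.2 h)
      have : d = -(n : ℤ) := by omega
      rw [this]
      exact Vert_conn_n p n
  · rintro ⟨z1, z2⟩
    obtain ⟨p1, p2⟩ := p
    unfold dfc ind Hr Hl Vu Vd
    rcases le_total 0 d with h | h
    · simp only [Vert_mem_pf h, Vert_mem_pt h, Prod.mk.injEq]
      split_ifs <;> omega
    · simp only [Vert_mem_nf h, Vert_mem_nt h, Prod.mk.injEq]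
      split_ifs <;> omega
  · intro h
    have h1 := congrArg Prod.fst h
    simp only at h1
    have : d = 0 := by omega
    rw [this]
    exact Vert_zero p

theorem Vert_card (p : ℤ × ℤ) (d : ℤ) : (Vert p d).card = 2 * d.natAbs := by
  have key1 : ∀ n : ℕ, (Vert p n).card = 2 * n := by
    intro n
    induction n with
    | zero =>
      rw [Nat.cast_zero, Vert_zero]
      rfl
    | succ n ih =>
      rw [Vert_succ, Finset.card_insert_of_notMem, Finset.card_insert_of_notMem, ih]
      · ring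
      · rw [Vert_mem_pf (by omega)]
        omega
      · rw [Finset.mem_insert, Vert_mem_pt (by omega)]
        simp only [Prod.mk.injEq, reduceCtorEq, false_and, false_or]
        omega
  have key2 : ∀ n : ℕ, (Vert p (-(n : ℤ))).card = 2 * n := by
    intro n
    induction n with
    | zero =>
      rw [Nat.cast_zero, neg_zero, Vert_zero]
      rfl
    | succ n ih =>
      rw [Vert_pred, Finset.card_insert_of_notMem, Finset.card_insert_of_notMem, ih]
      · ring
      · rw [Vert_mem_nf (by omega)]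
        omega
      · rw [Finset.mem_insert, Vert_mem_nt (by omega)]
        simp only [Prod.mk.injEq, reduceCtorEq, false_and, false_or]
        omega
  rcases le_total 0 d with h | h
  · obtain ⟨n, rfl⟩ := Int.eq_ofNat_of_zero_le h
    rw [key1, Int.natAbs_natCast]
  · obtain ⟨n, hn⟩ := Int.eq_ofNat_of_zero_le (neg_nonneg.2 h)
    have : d = -(n : ℤ) := by omega
    rw [this, key2, Int.natAbs_neg, Int.natAbs_natCast]

theorem Vert_us {p : ℤ × ℤ} {d : ℤ} {e : Edge} (h : e ∈ Vert p d) :
    (0 < d ∧ us e = uu p ∧ e ≠ Hr (p.1 + d, p.2 + d)) ∨ (d < 0 ∧ us e = uu p - 1 ∧ e ≠ Vu p) := by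
  obtain ⟨b, x, y⟩ := e
  obtain ⟨p1, p2⟩ := p
  rcases le_or_gt 0 d with hd | hd
  · left
    unfold us uu Hr
    cases b
    · rw [Vert_mem_pf hd] at h
      simp only [Bool.false_eq_true, if_false, ne_eq, Prod.mk.injEq, true_and] at h ⊢
      omega
    · rw [Vert_mem_pt hd] at h
      simp only [if_true, ne_eq, Prod.mk.injEq, reduceCtorEq, false_and, not_false_eq_true, and_true] at h ⊢
      omega
  · right
    unfold us uu Vu
    cases b
    · rw [Vert_mem_nf hd.le] at h
      simp only [Bool.false_eq_true, if_false, ne_eq, Prod.mk.injEq, false_and, not_false_eq_true, and_true, reduceCtorEq] at h ⊢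
      omega
    · rw [Vert_mem_nt hd.le] at h
      simp only [if_true, ne_eq, Prod.mk.injEq, true_and] at h ⊢
      omega

/-- The ends of the edges of a connector have levels between the two end levels. -/
theorem Vert_lvl {a p : ℤ × ℤ} {k l : ℤ} (hp : p = vt a k l) {d : ℤ} {e : Edge} (h : e ∈ Vert p d) {z : ℤ × ℤ} (hz : z ∈ ends e) :
    min l (l + d) - 1 ≤ lvl a z ∧ lvl a z ≤ max l (l + d) + 1 := by
  obtain ⟨b, x, y⟩ := e
  obtain ⟨p1, p2⟩ := p
  obtain ⟨z1, z2⟩ := z
  unfold vt at hp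
  unfold lvl uu vv
  simp only [Prod.mk.injEq] at hp
  rcases le_or_gt 0 d with hd | hd
  · cases b
    · rw [Vert_mem_pf hd] at h
      rw [ends_f] at hz
      simp only [Finset.mem_insert, Finset.mem_singleton, Prod.mk.injEq] at hz h ⊢
      omega
    · rw [Vert_mem_pt hd] at h
      rw [ends_t] at hz
      simp only [Finset.mem_insert, Finset.mem_singleton, Prod.mk.injEq] at hz h ⊢
      omega
  · cases b
    · rw [Vert_mem_nf hd.le] at h
      rw [ends_f] at hz
      simp only [Finset.mem_insert, Finset.mem_singleton, Prod.mk.injEq] at hz h ⊢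
      omega
    · rw [Vert_mem_nt hd.le] at h
      rw [ends_t] at hz
      simp only [Finset.mem_insert, Finset.mem_singleton, Prod.mk.injEq] at hz h ⊢
      omega

theorem Str_isP (a : ℤ × ℤ) (m : ℕ) : IsP a (a.1 + m, a.2 - m) (Str a m) := by
  refine ⟨Str_conn a m, ?_, ?_⟩
  · rintro ⟨z1, z2⟩
    obtain ⟨a1, a2⟩ := a
    unfold dfc ind Hr Hl Vu Vd
    simp only [Str_mem_f, Str_mem_t, Prod.mk.injEq]
    split_ifs <;> omega
  · intro h
    have h1 := congrArg Prod.fst h
    simp only at h1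
    have : m = 0 := by omega
    rw [this]
    exact Str_zero a

theorem Str_card (a : ℤ × ℤ) (m : ℕ) : (Str a m).card = 2 * m := by
  induction m with
  | zero =>
    rw [Str_zero]
    rfl
  | succ n ih =>
    rw [Str_succ, Finset.card_insert_of_notMem, Finset.card_insert_of_notMem, ih]
    · ring
    · rw [Str_mem_f]
      omega
    · rw [Finset.mem_insert, Str_mem_t]
      simp only [Prod.mk.injEq, reduceCtorEq, false_and, false_or]
      omega

theorem Str_kl {a : ℤ × ℤ} {m : ℕ} {e : Edge} (h : e ∈ Str a m) : 0 ≤ kl (uu a) e ∧ kl (uu a) e < m ∧ ¬ Wr (uu a) e := by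
  obtain ⟨b, x, y⟩ := e
  obtain ⟨a1, a2⟩ := a
  unfold kl Wr us uu
  cases b
  · rw [Str_mem_f] at h
    simp only [Bool.false_eq_true, if_false, false_and, false_or, true_and] at h ⊢
    omega
  · rw [Str_mem_t] at h
    simp only [if_true, true_and, false_and, or_false, reduceCtorEq] at h ⊢
    omega

theorem Str_lvl {a : ℤ × ℤ} {m : ℕ} {e : Edge} (h : e ∈ Str a m) {z : ℤ × ℤ} (hz : z ∈ ends e) : lvl a z = 0 := by
  obtain ⟨b, x, y⟩ := e
  obtain ⟨z1, z2⟩ := z
  unfold lvl uu vv
  cases b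
  · rw [Str_mem_f] at h
    rw [ends_f] at hz
    simp only [Finset.mem_insert, Finset.mem_singleton, Prod.mk.injEq] at hz h ⊢
    omega
  · rw [Str_mem_t] at h
    rw [ends_t] at hz
    simp only [Finset.mem_insert, Finset.mem_singleton, Prod.mk.injEq] at hz h ⊢
    omega

theorem Str_first {a : ℤ × ℤ} {m : ℕ} {e : Edge} (h : e ∈ Str a m) (hu : us e = uu a) : e = Hr a := by
  obtain ⟨b, x, y⟩ := e
  obtain ⟨a1, a2⟩ := a
  unfold us uu at hu
  unfold Hr
  cases b
  · rw [Str_mem_f] at h
    simp only [Bool.false_eq_true, if_false, Prod.mk.injEq, true_and] at h hu ⊢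
    omega
  · rw [Str_mem_t] at h
    simp only [if_true, Prod.mk.injEq, false_and, reduceCtorEq] at h hu ⊢
    omega

theorem Str_last {a : ℤ × ℤ} {m : ℕ} {e : Edge} (h : e ∈ Str a m) (hu : us e = uu a + 2 * m - 1) : e = Vu (a.1 + m, a.2 - m) := by
  obtain ⟨b, x, y⟩ := e
  obtain ⟨a1, a2⟩ := a
  unfold us uu at hu
  unfold Vu
  cases b
  · rw [Str_mem_f] at h
    simp only [Bool.false_eq_true, if_false, Prod.mk.injEq, false_and, reduceCtorEq] at h hu ⊢
    omega
  · rw [Str_mem_t] at h
    simp only [if_true, Prod.mk.injEq, true_and] at h hu ⊢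
    omega

end

end Pool.Agent.H40.WM
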