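import Mathlib
import Pool.Agent.H40.WM.GVal
import Pool.Agent.H40.WM.IVer

/-!
# GEdg: the staircase, the frozen part and the free edges

Edges of `Str (ga) (gn0)`: `(false, a.1+i, a.2-i)` lies between the faces `(a.1+i, a.2-i-1)` (sum `c`, in `gA`) and `(a.1+i, a.2-i)` (sum `c+1`, not in `gA`); `(true, a.1+i+1, a.2-i-1)` lies between `(a.1+i, a.2-i-1)` and `(a.1+i+1, a.2-i-1)`; `0 ≤ i < gn0`, `a = ga n c`.
`mem_Str` gives membership as linear arithmetic; everything else is unfolding and `omega` (with the case distinction in `gal = max 1 (c - n + 2)`).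
* `str_gS`, `str_gD`: each staircase edge is `Hr a`, or `Vu b`, or has an unknown face.
* `gP_gD`: an edge whose two faces differ with respect to `gA` and which is not in the staircase has both faces known, and it is not `Hr a`, `Vu b` (these are in the staircase).
-/

set_option autoImplicit false

namespace Pool.Agent.H40.WM

open Pool.Agent.H40.SQ

noncomputable section

theorem mem_Str {a : ℤ × ℤ} {m : ℕ} {e : Edge} :
    e ∈ Str a m ↔ (e.1 = false ∧ a.1 ≤ e.2.1 ∧ e.2.1 < a.1 + m ∧ e.2.1 + e.2.2 = a.1 + a.2) ∨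
      (e.1 = true ∧ a.1 + 1 ≤ e.2.1 ∧ e.2.1 < a.1 + 1 + m ∧ e.2.1 + e.2.2 = a.1 + a.2) := by
  obtain ⟨b, x, y⟩ := e
  cases b
  · rw [Str_mem_f]
    simp only [true_and, reduceCtorEq, false_and, or_false]
    omega
  · rw [Str_mem_t]
    simp only [true_and, reduceCtorEq, false_and, false_or]
    omega

theorem gn0_pos {n : ℕ} {s c : ℤ} (h : Par n s c) : 1 ≤ gn0 n c ∧ (gn0 n c : ℤ) = c + 1 - 2 * gal n c := by
  obtain ⟨h1, h2, h3, _⟩ := h
  unfold gn0 gal
  omega

theorem gb_eq {n : ℕ} {s c : ℤ} (h : Par n s c) : gb n c = ((ga n c).1 + gn0 n c, (ga n c).2 - gn0 n c) := by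
  have h1 := (gn0_pos h).2
  unfold gb ga
  rw [h1]
  simp only [Prod.mk.injEq]
  constructor <;> ring

theorem str_gS {n : ℕ} {s c : ℤ} (h : Par n s c) : Str (ga n c) (gn0 n c) ⊆ gS n s c := by
  intro e he
  have h1 := (gn0_pos h).2
  rw [mem_gS h]
  obtain ⟨hn, lo, hi, _⟩ := h
  rw [mem_Str, h1] at he
  obtain ⟨b, x, y⟩ := e
  unfold ga gal at he
  unfold gA gR0 gT gBox
  cases b
  · rw [mem_E_false]
    simp only [true_and, reduceCtorEq, false_and, or_false, if_false] at he ⊢
    omega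
  · rw [mem_E_true]
    simp only [true_and, reduceCtorEq, false_and, false_or, if_true] at he ⊢
    omega

theorem str_gD {n : ℕ} {s c : ℤ} (h : Par n s c) : Str (ga n c) (gn0 n c) ⊆ gD n c := by
  intro e he
  have h1 := (gn0_pos h).2
  have h2 : e ∈ E n := ((mem_gS h e).1 (str_gS h he)).1
  classical
  unfold gD
  rw [Finset.mem_union, Finset.mem_filter, Finset.mem_insert, Finset.mem_singleton]
  by_cases h3 : gFx n c e
  · right
    obtain ⟨hn, lo, hi, _⟩ := h
    rw [mem_Str, h1] at he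
    obtain ⟨b, x, y⟩ := e
    unfold gFx gK gV gR1 gR0 gBox at h3
    unfold Hr Vu gb
    unfold ga gal at he ⊢
    cases b
    · left
      simp only [true_and, reduceCtorEq, false_and, or_false, if_false, Prod.mk.injEq] at he h3 ⊢
      omega
    · right
      simp only [true_and, reduceCtorEq, false_and, false_or, if_true, Prod.mk.injEq] at he h3 ⊢
      omega
  · exact Or.inl ⟨h2, h3⟩

private theorem Hr_mem {n : ℕ} {s c : ℤ} (h : Par n s c) : Hr (ga n c) ∈ Str (ga n c) (gn0 n c) := by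
  have h1 := (gn0_pos h)
  rw [mem_Str]
  left
  refine ⟨rfl, le_refl _, ?_, rfl⟩
  change (ga n c).1 < (ga n c).1 + gn0 n c
  omega

private theorem Vu_mem {n : ℕ} {s c : ℤ} (h : Par n s c) : Vu (gb n c) ∈ Str (ga n c) (gn0 n c) := by
  have h1 := (gn0_pos h)
  have h2 := gb_eq h
  rw [mem_Str]
  right
  rw [h2]
  refine ⟨rfl, ?_, ?_, ?_⟩
  · change (ga n c).1 + 1 ≤ (ga n c).1 + gn0 n c
    omega
  · change (ga n c).1 + gn0 n c < (ga n c).1 + 1 + gn0 n c
    omega
  · change (ga n c).1 + gn0 n c + ((ga n c).2 - gn0 n c) = (ga n c).1 + (ga n c).2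
    omega

theorem gD_E {n : ℕ} {s c : ℤ} (h : Par n s c) : gD n c ⊆ E n := by
  intro e he
  classical
  unfold gD at he
  rw [Finset.mem_union, Finset.mem_filter, Finset.mem_insert, Finset.mem_singleton] at he
  rcases he with he | rfl | rfl
  · exact he.1
  · exact ((mem_gS h _).1 (str_gS h (Hr_mem h))).1
  · exact ((mem_gS h _).1 (str_gS h (Vu_mem h))).1

theorem gP_E {n : ℕ} {s c : ℤ} (h : Par n s c) : gP n s c ⊆ E n := by
  intro e he
  unfold gP at he
  exact ((mem_gS h _).1 (Finset.mem_sdiff.1 he).1).1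

theorem gP_fx {n : ℕ} {s c : ℤ} (h : Par n s c) {e : Edge} (he : e ∈ gP n s c) : gFx n c e := by
  unfold gP at he
  obtain ⟨he1, he2⟩ := Finset.mem_sdiff.1 he
  have h1 := (gn0_pos h).2
  rw [mem_gS h] at he1
  obtain ⟨hE, hA⟩ := he1
  obtain ⟨hn, lo, hi, _⟩ := h
  rw [mem_Str, h1] at he2
  obtain ⟨b, x, y⟩ := e
  unfold ga gal at he2
  unfold gA gR0 gT gBox at hA
  unfold gFx gK gV gR1 gR0 gBox
  cases b
  · rw [mem_E_false] at hE
    simp only [true_and, reduceCtorEq, false_and, or_false, if_false] at he2 hA hE ⊢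
    omega
  · rw [mem_E_true] at hE
    simp only [true_and, reduceCtorEq, false_and, false_or, if_true] at he2 hA hE ⊢
    omega

theorem gP_gD {n : ℕ} {s c : ℤ} (h : Par n s c) : Disjoint (gP n s c) (gD n c) := by
  rw [Finset.disjoint_left]
  intro e he hD
  have h1 := gP_fx h he
  classical
  unfold gD at hD
  rw [Finset.mem_union, Finset.mem_filter, Finset.mem_insert, Finset.mem_singleton] at hD
  unfold gP at he
  have h2 := (Finset.mem_sdiff.1 he).2
  rcases hD with hD | rfl | rfl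
  · exact hD.2 h1
  · exact h2 (Hr_mem h)
  · exact h2 (Vu_mem h)

theorem gP_dfc {n : ℕ} {s c : ℤ} (h : Par n s c) (z : ℤ × ℤ) :
    dfc (gP n s c) z = (if z = gb n c then 1 else 0) - (if z = ga n c then 1 else 0) := by
  have hS : ∀ e : Edge, ind (gP n s c) e = ind (gS n s c) e - ind (Str (ga n c) (gn0 n c)) e := by
    intro e
    unfold ind gP
    by_cases h1 : e ∈ Str (ga n c) (gn0 n c)
    · rw [if_neg (fun h2 => (Finset.mem_sdiff.1 h2).2 h1), if_pos (str_gS h h1), if_pos h1]
      rfl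
    · rw [if_neg h1, sub_zero]
      by_cases h2 : e ∈ gS n s c
      · rw [if_pos (Finset.mem_sdiff.2 ⟨h2, h1⟩), if_pos h2]
      · rw [if_neg (fun h3 => h2 (Finset.mem_sdiff.1 h3).1), if_neg h2]
  have h0 : dfc (gS n s c) z = 0 := by
    have h1 := (mem_Om.1 (gS_mem h)).2 z.1 z.2
    unfold dfc Hr Hl Vu Vd
    linarith
  have h2 : dfc (gP n s c) z = dfc (gS n s c) z - dfc (Str (ga n c) (gn0 n c)) z := by
    unfold dfc
    simp only [hS]
    ring
  rw [h2, h0, (Str_isP (ga n c) (gn0 n c)).def' z, ← gb_eq h]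
  ring

end

end Pool.Agent.H40.WM
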