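import Mathlib
import Pool.Agent.H40.WM.GEdg

/-!
# GCnt: neighbouring values of `c`

Let `W = {(t,i,j) : t ∈ Bool, (i ∈ [-1,2] ∪ [n-3,n+1] or j ∈ [-1,2] ∪ [n-3,n+1]), c - 5 ≤ i + j ≤ c + 4}`: at most `2 * 2 * 9 * 10 = 360` edges (for each `t` and each of the 9 values of `i` there are at most 10 values of `j`, and vice versa).
* an edge of `gD (c-2)` not in `gD c` is `Hr`/`Vu` of the end points for `c - 2`, or has a face in `gV c` not in `gV (c-2)`: it is in `W`.
* an edge of `gP c` not in `gP (c-2)` is in `W` (its faces are known for `c`, differ with respect to `gA c`; if `i + j ≤ c - 5` the same holds for `c - 2`).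
All by `omega`.
-/

set_option autoImplicit false

namespace Pool.Agent.H40.WM

open Pool.Agent.H40.SQ

noncomputable section

/-- The exceptional edges. -/
private def WW (n : ℕ) (c : ℤ) : Finset Edge :=
  ((Finset.univ : Finset Bool) ×ˢ ((Finset.Icc (-1 : ℤ) 2 ∪ Finset.Icc ((n : ℤ) - 3) (n + 1)) ×ˢ Finset.Icc (c - 5) (c + 4))).image
      (fun p => ((p.1, p.2.1, p.2.2 - p.2.1) : Edge)) ∪
    ((Finset.univ : Finset Bool) ×ˢ ((Finset.Icc (-1 : ℤ) 2 ∪ Finset.Icc ((n : ℤ) - 3) (n + 1)) ×ˢ Finset.Icc (c - 5) (c + 4))).image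
      (fun p => ((p.1, p.2.2 - p.2.1, p.2.1) : Edge))

private theorem WW_card (n : ℕ) (c : ℤ) : (WW n c).card ≤ 360 := by
  have h1 : ((Finset.univ : Finset Bool) ×ˢ ((Finset.Icc (-1 : ℤ) 2 ∪ Finset.Icc ((n : ℤ) - 3) (n + 1)) ×ˢ
      Finset.Icc (c - 5) (c + 4))).card ≤ 180 := by
    rw [Finset.card_product, Finset.card_product, Finset.card_univ, Fintype.card_bool, Int.card_Icc]
    have h2 : (Finset.Icc (-1 : ℤ) 2 ∪ Finset.Icc ((n : ℤ) - 3) (n + 1)).card ≤ 9 := by
      refine (Finset.card_union_le _ _).trans ?_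
      rw [Int.card_Icc, Int.card_Icc]
      omega
    have h3 : (c + 4 + 1 - (c - 5)).toNat = 10 := by
      have : c + 4 + 1 - (c - 5) = 10 := by ring
      rw [this]
      rfl
    rw [h3]
    omega
  unfold WW
  refine (Finset.card_union_le _ _).trans ?_
  exact (add_le_add (Finset.card_image_le.trans h1) (Finset.card_image_le.trans h1)).trans (by norm_num)

private theorem WW_mem {n : ℕ} {c : ℤ} {t : Bool} {i j : ℤ}
    (h : (-1 ≤ i ∧ i ≤ 2) ∨ ((n : ℤ) - 3 ≤ i ∧ i ≤ n + 1) ∨ (-1 ≤ j ∧ j ≤ 2) ∨ ((n : ℤ) - 3 ≤ j ∧ j ≤ n + 1))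
    (h1 : c - 5 ≤ i + j) (h2 : i + j ≤ c + 4) : (t, i, j) ∈ WW n c := by
  unfold WW
  rw [Finset.mem_union, Finset.mem_image, Finset.mem_image]
  by_cases hi : (-1 ≤ i ∧ i ≤ 2) ∨ ((n : ℤ) - 3 ≤ i ∧ i ≤ n + 1)
  · left
    refine ⟨(t, i, i + j), ?_, ?_⟩
    · simp only [Finset.mem_product, Finset.mem_univ, Finset.mem_union, Finset.mem_Icc, true_and]
      omega
    · simp only [Prod.mk.injEq, true_and]
      ring
  · right
    refine ⟨(t, j, i + j), ?_, ?_⟩
    · simp only [Finset.mem_product, Finset.mem_univ, Finset.mem_union, Finset.mem_Icc, true_and]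
      omega
    · simp only [Prod.mk.injEq, true_and, and_true]
      ring

private theorem gc_D {n : ℕ} {c : ℤ} {e : Edge} (he : e ∈ gD n c) :
    (e ∈ E n ∧ ¬ gFx n c e) ∨ e = Hr (ga n c) ∨ e = Vu (gb n c) := by
  unfold gD at he
  simp only [Finset.mem_union, Finset.mem_filter, Finset.mem_insert, Finset.mem_singleton] at he
  tauto

private theorem gc_D' {n : ℕ} {c : ℤ} {e : Edge} (he : e ∉ gD n c) (hE : e ∈ E n) : gFx n c e := by
  by_contra hcon
  apply he
  unfold gD
  simp only [Finset.mem_union, Finset.mem_filter]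
  exact Or.inl ⟨hE, hcon⟩

/-- a face which is known for `c` but not for `c - 2` -/
private theorem gc_face {n : ℕ} {c i j : ℤ} (hn : 5 ≤ n) (h1 : gK n c i j) (h2 : ¬ gK n (c - 2) i j) :
    (((0 ≤ i ∧ i ≤ 1) ∨ ((n : ℤ) - 2 ≤ i ∧ i ≤ n - 1)) ∨ ((0 ≤ j ∧ j ≤ 1) ∨ ((n : ℤ) - 2 ≤ j ∧ j ≤ n - 1))) ∧
      c - 2 ≤ i + j ∧ i + j ≤ c + 1 := by
  unfold gK gV at h1 h2
  unfold gR1 gR0 gBox at *
  omega

theorem cnt_D {n : ℕ} {s c : ℤ} (h : Par n s c) (h' : Par n s (c - 2)) : (gD n (c - 2) \ gD n c).card ≤ 400 := by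
  have hn := h.hn
  refine (Finset.card_le_card ?_).trans ((WW_card n c).trans (by norm_num))
  intro e he
  rw [Finset.mem_sdiff] at he
  obtain ⟨he1, he2⟩ := he
  have hE : e ∈ E n := gD_E h' he1
  have hf := gc_D' he2 hE
  rcases gc_D he1 with ⟨-, hg⟩ | rfl | rfl
  · obtain ⟨t, i, j⟩ := e
    unfold gFx at hf hg
    cases t
    · simp only [Bool.false_eq_true, if_false] at hf hg
      rcases not_and_or.1 hg with hg | hg
      · have := gc_face hn hf.1 hg
        exact WW_mem (by omega) (by omega) (by omega)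
      · have := gc_face hn hf.2 hg
        exact WW_mem (by omega) (by omega) (by omega)
    · simp only [if_true] at hf hg
      rcases not_and_or.1 hg with hg | hg
      · have := gc_face hn hf.1 hg
        exact WW_mem (by omega) (by omega) (by omega)
      · have := gc_face hn hf.2 hg
        exact WW_mem (by omega) (by omega) (by omega)
  · unfold Hr ga gal
    simp only
    exact WW_mem (by omega) (by omega) (by omega)
  · unfold Vu gb gal
    simp only
    exact WW_mem (by omega) (by omega) (by omega)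

private theorem gc_A {n : ℕ} {c i j : ℤ} (h1 : gA n c i j) (h2 : ¬ gA n (c - 2) i j) : c - 3 ≤ i + j ∧ i + j ≤ c := by
  unfold gA gT at h1 h2
  unfold gR0 gBox at *
  omega

private theorem gc_Am {n : ℕ} {c i j : ℤ} (h1 : gA n (c - 2) i j) : gA n c i j := by
  unfold gA gT at *
  unfold gR0 gBox at *
  omega

/-- known faces -/
private theorem gc_K {n : ℕ} {c i j : ℤ} (hn : 5 ≤ n) (h1 : gK n c i j) (hi : -1 ≤ i) (hj : -1 ≤ j) (hi' : i ≤ n) (hj' : j ≤ n) :
    ((-1 ≤ i ∧ i ≤ 1) ∨ ((n : ℤ) - 2 ≤ i ∧ i ≤ n)) ∨ ((-1 ≤ j ∧ j ≤ 1) ∨ ((n : ℤ) - 2 ≤ j ∧ j ≤ n)) := by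
  unfold gK gV at h1
  unfold gR1 gR0 gBox at *
  omega

private theorem gc_E {n : ℕ} {e : Edge} (he : e ∈ E n) : 0 ≤ e.2.1 ∧ e.2.1 ≤ n ∧ 0 ≤ e.2.2 ∧ e.2.2 ≤ n := by
  obtain ⟨t, i, j⟩ := e
  cases t
  · have := mem_E_false.1 he
    simp only
    omega
  · have := mem_E_true.1 he
    simp only
    omega

/-- an edge whose faces are known for `c` and whose sum is near `c` is exceptional -/
private theorem gc_W {n : ℕ} {c : ℤ} (hn : 5 ≤ n) {e : Edge} (hE : e ∈ E n) (hf : gFx n c e) (h1 : c - 5 ≤ e.2.1 + e.2.2)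
    (h2 : e.2.1 + e.2.2 ≤ c + 4) : e ∈ WW n c := by
  have hb := gc_E hE
  obtain ⟨t, i, j⟩ := e
  simp only at hb h1 h2
  have := gc_K hn hf.1 (by simp only; omega) (by simp only; omega) (by simp only; omega) (by simp only; omega)
  simp only at this
  exact WW_mem (by omega) h1 h2

theorem cnt_P {n : ℕ} {s c : ℤ} (h : Par n s c) (h' : Par n s (c - 2)) : (gP n s c).card ≤ (gP n s (c - 2)).card + 400 := by
  have hn := h.hn
  have hsub : gP n s c ⊆ gP n s (c - 2) ∪ WW n c := by
    intro e he
    rw [Finset.mem_union]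
    by_cases hP : e ∈ gP n s (c - 2)
    · exact Or.inl hP
    right
    have hE := gP_E h he
    have hf := gP_fx h he
    have hS : e ∈ gS n s c := (Finset.mem_sdiff.1 he).1
    have hd := ((mem_gS h e).1 hS).2
    by_cases hS' : e ∈ gS n s (c - 2)
    · have hstr : e ∈ Str (ga n (c - 2)) (gn0 n (c - 2)) := by
        by_contra hcon
        exact hP (Finset.mem_sdiff.2 ⟨hS', hcon⟩)
      rw [mem_Str] at hstr
      simp only [ga] at hstr
      exact gc_W hn hE hf (by omega) (by omega)
    · have hd' : gA n (c - 2) e.2.1 e.2.2 ↔ (if e.1 = true then gA n (c - 2) (e.2.1 - 1) e.2.2 else gA n (c - 2) e.2.1 (e.2.2 - 1)) := by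
        by_contra hcon
        exact hS' ((mem_gS h' e).2 ⟨hE, hcon⟩)
      obtain ⟨t, i, j⟩ := e
      have key : ∀ k l : ℤ, (k + l = i + j ∨ k + l = i + j - 1) → gA n c k l → ¬ gA n (c - 2) k l →
          (t, i, j) ∈ WW n c := by
        intro k l hkl a1 a2
        have := gc_A a1 a2
        refine gc_W hn hE hf ?_ ?_ <;> simp only <;> omega
      cases t
      · simp only [Bool.false_eq_true, if_false] at hd hd'
        by_cases a1 : gA n c i j
        · have a2 : ¬ gA n c i (j - 1) := fun a2 => hd (iff_of_true a1 a2)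
          exact key i j (Or.inl rfl) a1 fun a3 => a2 (gc_Am (hd'.1 a3))
        · have a2 : gA n c i (j - 1) := by
            by_contra a2
            exact hd (iff_of_false a1 a2)
          exact key i (j - 1) (Or.inr (by ring)) a2 fun a3 => a1 (gc_Am (hd'.2 a3))
      · simp only [if_true] at hd hd'
        by_cases a1 : gA n c i j
        · have a2 : ¬ gA n c (i - 1) j := fun a2 => hd (iff_of_true a1 a2)
          exact key i j (Or.inl rfl) a1 fun a3 => a2 (gc_Am (hd'.1 a3))
        · have a2 : gA n c (i - 1) j := by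
            by_contra a2
            exact hd (iff_of_false a1 a2)
          exact key (i - 1) j (Or.inr (by ring)) a2 fun a3 => a1 (gc_Am (hd'.2 a3))
  exact (Finset.card_le_card hsub).trans ((Finset.card_union_le _ _).trans
    (Nat.add_le_add_left ((WW_card n c).trans (by norm_num)) _))

private theorem gc_A3 {n : ℕ} {c i j : ℤ} (h1 : gA n c i j) : i + j ≤ c := by
  unfold gA at h1
  omega

/-- The smallest `c`: almost all edges are free, the ground state is small. -/
theorem cnt_min {n : ℕ} {s c : ℤ} (h : Par n s c) (hc : c ≤ 3) : (E n \ gD n c).card ≤ 400 ∧ (gS n s c).card ≤ 400 := by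
  have hn := h.hn
  have hlo := h.lo
  constructor
  · refine (Finset.card_le_card ?_).trans ((WW_card n c).trans (by norm_num))
    intro e he
    rw [Finset.mem_sdiff] at he
    obtain ⟨hE, he2⟩ := he
    have hf := gc_D' he2 hE
    obtain ⟨t, i, j⟩ := e
    unfold gFx gK gV at hf
    cases t
    · have hb := mem_E_false.1 hE
      simp only [Bool.false_eq_true, if_false] at hf
      have key : i + j ≤ 4 := by
        unfold gR1 gR0 gBox at hf
        omega
      exact WW_mem (by omega) (by omega) (by omega)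
    · have hb := mem_E_true.1 hE
      simp only [if_true] at hf
      have key : i + j ≤ 4 := by
        unfold gR1 gR0 gBox at hf
        omega
      exact WW_mem (by omega) (by omega) (by omega)
  · refine (Finset.card_le_card ?_).trans ((WW_card n c).trans (by norm_num))
    intro e he
    obtain ⟨hE, hd⟩ := (mem_gS h e).1 he
    have hb := gc_E hE
    obtain ⟨t, i, j⟩ := e
    simp only at hb
    cases t
    · simp only [Bool.false_eq_true, if_false] at hd
      by_cases a1 : gA n c i j
      · have := gc_A3 a1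
        exact WW_mem (by omega) (by omega) (by omega)
      · have a2 : gA n c i (j - 1) := by
          by_contra a2
          exact hd (iff_of_false a1 a2)
        have := gc_A3 a2
        exact WW_mem (by omega) (by omega) (by omega)
    · simp only [if_true] at hd
      by_cases a1 : gA n c i j
      · have := gc_A3 a1
        exact WW_mem (by omega) (by omega) (by omega)
      · have a2 : gA n c (i - 1) j := by
          by_contra a2
          exact hd (iff_of_false a1 a2)
        have := gc_A3 a2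
        exact WW_mem (by omega) (by omega) (by omega)

end

end Pool.Agent.H40.WM
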