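import Mathlib
import Pool.Agent.H40.WM.IDfc

/-!
# ICnt: counting the edges slice by slice

For a slice `s` let `c s` = number of horizontal minus number of vertical edges of `G` in the slice `s` (`us e = s`).  Every edge of the slice `s` has exactly one end on the line `s` and one on
the line `s+1`, and `Hr z, Vd z` are in the slice `uu z`, `Hl z, Vu z` in the slice `uu z - 1`; so `∑_{z : uu z = s} dfc G z = c (s-1) + c s` (a finite sum: over the ends of the edges of `G`).  Hence
`c (s-1) + c s = [s = uu a] - [s = uu b]`.  `c s = 0` for `s` very negative.  Induction on `s` upwards: `c s = 0` for `s < uu a`, then `c (uu a + j) = (-1)^j` for `0 ≤ j < 2m`,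
and `0` again for `j ≥ 2m` (`uu b = uu a + 2m`; also for `m = 0`).
`mk_eq`: in the double slice `k` (slices `uu a + 2k`, `uu a + 2k + 1`): in the even slice the wrong edges are the vertical ones, `H + V = (H - V) + 2V`; in the odd slice the horizontal ones.
`part_card`: sum over `k ∈ Ico x y`.  `card_eq`: all `k` (finite support).
-/

set_option autoImplicit false

namespace Pool.Agent.H40.WM

open Pool.Agent.H40.SQ

noncomputable section

private theorem exists_bd (G : Finset Edge) (f : Edge → ℤ) : ∃ N : ℤ, 0 ≤ N ∧ ∀ e ∈ G, |f e| ≤ N := by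
  refine ⟨∑ e ∈ G, |f e|, Finset.sum_nonneg fun e _ => abs_nonneg _, fun e he => ?_⟩
  exact Finset.single_le_sum (f := fun e => |f e|) (fun e _ => abs_nonneg _) he

/-- Edges of one direction on a diagonal. -/
private theorem cnt_line (G : Finset Edge) (N : ℤ) (hN : ∀ e ∈ G, |e.2.1| + 1 ≤ N) (b : Bool)
    (δ t : ℤ) (hδ : |δ| ≤ 1) :
    ∑ x ∈ Finset.Icc (-N) N, ind G (b, x + δ, x + δ - t) =
      ((G.filter (fun e => e.1 = b ∧ e.2.1 - e.2.2 = t)).card : ℤ) := by
  unfold ind
  rw [Finset.sum_boole]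
  congr 1
  refine Finset.card_bij (fun x _ => (b, x + δ, x + δ - t)) ?_ ?_ ?_
  · intro x hx
    rw [Finset.mem_filter] at hx ⊢
    refine ⟨hx.2, rfl, ?_⟩
    show x + δ - (x + δ - t) = t
    ring
  · intro x _ y _ hxy
    simp only [Prod.mk.injEq] at hxy
    omega
  · rintro ⟨b', x, y⟩ he
    rw [Finset.mem_filter] at he
    obtain ⟨h1, h2, h3⟩ := he
    dsimp only at h2 h3
    have h4 := hN _ h1
    dsimp only at h4
    rw [abs_le] at hδ
    have h5 := abs_le.1 (show |x| ≤ N - 1 by omega)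
    have e : (b, x - δ + δ, x - δ + δ - t) = ((b', x, y) : Edge) := by
      rw [h2, sub_add_cancel]
      congr 2
      omega
    refine ⟨x - δ, ?_, e⟩
    rw [Finset.mem_filter, Finset.mem_Icc, e]
    exact ⟨by omega, h1⟩

private theorem line_pt (a : ℤ × ℤ) (N : ℤ) (hN : |a.1| ≤ N) (s : ℤ) :
    ∑ x ∈ Finset.Icc (-N) N, (if ((x, x - s) : ℤ × ℤ) = a then (1 : ℤ) else 0) =
      if s = uu a then 1 else 0 := by
  have h1 : ∀ x ∈ Finset.Icc (-N) N, (if ((x, x - s) : ℤ × ℤ) = a then (1 : ℤ) else 0) =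
      if x = a.1 then (if s = uu a then 1 else 0) else 0 := by
    intro x _
    obtain ⟨a1, a2⟩ := a
    unfold uu
    dsimp only
    by_cases hx : x = a1
    · subst hx
      rw [if_pos rfl]
      by_cases hs : s = x - a2
      · rw [if_pos hs, if_pos]
        rw [hs]
        exact Prod.ext rfl (by show x - (x - a2) = a2; ring)
      · rw [if_neg hs, if_neg]
        intro he
        have := congrArg Prod.snd he
        dsimp only at this
        omega
    · rw [if_neg hx, if_neg]
      intro he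
      exact hx (congrArg Prod.fst he)
  rw [Finset.sum_congr rfl h1, Finset.sum_ite_eq', if_pos]
  rw [Finset.mem_Icc]
  exact abs_le.1 hN

/-- Horizontal minus vertical edges in a slice. -/
private def cs (G : Finset Edge) (s : ℤ) : ℤ :=
  ((G.filter (fun e => e.1 = false ∧ us e = s)).card : ℤ) -
      ((G.filter (fun e => e.1 = true ∧ us e = s)).card : ℤ)

private theorem filt_h (G : Finset Edge) (s : ℤ) :
    G.filter (fun e => e.1 = false ∧ us e = s) = G.filter (fun e => e.1 = false ∧ e.2.1 - e.2.2 = s) := by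
  refine Finset.filter_congr fun e _ => ?_
  unfold us
  constructor
  · rintro ⟨h1, h2⟩
    rw [h1] at h2
    simp only [Bool.false_eq_true, if_false] at h2
    exact ⟨h1, by omega⟩
  · rintro ⟨h1, h2⟩
    refine ⟨h1, ?_⟩
    rw [h1]
    simp only [Bool.false_eq_true, if_false]
    omega

private theorem filt_v (G : Finset Edge) (s : ℤ) :
    G.filter (fun e => e.1 = true ∧ us e = s) =
      G.filter (fun e => e.1 = true ∧ e.2.1 - e.2.2 = s + 1) := by
  refine Finset.filter_congr fun e _ => ?_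
  unfold us
  constructor
  · rintro ⟨h1, h2⟩
    rw [h1] at h2
    simp only [if_true] at h2
    exact ⟨h1, by omega⟩
  · rintro ⟨h1, h2⟩
    refine ⟨h1, ?_⟩
    rw [h1]
    simp only [if_true]
    omega

private theorem cs_rec {a b : ℤ × ℤ} {G : Finset Edge} (h : IsP a b G) (s : ℤ) :
    cs G (s - 1) + cs G s = (if s = uu a then 1 else 0) - (if s = uu b then 1 else 0) := by
  obtain ⟨N0, hN0, hN1⟩ := exists_bd G (fun e => e.2.1)
  obtain ⟨N, hN⟩ : ∃ N : ℤ, N = N0 + 1 + |a.1| + |b.1| := ⟨_, rfl⟩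
  have ha0 := abs_nonneg a.1
  have hb0 := abs_nonneg b.1
  have hNe : ∀ e ∈ G, |e.2.1| + 1 ≤ N := fun e he => by
    have := hN1 e he
    omega
  have h1 : ∑ x ∈ Finset.Icc (-N) N, dfc G (x, x - s) =
      (if s = uu a then 1 else 0) - (if s = uu b then 1 else 0) := by
    have h2 : ∀ x ∈ Finset.Icc (-N) N, dfc G (x, x - s) =
        (if ((x, x - s) : ℤ × ℤ) = a then (1 : ℤ) else 0) -
        (if ((x, x - s) : ℤ × ℤ) = b then (1 : ℤ) else 0) := fun x _ => h.def' _
    rw [Finset.sum_congr rfl h2, Finset.sum_sub_distrib, line_pt a N (by omega) s,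
      line_pt b N (by omega) s]
  have h2 : ∑ x ∈ Finset.Icc (-N) N, dfc G (x, x - s) =
      ∑ x ∈ Finset.Icc (-N) N, ind G (false, x + 0, x + 0 - s) +
      ∑ x ∈ Finset.Icc (-N) N, ind G (false, x + (-1), x + (-1) - (s - 1)) -
      ∑ x ∈ Finset.Icc (-N) N, ind G (true, x + 0, x + 0 - s) -
      ∑ x ∈ Finset.Icc (-N) N, ind G (true, x + 0, x + 0 - (s + 1)) := by
    rw [← Finset.sum_add_distrib, ← Finset.sum_sub_distrib, ← Finset.sum_sub_distrib]
    refine Finset.sum_congr rfl fun x _ => ?_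
    unfold dfc Hr Hl Vu Vd
    dsimp only
    have e1 : x + 0 = x := by ring
    have e2 : x + (-1) = x - 1 := by ring
    have e3 : x + (-1) - (s - 1) = x - s := by ring
    have e4 : x + 0 - s = x - s := by ring
    have e5 : x + 0 - (s + 1) = x - s - 1 := by ring
    rw [e3, e4, e5, e1, e2]
  rw [cnt_line G N hNe false 0 s (by norm_num), cnt_line G N hNe false (-1) (s - 1) (by norm_num),
    cnt_line G N hNe true 0 s (by norm_num), cnt_line G N hNe true 0 (s + 1) (by norm_num)] at h2
  unfold cs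
  rw [filt_h, filt_h, filt_v, filt_v, sub_add_cancel, ← h1, h2]
  ring

theorem slice_count {a b : ℤ × ℤ} {G : Finset Edge} (h : IsP a b G) (m : ℕ) (hm : uu b = uu a + 2 * m) (j : ℤ) :
    ((G.filter (fun e => e.1 = false ∧ us e = uu a + j)).card : ℤ) -
      ((G.filter (fun e => e.1 = true ∧ us e = uu a + j)).card : ℤ) =
      if 0 ≤ j ∧ j < 2 * m then (if j % 2 = 0 then 1 else -1) else 0 := by
  obtain ⟨N, hN0, hN1⟩ := exists_bd G us
  have hzero : ∀ s, s < -N → cs G s = 0 := by
    intro s hs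
    unfold cs
    have h1 : ∀ b : Bool, G.filter (fun e => e.1 = b ∧ us e = s) = ∅ := by
      intro b
      rw [Finset.eq_empty_iff_forall_notMem]
      intro e he
      rw [Finset.mem_filter] at he
      have h2 := abs_le.1 (hN1 e he.1)
      omega
    rw [h1, h1]
    simp
  obtain ⟨j0, hj0⟩ : ∃ j0 : ℤ, j0 = -N - |uu a| - 1 := ⟨_, rfl⟩
  have hua := le_abs_self (uu a)
  have hua0 := abs_nonneg (uu a)
  have key : ∀ j, j0 ≤ j → cs G (uu a + j) =
      if 0 ≤ j ∧ j < 2 * (m : ℤ) then (if j % 2 = 0 then 1 else -1) else 0 := by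
    intro j hj
    induction j, hj using Int.leInduction with
    | base =>
      rw [hzero _ (by omega), if_neg (by omega)]
    | succ k hk ih =>
      have h1 := cs_rec h (uu a + (k + 1))
      have e : uu a + (k + 1) - 1 = uu a + k := by ring
      rw [e, ih, hm] at h1
      have h2 : cs G (uu a + (k + 1)) = (if uu a + (k + 1) = uu a then 1 else 0) -
          (if uu a + (k + 1) = uu a + 2 * (m : ℤ) then 1 else 0) -
          (if 0 ≤ k ∧ k < 2 * (m : ℤ) then (if k % 2 = 0 then 1 else -1) else 0) := by linarith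
      rw [h2]
      split_ifs <;> omega
  rcases le_or_gt j0 j with hj | hj
  · exact key j hj
  · rw [if_neg (by omega)]
    exact hzero (uu a + j) (by omega)

theorem mk_eq {a b : ℤ × ℤ} {G : Finset Edge} (h : IsP a b G) (m : ℕ) (hm : uu b = uu a + 2 * m) (k : ℤ) :
    (G.filter (fun e => kl (uu a) e = k)).card = (if 0 ≤ k ∧ k < m then 2 else 0) + ex (uu a) G k := by
  have h1 := slice_count h m hm (2 * k)
  have h2 := slice_count h m hm (2 * k + 1)
  have h3 : (G.filter (fun e => kl (uu a) e = k)).card =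
      (G.filter (fun e => e.1 = false ∧ us e = uu a + 2 * k)).card +
      (G.filter (fun e => e.1 = true ∧ us e = uu a + 2 * k)).card +
      (G.filter (fun e => e.1 = false ∧ us e = uu a + (2 * k + 1))).card +
      (G.filter (fun e => e.1 = true ∧ us e = uu a + (2 * k + 1))).card := by
    rw [Finset.card_filter, Finset.card_filter, Finset.card_filter, Finset.card_filter,
      Finset.card_filter, ← Finset.sum_add_distrib, ← Finset.sum_add_distrib,
      ← Finset.sum_add_distrib]
    refine Finset.sum_congr rfl fun e _ => ?_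
    unfold kl
    rcases Bool.eq_false_or_eq_true e.1 with hb | hb <;> rw [hb] <;> simp only [Bool.true_eq_false,
      Bool.false_eq_true, false_and, true_and, if_false] <;> split_ifs <;> omega
  have h4 : (G.filter (fun e => kl (uu a) e = k ∧ Wr (uu a) e)).card =
      (G.filter (fun e => e.1 = true ∧ us e = uu a + 2 * k)).card +
      (G.filter (fun e => e.1 = false ∧ us e = uu a + (2 * k + 1))).card := by
    rw [Finset.card_filter, Finset.card_filter, Finset.card_filter, ← Finset.sum_add_distrib]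
    refine Finset.sum_congr rfl fun e _ => ?_
    have hiff : (kl (uu a) e = k ∧ Wr (uu a) e) ↔ ((e.1 = true ∧ us e = uu a + 2 * k) ∨
        (e.1 = false ∧ us e = uu a + (2 * k + 1))) := by
      unfold kl Wr
      constructor
      · rintro ⟨h5, ⟨h6, h7⟩ | ⟨h6, h7⟩⟩
        · exact Or.inl ⟨h6, by omega⟩
        · exact Or.inr ⟨h6, by omega⟩
      · rintro (⟨h6, h7⟩ | ⟨h6, h7⟩)
        · exact ⟨by omega, Or.inl ⟨h6, by omega⟩⟩
        · exact ⟨by omega, Or.inr ⟨h6, by omega⟩⟩
    by_cases c1 : e.1 = true ∧ us e = uu a + 2 * k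
    · have c2 : ¬ (e.1 = false ∧ us e = uu a + (2 * k + 1)) := fun c => by
        rw [c1.1] at c
        exact absurd c.1 (by decide)
      rw [if_pos (hiff.2 (Or.inl c1)), if_pos c1, if_neg c2]
    · by_cases c2 : e.1 = false ∧ us e = uu a + (2 * k + 1)
      · rw [if_pos (hiff.2 (Or.inr c2)), if_neg c1, if_pos c2]
      · rw [if_neg (fun c => (hiff.1 c).elim c1 c2), if_neg c1, if_neg c2]
  unfold ex
  rw [h3, h4]
  split_ifs at h1 h2 ⊢ <;> omega

theorem part_card {a b : ℤ × ℤ} {G : Finset Edge} (h : IsP a b G) (m : ℕ) (hm : uu b = uu a + 2 * m) (x y : ℤ) :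
    (pc (uu a) G x y).card = 2 * (Finset.Ico x y ∩ Finset.Ico 0 (m : ℤ)).card + Sf (ex (uu a) G) x y := by
  have h1 : (pc (uu a) G x y).card = ∑ k ∈ Finset.Ico x y,
      ((pc (uu a) G x y).filter (fun e => kl (uu a) e = k)).card := by
    apply Finset.card_eq_sum_card_fiberwise
    intro e he
    have he' : e ∈ pc (uu a) G x y := he
    unfold pc at he'
    rw [Finset.mem_filter] at he'
    exact Finset.mem_coe.2 (Finset.mem_Ico.2 he'.2)
  have h2 : ∀ k ∈ Finset.Ico x y, ((pc (uu a) G x y).filter (fun e => kl (uu a) e = k)).card =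
      (if 0 ≤ k ∧ k < m then 2 else 0) + ex (uu a) G k := by
    intro k hk
    rw [Finset.mem_Ico] at hk
    rw [← mk_eq h m hm k]
    congr 1
    unfold pc
    rw [Finset.filter_filter]
    refine Finset.filter_congr fun e _ => ?_
    omega
  rw [h1, Finset.sum_congr rfl h2, Finset.sum_add_distrib, ← Finset.sum_filter, Finset.sum_const,
    smul_eq_mul]
  have h3 : (Finset.Ico x y).filter (fun k => 0 ≤ k ∧ k < (m : ℤ)) =
      Finset.Ico x y ∩ Finset.Ico 0 (m : ℤ) := by
    ext k
    rw [Finset.mem_filter, Finset.mem_inter, Finset.mem_Ico, Finset.mem_Ico]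
  rw [h3]
  unfold Sf
  ring

theorem ex_fsup (u : ℤ) (G : Finset Edge) : FSup (ex u G) := by
  obtain ⟨N, hN0, hN1⟩ := exists_bd G (kl u)
  refine ⟨N, fun i hi => ?_⟩
  unfold ex
  have h1 : G.filter (fun e => kl u e = i ∧ Wr u e) = ∅ := by
    rw [Finset.eq_empty_iff_forall_notMem]
    intro e he
    rw [Finset.mem_filter] at he
    have h2 := hN1 e he.1
    rw [he.2.1] at h2
    omega
  rw [h1]
  simp

theorem card_eq {a b : ℤ × ℤ} {G : Finset Edge} (h : IsP a b G) (m : ℕ) (hm : uu b = uu a + 2 * m) :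
    ∃ N : ℤ, 0 ≤ N ∧ (m : ℤ) ≤ N ∧ (∀ e ∈ G, -N ≤ kl (uu a) e ∧ kl (uu a) e < N) ∧
      G.card = 2 * m + Sf (ex (uu a) G) (-N) N := by
  obtain ⟨N0, hN0, hN1⟩ := exists_bd G (kl (uu a))
  have hb : ∀ e ∈ G, -(N0 + 1 + m) ≤ kl (uu a) e ∧ kl (uu a) e < N0 + 1 + m := by
    intro e he
    have h1 := abs_le.1 (hN1 e he)
    omega
  refine ⟨N0 + 1 + m, by omega, by omega, hb, ?_⟩
  have h1 := part_card h m hm (-(N0 + 1 + m)) (N0 + 1 + m)
  have h2 : pc (uu a) G (-(N0 + 1 + m)) (N0 + 1 + m) = G := by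
    unfold pc
    exact Finset.filter_true_of_mem hb
  have h3 : Finset.Ico (-(N0 + 1 + (m : ℤ))) (N0 + 1 + m) ∩ Finset.Ico 0 (m : ℤ) =
      Finset.Ico 0 (m : ℤ) := by
    ext k
    rw [Finset.mem_inter, Finset.mem_Ico, Finset.mem_Ico]
    omega
  rw [h2, h3, Int.card_Ico] at h1
  rw [h1]
  omega

end

end Pool.Agent.H40.WM
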