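import Mathlib
import Pool.Agent.H40.WM.IDfc

/-!
# ILev: levels

* `lvl_edge`: the two ends of an edge have the same level if the edge is not wrong (with respect to `uu a`), and levels differing by exactly one if it is wrong: direct computation with
  `lvl a z = (vv z - vv a - (uu z - uu a) % 2) / 2`, noting `vv z - vv a ≡ uu z - uu a (mod 2)`.
* `spread`: `T` connected, `z, z'` ends of edges of `T`.  Let `lo` and `hi` be the minimum and maximum level of the ends of edges of `T`.  For every `l` with `lo ≤ l < hi` there is an edge of `T` with one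
  end at level `l` and the other at level `l+1`: otherwise every edge of `T` has both ends at level `≤ l` or both at level `≥ l+1` (an edge changes the level by at most one); both classes are nonempty and
  no edge of the first class touches one of the second: contradiction to `Conn`.  Such an edge is wrong, and different `l` give different edges.  So `hi - lo ≤` number of wrong edges.
* `vt_lvl`, `vt_uu`, `vt_unique`: arithmetic: a vertex on the line `uu a + 2k` with level `l` is `vt a k l`.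
-/

set_option autoImplicit false

namespace Pool.Agent.H40.WM

open Pool.Agent.H40.SQ

noncomputable section

private theorem il_ends (a : ℤ × ℤ) (e : Edge) {z z' : ℤ × ℤ} (h : z ∈ ends e) (h' : z' ∈ ends e) :
    -1 ≤ lvl a z - lvl a z' ∧ lvl a z - lvl a z' ≤ 1 ∧ (¬ Wr (uu a) e → lvl a z = lvl a z') := by
  obtain ⟨t, x, y⟩ := e
  cases t with
  | true =>
    simp only [ends, if_true, Finset.mem_insert, Finset.mem_singleton] at h h'
    have hw : ¬ Wr (uu a) (true, x, y) ↔ ¬ ((x - y - 1 - (a.1 - a.2)) % 2 = 0) := by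
      simp [Wr, us, uu]
    rw [hw]
    rcases h with rfl | rfl <;> rcases h' with rfl | rfl <;> refine ⟨?_, ?_, fun hx => ?_⟩ <;>
      simp only [lvl, uu, vv] <;> omega
  | false =>
    simp only [ends, Bool.false_eq_true, if_false, Finset.mem_insert, Finset.mem_singleton] at h h'
    have hw : ¬ Wr (uu a) (false, x, y) ↔ ¬ ((x - y - (a.1 - a.2)) % 2 = 1) := by
      simp [Wr, us, uu]
    rw [hw]
    rcases h with rfl | rfl <;> rcases h' with rfl | rfl <;> refine ⟨?_, ?_, fun hx => ?_⟩ <;>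
      simp only [lvl, uu, vv] <;> omega

theorem lvl_edge (a : ℤ × ℤ) {e : Edge} {z z' : ℤ × ℤ} (h : z ∈ ends e) (h' : z' ∈ ends e) :
    |lvl a z - lvl a z'| ≤ 1 ∧ (¬ Wr (uu a) e → lvl a z = lvl a z') := by
  obtain ⟨h1, h2, h3⟩ := il_ends a e h h'
  exact ⟨abs_le.2 ⟨h1, h2⟩, h3⟩

private theorem il_wr (a : ℤ × ℤ) {e : Edge} {z z' : ℤ × ℤ} (h : z ∈ ends e) (h' : z' ∈ ends e)
    (hne : lvl a z ≠ lvl a z') : Wr (uu a) e := by
  by_contra hw
  exact hne ((lvl_edge a h h').2 hw)

private theorem il_step (a : ℤ × ℤ) {T : Finset Edge} (hT : Conn T) {e e' : Edge} (he : e ∈ T) (he' : e' ∈ T)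
    {z z' : ℤ × ℤ} (h : z ∈ ends e) (h' : z' ∈ ends e') (l : ℤ) (h1 : lvl a z ≤ l) (h2 : l < lvl a z') :
    ∃ f ∈ T, ∃ v ∈ ends f, ∃ w ∈ ends f, lvl a v = l ∧ lvl a w = l + 1 := by
  classical
  by_contra hcon
  push Not at hcon
  have hkey : ∀ f ∈ T, ∀ v ∈ ends f, lvl a v ≤ l → ∀ w ∈ ends f, lvl a w ≤ l := by
    intro f hf v hv hvl w hw
    by_contra hwl
    have h3 := abs_le.1 (lvl_edge a hv hw).1
    exact hcon f hf v hv w hw (by omega) (by omega)
  obtain ⟨b, hb, c, hc, v, hvb, hvc⟩ := hT (T.filter (fun f => ∀ w ∈ ends f, lvl a w ≤ l))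
    (Finset.filter_subset _ _) ⟨e, Finset.mem_filter.2 ⟨he, hkey e he z h h1⟩⟩ (fun heq => by
      have h3 : e' ∈ T.filter (fun f => ∀ w ∈ ends f, lvl a w ≤ l) := by
        rw [heq]
        exact he'
      have h4 := (Finset.mem_filter.1 h3).2 z' h'
      omega)
  rw [Finset.mem_filter] at hb
  rw [Finset.mem_sdiff, Finset.mem_filter] at hc
  exact hc.2 ⟨hc.1, hkey c hc.1 v hvc (hb.2 v hvb)⟩

private theorem il_spread (a : ℤ × ℤ) {T : Finset Edge} (hT : Conn T) {e e' : Edge} (he : e ∈ T) (he' : e' ∈ T)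
    {z z' : ℤ × ℤ} (h : z ∈ ends e) (h' : z' ∈ ends e') :
    lvl a z' - lvl a z ≤ ((T.filter (fun e => Wr (uu a) e)).card : ℤ) := by
  classical
  have h1 : ∀ l : ℤ, ∃ f : Edge, l ∈ Finset.Ico (lvl a z) (lvl a z') →
      f ∈ T ∧ ∃ v ∈ ends f, ∃ w ∈ ends f, lvl a v = l ∧ lvl a w = l + 1 := by
    intro l
    by_cases hl : l ∈ Finset.Ico (lvl a z) (lvl a z')
    · rw [Finset.mem_Ico] at hl
      obtain ⟨f, hf, hf2⟩ := il_step a hT he he' h h' l hl.1 hl.2
      exact ⟨f, fun _ => ⟨hf, hf2⟩⟩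
    · exact ⟨e, fun h => absurd h hl⟩
  choose f hf using h1
  have h2 : (Finset.Ico (lvl a z) (lvl a z')).card ≤ (T.filter (fun e => Wr (uu a) e)).card := by
    refine Finset.card_le_card_of_injOn f ?_ ?_
    · intro l hl
      obtain ⟨hfT, v, hv, w, hw, hvl, hwl⟩ := hf l hl
      exact Finset.mem_coe.2 (Finset.mem_filter.2 ⟨hfT, il_wr a hv hw (by omega)⟩)
    · intro l hl m hm hlm
      obtain ⟨_, v, hv, w, hw, hvl, hwl⟩ := hf l hl
      obtain ⟨_, v', hv', w', hw', hvl', hwl'⟩ := hf m hm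
      rw [← hlm] at hv' hw'
      have h3 := abs_le.1 (lvl_edge a hv hw').1
      have h4 := abs_le.1 (lvl_edge a hv' hw).1
      omega
  rw [Int.card_Ico] at h2
  omega

theorem spread (a : ℤ × ℤ) {T : Finset Edge} (hT : Conn T) {e e' : Edge} (he : e ∈ T) (he' : e' ∈ T) {z z' : ℤ × ℤ}
    (h : z ∈ ends e) (h' : z' ∈ ends e') : |lvl a z - lvl a z'| ≤ ((T.filter (fun e => Wr (uu a) e)).card : ℤ) := by
  have h1 := il_spread a hT he he' h h'
  have h2 := il_spread a hT he' he h' h
  exact abs_le.2 ⟨by omega, by omega⟩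

theorem vt_uu (a : ℤ × ℤ) (k l : ℤ) : uu (vt a k l) = uu a + 2 * k := by
  simp only [uu, vt]
  ring

theorem vt_lvl (a : ℤ × ℤ) (k l : ℤ) : lvl a (vt a k l) = l := by
  simp only [uu, vv, vt, lvl]
  omega

theorem vt_unique {a z : ℤ × ℤ} {k : ℤ} (h : uu z = uu a + 2 * k) : z = vt a k (lvl a z) := by
  obtain ⟨x, y⟩ := z
  simp only [uu, vv, vt, lvl] at h ⊢
  refine Prod.ext ?_ ?_
  · show x = _
    omega
  · show y = _
    omega

/-- Change of the base point along the same parity class of lines. -/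
theorem lvl_base {a p z : ℤ × ℤ} {k l : ℤ} (h : p = vt a k l) : lvl p z = lvl a z - l := by
  subst h
  simp only [uu, vv, vt, lvl]
  omega

end

end Pool.Agent.H40.WM
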