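import Mathlib
import Pool.Agent.H40.WM.ICnt
import Pool.Agent.H40.WM.ILev

/-!
# ICut: cutting a path at a half clean line

Let `p = vt a k (lp a b G k)`.
* `0 < k < m`: by `slice_count` (`j = 2k`: `H - V = 1`, `V = 0` by `HC`; `j = 2k - 1`: `H - V = -1`, `H = 0`) the slice `uu a + 2k` contains exactly one edge of `G`, it is horizontal, `= Hr p` by the
  definition of `lp` (a sum with one term) and `vt_unique`; and the slice `uu a + 2k - 1` contains exactly one edge, it is vertical, `= Vu p'` with `p'` on the line `uu a + 2k`.  The defect of `G` at `p`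
  is `0` (`p ≠ a, b` by the lines), `Hr p ∈ G`, so a vertical edge at `p` is in `G`; `Vd p` is in the slice `uu p`, hence not in `G`; so `Vu p ∈ G` and `p' = p`.
  Defects of `L = lf`: at vertices on lines `< uu a + 2k` all four edges at the vertex which are in `G` are in `L` (their slices are `< uu a + 2k`), on lines `> uu a + 2k` none; on the line itself only the edges
  of the slice on the left count: only `Vu p`.  So `dfc L z = [z = a] - [z = p]`; the same for `R = rt`: `dfc R z = [z = p] - [z = b]` (or from `dfc_union`).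
  Connectedness: an edge of `L` and an edge of `R` touch only if the first is `Vu p` and the second `Hr p` (a common end lies on the line `uu a + 2k`).  `Conn L`: let `A ⊆ L` nonempty, `A ≠ L`.  If
  `Vu p ∉ A` apply `Conn G` to `A`: `a' ∈ A`, `b' ∈ G \ A` touch; `b' ∈ R` would force `a' = Vu p`; so `b' ∈ L`.  If `Vu p ∈ A` apply `Conn G` to `A ∪ R`.  The same for `R`.
* `k ≤ 0`: `p = a` (`lp = 0`); the slice `uu a + 2k - 1` has `H - V = 0` and `H = 0`: it is empty; `G` is connected and has (if nonempty) an edge at `a`, which lies in a slice `≥ uu a - 1 ≥ uu a + 2k - 1`,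
  so in a slice `≥ uu a + 2k`; edges in slices `< uu a + 2k - 1` and `≥ uu a + 2k` do not touch (`tch_us`), so `lf = ∅`, `rt = G`.
* `k ≥ m`: `p = b`; the slice `uu a + 2k` is empty, the edge at `b` lies in a slice `≤ uu b ≤ uu a + 2k`; so `rt = ∅`, `lf = G`.
-/

set_option autoImplicit false

namespace Pool.Agent.H40.WM

open Pool.Agent.H40.SQ

noncomputable section

private theorem ic_us_Hr (z : ℤ × ℤ) : us (Hr z) = uu z := by simp [us, Hr, uu]

private theorem ic_us_Hl (z : ℤ × ℤ) : us (Hl z) = uu z - 1 := by simp [us, Hl, uu]; ring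

private theorem ic_us_Vu (z : ℤ × ℤ) : us (Vu z) = uu z - 1 := by simp [us, Vu, uu]

private theorem ic_us_Vd (z : ℤ × ℤ) : us (Vd z) = uu z := by simp [us, Vd, uu]; ring

private theorem ic_ind_one {G : Finset Edge} {e : Edge} (h : e ∈ G) : ind G e = 1 := by simp [ind, h]

private theorem ic_ind_zero {G : Finset Edge} {e : Edge} (h : e ∉ G) : ind G e = 0 := by simp [ind, h]

private theorem ic_mem_of_ind {G : Finset Edge} {e : Edge} (h : ind G e = 1) : e ∈ G := by
  by_contra hc
  rw [ic_ind_zero hc] at h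
  exact absurd h (by norm_num)

private theorem ic_Hcard {G : Finset Edge} {s : ℤ} (h : ∀ e ∈ G, us e = s → e.1 = true) :
    (G.filter (fun e => e.1 = false ∧ us e = s)).card = 0 := by
  rw [Finset.card_eq_zero, Finset.filter_eq_empty_iff]
  rintro e he ⟨h1, h2⟩
  rw [h e he h2] at h1
  exact absurd h1 (by decide)

private theorem ic_Vcard {G : Finset Edge} {s : ℤ} (h : ∀ e ∈ G, us e = s → e.1 = false) :
    (G.filter (fun e => e.1 = true ∧ us e = s)).card = 0 := by
  rw [Finset.card_eq_zero, Finset.filter_eq_empty_iff]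
  rintro e he ⟨h1, h2⟩
  rw [h e he h2] at h1
  exact absurd h1 (by decide)

/-- A slice without edges. -/
private theorem ic_empty_of {G : Finset Edge} {s : ℤ}
    (h1 : (G.filter (fun e => e.1 = false ∧ us e = s)).card = 0)
    (h2 : (G.filter (fun e => e.1 = true ∧ us e = s)).card = 0) : ∀ e ∈ G, us e ≠ s := by
  intro e he hs
  rw [Finset.card_eq_zero, Finset.filter_eq_empty_iff] at h1 h2
  cases hb : e.1
  · exact h1 he ⟨hb, hs⟩
  · exact h2 he ⟨hb, hs⟩

private theorem ic_tch {x y : Edge} (h : Tch x y) : ∃ v : ℤ × ℤ, (uu v = us x ∨ uu v = us x + 1) ∧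
    (uu v = us y ∨ uu v = us y + 1) := by
  obtain ⟨v, h1, h2⟩ := h
  exact ⟨v, ends_uu h1, ends_uu h2⟩

private theorem ic_conn_part {G L R : Finset Edge} (hG : Conn G) (hU : ∀ e, e ∈ G ↔ e ∈ L ∨ e ∈ R)
    (hD : ∀ e ∈ L, e ∉ R) {c : Edge} (hc : c ∈ L) (h : ∀ x ∈ L, ∀ y ∈ R, Tch x y → x = c) : Conn L := by
  intro A hA hAn hAL
  by_cases hcA : c ∈ A
  · have hne : A ∪ R ≠ G := by
      intro he
      apply hAL
      apply Finset.Subset.antisymm hA
      intro w hw
      have hwG : w ∈ A ∪ R := by rw [he, hU]; exact Or.inl hw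
      rcases Finset.mem_union.1 hwG with h1 | h1
      · exact h1
      · exact absurd h1 (hD w hw)
    obtain ⟨x, hx, y, hy, hxy⟩ := hG (A ∪ R) (by
      intro e he
      rw [hU]
      rcases Finset.mem_union.1 he with h1 | h1
      · exact Or.inl (hA h1)
      · exact Or.inr h1) (hAn.mono Finset.subset_union_left) hne
    rw [Finset.mem_sdiff, Finset.mem_union, hU] at hy
    obtain ⟨hy1, hy2⟩ := hy
    have hyL : y ∈ L := hy1.resolve_right (fun h1 => hy2 (Or.inr h1))
    have hyA : y ∉ A := fun h1 => hy2 (Or.inl h1)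
    rcases Finset.mem_union.1 hx with h1 | h1
    · exact ⟨x, h1, y, Finset.mem_sdiff.2 ⟨hyL, hyA⟩, hxy⟩
    · have := h y hyL x h1 (tch_symm hxy)
      exact absurd (this ▸ hcA) hyA
  · have hne : A ≠ G := by
      intro he
      apply hcA
      rw [he, hU]
      exact Or.inl hc
    obtain ⟨x, hx, y, hy, hxy⟩ := hG A (fun e he => (hU e).2 (Or.inl (hA he))) hAn hne
    rw [Finset.mem_sdiff, hU] at hy
    rcases hy.1 with h1 | h1
    · exact ⟨x, hx, y, Finset.mem_sdiff.2 ⟨h1, hy.2⟩, hxy⟩
    · have := h x (hA hx) y h1 hxy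
      exact absurd (this ▸ hx) hcA

theorem cut_point {a b : ℤ × ℤ} {G : Finset Edge} (h : IsP a b G) (m : ℕ) (hm : uu b = uu a + 2 * m) (k : ℤ) (hk : HC (uu a) G k)
    (hk0 : 0 < k) (hk1 : k < m) :
    Hr (vt a k (lp a b G k)) ∈ G ∧ Vu (vt a k (lp a b G k)) ∈ G ∧
      (∀ e ∈ G, us e = uu a + 2 * k → e = Hr (vt a k (lp a b G k))) ∧
      (∀ e ∈ G, us e = uu a + 2 * k - 1 → e = Vu (vt a k (lp a b G k))) := by
  have h1 := slice_count h m hm (2 * k)
  rw [if_pos (by omega), if_pos (by omega)] at h1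
  have hV := ic_Vcard hk.2
  rw [hV] at h1
  have hH : (G.filter (fun e => e.1 = false ∧ us e = uu a + 2 * k)).card = 1 := by
    have : ((G.filter (fun e => e.1 = false ∧ us e = uu a + 2 * k)).card : ℤ) = 1 := by
      simpa using h1
    exact_mod_cast this
  obtain ⟨e0, he0⟩ := Finset.card_eq_one.1 hH
  have he0m : e0 ∈ G.filter (fun e => e.1 = false ∧ us e = uu a + 2 * k) := by rw [he0]; simp
  rw [Finset.mem_filter] at he0m
  obtain ⟨he0G, he0h, he0s⟩ := he0m
  have hlp : lp a b G k = lvl a (e0.2.1, e0.2.2) := by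
    unfold lp
    rw [if_neg (by omega), if_neg (by omega), he0, Finset.sum_singleton]
  have hup : uu (e0.2.1, e0.2.2) = uu a + 2 * k := by
    rw [← he0s]
    unfold us uu
    rw [he0h]
    simp
  have hp : (e0.2.1, e0.2.2) = vt a k (lp a b G k) := by
    rw [hlp]
    exact vt_unique hup
  set p := vt a k (lp a b G k) with hpdef
  have hup' : uu p = uu a + 2 * k := by rw [← hp]; exact hup
  have he0p : e0 = Hr p := by
    rw [← hp]
    unfold Hr
    rw [← he0h]
  have hHrG : Hr p ∈ G := he0p ▸ he0G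
  have hu1 : ∀ e ∈ G, us e = uu a + 2 * k → e = Hr p := by
    intro e he hs
    have : e ∈ G.filter (fun e => e.1 = false ∧ us e = uu a + 2 * k) :=
      Finset.mem_filter.2 ⟨he, hk.2 e he hs, hs⟩
    rw [he0, Finset.mem_singleton] at this
    rw [this, he0p]
  have h2 := slice_count h m hm (2 * k - 1)
  rw [if_pos (by omega), if_neg (by omega)] at h2
  have hH2 : (G.filter (fun e => e.1 = false ∧ us e = uu a + (2 * k - 1))).card = 0 := by
    apply ic_Hcard
    intro e he hs
    exact hk.1 e he (by omega)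
  rw [hH2] at h2
  have hV2 : (G.filter (fun e => e.1 = true ∧ us e = uu a + (2 * k - 1))).card = 1 := by
    have : ((G.filter (fun e => e.1 = true ∧ us e = uu a + (2 * k - 1))).card : ℤ) = 1 := by
      simp only [Nat.cast_zero] at h2
      linarith
    exact_mod_cast this
  obtain ⟨e1, he1⟩ := Finset.card_eq_one.1 hV2
  have hd := h.def' p
  have hpa : p ≠ a := by
    intro hc
    rw [hc] at hup'
    omega
  have hpb : p ≠ b := by
    intro hc
    rw [hc] at hup'
    omega
  rw [if_neg hpa, if_neg hpb] at hd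
  have hHl : Hl p ∉ G := by
    intro hc
    have := hk.1 _ hc (by rw [ic_us_Hl]; omega)
    exact absurd this (by simp [Hl])
  have hVd : Vd p ∉ G := by
    intro hc
    have := hk.2 _ hc (by rw [ic_us_Vd]; omega)
    exact absurd this (by simp [Vd])
  unfold dfc at hd
  rw [ic_ind_one hHrG, ic_ind_zero hHl, ic_ind_zero hVd] at hd
  have hVu : Vu p ∈ G := ic_mem_of_ind (by linarith)
  have hVu1 : Vu p = e1 := by
    have : Vu p ∈ G.filter (fun e => e.1 = true ∧ us e = uu a + (2 * k - 1)) := by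
      rw [Finset.mem_filter]
      refine ⟨hVu, by simp [Vu], ?_⟩
      rw [ic_us_Vu]
      omega
    rw [he1, Finset.mem_singleton] at this
    exact this
  refine ⟨hHrG, hVu, hu1, ?_⟩
  intro e he hs
  have : e ∈ G.filter (fun e => e.1 = true ∧ us e = uu a + (2 * k - 1)) := by
    rw [Finset.mem_filter]
    exact ⟨he, hk.1 e he hs, by omega⟩
  rw [he1, Finset.mem_singleton] at this
  rw [this, hVu1]

theorem cut_left {a b : ℤ × ℤ} {G : Finset Edge} (h : IsP a b G) (m : ℕ) (hm : uu b = uu a + 2 * m) (k : ℤ) (hk : HC (uu a) G k)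
    (hk0 : k ≤ 0) : lf (uu a) G k = ∅ := by
  by_contra hne
  have hne' : (lf (uu a) G k).Nonempty := Finset.nonempty_iff_ne_empty.2 hne
  have hGn : G.Nonempty := by
    obtain ⟨e, he⟩ := hne'
    exact ⟨e, (Finset.mem_filter.1 he).1⟩
  obtain ⟨⟨e0, he0, ha0⟩, _⟩ := IsP_touch h hGn
  have h1 := slice_count h m hm (2 * k - 1)
  rw [if_neg (by omega)] at h1
  have hH2 : (G.filter (fun e => e.1 = false ∧ us e = uu a + (2 * k - 1))).card = 0 := by
    apply ic_Hcard
    intro e he hs
    exact hk.1 e he (by omega)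
  have hV2 : (G.filter (fun e => e.1 = true ∧ us e = uu a + (2 * k - 1))).card = 0 := by
    rw [hH2] at h1
    simp only [Nat.cast_zero] at h1
    have : ((G.filter (fun e => e.1 = true ∧ us e = uu a + (2 * k - 1))).card : ℤ) = 0 := by linarith
    exact_mod_cast this
  have hem := ic_empty_of hH2 hV2
  have he0L : e0 ∉ lf (uu a) G k := by
    intro hc
    have h3 := (Finset.mem_filter.1 hc).2
    unfold kl at h3
    have h4 := ends_uu ha0
    have h5 := hem e0 he0
    omega
  obtain ⟨x, hx, y, hy, hxy⟩ := h.conn (lf (uu a) G k) (Finset.filter_subset _ _) hne' (by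
    intro hc
    exact he0L (by rw [hc]; exact he0))
  rw [Finset.mem_sdiff] at hy
  have hx2 := (Finset.mem_filter.1 hx).2
  have hx3 := hem x (Finset.mem_filter.1 hx).1
  have hy2 : ¬ kl (uu a) y < k := fun hc => hy.2 (Finset.mem_filter.2 ⟨hy.1, hc⟩)
  unfold kl at hx2 hy2
  obtain ⟨v, hv1, hv2⟩ := ic_tch hxy
  omega

theorem cut_right {a b : ℤ × ℤ} {G : Finset Edge} (h : IsP a b G) (m : ℕ) (hm : uu b = uu a + 2 * m) (k : ℤ) (hk : HC (uu a) G k)
    (hk1 : (m : ℤ) ≤ k) : rt (uu a) G k = ∅ := by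
  by_contra hne
  have hne' : (rt (uu a) G k).Nonempty := Finset.nonempty_iff_ne_empty.2 hne
  have hGn : G.Nonempty := by
    obtain ⟨e, he⟩ := hne'
    exact ⟨e, (Finset.mem_filter.1 he).1⟩
  obtain ⟨_, ⟨e0, he0, ha0⟩⟩ := IsP_touch h hGn
  have h1 := slice_count h m hm (2 * k)
  rw [if_neg (by omega)] at h1
  have hV2 := ic_Vcard hk.2
  have hH2 : (G.filter (fun e => e.1 = false ∧ us e = uu a + 2 * k)).card = 0 := by
    rw [hV2] at h1
    simp only [Nat.cast_zero] at h1
    have : ((G.filter (fun e => e.1 = false ∧ us e = uu a + 2 * k)).card : ℤ) = 0 := by linarith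
    exact_mod_cast this
  have hem := ic_empty_of hH2 hV2
  have he0L : e0 ∉ rt (uu a) G k := by
    intro hc
    have h3 := (Finset.mem_filter.1 hc).2
    unfold kl at h3
    have h4 := ends_uu ha0
    have h5 := hem e0 he0
    omega
  obtain ⟨x, hx, y, hy, hxy⟩ := h.conn (rt (uu a) G k) (Finset.filter_subset _ _) hne' (by
    intro hc
    exact he0L (by rw [hc]; exact he0))
  rw [Finset.mem_sdiff] at hy
  have hx2 := (Finset.mem_filter.1 hx).2
  have hx3 := hem x (Finset.mem_filter.1 hx).1
  have hy2 : ¬ k ≤ kl (uu a) y := fun hc => hy.2 (Finset.mem_filter.2 ⟨hy.1, hc⟩)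
  unfold kl at hx2 hy2
  obtain ⟨v, hv1, hv2⟩ := ic_tch hxy
  omega

private theorem ic_lf_rt (u : ℤ) (G : Finset Edge) (k : ℤ) (e : Edge) : e ∈ G ↔ e ∈ lf u G k ∨ e ∈ rt u G k := by
  unfold lf rt
  rw [Finset.mem_filter, Finset.mem_filter]
  constructor
  · intro he
    rcases lt_or_ge (kl u e) k with h | h
    · exact Or.inl ⟨he, h⟩
    · exact Or.inr ⟨he, h⟩
  · rintro (h | h) <;> exact h.1

private theorem ic_disj (u : ℤ) (G : Finset Edge) (k : ℤ) : ∀ e ∈ lf u G k, e ∉ rt u G k := by
  intro e h1 h2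
  unfold lf at h1
  unfold rt at h2
  rw [Finset.mem_filter] at h1 h2
  omega

theorem cut {a b : ℤ × ℤ} {G : Finset Edge} (h : IsP a b G) (m : ℕ) (hm : uu b = uu a + 2 * m) (k : ℤ) (hk : HC (uu a) G k)
    (hk0 : 0 ≤ k) (hk1 : k ≤ m) :
    IsP a (vt a k (lp a b G k)) (lf (uu a) G k) ∧ IsP (vt a k (lp a b G k)) b (rt (uu a) G k) := by
  rcases hk0.eq_or_lt with hz | hkp
  · subst hz
    have hlp : lp a b G 0 = 0 := by
      unfold lp
      rw [if_pos le_rfl]
    have hv : vt a 0 (lp a b G 0) = a := by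
      rw [hlp]
      unfold vt
      simp
    have hl := cut_left h m hm 0 hk le_rfl
    have hr : rt (uu a) G 0 = G := by
      ext e
      rw [ic_lf_rt (uu a) G 0 e, hl]
      simp
    rw [hv, hl, hr]
    exact ⟨IsP_empty a, h⟩
  rcases hk1.eq_or_lt with hz | hkm
  · have hlp : lp a b G k = lvl a b := by
      unfold lp
      rw [if_neg (by omega), if_pos (by omega)]
    have hv : vt a k (lp a b G k) = b := by
      rw [hlp]
      exact (vt_unique (by omega)).symm
    have hr := cut_right h m hm k hk (by omega)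
    have hl : lf (uu a) G k = G := by
      ext e
      rw [ic_lf_rt (uu a) G k e, hr]
      simp
    rw [hv, hl, hr]
    exact ⟨h, IsP_empty b⟩
  obtain ⟨c1, c2, c3, c4⟩ := cut_point h m hm k hk hkp hkm
  have hup : uu (vt a k (lp a b G k)) = uu a + 2 * k := vt_uu _ _ _
  set p := vt a k (lp a b G k) with hp
  have hpa : p ≠ a := by
    intro hc
    rw [hc] at hup
    omega
  have hpb : p ≠ b := by
    intro hc
    rw [hc] at hup
    omega
  set L := lf (uu a) G k with hL
  set R := rt (uu a) G k with hR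
  have hU := ic_lf_rt (uu a) G k
  rw [← hL, ← hR] at hU
  have hD : ∀ e ∈ L, e ∉ R := ic_disj (uu a) G k
  have mL : ∀ e, e ∈ L ↔ e ∈ G ∧ us e < uu a + 2 * k := by
    intro e
    rw [hL]
    unfold lf
    rw [Finset.mem_filter]
    unfold kl
    constructor
    · rintro ⟨h1, h2⟩
      exact ⟨h1, by omega⟩
    · rintro ⟨h1, h2⟩
      exact ⟨h1, by omega⟩
  have mR : ∀ e, e ∈ R ↔ e ∈ G ∧ uu a + 2 * k ≤ us e := by
    intro e
    rw [hR]
    unfold rt
    rw [Finset.mem_filter]
    unfold kl
    constructor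
    · rintro ⟨h1, h2⟩
      exact ⟨h1, by omega⟩
    · rintro ⟨h1, h2⟩
      exact ⟨h1, by omega⟩
  have hVuL : Vu p ∈ L := (mL _).2 ⟨c2, by rw [ic_us_Vu]; omega⟩
  have hHrR : Hr p ∈ R := (mR _).2 ⟨c1, by rw [ic_us_Hr]; omega⟩
  have hT : ∀ x ∈ L, ∀ y ∈ R, Tch x y → x = Vu p ∧ y = Hr p := by
    intro x hx y hy hxy
    obtain ⟨v, hv1, hv2⟩ := ic_tch hxy
    rw [mL] at hx
    rw [mR] at hy
    exact ⟨c4 x hx.1 (by omega), c3 y hy.1 (by omega)⟩
  have cL : Conn L := ic_conn_part h.conn hU hD hVuL (fun x hx y hy hxy => (hT x hx y hy hxy).1)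
  have cR : Conn R := ic_conn_part h.conn (fun e => by rw [hU e, or_comm]) (fun e h1 h2 => hD e h2 h1) hHrR
    (fun x hx y hy hxy => (hT y hy x hx (tch_symm hxy)).2)
  have iL : ∀ e, us e < uu a + 2 * k → ind L e = ind G e := by
    intro e he
    by_cases heG : e ∈ G
    · rw [ic_ind_one heG, ic_ind_one ((mL e).2 ⟨heG, he⟩)]
    · rw [ic_ind_zero heG, ic_ind_zero (fun hc => heG ((mL e).1 hc).1)]
  have iL0 : ∀ e, uu a + 2 * k ≤ us e → ind L e = 0 := by
    intro e he
    apply ic_ind_zero
    intro hc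
    have := ((mL e).1 hc).2
    omega
  have dL : ∀ z, dfc L z = (if z = a then 1 else 0) - (if z = p then 1 else 0) := by
    intro z
    rcases lt_trichotomy (uu z) (uu a + 2 * k) with h1 | h1 | h1
    · have hzp : z ≠ p := by
        intro hc
        rw [hc] at h1
        omega
      have hzb : z ≠ b := by
        intro hc
        rw [hc] at h1
        omega
      have h2 := h.def' z
      rw [if_neg hzb] at h2
      rw [if_neg hzp, ← h2]
      unfold dfc
      rw [iL _ (by rw [ic_us_Hr]; omega), iL _ (by rw [ic_us_Hl]; omega), iL _ (by rw [ic_us_Vu]; omega),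
        iL _ (by rw [ic_us_Vd]; omega)]
    · have hza : z ≠ a := by
        intro hc
        rw [hc] at h1
        omega
      rw [if_neg hza]
      unfold dfc
      rw [iL0 _ (by rw [ic_us_Hr]; omega), iL _ (by rw [ic_us_Hl]; omega), iL _ (by rw [ic_us_Vu]; omega),
        iL0 _ (by rw [ic_us_Vd]; omega)]
      have hHl : Hl z ∉ G := by
        intro hc
        have := hk.1 _ hc (by rw [ic_us_Hl]; omega)
        exact absurd this (by simp [Hl])
      rw [ic_ind_zero hHl]
      by_cases hzp : z = p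
      · rw [if_pos hzp, hzp, ic_ind_one c2]
        norm_num
      · rw [if_neg hzp]
        have hVu : Vu z ∉ G := by
          intro hc
          have h3 := c4 _ hc (by rw [ic_us_Vu]; omega)
          apply hzp
          unfold Vu at h3
          rw [Prod.mk.injEq, Prod.mk.injEq] at h3
          exact Prod.ext h3.2.1 h3.2.2
        rw [ic_ind_zero hVu]
        norm_num
    · have hzp : z ≠ p := by
        intro hc
        rw [hc] at h1
        omega
      have hza : z ≠ a := by
        intro hc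
        rw [hc] at h1
        omega
      rw [if_neg hzp, if_neg hza]
      unfold dfc
      rw [iL0 _ (by rw [ic_us_Hr]; omega), iL0 _ (by rw [ic_us_Hl]; omega), iL0 _ (by rw [ic_us_Vu]; omega),
        iL0 _ (by rw [ic_us_Vd]; omega)]
      norm_num
  have hLG : L ⊆ G := fun e he => ((mL e).1 he).1
  have hGR : G \ L = R := by
    ext e
    rw [Finset.mem_sdiff, mL, mR]
    constructor
    · rintro ⟨h1, h2⟩
      exact ⟨h1, by by_contra hc; exact h2 ⟨h1, by omega⟩⟩
    · rintro ⟨h1, h2⟩
      exact ⟨h1, fun hc => by omega⟩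
  have dR : ∀ z, dfc R z = (if z = p then 1 else 0) - (if z = b then 1 else 0) := by
    intro z
    rw [← hGR, dfc_sdiff hLG, dL z, h.def' z]
    ring
  exact ⟨⟨cL, dL, fun hc => absurd hc.symm hpa⟩, ⟨cR, dR, fun hc => absurd hc hpb⟩⟩

/-- At a half clean line `0` (with `0 < m`) the path starts with `Hr a`. -/
theorem cut_start {a b : ℤ × ℤ} {G : Finset Edge} (h : IsP a b G) (m : ℕ) (hm : uu b = uu a + 2 * m) (hm0 : 0 < m)
    (hk : HC (uu a) G 0) : Hr a ∈ G ∧ ∀ e ∈ G, us e = uu a → e = Hr a := by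
  have h1 := slice_count h m hm (-1)
  rw [if_neg (by omega)] at h1
  have hH1 : (G.filter (fun e => e.1 = false ∧ us e = uu a + (-1))).card = 0 := by
    apply ic_Hcard
    intro e he hs
    exact hk.1 e he (by omega)
  have hV1 : (G.filter (fun e => e.1 = true ∧ us e = uu a + (-1))).card = 0 := by
    rw [hH1] at h1
    simp only [Nat.cast_zero] at h1
    have : ((G.filter (fun e => e.1 = true ∧ us e = uu a + (-1))).card : ℤ) = 0 := by linarith
    exact_mod_cast this
  have hem := ic_empty_of hH1 hV1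
  have h2 := slice_count h m hm 0
  rw [if_pos (by omega), if_pos (by norm_num)] at h2
  have hV2 : (G.filter (fun e => e.1 = true ∧ us e = uu a + 0)).card = 0 := by
    apply ic_Vcard
    intro e he hs
    exact hk.2 e he (by omega)
  rw [hV2] at h2
  have hH2 : (G.filter (fun e => e.1 = false ∧ us e = uu a + 0)).card = 1 := by
    have : ((G.filter (fun e => e.1 = false ∧ us e = uu a + 0)).card : ℤ) = 1 := by
      simpa using h2
    exact_mod_cast this
  obtain ⟨e0, he0⟩ := Finset.card_eq_one.1 hH2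
  have hab : a ≠ b := by
    intro hc
    rw [hc] at hm
    omega
  have hd := h.def' a
  rw [if_pos rfl, if_neg hab] at hd
  have a1 : Hl a ∉ G := fun hc => hem _ hc (by rw [ic_us_Hl]; ring)
  have a2 : Vu a ∉ G := fun hc => hem _ hc (by rw [ic_us_Vu]; ring)
  have a3 : Vd a ∉ G := by
    intro hc
    have := hk.2 _ hc (by rw [ic_us_Vd]; omega)
    exact absurd this (by simp [Vd])
  unfold dfc at hd
  rw [ic_ind_zero a1, ic_ind_zero a2, ic_ind_zero a3] at hd
  have hHr : Hr a ∈ G := ic_mem_of_ind (by linarith)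
  have hall : ∀ e ∈ G, us e = uu a → e = e0 := by
    intro e he hs
    have : e ∈ G.filter (fun e => e.1 = false ∧ us e = uu a + 0) :=
      Finset.mem_filter.2 ⟨he, hk.2 e he (by omega), by omega⟩
    rw [he0, Finset.mem_singleton] at this
    exact this
  refine ⟨hHr, ?_⟩
  intro e he hs
  rw [hall e he hs, hall _ hHr (ic_us_Hr a)]

/-- At a half clean line `m` (with `0 < m`) the path ends with `Vu b`. -/
theorem cut_end {a b : ℤ × ℤ} {G : Finset Edge} (h : IsP a b G) (m : ℕ) (hm : uu b = uu a + 2 * m) (hm0 : 0 < m)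
    (hk : HC (uu a) G m) : Vu b ∈ G ∧ ∀ e ∈ G, us e = uu b - 1 → e = Vu b := by
  have h1 := slice_count h m hm (2 * m)
  rw [if_neg (by omega)] at h1
  have hV1 := ic_Vcard hk.2
  have hH1 : (G.filter (fun e => e.1 = false ∧ us e = uu a + 2 * (m : ℤ))).card = 0 := by
    rw [hV1] at h1
    simp only [Nat.cast_zero] at h1
    have : ((G.filter (fun e => e.1 = false ∧ us e = uu a + 2 * (m : ℤ))).card : ℤ) = 0 := by linarith
    exact_mod_cast this
  have hem := ic_empty_of hH1 hV1
  have h2 := slice_count h m hm (2 * m - 1)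
  rw [if_pos (by omega), if_neg (by omega)] at h2
  have hH2 : (G.filter (fun e => e.1 = false ∧ us e = uu a + (2 * (m : ℤ) - 1))).card = 0 := by
    apply ic_Hcard
    intro e he hs
    exact hk.1 e he (by omega)
  rw [hH2] at h2
  have hV2 : (G.filter (fun e => e.1 = true ∧ us e = uu a + (2 * (m : ℤ) - 1))).card = 1 := by
    have : ((G.filter (fun e => e.1 = true ∧ us e = uu a + (2 * (m : ℤ) - 1))).card : ℤ) = 1 := by
      simp only [Nat.cast_zero] at h2
      linarith
    exact_mod_cast this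
  obtain ⟨e0, he0⟩ := Finset.card_eq_one.1 hV2
  have hab : b ≠ a := by
    intro hc
    rw [hc] at hm
    omega
  have hd := h.def' b
  rw [if_pos rfl, if_neg hab] at hd
  have a1 : Hr b ∉ G := fun hc => hem _ hc (by rw [ic_us_Hr]; omega)
  have a2 : Vd b ∉ G := fun hc => hem _ hc (by rw [ic_us_Vd]; omega)
  have a3 : Hl b ∉ G := by
    intro hc
    have := hk.1 _ hc (by rw [ic_us_Hl]; omega)
    exact absurd this (by simp [Hl])
  unfold dfc at hd
  rw [ic_ind_zero a1, ic_ind_zero a2, ic_ind_zero a3] at hd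
  have hVu : Vu b ∈ G := ic_mem_of_ind (by linarith)
  have hall : ∀ e ∈ G, us e = uu b - 1 → e = e0 := by
    intro e he hs
    have : e ∈ G.filter (fun e => e.1 = true ∧ us e = uu a + (2 * (m : ℤ) - 1)) :=
      Finset.mem_filter.2 ⟨he, hk.1 e he (by omega), by omega⟩
    rw [he0, Finset.mem_singleton] at this
    exact this
  refine ⟨hVu, ?_⟩
  intro e he hs
  rw [hall e he hs, hall _ hVu (ic_us_Vu b)]

/-- An index with no excess in the two adjacent double slices is a half clean line. -/
theorem HC_of_ex {u : ℤ} {G : Finset Edge} {k : ℤ} (h0 : ex u G (k - 1) = 0) (h1 : ex u G k = 0) : HC u G k := by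
  have g0 : (G.filter (fun e => kl u e = k - 1 ∧ Wr u e)).card = 0 := by
    unfold ex at h0
    omega
  have g1 : (G.filter (fun e => kl u e = k ∧ Wr u e)).card = 0 := by
    unfold ex at h1
    omega
  rw [Finset.card_eq_zero, Finset.filter_eq_empty_iff] at g0 g1
  constructor
  · intro e he hs
    cases hb : e.1
    · exfalso
      apply g0 he
      refine ⟨?_, Or.inr ⟨hb, by omega⟩⟩
      unfold kl
      omega
    · rfl
  · intro e he hs
    cases hb : e.1
    · rfl
    · exfalso
      apply g1 he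
      refine ⟨?_, Or.inl ⟨hb, by omega⟩⟩
      unfold kl
      omega

end

end Pool.Agent.H40.WM
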