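import Mathlib
import Pool.Agent.H40.WM.ICut

/-!
# IPrt: parts of a path between half clean lines

`pc u G x y = rt u (lf u G y) x`.  For half clean `x ≤ y` in `[0,m]`: cut at `y`, then cut `L = lf (uu a) G y` (a path from `a` to `vt a y (lp y)`, whose last line is `uu a + 2y`) at `x`; `L` has the same
edges as `G` in the slices `< uu a + 2y`, so `lp a (vt a y _) L x = lp a b G x` for `x < y` and the line `x` is half clean for `L` (for `x < y`; for `x = y` the part is empty and both points coincide).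
`lp_base`: change of base: for `p = vt a x (lp a b G x)` and `R = rt`, `lp p b R (k - x) = lp a b G k - lp a b G x` for `x ≤ k` (`lvl_base`; for `k ≥ m` both are `lvl a b - lp a b G x`).
`ex_part`: wrong edges of the parts.
-/

set_option autoImplicit false

namespace Pool.Agent.H40.WM

open Pool.Agent.H40.SQ

noncomputable section

private theorem ip_HC_sub {u : ℤ} {G L : Finset Edge} {k : ℤ} (h : HC u G k) (hs : L ⊆ G) : HC u L k :=
  ⟨fun e he => h.1 e (hs he), fun e he => h.2 e (hs he)⟩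

private theorem ip_lp_lf {a b : ℤ × ℤ} {G : Finset Edge} (m : ℕ) (hm : uu b = uu a + 2 * m) {x k : ℤ} (hx : x ≤ m) (hk : k ≤ x) :
    lp a (vt a x (lp a b G x)) (lf (uu a) G x) k = lp a b G k := by
  have hup : uu (vt a x (lp a b G x)) = uu a + 2 * x := vt_uu _ _ _
  rcases le_or_gt k 0 with h0 | h0
  · unfold lp
    rw [if_pos h0, if_pos h0]
  rcases hk.eq_or_lt with h1 | h1
  · subst h1
    have e1 : lp a (vt a k (lp a b G k)) (lf (uu a) G k) k = lvl a (vt a k (lp a b G k)) := by
      rw [lp.eq_1 a (vt a k (lp a b G k)), if_neg (by omega), if_pos (by omega)]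
    rw [e1, vt_lvl]
  · rw [lp.eq_1 a (vt a x (lp a b G x)), lp.eq_1 a b G k, if_neg (by omega), if_neg (by omega), if_neg (by omega),
      if_neg (by omega)]
    apply Finset.sum_congr ?_ (fun _ _ => rfl)
    ext e
    unfold lf
    rw [Finset.mem_filter, Finset.mem_filter, Finset.mem_filter]
    unfold kl
    constructor
    · rintro ⟨⟨h2, h3⟩, h4, h5⟩
      exact ⟨h2, h4, h5⟩
    · rintro ⟨h2, h4, h5⟩
      exact ⟨⟨h2, by omega⟩, h4, h5⟩

theorem part {a b : ℤ × ℤ} {G : Finset Edge} (h : IsP a b G) (m : ℕ) (hm : uu b = uu a + 2 * m) {x y : ℤ} (hx : HC (uu a) G x)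
    (hy : HC (uu a) G y) (hx0 : 0 ≤ x) (hxy : x ≤ y) (hy1 : y ≤ m) :
    IsP (vt a x (lp a b G x)) (vt a y (lp a b G y)) (pc (uu a) G x y) := by
  rcases hxy.eq_or_lt with h1 | h1
  · subst h1
    have he : pc (uu a) G x x = ∅ := by
      unfold pc
      rw [Finset.filter_eq_empty_iff]
      rintro e _ ⟨h1, h2⟩
      omega
    rw [he]
    exact IsP_empty _
  · obtain ⟨c1, _⟩ := cut h m hm y hy (by omega) hy1
    have hsub : lf (uu a) G y ⊆ G := Finset.filter_subset _ _
    obtain ⟨m', hm'⟩ : ∃ m' : ℕ, (m' : ℤ) = y := ⟨y.toNat, Int.toNat_of_nonneg (by omega)⟩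
    obtain ⟨_, c2⟩ := cut c1 m' (by rw [vt_uu, hm']) x (ip_HC_sub hx hsub) hx0 (by omega)
    rw [ip_lp_lf m hm hy1 hxy] at c2
    have he : rt (uu a) (lf (uu a) G y) x = pc (uu a) G x y := by
      unfold rt lf pc
      rw [Finset.filter_filter]
      apply Finset.filter_congr
      intro e _
      rw [and_comm]
    rw [he] at c2
    exact c2

theorem split3 (u : ℤ) (G : Finset Edge) {x y : ℤ} (hxy : x ≤ y) :
    G = lf u G x ∪ pc u G x y ∪ rt u G y := by
  ext e
  unfold lf pc rt
  rw [Finset.mem_union, Finset.mem_union, Finset.mem_filter, Finset.mem_filter, Finset.mem_filter]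
  constructor
  · intro he
    rcases lt_or_ge (kl u e) x with h1 | h1
    · exact Or.inl (Or.inl ⟨he, h1⟩)
    · rcases lt_or_ge (kl u e) y with h2 | h2
      · exact Or.inl (Or.inr ⟨he, h1, h2⟩)
      · exact Or.inr ⟨he, h2⟩
  · rintro ((h1 | h1) | h1) <;> exact h1.1

private theorem ip_ex (u : ℤ) (G : Finset Edge) (p : Edge → Prop) [DecidablePred p] (k : ℤ) (P : Prop) [Decidable P]
    (h : ∀ e, kl u e = k → (p e ↔ P)) : ex u (G.filter p) k = if P then ex u G k else 0 := by
  unfold ex
  split_ifs with hP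
  · congr 2
    ext e
    rw [Finset.mem_filter, Finset.mem_filter, Finset.mem_filter]
    constructor
    · rintro ⟨⟨h1, h2⟩, h3⟩
      exact ⟨h1, h3⟩
    · rintro ⟨h1, h3⟩
      exact ⟨⟨h1, (h e h3.1).2 hP⟩, h3⟩
  · have he : (G.filter p).filter (fun e => kl u e = k ∧ Wr u e) = ∅ := by
      rw [Finset.filter_eq_empty_iff]
      intro e he hk
      exact hP ((h e hk.1).1 (Finset.mem_filter.1 he).2)
    rw [he]
    rfl

theorem ex_pc (u : ℤ) (G : Finset Edge) (x y k : ℤ) : ex u (pc u G x y) k = if x ≤ k ∧ k < y then ex u G k else 0 := by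
  unfold pc
  apply ip_ex
  intro e he
  rw [he]

theorem ex_lf (u : ℤ) (G : Finset Edge) (y k : ℤ) : ex u (lf u G y) k = if k < y then ex u G k else 0 := by
  unfold lf
  apply ip_ex
  intro e he
  rw [he]

theorem ex_rt (u : ℤ) (G : Finset Edge) (x k : ℤ) : ex u (rt u G x) k = if x ≤ k then ex u G k else 0 := by
  unfold rt
  apply ip_ex
  intro e he
  rw [he]

private theorem ip_kl_base (u : ℤ) (e : Edge) (j : ℤ) : kl (u + 2 * j) e = kl u e - j := by
  unfold kl
  omega

private theorem ip_Wr_base (u : ℤ) (e : Edge) (j : ℤ) : Wr (u + 2 * j) e ↔ Wr u e := by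
  unfold Wr
  have h1 : (us e - (u + 2 * j)) % 2 = (us e - u) % 2 := by omega
  rw [h1]

/-- Change of the base line by an even number. -/
theorem ex_base (u : ℤ) (G : Finset Edge) (j k : ℤ) : ex (u + 2 * j) G k = ex u G (k + j) := by
  unfold ex
  congr 2
  apply Finset.filter_congr
  intro e _
  rw [ip_kl_base, ip_Wr_base]
  constructor
  · rintro ⟨h1, h2⟩
    exact ⟨by omega, h2⟩
  · rintro ⟨h1, h2⟩
    exact ⟨by omega, h2⟩

theorem kl_base (u : ℤ) (e : Edge) (j : ℤ) : kl (u + 2 * j) e = kl u e - j := ip_kl_base u e j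

private theorem ip_us_sh (v : ℤ × ℤ) (e : Edge) : us (shE v e) = us e + (v.1 - v.2) := by
  unfold us shE
  simp only
  ring

/-- Excess under a translation: only `v.1 - v.2` matters. -/
theorem ex_sh (u : ℤ) (v : ℤ × ℤ) (G : Finset Edge) (k : ℤ) : ex (u + (v.1 - v.2)) (sh v G) k = ex u G k := by
  unfold ex sh
  rw [Finset.filter_image, Finset.card_image_of_injective]
  · congr 2
    apply Finset.filter_congr
    intro e _
    have h1 : us (shE v e) - (u + (v.1 - v.2)) = us e - u := by rw [ip_us_sh]; ring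
    unfold kl Wr
    rw [h1]
    rfl
  · intro e e' he
    unfold shE at he
    rw [Prod.mk.injEq, Prod.mk.injEq] at he
    obtain ⟨h1, h2, h3⟩ := he
    exact Prod.ext h1 (Prod.ext (by linarith) (by linarith))

theorem ex_union {u : ℤ} {A B : Finset Edge} (h : Disjoint A B) (k : ℤ) : ex u (A ∪ B) k = ex u A k + ex u B k := by
  unfold ex
  rw [Finset.filter_union, Finset.card_union_of_disjoint (Finset.disjoint_filter_filter h)]
  ring

theorem lp_vt {a b : ℤ × ℤ} {G : Finset Edge} (m : ℕ) (hm : uu b = uu a + 2 * m) (hm0 : 0 < m) : b = vt a m (lp a b G m) := by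
  have h1 : lp a b G m = lvl a b := by
    unfold lp
    rw [if_neg (by omega), if_pos (by omega)]
  rw [h1]
  exact vt_unique hm

/-- Crossing levels of the left and of the right part. -/
theorem lp_lf {a b : ℤ × ℤ} {G : Finset Edge} (m : ℕ) (hm : uu b = uu a + 2 * m) {x k : ℤ} (hx : x ≤ m) (hk : k ≤ x) :
    lp a (vt a x (lp a b G x)) (lf (uu a) G x) k = lp a b G k := ip_lp_lf m hm hx hk

theorem lp_rt {a b : ℤ × ℤ} {G : Finset Edge} (h : IsP a b G) (m : ℕ) (hm : uu b = uu a + 2 * m) {x k : ℤ} (hx : 0 ≤ x)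
    (hx' : x ≤ m) (hk : x ≤ k) (hkc : HC (uu a) G k) :
    lp (vt a x (lp a b G x)) b (rt (uu a) G x) (k - x) = lp a b G k - lp a b G x := by
  have hup : uu (vt a x (lp a b G x)) = uu a + 2 * x := vt_uu _ _ _
  rcases hk.eq_or_lt with h1 | h1
  · subst h1
    rw [lp.eq_1 (vt a x (lp a b G x)), if_pos (by omega)]
    ring
  rcases le_or_gt (m : ℤ) k with h2 | h2
  · rw [lp.eq_1 (vt a x (lp a b G x)), if_neg (by omega), if_pos (by omega), lp.eq_1 a b G k, if_neg (by omega),
      if_pos (by omega)]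
    exact lvl_base rfl
  · obtain ⟨c1, _, c3, _⟩ := cut_point h m hm k hkc (by omega) h2
    have hf : G.filter (fun e => e.1 = false ∧ us e = uu a + 2 * k) = {Hr (vt a k (lp a b G k))} := by
      ext e
      rw [Finset.mem_filter, Finset.mem_singleton]
      constructor
      · rintro ⟨h3, _, h5⟩
        exact c3 e h3 h5
      · intro he
        subst he
        refine ⟨c1, rfl, ?_⟩
        have h6 : us (Hr (vt a k (lp a b G k))) = uu (vt a k (lp a b G k)) := by simp [us, Hr, uu]
        rw [h6, vt_uu]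
    have hf2 : (rt (uu a) G x).filter (fun e => e.1 = false ∧ us e = uu (vt a x (lp a b G x)) + 2 * (k - x)) =
        {Hr (vt a k (lp a b G k))} := by
      rw [← hf]
      ext e
      unfold rt
      rw [Finset.mem_filter, Finset.mem_filter, Finset.mem_filter]
      unfold kl
      constructor
      · rintro ⟨⟨h3, _⟩, h4, h5⟩
        exact ⟨h3, h4, by omega⟩
      · rintro ⟨h3, h4, h5⟩
        exact ⟨⟨h3, by omega⟩, h4, by omega⟩
    rw [lp.eq_1 (vt a x (lp a b G x)), if_neg (by omega), if_neg (by omega), hf2, Finset.sum_singleton]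
    have hz : ((Hr (vt a k (lp a b G k))).2.1, (Hr (vt a k (lp a b G k))).2.2) = vt a k (lp a b G k) := rfl
    rw [hz, lvl_base (rfl : vt a x (lp a b G x) = vt a x (lp a b G x)), vt_lvl]

end

end Pool.Agent.H40.WM
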