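import Mathlib
import Pool.Agent.H40.WM.IDefs

/-!
# IRis: regular indices

`f : ℤ → ℕ` of finite support.
* `reg_far`: if `f i = 0` for `|i| > N` and `T = ∑ f` then all `k` with `|k| ≥ N + 64 T + 1` are regular.
* `reg_zero`: `k` regular: `f k = 0` (`y = k+1`: `64 f k ≤ 1`) and `f (k-1) = 0`.
* `rise`: `x < y` consecutive regular.  Every `z ∈ (x,y)` is not regular: right type: there is `y' > z` with `64 Sf f z y' > y' - z`; one can take `y' ≤ y`, because if `y' > y` then
  `64 Sf f y y' ≤ y' - y`, so `64 Sf f z y > y - z`.  Left type: there is `x' < z` with `64 Sf f x' z > z - x'`, `x ≤ x'` similarly.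
  Right type points: choose greedily disjoint intervals: claim: for every `w ∈ [x,y]`, the number of right type points in `[w,y)` is at most `64 Sf f w y` (strong induction on `y - w`: if `w` is right type
  (and `w > x`) with interval `[w,y')`, the number is at most `(y' - w) + #[y',y) ≤ 64 Sf f w y' + 64 Sf f y' y`; otherwise pass to `w+1`).  The same for the left type.  Every `z ∈ (x,y)` is of one of the
  two types: `y - x - 1 ≤ 128 Sf f x y`.
* `exists_cons`: for a non regular `z` there are consecutive regular `x < z < y`; for any `z` there is a largest regular index `≤ z` and a smallest regular index `≥ z`.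
* `not_bad`: if not `Bad f t` then for consecutive regular `x < y`: `Sf f x y < t` and `y - x ≤ 128 t`.
-/

set_option autoImplicit false

namespace Pool.Agent.H40.WM

open Pool.Agent.H40.SQ

noncomputable section

private theorem sf_add (f : ℤ → ℕ) {x y z : ℤ} (h : x ≤ y) (h' : y ≤ z) :
    Sf f x z = Sf f x y + Sf f y z := by
  unfold Sf
  rw [← Finset.Ico_union_Ico_eq_Ico h h', Finset.sum_union]
  rw [Finset.disjoint_left]
  intro a ha hb
  rw [Finset.mem_Ico] at ha hb
  omega

private theorem sf_self (f : ℤ → ℕ) (x : ℤ) : Sf f x x = 0 := by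
  unfold Sf
  rw [Finset.Ico_self, Finset.sum_empty]

private theorem sf_one (f : ℤ → ℕ) (x : ℤ) : Sf f x (x + 1) = f x := by
  unfold Sf
  have h : Finset.Ico x (x + 1) = {x} := by
    ext a
    rw [Finset.mem_Ico, Finset.mem_singleton]
    omega
  rw [h, Finset.sum_singleton]

theorem reg_far {f : ℤ → ℕ} (hf : FSup f) : ∃ N : ℤ, 0 ≤ N ∧ ∀ k : ℤ, N ≤ |k| → Reg f k := by
  obtain ⟨N, hN⟩ := hf
  obtain ⟨T, hT⟩ : ∃ T : ℕ, T = Sf f (-(max N 0)) (max N 0 + 1) := ⟨_, rfl⟩
  have h0 : 0 ≤ max N 0 := le_max_right _ _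
  have hle : N ≤ max N 0 := le_max_left _ _
  have h1 : ∀ x y, Sf f x y ≤ T := by
    intro x y
    rw [hT]
    unfold Sf
    apply Finset.sum_le_sum_of_ne_zero
    intro i _ hne
    rw [Finset.mem_Ico]
    have h2 : ¬ N < |i| := fun h => hne (hN i h)
    have h3 := abs_le.1 (show |i| ≤ max N 0 by omega)
    omega
  have h2 : ∀ x y, Sf f x y ≠ 0 → x ≤ max N 0 ∧ -(max N 0) < y := by
    intro x y h
    unfold Sf at h
    obtain ⟨i, hi, hne⟩ := Finset.exists_ne_zero_of_sum_ne_zero h
    rw [Finset.mem_Ico] at hi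
    have h2 : ¬ N < |i| := fun h => hne (hN i h)
    have h3 := abs_le.1 (show |i| ≤ max N 0 by omega)
    omega
  refine ⟨max N 0 + 64 * T + 1, by omega, ?_⟩
  intro k hk
  constructor
  · intro y hy
    by_cases h : Sf f k y = 0
    · rw [h]
      push_cast
      omega
    · have h3 := h2 k y h
      have h4 := h1 k y
      have h5 : k < 0 := by
        by_contra h6
        rw [abs_of_nonneg (by omega)] at hk
        omega
      rw [abs_of_neg h5] at hk
      omega
  · intro x hx
    by_cases h : Sf f x k = 0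
    · rw [h]
      push_cast
      omega
    · have h3 := h2 x k h
      have h4 := h1 x k
      have h5 : 0 ≤ k := by
        by_contra h6
        rw [abs_of_neg (by omega)] at hk
        omega
      rw [abs_of_nonneg h5] at hk
      omega

theorem reg_zero {f : ℤ → ℕ} {k : ℤ} (h : Reg f k) : f k = 0 ∧ f (k - 1) = 0 := by
  have h1 := h.1 (k + 1) (by omega)
  have h2 := h.2 (k - 1) (by omega)
  have h3 := sf_one f (k - 1)
  rw [sub_add_cancel] at h3
  rw [sf_one] at h1
  rw [h3] at h2
  omega

private theorem right_cnt (f : ℤ → ℕ) (y : ℤ) (P : ℤ → Prop) [DecidablePred P]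
    (hP : ∀ z, P z → ∃ y', z < y' ∧ y' ≤ y ∧ y' - z < 64 * (Sf f z y' : ℤ)) :
    ∀ (n : ℕ) (w : ℤ), w ≤ y → (y - w).toNat = n →
      ((((Finset.Ico w y).filter P).card : ℕ) : ℤ) ≤ 64 * (Sf f w y : ℤ) := by
  intro n
  induction n using Nat.strong_induction_on with
  | _ n ih =>
    intro w hw hn
    rcases hw.eq_or_lt with rfl | hlt
    · rw [Finset.Ico_self, Finset.filter_empty, Finset.card_empty]
      positivity
    by_cases h : P w
    · obtain ⟨y', h1, h2, h3⟩ := hP w h
      have h4 := ih (y - y').toNat (by omega) y' h2 rfl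
      have h5 : ((Finset.Ico w y).filter P).card ≤ (Finset.Ico w y').card +
          ((Finset.Ico y' y).filter P).card := by
        refine (Finset.card_le_card ?_).trans (Finset.card_union_le _ _)
        intro a ha
        rw [Finset.mem_filter, Finset.mem_Ico] at ha
        rw [Finset.mem_union, Finset.mem_filter, Finset.mem_Ico, Finset.mem_Ico]
        rcases lt_or_ge a y' with h6 | h6
        · exact Or.inl ⟨ha.1.1, h6⟩
        · exact Or.inr ⟨⟨h6, ha.1.2⟩, ha.2⟩
      rw [Int.card_Ico] at h5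
      have h6 := sf_add f h1.le h2
      rw [h6]
      push_cast
      omega
    · have h4 := ih (y - (w + 1)).toNat (by omega) (w + 1) (by omega) rfl
      have h5 : ((Finset.Ico w y).filter P).card ≤ ((Finset.Ico (w + 1) y).filter P).card := by
        refine Finset.card_le_card ?_
        intro a ha
        rw [Finset.mem_filter, Finset.mem_Ico] at ha
        rw [Finset.mem_filter, Finset.mem_Ico]
        have h6 : a ≠ w := fun h7 => h (h7 ▸ ha.2)
        exact ⟨by omega, ha.2⟩
      have h6 := sf_add f (show w ≤ w + 1 by omega) (show w + 1 ≤ y by omega)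
      rw [h6]
      push_cast
      omega

private theorem left_cnt (f : ℤ → ℕ) (x : ℤ) (P : ℤ → Prop) [DecidablePred P]
    (hP : ∀ z, P z → ∃ x', x ≤ x' ∧ x' < z ∧ z - x' < 64 * (Sf f x' z : ℤ)) :
    ∀ (n : ℕ) (w : ℤ), x ≤ w → (w - x).toNat = n →
      ((((Finset.Ioc x w).filter P).card : ℕ) : ℤ) ≤ 64 * (Sf f x w : ℤ) := by
  intro n
  induction n using Nat.strong_induction_on with
  | _ n ih =>
    intro w hw hn
    rcases hw.eq_or_lt with rfl | hlt
    · rw [Finset.Ioc_self, Finset.filter_empty, Finset.card_empty]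
      positivity
    by_cases h : P w
    · obtain ⟨x', h1, h2, h3⟩ := hP w h
      have h4 := ih (x' - x).toNat (by omega) x' h1 rfl
      have h5 : ((Finset.Ioc x w).filter P).card ≤ (Finset.Ioc x' w).card +
          ((Finset.Ioc x x').filter P).card := by
        refine (Finset.card_le_card ?_).trans (Finset.card_union_le _ _)
        intro a ha
        rw [Finset.mem_filter, Finset.mem_Ioc] at ha
        rw [Finset.mem_union, Finset.mem_filter, Finset.mem_Ioc, Finset.mem_Ioc]
        rcases le_or_gt a x' with h6 | h6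
        · exact Or.inr ⟨⟨ha.1.1, h6⟩, ha.2⟩
        · exact Or.inl ⟨h6, ha.1.2⟩
      rw [Int.card_Ioc] at h5
      have h6 := sf_add f h1 h2.le
      rw [h6]
      push_cast
      omega
    · have h4 := ih (w - 1 - x).toNat (by omega) (w - 1) (by omega) rfl
      have h5 : ((Finset.Ioc x w).filter P).card ≤ ((Finset.Ioc x (w - 1)).filter P).card := by
        refine Finset.card_le_card ?_
        intro a ha
        rw [Finset.mem_filter, Finset.mem_Ioc] at ha
        rw [Finset.mem_filter, Finset.mem_Ioc]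
        have h6 : a ≠ w := fun h7 => h (h7 ▸ ha.2)
        exact ⟨by omega, ha.2⟩
      have h6 := sf_add f (show x ≤ w - 1 by omega) (show w - 1 ≤ w by omega)
      rw [h6]
      push_cast
      omega

theorem rise {f : ℤ → ℕ} {x y : ℤ} (h : Cons f x y) : y - x - 1 ≤ 128 * (Sf f x y : ℤ) := by
  classical
  obtain ⟨hx, hy, hlt, hno⟩ := h
  have hR := right_cnt f y (fun z => z ≤ y ∧ ∃ y', z < y' ∧ y' ≤ y ∧ y' - z < 64 * (Sf f z y' : ℤ))
    (fun z hz => hz.2) _ (x + 1) (by omega) rfl
  have hL := left_cnt f x (fun z => x ≤ z ∧ ∃ x', x ≤ x' ∧ x' < z ∧ z - x' < 64 * (Sf f x' z : ℤ))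
    (fun z hz => hz.2) _ (y - 1) (by omega) rfl
  have hcov : (Finset.Ioo x y).card ≤
      ((Finset.Ico (x + 1) y).filter
        (fun z => z ≤ y ∧ ∃ y', z < y' ∧ y' ≤ y ∧ y' - z < 64 * (Sf f z y' : ℤ))).card +
      ((Finset.Ioc x (y - 1)).filter
        (fun z => x ≤ z ∧ ∃ x', x ≤ x' ∧ x' < z ∧ z - x' < 64 * (Sf f x' z : ℤ))).card := by
    refine (Finset.card_le_card ?_).trans (Finset.card_union_le _ _)
    intro z hz
    rw [Finset.mem_Ioo] at hz
    rw [Finset.mem_union, Finset.mem_filter, Finset.mem_filter, Finset.mem_Ico, Finset.mem_Ioc]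
    have hn := hno z hz.1 hz.2
    unfold Reg at hn
    rw [not_and_or] at hn
    rcases hn with hn | hn
    · left
      push Not at hn
      obtain ⟨y', h1, h2⟩ := hn
      refine ⟨⟨by omega, hz.2⟩, hz.2.le, ?_⟩
      rcases le_or_gt y' y with h3 | h3
      · refine ⟨y', ?_, h3, h2⟩
        rcases h1.eq_or_lt with h4 | h4
        · rw [← h4, sf_self] at h2
          push_cast at h2
          omega
        · exact h4
      · refine ⟨y, hz.2, le_refl _, ?_⟩
        have h4 := hy.1 y' h3.le
        have h5 := sf_add f hz.2.le h3.le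
        rw [h5] at h2
        push_cast at h2
        omega
    · right
      push Not at hn
      obtain ⟨x', h1, h2⟩ := hn
      refine ⟨⟨hz.1, by omega⟩, hz.1.le, ?_⟩
      rcases le_or_gt x x' with h3 | h3
      · refine ⟨x', h3, ?_, h2⟩
        rcases h1.eq_or_lt with h4 | h4
        · rw [← h4, sf_self] at h2
          push_cast at h2
          omega
        · exact h4
      · refine ⟨x, le_refl _, hz.1, ?_⟩
        have h4 := hx.2 x' h3.le
        have h5 := sf_add f h3.le hz.1.le
        rw [h5] at h2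
        push_cast at h2
        omega
  rw [Int.card_Ioo] at hcov
  have e1 := sf_add f (show x ≤ x + 1 by omega) (show x + 1 ≤ y by omega)
  have e2 := sf_add f (show x ≤ y - 1 by omega) (show y - 1 ≤ y by omega)
  omega

theorem exists_reg_le {f : ℤ → ℕ} (hf : FSup f) (z : ℤ) : ∃ x, x ≤ z ∧ Reg f x ∧ ∀ w, x < w → w ≤ z → ¬ Reg f w := by
  obtain ⟨N, hN0, hN⟩ := reg_far hf
  have h1 : ∃ x, x ≤ z ∧ Reg f x := by
    refine ⟨-(N + |z|), ?_, ?_⟩
    · have := neg_abs_le z
      omega
    · apply hN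
      have := abs_nonneg z
      rw [abs_neg, abs_of_nonneg (by omega)]
      omega
  obtain ⟨x, ⟨h2, h3⟩, h4⟩ := Int.exists_greatest_of_bdd (P := fun x => x ≤ z ∧ Reg f x)
    ⟨z, fun x hx => hx.1⟩ h1
  refine ⟨x, h2, h3, fun w hw hw' hr => ?_⟩
  have := h4 w ⟨hw', hr⟩
  omega

theorem exists_reg_ge {f : ℤ → ℕ} (hf : FSup f) (z : ℤ) : ∃ y, z ≤ y ∧ Reg f y ∧ ∀ w, z ≤ w → w < y → ¬ Reg f w := by
  obtain ⟨N, hN0, hN⟩ := reg_far hf
  have h1 : ∃ x, z ≤ x ∧ Reg f x := by
    refine ⟨N + |z|, ?_, ?_⟩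
    · have := le_abs_self z
      omega
    · apply hN
      have := abs_nonneg z
      rw [abs_of_nonneg (by omega)]
      omega
  obtain ⟨x, ⟨h2, h3⟩, h4⟩ := Int.exists_least_of_bdd (P := fun x => z ≤ x ∧ Reg f x)
    ⟨z, fun x hx => hx.1⟩ h1
  refine ⟨x, h2, h3, fun w hw hw' hr => ?_⟩
  have := h4 w ⟨hw, hr⟩
  omega

theorem not_bad {f : ℤ → ℕ} {t : ℕ} (h : ¬ Bad f t) {x y : ℤ} (hc : Cons f x y) :
    Sf f x y < t ∧ y - x ≤ 128 * (t : ℤ) := by
  have h1 : Sf f x y < t := by
    by_contra h2
    exact h ⟨x, y, hc, by omega⟩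
  have h2 := rise hc
  refine ⟨h1, ?_⟩
  omega

/-- Without bad stretches every window of length `130 t` contains a regular index. -/
theorem reg_window {f : ℤ → ℕ} (hf : FSup f) {t : ℕ} (ht : 1 ≤ t) (h : ¬ Bad f t) (z : ℤ) :
    ∃ x, z ≤ x ∧ x < z + 128 * (t : ℤ) ∧ Reg f x := by
  obtain ⟨y, h1, h2, h3⟩ := exists_reg_ge hf z
  obtain ⟨x, h4, h5, h6⟩ := exists_reg_le hf z
  by_cases hr : Reg f z
  · exact ⟨z, le_refl _, by omega, hr⟩
  · have h7 : x < z := by
      rcases h4.eq_or_lt with h8 | h8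
      · rw [h8] at h5
        exact absurd h5 hr
      · exact h8
    have h8 : z < y := by
      rcases h1.eq_or_lt with h9 | h9
      · rw [← h9] at h2
        exact absurd h2 hr
      · exact h9
    have hc : Cons f x y := by
      refine ⟨h5, h2, by omega, fun w hw hw' => ?_⟩
      rcases le_or_gt w z with h9 | h9
      · exact h6 w hw h9
      · exact h3 w h9.le hw'
    have h9 := not_bad h hc
    exact ⟨y, h1, by omega, h2⟩

theorem Sf_mono {f g : ℤ → ℕ} (hfg : ∀ i, f i ≤ g i) (x y : ℤ) : Sf f x y ≤ Sf g x y := by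
  unfold Sf
  exact Finset.sum_le_sum fun i _ => hfg i

theorem reg_mono {f g : ℤ → ℕ} (hfg : ∀ i, f i ≤ g i) {k : ℤ} (h : Reg g k) : Reg f k := by
  constructor
  · intro y hy
    have h1 := h.1 y hy
    have h2 := Sf_mono hfg k y
    omega
  · intro x hx
    have h1 := h.2 x hx
    have h2 := Sf_mono hfg x k
    omega

theorem Sf_add (f : ℤ → ℕ) {x y z : ℤ} (h : x ≤ y) (h' : y ≤ z) : Sf f x z = Sf f x y + Sf f y z :=
  sf_add f h h'

end

end Pool.Agent.H40.WM
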