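import Mathlib
import Pool.Agent.H40.WM.IPrt
import Pool.Agent.H40.WM.IRis

/-!
# ICon: the cone lemma

Let `f ≥ ex (uu a) G` pointwise, `Reg f k`, `0 ≤ k ≤ m`.  `reg_zero`, `HC_of_ex`: `k` is half clean.
Right side: let `e ∈ G`, `i = kl e ≥ k`.  Then `k < m` (`cut_right`).  Let `y > i` be minimal with `ex (y-1) = ex y = 0` (exists: finite support).  For `i < j < y`: `ex (j-1) + ex j ≥ 2` (`ex` is even), so
`2 (y - 1 - i) ≤ ∑_{j=i+1}^{y-1} (ex (j-1) + ex j) ≤ 2 Sf ex i y ≤ 2 Sf f k y`, and `64 Sf f k y ≤ y - k`; so `64 (y - 1 - i) ≤ y - k`, `63 (y - i) ≤ (i - k) + 64`.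
The part `T` of `G` between `k` and `min y m` (if `y ≥ m` the part right of `k`, everything: `rt`) is connected (`part` or `cut`; `y` half clean; for `y ≥ m` `cut_right`) and contains `e`, and `Hr (pt k)` (for
`k = 0` `cut_start`, for `0 < k` `cut_point`), whose end `pt k` has level `lp k`.  `spread`: `|lvl z - lp k| ≤` number of wrong edges of `T` `= Sf ex k y / 2 ≤ (y - k)/128`.
So `128 |lvl z - lp k| ≤ y - k` and `63 (y - k) ≤ 64 (i - k) + 64`: `100 |...| ≤ (i - k) + 1`.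
Left side: `i = kl e < k`, then `0 < k`; `y ≤ i` maximal with `ex (y-1) = ex y = 0`; `64 (i - y) ≤ k - y`; the part between `y` and `k`, it contains `Vu (pt k)` (`cut_point`, `cut_end`).
`cone_a`: apply the left side to an edge of `G` at `a` (`IsP_touch`; its slice is `≥ uu a - 1`, so `kl ≥ -1`).  `cone_b`: the right side and an edge at `b` (`kl ≤ m`).
`cone_two`: `x ≤ y` both regular: `|lp x - lp y| ≤ Sf ex x y / 2` by `spread` on `pc x y`.
-/

set_option autoImplicit false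

namespace Pool.Agent.H40.WM

open Pool.Agent.H40.SQ

noncomputable section

private theorem ic2_wr_card (u : ℤ) (G : Finset Edge) (x y : ℤ) :
    2 * (G.filter (fun e => (x ≤ kl u e ∧ kl u e < y) ∧ Wr u e)).card = Sf (ex u G) x y := by
  unfold Sf
  have h1 : (G.filter (fun e => (x ≤ kl u e ∧ kl u e < y) ∧ Wr u e)).card =
      ∑ i ∈ Finset.Ico x y, ((G.filter (fun e => (x ≤ kl u e ∧ kl u e < y) ∧ Wr u e)).filter
        (fun e => kl u e = i)).card := by
    apply Finset.card_eq_sum_card_fiberwise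
    intro e he
    have := (Finset.mem_filter.1 he).2.1
    exact Finset.mem_coe.2 (Finset.mem_Ico.2 this)
  rw [h1, Finset.mul_sum]
  apply Finset.sum_congr rfl
  intro i hi
  rw [Finset.mem_Ico] at hi
  unfold ex
  congr 2
  ext e
  rw [Finset.mem_filter, Finset.mem_filter, Finset.mem_filter]
  constructor
  · rintro ⟨⟨h2, _, h4⟩, h5⟩
    exact ⟨h2, h5, h4⟩
  · rintro ⟨h2, h5, h4⟩
    exact ⟨⟨h2, by rw [h5]; exact hi, h4⟩, h5⟩

private theorem ic2_wr_le (u : ℤ) (G T : Finset Edge) (x y : ℤ) (hT : ∀ e ∈ T, e ∈ G ∧ x ≤ kl u e ∧ kl u e < y) :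
    2 * (T.filter (fun e => Wr u e)).card ≤ Sf (ex u G) x y := by
  rw [← ic2_wr_card]
  apply Nat.mul_le_mul_left
  apply Finset.card_le_card
  intro e he
  rw [Finset.mem_filter] at he
  rw [Finset.mem_filter]
  exact ⟨(hT e he.1).1, (hT e he.1).2, he.2⟩

private theorem ic2_even (u : ℤ) (G : Finset Edge) (i : ℤ) (h : ex u G i ≠ 0) : 2 ≤ ex u G i := by
  unfold ex at h ⊢
  omega

private theorem ic2_HC {u : ℤ} {G : Finset Edge} {f : ℤ → ℕ} (hf : ∀ i, ex u G i ≤ f i) {k : ℤ} (hk : Reg f k) :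
    HC u G k := by
  have h1 := reg_zero (reg_mono hf hk)
  exact HC_of_ex h1.2 h1.1

private theorem ic2_Sf_succ (f : ℤ → ℕ) {x y : ℤ} (h : x ≤ y) : Sf f x (y + 1) = Sf f x y + f y := by
  rw [Sf_add f h (by omega : y ≤ y + 1)]
  congr 1
  unfold Sf
  have h : Finset.Ico y (y + 1) = {y} := by
    ext a
    rw [Finset.mem_Ico, Finset.mem_singleton]
    omega
  rw [h, Finset.sum_singleton]

private theorem ic2_Sf_pred (f : ℤ → ℕ) {x y : ℤ} (h : x ≤ y) : Sf f (x - 1) y = f (x - 1) + Sf f x y := by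
  rw [Sf_add f (by omega : x - 1 ≤ x) h]
  congr 1
  unfold Sf
  have h : Finset.Ico (x - 1) x = {x - 1} := by
    ext a
    rw [Finset.mem_Ico, Finset.mem_singleton]
    omega
  rw [h, Finset.sum_singleton]

private theorem ic2_run_right (u : ℤ) (G : Finset Edge) (i : ℤ) (n : ℕ)
    (h : ∀ j : ℕ, j < n → ¬ (ex u G (i + j) = 0 ∧ ex u G (i + 1 + j) = 0)) :
    2 * n + ex u G (i + n) ≤ 2 * Sf (ex u G) i (i + 1 + n) := by
  induction n with
  | zero =>
    have h1 : Sf (ex u G) i (i + 1) = ex u G i := by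
      rw [ic2_Sf_succ _ le_rfl]
      simp [Sf]
    simp only [Nat.cast_zero, add_zero, h1, mul_zero, zero_add]
    omega
  | succ n ih =>
    have ih' := ih (fun j hj => h j (by omega))
    have h2 := h n (by omega)
    have h3 : Sf (ex u G) i (i + 1 + n + 1) = Sf (ex u G) i (i + 1 + n) + ex u G (i + 1 + n) :=
      ic2_Sf_succ _ (by omega)
    have e1 : i + 1 + ((n + 1 : ℕ) : ℤ) = i + 1 + n + 1 := by push_cast; ring
    have e2 : i + ((n + 1 : ℕ) : ℤ) = i + 1 + n := by push_cast; ring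
    rw [e1, e2, h3]
    by_cases h4 : ex u G (i + 1 + n) = 0
    · have h5 : ex u G (i + n) ≠ 0 := fun hc => h2 ⟨hc, h4⟩
      have h6 := ic2_even u G _ h5
      omega
    · have h6 := ic2_even u G _ h4
      omega

private theorem ic2_run_left (u : ℤ) (G : Finset Edge) (i : ℤ) (n : ℕ)
    (h : ∀ j : ℕ, j < n → ¬ (ex u G (i - j - 1) = 0 ∧ ex u G (i - j) = 0)) :
    2 * n + ex u G (i - n) ≤ 2 * Sf (ex u G) (i - n) (i + 1) := by
  induction n with
  | zero =>
    have h1 : Sf (ex u G) i (i + 1) = ex u G i := by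
      rw [ic2_Sf_succ _ le_rfl]
      simp [Sf]
    simp only [Nat.cast_zero, sub_zero, h1, mul_zero, zero_add]
    omega
  | succ n ih =>
    have ih' := ih (fun j hj => h j (by omega))
    have h2 := h n (by omega)
    have h3 : Sf (ex u G) (i - n - 1) (i + 1) = ex u G (i - n - 1) + Sf (ex u G) (i - n) (i + 1) :=
      ic2_Sf_pred _ (by omega)
    have e1 : i - ((n + 1 : ℕ) : ℤ) = i - n - 1 := by push_cast; ring
    rw [e1, h3]
    by_cases h4 : ex u G (i - n - 1) = 0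
    · have h5 : ex u G (i - n) ≠ 0 := fun hc => h2 ⟨h4, hc⟩
      have h6 := ic2_even u G _ h5
      omega
    · have h6 := ic2_even u G _ h4
      omega

theorem cone_right {a b : ℤ × ℤ} {G : Finset Edge} (h : IsP a b G) (m : ℕ) (hm : uu b = uu a + 2 * m) {f : ℤ → ℕ}
    (hf : ∀ i, ex (uu a) G i ≤ f i) {k : ℤ} (hk : Reg f k) (hk0 : 0 ≤ k) (hk1 : k ≤ m) {e : Edge} (he : e ∈ G)
    (hke : k ≤ kl (uu a) e) {z : ℤ × ℤ} (hz : z ∈ ends e) :
    100 * |lvl a z - lp a b G k| ≤ kl (uu a) e - k + 1 := by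
  classical
  have hkc := ic2_HC hf hk
  set i := kl (uu a) e with hi
  have hex : ∃ n : ℕ, ex (uu a) G (i + n) = 0 ∧ ex (uu a) G (i + 1 + n) = 0 := by
    obtain ⟨N, hN⟩ := ex_fsup (uu a) G
    refine ⟨(N + |i| + 1).toNat + 1, ?_, ?_⟩
    · apply hN
      have := neg_abs_le i
      have h2 := le_abs_self (i + (((N + |i| + 1).toNat + 1 : ℕ) : ℤ))
      have h3 := Int.self_le_toNat (N + |i| + 1)
      push_cast at h2 ⊢
      omega
    · apply hN
      have := neg_abs_le i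
      have h2 := le_abs_self (i + 1 + (((N + |i| + 1).toNat + 1 : ℕ) : ℤ))
      have h3 := Int.self_le_toNat (N + |i| + 1)
      push_cast at h2 ⊢
      omega
  obtain ⟨n, ⟨hn1, hn2⟩, hmin⟩ : ∃ n : ℕ, (ex (uu a) G (i + n) = 0 ∧ ex (uu a) G (i + 1 + n) = 0) ∧
      ∀ j : ℕ, j < n → ¬ (ex (uu a) G (i + j) = 0 ∧ ex (uu a) G (i + 1 + j) = 0) :=
    ⟨Nat.find hex, Nat.find_spec hex, fun j hj => Nat.find_min hex hj⟩
  have hrun := ic2_run_right (uu a) G i n hmin
  set y : ℤ := i + 1 + n with hy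
  have hyc : HC (uu a) G y := by
    apply HC_of_ex
    · have : y - 1 = i + n := by omega
      rw [this]
      exact hn1
    · exact hn2
  have hS1 : Sf (ex (uu a) G) k y = Sf (ex (uu a) G) k i + Sf (ex (uu a) G) i y := Sf_add _ hke (by omega)
  have hS2 : Sf (ex (uu a) G) k y ≤ Sf f k y := Sf_mono hf _ _
  have hS3 := hk.1 y (by omega)
  obtain ⟨T, cT, hT, heT, hTn⟩ : ∃ T : Finset Edge, Conn T ∧ (∀ e ∈ T, e ∈ G ∧ k ≤ kl (uu a) e ∧ kl (uu a) e < y) ∧ e ∈ T ∧
      ∃ e' ∈ T, vt a k (lp a b G k) ∈ ends e' := by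
    rcases le_or_gt y m with hym | hym
    · have hp := part h m hm hkc hyc hk0 (by omega) hym
      have heT : e ∈ pc (uu a) G k y := Finset.mem_filter.2 ⟨he, hke, by omega⟩
      refine ⟨pc (uu a) G k y, hp.conn, ?_, heT, (IsP_touch hp ⟨e, heT⟩).1⟩
      intro e' he'
      exact Finset.mem_filter.1 he'
    · have hp := (cut h m hm k hkc hk0 hk1).2
      have heT : e ∈ rt (uu a) G k := Finset.mem_filter.2 ⟨he, hke⟩
      refine ⟨rt (uu a) G k, hp.conn, ?_, heT, (IsP_touch hp ⟨e, heT⟩).1⟩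
      intro e' he'
      obtain ⟨h1, h2⟩ := Finset.mem_filter.1 he'
      refine ⟨h1, h2, ?_⟩
      by_contra hc
      have h3 := cut_right h m hm y hyc hym.le
      have h4 : e' ∈ rt (uu a) G y := Finset.mem_filter.2 ⟨h1, by omega⟩
      rw [h3] at h4
      exact absurd h4 (Finset.notMem_empty _)
  obtain ⟨e', he', hze'⟩ := hTn
  have hsp := spread a cT heT he' hz hze'
  rw [vt_lvl] at hsp
  have hw := ic2_wr_le (uu a) G T k y hT
  have hw' : 2 * ((T.filter (fun e => Wr (uu a) e)).card : ℤ) ≤ (Sf (ex (uu a) G) k y : ℤ) := by exact_mod_cast hw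
  have hyy : y - k = i - k + 1 + n := by omega
  omega

theorem cone_left {a b : ℤ × ℤ} {G : Finset Edge} (h : IsP a b G) (m : ℕ) (hm : uu b = uu a + 2 * m) {f : ℤ → ℕ}
    (hf : ∀ i, ex (uu a) G i ≤ f i) {k : ℤ} (hk : Reg f k) (hk0 : 0 ≤ k) (hk1 : k ≤ m) {e : Edge} (he : e ∈ G)
    (hke : kl (uu a) e < k) {z : ℤ × ℤ} (hz : z ∈ ends e) :
    100 * |lvl a z - lp a b G k| ≤ k - kl (uu a) e := by
  classical
  have hkc := ic2_HC hf hk
  set i := kl (uu a) e with hi
  have hex : ∃ n : ℕ, ex (uu a) G (i - n - 1) = 0 ∧ ex (uu a) G (i - n) = 0 := by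
    obtain ⟨N, hN⟩ := ex_fsup (uu a) G
    refine ⟨(N + |i| + 1).toNat + 1, ?_, ?_⟩
    · apply hN
      have := le_abs_self i
      have h2 := neg_le_abs (i - (((N + |i| + 1).toNat + 1 : ℕ) : ℤ) - 1)
      have h3 := Int.self_le_toNat (N + |i| + 1)
      push_cast at h2 ⊢
      omega
    · apply hN
      have := le_abs_self i
      have h2 := neg_le_abs (i - (((N + |i| + 1).toNat + 1 : ℕ) : ℤ))
      have h3 := Int.self_le_toNat (N + |i| + 1)
      push_cast at h2 ⊢
      omega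
  obtain ⟨n, ⟨hn1, hn2⟩, hmin⟩ : ∃ n : ℕ, (ex (uu a) G (i - n - 1) = 0 ∧ ex (uu a) G (i - n) = 0) ∧
      ∀ j : ℕ, j < n → ¬ (ex (uu a) G (i - j - 1) = 0 ∧ ex (uu a) G (i - j) = 0) :=
    ⟨Nat.find hex, Nat.find_spec hex, fun j hj => Nat.find_min hex hj⟩
  have hrun := ic2_run_left (uu a) G i n hmin
  set y : ℤ := i - n with hy
  have hyc : HC (uu a) G y := HC_of_ex hn1 hn2
  have hS1 : Sf (ex (uu a) G) y k = Sf (ex (uu a) G) y (i + 1) + Sf (ex (uu a) G) (i + 1) k :=
    Sf_add _ (by omega) (by omega)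
  have hS2 : Sf (ex (uu a) G) y k ≤ Sf f y k := Sf_mono hf _ _
  have hS3 := hk.2 y (by omega)
  obtain ⟨T, cT, hT, heT, hTn⟩ : ∃ T : Finset Edge, Conn T ∧ (∀ e ∈ T, e ∈ G ∧ y ≤ kl (uu a) e ∧ kl (uu a) e < k) ∧ e ∈ T ∧
      ∃ e' ∈ T, vt a k (lp a b G k) ∈ ends e' := by
    rcases le_or_gt 0 y with hym | hym
    · have hp := part h m hm hyc hkc hym (by omega) hk1
      have heT : e ∈ pc (uu a) G y k := Finset.mem_filter.2 ⟨he, by omega, hke⟩
      refine ⟨pc (uu a) G y k, hp.conn, ?_, heT, (IsP_touch hp ⟨e, heT⟩).2⟩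
      intro e' he'
      exact Finset.mem_filter.1 he'
    · have hp := (cut h m hm k hkc hk0 hk1).1
      have heT : e ∈ lf (uu a) G k := Finset.mem_filter.2 ⟨he, hke⟩
      refine ⟨lf (uu a) G k, hp.conn, ?_, heT, (IsP_touch hp ⟨e, heT⟩).2⟩
      intro e' he'
      obtain ⟨h1, h2⟩ := Finset.mem_filter.1 he'
      refine ⟨h1, ?_, h2⟩
      by_contra hc
      have h3 := cut_left h m hm y hyc hym.le
      have h4 : e' ∈ lf (uu a) G y := Finset.mem_filter.2 ⟨h1, by omega⟩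
      rw [h3] at h4
      exact absurd h4 (Finset.notMem_empty _)
  obtain ⟨e', he', hze'⟩ := hTn
  have hsp := spread a cT heT he' hz hze'
  rw [vt_lvl] at hsp
  have hw := ic2_wr_le (uu a) G T y k hT
  have hw' : 2 * ((T.filter (fun e => Wr (uu a) e)).card : ℤ) ≤ (Sf (ex (uu a) G) y k : ℤ) := by exact_mod_cast hw
  omega

theorem cone_a {a b : ℤ × ℤ} {G : Finset Edge} (h : IsP a b G) (m : ℕ) (hm : uu b = uu a + 2 * m) {f : ℤ → ℕ}
    (hf : ∀ i, ex (uu a) G i ≤ f i) {k : ℤ} (hk : Reg f k) (hk0 : 0 ≤ k) (hk1 : k ≤ m) :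
    100 * |lp a b G k| ≤ k + 1 := by
  rcases hk0.eq_or_lt with h0 | h0
  · subst h0
    have h1 : lp a b G 0 = 0 := by
      unfold lp
      rw [if_pos le_rfl]
    rw [h1]
    norm_num
  · have hne : G.Nonempty := by
      rw [Finset.nonempty_iff_ne_empty]
      intro hc
      have := (IsP_empty_iff h).1 hc
      rw [this] at hm
      omega
    obtain ⟨⟨e, he, hae⟩, _⟩ := IsP_touch h hne
    have h1 := ends_uu hae
    have h2 : -1 ≤ kl (uu a) e ∧ kl (uu a) e ≤ 0 := by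
      unfold kl
      omega
    have h3 := cone_left h m hm hf hk hk0 hk1 he (by omega) hae
    have h4 : lvl a a = 0 := by
      unfold lvl
      simp
    rw [h4, zero_sub, abs_neg] at h3
    omega

theorem cone_b {a b : ℤ × ℤ} {G : Finset Edge} (h : IsP a b G) (m : ℕ) (hm : uu b = uu a + 2 * m) {f : ℤ → ℕ}
    (hf : ∀ i, ex (uu a) G i ≤ f i) {k : ℤ} (hk : Reg f k) (hk0 : 0 ≤ k) (hk1 : k ≤ m) :
    100 * |lvl a b - lp a b G k| ≤ m - k + 1 := by
  have hkc := ic2_HC hf hk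
  rcases hk1.eq_or_lt with h0 | h0
  · rcases hk0.eq_or_lt with h1 | h1
    · have e1 := cut_left h m hm k hkc (by omega)
      have e2 := cut_right h m hm k hkc (by omega)
      have e3 : G = ∅ := by
        rw [Finset.eq_empty_iff_forall_notMem]
        intro e he
        rcases lt_or_ge (kl (uu a) e) k with h2 | h2
        · have h3 : e ∈ lf (uu a) G k := Finset.mem_filter.2 ⟨he, h2⟩
          rw [e1] at h3
          exact absurd h3 (Finset.notMem_empty _)
        · have h3 : e ∈ rt (uu a) G k := Finset.mem_filter.2 ⟨he, h2⟩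
          rw [e2] at h3
          exact absurd h3 (Finset.notMem_empty _)
      have e4 := (IsP_empty_iff h).1 e3
      have h4 : lvl a a = 0 := by
        unfold lvl
        simp
      have h5 : lp a b G k = 0 := by
        unfold lp
        rw [if_pos (by omega)]
      rw [h5, ← e4, h4]
      norm_num
      omega
    · have h5 : lp a b G k = lvl a b := by
        unfold lp
        rw [if_neg (by omega), if_pos (by omega)]
      rw [h5, sub_self, abs_zero]
      omega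
  · have hne : G.Nonempty := by
      rw [Finset.nonempty_iff_ne_empty]
      intro hc
      have := (IsP_empty_iff h).1 hc
      rw [this] at hm
      omega
    obtain ⟨_, ⟨e, he, hae⟩⟩ := IsP_touch h hne
    have h1 := ends_uu hae
    have h2 : (m : ℤ) - 1 ≤ kl (uu a) e ∧ kl (uu a) e ≤ m := by
      unfold kl
      omega
    have h3 := cone_right h m hm hf hk hk0 hk1 he (by omega) hae
    omega

theorem cone_two {a b : ℤ × ℤ} {G : Finset Edge} (h : IsP a b G) (m : ℕ) (hm : uu b = uu a + 2 * m) {f : ℤ → ℕ}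
    (hf : ∀ i, ex (uu a) G i ≤ f i) {x y : ℤ} (hx : Reg f x) (hy : Reg f y) (hx0 : 0 ≤ x) (hxy : x ≤ y) (hy1 : y ≤ m) :
    2 * |lp a b G x - lp a b G y| ≤ (Sf (ex (uu a) G) x y : ℤ) := by
  rcases hxy.eq_or_lt with h0 | h0
  · subst h0
    rw [sub_self, abs_zero, mul_zero]
    exact Int.natCast_nonneg _
  · have hp := part h m hm (ic2_HC hf hx) (ic2_HC hf hy) hx0 hxy hy1
    have hne : (pc (uu a) G x y).Nonempty := by
      rw [Finset.nonempty_iff_ne_empty]
      intro hc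
      have h1 := (IsP_empty_iff hp).1 hc
      have h2 := vt_uu a x (lp a b G x)
      rw [h1, vt_uu] at h2
      omega
    obtain ⟨⟨e1, he1, h1⟩, ⟨e2, he2, h2⟩⟩ := IsP_touch hp hne
    have hsp := spread a hp.conn he1 he2 h1 h2
    rw [vt_lvl, vt_lvl] at hsp
    have hw := ic2_wr_le (uu a) G (pc (uu a) G x y) x y (fun e he => Finset.mem_filter.1 he)
    have hw' : 2 * (((pc (uu a) G x y).filter (fun e => Wr (uu a) e)).card : ℤ) ≤ (Sf (ex (uu a) G) x y : ℤ) := by
      exact_mod_cast hw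
    linarith

end

end Pool.Agent.H40.WM
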