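import Mathlib
import Pool.Agent.H40.WM.TDefs
import Pool.Agent.H40.WM.ICon
import Pool.Agent.H40.WM.IRis

/-!
# TLk: the crossing line

`Δ k = lp G k - lp G' k` at regular indices `k` of `f = ex2`.  `k1` = first regular index `≥ 13000 t`, `k2` = last regular index `≤ m - 13000 t` (`reg_window`): `k1 ≤ 13128 t`, `k2 ≥ m - 13128 t`.  By `cone_a`: `|Δ k1| ≤ (k1+1)/50 ≤ 263 t`; by `cone_b`:
`|Δ k2 - 2l| ≤ (m - k2 + 1)/50 ≤ 263 t` (`lvl a (vt a m l) = l`).  For consecutive regular `x < y` in `[0,m]`: `|Δ y - Δ x| ≤ Sf f x y / 2 < t/2` (`cone_two` for `G` and `G'`, `not_bad`).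
If `l` lies between `Δ k1` and `Δ k2`: go through the consecutive regular indices from `k1` to `k2`: there is a regular `k` with `|Δ k - l| ≤ t`.  Otherwise, if `l ≥ 0`: either `l < Δ k1 ≤ 263 t` and `k = k1` has `|Δ k1 - l| ≤ 263 t`, or `l > Δ k2 ≥ 2l - 263t`,
so `|Δ k2 - l| ≤ 263 t`, `k = k2`.  `l < 0`: symmetric.  Finally if `k = k1` replace it by the next regular index, if `k = k2` by the previous one (changes `Δ` by less than `t`; they are strictly between because `k2 - k1 ≥ 39000t - 26256 t > 256 t`).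
-/

set_option autoImplicit false

namespace Pool.Agent.H40.WM

open Pool.Agent.H40.SQ

noncomputable section

private theorem tlk_ivt {f : ℤ → ℕ} (hf : FSup f) {t : ℕ} (Δ : ℤ → ℤ) {K1 K2 l : ℤ} (h1 : Reg f K1) (h2 : Reg f K2)
    (h12 : K1 < K2) (hstep : ∀ x y, Cons f x y → K1 ≤ x → y ≤ K2 → 2 * |Δ x - Δ y| ≤ (t : ℤ)) (hl : 0 ≤ l)
    (hA : |Δ K1| ≤ 266 * (t : ℤ)) (hB : |Δ K2 - 2 * l| ≤ 266 * (t : ℤ)) :
    ∃ k, K1 ≤ k ∧ k ≤ K2 ∧ Reg f k ∧ |Δ k - l| ≤ 270 * (t : ℤ) := by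
  have hA' := abs_le.1 hA
  have hB' := abs_le.1 hB
  rcases le_or_gt l (Δ K1) with c1 | c1
  · refine ⟨K1, le_rfl, h12.le, h1, abs_le.2 ⟨by omega, by omega⟩⟩
  rcases le_or_gt (Δ K2) l with c2 | c2
  · refine ⟨K2, h12.le, le_rfl, h2, abs_le.2 ⟨by omega, by omega⟩⟩
  obtain ⟨k, ⟨h3, h4, h5⟩, h6⟩ := Int.exists_least_of_bdd (P := fun x => K1 < x ∧ Reg f x ∧ l ≤ Δ x)
    ⟨K1, fun x hx => hx.1.le⟩ ⟨K2, h12, h2, c2.le⟩
  have h7 : k ≤ K2 := h6 K2 ⟨h12, h2, c2.le⟩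
  obtain ⟨p, hp1, hp2, hp3⟩ := exists_reg_le hf (k - 1)
  have hp4 : K1 ≤ p := by
    by_contra hcon
    exact hp3 K1 (by omega) (by omega) h1
  have hc : Cons f p k := ⟨hp2, h4, by omega, fun z hz hz' => hp3 z hz (by omega)⟩
  have h8 := hstep p k hc hp4 h7
  have h9 : Δ p < l := by
    rcases hp4.eq_or_lt with h | h
    · rw [← h]
      exact c1
    · by_contra hcon
      have := h6 p ⟨h, hp2, by omega⟩
      omega
  have h10 := abs_le.1 (show |Δ p - Δ k| ≤ (t : ℤ) by have := abs_nonneg (Δ p - Δ k); omega)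
  exact ⟨k, h3.le, h7, h4, abs_le.2 ⟨by omega, by omega⟩⟩

private theorem tlk_hun {x c k : ℤ} (hk : 0 < k) (h : k * |x| ≤ c) : k * x ≤ c ∧ -(k * x) ≤ c := by
  have h1 := le_abs_self x
  have h2 := neg_abs_le x
  constructor <;> nlinarith

theorem kstar {a : ℤ × ℤ} {m : ℕ} {l : ℤ} {G G' : Finset Edge} (hG : IsP a (vt a m l) G) (hG' : IsP a (vt a m (-l)) G') {t : ℕ}
    (ht : 1 ≤ t) (hb : ¬ Bad (ex2 (uu a) G G') t) (hm : 39000 * t ≤ m) :
    ∃ k1 ks k2 : ℤ, Reg (ex2 (uu a) G G') k1 ∧ Reg (ex2 (uu a) G G') ks ∧ Reg (ex2 (uu a) G G') k2 ∧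
      13000 * (t : ℤ) ≤ k1 ∧ k1 ≤ 13128 * (t : ℤ) ∧ (m : ℤ) - 13128 * t ≤ k2 ∧ k2 ≤ (m : ℤ) - 13000 * t ∧ k1 < ks ∧ ks < k2 ∧
      |lp a (vt a m l) G ks - lp a (vt a m (-l)) G' ks - l| ≤ 270 * (t : ℤ) := by
  have ht' : (1 : ℤ) ≤ (t : ℤ) := by exact_mod_cast ht
  have hm' : 39000 * (t : ℤ) ≤ (m : ℤ) := by exact_mod_cast hm
  set f := ex2 (uu a) G G' with hfdef
  have hf : ∀ i, ex (uu a) G i ≤ f i := fun i => by rw [hfdef]; unfold ex2; omega
  have hf' : ∀ i, ex (uu a) G' i ≤ f i := fun i => by rw [hfdef]; unfold ex2; omega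
  have hS : ∀ x y, (Sf f x y : ℤ) = Sf (ex (uu a) G) x y + Sf (ex (uu a) G') x y := by
    intro x y
    have : Sf f x y = Sf (ex (uu a) G) x y + Sf (ex (uu a) G') x y := by
      unfold Sf
      rw [← Finset.sum_add_distrib]
      rfl
    exact_mod_cast this
  have hfs : FSup f := by
    obtain ⟨N1, hN1⟩ := ex_fsup (uu a) G
    obtain ⟨N2, hN2⟩ := ex_fsup (uu a) G'
    refine ⟨max N1 N2, fun i hi => ?_⟩
    have e1 := hN1 i (lt_of_le_of_lt (le_max_left _ _) hi)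
    have e2 := hN2 i (lt_of_le_of_lt (le_max_right _ _) hi)
    rw [hfdef]
    unfold ex2
    rw [e1, e2]
  have u1 : uu (vt a m l) = uu a + 2 * m := vt_uu a m l
  have u2 : uu (vt a m (-l)) = uu a + 2 * m := vt_uu a m (-l)
  obtain ⟨k1, a1, a2, a3⟩ := reg_window hfs ht hb (13000 * (t : ℤ))
  obtain ⟨k2, b1, b2, b3⟩ := reg_window hfs ht hb ((m : ℤ) - 13128 * t)
  obtain ⟨K1, c1, c2, c3⟩ := exists_reg_ge hfs (k1 + 1)
  obtain ⟨K2, d1, d2, d3⟩ := exists_reg_le hfs (k2 - 1)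
  have hc1 : Cons f k1 K1 := ⟨a3, c2, by omega, fun z hz hz' => c3 z (by omega) hz'⟩
  have hc2 : Cons f K2 k2 := ⟨d2, b3, by omega, fun z hz hz' => d3 z hz (by omega)⟩
  have e1 := (not_bad hb hc1).2
  have e2 := (not_bad hb hc2).2
  have hA1 := tlk_hun (by norm_num) (cone_a hG m u1 hf c2 (by omega) (by omega))
  have hA2 := tlk_hun (by norm_num) (cone_a hG' m u2 hf' c2 (by omega) (by omega))
  have hB1 := cone_b hG m u1 hf d2 (by omega) (by omega)
  have hB2 := cone_b hG' m u2 hf' d2 (by omega) (by omega)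
  rw [vt_lvl] at hB1 hB2
  have hB1' := tlk_hun (by norm_num) hB1
  have hB2' := tlk_hun (by norm_num) hB2
  have hstep : ∀ x y, Cons f x y → K1 ≤ x → y ≤ K2 →
      2 * |(lp a (vt a m l) G x - lp a (vt a m (-l)) G' x) - (lp a (vt a m l) G y - lp a (vt a m (-l)) G' y)| ≤ (t : ℤ) := by
    intro x y hc hx hy
    have g1 := cone_two hG m u1 hf hc.1 hc.2.1 (by omega) hc.2.2.1.le (by omega)
    have g2 := cone_two hG' m u2 hf' hc.1 hc.2.1 (by omega) hc.2.2.1.le (by omega)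
    have g3 := (not_bad hb hc).1
    have g4 := hS x y
    have g5 : (Sf f x y : ℤ) < t := by exact_mod_cast g3
    have g6 : |(lp a (vt a m l) G x - lp a (vt a m (-l)) G' x) - (lp a (vt a m l) G y - lp a (vt a m (-l)) G' y)| ≤
        |lp a (vt a m l) G x - lp a (vt a m l) G y| + |lp a (vt a m (-l)) G' x - lp a (vt a m (-l)) G' y| := by
      have e : (lp a (vt a m l) G x - lp a (vt a m (-l)) G' x) - (lp a (vt a m l) G y - lp a (vt a m (-l)) G' y) =
        (lp a (vt a m l) G x - lp a (vt a m l) G y) - (lp a (vt a m (-l)) G' x - lp a (vt a m (-l)) G' y) := by ring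
      rw [e]
      exact abs_sub _ _
    omega
  have hK : K1 < K2 := by omega
  have hfin : ∃ k, K1 ≤ k ∧ k ≤ K2 ∧ Reg f k ∧ |lp a (vt a m l) G k - lp a (vt a m (-l)) G' k - l| ≤ 270 * (t : ℤ) := by
    rcases le_total 0 l with hl | hl
    · exact tlk_ivt hfs (fun k => lp a (vt a m l) G k - lp a (vt a m (-l)) G' k) c2 d2 hK hstep hl
        (abs_le.2 ⟨by omega, by omega⟩) (abs_le.2 ⟨by omega, by omega⟩)
    · obtain ⟨k, q1, q2, q3, q4⟩ := tlk_ivt hfs (t := t) (fun k => -(lp a (vt a m l) G k - lp a (vt a m (-l)) G' k)) (l := -l) c2 d2 hK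
        (fun x y hc hx hy => by
          have := hstep x y hc hx hy
          rw [← abs_neg] at this
          have e : -(lp a (vt a m l) G x - lp a (vt a m (-l)) G' x - (lp a (vt a m l) G y - lp a (vt a m (-l)) G' y)) =
            -(lp a (vt a m l) G x - lp a (vt a m (-l)) G' x) - -(lp a (vt a m l) G y - lp a (vt a m (-l)) G' y) := by ring
          rw [e] at this
          exact this) (by omega)
        (abs_le.2 ⟨by omega, by omega⟩) (abs_le.2 ⟨by omega, by omega⟩)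
      refine ⟨k, q1, q2, q3, ?_⟩
      rw [← abs_neg] at q4
      have e : -(-(lp a (vt a m l) G k - lp a (vt a m (-l)) G' k) - -l) = lp a (vt a m l) G k - lp a (vt a m (-l)) G' k - l := by
        ring
      rw [e] at q4
      exact q4
  obtain ⟨ks, q1, q2, q3, q4⟩ := hfin
  exact ⟨k1, ks, k2, a3, q3, b3, a1, by omega, b1, by omega, by omega, by omega, q4⟩

end

end Pool.Agent.H40.WM
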