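import Mathlib
import Pool.Agent.H40.WM.ICnt
import Pool.Agent.H40.WM.IRis
import Pool.Agent.H40.WM.IPrt

/-!
# ITai: the right tail of a path at a regular line

`k` regular for `f ≥ ex`, `0 ≤ k`.  `mk_eq`: at most `2 + ex i` edges in the double slice `i`; an edge of the double slice `k + i` has `us e - (uu a + 2k) ≥ 2i`, so the sum is at most
`∑_{i ≥ 0} (2 + ex (k+i)) 4^(-i)`.  `∑ 2 * 4^(-i) = 8/3`.  `ex (k+i) ≤ Sf f k (k+i+1) ≤ (i+1)/64`, so `∑ ex (k+i) 4^(-i) ≤ ∑ (i+1) 4^(-i) / 64 ≤ 1/16`.  Total `≤ 3`.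
(Finite sums: sum over `i ∈ range N` with `N` large.)
-/

set_option autoImplicit false

namespace Pool.Agent.H40.WM

open Pool.Agent.H40.SQ

noncomputable section

private theorem it_geo (N : ℕ) : ∑ i ∈ Finset.range N, (2 + ((i : ℝ) + 1) / 64) * ((1 : ℝ) / 4) ^ i ≤
    3 - (27 / 10 + (N : ℝ) / 48) * ((1 : ℝ) / 4) ^ N := by
  induction N with
  | zero => norm_num
  | succ n ih =>
    rw [Finset.sum_range_succ, pow_succ]
    have h1 : (0 : ℝ) < ((1 : ℝ) / 4) ^ n := by positivity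
    have h2 : (0 : ℝ) ≤ n := Nat.cast_nonneg n
    push_cast
    nlinarith

private theorem it_fib (G : Finset Edge) (u k : ℤ) (N : ℕ) (hN : ∀ e ∈ G, kl u e < k + N) (w : Edge → ℝ) :
    ∑ e ∈ rt u G k, w e = ∑ i ∈ Finset.range N, ∑ e ∈ G.filter (fun e => kl u e = k + (i : ℤ)), w e := by
  have h1 : ∀ e ∈ rt u G k, (kl u e - k).toNat ∈ Finset.range N := by
    intro e he
    unfold rt at he
    rw [Finset.mem_filter] at he
    have h2 := hN e he.1
    rw [Finset.mem_range]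
    omega
  rw [← Finset.sum_fiberwise_of_maps_to h1]
  apply Finset.sum_congr rfl
  intro i _
  apply Finset.sum_congr _ (fun _ _ => rfl)
  ext e
  unfold rt
  rw [Finset.mem_filter, Finset.mem_filter, Finset.mem_filter]
  constructor
  · rintro ⟨⟨h2, h3⟩, h4⟩
    exact ⟨h2, by omega⟩
  · rintro ⟨h2, h3⟩
    exact ⟨⟨h2, by omega⟩, by omega⟩

theorem tail_le {a b : ℤ × ℤ} {G : Finset Edge} (h : IsP a b G) (m : ℕ) (hm : uu b = uu a + 2 * m) {f : ℤ → ℕ}
    (hf : ∀ i, ex (uu a) G i ≤ f i) {k : ℤ} (hk : Reg f k) :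
    ∑ e ∈ rt (uu a) G k, ((1 : ℝ) / 2) ^ (us e - (uu a + 2 * k)).toNat ≤ 3 := by
  obtain ⟨N, hN⟩ : ∃ N : ℕ, ∀ e ∈ G, kl (uu a) e < k + N := by
    refine ⟨∑ e ∈ G, (kl (uu a) e - k + 1).toNat, fun e he => ?_⟩
    have h1 := Finset.single_le_sum (f := fun e => (kl (uu a) e - k + 1).toNat) (fun e _ => Nat.zero_le _) he
    have h2 : (kl (uu a) e - k + 1).toNat ≤ ∑ e ∈ G, (kl (uu a) e - k + 1).toNat := h1
    omega
  rw [it_fib G (uu a) k N hN]
  have h1 : ∀ i ∈ Finset.range N, ∑ e ∈ G.filter (fun e => kl (uu a) e = k + (i : ℤ)), ((1 : ℝ) / 2) ^ (us e - (uu a + 2 * k)).toNat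
      ≤ (2 + ((i : ℝ) + 1) / 64) * ((1 : ℝ) / 4) ^ i := by
    intro i _
    have h2 : ∀ e ∈ G.filter (fun e => kl (uu a) e = k + (i : ℤ)), ((1 : ℝ) / 2) ^ (us e - (uu a + 2 * k)).toNat ≤
        ((1 : ℝ) / 4) ^ i := by
      intro e he
      have h3 := (Finset.mem_filter.1 he).2
      unfold kl at h3
      have h4 : ((1 : ℝ) / 4) ^ i = ((1 : ℝ) / 2) ^ (2 * i) := by
        rw [pow_mul]
        norm_num
      rw [h4]
      apply pow_le_pow_of_le_one (by norm_num) (by norm_num)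
      omega
    have h3 := Finset.sum_le_sum h2
    rw [Finset.sum_const, nsmul_eq_mul] at h3
    refine le_trans h3 (mul_le_mul_of_nonneg_right ?_ (by positivity))
    have h4 := mk_eq h m hm (k + i)
    have h5 := hf (k + i)
    have h6 := hk.1 (k + i + 1) (by omega)
    have h7 : f (k + i) ≤ Sf f k (k + i + 1) := by
      unfold Sf
      exact Finset.single_le_sum (f := f) (fun _ _ => Nat.zero_le _) (Finset.mem_Ico.2 ⟨by omega, by omega⟩)
    have h8 : (G.filter (fun e => kl (uu a) e = k + (i : ℤ))).card ≤ 2 + f (k + i) := by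
      rw [h4]
      split_ifs <;> omega
    have h9 : 64 * (f (k + i) : ℤ) ≤ i + 1 := by omega
    have h10 : 64 * (f (k + i) : ℝ) ≤ i + 1 := by exact_mod_cast h9
    have h11 : ((G.filter (fun e => kl (uu a) e = k + (i : ℤ))).card : ℝ) ≤ 2 + (f (k + i) : ℝ) := by exact_mod_cast h8
    linarith
  have h2 := Finset.sum_le_sum h1
  have h3 := it_geo N
  have h4 : (0 : ℝ) ≤ (27 / 10 + (N : ℝ) / 48) * ((1 : ℝ) / 4) ^ N := by positivity
  linarith

end

end Pool.Agent.H40.WM
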