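import Mathlib
import Pool.Agent.H40.WM.IDefs

/-!
# JDefs: left paths, pieces, right paths (definitions only)

`LPa a k l N`: a path from `a` to `vt a k l`, entirely left of the line `k`, whose only edge in the last slice is `Vu` of the end.
`PCE a k l k' l' T`: a piece between the lines `k` and `k'`.  `RPa a b k l T`: a path from `vt a k l` to `b`, right of the line `k`.
-/

set_option autoImplicit false

namespace Pool.Agent.H40.WM

open Pool.Agent.H40.SQ

noncomputable section

structure LPa (a : ℤ × ℤ) (k l : ℤ) (N : Finset Edge) : Prop where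
  path : IsP a (vt a k l) N
  left : ∀ e ∈ N, us e < uu a + 2 * k
  last : ∀ e ∈ N, us e = uu a + 2 * k - 1 → e = Vu (vt a k l)

structure PCE (a : ℤ × ℤ) (k l k' l' : ℤ) (T : Finset Edge) : Prop where
  path : IsP (vt a k l) (vt a k' l') T
  right : ∀ e ∈ T, uu a + 2 * k ≤ us e
  first : ∀ e ∈ T, us e = uu a + 2 * k → e = Hr (vt a k l)
  left : ∀ e ∈ T, us e < uu a + 2 * k'
  last : ∀ e ∈ T, us e = uu a + 2 * k' - 1 → e = Vu (vt a k' l')

structure RPa (a b : ℤ × ℤ) (k l : ℤ) (T : Finset Edge) : Prop where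
  path : IsP (vt a k l) b T
  right : ∀ e ∈ T, uu a + 2 * k ≤ us e
  first : ∀ e ∈ T, us e = uu a + 2 * k → e = Hr (vt a k l)

end

end Pool.Agent.H40.WM
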