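import Mathlib
import Pool.Agent.H40.WM.QPsi
import Pool.Agent.H40.SQ.LSpr

/-!
# QSplit: near additivity of `psi` along a line

Let all edges of `A` lie in slices `< u` and all edges of `B` in slices `≥ u`.  In a volume `D`:
`psiD (A ∪ B) - psiD A - psiD B = -[log ZV D - log ZV (D \ N1 A) - log ZV (D \ N1 B) + log ZV (D \ (N1 A ∪ N1 B))]` (`N1_union`).
Apply `four_point` with `A := N1 A`, `B := N1 B`: let `e ∈ N1 B`, say `e` touches `b ∈ B`; `us e ≥ us b - 1` (`tch_us`); the edges of `N1 A` have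
`us ≤ u`.  A connected `C ∋ e` meeting `N1 A` in `f` has `|C| ≥ us e - us f + 1 ≥ us b - u` (`conn_spread` with `φ = us`).
So `δ e = max over the b touching e of (us b - u).toNat` works, and as in `QLim` the sum is at most
`∑_{b ∈ B} 14 (54 q)^(max 1 (us b - u).toNat) ≤ ∑_{b ∈ B} (1/2)^(us b - u).toNat`.  The same bound in every volume; pass to the limit.
-/

set_option autoImplicit false

namespace Pool.Agent.H40.WM

open Pool.Agent.H40.SQ

noncomputable section

private theorem qsplit_num (q : ℝ) (hq0 : 0 < q) (hq1 : q ≤ 1 / 10 ^ 6) (d : ℕ) :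
    7 * (2 * (54 * q) ^ (max 1 d)) ≤ ((1 : ℝ) / 2) ^ d := by
  obtain ⟨m, hm⟩ : ∃ m, max 1 d = m + 1 := ⟨max 1 d - 1, by have := le_max_left 1 d; omega⟩
  have hd : d ≤ m + 1 := hm ▸ le_max_right 1 d
  rw [hm, pow_succ]
  have h1 : 54 * q ≤ 1 / 28 := by
    norm_num at hq1 ⊢
    linarith
  have h2 : (54 * q) ^ m ≤ ((1 : ℝ) / 2) ^ m := by
    refine pow_le_pow_left₀ (by positivity) ?_ m
    linarith
  have h3 : (54 * q) ^ m * (54 * q) ≤ ((1 : ℝ) / 2) ^ m * (1 / 28) :=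
    mul_le_mul h2 h1 (by positivity) (by positivity)
  have h4 : ((1 : ℝ) / 2) ^ (m + 1) ≤ ((1 : ℝ) / 2) ^ d :=
    pow_le_pow_of_le_one (by norm_num) (by norm_num) hd
  have h5 : ((1 : ℝ) / 2) ^ (m + 1) = 14 * (((1 : ℝ) / 2) ^ m * (1 / 28)) := by
    rw [pow_succ]
    ring
  linarith

theorem psiD_split (q : ℝ) (hq0 : 0 < q) (hq1 : q ≤ 1 / 10 ^ 6) (D A B : Finset Edge) (u : ℤ)
    (hA : ∀ a ∈ A, us a < u) (hB : ∀ b ∈ B, u ≤ us b) :
    |psiD q D (A ∪ B) - psiD q D A - psiD q D B| ≤ ∑ b ∈ B, ((1 : ℝ) / 2) ^ (us b - u).toNat := by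
  classical
  set T : Edge → Finset Edge := fun e => B.filter (fun b => Tch b e) with hT
  set δ : Edge → ℕ := fun e => (T e).sup (fun b => (us b - u).toNat) with hδ
  have hTne : ∀ e ∈ N1 B, (T e).Nonempty := by
    intro e he
    obtain ⟨b, hb, hbe⟩ := mem_N1.1 he
    exact ⟨b, Finset.mem_filter.2 ⟨hb, hbe⟩⟩
  have hex : ∀ e ∈ N1 B, ∃ b ∈ T e, δ e = (us b - u).toNat := fun e he =>
    Finset.exists_mem_eq_sup (T e) (hTne e he) _
  have h4 := four_point q hq0 (by norm_num at hq1 ⊢; linarith) D (N1 A) (N1 B) δ (by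
    intro e he C hC heC hne
    obtain ⟨b, hb, hbe⟩ := hex e he
    obtain ⟨f, hf⟩ := hne
    rw [Finset.mem_inter] at hf
    obtain ⟨a, ha, haf⟩ := mem_N1.1 hf.2
    rw [hT, Finset.mem_filter] at hb
    have h1 := conn_spread C hC us (fun _ _ h => tch_us h) heC hf.1
    have h2 := tch_us hb.2
    have h3 := tch_us haf
    have h5 := hA a ha
    rw [abs_lt] at h1
    rw [abs_le] at h2 h3
    rw [hbe, Int.toNat_le]
    linarith [h1.2])
  have h6 : |psiD q D (A ∪ B) - psiD q D A - psiD q D B| =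
      |Real.log (ZV q D) - Real.log (ZV q (D \ N1 A)) - Real.log (ZV q (D \ N1 B)) +
        Real.log (ZV q (D \ (N1 A ∪ N1 B)))| := by
    rw [← abs_neg]
    unfold psiD
    rw [N1_union]
    congr 1
    ring
  rw [h6]
  refine h4.trans ?_
  have hnn : ∀ d : ℕ, (0 : ℝ) ≤ 2 * (54 * q) ^ (max 1 d) := fun d => by positivity
  calc ∑ e ∈ N1 B ∩ D, 2 * (54 * q) ^ (max 1 (δ e))
      ≤ ∑ e ∈ N1 B, 2 * (54 * q) ^ (max 1 (δ e)) :=
        Finset.sum_le_sum_of_subset_of_nonneg Finset.inter_subset_left fun e _ _ => hnn _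
    _ ≤ ∑ e ∈ N1 B, ∑ b ∈ T e, 2 * (54 * q) ^ (max 1 (us b - u).toNat) := by
        refine Finset.sum_le_sum fun e he => ?_
        obtain ⟨b, hb, hbe⟩ := hex e he
        rw [hbe]
        exact Finset.single_le_sum (f := fun b => 2 * (54 * q) ^ (max 1 (us b - u).toNat))
          (fun b _ => hnn _) hb
    _ = ∑ b ∈ B, ∑ e ∈ (N1 B).filter (fun e => Tch b e),
          2 * (54 * q) ^ (max 1 (us b - u).toNat) := by
        rw [hT]
        simp only [Finset.sum_filter]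
        exact Finset.sum_comm
    _ ≤ ∑ b ∈ B, ((1 : ℝ) / 2) ^ (us b - u).toNat := by
        refine Finset.sum_le_sum fun b _ => ?_
        rw [Finset.sum_const, nsmul_eq_mul]
        have hc : ((N1 B).filter (fun e => Tch b e)).card ≤ 7 := by
          refine le_trans (Finset.card_le_card ?_) (card_nb_le b)
          intro e he
          exact mem_nb.2 (Finset.mem_filter.1 he).2
        have hc' : (((N1 B).filter (fun e => Tch b e)).card : ℝ) ≤ 7 := by exact_mod_cast hc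
        exact (mul_le_mul_of_nonneg_right hc' (hnn _)).trans (qsplit_num q hq0 hq1 _)

theorem psi_split (q : ℝ) (hq0 : 0 < q) (hq1 : q ≤ 1 / 10 ^ 6) (A B : Finset Edge) (u : ℤ)
    (hA : ∀ a ∈ A, us a < u) (hB : ∀ b ∈ B, u ≤ us b) :
    |psi q (A ∪ B) - psi q A - psi q B| ≤ ∑ b ∈ B, ((1 : ℝ) / 2) ^ (us b - u).toNat := by
  have h := (((psi_tendsto q hq0 hq1 (A ∪ B)).sub (psi_tendsto q hq0 hq1 A)).sub
    (psi_tendsto q hq0 hq1 B)).abs
  exact le_of_tendsto' h fun M => psiD_split q hq0 hq1 (EM M) A B u hA hB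

end

end Pool.Agent.H40.WM
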