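import Mathlib
import Pool.Agent.H40.WM.JDefs
import Pool.Agent.H40.WM.QSplit
import Pool.Agent.H40.WM.IVer

/-!
# JPsi: the cost of an appended piece

`psi (N ∪ V ∪ T) = psi ((N ∪ T) ∪ V) ≤ psi (N ∪ T) + |V|/10` (`psi_union_le`), `psi (N ∪ T) ≤ psi N + psi T + tail` (`psi_split` with the line `uu a + 2k`), `tail = ∑_{e ∈ T} (1/2)^(us e - (uu a + 2k))`.
`psi_cut`: `psi G ≥ psi (lf G k) + psi (rt G k) - tail`, because `G = lf ∪ rt`.
-/

set_option autoImplicit false

namespace Pool.Agent.H40.WM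

open Pool.Agent.H40.SQ

noncomputable section

theorem psi_append (q : ℝ) (hq0 : 0 < q) (hq1 : q ≤ 1 / 10 ^ 6) (v : ℤ) {N V T : Finset Edge} (hN : ∀ e ∈ N, us e < v)
    (hT : ∀ e ∈ T, v ≤ us e) :
    psi q (N ∪ V ∪ T) ≤ psi q N + psi q T + (V.card : ℝ) / 10 + ∑ e ∈ T, ((1 : ℝ) / 2) ^ (us e - v).toNat := by
  have h1 := psi_union_le q hq0 hq1 (N ∪ T) V
  have h2 := psi_split q hq0 hq1 N T v hN hT
  have h3 := (abs_le.1 h2).2
  have e : N ∪ V ∪ T = N ∪ T ∪ V := by
    rw [Finset.union_assoc, Finset.union_comm V T, ← Finset.union_assoc]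
  rw [e]
  linarith

theorem psi_cut (q : ℝ) (hq0 : 0 < q) (hq1 : q ≤ 1 / 10 ^ 6) (u k : ℤ) (G : Finset Edge) :
    psi q (lf u G k) + psi q (rt u G k) ≤ psi q G + ∑ e ∈ rt u G k, ((1 : ℝ) / 2) ^ (us e - (u + 2 * k)).toNat := by
  have hG : lf u G k ∪ rt u G k = G := by
    ext e
    unfold lf rt
    rw [Finset.mem_union, Finset.mem_filter, Finset.mem_filter]
    constructor
    · rintro (h | h)
      · exact h.1
      · exact h.1
    · intro h
      rcases lt_or_ge (kl u e) k with h1 | h1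
      · exact Or.inl ⟨h, h1⟩
      · exact Or.inr ⟨h, h1⟩
  have h2 := psi_split q hq0 hq1 (lf u G k) (rt u G k) (u + 2 * k)
    (fun e he => by
      unfold lf at he
      have h1 := (Finset.mem_filter.1 he).2
      unfold kl at h1
      omega)
    (fun e he => by
      unfold rt at he
      have h1 := (Finset.mem_filter.1 he).2
      unfold kl at h1
      omega)
  rw [hG] at h2
  have h3 := (abs_le.1 h2).1
  linarith

end

end Pool.Agent.H40.WM
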