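import Mathlib
import Pool.Agent.H40.WM.TDefs
import Pool.Agent.H40.WM.QPsi
import Pool.Agent.H40.WM.IDfc
import Pool.Agent.H40.WM.ILev

/-!
# TCone: finite volume and infinite volume costs agree in the cone

* `dist_cone`: let `e' ∉ D`, `i = kl e`, `z = (e.2.1, e.2.2)` and `z' = (e'.2.1, e'.2.2)` (ends of the two edges), `r = dd e e'`: `|uu z - uu z'| ≤ 2r`, `|lvl z - lvl z'| ≤ r + 1`, `d = uu z - uu a ∈ {2i, 2i+1, 2i+2}`, so
  `min (d, 2 n0 - d) ≥ 2 cd - 2`.  The vertex `z'` violates the cone condition (otherwise `e'`, which is one of the four edges at `z'` -- `Hr z'` or `Vu z'` -- is in `D`): `min(d', 2n0 - d') < 2 |lvl z'| + 4 ≤ 2 |lvl z| + 2r + 6`,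
  and `min(d', 2n0-d') ≥ 2 cd - 2 - 2r`; so `2 cd < 2 |lvl z| + 4 r + 8 ≤ (cd + 8)/2 + 4r + 8`, `3 cd < 8 r + 24`.
* `psiD_cone`: let `F` = edges of `A` with `cd ≥ L`, `N` = the rest.  `psiD F ≤ psiD A ≤ psiD F + |N|/10`, the same for `psi`.  `|psiD F - psi F| ≤ ∑_{e ∈ F} (1/2)^t ≤ |A| 2^(-t) ≤ 1` by `psiD_close` with `δ = t`:
  for `e ∈ F`, `e' ∉ D`: `8 dd ≥ 3 L - 24 ≥ 9 t`.
-/

set_option autoImplicit false

namespace Pool.Agent.H40.WM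

open Pool.Agent.H40.SQ

noncomputable section

private theorem tc_mem {a : ℤ × ℤ} {n0 : ℕ} {D : Finset Edge} (hD : ConeD a n0 D) {e : Edge} {z : ℤ × ℤ} (hz : z ∈ ends e)
    (h1 : 2 * |lvl a z| + 4 ≤ uu z - uu a) (h2 : 2 * |lvl a z| + 4 ≤ 2 * n0 - (uu z - uu a)) : e ∈ D := by
  obtain ⟨h3, h4, h5, h6⟩ := hD z h1 h2
  rcases ends_iff.1 hz with rfl | rfl | rfl | rfl
  · exact h3
  · exact h4
  · exact h5
  · exact h6

private theorem tc_end (t : Bool) (x y : ℤ) : (x, y) ∈ ends ((t, x, y) : Edge) := by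
  cases t <;> simp [ends]

theorem dist_cone {a : ℤ × ℤ} {n0 : ℕ} {D : Finset Edge} (hD : ConeD a n0 D) {e e' : Edge} (he' : e' ∉ D)
    (hlev : ∀ z ∈ ends e, 4 * |lvl a z| ≤ cd a n0 e + 8) : 3 * cd a n0 e ≤ 8 * (dd e e' : ℤ) + 24 := by
  obtain ⟨t, x, y⟩ := e
  obtain ⟨t', x', y'⟩ := e'
  have hlz := hlev (x, y) (tc_end t x y)
  have hcon : ¬ (2 * |lvl a (x', y')| + 4 ≤ uu (x', y') - uu a ∧
      2 * |lvl a (x', y')| + 4 ≤ 2 * n0 - (uu (x', y') - uu a)) :=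
    fun h => he' (tc_mem hD (tc_end t' x' y') h.1 h.2)
  obtain ⟨r, hr⟩ : ∃ r : ℕ, r = dd (t, x, y) (t', x', y') := ⟨_, rfl⟩
  rw [← hr]
  have hr1 : (x - x').natAbs ≤ r := by
    rw [hr]
    exact le_max_left _ _
  have hr2 : (y - y').natAbs ≤ r := by
    rw [hr]
    exact le_max_right _ _
  have hL : |lvl a (x, y)| = lvl a (x, y) ∨ |lvl a (x, y)| = - lvl a (x, y) := abs_choice _
  have hL0 := abs_nonneg (lvl a (x, y))
  have hL' : |lvl a (x', y')| = lvl a (x', y') ∨ |lvl a (x', y')| = - lvl a (x', y') := abs_choice _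
  have hL'0 := abs_nonneg (lvl a (x', y'))
  have hd1 : lvl a (x', y') ≤ lvl a (x, y) + r + 1 := by
    simp only [lvl, uu, vv]
    omega
  have hd2 : lvl a (x, y) ≤ lvl a (x', y') + r + 1 := by
    simp only [lvl, uu, vv]
    omega
  obtain ⟨A, hA⟩ : ∃ A, A = |lvl a (x, y)| := ⟨_, rfl⟩
  obtain ⟨A', hA'⟩ : ∃ A', A' = |lvl a (x', y')| := ⟨_, rfl⟩
  have hAA : A' ≤ A + r + 1 := by
    rw [hA, hA']
    omega
  rw [← hA'] at hcon
  rw [← hA] at hlz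
  have hus : us (t, x, y) = x - y ∨ us (t, x, y) = x - y - 1 := by
    cases t <;> simp [us]
  have hcd1 : cd a n0 (t, x, y) ≤ kl (uu a) (t, x, y) := min_le_left _ _
  have hcd2 : cd a n0 (t, x, y) ≤ n0 - kl (uu a) (t, x, y) := min_le_right _ _
  obtain ⟨c, hc⟩ : ∃ c, c = cd a n0 (t, x, y) := ⟨_, rfl⟩
  rw [← hc] at hcd1 hcd2 hlz ⊢
  have hkl : kl (uu a) (t, x, y) = (us (t, x, y) - uu a) / 2 := rfl
  rw [hkl] at hcd1 hcd2
  obtain ⟨u, hu⟩ : ∃ u, u = us (t, x, y) := ⟨_, rfl⟩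
  rw [← hu] at hus hcd1 hcd2
  simp only [uu] at hcon hcd1 hcd2
  omega

theorem psiD_cone (q : ℝ) (hq0 : 0 < q) (hq1 : q ≤ 1 / 10 ^ 6) {a : ℤ × ℤ} {n0 : ℕ} {D : Finset Edge} (hD : ConeD a n0 D)
    (A : Finset Edge) (t : ℕ) (L : ℤ) (hA : A.card ≤ 2 ^ t) (hL : 3 * (t : ℤ) + 8 ≤ L)
    (hlev : ∀ e ∈ A, L ≤ cd a n0 e → ∀ z ∈ ends e, 4 * |lvl a z| ≤ cd a n0 e + 8) :
    |psiD q D A - psi q A| ≤ 1 + ((A.filter (fun e => cd a n0 e < L)).card : ℝ) / 10 := by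
  classical
  obtain ⟨N, hN⟩ : ∃ N, N = A.filter (fun e => cd a n0 e < L) := ⟨_, rfl⟩
  obtain ⟨G, hG⟩ : ∃ G, G = A.filter (fun e => ¬ cd a n0 e < L) := ⟨_, rfl⟩
  have hAG : G ∪ N = A := by
    rw [hG, hN, Finset.union_comm, Finset.filter_union_filter_not_eq]
  have hGA : G ⊆ A := by
    rw [hG]
    exact Finset.filter_subset _ _
  rw [← hN]
  have h1 := psiD_union_le q hq0 hq1 D G N
  have h2 := psi_union_le q hq0 hq1 G N
  rw [hAG] at h1 h2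
  have h3 := psiD_mono q hq0 D hGA
  have h4 := psi_mono q hq0 hq1 hGA
  have h5 : |psiD q D G - psi q G| ≤ ∑ e ∈ G, ((1 : ℝ) / 2) ^ t := by
    refine psiD_close q hq0 hq1 D G (fun _ => t) ?_
    intro e he e' he'
    rw [hG, Finset.mem_filter, not_lt] at he
    have h6 := dist_cone hD he' (hlev e he.1 he.2)
    have h7 := he.2
    show t ≤ dd e e'
    omega
  have h6 : ∑ e ∈ G, ((1 : ℝ) / 2) ^ t ≤ 1 := by
    rw [Finset.sum_const, nsmul_eq_mul, one_div, inv_pow, ← div_eq_mul_inv, div_le_one (by positivity)]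
    have h7 := (Finset.card_le_card hGA).trans hA
    exact_mod_cast h7
  have h7 := abs_le.1 (h5.trans h6)
  rw [abs_le]
  constructor <;> linarith [h7.1, h7.2]

/-- Membership in `D` from the cone condition at one end. -/
theorem mem_cone {a : ℤ × ℤ} {n0 : ℕ} {D : Finset Edge} (hD : ConeD a n0 D) {e : Edge} {z : ℤ × ℤ} (hz : z ∈ ends e)
    (h1 : 2 * |lvl a z| + 4 ≤ uu z - uu a) (h2 : 2 * |lvl a z| + 4 ≤ 2 * n0 - (uu z - uu a)) : e ∈ D :=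
  tc_mem hD hz h1 h2

end

end Pool.Agent.H40.WM
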