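import Mathlib
import Pool.Agent.H40.WM.IDefs
import Pool.Agent.H40.WM.QSym

/-!
# IShf: translations along `(1,1)` and parts

`us (shE (t,t) e) = us e`, so `kl`, `Wr` are unchanged, and `lf`, `rt`, `pc`, `ex`, `HC` commute with `sh (t,t)` (image of a filter).  Levels increase by `t`.
-/

set_option autoImplicit false

namespace Pool.Agent.H40.WM

open Pool.Agent.H40.SQ

noncomputable section

theorem us_shE (t : ℤ) (e : Edge) : us (shE (t, t) e) = us e := by
  unfold us shE
  simp only
  ring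

theorem kl_shE (u t : ℤ) (e : Edge) : kl u (shE (t, t) e) = kl u e := by
  unfold kl
  rw [us_shE]

theorem mem_sh {v : ℤ × ℤ} {G : Finset Edge} {e : Edge} : e ∈ sh v G ↔ ∃ e' ∈ G, shE v e' = e := by
  unfold sh
  rw [Finset.mem_image]

theorem ends_shE (v : ℤ × ℤ) (e : Edge) (z : ℤ × ℤ) : z ∈ ends (shE v e) ↔ (z.1 - v.1, z.2 - v.2) ∈ ends e := by
  obtain ⟨t, x, y⟩ := e
  obtain ⟨p, q⟩ := z
  cases t
  · simp only [ends, shE, Bool.false_eq_true, if_false, Finset.mem_insert, Finset.mem_singleton, Prod.mk.injEq]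
    omega
  · simp only [ends, shE, if_true, Finset.mem_insert, Finset.mem_singleton, Prod.mk.injEq]
    omega

theorem lvl_shift (a z : ℤ × ℤ) (t : ℤ) : lvl a (z.1 + t, z.2 + t) = lvl a z + t := by
  unfold lvl uu vv
  simp only
  omega

theorem vt_shift (a : ℤ × ℤ) (k l t : ℤ) : vt a k (l + t) = ((vt a k l).1 + t, (vt a k l).2 + t) := by
  unfold vt
  simp only [Prod.mk.injEq]
  constructor <;> ring

theorem sh_zero (G : Finset Edge) : sh (0, 0) G = G := by
  have h : shE (0, 0) = id := by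
    funext e
    simp [shE]
  unfold sh
  rw [h, Finset.image_id]

theorem sh_sh (v w : ℤ × ℤ) (G : Finset Edge) : sh v (sh w G) = sh (v.1 + w.1, v.2 + w.2) G := by
  unfold sh
  rw [Finset.image_image]
  congr 1
  funext e
  simp only [shE, Function.comp_apply, Prod.mk.injEq, true_and]
  constructor <;> ring

theorem sh_union (v : ℤ × ℤ) (A B : Finset Edge) : sh v (A ∪ B) = sh v A ∪ sh v B := by
  unfold sh
  rw [Finset.image_union]

theorem sh_sub {v : ℤ × ℤ} {A B : Finset Edge} (h : A ⊆ B) : sh v A ⊆ sh v B := by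
  unfold sh
  exact Finset.image_subset_image h

private theorem is_filter (t : ℤ) (G : Finset Edge) (p : Edge → Prop) [DecidablePred p]
    (hp : ∀ e, p (shE (t, t) e) ↔ p e) : (sh (t, t) G).filter p = sh (t, t) (G.filter p) := by
  unfold sh
  rw [Finset.filter_image]
  congr 1
  apply Finset.filter_congr
  intro e _
  exact hp e

theorem lf_sh (u t : ℤ) (G : Finset Edge) (k : ℤ) : lf u (sh (t, t) G) k = sh (t, t) (lf u G k) := by
  unfold lf
  apply is_filter
  intro e
  rw [kl_shE]

theorem rt_sh (u t : ℤ) (G : Finset Edge) (k : ℤ) : rt u (sh (t, t) G) k = sh (t, t) (rt u G k) := by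
  unfold rt
  apply is_filter
  intro e
  rw [kl_shE]

theorem pc_sh (u t : ℤ) (G : Finset Edge) (x y : ℤ) : pc u (sh (t, t) G) x y = sh (t, t) (pc u G x y) := by
  unfold pc
  apply is_filter
  intro e
  rw [kl_shE]

theorem ex_sht (u t : ℤ) (G : Finset Edge) (k : ℤ) : ex u (sh (t, t) G) k = ex u G k := by
  unfold ex
  rw [is_filter]
  · unfold sh
    rw [Finset.card_image_of_injective _ (shE_inj _)]
  · intro e
    rw [kl_shE]
    have h : Wr u (shE (t, t) e) ↔ Wr u e := by
      unfold Wr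
      rw [us_shE]
      rfl
    rw [h]

theorem HC_sh {u t : ℤ} {G : Finset Edge} {k : ℤ} : HC u (sh (t, t) G) k ↔ HC u G k := by
  unfold HC
  constructor
  · rintro ⟨h1, h2⟩
    constructor
    · intro e he hu
      exact h1 (shE (t, t) e) (mem_sh.2 ⟨e, he, rfl⟩) (by rw [us_shE]; exact hu)
    · intro e he hu
      exact h2 (shE (t, t) e) (mem_sh.2 ⟨e, he, rfl⟩) (by rw [us_shE]; exact hu)
  · rintro ⟨h1, h2⟩
    constructor
    · intro e he hu
      obtain ⟨e', he', rfl⟩ := mem_sh.1 he
      rw [us_shE] at hu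
      exact h1 e' he' hu
    · intro e he hu
      obtain ⟨e', he', rfl⟩ := mem_sh.1 he
      rw [us_shE] at hu
      exact h2 e' he' hu

end

end Pool.Agent.H40.WM
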