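import Mathlib
import Pool.Agent.H40.WM.JDefs
import Pool.Agent.H40.WM.IPas
import Pool.Agent.H40.WM.IVer
import Pool.Agent.H40.WM.IShf

/-!
# JApp: appending a piece

Let `V = Vert (vt a k l') (l - l')`, from `vt a k l'` to `vt a k l` (`Vert_isP`; `(p.1 + d, p.2 + d)`).  If `l > l'` its edges are in the slice `uu a + 2k`, and are not `Hr (vt a k l)`; if `l < l'` they are in the slice
`uu a + 2k - 1` and are not `Vu (vt a k l')` (`Vert_us`).  `N` is in the slices `< uu a + 2k` and its only edge in the slice `uu a + 2k - 1` is `Vu (vt a k l')`; `T` is in the slices `≥ uu a + 2k`, its only edge in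
the slice `uu a + 2k` is `Hr (vt a k l)`.  So `N, V, T` are pairwise disjoint; `paste3` (the end points differ: `uu a < uu (vt a k' l'')` if `0 ≤ k < k'`; for `finish` the hypothesis `a ≠ b`).
`last` of the result: an edge of the slice `uu a + 2k' - 1`, `k' ≥ k+1`: it is in `T` (then `= Vu (vt a k' l'')`), or in `V` (slice `≤ uu a + 2k < uu a + 2k' - 1`: impossible), not in `N`.
Cardinality: `Vert_card` and disjointness.
-/

set_option autoImplicit false

namespace Pool.Agent.H40.WM

open Pool.Agent.H40.SQ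

noncomputable section

private theorem uu_vt (a : ℤ × ℤ) (k l : ℤ) : uu (vt a k l) = uu a + 2 * k := by
  unfold uu vt
  simp only
  ring

/-- The three parts are pairwise disjoint. -/
theorem app_disj {a : ℤ × ℤ} {k l l' : ℤ} {N T : Finset Edge} (hN1 : ∀ e ∈ N, us e < uu a + 2 * k)
    (hN2 : ∀ e ∈ N, us e = uu a + 2 * k - 1 → e = Vu (vt a k l')) (hT1 : ∀ e ∈ T, uu a + 2 * k ≤ us e)
    (hT2 : ∀ e ∈ T, us e = uu a + 2 * k → e = Hr (vt a k l)) :
    Disjoint N (Vert (vt a k l') (l - l')) ∧ Disjoint N T ∧ Disjoint (Vert (vt a k l') (l - l')) T := by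
  have hvt : ((vt a k l').1 + (l - l'), (vt a k l').2 + (l - l')) = vt a k l := by
    rw [← vt_shift]
    congr 1
    ring
  refine ⟨?_, ?_, ?_⟩
  · rw [Finset.disjoint_left]
    intro e he hv
    rcases Vert_us hv with ⟨_, h1, _⟩ | ⟨_, h1, h2⟩
    · have := hN1 e he
      rw [uu_vt] at h1
      omega
    · rw [uu_vt] at h1
      exact h2 (hN2 e he h1)
  · rw [Finset.disjoint_left]
    intro e he ht
    have h1 := hN1 e he
    have h2 := hT1 e ht
    omega
  · rw [Finset.disjoint_left]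
    intro e hv ht
    rcases Vert_us hv with ⟨_, h1, h2⟩ | ⟨_, h1, _⟩
    · rw [uu_vt] at h1
      rw [hvt] at h2
      exact h2 (hT2 e ht h1)
    · rw [uu_vt] at h1
      have := hT1 e ht
      omega

private theorem app_isP {a b : ℤ × ℤ} {k l l' : ℤ} {N T : Finset Edge} (hN0 : IsP a (vt a k l') N)
    (hN1 : ∀ e ∈ N, us e < uu a + 2 * k)
    (hN2 : ∀ e ∈ N, us e = uu a + 2 * k - 1 → e = Vu (vt a k l')) (hT0 : IsP (vt a k l) b T)
    (hT1 : ∀ e ∈ T, uu a + 2 * k ≤ us e)
    (hT2 : ∀ e ∈ T, us e = uu a + 2 * k → e = Hr (vt a k l)) (hab : a ≠ b) :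
    IsP a b (N ∪ Vert (vt a k l') (l - l') ∪ T) ∧
      (N ∪ Vert (vt a k l') (l - l') ∪ T).card = N.card + 2 * (l - l').natAbs + T.card := by
  obtain ⟨d1, d2, d3⟩ := app_disj hN1 hN2 hT1 hT2
  have hvt : ((vt a k l').1 + (l - l'), (vt a k l').2 + (l - l')) = vt a k l := by
    rw [← vt_shift]
    congr 1
    ring
  have hV := Vert_isP (vt a k l') (l - l')
  rw [hvt] at hV
  refine ⟨paste3 hN0 hV hT0 d1 d2 d3 hab, ?_⟩
  rw [Finset.card_union_of_disjoint (Finset.disjoint_union_left.2 ⟨d2, d3⟩), Finset.card_union_of_disjoint d1,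
    Vert_card]

theorem append {a : ℤ × ℤ} {k l l' k' l'' : ℤ} {N T : Finset Edge} (hN : LPa a k l' N) (hT : PCE a k l k' l'' T) (hk0 : 0 ≤ k) (hk : k < k') :
    LPa a k' l'' (N ∪ Vert (vt a k l') (l - l') ∪ T) ∧
      (N ∪ Vert (vt a k l') (l - l') ∪ T).card = N.card + 2 * (l - l').natAbs + T.card := by
  have hab : a ≠ vt a k' l'' := by
    intro h
    have h1 := uu_vt a k' l''
    rw [← h] at h1
    omega
  obtain ⟨h1, h2⟩ := app_isP hN.path hN.left hN.last hT.path hT.right hT.first hab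
  refine ⟨⟨h1, ?_, ?_⟩, h2⟩
  · intro e he
    rw [Finset.mem_union, Finset.mem_union] at he
    rcases he with (he | he) | he
    · have := hN.left e he
      omega
    · rcases Vert_us he with ⟨_, h1, _⟩ | ⟨_, h1, _⟩ <;> rw [uu_vt] at h1 <;> omega
    · exact hT.left e he
  · intro e he hu
    rw [Finset.mem_union, Finset.mem_union] at he
    rcases he with (he | he) | he
    · have := hN.left e he
      omega
    · rcases Vert_us he with ⟨_, h1, _⟩ | ⟨_, h1, _⟩ <;> rw [uu_vt] at h1 <;> omega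
    · exact hT.last e he hu

theorem finish {a b : ℤ × ℤ} {k l l' : ℤ} {N T : Finset Edge} (hN : LPa a k l' N) (hT : RPa a b k l T) (hab : a ≠ b) :
    IsP a b (N ∪ Vert (vt a k l') (l - l') ∪ T) ∧
      (N ∪ Vert (vt a k l') (l - l') ∪ T).card = N.card + 2 * (l - l').natAbs + T.card :=
  app_isP hN.path hN.left hN.last hT.path hT.right hT.first hab

end

end Pool.Agent.H40.WM
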