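import Mathlib
import Pool.Agent.H40.WM.JDefs
import Pool.Agent.H40.WM.IPrt
import Pool.Agent.H40.WM.IShf
import Pool.Agent.H40.WM.IVer

/-!
# JPc: pieces of paths

* `lpa_lf`: `cut`, `cut_point` (for `0 < k < m`), `cut_end` (for `k = m > 0`), `cut_left` (for `k = 0`; then `lf = ∅` and `lp = 0`).  `kl u e < k ↔ us e < u + 2k`.
* `pce_pc`: `part`; `x = 0`: `cut_start`; `x = y`: the part is empty.
* `rpa_rt`: `cut`, `cut_point`, `cut_start`; `k = m`: `rt = ∅`.
* `pce_sh`: `sh (j+t, -j+t)` maps `vt a k l` to `vt a (k+j) (l+t)`, increases `us` by `2j`, maps `Hr z` to `Hr (z+v)`, `Vu z` to `Vu (z+v)`; `IsP_sh`.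
* `pce_str`: `Str_isP`, `Str_first`, `Str_last`, `Str_kl`, with the base point `vt a k l` (`uu (vt a k l) = uu a + 2k`).
-/

set_option autoImplicit false

namespace Pool.Agent.H40.WM

open Pool.Agent.H40.SQ

noncomputable section

theorem kl_lt_iff (u : ℤ) (e : Edge) (k : ℤ) : kl u e < k ↔ us e < u + 2 * k := by
  unfold kl
  omega

private theorem jp_vt0 (a : ℤ × ℤ) : vt a 0 0 = a := by
  unfold vt
  simp

private theorem jp_lp0 (a b : ℤ × ℤ) (G : Finset Edge) : lp a b G 0 = 0 := by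
  unfold lp
  rw [if_pos (le_refl _)]

theorem lpa_nil (a : ℤ × ℤ) : LPa a 0 0 ∅ := by
  refine ⟨?_, ?_, ?_⟩
  · rw [jp_vt0]
    exact IsP_empty a
  · intro e he
    exact absurd he (Finset.notMem_empty e)
  · intro e he
    exact absurd he (Finset.notMem_empty e)

/-- The last edge before a half clean line `k` with `0 < k ≤ m`. -/
private theorem jp_last {a b : ℤ × ℤ} {G : Finset Edge} (h : IsP a b G) (m : ℕ) (hm : uu b = uu a + 2 * m) {k : ℤ} (hk : HC (uu a) G k)
    (hk0 : 0 < k) (hk1 : k ≤ m) : ∀ e ∈ G, us e = uu a + 2 * k - 1 → e = Vu (vt a k (lp a b G k)) := by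
  intro e he hu
  rcases lt_or_eq_of_le hk1 with h1 | h1
  · exact (cut_point h m hm k hk hk0 h1).2.2.2 e he hu
  · subst h1
    rw [← lp_vt m hm (by omega)]
    exact (cut_end h m hm (by omega) hk).2 e he (by omega)

/-- The first edge after a half clean line `k` with `0 ≤ k < m`. -/
private theorem jp_first {a b : ℤ × ℤ} {G : Finset Edge} (h : IsP a b G) (m : ℕ) (hm : uu b = uu a + 2 * m) {k : ℤ} (hk : HC (uu a) G k)
    (hk0 : 0 ≤ k) (hk1 : k < m) : ∀ e ∈ G, us e = uu a + 2 * k → e = Hr (vt a k (lp a b G k)) := by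
  intro e he hu
  rcases lt_or_eq_of_le hk0 with h1 | h1
  · exact (cut_point h m hm k hk h1 hk1).2.2.1 e he hu
  · subst h1
    rw [jp_lp0, jp_vt0]
    exact (cut_start h m hm (by omega) hk).2 e he (by omega)

theorem lpa_lf {a b : ℤ × ℤ} {G : Finset Edge} (h : IsP a b G) (m : ℕ) (hm : uu b = uu a + 2 * m) {k : ℤ} (hk : HC (uu a) G k)
    (hk0 : 0 ≤ k) (hk1 : k ≤ m) : LPa a k (lp a b G k) (lf (uu a) G k) := by
  refine ⟨(cut h m hm k hk hk0 hk1).1, ?_, ?_⟩
  · intro e he
    unfold lf at he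
    exact (kl_lt_iff _ _ _).1 (Finset.mem_filter.1 he).2
  · intro e he hu
    rcases lt_or_eq_of_le hk0 with h1 | h1
    · unfold lf at he
      exact jp_last h m hm hk h1 hk1 e (Finset.mem_filter.1 he).1 hu
    · subst h1
      rw [cut_left h m hm 0 hk (le_refl _)] at he
      exact absurd he (Finset.notMem_empty e)

theorem pce_pc {a b : ℤ × ℤ} {G : Finset Edge} (h : IsP a b G) (m : ℕ) (hm : uu b = uu a + 2 * m) {x y : ℤ} (hx : HC (uu a) G x)
    (hy : HC (uu a) G y) (hx0 : 0 ≤ x) (hxy : x ≤ y) (hy1 : y ≤ m) :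
    PCE a x (lp a b G x) y (lp a b G y) (pc (uu a) G x y) := by
  have hmem : ∀ e ∈ pc (uu a) G x y, e ∈ G ∧ x ≤ kl (uu a) e ∧ kl (uu a) e < y := by
    intro e he
    unfold pc at he
    exact Finset.mem_filter.1 he
  refine ⟨part h m hm hx hy hx0 hxy hy1, ?_, ?_, ?_, ?_⟩
  · intro e he
    obtain ⟨_, h2, _⟩ := hmem e he
    have h4 := kl_lt_iff (uu a) e x
    by_contra h5
    exact absurd (h4.2 (by omega)) (by omega)
  · intro e he hu
    obtain ⟨h1, h2, h3⟩ := hmem e he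
    exact jp_first h m hm hx hx0 (by omega) e h1 hu
  · intro e he
    exact (kl_lt_iff _ _ _).1 (hmem e he).2.2
  · intro e he hu
    obtain ⟨h1, h2, h3⟩ := hmem e he
    exact jp_last h m hm hy (by omega) hy1 e h1 hu

theorem rpa_rt {a b : ℤ × ℤ} {G : Finset Edge} (h : IsP a b G) (m : ℕ) (hm : uu b = uu a + 2 * m) {k : ℤ} (hk : HC (uu a) G k)
    (hk0 : 0 ≤ k) (hk1 : k ≤ m) : RPa a b k (lp a b G k) (rt (uu a) G k) := by
  refine ⟨(cut h m hm k hk hk0 hk1).2, ?_, ?_⟩
  · intro e he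
    unfold rt at he
    have h2 := (Finset.mem_filter.1 he).2
    have h4 := kl_lt_iff (uu a) e k
    by_contra h5
    exact absurd (h4.2 (by omega)) (by omega)
  · intro e he hu
    rcases lt_or_eq_of_le hk1 with h1 | h1
    · unfold rt at he
      exact jp_first h m hm hk hk0 h1 e (Finset.mem_filter.1 he).1 hu
    · rw [cut_right h m hm k hk (by omega)] at he
      exact absurd he (Finset.notMem_empty e)

private theorem jp_us (v : ℤ × ℤ) (e : Edge) : us (shE v e) = us e + (v.1 - v.2) := by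
  unfold us shE
  simp only
  ring

private theorem jp_Hr (v z : ℤ × ℤ) : shE v (Hr z) = Hr (z.1 + v.1, z.2 + v.2) := rfl

private theorem jp_Vu (v z : ℤ × ℤ) : shE v (Vu z) = Vu (z.1 + v.1, z.2 + v.2) := rfl

private theorem jp_vt (a : ℤ × ℤ) (k l j t : ℤ) : vt a (k + j) (l + t) = ((vt a k l).1 + (j + t), (vt a k l).2 + (-j + t)) := by
  unfold vt
  simp only [Prod.mk.injEq]
  constructor <;> ring

theorem pce_sh {a : ℤ × ℤ} {k l k' l' : ℤ} {T : Finset Edge} (h : PCE a k l k' l' T) (j t : ℤ) :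
    PCE a (k + j) (l + t) (k' + j) (l' + t) (sh (j + t, -j + t) T) := by
  refine ⟨?_, ?_, ?_, ?_, ?_⟩
  · rw [jp_vt, jp_vt]
    exact IsP_sh h.path (j + t, -j + t)
  · intro e he
    obtain ⟨e', he', rfl⟩ := mem_sh.1 he
    have h1 := h.right e' he'
    rw [jp_us]
    simp only
    omega
  · intro e he hu
    obtain ⟨e', he', rfl⟩ := mem_sh.1 he
    rw [jp_us] at hu
    simp only at hu
    rw [h.first e' he' (by omega), jp_Hr, jp_vt]
  · intro e he
    obtain ⟨e', he', rfl⟩ := mem_sh.1 he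
    have h1 := h.left e' he'
    rw [jp_us]
    simp only
    omega
  · intro e he hu
    obtain ⟨e', he', rfl⟩ := mem_sh.1 he
    rw [jp_us] at hu
    simp only at hu
    rw [h.last e' he' (by omega), jp_Vu, jp_vt]

theorem rpa_sh {a b : ℤ × ℤ} {k l : ℤ} {T : Finset Edge} (h : RPa a b k l T) (t : ℤ) :
    RPa a (b.1 + t, b.2 + t) k (l + t) (sh (t, t) T) := by
  refine ⟨?_, ?_, ?_⟩
  · rw [vt_shift]
    exact IsP_sh h.path (t, t)
  · intro e he
    obtain ⟨e', he', rfl⟩ := mem_sh.1 he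
    rw [us_shE]
    exact h.right e' he'
  · intro e he hu
    obtain ⟨e', he', rfl⟩ := mem_sh.1 he
    rw [us_shE] at hu
    rw [h.first e' he' hu, jp_Hr, vt_shift]

theorem pce_str (a : ℤ × ℤ) (k l : ℤ) (m : ℕ) : PCE a k l (k + m) l (Str (vt a k l) m) := by
  have hend : ((vt a k l).1 + (m : ℤ), (vt a k l).2 - (m : ℤ)) = vt a (k + m) l := by
    unfold vt
    simp only [Prod.mk.injEq]
    constructor <;> ring
  have hu0 := vt_uu a k l
  refine ⟨?_, ?_, ?_, ?_, ?_⟩
  · rw [← hend]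
    exact Str_isP _ _
  · intro e he
    obtain ⟨h1, h2, _⟩ := Str_kl he
    have h4 := kl_lt_iff (uu (vt a k l)) e 0
    by_contra h5
    exact absurd (h4.2 (by omega)) (by omega)
  · intro e he hu
    exact Str_first he (by omega)
  · intro e he
    obtain ⟨h1, h2, _⟩ := Str_kl he
    have h4 := (kl_lt_iff (uu (vt a k l)) e m).1 h2
    omega
  · intro e he hu
    rw [← hend]
    exact Str_last he (by omega)

end

end Pool.Agent.H40.WM
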