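import Mathlib
import Pool.Agent.H40.WM.TDefs
import Pool.Agent.H40.WM.JApp
import Pool.Agent.H40.WM.JPc
import Pool.Agent.H40.WM.ICon

/-!
# TLx: the mixed path

`j = n0 - m`.  `mix` = straight path of length `k1 + j`, connector, the part of `G` between `k1` and `ks` (translated horizontally), connector, the part of `G'` between `ks` and `k2` (translated by `s` levels), connector, straight path.
Here `g1 = lp G k1`, `g2 = lp G ks`, `g3 = lp G' ks`, `g4 = lp G' k2`.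
* `mix_isP`: `pce_str a 0 0 (k1+j)` gives a left path `LPa a (k1+j) 0 (Str a _)` (from `PCE` with `k = l = 0`, `vt a 0 0 = a`); three times `append`: `pce_pc` + `pce_sh` for the two pieces (`sh (j+t,-j+t)` with `t = 0` and `t = s`), `pce_str a (k2+j) 0 (m-k2)` for the last (`k2 + j + (m - k2) = n0`).
  Regular lines are half clean.  The result is `LPa a n0 0 mix`, in particular `IsP a (vt a n0 0) mix`.
* `mix_card`: from the cardinality parts of `append`.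
-/

set_option autoImplicit false

namespace Pool.Agent.H40.WM

open Pool.Agent.H40.SQ

noncomputable section

/-- The mixed path. -/
def mix (a : ℤ × ℤ) (m n0 : ℕ) (G G' : Finset Edge) (k1 ks k2 g1 g2 g3 g4 s : ℤ) : Finset Edge :=
  ((Str a (k1 + (n0 - m)).toNat ∪ Vert (vt a (k1 + (n0 - m)) 0) (g1 - 0) ∪ sh ((n0 - m : ℤ) + 0, -(n0 - m : ℤ) + 0) (pc (uu a) G k1 ks)) ∪
    Vert (vt a (ks + (n0 - m)) g2) (g3 + s - g2) ∪ sh ((n0 - m : ℤ) + s, -(n0 - m : ℤ) + s) (pc (uu a) G' ks k2)) ∪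
    Vert (vt a (k2 + (n0 - m)) (g4 + s)) (0 - (g4 + s)) ∪ Str (vt a (k2 + (n0 - m)) 0) (m - k2).toNat

private theorem tx_hc {a : ℤ × ℤ} {G : Finset Edge} {f : ℤ → ℕ} (hf : ∀ i, ex (uu a) G i ≤ f i) {x : ℤ} (hx : Reg f x) :
    HC (uu a) G x := by
  obtain ⟨h1, h2⟩ := reg_zero hx
  have h3 := hf x
  have h4 := hf (x - 1)
  exact HC_of_ex (by omega) (by omega)

private theorem tx_N0 (a : ℤ × ℤ) {k : ℤ} (hk : 0 ≤ k) : LPa a k 0 (Str a k.toNat) := by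
  have h1 := pce_str a 0 0 k.toNat
  have h2 : vt a 0 0 = a := by
    unfold vt
    simp
  rw [h2, Int.toNat_of_nonneg hk, zero_add] at h1
  refine ⟨?_, h1.left, h1.last⟩
  have h3 := h1.path
  rw [h2] at h3
  exact h3

private theorem tx_T {a : ℤ × ℤ} {m : ℕ} {l : ℤ} {G : Finset Edge} (hG : IsP a (vt a m l) G) {f : ℤ → ℕ} (hf : ∀ i, ex (uu a) G i ≤ f i)
    {x y : ℤ} (hx : Reg f x) (hy : Reg f y) (hx0 : 0 ≤ x) (hxy : x ≤ y) (hym : y ≤ m) (j s : ℤ) :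
    PCE a (x + j) (lp a (vt a m l) G x + s) (y + j) (lp a (vt a m l) G y + s) (sh (j + s, -j + s) (pc (uu a) G x y)) :=
  pce_sh (pce_pc hG m (vt_uu a m l) (tx_hc hf hx) (tx_hc hf hy) hx0 hxy hym) j s

private theorem tx_T3 (a : ℤ × ℤ) {m n0 : ℕ} {k2 : ℤ} (h : k2 ≤ m) :
    PCE a (k2 + ((n0 : ℤ) - m)) 0 n0 0 (Str (vt a (k2 + ((n0 : ℤ) - m)) 0) (m - k2).toNat) := by
  have h1 := pce_str a (k2 + ((n0 : ℤ) - m)) 0 (m - k2).toNat
  rw [Int.toNat_of_nonneg (by omega)] at h1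
  have h2 : k2 + ((n0 : ℤ) - m) + (m - k2) = n0 := by ring
  rw [h2] at h1
  exact h1

private theorem tx_all {a : ℤ × ℤ} {m n0 : ℕ} {l l' : ℤ} {G G' : Finset Edge} (hG : IsP a (vt a m l) G) (hG' : IsP a (vt a m l') G')
    {f : ℤ → ℕ} (hf : ∀ i, ex (uu a) G i ≤ f i) (hf' : ∀ i, ex (uu a) G' i ≤ f i) {k1 ks k2 : ℤ} (h1 : Reg f k1) (hs : Reg f ks) (h2 : Reg f k2)
    (h0 : 3 ≤ k1) (h1s : k1 < ks) (hs2 : ks < k2) (h2m : k2 < m) (hmn : m ≤ n0 + 2) :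
    LPa a n0 0 (mix a m n0 G G' k1 ks k2 (lp a (vt a m l) G k1) (lp a (vt a m l) G ks) (lp a (vt a m l') G' ks)
      (lp a (vt a m l') G' k2) (-l')) ∧
    (mix a m n0 G G' k1 ks k2 (lp a (vt a m l) G k1) (lp a (vt a m l) G ks) (lp a (vt a m l') G' ks)
      (lp a (vt a m l') G' k2) (-l')).card =
      (Str a (k1 + (n0 - m)).toNat).card + 2 * (lp a (vt a m l) G k1 - 0).natAbs + (pc (uu a) G k1 ks).card +
      2 * (lp a (vt a m l') G' ks + -l' - lp a (vt a m l) G ks).natAbs + (pc (uu a) G' ks k2).card +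
      2 * (0 - (lp a (vt a m l') G' k2 + -l')).natAbs + (Str (vt a (k2 + (n0 - m)) 0) (m - k2).toNat).card := by
  have n0' := tx_N0 a (k := k1 + ((n0 : ℤ) - m)) (by omega)
  have t1 := tx_T hG hf h1 hs (by omega) h1s.le (by omega) ((n0 : ℤ) - m) 0
  rw [add_zero, add_zero] at t1
  have t2 := tx_T hG' hf' hs h2 (by omega) hs2.le (by omega) ((n0 : ℤ) - m) (-l')
  have t3 := tx_T3 a (m := m) (n0 := n0) (k2 := k2) (by omega)
  obtain ⟨a1, c1⟩ := append n0' t1 (by omega) (by omega)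
  obtain ⟨a2, c2⟩ := append a1 t2 (by omega) (by omega)
  obtain ⟨a3, c3⟩ := append a2 t3 (by omega) (by omega)
  refine ⟨a3, ?_⟩
  refine c3.trans ?_
  rw [c2, c1, sh_card, sh_card]

theorem mix_isP {a : ℤ × ℤ} {m n0 : ℕ} {l l' : ℤ} {G G' : Finset Edge} (hG : IsP a (vt a m l) G) (hG' : IsP a (vt a m l') G')
    {f : ℤ → ℕ} (hf : ∀ i, ex (uu a) G i ≤ f i) (hf' : ∀ i, ex (uu a) G' i ≤ f i) {k1 ks k2 : ℤ} (h1 : Reg f k1) (hs : Reg f ks) (h2 : Reg f k2)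
    (h0 : 3 ≤ k1) (h1s : k1 < ks) (hs2 : ks < k2) (h2m : k2 < m) (hmn : m ≤ n0 + 2) :
    IsP a (vt a n0 0) (mix a m n0 G G' k1 ks k2 (lp a (vt a m l) G k1) (lp a (vt a m l) G ks) (lp a (vt a m l') G' ks)
      (lp a (vt a m l') G' k2) (-l')) :=
  (tx_all hG hG' hf hf' h1 hs h2 h0 h1s hs2 h2m hmn).1.path

theorem mix_card {a : ℤ × ℤ} {m n0 : ℕ} {l l' : ℤ} {G G' : Finset Edge} (hG : IsP a (vt a m l) G) (hG' : IsP a (vt a m l') G')
    {f : ℤ → ℕ} (hf : ∀ i, ex (uu a) G i ≤ f i) (hf' : ∀ i, ex (uu a) G' i ≤ f i) {k1 ks k2 : ℤ} (h1 : Reg f k1) (hs : Reg f ks) (h2 : Reg f k2)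
    (h0 : 3 ≤ k1) (h1s : k1 < ks) (hs2 : ks < k2) (h2m : k2 < m) (hmn : m ≤ n0 + 2) :
    ((mix a m n0 G G' k1 ks k2 (lp a (vt a m l) G k1) (lp a (vt a m l) G ks) (lp a (vt a m l') G' ks)
      (lp a (vt a m l') G' k2) (-l')).card : ℤ) =
      2 * (k1 + (n0 - m)) + 2 * |lp a (vt a m l) G k1| + (pc (uu a) G k1 ks).card +
      2 * |lp a (vt a m l') G' ks - l' - lp a (vt a m l) G ks| + (pc (uu a) G' ks k2).card +
      2 * |lp a (vt a m l') G' k2 - l'| + 2 * (m - k2) := by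
  rw [(tx_all hG hG' hf hf' h1 hs h2 h0 h1s hs2 h2m hmn).2, Str_card, Str_card]
  push_cast
  have e1 : lp a (vt a m l) G k1 - 0 = lp a (vt a m l) G k1 := sub_zero _
  have e2 : lp a (vt a m l') G' ks + -l' - lp a (vt a m l) G ks = lp a (vt a m l') G' ks - l' - lp a (vt a m l) G ks := by ring
  have e3 : |0 - (lp a (vt a m l') G' k2 + -l')| = |lp a (vt a m l') G' k2 - l'| := by
    rw [zero_sub, abs_neg, ← sub_eq_add_neg]
  rw [e1, e2, e3]
  omega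

/-- Recovering the two pieces from the mixed path. -/
private theorem tx_rec {a : ℤ × ℤ} {m n0 : ℕ} {l l' : ℤ} {G G' : Finset Edge} (hG : IsP a (vt a m l) G) (hG' : IsP a (vt a m l') G')
    {f : ℤ → ℕ} (hf : ∀ i, ex (uu a) G i ≤ f i) (hf' : ∀ i, ex (uu a) G' i ≤ f i) {k1 ks k2 : ℤ} (h1 : Reg f k1) (hs : Reg f ks) (h2 : Reg f k2)
    (h0 : 3 ≤ k1) (h1s : k1 < ks) (hs2 : ks < k2) (h2m : k2 < m) (hmn : m ≤ n0 + 2) :
    sh ((n0 - m : ℤ) + 0, -(n0 - m : ℤ) + 0) (pc (uu a) G k1 ks) =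
      (mix a m n0 G G' k1 ks k2 (lp a (vt a m l) G k1) (lp a (vt a m l) G ks) (lp a (vt a m l') G' ks) (lp a (vt a m l') G' k2) (-l')).filter
        (fun e => uu a + 2 * (k1 + (n0 - m)) ≤ us e ∧ us e < uu a + 2 * (ks + (n0 - m))) \
        (Vert (vt a (k1 + (n0 - m)) 0) (lp a (vt a m l) G k1 - 0) ∪
          Vert (vt a (ks + (n0 - m)) (lp a (vt a m l) G ks)) (lp a (vt a m l') G' ks + -l' - lp a (vt a m l) G ks)) ∧
    sh ((n0 - m : ℤ) + -l', -(n0 - m : ℤ) + -l') (pc (uu a) G' ks k2) =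
      (mix a m n0 G G' k1 ks k2 (lp a (vt a m l) G k1) (lp a (vt a m l) G ks) (lp a (vt a m l') G' ks) (lp a (vt a m l') G' k2) (-l')).filter
        (fun e => uu a + 2 * (ks + (n0 - m)) ≤ us e ∧ us e < uu a + 2 * (k2 + (n0 - m))) \
        (Vert (vt a (ks + (n0 - m)) (lp a (vt a m l) G ks)) (lp a (vt a m l') G' ks + -l' - lp a (vt a m l) G ks) ∪
          Vert (vt a (k2 + (n0 - m)) (lp a (vt a m l') G' k2 + -l')) (0 - (lp a (vt a m l') G' k2 + -l'))) := by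
  have n0' := tx_N0 a (k := k1 + ((n0 : ℤ) - m)) (by omega)
  have t1 := tx_T hG hf h1 hs (by omega) h1s.le (by omega) ((n0 : ℤ) - m) 0
  rw [add_zero, add_zero] at t1
  have t2 := tx_T hG' hf' hs h2 (by omega) hs2.le (by omega) ((n0 : ℤ) - m) (-l')
  have t3 := tx_T3 a (m := m) (n0 := n0) (k2 := k2) (by omega)
  obtain ⟨a1, _⟩ := append n0' t1 (by omega) (by omega)
  obtain ⟨a2, _⟩ := append a1 t2 (by omega) (by omega)
  obtain ⟨_, _, d1⟩ := app_disj n0'.left n0'.last t1.right t1.first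
  obtain ⟨d2, _, d2'⟩ := app_disj a1.left a1.last t2.right t2.first
  obtain ⟨d3, _, _⟩ := app_disj a2.left a2.last t3.right t3.first
  obtain ⟨N0, hN0⟩ : ∃ N0, N0 = Str a (k1 + ((n0 : ℤ) - m)).toNat := ⟨_, rfl⟩
  obtain ⟨T1, hT1⟩ : ∃ T1, T1 = sh ((n0 - m : ℤ) + 0, -(n0 - m : ℤ) + 0) (pc (uu a) G k1 ks) := ⟨_, rfl⟩
  obtain ⟨T2, hT2⟩ : ∃ T2, T2 = sh ((n0 - m : ℤ) + -l', -(n0 - m : ℤ) + -l') (pc (uu a) G' ks k2) := ⟨_, rfl⟩
  obtain ⟨T3, hT3⟩ : ∃ T3, T3 = Str (vt a (k2 + ((n0 : ℤ) - m)) 0) (m - k2).toNat := ⟨_, rfl⟩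
  obtain ⟨V1, hV1⟩ : ∃ V1, V1 = Vert (vt a (k1 + (n0 - m)) 0) (lp a (vt a m l) G k1 - 0) := ⟨_, rfl⟩
  obtain ⟨V2, hV2⟩ : ∃ V2, V2 = Vert (vt a (ks + (n0 - m)) (lp a (vt a m l) G ks)) (lp a (vt a m l') G' ks + -l' - lp a (vt a m l) G ks) :=
    ⟨_, rfl⟩
  obtain ⟨V3, hV3⟩ : ∃ V3, V3 = Vert (vt a (k2 + (n0 - m)) (lp a (vt a m l') G' k2 + -l')) (0 - (lp a (vt a m l') G' k2 + -l')) := ⟨_, rfl⟩
  have hmx : mix a m n0 G G' k1 ks k2 (lp a (vt a m l) G k1) (lp a (vt a m l) G ks) (lp a (vt a m l') G' ks) (lp a (vt a m l') G' k2) (-l') =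
      ((N0 ∪ V1 ∪ T1) ∪ V2 ∪ T2) ∪ V3 ∪ T3 := by
    rw [hN0, hT1, hT2, hT3, hV1, hV2, hV3]
    rfl
  have v1 : ∀ e ∈ V1, us e = uu a + 2 * (k1 + (n0 - m)) ∨ us e = uu a + 2 * (k1 + (n0 - m)) - 1 := by
    intro e he
    rw [hV1] at he
    rcases Vert_us he with ⟨_, h, _⟩ | ⟨_, h, _⟩
    · left
      rw [h, vt_uu]
    · right
      rw [h, vt_uu]
  have v3 : ∀ e ∈ V3, us e = uu a + 2 * (k2 + (n0 - m)) ∨ us e = uu a + 2 * (k2 + (n0 - m)) - 1 := by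
    intro e he
    rw [hV3] at he
    rcases Vert_us he with ⟨_, h, _⟩ | ⟨_, h, _⟩
    · left
      rw [h, vt_uu]
    · right
      rw [h, vt_uu]
  rw [← hN0] at n0' d2 d3
  rw [← hT1] at t1 d1 d2 d3
  rw [← hT2] at t2 d2' d3
  rw [← hT3] at t3
  rw [← hV1] at d1 d2 d3
  rw [← hV2] at d2 d2' d3
  rw [← hV3] at d3
  rw [Finset.disjoint_left] at d1 d2 d2' d3
  rw [← hT1, ← hT2, ← hV1, ← hV2, ← hV3, hmx]
  constructor
  · ext e
    rw [Finset.mem_sdiff, Finset.mem_filter, Finset.mem_union, Finset.mem_union, Finset.mem_union, Finset.mem_union, Finset.mem_union,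
      Finset.mem_union, Finset.mem_union]
    constructor
    · intro he
      have r1 := t1.right e he
      have r2 := t1.left e he
      refine ⟨⟨Or.inl (Or.inl (Or.inl (Or.inl (Or.inr he)))), r1, r2⟩, ?_⟩
      rintro (h | h)
      · exact d1 h he
      · exact d2 (Finset.mem_union_right _ he) h
    · rintro ⟨⟨h, r1, r2⟩, h'⟩
      rcases h with (((((h | h) | h) | h) | h) | h) | h
      · have := n0'.left e h
        omega
      · exact absurd (Or.inl h) h'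
      · exact h
      · exact absurd (Or.inr h) h'
      · have := t2.right e h
        omega
      · have := v3 e h
        omega
      · have := t3.right e h
        omega
  · ext e
    rw [Finset.mem_sdiff, Finset.mem_filter, Finset.mem_union, Finset.mem_union, Finset.mem_union, Finset.mem_union, Finset.mem_union,
      Finset.mem_union, Finset.mem_union]
    constructor
    · intro he
      have r1 := t2.right e he
      have r2 := t2.left e he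
      refine ⟨⟨Or.inl (Or.inl (Or.inr he)), r1, r2⟩, ?_⟩
      rintro (h | h)
      · exact d2' h he
      · exact d3 (Finset.mem_union_right _ he) h
    · rintro ⟨⟨h, r1, r2⟩, h'⟩
      rcases h with (((((h | h) | h) | h) | h) | h) | h
      · have := n0'.left e h
        omega
      · have := v1 e h
        omega
      · have := t1.left e h
        omega
      · exact absurd (Or.inl h) h'
      · exact h
      · exact absurd (Or.inr h) h'
      · have := t3.right e h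
        omega

/-- Decoding of the two pieces. -/
theorem mix_decode {a : ℤ × ℤ} {m n0 : ℕ} {l l' : ℤ} {G G' : Finset Edge} (hG : IsP a (vt a m l) G) (hG' : IsP a (vt a m l') G')
    {G₁ G₁' : Finset Edge} (hG₁ : IsP a (vt a m l) G₁) (hG₁' : IsP a (vt a m l') G₁')
    {f f₁ : ℤ → ℕ} (hf : ∀ i, ex (uu a) G i ≤ f i) (hf' : ∀ i, ex (uu a) G' i ≤ f i) (hf₁ : ∀ i, ex (uu a) G₁ i ≤ f₁ i) (hf₁' : ∀ i, ex (uu a) G₁' i ≤ f₁ i)
    {k1 ks k2 : ℤ} (h1 : Reg f k1) (hs : Reg f ks) (h2 : Reg f k2) (h1' : Reg f₁ k1) (hs' : Reg f₁ ks) (h2' : Reg f₁ k2)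
    (h0 : 3 ≤ k1) (h1s : k1 < ks) (hs2 : ks < k2) (h2m : k2 < m) (hmn : m ≤ n0 + 2)
    (e1 : lp a (vt a m l) G k1 = lp a (vt a m l) G₁ k1) (e2 : lp a (vt a m l) G ks = lp a (vt a m l) G₁ ks)
    (e3 : lp a (vt a m l') G' ks = lp a (vt a m l') G₁' ks) (e4 : lp a (vt a m l') G' k2 = lp a (vt a m l') G₁' k2)
    (he : mix a m n0 G G' k1 ks k2 (lp a (vt a m l) G k1) (lp a (vt a m l) G ks) (lp a (vt a m l') G' ks) (lp a (vt a m l') G' k2) (-l') =
      mix a m n0 G₁ G₁' k1 ks k2 (lp a (vt a m l) G₁ k1) (lp a (vt a m l) G₁ ks) (lp a (vt a m l') G₁' ks) (lp a (vt a m l') G₁' k2) (-l')) :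
    pc (uu a) G k1 ks = pc (uu a) G₁ k1 ks ∧ pc (uu a) G' ks k2 = pc (uu a) G₁' ks k2 := by
  obtain ⟨r1, r2⟩ := tx_rec hG hG' hf hf' h1 hs h2 h0 h1s hs2 h2m hmn
  obtain ⟨r1', r2'⟩ := tx_rec hG₁ hG₁' hf₁ hf₁' h1' hs' h2' h0 h1s hs2 h2m hmn
  rw [he, e1, e2, e3, ← r1'] at r1
  rw [he, e2, e3, e4, ← r2'] at r2
  have hinj : ∀ (v : ℤ × ℤ) {A B : Finset Edge}, sh v A = sh v B → A = B := by
    intro v A B h
    unfold sh at h
    exact Finset.image_injective (shE_inj v) h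
  exact ⟨hinj _ r1, hinj _ r2⟩

end

end Pool.Agent.H40.WM
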