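import Mathlib
import Pool.Agent.H40.WM.TLx
import Pool.Agent.H40.WM.TCone

/-!
# TLd: the mixed path lies in `D`, and its levels

`b = vt a n0 0`; `t ≥ 1`, `13000 t ≤ k1`, `k2 ≤ m - 13000 t`, `|lp G' ks - l' - lp G ks| ≤ 270 t`; `j = n0 - m ≥ -2`.  For the edges of `mix`:
* the straight parts are contained in `Str a n0 ⊆ D` (`Dom.str`); levels `0` (`Str_lvl`).
* part 1: an edge `e` of `G`, `i = kl e ∈ [k1, ks)`, translated horizontally (level unchanged, `kl` increases by `j`): `cone_right` at `k1` and `cone_a`: `100 |lvl z| ≤ i + 2`.  `cone_b` for `G'` at `ks`: `100 |lp G' ks - l'| ≤ m - ks + 1`, so `|lp G ks| ≤ (m-ks+1)/100 + 270 t`;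
  `cone_left` at `ks`: `100 |lvl z - lp G ks| ≤ ks - i`; so `|lvl z| ≤ (m - i + 1)/100 + 270 t ≤ (m - i)/25` because `m - i ≥ 13000 t`.
* part 2: an edge of `G'`, `i ∈ [ks,k2)`, new level `lvl z - l'`: `cone_right` at `ks` (for `G'`): `|lvl z - lp G' ks| ≤ (i - ks + 1)/100`, `|lp G' ks - l'| ≤ |lp G ks| + 270 t ≤ (ks+1)/100 + 270 t`; so `|new level| ≤ (i+2)/100 + 270 t ≤ i/25`; `cone_left` at `k2` and `cone_b`: `≤ (m - i + 1)/100`.
* connectors (`Vert_lvl`): levels between the two end levels `± 1`: at `k1`: between `0` and `lp G k1`, `|.| ≤ (k1+1)/100 + 1`; at `ks`: between `lp G ks` and `lp G' ks - l'`, both `≤ min ((ks+1)/100, (m-ks+1)/100) + 270 t`; at `k2`: `≤ (m - k2 + 1)/100 + 1`; the edges are in the double slices `k + j` or `k + j - 1`.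
So every edge with an end `z` and `i' = kl` (in the new position) satisfies, outside the straight parts, `|lvl z| ≤ min (i', n0 - i')/20 + 3`: the cone condition holds (`min (i', n0-i') ≥ 12990 t`), `mem_cone`.
-/

set_option autoImplicit false

namespace Pool.Agent.H40.WM

open Pool.Agent.H40.SQ

noncomputable section

private theorem tld_four {x c : ℤ} (h1 : 4 * x ≤ c) (h2 : -(4 * x) ≤ c) : 4 * |x| ≤ c := by
  rcases abs_choice x with h | h <;> rw [h] <;> omega

private theorem tld_hun {x c k : ℤ} (hk : 0 < k) (h : k * |x| ≤ c) : k * x ≤ c ∧ -(k * x) ≤ c := by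
  have h1 := le_abs_self x
  have h2 := neg_abs_le x
  constructor <;> nlinarith

private theorem tld_uu {e : Edge} {z : ℤ × ℤ} (hz : z ∈ ends e) : us e ≤ uu z ∧ uu z ≤ us e + 1 := by
  obtain ⟨b, x, y⟩ := e
  obtain ⟨z1, z2⟩ := z
  unfold us uu
  cases b
  · rw [ends_f] at hz
    simp only [Finset.mem_insert, Finset.mem_singleton, Prod.mk.injEq, Bool.false_eq_true, if_false] at hz ⊢
    omega
  · rw [ends_t] at hz
    simp only [Finset.mem_insert, Finset.mem_singleton, Prod.mk.injEq, if_true] at hz ⊢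
    omega

private theorem tld_end (e : Edge) : (e.2.1, e.2.2) ∈ ends e := by
  obtain ⟨t, x, y⟩ := e
  cases t <;> simp [ends]

private theorem tld_mem {a : ℤ × ℤ} {n0 : ℕ} {D : Finset Edge} (hD : ConeD a n0 D) {e : Edge}
    (hlev : ∀ z ∈ ends e, 4 * |lvl a z| ≤ cd a n0 e + 8) (hc : 100 ≤ cd a n0 e) : e ∈ D := by
  have h1 := hlev _ (tld_end e)
  have h2 := tld_uu (tld_end e)
  have h3 := tld_end e
  generalize (e.2.1, e.2.2) = z at h1 h2 h3
  have h4 : cd a n0 e ≤ kl (uu a) e := by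
    unfold cd
    exact min_le_left _ _
  have h5 : cd a n0 e ≤ n0 - kl (uu a) e := by
    unfold cd
    exact min_le_right _ _
  have h6 : 2 * kl (uu a) e ≤ us e - uu a ∧ us e - uu a ≤ 2 * kl (uu a) e + 1 := by
    unfold kl
    omega
  refine mem_cone hD h3 ?_ ?_
  · omega
  · omega

private theorem tld_shift (a z : ℤ × ℤ) (j s : ℤ) : lvl a (z.1 - (j + s), z.2 - (-j + s)) = lvl a z - s := by
  unfold lvl uu vv
  simp only
  omega

private theorem tld_us_sh (v : ℤ × ℤ) (e : Edge) : us (shE v e) = us e + (v.1 - v.2) := by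
  unfold us shE
  simp only
  ring

private theorem tld_kl_sh (u j s : ℤ) (e : Edge) : kl u (shE (j + s, -j + s) e) = kl u e + j := by
  unfold kl
  rw [tld_us_sh]
  simp only
  omega

private theorem tld_two {a b : ℤ × ℤ} {G : Finset Edge} (h : IsP a b G) (m : ℕ) (hm : uu b = uu a + 2 * m) {f : ℤ → ℕ}
    (hf : ∀ i, ex (uu a) G i ≤ f i) {x y : ℤ} (hx : Reg f x) (hy : Reg f y) (hx0 : 0 ≤ x) (hxy : x ≤ y) (hy1 : y ≤ m) :
    128 * |lp a b G x - lp a b G y| ≤ y - x := by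
  have h1 := cone_two h m hm hf hx hy hx0 hxy hy1
  have h2 := hx.1 y hxy
  have h3 : Sf (ex (uu a) G) x y ≤ Sf f x y := by
    unfold Sf
    exact Finset.sum_le_sum fun i _ => hf i
  have h4 : (Sf (ex (uu a) G) x y : ℤ) ≤ Sf f x y := by exact_mod_cast h3
  omega

private theorem tld_str_mono {a : ℤ × ℤ} {m n : ℕ} (h : m ≤ n) : Str a m ⊆ Str a n := by
  intro e he
  obtain ⟨b, x, y⟩ := e
  cases b
  · rw [Str_mem_f] at he ⊢
    omega
  · rw [Str_mem_t] at he ⊢
    omega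

private theorem mix_all {a : ℤ × ℤ} {m n0 : ℕ} {l l' : ℤ} {G G' : Finset Edge} (hG : IsP a (vt a m l) G) (hG' : IsP a (vt a m l') G')
    {f : ℤ → ℕ} (hf : ∀ i, ex (uu a) G i ≤ f i) (hf' : ∀ i, ex (uu a) G' i ≤ f i) {k1 ks k2 : ℤ} (h1 : Reg f k1) (hs : Reg f ks) (h2 : Reg f k2)
    {t : ℕ} (ht : 1 ≤ t) (h0 : 13000 * (t : ℤ) ≤ k1) (h1s : k1 < ks) (hs2 : ks < k2) (h2m : k2 ≤ (m : ℤ) - 13000 * t) (hmn : m ≤ n0 + 2)
    (hΔ : |lp a (vt a m l') G' ks - l' - lp a (vt a m l) G ks| ≤ 270 * (t : ℤ)) :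
    ∀ e ∈ mix a m n0 G G' k1 ks k2 (lp a (vt a m l) G k1) (lp a (vt a m l) G ks) (lp a (vt a m l') G' ks) (lp a (vt a m l') G' k2) (-l'),
      (∀ z ∈ ends e, 4 * |lvl a z| ≤ cd a n0 e + 8) ∧ (e ∈ Str a n0 ∨ 100 ≤ cd a n0 e) := by
  have ht' : (1 : ℤ) ≤ (t : ℤ) := by exact_mod_cast ht
  have u1 : uu (vt a m l) = uu a + 2 * m := vt_uu a m l
  have u2 : uu (vt a m l') = uu a + 2 * m := vt_uu a m l'
  have A1 := tld_hun (by norm_num) (cone_a hG m u1 hf h1 (by omega) (by omega))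
  have A2 := tld_hun (by norm_num) (cone_a hG m u1 hf hs (by omega) (by omega))
  have B3 := cone_b hG' m u2 hf' hs (by omega) (by omega)
  have B4 := cone_b hG' m u2 hf' h2 (by omega) (by omega)
  rw [vt_lvl] at B3 B4
  have B3' := tld_hun (by norm_num) B3
  have B4' := tld_hun (by norm_num) B4
  have C12 := tld_hun (by norm_num) (tld_two hG m u1 hf h1 hs (by omega) h1s.le (by omega))
  have C34 := tld_hun (by norm_num) (tld_two hG' m u2 hf' hs h2 (by omega) hs2.le (by omega))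
  have hΔ' := abs_le.1 hΔ
  have R1 : ∀ e' ∈ G, k1 ≤ kl (uu a) e' → ∀ z ∈ ends e', 100 * |lvl a z - lp a (vt a m l) G k1| ≤ kl (uu a) e' - k1 + 1 :=
    fun e' he' hk z hz => cone_right hG m u1 hf h1 (by omega) (by omega) he' hk hz
  have L1 : ∀ e' ∈ G, kl (uu a) e' < ks → ∀ z ∈ ends e', 100 * |lvl a z - lp a (vt a m l) G ks| ≤ ks - kl (uu a) e' :=
    fun e' he' hk z hz => cone_left hG m u1 hf hs (by omega) (by omega) he' hk hz
  have R2 : ∀ e' ∈ G', ks ≤ kl (uu a) e' → ∀ z ∈ ends e', 100 * |lvl a z - lp a (vt a m l') G' ks| ≤ kl (uu a) e' - ks + 1 :=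
    fun e' he' hk z hz => cone_right hG' m u2 hf' hs (by omega) (by omega) he' hk hz
  have L2 : ∀ e' ∈ G', kl (uu a) e' < k2 → ∀ z ∈ ends e', 100 * |lvl a z - lp a (vt a m l') G' k2| ≤ k2 - kl (uu a) e' :=
    fun e' he' hk z hz => cone_left hG' m u2 hf' h2 (by omega) (by omega) he' hk hz
  generalize lp a (vt a m l) G k1 = g1 at *
  generalize lp a (vt a m l) G ks = g2 at *
  generalize lp a (vt a m l') G' ks = g3 at *
  generalize lp a (vt a m l') G' k2 = g4 at *
  intro e he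
  unfold mix at he
  simp only [Finset.mem_union] at he
  -- connectors
  have hvert : ∀ (k g d : ℤ), e ∈ Vert (vt a (k + ((n0 : ℤ) - m)) g) d → k1 ≤ k → k ≤ k2 →
      (4 * max g (g + d) + 4 ≤ k + 4) → (-(4 * min g (g + d)) + 4 ≤ k + 4) →
      (4 * max g (g + d) + 4 ≤ m - k + 4) → (-(4 * min g (g + d)) + 4 ≤ m - k + 4) →
      (∀ z ∈ ends e, 4 * |lvl a z| ≤ cd a n0 e + 8) ∧ (e ∈ Str a n0 ∨ 100 ≤ cd a n0 e) := by
    intro k g d hv hk1 hk2 i1 i2 i3 i4
    have hus : us e = uu a + 2 * (k + ((n0 : ℤ) - m)) ∨ us e = uu a + 2 * (k + ((n0 : ℤ) - m)) - 1 := by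
      rcases Vert_us hv with h | h
      · left
        rw [h.2.1, vt_uu]
      · right
        rw [h.2.1, vt_uu]
    have hkl : k + ((n0 : ℤ) - m) - 1 ≤ kl (uu a) e ∧ kl (uu a) e ≤ k + ((n0 : ℤ) - m) := by
      unfold kl
      omega
    have hcd : k + ((n0 : ℤ) - m) - 1 ≤ cd a n0 e ∨ (m : ℤ) - k ≤ cd a n0 e := by
      unfold cd
      rcases le_total (kl (uu a) e) (n0 - kl (uu a) e) with h | h
      · left
        rw [min_eq_left h]
        omega
      · right
        rw [min_eq_right h]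
        omega
    constructor
    · intro z hz
      have h3 := Vert_lvl rfl hv hz
      apply tld_four
      · rcases hcd with h | h <;> omega
      · rcases hcd with h | h <;> omega
    · right
      rcases hcd with h | h <;> omega
  -- pieces
  have hpiece : ∀ (s : ℤ) (e' : Edge), shE (((n0 : ℤ) - m) + s, -((n0 : ℤ) - m) + s) e' = e → k1 ≤ kl (uu a) e' → kl (uu a) e' < k2 →
      (∀ z' ∈ ends e', 4 * (lvl a z' + s) ≤ kl (uu a) e' + 6 ∧ -(4 * (lvl a z' + s)) ≤ kl (uu a) e' + 6 ∧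
        4 * (lvl a z' + s) ≤ m - kl (uu a) e' + 8 ∧ -(4 * (lvl a z' + s)) ≤ m - kl (uu a) e' + 8) →
      (∀ z ∈ ends e, 4 * |lvl a z| ≤ cd a n0 e + 8) ∧ (e ∈ Str a n0 ∨ 100 ≤ cd a n0 e) := by
    intro s e' he' hk1 hk2 hb
    have hkl : kl (uu a) e = kl (uu a) e' + ((n0 : ℤ) - m) := by
      rw [← he', tld_kl_sh]
    have hcd : kl (uu a) e' + ((n0 : ℤ) - m) ≤ cd a n0 e ∨ (m : ℤ) - kl (uu a) e' ≤ cd a n0 e := by
      unfold cd
      rcases le_total (kl (uu a) e) (n0 - kl (uu a) e) with h | h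
      · left
        rw [min_eq_left h]
        omega
      · right
        rw [min_eq_right h]
        omega
    constructor
    · intro z hz
      rw [← he', ends_shE] at hz
      have h3 := hb _ hz
      rw [tld_shift] at h3
      apply tld_four
      · rcases hcd with h | h <;> omega
      · rcases hcd with h | h <;> omega
    · right
      rcases hcd with h | h <;> omega
  rcases he with ((((((he | he) | he) | he) | he) | he) | he)
  · have h3 := Str_kl he
    have h4 : (((k1 + ((n0 : ℤ) - m)).toNat : ℕ) : ℤ) = k1 + ((n0 : ℤ) - m) := Int.toNat_of_nonneg (by omega)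
    have hcd : 0 ≤ cd a n0 e := by
      unfold cd
      exact le_min h3.1 (by omega)
    constructor
    · intro z hz
      rw [Str_lvl he hz, abs_zero]
      omega
    · left
      exact tld_str_mono (by omega) he
  · exact hvert k1 0 (g1 - 0) he (by omega) (by omega) (by omega) (by omega) (by omega) (by omega)
  · obtain ⟨e', he1, he2⟩ := mem_sh.1 he
    unfold pc at he1
    rw [Finset.mem_filter] at he1
    obtain ⟨he3, he4, he5⟩ := he1
    refine hpiece 0 e' he2 he4 (by omega) ?_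
    intro z' hz'
    have r := tld_hun (by norm_num) (R1 e' he3 he4 z' hz')
    have s := tld_hun (by norm_num) (L1 e' he3 he5 z' hz')
    omega
  · exact hvert ks g2 (g3 + (-l') - g2) he (by omega) (by omega) (by omega) (by omega) (by omega) (by omega)
  · obtain ⟨e', he1, he2⟩ := mem_sh.1 he
    unfold pc at he1
    rw [Finset.mem_filter] at he1
    obtain ⟨he3, he4, he5⟩ := he1
    refine hpiece (-l') e' he2 (by omega) he5 ?_
    intro z' hz'
    have r := tld_hun (by norm_num) (R2 e' he3 he4 z' hz')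
    have s := tld_hun (by norm_num) (L2 e' he3 he5 z' hz')
    omega
  · exact hvert k2 (g4 + (-l')) (0 - (g4 + (-l'))) he (by omega) (by omega) (by omega) (by omega) (by omega) (by omega)
  · have h3 := Str_kl he
    have h4 : ((((m : ℤ) - k2).toNat : ℕ) : ℤ) = m - k2 := Int.toNat_of_nonneg (by omega)
    rw [vt_uu, kl_base] at h3
    have hcd : 0 ≤ cd a n0 e := by
      unfold cd
      exact le_min (by omega) (by omega)
    constructor
    · intro z hz
      have h5 := Str_lvl he hz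
      rw [lvl_base rfl, sub_zero] at h5
      rw [h5, abs_zero]
      omega
    · left
      obtain ⟨b, x, y⟩ := e
      cases b
      · rw [Str_mem_f] at he ⊢
        unfold vt at he
        simp only at he
        omega
      · rw [Str_mem_t] at he ⊢
        unfold vt at he
        simp only at he
        omega

theorem mix_lvl {a : ℤ × ℤ} {m n0 : ℕ} {l l' : ℤ} {G G' : Finset Edge} (hG : IsP a (vt a m l) G) (hG' : IsP a (vt a m l') G')
    {f : ℤ → ℕ} (hf : ∀ i, ex (uu a) G i ≤ f i) (hf' : ∀ i, ex (uu a) G' i ≤ f i) {k1 ks k2 : ℤ} (h1 : Reg f k1) (hs : Reg f ks) (h2 : Reg f k2)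
    {t : ℕ} (ht : 1 ≤ t) (h0 : 13000 * (t : ℤ) ≤ k1) (h1s : k1 < ks) (hs2 : ks < k2) (h2m : k2 ≤ (m : ℤ) - 13000 * t) (hmn : m ≤ n0 + 2)
    (hΔ : |lp a (vt a m l') G' ks - l' - lp a (vt a m l) G ks| ≤ 270 * (t : ℤ)) :
    ∀ e ∈ mix a m n0 G G' k1 ks k2 (lp a (vt a m l) G k1) (lp a (vt a m l) G ks) (lp a (vt a m l') G' ks) (lp a (vt a m l') G' k2) (-l'),
      ∀ z ∈ ends e, 4 * |lvl a z| ≤ cd a n0 e + 8 :=
  fun e he => (mix_all hG hG' hf hf' h1 hs h2 ht h0 h1s hs2 h2m hmn hΔ e he).1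

theorem mix_sub {n : ℕ} {a b : ℤ × ℤ} {m n0 : ℕ} {D : Finset Edge} (hD : Dom n a b n0 D) {l l' : ℤ} {G G' : Finset Edge} (hG : IsP a (vt a m l) G)
    (hG' : IsP a (vt a m l') G')
    {f : ℤ → ℕ} (hf : ∀ i, ex (uu a) G i ≤ f i) (hf' : ∀ i, ex (uu a) G' i ≤ f i) {k1 ks k2 : ℤ} (h1 : Reg f k1) (hs : Reg f ks) (h2 : Reg f k2)
    {t : ℕ} (ht : 1 ≤ t) (h0 : 13000 * (t : ℤ) ≤ k1) (h1s : k1 < ks) (hs2 : ks < k2) (h2m : k2 ≤ (m : ℤ) - 13000 * t) (hmn : m ≤ n0 + 2)
    (hΔ : |lp a (vt a m l') G' ks - l' - lp a (vt a m l) G ks| ≤ 270 * (t : ℤ)) :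
    mix a m n0 G G' k1 ks k2 (lp a (vt a m l) G k1) (lp a (vt a m l) G ks) (lp a (vt a m l') G' ks) (lp a (vt a m l') G' k2) (-l') ⊆ D := by
  intro e he
  have h3 := mix_all hG hG' hf hf' h1 hs h2 ht h0 h1s hs2 h2m hmn hΔ e he
  rcases h3.2 with h4 | h4
  · exact hD.str h4
  · exact tld_mem hD.cone h3.1 h4

end

end Pool.Agent.H40.WM
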