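import Mathlib
import Pool.Agent.H40.WM.TDefs
import Pool.Agent.H40.WM.IPrt
import Pool.Agent.H40.WM.IShf

/-!
# TPt: parts between arbitrary half clean lines

`pt a b m G x` is `a` for `x ≤ 0` (`lp = 0`, `vt a 0 0 = a`), `b` for `x ≥ m`, `x > 0` (`lp = lvl a b`, `vt_unique`), and `vt a x (lp x)` otherwise.  For `x ≤ 0` half clean: `lf = ∅` and `rt = G` (`cut_left`); for `x ≥ m` half clean: `rt = ∅`,
`lf = G` (`cut_right`); otherwise `cut`, `part`.  Note the case `m = 0`: if `x ≤ 0 < y` then `pc = G`, `pt x = a`, `pt y = b`; if the line `0` is half clean then `G = ∅` and `a = b`.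
`pc_card`: `part_card`, `(Ico x y ∩ Ico 0 m).card = max 0 (min y m) - max 0 (min x m)` for `x ≤ y`.
-/

set_option autoImplicit false

namespace Pool.Agent.H40.WM

open Pool.Agent.H40.SQ

noncomputable section

private theorem tpt_bd (u : ℤ) (G : Finset Edge) : ∃ N : ℤ, 0 ≤ N ∧ ∀ e ∈ G, |kl u e| ≤ N := by
  refine ⟨∑ e ∈ G, |kl u e|, Finset.sum_nonneg fun e _ => abs_nonneg _, fun e he => ?_⟩
  exact Finset.single_le_sum (f := fun e => |kl u e|) (fun e _ => abs_nonneg _) he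

private theorem tpt_nonpos (a b : ℤ × ℤ) (m : ℕ) (G : Finset Edge) {x : ℤ} (hx : x ≤ 0) : pt a b m G x = a := by
  unfold pt lp
  rw [if_pos hx, max_eq_left (le_trans (min_le_left _ _) hx)]
  unfold vt
  ext
  · simp
  · simp

private theorem tpt_ge {a b : ℤ × ℤ} (m : ℕ) (hm : uu b = uu a + 2 * m) (G : Finset Edge) {x : ℤ} (hx0 : 0 < x)
    (hx : (m : ℤ) ≤ x) : pt a b m G x = b := by
  unfold pt lp
  rw [if_neg (not_le.2 hx0), if_pos (by omega), min_eq_right hx, max_eq_right (by omega)]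
  exact (vt_unique hm).symm

private theorem tpt_mid (a b : ℤ × ℤ) (m : ℕ) (G : Finset Edge) {x : ℤ} (hx0 : 0 ≤ x) (hx : x ≤ m) :
    pt a b m G x = vt a x (lp a b G x) := by
  unfold pt
  rw [min_eq_left hx, max_eq_right hx0]

private theorem tpt_rt_of_lf {u : ℤ} {G : Finset Edge} {x : ℤ} (h : lf u G x = ∅) : rt u G x = G := by
  unfold lf at h
  unfold rt
  rw [Finset.filter_eq_self]
  intro e he
  by_contra hc
  have h1 : e ∈ G.filter (fun e => kl u e < x) := Finset.mem_filter.2 ⟨he, not_le.1 hc⟩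
  rw [h] at h1
  exact Finset.notMem_empty e h1

private theorem tpt_lf_of_rt {u : ℤ} {G : Finset Edge} {x : ℤ} (h : rt u G x = ∅) : lf u G x = G := by
  unfold rt at h
  unfold lf
  rw [Finset.filter_eq_self]
  intro e he
  by_contra hc
  have h1 : e ∈ G.filter (fun e => x ≤ kl u e) := Finset.mem_filter.2 ⟨he, not_lt.1 hc⟩
  rw [h] at h1
  exact Finset.notMem_empty e h1

private theorem tpt_pc_of_lf {u : ℤ} {G : Finset Edge} {x y : ℤ} (h : lf u G x = ∅) : pc u G x y = lf u G y := by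
  have h2 := tpt_rt_of_lf h
  unfold rt at h2
  rw [Finset.filter_eq_self] at h2
  unfold pc lf
  apply Finset.filter_congr
  intro e he
  exact ⟨fun h => h.2, fun h => ⟨h2 e he, h⟩⟩

private theorem tpt_pc_of_rt {u : ℤ} {G : Finset Edge} {x y : ℤ} (h : rt u G y = ∅) : pc u G x y = rt u G x := by
  have h2 := tpt_lf_of_rt h
  unfold lf at h2
  rw [Finset.filter_eq_self] at h2
  unfold pc rt
  apply Finset.filter_congr
  intro e he
  exact ⟨fun h => h.1, fun h => ⟨h, h2 e he⟩⟩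

private theorem tpt_pc_sub_lf {u : ℤ} {G : Finset Edge} {x y : ℤ} (h : lf u G y = ∅) : pc u G x y = ∅ := by
  rw [← Finset.subset_empty, ← h]
  unfold pc lf
  intro e he
  rw [Finset.mem_filter] at he ⊢
  exact ⟨he.1, he.2.2⟩

private theorem tpt_pc_sub_rt {u : ℤ} {G : Finset Edge} {x y : ℤ} (h : rt u G x = ∅) : pc u G x y = ∅ := by
  rw [← Finset.subset_empty, ← h]
  unfold pc rt
  intro e he
  rw [Finset.mem_filter] at he ⊢
  exact ⟨he.1, he.2.1⟩

theorem pt_lf {a b : ℤ × ℤ} {G : Finset Edge} (h : IsP a b G) (m : ℕ) (hm : uu b = uu a + 2 * m) {x : ℤ} (hx : HC (uu a) G x) :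
    IsP a (pt a b m G x) (lf (uu a) G x) := by
  rcases le_or_gt x 0 with h0 | h0
  · rw [tpt_nonpos a b m G h0, cut_left h m hm x hx h0]
    exact IsP_empty a
  rcases le_or_gt (m : ℤ) x with h1 | h1
  · rw [tpt_ge m hm G h0 h1, tpt_lf_of_rt (cut_right h m hm x hx h1)]
    exact h
  · rw [tpt_mid a b m G h0.le h1.le]
    exact (cut h m hm x hx h0.le h1.le).1

theorem pt_rt {a b : ℤ × ℤ} {G : Finset Edge} (h : IsP a b G) (m : ℕ) (hm : uu b = uu a + 2 * m) {x : ℤ} (hx : HC (uu a) G x) :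
    IsP (pt a b m G x) b (rt (uu a) G x) := by
  rcases le_or_gt x 0 with h0 | h0
  · rw [tpt_nonpos a b m G h0, tpt_rt_of_lf (cut_left h m hm x hx h0)]
    exact h
  rcases le_or_gt (m : ℤ) x with h1 | h1
  · rw [tpt_ge m hm G h0 h1, cut_right h m hm x hx h1]
    exact IsP_empty b
  · rw [tpt_mid a b m G h0.le h1.le]
    exact (cut h m hm x hx h0.le h1.le).2

theorem pt_pc {a b : ℤ × ℤ} {G : Finset Edge} (h : IsP a b G) (m : ℕ) (hm : uu b = uu a + 2 * m) {x y : ℤ} (hx : HC (uu a) G x)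
    (hy : HC (uu a) G y) (hxy : x ≤ y) : IsP (pt a b m G x) (pt a b m G y) (pc (uu a) G x y) := by
  rcases le_or_gt y 0 with hy0 | hy0
  · rw [tpt_nonpos a b m G hy0, tpt_nonpos a b m G (hxy.trans hy0), tpt_pc_sub_lf (cut_left h m hm y hy hy0)]
    exact IsP_empty a
  rcases le_or_gt x 0 with hx0 | hx0
  · rw [tpt_nonpos a b m G hx0, tpt_pc_of_lf (cut_left h m hm x hx hx0)]
    exact pt_lf h m hm hy
  rcases le_or_gt (m : ℤ) x with hx1 | hx1
  · rw [tpt_ge m hm G hx0 hx1, tpt_ge m hm G hy0 (hx1.trans hxy), tpt_pc_sub_rt (cut_right h m hm x hx hx1)]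
    exact IsP_empty b
  rcases le_or_gt (m : ℤ) y with hy1 | hy1
  · rw [tpt_ge m hm G hy0 hy1, tpt_pc_of_rt (cut_right h m hm y hy hy1)]
    exact pt_rt h m hm hx
  · rw [tpt_mid a b m G hx0.le hx1.le, tpt_mid a b m G hy0.le hy1.le]
    exact part h m hm hx hy hx0.le hxy hy1.le

theorem pc_card {a b : ℤ × ℤ} {G : Finset Edge} (h : IsP a b G) (m : ℕ) (hm : uu b = uu a + 2 * m) {x y : ℤ} (hxy : x ≤ y) :
    ((pc (uu a) G x y).card : ℤ) = 2 * (max 0 (min y m) - max 0 (min x m)) + Sf (ex (uu a) G) x y := by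
  rw [part_card h m hm x y]
  push_cast
  congr 1
  rw [Finset.Ico_inter_Ico, Int.card_Ico]
  congr 1
  omega

/-- The number of edges left of `x` (half clean) is twice the clipped `x` plus the excess left of `x`; stated with a far away line `-N`. -/
theorem lf_card {a b : ℤ × ℤ} {G : Finset Edge} (h : IsP a b G) (m : ℕ) (hm : uu b = uu a + 2 * m) (x : ℤ) :
    ∃ N : ℤ, -N ≤ x ∧ N ≥ 0 ∧ ∀ N' : ℤ, N ≤ N' → ((lf (uu a) G x).card : ℤ) = 2 * max 0 (min x m) + Sf (ex (uu a) G) (-N') x := by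
  obtain ⟨N0, hN0, hN1⟩ := tpt_bd (uu a) G
  refine ⟨max N0 (-x), ?_, ?_, ?_⟩
  · have := le_max_right N0 (-x)
    omega
  · exact le_trans hN0 (le_max_left _ _)
  intro N' hN'
  have h1 := le_max_left N0 (-x)
  have h2 := le_max_right N0 (-x)
  have e1 : lf (uu a) G x = pc (uu a) G (-N') x := by
    unfold lf pc
    apply Finset.filter_congr
    intro e he
    have h3 := abs_le.1 (hN1 e he)
    constructor
    · intro h4
      exact ⟨by omega, h4⟩
    · intro h4
      exact h4.2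
  rw [e1, pc_card h m hm (by omega)]
  have e2 : max 0 (min (-N') (m : ℤ)) = 0 := by omega
  rw [e2, sub_zero]

theorem rt_card {a b : ℤ × ℤ} {G : Finset Edge} (h : IsP a b G) (m : ℕ) (hm : uu b = uu a + 2 * m) (x : ℤ) :
    ∃ N : ℤ, x ≤ N ∧ N ≥ 0 ∧ ∀ N' : ℤ, N ≤ N' → ((rt (uu a) G x).card : ℤ) = 2 * (m - max 0 (min x m)) + Sf (ex (uu a) G) x N' := by
  obtain ⟨N0, hN0, hN1⟩ := tpt_bd (uu a) G
  refine ⟨max (N0 + 1) (max x m), ?_, ?_, ?_⟩
  · exact le_trans (le_max_left _ _) (le_max_right _ _)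
  · exact le_trans (by omega) (le_max_left (N0 + 1) _)
  intro N' hN'
  have h1 := le_max_left (N0 + 1) (max x m)
  have h2 := le_max_right (N0 + 1) (max x m)
  have h2a := le_max_left x (m : ℤ)
  have h2b := le_max_right x (m : ℤ)
  have e1 : rt (uu a) G x = pc (uu a) G x N' := by
    unfold rt pc
    apply Finset.filter_congr
    intro e he
    have h3 := abs_le.1 (hN1 e he)
    constructor
    · intro h4
      exact ⟨h4, by omega⟩
    · intro h4
      exact h4.1
  rw [e1, pc_card h m hm (by omega)]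
  have e2 : max 0 (min N' (m : ℤ)) = m := by omega
  rw [e2]

end

end Pool.Agent.H40.WM
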