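import Mathlib
import Pool.Agent.H40.WM.IDfc
import Pool.Agent.H40.SQ.LSum

/-!
# IAni: sums over paths starting at a given vertex

Every nonempty `G` in the family is connected and contains one of the four edges at `a` (`IsP_touch`, `ends_iff`).  Split the nonempty ones according to such an edge; for each of the four roots
`∑ x^|G| ≤ (18x)^d` by `animal_tail` (`EE` = union of the family) if `|G| ≥ d`.  The empty path (only if `a = b`) contributes `1`.
`path_sum`: with `x = 1/36` and `d = 1`: `4 * (1/2) + 1 = 3`.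
-/

set_option autoImplicit false

namespace Pool.Agent.H40.WM

open Pool.Agent.H40.SQ

noncomputable section

theorem path_tail (a : ℤ × ℤ) (Q : Finset (Finset Edge)) (hQ : ∀ G ∈ Q, G.Nonempty ∧ ∃ b, IsP a b G) (x : ℝ) (hx0 : 0 ≤ x)
    (hx1 : 18 * x ≤ 1) (d : ℕ) (hd : ∀ G ∈ Q, d ≤ G.card) : ∑ G ∈ Q, x ^ G.card ≤ 4 * (18 * x) ^ d := by
  classical
  have h1 : ∀ e : Edge, ∑ G ∈ Q.filter (fun G => e ∈ G), x ^ G.card ≤ (18 * x) ^ d := by
    intro e
    apply animal_tail (Q.biUnion id) e _ _ x hx0 hx1 d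
    · intro G hG
      exact hd G (Finset.mem_filter.1 hG).1
    · intro G hG
      obtain ⟨h2, h3⟩ := Finset.mem_filter.1 hG
      obtain ⟨h4, b, h5⟩ := hQ G h2
      exact ⟨Finset.subset_biUnion_of_mem id h2, h3, h5.conn⟩
  have h2 : Q ⊆ (Q.filter (fun G => Hr a ∈ G) ∪ Q.filter (fun G => Hl a ∈ G)) ∪
      (Q.filter (fun G => Vu a ∈ G) ∪ Q.filter (fun G => Vd a ∈ G)) := by
    intro G hG
    obtain ⟨h4, b, h5⟩ := hQ G hG
    obtain ⟨⟨e, he, hea⟩, _⟩ := IsP_touch h5 h4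
    simp only [Finset.mem_union, Finset.mem_filter]
    rcases ends_iff.1 hea with rfl | rfl | rfl | rfl
    · exact Or.inl (Or.inl ⟨hG, he⟩)
    · exact Or.inl (Or.inr ⟨hG, he⟩)
    · exact Or.inr (Or.inl ⟨hG, he⟩)
    · exact Or.inr (Or.inr ⟨hG, he⟩)
  have hpos : ∀ G : Finset Edge, 0 ≤ x ^ G.card := fun G => pow_nonneg hx0 _
  have hun : ∀ A B : Finset (Finset Edge), ∑ G ∈ A ∪ B, x ^ G.card ≤ ∑ G ∈ A, x ^ G.card + ∑ G ∈ B, x ^ G.card := by
    intro A B
    rw [← Finset.sum_union_inter]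
    have := Finset.sum_nonneg (s := A ∩ B) (f := fun G => x ^ G.card) (fun G _ => hpos G)
    linarith
  have h3 := Finset.sum_le_sum_of_subset_of_nonneg (f := fun G : Finset Edge => x ^ G.card) h2 (fun G _ _ => hpos G)
  have h4 := hun (Q.filter (fun G => Hr a ∈ G) ∪ Q.filter (fun G => Hl a ∈ G)) (Q.filter (fun G => Vu a ∈ G) ∪ Q.filter (fun G => Vd a ∈ G))
  have h5 := hun (Q.filter (fun G => Hr a ∈ G)) (Q.filter (fun G => Hl a ∈ G))
  have h6 := hun (Q.filter (fun G => Vu a ∈ G)) (Q.filter (fun G => Vd a ∈ G))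
  have e1 := h1 (Hr a)
  have e2 := h1 (Hl a)
  have e3 := h1 (Vu a)
  have e4 := h1 (Vd a)
  linarith

theorem path_sum (a : ℤ × ℤ) (Q : Finset (Finset Edge)) (hQ : ∀ G ∈ Q, ∃ b, IsP a b G) :
    ∑ G ∈ Q, ((1 : ℝ) / 36) ^ G.card ≤ 3 := by
  classical
  rw [← Finset.sum_filter_add_sum_filter_not Q (fun G => G.Nonempty)]
  have h1 := path_tail a (Q.filter (fun G => G.Nonempty)) (by
    intro G hG
    obtain ⟨h2, h3⟩ := Finset.mem_filter.1 hG
    exact ⟨h3, hQ G h2⟩) (1 / 36) (by norm_num) (by norm_num) 1 (by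
    intro G hG
    exact Finset.card_pos.2 (Finset.mem_filter.1 hG).2)
  have h2 : ∑ G ∈ Q.filter (fun G => ¬ G.Nonempty), ((1 : ℝ) / 36) ^ G.card ≤ 1 := by
    have h3 : Q.filter (fun G => ¬ G.Nonempty) ⊆ {∅} := by
      intro G hG
      rw [Finset.mem_singleton]
      exact Finset.not_nonempty_iff_eq_empty.1 (Finset.mem_filter.1 hG).2
    have h4 := Finset.sum_le_sum_of_subset_of_nonneg (f := fun G : Finset Edge => ((1 : ℝ) / 36) ^ G.card) h3
      (fun G _ _ => by positivity)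
    rw [Finset.sum_singleton, Finset.card_empty, pow_zero] at h4
    exact h4
  have h3 : (4 : ℝ) * (18 * (1 / 36)) ^ 1 = 2 := by norm_num
  rw [h3] at h1
  linarith

end

end Pool.Agent.H40.WM
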