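import Mathlib
import Pool.Agent.H40.WM.TDefs
import Pool.Agent.H40.WM.IAni
import Pool.Agent.H40.WM.IVer
import Pool.Agent.H40.WM.ICnt
import Pool.Agent.H40.WM.IShf
import Pool.Agent.H40.WM.QSym
import Pool.Agent.H40.WM.QPsi

/-!
# TW: elementary properties of the weights and of `Wst`

* `om ≤ q^|G|` (`psi_nonneg`), translation invariance (`psi_sh`, `sh_card`), transposition (`psi_tr`, `tr_card`).
* families from a general base point `a`: translate by `-a` (`IsP_sh`; `vt (0,0) m l` is the translate of `vt a m l`), so `∑ om` is an element of the set defining `Wst`.  The set is bounded above: `∑_Q om ≤ ∑_Q q^|G| ≤ 4 (18q)^(2m) + 1`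
  (`path_tail` with `x = q`, `d = 2m` for `m ≥ 1` since `|G| ≥ 2m` by `card_eq`, nonempty; for `m = 0` `d = 0`... use `d = 1` and the empty path).  So `Wst q m ≤ 5 (18 q)^(2m)`: for `m ≥ 1` there is no empty path; for `m = 0`: `4 * 18 q + 1 ≤ 5`.
* `Wst_lb`: the straight path: `psi ≤ card/10 = 2m/10`.
* `exists_fam`: definition of the supremum (`exists_lt_of_lt_csSup`), `Wst > 0`.
* `sym_fam`: for `Q` with end level `l` take the image under `G ↦ sh (-b.2, -b.1) (tr G)`, `b = vt (0,0) m l = (m + l, -m + l)`: `IsP_tr`: `tr G` goes from `(b.2, b.1)` to `(0,0)`; after the translation from `(0,0)` to `(-b.2, -b.1) = (m - l, -m - l) = vt (0,0) m (-l)`.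
  The map is injective and preserves `om`.
-/

set_option autoImplicit false

namespace Pool.Agent.H40.WM

open Pool.Agent.H40.SQ

noncomputable section

theorem om_pos (q : ℝ) (hq0 : 0 < q) (G : Finset Edge) : 0 < om q G :=
  mul_pos (pow_pos hq0 _) (Real.exp_pos _)

theorem om_le (q : ℝ) (hq0 : 0 < q) (hq1 : q ≤ 1 / 10 ^ 6) (G : Finset Edge) : om q G ≤ q ^ G.card := by
  unfold om
  have h1 : Real.exp (- psi q G) ≤ 1 := by
    rw [Real.exp_le_one_iff]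
    linarith [psi_nonneg q hq0 hq1 G]
  calc q ^ G.card * Real.exp (- psi q G) ≤ q ^ G.card * 1 := mul_le_mul_of_nonneg_left h1 (pow_nonneg hq0.le _)
    _ = q ^ G.card := mul_one _

theorem om_sh (q : ℝ) (hq0 : 0 < q) (hq1 : q ≤ 1 / 10 ^ 6) (v : ℤ × ℤ) (G : Finset Edge) : om q (sh v G) = om q G := by
  unfold om
  rw [sh_card, psi_sh q hq0 hq1]

theorem om_tr (q : ℝ) (hq0 : 0 < q) (hq1 : q ≤ 1 / 10 ^ 6) (G : Finset Edge) : om q (tr G) = om q G := by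
  unfold om
  rw [tr_card, psi_tr q hq0 hq1]

theorem omD_pos (q : ℝ) (hq0 : 0 < q) (D G : Finset Edge) : 0 < omD q D G :=
  mul_pos (pow_pos hq0 _) (Real.exp_pos _)

theorem omD_le (q : ℝ) (hq0 : 0 < q) (D G : Finset Edge) : omD q D G ≤ q ^ G.card := by
  unfold omD
  have h0 : 0 ≤ psiD q D G := by
    have h1 := psiD_mono q hq0 D (Finset.empty_subset G)
    rw [psiD_empty] at h1
    exact h1
  have h1 : Real.exp (- psiD q D G) ≤ 1 := by
    rw [Real.exp_le_one_iff]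
    linarith
  calc q ^ G.card * Real.exp (- psiD q D G) ≤ q ^ G.card * 1 := mul_le_mul_of_nonneg_left h1 (pow_nonneg hq0.le _)
    _ = q ^ G.card := mul_one _

private theorem tw_uu (a : ℤ × ℤ) (k l : ℤ) : uu (vt a k l) = uu a + 2 * k := by
  simp only [uu, vt]
  ring

private theorem tw_bound (q : ℝ) (hq0 : 0 < q) (hq1 : q ≤ 1 / 10 ^ 6) (m : ℕ) (l : ℤ) (Q : Finset (Finset Edge))
    (hQ : ∀ G ∈ Q, IsP (0, 0) (vt (0, 0) m l) G) : ∑ G ∈ Q, om q G ≤ 5 * (18 * q) ^ (2 * m) := by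
  classical
  have hx : 18 * q ≤ 1 := by linarith
  have hqe : q = 1 / 10 ^ 6 ∨ q < 1 / 10 ^ 6 := hq1.eq_or_lt
  rw [← Finset.sum_filter_add_sum_filter_not Q (fun G => G.Nonempty)]
  have hle : ∀ T : Finset (Finset Edge), ∑ G ∈ T, om q G ≤ ∑ G ∈ T, q ^ G.card :=
    fun T => Finset.sum_le_sum fun G _ => om_le q hq0 hq1 G
  rcases Nat.eq_zero_or_pos m with hm | hm
  · subst hm
    have h1 := path_tail (0, 0) (Q.filter (fun G => G.Nonempty)) (fun G hG =>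
      ⟨(Finset.mem_filter.1 hG).2, _, hQ G (Finset.mem_filter.1 hG).1⟩) q hq0.le hx 1
      (fun G hG => (Finset.mem_filter.1 hG).2.card_pos)
    have h2 : ∑ G ∈ Q.filter (fun G => ¬ G.Nonempty), q ^ G.card ≤ ∑ G ∈ ({∅} : Finset (Finset Edge)), q ^ G.card := by
      refine Finset.sum_le_sum_of_subset_of_nonneg ?_ (fun G _ _ => pow_nonneg hq0.le _)
      intro G hG
      exact Finset.mem_singleton.2 (Finset.not_nonempty_iff_eq_empty.1 (Finset.mem_filter.1 hG).2)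
    rw [Finset.sum_singleton, Finset.card_empty, pow_zero] at h2
    have h3 := hle (Q.filter (fun G => G.Nonempty))
    have h4 := hle (Q.filter (fun G => ¬ G.Nonempty))
    rw [Nat.mul_zero, pow_zero, mul_one]
    rw [pow_one] at h1
    linarith
  · have hemp : Q.filter (fun G => ¬ G.Nonempty) = ∅ := by
      rw [Finset.filter_eq_empty_iff]
      intro G hG hne
      have h1 := (IsP_empty_iff (hQ G hG)).1 (Finset.not_nonempty_iff_eq_empty.1 hne)
      have h2 := tw_uu (0, 0) m l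
      rw [← h1] at h2
      omega
    have h1 := path_tail (0, 0) (Q.filter (fun G => G.Nonempty)) (fun G hG =>
      ⟨(Finset.mem_filter.1 hG).2, _, hQ G (Finset.mem_filter.1 hG).1⟩) q hq0.le hx (2 * m)
      (fun G hG => by
        obtain ⟨N, _, _, _, h5⟩ := card_eq (hQ G (Finset.mem_filter.1 hG).1) m (tw_uu (0, 0) m l)
        omega)
    have h3 := hle (Q.filter (fun G => G.Nonempty))
    rw [hemp, Finset.sum_empty, add_zero]
    have h4 : 0 ≤ (18 * q) ^ (2 * m) := by positivity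
    linarith

/-- Moving a family to another base point. -/
private theorem tw_move (q : ℝ) (hq0 : 0 < q) (hq1 : q ≤ 1 / 10 ^ 6) (a a' : ℤ × ℤ) (m l : ℤ) (Q : Finset (Finset Edge))
    (hQ : ∀ G ∈ Q, IsP a (vt a m l) G) :
    ∃ Q' : Finset (Finset Edge), (∀ G ∈ Q', IsP a' (vt a' m l) G) ∧ ∑ G ∈ Q', om q G = ∑ G ∈ Q, om q G := by
  classical
  obtain ⟨v, hv⟩ : ∃ v : ℤ × ℤ, v = (a'.1 - a.1, a'.2 - a.2) := ⟨_, rfl⟩
  refine ⟨Q.image (sh v), ?_, ?_⟩
  · intro G hG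
    obtain ⟨G0, hG0, rfl⟩ := Finset.mem_image.1 hG
    have h1 := IsP_sh (hQ G0 hG0) v
    have e1 : (a.1 + v.1, a.2 + v.2) = a' := by
      rw [hv]
      exact Prod.ext (by simp) (by simp)
    have e2 : ((vt a m l).1 + v.1, (vt a m l).2 + v.2) = vt a' m l := by
      rw [hv]
      unfold vt
      exact Prod.ext (by simp only; ring) (by simp only; ring)
    rw [e1, e2] at h1
    exact h1
  · rw [Finset.sum_image]
    · exact Finset.sum_congr rfl fun G _ => om_sh q hq0 hq1 v G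
    · intro x _ y _ hxy
      exact Finset.image_injective (shE_inj v) hxy

private theorem tw_bdd (q : ℝ) (hq0 : 0 < q) (hq1 : q ≤ 1 / 10 ^ 6) (m : ℕ) :
    BddAbove {x : ℝ | ∃ (l : ℤ) (Q : Finset (Finset Edge)), (∀ G ∈ Q, IsP (0, 0) (vt (0, 0) m l) G) ∧ x = ∑ G ∈ Q, om q G} := by
  refine ⟨5 * (18 * q) ^ (2 * m), ?_⟩
  rintro x ⟨l, Q, hQ, rfl⟩
  exact tw_bound q hq0 hq1 m l Q hQ

theorem Wst_ub (q : ℝ) (hq0 : 0 < q) (hq1 : q ≤ 1 / 10 ^ 6) (m : ℕ) : Wst q m ≤ 5 * (18 * q) ^ (2 * m) := by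
  unfold Wst
  apply csSup_le
  · exact ⟨0, 0, ∅, by simp, by simp⟩
  · rintro x ⟨l, Q, hQ, rfl⟩
    exact tw_bound q hq0 hq1 m l Q hQ

theorem fam_le (q : ℝ) (hq0 : 0 < q) (hq1 : q ≤ 1 / 10 ^ 6) (a : ℤ × ℤ) (m : ℕ) (l : ℤ) (Q : Finset (Finset Edge))
    (hQ : ∀ G ∈ Q, IsP a (vt a m l) G) : ∑ G ∈ Q, om q G ≤ Wst q m := by
  obtain ⟨Q', h1, h2⟩ := tw_move q hq0 hq1 a (0, 0) m l Q hQ
  rw [← h2]
  exact le_csSup (tw_bdd q hq0 hq1 m) ⟨l, Q', h1, rfl⟩

theorem Wst_lb (q : ℝ) (hq0 : 0 < q) (hq1 : q ≤ 1 / 10 ^ 6) (m : ℕ) : q ^ (2 * m) * Real.exp (-((m : ℝ) / 5)) ≤ Wst q m := by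
  have h1 := fam_le q hq0 hq1 (0, 0) m 0 {Str (0, 0) m} (by
    intro G hG
    rw [Finset.mem_singleton.1 hG]
    have h2 := Str_isP (0, 0) m
    have e1 : (((0, 0) : ℤ × ℤ).1 + m, ((0, 0) : ℤ × ℤ).2 - m) = vt (0, 0) m 0 := by
      unfold vt
      exact Prod.ext (by simp) (by simp)
    rw [e1] at h2
    exact h2)
  rw [Finset.sum_singleton] at h1
  refine le_trans ?_ h1
  unfold om
  rw [Str_card]
  apply mul_le_mul_of_nonneg_left _ (pow_nonneg hq0.le _)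
  apply Real.exp_le_exp.2
  have h3 := psi_le_card q hq0 hq1 (Str (0, 0) m)
  rw [Str_card] at h3
  push_cast at h3
  linarith

theorem exists_fam (q : ℝ) (hq0 : 0 < q) (hq1 : q ≤ 1 / 10 ^ 6) (a : ℤ × ℤ) (m : ℕ) :
    ∃ (l : ℤ) (Q : Finset (Finset Edge)), (∀ G ∈ Q, IsP a (vt a m l) G) ∧ 3 * Wst q m ≤ 4 * ∑ G ∈ Q, om q G := by
  have h0 : 0 < Wst q m := lt_of_lt_of_le (by positivity) (Wst_lb q hq0 hq1 m)
  have h1 : 3 / 4 * Wst q m < Wst q m := by linarith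
  have h2 : ∃ x ∈ {x : ℝ | ∃ (l : ℤ) (Q : Finset (Finset Edge)), (∀ G ∈ Q, IsP (0, 0) (vt (0, 0) m l) G) ∧ x = ∑ G ∈ Q, om q G},
      3 / 4 * Wst q m < x := exists_lt_of_lt_csSup ⟨0, 0, ∅, by simp, by simp⟩ h1
  obtain ⟨x, ⟨l, Q, hQ, rfl⟩, hx⟩ := h2
  obtain ⟨Q', h3, h4⟩ := tw_move q hq0 hq1 (0, 0) a m l Q hQ
  refine ⟨l, Q', h3, ?_⟩
  rw [h4]
  linarith

theorem sym_fam (q : ℝ) (hq0 : 0 < q) (hq1 : q ≤ 1 / 10 ^ 6) (a : ℤ × ℤ) (m : ℕ) (l : ℤ) (Q : Finset (Finset Edge))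
    (hQ : ∀ G ∈ Q, IsP a (vt a m l) G) :
    ∃ Q' : Finset (Finset Edge), (∀ G ∈ Q', IsP a (vt a m (-l)) G) ∧ ∑ G ∈ Q', om q G = ∑ G ∈ Q, om q G := by
  classical
  obtain ⟨v, hv⟩ : ∃ v : ℤ × ℤ, v = (a.1 - (vt a m l).2, a.2 - (vt a m l).1) := ⟨_, rfl⟩
  refine ⟨Q.image (fun G => sh v (tr G)), ?_, ?_⟩
  · intro G hG
    obtain ⟨G0, hG0, rfl⟩ := Finset.mem_image.1 hG
    have h1 := IsP_sh (IsP_tr (hQ G0 hG0)) v
    have e1 : (((vt a m l).2, (vt a m l).1).1 + v.1, ((vt a m l).2, (vt a m l).1).2 + v.2) = a := by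
      rw [hv]
      exact Prod.ext (by simp) (by simp)
    have e2 : ((a.2, a.1).1 + v.1, (a.2, a.1).2 + v.2) = vt a m (-l) := by
      rw [hv]
      unfold vt
      exact Prod.ext (by simp only; ring) (by simp only; ring)
    rw [e1, e2] at h1
    exact h1
  · rw [Finset.sum_image]
    · exact Finset.sum_congr rfl fun G _ => by rw [om_sh q hq0 hq1, om_tr q hq0 hq1]
    · intro x _ y _ hxy
      exact Finset.image_injective trE_inj (Finset.image_injective (shE_inj v) hxy)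

/-- Sums over paths with a given end point. -/
theorem path_sum_end (b : ℤ × ℤ) (Q : Finset (Finset Edge)) (hQ : ∀ G ∈ Q, ∃ a, IsP a b G) :
    ∑ G ∈ Q, ((1 : ℝ) / 36) ^ G.card ≤ 3 := by
  classical
  have h1 := path_sum (b.2, b.1) (Q.image tr) (by
    intro G hG
    obtain ⟨G0, hG0, rfl⟩ := Finset.mem_image.1 hG
    obtain ⟨a, ha⟩ := hQ G0 hG0
    exact ⟨_, IsP_tr ha⟩)
  rw [Finset.sum_image] at h1
  · simp only [tr_card] at h1
    exact h1
  · intro x _ y _ hxy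
    exact Finset.image_injective trE_inj hxy

end

end Pool.Agent.H40.WM
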