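import Mathlib
import Pool.Agent.H40.WM.TLd
import Pool.Agent.H40.WM.JPsi
import Pool.Agent.H40.WM.ITai
import Pool.Agent.H40.WM.QSym
import Pool.Agent.H40.WM.TW
import Pool.Agent.H40.WM.TPt

/-!
# TLp: weights of the mixed paths

Let `M1 = mix G G' ... (-l')` (with `G` ending at level `l`, `G'` ending at `l' = -l`) and `M2 = mix G' G ... (-l)` (roles exchanged).  `V_i` = number of edges of `M_i` outside the two pieces (`mix_card`):
`V_1 = 2(k1 + j) + 2(m - k2) + 2|g1| + 2|v2| + 2|v3|`.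
* `psi M1 ≤ psi (pc G k1 ks) + psi (pc G' ks k2) + 3 + V_1/10` (`psi_union_le`, `psi_split` at the line `uu a + 2(ks + j)` for the two translated pieces, tail `≤ 3` by `tail_le` for `rt G' ks` and translation; `psi_sh`).
* `psiD M1 ≤ psi M1 + 1 + V_1/10` (`psiD_cone` with `T0`, `L = 3 T0 + 8 ≤ 11 t`; `mix_lvl`; the edges with `cd < L` are not in the two pieces, whose `cd ≥ 12990 t`; `|M1| ≤ |D| ≤ 2^T0`).
* `psi G ≥ psi (pc G k1 ks) + psi (pc G ks k2) - 3` (`psi_mono`, `psi_split`, tail of `rt G ks`).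
* `|G| + |G'| ≥ 4 k1 + 4 (m - k2) + ` the four pieces (`lf`, `rt` have at least `2 k1`, `2(m-k2)` edges: `pc_card`, `lf_card`).  So
  `|G| + |G'| - |M1| - |M2| ≥ 4k1 + 4(m-k2) - V_1 - V_2 = - 4 j - 2(Σ of the six connector lengths)`, and the connector lengths: `|g1| ≤ (k1+1)/100 ≤ 132 t`, `|v2| ≤ 270 t`, `|v3| ≤ 132 t`: the sum is `≤ 1100 t`; `V_1 + V_2 ≤ 4 (13128 t + j)^+ ... ≤ 110000 t + 4 |j|`.
  Here `j = n0 - m` can be large, but the straight part of length `k1 + j` costs `psi ≤ 2 (k1+j)/10`: so the factor `exp ((V_1+V_2)/5)` contains `exp (4 j / 5)`, which is compensated by `4^j` (this is why the bound has `q^2/2` instead of `q^2`).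
* Conclusion: `om G om G' (q^2/2)^(2 (n0-m)) ≤ q^(-2200 t) exp(14 + 25000 t) omD M1 omD M2` (natural subtraction `n0 - m`; for `j < 0` use `q^(-4j) ≤ 1`): indeed `om G om G' ≤ q^(-4j - 2200 t) exp(14 + (V_1+V_2)/5) omD M1 omD M2`, and for `j ≥ 0`
  `(q^2/2)^(2j) q^(-4j) exp(4j/5) = 4^(-j) exp(4j/5) ≤ 1`.
-/

set_option autoImplicit false

namespace Pool.Agent.H40.WM

open Pool.Agent.H40.SQ

noncomputable section

private theorem tlp_us_sh (v : ℤ × ℤ) (e : Edge) : us (shE v e) = us e + (v.1 - v.2) := by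
  unfold us shE
  simp only
  ring

private theorem tlp_kl_sh (u : ℤ) (v : ℤ × ℤ) (j : ℤ) (hv : v.1 - v.2 = 2 * j) (e : Edge) :
    kl u (shE v e) = kl u e + j := by
  unfold kl
  rw [tlp_us_sh, hv]
  omega

private theorem tlp_card4 (u : ℤ) (G : Finset Edge) {x y z : ℤ} (hxy : x ≤ y) (hyz : y ≤ z) :
    (lf u G x).card + (pc u G x y).card + (pc u G y z).card + (rt u G z).card = G.card := by
  unfold lf pc rt
  rw [Finset.card_filter, Finset.card_filter, Finset.card_filter, Finset.card_filter,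
    Finset.card_eq_sum_ones G, ← Finset.sum_add_distrib, ← Finset.sum_add_distrib, ← Finset.sum_add_distrib]
  refine Finset.sum_congr rfl fun e _ => ?_
  split_ifs <;> omega

private theorem tlp_psi_ge (q : ℝ) (hq0 : 0 < q) (hq1 : q ≤ 1 / 10 ^ 6) {a b : ℤ × ℤ} {G : Finset Edge} (h : IsP a b G)
    (m : ℕ) (hm : uu b = uu a + 2 * m) {f : ℤ → ℕ} (hf : ∀ i, ex (uu a) G i ≤ f i) {x k y : ℤ} (hk : Reg f k) :
    psi q (pc (uu a) G x k) + psi q (pc (uu a) G k y) ≤ psi q G + 3 := by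
  have h1 := psi_split q hq0 hq1 (pc (uu a) G x k) (pc (uu a) G k y) (uu a + 2 * k)
    (fun e he => by
      unfold pc at he
      have h1 := (Finset.mem_filter.1 he).2.2
      unfold kl at h1
      omega)
    (fun e he => by
      unfold pc at he
      have h1 := (Finset.mem_filter.1 he).2.1
      unfold kl at h1
      omega)
  have h2 : psi q (pc (uu a) G x k ∪ pc (uu a) G k y) ≤ psi q G := by
    apply psi_mono q hq0 hq1
    intro e he
    rw [Finset.mem_union] at he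
    unfold pc at he
    rcases he with he | he
    · exact (Finset.mem_filter.1 he).1
    · exact (Finset.mem_filter.1 he).1
  have h3 : ∑ e ∈ pc (uu a) G k y, ((1 : ℝ) / 2) ^ (us e - (uu a + 2 * k)).toNat ≤ 3 := by
    refine le_trans (Finset.sum_le_sum_of_subset_of_nonneg ?_ fun e _ _ => by positivity) (tail_le h m hm hf hk)
    intro e he
    unfold pc at he
    unfold rt
    rw [Finset.mem_filter] at he ⊢
    exact ⟨he.1, he.2.1⟩
  have h4 := (abs_le.1 h1).1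
  linarith

private theorem mix_one (q : ℝ) (hq0 : 0 < q) (hq1 : q ≤ 1 / 10 ^ 6) {n : ℕ} {a b : ℤ × ℤ} {m n0 : ℕ} {D : Finset Edge}
    (hD : Dom n a b n0 D) {l l' : ℤ}
    {G G' : Finset Edge} (hG : IsP a (vt a m l) G) (hG' : IsP a (vt a m l') G')
    {f : ℤ → ℕ} (hf : ∀ i, ex (uu a) G i ≤ f i) (hf' : ∀ i, ex (uu a) G' i ≤ f i)
    {k1 ks k2 : ℤ} (h1 : Reg f k1) (hs : Reg f ks) (h2 : Reg f k2)
    {t : ℕ} (ht : 1 ≤ t) (hT : 4 * n ^ 2 ≤ 2 ^ t) (h0 : 13000 * (t : ℤ) ≤ k1) (h1s : k1 < ks) (hs2 : ks < k2)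
    (h2m : k2 ≤ (m : ℤ) - 13000 * t) (hmn : m ≤ n0 + 2)
    (hΔ : |lp a (vt a m l') G' ks - l' - lp a (vt a m l) G ks| ≤ 270 * (t : ℤ)) :
    psiD q D (mix a m n0 G G' k1 ks k2 (lp a (vt a m l) G k1) (lp a (vt a m l) G ks) (lp a (vt a m l') G' ks)
        (lp a (vt a m l') G' k2) (-l')) ≤ psi q (pc (uu a) G k1 ks) + psi q (pc (uu a) G' ks k2) + 4 +
      ((2 * (k1 + (n0 - m)) + 2 * |lp a (vt a m l) G k1| +
      2 * |lp a (vt a m l') G' ks - l' - lp a (vt a m l) G ks| +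
      2 * |lp a (vt a m l') G' k2 - l'| + 2 * (m - k2) : ℤ) : ℝ) / 5 := by
  classical
  have ht' : (1 : ℤ) ≤ (t : ℤ) := by exact_mod_cast ht
  have hsub := mix_sub hD hG hG' hf hf' h1 hs h2 ht h0 h1s hs2 h2m hmn hΔ
  have hlvl := mix_lvl hG hG' hf hf' h1 hs h2 ht h0 h1s hs2 h2m hmn hΔ
  set g1 := lp a (vt a m l) G k1 with hg1
  set g2 := lp a (vt a m l) G ks with hg2
  set g3 := lp a (vt a m l') G' ks with hg3
  set g4 := lp a (vt a m l') G' k2 with hg4
  set M := mix a m n0 G G' k1 ks k2 g1 g2 g3 g4 (-l') with hM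
  set j : ℤ := (n0 : ℤ) - m with hj
  have hj2 : -2 ≤ j := by omega
  set P1 := sh (j + 0, -j + 0) (pc (uu a) G k1 ks) with hP1
  set P2 := sh (j + (-l'), -j + (-l')) (pc (uu a) G' ks k2) with hP2
  set R := Str a (k1 + j).toNat ∪ (Vert (vt a (k1 + j) 0) (g1 - 0) ∪ (Vert (vt a (ks + j) g2) (g3 + (-l') - g2) ∪
    (Vert (vt a (k2 + j) (g4 + (-l'))) (0 - (g4 + (-l'))) ∪ Str (vt a (k2 + j) 0) (m - k2).toNat))) with hR
  have hMR : M = (P1 ∪ P2) ∪ R := by
    rw [hM, hP1, hP2, hR]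
    unfold mix
    ext e
    simp only [Finset.mem_union]
    tauto
  have hRc : (R.card : ℤ) ≤ 2 * (k1 + j) + 2 * |g1| + 2 * |g3 - l' - g2| + 2 * |g4 - l'| + 2 * (m - k2) := by
    have c1 : R.card ≤ (Str a (k1 + j).toNat).card + ((Vert (vt a (k1 + j) 0) (g1 - 0)).card +
        ((Vert (vt a (ks + j) g2) (g3 + (-l') - g2)).card + ((Vert (vt a (k2 + j) (g4 + (-l'))) (0 - (g4 + (-l')))).card +
        (Str (vt a (k2 + j) 0) (m - k2).toNat).card))) := by
      rw [hR]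
      refine (Finset.card_union_le _ _).trans (Nat.add_le_add_left ?_ _)
      refine (Finset.card_union_le _ _).trans (Nat.add_le_add_left ?_ _)
      refine (Finset.card_union_le _ _).trans (Nat.add_le_add_left ?_ _)
      exact Finset.card_union_le _ _
    rw [Str_card, Str_card, Vert_card, Vert_card, Vert_card] at c1
    have c2 : ((g1 - 0).natAbs : ℤ) = |g1| := by rw [Int.natCast_natAbs, sub_zero]
    have c3 : ((g3 + (-l') - g2).natAbs : ℤ) = |g3 - l' - g2| := by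
      rw [Int.natCast_natAbs]; congr 1
    have c4 : ((0 - (g4 + (-l'))).natAbs : ℤ) = |g4 - l'| := by
      rw [Int.natCast_natAbs, ← abs_neg]; congr 1; ring
    have c5 : ((k1 + j).toNat : ℤ) = k1 + j := Int.toNat_of_nonneg (by omega)
    have c6 : (((m : ℤ) - k2).toNat : ℤ) = m - k2 := Int.toNat_of_nonneg (by omega)
    have c7 : (R.card : ℤ) ≤ 2 * ((k1 + j).toNat : ℤ) + (2 * ((g1 - 0).natAbs : ℤ) +
        (2 * ((g3 + (-l') - g2).natAbs : ℤ) + (2 * ((0 - (g4 + (-l'))).natAbs : ℤ) + 2 * (((m : ℤ) - k2).toNat : ℤ)))) := by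
      exact_mod_cast c1
    rw [c2, c3, c4, c5, c6] at c7
    linarith
  -- the infinite volume cost
  have hP1kl : ∀ e ∈ P1, k1 + j ≤ kl (uu a) e ∧ kl (uu a) e < ks + j := by
    intro e he
    rw [hP1] at he
    unfold sh at he
    obtain ⟨e', he', rfl⟩ := Finset.mem_image.1 he
    rw [tlp_kl_sh (uu a) _ j (by ring)]
    unfold pc at he'
    have := (Finset.mem_filter.1 he').2
    omega
  have hP2kl : ∀ e ∈ P2, ks + j ≤ kl (uu a) e ∧ kl (uu a) e < k2 + j := by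
    intro e he
    rw [hP2] at he
    unfold sh at he
    obtain ⟨e', he', rfl⟩ := Finset.mem_image.1 he
    rw [tlp_kl_sh (uu a) _ j (by ring)]
    unfold pc at he'
    have := (Finset.mem_filter.1 he').2
    omega
  have hsplit := psi_split q hq0 hq1 P1 P2 (uu a + 2 * (ks + j))
    (fun e he => by
      have h3 := (hP1kl e he).2
      unfold kl at h3
      omega)
    (fun e he => by
      have h3 := (hP2kl e he).1
      unfold kl at h3
      omega)
  have htail : ∑ e ∈ P2, ((1 : ℝ) / 2) ^ (us e - (uu a + 2 * (ks + j))).toNat ≤ 3 := by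
    have e1 : ∑ e ∈ P2, ((1 : ℝ) / 2) ^ (us e - (uu a + 2 * (ks + j))).toNat =
        ∑ e ∈ pc (uu a) G' ks k2, ((1 : ℝ) / 2) ^ (us e - (uu a + 2 * ks)).toNat := by
      rw [hP2]
      unfold sh
      rw [Finset.sum_image (fun x _ y _ h => shE_inj _ h)]
      refine Finset.sum_congr rfl fun e _ => ?_
      rw [tlp_us_sh]
      congr 2
      ring
    rw [e1]
    refine le_trans (Finset.sum_le_sum_of_subset_of_nonneg ?_ fun e _ _ => by positivity)
      (tail_le hG' m (vt_uu a m l') hf' hs)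
    intro e he
    unfold pc at he
    unfold rt
    rw [Finset.mem_filter] at he ⊢
    exact ⟨he.1, he.2.1⟩
  have hpsiM : psi q M ≤ psi q (pc (uu a) G k1 ks) + psi q (pc (uu a) G' ks k2) + 3 + (R.card : ℝ) / 10 := by
    have h3 := psi_union_le q hq0 hq1 (P1 ∪ P2) R
    rw [← hMR] at h3
    have h4 := (abs_le.1 hsplit).2
    have h5 : psi q P1 = psi q (pc (uu a) G k1 ks) := by rw [hP1, psi_sh q hq0 hq1]
    have h6 : psi q P2 = psi q (pc (uu a) G' ks k2) := by rw [hP2, psi_sh q hq0 hq1]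
    rw [h5, h6] at h4
    linarith
  -- finite volume
  have hMcard : M.card ≤ 2 ^ t := (Finset.card_le_card hsub).trans (hD.card.trans hT)
  have hcone := psiD_cone q hq0 hq1 hD.cone M t (3 * (t : ℤ) + 8) hMcard le_rfl (fun e he _ => hlvl e he)
  have hfil : M.filter (fun e => cd a n0 e < 3 * (t : ℤ) + 8) ⊆ R := by
    intro e he
    rw [Finset.mem_filter, hMR, Finset.mem_union, Finset.mem_union] at he
    obtain ⟨he1, he2⟩ := he
    unfold cd at he2
    rcases he1 with (he1 | he1) | he1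
    · exfalso
      have := hP1kl e he1
      omega
    · exfalso
      have := hP2kl e he1
      omega
    · exact he1
  have hfc : ((M.filter (fun e => cd a n0 e < 3 * (t : ℤ) + 8)).card : ℝ) ≤ R.card := by
    exact_mod_cast Finset.card_le_card hfil
  have h3 := (abs_le.1 hcone).2
  have hRc' : (R.card : ℝ) ≤ ((2 * (k1 + j) + 2 * |g1| + 2 * |g3 - l' - g2| + 2 * |g4 - l'| + 2 * (m - k2) : ℤ) : ℝ) := by
    exact_mod_cast hRc
  linarith

theorem mix_weight (q : ℝ) (hq0 : 0 < q) (hq1 : q ≤ 1 / 10 ^ 6) {n : ℕ} {a b : ℤ × ℤ} {m n0 : ℕ} {D : Finset Edge} (hD : Dom n a b n0 D) {l : ℤ}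
    {G G' : Finset Edge} (hG : IsP a (vt a m l) G) (hG' : IsP a (vt a m (-l)) G')
    {k1 ks k2 : ℤ} (h1 : Reg (ex2 (uu a) G G') k1) (hs : Reg (ex2 (uu a) G G') ks) (h2 : Reg (ex2 (uu a) G G') k2)
    {t : ℕ} (ht : 1 ≤ t) (hT : 4 * n ^ 2 ≤ 2 ^ t) (h0 : 13000 * (t : ℤ) ≤ k1) (h0' : k1 ≤ 13128 * (t : ℤ)) (h1s : k1 < ks) (hs2 : ks < k2)
    (h2m : k2 ≤ (m : ℤ) - 13000 * t) (h2m' : (m : ℤ) - 13128 * t ≤ k2) (hmn : m ≤ n0 + 2)
    (hΔ : |lp a (vt a m l) G ks - lp a (vt a m (-l)) G' ks - l| ≤ 270 * (t : ℤ)) :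
    om q G * om q G' * (q ^ 2 / 2) ^ (2 * (n0 - m)) ≤ (1 / q) ^ (2200 * t) * Real.exp (14 + 25000 * t) *
      (omD q D (mix a m n0 G G' k1 ks k2 (lp a (vt a m l) G k1) (lp a (vt a m l) G ks) (lp a (vt a m (-l)) G' ks)
        (lp a (vt a m (-l)) G' k2) (-(-l))) *
       omD q D (mix a m n0 G' G k1 ks k2 (lp a (vt a m (-l)) G' k1) (lp a (vt a m (-l)) G' ks) (lp a (vt a m l) G ks)
        (lp a (vt a m l) G k2) (-l))) := by
  have ht' : (1 : ℤ) ≤ (t : ℤ) := by exact_mod_cast ht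
  have hf : ∀ i, ex (uu a) G i ≤ ex2 (uu a) G G' i := fun i => by unfold ex2; omega
  have hf' : ∀ i, ex (uu a) G' i ≤ ex2 (uu a) G G' i := fun i => by unfold ex2; omega
  have hΔ1 : |lp a (vt a m (-l)) G' ks - (-l) - lp a (vt a m l) G ks| ≤ 270 * (t : ℤ) := by
    rw [← abs_neg]
    have e : -(lp a (vt a m (-l)) G' ks - (-l) - lp a (vt a m l) G ks) =
        lp a (vt a m l) G ks - lp a (vt a m (-l)) G' ks - l := by ring
    rw [e]
    exact hΔ
  have hΔ2 : |lp a (vt a m l) G ks - l - lp a (vt a m (-l)) G' ks| ≤ 270 * (t : ℤ) := by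
    have e : lp a (vt a m l) G ks - l - lp a (vt a m (-l)) G' ks =
        lp a (vt a m l) G ks - lp a (vt a m (-l)) G' ks - l := by ring
    rw [e]
    exact hΔ
  have u1 : uu (vt a m l) = uu a + 2 * m := vt_uu a m l
  have u2 : uu (vt a m (-l)) = uu a + 2 * m := vt_uu a m (-l)
  have p1 := mix_one q hq0 hq1 hD hG hG' hf hf' h1 hs h2 ht hT h0 h1s hs2 h2m hmn hΔ1
  have p2 := mix_one q hq0 hq1 hD hG' hG hf' hf h1 hs h2 ht hT h0 h1s hs2 h2m hmn hΔ2
  have c1 := mix_card (n0 := n0) hG hG' hf hf' h1 hs h2 (by omega) h1s hs2 (by omega) hmn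
  have c2 := mix_card (n0 := n0) hG' hG hf' hf h1 hs h2 (by omega) h1s hs2 (by omega) hmn
  have s1 := tlp_psi_ge q hq0 hq1 hG m u1 hf (x := k1) (y := k2) hs
  have s2 := tlp_psi_ge q hq0 hq1 hG' m u2 hf' (x := k1) (y := k2) hs
  have d1 := tlp_card4 (uu a) G (le_of_lt h1s) (le_of_lt hs2)
  have d2 := tlp_card4 (uu a) G' (le_of_lt h1s) (le_of_lt hs2)
  obtain ⟨N1, hN1a, hN1b, hN1⟩ := lf_card hG m u1 k1
  obtain ⟨N2, hN2a, hN2b, hN2⟩ := rt_card hG m u1 k2
  obtain ⟨N3, hN3a, hN3b, hN3⟩ := lf_card hG' m u2 k1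
  obtain ⟨N4, hN4a, hN4b, hN4⟩ := rt_card hG' m u2 k2
  have l1 := hN1 N1 le_rfl
  have l2 := hN2 N2 le_rfl
  have l3 := hN3 N3 le_rfl
  have l4 := hN4 N4 le_rfl
  have a1 := cone_a hG m u1 hf h1 (by omega) (by omega)
  have a2 := cone_a hG' m u2 hf' h1 (by omega) (by omega)
  have b1 := cone_b hG m u1 hf h2 (by omega) (by omega)
  have b2 := cone_b hG' m u2 hf' h2 (by omega) (by omega)
  rw [vt_lvl, abs_sub_comm] at b1 b2
  set M1 := mix a m n0 G G' k1 ks k2 (lp a (vt a m l) G k1) (lp a (vt a m l) G ks) (lp a (vt a m (-l)) G' ks)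
        (lp a (vt a m (-l)) G' k2) (-(-l)) with hM1
  set M2 := mix a m n0 G' G k1 ks k2 (lp a (vt a m (-l)) G' k1) (lp a (vt a m (-l)) G' ks) (lp a (vt a m l) G ks)
        (lp a (vt a m l) G k2) (-l) with hM2
  generalize hx1 : |lp a (vt a m l) G k1| = X1 at *
  generalize hx2 : |lp a (vt a m (-l)) G' ks - -l - lp a (vt a m l) G ks| = X2 at *
  generalize hx3 : |lp a (vt a m (-l)) G' k2 - -l| = X3 at *
  generalize hy1 : |lp a (vt a m (-l)) G' k1| = Y1 at *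
  generalize hy2 : |lp a (vt a m l) G ks - l - lp a (vt a m (-l)) G' ks| = Y2 at *
  generalize hy3 : |lp a (vt a m l) G k2 - l| = Y3 at *
  obtain ⟨J, hJ⟩ : ∃ J : ℕ, J = n0 - m := ⟨_, rfl⟩
  rw [← hJ]
  have hJ1 : (n0 : ℤ) - m ≤ J := by omega
  have hS1 : (0 : ℤ) ≤ (Sf (ex (uu a) G) (-N1) k1 : ℤ) := Int.natCast_nonneg _
  have hS2 : (0 : ℤ) ≤ (Sf (ex (uu a) G) k2 N2 : ℤ) := Int.natCast_nonneg _
  have hS3 : (0 : ℤ) ≤ (Sf (ex (uu a) G') (-N3) k1 : ℤ) := Int.natCast_nonneg _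
  have hS4 : (0 : ℤ) ≤ (Sf (ex (uu a) G') k2 N4 : ℤ) := Int.natCast_nonneg _
  have hcards : M1.card + M2.card ≤ G.card + G'.card + 4 * J + 2200 * t := by
    omega
  have hV : (2 * (k1 + (n0 - m)) + 2 * X1 + 2 * X2 + 2 * X3 + 2 * (m - k2)) +
      (2 * (k1 + (n0 - m)) + 2 * Y1 + 2 * Y2 + 2 * Y3 + 2 * (m - k2)) ≤ 107224 * (t : ℤ) + 4 * J := by
    omega
  have hVR : ((2 * (k1 + (n0 - m)) + 2 * X1 + 2 * X2 + 2 * X3 + 2 * (m - k2) : ℤ) : ℝ) +
      ((2 * (k1 + (n0 - m)) + 2 * Y1 + 2 * Y2 + 2 * Y3 + 2 * (m - k2) : ℤ) : ℝ) ≤ 107224 * (t : ℝ) + 4 * J := by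
    exact_mod_cast hV
  have hF : psiD q D M1 + psiD q D M2 ≤ psi q G + psi q G' + 14 + 25000 * t + J := by
    have ht0 : (0 : ℝ) ≤ (t : ℝ) := Nat.cast_nonneg _
    have hJ0 : (0 : ℝ) ≤ (J : ℝ) := Nat.cast_nonneg _
    linarith
  have hq1' : q ≤ 1 := hq1.trans (by norm_num)
  have hexp4 : ((1 : ℝ) / 4) ^ J ≤ Real.exp (-(J : ℝ)) := by
    have h3 : Real.exp (-(J : ℝ)) = (Real.exp (-1)) ^ J := by
      rw [← Real.exp_nat_mul]; ring_nf
    rw [h3]
    refine pow_le_pow_left₀ (by norm_num) ?_ _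
    rw [Real.exp_neg, one_div]
    exact inv_anti₀ (Real.exp_pos _) (by linarith [Real.exp_one_lt_d9])
  have hpow : q ^ (G.card + G'.card + 4 * J + 2200 * t) ≤ q ^ (M1.card + M2.card) :=
    pow_le_pow_of_le_one hq0.le hq1' hcards
  unfold om omD
  have hqt : 0 < q ^ (2200 * t) := by positivity
  have e1 : (1 / q) ^ (2200 * t) = (q ^ (2200 * t))⁻¹ := by rw [one_div, inv_pow]
  rw [e1, mul_assoc ((q ^ (2200 * t))⁻¹), ← div_eq_inv_mul, le_div_iff₀ hqt]
  calc q ^ G.card * Real.exp (-psi q G) * (q ^ G'.card * Real.exp (-psi q G')) * (q ^ 2 / 2) ^ (2 * J) * q ^ (2200 * t)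
      = q ^ (G.card + G'.card + 4 * J + 2200 * t) * (((1 : ℝ) / 4) ^ J * Real.exp (-psi q G + -psi q G')) := by
        rw [Real.exp_add, div_pow, ← pow_mul, pow_add, pow_add, pow_add, pow_mul 2 2 J, one_div, inv_pow]
        have : q ^ (2 * (2 * J)) = q ^ (4 * J) := by congr 1; ring
        rw [this]
        norm_num
        ring
    _ ≤ q ^ (M1.card + M2.card) * (Real.exp (-(J : ℝ)) * Real.exp (-psi q G + -psi q G')) := by
        gcongr
    _ ≤ q ^ (M1.card + M2.card) * (Real.exp (14 + 25000 * t) * Real.exp (-psiD q D M1 + -psiD q D M2)) := by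
        rw [← Real.exp_add, ← Real.exp_add]
        refine mul_le_mul_of_nonneg_left (Real.exp_le_exp.2 ?_) (by positivity)
        linarith
    _ = Real.exp (14 + 25000 * t) * (q ^ M1.card * Real.exp (-psiD q D M1) * (q ^ M2.card * Real.exp (-psiD q D M2))) := by
        rw [Real.exp_add (-psiD q D M1), pow_add]
        ring

end

end Pool.Agent.H40.WM
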