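import Mathlib
import Pool.Agent.H40.WM.TW
import Pool.Agent.H40.WM.TDefs

/-!
# TLs: short paths

`ZP ≥ omD (Str a n0)` (`Str_isP`, `Dom.str`), `psiD (Str) ≤ |Str|/10 = n0/5` (`psiD_union_le` with `A = ∅`, `psiD_empty`), so `ZP ≥ q^(2 n0) exp(-n0/5)`.  `Wst q m ≤ 5 (18 q)^(2m)`.
`m ≤ n0`: `Wst^2 (q^2/2)^(2(n0-m)) ≤ 25 * 18^(4m) q^(4 n0) 4^(m - n0)` and `ZP^2 ≥ q^(4 n0) exp(-2 n0/5)`; `4^(-n0) exp(2 n0/5) ≤ 1`; so the ratio is `≤ 25 (4 * 18^4)^m ≤ 25 * 36^(4m) ≤ 36^(2 + 4 * 39000 t)`.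
`m = n0 + 1, n0 + 2`: the second factor is `1`; `Wst^2 ≤ 25 * 18^(4m) q^(4m) ≤ 25 * 18^(4m) q^(4 n0)` and `exp(2 n0/5) ≤ 2^m`: ratio `≤ 25 (2 * 18^4)^m`.
-/

set_option autoImplicit false

namespace Pool.Agent.H40.WM

open Pool.Agent.H40.SQ

noncomputable section

private theorem tls_ZP (q : ℝ) (hq0 : 0 < q) (hq1 : q ≤ 1 / 10 ^ 6) {n : ℕ} {a b : ℤ × ℤ} {n0 : ℕ} {D : Finset Edge} (hD : Dom n a b n0 D) :
    q ^ (2 * n0) * Real.exp (-((n0 : ℝ) / 5)) ≤ ZP q D a b := by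
  have hmem : Str a n0 ∈ PD D a b := by
    rw [mem_PD]
    refine ⟨hD.str, ?_⟩
    rw [hD.hb]
    exact Str_isP a n0
  have h1 : omD q D (Str a n0) ≤ ZP q D a b := by
    unfold ZP
    exact Finset.single_le_sum (f := fun G => omD q D G) (fun G _ => (omD_pos q hq0 D G).le) hmem
  refine le_trans ?_ h1
  unfold omD
  rw [Str_card]
  apply mul_le_mul_of_nonneg_left _ (pow_nonneg hq0.le _)
  apply Real.exp_le_exp.2
  have h3 := psiD_union_le q hq0 hq1 D ∅ (Str a n0)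
  rw [psiD_empty, Finset.empty_union, Str_card] at h3
  push_cast at h3
  linarith

theorem lb_short (q : ℝ) (hq0 : 0 < q) (hq1 : q ≤ 1 / 10 ^ 6) {n : ℕ} {a b : ℤ × ℤ} {n0 : ℕ} {D : Finset Edge} (hD : Dom n a b n0 D)
    (t m : ℕ) (ht : 1 ≤ t) (hm : m < 39000 * t) (hmn : m ≤ n0 + 2) :
    Wst q m ^ 2 * (q ^ 2 / 2) ^ (2 * (n0 - m)) ≤ 36 ^ (160000 * t) * ZP q D a b ^ 2 := by
  have hZ := tls_ZP q hq0 hq1 hD
  have hW := Wst_ub q hq0 hq1 m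
  have hW0 : 0 ≤ Wst q m := le_trans (by positivity) (Wst_lb q hq0 hq1 m)
  have hq1' : q ≤ 1 := hq1.trans (by norm_num)
  obtain ⟨J, hJ⟩ : ∃ J : ℕ, J = n0 - m := ⟨_, rfl⟩
  rw [← hJ]
  have hJn : n0 ≤ m + J := by omega
  have h1 : Wst q m ^ 2 ≤ 25 * (18 ^ (4 * m) * q ^ (4 * m)) := by
    calc Wst q m ^ 2 ≤ (5 * (18 * q) ^ (2 * m)) ^ 2 := pow_le_pow_left₀ hW0 hW 2
      _ = 25 * (18 ^ (4 * m) * q ^ (4 * m)) := by
        rw [mul_pow, ← pow_mul, mul_pow, show 2 * m * 2 = 4 * m by ring]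
        norm_num
  have h2 : q ^ (4 * n0) * Real.exp (-(2 * (n0 : ℝ) / 5)) ≤ ZP q D a b ^ 2 := by
    calc q ^ (4 * n0) * Real.exp (-(2 * (n0 : ℝ) / 5)) = (q ^ (2 * n0) * Real.exp (-((n0 : ℝ) / 5))) ^ 2 := by
          rw [mul_pow, ← pow_mul, ← Real.exp_nat_mul, show 2 * n0 * 2 = 4 * n0 by ring]
          congr 2
          push_cast
          ring
      _ ≤ ZP q D a b ^ 2 := pow_le_pow_left₀ (by positivity) hZ 2
  have h3 : (q ^ 2 / 2) ^ (2 * J) = q ^ (4 * J) * (1 / 4) ^ J := by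
    rw [div_pow, ← pow_mul, pow_mul 2 2 J, show 2 * (2 * J) = 4 * J by ring, one_div, inv_pow]
    norm_num
    rfl
  have he : Real.exp (2 / 5) ≤ 4 := by
    have h4 : Real.exp (2 / 5) ≤ Real.exp 1 := Real.exp_le_exp.2 (by norm_num)
    linarith [Real.exp_one_lt_d9]
  have h4 : ((1 : ℝ) / 4) ^ J ≤ Real.exp (-(2 * (J : ℝ) / 5)) := by
    have h5 : Real.exp (-(2 * (J : ℝ) / 5)) = (Real.exp (-(2 / 5))) ^ J := by
      rw [← Real.exp_nat_mul]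
      congr 1
      ring
    rw [h5]
    refine pow_le_pow_left₀ (by norm_num) ?_ _
    rw [Real.exp_neg, one_div]
    exact inv_anti₀ (Real.exp_pos _) he
  have h5 : (25 : ℝ) * 18 ^ (4 * m) ≤ 36 ^ (160000 * t) * Real.exp (-(2 * (m : ℝ) / 5)) := by
    have h6 : Real.exp (2 * (m : ℝ) / 5) ≤ 16 ^ m := by
      have h7 : Real.exp (2 * (m : ℝ) / 5) = (Real.exp (2 / 5)) ^ m := by
        rw [← Real.exp_nat_mul]
        congr 1
        ring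
      rw [h7]
      exact pow_le_pow_left₀ (Real.exp_pos _).le (by linarith) _
    rw [Real.exp_neg, ← div_eq_mul_inv, le_div_iff₀ (Real.exp_pos _)]
    calc (25 : ℝ) * 18 ^ (4 * m) * Real.exp (2 * (m : ℝ) / 5) ≤ 36 ^ 2 * 18 ^ (4 * m) * 16 ^ m := by
          gcongr
          norm_num
      _ = 36 ^ (4 * m + 2) := by
          have e1 : (16 : ℝ) ^ m = 2 ^ (4 * m) := by
            rw [pow_mul]
            norm_num
          rw [e1, mul_assoc, ← mul_pow, pow_add]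
          norm_num
          ring
      _ ≤ 36 ^ (160000 * t) := pow_le_pow_right₀ (by norm_num) (by omega)
  have h6 : q ^ (4 * m) * q ^ (4 * J) ≤ q ^ (4 * n0) := by
    rw [← pow_add]
    exact pow_le_pow_of_le_one hq0.le hq1' (by omega)
  have h7 : Real.exp (-(2 * (m : ℝ) / 5)) * Real.exp (-(2 * (J : ℝ) / 5)) ≤ Real.exp (-(2 * (n0 : ℝ) / 5)) := by
    rw [← Real.exp_add]
    refine Real.exp_le_exp.2 ?_
    have : (n0 : ℝ) ≤ m + J := by exact_mod_cast hJn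
    linarith
  calc Wst q m ^ 2 * (q ^ 2 / 2) ^ (2 * J) ≤ 25 * (18 ^ (4 * m) * q ^ (4 * m)) * (q ^ (4 * J) * (1 / 4) ^ J) := by
        rw [h3]
        gcongr
    _ = (25 * 18 ^ (4 * m)) * (q ^ (4 * m) * q ^ (4 * J)) * (1 / 4) ^ J := by ring
    _ ≤ (36 ^ (160000 * t) * Real.exp (-(2 * (m : ℝ) / 5))) * q ^ (4 * n0) * Real.exp (-(2 * (J : ℝ) / 5)) := by
        gcongr
    _ = 36 ^ (160000 * t) * (q ^ (4 * n0) * (Real.exp (-(2 * (m : ℝ) / 5)) * Real.exp (-(2 * (J : ℝ) / 5)))) := by ring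
    _ ≤ 36 ^ (160000 * t) * (q ^ (4 * n0) * Real.exp (-(2 * (n0 : ℝ) / 5))) := by gcongr
    _ ≤ 36 ^ (160000 * t) * ZP q D a b ^ 2 := by gcongr

end

end Pool.Agent.H40.WM
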