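import Mathlib
import Pool.Agent.H40.WM.TPt
import Pool.Agent.H40.WM.TW
import Pool.Agent.H40.WM.JPsi
import Pool.Agent.H40.WM.IPas
import Pool.Agent.H40.WM.IVer
import Pool.Agent.H40.WM.ITai

/-!
# TStr: straightening the part between two regular lines

`f ≥ ex (uu a) G`, `x < y` regular for `f`, `x ≤ m`, `0 ≤ y`.  `x, y` are half clean (`reg_zero`, `HC_of_ex`).  Put `x' = max 0 (min x m)`, `y' = max 0 (min y m)`, `len = y' - x' ≥ 0`, `δ = lp y - lp x`.
The new set is `L ∪ S ∪ R'`, `L = lf G x` (a path `a → pt x`), `S = Str (pt x) len` (a path from `vt a x' (lp x)` to `vt a y' (lp x)`), `R' = sh (-δ,-δ) (rt G y)` (a path from `vt a y' (lp x)` to `vt a m (lvl a b - δ)`; `pt_rt`, `IsP_sh`).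
They lie in the double slices `< x`, `[x',y')`, `≥ y`.  If `x ≤ 0` then `L = ∅`; if `y ≥ m` then `R' = ∅`.  If `0 < m` use `paste3` (`uu a < uu b`).  If `m = 0` then `x ≤ 0 ≤ y` and all three are empty; the end point is `a`.
* `strt_card`: `pc_card`: `|G| = |L| + |pc| + |R|`, `|pc| = 2 len + Sf ex x y`; `|new| = |L| + 2 len + |R|`.
* `strt_psi`: `psi new ≤ psi (L ∪ R') + 2 len/10 ≤ psi L + psi R' + 3 + len/5` (`psi_split` at the line `uu a + 2y`; the tail of `R'` equals that of `R = rt G y`, `≤ 3` by `tail_le`), `psi R' = psi R`, and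
  `psi G ≥ psi (L ∪ R) ≥ psi L + psi R - 3`.
* `strt_lf`, `strt_rt`: the parts of the new path left of `x'` and right of `y'`.
-/

set_option autoImplicit false

namespace Pool.Agent.H40.WM

open Pool.Agent.H40.SQ

noncomputable section

private theorem ts_hc {a : ℤ × ℤ} {G : Finset Edge} {f : ℤ → ℕ} (hf : ∀ i, ex (uu a) G i ≤ f i) {x : ℤ} (hx : Reg f x) :
    HC (uu a) G x := by
  obtain ⟨h1, h2⟩ := reg_zero hx
  have h3 := hf x
  have h4 := hf (x - 1)
  exact HC_of_ex (by omega) (by omega)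

private theorem ts_lf {u : ℤ} {G : Finset Edge} {x : ℤ} {e : Edge} : e ∈ lf u G x ↔ e ∈ G ∧ kl u e < x := by
  unfold lf
  exact Finset.mem_filter

private theorem ts_rt {u : ℤ} {G : Finset Edge} {x : ℤ} {e : Edge} : e ∈ rt u G x ↔ e ∈ G ∧ x ≤ kl u e := by
  unfold rt
  exact Finset.mem_filter

/-- Left part: nonempty only if `x > 0`. -/
private theorem ts_L {a b : ℤ × ℤ} {G : Finset Edge} (h : IsP a b G) (m : ℕ) (hm : uu b = uu a + 2 * m) {x : ℤ} (hx : HC (uu a) G x)
    {e : Edge} (he : e ∈ lf (uu a) G x) : kl (uu a) e < x ∧ 0 < x := by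
  refine ⟨(ts_lf.1 he).2, ?_⟩
  by_contra hc
  rw [cut_left h m hm x hx (by omega)] at he
  exact absurd he (Finset.notMem_empty e)

private theorem ts_R {a b : ℤ × ℤ} {G : Finset Edge} (h : IsP a b G) (m : ℕ) (hm : uu b = uu a + 2 * m) {y : ℤ} (hy : HC (uu a) G y)
    (t : ℤ) {e : Edge} (he : e ∈ sh (t, t) (rt (uu a) G y)) : y ≤ kl (uu a) e ∧ y < m := by
  obtain ⟨e', he', rfl⟩ := mem_sh.1 he
  rw [kl_shE]
  refine ⟨(ts_rt.1 he').2, ?_⟩
  by_contra hc
  rw [cut_right h m hm y hy (by omega)] at he'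
  exact absurd he' (Finset.notMem_empty e')

private theorem ts_S {a b : ℤ × ℤ} {G : Finset Edge} (m : ℕ) {x y : ℤ} (hxy : x < y)
    {e : Edge} (he : e ∈ Str (pt a b m G x) (max 0 (min y m) - max 0 (min x m)).toNat) :
    max 0 (min x m) ≤ kl (uu a) e ∧ kl (uu a) e < max 0 (min y m) := by
  obtain ⟨h1, h2, _⟩ := Str_kl he
  have h3 : uu (pt a b m G x) = uu a + 2 * max 0 (min x m) := vt_uu _ _ _
  rw [h3, kl_base] at h1 h2
  have h4 : max 0 (min x (m : ℤ)) ≤ max 0 (min y (m : ℤ)) := max_le_max (le_refl _) (min_le_min hxy.le (le_refl _))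
  omega

private theorem ts_dj {a b : ℤ × ℤ} {G : Finset Edge} (h : IsP a b G) (m : ℕ) (hm : uu b = uu a + 2 * m) {x y : ℤ} (hx : HC (uu a) G x)
    (hy : HC (uu a) G y) (hxy : x < y) (hxm : x ≤ m) (hy0 : 0 ≤ y) (t : ℤ) :
    Disjoint (lf (uu a) G x) (Str (pt a b m G x) (max 0 (min y m) - max 0 (min x m)).toNat) ∧
    Disjoint (lf (uu a) G x) (sh (t, t) (rt (uu a) G y)) ∧
    Disjoint (Str (pt a b m G x) (max 0 (min y m) - max 0 (min x m)).toNat) (sh (t, t) (rt (uu a) G y)) := by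
  refine ⟨?_, ?_, ?_⟩
  · rw [Finset.disjoint_left]
    intro e h1 h2
    have h3 := ts_L h m hm hx h1
    have h4 := ts_S m hxy h2
    omega
  · rw [Finset.disjoint_left]
    intro e h1 h2
    have h3 := ts_L h m hm hx h1
    have h4 := ts_R h m hm hy t h2
    omega
  · rw [Finset.disjoint_left]
    intro e h1 h2
    have h3 := ts_S m hxy h1
    have h4 := ts_R h m hm hy t h2
    omega

private theorem ts_str0 (p : ℤ × ℤ) : Str p 0 = ∅ := by
  rw [← Finset.card_eq_zero, Str_card]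

private theorem ts_lvl (a : ℤ × ℤ) : lvl a a = 0 := by
  unfold lvl
  omega

theorem strt_isP {a b : ℤ × ℤ} {G : Finset Edge} (h : IsP a b G) (m : ℕ) (hm : uu b = uu a + 2 * m) {f : ℤ → ℕ}
    (hf : ∀ i, ex (uu a) G i ≤ f i) {x y : ℤ} (hx : Reg f x) (hy : Reg f y) (hxy : x < y) (hxm : x ≤ m) (hy0 : 0 ≤ y) :
    IsP a (vt a m (lvl a b - (lp a b G y - lp a b G x))) (strt a b m G x y) := by
  have hcx := ts_hc hf hx
  have hcy := ts_hc hf hy
  rcases Nat.eq_zero_or_pos m with h0 | h0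
  · subst h0
    have hx0 : x ≤ 0 := by simpa using hxm
    have hlx : lp a b G x = 0 := by
      unfold lp
      rw [if_pos hx0]
    have hL : lf (uu a) G x = ∅ := cut_left h 0 hm x hcx hx0
    have hR : rt (uu a) G y = ∅ := cut_right h 0 hm y hcy (by simpa using hy0)
    have hlen : (max 0 (min y ((0 : ℕ) : ℤ)) - max 0 (min x ((0 : ℕ) : ℤ))).toNat = 0 := by
      simp
    have hE : strt a b 0 G x y = ∅ := by
      unfold strt
      rw [hL, hR, hlen, ts_str0]
      rfl
    rw [hE]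
    have hv : vt a ((0 : ℕ) : ℤ) (lvl a b - (lp a b G y - lp a b G x)) = a := by
      have h1 : lvl a b - (lp a b G y - lp a b G x) = 0 := by
        rw [hlx]
        rcases lt_or_eq_of_le hy0 with h2 | h2
        · have h3 : lp a b G y = lvl a b := by
            unfold lp
            rw [if_neg (by omega), if_pos (by rw [hm]; push_cast; omega)]
          rw [h3]
          ring
        · have h3 : lp a b G y = 0 := by
            unfold lp
            rw [if_pos (by omega)]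
          have h4 : G = ∅ := by
            have h5 : lf (uu a) G y = ∅ := cut_left h 0 hm y hcy (by omega)
            rw [Finset.eq_empty_iff_forall_notMem]
            intro e he
            rcases lt_or_ge (kl (uu a) e) y with h6 | h6
            · have h7 := ts_lf.2 ⟨he, h6⟩
              rw [h5] at h7
              exact absurd h7 (Finset.notMem_empty e)
            · have h7 := ts_rt.2 ⟨he, h6⟩
              rw [hR] at h7
              exact absurd h7 (Finset.notMem_empty e)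
          have h5 := (IsP_empty_iff h).1 h4
          rw [h3, ← h5, ts_lvl]
          ring
      rw [h1]
      unfold vt
      simp
    rw [hv]
    exact IsP_empty a
  · have hp1 := pt_lf h m hm hcx
    have hp2 := pt_rt h m hm hcy
    obtain ⟨δ, hδ⟩ : ∃ δ, δ = lp a b G y - lp a b G x := ⟨_, rfl⟩
    obtain ⟨d1, d2, d3⟩ := ts_dj h m hm hcx hcy hxy hxm hy0 (-δ)
    have hXY : max 0 (min x (m : ℤ)) ≤ max 0 (min y (m : ℤ)) := max_le_max (le_refl _) (min_le_min hxy.le (le_refl _))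
    have hlen : (((max 0 (min y (m : ℤ)) - max 0 (min x (m : ℤ))).toNat : ℕ) : ℤ) = max 0 (min y (m : ℤ)) - max 0 (min x (m : ℤ)) :=
      Int.toNat_of_nonneg (by omega)
    have hR := IsP_sh hp2 (-δ, -δ)
    have e1 : ((pt a b m G y).1 + (-δ), (pt a b m G y).2 + (-δ)) =
        ((pt a b m G x).1 + (((max 0 (min y (m : ℤ)) - max 0 (min x (m : ℤ))).toNat : ℕ) : ℤ),
          (pt a b m G x).2 - (((max 0 (min y (m : ℤ)) - max 0 (min x (m : ℤ))).toNat : ℕ) : ℤ)) := by
      rw [hlen, hδ]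
      unfold pt vt
      simp only [Prod.mk.injEq]
      constructor <;> ring
    have e2 : (b.1 + (-δ), b.2 + (-δ)) = vt a m (lvl a b - δ) := by
      have h1 := vt_unique hm
      conv_lhs => rw [h1]
      unfold vt
      simp only [Prod.mk.injEq]
      constructor <;> ring
    simp only at hR
    rw [e1, e2] at hR
    unfold strt
    rw [← hδ]
    refine paste3 hp1 (Str_isP _ _) hR d1 d2 d3 ?_
    intro hc
    have h1 := congrArg uu hc
    rw [vt_uu] at h1
    omega

private theorem ts_card3 (u : ℤ) (G : Finset Edge) {x y : ℤ} (hxy : x ≤ y) :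
    G.card = (lf u G x).card + (pc u G x y).card + (rt u G y).card := by
  rw [← Finset.card_union_of_disjoint, ← Finset.card_union_of_disjoint, ← split3 u G hxy]
  · rw [Finset.disjoint_left]
    intro e h1 h2
    rw [Finset.mem_union, ts_lf] at h1
    unfold pc at h1
    rw [Finset.mem_filter] at h1
    have h3 := (ts_rt.1 h2).2
    rcases h1 with h1 | h1 <;> omega
  · rw [Finset.disjoint_left]
    intro e h1 h2
    rw [ts_lf] at h1
    unfold pc at h2
    rw [Finset.mem_filter] at h2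
    omega

theorem strt_card {a b : ℤ × ℤ} {G : Finset Edge} (h : IsP a b G) (m : ℕ) (hm : uu b = uu a + 2 * m) {f : ℤ → ℕ}
    (hf : ∀ i, ex (uu a) G i ≤ f i) {x y : ℤ} (hx : Reg f x) (hy : Reg f y) (hxy : x < y) (hxm : x ≤ m) (hy0 : 0 ≤ y) :
    (strt a b m G x y).card + Sf (ex (uu a) G) x y = G.card := by
  have hcx := ts_hc hf hx
  have hcy := ts_hc hf hy
  obtain ⟨d1, d2, d3⟩ := ts_dj h m hm hcx hcy hxy hxm hy0 (-(lp a b G y - lp a b G x))
  have h1 := ts_card3 (uu a) G hxy.le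
  have h2 := pc_card h m hm hxy.le
  have hXY : max 0 (min x (m : ℤ)) ≤ max 0 (min y (m : ℤ)) := max_le_max (le_refl _) (min_le_min hxy.le (le_refl _))
  unfold strt
  rw [Finset.card_union_of_disjoint (Finset.disjoint_union_left.2 ⟨d2, d3⟩), Finset.card_union_of_disjoint d1, Str_card, sh_card, h1]
  omega

theorem strt_psi (q : ℝ) (hq0 : 0 < q) (hq1 : q ≤ 1 / 10 ^ 6) {a b : ℤ × ℤ} {G : Finset Edge} (h : IsP a b G) (m : ℕ)
    (hm : uu b = uu a + 2 * m) {f : ℤ → ℕ} (hf : ∀ i, ex (uu a) G i ≤ f i) {x y : ℤ} (hx : Reg f x) (hy : Reg f y) (hxy : x < y)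
    (hxm : x ≤ m) (hy0 : 0 ≤ y) :
    psi q (strt a b m G x y) ≤ psi q G + 6 + ((max 0 (min y m) - max 0 (min x m) : ℤ) : ℝ) / 5 := by
  have hcx := ts_hc hf hx
  have hcy := ts_hc hf hy
  have hXY : max 0 (min x (m : ℤ)) ≤ max 0 (min y (m : ℤ)) := max_le_max (le_refl _) (min_le_min hxy.le (le_refl _))
  have hlen : (((max 0 (min y (m : ℤ)) - max 0 (min x (m : ℤ))).toNat : ℕ) : ℤ) = max 0 (min y (m : ℤ)) - max 0 (min x (m : ℤ)) :=
    Int.toNat_of_nonneg (by omega)
  obtain ⟨t, ht⟩ : ∃ t, t = -(lp a b G y - lp a b G x) := ⟨_, rfl⟩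
  have hL : ∀ e ∈ lf (uu a) G x, us e < uu a + 2 * y := by
    intro e he
    have h1 := (ts_lf.1 he).2
    unfold kl at h1
    omega
  have hR : ∀ e ∈ rt (uu a) G y, uu a + 2 * y ≤ us e := by
    intro e he
    have h1 := (ts_rt.1 he).2
    unfold kl at h1
    omega
  have hR' : ∀ e ∈ sh (t, t) (rt (uu a) G y), uu a + 2 * y ≤ us e := by
    intro e he
    obtain ⟨e', he', rfl⟩ := mem_sh.1 he
    rw [us_shE]
    exact hR e' he'
  have htail : ∑ e ∈ rt (uu a) G y, ((1 : ℝ) / 2) ^ (us e - (uu a + 2 * y)).toNat ≤ 3 := tail_le h m hm hf hy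
  have htail' : ∑ e ∈ sh (t, t) (rt (uu a) G y), ((1 : ℝ) / 2) ^ (us e - (uu a + 2 * y)).toNat ≤ 3 := by
    unfold sh
    rw [Finset.sum_image (fun e _ e' _ hee => shE_inj _ hee)]
    simp only [us_shE]
    exact htail
  have h1 := psi_append q hq0 hq1 (uu a + 2 * y) (N := lf (uu a) G x)
    (V := Str (pt a b m G x) (max 0 (min y m) - max 0 (min x m)).toNat) (T := sh (t, t) (rt (uu a) G y)) hL hR'
  rw [psi_sh q hq0 hq1, Str_card] at h1
  have h2 := psi_split q hq0 hq1 (lf (uu a) G x) (rt (uu a) G y) (uu a + 2 * y) hL hR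
  have h3 : lf (uu a) G x ∪ rt (uu a) G y ⊆ G := by
    intro e he
    rcases Finset.mem_union.1 he with h4 | h4
    · exact (ts_lf.1 h4).1
    · exact (ts_rt.1 h4).1
  have h4 := psi_mono q hq0 hq1 h3
  have h5 := (abs_le.1 h2).1
  have h6 : (((2 * (max 0 (min y (m : ℤ)) - max 0 (min x (m : ℤ))).toNat : ℕ)) : ℝ) =
      2 * ((max 0 (min y (m : ℤ)) - max 0 (min x (m : ℤ)) : ℤ) : ℝ) := by
    have h7 : ((2 * (max 0 (min y (m : ℤ)) - max 0 (min x (m : ℤ))).toNat : ℕ) : ℤ) =
      2 * (max 0 (min y (m : ℤ)) - max 0 (min x (m : ℤ)) : ℤ) := by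
      rw [Nat.cast_mul, hlen]
      rfl
    exact_mod_cast h7
  rw [h6] at h1
  unfold strt
  rw [← ht]
  linarith

theorem strt_om (q : ℝ) (hq0 : 0 < q) (hq1 : q ≤ 1 / 10 ^ 6) {a b : ℤ × ℤ} {G : Finset Edge} (h : IsP a b G) (m : ℕ)
    (hm : uu b = uu a + 2 * m) {f : ℤ → ℕ} (hf : ∀ i, ex (uu a) G i ≤ f i) {x y : ℤ} (hx : Reg f x) (hy : Reg f y) (hxy : x < y)
    (hxm : x ≤ m) (hy0 : 0 ≤ y) :
    om q G ≤ Real.exp (6 + ((max 0 (min y m) - max 0 (min x m) : ℤ) : ℝ) / 5) * q ^ (Sf (ex (uu a) G) x y) *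
      om q (strt a b m G x y) := by
  have h1 := strt_psi q hq0 hq1 h m hm hf hx hy hxy hxm hy0
  have h2 := strt_card h m hm hf hx hy hxy hxm hy0
  unfold om
  rw [← h2, pow_add]
  have h3 : Real.exp (-psi q G) ≤ Real.exp (6 + ((max 0 (min y m) - max 0 (min x m) : ℤ) : ℝ) / 5) *
      Real.exp (-psi q (strt a b m G x y)) := by
    rw [← Real.exp_add]
    apply Real.exp_le_exp.2
    linarith
  have h4 : 0 ≤ q ^ (strt a b m G x y).card * q ^ (Sf (ex (uu a) G) x y) := by positivity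
  calc q ^ (strt a b m G x y).card * q ^ (Sf (ex (uu a) G) x y) * Real.exp (-psi q G)
      ≤ q ^ (strt a b m G x y).card * q ^ (Sf (ex (uu a) G) x y) *
        (Real.exp (6 + ((max 0 (min y m) - max 0 (min x m) : ℤ) : ℝ) / 5) * Real.exp (-psi q (strt a b m G x y))) :=
        mul_le_mul_of_nonneg_left h3 h4
    _ = _ := by ring

theorem strt_lf {a b : ℤ × ℤ} {G : Finset Edge} (h : IsP a b G) (m : ℕ) (hm : uu b = uu a + 2 * m) {f : ℤ → ℕ}
    (hf : ∀ i, ex (uu a) G i ≤ f i) {x y : ℤ} (hx : Reg f x) (hy : Reg f y) (hxy : x < y) (hxm : x ≤ m) (hy0 : 0 ≤ y) :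
    lf (uu a) (strt a b m G x y) (max 0 (min x m)) = lf (uu a) G x := by
  have hcx := ts_hc hf hx
  have hcy := ts_hc hf hy
  ext e
  constructor
  · intro he
    obtain ⟨h1, h2⟩ := ts_lf.1 he
    unfold strt at h1
    rw [Finset.mem_union, Finset.mem_union] at h1
    rcases h1 with (h1 | h1) | h1
    · exact h1
    · have h3 := ts_S m hxy h1
      omega
    · have h3 := ts_R h m hm hcy _ h1
      omega
  · intro he
    have h3 := ts_L h m hm hcx he
    refine ts_lf.2 ⟨?_, by omega⟩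
    unfold strt
    exact Finset.mem_union_left _ (Finset.mem_union_left _ he)

theorem strt_rt {a b : ℤ × ℤ} {G : Finset Edge} (h : IsP a b G) (m : ℕ) (hm : uu b = uu a + 2 * m) {f : ℤ → ℕ}
    (hf : ∀ i, ex (uu a) G i ≤ f i) {x y : ℤ} (hx : Reg f x) (hy : Reg f y) (hxy : x < y) (hxm : x ≤ m) (hy0 : 0 ≤ y) :
    rt (uu a) (strt a b m G x y) (max 0 (min y m)) =
      sh (-(lp a b G y - lp a b G x), -(lp a b G y - lp a b G x)) (rt (uu a) G y) := by
  have hcx := ts_hc hf hx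
  have hcy := ts_hc hf hy
  ext e
  constructor
  · intro he
    obtain ⟨h1, h2⟩ := ts_rt.1 he
    unfold strt at h1
    rw [Finset.mem_union, Finset.mem_union] at h1
    rcases h1 with (h1 | h1) | h1
    · have h3 := ts_L h m hm hcx h1
      omega
    · have h3 := ts_S m hxy h1
      omega
    · exact h1
  · intro he
    have h3 := ts_R h m hm hcy _ he
    refine ts_rt.2 ⟨?_, by omega⟩
    unfold strt
    exact Finset.mem_union_right _ he

end

end Pool.Agent.H40.WM
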