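import Mathlib
import Pool.Agent.H40.WM.TStr
import Pool.Agent.H40.WM.IAni

/-!
# TRem: pairs with a bad stretch have small total weight

`a, a'` are two base points on the same line.  For a bad pair `(X,Y)` choose consecutive regular `x < y` of `f = ex2` with `e = Sf f x y ≥ t ≥ 1`.  Then `y > 0` (if `y ≤ 0`, `cut_left` shows that `X, Y` have no edge left of the line `y`, so `Sf f x y = 0`), and
`x < m` (`cut_right`).  Put `x' = max 0 (min x m)`, `y' = max 0 (min y m)`, `len = y' - x' ≤ y - x ≤ 128 e + 1` (`rise`).  `X' = strt a b m X x y`, `Y'` likewise.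
`om X om Y ≤ exp (12 + 2 len/5) q^e om X' om Y'` (`strt_om`; `Sf (ex X) + Sf (ex Y) = e`).
Code of the pair: `(x', y', M_X, M_Y, X', Y')` where `M_X` = `pc (uu a) X x y` translated to start at `a` (translation by `a - pt x`), `M_Y` similarly (starting at `a'`).
Injectivity: `L = lf X' x' = lf X x` (`strt_lf`), its end point (`L` is a path from `a` to `pt x`, the end point is determined by `L`: by the defects, or `= a` if `L = ∅`) gives the translation, hence `pc X x y`, a path from `pt x` to `pt y`;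
so `δ` = difference of the levels is known and `rt X y = sh (δ,δ) (rt X' y')` (`strt_rt`).  `X = L ∪ pc ∪ rt`.
Sum: for fixed `(x',y',M_X,M_Y)` the paths `X'` are distinct paths from `a` to `vt a m (l1 - δ)`, a family, so `∑ om X' ≤ Wst q m` (`fam_le`), the same for `Y'`; `|M_X| + |M_Y| = 4 len + e` (`pc_card`).  So the sum is at most
`Wst^2 ∑_{x',y' ∈ [0,m]} ∑_{M_X, M_Y} exp(12 + 2 len/5) q^e`, and `exp(12 + 2 len/5) q^e = 36^(-|M_X|-|M_Y|) * [exp (12 + 2 len/5) 36^(4 len + e) q^e]` with `len ≤ 128 e + 1`: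
`[...] ≤ exp(12.4) 36^4 (exp(51.2) 36^513 q)^e ≤ 36^8 (36^528 q)^e ≤ 36^8 (36^600 q)^t` (`exp 51.2 ≤ 36^15`, `36^600 q ≤ 1`, `e ≥ t`).
`∑_{M} 36^(-|M|) ≤ 3` (`path_sum`), twice: `9 * 36^8 ≤ 36^10`; `(m+1)^2` pairs `(x',y')`.
-/

set_option autoImplicit false

namespace Pool.Agent.H40.WM

open Pool.Agent.H40.SQ

noncomputable section

/-- Data of a straightened stretch (one path). -/
private structure Sd (a b : ℤ × ℤ) (m : ℕ) (G : Finset Edge) (x y : ℤ) : Prop where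
  isP : IsP a b G
  hm : uu b = uu a + 2 * m
  ex_reg : ∃ f : ℤ → ℕ, (∀ i, ex (uu a) G i ≤ f i) ∧ Reg f x ∧ Reg f y
  hxy : x < y
  hxm : x ≤ m
  hy0 : 0 ≤ y

private def mX (a b : ℤ × ℤ) (m : ℕ) (G : Finset Edge) (x y : ℤ) : Finset Edge :=
  sh (a.1 - (pt a b m G x).1, a.2 - (pt a b m G x).2) (pc (uu a) G x y)

private def cl (m : ℕ) (x : ℤ) : ℤ := max 0 (min x m)

private theorem tr_hc {a : ℤ × ℤ} {G : Finset Edge} {f : ℤ → ℕ} (hf : ∀ i, ex (uu a) G i ≤ f i) {x : ℤ} (hx : Reg f x) :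
    HC (uu a) G x := by
  obtain ⟨h1, h2⟩ := reg_zero hx
  have h3 := hf x
  have h4 := hf (x - 1)
  exact HC_of_ex (by omega) (by omega)

private theorem tr_end {a p p' : ℤ × ℤ} {L : Finset Edge} (h : IsP a p L) (h' : IsP a p' L) : p = p' := by
  have h1 := h.def' p
  have h2 := h'.def' p
  rw [h1, if_pos rfl] at h2
  by_contra hc
  rw [if_neg hc] at h2
  omega

private theorem tr_mX {a b : ℤ × ℤ} {m : ℕ} {G : Finset Edge} {x y : ℤ} (h : Sd a b m G x y) :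
    IsP a (vt a (cl m y - cl m x) (lp a b G y - lp a b G x)) (mX a b m G x y) := by
  obtain ⟨f, hf, hx, hy⟩ := h.ex_reg
  have h1 := pt_pc h.isP m h.hm (tr_hc hf hx) (tr_hc hf hy) h.hxy.le
  have h2 := IsP_sh h1 (a.1 - (pt a b m G x).1, a.2 - (pt a b m G x).2)
  have e1 : ((pt a b m G x).1 + (a.1 - (pt a b m G x).1), (pt a b m G x).2 + (a.2 - (pt a b m G x).2)) = a := by
    refine Prod.ext ?_ ?_
    · show (pt a b m G x).1 + (a.1 - (pt a b m G x).1) = a.1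
      ring
    · show (pt a b m G x).2 + (a.2 - (pt a b m G x).2) = a.2
      ring
  have e2 : ((pt a b m G y).1 + (a.1 - (pt a b m G x).1), (pt a b m G y).2 + (a.2 - (pt a b m G x).2)) =
      vt a (cl m y - cl m x) (lp a b G y - lp a b G x) := by
    unfold pt vt cl
    simp only [Prod.mk.injEq]
    constructor <;> ring
  simp only at h2
  rw [e1, e2] at h2
  exact h2

private theorem tr_st {a b : ℤ × ℤ} {m : ℕ} {G : Finset Edge} {x y : ℤ} (h : Sd a b m G x y) :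
    IsP a (vt a m (lvl a b - (lp a b G y - lp a b G x))) (strt a b m G x y) := by
  obtain ⟨f, hf, hx, hy⟩ := h.ex_reg
  exact strt_isP h.isP m h.hm hf hx hy h.hxy h.hxm h.hy0

private theorem tr_shinj (v : ℤ × ℤ) {A B : Finset Edge} (h : sh v A = sh v B) : A = B := by
  unfold sh at h
  exact Finset.image_injective (shE_inj v) h

/-- The code determines the path. -/
private theorem tr_inj {a b : ℤ × ℤ} {m : ℕ} {G G' : Finset Edge} {x y x' y' : ℤ} (h : Sd a b m G x y) (h' : Sd a b m G' x' y')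
    (hx : cl m x = cl m x') (hy : cl m y = cl m y') (hM : mX a b m G x y = mX a b m G' x' y')
    (hS : strt a b m G x y = strt a b m G' x' y') : G = G' := by
  obtain ⟨f, hf, hrx, hry⟩ := h.ex_reg
  obtain ⟨f', hf', hrx', hry'⟩ := h'.ex_reg
  have L1 := strt_lf h.isP m h.hm hf hrx hry h.hxy h.hxm h.hy0
  have L2 := strt_lf h'.isP m h'.hm hf' hrx' hry' h'.hxy h'.hxm h'.hy0
  have R1 := strt_rt h.isP m h.hm hf hrx hry h.hxy h.hxm h.hy0
  have R2 := strt_rt h'.isP m h'.hm hf' hrx' hry' h'.hxy h'.hxm h'.hy0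
  have hx2 : max 0 (min x (m : ℤ)) = max 0 (min x' (m : ℤ)) := hx
  have hy2 : max 0 (min y (m : ℤ)) = max 0 (min y' (m : ℤ)) := hy
  rw [hS, hx2, L2] at L1
  rw [hS, hy2, R2] at R1
  -- the points at x
  have p1 := pt_lf h.isP m h.hm (tr_hc hf hrx)
  have p2 := pt_lf h'.isP m h'.hm (tr_hc hf' hrx')
  rw [← L1] at p1
  have hpx : pt a b m G x = pt a b m G' x' := tr_end p1 p2
  unfold mX at hM
  rw [hpx] at hM
  have hpc := tr_shinj _ hM
  have q1 := pt_pc h.isP m h.hm (tr_hc hf hrx) (tr_hc hf hry) h.hxy.le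
  have q2 := pt_pc h'.isP m h'.hm (tr_hc hf' hrx') (tr_hc hf' hry') h'.hxy.le
  rw [hpc, hpx] at q1
  have hpy : pt a b m G y = pt a b m G' y' := tr_end q1 q2
  have lx : lp a b G x = lp a b G' x' := by
    have h1 := congrArg (lvl a) hpx
    unfold pt at h1
    rw [vt_lvl, vt_lvl] at h1
    exact h1
  have ly : lp a b G y = lp a b G' y' := by
    have h1 := congrArg (lvl a) hpy
    unfold pt at h1
    rw [vt_lvl, vt_lvl] at h1
    exact h1
  rw [lx, ly] at R1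
  have hrt := tr_shinj _ R1
  rw [split3 (uu a) G h.hxy.le, split3 (uu a) G' h'.hxy.le, hpc, ← L1, ← hrt]

/-- Sum over codes of one path. -/
private theorem tr_one (q : ℝ) (hq0 : 0 < q) (hq1 : q ≤ 1 / 10 ^ 6) (a : ℤ × ℤ) (m : ℕ) (k l : ℤ) (S : Finset (Finset Edge × Finset Edge))
    (hS : ∀ s ∈ S, ∃ δ : ℤ, IsP a (vt a k δ) s.1 ∧ IsP a (vt a m (l - δ)) s.2) :
    ∑ s ∈ S, ((1 : ℝ) / 36) ^ s.1.card * om q s.2 ≤ 3 * Wst q m := by
  classical
  have hW : 0 ≤ Wst q m := by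
    have h1 := fam_le q hq0 hq1 a m 0 ∅ (fun G hG => absurd hG (Finset.notMem_empty G))
    rwa [Finset.sum_empty] at h1
  rw [← Finset.sum_fiberwise_of_maps_to (s := S) (t := S.image Prod.fst) (g := Prod.fst)
    (fun s hs => Finset.mem_image_of_mem _ hs)]
  have h1 : ∀ M ∈ S.image Prod.fst, ∑ s ∈ S.filter (fun s => s.1 = M), ((1 : ℝ) / 36) ^ s.1.card * om q s.2 ≤
      ((1 : ℝ) / 36) ^ M.card * Wst q m := by
    intro M hM
    obtain ⟨s0, hs0, hs0M⟩ := Finset.mem_image.1 hM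
    obtain ⟨δ0, hδ0, _⟩ := hS s0 hs0
    rw [hs0M] at hδ0
    have h2 : ∑ s ∈ S.filter (fun s => s.1 = M), ((1 : ℝ) / 36) ^ s.1.card * om q s.2 =
        ((1 : ℝ) / 36) ^ M.card * ∑ s ∈ S.filter (fun s => s.1 = M), om q s.2 := by
      rw [Finset.mul_sum]
      apply Finset.sum_congr rfl
      intro s hs
      rw [(Finset.mem_filter.1 hs).2]
    rw [h2]
    apply mul_le_mul_of_nonneg_left _ (by positivity)
    have h3 : ∑ s ∈ S.filter (fun s => s.1 = M), om q s.2 = ∑ G ∈ (S.filter (fun s => s.1 = M)).image Prod.snd, om q G := by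
      rw [Finset.sum_image]
      intro s hs s' hs' hss
      exact Prod.ext (by rw [(Finset.mem_filter.1 hs).2, (Finset.mem_filter.1 hs').2]) hss
    rw [h3]
    apply fam_le q hq0 hq1 a m (l - δ0)
    intro G hG
    obtain ⟨s, hs, rfl⟩ := Finset.mem_image.1 hG
    obtain ⟨hsS, hsM⟩ := Finset.mem_filter.1 hs
    obtain ⟨δ, hδ1, hδ2⟩ := hS s hsS
    rw [hsM] at hδ1
    have h4 := congrArg (lvl a) (tr_end hδ1 hδ0)
    rw [vt_lvl, vt_lvl] at h4
    rw [← h4]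
    exact hδ2
  have h2 := Finset.sum_le_sum h1
  rw [← Finset.sum_mul] at h2
  have h3 := path_sum a (S.image Prod.fst) (by
    intro M hM
    obtain ⟨s0, hs0, hs0M⟩ := Finset.mem_image.1 hM
    obtain ⟨δ0, hδ0, _⟩ := hS s0 hs0
    rw [hs0M] at hδ0
    exact ⟨_, hδ0⟩)
  exact h2.trans (mul_le_mul_of_nonneg_right h3 hW)

private theorem tr_exp (e n : ℕ) (hn : n ≤ 128 * e + 1) :
    Real.exp (12 + 2 * (n : ℝ) / 5) ≤ 36 ^ 4 * (36 ^ 15) ^ e := by
  have hn' : (n : ℝ) ≤ 128 * e + 1 := by exact_mod_cast hn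
  have e1 : Real.exp 1 ≤ 2.72 := by
    have := Real.exp_one_lt_d9
    linarith
  have e13 : Real.exp 13 ≤ 36 ^ 4 := by
    have h1 : Real.exp 13 = Real.exp 1 ^ 13 := by
      rw [← Real.exp_nat_mul]
      norm_num
    rw [h1]
    refine (pow_le_pow_left₀ (Real.exp_pos 1).le e1 13).trans ?_
    norm_num
  have e52 : Real.exp 52 ≤ 36 ^ 15 := by
    have h1 : Real.exp 52 = Real.exp 1 ^ 52 := by
      rw [← Real.exp_nat_mul]
      norm_num
    rw [h1]
    refine (pow_le_pow_left₀ (Real.exp_pos 1).le e1 52).trans ?_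
    norm_num
  have h2 : Real.exp (12 + 2 * (n : ℝ) / 5) ≤ Real.exp 13 * Real.exp 52 ^ e := by
    rw [← Real.exp_nat_mul, ← Real.exp_add]
    apply Real.exp_le_exp.2
    have h3 : (0 : ℝ) ≤ e := Nat.cast_nonneg e
    linarith
  exact h2.trans (mul_le_mul e13 (pow_le_pow_left₀ (Real.exp_pos _).le e52 e) (by positivity) (by positivity))

private theorem tr_num (q : ℝ) (hq0 : 0 < q) (hq1 : 36 ^ 600 * q ≤ 1) (e t n : ℕ) (he : t ≤ e) (hn : n ≤ 128 * e + 1) :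
    Real.exp (12 + 2 * (n : ℝ) / 5) * 36 ^ (4 * n + e) * q ^ e ≤ 36 ^ 8 * (36 ^ 600 * q) ^ t := by
  have h1 := tr_exp e n hn
  have h2 : (36 : ℝ) ^ (4 * n + e) ≤ 36 ^ (4 + 513 * e) := pow_le_pow_right₀ (by norm_num) (by omega)
  have h3 : Real.exp (12 + 2 * (n : ℝ) / 5) * 36 ^ (4 * n + e) ≤ (36 ^ 4 * (36 ^ 15) ^ e) * 36 ^ (4 + 513 * e) :=
    mul_le_mul h1 h2 (by positivity) (by positivity)
  have h4 : (36 ^ 4 * (36 ^ 15) ^ e) * 36 ^ (4 + 513 * e) * q ^ e = 36 ^ 8 * ((36 : ℝ) ^ 528 * q) ^ e := by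
    rw [mul_pow, pow_add, ← pow_mul, ← pow_mul]
    have h5 : (36 : ℝ) ^ (528 * e) = 36 ^ (15 * e) * 36 ^ (513 * e) := by
      rw [← pow_add]
      congr 1
      ring
    rw [h5]
    ring
  have h5 : ((36 : ℝ) ^ 528 * q) ^ e ≤ ((36 : ℝ) ^ 600 * q) ^ e := by
    apply pow_le_pow_left₀ (by positivity)
    apply mul_le_mul_of_nonneg_right _ hq0.le
    exact pow_le_pow_right₀ (by norm_num) (by norm_num)
  have h6 : ((36 : ℝ) ^ 600 * q) ^ e ≤ ((36 : ℝ) ^ 600 * q) ^ t :=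
    pow_le_pow_of_le_one (by positivity) hq1 he
  calc Real.exp (12 + 2 * (n : ℝ) / 5) * 36 ^ (4 * n + e) * q ^ e
      ≤ (36 ^ 4 * (36 ^ 15) ^ e) * 36 ^ (4 + 513 * e) * q ^ e := mul_le_mul_of_nonneg_right h3 (by positivity)
    _ = 36 ^ 8 * ((36 : ℝ) ^ 528 * q) ^ e := h4
    _ ≤ 36 ^ 8 * (36 ^ 600 * q) ^ t := mul_le_mul_of_nonneg_left (h5.trans h6) (by positivity)

private theorem tr_left {a b : ℤ × ℤ} {G : Finset Edge} (h : IsP a b G) (m : ℕ) (hm : uu b = uu a + 2 * m) {y : ℤ} (hy : HC (uu a) G y)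
    (hy0 : y ≤ 0) (k : ℤ) (hk : k < y) : ex (uu a) G k = 0 := by
  have h1 := ex_lf (uu a) G y k
  rw [if_pos hk, cut_left h m hm y hy hy0] at h1
  rw [← h1]
  simp [ex]

private theorem tr_right {a b : ℤ × ℤ} {G : Finset Edge} (h : IsP a b G) (m : ℕ) (hm : uu b = uu a + 2 * m) {x : ℤ} (hx : HC (uu a) G x)
    (hxm : (m : ℤ) ≤ x) (k : ℤ) (hk : x ≤ k) : ex (uu a) G k = 0 := by
  have h1 := ex_rt (uu a) G x k
  rw [if_pos hk, cut_right h m hm x hx hxm] at h1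
  rw [← h1]
  simp [ex]

private theorem tr_sf (u : ℤ) (X Y : Finset Edge) (x y : ℤ) : Sf (ex2 u X Y) x y = Sf (ex u X) x y + Sf (ex u Y) x y := by
  unfold Sf ex2
  rw [Finset.sum_add_distrib]

theorem trem (q : ℝ) (hq0 : 0 < q) (hq1 : 36 ^ 600 * q ≤ 1) (a a' : ℤ × ℤ) (haa : uu a = uu a') (m : ℕ) (l1 l2 : ℤ)
    (Q1 Q2 : Finset (Finset Edge)) (h1 : ∀ G ∈ Q1, IsP a (vt a m l1) G) (h2 : ∀ G ∈ Q2, IsP a' (vt a' m l2) G) (t : ℕ) (ht : 1 ≤ t)
    (T : Finset (Finset Edge × Finset Edge)) (hT : ∀ P ∈ T, P.1 ∈ Q1 ∧ P.2 ∈ Q2 ∧ Bad (ex2 (uu a) P.1 P.2) t) :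
    ∑ P ∈ T, om q P.1 * om q P.2 ≤ 36 ^ 10 * ((m : ℝ) + 1) ^ 2 * (36 ^ 600 * q) ^ t * Wst q m ^ 2 := by
  classical
  have hq2 : q ≤ 1 / 10 ^ 6 := by
    have h3 : (10 : ℝ) ^ 6 * q ≤ 36 ^ 600 * q := by
      apply mul_le_mul_of_nonneg_right _ hq0.le
      calc (10 : ℝ) ^ 6 ≤ 36 ^ 6 := by norm_num
        _ ≤ 36 ^ 600 := pow_le_pow_right₀ (by norm_num) (by norm_num)
    rw [le_div_iff₀ (by positivity), mul_comm]
    exact h3.trans hq1
  obtain ⟨b, hb⟩ : ∃ b, b = vt a m l1 := ⟨_, rfl⟩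
  obtain ⟨b', hb'⟩ : ∃ b', b' = vt a' m l2 := ⟨_, rfl⟩
  have hbu : uu b = uu a + 2 * m := by rw [hb, vt_uu]
  have hbu' : uu b' = uu a' + 2 * m := by rw [hb', vt_uu]
  have hW : 0 ≤ Wst q m := by
    have h1 := fam_le q hq0 hq2 a m 0 ∅ (fun G hG => absurd hG (Finset.notMem_empty G))
    rwa [Finset.sum_empty] at h1
  -- choice of the stretch
  have key : ∀ P : Finset Edge × Finset Edge, ∃ x y : ℤ, P ∈ T → Sd a b m P.1 x y ∧ Sd a' b' m P.2 x y ∧
      t ≤ Sf (ex2 (uu a) P.1 P.2) x y ∧ y - x - 1 ≤ 128 * (Sf (ex2 (uu a) P.1 P.2) x y : ℤ) := by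
    intro P
    by_cases hP : P ∈ T
    · obtain ⟨hP1, hP2, x, y, hc, hs⟩ := hT P hP
      refine ⟨x, y, fun _ => ?_⟩
      have r1 := hc.1
      have r2 := hc.2.1
      have i1 : IsP a b P.1 := by rw [hb]; exact h1 _ hP1
      have i2 : IsP a' b' P.2 := by rw [hb']; exact h2 _ hP2
      have f1 : ∀ i, ex (uu a) P.1 i ≤ ex2 (uu a) P.1 P.2 i := fun i => Nat.le_add_right _ _
      have f2 : ∀ i, ex (uu a') P.2 i ≤ ex2 (uu a) P.1 P.2 i := fun i => by
        rw [← haa]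
        exact Nat.le_add_left _ _
      have hy0 : 0 ≤ y := by
        by_contra hc2
        have h3 : Sf (ex2 (uu a) P.1 P.2) x y = 0 := by
          unfold Sf
          apply Finset.sum_eq_zero
          intro i hi
          rw [Finset.mem_Ico] at hi
          unfold ex2
          have e1 := tr_left i1 m hbu (tr_hc f1 r2) (by omega) i hi.2
          have e2 := tr_left i2 m hbu' (tr_hc f2 r2) (by omega) i hi.2
          rw [← haa] at e2
          omega
        omega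
      have hxm : x ≤ m := by
        by_contra hc2
        have h3 : Sf (ex2 (uu a) P.1 P.2) x y = 0 := by
          unfold Sf
          apply Finset.sum_eq_zero
          intro i hi
          rw [Finset.mem_Ico] at hi
          unfold ex2
          have e1 := tr_right i1 m hbu (tr_hc f1 r1) (by omega) i hi.1
          have e2 := tr_right i2 m hbu' (tr_hc f2 r1) (by omega) i hi.1
          rw [← haa] at e2
          omega
        omega
      exact ⟨⟨i1, hbu, ⟨_, f1, r1, r2⟩, hc.2.2.1, hxm, hy0⟩, ⟨i2, hbu', ⟨_, f2, r1, r2⟩, hc.2.2.1, hxm, hy0⟩, hs, rise hc⟩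
    · exact ⟨0, 0, fun h => absurd h hP⟩
  choose xx yy hxy using key
  -- the codes
  obtain ⟨s1, hs1⟩ : ∃ s1 : Finset Edge × Finset Edge → Finset Edge × Finset Edge,
      s1 = fun P => (mX a b m P.1 (xx P) (yy P), strt a b m P.1 (xx P) (yy P)) := ⟨_, rfl⟩
  obtain ⟨s2, hs2⟩ : ∃ s2 : Finset Edge × Finset Edge → Finset Edge × Finset Edge,
      s2 = fun P => (mX a' b' m P.2 (xx P) (yy P), strt a' b' m P.2 (xx P) (yy P)) := ⟨_, rfl⟩
  obtain ⟨g, hg⟩ : ∃ g : Finset Edge × Finset Edge → ℝ, g = fun s => ((1 : ℝ) / 36) ^ s.1.card * om q s.2 := ⟨_, rfl⟩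
  have hgpos : ∀ s, 0 ≤ g s := by
    intro s
    rw [hg]
    exact mul_nonneg (by positivity) (om_pos q hq0 _).le
  obtain ⟨C, hC⟩ : ∃ C : ℝ, C = 36 ^ 8 * (36 ^ 600 * q) ^ t := ⟨_, rfl⟩
  have hC0 : 0 ≤ C := by
    rw [hC]
    positivity
  -- weights
  have hw : ∀ P ∈ T, om q P.1 * om q P.2 ≤ C * (g (s1 P) * g (s2 P)) := by
    intro P hP
    obtain ⟨d1, d2, hs, hr⟩ := hxy P hP
    obtain ⟨f, hf, hx, hy⟩ := d1.ex_reg
    obtain ⟨f', hf', hx', hy'⟩ := d2.ex_reg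
    have o1 := strt_om q hq0 hq2 d1.isP m d1.hm hf hx hy d1.hxy d1.hxm d1.hy0
    have o2 := strt_om q hq0 hq2 d2.isP m d2.hm hf' hx' hy' d2.hxy d2.hxm d2.hy0
    have c1 := pc_card d1.isP m d1.hm d1.hxy.le
    have c2 := pc_card d2.isP m d2.hm d2.hxy.le
    have hsf := tr_sf (uu a) P.1 P.2 (xx P) (yy P)
    rw [← haa] at o2 c2
    obtain ⟨e1, he1⟩ : ∃ e1, e1 = Sf (ex (uu a) P.1) (xx P) (yy P) := ⟨_, rfl⟩
    obtain ⟨e2, he2⟩ : ∃ e2, e2 = Sf (ex (uu a) P.2) (xx P) (yy P) := ⟨_, rfl⟩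
    obtain ⟨n, hn⟩ : ∃ n : ℕ, (n : ℤ) = max 0 (min (yy P) (m : ℤ)) - max 0 (min (xx P) (m : ℤ)) :=
      ⟨(max 0 (min (yy P) (m : ℤ)) - max 0 (min (xx P) (m : ℤ))).toNat, Int.toNat_of_nonneg (by
        have := max_le_max (le_refl (0 : ℤ)) (min_le_min d1.hxy.le (le_refl (m : ℤ)))
        omega)⟩
    rw [← he1, ← hn] at o1 c1
    rw [← he2, ← hn] at o2 c2
    rw [← he1, ← he2] at hsf
    rw [hsf] at hs hr
    have hnn : n ≤ 128 * (e1 + e2) + 1 := by
      have h3 := d1.hxy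
      omega
    have hnum := tr_num q hq0 hq1 (e1 + e2) t n hs hnn
    have k1 : (mX a b m P.1 (xx P) (yy P)).card = 2 * n + e1 := by
      unfold mX
      rw [sh_card]
      omega
    have k2 : (mX a' b' m P.2 (xx P) (yy P)).card = 2 * n + e2 := by
      unfold mX
      rw [sh_card, ← haa]
      omega
    rw [hg, hs1, hs2]
    simp only
    rw [k1, k2]
    have p1 := (om_pos q hq0 (strt a b m P.1 (xx P) (yy P))).le
    have p2 := (om_pos q hq0 (strt a' b' m P.2 (xx P) (yy P))).le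
    have p3 := (om_pos q hq0 P.2).le
    have hmul := mul_le_mul o1 o2 p3 (by positivity)
    refine hmul.trans ?_
    have hexp : Real.exp (12 + 2 * (n : ℝ) / 5) = Real.exp (6 + ((n : ℤ) : ℝ) / 5) * Real.exp (6 + ((n : ℤ) : ℝ) / 5) := by
      rw [← Real.exp_add]
      congr 1
      push_cast
      ring
    have hA : Real.exp (6 + ((n : ℤ) : ℝ) / 5) * q ^ e1 * om q (strt a b m P.1 (xx P) (yy P)) *
        (Real.exp (6 + ((n : ℤ) : ℝ) / 5) * q ^ e2 * om q (strt a' b' m P.2 (xx P) (yy P))) =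
        (Real.exp (12 + 2 * (n : ℝ) / 5) * q ^ (e1 + e2)) *
          (om q (strt a b m P.1 (xx P) (yy P)) * om q (strt a' b' m P.2 (xx P) (yy P))) := by
      rw [hexp, pow_add]
      ring
    have hB : C * (((1 : ℝ) / 36) ^ (2 * n + e1) * om q (strt a b m P.1 (xx P) (yy P)) *
        (((1 : ℝ) / 36) ^ (2 * n + e2) * om q (strt a' b' m P.2 (xx P) (yy P)))) =
        (C * ((1 : ℝ) / 36) ^ (4 * n + (e1 + e2))) *
          (om q (strt a b m P.1 (xx P) (yy P)) * om q (strt a' b' m P.2 (xx P) (yy P))) := by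
      have h3 : 4 * n + (e1 + e2) = (2 * n + e1) + (2 * n + e2) := by ring
      rw [h3, pow_add]
      ring
    rw [hA, hB]
    apply mul_le_mul_of_nonneg_right _ (mul_nonneg p1 p2)
    rw [one_div, inv_pow, ← div_eq_mul_inv, le_div_iff₀ (by positivity), hC]
    calc Real.exp (12 + 2 * (n : ℝ) / 5) * q ^ (e1 + e2) * 36 ^ (4 * n + (e1 + e2))
        = Real.exp (12 + 2 * (n : ℝ) / 5) * 36 ^ (4 * n + (e1 + e2)) * q ^ (e1 + e2) := by ring
      _ ≤ _ := hnum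
  -- the sum over the pairs
  obtain ⟨R, hR⟩ : ∃ R : Finset ℤ, R = Finset.Icc 0 (m : ℤ) := ⟨_, rfl⟩
  have hcl : ∀ x : ℤ, cl m x ∈ R := by
    intro x
    rw [hR, Finset.mem_Icc]
    unfold cl
    omega
  have hsum : ∑ P ∈ T, g (s1 P) * g (s2 P) ≤ ((m : ℝ) + 1) ^ 2 * (9 * Wst q m ^ 2) := by
    rw [← Finset.sum_fiberwise_of_maps_to (s := T) (t := R ×ˢ R) (g := fun P => (cl m (xx P), cl m (yy P)))
      (fun P _ => Finset.mem_product.2 ⟨hcl _, hcl _⟩)]
    have hfib : ∀ c ∈ R ×ˢ R, ∑ P ∈ T.filter (fun P => (cl m (xx P), cl m (yy P)) = c), g (s1 P) * g (s2 P) ≤ 9 * Wst q m ^ 2 := by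
      intro c _
      obtain ⟨Tc, hTc⟩ : ∃ Tc, Tc = T.filter (fun P => (cl m (xx P), cl m (yy P)) = c) := ⟨_, rfl⟩
      rw [← hTc]
      have hmem : ∀ P ∈ Tc, P ∈ T ∧ cl m (xx P) = c.1 ∧ cl m (yy P) = c.2 := by
        intro P hP
        rw [hTc, Finset.mem_filter] at hP
        exact ⟨hP.1, by rw [← hP.2], by rw [← hP.2]⟩
      have hinj : Set.InjOn (fun P => (s1 P, s2 P)) (Tc : Set (Finset Edge × Finset Edge)) := by
        intro P hP P' hP' he
        obtain ⟨m1, m2, m3⟩ := hmem P hP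
        obtain ⟨m1', m2', m3'⟩ := hmem P' hP'
        obtain ⟨d1, d2, _, _⟩ := hxy P m1
        obtain ⟨d1', d2', _, _⟩ := hxy P' m1'
        simp only [hs1, hs2, Prod.mk.injEq] at he
        obtain ⟨⟨e1, e2⟩, e3, e4⟩ := he
        exact Prod.ext (tr_inj d1 d1' (by rw [m2, m2']) (by rw [m3, m3']) e1 e2)
          (tr_inj d2 d2' (by rw [m2, m2']) (by rw [m3, m3']) e3 e4)
      have e1 : ∑ P ∈ Tc, g (s1 P) * g (s2 P) = ∑ s ∈ Tc.image (fun P => (s1 P, s2 P)), g s.1 * g s.2 := by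
        rw [Finset.sum_image hinj]
      have e2 : Tc.image (fun P => (s1 P, s2 P)) ⊆ Tc.image s1 ×ˢ Tc.image s2 := by
        intro s hs
        obtain ⟨P, hP, rfl⟩ := Finset.mem_image.1 hs
        exact Finset.mem_product.2 ⟨Finset.mem_image_of_mem _ hP, Finset.mem_image_of_mem _ hP⟩
      have e3 : ∑ s ∈ Tc.image s1 ×ˢ Tc.image s2, g s.1 * g s.2 = (∑ s ∈ Tc.image s1, g s) * ∑ s ∈ Tc.image s2, g s := by
        rw [Finset.sum_mul_sum, Finset.sum_product]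
      have b1 : ∑ s ∈ Tc.image s1, g s ≤ 3 * Wst q m := by
        rw [hg]
        apply tr_one q hq0 hq2 a m (c.2 - c.1) l1
        intro s hs
        obtain ⟨P, hP, rfl⟩ := Finset.mem_image.1 hs
        obtain ⟨m1, m2, m3⟩ := hmem P hP
        obtain ⟨d1, _, _, _⟩ := hxy P m1
        refine ⟨lp a b P.1 (yy P) - lp a b P.1 (xx P), ?_, ?_⟩
        · have h3 := tr_mX d1
          rw [m2, m3] at h3
          rw [hs1]
          exact h3
        · have h3 := tr_st d1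
          have h4 : lvl a b = l1 := by rw [hb, vt_lvl]
          rw [h4] at h3
          rw [hs1]
          exact h3
      have b2 : ∑ s ∈ Tc.image s2, g s ≤ 3 * Wst q m := by
        rw [hg]
        apply tr_one q hq0 hq2 a' m (c.2 - c.1) l2
        intro s hs
        obtain ⟨P, hP, rfl⟩ := Finset.mem_image.1 hs
        obtain ⟨m1, m2, m3⟩ := hmem P hP
        obtain ⟨_, d2, _, _⟩ := hxy P m1
        refine ⟨lp a' b' P.2 (yy P) - lp a' b' P.2 (xx P), ?_, ?_⟩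
        · have h3 := tr_mX d2
          rw [m2, m3] at h3
          rw [hs2]
          exact h3
        · have h3 := tr_st d2
          have h4 : lvl a' b' = l2 := by rw [hb', vt_lvl]
          rw [h4] at h3
          rw [hs2]
          exact h3
      rw [e1]
      refine (Finset.sum_le_sum_of_subset_of_nonneg e2 (fun s _ _ => mul_nonneg (hgpos _) (hgpos _))).trans ?_
      rw [e3]
      calc (∑ s ∈ Tc.image s1, g s) * ∑ s ∈ Tc.image s2, g s ≤ (3 * Wst q m) * (3 * Wst q m) :=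
            mul_le_mul b1 b2 (Finset.sum_nonneg fun s _ => hgpos s) (by positivity)
        _ = 9 * Wst q m ^ 2 := by ring
    refine (Finset.sum_le_sum hfib).trans ?_
    rw [Finset.sum_const, nsmul_eq_mul, Finset.card_product, hR, Int.card_Icc]
    have h3 : (((m : ℤ) + 1 - 0).toNat * ((m : ℤ) + 1 - 0).toNat : ℕ) = (m + 1) * (m + 1) := by
      congr 1
    rw [h3]
    apply le_of_eq
    push_cast
    ring
  have hfin : ∑ P ∈ T, om q P.1 * om q P.2 ≤ C * (((m : ℝ) + 1) ^ 2 * (9 * Wst q m ^ 2)) := by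
    refine (Finset.sum_le_sum hw).trans ?_
    rw [← Finset.mul_sum]
    exact mul_le_mul_of_nonneg_left hsum hC0
  refine hfin.trans ?_
  rw [hC]
  have h3 : (36 : ℝ) ^ 8 * (36 ^ 600 * q) ^ t * (((m : ℝ) + 1) ^ 2 * (9 * Wst q m ^ 2)) =
      (9 * 36 ^ 8) * (((m : ℝ) + 1) ^ 2 * (36 ^ 600 * q) ^ t * Wst q m ^ 2) := by ring
  have h4 : (36 : ℝ) ^ 10 * ((m : ℝ) + 1) ^ 2 * (36 ^ 600 * q) ^ t * Wst q m ^ 2 =
      36 ^ 10 * (((m : ℝ) + 1) ^ 2 * (36 ^ 600 * q) ^ t * Wst q m ^ 2) := by ring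
  rw [h3, h4]
  apply mul_le_mul_of_nonneg_right (by norm_num) (by positivity)

end

end Pool.Agent.H40.WM
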