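import Mathlib
import Pool.Agent.H40.WM.TLk
import Pool.Agent.H40.WM.TLp
import Pool.Agent.H40.WM.TLs
import Pool.Agent.H40.WM.TRem

/-!
# TLf: the lower bound

`q ≤ 36^(-2000)`.  Let `m ≥ 39000 t` (otherwise `lb_short`).  `exists_fam` (base `a`): `l`, `Q1` with `3 W ≤ 4 ∑_{Q1} om`; `sym_fam`: `Q2` (end level `-l`) with the same sum: `∑_{Q1 × Q2} om om ≥ (9/16) W^2`.  The bad pairs (`Bad (ex2) t`) contribute at most
`36^10 (m+1)^2 (36^600 q)^t W^2 ≤ W^2/16` (`trem`; `(36^600 q)^t ≤ 36^(-1400 t)`, `m + 1 ≤ n0 + 3 ≤ 2n + 3`, `4 n^2 ≤ 2^t`).  So the good pairs have weight `≥ W^2/2`.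
For a good pair take `(k1,ks,k2)` (`kstar`) and `M1, M2` (`mix_weight`, `mix_isP`, `mix_sub`: both in `PD D a b`, `b = vt a n0 0`).
Code: `(M1, M2, k1, ks, k2, lp G k1, lp G ks, lp G k2, lp G' k1, lp G' ks, lp G' k2, lf G k1, lf G' k1, rt G k2, rt G' k2)`: injective by `mix_decode` (applied to `M1` and to `M2`): it gives `pc G k1 ks`, `pc G' ks k2`, `pc G' k1 ks`, `pc G ks k2`; together with the four
outer parts this is everything (`split3`).
Counting: `k1, ks, k2 ∈ [0,m]`; the levels are in `[-(m+1), m+1]` (`cone_a`): at most `(2m+3)^9` choices.  The outer parts: `lf G k1` is a path from `a` with at most `40000 t` edges: with `x0` the largest regular index `≤ 0`, `x0 ≥ -128 t` (`reg_window`), nothing is left of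
`x0`, `|lf G k1| = 2 k1 + Sf (ex G) x0 k1 ≤ 2 k1 + (k1 - x0)/64`; so `1 ≤ 36^(40000 t) 36^(-|lf|)` and `∑ 36^(-|.|) ≤ 3` (`path_sum`, `path_sum_end` with the end points `vt a m (±l)`).  Four parts: `81 * 36^(160000 t)`.
Total: `W^2/2 * (q^2/2)^(2(n0-m)) ≤ (2m+3)^9 * 81 * 36^(160000 t) (1/q)^(2200 t) exp(14 + 25000 t) ZP^2`, and `exp 1 ≤ 36`, `(2m+3)^9 ≤ (4n + 11)^9 ≤ 36^(100 t)`: altogether `≤ (36/q)^(200000 t) ZP^2` with room.
-/

set_option autoImplicit false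

namespace Pool.Agent.H40.WM

open Pool.Agent.H40.SQ

noncomputable section

private theorem lf_prod {ι : Type*} (s : Finset ι) (c : ι → Fin 6 → Finset Edge) (X : Fin 6 → Finset (Finset Edge))
    (f : Fin 6 → Finset Edge → ℝ) (hf : ∀ j x, 0 ≤ f j x) (hinj : Set.InjOn c s) (hX : ∀ i ∈ s, ∀ j, c i j ∈ X j) :
    ∑ i ∈ s, ∏ j, f j (c i j) ≤ ∏ j, ∑ x ∈ X j, f j x := by
  classical
  rw [Finset.prod_univ_sum]
  have h1 : ∑ i ∈ s, ∏ j, f j (c i j) = ∑ p ∈ s.image c, ∏ j, f j (p j) := by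
    rw [Finset.sum_image hinj]
  rw [h1]
  refine Finset.sum_le_sum_of_subset_of_nonneg ?_ (fun p _ _ => Finset.prod_nonneg fun j _ => hf j _)
  intro p hp
  obtain ⟨i, hi, rfl⟩ := Finset.mem_image.1 hp
  exact Fintype.mem_piFinset.2 (hX i hi)

private theorem lf_fsup (u : ℤ) (X Y : Finset Edge) : FSup (ex2 u X Y) := by
  obtain ⟨N1, h1⟩ := ex_fsup u X
  obtain ⟨N2, h2⟩ := ex_fsup u Y
  refine ⟨max N1 N2, fun i hi => ?_⟩
  unfold ex2
  rw [h1 i (lt_of_le_of_lt (le_max_left _ _) hi), h2 i (lt_of_le_of_lt (le_max_right _ _) hi)]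

private theorem lf_HC {u : ℤ} {G : Finset Edge} {f : ℤ → ℕ} (hf : ∀ i, ex u G i ≤ f i) {x : ℤ} (hx : Reg f x) :
    HC u G x := by
  obtain ⟨h1, h2⟩ := reg_zero hx
  have h3 := hf x
  have h4 := hf (x - 1)
  exact HC_of_ex (by omega) (by omega)

private theorem lf_lf_card {a b : ℤ × ℤ} {m : ℕ} {G : Finset Edge} (hG : IsP a b G) (hm : uu b = uu a + 2 * m) {f : ℤ → ℕ}
    (hf : ∀ i, ex (uu a) G i ≤ f i) (hfs : FSup f) {t : ℕ} (ht : 1 ≤ t) (hb : ¬ Bad f t) {k : ℤ} (hk0 : 0 ≤ k)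
    (hk1 : k ≤ 13128 * (t : ℤ)) : (lf (uu a) G k).card ≤ 40000 * t := by
  obtain ⟨x, hx1, hx2, hxr⟩ := reg_window hfs ht hb (-(128 * (t : ℤ)))
  have hx0 : x ≤ 0 := by omega
  have he : lf (uu a) G x = ∅ := cut_left hG m hm x (lf_HC hf hxr) hx0
  have h1 : lf (uu a) G k = pc (uu a) G x k := by
    unfold lf pc
    apply Finset.filter_congr
    intro e heG
    constructor
    · intro h
      refine ⟨?_, h⟩
      by_contra hc
      have : e ∈ lf (uu a) G x := Finset.mem_filter.2 ⟨heG, by omega⟩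
      rw [he] at this
      exact absurd this (Finset.notMem_empty e)
    · intro h
      exact h.2
  rw [h1, part_card hG m hm x k]
  have h2 : (Finset.Ico x k ∩ Finset.Ico 0 (m : ℤ)).card ≤ k.toNat := by
    have h3 : Finset.Ico x k ∩ Finset.Ico 0 (m : ℤ) ⊆ Finset.Ico 0 k := by
      intro i hi
      rw [Finset.mem_inter, Finset.mem_Ico, Finset.mem_Ico] at hi
      rw [Finset.mem_Ico]
      omega
    have h4 := Finset.card_le_card h3
    rw [Int.card_Ico] at h4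
    simpa using h4
  have h5 := Sf_mono hf x k
  have h6 := hxr.1 k (by omega)
  omega

private theorem lf_rt_card {a b : ℤ × ℤ} {m : ℕ} {G : Finset Edge} (hG : IsP a b G) (hm : uu b = uu a + 2 * m) {f : ℤ → ℕ}
    (hf : ∀ i, ex (uu a) G i ≤ f i) (hfs : FSup f) {t : ℕ} (ht : 1 ≤ t) (hb : ¬ Bad f t) {k : ℤ} (hk0 : k ≤ m)
    (hk1 : (m : ℤ) - 13128 * (t : ℤ) ≤ k) : (rt (uu a) G k).card ≤ 40000 * t := by
  obtain ⟨x, hx1, hx2, hxr⟩ := reg_window hfs ht hb (m : ℤ)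
  have he : rt (uu a) G x = ∅ := cut_right hG m hm x (lf_HC hf hxr) hx1
  have h1 : rt (uu a) G k = pc (uu a) G k x := by
    unfold rt pc
    apply Finset.filter_congr
    intro e heG
    constructor
    · intro h
      refine ⟨h, ?_⟩
      by_contra hc
      have : e ∈ rt (uu a) G x := Finset.mem_filter.2 ⟨heG, by omega⟩
      rw [he] at this
      exact absurd this (Finset.notMem_empty e)
    · intro h
      exact h.1
  rw [h1, part_card hG m hm k x]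
  have h2 : (Finset.Ico k x ∩ Finset.Ico 0 (m : ℤ)).card ≤ ((m : ℤ) - k).toNat := by
    have h3 : Finset.Ico k x ∩ Finset.Ico 0 (m : ℤ) ⊆ Finset.Ico k m := by
      intro i hi
      rw [Finset.mem_inter, Finset.mem_Ico, Finset.mem_Ico] at hi
      rw [Finset.mem_Ico]
      omega
    have h4 := Finset.card_le_card h3
    rwa [Int.card_Ico] at h4
  have h5 := Sf_mono hf k x
  have h6 := hxr.2 k (by omega)
  omega

private theorem lf_glue {u : ℤ} {G G' : Finset Edge} {x y z : ℤ} (h1 : lf u G x = lf u G' x)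
    (h2 : pc u G x y = pc u G' x y) (h3 : pc u G y z = pc u G' y z) (h4 : rt u G z = rt u G' z) : G ⊆ G' := by
  intro e he
  by_cases c1 : kl u e < x
  · have : e ∈ lf u G x := Finset.mem_filter.2 ⟨he, c1⟩
    rw [h1] at this
    exact (Finset.mem_filter.1 this).1
  by_cases c2 : kl u e < y
  · have : e ∈ pc u G x y := Finset.mem_filter.2 ⟨he, by omega, c2⟩
    rw [h2] at this
    exact (Finset.mem_filter.1 this).1
  by_cases c3 : kl u e < z
  · have : e ∈ pc u G y z := Finset.mem_filter.2 ⟨he, by omega, c3⟩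
    rw [h3] at this
    exact (Finset.mem_filter.1 this).1
  · have : e ∈ rt u G z := Finset.mem_filter.2 ⟨he, by omega⟩
    rw [h4] at this
    exact (Finset.mem_filter.1 this).1

/-- A good pair with the three lines. -/
private structure GP (a : ℤ × ℤ) (m : ℕ) (l : ℤ) (t : ℕ) (P : Finset Edge × Finset Edge) (k : ℤ × ℤ × ℤ) : Prop where
  h1 : IsP a (vt a m l) P.1
  h2 : IsP a (vt a m (-l)) P.2
  nb : ¬ Bad (ex2 (uu a) P.1 P.2) t
  r1 : Reg (ex2 (uu a) P.1 P.2) k.1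
  rs : Reg (ex2 (uu a) P.1 P.2) k.2.1
  r2 : Reg (ex2 (uu a) P.1 P.2) k.2.2
  a1 : 13000 * (t : ℤ) ≤ k.1
  a2 : k.1 ≤ 13128 * (t : ℤ)
  a3 : (m : ℤ) - 13128 * t ≤ k.2.2
  a4 : k.2.2 ≤ (m : ℤ) - 13000 * t
  a5 : k.1 < k.2.1
  a6 : k.2.1 < k.2.2
  a7 : |lp a (vt a m l) P.1 k.2.1 - lp a (vt a m (-l)) P.2 k.2.1 - l| ≤ 270 * (t : ℤ)

private def lfM1 (a : ℤ × ℤ) (m n0 : ℕ) (l : ℤ) (P : Finset Edge × Finset Edge) (k : ℤ × ℤ × ℤ) : Finset Edge :=
  mix a m n0 P.1 P.2 k.1 k.2.1 k.2.2 (lp a (vt a m l) P.1 k.1) (lp a (vt a m l) P.1 k.2.1)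
    (lp a (vt a m (-l)) P.2 k.2.1) (lp a (vt a m (-l)) P.2 k.2.2) (-(-l))

private def lfM2 (a : ℤ × ℤ) (m n0 : ℕ) (l : ℤ) (P : Finset Edge × Finset Edge) (k : ℤ × ℤ × ℤ) : Finset Edge :=
  mix a m n0 P.2 P.1 k.1 k.2.1 k.2.2 (lp a (vt a m (-l)) P.2 k.1) (lp a (vt a m (-l)) P.2 k.2.1)
    (lp a (vt a m l) P.1 k.2.1) (lp a (vt a m l) P.1 k.2.2) (-l)

private def lfC (a : ℤ × ℤ) (m : ℕ) (l : ℤ) (P : Finset Edge × Finset Edge) (k : ℤ × ℤ × ℤ) : Fin 9 → ℤ :=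
  ![k.1, k.2.1, k.2.2, lp a (vt a m l) P.1 k.1, lp a (vt a m l) P.1 k.2.1, lp a (vt a m l) P.1 k.2.2,
    lp a (vt a m (-l)) P.2 k.1, lp a (vt a m (-l)) P.2 k.2.1, lp a (vt a m (-l)) P.2 k.2.2]

private def lfS (a : ℤ × ℤ) (m n0 : ℕ) (l : ℤ) (P : Finset Edge × Finset Edge) (k : ℤ × ℤ × ℤ) : Fin 6 → Finset Edge :=
  ![lfM1 a m n0 l P k, lfM2 a m n0 l P k, lf (uu a) P.1 k.1, lf (uu a) P.2 k.1, rt (uu a) P.1 k.2.2, rt (uu a) P.2 k.2.2]

private theorem GP.f1 {a : ℤ × ℤ} {P : Finset Edge × Finset Edge} :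
    ∀ i, ex (uu a) P.1 i ≤ ex2 (uu a) P.1 P.2 i := fun _ => Nat.le_add_right _ _

private theorem GP.f2 {a : ℤ × ℤ} {P : Finset Edge × Finset Edge} :
    ∀ i, ex (uu a) P.2 i ≤ ex2 (uu a) P.1 P.2 i := fun _ => Nat.le_add_left _ _

private theorem GP.code {a : ℤ × ℤ} {m : ℕ} {l : ℤ} {t : ℕ} {P : Finset Edge × Finset Edge} {k : ℤ × ℤ × ℤ} (ht : 1 ≤ t)
    (h : GP a m l t P k) : ∀ j, lfC a m l P k j ∈ Finset.Icc (-((m : ℤ) + 1)) ((m : ℤ) + 1) := by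
  obtain ⟨h1, h2, nb, r1, rs, r2, a1, a2, a3, a4, a5, a6, a7⟩ := h
  have u1 : uu (vt a m l) = uu a + 2 * m := vt_uu _ _ _
  have u2 : uu (vt a m (-l)) = uu a + 2 * m := vt_uu _ _ _
  have c1 := cone_a h1 m u1 GP.f1 r1 (by omega) (by omega)
  have c2 := cone_a h1 m u1 GP.f1 rs (by omega) (by omega)
  have c3 := cone_a h1 m u1 GP.f1 r2 (by omega) (by omega)
  have c4 := cone_a h2 m u2 GP.f2 r1 (by omega) (by omega)
  have c5 := cone_a h2 m u2 GP.f2 rs (by omega) (by omega)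
  have c6 := cone_a h2 m u2 GP.f2 r2 (by omega) (by omega)
  have hab : ∀ x k' : ℤ, 100 * |x| ≤ k' + 1 → k' ≤ m → 0 ≤ k' → -((m : ℤ) + 1) ≤ x ∧ x ≤ (m : ℤ) + 1 := by
    intro x k' hx hk hk0
    have h3 := le_abs_self x
    have h4 := neg_abs_le x
    constructor <;> omega
  have d1 := hab _ _ c1 (by omega) (by omega)
  have d2 := hab _ _ c2 (by omega) (by omega)
  have d3 := hab _ _ c3 (by omega) (by omega)
  have d4 := hab _ _ c4 (by omega) (by omega)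
  have d5 := hab _ _ c5 (by omega) (by omega)
  have d6 := hab _ _ c6 (by omega) (by omega)
  intro j
  rw [Finset.mem_Icc]
  fin_cases j
  · show -((m : ℤ) + 1) ≤ k.1 ∧ k.1 ≤ (m : ℤ) + 1
    constructor <;> omega
  · show -((m : ℤ) + 1) ≤ k.2.1 ∧ k.2.1 ≤ (m : ℤ) + 1
    constructor <;> omega
  · show -((m : ℤ) + 1) ≤ k.2.2 ∧ k.2.2 ≤ (m : ℤ) + 1
    constructor <;> omega
  · exact d1
  · exact d2
  · exact d3
  · exact d4
  · exact d5
  · exact d6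

private theorem GP.inj {a : ℤ × ℤ} {m n0 : ℕ} {l : ℤ} {t : ℕ} {P P' : Finset Edge × Finset Edge} {k k' : ℤ × ℤ × ℤ} (ht : 1 ≤ t)
    (hmn : m ≤ n0 + 2) (h : GP a m l t P k) (h' : GP a m l t P' k') (hC : lfC a m l P k = lfC a m l P' k')
    (hS : lfS a m n0 l P k = lfS a m n0 l P' k') : P = P' := by
  have k1 : k.1 = k'.1 := congrFun hC 0
  have k2 : k.2.1 = k'.2.1 := congrFun hC 1
  have k3 : k.2.2 = k'.2.2 := congrFun hC 2
  have hk : k = k' := Prod.ext k1 (Prod.ext k2 k3)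
  subst hk
  have e1 : lp a (vt a m l) P.1 k.1 = lp a (vt a m l) P'.1 k.1 := congrFun hC 3
  have e2 : lp a (vt a m l) P.1 k.2.1 = lp a (vt a m l) P'.1 k.2.1 := congrFun hC 4
  have e3 : lp a (vt a m l) P.1 k.2.2 = lp a (vt a m l) P'.1 k.2.2 := congrFun hC 5
  have e4 : lp a (vt a m (-l)) P.2 k.1 = lp a (vt a m (-l)) P'.2 k.1 := congrFun hC 6
  have e5 : lp a (vt a m (-l)) P.2 k.2.1 = lp a (vt a m (-l)) P'.2 k.2.1 := congrFun hC 7
  have e6 : lp a (vt a m (-l)) P.2 k.2.2 = lp a (vt a m (-l)) P'.2 k.2.2 := congrFun hC 8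
  have s1 : lfM1 a m n0 l P k = lfM1 a m n0 l P' k := congrFun hS 0
  have s2 : lfM2 a m n0 l P k = lfM2 a m n0 l P' k := congrFun hS 1
  have s3 : lf (uu a) P.1 k.1 = lf (uu a) P'.1 k.1 := congrFun hS 2
  have s4 : lf (uu a) P.2 k.1 = lf (uu a) P'.2 k.1 := congrFun hS 3
  have s5 : rt (uu a) P.1 k.2.2 = rt (uu a) P'.1 k.2.2 := congrFun hS 4
  have s6 : rt (uu a) P.2 k.2.2 = rt (uu a) P'.2 k.2.2 := congrFun hS 5
  have g1 := h.a1
  have g4 := h.a4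
  have d1 := mix_decode h.h1 h.h2 h'.h1 h'.h2 GP.f1 GP.f2 GP.f1 GP.f2 h.r1 h.rs h.r2 h'.r1 h'.rs h'.r2 (by omega) h.a5 h.a6
    (by omega) hmn e1 e2 e5 e6 s1
  have d2 := mix_decode h.h2 h.h1 h'.h2 h'.h1 GP.f2 GP.f1 GP.f2 GP.f1 h.r1 h.rs h.r2 h'.r1 h'.rs h'.r2 (by omega) h.a5 h.a6
    (by omega) hmn e4 e5 e2 e3 s2
  refine Prod.ext ?_ ?_
  · exact Finset.Subset.antisymm (lf_glue s3 d1.1 d2.2 s5) (lf_glue s3.symm d1.1.symm d2.2.symm s5.symm)
  · exact Finset.Subset.antisymm (lf_glue s4 d2.1 d1.2 s6) (lf_glue s4.symm d2.1.symm d1.2.symm s6.symm)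

/-- The numerical end. -/
private theorem lf_num (q : ℝ) (hq0 : 0 < q) (hq1 : q ≤ 1) (n m t : ℕ) (ht : 1 ≤ t) (hn : 1 ≤ n) (hT : 4 * n ^ 2 ≤ 2 ^ t)
    (hm : m ≤ 2 * n + 2) :
    2 * ((1 / q) ^ (2200 * t) * Real.exp (14 + 25000 * t) * (36 ^ (160000 * t) * (81 * (2 * (m : ℝ) + 3) ^ 9))) ≤
      (36 / q) ^ (200000 * t) := by
  have h36 : (1 : ℝ) ≤ 36 := by norm_num
  have e1 : Real.exp (14 + 25000 * t) ≤ 36 ^ (25014 * t) := by
    have e2 : Real.exp 1 ≤ 36 := by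
      have := Real.exp_one_lt_d9
      linarith
    have ht' : (1 : ℝ) ≤ t := by exact_mod_cast ht
    calc Real.exp (14 + 25000 * t) ≤ Real.exp (((25014 * t : ℕ) : ℝ) * 1) := by
          apply Real.exp_le_exp.2
          push_cast
          linarith
      _ = Real.exp 1 ^ (25014 * t) := by rw [Real.exp_nat_mul]
      _ ≤ 36 ^ (25014 * t) := pow_le_pow_left₀ (Real.exp_pos 1).le e2 _
  have e2 : (2 * (m : ℝ) + 3) ^ 9 ≤ 36 ^ (18 * t) := by
    have h1 : 2 * m + 3 ≤ 36 ^ t * 36 ^ t := by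
      have h2 : n ≤ 2 ^ t := by nlinarith
      have h3 : 2 ^ t ≤ 36 ^ t := Nat.pow_le_pow_left (by norm_num) t
      have h4 : 36 ^ 1 ≤ 36 ^ t := Nat.pow_le_pow_right (by norm_num) ht
      calc 2 * m + 3 ≤ 11 * n := by omega
        _ ≤ 36 ^ t * 36 ^ t := Nat.mul_le_mul (by omega) (h2.trans h3)
    have h2 : (2 * (m : ℝ) + 3) ≤ 36 ^ (2 * t) := by
      have h3 : ((2 * m + 3 : ℕ) : ℝ) ≤ ((36 ^ t * 36 ^ t : ℕ) : ℝ) := by exact_mod_cast h1
      push_cast at h3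
      rwa [← pow_add, ← two_mul] at h3
    calc (2 * (m : ℝ) + 3) ^ 9 ≤ (36 ^ (2 * t)) ^ 9 := pow_le_pow_left₀ (by positivity) h2 9
      _ = 36 ^ (18 * t) := by
        rw [← pow_mul]
        congr 1
        ring
  have e3 : (2 : ℝ) * 81 ≤ 36 ^ (2 * t) := by
    calc (2 : ℝ) * 81 ≤ 36 ^ 2 := by norm_num
      _ ≤ 36 ^ (2 * t) := pow_le_pow_right₀ h36 (by omega)
  have e4 : (1 / q) ^ (2200 * t) ≤ (1 / q) ^ (200000 * t) := by
    apply pow_le_pow_right₀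
    · rw [le_div_iff₀ hq0]
      linarith
    · omega
  have e5 : (1 / q) ^ (200000 * t) * ((36 : ℝ) ^ (25014 * t) * (36 ^ (160000 * t) * (36 ^ (2 * t) * 36 ^ (18 * t)))) ≤
      (36 / q) ^ (200000 * t) := by
    rw [← pow_add, ← pow_add, ← pow_add]
    have h1 : (36 / q) ^ (200000 * t) = (1 / q) ^ (200000 * t) * 36 ^ (200000 * t) := by
      rw [← mul_pow]
      congr 1
      ring
    rw [h1]
    apply mul_le_mul_of_nonneg_left _ (by positivity)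
    exact pow_le_pow_right₀ h36 (by omega)
  refine le_trans ?_ e5
  calc 2 * ((1 / q) ^ (2200 * t) * Real.exp (14 + 25000 * t) * (36 ^ (160000 * t) * (81 * (2 * (m : ℝ) + 3) ^ 9)))
      = (1 / q) ^ (2200 * t) * (Real.exp (14 + 25000 * t) * (36 ^ (160000 * t) * ((2 * 81) * (2 * (m : ℝ) + 3) ^ 9))) := by ring
    _ ≤ (1 / q) ^ (200000 * t) * (36 ^ (25014 * t) * (36 ^ (160000 * t) * (36 ^ (2 * t) * 36 ^ (18 * t)))) := by
      apply mul_le_mul e4 _ (by positivity) (by positivity)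
      apply mul_le_mul e1 _ (by positivity) (by positivity)
      apply mul_le_mul_of_nonneg_left _ (by positivity)
      exact mul_le_mul e3 e2 (by positivity) (by positivity)

/-- The bad pairs are negligible. -/
private theorem lf_bad (q : ℝ) (hq0 : 0 < q) (hq1 : 36 ^ 2000 * q ≤ 1) (n m t : ℕ) (ht : 1 ≤ t) (hn : 1 ≤ n)
    (hT : 4 * n ^ 2 ≤ 2 ^ t) (hm : m ≤ 2 * n + 2) :
    36 ^ 10 * ((m : ℝ) + 1) ^ 2 * (36 ^ 600 * q) ^ t ≤ 1 / 16 := by
  have h36 : (1 : ℝ) ≤ 36 := by norm_num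
  have h1 : ((m : ℝ) + 1) ^ 2 ≤ 7 * 2 ^ t := by
    have h2 : (m + 1) ^ 2 ≤ 7 * 2 ^ t := by
      have h3 : m + 1 ≤ 5 * n := by omega
      calc (m + 1) ^ 2 ≤ (5 * n) ^ 2 := Nat.pow_le_pow_left h3 2
        _ = 25 * n ^ 2 := by ring
        _ ≤ 7 * (4 * n ^ 2) := by nlinarith
        _ ≤ 7 * 2 ^ t := Nat.mul_le_mul_left _ hT
    exact_mod_cast h2
  have h2 : (36 : ℝ) ^ 1400 * (36 ^ 600 * q) ≤ 1 := by
    calc (36 : ℝ) ^ 1400 * (36 ^ 600 * q) = 36 ^ 2000 * q := by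
          rw [← mul_assoc, ← pow_add]
      _ ≤ 1 := hq1
  have h3 : ((36 : ℝ) ^ 1400) ^ t * (36 ^ 600 * q) ^ t ≤ 1 := by
    rw [← mul_pow]
    exact pow_le_one₀ (by positivity) h2
  have h4 : 16 * (36 ^ 10 * (7 * 2 ^ t)) ≤ ((36 : ℝ) ^ 1400) ^ t := by
    rw [← pow_mul]
    calc (16 : ℝ) * (36 ^ 10 * (7 * 2 ^ t)) ≤ 36 ^ 2 * (36 ^ 10 * 36 ^ t) := by
          have h5 : (2 : ℝ) ^ t ≤ 36 ^ t := pow_le_pow_left₀ (by norm_num) (by norm_num) t
          have h6 : (0 : ℝ) ≤ 36 ^ t := by positivity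
          nlinarith
      _ = 36 ^ (12 + t) := by
          rw [← pow_add, ← pow_add]
          congr 1
          ring
      _ ≤ 36 ^ (1400 * t) := pow_le_pow_right₀ h36 (by omega)
  have h5 : 0 ≤ (36 ^ 600 * q) ^ t := by positivity
  calc 36 ^ 10 * ((m : ℝ) + 1) ^ 2 * (36 ^ 600 * q) ^ t ≤ 36 ^ 10 * (7 * 2 ^ t) * (36 ^ 600 * q) ^ t := by
        apply mul_le_mul_of_nonneg_right _ h5
        exact mul_le_mul_of_nonneg_left h1 (by positivity)
    _ = (16 * (36 ^ 10 * (7 * 2 ^ t)) * (36 ^ 600 * q) ^ t) / 16 := by ring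
    _ ≤ (((36 : ℝ) ^ 1400) ^ t * (36 ^ 600 * q) ^ t) / 16 := by
        apply div_le_div_of_nonneg_right _ (by norm_num)
        exact mul_le_mul_of_nonneg_right h4 h5
    _ ≤ 1 / 16 := div_le_div_of_nonneg_right h3 (by norm_num)

private theorem lf_one (t c : ℕ) (h : c ≤ 40000 * t) : (1 : ℝ) ≤ 36 ^ (40000 * t) * (1 / 36) ^ c := by
  rw [one_div, inv_pow, ← div_eq_mul_inv, le_div_iff₀ (by positivity), one_mul]
  exact pow_le_pow_right₀ (by norm_num) h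

theorem lb (q : ℝ) (hq0 : 0 < q) (hq1 : 36 ^ 2000 * q ≤ 1) {n : ℕ} {a b : ℤ × ℤ} {n0 : ℕ} {D : Finset Edge} (hD : Dom n a b n0 D)
    (t : ℕ) (ht : 1 ≤ t) (hT : 4 * n ^ 2 ≤ 2 ^ t) (m : ℕ) (hmn : m ≤ n0 + 2) :
    Wst q m ^ 2 * (q ^ 2 / 2) ^ (2 * (n0 - m)) ≤ (36 / q) ^ (200000 * t) * ZP q D a b ^ 2 := by
  classical
  have hpow : ∀ j : ℕ, j ≤ 2000 → (36 : ℝ) ^ j * q ≤ 1 := by
    intro j hj
    refine le_trans ?_ hq1
    exact mul_le_mul_of_nonneg_right (pow_le_pow_right₀ (by norm_num) hj) hq0.le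
  have hq6 : q ≤ 1 / 10 ^ 6 := by
    rw [le_div_iff₀ (by positivity), mul_comm]
    refine le_trans (mul_le_mul_of_nonneg_right ?_ hq0.le) (hpow 6 (by norm_num))
    norm_num
  have hq1' : q ≤ 1 := hq6.trans (by norm_num)
  have hZ0 : 0 ≤ ZP q D a b := by
    unfold ZP
    exact Finset.sum_nonneg fun G _ => (omD_pos q hq0 D G).le
  by_cases hms : m < 39000 * t
  · refine (lb_short q hq0 hq6 hD t m ht hms hmn).trans ?_
    apply mul_le_mul_of_nonneg_right _ (by positivity)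
    have h1 : (36 : ℝ) ≤ 36 / q := by
      rw [le_div_iff₀ hq0]
      calc (36 : ℝ) * q ≤ 36 * 1 := mul_le_mul_of_nonneg_left hq1' (by norm_num)
        _ = 36 := mul_one _
    calc (36 : ℝ) ^ (160000 * t) ≤ 36 ^ (200000 * t) := pow_le_pow_right₀ (by norm_num) (by omega)
      _ ≤ (36 / q) ^ (200000 * t) := pow_le_pow_left₀ (by norm_num) h1 _
  rw [not_lt] at hms
  have hn1 : 1 ≤ n := by
    have h1 := hD.pos
    have h2 := hD.le
    omega
  have hm2 : m ≤ 2 * n + 2 := by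
    have h2 := hD.le
    omega
  obtain ⟨W, hW⟩ : ∃ W, W = Wst q m := ⟨_, rfl⟩
  have hW0 : 0 ≤ W := by
    rw [hW]
    have h1 := fam_le q hq0 hq6 a m 0 ∅ (fun G hG => absurd hG (Finset.notMem_empty G))
    rwa [Finset.sum_empty] at h1
  rw [← hW]
  obtain ⟨l, Q1, hQ1, hW1⟩ := exists_fam q hq0 hq6 a m
  obtain ⟨Q2, hQ2, hW2⟩ := sym_fam q hq0 hq6 a m l Q1 hQ1
  rw [← hW] at hW1
  obtain ⟨S, hS⟩ : ∃ S, S = ∑ G ∈ Q1, om q G := ⟨_, rfl⟩
  rw [← hS] at hW1 hW2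
  have hbv : b = vt a n0 0 := by
    rw [hD.hb]
    unfold vt
    simp
  -- the pairs
  obtain ⟨Pr, hPr⟩ : ∃ Pr, Pr = Q1 ×ˢ Q2 := ⟨_, rfl⟩
  have hsum : ∑ P ∈ Pr, om q P.1 * om q P.2 = S ^ 2 := by
    rw [hPr, Finset.sum_product]
    simp_rw [← Finset.mul_sum]
    rw [hW2, ← Finset.sum_mul, ← hS]
    ring
  obtain ⟨Gd, hGd⟩ : ∃ Gd, Gd = Pr.filter (fun P => ¬ Bad (ex2 (uu a) P.1 P.2) t) := ⟨_, rfl⟩
  have hbad : ∑ P ∈ Pr.filter (fun P => Bad (ex2 (uu a) P.1 P.2) t), om q P.1 * om q P.2 ≤ 1 / 16 * W ^ 2 := by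
    refine (trem q hq0 (hpow 600 (by norm_num)) a a rfl m l (-l) Q1 Q2 hQ1 hQ2 t ht _ ?_).trans ?_
    · intro P hP
      obtain ⟨h1, h2⟩ := Finset.mem_filter.1 hP
      rw [hPr, Finset.mem_product] at h1
      exact ⟨h1.1, h1.2, h2⟩
    · rw [← hW]
      exact mul_le_mul_of_nonneg_right (lf_bad q hq0 hq1 n m t ht hn1 hT hm2) (by positivity)
  have hgood : W ^ 2 ≤ 2 * ∑ P ∈ Gd, om q P.1 * om q P.2 := by
    have h1 := Finset.sum_filter_add_sum_filter_not Pr (fun P => Bad (ex2 (uu a) P.1 P.2) t) (fun P => om q P.1 * om q P.2)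
    rw [hsum, ← hGd] at h1
    have h2 : 9 * W ^ 2 ≤ 16 * S ^ 2 := by
      calc 9 * W ^ 2 = (3 * W) ^ 2 := by ring
        _ ≤ (4 * S) ^ 2 := pow_le_pow_left₀ (by positivity) hW1 2
        _ = 16 * S ^ 2 := by ring
    linarith only [h1, h2, hbad]
  -- the three lines
  have key : ∀ P : Finset Edge × Finset Edge, ∃ k : ℤ × ℤ × ℤ, P ∈ Gd → GP a m l t P k := by
    intro P
    by_cases hP : P ∈ Gd
    · rw [hGd, Finset.mem_filter, hPr, Finset.mem_product] at hP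
      obtain ⟨k1, ks, k2, r1, rs, r2, g1, g2, g3, g4, g5, g6, g7⟩ := kstar (hQ1 _ hP.1.1) (hQ2 _ hP.1.2) ht hP.2 hms
      exact ⟨(k1, ks, k2), fun _ => ⟨hQ1 _ hP.1.1, hQ2 _ hP.1.2, hP.2, r1, rs, r2, g1, g2, g3, g4, g5, g6, g7⟩⟩
    · exact ⟨(0, 0, 0), fun h => absurd h hP⟩
  choose kk hkk using key
  obtain ⟨K, hK⟩ : ∃ K : ℝ, K = (1 / q) ^ (2200 * t) * Real.exp (14 + 25000 * t) := ⟨_, rfl⟩
  have hK0 : 0 ≤ K := by
    rw [hK]
    positivity
  obtain ⟨c, hc⟩ : ∃ c : ℝ, c = (q ^ 2 / 2) ^ (2 * (n0 - m)) := ⟨_, rfl⟩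
  have hc0 : 0 ≤ c := by
    rw [hc]
    positivity
  rw [← hc]
  -- the weight
  obtain ⟨w, hw⟩ : ∃ w : Fin 6 → Finset Edge → ℝ, w = ![omD q D, omD q D, fun A => (1 / 36) ^ A.card, fun A => (1 / 36) ^ A.card,
    fun A => (1 / 36) ^ A.card, fun A => (1 / 36) ^ A.card] := ⟨_, rfl⟩
  have hw0 : ∀ j x, 0 ≤ w j x := by
    intro j x
    rw [hw]
    fin_cases j
    · exact (omD_pos q hq0 D x).le
    · exact (omD_pos q hq0 D x).le
    · show (0 : ℝ) ≤ (1 / 36) ^ x.card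
      positivity
    · show (0 : ℝ) ≤ (1 / 36) ^ x.card
      positivity
    · show (0 : ℝ) ≤ (1 / 36) ^ x.card
      positivity
    · show (0 : ℝ) ≤ (1 / 36) ^ x.card
      positivity
  have hprod : ∀ P, ∏ j, w j (lfS a m n0 l P (kk P) j) =
      omD q D (lfM1 a m n0 l P (kk P)) * omD q D (lfM2 a m n0 l P (kk P)) * (1 / 36) ^ (lf (uu a) P.1 (kk P).1).card *
        (1 / 36) ^ (lf (uu a) P.2 (kk P).1).card * (1 / 36) ^ (rt (uu a) P.1 (kk P).2.2).card *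
        (1 / 36) ^ (rt (uu a) P.2 (kk P).2.2).card := by
    intro P
    rw [Fin.prod_univ_six, hw]
    rfl
  have hone : ∀ P ∈ Gd, om q P.1 * om q P.2 * c ≤ K * (36 ^ (160000 * t) * ∏ j, w j (lfS a m n0 l P (kk P) j)) := by
    intro P hP
    have h := hkk P hP
    have hmw := mix_weight q hq0 hq6 hD h.h1 h.h2 h.r1 h.rs h.r2 ht hT h.a1 h.a2 h.a5 h.a6 h.a4 h.a3 hmn h.a7
    rw [← hc, ← hK] at hmw
    refine hmw.trans ?_
    apply mul_le_mul_of_nonneg_left _ hK0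
    rw [hprod]
    have g1 := h.a1
    have g4 := h.a4
    have g5 := h.a5
    have g6 := h.a6
    have u1 : uu (vt a m l) = uu a + 2 * m := vt_uu _ _ _
    have u2 : uu (vt a m (-l)) = uu a + 2 * m := vt_uu _ _ _
    have b1 := lf_one t _ (lf_lf_card h.h1 u1 GP.f1 (lf_fsup _ _ _) ht h.nb (by omega) h.a2)
    have b2 := lf_one t _ (lf_lf_card h.h2 u2 GP.f2 (lf_fsup _ _ _) ht h.nb (by omega) h.a2)
    have b3 := lf_one t _ (lf_rt_card h.h1 u1 GP.f1 (lf_fsup _ _ _) ht h.nb (by omega) h.a3)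
    have b4 := lf_one t _ (lf_rt_card h.h2 u2 GP.f2 (lf_fsup _ _ _) ht h.nb (by omega) h.a3)
    have p1 := (omD_pos q hq0 D (lfM1 a m n0 l P (kk P))).le
    have p2 := (omD_pos q hq0 D (lfM2 a m n0 l P (kk P))).le
    have hpp := mul_nonneg p1 p2
    have b12 := one_le_mul_of_one_le_of_one_le b1 b2
    have b34 := one_le_mul_of_one_le_of_one_le b3 b4
    have b := one_le_mul_of_one_le_of_one_le b12 b34
    have hfin := mul_le_mul_of_nonneg_left b hpp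
    rw [mul_one] at hfin
    refine hfin.trans (le_of_eq ?_)
    have h4 : (36 : ℝ) ^ (160000 * t) = 36 ^ (40000 * t) * 36 ^ (40000 * t) * (36 ^ (40000 * t) * 36 ^ (40000 * t)) := by
      rw [← pow_add, ← pow_add]
      congr 1
      ring
    rw [h4]
    ring
  -- the families
  obtain ⟨X, hX⟩ : ∃ X : Fin 6 → Finset (Finset Edge), X = ![PD D a b, PD D a b, Gd.image (fun P => lf (uu a) P.1 (kk P).1),
    Gd.image (fun P => lf (uu a) P.2 (kk P).1), Gd.image (fun P => rt (uu a) P.1 (kk P).2.2),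
    Gd.image (fun P => rt (uu a) P.2 (kk P).2.2)] := ⟨_, rfl⟩
  have hmem : ∀ P ∈ Gd, ∀ j, lfS a m n0 l P (kk P) j ∈ X j := by
    intro P hP j
    have h := hkk P hP
    have g1 := h.a1
    have g4 := h.a4
    have g7 := h.a7
    rw [hX]
    fin_cases j
    · show lfM1 a m n0 l P (kk P) ∈ PD D a b
      rw [mem_PD]
      refine ⟨mix_sub hD h.h1 h.h2 GP.f1 GP.f2 h.r1 h.rs h.r2 ht h.a1 h.a5 h.a6 h.a4 hmn ?_, ?_⟩
      · rw [abs_le] at g7 ⊢
        constructor <;> linarith [g7.1, g7.2]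
      · rw [hbv]
        exact mix_isP h.h1 h.h2 GP.f1 GP.f2 h.r1 h.rs h.r2 (by omega) h.a5 h.a6 (by omega) hmn
    · show lfM2 a m n0 l P (kk P) ∈ PD D a b
      rw [mem_PD]
      refine ⟨mix_sub hD h.h2 h.h1 GP.f2 GP.f1 h.r1 h.rs h.r2 ht h.a1 h.a5 h.a6 h.a4 hmn ?_, ?_⟩
      · rw [abs_le] at g7 ⊢
        constructor <;> linarith [g7.1, g7.2]
      · rw [hbv]
        exact mix_isP h.h2 h.h1 GP.f2 GP.f1 h.r1 h.rs h.r2 (by omega) h.a5 h.a6 (by omega) hmn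
    · exact Finset.mem_image_of_mem (fun P => lf (uu a) P.1 (kk P).1) hP
    · exact Finset.mem_image_of_mem (fun P => lf (uu a) P.2 (kk P).1) hP
    · exact Finset.mem_image_of_mem (fun P => rt (uu a) P.1 (kk P).2.2) hP
    · exact Finset.mem_image_of_mem (fun P => rt (uu a) P.2 (kk P).2.2) hP
  have hXsum : ∏ j, ∑ x ∈ X j, w j x ≤ 81 * ZP q D a b ^ 2 := by
    rw [Fin.prod_univ_six, hw, hX]
    have s3 : ∑ A ∈ Gd.image (fun P => lf (uu a) P.1 (kk P).1), ((1 : ℝ) / 36) ^ A.card ≤ 3 := by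
      apply path_sum a
      intro A hA
      obtain ⟨P, hP, rfl⟩ := Finset.mem_image.1 hA
      have h := hkk P hP
      have g1 := h.a1
      have g4 := h.a4
      have g5 := h.a5
      have g6 := h.a6
      exact ⟨_, (cut h.h1 m (vt_uu _ _ _) _ (lf_HC GP.f1 h.r1) (by omega) (by omega)).1⟩
    have s4 : ∑ A ∈ Gd.image (fun P => lf (uu a) P.2 (kk P).1), ((1 : ℝ) / 36) ^ A.card ≤ 3 := by
      apply path_sum a
      intro A hA
      obtain ⟨P, hP, rfl⟩ := Finset.mem_image.1 hA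
      have h := hkk P hP
      have g1 := h.a1
      have g4 := h.a4
      have g5 := h.a5
      have g6 := h.a6
      exact ⟨_, (cut h.h2 m (vt_uu _ _ _) _ (lf_HC GP.f2 h.r1) (by omega) (by omega)).1⟩
    have s5 : ∑ A ∈ Gd.image (fun P => rt (uu a) P.1 (kk P).2.2), ((1 : ℝ) / 36) ^ A.card ≤ 3 := by
      apply path_sum_end (vt a m l)
      intro A hA
      obtain ⟨P, hP, rfl⟩ := Finset.mem_image.1 hA
      have h := hkk P hP
      have g1 := h.a1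
      have g4 := h.a4
      have g5 := h.a5
      have g6 := h.a6
      exact ⟨_, (cut h.h1 m (vt_uu _ _ _) _ (lf_HC GP.f1 h.r2) (by omega) (by omega)).2⟩
    have s6 : ∑ A ∈ Gd.image (fun P => rt (uu a) P.2 (kk P).2.2), ((1 : ℝ) / 36) ^ A.card ≤ 3 := by
      apply path_sum_end (vt a m (-l))
      intro A hA
      obtain ⟨P, hP, rfl⟩ := Finset.mem_image.1 hA
      have h := hkk P hP
      have g1 := h.a1
      have g4 := h.a4
      have g5 := h.a5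
      have g6 := h.a6
      exact ⟨_, (cut h.h2 m (vt_uu _ _ _) _ (lf_HC GP.f2 h.r2) (by omega) (by omega)).2⟩
    have n3 : 0 ≤ ∑ A ∈ Gd.image (fun P => lf (uu a) P.1 (kk P).1), ((1 : ℝ) / 36) ^ A.card :=
      Finset.sum_nonneg fun _ _ => by positivity
    have n4 : 0 ≤ ∑ A ∈ Gd.image (fun P => lf (uu a) P.2 (kk P).1), ((1 : ℝ) / 36) ^ A.card :=
      Finset.sum_nonneg fun _ _ => by positivity
    have n5 : 0 ≤ ∑ A ∈ Gd.image (fun P => rt (uu a) P.1 (kk P).2.2), ((1 : ℝ) / 36) ^ A.card :=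
      Finset.sum_nonneg fun _ _ => by positivity
    have n6 : 0 ≤ ∑ A ∈ Gd.image (fun P => rt (uu a) P.2 (kk P).2.2), ((1 : ℝ) / 36) ^ A.card :=
      Finset.sum_nonneg fun _ _ => by positivity
    show (∑ G ∈ PD D a b, omD q D G) * (∑ G ∈ PD D a b, omD q D G) *
      (∑ A ∈ Gd.image (fun P => lf (uu a) P.1 (kk P).1), ((1 : ℝ) / 36) ^ A.card) *
      (∑ A ∈ Gd.image (fun P => lf (uu a) P.2 (kk P).1), ((1 : ℝ) / 36) ^ A.card) *
      (∑ A ∈ Gd.image (fun P => rt (uu a) P.1 (kk P).2.2), ((1 : ℝ) / 36) ^ A.card) *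
      (∑ A ∈ Gd.image (fun P => rt (uu a) P.2 (kk P).2.2), ((1 : ℝ) / 36) ^ A.card) ≤ 81 * ZP q D a b ^ 2
    have hZ : ∑ G ∈ PD D a b, omD q D G = ZP q D a b := rfl
    rw [hZ]
    calc _ ≤ ZP q D a b * ZP q D a b * 3 * 3 * 3 * 3 := by
          apply mul_le_mul _ s6 n6 (by positivity)
          apply mul_le_mul _ s5 n5 (by positivity)
          apply mul_le_mul _ s4 n4 (by positivity)
          exact mul_le_mul_of_nonneg_left s3 (by positivity)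
      _ = 81 * ZP q D a b ^ 2 := by ring
  -- the sum over the codes
  obtain ⟨R, hR⟩ : ∃ R : Finset (Fin 9 → ℤ), R = Fintype.piFinset (fun _ => Finset.Icc (-((m : ℤ) + 1)) ((m : ℤ) + 1)) := ⟨_, rfl⟩
  have hmain : ∑ P ∈ Gd, ∏ j, w j (lfS a m n0 l P (kk P) j) ≤ (2 * (m : ℝ) + 3) ^ 9 * (81 * ZP q D a b ^ 2) := by
    rw [← Finset.sum_fiberwise_of_maps_to (s := Gd) (t := R) (g := fun P => lfC a m l P (kk P)) (fun P hP => by
      rw [hR]
      exact Fintype.mem_piFinset.2 ((hkk P hP).code ht))]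
    have hfib : ∀ co ∈ R, ∑ P ∈ Gd.filter (fun P => lfC a m l P (kk P) = co), ∏ j, w j (lfS a m n0 l P (kk P) j) ≤
        81 * ZP q D a b ^ 2 := by
      intro co _
      refine (lf_prod _ (fun P => lfS a m n0 l P (kk P)) X w hw0 ?_ ?_).trans hXsum
      · intro P hP P' hP' he
        have h1 := Finset.mem_filter.1 (Finset.mem_coe.1 hP)
        have h2 := Finset.mem_filter.1 (Finset.mem_coe.1 hP')
        exact (hkk P h1.1).inj ht hmn (hkk P' h2.1) (h1.2.trans h2.2.symm) he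
      · intro P hP
        exact hmem P (Finset.mem_filter.1 hP).1
    refine (Finset.sum_le_sum hfib).trans ?_
    rw [Finset.sum_const, nsmul_eq_mul, hR, Fintype.card_piFinset_const, Int.card_Icc]
    apply le_of_eq
    congr 1
    have h3 : ((m : ℤ) + 1 + 1 - -((m : ℤ) + 1)).toNat = 2 * m + 3 := by omega
    rw [h3]
    push_cast
    ring
  have hnum := lf_num q hq0 hq1' n m t ht hn1 hT hm2
  rw [← hK] at hnum
  calc W ^ 2 * c ≤ (2 * ∑ P ∈ Gd, om q P.1 * om q P.2) * c := mul_le_mul_of_nonneg_right hgood hc0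
    _ = 2 * ∑ P ∈ Gd, om q P.1 * om q P.2 * c := by rw [mul_assoc, Finset.sum_mul]
    _ ≤ 2 * ∑ P ∈ Gd, K * (36 ^ (160000 * t) * ∏ j, w j (lfS a m n0 l P (kk P) j)) :=
        mul_le_mul_of_nonneg_left (Finset.sum_le_sum hone) (by norm_num)
    _ = 2 * (K * (36 ^ (160000 * t) * ∑ P ∈ Gd, ∏ j, w j (lfS a m n0 l P (kk P) j))) := by
        rw [← Finset.mul_sum, ← Finset.mul_sum]
    _ ≤ 2 * (K * (36 ^ (160000 * t) * ((2 * (m : ℝ) + 3) ^ 9 * (81 * ZP q D a b ^ 2)))) := by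
        apply mul_le_mul_of_nonneg_left _ (by norm_num)
        apply mul_le_mul_of_nonneg_left _ hK0
        exact mul_le_mul_of_nonneg_left hmain (by positivity)
    _ = (2 * (K * (36 ^ (160000 * t) * (81 * (2 * (m : ℝ) + 3) ^ 9)))) * ZP q D a b ^ 2 := by ring
    _ ≤ (36 / q) ^ (200000 * t) * ZP q D a b ^ 2 := mul_le_mul_of_nonneg_right hnum (by positivity)

end

end Pool.Agent.H40.WM
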