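import Mathlib
import Pool.Agent.H40.WM.TDefs
import Pool.Agent.H40.WM.TPt
import Pool.Agent.H40.WM.IRis

/-!
# TUa: structure of a pair of paths in `D` with respect to the regular indices of `f = ex2`

`X, Y` paths from `a` to `b`, `uu b = uu a + 2 n0`.  Observation (O): if `Cons f x y` and `1 ≤ Sf f x y` then `0 < y` and `x < n0` (a regular `y ≤ 0` is half clean for `X` and `Y`, so both have no edges left of `y`, `cut_left`, and `ex` vanishes there;
`cut_right` for `x ≥ n0`).
* `ua_none` (no regular index in `[0,n0]`): let `x` be the largest regular index `≤ 0` (so `x < 0`) and `y` the smallest regular index `≥ 0`, so `y > n0` (`exists_reg_le`, `exists_reg_ge`): consecutive.  No edges left of `x` and right of `y`, so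
  `|X| + |Y| = 4 n0 + Sf f x y` (`pc_card`), `e := Sf f x y`, and `n0 ≤ y - x - 1 ≤ 128 e` (`rise`).  A bad stretch `(x',y')` with `Sf ≥ t ≥ 1` has `y' > 0`, `x' < n0`, so it is `(x,y)`: `t ≤ e`.
* `ua_some` (`k1` = first, `k2` = last regular index in `[0,n0]`): `e_l := |lf X k1| + |lf Y k1| - 4 k1 = ` excess left of `k1`.  If `k1 = 0`: `e_l = 0`.  If `k1 > 0`: the largest regular `x < k1` is `< 0`, `(x,k1)` consecutive, nothing left of `x`:
  `e_l = Sf f x k1`, `k1 ≤ k1 - x - 1 ≤ 128 e_l`.  The same on the right.  A bad stretch `(x,y)`: `y ≤ k1` (then `y = k1`, `x < 0`, `Sf = e_l`), or `x ≥ k2` (`Sf = e_r`), or `k1 ≤ x < y ≤ k2`: then `(x - k1, y - k1)` is a bad stretch of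
  `g = ex2 (uu a + 2 k1) (pc X k1 k2) (pc Y k1 k2)`, `g i = f (i + k1)` for `k1 ≤ i + k1 < k2` and `0` otherwise (`ex_pc`, `ex_base`): `g ≤ f (· + k1)` so regular indices of `f` (shifted) are regular for `g`; and a non regular index `z` of `f` with
  `x < z < y` is not regular for `g` (the interval `[z,y')` or `[x',z)` violating the condition can be shrunk to lie in `[x,y]` because `x`, `y` are regular for `f`, and `f = g(· - k1)` on `[x,y)`).
-/

set_option autoImplicit false

namespace Pool.Agent.H40.WM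

open Pool.Agent.H40.SQ

noncomputable section

private theorem tua_ex_left {u y : ℤ} {G : Finset Edge} (h : lf u G y = ∅) {i : ℤ} (hi : i < y) : ex u G i = 0 := by
  unfold ex
  have h1 : G.filter (fun e => kl u e = i ∧ Wr u e) = ∅ := by
    rw [Finset.filter_eq_empty_iff]
    intro e he hc
    have h2 : e ∈ lf u G y := by
      unfold lf
      rw [Finset.mem_filter]
      exact ⟨he, by omega⟩
    rw [h] at h2
    exact Finset.notMem_empty _ h2
  rw [h1]
  simp

private theorem tua_ex_right {u y : ℤ} {G : Finset Edge} (h : rt u G y = ∅) {i : ℤ} (hi : y ≤ i) : ex u G i = 0 := by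
  unfold ex
  have h1 : G.filter (fun e => kl u e = i ∧ Wr u e) = ∅ := by
    rw [Finset.filter_eq_empty_iff]
    intro e he hc
    have h2 : e ∈ rt u G y := by
      unfold rt
      rw [Finset.mem_filter]
      exact ⟨he, by omega⟩
    rw [h] at h2
    exact Finset.notMem_empty _ h2
  rw [h1]
  simp

private theorem tua_fsup (u : ℤ) (X Y : Finset Edge) : FSup (ex2 u X Y) := by
  obtain ⟨N1, hN1⟩ := ex_fsup u X
  obtain ⟨N2, hN2⟩ := ex_fsup u Y
  refine ⟨max N1 N2, fun i hi => ?_⟩
  have e1 := hN1 i (lt_of_le_of_lt (le_max_left _ _) hi)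
  have e2 := hN2 i (lt_of_le_of_lt (le_max_right _ _) hi)
  unfold ex2
  rw [e1, e2]

private theorem tua_HC {u : ℤ} {X Y : Finset Edge} {k : ℤ} (h : Reg (ex2 u X Y) k) : HC u X k ∧ HC u Y k := by
  obtain ⟨h1, h2⟩ := reg_zero h
  unfold ex2 at h1 h2
  exact ⟨HC_of_ex (by omega) (by omega), HC_of_ex (by omega) (by omega)⟩

private theorem tua_Sf2 (u : ℤ) (X Y : Finset Edge) (x y : ℤ) :
    Sf (ex2 u X Y) x y = Sf (ex u X) x y + Sf (ex u Y) x y := by
  unfold Sf
  rw [← Finset.sum_add_distrib]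
  rfl

private theorem tua_zero {f : ℤ → ℕ} {x y : ℤ} (h : ∀ i, x ≤ i → i < y → f i = 0) : Sf f x y = 0 := by
  unfold Sf
  refine Finset.sum_eq_zero fun i hi => ?_
  rw [Finset.mem_Ico] at hi
  exact h i hi.1 hi.2

private theorem tua_mono {f : ℤ → ℕ} {x y x' y' : ℤ} (h1 : x' ≤ x) (h2 : y ≤ y') : Sf f x y ≤ Sf f x' y' := by
  unfold Sf
  refine Finset.sum_le_sum_of_subset_of_nonneg ?_ fun _ _ _ => Nat.zero_le _
  intro i hi
  rw [Finset.mem_Ico] at hi ⊢
  omega

private theorem tua_shift {f g : ℤ → ℕ} {x y c : ℤ} (h : ∀ i, x ≤ i → i < y → g (i - c) = f i) :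
    Sf g (x - c) (y - c) = Sf f x y := by
  unfold Sf
  refine Finset.sum_nbij' (fun i => i + c) (fun i => i - c) ?_ ?_ ?_ ?_ ?_
  · intro i hi
    rw [Finset.mem_Ico] at hi ⊢
    omega
  · intro i hi
    rw [Finset.mem_Ico] at hi ⊢
    omega
  · intro i _
    ring
  · intro i _
    ring
  · intro i hi
    rw [Finset.mem_Ico] at hi
    rw [← h (i + c) (by omega) (by omega)]
    congr 1
    ring

theorem ua_none {a b : ℤ × ℤ} {X Y : Finset Edge} (hX : IsP a b X) (hY : IsP a b Y) (n0 : ℕ) (hn0 : 1 ≤ n0) (hm : uu b = uu a + 2 * n0)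
    (h : ∀ k : ℤ, 0 ≤ k → k ≤ n0 → ¬ Reg (ex2 (uu a) X Y) k) (t : ℕ) :
    ∃ e : ℕ, X.card + Y.card = 4 * n0 + e ∧ n0 ≤ 128 * e ∧ (t = 0 ∨ Bad (ex2 (uu a) X Y) t → t ≤ e) := by
  have hfs := tua_fsup (uu a) X Y
  obtain ⟨x, hx1, hx2, hx3⟩ := exists_reg_le hfs 0
  obtain ⟨y, hy1, hy2, hy3⟩ := exists_reg_ge hfs 0
  have hx0 : x < 0 := by
    by_contra hcon
    exact h x (by omega) (by omega) hx2
  have hyn : (n0 : ℤ) < y := by
    by_contra hcon
    exact h y hy1 (by omega) hy2
  have hc : Cons (ex2 (uu a) X Y) x y := by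
    refine ⟨hx2, hy2, by omega, fun z hz hz' => ?_⟩
    rcases le_total z 0 with h0 | h0
    · exact hx3 z hz h0
    · exact hy3 z h0 hz'
  have hxc := tua_HC hx2
  have hyc := tua_HC hy2
  have lX := cut_left hX n0 hm x hxc.1 hx1
  have lY := cut_left hY n0 hm x hxc.2 hx1
  have rX := cut_right hX n0 hm y hyc.1 hyn.le
  have rY := cut_right hY n0 hm y hyc.2 hyn.le
  have hpc : ∀ G : Finset Edge, lf (uu a) G x = ∅ → rt (uu a) G y = ∅ → pc (uu a) G x y = G := by
    intro G h1 h2
    unfold pc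
    rw [Finset.filter_eq_self]
    intro e he
    constructor
    · by_contra hcon
      have h3 : e ∈ lf (uu a) G x := by
        unfold lf
        rw [Finset.mem_filter]
        exact ⟨he, by omega⟩
      rw [h1] at h3
      exact Finset.notMem_empty _ h3
    · by_contra hcon
      have h3 : e ∈ rt (uu a) G y := by
        unfold rt
        rw [Finset.mem_filter]
        exact ⟨he, by omega⟩
      rw [h2] at h3
      exact Finset.notMem_empty _ h3
  have cX := pc_card hX n0 hm (x := x) (y := y) (by omega)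
  have cY := pc_card hY n0 hm (x := x) (y := y) (by omega)
  rw [hpc X lX rX] at cX
  rw [hpc Y lY rY] at cY
  have hS := tua_Sf2 (uu a) X Y x y
  have hr := rise hc
  refine ⟨Sf (ex2 (uu a) X Y) x y, ?_, ?_, ?_⟩
  · omega
  · omega
  · rintro (h0 | ⟨x', y', hc', ht⟩)
    · omega
    · refine ht.trans ?_
      have hzl : ∀ i, i < x → ex2 (uu a) X Y i = 0 := by
        intro i hi
        unfold ex2
        rw [tua_ex_left lX hi, tua_ex_left lY hi]
      have hzr : ∀ i, y ≤ i → ex2 (uu a) X Y i = 0 := by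
        intro i hi
        unfold ex2
        rw [tua_ex_right rX hi, tua_ex_right rY hi]
      rcases lt_trichotomy x' x with h1 | h1 | h1
      · have h2 : y' ≤ x := by
          by_contra hcon
          exact hc'.2.2.2 x h1 (by omega) hx2
        rw [tua_zero fun i _ hi => hzl i (by omega)]
        exact Nat.zero_le _
      · have h2 : y' = y := by
          rcases lt_trichotomy y' y with h3 | h3 | h3
          · exact absurd hc'.2.1 (hc.2.2.2 y' (by have := hc'.2.2.1; omega) h3)
          · exact h3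
          · exact absurd hy2 (hc'.2.2.2 y (by omega) h3)
        rw [h1, h2]
      · have h2 : y ≤ x' := by
          by_contra hcon
          exact hc.2.2.2 x' h1 (by omega) hc'.1
        rw [tua_zero fun i hi _ => hzr i (by omega)]
        exact Nat.zero_le _

theorem ua_some {a b : ℤ × ℤ} {X Y : Finset Edge} (hX : IsP a b X) (hY : IsP a b Y) (n0 : ℕ) (hn0 : 1 ≤ n0) (hm : uu b = uu a + 2 * n0)
    (k1 k2 : ℕ) (h12 : k1 ≤ k2) (h2 : k2 ≤ n0) (hk1 : Reg (ex2 (uu a) X Y) k1) (hk2 : Reg (ex2 (uu a) X Y) k2)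
    (hf : ∀ k : ℤ, 0 ≤ k → k < k1 → ¬ Reg (ex2 (uu a) X Y) k) (hl : ∀ k : ℤ, k2 < k → k ≤ n0 → ¬ Reg (ex2 (uu a) X Y) k) (t : ℕ) :
    ∃ el er : ℕ, (lf (uu a) X k1).card + (lf (uu a) Y k1).card = 4 * k1 + el ∧ k1 ≤ 128 * el ∧
      (rt (uu a) X k2).card + (rt (uu a) Y k2).card = 4 * (n0 - k2) + er ∧ n0 - k2 ≤ 128 * er ∧
      (t = 0 ∨ Bad (ex2 (uu a) X Y) t → t ≤ el ∨ t ≤ er ∨
        (1 ≤ t ∧ Bad (ex2 (uu a + 2 * k1) (pc (uu a) X k1 k2) (pc (uu a) Y k1 k2)) t)) := by
  have hfs := tua_fsup (uu a) X Y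
  obtain ⟨N1, hN1a, hN1b, hN1⟩ := lf_card hX n0 hm k1
  obtain ⟨N2, hN2a, hN2b, hN2⟩ := lf_card hY n0 hm k1
  obtain ⟨N3, hN3a, hN3b, hN3⟩ := rt_card hX n0 hm k2
  obtain ⟨N4, hN4a, hN4b, hN4⟩ := rt_card hY n0 hm k2
  set f := ex2 (uu a) X Y with hfdef
  have hL : ∀ N : ℤ, max N1 N2 ≤ N → (((lf (uu a) X k1).card + (lf (uu a) Y k1).card : ℕ) : ℤ) = 4 * k1 + Sf f (-N) k1 := by
    intro N hN
    have e1 := hN1 N ((le_max_left _ _).trans hN)
    have e2 := hN2 N ((le_max_right _ _).trans hN)
    rw [hfdef, tua_Sf2]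
    push_cast
    omega
  have hR : ∀ N : ℤ, max N3 N4 ≤ N → (((rt (uu a) X k2).card + (rt (uu a) Y k2).card : ℕ) : ℤ) = 4 * (n0 - k2) + Sf f k2 N := by
    intro N hN
    have e1 := hN3 N ((le_max_left _ _).trans hN)
    have e2 := hN4 N ((le_max_right _ _).trans hN)
    rw [hfdef, tua_Sf2]
    push_cast
    omega
  have hLeq : ∀ x y : ℤ, y ≤ k1 → Sf f x y ≤ Sf f (-(max N1 N2)) k1 := by
    intro x y hy
    have e1 := hL _ (le_max_left (max N1 N2) (-x))
    have e2 := hL _ le_rfl
    have e3 : Sf f x y ≤ Sf f (-(max (max N1 N2) (-x))) k1 :=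
      tua_mono (by have := le_max_right (max N1 N2) (-x); omega) hy
    omega
  have hReq : ∀ x y : ℤ, k2 ≤ x → Sf f x y ≤ Sf f k2 (max N3 N4) := by
    intro x y hx
    have e1 := hR _ (le_max_left (max N3 N4) y)
    have e2 := hR _ le_rfl
    have e3 : Sf f x y ≤ Sf f k2 (max (max N3 N4) y) := tua_mono hx (le_max_right _ _)
    omega
  refine ⟨Sf f (-(max N1 N2)) k1, Sf f k2 (max N3 N4), ?_, ?_, ?_, ?_, ?_⟩
  · have e1 := hL _ le_rfl
    exact_mod_cast e1
  · rcases Nat.eq_zero_or_pos k1 with h0 | h0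
    · omega
    obtain ⟨x, hx1, hx2, hx3⟩ := exists_reg_le hfs ((k1 : ℤ) - 1)
    have hx0 : x < 0 := by
      by_contra hcon
      exact hf x (by omega) (by omega) hx2
    have hc : Cons f x k1 := ⟨hx2, hk1, by omega, fun z hz hz' => hx3 z hz (by omega)⟩
    have h3 := rise hc
    have h4 := hLeq x k1 le_rfl
    omega
  · have e1 := hR _ le_rfl
    have e2 : ((n0 - k2 : ℕ) : ℤ) = n0 - k2 := Int.ofNat_sub h2
    rw [← e2] at e1
    exact_mod_cast e1
  · rcases h2.eq_or_lt with h0 | h0
    · omega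
    obtain ⟨y, hy1, hy2, hy3⟩ := exists_reg_ge hfs ((k2 : ℤ) + 1)
    have hy0 : (n0 : ℤ) < y := by
      by_contra hcon
      exact hl y (by omega) (by omega) hy2
    have hc : Cons f k2 y := ⟨hk2, hy2, by omega, fun z hz hz' => hy3 z (by omega) hz'⟩
    have h3 := rise hc
    have h4 := hReq k2 y le_rfl
    omega
  · rintro (h0 | ⟨x', y', hc', ht⟩)
    · left
      omega
    rcases Nat.eq_zero_or_pos t with ht0 | ht0
    · left
      omega
    rcases le_or_gt y' k1 with c1 | c1
    · left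
      exact ht.trans (hLeq x' y' c1)
    rcases le_or_gt (k2 : ℤ) x' with c2 | c2
    · right; left
      exact ht.trans (hReq x' y' c2)
    right; right
    have c3 : (k1 : ℤ) ≤ x' := by
      by_contra hcon
      exact hc'.2.2.2 k1 (by omega) c1 hk1
    have c4 : y' ≤ (k2 : ℤ) := by
      by_contra hcon
      exact hc'.2.2.2 k2 c2 (by omega) hk2
    have hlt := hc'.2.2.1
    refine ⟨ht0, x' - k1, y' - k1, ?_, ?_⟩
    all_goals
      obtain ⟨g, hg⟩ : ∃ g, g = ex2 (uu a + 2 * k1) (pc (uu a) X k1 k2) (pc (uu a) Y k1 k2) := ⟨_, rfl⟩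
      rw [← hg]
      have hgi : ∀ i : ℤ, g (i - k1) = if (k1 : ℤ) ≤ i ∧ i < k2 then f i else 0 := by
        intro i
        rw [hg, hfdef]
        unfold ex2
        rw [ex_base, ex_base, sub_add_cancel, ex_pc, ex_pc]
        split_ifs <;> rfl
      have hin : ∀ x y : ℤ, (k1 : ℤ) ≤ x → y ≤ k2 → Sf g (x - k1) (y - k1) = Sf f x y := by
        intro x y hx hy
        refine tua_shift fun i hi hi' => ?_
        rw [hgi, if_pos ⟨by omega, by omega⟩]
      have hle : ∀ x y : ℤ, Sf g (x - k1) (y - k1) ≤ Sf f x y := by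
        intro x y
        have e1 : Sf g (x - k1) (y - k1) = Sf (fun i => if (k1 : ℤ) ≤ i ∧ i < k2 then f i else 0) x y :=
          tua_shift fun i _ _ => hgi i
        rw [e1]
        refine Sf_mono (fun i => ?_) x y
        split_ifs
        · exact le_rfl
        · exact Nat.zero_le _
      have hreg : ∀ x : ℤ, Reg f x → Reg g (x - k1) := by
        intro x hx
        constructor
        · intro y hy
          have e1 := hx.1 (y + k1) (by omega)
          have e2 := hle x (y + k1)
          rw [add_sub_cancel_right] at e2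
          omega
        · intro y hy
          have e1 := hx.2 (y + k1) (by omega)
          have e2 := hle (y + k1) x
          rw [add_sub_cancel_right] at e2
          omega
    · refine ⟨hreg _ hc'.1, hreg _ hc'.2.1, by omega, fun z hz hz' hr => ?_⟩
      refine hc'.2.2.2 (z + k1) (by omega) (by omega) ?_
      constructor
      · intro y hy
        rcases le_total y y' with h3 | h3
        · have e1 := hr.1 (y - k1) (by omega)
          have e2 := hin (z + k1) y (by omega) (by omega)
          rw [add_sub_cancel_right] at e2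
          omega
        · have e1 := hr.1 (y' - k1) (by omega)
          have e2 := hin (z + k1) y' (by omega) (by omega)
          rw [add_sub_cancel_right] at e2
          have e3 := hc'.2.1.1 y h3
          have e4 := Sf_add f (x := z + k1) (y := y') (z := y) (by omega) h3
          omega
      · intro x hx
        rcases le_total x' x with h3 | h3
        · have e1 := hr.2 (x - k1) (by omega)
          have e2 := hin x (z + k1) (by omega) (by omega)
          rw [add_sub_cancel_right] at e2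
          omega
        · have e1 := hr.2 (x' - k1) (by omega)
          have e2 := hin x' (z + k1) (by omega) (by omega)
          rw [add_sub_cancel_right] at e2
          have e3 := hc'.1.2 x h3
          have e4 := Sf_add f (x := x) (y := x') (z := z + k1) h3 (by omega)
          omega
    · rw [hin x' y' c3 c4]
      exact ht

end

end Pool.Agent.H40.WM
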