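import Mathlib
import Pool.Agent.H40.WM.TCone
import Pool.Agent.H40.WM.TPt
import Pool.Agent.H40.WM.ICon
import Pool.Agent.H40.WM.TW

/-!
# TUm: the finite volume weight of a path is bounded by the infinite volume weight of its middle part

`A = pc X k1 k2`.  `psiD X ≥ psiD A` (`psiD_mono`) and `psiD A ≥ psi A - 1 - near/10` (`psiD_cone` with `L = 3 T + 8`, `|A| ≤ |D| ≤ 4 n^2 ≤ 2^T`).  Levels: `e ∈ A`, `i = kl e ∈ [k1,k2)`, `z ∈ ends e`: `cone_right` at `k1` and `cone_a`: `100 |lvl z| ≤ i + 2`;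
`cone_left` at `k2` and `cone_b` (`lvl a b = 0`): `100 |lvl z| ≤ n0 - i + 1`; so `4 |lvl z| ≤ cd + 8`.
`near` = edges of `A` with `kl < L` or `kl > n0 - L`: those with `kl < L` are in `pc X k1 (k1 + L)`: at most `2 L + Sf ex k1 (k1+L) ≤ 2L + L/64` (`part_card`, regularity of `k1`); those with `kl > n0 - L ≥ k2 - L` in `pc X (k2-L) k2`: `≤ 2L + L/64`.  So `near ≤ 5 L`,
`1 + near/10 ≤ 1 + L/2 ≤ 2 T + 5`.  `|X| = |lf X k1| + |A| + |rt X k2|`.
-/

set_option autoImplicit false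

namespace Pool.Agent.H40.WM

open Pool.Agent.H40.SQ

noncomputable section

private theorem tum_card (u : ℤ) (X : Finset Edge) {k1 k2 : ℤ} (h : k1 ≤ k2) :
    X.card = (lf u X k1).card + (pc u X k1 k2).card + (rt u X k2).card := by
  classical
  have h1 : (X.filter (fun e => kl u e < k1)).card + (X.filter (fun e => ¬ kl u e < k1)).card = X.card :=
    Finset.card_filter_add_card_filter_not _
  have h2 : ((X.filter (fun e => ¬ kl u e < k1)).filter (fun e => kl u e < k2)).card +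
      ((X.filter (fun e => ¬ kl u e < k1)).filter (fun e => ¬ kl u e < k2)).card =
      (X.filter (fun e => ¬ kl u e < k1)).card := Finset.card_filter_add_card_filter_not _
  have h3 : (X.filter (fun e => ¬ kl u e < k1)).filter (fun e => kl u e < k2) = pc u X k1 k2 := by
    unfold pc
    rw [Finset.filter_filter]
    apply Finset.filter_congr
    intro e _
    constructor
    · rintro ⟨g1, g2⟩; exact ⟨not_lt.1 g1, g2⟩
    · rintro ⟨g1, g2⟩; exact ⟨not_lt.2 g1, g2⟩
  have h4 : (X.filter (fun e => ¬ kl u e < k1)).filter (fun e => ¬ kl u e < k2) = rt u X k2 := by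
    unfold rt
    rw [Finset.filter_filter]
    apply Finset.filter_congr
    intro e _
    constructor
    · rintro ⟨_, g2⟩; exact not_lt.1 g2
    · intro g; exact ⟨not_lt.2 (h.trans g), not_lt.2 g⟩
  have h5 : X.filter (fun e => kl u e < k1) = lf u X k1 := rfl
  rw [h3, h4] at h2
  rw [h5] at h1
  omega

theorem omD_mid (q : ℝ) (hq0 : 0 < q) (hq1 : q ≤ 1 / 10 ^ 6) {n : ℕ} {a b : ℤ × ℤ} {n0 : ℕ} {D : Finset Edge} (hD : Dom n a b n0 D)
    (T : ℕ) (hT : 4 * n ^ 2 ≤ 2 ^ T) {X : Finset Edge} (hX : X ∈ PD D a b) {f : ℤ → ℕ} (hf : ∀ i, ex (uu a) X i ≤ f i)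
    {k1 k2 : ℤ} (h1 : Reg f k1) (h2 : Reg f k2) (h0 : 0 ≤ k1) (h12 : k1 ≤ k2) (hk2 : k2 ≤ n0) :
    omD q D X ≤ q ^ ((lf (uu a) X k1).card + (rt (uu a) X k2).card) * Real.exp (2 * T + 5) * om q (pc (uu a) X k1 k2) := by
  classical
  obtain ⟨hXD, hXP⟩ := mem_PD.1 hX
  have hm : uu b = uu a + 2 * (n0 : ℕ) := by
    rw [hD.hb]
    simp only [uu]
    ring
  have hlb : lvl a b = 0 := by
    rw [hD.hb]
    simp only [lvl, uu, vv]
    omega
  set A := pc (uu a) X k1 k2 with hA
  have hAX : A ⊆ X := Finset.filter_subset _ _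
  have hcard : X.card = (lf (uu a) X k1).card + A.card + (rt (uu a) X k2).card := tum_card (uu a) X h12
  have hAc : A.card ≤ 2 ^ T := ((Finset.card_le_card (hAX.trans hXD)).trans hD.card).trans hT
  obtain ⟨L, hL⟩ : ∃ L : ℤ, L = 3 * (T : ℤ) + 8 := ⟨_, rfl⟩
  have hL0 : 0 ≤ L := by omega
  have hlev : ∀ e ∈ A, L ≤ cd a n0 e → ∀ z ∈ ends e, 4 * |lvl a z| ≤ cd a n0 e + 8 := by
    intro e he _ z hz
    rw [hA] at he
    obtain ⟨heX, he1, he2⟩ := Finset.mem_filter.1 he
    have c1 := cone_right hXP n0 hm hf h1 h0 (h12.trans hk2) heX he1 hz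
    have c2 := cone_a hXP n0 hm hf h1 h0 (h12.trans hk2)
    have c3 := cone_left hXP n0 hm hf h2 (h0.trans h12) hk2 heX he2 hz
    have c4 := cone_b hXP n0 hm hf h2 (h0.trans h12) hk2
    rw [hlb, zero_sub, abs_neg] at c4
    have t1 : |lvl a z| ≤ |lvl a z - lp a b X k1| + |lp a b X k1| := by
      have := abs_add_le (lvl a z - lp a b X k1) (lp a b X k1)
      rwa [sub_add_cancel] at this
    have t2 : |lvl a z| ≤ |lvl a z - lp a b X k2| + |lp a b X k2| := by
      have := abs_add_le (lvl a z - lp a b X k2) (lp a b X k2)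
      rwa [sub_add_cancel] at this
    have t3 := abs_nonneg (lvl a z)
    unfold cd
    rcases min_choice (kl (uu a) e) ((n0 : ℤ) - kl (uu a) e) with h | h
    · rw [h]; omega
    · rw [h]; omega
  have hcone := psiD_cone q hq0 hq1 hD.cone A T L hAc (le_of_eq hL.symm) hlev
  -- number of near edges
  have hnear : ((A.filter (fun e => cd a n0 e < L)).card : ℤ) ≤ 5 * L := by
    have hsub : A.filter (fun e => cd a n0 e < L) ⊆ pc (uu a) X k1 (k1 + L) ∪ pc (uu a) X (k2 - L) k2 := by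
      intro e he
      obtain ⟨heA, hecd⟩ := Finset.mem_filter.1 he
      rw [hA] at heA
      obtain ⟨heX, he1, he2⟩ := Finset.mem_filter.1 heA
      rw [Finset.mem_union]
      unfold cd at hecd
      rcases min_lt_iff.1 hecd with h | h
      · exact Or.inl (Finset.mem_filter.2 ⟨heX, he1, by omega⟩)
      · exact Or.inr (Finset.mem_filter.2 ⟨heX, by omega, he2⟩)
    have hb1 : ((pc (uu a) X k1 (k1 + L)).card : ℤ) ≤ 2 * L + (Sf f k1 (k1 + L) : ℤ) := by
      rw [pc_card hXP n0 hm (by omega)]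
      have g1 : Sf (ex (uu a) X) k1 (k1 + L) ≤ Sf f k1 (k1 + L) := Finset.sum_le_sum fun i _ => hf i
      have g2 : max 0 (min (k1 + L) (n0 : ℤ)) - max 0 (min k1 (n0 : ℤ)) ≤ L := by omega
      have g3 : ((Sf (ex (uu a) X) k1 (k1 + L) : ℕ) : ℤ) ≤ (Sf f k1 (k1 + L) : ℤ) := by exact_mod_cast g1
      omega
    have hb2 : ((pc (uu a) X (k2 - L) k2).card : ℤ) ≤ 2 * L + (Sf f (k2 - L) k2 : ℤ) := by
      rw [pc_card hXP n0 hm (by omega)]
      have g1 : Sf (ex (uu a) X) (k2 - L) k2 ≤ Sf f (k2 - L) k2 := Finset.sum_le_sum fun i _ => hf i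
      have g2 : max 0 (min k2 (n0 : ℤ)) - max 0 (min (k2 - L) (n0 : ℤ)) ≤ L := by omega
      have g3 : ((Sf (ex (uu a) X) (k2 - L) k2 : ℕ) : ℤ) ≤ (Sf f (k2 - L) k2 : ℤ) := by exact_mod_cast g1
      omega
    have hr1 := h1.1 (k1 + L) (by omega)
    have hr2 := h2.2 (k2 - L) (by omega)
    have hle := (Finset.card_le_card hsub).trans (Finset.card_union_le _ _)
    have hle' : ((A.filter (fun e => cd a n0 e < L)).card : ℤ) ≤
        ((pc (uu a) X k1 (k1 + L)).card : ℤ) + ((pc (uu a) X (k2 - L) k2).card : ℤ) := by exact_mod_cast hle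
    omega
  have hnearR : ((A.filter (fun e => cd a n0 e < L)).card : ℝ) ≤ 5 * (3 * T + 8) := by
    have h3 : ((A.filter (fun e => cd a n0 e < L)).card : ℤ) ≤ 5 * (3 * (T : ℤ) + 8) := by rw [← hL]; exact hnear
    exact_mod_cast h3
  have hmono := psiD_mono q hq0 D hAX
  have hexp : Real.exp (- psiD q D X) ≤ Real.exp (2 * T + 5) * Real.exp (- psi q A) := by
    rw [← Real.exp_add]
    apply Real.exp_le_exp.mpr
    have h3 := (abs_le.1 hcone).1
    have hT0 : (0 : ℝ) ≤ T := by positivity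
    linarith
  unfold omD om
  rw [hcard]
  calc q ^ ((lf (uu a) X k1).card + A.card + (rt (uu a) X k2).card) * Real.exp (- psiD q D X)
      ≤ q ^ ((lf (uu a) X k1).card + A.card + (rt (uu a) X k2).card) *
        (Real.exp (2 * T + 5) * Real.exp (- psi q A)) :=
        mul_le_mul_of_nonneg_left hexp (pow_nonneg hq0.le _)
    _ = q ^ ((lf (uu a) X k1).card + (rt (uu a) X k2).card) * Real.exp (2 * T + 5) *
        (q ^ A.card * Real.exp (- psi q A)) := by
        rw [pow_add, pow_add, pow_add]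
        ring

end

end Pool.Agent.H40.WM
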