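import Mathlib
import Pool.Agent.H40.WM.TW

/-!
# TUp: sums over pairs of end pieces

With `c = |P.1| + |P.2| = 4k + e`: `q^c = (1/36)^c (36 q)^c = (1/36)^c (q^2/2)^(2k) * [36^(4k+e) 4^k q^e]` and, since `k ≤ 128 e`, `[...] ≤ (36^513 4^128 q)^e ≤ (36^600 q)^e ≤ (36^600 q)^t` (`4^128 = 2^256 ≤ 36^87`; `t ≤ e`, `36^600 q ≤ 1`).
`two_start`: families of pairs of paths starting at given vertices: `∑ (1/36)^(|A|+|A'|) ≤ 3 * 3` (`path_sum`; the pairs are in the product of the two projections).  `two_end`: the same with `path_sum_end`.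
-/

set_option autoImplicit false

namespace Pool.Agent.H40.WM

open Pool.Agent.H40.SQ

noncomputable section

theorem pair_sum (q : ℝ) (hq0 : 0 < q) (hq1 : 36 ^ 600 * q ≤ 1) (S : Finset (Finset Edge × Finset Edge)) (k t : ℕ)
    (h36 : ∑ P ∈ S, ((1 : ℝ) / 36) ^ (P.1.card + P.2.card) ≤ 9)
    (hS : ∀ P ∈ S, ∃ e : ℕ, P.1.card + P.2.card = 4 * k + e ∧ k ≤ 128 * e ∧ t ≤ e) :
    ∑ P ∈ S, q ^ (P.1.card + P.2.card) ≤ 9 * (q ^ 2 / 2) ^ (2 * k) * (36 ^ 600 * q) ^ t := by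
  have hx0 : 0 < 36 ^ 600 * q := by positivity
  obtain ⟨B, hB⟩ : ∃ B : ℝ, B = (q ^ 2 / 2) ^ (2 * k) * (36 ^ 600 * q) ^ t := ⟨_, rfl⟩
  have hB0 : 0 ≤ B := by rw [hB]; positivity
  have hterm : ∀ P ∈ S, q ^ (P.1.card + P.2.card) ≤ B * ((1 : ℝ) / 36) ^ (P.1.card + P.2.card) := by
    intro P hP
    obtain ⟨e, he1, he2, he3⟩ := hS P hP
    rw [he1]
    have h1 : (2 : ℝ) ^ (2 * k) * 36 ^ (4 * k + e) * q ^ e ≤ (36 ^ 600 * q) ^ e := by
      have g1 : (2 : ℝ) ^ (2 * k) ≤ (2 ^ 256) ^ e := by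
        rw [← pow_mul]
        exact pow_le_pow_right₀ (by norm_num) (by omega)
      have g2 : (2 : ℝ) ^ 256 ≤ 36 ^ 87 := by norm_num
      have g3 : (36 : ℝ) ^ (4 * k + e) ≤ (36 ^ 513) ^ e := by
        rw [← pow_mul]
        exact pow_le_pow_right₀ (by norm_num) (by omega)
      have g4 : (2 : ℝ) ^ (2 * k) ≤ (36 ^ 87) ^ e :=
        g1.trans (pow_le_pow_left₀ (by positivity) g2 _)
      calc (2 : ℝ) ^ (2 * k) * 36 ^ (4 * k + e) * q ^ e ≤ (36 ^ 87) ^ e * (36 ^ 513) ^ e * q ^ e := by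
            refine mul_le_mul_of_nonneg_right ?_ (by positivity)
            exact mul_le_mul g4 g3 (by positivity) (by positivity)
        _ = (36 ^ 600 * q) ^ e := by
            rw [← mul_pow, ← mul_pow, ← pow_add]
    have h2 : (36 ^ 600 * q) ^ e ≤ (36 ^ 600 * q) ^ t := pow_le_pow_of_le_one hx0.le hq1 he3
    have h3 : q ^ (4 * k + e) = (q ^ 2 / 2) ^ (2 * k) *
        ((2 : ℝ) ^ (2 * k) * 36 ^ (4 * k + e) * q ^ e) * ((1 : ℝ) / 36) ^ (4 * k + e) := by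
      have g1 : (36 : ℝ) ^ (4 * k + e) * ((1 : ℝ) / 36) ^ (4 * k + e) = 1 := by
        rw [← mul_pow]; norm_num
      have g2 : (q ^ 2 / 2) ^ (2 * k) * (2 : ℝ) ^ (2 * k) = q ^ (4 * k) := by
        rw [← mul_pow, div_mul_cancel₀ _ (two_ne_zero), ← pow_mul]
        congr 1
        ring
      calc q ^ (4 * k + e) = ((q ^ 2 / 2) ^ (2 * k) * (2 : ℝ) ^ (2 * k)) * q ^ e *
            ((36 : ℝ) ^ (4 * k + e) * ((1 : ℝ) / 36) ^ (4 * k + e)) := by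
            rw [g1, g2, pow_add, mul_one]
        _ = _ := by ring
    rw [h3, hB]
    refine mul_le_mul_of_nonneg_right ?_ (by positivity)
    exact mul_le_mul_of_nonneg_left (h1.trans h2) (by positivity)
  calc ∑ P ∈ S, q ^ (P.1.card + P.2.card) ≤ ∑ P ∈ S, B * ((1 : ℝ) / 36) ^ (P.1.card + P.2.card) :=
        Finset.sum_le_sum hterm
    _ = B * ∑ P ∈ S, ((1 : ℝ) / 36) ^ (P.1.card + P.2.card) := by rw [Finset.mul_sum]
    _ ≤ B * 9 := mul_le_mul_of_nonneg_left h36 hB0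
    _ = _ := by rw [hB]; ring

private theorem tup_two (Q1 Q2 : Finset (Finset Edge)) (h1 : ∑ G ∈ Q1, ((1 : ℝ) / 36) ^ G.card ≤ 3)
    (h2 : ∑ G ∈ Q2, ((1 : ℝ) / 36) ^ G.card ≤ 3) (S : Finset (Finset Edge × Finset Edge))
    (hS : S ⊆ Q1 ×ˢ Q2) : ∑ P ∈ S, ((1 : ℝ) / 36) ^ (P.1.card + P.2.card) ≤ 9 := by
  calc ∑ P ∈ S, ((1 : ℝ) / 36) ^ (P.1.card + P.2.card)
      ≤ ∑ P ∈ Q1 ×ˢ Q2, ((1 : ℝ) / 36) ^ (P.1.card + P.2.card) :=
        Finset.sum_le_sum_of_subset_of_nonneg hS fun _ _ _ => by positivity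
    _ = (∑ G ∈ Q1, ((1 : ℝ) / 36) ^ G.card) * ∑ G ∈ Q2, ((1 : ℝ) / 36) ^ G.card := by
        rw [Finset.sum_mul_sum, Finset.sum_product]
        exact Finset.sum_congr rfl fun x _ => Finset.sum_congr rfl fun y _ => by rw [pow_add]
    _ ≤ 3 * 3 := mul_le_mul h1 h2 (Finset.sum_nonneg fun _ _ => by positivity) (by norm_num)
    _ = 9 := by norm_num

private theorem tup_sub (S : Finset (Finset Edge × Finset Edge)) [DecidableEq (Finset Edge)] :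
    S ⊆ (S.image Prod.fst) ×ˢ (S.image Prod.snd) := by
  intro P hP
  rw [Finset.mem_product]
  exact ⟨Finset.mem_image_of_mem _ hP, Finset.mem_image_of_mem _ hP⟩

theorem two_start (a a' : ℤ × ℤ) (S : Finset (Finset Edge × Finset Edge)) (hS : ∀ P ∈ S, (∃ b, IsP a b P.1) ∧ ∃ b, IsP a' b P.2) :
    ∑ P ∈ S, ((1 : ℝ) / 36) ^ (P.1.card + P.2.card) ≤ 9 := by
  classical
  refine tup_two _ _ (path_sum a (S.image Prod.fst) ?_) (path_sum a' (S.image Prod.snd) ?_) S (tup_sub S)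
  · intro G hG
    obtain ⟨P, hP, rfl⟩ := Finset.mem_image.1 hG
    exact (hS P hP).1
  · intro G hG
    obtain ⟨P, hP, rfl⟩ := Finset.mem_image.1 hG
    exact (hS P hP).2

theorem two_end (b b' : ℤ × ℤ) (S : Finset (Finset Edge × Finset Edge)) (hS : ∀ P ∈ S, (∃ a, IsP a b P.1) ∧ ∃ a, IsP a b' P.2) :
    ∑ P ∈ S, ((1 : ℝ) / 36) ^ (P.1.card + P.2.card) ≤ 9 := by
  classical
  refine tup_two _ _ (path_sum_end b (S.image Prod.fst) ?_) (path_sum_end b' (S.image Prod.snd) ?_) S (tup_sub S)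
  · intro G hG
    obtain ⟨P, hP, rfl⟩ := Finset.mem_image.1 hG
    exact (hS P hP).1
  · intro G hG
    obtain ⟨P, hP, rfl⟩ := Finset.mem_image.1 hG
    exact (hS P hP).2

end

end Pool.Agent.H40.WM
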