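import Mathlib
import Pool.Agent.H40.WM.TUa
import Pool.Agent.H40.WM.TUm
import Pool.Agent.H40.WM.TUp
import Pool.Agent.H40.WM.TRem

/-!
# TUk: the contribution of the pairs with given first and last regular index

Let `m = k2 - k1`, `T` as in the statement.  By `omD_mid` for `X` and `Y`: `omD X omD Y ≤ exp(4 T0 + 10) q^(|lf X| + |lf Y|) q^(|rt X| + |rt Y|) om(mX) om(mY)`, `mX = pc X k1 k2`.
Split `T` (by `ua_some`) into three classes: (l) `t ≤ el`, (r) `t ≤ er`, (m) the middle pair is bad and `1 ≤ t`.  For each class: the map `(X,Y) ↦ ((lf X, lf Y), (rt X, rt Y), (mX, mY))` is injective (`split3`).  Let `SL`, `SR` be the images under the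
first two components.  For fixed `((A,A'),(B,B'))` the middle pairs are pairs of paths: `mX` from the end point of `A` (or `a` if `A = ∅`; `pt_lf`, `pt_pc`) to the starting point of `B` (`pt_rt`), both fixed; the end point of `mX` is `vt p m l` with `p` the
starting point; so their total weight is at most `Wst q m ^ 2` (`fam_le` twice) and in class (m) at most `36^10 (m+1)^2 (36^600 q)^t Wst^2` (`trem` with the base points `p, p'` on the line `uu a + 2 k1`).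
`∑_{SL} q^.. ≤ 9 (q^2/2)^(2 k1) (36^600 q)^(t or 0)` (`pair_sum`, `two_start`), `∑_{SR} ≤ 9 (q^2/2)^(2(n0-k2)) (...)` (`two_end`).
Total: `exp(4 T0 + 10) * 81 * (2 + 36^10 (n0+1)^2) (36^600 q)^t (q^2/2)^(2 (n0 - m)) Wst^2`, `n0 - m = k1 + (n0 - k2)`, and `81 (2 + 36^10 (n0+1)^2) ≤ 36^12 (n0+1)^2`.
-/

set_option autoImplicit false

namespace Pool.Agent.H40.WM

open Pool.Agent.H40.SQ

noncomputable section

private theorem uk_hc {a : ℤ × ℤ} {G : Finset Edge} {f : ℤ → ℕ} (hf : ∀ i, ex (uu a) G i ≤ f i) {x : ℤ} (hx : Reg f x) :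
    HC (uu a) G x := by
  obtain ⟨h1, h2⟩ := reg_zero hx
  have h3 := hf x
  have h4 := hf (x - 1)
  exact HC_of_ex (by omega) (by omega)

private theorem uk_end {a p p' : ℤ × ℤ} {L : Finset Edge} (h : IsP a p L) (h' : IsP a p' L) : p = p' := by
  have h1 := h.def' p
  have h2 := h'.def' p
  rw [h1, if_pos rfl] at h2
  by_contra hc
  rw [if_neg hc] at h2
  omega

private theorem uk_start {b p p' : ℤ × ℤ} {L : Finset Edge} (h : IsP p b L) (h' : IsP p' b L) : p = p' := by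
  have h1 := h.def' p
  have h2 := h'.def' p
  rw [h1, if_pos rfl] at h2
  by_contra hc
  rw [if_neg hc] at h2
  omega

/-- A sum over triples. -/
private theorem uk_three {α β : Type*} [DecidableEq α] [DecidableEq β] (T : Finset α) (fl fr fm : α → β) (gl gr gm : β → ℝ)
    (hl : ∀ s, 0 ≤ gl s) (hr : ∀ s, 0 ≤ gr s) (hinj : ∀ P ∈ T, ∀ P' ∈ T, fl P = fl P' → fr P = fr P' → fm P = fm P' → P = P')
    (CL CR CM : ℝ) (hCM : 0 ≤ CM) (h1 : ∑ s ∈ T.image fl, gl s ≤ CL) (h2 : ∑ s ∈ T.image fr, gr s ≤ CR)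
    (h3 : ∀ P0 ∈ T, ∑ s ∈ (T.filter (fun P => fl P = fl P0 ∧ fr P = fr P0)).image fm, gm s ≤ CM) :
    ∑ P ∈ T, gl (fl P) * gr (fr P) * gm (fm P) ≤ CL * CR * CM := by
  have hR0 : 0 ≤ ∑ s ∈ T.image fr, gr s := Finset.sum_nonneg fun s _ => hr s
  rw [← Finset.sum_fiberwise_of_maps_to (s := T) (t := T.image fl ×ˢ T.image fr) (g := fun P => (fl P, fr P))
    (fun P hP => Finset.mem_product.2 ⟨Finset.mem_image_of_mem _ hP, Finset.mem_image_of_mem _ hP⟩)]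
  have hfib : ∀ c ∈ T.image fl ×ˢ T.image fr, ∑ P ∈ T.filter (fun P => (fl P, fr P) = c), gl (fl P) * gr (fr P) * gm (fm P) ≤
      gl c.1 * gr c.2 * CM := by
    intro c _
    have e1 : ∑ P ∈ T.filter (fun P => (fl P, fr P) = c), gl (fl P) * gr (fr P) * gm (fm P) =
        gl c.1 * gr c.2 * ∑ P ∈ T.filter (fun P => (fl P, fr P) = c), gm (fm P) := by
      rw [Finset.mul_sum]
      apply Finset.sum_congr rfl
      intro P hP
      rw [← (Finset.mem_filter.1 hP).2]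
    rw [e1]
    apply mul_le_mul_of_nonneg_left _ (mul_nonneg (hl _) (hr _))
    rcases (T.filter (fun P => (fl P, fr P) = c)).eq_empty_or_nonempty with he | ⟨P0, hP0⟩
    · rw [he, Finset.sum_empty]
      exact hCM
    · obtain ⟨hP0T, hP0c⟩ := Finset.mem_filter.1 hP0
      have e2 : T.filter (fun P => (fl P, fr P) = c) = T.filter (fun P => fl P = fl P0 ∧ fr P = fr P0) := by
        apply Finset.filter_congr
        intro P _
        rw [← hP0c, Prod.mk.injEq]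
      have e3 := h3 P0 hP0T
      rw [e2]
      rw [Finset.sum_image] at e3
      · exact e3
      · intro P hP P' hP' he
        have m1 := Finset.mem_filter.1 hP
        have m2 := Finset.mem_filter.1 hP'
        exact hinj P m1.1 P' m2.1 (m1.2.1.trans m2.2.1.symm) (m1.2.2.trans m2.2.2.symm) he
  refine (Finset.sum_le_sum hfib).trans ?_
  have e4 : ∑ c ∈ T.image fl ×ˢ T.image fr, gl c.1 * gr c.2 * CM =
      ((∑ s ∈ T.image fl, gl s) * ∑ s ∈ T.image fr, gr s) * CM := by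
    rw [← Finset.sum_mul, Finset.sum_mul_sum, Finset.sum_product]
  rw [e4]
  apply mul_le_mul_of_nonneg_right _ hCM
  have hL0 : 0 ≤ ∑ s ∈ T.image fl, gl s := Finset.sum_nonneg fun s _ => hl s
  exact mul_le_mul h1 h2 hR0 (hL0.trans h1)

private theorem uk_q (q : ℝ) (hq0 : 0 < q) (hq1 : 36 ^ 600 * q ≤ 1) : q ≤ 1 / 10 ^ 6 := by
  have h3 : (10 : ℝ) ^ 6 * q ≤ 36 ^ 600 * q := by
    apply mul_le_mul_of_nonneg_right _ hq0.le
    calc (10 : ℝ) ^ 6 ≤ 36 ^ 6 := by norm_num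
      _ ≤ 36 ^ 600 := pow_le_pow_right₀ (by norm_num) (by norm_num)
  rw [le_div_iff₀ (by positivity), mul_comm]
  exact h3.trans hq1

/-- The data of a pair. -/
private structure Pd (q : ℝ) (D : Finset Edge) (a b : ℤ × ℤ) (n0 T0 k1 k2 : ℕ) (P : Finset Edge × Finset Edge) : Prop where
  hX : IsP a b P.1
  hY : IsP a b P.2
  X1 : HC (uu a) P.1 k1
  X2 : HC (uu a) P.1 k2
  Y1 : HC (uu a) P.2 k1
  Y2 : HC (uu a) P.2 k2
  wt : omD q D P.1 * omD q D P.2 ≤ Real.exp (4 * T0 + 10) *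
    (q ^ ((lf (uu a) P.1 k1).card + (lf (uu a) P.2 k1).card) * q ^ ((rt (uu a) P.1 k2).card + (rt (uu a) P.2 k2).card) *
      (om q (pc (uu a) P.1 k1 k2) * om q (pc (uu a) P.2 k1 k2)))

private def Fl (a : ℤ × ℤ) (k : ℤ) (P : Finset Edge × Finset Edge) : Finset Edge × Finset Edge := (lf (uu a) P.1 k, lf (uu a) P.2 k)

private def Fr (a : ℤ × ℤ) (k : ℤ) (P : Finset Edge × Finset Edge) : Finset Edge × Finset Edge := (rt (uu a) P.1 k, rt (uu a) P.2 k)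

private def Fm (a : ℤ × ℤ) (k k' : ℤ) (P : Finset Edge × Finset Edge) : Finset Edge × Finset Edge :=
  (pc (uu a) P.1 k k', pc (uu a) P.2 k k')

/-- One class. -/
private theorem uk_cl (q : ℝ) (hq0 : 0 < q) (hq1 : 36 ^ 600 * q ≤ 1) (D : Finset Edge) (a b : ℤ × ℤ) (n0 T0 k1 k2 : ℕ)
    (hbu : uu b = uu a + 2 * n0) (h12 : k1 ≤ k2) (h2 : k2 ≤ n0) (tl tr : ℕ) (T : Finset (Finset Edge × Finset Edge))
    (hT : ∀ P ∈ T, Pd q D a b n0 T0 k1 k2 P)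
    (hl : ∀ P ∈ T, ∃ e : ℕ, (lf (uu a) P.1 k1).card + (lf (uu a) P.2 k1).card = 4 * k1 + e ∧ k1 ≤ 128 * e ∧ tl ≤ e)
    (hr : ∀ P ∈ T, ∃ e : ℕ, (rt (uu a) P.1 k2).card + (rt (uu a) P.2 k2).card = 4 * (n0 - k2) + e ∧ n0 - k2 ≤ 128 * e ∧ tr ≤ e)
    (CM : ℝ) (hCM : 0 ≤ CM)
    (hm : ∀ (p p' : ℤ × ℤ) (l l' : ℤ) (S : Finset (Finset Edge × Finset Edge)), uu p = uu a + 2 * k1 → uu p' = uu a + 2 * k1 →
      (∀ s ∈ S, IsP p (vt p ((k2 - k1 : ℕ) : ℤ) l) s.1 ∧ IsP p' (vt p' ((k2 - k1 : ℕ) : ℤ) l') s.2) →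
      (∀ s ∈ S, ∃ P ∈ T, s = Fm a k1 k2 P) → ∑ s ∈ S, om q s.1 * om q s.2 ≤ CM) :
    ∑ P ∈ T, omD q D P.1 * omD q D P.2 ≤ Real.exp (4 * T0 + 10) * (81 * (q ^ 2 / 2) ^ (2 * (n0 - (k2 - k1))) *
      ((36 ^ 600 * q) ^ tl * (36 ^ 600 * q) ^ tr) * CM) := by
  classical
  have hb : (k1 : ℤ) ≤ k2 := by exact_mod_cast h12
  have hk2 : (k2 : ℤ) ≤ n0 := by exact_mod_cast h2
  have hA : ∑ P ∈ T, omD q D P.1 * omD q D P.2 ≤ ∑ P ∈ T, Real.exp (4 * T0 + 10) *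
      (q ^ ((Fl a k1 P).1.card + (Fl a k1 P).2.card) * q ^ ((Fr a k2 P).1.card + (Fr a k2 P).2.card) *
        (om q (Fm a k1 k2 P).1 * om q (Fm a k1 k2 P).2)) :=
    Finset.sum_le_sum fun P hP => (hT P hP).wt
  refine hA.trans ?_
  rw [← Finset.mul_sum]
  apply mul_le_mul_of_nonneg_left _ (Real.exp_pos _).le
  have hthree := uk_three T (Fl a k1) (Fr a k2) (Fm a k1 k2) (fun s => q ^ (s.1.card + s.2.card)) (fun s => q ^ (s.1.card + s.2.card))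
    (fun s => om q s.1 * om q s.2) (fun s => pow_nonneg hq0.le _) (fun s => pow_nonneg hq0.le _)
    (by
      intro P hP P' hP' e1 e2 e3
      unfold Fl at e1
      unfold Fr at e2
      unfold Fm at e3
      rw [Prod.mk.injEq] at e1 e2 e3
      refine Prod.ext ?_ ?_
      · rw [split3 (uu a) P.1 hb, split3 (uu a) P'.1 hb, e1.1, e2.1, e3.1]
      · rw [split3 (uu a) P.2 hb, split3 (uu a) P'.2 hb, e1.2, e2.2, e3.2])
    (9 * (q ^ 2 / 2) ^ (2 * k1) * (36 ^ 600 * q) ^ tl) (9 * (q ^ 2 / 2) ^ (2 * (n0 - k2)) * (36 ^ 600 * q) ^ tr) CM hCM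
    (by
      apply pair_sum q hq0 hq1
      · apply two_start a a
        intro s hs
        obtain ⟨P, hP, rfl⟩ := Finset.mem_image.1 hs
        have h := hT P hP
        exact ⟨⟨_, pt_lf h.hX n0 hbu h.X1⟩, ⟨_, pt_lf h.hY n0 hbu h.Y1⟩⟩
      · intro s hs
        obtain ⟨P, hP, rfl⟩ := Finset.mem_image.1 hs
        exact hl P hP)
    (by
      apply pair_sum q hq0 hq1
      · apply two_end b b
        intro s hs
        obtain ⟨P, hP, rfl⟩ := Finset.mem_image.1 hs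
        have h := hT P hP
        exact ⟨⟨_, pt_rt h.hX n0 hbu h.X2⟩, ⟨_, pt_rt h.hY n0 hbu h.Y2⟩⟩
      · intro s hs
        obtain ⟨P, hP, rfl⟩ := Finset.mem_image.1 hs
        exact hr P hP)
    (by
      intro P0 hP0
      have h0 := hT P0 hP0
      have u1 : ∀ (G : Finset Edge) (k : ℕ), k ≤ n0 → uu (pt a b n0 G k) = uu a + 2 * k := by
        intro G k hk
        have hk' : (k : ℤ) ≤ n0 := by exact_mod_cast hk
        unfold pt
        rw [vt_uu, min_eq_left hk', max_eq_right (by omega)]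
      have ev : ∀ G : Finset Edge, pt a b n0 G k2 =
          vt (pt a b n0 G k1) ((k2 - k1 : ℕ) : ℤ) (lvl (pt a b n0 G k1) (pt a b n0 G k2)) := by
        intro G
        apply vt_unique
        rw [u1 G k2 h2, u1 G k1 (by omega)]
        push_cast [Nat.cast_sub h12]
        ring
      apply hm (pt a b n0 P0.1 k1) (pt a b n0 P0.2 k1) (lvl (pt a b n0 P0.1 k1) (pt a b n0 P0.1 k2))
        (lvl (pt a b n0 P0.2 k1) (pt a b n0 P0.2 k2)) _ (u1 _ _ (by omega)) (u1 _ _ (by omega))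
      · intro s hs
        obtain ⟨P, hP, rfl⟩ := Finset.mem_image.1 hs
        obtain ⟨hPT, hPl, hPr⟩ := Finset.mem_filter.1 hP
        have h := hT P hPT
        unfold Fl at hPl
        unfold Fr at hPr
        rw [Prod.mk.injEq] at hPl hPr
        rw [← ev, ← ev]
        have a1 := pt_lf h.hX n0 hbu h.X1
        have a2 := pt_lf h.hY n0 hbu h.Y1
        have a3 := pt_rt h.hX n0 hbu h.X2
        have a4 := pt_rt h.hY n0 hbu h.Y2
        rw [hPl.1] at a1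
        rw [hPl.2] at a2
        rw [hPr.1] at a3
        rw [hPr.2] at a4
        have b1 := uk_end a1 (pt_lf h0.hX n0 hbu h0.X1)
        have b2 := uk_end a2 (pt_lf h0.hY n0 hbu h0.Y1)
        have b3 := uk_start a3 (pt_rt h0.hX n0 hbu h0.X2)
        have b4 := uk_start a4 (pt_rt h0.hY n0 hbu h0.Y2)
        have c1 := pt_pc h.hX n0 hbu h.X1 h.X2 hb
        have c2 := pt_pc h.hY n0 hbu h.Y1 h.Y2 hb
        rw [b1, b3] at c1
        rw [b2, b4] at c2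
        exact ⟨c1, c2⟩
      · intro s hs
        obtain ⟨P, hP, rfl⟩ := Finset.mem_image.1 hs
        exact ⟨P, (Finset.mem_filter.1 hP).1, rfl⟩)
  refine hthree.trans (le_of_eq ?_)
  have e1 : 2 * (n0 - (k2 - k1)) = 2 * k1 + 2 * (n0 - k2) := by omega
  rw [e1, pow_add]
  ring

private theorem uk_mid0 (q : ℝ) (hq0 : 0 < q) (hq2 : q ≤ 1 / 10 ^ 6) (m : ℕ) (p p' : ℤ × ℤ) (l l' : ℤ)
    (S : Finset (Finset Edge × Finset Edge)) (hS : ∀ s ∈ S, IsP p (vt p m l) s.1 ∧ IsP p' (vt p' m l') s.2) :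
    ∑ s ∈ S, om q s.1 * om q s.2 ≤ Wst q m ^ 2 := by
  classical
  have e2 : S ⊆ S.image Prod.fst ×ˢ S.image Prod.snd := by
    intro s hs
    exact Finset.mem_product.2 ⟨Finset.mem_image_of_mem _ hs, Finset.mem_image_of_mem _ hs⟩
  refine (Finset.sum_le_sum_of_subset_of_nonneg e2
    (fun s _ _ => mul_nonneg (om_pos q hq0 _).le (om_pos q hq0 _).le)).trans ?_
  have e3 : ∑ s ∈ S.image Prod.fst ×ˢ S.image Prod.snd, om q s.1 * om q s.2 =
      (∑ G ∈ S.image Prod.fst, om q G) * ∑ G ∈ S.image Prod.snd, om q G := by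
    rw [Finset.sum_mul_sum, Finset.sum_product]
  rw [e3, pow_two]
  have b1 : ∑ G ∈ S.image Prod.fst, om q G ≤ Wst q m := by
    apply fam_le q hq0 hq2 p m l
    intro G hG
    obtain ⟨s, hs, rfl⟩ := Finset.mem_image.1 hG
    exact (hS s hs).1
  have b2 : ∑ G ∈ S.image Prod.snd, om q G ≤ Wst q m := by
    apply fam_le q hq0 hq2 p' m l'
    intro G hG
    obtain ⟨s, hs, rfl⟩ := Finset.mem_image.1 hG
    exact (hS s hs).2
  have b0 : 0 ≤ ∑ G ∈ S.image Prod.fst, om q G := Finset.sum_nonneg fun G _ => (om_pos q hq0 G).le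
  have b3 : 0 ≤ ∑ G ∈ S.image Prod.snd, om q G := Finset.sum_nonneg fun G _ => (om_pos q hq0 G).le
  exact mul_le_mul b1 b2 b3 (b0.trans b1)

private theorem uk_num (X E Q : ℝ) (n0 m : ℕ) (hm : m ≤ n0) (hE : 0 ≤ E) (hX : 0 ≤ X) (hQ : 0 ≤ Q) (W2 : ℝ) (hW : 0 ≤ W2) :
    E * (81 * Q * (X * 1) * W2) + E * (81 * Q * (1 * X) * W2) +
      E * (81 * Q * (1 * 1) * (36 ^ 10 * ((m : ℝ) + 1) ^ 2 * X * W2)) ≤
    E * 36 ^ 12 * ((n0 : ℝ) + 1) ^ 2 * X * (W2 * Q) := by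
  have h1 : ((m : ℝ) + 1) ^ 2 ≤ ((n0 : ℝ) + 1) ^ 2 := by
    have : (m : ℝ) ≤ n0 := by exact_mod_cast hm
    exact pow_le_pow_left₀ (by positivity) (by linarith) 2
  have h2 : (1 : ℝ) ≤ ((n0 : ℝ) + 1) ^ 2 := by
    have : (0 : ℝ) ≤ n0 := Nat.cast_nonneg _
    exact one_le_pow₀ (by linarith)
  have h3 : 81 * (1 + 1 + 36 ^ 10 * ((m : ℝ) + 1) ^ 2) ≤ 36 ^ 12 * ((n0 : ℝ) + 1) ^ 2 := by nlinarith
  have h4 : 0 ≤ E * X * (W2 * Q) := by positivity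
  have h5 := mul_le_mul_of_nonneg_left h3 h4
  calc _ = E * X * (W2 * Q) * (81 * (1 + 1 + 36 ^ 10 * ((m : ℝ) + 1) ^ 2)) := by ring
    _ ≤ E * X * (W2 * Q) * (36 ^ 12 * ((n0 : ℝ) + 1) ^ 2) := h5
    _ = _ := by ring

theorem uk (q : ℝ) (hq0 : 0 < q) (hq1 : 36 ^ 600 * q ≤ 1) {n : ℕ} {a b : ℤ × ℤ} {n0 : ℕ} {D : Finset Edge} (hD : Dom n a b n0 D)
    (T0 : ℕ) (hT0 : 4 * n ^ 2 ≤ 2 ^ T0) (t k1 k2 : ℕ) (h12 : k1 ≤ k2) (h2 : k2 ≤ n0) (T : Finset (Finset Edge × Finset Edge))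
    (hT : ∀ P ∈ T, P.1 ∈ PD D a b ∧ P.2 ∈ PD D a b ∧ (t = 0 ∨ Bad (ex2 (uu a) P.1 P.2) t) ∧
      Reg (ex2 (uu a) P.1 P.2) k1 ∧ Reg (ex2 (uu a) P.1 P.2) k2 ∧
      (∀ k : ℤ, 0 ≤ k → k < k1 → ¬ Reg (ex2 (uu a) P.1 P.2) k) ∧ (∀ k : ℤ, k2 < k → k ≤ n0 → ¬ Reg (ex2 (uu a) P.1 P.2) k)) :
    ∑ P ∈ T, omD q D P.1 * omD q D P.2 ≤ Real.exp (4 * T0 + 10) * 36 ^ 12 * ((n0 : ℝ) + 1) ^ 2 * (36 ^ 600 * q) ^ t *
      (Wst q (k2 - k1) ^ 2 * (q ^ 2 / 2) ^ (2 * (n0 - (k2 - k1)))) := by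
  classical
  have hq2 := uk_q q hq0 hq1
  have hbu : uu b = uu a + 2 * n0 := by
    rw [hD.hb]
    simp only [uu]
    ring
  have hW : 0 ≤ Wst q (k2 - k1) := by
    have h1 := fam_le q hq0 hq2 a (k2 - k1) 0 ∅ (fun G hG => absurd hG (Finset.notMem_empty G))
    rwa [Finset.sum_empty] at h1
  have hb : (k1 : ℤ) ≤ k2 := by exact_mod_cast h12
  have hk2 : (k2 : ℤ) ≤ n0 := by exact_mod_cast h2
  have hPd : ∀ P ∈ T, Pd q D a b n0 T0 k1 k2 P := by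
    intro P hP
    obtain ⟨hX, hY, _, hr1, hr2, _, _⟩ := hT P hP
    have f1 : ∀ i, ex (uu a) P.1 i ≤ ex2 (uu a) P.1 P.2 i := fun i => Nat.le_add_right _ _
    have f2 : ∀ i, ex (uu a) P.2 i ≤ ex2 (uu a) P.1 P.2 i := fun i => Nat.le_add_left _ _
    have o1 := omD_mid q hq0 hq2 hD T0 hT0 hX f1 hr1 hr2 (by omega) hb hk2
    have o2 := omD_mid q hq0 hq2 hD T0 hT0 hY f2 hr1 hr2 (by omega) hb hk2
    refine ⟨(mem_PD.1 hX).2, (mem_PD.1 hY).2, uk_hc f1 hr1, uk_hc f1 hr2, uk_hc f2 hr1, uk_hc f2 hr2, ?_⟩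
    have p2 := (omD_pos q hq0 D P.2).le
    have p3 := (om_pos q hq0 (pc (uu a) P.1 k1 k2)).le
    refine (mul_le_mul o1 o2 p2 (by positivity)).trans (le_of_eq ?_)
    have hexp : Real.exp (4 * (T0 : ℝ) + 10) = Real.exp (2 * T0 + 5) * Real.exp (2 * T0 + 5) := by
      rw [← Real.exp_add]
      congr 1
      ring
    rw [hexp, pow_add, pow_add, pow_add, pow_add]
    ring
  have hua : ∀ P ∈ T, ∃ el er : ℕ, (lf (uu a) P.1 k1).card + (lf (uu a) P.2 k1).card = 4 * k1 + el ∧ k1 ≤ 128 * el ∧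
      (rt (uu a) P.1 k2).card + (rt (uu a) P.2 k2).card = 4 * (n0 - k2) + er ∧ n0 - k2 ≤ 128 * er ∧
      (t ≤ el ∨ t ≤ er ∨ (1 ≤ t ∧ Bad (ex2 (uu a + 2 * k1) (pc (uu a) P.1 k1 k2) (pc (uu a) P.2 k1 k2)) t)) := by
    intro P hP
    obtain ⟨hX, hY, ht, hr1, hr2, hf, hl⟩ := hT P hP
    obtain ⟨el, er, e1, e2, e3, e4, e5⟩ := ua_some (mem_PD.1 hX).2 (mem_PD.1 hY).2 n0 hD.pos hbu k1 k2 h12 h2 hr1 hr2 hf hl t
    exact ⟨el, er, e1, e2, e3, e4, e5 ht⟩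
  obtain ⟨Tl, hTl⟩ : ∃ Tl, Tl = T.filter (fun P => ∃ e : ℕ, (lf (uu a) P.1 k1).card + (lf (uu a) P.2 k1).card = 4 * k1 + e ∧
    k1 ≤ 128 * e ∧ t ≤ e) := ⟨_, rfl⟩
  obtain ⟨Tr, hTr⟩ : ∃ Tr, Tr = T.filter (fun P => ∃ e : ℕ, (rt (uu a) P.1 k2).card + (rt (uu a) P.2 k2).card = 4 * (n0 - k2) + e ∧
    n0 - k2 ≤ 128 * e ∧ t ≤ e) := ⟨_, rfl⟩
  obtain ⟨Tm, hTm⟩ : ∃ Tm, Tm = T.filter (fun P => 1 ≤ t ∧
    Bad (ex2 (uu a + 2 * k1) (pc (uu a) P.1 k1 k2) (pc (uu a) P.2 k1 k2)) t) := ⟨_, rfl⟩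
  have hcov : T ⊆ Tl ∪ Tr ∪ Tm := by
    intro P hP
    rw [Finset.mem_union, Finset.mem_union, hTl, hTr, hTm, Finset.mem_filter, Finset.mem_filter, Finset.mem_filter]
    obtain ⟨el, er, e1, e2, e3, e4, e5⟩ := hua P hP
    rcases e5 with e5 | e5 | e5
    · exact Or.inl (Or.inl ⟨hP, el, e1, e2, e5⟩)
    · exact Or.inl (Or.inr ⟨hP, er, e3, e4, e5⟩)
    · exact Or.inr ⟨hP, e5⟩
  have hpos : ∀ P : Finset Edge × Finset Edge, 0 ≤ omD q D P.1 * omD q D P.2 :=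
    fun P => mul_nonneg (omD_pos q hq0 D _).le (omD_pos q hq0 D _).le
  have hsum : ∑ P ∈ T, omD q D P.1 * omD q D P.2 ≤ (∑ P ∈ Tl, omD q D P.1 * omD q D P.2) +
      (∑ P ∈ Tr, omD q D P.1 * omD q D P.2) + ∑ P ∈ Tm, omD q D P.1 * omD q D P.2 := by
    refine (Finset.sum_le_sum_of_subset_of_nonneg hcov (fun P _ _ => hpos P)).trans ?_
    have u1 : ∀ A B : Finset (Finset Edge × Finset Edge), ∑ P ∈ A ∪ B, omD q D P.1 * omD q D P.2 ≤
        (∑ P ∈ A, omD q D P.1 * omD q D P.2) + ∑ P ∈ B, omD q D P.1 * omD q D P.2 := by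
      intro A B
      rw [← Finset.sum_union_inter]
      have := Finset.sum_nonneg (s := A ∩ B) (fun P _ => hpos P)
      linarith
    have u2 := u1 (Tl ∪ Tr) Tm
    have u3 := u1 Tl Tr
    linarith
  have hl0 : ∀ P ∈ T, ∃ e : ℕ, (lf (uu a) P.1 k1).card + (lf (uu a) P.2 k1).card = 4 * k1 + e ∧ k1 ≤ 128 * e ∧ 0 ≤ e := by
    intro P hP
    obtain ⟨el, er, e1, e2, _⟩ := hua P hP
    exact ⟨el, e1, e2, Nat.zero_le _⟩
  have hr0 : ∀ P ∈ T, ∃ e : ℕ, (rt (uu a) P.1 k2).card + (rt (uu a) P.2 k2).card = 4 * (n0 - k2) + e ∧ n0 - k2 ≤ 128 * e ∧ 0 ≤ e := by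
    intro P hP
    obtain ⟨el, er, _, _, e3, e4, _⟩ := hua P hP
    exact ⟨er, e3, e4, Nat.zero_le _⟩
  have hTl2 : ∀ P ∈ Tl, P ∈ T ∧ ∃ e : ℕ, (lf (uu a) P.1 k1).card + (lf (uu a) P.2 k1).card = 4 * k1 + e ∧
      k1 ≤ 128 * e ∧ t ≤ e := by
    intro P hP
    rw [hTl, Finset.mem_filter] at hP
    exact hP
  have hTr2 : ∀ P ∈ Tr, P ∈ T ∧ ∃ e : ℕ, (rt (uu a) P.1 k2).card + (rt (uu a) P.2 k2).card = 4 * (n0 - k2) + e ∧
      n0 - k2 ≤ 128 * e ∧ t ≤ e := by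
    intro P hP
    rw [hTr, Finset.mem_filter] at hP
    exact hP
  have hTm2 : ∀ P ∈ Tm, P ∈ T ∧ 1 ≤ t ∧ Bad (ex2 (uu a + 2 * k1) (pc (uu a) P.1 k1 k2) (pc (uu a) P.2 k1 k2)) t := by
    intro P hP
    rw [hTm, Finset.mem_filter] at hP
    exact hP
  have hTl1 : ∀ P ∈ Tl, P ∈ T := fun P hP => (hTl2 P hP).1
  have hTr1 : ∀ P ∈ Tr, P ∈ T := fun P hP => (hTr2 P hP).1
  have hTm1 : ∀ P ∈ Tm, P ∈ T := fun P hP => (hTm2 P hP).1
  have s1 := uk_cl q hq0 hq1 D a b n0 T0 k1 k2 hbu h12 h2 t 0 Tl (fun P hP => hPd P (hTl1 P hP))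
    (fun P hP => (hTl2 P hP).2) (fun P hP => hr0 P (hTl1 P hP)) (Wst q (k2 - k1) ^ 2) (by positivity)
    (fun p p' l l' S _ _ hS _ => uk_mid0 q hq0 hq2 (k2 - k1) p p' l l' S hS)
  have s2 := uk_cl q hq0 hq1 D a b n0 T0 k1 k2 hbu h12 h2 0 t Tr (fun P hP => hPd P (hTr1 P hP))
    (fun P hP => hl0 P (hTr1 P hP)) (fun P hP => (hTr2 P hP).2) (Wst q (k2 - k1) ^ 2) (by positivity)
    (fun p p' l l' S _ _ hS _ => uk_mid0 q hq0 hq2 (k2 - k1) p p' l l' S hS)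
  have s3 := uk_cl q hq0 hq1 D a b n0 T0 k1 k2 hbu h12 h2 0 0 Tm (fun P hP => hPd P (hTm1 P hP))
    (fun P hP => hl0 P (hTm1 P hP)) (fun P hP => hr0 P (hTm1 P hP))
    (36 ^ 10 * (((k2 - k1 : ℕ) : ℝ) + 1) ^ 2 * (36 ^ 600 * q) ^ t * Wst q (k2 - k1) ^ 2) (by positivity)
    (by
      intro p p' l l' S hp hp' hS hS'
      rcases Nat.eq_zero_or_pos t with ht | ht
      · -- then `Tm` is empty
        have hSe : S = ∅ := by
          rw [Finset.eq_empty_iff_forall_notMem]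
          intro s hs
          obtain ⟨P, hP, _⟩ := hS' s hs
          have h3 := (hTm2 P hP).2.1
          omega
        rw [hSe, Finset.sum_empty]
        positivity
      · refine trem q hq0 hq1 p p' (by rw [hp, hp']) (k2 - k1) l l' (S.image Prod.fst) (S.image Prod.snd) ?_ ?_ t ht S ?_
        · intro G hG
          obtain ⟨s, hs, rfl⟩ := Finset.mem_image.1 hG
          exact (hS s hs).1
        · intro G hG
          obtain ⟨s, hs, rfl⟩ := Finset.mem_image.1 hG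
          exact (hS s hs).2
        · intro s hs
          refine ⟨Finset.mem_image_of_mem _ hs, Finset.mem_image_of_mem _ hs, ?_⟩
          obtain ⟨P, hP, rfl⟩ := hS' s hs
          have h3 := (hTm2 P hP).2.2
          rw [hp]
          exact h3)
  rw [pow_zero] at s1 s2 s3
  have hnum := uk_num ((36 ^ 600 * q) ^ t) (Real.exp (4 * T0 + 10)) ((q ^ 2 / 2) ^ (2 * (n0 - (k2 - k1)))) n0 (k2 - k1) (by omega)
    (Real.exp_pos _).le (by positivity) (by positivity) (Wst q (k2 - k1) ^ 2) (by positivity)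
  linarith

end

end Pool.Agent.H40.WM
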