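import Mathlib
import Pool.Agent.H40.WM.TUk

/-!
# TU: the upper bound

Split `T` according to: no regular index in `[0,n0]` (class A), or the first and the last regular index `(k1,k2)` in `[0,n0]` (at most `(n0+1)^2` classes).
Class A: `omD ≤ q^|.|` (`omD_le`); `ua_none`, `pair_sum` with `k = n0` and `two_start`: `≤ 9 (q^2/2)^(2 n0) (36^600 q)^t ≤ 9 (36^600 q)^t B`, since `1 ≤ Wst q 0` (`Wst_lb` with `m = 0`) and `hB 0`.
The other classes: `uk`.  Total: `(9 + (n0+1)^2 exp(4 T0+10) 36^12 (n0+1)^2) (36^600 q)^t B ≤ exp(4 T0 + 10) 36^13 (n0+1)^4 (36^600 q)^t B`.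
-/

set_option autoImplicit false

namespace Pool.Agent.H40.WM

open Pool.Agent.H40.SQ

noncomputable section

private theorem tu_q (q : ℝ) (hq0 : 0 < q) (hq1 : 36 ^ 600 * q ≤ 1) : q ≤ 1 / 10 ^ 6 := by
  have h3 : (10 : ℝ) ^ 6 * q ≤ 36 ^ 600 * q := by
    apply mul_le_mul_of_nonneg_right _ hq0.le
    calc (10 : ℝ) ^ 6 ≤ 36 ^ 6 := by norm_num
      _ ≤ 36 ^ 600 := pow_le_pow_right₀ (by norm_num) (by norm_num)
  rw [le_div_iff₀ (by positivity), mul_comm]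
  exact h3.trans hq1

/-- first and last regular index -/
private theorem tu_fl (f : ℤ → ℕ) (n0 : ℕ) (h : ¬ ∀ k : ℤ, 0 ≤ k → k ≤ n0 → ¬ Reg f k) :
    ∃ c : ℕ × ℕ, c.1 ≤ c.2 ∧ c.2 ≤ n0 ∧ Reg f c.1 ∧ Reg f c.2 ∧
      (∀ k : ℤ, 0 ≤ k → k < c.1 → ¬ Reg f k) ∧ (∀ k : ℤ, c.2 < k → k ≤ n0 → ¬ Reg f k) := by
  classical
  push Not at h
  obtain ⟨k, hk0, hkn, hk⟩ := h
  obtain ⟨K, hK⟩ : ∃ K : Finset ℕ, K = (Finset.range (n0 + 1)).filter (fun i : ℕ => Reg f (i : ℤ)) := ⟨_, rfl⟩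
  have hmem : ∀ i : ℕ, i ∈ K ↔ i ≤ n0 ∧ Reg f (i : ℤ) := by
    intro i
    rw [hK, Finset.mem_filter, Finset.mem_range, Nat.lt_succ_iff]
  have hne : K.Nonempty := by
    refine ⟨k.toNat, ?_⟩
    rw [hmem, Int.toNat_of_nonneg hk0]
    exact ⟨by omega, hk⟩
  refine ⟨(K.min' hne, K.max' hne), K.min'_le_max' hne, ((hmem _).1 (K.max'_mem hne)).1, ((hmem _).1 (K.min'_mem hne)).2,
    ((hmem _).1 (K.max'_mem hne)).2, ?_, ?_⟩
  · intro j hj0 hj hr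
    have h1 : j.toNat ∈ K := by
      rw [hmem, Int.toNat_of_nonneg hj0]
      have h2 := ((hmem _).1 (K.min'_mem hne)).1
      simp only at hj
      exact ⟨by omega, hr⟩
    have h2 := K.min'_le _ h1
    simp only at hj
    omega
  · intro j hj hjn hr
    simp only at hj
    have hj0 : 0 ≤ j := by omega
    have h1 : j.toNat ∈ K := by
      rw [hmem, Int.toNat_of_nonneg hj0]
      exact ⟨by omega, hr⟩
    have h2 := K.le_max' _ h1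
    omega

private theorem tu_num (X E B N : ℝ) (hE : 1 ≤ E) (hX : 0 ≤ X) (hB : 0 ≤ B) (hN : 1 ≤ N) :
    9 * B * X + N ^ 2 * (E * 36 ^ 12 * N ^ 2 * X * B) ≤ E * 36 ^ 13 * N ^ 4 * X * B := by
  have h1 : (1 : ℝ) ≤ N ^ 4 := one_le_pow₀ hN
  have h2 : 1 ≤ E * N ^ 4 := by
    calc (1 : ℝ) = 1 * 1 := by ring
      _ ≤ E * N ^ 4 := mul_le_mul hE h1 (by norm_num) (by linarith)
  have h3 : 9 + E * 36 ^ 12 * N ^ 4 ≤ E * 36 ^ 13 * N ^ 4 := by nlinarith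
  have h4 := mul_le_mul_of_nonneg_right h3 (mul_nonneg hX hB)
  calc 9 * B * X + N ^ 2 * (E * 36 ^ 12 * N ^ 2 * X * B) = (9 + E * 36 ^ 12 * N ^ 4) * (X * B) := by ring
    _ ≤ E * 36 ^ 13 * N ^ 4 * (X * B) := h4
    _ = _ := by ring

theorem ub (q : ℝ) (hq0 : 0 < q) (hq1 : 36 ^ 600 * q ≤ 1) {n : ℕ} {a b : ℤ × ℤ} {n0 : ℕ} {D : Finset Edge} (hD : Dom n a b n0 D)
    (T0 : ℕ) (hT0 : 4 * n ^ 2 ≤ 2 ^ T0) (B : ℝ) (hB : ∀ m : ℕ, m ≤ n0 → Wst q m ^ 2 * (q ^ 2 / 2) ^ (2 * (n0 - m)) ≤ B) (t : ℕ)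
    (T : Finset (Finset Edge × Finset Edge))
    (hT : ∀ P ∈ T, P.1 ∈ PD D a b ∧ P.2 ∈ PD D a b ∧ (t = 0 ∨ Bad (ex2 (uu a) P.1 P.2) t)) :
    ∑ P ∈ T, omD q D P.1 * omD q D P.2 ≤ Real.exp (4 * T0 + 10) * 36 ^ 13 * ((n0 : ℝ) + 1) ^ 4 * (36 ^ 600 * q) ^ t * B := by
  classical
  have hq2 := tu_q q hq0 hq1
  have hbu : uu b = uu a + 2 * n0 := by
    rw [hD.hb]
    simp only [uu]
    ring
  have hpos : ∀ P : Finset Edge × Finset Edge, 0 ≤ omD q D P.1 * omD q D P.2 :=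
    fun P => mul_nonneg (omD_pos q hq0 D _).le (omD_pos q hq0 D _).le
  have hX0 : 0 ≤ (36 ^ 600 * q) ^ t := by positivity
  have hW0 : 1 ≤ Wst q 0 := by
    have h1 := Wst_lb q hq0 hq2 0
    simpa using h1
  have hB0 : (q ^ 2 / 2) ^ (2 * n0) ≤ B := by
    have h1 := hB 0 (Nat.zero_le _)
    rw [Nat.sub_zero] at h1
    refine le_trans ?_ h1
    exact le_mul_of_one_le_left (by positivity) (one_le_pow₀ hW0)
  have hBn : 0 ≤ B := le_trans (by positivity) hB0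
  rw [← Finset.sum_filter_add_sum_filter_not T (fun P => ∀ k : ℤ, 0 ≤ k → k ≤ n0 → ¬ Reg (ex2 (uu a) P.1 P.2) k)]
  have hA : ∑ P ∈ T.filter (fun P => ∀ k : ℤ, 0 ≤ k → k ≤ n0 → ¬ Reg (ex2 (uu a) P.1 P.2) k), omD q D P.1 * omD q D P.2 ≤
      9 * B * (36 ^ 600 * q) ^ t := by
    have h1 : ∑ P ∈ T.filter (fun P => ∀ k : ℤ, 0 ≤ k → k ≤ n0 → ¬ Reg (ex2 (uu a) P.1 P.2) k), omD q D P.1 * omD q D P.2 ≤
        ∑ P ∈ T.filter (fun P => ∀ k : ℤ, 0 ≤ k → k ≤ n0 → ¬ Reg (ex2 (uu a) P.1 P.2) k), q ^ (P.1.card + P.2.card) := by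
      apply Finset.sum_le_sum
      intro P _
      rw [pow_add]
      exact mul_le_mul (omD_le q hq0 D _) (omD_le q hq0 D _) (omD_pos q hq0 D _).le (pow_nonneg hq0.le _)
    refine h1.trans ?_
    have h2 := pair_sum q hq0 hq1 (T.filter (fun P => ∀ k : ℤ, 0 ≤ k → k ≤ n0 → ¬ Reg (ex2 (uu a) P.1 P.2) k)) n0 t
      (two_start a a _ (by
        intro P hP
        obtain ⟨hX, hY, _⟩ := hT P (Finset.mem_filter.1 hP).1
        exact ⟨⟨b, (mem_PD.1 hX).2⟩, ⟨b, (mem_PD.1 hY).2⟩⟩))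
      (by
        intro P hP
        obtain ⟨hPT, hn⟩ := Finset.mem_filter.1 hP
        obtain ⟨hX, hY, ht⟩ := hT P hPT
        obtain ⟨e, e1, e2, e3⟩ := ua_none (mem_PD.1 hX).2 (mem_PD.1 hY).2 n0 hD.pos hbu hn t
        exact ⟨e, e1, e2, e3 ht⟩)
    refine h2.trans ?_
    apply mul_le_mul_of_nonneg_right _ hX0
    exact mul_le_mul_of_nonneg_left hB0 (by norm_num)
  have hkk : ∀ P : Finset Edge × Finset Edge, ∃ c : ℕ × ℕ,
      ¬ (∀ k : ℤ, 0 ≤ k → k ≤ n0 → ¬ Reg (ex2 (uu a) P.1 P.2) k) → c.1 ≤ c.2 ∧ c.2 ≤ n0 ∧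
        Reg (ex2 (uu a) P.1 P.2) c.1 ∧ Reg (ex2 (uu a) P.1 P.2) c.2 ∧
        (∀ k : ℤ, 0 ≤ k → k < c.1 → ¬ Reg (ex2 (uu a) P.1 P.2) k) ∧
        (∀ k : ℤ, c.2 < k → k ≤ n0 → ¬ Reg (ex2 (uu a) P.1 P.2) k) := by
    intro P
    by_cases h : ∀ k : ℤ, 0 ≤ k → k ≤ n0 → ¬ Reg (ex2 (uu a) P.1 P.2) k
    · exact ⟨(0, 0), fun hc => absurd h hc⟩
    · obtain ⟨c, hc⟩ := tu_fl _ n0 h
      exact ⟨c, fun _ => hc⟩
  choose kk hkk using hkk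
  obtain ⟨R, hR⟩ : ∃ R : Finset ℕ, R = Finset.range (n0 + 1) := ⟨_, rfl⟩
  have hC : ∑ P ∈ T.filter (fun P => ¬ ∀ k : ℤ, 0 ≤ k → k ≤ n0 → ¬ Reg (ex2 (uu a) P.1 P.2) k), omD q D P.1 * omD q D P.2 ≤
      ((n0 : ℝ) + 1) ^ 2 * (Real.exp (4 * T0 + 10) * 36 ^ 12 * ((n0 : ℝ) + 1) ^ 2 * (36 ^ 600 * q) ^ t * B) := by
    rw [← Finset.sum_fiberwise_of_maps_to (t := R ×ˢ R) (g := kk)
      (fun P hP => by
        obtain ⟨h1, h2, _⟩ := hkk P (Finset.mem_filter.1 hP).2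
        rw [Finset.mem_product, hR, Finset.mem_range, Finset.mem_range]
        omega)]
    have hfib : ∀ c ∈ R ×ˢ R, ∑ P ∈ (T.filter (fun P => ¬ ∀ k : ℤ, 0 ≤ k → k ≤ n0 → ¬ Reg (ex2 (uu a) P.1 P.2) k)).filter
        (fun P => kk P = c), omD q D P.1 * omD q D P.2 ≤
        Real.exp (4 * T0 + 10) * 36 ^ 12 * ((n0 : ℝ) + 1) ^ 2 * (36 ^ 600 * q) ^ t * B := by
      intro c _
      by_cases hc : c.1 ≤ c.2 ∧ c.2 ≤ n0
      · have h1 := uk q hq0 hq1 hD T0 hT0 t c.1 c.2 hc.1 hc.2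
          ((T.filter (fun P => ¬ ∀ k : ℤ, 0 ≤ k → k ≤ n0 → ¬ Reg (ex2 (uu a) P.1 P.2) k)).filter (fun P => kk P = c)) (by
          intro P hP
          obtain ⟨hP1, hP2⟩ := Finset.mem_filter.1 hP
          obtain ⟨hP3, hP4⟩ := Finset.mem_filter.1 hP1
          obtain ⟨g1, g2, g3⟩ := hT P hP3
          have h2 := hkk P hP4
          rw [hP2] at h2
          exact ⟨g1, g2, g3, h2.2.2⟩)
        refine h1.trans ?_
        apply mul_le_mul_of_nonneg_left _ (by positivity)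
        exact hB (c.2 - c.1) (by omega)
      · have h1 : (T.filter (fun P => ¬ ∀ k : ℤ, 0 ≤ k → k ≤ n0 → ¬ Reg (ex2 (uu a) P.1 P.2) k)).filter (fun P => kk P = c) = ∅ := by
          rw [Finset.eq_empty_iff_forall_notMem]
          intro P hP
          obtain ⟨hP1, hP2⟩ := Finset.mem_filter.1 hP
          have h2 := hkk P (Finset.mem_filter.1 hP1).2
          rw [hP2] at h2
          exact hc ⟨h2.1, h2.2.1⟩
        rw [h1, Finset.sum_empty]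
        positivity
    refine (Finset.sum_le_sum hfib).trans ?_
    rw [Finset.sum_const, nsmul_eq_mul, Finset.card_product, hR, Finset.card_range]
    apply le_of_eq
    push_cast
    ring
  have hE1 : 1 ≤ Real.exp (4 * (T0 : ℝ) + 10) := by
    rw [Real.one_le_exp_iff]
    positivity
  have hnum := tu_num ((36 ^ 600 * q) ^ t) (Real.exp (4 * T0 + 10)) B ((n0 : ℝ) + 1) hE1 hX0 hBn (by
    have : (0 : ℝ) ≤ n0 := Nat.cast_nonneg _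
    linarith)
  linarith

end

end Pool.Agent.H40.WM
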