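import Mathlib
import Pool.Agent.H40.WM.TU
import Pool.Agent.H40.WM.TLf

/-!
# TAct: bad pairs are rare; comparison of neighbouring domains

* `act`: `ub` with `B = (36/q)^(200000 t0) ZP^2` (`lb`, `T0 = t0`).  `exp(4 t0 + 10) 36^13 (n0+1)^4 ≤ 36^(100 t0)` (`n0 ≤ 2n`, `4 n^2 ≤ 2^t0`, `t0 ≥ 1`).
* `den`: `ub` for `D'` with `t = 0`, `T` all pairs: `ZP(D')^2 ≤ exp(4 t0+10) 36^13 (n0'+1)^4 B` with any `B` such that `Wst m^2 (q^2/2)^(2(n0'-m)) ≤ B` for `m ≤ n0'`.  By `lb` for `D` (`m ≤ n0' ≤ n0 + 2`): `Wst m^2 (q^2/2)^(2(n0-m)) ≤ K ZP(D)^2`, and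
  `(q^2/2)^(2(n0'-m)) ≤ (q^2/2)^(-4) (q^2/2)^(2(n0-m))` because `n0 - m ≤ (n0' - m) + 2`.  `(q^2/2)^(-4) ≤ (36/q)^8`.
-/

set_option autoImplicit false

namespace Pool.Agent.H40.WM

open Pool.Agent.H40.SQ

noncomputable section

private theorem ta_num (q : ℝ) (hq0 : 0 < q) (hq1 : q ≤ 1) {n n0 t0 : ℕ} (h1 : 1 ≤ n0) (h2 : n0 ≤ 2 * n) (ht0 : 1 ≤ t0)
    (hT : 4 * n ^ 2 ≤ 2 ^ t0) :
    Real.exp (4 * t0 + 10) * 36 ^ 13 * ((n0 : ℝ) + 1) ^ 4 ≤ (36 / q) ^ (29 * t0) := by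
  have hR : (36 : ℝ) ≤ 36 / q := by
    rw [le_div_iff₀ hq0]
    nlinarith
  have ht : (1 : ℝ) ≤ t0 := by exact_mod_cast ht0
  have e1 : Real.exp (4 * t0 + 10) ≤ 36 ^ (14 * t0) := by
    have h3 : Real.exp (4 * t0 + 10) ≤ Real.exp 1 ^ (14 * t0) := by
      rw [← Real.exp_nat_mul]
      apply Real.exp_le_exp.2
      push_cast
      linarith
    refine h3.trans (pow_le_pow_left₀ (Real.exp_pos _).le ?_ _)
    have := Real.exp_one_lt_three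
    linarith
  have e2 : (36 : ℝ) ^ 13 ≤ 36 ^ (13 * t0) := pow_le_pow_right₀ (by norm_num) (by omega)
  have e3 : ((n0 : ℝ) + 1) ^ 4 ≤ 36 ^ (2 * t0) := by
    have hn1 : 1 ≤ n := by omega
    have h3 : (n0 + 1) ^ 2 ≤ 4 * 2 ^ t0 := by
      calc (n0 + 1) ^ 2 ≤ (4 * n) ^ 2 := Nat.pow_le_pow_left (by omega) 2
        _ = 4 * (4 * n ^ 2) := by ring
        _ ≤ 4 * 2 ^ t0 := Nat.mul_le_mul_left 4 hT
    have h4 : ((n0 : ℝ) + 1) ^ 2 ≤ 4 * 2 ^ t0 := by exact_mod_cast h3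
    have h5 : (4 : ℝ) * 2 ^ t0 ≤ 36 ^ t0 := by
      obtain ⟨s, rfl⟩ : ∃ s, t0 = s + 1 := ⟨t0 - 1, by omega⟩
      rw [pow_succ, pow_succ]
      have h6 : (2 : ℝ) ^ s ≤ 36 ^ s := pow_le_pow_left₀ (by norm_num) (by norm_num) s
      have h7 : (0 : ℝ) < 36 ^ s := by positivity
      linarith
    calc ((n0 : ℝ) + 1) ^ 4 = (((n0 : ℝ) + 1) ^ 2) ^ 2 := by ring
      _ ≤ (36 ^ t0) ^ 2 := pow_le_pow_left₀ (by positivity) (h4.trans h5) 2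
      _ = 36 ^ (2 * t0) := by rw [← pow_mul, mul_comm]
  calc Real.exp (4 * t0 + 10) * 36 ^ 13 * ((n0 : ℝ) + 1) ^ 4 ≤ 36 ^ (14 * t0) * 36 ^ (13 * t0) * 36 ^ (2 * t0) := by
        apply mul_le_mul _ e3 (by positivity) (by positivity)
        exact mul_le_mul e1 e2 (by positivity) (by positivity)
    _ = 36 ^ (29 * t0) := by
        rw [← pow_add, ← pow_add]
        congr 1
        ring
    _ ≤ (36 / q) ^ (29 * t0) := pow_le_pow_left₀ (by norm_num) hR _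

private theorem ta_600 (q : ℝ) (hq0 : 0 < q) (hq1 : 36 ^ 2000 * q ≤ 1) : 36 ^ 600 * q ≤ 1 := by
  refine le_trans (mul_le_mul_of_nonneg_right ?_ hq0.le) hq1
  exact pow_le_pow_right₀ (by norm_num) (by norm_num)

private theorem ta_1 (q : ℝ) (hq0 : 0 < q) (hq1 : 36 ^ 2000 * q ≤ 1) : q ≤ 1 := by
  refine le_trans ?_ hq1
  have h1 : (1 : ℝ) ≤ 36 ^ 2000 := one_le_pow₀ (by norm_num)
  exact le_mul_of_one_le_left hq0.le h1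

private theorem ta_R (q : ℝ) (hq0 : 0 < q) (hq1 : q ≤ 1) : 1 ≤ 36 / q := by
  rw [le_div_iff₀ hq0]
  linarith

private theorem ta_half (q : ℝ) (hq0 : 0 < q) (hq1 : q ≤ 1) : q ^ 2 / 2 ≤ 1 := by
  have : q ^ 2 ≤ 1 := by nlinarith
  linarith

theorem act (q : ℝ) (hq0 : 0 < q) (hq1 : 36 ^ 2000 * q ≤ 1) {n : ℕ} {a b : ℤ × ℤ} {n0 : ℕ} {D : Finset Edge} (hD : Dom n a b n0 D)
    (t0 : ℕ) (ht0 : 1 ≤ t0) (hT : 4 * n ^ 2 ≤ 2 ^ t0) (t : ℕ) (T : Finset (Finset Edge × Finset Edge))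
    (hTT : ∀ P ∈ T, P.1 ∈ PD D a b ∧ P.2 ∈ PD D a b ∧ (t = 0 ∨ Bad (ex2 (uu a) P.1 P.2) t)) :
    ∑ P ∈ T, omD q D P.1 * omD q D P.2 ≤ (36 / q) ^ (200100 * t0) * (36 ^ 600 * q) ^ t * ZP q D a b ^ 2 := by
  have hq6 := ta_600 q hq0 hq1
  have hq11 := ta_1 q hq0 hq1
  have h1 := ub q hq0 hq6 hD t0 hT ((36 / q) ^ (200000 * t0) * ZP q D a b ^ 2)
    (fun m hm => lb q hq0 hq1 hD t0 ht0 hT m (by omega)) t T hTT
  refine h1.trans ?_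
  have h2 := ta_num q hq0 hq11 hD.pos hD.le ht0 hT
  have hR : (1 : ℝ) ≤ 36 / q := ta_R q hq0 hq11
  have h3 : (36 / q) ^ (29 * t0) * (36 / q) ^ (200000 * t0) ≤ (36 / q) ^ (200100 * t0) := by
    rw [← pow_add]
    exact pow_le_pow_right₀ hR (by omega)
  have h4 : 0 ≤ (36 ^ 600 * q) ^ t := by positivity
  have h5 : 0 ≤ ZP q D a b ^ 2 := sq_nonneg _
  have h6 : 0 ≤ (36 / q) ^ (200000 * t0) := by positivity
  calc Real.exp (4 * t0 + 10) * 36 ^ 13 * ((n0 : ℝ) + 1) ^ 4 * (36 ^ 600 * q) ^ t * ((36 / q) ^ (200000 * t0) * ZP q D a b ^ 2)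
      = (Real.exp (4 * t0 + 10) * 36 ^ 13 * ((n0 : ℝ) + 1) ^ 4) * (36 / q) ^ (200000 * t0) * ((36 ^ 600 * q) ^ t * ZP q D a b ^ 2) := by ring
    _ ≤ (36 / q) ^ (29 * t0) * (36 / q) ^ (200000 * t0) * ((36 ^ 600 * q) ^ t * ZP q D a b ^ 2) := by
        apply mul_le_mul_of_nonneg_right _ (mul_nonneg h4 h5)
        exact mul_le_mul_of_nonneg_right h2 h6
    _ ≤ (36 / q) ^ (200100 * t0) * ((36 ^ 600 * q) ^ t * ZP q D a b ^ 2) := mul_le_mul_of_nonneg_right h3 (mul_nonneg h4 h5)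
    _ = _ := by ring

theorem den (q : ℝ) (hq0 : 0 < q) (hq1 : 36 ^ 2000 * q ≤ 1) {n : ℕ} {a b a' b' : ℤ × ℤ} {n0 n0' : ℕ} {D D' : Finset Edge}
    (hD : Dom n a b n0 D) (hD' : Dom n a' b' n0' D') (h1 : n0' ≤ n0 + 2) (h2 : n0 ≤ n0' + 2)
    (t0 : ℕ) (ht0 : 1 ≤ t0) (hT : 4 * n ^ 2 ≤ 2 ^ t0) :
    ZP q D' a' b' ^ 2 ≤ (36 / q) ^ (200200 * t0) * ZP q D a b ^ 2 := by
  have hq6 := ta_600 q hq0 hq1
  have hq11 := ta_1 q hq0 hq1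
  have hR : (1 : ℝ) ≤ 36 / q := ta_R q hq0 hq11
  have hB : ∀ m : ℕ, m ≤ n0' → Wst q m ^ 2 * (q ^ 2 / 2) ^ (2 * (n0' - m)) ≤ (36 / q) ^ 8 * ((36 / q) ^ (200000 * t0) * ZP q D a b ^ 2) := by
    intro m hm
    have h3 := lb q hq0 hq1 hD t0 ht0 hT m (by omega)
    have h4 : (q ^ 2 / 2) ^ (2 * (n0' - m)) ≤ (36 / q) ^ 8 * (q ^ 2 / 2) ^ (2 * (n0 - m)) := by
      have h5 : (q ^ 2 / 2) ^ (2 * (n0' - m) + 4) ≤ (q ^ 2 / 2) ^ (2 * (n0 - m)) := by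
        exact pow_le_pow_of_le_one (by positivity) (ta_half q hq0 hq11) (by omega)
      have h6 : (1 : ℝ) ≤ (36 / q) ^ 8 * (q ^ 2 / 2) ^ 4 := by
        have h7 : (36 / q) ^ 8 * (q ^ 2 / 2) ^ 4 = 36 ^ 8 / 16 := by
          field_simp
          norm_num
        rw [h7]
        norm_num
      calc (q ^ 2 / 2) ^ (2 * (n0' - m)) = 1 * (q ^ 2 / 2) ^ (2 * (n0' - m)) := (one_mul _).symm
        _ ≤ (36 / q) ^ 8 * (q ^ 2 / 2) ^ 4 * (q ^ 2 / 2) ^ (2 * (n0' - m)) := mul_le_mul_of_nonneg_right h6 (by positivity)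
        _ = (36 / q) ^ 8 * (q ^ 2 / 2) ^ (2 * (n0' - m) + 4) := by
            rw [pow_add]
            ring
        _ ≤ (36 / q) ^ 8 * (q ^ 2 / 2) ^ (2 * (n0 - m)) := mul_le_mul_of_nonneg_left h5 (by positivity)
    calc Wst q m ^ 2 * (q ^ 2 / 2) ^ (2 * (n0' - m)) ≤ Wst q m ^ 2 * ((36 / q) ^ 8 * (q ^ 2 / 2) ^ (2 * (n0 - m))) :=
          mul_le_mul_of_nonneg_left h4 (sq_nonneg _)
      _ = (36 / q) ^ 8 * (Wst q m ^ 2 * (q ^ 2 / 2) ^ (2 * (n0 - m))) := by ring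
      _ ≤ _ := mul_le_mul_of_nonneg_left h3 (by positivity)
  have h3 := ub q hq0 hq6 hD' t0 hT _ hB 0 (PD D' a' b' ×ˢ PD D' a' b') (fun P hP => by
    rw [Finset.mem_product] at hP
    exact ⟨hP.1, hP.2, Or.inl rfl⟩)
  have h4 : ∑ P ∈ PD D' a' b' ×ˢ PD D' a' b', omD q D' P.1 * omD q D' P.2 = ZP q D' a' b' ^ 2 := by
    unfold ZP
    rw [pow_two, Finset.sum_mul_sum, Finset.sum_product]
  rw [h4, pow_zero, mul_one] at h3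
  refine h3.trans ?_
  have h5 := ta_num q hq0 hq11 hD'.pos hD'.le ht0 hT
  have h6 : 0 ≤ ZP q D a b ^ 2 := sq_nonneg _
  have h7 : (36 / q) ^ (29 * t0) * ((36 / q) ^ 8 * (36 / q) ^ (200000 * t0)) ≤ (36 / q) ^ (200200 * t0) := by
    rw [← pow_add, ← pow_add]
    exact pow_le_pow_right₀ hR (by omega)
  calc Real.exp (4 * t0 + 10) * 36 ^ 13 * ((n0' : ℝ) + 1) ^ 4 * ((36 / q) ^ 8 * ((36 / q) ^ (200000 * t0) * ZP q D a b ^ 2))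
      ≤ (36 / q) ^ (29 * t0) * ((36 / q) ^ 8 * ((36 / q) ^ (200000 * t0) * ZP q D a b ^ 2)) :=
        mul_le_mul_of_nonneg_right h5 (by positivity)
    _ = (36 / q) ^ (29 * t0) * ((36 / q) ^ 8 * (36 / q) ^ (200000 * t0)) * ZP q D a b ^ 2 := by ring
    _ ≤ _ := mul_le_mul_of_nonneg_right h7 h6

end

end Pool.Agent.H40.WM
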