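import Mathlib
import Pool.Agent.H40.WM.GVal

/-!
# GFix: the forced heights

Let `g ∈ EE(c)`, `h = s F g`.  By `s_step`: `h(type 1) - h(neighbouring type 0) ∈ {0,1}`; outside the box `h = 0`.
* ring 0: type 1: an outside neighbour is of type 0 with `h = 0`, so `h ∈ {0,1}`; type 0: `h ∈ {-1,0}`.
* ring 1: type 1: a ring 0 neighbour (type 0) has `h ≤ 0`, so `h ≤ 1`; type 0: a ring 0 neighbour (type 1) has `h ≤ 1`, and `h(type 0) ≤ h(type 1)`, so `h ≤ 1`.
* on `gR`: `h = 1` (ring 1) and `h = 1` (ring 0, type 1).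
* ring 0, type 0, `i + j ≤ c - 1`: there is a neighbour of type 1 with `h = 1` (in `gR`): for `j = 0` or `j = n-1` and `1 ≤ i ≤ n-2`: the ring 1 face above/below (sum `≤ c`); for `i = 0` or `i = n-1`, `1 ≤ j ≤ n-2`: the ring 1 face to the right/left; corners: `(0,0)`: the
  face `(1,0)` (ring 0, type 1, sum `1 ≤ c-2`: `(0,0)` of type 0 means `c` odd, `c ≥ 3`); `(n-1,0)`: the face `(n-2,0)`; `(0,n-1)`: `(0,n-2)`; `(n-1,n-1)` has sum `2n - 2 > c - 1`.  So `h ≥ 0`, `h = 0`.
* `j = n-1`, `1 ≤ i ≤ n-2`, `i + j = c` (type 1): the face `(i,n-2)` is in ring 1 with sum `c - 1`: `h = 1`, so `h(i,n-1) ≥ 1`.  `i + j = c+1` (type 0): the face `(i,n-2)` has sum `c`: `h = 1` so `h(i,n-1) ≥ 0`, `= 0`.  The same for `i = n-1`.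
* compare with `gA` (`omega`).
-/

set_option autoImplicit false

namespace Pool.Agent.H40.WM

open Pool.Agent.H40.SQ

noncomputable section

private theorem gfix_abs {n : ℕ} {c : ℤ} (hn : 5 ≤ n) (hc2 : 2 ≤ c) (hc : c ≤ 2 * n - 6) (H : ℤ → ℤ → ℤ)
    (h0 : ∀ i j, (i + j + c) % 2 = 0 → (H (i - 1) j = H i j ∨ H (i - 1) j = H i j - 1) ∧
      (H (i + 1) j = H i j ∨ H (i + 1) j = H i j - 1) ∧ (H i (j - 1) = H i j ∨ H i (j - 1) = H i j - 1) ∧
      (H i (j + 1) = H i j ∨ H i (j + 1) = H i j - 1))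
    (h1 : ∀ i j, (i + j + c) % 2 = 1 → (H (i - 1) j = H i j ∨ H (i - 1) j = H i j + 1) ∧
      (H (i + 1) j = H i j ∨ H (i + 1) j = H i j + 1) ∧ (H i (j - 1) = H i j ∨ H i (j - 1) = H i j + 1) ∧
      (H i (j + 1) = H i j ∨ H i (j + 1) = H i j + 1))
    (hout : ∀ i j, ¬ gBox n i j → H i j = 0) (hR : ∀ i j, gR n c i j → 1 ≤ H i j) {i j : ℤ} (hV : gV n c i j) :
    (gA n c i j → H i j = 1) ∧ (¬ gA n c i j → H i j = 0) := by
  have A : ∀ i j, gR0 n i j → ((i + j + c) % 2 = 0 → 0 ≤ H i j ∧ H i j ≤ 1) ∧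
      ((i + j + c) % 2 = 1 → -1 ≤ H i j ∧ H i j ≤ 0) := by
    intro i j hij
    obtain ⟨-, h⟩ := hij
    rcases h with rfl | rfl | rfl | rfl
    · have e := hout (0 - 1) j (by unfold gBox; omega)
      exact ⟨fun hp => by have := (h0 0 j hp).1; omega, fun hp => by have := (h1 0 j hp).1; omega⟩
    · have e := hout i (0 - 1) (by unfold gBox; omega)
      exact ⟨fun hp => by have := (h0 i 0 hp).2.2.1; omega, fun hp => by have := (h1 i 0 hp).2.2.1; omega⟩
    · have e := hout ((n : ℤ) - 1 + 1) j (by unfold gBox; omega)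
      exact ⟨fun hp => by have := (h0 _ j hp).2.1; omega, fun hp => by have := (h1 _ j hp).2.1; omega⟩
    · have e := hout i ((n : ℤ) - 1 + 1) (by unfold gBox; omega)
      exact ⟨fun hp => by have := (h0 i _ hp).2.2.2; omega, fun hp => by have := (h1 i _ hp).2.2.2; omega⟩
  have B : ∀ i j, gR1 n i j → H i j ≤ 1 := by
    intro i j hij
    obtain ⟨a1, a2, a3, a4, h⟩ := hij
    rcases h with rfl | rfl | rfl | rfl
    · have e := A (1 - 1) j ⟨⟨by omega, by omega, by omega, by omega⟩, by omega⟩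
      rcases Int.emod_two_eq_zero_or_one (1 + j + c) with hp | hp
      · have := (h0 1 j hp).1
        have := e.2 (by omega)
        omega
      · have := (h1 1 j hp).1
        have := e.1 (by omega)
        omega
    · have e := A i (1 - 1) ⟨⟨by omega, by omega, by omega, by omega⟩, by omega⟩
      rcases Int.emod_two_eq_zero_or_one (i + 1 + c) with hp | hp
      · have := (h0 i 1 hp).2.2.1
        have := e.2 (by omega)
        omega
      · have := (h1 i 1 hp).2.2.1
        have := e.1 (by omega)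
        omega
    · have e := A ((n : ℤ) - 2 + 1) j ⟨⟨by omega, by omega, by omega, by omega⟩, by omega⟩
      rcases Int.emod_two_eq_zero_or_one ((n : ℤ) - 2 + j + c) with hp | hp
      · have := (h0 _ j hp).2.1
        have := e.2 (by omega)
        omega
      · have := (h1 _ j hp).2.1
        have := e.1 (by omega)
        omega
    · have e := A i ((n : ℤ) - 2 + 1) ⟨⟨by omega, by omega, by omega, by omega⟩, by omega⟩
      rcases Int.emod_two_eq_zero_or_one (i + ((n : ℤ) - 2) + c) with hp | hp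
      · have := (h0 i _ hp).2.2.2
        have := e.2 (by omega)
        omega
      · have := (h1 i _ hp).2.2.2
        have := e.1 (by omega)
        omega
  have hV' := hV
  rcases hV with ⟨r, hs⟩ | ⟨r, hs⟩ | ⟨rfl, a1, a2, hs⟩ | ⟨rfl, a1, a2, hs⟩
  · have e1 := hR i j (Or.inl ⟨r, hs⟩)
    have e2 := B i j r
    refine ⟨fun _ => by omega, fun h => ?_⟩
    exfalso
    apply h
    unfold gR1 at r
    unfold gA gBox gR0 gT gBox
    omega
  · rcases Int.emod_two_eq_zero_or_one (i + j + c) with hp | hp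
    · have e1 := hR i j (Or.inr ⟨r, hp, by omega⟩)
      have e2 := (A i j r).1 hp
      refine ⟨fun _ => by omega, fun h => ?_⟩
      exfalso
      apply h
      unfold gR0 gBox at r
      unfold gA gBox gR0 gT gBox
      omega
    · have e2 := (A i j r).2 hp
      have hz : 0 ≤ H i j := by
        obtain ⟨⟨b1, b2, b3, b4⟩, -⟩ := id r
        by_cases c1 : j = 0 ∧ 1 ≤ i ∧ i ≤ n - 2
        · obtain ⟨rfl, c2, c3⟩ := c1
          have e3 := hR i (0 + 1) (Or.inl ⟨⟨c2, c3, by omega, by omega, by omega⟩, by omega⟩)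
          have := (h1 i 0 hp).2.2.2
          omega
        by_cases c2 : j = n - 1 ∧ 1 ≤ i ∧ i ≤ n - 2
        · obtain ⟨rfl, c3, c4⟩ := c2
          have e3 := hR i ((n : ℤ) - 1 - 1) (Or.inl ⟨⟨c3, c4, by omega, by omega, by omega⟩, by omega⟩)
          have := (h1 i _ hp).2.2.1
          omega
        by_cases c3 : i = 0 ∧ 1 ≤ j ∧ j ≤ n - 2
        · obtain ⟨rfl, c4, c5⟩ := c3
          have e3 := hR (0 + 1) j (Or.inl ⟨⟨by omega, by omega, c4, c5, by omega⟩, by omega⟩)
          have := (h1 0 j hp).2.1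
          omega
        by_cases c4 : i = n - 1 ∧ 1 ≤ j ∧ j ≤ n - 2
        · obtain ⟨rfl, c5, c6⟩ := c4
          have e3 := hR ((n : ℤ) - 1 - 1) j (Or.inl ⟨⟨by omega, by omega, c5, c6, by omega⟩, by omega⟩)
          have := (h1 _ j hp).1
          omega
        by_cases c5 : i = 0 ∧ j = 0
        · obtain ⟨rfl, rfl⟩ := c5
          have e3 := hR (0 + 1) 0 (Or.inr ⟨⟨⟨by omega, by omega, by omega, by omega⟩, by omega⟩,
            by unfold gT; omega, by omega⟩)
          have := (h1 0 0 hp).2.1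
          omega
        by_cases c6 : i = n - 1 ∧ j = 0
        · obtain ⟨rfl, rfl⟩ := c6
          have e3 := hR ((n : ℤ) - 1 - 1) 0 (Or.inr ⟨⟨⟨by omega, by omega, by omega, by omega⟩, by omega⟩,
            by unfold gT; omega, by omega⟩)
          have := (h1 _ 0 hp).1
          omega
        by_cases c7 : i = 0 ∧ j = n - 1
        · obtain ⟨rfl, rfl⟩ := c7
          have e3 := hR 0 ((n : ℤ) - 1 - 1) (Or.inr ⟨⟨⟨by omega, by omega, by omega, by omega⟩, by omega⟩,
            by unfold gT; omega, by omega⟩)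
          have := (h1 0 _ hp).2.2.1
          omega
        exfalso
        obtain ⟨-, r2⟩ := r
        omega
      refine ⟨fun h => ?_, fun _ => by omega⟩
      exfalso
      exact h.2.2.2 ⟨r, by unfold gT; omega⟩
  · have r : gR0 n i ((n : ℤ) - 1) := ⟨⟨by omega, by omega, by omega, by omega⟩, by omega⟩
    rcases Int.emod_two_eq_zero_or_one (i + ((n : ℤ) - 1) + c) with hp | hp
    · have e2 := (A i _ r).1 hp
      have e3 := hR i ((n : ℤ) - 1 - 1) (Or.inl ⟨⟨a1, a2, by omega, by omega, by omega⟩, by omega⟩)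
      have := (h0 i _ hp).2.2.1
      refine ⟨fun _ => by omega, fun h => ?_⟩
      exfalso
      apply h
      unfold gA gBox gR0 gT gBox
      omega
    · have e2 := (A i _ r).2 hp
      have e3 := hR i ((n : ℤ) - 1 - 1) (Or.inl ⟨⟨a1, a2, by omega, by omega, by omega⟩, by omega⟩)
      have := (h1 i _ hp).2.2.1
      refine ⟨fun h => ?_, fun _ => by omega⟩
      exfalso
      exact h.2.2.2 ⟨r, by unfold gT; omega⟩
  · have r : gR0 n ((n : ℤ) - 1) j := ⟨⟨by omega, by omega, by omega, by omega⟩, by omega⟩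
    rcases Int.emod_two_eq_zero_or_one (((n : ℤ) - 1) + j + c) with hp | hp
    · have e2 := (A _ j r).1 hp
      have e3 := hR ((n : ℤ) - 1 - 1) j (Or.inl ⟨⟨by omega, by omega, a1, a2, by omega⟩, by omega⟩)
      have := (h0 _ j hp).1
      refine ⟨fun _ => by omega, fun h => ?_⟩
      exfalso
      apply h
      unfold gA gBox gR0 gT gBox
      omega
    · have e2 := (A _ j r).2 hp
      have e3 := hR ((n : ℤ) - 1 - 1) j (Or.inl ⟨⟨by omega, by omega, a1, a2, by omega⟩, by omega⟩)
      have := (h1 _ j hp).1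
      refine ⟨fun h => ?_, fun _ => by omega⟩
      exfalso
      exact h.2.2.2 ⟨r, by unfold gT; omega⟩

private theorem gfix_ind (g : Finset Edge) (e : Edge) : ind g e = 0 ∨ ind g e = 1 := by
  unfold ind
  split_ifs
  · exact Or.inr rfl
  · exact Or.inl rfl

open Classical in
theorem forced {n : ℕ} {s c : ℤ} (h : Par n s c) {g : Finset Edge} (hg : g ∈ EEc n s c) {i j : ℤ} (hV : gV n c i j) :
    s * F g i j = if gA n c i j then 1 else 0 := by
  obtain ⟨hOm, hE⟩ := Finset.mem_filter.1 hg
  have key := gfix_abs h.hn h.lo h.hi (fun i j => s * F g i j)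
    (fun i j hp => by
      have e1 := (s_step h hOm i j).1 hp
      have e2 := (s_step h hOm (i + 1) j).2 (by unfold gT; omega)
      have e3 := (s_step h hOm i (j + 1)).2 (by unfold gT; omega)
      rw [add_sub_cancel_right] at e2 e3
      have f1 := gfix_ind g (true, i, j)
      have f2 := gfix_ind g (false, i, j)
      have f3 := gfix_ind g (true, i + 1, j)
      have f4 := gfix_ind g (false, i, j + 1)
      have e21 := e2.1
      have e32 := e3.2
      have e11 := e1.1
      have e12 := e1.2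
      refine ⟨?_, ?_, ?_, ?_⟩ <;> omega)
    (fun i j hp => by
      have e1 := (s_step h hOm i j).2 (by unfold gT; omega)
      have e2 := (s_step h hOm (i + 1) j).1 (by unfold gT; omega)
      have e3 := (s_step h hOm i (j + 1)).1 (by unfold gT; omega)
      rw [add_sub_cancel_right] at e2 e3
      have f1 := gfix_ind g (true, i, j)
      have f2 := gfix_ind g (false, i, j)
      have f3 := gfix_ind g (true, i + 1, j)
      have f4 := gfix_ind g (false, i, j + 1)
      have e21 := e2.1
      have e32 := e3.2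
      have e11 := e1.1
      have e12 := e1.2
      refine ⟨?_, ?_, ?_, ?_⟩ <;> omega)
    (fun i j hb => by
      have := F_supp hOm (i := i) (j := j) (fun hm => hb (mem_box'.1 hm))
      simp only [this, mul_zero])
    (fun i j hr => hE (i, j) (mem_box'.2 (gR_sub h hr).1) hr) hV
  by_cases hA : gA n c i j
  · rw [if_pos hA]
    exact key.1 hA
  · rw [if_neg hA]
    exact key.2 hA

end

end Pool.Agent.H40.WM
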