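import Mathlib
import Pool.Agent.H40.WM.GFix
import Pool.Agent.H40.WM.GEdg
import Pool.Agent.H40.WM.IDfc

/-!
# GDec: the configurations of `EE(c)`

* `ee_to`: `g ∈ EE(c)`.  For a fixed edge `e` (both faces known; a known face outside the box has height `0` and is not in `gA`): `e ∈ g` iff the heights of `g` on its sides differ (`s_step`), iff exactly one of them is in `gA` (`forced`), iff `e ∈ gS` (`mem_gS`).
  So for `e ∉ gD` (in `E n`): `e ∈ g ↔ e ∈ gS ↔ e ∈ gP` (the staircase is in `gD`).  Hence `gP ⊆ g` (`gP_fx`, and `gP ∩ gD = ∅`), `g \ gP ⊆ gD`; defects: `dfc g = 0` (`VC_iff_dfc`), `gP_dfc`.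
* `ee_of`: `g = gP ∪ g'` with `g' ⊆ gD`, `dfc g' = [a] - [b]`: disjoint, `VC`, `⊆ E n`, so `g ∈ Om n`.  Let `G = gS`.  For every edge `e ∉ gD`: `ind g e = ind G e` (both are `ind gP e`).  So by `s_step` across an edge not in `gD` the heights of `g` and `G` have the same difference, and both vanish outside the box.
  For the faces of `gR` go from the outside through edges not in `gD` (an edge with both faces known, different from `Hr a`, `Vu b`):
  - ring 0, sum `≤ c - 1`: `(0,j)` through `(true,0,j)`; `(i,0)` through `(false,i,0)`; `(i,n-1)` through `(false,i,n)`; `(n-1,j)` through `(true,n,j)`.  Also `(i,n-1)`, `1 ≤ i ≤ n-2`, sum `≤ c+1` through `(false,i,n)`, and `(n-1,j)` through `(true,n,j)`.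
  - ring 1, sum `≤ c`: `(1,j)` from `(0,j)` through `(true,1,j)`; `(i,1)` from `(i,0)` through `(false,i,1)`; `(i,n-2)` from `(i,n-1)` through `(false,i,n-1)` unless this edge is `Hr a`, i.e. `i + n - 2 = c`, `c ≥ n - 1`; in this case from `(i-1,n-2)` (sum `c-1`, already done, or in ring 0 if `i = 1`... then
    it is `(0,n-2)`) through `(true,i,n-2)`; `(n-2,j)` from `(n-1,j)` through `(true,n-1,j)` unless this is `Vu b`, then from `(n-2,j-1)` through `(false,n-2,j)`.
  So on `gR` `s F g = s F G = 1` (`F_gS`, `gR_sub`).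
-/

set_option autoImplicit false

namespace Pool.Agent.H40.WM

open Pool.Agent.H40.SQ

noncomputable section

theorem gd_om {n : ℕ} {s c : ℤ} {g : Finset Edge} (hg : g ∈ EEc n s c) : g ∈ Om n := by
  classical
  unfold EEc at hg
  exact (Finset.mem_filter.1 hg).1

theorem gd_known {n : ℕ} {s c : ℤ} (h : Par n s c) {g : Finset Edge} (hg : g ∈ EEc n s c) {i j : ℤ} (hK : gK n c i j) :
    (gA n c i j → s * F g i j = 1) ∧ (¬ gA n c i j → s * F g i j = 0) := by
  classical
  rcases hK with hV | hB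
  · have h1 := forced h hg hV
    constructor
    · intro hA
      rw [if_pos hA] at h1
      exact h1
    · intro hA
      rw [if_neg hA] at h1
      exact h1
  · have h0 : F g i j = 0 := F_supp (gd_om hg) (by rw [mem_box']; exact hB)
    refine ⟨fun hA => absurd hA.1 hB, fun _ => ?_⟩
    rw [h0, mul_zero]

theorem gd_ind (g : Finset Edge) (e : Edge) : (e ∈ g ∧ ind g e = 1) ∨ (e ∉ g ∧ ind g e = 0) := by
  unfold ind
  by_cases h : e ∈ g
  · exact Or.inl ⟨h, if_pos h⟩
  · exact Or.inr ⟨h, if_neg h⟩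

theorem gd_fx {n : ℕ} {s c : ℤ} (h : Par n s c) {g : Finset Edge} (hg : g ∈ EEc n s c) {e : Edge} (he : gFx n c e) :
    e ∈ g ↔ e ∈ gS n s c := by
  obtain ⟨b, i, j⟩ := e
  rw [mem_gS h]
  have hst := s_step h (gd_om hg) i j
  have hsub : (b, i, j) ∈ g → (b, i, j) ∈ E n := fun h1 => (mem_Om.1 (gd_om hg)).1 h1
  have hi := gd_ind g (b, i, j)
  obtain ⟨h1, h2⟩ := he
  have k1 := gd_known h hg h1
  cases b
  · simp only [Bool.false_eq_true, if_false] at h2 ⊢
    have k2 := gd_known h hg h2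
    by_cases hA1 : gA n c i j <;> by_cases hA2 : gA n c i (j - 1) <;> by_cases hT : gT c i j
    all_goals
      simp only [hA1, hA2, hT, not_true_eq_false, not_false_eq_true, false_imp_iff, true_imp_iff, true_and, and_true] at k1 k2 hst
      rcases hi with ⟨h3, h4⟩ | ⟨h3, h4⟩
      · have h5 := hsub h3
        first
          | (simp [h3, h5, hA1, hA2]; done)
          | (exfalso; obtain ⟨-, h6⟩ := hst; omega)
      · first
          | (simp [h3, hA1, hA2]; done)
          | (exfalso; obtain ⟨-, h6⟩ := hst; omega)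
  · simp only [if_true] at h2 ⊢
    have k2 := gd_known h hg h2
    by_cases hA1 : gA n c i j <;> by_cases hA2 : gA n c (i - 1) j <;> by_cases hT : gT c i j
    all_goals
      simp only [hA1, hA2, hT, not_true_eq_false, not_false_eq_true, false_imp_iff, true_imp_iff, true_and, and_true] at k1 k2 hst
      rcases hi with ⟨h3, h4⟩ | ⟨h3, h4⟩
      · have h5 := hsub h3
        first
          | (simp [h3, h5, hA1, hA2]; done)
          | (exfalso; obtain ⟨h6, -⟩ := hst; omega)
      · first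
          | (simp [h3, hA1, hA2]; done)
          | (exfalso; obtain ⟨h6, -⟩ := hst; omega)

theorem gd_mem {n : ℕ} {c : ℤ} {e : Edge} : e ∈ gD n c ↔ (e ∈ E n ∧ ¬ gFx n c e) ∨ e = Hr (ga n c) ∨ e = Vu (gb n c) := by
  classical
  unfold gD
  rw [Finset.mem_union, Finset.mem_filter, Finset.mem_insert, Finset.mem_singleton]

theorem ee_to {n : ℕ} {s c : ℤ} (h : Par n s c) {g : Finset Edge} (hg : g ∈ EEc n s c) :
    gP n s c ⊆ g ∧ g \ gP n s c ⊆ gD n c ∧
      ∀ z, dfc (g \ gP n s c) z = (if z = ga n c then 1 else 0) - (if z = gb n c then 1 else 0) := by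
  have h1 : gP n s c ⊆ g := by
    intro e he
    rw [gd_fx h hg (gP_fx h he)]
    unfold gP at he
    exact (Finset.mem_sdiff.1 he).1
  refine ⟨h1, ?_, ?_⟩
  · intro e he
    rw [Finset.mem_sdiff] at he
    by_contra hD
    have hE : e ∈ E n := (mem_Om.1 (gd_om hg)).1 he.1
    have hF : gFx n c e := by
      by_contra hF
      exact hD (gd_mem.2 (Or.inl ⟨hE, hF⟩))
    have hS := (gd_fx h hg hF).1 he.1
    apply he.2
    unfold gP
    rw [Finset.mem_sdiff]
    exact ⟨hS, fun h2 => hD (str_gD h h2)⟩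
  · intro z
    rw [dfc_sdiff h1, gP_dfc h z, (VC_iff_dfc g).1 (mem_Om.1 (gd_om hg)).2 z]
    ring

/-- heights of two configurations with the same edges outside of `gD` -/
private theorem gd_step {n : ℕ} {s c : ℤ} (h : Par n s c) {g g' : Finset Edge} (hg : g ∈ Om n) (hg' : g' ∈ Om n)
    (hh : ∀ e, e ∉ gD n c → (e ∈ g ↔ e ∈ g')) (i j : ℤ) :
    ((true, i, j) ∉ gD n c → s * F g i j - s * F g' i j = s * F g (i - 1) j - s * F g' (i - 1) j) ∧
    ((false, i, j) ∉ gD n c → s * F g i j - s * F g' i j = s * F g i (j - 1) - s * F g' i (j - 1)) := by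
  have h1 := s_step h hg i j
  have h2 := s_step h hg' i j
  have hi : ∀ e, e ∉ gD n c → ind g e = ind g' e := by
    intro e he
    unfold ind
    simp only [hh e he]
  constructor
  · intro he
    have h3 := hi _ he
    by_cases hT : gT c i j
    · have h4 := (h1.1 hT).1
      have h5 := (h2.1 hT).1
      omega
    · have h4 := (h1.2 hT).1
      have h5 := (h2.2 hT).1
      omega
  · intro he
    have h3 := hi _ he
    by_cases hT : gT c i j
    · have h4 := (h1.1 hT).2
      have h5 := (h2.1 hT).2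
      omega
    · have h4 := (h1.2 hT).2
      have h5 := (h2.2 hT).2
      omega

private theorem gd_notin {n : ℕ} {c : ℤ} {e : Edge} (h1 : gFx n c e) (h2 : e ≠ Hr (ga n c)) (h3 : e ≠ Vu (gb n c)) :
    e ∉ gD n c := by
  rw [gd_mem]
  rintro (⟨_, h⟩ | h | h)
  · exact h h1
  · exact h2 h
  · exact h3 h

private theorem gd_notin_t {n : ℕ} {c i j : ℤ} (h1 : gK n c i j) (h2 : gK n c (i - 1) j)
    (h3 : ¬ (i = c + 1 - gal n c ∧ j = gal n c)) : (true, i, j) ∉ gD n c := by
  refine gd_notin ⟨h1, ?_⟩ ?_ ?_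
  · simp only [if_true]
    exact h2
  · unfold Hr
    simp
  · unfold Vu gb
    simp only [ne_eq, Prod.mk.injEq, true_and]
    exact h3

private theorem gd_notin_f {n : ℕ} {c i j : ℤ} (h1 : gK n c i j) (h2 : gK n c i (j - 1))
    (h3 : ¬ (i = gal n c ∧ j = c + 1 - gal n c)) : (false, i, j) ∉ gD n c := by
  refine gd_notin ⟨h1, ?_⟩ ?_ ?_
  · simp only [Bool.false_eq_true, if_false]
    exact h2
  · unfold Hr ga
    simp only [ne_eq, Prod.mk.injEq, true_and]
    exact h3
  · unfold Vu
    simp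

theorem ee_of {n : ℕ} {s c : ℤ} (h : Par n s c) {g' : Finset Edge} (hg' : g' ⊆ gD n c)
    (hd : ∀ z, dfc g' z = (if z = ga n c then 1 else 0) - (if z = gb n c then 1 else 0)) :
    gP n s c ∪ g' ∈ EEc n s c := by
  classical
  have hn := h.hn
  have hlo := h.lo
  have hhi := h.hi
  have hdis : Disjoint (gP n s c) g' := Disjoint.mono_right hg' (gP_gD h)
  obtain ⟨g, hgdef⟩ : ∃ g, g = gP n s c ∪ g' := ⟨_, rfl⟩
  rw [← hgdef]
  have hOm : g ∈ Om n := by
    rw [mem_Om, hgdef]
    refine ⟨Finset.union_subset (gP_E h) (hg'.trans (gD_E h)), ?_⟩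
    rw [VC_iff_dfc]
    intro z
    rw [dfc_union hdis, gP_dfc h z, hd z]
    ring
  have hS := gS_mem h
  have hh : ∀ e, e ∉ gD n c → (e ∈ g ↔ e ∈ gS n s c) := by
    intro e he
    rw [hgdef, Finset.mem_union]
    constructor
    · rintro (h1 | h1)
      · unfold gP at h1
        exact (Finset.mem_sdiff.1 h1).1
      · exact absurd (hg' h1) he
    · intro h1
      left
      unfold gP
      rw [Finset.mem_sdiff]
      exact ⟨h1, fun h2 => he (str_gD h h2)⟩
  have hstep := gd_step h hOm hS hh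
  obtain ⟨Dl, hDl⟩ : ∃ Dl : ℤ → ℤ → ℤ, ∀ i j, Dl i j = s * F g i j - s * F (gS n s c) i j := ⟨_, fun _ _ => rfl⟩
  simp only [← hDl] at hstep
  have hout : ∀ i j : ℤ, ¬ gBox n i j → Dl i j = 0 := by
    intro i j hB
    rw [hDl, F_supp hOm (by rw [mem_box']; exact hB), F_supp hS (by rw [mem_box']; exact hB)]
    ring
  have hgal : (gal n c = 1 ∧ c ≤ n - 1) ∨ (gal n c = c - n + 2 ∧ n - 1 ≤ c) := by
    unfold gal
    omega
  -- ring 0
  have r0 : ∀ i j : ℤ, gV n c i j → (i = 0 ∨ j = 0 ∨ i = n - 1 ∨ j = n - 1) → Dl i j = 0 := by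
    intro i j hV hr
    have hB : gBox n i j := gV_box h hV
    have hK : gK n c i j := Or.inl hV
    have hB' := hB
    unfold gBox at hB'
    rcases hr with hr | hr | hr | hr
    · have hb : ¬ gBox n (i - 1) j := by unfold gBox; omega
      rw [(hstep i j).1 (gd_notin_t hK (Or.inr hb) (by omega)), hout _ _ hb]
    · have hb : ¬ gBox n i (j - 1) := by unfold gBox; omega
      rw [(hstep i j).2 (gd_notin_f hK (Or.inr hb) (by omega)), hout _ _ hb]
    · have hb : ¬ gBox n (i + 1) j := by unfold gBox; omega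
      have h1 := (hstep (i + 1) j).1 (gd_notin_t (Or.inr hb) (by rw [add_sub_cancel_right]; exact hK) (by omega))
      rw [hout _ _ hb, add_sub_cancel_right] at h1
      exact h1.symm
    · have hb : ¬ gBox n i (j + 1) := by unfold gBox; omega
      have h1 := (hstep i (j + 1)).2 (gd_notin_f (Or.inr hb) (by rw [add_sub_cancel_right]; exact hK) (by omega))
      rw [hout _ _ hb, add_sub_cancel_right] at h1
      exact h1.symm
  have r1a : ∀ i j : ℤ, gR1 n i j → i + j ≤ c → (i = 1 ∨ j = 1) → Dl i j = 0 := by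
    intro i j hR hs hr
    have hK : gK n c i j := Or.inl (Or.inl ⟨hR, hs⟩)
    have hR' := hR
    unfold gR1 at hR'
    rcases hr with hr | hr
    · have hV : gV n c (i - 1) j := by
        unfold gV gR0 gBox
        omega
      rw [(hstep i j).1 (gd_notin_t hK (Or.inl hV) (by omega))]
      exact r0 _ _ hV (by omega)
    · have hV : gV n c i (j - 1) := by
        unfold gV gR0 gBox
        omega
      rw [(hstep i j).2 (gd_notin_f hK (Or.inl hV) (by omega))]
      exact r0 _ _ hV (by omega)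
  have r1b : ∀ i j : ℤ, gR1 n i j → i + j ≤ c → j = n - 2 → i ≠ gal n c ∨ i + j ≤ c - 1 → Dl i j = 0 := by
    intro i j hR hs hj hne
    have hK : gK n c i j := Or.inl (Or.inl ⟨hR, hs⟩)
    have hR' := hR
    unfold gR1 at hR'
    have hV : gV n c i (j + 1) := by
      unfold gV gR0 gBox
      omega
    have h1 := (hstep i (j + 1)).2 (gd_notin_f (Or.inl hV) (by rw [add_sub_cancel_right]; exact hK) (by omega))
    rw [add_sub_cancel_right] at h1
    rw [← h1]
    exact r0 _ _ hV (by omega)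
  have r1c : ∀ i j : ℤ, gR1 n i j → i + j ≤ c → i = n - 2 → j ≠ gal n c ∨ i + j ≤ c - 1 → Dl i j = 0 := by
    intro i j hR hs hj hne
    have hK : gK n c i j := Or.inl (Or.inl ⟨hR, hs⟩)
    have hR' := hR
    unfold gR1 at hR'
    have hV : gV n c (i + 1) j := by
      unfold gV gR0 gBox
      omega
    have h1 := (hstep (i + 1) j).1 (gd_notin_t (Or.inl hV) (by rw [add_sub_cancel_right]; exact hK) (by omega))
    rw [add_sub_cancel_right] at h1
    rw [← h1]
    exact r0 _ _ hV (by omega)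
  have r1 : ∀ i j : ℤ, gR1 n i j → i + j ≤ c → Dl i j = 0 := by
    intro i j hR hs
    have hK : gK n c i j := Or.inl (Or.inl ⟨hR, hs⟩)
    have hR' := hR
    unfold gR1 at hR'
    by_cases ha : i = 1 ∨ j = 1
    · exact r1a i j hR hs ha
    · rw [not_or] at ha
      by_cases hb : j = n - 2
      · by_cases hc : i ≠ gal n c ∨ i + j ≤ c - 1
        · exact r1b i j hR hs hb hc
        · have hR2 : gR1 n (i - 1) j := by unfold gR1; omega
          have hK2 : gK n c (i - 1) j := Or.inl (Or.inl ⟨hR2, by omega⟩)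
          rw [(hstep i j).1 (gd_notin_t hK hK2 (by omega))]
          exact r1b _ _ hR2 (by omega) hb (by omega)
      · have hb' : i = n - 2 := by omega
        by_cases hc : j ≠ gal n c ∨ i + j ≤ c - 1
        · exact r1c i j hR hs hb' hc
        · have hR2 : gR1 n i (j - 1) := by unfold gR1; omega
          have hK2 : gK n c i (j - 1) := Or.inl (Or.inl ⟨hR2, by omega⟩)
          rw [(hstep i j).2 (gd_notin_f hK hK2 (by omega))]
          exact r1c _ _ hR2 (by omega) hb' (by omega)
  unfold EEc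
  rw [Finset.mem_filter]
  refine ⟨hOm, fun x hx hR => ?_⟩
  have h0 : Dl x.1 x.2 = 0 := by
    rcases hR with ⟨h1, h2⟩ | ⟨h1, h2, h3⟩
    · exact r1 _ _ h1 h2
    · refine r0 _ _ (gR_sub h (Or.inr ⟨h1, h2, h3⟩)).2.2 ?_
      unfold gR0 at h1
      omega
  have hA := (gR_sub h hR).2.1
  rw [hDl, F_gS h, if_pos hA] at h0
  have hs : s * s = 1 := by
    rcases h.par with ⟨h1, _⟩ | ⟨h1, _⟩ <;> rw [h1] <;> norm_num
  linarith

theorem ee_up {n : ℕ} {s c : ℤ} : UpS n s (EEc n s c) := by
  classical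
  refine ⟨fun g hg => gd_om hg, fun g hg g' hg' hle => ?_⟩
  unfold EEc at hg ⊢
  rw [Finset.mem_filter] at hg ⊢
  exact ⟨hg', fun x hx hR => (hg.2 x hx hR).trans (hle _ _)⟩

theorem ee_mono {n : ℕ} {s c c' : ℤ} (h : Par n s c) (h' : Par n s c') (hcc : c' ≤ c) : EEc n s c ⊆ EEc n s c' := by
  classical
  intro g hg
  unfold EEc at hg ⊢
  rw [Finset.mem_filter] at hg ⊢
  refine ⟨hg.1, fun x hx hR => hg.2 x hx ?_⟩
  have h1 := h.par
  have h2 := h'.par
  unfold gR gT at hR ⊢
  rcases hR with ⟨h3, h4⟩ | ⟨h3, h4, h5⟩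
  · exact Or.inl ⟨h3, h4.trans hcc⟩
  · exact Or.inr ⟨h3, by omega, by omega⟩

end

end Pool.Agent.H40.WM
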