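import Mathlib
import Pool.Agent.H40.WM.GEdg

/-!
# GTch: free edges and frozen edges touch only at `a` and `b`

Let `e ∈ gD`, `e' ∈ gP`, `z` a common end.  `e'` has both faces known (`gP_fx`), exactly one of them in `gA`, and is not in the staircase.  `e` is `Hr a` or `Vu b` or has an unknown face.  Write `z = (x,y)`; the four edges at `z` and the four faces `(x-1,y-1)`, `(x,y-1)`, `(x-1,y)`, `(x,y)` around it;
`e, e'` are two of the four edges (`ends_iff`).  Sixteen combinations, each is linear arithmetic (`omega` after unfolding `gFx, gK, gV, gA, gBox, gR0, gR1, gT, gal`, splitting the `max`; to help `omega` split first the cases `c ≤ n - 2`, `c ≥ n - 1`).  The conclusion is `z = a` or `z = b`.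
-/

set_option autoImplicit false

namespace Pool.Agent.H40.WM

open Pool.Agent.H40.SQ

noncomputable section

/-- a known face in `gA` -/
private def KA (n c i j : ℤ) : Prop := ((1 ≤ i ∧ i ≤ n - 2 ∧ 1 ≤ j ∧ j ≤ n - 2 ∧ (i = 1 ∨ j = 1 ∨ i = n - 2 ∨ j = n - 2)) ∧ i + j ≤ c) ∨
  (((0 ≤ i ∧ i < n ∧ 0 ≤ j ∧ j < n) ∧ (i = 0 ∨ j = 0 ∨ i = n - 1 ∨ j = n - 1)) ∧ (i + j + c) % 2 = 0 ∧ (i + j ≤ c - 2 ∨ (i + j = c ∧ ((j = n - 1 ∧ 1 ≤ i ∧ i ≤ n - 2) ∨
      (i = n - 1 ∧ 1 ≤ j ∧ j ≤ n - 2)))))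

/-- a known face not in `gA` -/
private def KN (n c i j : ℤ) : Prop := ¬ (0 ≤ i ∧ i < n ∧ 0 ≤ j ∧ j < n) ∨
  (((0 ≤ i ∧ i < n ∧ 0 ≤ j ∧ j < n) ∧ (i = 0 ∨ j = 0 ∨ i = n - 1 ∨ j = n - 1)) ∧ (i + j + c) % 2 = 1 ∧ (i + j ≤ c - 1 ∨ (i + j = c + 1 ∧ ((j = n - 1 ∧ 1 ≤ i ∧ i ≤ n - 2) ∨
      (i = n - 1 ∧ 1 ≤ j ∧ j ≤ n - 2)))))

/-- an unknown face -/
private def UK (n c i j : ℤ) : Prop := (2 ≤ i ∧ i ≤ n - 3 ∧ 2 ≤ j ∧ j ≤ n - 3) ∨ ((1 ≤ i ∧ i ≤ n - 2 ∧ 1 ≤ j ∧ j ≤ n - 2 ∧ (i = 1 ∨ j = 1 ∨ i = n - 2 ∨ j = n - 2)) ∧ c + 1 ≤ i + j) ∨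
  (((0 ≤ i ∧ i < n ∧ 0 ≤ j ∧ j < n) ∧ (i = 0 ∨ j = 0 ∨ i = n - 1 ∨ j = n - 1)) ∧ c ≤ i + j ∧
      (j = n - 1 → 1 ≤ i → i ≤ n - 2 → c + 2 ≤ i + j) ∧ (i = n - 1 → 1 ≤ j → j ≤ n - 2 → c + 2 ≤ i + j))

private theorem gt_r1 {n c x y al : ℤ} (hn : 5 ≤ n) (h2 : 2 ≤ c) (h6 : c ≤ 2 * n - 6)
    (hal : (al = 1 ∧ c ≤ n - 1) ∨ (al = c - n + 2 ∧ n - 1 ≤ c))
  (h : (KA n c x y ∧ KN n c x (y-1)) ∨ (KN n c x y ∧ KA n c x (y-1))) (hu : UK n c (x-1) y ∨ UK n c (x - 1) (y - 1)) (hns : x + y = c + 1 → x < al ∨ c + 1 - al ≤ x) :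
   (x = al ∧ y = c + 1 - al) ∨ (x = c + 1 - al ∧ y = al) := by
  unfold KA KN UK at *
  rcases hu with hu | hu <;> rcases h with ⟨h, h'⟩ | ⟨h, h'⟩ <;> omega
private theorem gt_r2 {n c x y al : ℤ} (hn : 5 ≤ n) (h2 : 2 ≤ c) (h6 : c ≤ 2 * n - 6)
    (hal : (al = 1 ∧ c ≤ n - 1) ∨ (al = c - n + 2 ∧ n - 1 ≤ c))
  (h : (KA n c (x-1) y ∧ KN n c (x-1) (y-1)) ∨ (KN n c (x-1) y ∧ KA n c (x-1) (y-1))) (hu : UK n c x y ∨ UK n c x (y - 1)) (hns : x + y = c + 2 → x - 1 < al ∨ c + 1 - al ≤ x - 1) :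
   (x = al ∧ y = c + 1 - al) ∨ (x = c + 1 - al ∧ y = al) := by
  unfold KA KN UK at *
  rcases hu with hu | hu <;> rcases h with ⟨h, h'⟩ | ⟨h, h'⟩ <;> omega
private theorem gt_r3 {n c x y al : ℤ} (hn : 5 ≤ n) (h2 : 2 ≤ c) (h6 : c ≤ 2 * n - 6)
    (hal : (al = 1 ∧ c ≤ n - 1) ∨ (al = c - n + 2 ∧ n - 1 ≤ c))
  (h : (KA n c x y ∧ KN n c (x-1) y) ∨ (KN n c x y ∧ KA n c (x-1) y)) (hu : UK n c x (y-1) ∨ UK n c (x - 1) (y - 1)) (hns : x + y = c + 1 → x < al + 1 ∨ c + 2 - al ≤ x) :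
   (x = al ∧ y = c + 1 - al) ∨ (x = c + 1 - al ∧ y = al) := by
  unfold KA KN UK at *
  rcases hu with hu | hu <;> rcases h with ⟨h, h'⟩ | ⟨h, h'⟩ <;> omega
private theorem gt_r4 {n c x y al : ℤ} (hn : 5 ≤ n) (h2 : 2 ≤ c) (h6 : c ≤ 2 * n - 6)
    (hal : (al = 1 ∧ c ≤ n - 1) ∨ (al = c - n + 2 ∧ n - 1 ≤ c))
  (h : (KA n c x (y-1) ∧ KN n c (x-1) (y-1)) ∨ (KN n c x (y-1) ∧ KA n c (x-1) (y-1))) (hu : UK n c x y ∨ UK n c (x - 1) y) (hns : x + y = c + 2 → x < al + 1 ∨ c + 2 - al ≤ x) :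
   (x = al ∧ y = c + 1 - al) ∨ (x = c + 1 - al ∧ y = al) := by
  unfold KA KN UK at *
  rcases hu with hu | hu <;> rcases h with ⟨h, h'⟩ | ⟨h, h'⟩ <;> omega

private theorem gt_unk {n : ℕ} {c : ℤ} (hn : 5 ≤ n) (h2 : 2 ≤ c) (h6 : c ≤ 2 * n - 6) {i j : ℤ} (h : ¬ gK n c i j) : UK n c i j := by
  unfold gK gV at h
  unfold UK
  unfold gR1 gR0 gBox at *
  omega

private theorem gt_ka {n : ℕ} {c : ℤ} (hn : 5 ≤ n) (h2 : 2 ≤ c) (h6 : c ≤ 2 * n - 6) {i j : ℤ} (h : gK n c i j) (hA : gA n c i j) :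
    KA n c i j := by
  unfold gK gV at h
  unfold gA at hA
  unfold gT at hA
  unfold KA
  unfold gR1 gR0 gBox at *
  omega

private theorem gt_kn {n : ℕ} {c : ℤ} (hn : 5 ≤ n) (h2 : 2 ≤ c) (h6 : c ≤ 2 * n - 6) {i j : ℤ} (h : gK n c i j) (hA : ¬ gA n c i j) :
    KN n c i j := by
  unfold gK gV at h
  unfold gA at hA
  unfold gT at hA
  unfold KN
  unfold gR1 gR0 gBox at *
  omega

private theorem gt_ends {e : Edge} {z : ℤ × ℤ} : z ∈ ends e ↔ e = Hr z ∨ e = Hl z ∨ e = Vu z ∨ e = Vd z := by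
  obtain ⟨t, x, y⟩ := e
  obtain ⟨p, q⟩ := z
  cases t
  · simp only [ends, Hr, Hl, Vu, Vd, Bool.false_eq_true, if_false, Finset.mem_insert, Finset.mem_singleton, Prod.mk.injEq,
      true_and, false_and, or_false]
    omega
  · simp only [ends, Hr, Hl, Vu, Vd, Bool.true_eq_false, if_true, Finset.mem_insert, Finset.mem_singleton, Prod.mk.injEq,
      true_and, false_and, false_or]
    omega

/-- the two faces of the edge `e'` -/
private theorem gt_pair {n : ℕ} {c : ℤ} (hn : 5 ≤ n) (h2 : 2 ≤ c) (h6 : c ≤ 2 * n - 6) {i j k l : ℤ} (h1 : gK n c i j)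
    (h2' : gK n c k l) (h3 : ¬ (gA n c i j ↔ gA n c k l)) :
    (KA n c i j ∧ KN n c k l) ∨ (KN n c i j ∧ KA n c k l) := by
  by_cases a1 : gA n c i j
  · by_cases a2 : gA n c k l
    · exact absurd (iff_of_true a1 a2) h3
    · exact Or.inl ⟨gt_ka hn h2 h6 h1 a1, gt_kn hn h2 h6 h2' a2⟩
  · by_cases a2 : gA n c k l
    · exact Or.inr ⟨gt_kn hn h2 h6 h1 a1, gt_ka hn h2 h6 h2' a2⟩
    · exact absurd (iff_of_false a1 a2) h3

private theorem gt_sum {n c i j : ℤ} (h : KA n c i j) : i + j ≤ c := by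
  unfold KA at h
  omega

theorem g_touch {n : ℕ} {s c : ℤ} (h : Par n s c) {e e' : Edge} (he : e ∈ gD n c) (he' : e' ∈ gP n s c) {z : ℤ × ℤ}
    (hz : z ∈ ends e) (hz' : z ∈ ends e') : z = ga n c ∨ z = gb n c := by
  have hn := h.hn
  have hlo := h.lo
  have hhi := h.hi
  have hfx := gP_fx h he'
  have hmem : e' ∈ gS n s c ∧ e' ∉ Str (ga n c) (gn0 n c) := Finset.mem_sdiff.1 he'
  obtain ⟨hS, hns⟩ := hmem
  have hdiff := ((mem_gS h e').1 hS).2
  rw [mem_Str] at hns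
  obtain ⟨hn01, hn0⟩ := gn0_pos h
  have hal : (gal n c = 1 ∧ c ≤ n - 1) ∨ (gal n c = c - n + 2 ∧ (n : ℤ) - 1 ≤ c) := by
    unfold gal
    omega
  have hD : (e ∈ E n ∧ ¬ gFx n c e) ∨ e = Hr (ga n c) ∨ e = Vu (gb n c) := by
    unfold gD at he
    simp only [Finset.mem_union, Finset.mem_filter, Finset.mem_insert, Finset.mem_singleton] at he
    tauto
  rw [gt_ends] at hz hz'
  obtain ⟨x, y⟩ := z
  rw [ga, gb, Prod.mk.injEq, Prod.mk.injEq]
  simp only [ga] at hns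
  rw [ga, gb] at hD
  generalize gal n c = al at *
  have hD' : (∃ u v, ¬ gK n c u v ∧ (u = x ∨ u = x - 1) ∧ (v = y ∨ v = y - 1)) ∨
      (x = al ∧ y = c + 1 - al) ∨ (x = al + 1 ∧ y = c + 1 - al) ∨ (x = c + 1 - al ∧ y = al) ∨ (x = c + 1 - al ∧ y = al + 1) := by
    rcases hD with ⟨-, hD⟩ | rfl | rfl
    · left
      have h1 : ¬ gK n c e.2.1 e.2.2 ∨ ¬ (if e.1 = true then gK n c (e.2.1 - 1) e.2.2 else gK n c e.2.1 (e.2.2 - 1)) :=
        not_and_or.1 hD
      rcases hz with rfl | rfl | rfl | rfl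
      · rcases h1 with h1 | h1
        · exact ⟨_, _, h1, Or.inl rfl, Or.inl rfl⟩
        · exact ⟨_, _, h1, Or.inl rfl, Or.inr rfl⟩
      · rcases h1 with h1 | h1
        · exact ⟨_, _, h1, Or.inr rfl, Or.inl rfl⟩
        · exact ⟨_, _, h1, Or.inr rfl, Or.inr rfl⟩
      · rcases h1 with h1 | h1
        · exact ⟨_, _, h1, Or.inl rfl, Or.inl rfl⟩
        · exact ⟨_, _, h1, Or.inr rfl, Or.inl rfl⟩
      · rcases h1 with h1 | h1
        · exact ⟨_, _, h1, Or.inl rfl, Or.inr rfl⟩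
        · exact ⟨_, _, h1, Or.inr rfl, Or.inr rfl⟩
    · right
      simp only [Hr, Hl, Vu, Vd, Prod.mk.injEq, true_and, false_and, or_false, Bool.false_eq_true] at hz
      omega
    · right
      simp only [Hr, Hl, Vu, Vd, Prod.mk.injEq, true_and, false_and, false_or, Bool.true_eq_false] at hz
      omega
  clear hz hD he
  rcases hD' with ⟨u, v, hK, huv1, huv2⟩ | hD' | hD' | hD' | hD'
  · have hu := gt_unk hn hlo hhi hK
    rcases hz' with rfl | rfl | rfl | rfl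
    · have hp := gt_pair hn hlo hhi hfx.1 hfx.2 hdiff
      refine gt_r1 (by exact_mod_cast hn) hlo hhi hal hp ?_ ?_
      · rcases huv1 with rfl | rfl
        · rcases huv2 with rfl | rfl
          · exact absurd hfx.1 hK
          · exact absurd hfx.2 hK
        · rcases huv2 with rfl | rfl
          · exact Or.inl hu
          · exact Or.inr hu
      · simp only [Hr, true_and, Bool.false_eq_true, false_and, or_false] at hns
        omega
    · have hp := gt_pair hn hlo hhi hfx.1 hfx.2 hdiff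
      refine gt_r2 (by exact_mod_cast hn) hlo hhi hal hp ?_ ?_
      · rcases huv1 with rfl | rfl
        · rcases huv2 with rfl | rfl
          · exact Or.inl hu
          · exact Or.inr hu
        · rcases huv2 with rfl | rfl
          · exact absurd hfx.1 hK
          · exact absurd hfx.2 hK
      · simp only [Hl, true_and, Bool.false_eq_true, false_and, or_false] at hns
        omega
    · have hp := gt_pair hn hlo hhi hfx.1 hfx.2 hdiff
      refine gt_r3 (by exact_mod_cast hn) hlo hhi hal hp ?_ ?_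
      · rcases huv1 with rfl | rfl
        · rcases huv2 with rfl | rfl
          · exact absurd hfx.1 hK
          · exact Or.inl hu
        · rcases huv2 with rfl | rfl
          · exact absurd hfx.2 hK
          · exact Or.inr hu
      · simp only [Vu, true_and, Bool.true_eq_false, false_and, false_or] at hns
        omega
    · have hp := gt_pair hn hlo hhi hfx.1 hfx.2 hdiff
      refine gt_r4 (by exact_mod_cast hn) hlo hhi hal hp ?_ ?_
      · rcases huv1 with rfl | rfl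
        · rcases huv2 with rfl | rfl
          · exact Or.inl hu
          · exact absurd hfx.1 hK
        · rcases huv2 with rfl | rfl
          · exact Or.inr hu
          · exact absurd hfx.2 hK
      · simp only [Vd, true_and, Bool.true_eq_false, false_and, false_or] at hns
        omega
  · exact Or.inl hD'
  · rcases hz' with rfl | rfl | rfl | rfl
    · rcases gt_pair hn hlo hhi hfx.1 hfx.2 hdiff with ⟨a1, -⟩ | ⟨-, a1⟩
      · have := gt_sum a1
        simp only [Hr] at this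
        omega
      · have := gt_sum a1
        simp only [Hr] at this
        omega
    · simp only [Hl, true_and, Bool.false_eq_true, false_and, or_false] at hns
      omega
    · rcases gt_pair hn hlo hhi hfx.1 hfx.2 hdiff with ⟨a1, -⟩ | ⟨-, a1⟩
      · have := gt_sum a1
        simp only [Vu] at this
        omega
      · have := gt_sum a1
        simp only [Vu] at this
        omega
    · simp only [Vd, true_and, Bool.true_eq_false, false_and, false_or] at hns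
      omega
  · exact Or.inr hD'
  · rcases hz' with rfl | rfl | rfl | rfl
    · rcases gt_pair hn hlo hhi hfx.1 hfx.2 hdiff with ⟨a1, -⟩ | ⟨-, a1⟩
      · have := gt_sum a1
        simp only [Hr] at this
        omega
      · have := gt_sum a1
        simp only [Hr] at this
        omega
    · simp only [Hl, true_and, Bool.false_eq_true, false_and, or_false] at hns
      omega
    · rcases gt_pair hn hlo hhi hfx.1 hfx.2 hdiff with ⟨a1, -⟩ | ⟨-, a1⟩
      · have := gt_sum a1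
        simp only [Vu] at this
        omega
      · have := gt_sum a1
        simp only [Vu] at this
        omega
    · simp only [Vd, true_and, Bool.true_eq_false, false_and, false_or] at hns
      omega

end

end Pool.Agent.H40.WM
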