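import Mathlib
import Pool.Agent.H40.WM.GEdg
import Pool.Agent.H40.WM.GTch

/-!
# GDom: the free edges form a domain for the interface

`Dom n (ga n c) (gb n c) (gn0 n c) (gD n c)`: `pos`, `le`, `hb`, `str` from `GEdg`; `card`: `gD ⊆ E n`, `|E n| ≤ 4 n^2` (`SQ.nwarm_card_E` in `NWarm`, or directly).
Cone: let `z = (x,y)`, `d = uu z - uu a`, `l = lvl a z`, `2|l| + 4 ≤ d`, `2|l| + 4 ≤ 2 n0 - d`.  Then all four faces around `z` have both coordinates in `[2, n-3]`, so they are in the box and not in ring 0 or ring 1: unknown; the four edges are in `E n` and not fixed.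
Indeed `2 x = (uu z + vv z)`, `vv z - vv a = 2 l + (d % 2)`, so `2 x = 2 a.1 + d + 2l + d % 2 ≥ 2 a.1 + 4`, and `2 y = 2 a.2 - d + 2 l + d % 2 ≥ 2 a.2 - 2 n0 + 4 = 2 b.2 + 4`; `a.1, b.2 ≥ 1`.  Upper bounds: `2 y ≤ 2 a.2 - d + 2l + 1 ≤ 2 a.2 - 3`, `2 x ≤ 2 a.1 + d + 2 l + 1 ≤ 2 a.1 + 2 n0 - 3 = 2 b.1 - 3`,
and `a.2, b.1 ≤ n - 1` (if `c ≤ n - 1`: `c`; otherwise `n - 1`).  So `3 ≤ x, y ≤ n - 3`.
-/

set_option autoImplicit false

namespace Pool.Agent.H40.WM

open Pool.Agent.H40.SQ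

noncomputable section

private theorem gdo_mem {n : ℕ} {c : ℤ} {e : Edge} (h : e ∈ E n) (h' : ¬ gFx n c e) : e ∈ gD n c := by
  classical
  unfold gD
  rw [Finset.mem_union, Finset.mem_filter]
  exact Or.inl ⟨h, h'⟩

private theorem gdo_unknown {n : ℕ} {c i j : ℤ} (h1 : 2 ≤ i) (h2 : i ≤ n - 3) (h3 : 2 ≤ j) (h4 : j ≤ n - 3) :
    ¬ gK n c i j := by
  unfold gK gV gR1 gR0 gBox
  omega

private theorem gdo_card_E (n : ℕ) : (E n).card ≤ 4 * n ^ 2 := by
  unfold E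
  refine Finset.card_biUnion_le.trans ?_
  have h1 : ∀ c ∈ box n, (SQ.sq c).card ≤ 4 := by
    intro c _
    unfold SQ.sq
    exact Finset.card_le_four
  refine (Finset.sum_le_sum h1).trans ?_
  rw [Finset.sum_const, smul_eq_mul]
  unfold box
  rw [Finset.card_product, Int.card_Ico]
  simp only [sub_zero, Int.toNat_natCast]
  nlinarith

theorem g_cone {n : ℕ} {s c : ℤ} (h : Par n s c) : ConeD (ga n c) (gn0 n c) (gD n c) := by
  rintro ⟨x, y⟩ h1 h2
  have hn := h.hn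
  have hlo := h.lo
  have hhi := h.hi
  obtain ⟨hp, hn0⟩ := gn0_pos h
  have hgal : (gal n c = 1 ∧ c ≤ n - 1) ∨ (gal n c = c - n + 2 ∧ n - 1 ≤ c) := by
    unfold gal
    omega
  have e1 := le_abs_self (lvl (ga n c) (x, y))
  have e2 := neg_abs_le (lvl (ga n c) (x, y))
  obtain ⟨L, hL⟩ : ∃ L : ℤ, L = |lvl (ga n c) (x, y)| := ⟨_, rfl⟩
  rw [← hL] at h1 h2 e1 e2
  unfold lvl at e1 e2
  unfold uu vv ga at e1 e2
  unfold uu ga at h1 h2
  simp only at h1 h2 e1 e2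
  have hxy : 3 ≤ x ∧ x ≤ n - 3 ∧ 3 ≤ y ∧ y ≤ n - 3 := by
    omega
  obtain ⟨a1, a2, a3, a4⟩ := hxy
  refine ⟨?_, ?_, ?_, ?_⟩
  · unfold Hr
    refine gdo_mem (mem_E_false.2 ⟨by omega, by omega, by omega, by omega⟩) fun hF => ?_
    exact gdo_unknown (n := n) (c := c) (i := x) (j := y) (by omega) (by omega) (by omega) (by omega) hF.1
  · unfold Hl
    refine gdo_mem (mem_E_false.2 ⟨by omega, by omega, by omega, by omega⟩) fun hF => ?_
    exact gdo_unknown (n := n) (c := c) (i := x - 1) (j := y) (by omega) (by omega) (by omega) (by omega) hF.1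
  · unfold Vu
    refine gdo_mem (mem_E_true.2 ⟨by omega, by omega, by omega, by omega⟩) fun hF => ?_
    exact gdo_unknown (n := n) (c := c) (i := x) (j := y) (by omega) (by omega) (by omega) (by omega) hF.1
  · unfold Vd
    refine gdo_mem (mem_E_true.2 ⟨by omega, by omega, by omega, by omega⟩) fun hF => ?_
    exact gdo_unknown (n := n) (c := c) (i := x) (j := y - 1) (by omega) (by omega) (by omega) (by omega) hF.1

theorem g_dom {n : ℕ} {s c : ℤ} (h : Par n s c) : Dom n (ga n c) (gb n c) (gn0 n c) (gD n c) := by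
  obtain ⟨hp, hn0⟩ := gn0_pos h
  have hn := h.hn
  have hlo := h.lo
  have hhi := h.hi
  have hgal : (gal n c = 1 ∧ c ≤ n - 1) ∨ (gal n c = c - n + 2 ∧ n - 1 ≤ c) := by
    unfold gal
    omega
  exact ⟨hp, by omega, gb_eq h, g_cone h, str_gD h, (Finset.card_le_card (gD_E h)).trans (gdo_card_E n)⟩

end

end Pool.Agent.H40.WM
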