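import Mathlib
import Pool.Agent.H40.WM.TDefs
import Pool.Agent.H40.WM.IDfc
import Pool.Agent.H40.WM.QCmp
import Pool.Agent.H40.WM.QVC
import Pool.Agent.H40.WM.QBas

/-!
# VDec: interface and gas

`DC D a b` = subsets of `D` with the defects of a path.  `ifc g' a` = the component of `g'` containing the edges at `a` (all edges at `a` touch each other, so it is `cmp g' e` for any edge `e ∈ g'` with `a ∈ ends e`; there is one since `dfc g' a = 1` for `a ≠ b`).
* `ifc_isP`: `C = ifc g' a`.  At every vertex `C` contains all or none of the edges of `g'` (`cmp_not_tch`), so `dfc C z ∈ {0, dfc g' z}`; `dfc C a = 1`; `dfc C z = 0` for `z ≠ a, b`; if `dfc C b = 0` then `dfc C = [z = a]`: impossible (`no_single`).  So `dfc C = dfc g'`; connected by `cmp_conn`.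
* the rest `g' \ C` has zero defects: VC (`VC_iff_dfc`, `dfc_sdiff`), and does not touch `C`: it is a subset of `D \ N1 C`.
* conversely for `G ∈ PD D a b`, `S ∈ VCs (D \ N1 G)`: `G ∪ S ∈ DC D a b`, `ifc (G ∪ S) a = G` (`cmp_unique`: `G` is connected, `S` does not touch `G`, `G` is nonempty).
* `dec_sum`: the map `(G,S) ↦ G ∪ S` is a bijection from the pairs to `DC D a b` (`Finset.sum_bij`, `Finset.sum_sigma'`).
* `ZP_eq`: `q^|G| ZV (D \ N1 G) = ZV D * omD D G` (`exp (- psiD) = ZV (D \ N1 G)/ZV D`).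
-/

set_option autoImplicit false

namespace Pool.Agent.H40.WM

open Pool.Agent.H40.SQ

noncomputable section

open Classical in
def DC (D : Finset Edge) (a b : ℤ × ℤ) : Finset (Finset Edge) :=
  D.powerset.filter (fun g => ∀ z, dfc g z = (if z = a then 1 else 0) - (if z = b then 1 else 0))

open Classical in
def ifc (g : Finset Edge) (a : ℤ × ℤ) : Finset Edge := g.filter (fun f => ∃ e ∈ g, a ∈ ends e ∧ f ∈ cmp g e)

theorem mem_DC {D : Finset Edge} {a b : ℤ × ℤ} {g : Finset Edge} :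
    g ∈ DC D a b ↔ g ⊆ D ∧ ∀ z, dfc g z = (if z = a then 1 else 0) - (if z = b then 1 else 0) := by
  classical
  unfold DC
  rw [Finset.mem_filter, Finset.mem_powerset]

theorem vdec_edge {g : Finset Edge} {z : ℤ × ℤ} (hz : dfc g z ≠ 0) : ∃ e ∈ g, z ∈ ends e := by
  by_contra hc
  push Not at hc
  apply hz
  have h0 : ∀ e, (e = Hr z ∨ e = Hl z ∨ e = Vu z ∨ e = Vd z) → ind g e = 0 := by
    intro e he
    unfold ind
    rw [if_neg]
    intro heG
    exact hc e heG (ends_iff.2 he)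
  unfold dfc
  rw [h0 (Hr z) (Or.inl rfl), h0 (Hl z) (Or.inr (Or.inl rfl)), h0 (Vu z) (Or.inr (Or.inr (Or.inl rfl))),
    h0 (Vd z) (Or.inr (Or.inr (Or.inr rfl)))]
  norm_num

/-- The defect of a closed subset at a vertex which it visits. -/
theorem vdec_dfc {g C : Finset Edge} (hC : C ⊆ g) (hcl : ∀ x ∈ C, ∀ y ∈ g, Tch x y → y ∈ C) {z : ℤ × ℤ}
    (h : ∃ e ∈ C, z ∈ ends e) : dfc C z = dfc g z := by
  obtain ⟨e, heC, hez⟩ := h
  have h0 : ∀ f, (f = Hr z ∨ f = Hl z ∨ f = Vu z ∨ f = Vd z) → ind C f = ind g f := by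
    intro f hf
    have hfz : z ∈ ends f := ends_iff.2 hf
    unfold ind
    by_cases hfg : f ∈ g
    · rw [if_pos hfg, if_pos (hcl e heC f hfg ⟨z, hez, hfz⟩)]
    · rw [if_neg hfg, if_neg (fun hfC => hfg (hC hfC))]
  unfold dfc
  rw [h0 (Hr z) (Or.inl rfl), h0 (Hl z) (Or.inr (Or.inl rfl)), h0 (Vu z) (Or.inr (Or.inr (Or.inl rfl))),
    h0 (Vd z) (Or.inr (Or.inr (Or.inr rfl)))]

theorem ifc_eq {g : Finset Edge} {a : ℤ × ℤ} {e : Edge} (he : e ∈ g) (hea : a ∈ ends e) : ifc g a = cmp g e := by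
  classical
  have key : ∀ e' ∈ g, a ∈ ends e' → cmp g e' = cmp g e := by
    intro e' he' hea'
    refine cmp_unique (cmp_subset g e) ?_ (cmp_conn g e) (fun x hx y hy hxy => cmp_closed hx hy hxy)
    exact cmp_closed (mem_cmp_self he) he' ⟨a, hea, hea'⟩
  ext f
  unfold ifc
  rw [Finset.mem_filter]
  constructor
  · rintro ⟨-, e', he', hea', hf⟩
    rw [key e' he' hea'] at hf
    exact hf
  · intro hf
    exact ⟨cmp_subset g e hf, e, he, hea, hf⟩

theorem ifc_isP {D : Finset Edge} {a b : ℤ × ℤ} (hab : a ≠ b) {g : Finset Edge} (hg : g ∈ DC D a b) :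
    ifc g a ∈ PD D a b ∧ g \ ifc g a ∈ VCs (D \ N1 (ifc g a)) := by
  obtain ⟨hgD, hgd⟩ := mem_DC.mp hg
  have hda : dfc g a ≠ 0 := by
    rw [hgd a, if_pos rfl, if_neg hab]
    norm_num
  obtain ⟨e, he, hea⟩ := vdec_edge hda
  rw [ifc_eq he hea]
  have hC : cmp g e ⊆ g := cmp_subset g e
  have hcl : ∀ x ∈ cmp g e, ∀ y ∈ g, Tch x y → y ∈ cmp g e := fun x hx y hy hxy => cmp_closed hx hy hxy
  have hcase : ∀ z, dfc (cmp g e) z = dfc g z ∨ dfc (cmp g e) z = 0 := by
    intro z
    by_cases h : dfc (cmp g e) z = 0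
    · exact Or.inr h
    · exact Or.inl (vdec_dfc hC hcl (vdec_edge h))
  have hCa : dfc (cmp g e) a = dfc g a := vdec_dfc hC hcl ⟨e, mem_cmp_self he, hea⟩
  have hCb : dfc (cmp g e) b = dfc g b := by
    rcases hcase b with h | h
    · exact h
    · exfalso
      refine no_single (cmp g e) a (fun z => ?_)
      by_cases hza : z = a
      · rw [if_pos hza, hza, hCa, hgd a, if_pos rfl, if_neg hab]
        norm_num
      · rw [if_neg hza]
        by_cases hzb : z = b
        · rw [hzb, h]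
        · rcases hcase z with h1 | h1
          · rw [h1, hgd z, if_neg hza, if_neg hzb]
            norm_num
          · exact h1
  have hall : ∀ z, dfc (cmp g e) z = dfc g z := by
    intro z
    by_cases hza : z = a
    · rw [hza, hCa]
    · by_cases hzb : z = b
      · rw [hzb, hCb]
      · rcases hcase z with h1 | h1
        · exact h1
        · rw [h1, hgd z, if_neg hza, if_neg hzb]
          norm_num
  refine ⟨mem_PD.mpr ⟨hC.trans hgD, cmp_conn g e, fun z => by rw [hall z, hgd z], fun h => absurd h hab⟩, ?_⟩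
  rw [mem_VCs]
  constructor
  · intro f hf
    have hf' := Finset.mem_sdiff.mp hf
    refine Finset.mem_sdiff.mpr ⟨hgD hf'.1, ?_⟩
    intro hN
    obtain ⟨x, hx, hxf⟩ := mem_N1.mp hN
    exact hf'.2 (hcl x hx f hf'.1 hxf)
  · rw [VC_iff_dfc]
    intro z
    rw [dfc_sdiff hC, hall z, sub_self]

theorem ifc_union {D : Finset Edge} {a b : ℤ × ℤ} (hab : a ≠ b) {G S : Finset Edge} (hG : G ∈ PD D a b) (hS : S ∈ VCs (D \ N1 G)) :
    G ∪ S ∈ DC D a b ∧ ifc (G ∪ S) a = G ∧ Disjoint G S := by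
  obtain ⟨hGD, hP⟩ := mem_PD.mp hG
  obtain ⟨hSD, hV⟩ := mem_VCs.mp hS
  have hnN : ∀ y ∈ S, y ∉ N1 G := fun y hy => (Finset.mem_sdiff.mp (hSD hy)).2
  have hd : Disjoint G S := by
    rw [Finset.disjoint_left]
    intro x hx hxS
    exact hnN x hxS (subset_N1 G hx)
  refine ⟨mem_DC.mpr ⟨Finset.union_subset hGD (fun y hy => (Finset.mem_sdiff.mp (hSD hy)).1), ?_⟩, ?_, hd⟩
  · intro z
    rw [dfc_union hd, (VC_iff_dfc S).mp hV z, hP.def' z, add_zero]
  · have hne : G.Nonempty := by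
      rw [Finset.nonempty_iff_ne_empty]
      intro h
      exact hab ((IsP_empty_iff hP).mp h)
    obtain ⟨e, he, hea⟩ := (IsP_touch hP hne).1
    rw [ifc_eq (Finset.mem_union_left S he) hea]
    refine cmp_unique Finset.subset_union_left he hP.conn ?_
    intro x hx y hy hxy
    rcases Finset.mem_union.mp hy with h | h
    · exact h
    · exact absurd (mem_N1.mpr ⟨x, hx, hxy⟩) (hnN y h)

theorem dec_sum {D : Finset Edge} {a b : ℤ × ℤ} (hab : a ≠ b) (Φ : Finset Edge → ℝ) :
    ∑ g ∈ DC D a b, Φ g = ∑ G ∈ PD D a b, ∑ S ∈ VCs (D \ N1 G), Φ (G ∪ S) := by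
  rw [Finset.sum_sigma']
  refine Finset.sum_bij' (fun g _ => (⟨ifc g a, g \ ifc g a⟩ : (_ : Finset Edge) × Finset Edge)) (fun p _ => p.1 ∪ p.2) ?_ ?_ ?_ ?_ ?_
  · intro g hg
    have h := ifc_isP hab hg
    exact Finset.mem_sigma.mpr ⟨h.1, h.2⟩
  · intro p hp
    have h := Finset.mem_sigma.mp hp
    exact (ifc_union hab h.1 h.2).1
  · intro g hg
    have h : ifc g a ⊆ g := by
      classical
      unfold ifc
      exact Finset.filter_subset _ _
    exact Finset.union_sdiff_of_subset h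
  · intro p hp
    have h := Finset.mem_sigma.mp hp
    obtain ⟨h1, h2, h3⟩ := ifc_union hab h.1 h.2
    obtain ⟨G, S⟩ := p
    simp only at h2 h3 ⊢
    rw [h2, Finset.union_sdiff_cancel_left h3]
  · intro g hg
    have h : ifc g a ⊆ g := by
      classical
      unfold ifc
      exact Finset.filter_subset _ _
    show Φ g = Φ (ifc g a ∪ (g \ ifc g a))
    rw [Finset.union_sdiff_of_subset h]

theorem exp_psiD (q : ℝ) (hq : 0 < q) (D G : Finset Edge) : ZV q D * omD q D G = q ^ G.card * ZV q (D \ N1 G) := by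
  have h1 : 0 < ZV q D := ZV_pos q hq.le D
  have h2 : 0 < ZV q (D \ N1 G) := ZV_pos q hq.le _
  unfold omD psiD
  rw [neg_sub, Real.exp_sub, Real.exp_log h1, Real.exp_log h2]
  field_simp

end

end Pool.Agent.H40.WM
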