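import Mathlib
import Pool.Agent.H40.WM.VDec
import Pool.Agent.H40.WM.GDec
import Pool.Agent.H40.WM.GDom
import Pool.Agent.H40.WM.TW
import Pool.Agent.H40.WM.GEdg

/-!
# VSum: the measure on `EE(c)` as interface and gas

`EEc n s c` is in bijection with `DC (gD) (ga) (gb)` by `g' ↦ gP ∪ g'` (`ee_to`, `ee_of`; injective since `gP` and `gD` are disjoint).  Then `dec_sum`.  `|gP ∪ (G ∪ S)| = |gP| + |G| + |S|`.
`ZE_eq`: `Φ g = q^|g|`: `∑_G ∑_S q^(|gP|+|G|+|S|) = q^|gP| ∑_G q^|G| ZV (D \ N1 G) = q^|gP| ZV D ZP` (`exp_psiD`).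
-/

set_option autoImplicit false

namespace Pool.Agent.H40.WM

open Pool.Agent.H40.SQ

noncomputable section

theorem ga_ne_gb {n : ℕ} {s c : ℤ} (h : Par n s c) : ga n c ≠ gb n c := by
  intro h1
  have h2 := (gn0_pos h)
  have h3 := congrArg Prod.fst h1
  unfold ga gb at h3
  simp only at h3
  omega

theorem ee_sum {n : ℕ} {s c : ℤ} (h : Par n s c) (Φ : Finset Edge → ℝ) :
    ∑ g ∈ EEc n s c, Φ g =
      ∑ G ∈ PD (gD n c) (ga n c) (gb n c), ∑ S ∈ VCs (gD n c \ N1 G), Φ (gP n s c ∪ (G ∪ S)) := by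
  rw [← dec_sum (ga_ne_gb h) (fun g' => Φ (gP n s c ∪ g'))]
  refine Finset.sum_nbij' (fun g => g \ gP n s c) (fun g' => gP n s c ∪ g') ?_ ?_ ?_ ?_ ?_
  · intro g hg
    obtain ⟨-, h2, h3⟩ := ee_to h hg
    exact mem_DC.mpr ⟨h2, h3⟩
  · intro g' hg'
    obtain ⟨h1, h2⟩ := mem_DC.mp hg'
    exact ee_of h h1 h2
  · intro g hg
    exact Finset.union_sdiff_of_subset (ee_to h hg).1
  · intro g' hg'
    have hd : Disjoint (gP n s c) g' := Finset.disjoint_of_subset_right (mem_DC.mp hg').1 (gP_gD h)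
    exact Finset.union_sdiff_cancel_left hd
  · intro g hg
    show Φ g = Φ (gP n s c ∪ (g \ gP n s c))
    rw [Finset.union_sdiff_of_subset (ee_to h hg).1]

theorem ee_card {n : ℕ} {s c : ℤ} (h : Par n s c) {G S : Finset Edge} (hG : G ∈ PD (gD n c) (ga n c) (gb n c))
    (hS : S ∈ VCs (gD n c \ N1 G)) : (gP n s c ∪ (G ∪ S)).card = (gP n s c).card + (G.card + S.card) := by
  obtain ⟨h1, -, h3⟩ := ifc_union (ga_ne_gb h) hG hS
  have hd : Disjoint (gP n s c) (G ∪ S) := Finset.disjoint_of_subset_right (mem_DC.mp h1).1 (gP_gD h)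
  rw [Finset.card_union_of_disjoint hd, Finset.card_union_of_disjoint h3]

theorem ZE_eq {n : ℕ} {s c : ℤ} (h : Par n s c) (q : ℝ) (hq : 0 < q) :
    ZE q (EEc n s c) = q ^ (gP n s c).card * (ZV q (gD n c) * ZP q (gD n c) (ga n c) (gb n c)) := by
  unfold ZE ZP
  rw [ee_sum h, Finset.mul_sum, Finset.mul_sum]
  refine Finset.sum_congr rfl (fun G hG => ?_)
  rw [exp_psiD q hq, ZV, Finset.mul_sum, Finset.mul_sum]
  refine Finset.sum_congr rfl (fun S hS => ?_)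
  rw [ee_card h hG hS, pow_add, pow_add]

end

end Pool.Agent.H40.WM
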