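import Mathlib
import Pool.Agent.H40.WM.VSum
import Pool.Agent.H40.WM.GCnt
import Pool.Agent.H40.WM.TAct
import Pool.Agent.H40.WM.BDefs

/-!
# BDn: densities of consecutive sets

* `dn_mid`: `ZE_eq` for `c - 2` and `c`.  `q^|gP (c-2)| ≤ q^|gP c| / q^400` (`cnt_P`), `ZV (gD (c-2)) ≤ ZV (gD (c-2) ∪ gD c) ≤ 2^400 ZV (gD c)` (`ZV_mono`, `ZV_sdiff_le` with `S = gD (c-2) \ gD c`, `cnt_D`, and `ZV_mono`), `ZP(c-2)^2 ≤ (36/q)^(200200 t0) ZP(c)^2` (`den`; `gn0` for `c - 2` and `c` differ by at most 2),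
  so `ZP(c-2) ≤ (36/q)^(100100 t0) ZP(c)`.
* `dn_bot` (`c ≤ 3`): `ZE (Om n) = ZV (E n)`; `ZE (EEc) ≥` the term `G = Str (ga) (gn0)` of `ee_sum`: `q^(|gP| + |Str|) ZV (gD \ N1 Str)`, `|gP| + |Str| = |gS| ≤ 400` (`cnt_min`, `str_gS`), `|Str| = 2 gn0 ≤ 4` (`gn0 = c - 1 ≤ 2`), `|N1 Str| ≤ 28`, `ZV (E n) ≤ 2^(400 + 28) ZV (gD \ N1 Str)` (`ZV_sdiff_le` with
  `S = (E n \ gD) ∪ N1 Str`).
* `dn_small` (`n ≤ 4`): `ZE (Om n) ≤ 2^|E n|`, `|E n| ≤ 40`, and `q^|g0| ≥ q^40`.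
-/

set_option autoImplicit false

namespace Pool.Agent.H40.WM

open Pool.Agent.H40.SQ

noncomputable section

private theorem BDn_q1 (q : ℝ) (hq0 : 0 < q) (hq1 : 36 ^ 2000 * q ≤ 1) : q ≤ 1 ∧ 108 * q ≤ 1 := by
  have h1 : (108 : ℝ) ≤ 36 ^ 2000 := by
    calc (108 : ℝ) ≤ 36 ^ 2 := by norm_num
      _ ≤ 36 ^ 2000 := pow_le_pow_right₀ (by norm_num) (by norm_num)
  have h2 : 108 * q ≤ 1 := (mul_le_mul_of_nonneg_right h1 hq0.le).trans hq1
  clear hq1 h1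
  exact ⟨by linarith, h2⟩

private theorem BDn_R (q : ℝ) (hq0 : 0 < q) (hq : q ≤ 1) : 2 ≤ 2 / q ∧ 1 ≤ 2 / q ∧ 0 ≤ 2 / q := by
  have h1 : 2 ≤ 2 / q := by
    rw [le_div_iff₀ hq0]
    linarith
  exact ⟨h1, by linarith, by linarith⟩

private theorem BDn_Ecard (n : ℕ) : (E n).card ≤ n ^ 2 * 4 := by
  classical
  unfold E
  have h1 : (box n).card = n ^ 2 := by
    unfold box
    rw [Finset.card_product, Int.card_Ico, sub_zero, Int.toNat_natCast, pow_two]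
  rw [← h1]
  refine Finset.card_biUnion_le_card_mul _ _ 4 (fun c _ => ?_)
  unfold SQ.sq
  exact Finset.card_le_four

private theorem BDn_ZP (q : ℝ) (hq0 : 0 < q) (D : Finset Edge) (a b : ℤ × ℤ) : 0 ≤ ZP q D a b :=
  Finset.sum_nonneg fun G _ => (omD_pos q hq0 D G).le

theorem dn_mid (q : ℝ) (hq0 : 0 < q) (hq1 : 36 ^ 2000 * q ≤ 1) {n : ℕ} {s c : ℤ} (h : Par n s c) (h' : Par n s (c - 2)) (t0 : ℕ)
    (ht0 : 1 ≤ t0) (hT : 4 * n ^ 2 ≤ 2 ^ t0) :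
    ZE q (EEc n s (c - 2)) ≤ (2 / q) ^ 800 * (36 / q) ^ (100100 * t0) * ZE q (EEc n s c) := by
  classical
  obtain ⟨hq, hq108⟩ := BDn_q1 q hq0 hq1
  obtain ⟨hR2, hR1, hR0⟩ := BDn_R q hq0 hq
  rw [ZE_eq h' q hq0, ZE_eq h q hq0]
  have e1 : q ^ (gP n s (c - 2)).card ≤ (2 / q) ^ 400 * q ^ (gP n s c).card := by
    have h1 : q ^ ((gP n s (c - 2)).card + 400) ≤ q ^ (gP n s c).card :=
      pow_le_pow_of_le_one hq0.le hq (cnt_P h h')
    have h2 : (2 / q) ^ 400 * q ^ 400 = 2 ^ 400 := by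
      rw [← mul_pow, div_mul_cancel₀ _ hq0.ne']
    have h3 : (0 : ℝ) < q ^ (gP n s (c - 2)).card := pow_pos hq0 _
    have h4 : (1 : ℝ) ≤ 2 ^ 400 := one_le_pow₀ (by norm_num)
    calc q ^ (gP n s (c - 2)).card = 1 * q ^ (gP n s (c - 2)).card := (one_mul _).symm
      _ ≤ 2 ^ 400 * q ^ (gP n s (c - 2)).card := mul_le_mul_of_nonneg_right h4 h3.le
      _ = (2 / q) ^ 400 * q ^ ((gP n s (c - 2)).card + 400) := by
        rw [← h2, pow_add]
        ring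
      _ ≤ (2 / q) ^ 400 * q ^ (gP n s c).card :=
        mul_le_mul_of_nonneg_left h1 (pow_nonneg hR0 _)
  have e2 : ZV q (gD n (c - 2)) ≤ (2 / q) ^ 400 * ZV q (gD n c) := by
    refine (ZV_sdiff_le q hq0 hq108 (gD n (c - 2)) (gD n (c - 2) \ gD n c)).trans ?_
    refine mul_le_mul ?_ (ZV_mono q hq0.le ?_) (ZV_pos q hq0.le _).le (pow_nonneg hR0 _)
    · calc (2 : ℝ) ^ (gD n (c - 2) \ gD n c).card ≤ 2 ^ 400 :=
          pow_le_pow_right₀ (by norm_num) (cnt_D h h')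
        _ ≤ (2 / q) ^ 400 := pow_le_pow_left₀ (by norm_num) hR2 _
    · intro e he
      rw [Finset.mem_sdiff, Finset.mem_sdiff] at he
      by_contra h1
      exact he.2 ⟨he.1, h1⟩
  have e3 : ZP q (gD n (c - 2)) (ga n (c - 2)) (gb n (c - 2)) ≤
      (36 / q) ^ (100100 * t0) * ZP q (gD n c) (ga n c) (gb n c) := by
    obtain ⟨-, g1⟩ := gn0_pos h
    obtain ⟨-, g2⟩ := gn0_pos h'
    unfold gal at g1 g2
    have h1 := den q hq0 hq1 (g_dom h) (g_dom h') (by omega) (by omega) t0 ht0 hT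
    have h2 : (36 / q) ^ (200200 * t0) * ZP q (gD n c) (ga n c) (gb n c) ^ 2 =
        ((36 / q) ^ (100100 * t0) * ZP q (gD n c) (ga n c) (gb n c)) ^ 2 := by
      rw [mul_pow, ← pow_mul]
      congr 2
      ring
    rw [h2] at h1
    have h3 : 0 ≤ (36 / q) ^ (100100 * t0) * ZP q (gD n c) (ga n c) (gb n c) :=
      mul_nonneg (pow_nonneg (div_nonneg (by norm_num) hq0.le) _) (BDn_ZP q hq0 _ _ _)
    exact (pow_le_pow_iff_left₀ (BDn_ZP q hq0 _ _ _) h3 (by norm_num)).1 h1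
  have hz1 : 0 ≤ ZV q (gD n c) := (ZV_pos q hq0.le _).le
  have hz2 := BDn_ZP q hq0 (gD n c) (ga n c) (gb n c)
  have hz3 := BDn_ZP q hq0 (gD n (c - 2)) (ga n (c - 2)) (gb n (c - 2))
  calc q ^ (gP n s (c - 2)).card * (ZV q (gD n (c - 2)) * ZP q (gD n (c - 2)) (ga n (c - 2)) (gb n (c - 2)))
      ≤ ((2 / q) ^ 400 * q ^ (gP n s c).card) * (((2 / q) ^ 400 * ZV q (gD n c)) *
        ((36 / q) ^ (100100 * t0) * ZP q (gD n c) (ga n c) (gb n c))) := by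
        refine mul_le_mul e1 (mul_le_mul e2 e3 hz3 (mul_nonneg (pow_nonneg hR0 _) hz1))
          (mul_nonneg (ZV_pos q hq0.le _).le hz3) (mul_nonneg (pow_nonneg hR0 _) (pow_nonneg hq0.le _))
    _ = (2 / q) ^ 800 * (36 / q) ^ (100100 * t0) *
        (q ^ (gP n s c).card * (ZV q (gD n c) * ZP q (gD n c) (ga n c) (gb n c))) := by
        have h1 : (2 / q) ^ 800 = (2 / q) ^ 400 * (2 / q) ^ 400 := by rw [← pow_add]
        rw [h1]
        ring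

theorem dn_bot (q : ℝ) (hq0 : 0 < q) (hq1 : 36 ^ 2000 * q ≤ 1) {n : ℕ} {s c : ℤ} (h : Par n s c) (hc : c ≤ 3) :
    ZE q (Om n) ≤ (2 / q) ^ 900 * ZE q (EEc n s c) := by
  classical
  obtain ⟨hq, hq108⟩ := BDn_q1 q hq0 hq1
  obtain ⟨hR2, hR1, hR0⟩ := BDn_R q hq0 hq
  obtain ⟨-, g1⟩ := gn0_pos h
  have hn := h.hn
  have hlo := h.lo
  have g2 : gn0 n c ≤ 2 := by
    unfold gal at g1
    omega
  set St := Str (ga n c) (gn0 n c) with hSt
  have hSt4 : St.card ≤ 4 := by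
    rw [hSt, Str_card]
    omega
  have hN : (N1 St).card ≤ 28 := (N1_card St).trans (by omega)
  obtain ⟨c1, c2⟩ := cnt_min h hc
  -- the whole
  have w1 : ZE q (Om n) = ZV q (E n) := by
    unfold ZE ZV
    refine Finset.sum_congr ?_ fun _ _ => rfl
    ext g
    rw [mem_Om, mem_VCs]
  have w2 : ZV q (E n) ≤ 2 ^ 428 * ZV q (gD n c \ N1 St) := by
    refine (ZV_sdiff_le q hq0 hq108 (E n) ((E n \ gD n c) ∪ N1 St)).trans ?_
    refine mul_le_mul (pow_le_pow_right₀ (by norm_num) ?_) (ZV_mono q hq0.le ?_)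
      (ZV_pos q hq0.le _).le (by positivity)
    · exact (Finset.card_union_le _ _).trans (by omega)
    · intro e he
      rw [Finset.mem_sdiff, Finset.mem_union, Finset.mem_sdiff] at he
      rw [Finset.mem_sdiff]
      refine ⟨?_, fun h1 => he.2 (Or.inr h1)⟩
      by_contra h1
      exact he.2 (Or.inl ⟨he.1, h1⟩)
  -- the lower bound
  have hP : St ∈ PD (gD n c) (ga n c) (gb n c) := by
    rw [mem_PD]
    refine ⟨str_gD h, ?_⟩
    rw [gb_eq h]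
    exact Str_isP _ _
  have w3 : q ^ 400 * ZV q (gD n c \ N1 St) ≤ ZE q (EEc n s c) := by
    have h1 : ZE q (EEc n s c) = ∑ G ∈ PD (gD n c) (ga n c) (gb n c), ∑ S ∈ VCs (gD n c \ N1 G),
        q ^ (gP n s c ∪ (G ∪ S)).card := ee_sum h (fun g => q ^ g.card)
    rw [h1]
    refine le_trans ?_ (Finset.single_le_sum (f := fun G => ∑ S ∈ VCs (gD n c \ N1 G),
      q ^ (gP n s c ∪ (G ∪ S)).card) (fun G _ => Finset.sum_nonneg fun S _ => pow_nonneg hq0.le _) hP)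
    beta_reduce
    unfold ZV
    rw [Finset.mul_sum]
    refine Finset.sum_le_sum fun S hS => ?_
    rw [ee_card h hP hS, ← pow_add]
    have h2 : (gP n s c).card + St.card = (gS n s c).card := by
      unfold gP
      exact Finset.card_sdiff_add_card_eq_card (str_gS h)
    exact pow_le_pow_of_le_one hq0.le hq (by omega)
  have hz : 0 ≤ ZV q (gD n c \ N1 St) := (ZV_pos q hq0.le _).le
  rw [w1]
  refine w2.trans ?_
  have h5 : (2 : ℝ) ^ 428 ≤ (2 / q) ^ 900 * q ^ 400 := by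
    have h6 : (2 / q) ^ 900 * q ^ 400 = (2 / q) ^ 500 * 2 ^ 400 := by
      have : (2 / q) ^ 900 = (2 / q) ^ 500 * (2 / q) ^ 400 := by rw [← pow_add]
      rw [this, mul_assoc, ← mul_pow, div_mul_cancel₀ _ hq0.ne']
    rw [h6]
    have h7 : (2 : ℝ) ^ 500 ≤ (2 / q) ^ 500 := pow_le_pow_left₀ (by norm_num) hR2 _
    calc (2 : ℝ) ^ 428 ≤ 2 ^ 500 * 2 ^ 400 := by
          rw [← pow_add]
          exact pow_le_pow_right₀ (by norm_num) (by norm_num)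
      _ ≤ (2 / q) ^ 500 * 2 ^ 400 := mul_le_mul_of_nonneg_right h7 (by positivity)
  calc (2 : ℝ) ^ 428 * ZV q (gD n c \ N1 St) ≤ (2 / q) ^ 900 * q ^ 400 * ZV q (gD n c \ N1 St) :=
        mul_le_mul_of_nonneg_right h5 hz
    _ = (2 / q) ^ 900 * (q ^ 400 * ZV q (gD n c \ N1 St)) := by ring
    _ ≤ (2 / q) ^ 900 * ZE q (EEc n s c) := mul_le_mul_of_nonneg_left w3 (pow_nonneg hR0 _)

theorem dn_small (q : ℝ) (hq0 : 0 < q) (hq1 : 36 ^ 2000 * q ≤ 1) {n : ℕ} (hn : n ≤ 4) {g0 : Finset Edge} (h0 : g0 ∈ Om n) :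
    ZE q (Om n) ≤ (2 / q) ^ 100 * ZE q {g0} := by
  classical
  obtain ⟨hq, hq108⟩ := BDn_q1 q hq0 hq1
  obtain ⟨hR2, hR1, hR0⟩ := BDn_R q hq0 hq
  have hE : (E n).card ≤ 64 := by
    refine (BDn_Ecard n).trans ?_
    have : n ^ 2 ≤ 4 ^ 2 := Nat.pow_le_pow_left hn 2
    omega
  have h1 : ZE q (Om n) ≤ 2 ^ 64 := by
    unfold ZE
    calc ∑ g ∈ Om n, q ^ g.card ≤ ∑ _g ∈ Om n, (1 : ℝ) :=
          Finset.sum_le_sum fun g _ => pow_le_one₀ hq0.le hq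
      _ = (Om n).card := by rw [Finset.sum_const, nsmul_eq_mul, mul_one]
      _ ≤ ((2 ^ 64 : ℕ) : ℝ) := by
          norm_cast
          have h2 : Om n ⊆ (E n).powerset := by
            intro g hg
            exact Finset.mem_powerset.2 (mem_Om.1 hg).1
          refine (Finset.card_le_card h2).trans ?_
          rw [Finset.card_powerset]
          exact Nat.pow_le_pow_right (by norm_num) hE
      _ = 2 ^ 64 := by norm_num
  have h2 : q ^ 64 ≤ ZE q {g0} := by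
    unfold ZE
    rw [Finset.sum_singleton]
    exact pow_le_pow_of_le_one hq0.le hq ((Finset.card_le_card (mem_Om.1 h0).1).trans hE)
  have h3 : (2 : ℝ) ^ 64 ≤ (2 / q) ^ 100 * q ^ 64 := by
    have h6 : (2 / q) ^ 100 * q ^ 64 = (2 / q) ^ 36 * 2 ^ 64 := by
      have : (2 / q) ^ 100 = (2 / q) ^ 36 * (2 / q) ^ 64 := by rw [← pow_add]
      rw [this, mul_assoc, ← mul_pow, div_mul_cancel₀ _ hq0.ne']
    rw [h6]
    have h7 : (1 : ℝ) ≤ (2 / q) ^ 36 := one_le_pow₀ hR1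
    calc (2 : ℝ) ^ 64 = 1 * 2 ^ 64 := (one_mul _).symm
      _ ≤ (2 / q) ^ 36 * 2 ^ 64 := mul_le_mul_of_nonneg_right h7 (by positivity)
  exact h1.trans (h3.trans (mul_le_mul_of_nonneg_left h2 (pow_nonneg hR0 _)))

end

end Pool.Agent.H40.WM
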