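import Mathlib
import Pool.Agent.H40.WM.BDefs
import Pool.Agent.H40.WM.QSym
import Pool.Agent.H40.SQ.HAdd
import Pool.Agent.H40.SQ.HCfg
import Pool.Agent.H40.SQ.HStep
import Pool.Agent.H40.SQ.HLat

/-!
# BEmb: the embedding

* `cap_val`: `1_capA` is admissible: a face of `capA` with `sgn = -s` is not in ring 0, so its four neighbours are in the box and have `sgn = s`: in `capA`.  `F (cap) = s 1_capA` (`F_cfg`).
* edges of `cap` have at least one side in ring 0 or outside the box (two faces not in ring 0 are both in `capA`); edges of `sh (2,2) g`, `g ⊆ E N`, have at least one side in `[2,N+2)^2` and the other side not in ring 0: so `cap` and `sh (2,2) g` are disjoint (`mem_E_false`, `mem_E_true`).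
* `emb_mem`: `VC_union`, `VC_sh`, inclusion in `E (N+4)`.  `emb_F`: `F_union`; `F (sh (2,2) g) i j = F g (i-2) (j-2)` for `g ∈ Om N` (the row sum: reindex `k ↦ k - 2`, `sgn (k+2) (j+2) = sgn k j`; no edges with first coordinate `< 0` in `g`; for `i < 2` both are `0`).
-/

set_option autoImplicit false

namespace Pool.Agent.H40.WM

open Pool.Agent.H40.SQ

noncomputable section

open Classical in
theorem cap_val (n : ℕ) (s : ℤ) (hs : s = 1 ∨ s = -1) :
    Val n (fun i j => if capA n s i j then s else 0) := by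
  refine ⟨fun i j => ⟨?_, ?_⟩, fun i j hij => ?_⟩
  · have h1 := sgn_cases i j
    have h2 := sgn_left i j
    by_cases c1 : capA n s i j <;> by_cases c2 : capA n s (i - 1) j <;>
      simp only [c1, c2, if_true, if_false] <;> unfold capA gR0 gBox at c1 c2 <;> omega
  · have h1 := sgn_cases i j
    have h2 := sgn_down i j
    by_cases c1 : capA n s i j <;> by_cases c2 : capA n s i (j - 1) <;>
      simp only [c1, c2, if_true, if_false] <;> unfold capA gR0 gBox at c1 c2 <;> omega
  · simp only
    rw [if_neg]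
    intro h
    unfold capA gBox at h
    unfold box at hij
    rw [Finset.mem_product, Finset.mem_Ico, Finset.mem_Ico] at hij
    simp only at hij
    omega

open Classical in
theorem cap_F (n : ℕ) (hn : 1 ≤ n) (s : ℤ) (hs : s = 1 ∨ s = -1) (i j : ℤ) :
    cap n s ∈ Om n ∧ F (cap n s) i j = if capA n s i j then s else 0 :=
  ⟨cfg_mem (cap_val n s hs), F_cfg (cap_val n s hs) i j⟩

theorem mem_sh22 {g : Finset Edge} {t : Bool} {x y : ℤ} :
    (t, x, y) ∈ sh (2, 2) g ↔ (t, x - 2, y - 2) ∈ g := by
  unfold sh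
  rw [Finset.mem_image]
  constructor
  · rintro ⟨⟨t', x', y'⟩, h, h'⟩
    simp only [shE, Prod.mk.injEq] at h'
    obtain ⟨h1, h2, h3⟩ := h'
    have e1 : x - 2 = x' := by omega
    have e2 : y - 2 = y' := by omega
    rw [← h1, e1, e2]
    exact h
  · intro h
    refine ⟨(t, x - 2, y - 2), h, ?_⟩
    simp only [shE, Prod.mk.injEq]
    refine ⟨trivial, by omega, by omega⟩

theorem cap_disj (N : ℕ) (hN : 1 ≤ N) (s : ℤ) (hs : s = 1 ∨ s = -1) {g : Finset Edge} (hg : g ⊆ E N) :
    Disjoint (cap (N + 4) s) (sh (2, 2) g) := by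
  classical
  rw [Finset.disjoint_left]
  rintro ⟨t, x, y⟩ h1 h2
  rw [mem_sh22] at h2
  have h3 := hg h2
  unfold cap cfg at h1
  rw [Finset.mem_filter] at h1
  simp only at h1
  cases t with
  | true =>
    rw [mem_E_true] at h3
    rcases h1.2 with h4 | h4
    · apply h4.2
      have c1 : capA (N + 4) s x y := by
        unfold capA gR0 gBox
        push_cast
        omega
      have c2 : capA (N + 4) s (x - 1) y := by
        unfold capA gR0 gBox
        push_cast
        omega
      simp only [c1, c2, if_true]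
    · exact absurd h4.1 (by simp)
  | false =>
    rw [mem_E_false] at h3
    rcases h1.2 with h4 | h4
    · exact absurd h4.1 (by simp)
    · apply h4.2
      have c1 : capA (N + 4) s x y := by
        unfold capA gR0 gBox
        push_cast
        omega
      have c2 : capA (N + 4) s x (y - 1) := by
        unfold capA gR0 gBox
        push_cast
        omega
      simp only [c1, c2, if_true]

theorem emb_mem (N : ℕ) (hN : 1 ≤ N) (s : ℤ) (hs : s = 1 ∨ s = -1) {g : Finset Edge} (hg : g ∈ Om N) : Emb N s g ∈ Om (N + 4) := by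
  obtain ⟨hE, hV⟩ := mem_Om.mp hg
  have hc := (cap_F (N + 4) (by omega) s hs 0 0).1
  obtain ⟨hcE, hcV⟩ := mem_Om.mp hc
  rw [mem_Om]
  unfold Emb
  refine ⟨Finset.union_subset hcE ?_, VC_union (cap_disj N hN s hs hE) hcV ((VC_sh (2, 2) g).mpr hV)⟩
  rintro ⟨t, x, y⟩ h
  rw [mem_sh22] at h
  have h1 := hE h
  cases t with
  | true =>
    rw [mem_E_true] at h1 ⊢
    push_cast
    omega
  | false =>
    rw [mem_E_false] at h1 ⊢
    push_cast
    omega

theorem F_sh22 {N : ℕ} {g : Finset Edge} (hg : g ⊆ E N) (i j : ℤ) :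
    F (sh (2, 2) g) i j = F g (i - 2) (j - 2) := by
  unfold F
  have h1 : ∀ k : ℤ, sgn k j * ind (sh (2, 2) g) (true, k, j) =
      sgn (k - 2) (j - 2) * ind g (true, k - 2, j - 2) := by
    intro k
    have e1 : sgn (k - 2) (j - 2) = sgn k j := by
      unfold sgn
      have : (k - 2 + (j - 2)) % 2 = 0 ↔ (k + j) % 2 = 0 := by omega
      simp only [this]
    have e2 : ind (sh (2, 2) g) (true, k, j) = ind g (true, k - 2, j - 2) := by
      unfold ind
      simp only [mem_sh22]
    rw [e1, e2]
  simp only [h1]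
  have h2 : ∀ k : ℤ, k < 0 → sgn k (j - 2) * ind g (true, k, j - 2) = 0 := by
    intro k hk
    have : (true, k, j - 2) ∉ g := by
      intro h
      have := mem_E_true.mp (hg h)
      omega
    unfold ind
    rw [if_neg this, mul_zero]
  have h3 : ∑ k ∈ Finset.Icc 0 (i - 2), sgn k (j - 2) * ind g (true, k, j - 2) =
      ∑ k ∈ Finset.Icc (-2) (i - 2), sgn k (j - 2) * ind g (true, k, j - 2) := by
    refine Finset.sum_subset ?_ ?_
    · intro k hk
      rw [Finset.mem_Icc] at hk ⊢
      omega
    · intro k hk hk'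
      rw [Finset.mem_Icc] at hk hk'
      exact h2 k (by omega)
  rw [h3]
  refine Finset.sum_nbij' (fun k => k - 2) (fun k => k + 2) ?_ ?_ ?_ ?_ ?_
  · intro k hk
    rw [Finset.mem_Icc] at hk ⊢
    omega
  · intro k hk
    rw [Finset.mem_Icc] at hk ⊢
    omega
  · intro k _
    simp
  · intro k _
    simp
  · intro k _
    rfl

open Classical in
theorem emb_F (N : ℕ) (hN : 1 ≤ N) (s : ℤ) (hs : s = 1 ∨ s = -1) {g : Finset Edge} (hg : g ∈ Om N) (i j : ℤ) :
    F (Emb N s g) i j = (if capA (N + 4) s i j then s else 0) + F g (i - 2) (j - 2) := by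
  obtain ⟨hE, hV⟩ := mem_Om.mp hg
  unfold Emb
  rw [F_union (cap_disj N hN s hs hE), (cap_F (N + 4) (by omega) s hs i j).2, F_sh22 hE]

theorem emb_card (N : ℕ) (hN : 1 ≤ N) (s : ℤ) (hs : s = 1 ∨ s = -1) {g : Finset Edge} (hg : g ∈ Om N) :
    (Emb N s g).card = (cap (N + 4) s).card + g.card := by
  obtain ⟨hE, hV⟩ := mem_Om.mp hg
  unfold Emb
  rw [Finset.card_union_of_disjoint (cap_disj N hN s hs hE), sh_card]

theorem emb_inj (N : ℕ) (hN : 1 ≤ N) (s : ℤ) (hs : s = 1 ∨ s = -1) {g g' : Finset Edge} (hg : g ∈ Om N) (hg' : g' ∈ Om N)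
    (h : Emb N s g = Emb N s g') : g = g' := by
  refine F_inj hg hg' fun i j => ?_
  have h1 := emb_F N hN s hs hg (i + 2) (j + 2)
  have h2 := emb_F N hN s hs hg' (i + 2) (j + 2)
  rw [h, h2] at h1
  have h3 := add_left_cancel h1
  rw [show i + 2 - 2 = i by ring, show j + 2 - 2 = j by ring] at h3
  exact h3.symm

theorem emb_le (N : ℕ) (hN : 1 ≤ N) (s : ℤ) (hs : s = 1 ∨ s = -1) {g g' : Finset Edge} (hg : g ∈ Om N) (hg' : g' ∈ Om N) :
    LeS s (Emb N s g) (Emb N s g') ↔ LeS s g g' := by
  constructor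
  · intro h i j
    have h1 := h (i + 2) (j + 2)
    rw [emb_F N hN s hs hg, emb_F N hN s hs hg', mul_add, mul_add,
      show i + 2 - 2 = i by ring, show j + 2 - 2 = j by ring] at h1
    linarith
  · intro h i j
    rw [emb_F N hN s hs hg, emb_F N hN s hs hg', mul_add, mul_add]
    have := h (i - 2) (j - 2)
    linarith

end

end Pool.Agent.H40.WM
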