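import Mathlib
import Pool.Agent.H40.WM.BEmb

/-!
# BImg: the image of the embedding

`g ∈ EEt N s` iff `g = Emb N s g1` with `g1 ∈ Om N`.
(⇐) `emb_F`: on ring 1 and on ring 0 faces the second summand vanishes (`F_supp`), the first is `s` on `capA`.
(⇒) heights of `g` on rings 0 and 1 (`h = s F g`; differences `h(sgn = s) - h(neighbour with sgn = -s) ∈ {0,1}`; outside `0`): ring 0, `sgn = s`: `h ≤ 1`, so `= 1`; ring 0, `sgn = -s`: `h ≤ 0` (outside neighbour) and `h ≥ 0` (a neighbour in ring 0 or ring 1 with `sgn = s` has `h = 1`), so `0`; ring 1: `h ≤ 1`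
(as in `GFix`), so `= 1`.  Define `f (i,j) = F g (i+2) (j+2) - s` for `(i,j) ∈ box N` and `0` outside: it is admissible for `Om N` (`Val N f`: inside from `val_F g`; at the boundary because the heights of ring 1 are `s`).  `g1 = cfg N f`, `F g1 = f`, and `F (Emb N s g1) = F g` everywhere, so `g = Emb N s g1` (`F_inj`).
`emb_up`: the image of an up-set is an up-set: if `g ∈ EE'`, `LeS s (Emb g) g2`, `g2 ∈ Om (N+4)`, then `g2 ∈ EEt`, so `g2 = Emb g1'`, `LeS s g g1'` (`emb_le`).
-/

set_option autoImplicit false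

namespace Pool.Agent.H40.WM

open Pool.Agent.H40.SQ

noncomputable section

theorem box_iff {n : ℕ} {i j : ℤ} : (i, j) ∈ box n ↔ 0 ≤ i ∧ i < n ∧ 0 ≤ j ∧ j < n := by
  unfold box
  rw [Finset.mem_product, Finset.mem_Ico, Finset.mem_Ico]
  tauto

/-- differences in the direction `s` -/
theorem hdiff {n : ℕ} {g : Finset Edge} (hg : g ∈ Om n) {s : ℤ} (hs : s = 1 ∨ s = -1) (i j : ℤ) :
    (sgn i j = s → (s * F g i j - s * F g (i - 1) j = 0 ∨ s * F g i j - s * F g (i - 1) j = 1) ∧
      (s * F g i j - s * F g i (j - 1) = 0 ∨ s * F g i j - s * F g i (j - 1) = 1)) ∧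
    (sgn i j = -s → (s * F g (i - 1) j - s * F g i j = 0 ∨ s * F g (i - 1) j - s * F g i j = 1) ∧
      (s * F g i (j - 1) - s * F g i j = 0 ∨ s * F g i (j - 1) - s * F g i j = 1)) := by
  have h := (val_F hg).1 i j
  rcases hs with rfl | rfl
  · constructor
    · intro h1
      rw [h1] at h
      omega
    · intro h1
      rw [h1] at h
      omega
  · constructor
    · intro h1
      rw [h1] at h
      omega
    · intro h1
      rw [h1] at h
      omega

/-- the heights on the rings 0 and 1 -/
theorem ring_val {N : ℕ} (hN : 1 ≤ N) {s : ℤ} (hs : s = 1 ∨ s = -1) {g : Finset Edge}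
    (hg : g ∈ Om (N + 4))
    (h : ∀ x ∈ box (N + 4), (gR1 (N + 4) x.1 x.2 ∨ (gR0 (N + 4) x.1 x.2 ∧ sgn x.1 x.2 = s)) →
      1 ≤ s * F g x.1 x.2) :
    (∀ i j, gR0 (N + 4) i j → sgn i j = s → s * F g i j = 1) ∧
    (∀ i j, gR0 (N + 4) i j → sgn i j = -s → s * F g i j = 0) ∧
    (∀ i j, gR1 (N + 4) i j → s * F g i j = 1) := by
  have hout : ∀ i j, ¬ gBox (N + 4) i j → s * F g i j = 0 := by
    intro i j hij
    have : F g i j = 0 := F_supp hg (by
      rw [box_iff]
      unfold gBox at hij
      push_cast at hij ⊢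
      tauto)
    rw [this, mul_zero]
  have h0s : ∀ i j, gR0 (N + 4) i j → sgn i j = s → s * F g i j = 1 := by
    intro i j hR hsg
    have hb : (i, j) ∈ box (N + 4) := by
      rw [box_iff]
      exact hR.1
    have h1 := h (i, j) hb (Or.inr ⟨hR, hsg⟩)
    simp only at h1
    have d1 := (hdiff hg hs i j).1 hsg
    have d2 := (hdiff hg hs (i + 1) j).2 (by
      have := sgn_left (i + 1) j
      rw [show i + 1 - 1 = i by ring] at this
      omega)
    have d3 := (hdiff hg hs i (j + 1)).2 (by
      have := sgn_down i (j + 1)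
      rw [show j + 1 - 1 = j by ring] at this
      omega)
    rw [show i + 1 - 1 = i by ring] at d2
    rw [show j + 1 - 1 = j by ring] at d3
    obtain ⟨hbx, hr⟩ := hR
    unfold gBox at hbx
    push_cast at hbx hr
    rcases hr with hr | hr | hr | hr
    · have := hout (i - 1) j (by unfold gBox; push_cast; omega)
      omega
    · have := hout i (j - 1) (by unfold gBox; push_cast; omega)
      omega
    · have := hout (i + 1) j (by unfold gBox; push_cast; omega)
      omega
    · have := hout i (j + 1) (by unfold gBox; push_cast; omega)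
      omega
  have hR1ge : ∀ i j, gR1 (N + 4) i j → 1 ≤ s * F g i j := by
    intro i j hR
    refine h (i, j) ?_ (Or.inl hR)
    rw [box_iff]
    unfold gR1 at hR
    push_cast at hR ⊢
    omega
  have h0n : ∀ i j, gR0 (N + 4) i j → sgn i j = -s → s * F g i j = 0 := by
    intro i j hR hsg
    have d1 := (hdiff hg hs i j).2 hsg
    have sg1 : sgn (i + 1) j = s := by
      have := sgn_left (i + 1) j
      rw [show i + 1 - 1 = i by ring] at this
      omega
    have sg2 : sgn i (j + 1) = s := by
      have := sgn_down i (j + 1)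
      rw [show j + 1 - 1 = j by ring] at this
      omega
    have sg3 : sgn (i - 1) j = s := by
      have := sgn_left i j
      omega
    have sg4 : sgn i (j - 1) = s := by
      have := sgn_down i j
      omega
    have d2 := (hdiff hg hs (i + 1) j).1 sg1
    have d3 := (hdiff hg hs i (j + 1)).1 sg2
    rw [show i + 1 - 1 = i by ring] at d2
    rw [show j + 1 - 1 = j by ring] at d3
    -- neighbours inside with height one
    have nb : ∀ i' j', (gR0 (N + 4) i' j' ∨ gR1 (N + 4) i' j') → sgn i' j' = s →
        1 ≤ s * F g i' j' := by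
      intro i' j' hr hsg'
      rcases hr with hr | hr
      · exact (h0s i' j' hr hsg').ge
      · exact hR1ge i' j' hr
    obtain ⟨hbx, hr⟩ := hR
    unfold gBox at hbx
    push_cast at hbx hr
    rcases hr with hr | hr | hr | hr
    · have e1 := hout (i - 1) j (by unfold gBox; push_cast; omega)
      have e2 := nb (i + 1) j (by unfold gR0 gR1 gBox; push_cast; omega) sg1
      omega
    · have e1 := hout i (j - 1) (by unfold gBox; push_cast; omega)
      have e2 := nb i (j + 1) (by unfold gR0 gR1 gBox; push_cast; omega) sg2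
      omega
    · have e1 := hout (i + 1) j (by unfold gBox; push_cast; omega)
      have e2 := nb (i - 1) j (by unfold gR0 gR1 gBox; push_cast; omega) sg3
      omega
    · have e1 := hout i (j + 1) (by unfold gBox; push_cast; omega)
      have e2 := nb i (j - 1) (by unfold gR0 gR1 gBox; push_cast; omega) sg4
      omega
  refine ⟨h0s, h0n, ?_⟩
  intro i j hR
  have hge := hR1ge i j hR
  rcases sgn_cases i j with hsg | hsg
  all_goals
    have hcase : sgn i j = s ∨ sgn i j = -s := by
      rcases hs with rfl | rfl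
      · rw [hsg]; norm_num
      · rw [hsg]; norm_num
    have l1 := sgn_left i j
    have l2 := sgn_down i j
    have l3 := sgn_left (i + 1) j
    have l4 := sgn_down i (j + 1)
    rw [show i + 1 - 1 = i by ring] at l3
    rw [show j + 1 - 1 = j by ring] at l4
    have d1 := hdiff hg hs i j
    have d2 := hdiff hg hs (i + 1) j
    have d3 := hdiff hg hs i (j + 1)
    rw [show i + 1 - 1 = i by ring] at d2
    rw [show j + 1 - 1 = j by ring] at d3
    have hR' := hR
    unfold gR1 at hR'
    push_cast at hR'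
    rcases hcase with hc | hc
    · have e1 := d1.1 hc
      have e2 := d2.2 (by omega)
      have e3 := d3.2 (by omega)
      rcases hR'.2.2.2.2 with hr | hr | hr | hr
      · have := h0n (i - 1) j (by unfold gR0 gBox; push_cast; omega) (by omega)
        omega
      · have := h0n i (j - 1) (by unfold gR0 gBox; push_cast; omega) (by omega)
        omega
      · have := h0n (i + 1) j (by unfold gR0 gBox; push_cast; omega) (by omega)
        omega
      · have := h0n i (j + 1) (by unfold gR0 gBox; push_cast; omega) (by omega)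
        omega
    · have e1 := d1.2 hc
      have e2 := d2.1 (by omega)
      have e3 := d3.1 (by omega)
      rcases hR'.2.2.2.2 with hr | hr | hr | hr
      · have := h0s (i - 1) j (by unfold gR0 gBox; push_cast; omega) (by omega)
        omega
      · have := h0s i (j - 1) (by unfold gR0 gBox; push_cast; omega) (by omega)
        omega
      · have := h0s (i + 1) j (by unfold gR0 gBox; push_cast; omega) (by omega)
        omega
      · have := h0s i (j + 1) (by unfold gR0 gBox; push_cast; omega) (by omega)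
        omega

open Classical in
/-- the heights outside the inner box -/
theorem ring_cap {N : ℕ} (hN : 1 ≤ N) {s : ℤ} (hs : s = 1 ∨ s = -1) {g : Finset Edge}
    (hg : g ∈ Om (N + 4))
    (h : ∀ x ∈ box (N + 4), (gR1 (N + 4) x.1 x.2 ∨ (gR0 (N + 4) x.1 x.2 ∧ sgn x.1 x.2 = s)) →
      1 ≤ s * F g x.1 x.2) (i j : ℤ) (hij : ¬ (2 ≤ i ∧ i < N + 2 ∧ 2 ≤ j ∧ j < N + 2)) :
    F g i j = if capA (N + 4) s i j then s else 0 := by
  obtain ⟨h1, h2, h3⟩ := ring_val hN hs hg h
  have hss : s * s = 1 := by
    rcases hs with rfl | rfl <;> norm_num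
  have key : ∀ t : ℤ, s * F g i j = t → F g i j = s * t := by
    intro t ht
    rw [← ht, ← mul_assoc, hss, one_mul]
  by_cases hb : gBox (N + 4) i j
  · by_cases h0 : gR0 (N + 4) i j
    · by_cases hsg : sgn i j = s
      · rw [if_pos ⟨hb, Or.inr hsg⟩, key 1 (h1 i j h0 hsg), mul_one]
      · have hsg' : sgn i j = -s := by
          have := sgn_cases i j
          omega
        rw [if_neg, key 0 (h2 i j h0 hsg'), mul_zero]
        intro hc
        rcases hc.2 with hc | hc
        · exact hc h0
        · exact hsg hc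
    · have hR1 : gR1 (N + 4) i j := by
        unfold gR1
        unfold gR0 gBox at h0
        unfold gBox at hb
        push_cast at h0 hb ⊢
        omega
      rw [if_pos ⟨hb, Or.inl h0⟩, key 1 (h3 i j hR1), mul_one]
  · rw [if_neg]
    · refine F_supp hg ?_
      rw [box_iff]
      unfold gBox at hb
      exact hb
    · intro hc
      exact hb hc.1

open Classical in
theorem eet_mem {N : ℕ} {s : ℤ} {g : Finset Edge} : g ∈ EEt N s ↔ g ∈ Om (N + 4) ∧
    ∀ x ∈ box (N + 4), (gR1 (N + 4) x.1 x.2 ∨ (gR0 (N + 4) x.1 x.2 ∧ sgn x.1 x.2 = s)) →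
      1 ≤ s * F g x.1 x.2 := by
  unfold EEt
  rw [Finset.mem_filter]

theorem eet_eq (N : ℕ) (hN : 1 ≤ N) (s : ℤ) (hs : s = 1 ∨ s = -1) : EEt N s = (Om N).image (Emb N s) := by
  classical
  have hss : s * s = 1 := by
    rcases hs with rfl | rfl <;> norm_num
  ext g
  rw [eet_mem, Finset.mem_image]
  constructor
  · rintro ⟨hg, h⟩
    have hcap := ring_cap hN hs hg h
    obtain ⟨f, hf⟩ : ∃ f : ℤ → ℤ → ℤ, ∀ i j, f i j =
        if (i, j) ∈ box N then F g (i + 2) (j + 2) - s else 0 := ⟨_, fun _ _ => rfl⟩
    -- on the inner box and ring 1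
    have hf1 : ∀ i j : ℤ, -1 ≤ i → i ≤ N → -1 ≤ j → j ≤ N → f i j = F g (i + 2) (j + 2) - s := by
      intro i j a1 a2 a3 a4
      rw [hf]
      by_cases hb : (i, j) ∈ box N
      · rw [if_pos hb]
      · rw [if_neg hb]
        rw [box_iff] at hb
        have h1 := hcap (i + 2) (j + 2) (by omega)
        rw [if_pos] at h1
        · rw [h1, sub_self]
        · unfold capA gR0 gBox
          push_cast
          omega
    have hf0 : ∀ i j, (i, j) ∉ box N → f i j = 0 := by
      intro i j hb
      rw [hf, if_neg hb]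
    have hval : Val N f := by
      refine ⟨fun i j => ?_, hf0⟩
      have h1 := (val_F hg).1 (i + 2) (j + 2)
      have h2 : sgn (i + 2) (j + 2) = sgn i j := by
        unfold sgn
        have : (i + 2 + (j + 2)) % 2 = 0 ↔ (i + j) % 2 = 0 := by omega
        simp only [this]
      rw [h2] at h1
      constructor
      · by_cases hb : (i, j) ∈ box N ∨ (i - 1, j) ∈ box N
        · rw [box_iff, box_iff] at hb
          rw [hf1 i j (by omega) (by omega) (by omega) (by omega),
            hf1 (i - 1) j (by omega) (by omega) (by omega) (by omega),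
            show i - 1 + 2 = i + 2 - 1 by ring]
          omega
        · push Not at hb
          rw [hf0 i j hb.1, hf0 (i - 1) j hb.2]
          left
          norm_num
      · by_cases hb : (i, j) ∈ box N ∨ (i, j - 1) ∈ box N
        · rw [box_iff, box_iff] at hb
          rw [hf1 i j (by omega) (by omega) (by omega) (by omega),
            hf1 i (j - 1) (by omega) (by omega) (by omega) (by omega),
            show j - 1 + 2 = j + 2 - 1 by ring]
          omega
        · push Not at hb
          rw [hf0 i j hb.1, hf0 i (j - 1) hb.2]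
          left
          norm_num
    refine ⟨cfg N f, cfg_mem hval, ?_⟩
    refine F_inj (emb_mem N hN s hs (cfg_mem hval)) hg fun i j => ?_
    rw [emb_F N hN s hs (cfg_mem hval), F_cfg hval]
    by_cases hin : 2 ≤ i ∧ i < N + 2 ∧ 2 ≤ j ∧ j < N + 2
    · rw [hf1 (i - 2) (j - 2) (by omega) (by omega) (by omega) (by omega),
        show i - 2 + 2 = i by ring, show j - 2 + 2 = j by ring, if_pos]
      · ring
      · unfold capA gR0 gBox
        push_cast
        omega
    · rw [hf0 (i - 2) (j - 2) (by rw [box_iff]; omega), add_zero, hcap i j hin]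
  · rintro ⟨g1, hg1, rfl⟩
    refine ⟨emb_mem N hN s hs hg1, ?_⟩
    rintro ⟨i, j⟩ hb hx
    simp only at hx ⊢
    rw [emb_F N hN s hs hg1, F_supp hg1 (i := i - 2) (j := j - 2), add_zero, if_pos, hss]
    · rcases hx with hx | hx
      · unfold capA gR0 gBox
        unfold gR1 at hx
        push_cast at hx ⊢
        omega
      · exact ⟨hx.1.1, Or.inr hx.2⟩
    · rw [box_iff]
      unfold gR1 gR0 gBox at hx
      push_cast at hx
      omega

theorem emb_up (N : ℕ) (hN : 1 ≤ N) (s : ℤ) (hs : s = 1 ∨ s = -1) {EE : Finset (Finset Edge)} (h : UpS N s EE) :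
    UpS (N + 4) s (EE.image (Emb N s)) := by
  classical
  obtain ⟨h1, h2⟩ := h
  refine ⟨?_, ?_⟩
  · intro g hg
    rw [Finset.mem_image] at hg
    obtain ⟨g1, hg1, rfl⟩ := hg
    exact emb_mem N hN s hs (h1 hg1)
  · intro g hg g' hg' hle
    rw [Finset.mem_image] at hg
    obtain ⟨g1, hg1, rfl⟩ := hg
    have h3 : Emb N s g1 ∈ EEt N s := by
      rw [eet_eq N hN s hs]
      exact Finset.mem_image_of_mem _ (h1 hg1)
    have h4 : g' ∈ EEt N s := by
      rw [eet_mem] at h3 ⊢
      refine ⟨hg', fun x hx hx' => ?_⟩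
      exact (h3.2 x hx hx').trans (hle x.1 x.2)
    rw [eet_eq N hN s hs, Finset.mem_image] at h4
    obtain ⟨g2, hg2, rfl⟩ := h4
    rw [emb_le N hN s hs (h1 hg1) hg2] at hle
    exact Finset.mem_image_of_mem _ (h2 g1 hg1 g2 hg2 hle)

/-- The join in the direction `s`. -/
theorem exists_join {n : ℕ} {s : ℤ} (hs : s = 1 ∨ s = -1) {g g' : Finset Edge} (hg : g ∈ Om n)
    (hg' : g' ∈ Om n) : ∃ k ∈ Om n, LeS s g k ∧ LeS s g' k := by
  have v1 := val_F hg
  have v2 := val_F hg'
  rcases hs with rfl | rfl
  · have hv : Val n (fun i j => max (F g i j) (F g' i j)) := by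
      refine ⟨val0_max v1.1 v2.1, fun i j hij => ?_⟩
      simp only
      rw [v1.2 i j hij, v2.2 i j hij, max_self]
    refine ⟨cfg n _, cfg_mem hv, fun i j => ?_, fun i j => ?_⟩
    · rw [F_cfg hv, one_mul, one_mul]
      exact le_max_left _ _
    · rw [F_cfg hv, one_mul, one_mul]
      exact le_max_right _ _
  · have hv : Val n (fun i j => min (F g i j) (F g' i j)) := by
      refine ⟨val0_min v1.1 v2.1, fun i j hij => ?_⟩
      simp only
      rw [v1.2 i j hij, v2.2 i j hij, min_self]
    refine ⟨cfg n _, cfg_mem hv, fun i j => ?_, fun i j => ?_⟩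
    · rw [F_cfg hv]
      have := min_le_left (F g i j) (F g' i j)
      linarith
    · rw [F_cfg hv]
      have := min_le_right (F g i j) (F g' i j)
      linarith

/-- The image of the top configuration is the top configuration. -/
theorem emb_top (N : ℕ) (hN : 1 ≤ N) (s : ℤ) (hs : s = 1 ∨ s = -1) {g0 : Finset Edge} (h0 : g0 ∈ Om N) (h : ∀ g ∈ Om N, LeS s g g0) :
    ∀ g ∈ Om (N + 4), LeS s g (Emb N s g0) := by
  intro g hg
  obtain ⟨k, hk, h1, h2⟩ := exists_join hs hg (emb_mem N hN s hs h0)
  have h3 : Emb N s g0 ∈ EEt N s := by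
    rw [eet_eq N hN s hs]
    exact Finset.mem_image_of_mem _ h0
  have h4 : k ∈ EEt N s := by
    rw [eet_mem] at h3 ⊢
    exact ⟨hk, fun x hx hx' => (h3.2 x hx hx').trans (h2 x.1 x.2)⟩
  rw [eet_eq N hN s hs, Finset.mem_image] at h4
  obtain ⟨g2, hg2, rfl⟩ := h4
  have h5 := (emb_le N hN s hs hg2 h0).mpr (h g2 hg2)
  intro i j
  exact (h1 i j).trans (h5 i j)

end

end Pool.Agent.H40.WM
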