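import Mathlib
import Pool.Agent.H40.WM.BEmb
import Pool.Agent.H40.SQ.HFlip

/-!
# BWP: transfer of the weak Poincare inequality

`flip (x.1+2, x.2+2) (Emb N s g) = Emb N s (flip x g)` for `x ∈ box N`, `g ∈ Om N`: `sq (x.1+2,x.2+2) = sh (2,2) (sq x)` is disjoint from `cap` (`cap_disj` with `sq x ⊆ E N`).  `q^|Emb g| = q^|cap| q^|g|` (`emb_card`), `Emb` is injective (`emb_inj`): for `v = u ∘ Emb`: `ZE (image) = q^|cap| ZE EE`,
`mu (image) u = mu EE v`, the left sides agree up to the factor `q^|cap|`, and `Dir q (N+4) (image) u ≥ q^|cap| Dir q N EE v` (keep only the faces `(x.1+2,x.2+2)`, `x ∈ box N`; all terms are nonnegative).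
`emb_ZE`: the density transfers.
-/

set_option autoImplicit false

namespace Pool.Agent.H40.WM

open Pool.Agent.H40.SQ

noncomputable section

theorem sq_sh22 (x : ℤ × ℤ) : SQ.sq (x.1 + 2, x.2 + 2) = sh (2, 2) (SQ.sq x) := by
  ext ⟨t, a, b⟩
  rw [mem_sh22]
  cases t
  · rw [hflip_mem_false, hflip_mem_false]
    simp only
    constructor
    · rintro ⟨h1, h2⟩
      exact ⟨by omega, by omega⟩
    · rintro ⟨h1, h2⟩
      exact ⟨by omega, by omega⟩
  · rw [hflip_mem_true, hflip_mem_true]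
    simp only
    constructor
    · rintro ⟨h1, h2⟩
      exact ⟨by omega, by omega⟩
    · rintro ⟨h1, h2⟩
      exact ⟨by omega, by omega⟩

theorem sh22_union (A B : Finset Edge) : sh (2, 2) (A ∪ B) = sh (2, 2) A ∪ sh (2, 2) B := by
  ext ⟨t, a, b⟩
  simp only [mem_sh22, Finset.mem_union]

theorem sh22_sdiff (A B : Finset Edge) : sh (2, 2) (A \ B) = sh (2, 2) A \ sh (2, 2) B := by
  ext ⟨t, a, b⟩
  simp only [mem_sh22, Finset.mem_sdiff]

theorem sh22_inter (A B : Finset Edge) : sh (2, 2) (A ∩ B) = sh (2, 2) A ∩ sh (2, 2) B := by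
  ext ⟨t, a, b⟩
  simp only [mem_sh22, Finset.mem_inter]

theorem sh22_subset {A B : Finset Edge} : sh (2, 2) A ⊆ sh (2, 2) B ↔ A ⊆ B := by
  constructor
  · rintro h ⟨t, a, b⟩ hA
    have h1 : (t, a + 2, b + 2) ∈ sh (2, 2) A := by
      rw [mem_sh22, add_sub_cancel_right, add_sub_cancel_right]
      exact hA
    have h2 := h h1
    rw [mem_sh22, add_sub_cancel_right, add_sub_cancel_right] at h2
    exact h2
  · rintro h ⟨t, a, b⟩ hA
    rw [mem_sh22] at hA ⊢
    exact h hA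

theorem sh22_empty {A : Finset Edge} : sh (2, 2) A = ∅ ↔ A = ∅ := by
  rw [← Finset.card_eq_zero, ← Finset.card_eq_zero, sh_card]

theorem emb_flip (N : ℕ) (hN : 1 ≤ N) (s : ℤ) (hs : s = 1 ∨ s = -1) {g : Finset Edge} (hg : g ∈ Om N) {x : ℤ × ℤ} (hx : x ∈ box N) :
    flip (x.1 + 2, x.2 + 2) (Emb N s g) = Emb N s (flip x g) := by
  have hE : SQ.sq x ⊆ E N := (mem_Om.mp (sq_mem_Om hx)).1
  have hd : Disjoint (cap (N + 4) s) (sh (2, 2) (SQ.sq x)) := cap_disj N hN s hs hE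
  have h1 : SQ.sq (x.1 + 2, x.2 + 2) ∩ (cap (N + 4) s ∪ sh (2, 2) g) = sh (2, 2) (SQ.sq x ∩ g) := by
    rw [sq_sh22, Finset.inter_union_distrib_left, Finset.inter_comm (sh (2, 2) (SQ.sq x)) (cap (N + 4) s),
      Finset.disjoint_iff_inter_eq_empty.mp hd, Finset.empty_union, sh22_inter]
  have h2 : SQ.sq (x.1 + 2, x.2 + 2) ⊆ cap (N + 4) s ∪ sh (2, 2) g ↔ SQ.sq x ⊆ g := by
    rw [sq_sh22, ← sh22_subset (A := SQ.sq x) (B := g)]
    constructor
    · intro h e he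
      rcases Finset.mem_union.mp (h he) with h3 | h3
      · exact absurd he (Finset.disjoint_left.mp hd h3)
      · exact h3
    · intro h
      exact h.trans Finset.subset_union_right
  unfold Emb Pool.Agent.H40.SQ.flip
  rw [h1]
  by_cases c1 : SQ.sq x ∩ g = ∅
  · rw [if_pos (sh22_empty.mpr c1), if_pos c1, sq_sh22, sh22_union, Finset.union_assoc]
  · rw [if_neg (fun h => c1 (sh22_empty.mp h)), if_neg c1]
    by_cases c2 : SQ.sq x ⊆ g
    · rw [if_pos (h2.mpr c2), if_pos c2, sq_sh22, sh22_sdiff, Finset.union_sdiff_distrib, Finset.sdiff_eq_self_of_disjoint hd]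
    · rw [if_neg (fun h => c2 (h2.mp h)), if_neg c2]

theorem emb_injOn (N : ℕ) (hN : 1 ≤ N) (s : ℤ) (hs : s = 1 ∨ s = -1) {EE : Finset (Finset Edge)} (h : EE ⊆ Om N) :
    Set.InjOn (Emb N s) (EE : Set (Finset Edge)) :=
  fun _ ha _ hb hab => emb_inj N hN s hs (h ha) (h hb) hab

theorem emb_sum (q : ℝ) (N : ℕ) (hN : 1 ≤ N) (s : ℤ) (hs : s = 1 ∨ s = -1) {EE : Finset (Finset Edge)} (h : EE ⊆ Om N)
    (Φ : Finset Edge → ℝ) :
    ∑ g ∈ EE.image (Emb N s), q ^ g.card * Φ g = q ^ (cap (N + 4) s).card * ∑ g ∈ EE, q ^ g.card * Φ (Emb N s g) := by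
  rw [Finset.sum_image (emb_injOn N hN s hs h), Finset.mul_sum]
  refine Finset.sum_congr rfl (fun g hg => ?_)
  rw [emb_card N hN s hs (h hg), pow_add, mul_assoc]

theorem emb_ZE (q : ℝ) (N : ℕ) (hN : 1 ≤ N) (s : ℤ) (hs : s = 1 ∨ s = -1) {EE : Finset (Finset Edge)} (h : EE ⊆ Om N) :
    ZE q (EE.image (Emb N s)) = q ^ (cap (N + 4) s).card * ZE q EE := by
  have h1 := emb_sum q N hN s hs h (fun _ => 1)
  simp only [mul_one] at h1
  exact h1

theorem emb_mu (q : ℝ) (hq0 : 0 < q) (N : ℕ) (hN : 1 ≤ N) (s : ℤ) (hs : s = 1 ∨ s = -1) {EE : Finset (Finset Edge)} (h : EE ⊆ Om N)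
    (u : Finset Edge → ℝ) : mu q (EE.image (Emb N s)) u = mu q EE (fun g => u (Emb N s g)) := by
  unfold mu
  rw [emb_sum q N hN s hs h, emb_ZE q N hN s hs h]
  exact mul_div_mul_left _ _ (pow_pos hq0 _).ne'

theorem emb_Dir (q : ℝ) (hq0 : 0 < q) (N : ℕ) (hN : 1 ≤ N) (s : ℤ) (hs : s = 1 ∨ s = -1) {EE : Finset (Finset Edge)} (h : EE ⊆ Om N)
    (u : Finset Edge → ℝ) :
    q ^ (cap (N + 4) s).card * Dir q N EE (fun g => u (Emb N s g)) ≤ Dir q (N + 4) (EE.image (Emb N s)) u := by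
  classical
  have hnn : ∀ x : ℤ × ℤ, ∀ G : Finset (Finset Edge), 0 ≤ ∑ g ∈ G, q ^ g.card * (u (SQ.flip x g) - u g) ^ 2 := by
    intro x G
    refine Finset.sum_nonneg (fun g _ => mul_nonneg (pow_pos hq0 _).le (sq_nonneg _))
  set j : ℤ × ℤ → ℤ × ℤ := fun x => (x.1 + 2, x.2 + 2) with hj
  have hjinj : Set.InjOn j (box N : Set (ℤ × ℤ)) := by
    intro a _ b _ hab
    have h1 := congrArg Prod.fst hab
    have h2 := congrArg Prod.snd hab
    simp only [hj] at h1 h2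
    ext
    · linarith
    · linarith
  have hsub : (box N).image j ⊆ box (N + 4) := by
    intro y hy
    obtain ⟨x, hx, rfl⟩ := Finset.mem_image.mp hy
    unfold box at hx ⊢
    rw [Finset.mem_product, Finset.mem_Ico, Finset.mem_Ico] at hx ⊢
    simp only [hj]
    push_cast
    omega
  unfold Dir
  refine le_trans ?_ (Finset.sum_le_sum_of_subset_of_nonneg hsub (fun x _ _ => hnn x _))
  rw [Finset.sum_image hjinj, Finset.mul_sum]
  refine Finset.sum_le_sum (fun x hx => ?_)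
  have h1 : ((EE.filter (fun g => SQ.flip x g ∈ EE)).image (Emb N s)) ⊆
      (EE.image (Emb N s)).filter (fun g => SQ.flip (j x) g ∈ EE.image (Emb N s)) := by
    intro y hy
    obtain ⟨g, hg, rfl⟩ := Finset.mem_image.mp hy
    have hg' := Finset.mem_filter.mp hg
    refine Finset.mem_filter.mpr ⟨Finset.mem_image_of_mem _ hg'.1, ?_⟩
    rw [hj]
    simp only
    rw [emb_flip N hN s hs (h hg'.1) hx]
    exact Finset.mem_image_of_mem _ hg'.2
  refine le_trans ?_ (Finset.sum_le_sum_of_subset_of_nonneg h1 (fun g _ _ => mul_nonneg (pow_pos hq0 _).le (sq_nonneg _)))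
  rw [Finset.sum_image (emb_injOn N hN s hs ((Finset.filter_subset _ _).trans h)), Finset.mul_sum]
  refine le_of_eq (Finset.sum_congr rfl (fun g hg => ?_))
  have hg' := Finset.mem_filter.mp hg
  rw [hj]
  simp only
  rw [emb_flip N hN s hs (h hg'.1) hx, emb_card N hN s hs (h hg'.1), pow_add, mul_assoc]

theorem emb_wp (q : ℝ) (hq0 : 0 < q) (N : ℕ) (hN : 1 ≤ N) (s : ℤ) (hs : s = 1 ∨ s = -1) {EE : Finset (Finset Edge)} (h : EE ⊆ Om N) (A β : ℝ)
    (hA : 0 ≤ A) (hwp : WPo q N EE A β) : WPo q (N + 4) (EE.image (Emb N s)) A β := by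
  intro u B hB hu
  have h1 := hwp (fun g => u (Emb N s g)) B hB (fun g hg => hu _ (Finset.mem_image_of_mem _ hg))
  rw [emb_mu q hq0 N hN s hs h, emb_sum q N hN s hs h (fun g => (u g - mu q EE (fun g => u (Emb N s g))) ^ 2),
    emb_ZE q N hN s hs h]
  have h2 := emb_Dir q hq0 N hN s hs h u
  have hc : 0 < q ^ (cap (N + 4) s).card := pow_pos hq0 _
  have h3 := mul_le_mul_of_nonneg_left h1 hc.le
  have h4 := mul_le_mul_of_nonneg_left h2 hA
  calc _ ≤ q ^ (cap (N + 4) s).card * (A * Dir q N EE (fun g => u (Emb N s g)) + β * B ^ 2 * ZE q EE) := h3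
    _ = A * (q ^ (cap (N + 4) s).card * Dir q N EE (fun g => u (Emb N s g))) + β * B ^ 2 * (q ^ (cap (N + 4) s).card * ZE q EE) := by
        ring
    _ ≤ _ := by linarith

end

end Pool.Agent.H40.WM
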