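import Mathlib
import Pool.Agent.H40.WM.VSum
import Pool.Agent.H40.WM.GEdg
import Pool.Agent.H40.WM.BWP
import Pool.Agent.H40.WM.BImg
import Pool.Agent.H40.WM.QRem

/-!
# BDt: density of the image of the embedding in the largest `EE(c)`

`c ≥ 2n - 7`, `n = N + 4`.  By `ZE_eq`: `ZE (EEc) = q^|gP| ZV (gD) ZP ≤ q^|gP| ZV (gD)`, because `ZP ≤ ∑_G q^|G| ≤ 4 (18 q) ≤ 1` (`omD_le`, `path_tail` with `d = 1`; the paths are nonempty since `a ≠ b`).  `ZE (EEt) = q^|cap| ZE (Om N) = q^|cap| ZV (E N) = q^|cap| ZV (sh (2,2) (E N))` (`eet_eq`, `emb_ZE`, `ZV_sh`; `Om N = VCs (E N)`).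
`cnt_top`: `gD n c \ sh (2,2) (E N)` has at most 400 elements (its edges are not adjacent to a face of `[2,n-3]^2`, and have an unknown face or are `Hr a`, `Vu b`: an unknown face in ring 0 or 1 has sum `≥ c - 1 ≥ 2n - 8`, so all these edges have both coordinates `≥ n - 9`: at most `2 * 12^2 = 288`), and
`|cap| ≤ |gP| + 400` (an edge of `cap` not in `gP` has both coordinates `≥ n - 9`: for the faces of rings 0 and 1 with sum `≤ c - 2` the two functions `1_capA`, `1_gA` agree; and it is not in the staircase unless both coordinates are `≥ n-9`).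
So `ZV (gD) ≤ 2^400 ZV (sh (2,2) (E N))` (`ZV_sdiff_le` with `S = gD \ sh (2,2) (E N)`, `ZV_mono`), `q^|gP| ≤ q^|cap| / q^400`.  Also `EEt ⊆ EEc`.
-/

set_option autoImplicit false

namespace Pool.Agent.H40.WM

open Pool.Agent.H40.SQ

noncomputable section

private theorem bdt_mem_f {n : ℕ} {x y : ℤ} : ((false, x, y) : Edge) ∈ E n ↔ 0 ≤ x ∧ x < n ∧ 0 ≤ y ∧ y ≤ n := by
  unfold E
  rw [Finset.mem_biUnion]
  constructor
  · rintro ⟨⟨i, j⟩, hb, he⟩
    rw [mem_box'] at hb
    unfold gBox at hb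
    unfold SQ.sq at he
    simp only [Finset.mem_insert, Finset.mem_singleton, Prod.mk.injEq, true_and, Bool.false_eq_true, false_and,
      or_false] at he
    omega
  · intro h
    rcases lt_or_ge y n with h1 | h1
    · refine ⟨(x, y), ?_, ?_⟩
      · rw [mem_box']
        unfold gBox
        omega
      · unfold SQ.sq
        simp
    · refine ⟨(x, y - 1), ?_, ?_⟩
      · rw [mem_box']
        unfold gBox
        omega
      · unfold SQ.sq
        simp

private theorem bdt_mem_t {n : ℕ} {x y : ℤ} : ((true, x, y) : Edge) ∈ E n ↔ 0 ≤ x ∧ x ≤ n ∧ 0 ≤ y ∧ y < n := by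
  unfold E
  rw [Finset.mem_biUnion]
  constructor
  · rintro ⟨⟨i, j⟩, hb, he⟩
    rw [mem_box'] at hb
    unfold gBox at hb
    unfold SQ.sq at he
    simp only [Finset.mem_insert, Finset.mem_singleton, Prod.mk.injEq, true_and, reduceCtorEq, false_and,
      false_or] at he
    omega
  · intro h
    rcases lt_or_ge x n with h1 | h1
    · refine ⟨(x, y), ?_, ?_⟩
      · rw [mem_box']
        unfold gBox
        omega
      · unfold SQ.sq
        simp
    · refine ⟨(x - 1, y), ?_, ?_⟩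
      · rw [mem_box']
        unfold gBox
        omega
      · unfold SQ.sq
        simp

private theorem bdt_unk {n : ℕ} {c i j : ℤ} (hn : 5 ≤ n) (hc : 2 * (n : ℤ) - 7 ≤ c) (hk : ¬ gK n c i j) :
    (2 ≤ i ∧ i ≤ n - 3 ∧ 2 ≤ j ∧ j ≤ n - 3) ∨ (n - 6 ≤ i ∧ i ≤ n - 1 ∧ n - 6 ≤ j ∧ j ≤ n - 1) := by
  unfold gK gV gR1 gR0 gBox at hk
  omega

private def bdt_corner (n : ℕ) : Finset Edge :=
  (Finset.univ : Finset Bool) ×ˢ (Finset.Icc ((n : ℤ) - 7) n ×ˢ Finset.Icc ((n : ℤ) - 7) n)

private theorem bdt_corner_card (n : ℕ) : (bdt_corner n).card = 128 := by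
  unfold bdt_corner
  rw [Finset.card_product, Finset.card_product, Int.card_Icc]
  have : ((n : ℤ) + 1 - ((n : ℤ) - 7)).toNat = 8 := by omega
  rw [this]
  rfl

private theorem bdt_mem_corner {n : ℕ} {b : Bool} {x y : ℤ} :
    ((b, x, y) : Edge) ∈ bdt_corner n ↔ (n : ℤ) - 7 ≤ x ∧ x ≤ n ∧ (n : ℤ) - 7 ≤ y ∧ y ≤ n := by
  unfold bdt_corner
  rw [Finset.mem_product, Finset.mem_product, Finset.mem_Icc, Finset.mem_Icc]
  simp only [Finset.mem_univ, true_and]
  tauto

private theorem bdt_one {N : ℕ} {s c : ℤ} (h : Par (N + 4) s c) (hc : 2 * (N + 4 : ℤ) - 7 ≤ c) :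
    gD (N + 4) c \ sh (2, 2) (E N) ⊆ bdt_corner (N + 4) := by
  classical
  intro e he
  rw [Finset.mem_sdiff] at he
  obtain ⟨h1, h2⟩ := he
  have hn := h.hn
  have hi := h.hi
  push_cast at hi
  obtain ⟨b, x, y⟩ := e
  rw [mem_sh22] at h2
  rw [bdt_mem_corner]
  unfold gD at h1
  rw [Finset.mem_union, Finset.mem_filter] at h1
  push_cast
  rcases h1 with ⟨h3, h4⟩ | h1
  · unfold gFx at h4
    rw [not_and_or] at h4
    cases b
    · simp only [Bool.false_eq_true, if_false] at h4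
      rw [bdt_mem_f] at h2 h3
      push_cast at h3
      rcases h4 with h4 | h4
      · have := bdt_unk hn (by push_cast; omega) h4
        push_cast at this
        omega
      · have := bdt_unk hn (by push_cast; omega) h4
        push_cast at this
        omega
    · simp only [if_true] at h4
      rw [bdt_mem_t] at h2 h3
      push_cast at h3
      rcases h4 with h4 | h4
      · have := bdt_unk hn (by push_cast; omega) h4
        push_cast at this
        omega
      · have := bdt_unk hn (by push_cast; omega) h4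
        push_cast at this
        omega
  · unfold ga gb gal Hr Vu at h1
    simp only [Finset.mem_insert, Finset.mem_singleton, Prod.mk.injEq] at h1
    push_cast at h1
    omega

private theorem bdt_agree {n : ℕ} {s c i j : ℤ} (h : Par n s c) (hij : i + j ≤ c - 2 ∨ ¬ gBox n i j) :
    gA n c i j ↔ capA n s i j := by
  have hp := h.par
  have hi := h.hi
  unfold gA capA gR0 gT sgn
  unfold gR0 gBox at *
  split_ifs <;> omega

private theorem bdt_two {N : ℕ} {s c : ℤ} (h : Par (N + 4) s c) (hc : 2 * (N + 4 : ℤ) - 7 ≤ c) :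
    cap (N + 4) s \ gP (N + 4) s c ⊆ bdt_corner (N + 4) := by
  classical
  intro e he
  rw [Finset.mem_sdiff] at he
  obtain ⟨h1, h2⟩ := he
  by_contra hcon
  apply h2
  have hn := h.hn
  have hi := h.hi
  have hg := (gn0_pos h).2
  push_cast at hi
  unfold gP
  rw [Finset.mem_sdiff]
  obtain ⟨b, x, y⟩ := e
  rw [bdt_mem_corner] at hcon
  unfold cap cfg at h1
  unfold gS cfg
  rw [Finset.mem_filter] at h1 ⊢
  obtain ⟨h3, h4⟩ := h1
  refine ⟨⟨h3, ?_⟩, ?_⟩
  · cases b
    · rw [bdt_mem_f] at h3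
      right
      refine ⟨rfl, ?_⟩
      simp only [false_and, false_or, true_and, Bool.false_eq_true] at h4 ⊢
      have a1 : gA (N + 4) c x y ↔ capA (N + 4) s x y := bdt_agree h (by unfold gBox; push_cast at *; omega)
      have a2 : gA (N + 4) c x (y - 1) ↔ capA (N + 4) s x (y - 1) := bdt_agree h (by unfold gBox; push_cast at *; omega)
      rw [if_congr a1 rfl rfl, if_congr a2 rfl rfl]
      exact h4
    · rw [bdt_mem_t] at h3
      left
      refine ⟨rfl, ?_⟩
      simp only [reduceCtorEq, false_and, or_false, true_and] at h4 ⊢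
      have a1 : gA (N + 4) c x y ↔ capA (N + 4) s x y := bdt_agree h (by unfold gBox; push_cast at *; omega)
      have a2 : gA (N + 4) c (x - 1) y ↔ capA (N + 4) s (x - 1) y := bdt_agree h (by unfold gBox; push_cast at *; omega)
      rw [if_congr a1 rfl rfl, if_congr a2 rfl rfl]
      exact h4
  · rw [mem_Str, hg]
    unfold ga gal
    push_cast at *
    omega

theorem cnt_top {N : ℕ} {s c : ℤ} (h : Par (N + 4) s c) (hc : 2 * (N + 4 : ℤ) - 7 ≤ c) :
    (gD (N + 4) c \ sh (2, 2) (E N)).card ≤ 400 ∧ (cap (N + 4) s).card ≤ (gP (N + 4) s c).card + 400 := by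
  have h1 := Finset.card_le_card (bdt_one h hc)
  have h2 := Finset.card_le_card (bdt_two h hc)
  rw [bdt_corner_card] at h1 h2
  refine ⟨by omega, ?_⟩
  have h3 : (cap (N + 4) s).card ≤ (cap (N + 4) s \ gP (N + 4) s c).card + (gP (N + 4) s c).card :=
    Finset.card_le_card_sdiff_add_card
  omega

private theorem bdt_ZP (q : ℝ) (hq0 : 0 < q) (hq1 : q ≤ 1 / 10 ^ 6) (D : Finset Edge) {a b : ℤ × ℤ} (hab : a ≠ b) :
    ZP q D a b ≤ 1 := by
  unfold ZP
  calc ∑ G ∈ PD D a b, omD q D G ≤ ∑ G ∈ PD D a b, q ^ G.card := Finset.sum_le_sum fun G _ => omD_le q hq0 D G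
    _ ≤ 4 * (18 * q) ^ 1 := by
        have hne : ∀ G ∈ PD D a b, G.Nonempty := by
          intro G hG
          have h1 := (mem_PD.1 hG).2
          by_contra hcon
          rw [Finset.not_nonempty_iff_eq_empty] at hcon
          have h2 := h1.def' a
          rw [if_pos rfl, if_neg hab, hcon] at h2
          unfold dfc ind at h2
          simp at h2
        exact path_tail a _ (fun G hG => ⟨hne G hG, b, (mem_PD.1 hG).2⟩) q hq0.le (by linarith) 1
          fun G hG => Finset.card_pos.2 (hne G hG)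
    _ ≤ 1 := by
        rw [pow_one]
        linarith

theorem dn_top (q : ℝ) (hq0 : 0 < q) (hq1 : q ≤ 1 / 10 ^ 6) {N : ℕ} (hN : 1 ≤ N) {s c : ℤ} (h : Par (N + 4) s c) (hc : 2 * (N + 4 : ℤ) - 7 ≤ c) :
    ZE q (EEc (N + 4) s c) ≤ (2 / q) ^ 900 * ZE q (EEt N s) := by
  classical
  have hs : s = 1 ∨ s = -1 := by
    rcases h.par with h1 | h1
    · exact Or.inl h1.1
    · exact Or.inr h1.1
  obtain ⟨h1, h2⟩ := cnt_top h hc
  obtain ⟨K, hK⟩ : ∃ K : ℕ, K = 400 := ⟨_, rfl⟩
  rw [← hK] at h1 h2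
  have hq1' : q ≤ 1 := hq1.trans (by norm_num)
  have hZP := bdt_ZP q hq0 hq1 (gD (N + 4) c) (ga_ne_gb h)
  have hZV0 := ZV_pos q hq0.le (gD (N + 4) c)
  have hZV : ZV q (gD (N + 4) c) ≤ 2 ^ K * ZV q (E N) := by
    calc ZV q (gD (N + 4) c) ≤ 2 ^ (gD (N + 4) c \ sh (2, 2) (E N)).card *
          ZV q (gD (N + 4) c \ (gD (N + 4) c \ sh (2, 2) (E N))) := ZV_sdiff_le q hq0 (by linarith) _ _
      _ ≤ 2 ^ K * ZV q (sh (2, 2) (E N)) := by
          refine mul_le_mul (pow_le_pow_right₀ (by norm_num) h1) (ZV_mono q hq0.le ?_) (ZV_pos q hq0.le _).le (by positivity)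
          intro e he
          rw [Finset.mem_sdiff, Finset.mem_sdiff] at he
          by_contra hcon
          exact he.2 ⟨he.1, hcon⟩
      _ = 2 ^ K * ZV q (E N) := by rw [ZV_sh]
  have hEt : ZE q (EEt N s) = q ^ (cap (N + 4) s).card * ZV q (E N) := by
    rw [eet_eq N hN s hs, emb_ZE q N hN s hs (Finset.Subset.refl _)]
    rfl
  rw [ZE_eq h q hq0, hEt]
  have hpow : q ^ ((gP (N + 4) s c).card + K) ≤ q ^ (cap (N + 4) s).card := pow_le_pow_of_le_one hq0.le hq1' h2
  have hpow2 : q ^ (gP (N + 4) s c).card ≤ (1 / q) ^ K * q ^ (cap (N + 4) s).card := by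
    rw [one_div, inv_pow, ← div_eq_inv_mul, le_div_iff₀ (by positivity), ← pow_add]
    exact hpow
  have hE := ZV_pos q hq0.le (E N)
  have h2q : 1 ≤ 2 / q := by
    rw [le_div_iff₀ hq0]
    linarith
  calc q ^ (gP (N + 4) s c).card * (ZV q (gD (N + 4) c) * ZP q (gD (N + 4) c) (ga (N + 4) c) (gb (N + 4) c))
      ≤ ((1 / q) ^ K * q ^ (cap (N + 4) s).card) * ((2 ^ K * ZV q (E N)) * 1) := by
        have hZP0 : 0 ≤ ZP q (gD (N + 4) c) (ga (N + 4) c) (gb (N + 4) c) := by
          unfold ZP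
          exact Finset.sum_nonneg fun G _ => (omD_pos q hq0 _ G).le
        gcongr
    _ = (2 / q) ^ K * (q ^ (cap (N + 4) s).card * ZV q (E N)) := by
        rw [div_pow, div_pow]
        ring
    _ ≤ (2 / q) ^ 900 * (q ^ (cap (N + 4) s).card * ZV q (E N)) := by
        refine mul_le_mul_of_nonneg_right (pow_le_pow_right₀ h2q (by omega)) (by positivity)

theorem eet_sub {N : ℕ} {s c : ℤ} (h : Par (N + 4) s c) : EEt N s ⊆ EEc (N + 4) s c := by
  classical
  intro g hg
  unfold EEt at hg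
  unfold EEc
  rw [Finset.mem_filter] at hg ⊢
  refine ⟨hg.1, fun x hx hR => hg.2 x hx ?_⟩
  have hp := h.par
  unfold gR gT at hR
  rcases hR with h1 | h1
  · exact Or.inl h1.1
  · refine Or.inr ⟨h1.1, ?_⟩
    unfold sgn
    split_ifs <;> omega

end

end Pool.Agent.H40.WM
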