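import Mathlib
import Pool.Agent.H40.WM.BImg
import Pool.Agent.H40.WM.BWP

/-!
# BSn: operations on partial ladders

* `plad_snoc`: append one set (define `EE' i = EE i` for `i ≤ r`, `EE' (r+1) = F'`).
* `plad_emb`: the image of a partial ladder under the embedding (`emb_top`, `emb_up`, `emb_ZE`, `emb_wp`; `EE i ⊆ Om N` by `UpS`).
* `plad_ladder`: `Fs = Om n` gives a `Ladder`.
* `exists_top`: the largest configuration: `Om n` is finite and closed under the pointwise maximum of `s F` (`val0_max`, `val0_min`, `cfg_mem`, `F_cfg`); take the maximum over all configurations (`Finset.induction` or a configuration maximising `∑ s F`).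
-/

set_option autoImplicit false

namespace Pool.Agent.H40.WM

open Pool.Agent.H40.SQ

noncomputable section

theorem plad_snoc {q : ℝ} {n : ℕ} {s : ℤ} {H A β : ℝ} {r : ℕ} {EE : ℕ → Finset (Finset Edge)} {Fs : Finset (Finset Edge)}
    (h : PLad q n s H A β r EE Fs) (F' : Finset (Finset Edge)) (hF : Fs ⊆ F') (hU : UpS n s F') (hd : ZE q F' ≤ H * ZE q Fs)
    (hw : WPo q n F' A β) : ∃ EE' : ℕ → Finset (Finset Edge), PLad q n s H A β (r + 1) EE' F' := by
  have hle : ∀ i, i ≤ r → (if i ≤ r then EE i else F') = EE i := fun i hi => if_pos hi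
  have hgt : (if r + 1 ≤ r then EE (r + 1) else F') = F' := if_neg (by omega)
  refine ⟨fun i => if i ≤ r then EE i else F', ?_, ?_, ?_, ?_, ?_, ?_⟩
  · obtain ⟨g0, h0, h1⟩ := h.top
    exact ⟨g0, (hle 0 (Nat.zero_le r)).trans h0, h1⟩
  · exact hgt
  · intro i hi
    rcases Nat.lt_or_ge r i with h1 | h1
    · rw [if_neg (by omega)]
      exact hU
    · rw [hle i h1]
      exact h.up i h1
  · intro i hi
    rcases Nat.lt_or_ge i r with h1 | h1
    · rw [hle i h1.le, hle (i + 1) h1]
      exact h.mono i h1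
    · have h2 : i = r := by omega
      subst h2
      rw [hgt, hle i le_rfl, h.last]
      exact hF
  · intro i hi
    rcases Nat.lt_or_ge i r with h1 | h1
    · rw [hle i h1.le, hle (i + 1) h1]
      exact h.dens i h1
    · have h2 : i = r := by omega
      subst h2
      rw [hgt, hle i le_rfl, h.last]
      exact hd
  · intro i hi0 hi
    rcases Nat.lt_or_ge r i with h1 | h1
    · rw [if_neg (by omega)]
      exact hw
    · rw [hle i h1]
      exact h.wp i hi0 h1

theorem plad_emb {q : ℝ} (hq0 : 0 < q) {N : ℕ} (hN : 1 ≤ N) {s : ℤ} (hs : s = 1 ∨ s = -1) {H A β : ℝ} (hA : 0 ≤ A) {r : ℕ} {EE : ℕ → Finset (Finset Edge)}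
    (h : PLad q N s H A β r EE (Om N)) : ∃ EE' : ℕ → Finset (Finset Edge), PLad q (N + 4) s H A β r EE' (EEt N s) := by
  refine ⟨fun i => (EE i).image (Emb N s), ?_, ?_, ?_, ?_, ?_, ?_⟩
  · obtain ⟨g0, h0, h1⟩ := h.top
    have h2 : g0 ∈ Om N := by
      apply (h.up 0 (Nat.zero_le r)).1
      rw [h0]
      exact Finset.mem_singleton_self g0
    refine ⟨Emb N s g0, ?_, emb_top N hN s hs h2 h1⟩
    show (EE 0).image (Emb N s) = {Emb N s g0}
    rw [h0, Finset.image_singleton]
  · show (EE r).image (Emb N s) = EEt N s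
    rw [h.last, eet_eq N hN s hs]
  · intro i hi
    exact emb_up N hN s hs (h.up i hi)
  · intro i hi
    exact Finset.image_subset_image (h.mono i hi)
  · intro i hi
    rw [emb_ZE q N hN s hs (h.up i hi.le).1, emb_ZE q N hN s hs (h.up (i + 1) hi).1]
    have h1 := mul_le_mul_of_nonneg_left (h.dens i hi) (pow_pos hq0 (cap (N + 4) s).card).le
    linarith
  · intro i hi0 hi
    exact emb_wp q hq0 N hN s hs (h.up i hi).1 A β hA (h.wp i hi0 hi)

theorem plad_ladder {q : ℝ} {n : ℕ} {s : ℤ} {H A β : ℝ} {r : ℕ} {EE : ℕ → Finset (Finset Edge)} (h : PLad q n s H A β r EE (Om n)) :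
    Ladder q n s H A β r EE :=
  ⟨h.top, h.last, h.up, h.mono, h.dens, h.wp⟩

theorem exists_top (n : ℕ) (s : ℤ) (hs : s = 1 ∨ s = -1) : ∃ g0 ∈ Om n, ∀ g ∈ Om n, LeS s g g0 := by
  classical
  have hne : (∅ : Finset Edge) ∈ Om n := by
    rw [mem_Om]
    refine ⟨Finset.empty_subset _, ?_⟩
    intro i j
    simp [ind]
  have key : ∀ S : Finset (Finset Edge), S ⊆ Om n → ∃ g0 ∈ Om n, ∀ g ∈ S, LeS s g g0 := by
    intro S
    induction S using Finset.induction_on with
    | empty => exact fun _ => ⟨∅, hne, fun g hg => absurd hg (Finset.notMem_empty g)⟩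
    | insert a S ha ih =>
      intro hS
      obtain ⟨g0, h0, h1⟩ := ih (fun x hx => hS (Finset.mem_insert_of_mem hx))
      obtain ⟨k, hk, h2, h3⟩ := exists_join hs h0 (hS (Finset.mem_insert_self a S))
      refine ⟨k, hk, fun g hg => ?_⟩
      rcases Finset.mem_insert.1 hg with rfl | hg
      · exact h3
      · exact fun i j => (h1 g hg i j).trans (h2 i j)
  exact key (Om n) (Finset.Subset.refl _)

theorem om_up (n : ℕ) (s : ℤ) : UpS n s (Om n) :=
  ⟨Finset.Subset.refl _, fun _ _ _ h _ => h⟩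

end

end Pool.Agent.H40.WM
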