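import Mathlib
import Pool.Agent.H40.WM.ADefs
import Pool.Agent.H40.SQ.AsWP
import Pool.Agent.H40.SQ.AsPar
import Pool.Agent.H40.SQ.CSa
import Pool.Agent.H40.SQ.HFlip

/-!
# BWom: the weak Poincare inequality on `Om n`, with the parameters of a larger box `N`

`weak_poincare n ℓ` (for `1 ≤ n ≤ N`) with the `ℓ` chosen for `N`.  The right side: `∑ q^|γ| g (g - TL g) = (1/2) ∑ q^|γ| g (g - TP g) ≤ (1/(4 n^2)) Dir q n (Om n) g ≤ Dir` (`rate ≤ 1`; expansion as in `TP_dir_lb`, `csa_expand`, `csa_swap`; all flips of `Om n` are in `Om n`).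
`mu q (Om n) = mean`, `ZE q (Om n) = Zn q n`.  `DD n ℓ q ≤ DD N ℓ q` (`E` and the polynomial factors increase), `AA n ℓ q ≤ AA N ℓ q` (`Pol n ℓ ⊆ Pol N ℓ`; or `pol_card`).
Choice of `ℓ` as in `SQ.AsPar` (`ell_ex` there is private: copy it): `b = K + 30`, `ℓ` minimal with `(26 q)^(ℓ+1) ≤ N^(-b)`, so `38^ℓ ≤ N^b`; then `DD N ℓ q ≤ N^(-K)` after enlarging `b` (e.g. `b = K + 60`: `ℓ ≤ b N`, `DD ≤ 156 (1+b) N^(4-b)`; the constant `156 (1 + b)` is at most `2^(8 + b/2)`.. choose `b = 2K + 60`),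
`AA N ℓ q ≤ 2^45 N^(8+8b)/q^10 ≤ N^C` with `C` depending on `q`, `K` (`N ≥ 2`: `1/q^10 ≤ 2^k ≤ N^k`).
-/

set_option autoImplicit false

namespace Pool.Agent.H40.WM

open Pool.Agent.H40.SQ

noncomputable section

private theorem e_bd (n N : ℕ) (hn : n ≤ N) (hN : 2 ≤ N) : ((E n).card : ℝ) ≤ 3 * (N : ℝ) ^ 2 := by
  have hsub : E n ⊆ (({false} : Finset Bool) ×ˢ (Finset.Ico 0 (n : ℤ) ×ˢ Finset.Icc 0 (n : ℤ))) ∪
      (({true} : Finset Bool) ×ˢ (Finset.Icc 0 (n : ℤ) ×ˢ Finset.Ico 0 (n : ℤ))) := by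
    rintro ⟨b, i, j⟩ h
    cases b
    · rw [mem_E_false] at h
      simp only [Finset.mem_union, Finset.mem_product, Finset.mem_singleton, Finset.mem_Ico, Finset.mem_Icc]
      left; refine ⟨trivial, ⟨?_, ?_⟩, ?_, ?_⟩ <;> omega
    · rw [mem_E_true] at h
      simp only [Finset.mem_union, Finset.mem_product, Finset.mem_singleton, Finset.mem_Ico, Finset.mem_Icc]
      right; refine ⟨trivial, ⟨?_, ?_⟩, ?_, ?_⟩ <;> omega
  have h1 := (Finset.card_le_card hsub).trans (Finset.card_union_le _ _)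
  simp only [Finset.card_product, Finset.card_singleton, Int.card_Ico, Int.card_Icc] at h1
  have h2 : ((n : ℤ) - 0).toNat = n := by omega
  have h3 : ((n : ℤ) + 1 - 0).toNat = n + 1 := by omega
  rw [h2, h3] at h1
  have h5 : n * (n + 1) ≤ N * (N + 1) := Nat.mul_le_mul hn (by omega)
  have h4 : (E n).card ≤ 3 * N ^ 2 := by nlinarith
  exact_mod_cast h4

private theorem ell_ex (x : ℝ) (n b : ℕ) (hn : 2 ≤ n) (hx0 : 0 < x) (hx1 : 38 * x ≤ 1) :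
    ∃ ℓ : ℕ, x ^ (ℓ + 1) ≤ 1 / (n : ℝ) ^ b ∧ (38 : ℝ) ^ ℓ ≤ (n : ℝ) ^ b := by
  classical
  have hN : (2 : ℝ) ≤ n := by exact_mod_cast hn
  have hNb : (0 : ℝ) < (n : ℝ) ^ b := by positivity
  have hN1 : (1 : ℝ) ≤ (n : ℝ) ^ b := one_le_pow₀ (by linarith)
  have hex : ∃ ℓ : ℕ, x ^ (ℓ + 1) ≤ 1 / (n : ℝ) ^ b := by
    obtain ⟨m, hm⟩ := exists_pow_lt_of_lt_one (by positivity : (0 : ℝ) < 1 / (n : ℝ) ^ b) (by linarith : x < 1)
    refine ⟨m, le_trans ?_ hm.le⟩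
    exact pow_le_pow_of_le_one hx0.le (by linarith) (by omega)
  refine ⟨Nat.find hex, Nat.find_spec hex, ?_⟩
  rcases Nat.eq_zero_or_pos (Nat.find hex) with h0 | h0
  · rw [h0]; simpa using hN1
  · have h1 := Nat.find_min hex (m := Nat.find hex - 1) (by omega)
    rw [not_le] at h1
    have h2 : Nat.find hex - 1 + 1 = Nat.find hex := by omega
    rw [h2] at h1
    set L := Nat.find hex
    have h3 : (38 : ℝ) ^ L * x ^ L ≤ 1 := by
      rw [← mul_pow]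
      exact pow_le_one₀ (by positivity) hx1
    have h4 : (38 : ℝ) ^ L * (1 / (n : ℝ) ^ b) ≤ 1 := by
      refine le_trans ?_ h3
      exact mul_le_mul_of_nonneg_left h1.le (by positivity)
    rw [mul_one_div, div_le_one hNb] at h4
    exact h4

private theorem ell_le (n b ℓ : ℕ) (h : (38 : ℝ) ^ ℓ ≤ (n : ℝ) ^ b) : ℓ ≤ n * b := by
  have h1 : 38 ^ ℓ ≤ n ^ b := by exact_mod_cast h
  have h2 : n ^ b ≤ (2 ^ n) ^ b := Nat.pow_le_pow_left (Nat.lt_two_pow_self).le b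
  rw [← pow_mul] at h2
  have h3 : 2 ^ ℓ ≤ 38 ^ ℓ := Nat.pow_le_pow_left (by norm_num) ℓ
  have h4 : 2 ^ ℓ ≤ 2 ^ (n * b) := h3.trans (h1.trans h2)
  exact (Nat.pow_le_pow_iff_right (by norm_num)).mp h4

private theorem AA_bd (n N ℓ b : ℕ) (hn : n ≤ N) (hN2 : 2 ≤ N) (q : ℝ) (hq : 0 < q)
    (hl : (38 : ℝ) ^ ℓ ≤ (N : ℝ) ^ b) : AA n ℓ q ≤ (N : ℝ) ^ (53 + 8 * b) / q ^ 10 := by
  have hN : (2 : ℝ) ≤ N := by exact_mod_cast hN2
  have hN0 : (0 : ℝ) < N := by linarith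
  have hnN : (n : ℝ) ≤ N := by exact_mod_cast hn
  have he2 := e_bd n N hn hN2
  have hP : ((Pol n ℓ).card : ℝ) ≤ 3 * (N : ℝ) ^ 2 * 18 ^ ℓ := by
    refine (pol_card n ℓ).trans ?_
    exact mul_le_mul_of_nonneg_right he2 (by positivity)
  have h34 : (2 : ℝ) ^ (4 * (8 * (ℓ + 1))) * 4 ^ (ℓ + 1) = 2 ^ 34 * (2 ^ 34) ^ ℓ := by
    have : (4 : ℝ) = 2 ^ 2 := by norm_num
    rw [this, ← pow_mul, ← pow_mul, ← pow_add, ← pow_add]
    congr 1; ring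
  have h38 : (18 : ℝ) ^ ℓ * (2 ^ 34) ^ ℓ ≤ ((38 : ℝ) ^ ℓ) ^ 8 := by
    rw [← mul_pow, ← pow_mul, mul_comm ℓ 8, pow_mul]
    exact pow_le_pow_left₀ (by positivity) (by norm_num) ℓ
  have h38' : ((38 : ℝ) ^ ℓ) ^ 8 ≤ (N : ℝ) ^ (8 * b) := by
    rw [mul_comm 8 b, pow_mul]
    exact pow_le_pow_left₀ (by positivity) hl 8
  have hq10 : (0 : ℝ) < q ^ 10 := by positivity
  have hAA : AA n ℓ q = (8 * 49 * (n : ℝ) ^ 6 * (2 ^ 34 * (2 ^ 34) ^ ℓ)) * (Pol n ℓ).card / q ^ 10 := by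
    unfold AA
    rw [h34]
    field_simp
  rw [hAA]
  apply div_le_div_of_nonneg_right _ hq10.le
  calc (8 * 49 * (n : ℝ) ^ 6 * (2 ^ 34 * (2 ^ 34) ^ ℓ)) * (Pol n ℓ).card
      ≤ (8 * 49 * (N : ℝ) ^ 6 * (2 ^ 34 * (2 ^ 34) ^ ℓ)) * (3 * (N : ℝ) ^ 2 * 18 ^ ℓ) := by
        apply mul_le_mul _ hP (by positivity) (by positivity)
        apply mul_le_mul_of_nonneg_right _ (by positivity)
        apply mul_le_mul_of_nonneg_left _ (by norm_num)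
        exact pow_le_pow_left₀ (by positivity) hnN 6
    _ = (8 * 49 * 3 * 2 ^ 34) * (N : ℝ) ^ 8 * (18 ^ ℓ * (2 ^ 34) ^ ℓ) := by ring
    _ ≤ (8 * 49 * 3 * 2 ^ 34) * (N : ℝ) ^ 8 * (N : ℝ) ^ (8 * b) :=
        mul_le_mul_of_nonneg_left (h38.trans h38') (by positivity)
    _ ≤ (N : ℝ) ^ 45 * (N : ℝ) ^ 8 * (N : ℝ) ^ (8 * b) := by
        apply mul_le_mul_of_nonneg_right _ (by positivity)
        apply mul_le_mul_of_nonneg_right _ (by positivity)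
        calc (8 * 49 * 3 * 2 ^ 34 : ℝ) ≤ 2 ^ 45 := by norm_num
          _ ≤ (N : ℝ) ^ 45 := pow_le_pow_left₀ (by norm_num) hN 45
    _ = (N : ℝ) ^ (53 + 8 * b) := by rw [← pow_add, ← pow_add]

private theorem DD_bd (n N ℓ b : ℕ) (hn : n ≤ N) (hN2 : 2 ≤ N) (q : ℝ) (hq : 0 < q)
    (hx : (26 * q) ^ (ℓ + 1) ≤ 1 / (N : ℝ) ^ b) (hl : ℓ ≤ N * b) :
    DD n ℓ q ≤ 156 * (1 + b) * (N : ℝ) ^ 4 / (N : ℝ) ^ b := by
  have hN : (2 : ℝ) ≤ N := by exact_mod_cast hN2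
  have hN0 : (0 : ℝ) < N := by linarith
  have hnN : (n : ℝ) ≤ N := by exact_mod_cast hn
  have hn0 : (0 : ℝ) ≤ n := Nat.cast_nonneg _
  have he2 := e_bd n N hn hN2
  have he0 : (0 : ℝ) ≤ ((E n).card : ℝ) := Nat.cast_nonneg _
  have hx' : (18 * q) ^ (ℓ + 1) ≤ 1 / (N : ℝ) ^ b :=
    (pow_le_pow_left₀ (by positivity) (by linarith) _).trans hx
  have hl' : (ℓ : ℝ) ≤ N * b := by exact_mod_cast hl
  have hl0 : (0 : ℝ) ≤ ℓ := Nat.cast_nonneg _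
  set e := ((E n).card : ℝ)
  set Y := 1 / (N : ℝ) ^ b with hY
  have hY0 : 0 ≤ Y := by positivity
  have h1 : 4 * (e * (18 * q) ^ (ℓ + 1)) ≤ 12 * (N : ℝ) ^ 2 * Y := by
    have : e * (18 * q) ^ (ℓ + 1) ≤ 3 * (N : ℝ) ^ 2 * Y := mul_le_mul he2 hx' (by positivity) (by positivity)
    linarith
  have h2 : 8 * e * ((5 * n + 2) * (n + ℓ) * (26 * q) ^ (ℓ + 1)) ≤ 144 * (1 + b) * (N : ℝ) ^ 4 * Y := by
    have ha : (5 * (n : ℝ) + 2) * (n + ℓ) ≤ 6 * N * (N + N * b) := by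
      apply mul_le_mul _ _ (by positivity) (by positivity)
      · linarith
      · linarith
    have hb : (5 * (n : ℝ) + 2) * (n + ℓ) * (26 * q) ^ (ℓ + 1) ≤ 6 * N * (N + N * b) * Y :=
      mul_le_mul ha hx (by positivity) (by positivity)
    calc 8 * e * ((5 * n + 2) * (n + ℓ) * (26 * q) ^ (ℓ + 1))
        ≤ 8 * (3 * (N : ℝ) ^ 2) * (6 * N * (N + N * b) * Y) :=
          mul_le_mul (by linarith) hb (by positivity) (by positivity)
      _ = 144 * (1 + b) * (N : ℝ) ^ 4 * Y := by ring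
  have h3 : 12 * (N : ℝ) ^ 2 * Y ≤ 12 * (1 + b) * (N : ℝ) ^ 4 * Y := by
    apply mul_le_mul_of_nonneg_right _ hY0
    have h4 : (N : ℝ) ^ 2 ≤ (N : ℝ) ^ 4 := pow_le_pow_right₀ (by linarith) (by norm_num)
    have h5 : (0 : ℝ) ≤ (b : ℝ) * (N : ℝ) ^ 4 := by positivity
    nlinarith
  unfold DD
  have h6 : 156 * (1 + (b : ℝ)) * (N : ℝ) ^ 4 / (N : ℝ) ^ b =
      12 * (1 + b) * (N : ℝ) ^ 4 * Y + 144 * (1 + b) * (N : ℝ) ^ 4 * Y := by
    rw [hY]; ring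
  rw [h6]
  linarith

private theorem dir_ub (n : ℕ) (hn : 1 ≤ n) (q : ℝ) (hq0 : 0 < q) (hq1 : q ≤ 1) (g : Finset Edge → ℝ) :
    ∑ γ ∈ Om n, q ^ γ.card * g γ * (g γ - TL (q ^ 4) n g γ) ≤ Dir q n (Om n) g := by
  have hlam1 : q ^ 4 ≤ 1 := pow_le_one₀ hq0.le hq1
  have hn1 : (1 : ℝ) ≤ n := by exact_mod_cast hn
  have hdir : Dir q n (Om n) g = ∑ x ∈ box n, ∑ γ ∈ Om n, q ^ γ.card * (g (flip x γ) - g γ) ^ 2 := by
    unfold Dir
    apply Finset.sum_congr rfl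
    intro x hx
    rw [Finset.filter_true_of_mem]
    intro γ hγ
    exact flip_mem hx hγ
  have hTL : ∑ γ ∈ Om n, q ^ γ.card * g γ * (g γ - TL (q ^ 4) n g γ) =
      (1 / 2) * ∑ γ ∈ Om n, q ^ γ.card * g γ * (g γ - TP (q ^ 4) n g γ) := by
    rw [Finset.mul_sum]
    apply Finset.sum_congr rfl
    intro γ _
    have : TL (q ^ 4) n g γ = (1 / 2) * (g γ + TP (q ^ 4) n g γ) := by
      unfold TL
      simp only [LinearMap.smul_apply, LinearMap.add_apply, Pi.smul_apply, Pi.add_apply, LinearMap.id_apply, smul_eq_mul]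
    rw [this]; ring
  have h1 : ∑ γ ∈ Om n, q ^ γ.card * g γ * (g γ - TP (q ^ 4) n g γ) =
      (1 / (n : ℝ) ^ 2) * ∑ c ∈ box n, (1 / 2) * ∑ γ ∈ Om n,
        q ^ γ.card * rate (q ^ 4) c γ * (g (flip c γ) - g γ) ^ 2 := by
    have e1 : ∑ γ ∈ Om n, q ^ γ.card * g γ * (g γ - TP (q ^ 4) n g γ) =
        ∑ γ ∈ Om n, q ^ γ.card * g γ * g γ - ∑ γ ∈ Om n, q ^ γ.card * TP (q ^ 4) n g γ * g γ := by
      rw [← Finset.sum_sub_distrib]
      apply Finset.sum_congr rfl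
      intro γ _
      ring
    rw [e1, csa_expand]
    have e2 : ∀ c ∈ box n, (1 / 2 : ℝ) * ∑ γ ∈ Om n,
        q ^ γ.card * rate (q ^ 4) c γ * (g (flip c γ) - g γ) ^ 2 =
        -(∑ γ ∈ Om n, q ^ γ.card * rate (q ^ 4) c γ * g (flip c γ) * g γ -
          ∑ γ ∈ Om n, q ^ γ.card * rate (q ^ 4) c γ * g γ * g γ) := by
      intro c hc
      have e3 := csa_reindex n c hc (fun γ => q ^ γ.card * rate (q ^ 4) c γ * g γ * g γ)
      have e4 : ∑ γ ∈ Om n, q ^ (flip c γ).card * rate (q ^ 4) c (flip c γ) * g (flip c γ) *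
          g (flip c γ) = ∑ γ ∈ Om n, q ^ γ.card * rate (q ^ 4) c γ * g (flip c γ) ^ 2 := by
        apply Finset.sum_congr rfl
        intro γ _
        rw [csa_inv q (q ^ 4) rfl]
        ring
      rw [e4] at e3
      have e5 : ∑ γ ∈ Om n, q ^ γ.card * rate (q ^ 4) c γ * (g (flip c γ) - g γ) ^ 2 =
          ∑ γ ∈ Om n, q ^ γ.card * rate (q ^ 4) c γ * g (flip c γ) ^ 2 -
            2 * ∑ γ ∈ Om n, q ^ γ.card * rate (q ^ 4) c γ * g (flip c γ) * g γ +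
            ∑ γ ∈ Om n, q ^ γ.card * rate (q ^ 4) c γ * g γ * g γ := by
        rw [Finset.mul_sum, ← Finset.sum_sub_distrib, ← Finset.sum_add_distrib]
        apply Finset.sum_congr rfl
        intro γ _
        ring
      rw [e5, e3]
      ring
    rw [Finset.sum_congr rfl e2, Finset.sum_neg_distrib]
    ring
  rw [hTL, h1, hdir]
  have hS : ∑ c ∈ box n, (1 / 2 : ℝ) * ∑ γ ∈ Om n,
      q ^ γ.card * rate (q ^ 4) c γ * (g (flip c γ) - g γ) ^ 2 ≤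
      ∑ x ∈ box n, ∑ γ ∈ Om n, q ^ γ.card * (g (flip x γ) - g γ) ^ 2 := by
    apply Finset.sum_le_sum
    intro c _
    have h2 : ∑ γ ∈ Om n, q ^ γ.card * rate (q ^ 4) c γ * (g (flip c γ) - g γ) ^ 2 ≤
        ∑ γ ∈ Om n, q ^ γ.card * (g (flip c γ) - g γ) ^ 2 := by
      apply Finset.sum_le_sum
      intro γ _
      apply mul_le_mul_of_nonneg_right _ (sq_nonneg _)
      calc q ^ γ.card * rate (q ^ 4) c γ ≤ q ^ γ.card * 1 :=
            mul_le_mul_of_nonneg_left (csa_rate_le _ hlam1 c γ) (by positivity)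
        _ = q ^ γ.card := mul_one _
    have h3 : 0 ≤ ∑ γ ∈ Om n, q ^ γ.card * (g (flip c γ) - g γ) ^ 2 :=
      Finset.sum_nonneg fun γ _ => by positivity
    linarith
  have hS0 : 0 ≤ ∑ c ∈ box n, (1 / 2 : ℝ) * ∑ γ ∈ Om n,
      q ^ γ.card * rate (q ^ 4) c γ * (g (flip c γ) - g γ) ^ 2 := by
    apply Finset.sum_nonneg
    intro c _
    apply mul_nonneg (by norm_num)
    apply Finset.sum_nonneg
    intro γ _
    have := csa_rate_nonneg (q ^ 4) (by positivity) c γ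
    positivity
  have hn2 : 1 / (n : ℝ) ^ 2 ≤ 1 := by
    rw [div_le_one (by positivity)]
    exact one_le_pow₀ hn1
  have h4 : (1 / (n : ℝ) ^ 2) * ∑ c ∈ box n, (1 / 2 : ℝ) * ∑ γ ∈ Om n,
      q ^ γ.card * rate (q ^ 4) c γ * (g (flip c γ) - g γ) ^ 2 ≤
      ∑ c ∈ box n, (1 / 2 : ℝ) * ∑ γ ∈ Om n,
      q ^ γ.card * rate (q ^ 4) c γ * (g (flip c γ) - g γ) ^ 2 := by
    calc _ ≤ 1 * ∑ c ∈ box n, (1 / 2 : ℝ) * ∑ γ ∈ Om n,
        q ^ γ.card * rate (q ^ 4) c γ * (g (flip c γ) - g γ) ^ 2 :=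
          mul_le_mul_of_nonneg_right hn2 hS0
      _ = _ := one_mul _
  have h5 : 0 ≤ (1 / (n : ℝ) ^ 2) * ∑ c ∈ box n, (1 / 2 : ℝ) * ∑ γ ∈ Om n,
      q ^ γ.card * rate (q ^ 4) c γ * (g (flip c γ) - g γ) ^ 2 := mul_nonneg (by positivity) hS0
  linarith

theorem wp_om (q : ℝ) (hq0 : 0 < q) (hq1 : q ≤ 1 / 10 ^ 6) (K : ℕ) : ∃ C : ℕ, ∀ N : ℕ, 2 ≤ N → ∀ n : ℕ, 1 ≤ n → n ≤ N →
    WPo q n (Om n) ((N : ℝ) ^ C) (1 / (N : ℝ) ^ K) := by
  have hq2 : q ≤ 1 / 1000 := hq1.trans (by norm_num)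
  obtain ⟨k, hk⟩ := pow_unbounded_of_one_lt (1 / q ^ 10) (by norm_num : (1 : ℝ) < 2)
  obtain ⟨b, hb⟩ : ∃ b, b = 2 * K + 60 := ⟨_, rfl⟩
  refine ⟨53 + 8 * b + k, ?_⟩
  intro N hN2 n hn1 hnN u B hB hu
  have hN : (2 : ℝ) ≤ N := by exact_mod_cast hN2
  have hN0 : (0 : ℝ) < N := by linarith
  obtain ⟨ℓ, hl1, hl2⟩ := ell_ex (26 * q) N b hN2 (by positivity) (by linarith)
  have hl3 := ell_le N b ℓ hl2
  have hAA := AA_bd n N ℓ b hnN hN2 q hq0 hl2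
  have hDD := DD_bd n N ℓ b hnN hN2 q hq0 hl1 hl3
  have hwp := weak_poincare n ℓ hn1 q (q ^ 4) rfl hq0 hq2 u B hB hu
  have hdir := dir_ub n hn1 q hq0 (by linarith) u
  have hDir0 : 0 ≤ Dir q n (Om n) u := by
    unfold Dir
    apply Finset.sum_nonneg
    intro x _
    apply Finset.sum_nonneg
    intro γ _
    positivity
  have hAA0 : 0 ≤ AA n ℓ q := by
    unfold AA; positivity
  have hA2 : AA n ℓ q ≤ (N : ℝ) ^ (53 + 8 * b + k) := by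
    refine hAA.trans ?_
    rw [div_eq_mul_one_div, pow_add _ (53 + 8 * b) k]
    apply mul_le_mul_of_nonneg_left _ (by positivity)
    exact hk.le.trans (pow_le_pow_left₀ (by norm_num) hN k)
  have hD2 : DD n ℓ q ≤ 1 / (N : ℝ) ^ K := by
    refine hDD.trans ?_
    rw [div_le_div_iff₀ (by positivity) (by positivity), one_mul]
    have h1 : 156 * (1 + (b : ℝ)) ≤ (N : ℝ) ^ (K + 56) := by
      have h2 : K + 1 ≤ 2 ^ K := Nat.lt_two_pow_self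
      have h3 : (K : ℝ) + 1 ≤ 2 ^ K := by exact_mod_cast h2
      have h4 : (2 : ℝ) ^ (K + 56) ≤ (N : ℝ) ^ (K + 56) := pow_le_pow_left₀ (by norm_num) hN _
      have h5 : (2 : ℝ) ^ (K + 56) = 2 ^ K * 2 ^ 56 := pow_add _ _ _
      have h6 : (b : ℝ) = 2 * K + 60 := by rw [hb]; push_cast; ring
      have h7 : (0 : ℝ) ≤ K := Nat.cast_nonneg K
      rw [h5] at h4
      refine le_trans ?_ h4
      rw [h6]
      have h8 : ((K : ℝ) + 1) * 2 ^ 56 ≤ 2 ^ K * 2 ^ 56 := mul_le_mul_of_nonneg_right h3 (by positivity)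
      refine le_trans ?_ h8
      norm_num
      nlinarith
    calc 156 * (1 + (b : ℝ)) * (N : ℝ) ^ 4 * (N : ℝ) ^ K ≤
          (N : ℝ) ^ (K + 56) * (N : ℝ) ^ 4 * (N : ℝ) ^ K := by
          apply mul_le_mul_of_nonneg_right _ (by positivity)
          exact mul_le_mul_of_nonneg_right h1 (by positivity)
      _ = (N : ℝ) ^ b := by
          rw [← pow_add, ← pow_add]
          congr 1
          omega
  have hZ0 : 0 ≤ ZE q (Om n) := by
    unfold ZE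
    exact Finset.sum_nonneg fun γ _ => by positivity
  have hmu : mu q (Om n) u = mean q n u := rfl
  have hZE : Zn q n = ZE q (Om n) := rfl
  rw [hmu]
  rw [hZE] at hwp
  refine hwp.trans ?_
  apply add_le_add
  · calc AA n ℓ q * ∑ γ ∈ Om n, q ^ γ.card * u γ * (u γ - TL (q ^ 4) n u γ)
        ≤ AA n ℓ q * Dir q n (Om n) u := mul_le_mul_of_nonneg_left hdir hAA0
      _ ≤ (N : ℝ) ^ (53 + 8 * b + k) * Dir q n (Om n) u := mul_le_mul_of_nonneg_right hA2 hDir0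
  · apply mul_le_mul_of_nonneg_right _ hZ0
    exact mul_le_mul_of_nonneg_right hD2 (by positivity)

end

end Pool.Agent.H40.WM
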