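import Mathlib
import Pool.Agent.H40.WM.BSn
import Pool.Agent.H40.WM.BWom
import Pool.Agent.H40.WM.BDn
import Pool.Agent.H40.WM.BDt
import Pool.Agent.H40.WM.GDec
import Pool.Agent.H40.SQ.HAdd

/-!
# BFin: all ladders from the weak Poincare inequalities on the sets `EE(c)`

Fix `q`, `36^2000 q ≤ 1`.  Let `t0(N)` be the least `t ≥ 1` with `4 N^2 ≤ 2^t` (so `2^t0 ≤ 8 N^2`, `N ≥ 2`, `t0 ≤ 5 N`... precisely `2^t0 ≤ N^5`), `H = (2/q)^900 (36/q)^(100100 t0)`.  `H ≤ N^C0` for some `C0` depending on `q` only: choose `k` with `36/q ≤ 2^k`; then `(36/q)^(t0) ≤ (2^t0)^k ≤ N^(5k)`.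
For `K` take `C` = the maximum of the two constants (from `hWP K` and `wp_om K`; `N^C` is monotone in `C`, and `WPo` is monotone in `A` since `Dir ≥ 0`).
Claim: for all `1 ≤ n ≤ N` and `s = ±1` there are `r ≤ n^2 + 1`... say `r ≤ n^2` for `n ≥ 2` and `r ≤ 1` for `n = 1` (in short `r ≤ n^2`), and `EE` with `PLad q n s H A β r EE (Om n)`.  Strong induction on `n`:
* `n ≤ 4`: `EE 0 = {g0}` (`exists_top`; `{g0}` is an up-set: a configuration above `g0` has the same heights, `F_inj`), `EE 1 = Om n`: `dn_small`, `wp_om`: a `PLad` with `r = 0` for `Fs = {g0}`, then `plad_snoc`.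
* `n ≥ 5`, `n = N' + 4`: `plad_emb` applied to the ladder for `N'`; then `plad_snoc` with `EEc n s c`, `c = cmax, cmax - 2, ..., cmin` (`cmax` = the largest `c ≤ 2n - 6` of the right parity, `cmax ≥ 2n - 7`; `cmin = 2` or `3`): `dn_top`, `eet_sub`, `dn_mid`, `ee_mono`, `ee_up`, `hWP`; finally `Om n`: `dn_bot`, `wp_om`, `om_up`.
  The number of new sets is at most `(cmax - cmin)/2 + 2 ≤ n - 2`; `(n-4)^2 + n ≤ n^2`.
Then `plad_ladder` for `n = N`, `N^2 ≤ N^3`.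
-/

set_option autoImplicit false

namespace Pool.Agent.H40.WM

open Pool.Agent.H40.SQ

noncomputable section

private theorem bfin_Dir_nonneg {q : ℝ} (hq : 0 < q) (n : ℕ) (EE : Finset (Finset Edge))
    (u : Finset Edge → ℝ) : 0 ≤ Dir q n EE u := by
  unfold Dir
  exact Finset.sum_nonneg fun x _ => Finset.sum_nonneg fun g _ => by positivity

private theorem bfin_WPo_mono {q : ℝ} (hq : 0 < q) {n : ℕ} {EE : Finset (Finset Edge)}
    {A A' β : ℝ} (h : WPo q n EE A β) (hA : A ≤ A') : WPo q n EE A' β := by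
  intro u B hB hu
  have h1 := h u B hB hu
  have h2 := mul_le_mul_of_nonneg_right hA (bfin_Dir_nonneg hq n EE u)
  linarith

private theorem bfin_t0 (N : ℕ) (hN : 2 ≤ N) : ∃ t0 : ℕ, 1 ≤ t0 ∧ 4 * N ^ 2 ≤ 2 ^ t0 ∧
    2 ^ t0 ≤ N ^ 5 := by
  have hex : ∃ t : ℕ, 4 * N ^ 2 ≤ 2 ^ t := by
    refine ⟨4 * N ^ 2, ?_⟩
    exact (Nat.lt_two_pow_self).le
  have hmin := Nat.find_min hex (m := Nat.find hex - 1)
  have hsp := Nat.find_spec hex
  set t := Nat.find hex with ht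
  have h1 : 1 ≤ t := by
    rcases Nat.eq_zero_or_pos t with h | h
    · rw [h] at hsp
      have : 1 ≤ N ^ 2 := Nat.one_le_pow _ _ (by omega)
      omega
    · exact h
  refine ⟨t, h1, hsp, ?_⟩
  have h2 := hmin (by omega)
  rw [not_le] at h2
  obtain ⟨t', ht'⟩ : ∃ t', t = t' + 1 := ⟨t - 1, by omega⟩
  rw [ht'] at h2 ⊢
  rw [Nat.add_sub_cancel] at h2
  rw [pow_succ]
  have h3 : 8 ≤ N ^ 3 := by
    calc 8 = 2 ^ 3 := by norm_num
      _ ≤ N ^ 3 := Nat.pow_le_pow_left hN 3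
  calc 2 ^ t' * 2 ≤ (4 * N ^ 2) * 2 := Nat.mul_le_mul_right 2 h2.le
    _ = 8 * N ^ 2 := by ring
    _ ≤ N ^ 3 * N ^ 2 := Nat.mul_le_mul_right _ h3
    _ = N ^ 5 := by ring

private theorem bfin_H (q : ℝ) (hq0 : 0 < q) (k : ℕ) (hk : 36 / q ≤ 2 ^ k) (N t0 : ℕ)
    (hN : 2 ≤ N) (ht : 2 ^ t0 ≤ N ^ 5) :
    (2 / q) ^ 900 * (36 / q) ^ (100100 * t0) ≤ (N : ℝ) ^ (900 * k + 500500 * k) := by
  have hN' : (2 : ℝ) ≤ N := by exact_mod_cast hN
  have h1 : 2 / q ≤ 2 ^ k := le_trans (by gcongr; norm_num) hk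
  have h2 : (2 / q) ^ 900 ≤ (N : ℝ) ^ (900 * k) := by
    calc (2 / q) ^ 900 ≤ ((2 : ℝ) ^ k) ^ 900 := by gcongr
      _ = 2 ^ (900 * k) := by rw [← pow_mul, mul_comm]
      _ ≤ (N : ℝ) ^ (900 * k) := by gcongr
  have ht' : (2 : ℝ) ^ t0 ≤ (N : ℝ) ^ 5 := by exact_mod_cast ht
  have h3 : (36 / q) ^ (100100 * t0) ≤ (N : ℝ) ^ (500500 * k) := by
    calc (36 / q) ^ (100100 * t0) ≤ ((2 : ℝ) ^ k) ^ (100100 * t0) := by gcongr
      _ = ((2 : ℝ) ^ t0) ^ (100100 * k) := by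
          rw [← pow_mul, ← pow_mul]
          congr 1
          ring
      _ ≤ ((N : ℝ) ^ 5) ^ (100100 * k) := by gcongr
      _ = (N : ℝ) ^ (500500 * k) := by
          rw [← pow_mul]
          congr 1
          ring
  rw [pow_add]
  exact mul_le_mul h2 h3 (by positivity) (by positivity)

private theorem bfin_top {q : ℝ} {n : ℕ} {s : ℤ} (hs : s = 1 ∨ s = -1) (H A β : ℝ) :
    ∃ g0 ∈ Om n, PLad q n s H A β 0 (fun _ => {g0}) {g0} := by
  obtain ⟨g0, hg0, ht⟩ := exists_top n s hs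
  refine ⟨g0, hg0, ⟨⟨g0, rfl, ht⟩, rfl, ?_, ?_, ?_, ?_⟩⟩
  · intro i _
    refine ⟨Finset.singleton_subset_iff.2 hg0, ?_⟩
    intro g hg g' hg' hle
    rw [Finset.mem_singleton] at hg ⊢
    subst hg
    refine F_inj hg' hg0 fun i j => ?_
    have h1 := ht g' hg' i j
    have h2 := hle i j
    have h3 : s * F g' i j = s * F g i j := le_antisymm h1 h2
    have hs0 : s ≠ 0 := by rcases hs with h | h <;> rw [h] <;> norm_num
    exact mul_left_cancel₀ hs0 h3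
  · intro i hi
    omega
  · intro i hi
    omega
  · intro i h1 h2
    omega

private theorem bfin_chain (q : ℝ) (hq0 : 0 < q) (hq1 : 36 ^ 2000 * q ≤ 1) {n : ℕ} {s : ℤ}
    (H A β : ℝ) (t0 : ℕ) (ht0 : 1 ≤ t0) (hT : 4 * n ^ 2 ≤ 2 ^ t0)
    (hH : (2 / q) ^ 800 * (36 / q) ^ (100100 * t0) ≤ H)
    (hWP : ∀ c : ℤ, Par n s c → WPo q n (EEc n s c) A β) (cm : ℤ) :
    ∀ (j : ℕ), Par n s cm → Par n s (cm - 2 * j) → ∀ (r : ℕ) (EE : ℕ → Finset (Finset Edge)),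
      PLad q n s H A β r EE (EEc n s cm) →
      ∃ EE' : ℕ → Finset (Finset Edge), PLad q n s H A β (r + j) EE' (EEc n s (cm - 2 * j)) := by
  intro j
  induction j with
  | zero =>
    intro _ _ r EE h
    refine ⟨EE, ?_⟩
    simpa using h
  | succ j ih =>
    intro h0 h1 r EE h
    have hmid : Par n s (cm - 2 * j) := by
      refine ⟨h1.hn, ?_, ?_, ?_⟩
      · have := h1.lo
        push_cast at this
        linarith
      · have := h0.hi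
        have h2 : (0 : ℤ) ≤ j := Int.natCast_nonneg j
        linarith
      · have := h1.par
        push_cast at this
        omega
    obtain ⟨EE', h2⟩ := ih h0 hmid r EE h
    have e1 : cm - 2 * ((j + 1 : ℕ) : ℤ) = cm - 2 * (j : ℤ) - 2 := by
      push_cast
      ring
    rw [e1] at h1 ⊢
    have hd := dn_mid q hq0 hq1 hmid h1 t0 ht0 hT
    obtain ⟨EE'', h3⟩ := plad_snoc h2 (EEc n s (cm - 2 * (j : ℤ) - 2))
      (ee_mono hmid h1 (by linarith)) ee_up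
      (hd.trans (mul_le_mul_of_nonneg_right hH (by
        unfold ZE
        exact Finset.sum_nonneg fun g _ => by positivity))) (hWP _ h1)
    exact ⟨EE'', h3⟩

private theorem bfin_main (q : ℝ) (hq0 : 0 < q) (hq1 : 36 ^ 2000 * q ≤ 1)
    (H A β : ℝ) (hA : 0 ≤ A) (N t0 : ℕ) (ht0 : 1 ≤ t0) (hT : 4 * N ^ 2 ≤ 2 ^ t0)
    (hH : (2 / q) ^ 900 * (36 / q) ^ (100100 * t0) ≤ H)
    (hWP : ∀ n : ℕ, n ≤ N → ∀ s c : ℤ, Par n s c → WPo q n (EEc n s c) A β)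
    (hWO : ∀ n : ℕ, 1 ≤ n → n ≤ N → WPo q n (Om n) A β) (s : ℤ) (hs : s = 1 ∨ s = -1) :
    ∀ n : ℕ, 1 ≤ n → n ≤ N → ∃ (r : ℕ) (EE : ℕ → Finset (Finset Edge)), r ≤ n ^ 2 ∧
      PLad q n s H A β r EE (Om n) := by
  have hq6 : q ≤ 1 / 10 ^ 6 := by
    have h1 : (10 : ℝ) ^ 6 ≤ 36 ^ 2000 := by
      calc (10 : ℝ) ^ 6 ≤ 36 ^ 6 := by gcongr; norm_num
        _ ≤ 36 ^ 2000 := pow_le_pow_right₀ (by norm_num) (by norm_num)
    rw [le_div_iff₀ (by positivity)]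
    calc q * 10 ^ 6 ≤ q * 36 ^ 2000 := by gcongr
      _ = 36 ^ 2000 * q := mul_comm _ _
      _ ≤ 1 := hq1
  have hq36 : q ≤ 1 := hq6.trans (by norm_num)
  have h2q : 1 ≤ 2 / q := by
    rw [le_div_iff₀ hq0, one_mul]
    exact hq36.trans (by norm_num)
  have h36q : 1 ≤ 36 / q := by
    rw [le_div_iff₀ hq0, one_mul]
    exact hq36.trans (by norm_num)
  have hge : ∀ a : ℕ, a ≤ 900 → (2 / q) ^ a ≤ H := by
    intro a ha
    calc (2 / q) ^ a ≤ (2 / q) ^ 900 := pow_le_pow_right₀ h2q ha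
      _ = (2 / q) ^ 900 * 1 := (mul_one _).symm
      _ ≤ (2 / q) ^ 900 * (36 / q) ^ (100100 * t0) := by
          gcongr
          exact one_le_pow₀ h36q
      _ ≤ H := hH
  have hZ : ∀ X : Finset (Finset Edge), 0 ≤ ZE q X := fun X => by
    unfold ZE
    exact Finset.sum_nonneg fun g _ => by positivity
  have hH8 : (2 / q) ^ 800 * (36 / q) ^ (100100 * t0) ≤ H := by
    refine le_trans ?_ hH
    exact mul_le_mul_of_nonneg_right (pow_le_pow_right₀ h2q (by norm_num)) (by positivity)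
  intro n
  induction n using Nat.strong_induction_on with
  | _ n ih =>
  intro hn hnN
  rcases Nat.lt_or_ge n 5 with hn5 | hn5
  · obtain ⟨g0, hg0, hl⟩ := bfin_top (q := q) (n := n) hs H A β
    have hd := dn_small q hq0 hq1 (n := n) (by omega) hg0
    obtain ⟨EE', h'⟩ := plad_snoc hl (Om n) (Finset.singleton_subset_iff.2 hg0) (om_up n s)
      (hd.trans (mul_le_mul_of_nonneg_right (hge 100 (by norm_num)) (hZ _))) (hWO n hn hnN)
    refine ⟨1, EE', Nat.one_le_pow _ _ hn, ?_⟩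
    simpa using h'
  · obtain ⟨N', rfl⟩ : ∃ N', n = N' + 4 := ⟨n - 4, by omega⟩
    obtain ⟨r, EE, hr, h1⟩ := ih N' (by omega) (by omega) (by omega)
    obtain ⟨EE1, h2⟩ := plad_emb hq0 (N := N') (by omega) hs hA h1
    -- the parameters
    obtain ⟨p0, hp0, hp1⟩ : ∃ p0 : ℕ, p0 ≤ 1 ∧ ((s = 1 ∧ p0 = 0) ∨ (s = -1 ∧ p0 = 1)) := by
      rcases hs with h | h
      · exact ⟨0, by norm_num, Or.inl ⟨h, rfl⟩⟩
      · exact ⟨1, le_rfl, Or.inr ⟨h, rfl⟩⟩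
    have hcm : Par (N' + 4) s (2 * ((N' + 4 : ℕ) : ℤ) - 6 - p0) := by
      refine ⟨hn5, ?_, ?_, ?_⟩
      · push_cast
        omega
      · push_cast
        omega
      · push_cast
        rcases hp1 with ⟨h, h'⟩ | ⟨h, h'⟩
        · left
          refine ⟨h, ?_⟩
          omega
        · right
          refine ⟨h, ?_⟩
          omega
    have e2 : 2 * ((N' + 4 : ℕ) : ℤ) - 6 - p0 - 2 * ((N' - p0 : ℕ) : ℤ) = 2 + p0 := by
      have : p0 ≤ N' := by omega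
      push_cast [Nat.cast_sub this]
      ring
    have hcn : Par (N' + 4) s (2 * ((N' + 4 : ℕ) : ℤ) - 6 - p0 - 2 * ((N' - p0 : ℕ) : ℤ)) := by
      rw [e2]
      refine ⟨hn5, ?_, ?_, ?_⟩
      · omega
      · push_cast
        omega
      · rcases hp1 with ⟨h, h'⟩ | ⟨h, h'⟩
        · left
          refine ⟨h, ?_⟩
          omega
        · right
          refine ⟨h, ?_⟩
          omega
    have hT' : 4 * (N' + 4) ^ 2 ≤ 2 ^ t0 := by
      refine le_trans ?_ hT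
      have := Nat.pow_le_pow_left hnN 2
      omega
    have hd1 := dn_top q hq0 hq6 (N := N') (by omega) hcm (by push_cast; omega)
    obtain ⟨EE2, h3⟩ := plad_snoc h2 _ (eet_sub hcm) ee_up
      (hd1.trans (mul_le_mul_of_nonneg_right (hge 900 le_rfl) (hZ _))) (hWP _ hnN s _ hcm)
    obtain ⟨EE3, h4⟩ := bfin_chain q hq0 hq1 H A β t0 ht0 hT' hH8
      (fun c hc => hWP _ hnN s c hc) _ (N' - p0) hcm hcn (r + 1) EE2 h3
    have hd2 := dn_bot q hq0 hq1 hcn (by rw [e2]; omega)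
    obtain ⟨EE4, h5⟩ := plad_snoc h4 (Om (N' + 4)) (ee_up (c := 2 * ((N' + 4 : ℕ) : ℤ) - 6 - p0 -
      2 * ((N' - p0 : ℕ) : ℤ))).1 (om_up _ s)
      (hd2.trans (mul_le_mul_of_nonneg_right (hge 900 le_rfl) (hZ _))) (hWO _ hn hnN)
    refine ⟨r + 1 + (N' - p0) + 1, EE4, ?_, h5⟩
    have : N' - p0 ≤ N' := Nat.sub_le _ _
    nlinarith

theorem ladders_of (q : ℝ) (hq0 : 0 < q) (hq1 : 36 ^ 2000 * q ≤ 1)
    (hWP : ∀ K : ℕ, ∃ C : ℕ, ∀ N : ℕ, 2 ≤ N → ∀ n : ℕ, n ≤ N → ∀ s c : ℤ, Par n s c →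
      WPo q n (EEc n s c) ((N : ℝ) ^ C) (1 / (N : ℝ) ^ K)) :
    ∃ C0 : ℕ, ∀ K : ℕ, ∃ C : ℕ, ∀ n : ℕ, 2 ≤ n → ∀ s : ℤ, (s = 1 ∨ s = -1) →
      ∃ (r : ℕ) (EE : ℕ → Finset (Finset Edge)), r ≤ n ^ 3 ∧
        Ladder q n s ((n : ℝ) ^ C0) ((n : ℝ) ^ C) (1 / (n : ℝ) ^ K) r EE := by
  have hq6 : q ≤ 1 / 10 ^ 6 := by
    have h1 : (10 : ℝ) ^ 6 ≤ 36 ^ 2000 := by
      calc (10 : ℝ) ^ 6 ≤ 36 ^ 6 := by gcongr; norm_num
        _ ≤ 36 ^ 2000 := pow_le_pow_right₀ (by norm_num) (by norm_num)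
    rw [le_div_iff₀ (by positivity)]
    calc q * 10 ^ 6 ≤ q * 36 ^ 2000 := by gcongr
      _ = 36 ^ 2000 * q := mul_comm _ _
      _ ≤ 1 := hq1
  obtain ⟨k, hk⟩ : ∃ k : ℕ, 36 / q ≤ 2 ^ k := by
    obtain ⟨k, hk⟩ := pow_unbounded_of_one_lt (36 / q) (one_lt_two)
    exact ⟨k, hk.le⟩
  refine ⟨900 * k + 500500 * k, fun K => ?_⟩
  obtain ⟨C1, hC1⟩ := hWP K
  obtain ⟨C2, hC2⟩ := wp_om q hq0 hq6 K
  refine ⟨max C1 C2, fun N hN s hs => ?_⟩
  obtain ⟨t0, ht0, hT, hT5⟩ := bfin_t0 N hN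
  have hN1 : (1 : ℝ) ≤ N := by exact_mod_cast (by omega : 1 ≤ N)
  obtain ⟨r, EE, hr, h⟩ := bfin_main q hq0 hq1 ((N : ℝ) ^ (900 * k + 500500 * k))
    ((N : ℝ) ^ (max C1 C2)) (1 / (N : ℝ) ^ K) (by positivity) N t0 ht0 hT
    (bfin_H q hq0 k hk N t0 hN hT5)
    (fun n hn s c hc => bfin_WPo_mono hq0 (hC1 N hN n hn s c hc)
      (pow_le_pow_right₀ hN1 (le_max_left _ _)))
    (fun n hn1 hn => bfin_WPo_mono hq0 (hC2 N hN n hn1 hn)
      (pow_le_pow_right₀ hN1 (le_max_right _ _))) s hs N (by omega) le_rfl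
  refine ⟨r, EE, hr.trans (Nat.pow_le_pow_right (by omega) (by norm_num)), ?_⟩
  exact plad_ladder h

end

end Pool.Agent.H40.WM
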