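import Mathlib
import Pool.Agent.H40.WM.QDefs

/-!
# KDefs: block codes for the interpolation between two paths (definitions only)

Lines `0,...,M`, blocks `0,...,M-1` (block `i` lies between the lines `i` and `i+1`).  `D i` = level difference of the two paths `X, Y` at the
line `i`.  A code assigns to every block a pair `(ξ,t)`: use `X` (`ξ = false`) or `Y` (`ξ = true`), translated by `t`.
`th D i (ξ,t)` = level at the line `i` (relative to the level of `X`).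
-/

set_option autoImplicit false

namespace Pool.Agent.H40.WM

open Pool.Agent.H40.SQ

noncomputable section

/-- Level of the piece `(ξ,t)` at the line `i`, relative to the level of `X`. -/
def th (D : ℤ → ℤ) (i : ℤ) (c : Bool × ℤ) : ℤ := (if c.1 = true then D i else 0) + c.2

/-- Admissible codes with at most `b` breaks and mismatch at most `w` at each line; `R` enters the bound on the translations. -/
structure VCode (M R : ℤ) (D : ℤ → ℤ) (b : ℕ) (w : ℤ) (c : ℤ → Bool × ℤ) : Prop where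
  left : ∀ i, i ≤ 0 → c i = c 0
  right : ∀ i, M - 1 ≤ i → c i = c (M - 1)
  t0 : (c 0).2 = 0
  tM : (c (M - 1)).2 = 0
  brk : ((Finset.Icc 1 (M - 1)).filter (fun i => c (i - 1) ≠ c i)).card ≤ b
  mis : ∀ i, 1 ≤ i → i ≤ M - 1 → |th D i (c (i - 1)) - th D i (c i)| ≤ w
  bl : ∀ i, 0 ≤ i → i ≤ M - 1 → ∃ i', 0 ≤ i' ∧ i' ≤ i ∧ |(c i).2| ≤ |D i'| + 2 * R
  br : ∀ i, 0 ≤ i → i ≤ M - 1 → ∃ i', i < i' ∧ i' ≤ M ∧ |(c i).2| ≤ |D i'| + 2 * R

/-- One step: both codes are admissible and differ in at most one block. -/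
def CStep (M R : ℤ) (D : ℤ → ℤ) (c c' : ℤ → Bool × ℤ) : Prop :=
  VCode M R D 7 (5 * R) c ∧ VCode M R D 7 (5 * R) c' ∧
    ∃ r, 0 ≤ r ∧ r ≤ M - 1 ∧ ∀ i, 0 ≤ i → i ≤ M - 1 → i ≠ r → c' i = c i

/-- A refinement of `D` to a walk `E` with steps `±1` (in the scale `2 D`). -/
structure Refi (M R : ℤ) (D : ℤ → ℤ) (L : ℤ) (E p : ℤ → ℤ) : Prop where
  hL : 0 ≤ L
  E0 : E 0 = 0
  EL : E L = 2 * D M
  step : ∀ x, 0 ≤ x → x < L → E (x + 1) = E x + 1 ∨ E (x + 1) = E x - 1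
  p0 : p 0 = 0
  pL : p L = M
  pstep : ∀ x, 0 ≤ x → x < L → p (x + 1) = p x ∨ p (x + 1) = p x + 1
  close : ∀ x, 0 ≤ x → x ≤ L → |E x - 2 * D (p x)| ≤ 2 * R

/-- The macro code: `(1,0)` on the blocks `< z`, `(0,0)` on `[z,k)`, `(1,-m)` on `[k,l)`, `(0,0)` on the blocks `≥ l`; `m = D k`, but `m = 0` if
`l = M`.  Extended constantly outside `[0, M-1]`. -/
def mcod (M : ℤ) (D : ℤ → ℤ) (z k l : ℤ) (i : ℤ) : Bool × ℤ :=
  if max 0 (min i (M - 1)) < z then (true, 0)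
  else if max 0 (min i (M - 1)) < k then (false, 0)
  else if max 0 (min i (M - 1)) < l then (true, if l = M then 0 else - D k)
  else (false, 0)

/-- Moves of the two climbers. -/
def Climb (E : ℤ → ℤ) (z z' : ℤ) (a b : ℤ × ℤ) : Prop :=
  z ≤ a.1 ∧ a.1 ≤ a.2 ∧ a.2 ≤ z' ∧ E a.1 = E a.2 ∧ z ≤ b.1 ∧ b.1 ≤ b.2 ∧ b.2 ≤ z' ∧ E b.1 = E b.2 ∧
    |a.1 - b.1| = 1 ∧ |a.2 - b.2| = 1

end

end Pool.Agent.H40.WM
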