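import Mathlib
import Pool.Agent.H40.WM.TDefs
import Pool.Agent.H40.WM.KDefs
import Pool.Agent.H40.WM.JDefs

/-!
# HDefs: paths built from two paths `X`, `Y` by a code (definitions only)

A code `σ : ℤ → Bool × ℤ` assigns to every double slice `(ξ,t)`: use `X` (`ξ = false`) or `Y` (`ξ = true`) translated by `t` levels.  `Zm` = the translated pieces, `Zv` = vertical connectors at the breaks, `ZZ` their union.
`thl k c` = level at the line `k` of the piece `c`.  `cmpl σ` = complementary code.  `HCode`: admissible codes for a pair without bad stretch (parameter `t`, `K2 = 13000 t`, `R = 390 t`).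
`HStp`: two admissible codes differing only between two lines `x < y` (`x = -1`: no left restriction, `y = n0 + 1`: no right restriction).
`Loc m1 D`: pairs of local pieces.
-/

set_option autoImplicit false

namespace Pool.Agent.H40.WM

open Pool.Agent.H40.SQ

noncomputable section

def Pb (X Y : Finset Edge) (ξ : Bool) : Finset Edge := if ξ = true then Y else X

def thl (a b : ℤ × ℤ) (X Y : Finset Edge) (k : ℤ) (c : Bool × ℤ) : ℤ := lp a b (Pb X Y c.1) k + c.2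

def Zm (u : ℤ) (X Y : Finset Edge) (σ : ℤ → Bool × ℤ) : Finset Edge :=
  (X.filter (fun e => (σ (kl u e)).1 = false)).image (fun e => shE ((σ (kl u e)).2, (σ (kl u e)).2) e) ∪
    (Y.filter (fun e => (σ (kl u e)).1 = true)).image (fun e => shE ((σ (kl u e)).2, (σ (kl u e)).2) e)

/-- The connector at the line `k`. -/
def Zc (a b : ℤ × ℤ) (X Y : Finset Edge) (σ : ℤ → Bool × ℤ) (k : ℤ) : Finset Edge :=
  Vert (vt a k (thl a b X Y k (σ (k - 1)))) (thl a b X Y k (σ k) - thl a b X Y k (σ (k - 1)))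

def Zv (a b : ℤ × ℤ) (n0 : ℕ) (X Y : Finset Edge) (σ : ℤ → Bool × ℤ) : Finset Edge :=
  (Finset.Ico 1 (n0 : ℤ)).biUnion (Zc a b X Y σ)

def ZZ (a b : ℤ × ℤ) (n0 : ℕ) (X Y : Finset Edge) (σ : ℤ → Bool × ℤ) : Finset Edge :=
  Zm (uu a) X Y σ ∪ Zv a b n0 X Y σ

def cmpl (σ : ℤ → Bool × ℤ) (k : ℤ) : Bool × ℤ := (!(σ k).1, -(σ k).2)

/-- Breaks. -/
def Brk (n0 : ℕ) (σ : ℤ → Bool × ℤ) : Finset ℤ := (Finset.Ico 1 (n0 : ℤ)).filter (fun k => σ (k - 1) ≠ σ k)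

structure HCode (a b : ℤ × ℤ) (n0 : ℕ) (X Y : Finset Edge) (t : ℕ) (σ : ℤ → Bool × ℤ) : Prop where
  left : ∀ k, k ≤ 0 → σ k = σ 0
  right : ∀ k, (n0 : ℤ) - 1 ≤ k → σ k = σ (n0 - 1)
  t0 : (σ 0).2 = 0
  t1 : (σ (n0 - 1)).2 = 0
  card : (Brk n0 σ).card ≤ 7
  reg : ∀ k ∈ Brk n0 σ, Reg (ex2 (uu a) X Y) k ∧ 13000 * (t : ℤ) ≤ k ∧ k ≤ n0 - 13000 * (t : ℤ)
  mis : ∀ k ∈ Brk n0 σ, |thl a b X Y k (σ k) - thl a b X Y k (σ (k - 1))| ≤ 1950 * (t : ℤ)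
  tb : ∀ k, 50 * |(σ k).2| ≤ |k| + 1 + 39000 * (t : ℤ) ∧ 50 * |(σ k).2| ≤ |n0 - k| + 1 + 39000 * (t : ℤ)

structure HStp (a b : ℤ × ℤ) (n0 : ℕ) (X Y : Finset Edge) (t : ℕ) (σ σ' : ℤ → Bool × ℤ) : Prop where
  c1 : HCode a b n0 X Y t σ
  c2 : HCode a b n0 X Y t σ'
  loc : ∃ x y : ℤ, (x = -1 ∨ (Reg (ex2 (uu a) X Y) x ∧ 13000 * (t : ℤ) ≤ x ∧ x ≤ n0 - 13000 * (t : ℤ))) ∧
    (y = n0 + 1 ∨ (Reg (ex2 (uu a) X Y) y ∧ 13000 * (t : ℤ) ≤ y ∧ y ≤ n0 - 13000 * (t : ℤ))) ∧ x < y ∧ y - x ≤ 26400 * (t : ℤ) ∧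
    (∀ k, (x ≠ -1 ∧ k < x) ∨ (y ≠ n0 + 1 ∧ y ≤ k) → σ k = σ' k) ∧
    (∀ k ∈ Brk n0 σ ∪ Brk n0 σ', ¬ (x < k ∧ k < y))

/-- Pairs of local pieces. -/
structure Loc (m1 : ℕ) (D M M' : Finset Edge) : Prop where
  sub : M ⊆ D
  sub' : M' ⊆ D
  conn : Conn (M ∪ M')
  ne : (M ∪ M').Nonempty
  card : M.card ≤ m1
  card' : M'.card ≤ m1

open Classical in
def LocS (m1 : ℕ) (D : Finset Edge) : Finset (Finset Edge × Finset Edge) :=
  (D.powerset ×ˢ D.powerset).filter (fun P => Loc m1 D P.1 P.2)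

end

end Pool.Agent.H40.WM
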