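import Mathlib
import Pool.Agent.H40.WM.HDefs
import Pool.Agent.H40.WM.GDefs
import Pool.Agent.H40.WM.QDefs

/-!
# VDefs: variance of the gas and of the interface (definitions only)

`PolD` = polymers inside `D`.  `Nice` = configurations of the gas on `D` composed of small polymers (at most `ℓ` edges) and with few agreements with the sweeping functions (`Good`).  `btl` bounds the weight of the others.  `Avl` = constant of the comparison.
`gmn q D f G` = mean of `f (G ∪ S)` over the gas `S` on `D \ N1 G`, `gvr` = weighted variance, `gdf` = weighted difference of `f` between two paths `Z, Z'` for a gas `S` avoiding both.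
`LZ` = paths `Z` for which the local piece `P.1` can be replaced by `P.2`.
-/

set_option autoImplicit false

namespace Pool.Agent.H40.WM

open Pool.Agent.H40.SQ

noncomputable section

open Classical in
def PolD (n ℓ : ℕ) (D : Finset Edge) : Finset (Finset Edge) := (Pol n ℓ).filter (fun κ => κ ⊆ D)

open Classical in
def Nice (n ℓ : ℕ) (D : Finset Edge) : Finset (Finset Edge) :=
  (VCs D).filter (fun S => (∃ X ∈ St (Pol n ℓ) inc, U X = S) ∧ Good n ℓ (8 * (ℓ + 1)) S)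

def btl (n ℓ : ℕ) (q : ℝ) : ℝ := (4 * (n : ℝ) ^ 2 + (5 * n + 2) * (n + ℓ)) * (26 * q) ^ (ℓ + 1)

def Avl (n ℓ : ℕ) (q : ℝ) : ℝ := 1600 * (n : ℝ) ^ 6 * 18 ^ ℓ * 4 ^ (65 * (ℓ + 1)) / q ^ (18 * ℓ)

def gmn (q : ℝ) (D : Finset Edge) (f : Finset Edge → ℝ) (G : Finset Edge) : ℝ :=
  (∑ S ∈ VCs (D \ N1 G), q ^ S.card * f (G ∪ S)) / ZV q (D \ N1 G)

def gvr (q : ℝ) (D : Finset Edge) (f : Finset Edge → ℝ) (G : Finset Edge) : ℝ :=
  ∑ S ∈ VCs (D \ N1 G), q ^ (G.card + S.card) * (f (G ∪ S) - gmn q D f G) ^ 2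

def gdf (q : ℝ) (D : Finset Edge) (f : Finset Edge → ℝ) (Z Z' : Finset Edge) : ℝ :=
  ∑ S ∈ VCs (D \ (N1 Z ∪ N1 Z')), q ^ (Z.card + S.card) * (f (Z ∪ S) - f (Z' ∪ S)) ^ 2

open Classical in
def LZ (D : Finset Edge) (a b : ℤ × ℤ) (P : Finset Edge × Finset Edge) : Finset (Finset Edge) :=
  (PD D a b).filter (fun Z => P.1 ⊆ Z ∧ Disjoint (Z \ P.1) P.2 ∧ (Z \ P.1) ∪ P.2 ∈ PD D a b)

end

end Pool.Agent.H40.WM
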