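import Mathlib
import Pool.Agent.H40.WM.VDefs

/-!
# VPa: parameters, elementary bounds

Let `x = 36/q ≥ 36^2001`.
* `exists_t0`: the least `t0` with `4 N^2 ≤ 2^t0`: `2^(t0-1) < 4 N^2`, so `2^t0 ≤ 8 N^2 ≤ N^5` (`N^3 ≥ 8`).
* `pow_bd`: `k` with `x ≤ 2^k` (`x ≤ ⌈x⌉ ≤ 2^⌈x⌉`); `x^(m t0) ≤ (2^k)^(m t0) = (2^t0)^(k m) ≤ N^(5 k m)`.
* `av_bd`: `18 ≤ x`, `4^(65 (ℓ+1)) ≤ (4^130)^ℓ ≤ x^ℓ` (`ℓ ≥ 1`; `4^130 = 2^260 ≤ 36^2001`), `1/q ≤ x`: `Avl ≤ 1600 n^6 x^ℓ x^ℓ x^(18 ℓ)`.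
* `bt_bd`: `(26 q)^2 = 676 q^2 ≤ q/36 = 1/x`; `26 q ≤ 1`: `(26 q)^(2m+1) ≤ ((26 q)^2)^m ≤ (1/x)^m`; `4 n^2 + (5n+2)(n+2m) ≤ 4 n^2 + 7n * 3nm ≤ 40 n^2 m`.
* `act_bd`: `(36^600 q)^2 ≤ 1/x = q/36` because `36^1201 q ≤ 1`; so `(36^600 q)^(2m) ≤ (1/x)^m`.
-/

set_option autoImplicit false

namespace Pool.Agent.H40.WM

open Pool.Agent.H40.SQ

noncomputable section

theorem exists_t0 (N : ℕ) (hN : 2 ≤ N) : ∃ t0 : ℕ, 1 ≤ t0 ∧ 4 * N ^ 2 ≤ 2 ^ t0 ∧ 2 ^ t0 ≤ N ^ 5 := by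
  have h4 : 16 ≤ 4 * N ^ 2 := by nlinarith
  have h1 : 4 * N ^ 2 ≤ 2 ^ Nat.clog 2 (4 * N ^ 2) := Nat.le_pow_clog (by norm_num) _
  have h2 : 2 ^ (Nat.clog 2 (4 * N ^ 2)).pred < 4 * N ^ 2 :=
    Nat.pow_pred_clog_lt_self (by norm_num) (by omega)
  have h3 : 1 ≤ Nat.clog 2 (4 * N ^ 2) := by
    by_contra hc
    have h0 : Nat.clog 2 (4 * N ^ 2) = 0 := by omega
    rw [h0] at h1
    omega
  refine ⟨Nat.clog 2 (4 * N ^ 2), h3, h1, ?_⟩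
  obtain ⟨k, hk⟩ : ∃ k, Nat.clog 2 (4 * N ^ 2) = k + 1 := ⟨Nat.clog 2 (4 * N ^ 2) - 1, by omega⟩
  rw [hk] at h2 ⊢
  rw [Nat.pred_succ] at h2
  have h5 : 8 ≤ N ^ 3 := by
    calc 8 = 2 ^ 3 := by norm_num
      _ ≤ N ^ 3 := Nat.pow_le_pow_left hN 3
  calc 2 ^ (k + 1) = 2 * 2 ^ k := by ring
    _ ≤ 2 * (4 * N ^ 2) := by omega
    _ = 8 * N ^ 2 := by ring
    _ ≤ N ^ 3 * N ^ 2 := Nat.mul_le_mul_right _ h5
    _ = N ^ 5 := by ring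

theorem pow_bd (x : ℝ) (hx : 1 ≤ x) : ∃ k : ℕ, ∀ N t0 : ℕ, 2 ^ t0 ≤ N ^ 5 → ∀ m : ℕ, x ^ (m * t0) ≤ (N : ℝ) ^ (5 * k * m) := by
  refine ⟨⌈x⌉₊, fun N t0 h m => ?_⟩
  have h1 : x ≤ 2 ^ ⌈x⌉₊ := by
    refine (Nat.le_ceil x).trans ?_
    exact_mod_cast (Nat.lt_two_pow_self (n := ⌈x⌉₊)).le
  have h2 : (2 : ℝ) ^ t0 ≤ (N : ℝ) ^ 5 := by exact_mod_cast h
  calc x ^ (m * t0) ≤ (2 ^ ⌈x⌉₊) ^ (m * t0) := pow_le_pow_left₀ (by linarith) h1 _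
    _ = (2 ^ t0) ^ (⌈x⌉₊ * m) := by
      rw [← pow_mul, ← pow_mul]
      congr 1
      ring
    _ ≤ ((N : ℝ) ^ 5) ^ (⌈x⌉₊ * m) := pow_le_pow_left₀ (by positivity) h2 _
    _ = (N : ℝ) ^ (5 * ⌈x⌉₊ * m) := by
      rw [← pow_mul]
      congr 1
      ring

theorem x_big (q : ℝ) (hq0 : 0 < q) (hq1 : 36 ^ 2000 * q ≤ 1) (k : ℕ) (hk : k ≤ 2001) : (36 : ℝ) ^ k ≤ 36 / q := by
  refine (pow_le_pow_right₀ (by norm_num) hk).trans ?_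
  rw [le_div_iff₀ hq0, pow_succ]
  generalize (36 : ℝ) ^ 2000 = y at hq1 ⊢
  linarith

theorem q_small (q : ℝ) (hq0 : 0 < q) (hq1 : 36 ^ 2000 * q ≤ 1) (k : ℕ) (hk : k ≤ 2000) : (36 : ℝ) ^ k * q ≤ 1 := by
  refine (mul_le_mul_of_nonneg_right (pow_le_pow_right₀ (by norm_num) hk) hq0.le).trans hq1

theorem av_bd (q : ℝ) (hq0 : 0 < q) (hq1 : 36 ^ 2000 * q ≤ 1) (n ℓ : ℕ) (hℓ : 1 ≤ ℓ) :
    Avl n ℓ q ≤ 1600 * (n : ℝ) ^ 6 * (36 / q) ^ (20 * ℓ) := by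
  have hx : 0 < 36 / q := by positivity
  have hx1 := x_big q hq0 hq1 1 (by norm_num)
  have hx130 := x_big q hq0 hq1 130 (by norm_num)
  clear hq1
  have h18 : (18 : ℝ) ≤ 36 / q := by
    linarith
  have h1 : (18 : ℝ) ^ ℓ ≤ (36 / q) ^ ℓ := pow_le_pow_left₀ (by norm_num) h18 _
  have h2 : (4 : ℝ) ^ (65 * (ℓ + 1)) ≤ (36 / q) ^ ℓ := by
    calc (4 : ℝ) ^ (65 * (ℓ + 1)) ≤ 4 ^ (130 * ℓ) := pow_le_pow_right₀ (by norm_num) (by omega)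
      _ = (4 ^ 130) ^ ℓ := by rw [pow_mul]
      _ ≤ (36 / q) ^ ℓ := by
        refine pow_le_pow_left₀ (by positivity) ?_ _
        refine le_trans ?_ hx130
        exact pow_le_pow_left₀ (by norm_num) (by norm_num) _
  have h3 : 1 / q ^ (18 * ℓ) ≤ (36 / q) ^ (18 * ℓ) := by
    rw [← one_div_pow]
    refine pow_le_pow_left₀ (by positivity) ?_ _
    exact div_le_div_of_nonneg_right (by norm_num) hq0.le
  unfold Avl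
  have h4 : 1600 * (n : ℝ) ^ 6 * 18 ^ ℓ * 4 ^ (65 * (ℓ + 1)) / q ^ (18 * ℓ) =
      1600 * (n : ℝ) ^ 6 * (18 ^ ℓ * 4 ^ (65 * (ℓ + 1)) * (1 / q ^ (18 * ℓ))) := by ring
  rw [h4]
  refine mul_le_mul_of_nonneg_left ?_ (by positivity)
  calc (18 : ℝ) ^ ℓ * 4 ^ (65 * (ℓ + 1)) * (1 / q ^ (18 * ℓ))
      ≤ (36 / q) ^ ℓ * (36 / q) ^ ℓ * (36 / q) ^ (18 * ℓ) := by
        refine mul_le_mul (mul_le_mul h1 h2 (by positivity) (by positivity)) h3 (by positivity)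
          (by positivity)
    _ = (36 / q) ^ (20 * ℓ) := by
        rw [← pow_add, ← pow_add]
        congr 1
        ring

theorem inv_x (q : ℝ) : 1 / (36 / q) = q / 36 := by
  rw [one_div_div]

theorem bt_bd (q : ℝ) (hq0 : 0 < q) (hq1 : 36 ^ 2000 * q ≤ 1) (n m : ℕ) (hn : 1 ≤ n) (hm : 1 ≤ m) :
    btl n (2 * m) q ≤ 40 * (n : ℝ) ^ 2 * m * (1 / (36 / q)) ^ m := by
  have hn' : (1 : ℝ) ≤ n := by exact_mod_cast hn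
  have hm' : (1 : ℝ) ≤ m := by exact_mod_cast hm
  have hq3 := q_small q hq0 hq1 3 (by norm_num)
  clear hq1
  have h1 : (26 * q) ^ (2 * m + 1) ≤ (1 / (36 / q)) ^ m := by
    rw [inv_x, pow_succ, pow_mul]
    have h2 : ((26 * q) ^ 2) ^ m ≤ (q / 36) ^ m := by
      refine pow_le_pow_left₀ (by positivity) ?_ _
      norm_num at hq3
      nlinarith
    have h3 : 26 * q ≤ 1 := by
      norm_num at hq3
      linarith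
    calc ((26 * q) ^ 2) ^ m * (26 * q) ≤ ((26 * q) ^ 2) ^ m * 1 :=
          mul_le_mul_of_nonneg_left h3 (by positivity)
      _ = ((26 * q) ^ 2) ^ m := mul_one _
      _ ≤ (q / 36) ^ m := h2
  have h4 : 4 * (n : ℝ) ^ 2 + (5 * n + 2) * (n + (2 * m : ℕ)) ≤ 40 * (n : ℝ) ^ 2 * m := by
    push_cast
    have a1 : (n : ℝ) ^ 2 ≤ (n : ℝ) ^ 2 * m := by nlinarith [sq_nonneg (n : ℝ)]
    have a2 : (5 * (n : ℝ) + 2) ≤ 7 * n := by linarith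
    have a3 : (n : ℝ) + 2 * m ≤ 3 * (n * m) := by nlinarith
    have a4 : (5 * (n : ℝ) + 2) * (n + 2 * m) ≤ 7 * n * (3 * (n * m)) :=
      mul_le_mul a2 a3 (by positivity) (by positivity)
    nlinarith [mul_nonneg (sq_nonneg (n : ℝ)) (by linarith : (0:ℝ) ≤ m)]
  unfold btl
  refine mul_le_mul h4 h1 (by positivity) (by positivity)

theorem act_bd (q : ℝ) (hq0 : 0 < q) (hq1 : 36 ^ 2000 * q ≤ 1) (m : ℕ) : (36 ^ 600 * q) ^ (2 * m) ≤ (1 / (36 / q)) ^ m := by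
  have h1 := q_small q hq0 hq1 1201 (by norm_num)
  rw [inv_x, pow_mul]
  refine pow_le_pow_left₀ (by positivity) ?_ _
  have h2 : (36 ^ 600 * q) ^ 2 = ((36 : ℝ) ^ 1201 * q) * (q / 36) := by
    have e : (36 : ℝ) ^ 1201 = (36 ^ 600) * (36 ^ 600) * 36 := by
      rw [← pow_add, ← pow_succ]
    rw [e]
    generalize (36 : ℝ) ^ 600 = y
    ring
  rw [h2]
  have h3 : 0 ≤ q / 36 := by positivity
  generalize (36 : ℝ) ^ 1201 * q = y at h1 ⊢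
  clear hq1 h2
  nlinarith

end

end Pool.Agent.H40.WM
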