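import Mathlib
import Pool.Agent.H40.WM.VDefs
import Pool.Agent.H40.WM.VPa

/-!
# VPb: choice of the parameters

`x = 36/q ≥ 36^2001 ≥ 4`.  `t0` from `exists_t0 N`; `4 n^2 ≤ 4 N^2 ≤ 2^t0`.  `C1 = 2 (200102 + K)`, `t = C1 t0`; `m = (371000 C1 + K + 60) t0`, `ℓ = 2 m ≥ 124000 t`.
* First: `20 n^2 x^(371000 t) Avl ≤ 32000 n^8 x^(371000 t + 40 m) = 32000 n^8 x^(C' t0)`, `C' = 371000 C1 + 40 (371000 C1 + K + 60)` (`av_bd`); `≤ N^15 N^8 N^(5 k C')` (`pow_bd`, `32000 ≤ 2^15 ≤ N^15`).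
* Second (`bt_bd`): `20 n^2 x^(371000 t) 40 n^2 40 n^2 m x^(-m) = 32000 n^6 m x^(-(K+60) t0)`; `m ≤ (371000 C1 + K + 60) t0`, `371000 C1 + K + 60 ≤ 2^40 (K+1) ≤ 2^40 2^K`, `t0 ≤ 2^t0`, `n^6 ≤ N^6 ≤ 2^(3 t0)`, `x ≥ 4`: at most
  `2^15 2^(3 t0) 2^(40+K) 2^t0 2^(-2 (K+60) t0) ≤ 2^(-1) 2^(-K t0)`: the exponent is `55 + K + 4 t0 - 2K t0 - 120 t0 ≤ 55 - 116 t0 - K t0 ≤ -1 - K t0` (`t0 ≥ 1`).  And `N^K ≤ 2^(K t0)` (`N ≤ 4 N^2 ≤ 2^t0`): `≤ (1/2) / N^K`.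
* Third (`act_bd`, `t = 2 (200102 + K) t0`): `2 x^(200100 t0) x^(-(200102 + K) t0) = 2 x^(-(K+2) t0) ≤ 2 * 2^(-2 (K+2) t0) ≤ 2^(-1) 2^(-K t0) ≤ (1/2)/N^K`.
-/

set_option autoImplicit false

namespace Pool.Agent.H40.WM

open Pool.Agent.H40.SQ

noncomputable section

theorem vpb_pow (x : ℝ) (hx : 4 ≤ x) (a b : ℕ) : x ^ a * (1 / x) ^ (a + b) ≤ 1 / 4 ^ b := by
  have hx0 : 0 < x := by linarith
  have h1 : x ^ a * (1 / x) ^ (a + b) = (1 / x) ^ b := by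
    rw [pow_add, ← mul_assoc, ← mul_pow, mul_one_div_cancel hx0.ne', one_pow, one_mul]
  rw [h1, ← one_div_pow]
  refine pow_le_pow_left₀ (by positivity) ?_ _
  exact one_div_le_one_div_of_le (by norm_num) hx

theorem vpb_nat (K n N t0 : ℕ) (hnN : n ≤ N) (ht0 : 1 ≤ t0) (h4 : 4 * N ^ 2 ≤ 2 ^ t0) :
    32000 * n ^ 6 * ((371000 * (2 * (200102 + K)) + K + 60) * t0) * (2 * N ^ K) ≤
      4 ^ ((K + 60) * t0) := by
  have h1 : N ^ 2 ≤ 2 ^ t0 := by omega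
  have h2 : n ^ 6 ≤ 2 ^ (3 * t0) := by
    calc n ^ 6 ≤ N ^ 6 := Nat.pow_le_pow_left hnN 6
      _ = (N ^ 2) ^ 3 := by ring
      _ ≤ (2 ^ t0) ^ 3 := Nat.pow_le_pow_left h1 3
      _ = 2 ^ (3 * t0) := by rw [← pow_mul, mul_comm]
  have hN : N ≤ 2 ^ t0 := by
    refine le_trans ?_ h1
    rw [pow_two]
    exact Nat.le_mul_self N
  have h3 : N ^ K ≤ 2 ^ (K * t0) := by
    calc N ^ K ≤ (2 ^ t0) ^ K := Nat.pow_le_pow_left hN K
      _ = 2 ^ (K * t0) := by rw [← pow_mul, mul_comm]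
  have h5 : 371000 * (2 * (200102 + K)) + K + 60 ≤ 2 ^ 40 * 2 ^ K := by
    have hK : K + 1 ≤ 2 ^ K := Nat.lt_two_pow_self
    have : 371000 * (2 * (200102 + K)) + K + 60 ≤ 2 ^ 40 * (K + 1) := by omega
    exact this.trans (Nat.mul_le_mul_left _ hK)
  have h6 : t0 ≤ 2 ^ t0 := Nat.lt_two_pow_self.le
  have h7 : 32000 ≤ 2 ^ 15 := by norm_num
  calc 32000 * n ^ 6 * ((371000 * (2 * (200102 + K)) + K + 60) * t0) * (2 * N ^ K)
      ≤ 2 ^ 15 * 2 ^ (3 * t0) * ((2 ^ 40 * 2 ^ K) * 2 ^ t0) * (2 * 2 ^ (K * t0)) := by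
        gcongr
    _ = 2 ^ (56 + K + 4 * t0 + K * t0) := by
        have e : 56 + K + 4 * t0 + K * t0 = 15 + 3 * t0 + ((40 + K) + t0) + (1 + K * t0) := by ring
        rw [e]
        simp only [pow_add, pow_one]
    _ ≤ 2 ^ (2 * ((K + 60) * t0)) := by
        refine Nat.pow_le_pow_right (by norm_num) ?_
        nlinarith
    _ = 4 ^ ((K + 60) * t0) := by
        rw [pow_mul]
        norm_num

theorem vpb_nat2 (K N t0 : ℕ) (ht0 : 1 ≤ t0) (h4 : 4 * N ^ 2 ≤ 2 ^ t0) :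
    2 * (2 * N ^ K) ≤ 4 ^ ((K + 2) * t0) := by
  have h1 : N ^ 2 ≤ 2 ^ t0 := by omega
  have hN : N ≤ 2 ^ t0 := by
    refine le_trans ?_ h1
    rw [pow_two]
    exact Nat.le_mul_self N
  have h3 : N ^ K ≤ 2 ^ (K * t0) := by
    calc N ^ K ≤ (2 ^ t0) ^ K := Nat.pow_le_pow_left hN K
      _ = 2 ^ (K * t0) := by rw [← pow_mul, mul_comm]
  calc 2 * (2 * N ^ K) ≤ 2 * (2 * 2 ^ (K * t0)) := by gcongr
    _ = 2 ^ (2 + K * t0) := by
        rw [pow_add]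
        ring
    _ ≤ 2 ^ (2 * ((K + 2) * t0)) := by
        refine Nat.pow_le_pow_right (by norm_num) ?_
        nlinarith
    _ = 4 ^ ((K + 2) * t0) := by
        rw [pow_mul]
        norm_num

theorem vpar (q : ℝ) (hq0 : 0 < q) (hq1 : 36 ^ 2000 * q ≤ 1) (K : ℕ) :
    ∃ C : ℕ, ∀ N : ℕ, 2 ≤ N → ∀ n : ℕ, 1 ≤ n → n ≤ N → ∃ t0 t ℓ : ℕ, 1 ≤ t0 ∧ 4 * n ^ 2 ≤ 2 ^ t0 ∧ t0 ≤ t ∧ 124000 * t ≤ ℓ ∧
      20 * (n : ℝ) ^ 2 * (36 / q) ^ (371000 * t) * Avl n ℓ q ≤ (N : ℝ) ^ C ∧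
      20 * (n : ℝ) ^ 2 * (36 / q) ^ (371000 * t) * (40 * (n : ℝ) ^ 2 * btl n ℓ q) +
        2 * (36 / q) ^ (200100 * t0) * (36 ^ 600 * q) ^ t ≤ 1 / (N : ℝ) ^ K := by
  have hx : 4 ≤ 36 / q := by
    have h := x_big q hq0 hq1 1 (by norm_num)
    clear hq1
    linarith
  have hx0 : 0 < 36 / q := by positivity
  obtain ⟨k, hk⟩ := pow_bd (36 / q) (le_trans (by norm_num) hx)
  obtain ⟨C1, hC1⟩ : ∃ C1, C1 = 2 * (200102 + K) := ⟨_, rfl⟩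
  obtain ⟨C0, hC0⟩ : ∃ C0, C0 = 371000 * C1 + K + 60 := ⟨_, rfl⟩
  refine ⟨23 + 5 * k * (371000 * C1 + 40 * C0), fun N hN n hn hnN => ?_⟩
  obtain ⟨t0, ht0, h4, h5⟩ := exists_t0 N hN
  have hC0pos : 1 ≤ C0 * t0 := Nat.mul_pos (by omega) ht0
  have hN' : (2 : ℝ) ≤ N := by exact_mod_cast hN
  have hN0 : (0 : ℝ) < N := lt_of_lt_of_le two_pos hN'
  have hnN' : (n : ℝ) ≤ N := by exact_mod_cast hnN
  refine ⟨t0, C1 * t0, 2 * (C0 * t0), ht0, ?_, ?_, ?_, ?_, ?_⟩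
  · refine le_trans ?_ h4
    exact Nat.mul_le_mul_left _ (Nat.pow_le_pow_left hnN 2)
  · exact Nat.le_mul_of_pos_left _ (by omega)
  · rw [← mul_assoc, ← mul_assoc]
    exact Nat.mul_le_mul_right _ (by omega)
  · have h6 := av_bd q hq0 hq1 n (2 * (C0 * t0)) (by omega)
    have h7 := hk N t0 h5 (371000 * C1 + 40 * C0)
    have h8 : (32000 : ℝ) ≤ (N : ℝ) ^ 15 := by
      calc (32000 : ℝ) ≤ 2 ^ 15 := by norm_num
        _ ≤ (N : ℝ) ^ 15 := pow_le_pow_left₀ (by norm_num) hN' _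
    clear hq1
    calc 20 * (n : ℝ) ^ 2 * (36 / q) ^ (371000 * (C1 * t0)) * Avl n (2 * (C0 * t0)) q
        ≤ 20 * (n : ℝ) ^ 2 * (36 / q) ^ (371000 * (C1 * t0)) *
          (1600 * (n : ℝ) ^ 6 * (36 / q) ^ (20 * (2 * (C0 * t0)))) :=
          mul_le_mul_of_nonneg_left h6 (by positivity)
      _ = 32000 * (n : ℝ) ^ 8 * (36 / q) ^ ((371000 * C1 + 40 * C0) * t0) := by
          have e : (371000 * C1 + 40 * C0) * t0 = 371000 * (C1 * t0) + 20 * (2 * (C0 * t0)) := by ring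
          rw [e, pow_add]
          ring
      _ ≤ (N : ℝ) ^ 15 * (N : ℝ) ^ 8 * (N : ℝ) ^ (5 * k * (371000 * C1 + 40 * C0)) := by
          gcongr
      _ = (N : ℝ) ^ (23 + 5 * k * (371000 * C1 + 40 * C0)) := by
          rw [← pow_add, ← pow_add]
  · have hb := bt_bd q hq0 hq1 n (C0 * t0) hn hC0pos
    have hc := act_bd q hq0 hq1 ((200102 + K) * t0)
    clear hq1
    have hNK : (0 : ℝ) < (N : ℝ) ^ K := by positivity
    have a1 : 20 * (n : ℝ) ^ 2 * (36 / q) ^ (371000 * (C1 * t0)) *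
        (40 * (n : ℝ) ^ 2 * btl n (2 * (C0 * t0)) q) ≤ 1 / (2 * (N : ℝ) ^ K) := by
      have e : C0 * t0 = 371000 * (C1 * t0) + (K + 60) * t0 := by rw [hC0]; ring
      have p1 := vpb_pow (36 / q) hx (371000 * (C1 * t0)) ((K + 60) * t0)
      rw [← e] at p1
      have p2 : (32000 * (n : ℝ) ^ 6 * ((C0 * t0 : ℕ) : ℝ)) * (2 * (N : ℝ) ^ K) ≤
          4 ^ ((K + 60) * t0) := by
        have := vpb_nat K n N t0 hnN ht0 h4
        rw [hC0, hC1]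
        exact_mod_cast this
      calc 20 * (n : ℝ) ^ 2 * (36 / q) ^ (371000 * (C1 * t0)) *
          (40 * (n : ℝ) ^ 2 * btl n (2 * (C0 * t0)) q)
          ≤ 20 * (n : ℝ) ^ 2 * (36 / q) ^ (371000 * (C1 * t0)) *
          (40 * (n : ℝ) ^ 2 * (40 * (n : ℝ) ^ 2 * ((C0 * t0 : ℕ) : ℝ) *
            (1 / (36 / q)) ^ (C0 * t0))) := by
            refine mul_le_mul_of_nonneg_left ?_ (by positivity)
            exact mul_le_mul_of_nonneg_left hb (by positivity)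
        _ = (32000 * (n : ℝ) ^ 6 * ((C0 * t0 : ℕ) : ℝ)) *
            ((36 / q) ^ (371000 * (C1 * t0)) * (1 / (36 / q)) ^ (C0 * t0)) := by ring
        _ ≤ (32000 * (n : ℝ) ^ 6 * ((C0 * t0 : ℕ) : ℝ)) * (1 / 4 ^ ((K + 60) * t0)) :=
            mul_le_mul_of_nonneg_left p1 (by positivity)
        _ ≤ 1 / (2 * (N : ℝ) ^ K) := by
            rw [mul_one_div, div_le_div_iff₀ (by positivity) (by positivity), one_mul]
            exact p2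
    have a2 : 2 * (36 / q) ^ (200100 * t0) * (36 ^ 600 * q) ^ (C1 * t0) ≤
        1 / (2 * (N : ℝ) ^ K) := by
      have e : C1 * t0 = 2 * ((200102 + K) * t0) := by rw [hC1]; ring
      have e2 : (200102 + K) * t0 = 200100 * t0 + (K + 2) * t0 := by ring
      have p1 := vpb_pow (36 / q) hx (200100 * t0) ((K + 2) * t0)
      rw [← e2] at p1
      have p2 : 2 * (2 * (N : ℝ) ^ K) ≤ 4 ^ ((K + 2) * t0) := by
        have := vpb_nat2 K N t0 ht0 h4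
        exact_mod_cast this
      rw [e]
      calc 2 * (36 / q) ^ (200100 * t0) * (36 ^ 600 * q) ^ (2 * ((200102 + K) * t0))
          ≤ 2 * (36 / q) ^ (200100 * t0) * (1 / (36 / q)) ^ ((200102 + K) * t0) :=
            mul_le_mul_of_nonneg_left hc (by positivity)
        _ = 2 * ((36 / q) ^ (200100 * t0) * (1 / (36 / q)) ^ ((200102 + K) * t0)) := by ring
        _ ≤ 2 * (1 / 4 ^ ((K + 2) * t0)) := mul_le_mul_of_nonneg_left p1 (by positivity)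
        _ ≤ 1 / (2 * (N : ℝ) ^ K) := by
            rw [mul_one_div, div_le_div_iff₀ (by positivity) (by positivity), one_mul]
            exact p2
    calc _ ≤ 1 / (2 * (N : ℝ) ^ K) + 1 / (2 * (N : ℝ) ^ K) := add_le_add a1 a2
      _ = 1 / (N : ℝ) ^ K := by
        field_simp
        norm_num

end

end Pool.Agent.H40.WM
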