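import Mathlib
import Pool.Agent.H40.WM.HDefs
import Pool.Agent.H40.WM.IPrt
import Pool.Agent.H40.WM.ICut
import Pool.Agent.H40.WM.IShf
import Pool.Agent.H40.WM.IVer

/-!
# HBas: basic facts on coded paths

`X, Y` paths from `a` to `b`, `uu b = uu a + 2 n0`.
* `pb_isP`: `Pb X Y ξ` is a path.
* `Zm_slice`: the edges of `Zm` in the double slice `k` are those of `sh (t,t) (Pb X Y ξ)` in the double slice `k`, `σ k = (ξ,t)` (`kl_shE`).  `Zm_pc`: if `σ` is constant `= (ξ,t)` on `[x,y)` then `pc u (Zm) x y = sh (t,t) (pc u (Pb X Y ξ) x y)`; the same for `lf` (constant on `(-∞,y)`) and `rt`.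
* `Zc_eq_empty`: no break: the difference of levels is `0`, `Vert_zero`.
* `Zc_us`: the edges of the connector at `k` are in the slices `uu a + 2k - 1`, `uu a + 2k` (`Vert_us`, `vt_uu`).
* `Zm_Zc_disj`: at a break `k` (`0 < k < n0`) half clean for `X` and `Y`: if the connector is in the slice `uu a + 2k`, the only edge of `Zm` in this slice is `Hr (vt a k (thl k (σ k)))` (`cut_point` for `Pb X Y (σ k).1`, translated), which is not in the connector; if it is in the slice `uu a + 2k - 1`,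
  the only edge of `Zm` there is `Vu (vt a k (thl k (σ (k-1))))`, not in the connector (`Vert_us`).
* `thl_cmpl`: `thl k (cmpl σ k) = lp X k + lp Y k - thl k (σ k)`.
-/

set_option autoImplicit false

namespace Pool.Agent.H40.WM

open Pool.Agent.H40.SQ

noncomputable section

theorem pb_isP {a b : ℤ × ℤ} {X Y : Finset Edge} (hX : IsP a b X) (hY : IsP a b Y) (ξ : Bool) : IsP a b (Pb X Y ξ) := by
  unfold Pb
  split_ifs
  · exact hY
  · exact hX

theorem pb_hc {u k : ℤ} {X Y : Finset Edge} (hX : HC u X k) (hY : HC u Y k) (ξ : Bool) : HC u (Pb X Y ξ) k := by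
  unfold Pb
  split_ifs
  · exact hY
  · exact hX

theorem pb_ex (u : ℤ) (X Y : Finset Edge) (ξ : Bool) (i : ℤ) : ex u (Pb X Y ξ) i ≤ ex2 u X Y i := by
  unfold Pb ex2
  split_ifs <;> omega

theorem mem_Zm {u : ℤ} {X Y : Finset Edge} {σ : ℤ → Bool × ℤ} {e : Edge} :
    e ∈ Zm u X Y σ ↔ ∃ e0 ∈ Pb X Y (σ (kl u e)).1, e = shE ((σ (kl u e)).2, (σ (kl u e)).2) e0 := by
  unfold Zm
  rw [Finset.mem_union, Finset.mem_image, Finset.mem_image]
  constructor
  · rintro (⟨e0, he0, h⟩ | ⟨e0, he0, h⟩)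
    · rw [Finset.mem_filter] at he0
      have hk : kl u e = kl u e0 := by rw [← h, kl_shE]
      rw [hk]
      refine ⟨e0, ?_, h.symm⟩
      unfold Pb
      rw [he0.2]
      simpa using he0.1
    · rw [Finset.mem_filter] at he0
      have hk : kl u e = kl u e0 := by rw [← h, kl_shE]
      rw [hk]
      refine ⟨e0, ?_, h.symm⟩
      unfold Pb
      rw [he0.2]
      simpa using he0.1
  · rintro ⟨e0, he0, h⟩
    have hk : kl u e = kl u e0 := by
      have h1 := congrArg (kl u) h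
      rwa [kl_shE] at h1
    rw [hk] at he0 h
    cases hc : (σ (kl u e0)).1
    · left
      refine ⟨e0, Finset.mem_filter.2 ⟨?_, hc⟩, h.symm⟩
      rw [hc] at he0
      simpa [Pb] using he0
    · right
      refine ⟨e0, Finset.mem_filter.2 ⟨?_, hc⟩, h.symm⟩
      rw [hc] at he0
      simpa [Pb] using he0

private theorem hb_filter {u : ℤ} {X Y : Finset Edge} {σ : ℤ → Bool × ℤ} (P : ℤ → Prop)
    [DecidablePred P] {c : Bool × ℤ} (h : ∀ k, P k → σ k = c) :
    (Zm u X Y σ).filter (fun e => P (kl u e)) =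
      sh (c.2, c.2) ((Pb X Y c.1).filter (fun e => P (kl u e))) := by
  ext e
  rw [Finset.mem_filter, mem_Zm, mem_sh]
  constructor
  · rintro ⟨⟨e0, he0, he⟩, hP⟩
    rw [h _ hP] at he0 he
    refine ⟨e0, Finset.mem_filter.2 ⟨he0, ?_⟩, he.symm⟩
    rw [he, kl_shE] at hP
    exact hP
  · rintro ⟨e0, he0, he⟩
    rw [Finset.mem_filter] at he0
    have hk : kl u e = kl u e0 := by rw [← he, kl_shE]
    rw [hk, h _ he0.2]
    exact ⟨⟨e0, he0.1, he.symm⟩, he0.2⟩

theorem Zm_pc {u : ℤ} {X Y : Finset Edge} {σ : ℤ → Bool × ℤ} {x y : ℤ} {c : Bool × ℤ} (h : ∀ k, x ≤ k → k < y → σ k = c) :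
    pc u (Zm u X Y σ) x y = sh (c.2, c.2) (pc u (Pb X Y c.1) x y) := by
  unfold pc
  exact hb_filter (fun k => x ≤ k ∧ k < y) fun k hk => h k hk.1 hk.2

theorem Zm_lf {u : ℤ} {X Y : Finset Edge} {σ : ℤ → Bool × ℤ} {y : ℤ} {c : Bool × ℤ} (h : ∀ k, k < y → σ k = c) :
    lf u (Zm u X Y σ) y = sh (c.2, c.2) (lf u (Pb X Y c.1) y) := by
  unfold lf
  exact hb_filter (fun k => k < y) fun k hk => h k hk

theorem Zm_rt {u : ℤ} {X Y : Finset Edge} {σ : ℤ → Bool × ℤ} {x : ℤ} {c : Bool × ℤ} (h : ∀ k, x ≤ k → σ k = c) :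
    rt u (Zm u X Y σ) x = sh (c.2, c.2) (rt u (Pb X Y c.1) x) := by
  unfold rt
  exact hb_filter (fun k => x ≤ k) fun k hk => h k hk

theorem Zm_const {u : ℤ} {X Y : Finset Edge} {σ : ℤ → Bool × ℤ} {c : Bool × ℤ} (h : ∀ k, σ k = c) :
    Zm u X Y σ = sh (c.2, c.2) (Pb X Y c.1) := by
  have h1 := hb_filter (u := u) (X := X) (Y := Y) (fun _ => True) fun k _ => h k
  rw [Finset.filter_true, Finset.filter_true] at h1
  exact h1

theorem Zc_eq_empty {a b : ℤ × ℤ} {X Y : Finset Edge} {σ : ℤ → Bool × ℤ} {k : ℤ} (h : σ (k - 1) = σ k) : Zc a b X Y σ k = ∅ := by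
  unfold Zc
  rw [h, sub_self, Vert_zero]

theorem Zc_us {a b : ℤ × ℤ} {X Y : Finset Edge} {σ : ℤ → Bool × ℤ} {k : ℤ} {e : Edge} (h : e ∈ Zc a b X Y σ k) :
    us e = uu a + 2 * k ∨ us e = uu a + 2 * k - 1 := by
  unfold Zc at h
  rcases Vert_us h with h1 | h1
  · left
    rw [h1.2.1, vt_uu]
  · right
    rw [h1.2.1, vt_uu]

theorem Zm_Zv_disj {a b : ℤ × ℤ} {X Y : Finset Edge} (hX : IsP a b X) (hY : IsP a b Y) (n0 : ℕ) (hm : uu b = uu a + 2 * n0)
    {σ : ℤ → Bool × ℤ} (hb : ∀ k ∈ Brk n0 σ, HC (uu a) X k ∧ HC (uu a) Y k) :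
    Disjoint (Zm (uu a) X Y σ) (Zv a b n0 X Y σ) := by
  rw [Finset.disjoint_left]
  intro e he1 he2
  unfold Zv at he2
  rw [Finset.mem_biUnion] at he2
  obtain ⟨k, hk, he2⟩ := he2
  rw [Finset.mem_Ico] at hk
  have hne : σ (k - 1) ≠ σ k := by
    intro h
    rw [Zc_eq_empty h] at he2
    exact Finset.notMem_empty _ he2
  have hkB : k ∈ Brk n0 σ := by
    unfold Brk
    rw [Finset.mem_filter, Finset.mem_Ico]
    exact ⟨hk, hne⟩
  obtain ⟨hcX, hcY⟩ := hb k hkB
  rw [mem_Zm] at he1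
  obtain ⟨e0, he0, he⟩ := he1
  have hus : us e = us e0 := by
    have h1 := congrArg us he
    rwa [us_shE] at h1
  have hcut := fun ξ : Bool => cut_point (pb_isP hX hY ξ) n0 hm k (pb_hc hcX hcY ξ) (by omega) hk.2
  unfold Zc at he2
  rcases Vert_us he2 with h1 | h1
  · obtain ⟨_, h2, h3⟩ := h1
    rw [vt_uu] at h2
    have hkl : kl (uu a) e = k := by
      unfold kl
      rw [h2]
      omega
    rw [hkl] at he0 he
    apply h3
    have h4 := (hcut (σ k).1).2.2.1 e0 he0 (by rw [← hus, h2])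
    rw [he, h4]
    unfold thl shE Hr vt
    simp only [Prod.mk.injEq, true_and]
    constructor <;> ring
  · obtain ⟨_, h2, h3⟩ := h1
    rw [vt_uu] at h2
    have hkl : kl (uu a) e = k - 1 := by
      unfold kl
      rw [h2]
      omega
    rw [hkl] at he0 he
    apply h3
    have h4 := (hcut (σ (k - 1)).1).2.2.2 e0 he0 (by rw [← hus, h2])
    rw [he, h4]
    unfold thl shE Vu vt
    simp only [Prod.mk.injEq, true_and]
    constructor <;> ring

theorem thl_cmpl (a b : ℤ × ℤ) (X Y : Finset Edge) (σ : ℤ → Bool × ℤ) (j k : ℤ) :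
    thl a b X Y k (cmpl σ j) = lp a b X k + lp a b Y k - thl a b X Y k (σ j) := by
  unfold thl cmpl Pb
  cases (σ j).1
  · simp only [Bool.not_false, if_true, Bool.false_eq_true, if_false]
    ring
  · simp only [Bool.not_true, if_true, Bool.false_eq_true, if_false]
    ring

private theorem hb_cmpl_ne (σ : ℤ → Bool × ℤ) (j k : ℤ) : cmpl σ j ≠ cmpl σ k ↔ σ j ≠ σ k := by
  apply not_congr
  unfold cmpl
  rw [Prod.mk.injEq, neg_inj, Prod.ext_iff]
  constructor
  · rintro ⟨h1, h2⟩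
    exact ⟨by simpa using h1, h2⟩
  · rintro ⟨h1, h2⟩
    exact ⟨by rw [h1], h2⟩

theorem brk_cmpl (n0 : ℕ) (σ : ℤ → Bool × ℤ) : Brk n0 (cmpl σ) = Brk n0 σ := by
  unfold Brk
  apply Finset.filter_congr
  intro k _
  exact hb_cmpl_ne σ _ _

theorem cmpl_code {a b : ℤ × ℤ} {n0 : ℕ} {X Y : Finset Edge} {t : ℕ} {σ : ℤ → Bool × ℤ} (h : HCode a b n0 X Y t σ) :
    HCode a b n0 X Y t (cmpl σ) := by
  refine ⟨?_, ?_, ?_, ?_, ?_, ?_, ?_, ?_⟩
  · intro k hk
    unfold cmpl
    rw [h.left k hk]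
  · intro k hk
    unfold cmpl
    rw [h.right k hk]
  · unfold cmpl
    rw [h.t0]
    rfl
  · unfold cmpl
    rw [h.t1]
    rfl
  · rw [brk_cmpl]
    exact h.card
  · rw [brk_cmpl]
    exact h.reg
  · rw [brk_cmpl]
    intro k hk
    rw [thl_cmpl, thl_cmpl]
    have h1 := h.mis k hk
    rw [← abs_neg]
    have h2 : -(lp a b X k + lp a b Y k - thl a b X Y k (σ k) -
        (lp a b X k + lp a b Y k - thl a b X Y k (σ (k - 1)))) =
        thl a b X Y k (σ k) - thl a b X Y k (σ (k - 1)) := by ring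
    rw [h2]
    exact h1
  · intro k
    have h1 : |(cmpl σ k).2| = |(σ k).2| := by
      unfold cmpl
      exact abs_neg _
    rw [h1]
    exact h.tb k

private theorem hb_reg {f : ℤ → ℕ} {k : ℤ} (h : Reg f k) : f (k - 1) = 0 ∧ f k = 0 := by
  constructor
  · have h1 := h.2 (k - 1) (by omega)
    have h2 : Sf f (k - 1) k = f (k - 1) := by
      unfold Sf
      have h3 : Finset.Ico (k - 1) k = {k - 1} := by
        ext i
        rw [Finset.mem_Ico, Finset.mem_singleton]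
        omega
      rw [h3, Finset.sum_singleton]
    rw [h2] at h1
    omega
  · have h1 := h.1 (k + 1) (by omega)
    have h2 : Sf f k (k + 1) = f k := by
      unfold Sf
      have h3 : Finset.Ico k (k + 1) = {k} := by
        ext i
        rw [Finset.mem_Ico, Finset.mem_singleton]
        omega
      rw [h3, Finset.sum_singleton]
    rw [h2] at h1
    omega

theorem code_hc {a b : ℤ × ℤ} {n0 : ℕ} {X Y : Finset Edge} {t : ℕ} {σ : ℤ → Bool × ℤ} (h : HCode a b n0 X Y t σ) :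
    ∀ k ∈ Brk n0 σ, HC (uu a) X k ∧ HC (uu a) Y k := by
  intro k hk
  have h1 := hb_reg (h.reg k hk).1
  unfold ex2 at h1
  exact ⟨HC_of_ex (by omega) (by omega), HC_of_ex (by omega) (by omega)⟩

end

end Pool.Agent.H40.WM
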