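import Mathlib
import Pool.Agent.H40.WM.KDefs

/-!
# KHyb: close macro codes are connected by single block changes

Hybrids `h_r i = c2 i` for `i < r`, `c1 i` for `i ≥ r` on the blocks `0 ≤ i ≤ M-1`, extended constantly (use `j = max 0 (min i (M-1))` for `i`), `0 ≤ r ≤ M`.
`h_0 = c1`, `h_M = c2` (by `left`, `right` of `c1`, `c2`), `h_r` and `h_{r+1}` differ at most in the block `r`.
`VCode M R D 7 (5R) h_r`: `t0, tM, bl, br` are conditions on single blocks; breaks: those of `c2` left of `r`, those of `c1` right of `r`, and `r`: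
at most `3+3+1`; mismatch at `r`: `|th_r(c2 (r-1)) - th_r(c1 r)| ≤ |th_r(c2 (r-1)) - th_r(c2 r)| + |th_r(c2 r) - th_r(c1 r)| ≤ 2R + 3R`.
Then induction on `r` (`Relation.ReflTransGen.tail`).
-/

set_option autoImplicit false

namespace Pool.Agent.H40.WM

open Pool.Agent.H40.SQ

noncomputable section

/-- the hybrid of two codes -/
private def hyb (M r : ℤ) (c1 c2 : ℤ → Bool × ℤ) (i : ℤ) : Bool × ℤ :=
  if max 0 (min i (M - 1)) < r then c2 (max 0 (min i (M - 1))) else c1 (max 0 (min i (M - 1)))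

private theorem hyb_in {M r : ℤ} {c1 c2 : ℤ → Bool × ℤ} {i : ℤ} (hi : 0 ≤ i) (hi' : i ≤ M - 1) :
    hyb M r c1 c2 i = if i < r then c2 i else c1 i := by
  have h : max 0 (min i (M - 1)) = i := by omega
  unfold hyb
  rw [h]

private theorem code_ext {M R : ℤ} {D : ℤ → ℤ} {b : ℕ} {w : ℤ} {c : ℤ → Bool × ℤ} (hM : 1 ≤ M)
    (h : VCode M R D b w c) (i : ℤ) : c (max 0 (min i (M - 1))) = c i := by
  rcases le_total i 0 with h1 | h1
  · have e : max 0 (min i (M - 1)) = 0 := by omega
    rw [e, h.left i h1]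
  · rcases le_total (M - 1) i with h2 | h2
    · have e : max 0 (min i (M - 1)) = M - 1 := by omega
      rw [e, h.right i h2]
    · have e : max 0 (min i (M - 1)) = i := by omega
      rw [e]

private theorem hyb_valid {M R : ℤ} {D : ℤ → ℤ} (hM : 1 ≤ M) (hR : 1 ≤ R) {c1 c2 : ℤ → Bool × ℤ}
    (h1 : VCode M R D 3 (2 * R) c1) (h2 : VCode M R D 3 (2 * R) c2)
    (hc : ∀ i, 0 ≤ i → i ≤ M - 1 → |th D i (c2 i) - th D i (c1 i)| ≤ 3 * R) (r : ℤ) :
    VCode M R D 7 (5 * R) (hyb M r c1 c2) := by
  constructor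
  · intro i hi
    have e : max 0 (min i (M - 1)) = max 0 (min 0 (M - 1)) := by omega
    unfold hyb
    rw [e]
  · intro i hi
    have e : max 0 (min i (M - 1)) = max 0 (min (M - 1) (M - 1)) := by omega
    unfold hyb
    rw [e]
  · rw [hyb_in le_rfl (by omega)]
    split_ifs
    · exact h2.t0
    · exact h1.t0
  · rw [hyb_in (by omega) le_rfl]
    split_ifs
    · exact h2.tM
    · exact h1.tM
  · have hsub : (Finset.Icc 1 (M - 1)).filter (fun i => hyb M r c1 c2 (i - 1) ≠ hyb M r c1 c2 i) ⊆
        ((Finset.Icc 1 (M - 1)).filter (fun i => c2 (i - 1) ≠ c2 i)) ∪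
          (((Finset.Icc 1 (M - 1)).filter (fun i => c1 (i - 1) ≠ c1 i)) ∪ {r}) := by
      intro i hi
      rw [Finset.mem_filter, Finset.mem_Icc] at hi
      obtain ⟨⟨h3, h4⟩, h5⟩ := hi
      rw [Finset.mem_union, Finset.mem_union, Finset.mem_filter, Finset.mem_filter, Finset.mem_Icc,
        Finset.mem_singleton]
      rw [hyb_in (by omega) (by omega), hyb_in (by omega) (by omega)] at h5
      by_cases hir : i = r
      · exact Or.inr (Or.inr hir)
      · by_cases hlt : i < r
        · rw [if_pos hlt, if_pos (by omega)] at h5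
          exact Or.inl ⟨⟨h3, h4⟩, h5⟩
        · rw [if_neg hlt, if_neg (by omega)] at h5
          exact Or.inr (Or.inl ⟨⟨h3, h4⟩, h5⟩)
    have k1 := Finset.card_le_card hsub
    have k2 := Finset.card_union_le ((Finset.Icc 1 (M - 1)).filter (fun i => c2 (i - 1) ≠ c2 i))
      (((Finset.Icc 1 (M - 1)).filter (fun i => c1 (i - 1) ≠ c1 i)) ∪ {r})
    have k3 := Finset.card_union_le ((Finset.Icc 1 (M - 1)).filter (fun i => c1 (i - 1) ≠ c1 i)) {r}
    have k4 := h1.brk
    have k5 := h2.brk
    rw [Finset.card_singleton] at k3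
    omega
  · intro i hi hi'
    rw [hyb_in (by omega) (by omega), hyb_in (by omega) hi']
    by_cases hir : i = r
    · subst hir
      rw [if_pos (by omega), if_neg (by omega), abs_le]
      have k1 := abs_le.1 (h2.mis i hi hi')
      have k2 := abs_le.1 (hc i (by omega) hi')
      constructor <;> omega
    · by_cases hlt : i < r
      · rw [if_pos hlt, if_pos (by omega)]
        have := h2.mis i hi hi'
        omega
      · rw [if_neg hlt, if_neg (by omega)]
        have := h1.mis i hi hi'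
        omega
  · intro i hi hi'
    rw [hyb_in hi hi']
    split_ifs
    · exact h2.bl i hi hi'
    · exact h1.bl i hi hi'
  · intro i hi hi'
    rw [hyb_in hi hi']
    split_ifs
    · exact h2.br i hi hi'
    · exact h1.br i hi hi'

theorem hyb_connect {M R : ℤ} {D : ℤ → ℤ} (hM : 1 ≤ M) (hR : 1 ≤ R) {c1 c2 : ℤ → Bool × ℤ} (h1 : VCode M R D 3 (2 * R) c1)
    (h2 : VCode M R D 3 (2 * R) c2)
    (hc : ∀ i, 0 ≤ i → i ≤ M - 1 → |th D i (c2 i) - th D i (c1 i)| ≤ 3 * R) :
    Relation.ReflTransGen (CStep M R D) c1 c2 := by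
  have hz : hyb M 0 c1 c2 = c1 := by
    funext i
    unfold hyb
    rw [if_neg (by omega), code_ext hM h1]
  have hm : hyb M M c1 c2 = c2 := by
    funext i
    unfold hyb
    rw [if_pos (by omega), code_ext hM h2]
  have key : ∀ r : ℤ, 0 ≤ r → r ≤ M →
      Relation.ReflTransGen (CStep M R D) (hyb M 0 c1 c2) (hyb M r c1 c2) := by
    intro r hr
    induction r, hr using Int.le_induction with
    | base => intro _; exact Relation.ReflTransGen.refl
    | succ r hr ih =>
      intro hr'
      refine (ih (by omega)).tail ⟨hyb_valid hM hR h1 h2 hc r, hyb_valid hM hR h1 h2 hc (r + 1), r, hr,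
        by omega, ?_⟩
      intro i hi hi' hir
      rw [hyb_in hi hi', hyb_in hi hi']
      by_cases hlt : i < r
      · rw [if_pos hlt, if_pos (by omega)]
      · rw [if_neg hlt, if_neg (by omega)]
  have h := key M (by omega) le_rfl
  rw [hz, hm] at h
  exact h

end

end Pool.Agent.H40.WM
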