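import Mathlib
import Pool.Agent.H40.WM.KDefs

/-!
# KMac: macro codes are admissible, and neighbouring macro codes are close

Let `Refi M R D L E p`, `D 0 = 0`, `D M = 0`, `1 ≤ M`, `1 ≤ R`.  `p` is monotone with values in `[0,M]` (easy induction: lemma `refi_mono`).
A state is `(z,k,l)`, `0 ≤ z ≤ k ≤ l ≤ L`, `E z = 0`, `E k = E l`; its code is `mcod M D (p z) (p k) (p l)`.
Estimates: `|D (p z)| ≤ R` (from `|E z - 2 D (p z)| ≤ 2R`), `|D (p k) - D (p l)| ≤ 2R`, and if `p l = M` then `|E l| ≤ 2R`, so `|D (p k)| ≤ 2R`.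
Put `m = 0` if `p l = M` and `m = D (p k)` otherwise.
* `mac_valid`: `t0`: the block `0` is in the middle part only if `p k = 0`, then `m = 0`.  `tM`: the block `M-1` is in the middle part only if
  `p l = M`, then `m = 0`.  Breaks can only be at `p z, p k, p l`: at most 3.  Mismatches: at `p z`: `|D (p z)| ≤ R`, or `|m|` with `p k = p z` (then
  `|m| ≤ |D (p z)| ≤ R`); at `p k` (`p z < p k < p l`): `|D (p k) - m| ≤ 2R`; at `p l < M` (`p k < p l`): `|D (p l) - D (p k)| ≤ 2R`.
  `bl`: middle part: `i' = p k`; `br`: `i' = p l`, `|m| ≤ |D (p l)| + 2R`; the other blocks have `t = 0`: `i' = i`, `i' = i+1`.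
* `mac_close`: `(z,k,l)`, `(z,k',l')` states with `|k-k'| ≤ 1`, `|l-l'| ≤ 1`: for every block `i ∈ [0,M-1]` the levels at the line `i` differ by at
  most `3R`.  Both blocks in the middle: `|m - m'| ≤ 3R` (`|D (p k) - D (p k')| ≤ R` by the step bound of `D`, or one of them is `0` and the other at most `2R`,
  plus `R`).  Block `i` in the middle part of one code and outside (value `(0,0)`, or `(1,0)`: impossible, `z` is the same) of the other: then `i` is
  `min (p k) (p k')` or `min (p l) (p l')` and `|D i - m| ≤ 3R` in each case: `i = p k`: `|D (p k) - m| ≤ 2R`; `i = p k' = p k + 1`... (go through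
  the cases: `i ∈ {p k, p k'}`: code 1 middle and `p k ≤ i < p k'` gives `i = p k`; code 2 middle symmetric; `i ∈ [p l, p l')`: `i = p l = p l' - 1`,
  `|D (p l) - m'| ≤ |D (p l) - D (p l')| + |D (p l') - m'| ≤ R + 2R`).
* `mac_end`: the state `(z,z,z')` with `E z = E z' = 0` and the code `mcod M D (p z') (p z') (p z')`: difference `|m| ≤ R`.
-/

set_option autoImplicit false

namespace Pool.Agent.H40.WM

open Pool.Agent.H40.SQ

noncomputable section

theorem refi_mono {M R : ℤ} {D : ℤ → ℤ} {L : ℤ} {E p : ℤ → ℤ} (h : Refi M R D L E p) {x y : ℤ} (hx : 0 ≤ x) (hxy : x ≤ y)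
    (hy : y ≤ L) : 0 ≤ p x ∧ p x ≤ p y ∧ p y ≤ M := by
  have key : ∀ u v : ℤ, 0 ≤ u → u ≤ v → v ≤ L → p u ≤ p v := by
    intro u v hu huv
    induction v, huv using Int.le_induction with
    | base => intro _; exact le_rfl
    | succ v huv ih =>
      intro hv
      have h1 := ih (by omega)
      rcases h.pstep v (by omega) (by omega) with h2 | h2 <;> omega
  have h1 := key 0 x le_rfl hx (by omega)
  have h2 := key x y hx hxy hy
  have h3 := key y L (by omega) hy le_rfl
  rw [h.p0] at h1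
  rw [h.pL] at h3
  exact ⟨h1, h2, h3⟩

/-- the code on the blocks `0 ≤ i ≤ M - 1` -/
private theorem mcod_in {M : ℤ} {D : ℤ → ℤ} {a b c i : ℤ} (hi : 0 ≤ i) (hi' : i ≤ M - 1) :
    mcod M D a b c i = if i < a then (true, 0) else if i < b then (false, 0)
      else if i < c then (true, if c = M then 0 else - D b) else (false, 0) := by
  have h : max 0 (min i (M - 1)) = i := by omega
  unfold mcod
  rw [h]

private theorem th_in {M : ℤ} {D : ℤ → ℤ} {a b c i j : ℤ} (hi : 0 ≤ i) (hi' : i ≤ M - 1) :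
    th D j (mcod M D a b c i) = if i < a then D j else if i < b then 0
      else if i < c then D j + (if c = M then 0 else - D b) else 0 := by
  rw [mcod_in hi hi']
  unfold th
  split_ifs <;> simp_all

/-- facts on `D` at the positions of the climbers -/
private theorem refi_close {M R : ℤ} {D : ℤ → ℤ} {L : ℤ} {E p : ℤ → ℤ} (h : Refi M R D L E p) {x : ℤ} (hx : 0 ≤ x)
    (hx' : x ≤ L) : -(2 * R) ≤ E x - 2 * D (p x) ∧ E x - 2 * D (p x) ≤ 2 * R :=
  abs_le.1 (h.close x hx hx')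

private theorem valid_abs {M R : ℤ} {D : ℤ → ℤ} (hM : 1 ≤ M) (hR : 1 ≤ R) (h0 : D 0 = 0) (h1 : D M = 0)
    {a b c : ℤ} (ha : 0 ≤ a) (hab : a ≤ b) (hbc : b ≤ c) (hc : c ≤ M) (hDa : -R ≤ D a ∧ D a ≤ R)
    (hDbc : -(2 * R) ≤ D b - D c ∧ D b - D c ≤ 2 * R) : VCode M R D 3 (2 * R) (mcod M D a b c) := by
  have hcM : c = M → D c = 0 := by rintro rfl; exact h1
  have hb0 : b = 0 → D b = 0 := by rintro rfl; exact h0
  have hDab : a = b → D a = D b := by rintro rfl; rfl
  constructor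
  · intro i hi
    have e : max 0 (min i (M - 1)) = max 0 (min 0 (M - 1)) := by omega
    unfold mcod
    rw [e]
  · intro i hi
    have e : max 0 (min i (M - 1)) = max 0 (min (M - 1) (M - 1)) := by omega
    unfold mcod
    rw [e]
  · rw [mcod_in le_rfl (by omega)]
    split_ifs <;> simp only <;> omega
  · rw [mcod_in (by omega) le_rfl]
    split_ifs <;> simp only <;> omega
  · have hsub : (Finset.Icc 1 (M - 1)).filter (fun i => mcod M D a b c (i - 1) ≠ mcod M D a b c i) ⊆ {a, b, c} := by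
      intro i hi
      rw [Finset.mem_filter, Finset.mem_Icc] at hi
      obtain ⟨⟨h2, h3⟩, h4⟩ := hi
      by_contra hcon
      simp only [Finset.mem_insert, Finset.mem_singleton, not_or] at hcon
      obtain ⟨k1, k2, k3⟩ := hcon
      apply h4
      rw [mcod_in (by omega) (by omega), mcod_in (by omega) (by omega)]
      have e1 : (i - 1 < a) = (i < a) := by
        apply propext; omega
      have e2 : (i - 1 < b) = (i < b) := by
        apply propext; omega
      have e3 : (i - 1 < c) = (i < c) := by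
        apply propext; omega
      simp only [e1, e2, e3]
    exact (Finset.card_le_card hsub).trans Finset.card_le_three
  · intro i hi hi'
    have hia : i = a → D i = D a := by rintro rfl; rfl
    have hib : i = b → D i = D b := by rintro rfl; rfl
    have hic : i = c → D i = D c := by rintro rfl; rfl
    rw [th_in (i := i - 1) (by omega) (by omega), th_in (by omega) hi', abs_le]
    split_ifs <;> constructor <;> omega
  · intro i hi hi'
    rw [mcod_in hi hi']
    by_cases hmid : b ≤ i ∧ i < c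
    · refine ⟨b, by omega, hmid.1, ?_⟩
      have k1 := le_abs_self (D b)
      have k2 := neg_abs_le (D b)
      rw [abs_le]
      split_ifs <;> simp only <;> constructor <;> omega
    · refine ⟨i, hi, le_rfl, ?_⟩
      have k1 := abs_nonneg (D i)
      rw [abs_le]
      split_ifs <;> simp only <;> constructor <;> omega
  · intro i hi hi'
    rw [mcod_in hi hi']
    by_cases hmid : b ≤ i ∧ i < c
    · refine ⟨c, hmid.2, hc, ?_⟩
      have k1 := le_abs_self (D c)
      have k2 := neg_abs_le (D c)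
      rw [abs_le]
      split_ifs <;> simp only <;> constructor <;> omega
    · refine ⟨i + 1, by omega, by omega, ?_⟩
      have k1 := abs_nonneg (D (i + 1))
      rw [abs_le]
      split_ifs <;> simp only <;> constructor <;> omega

private theorem close_abs {M R : ℤ} {D : ℤ → ℤ} (hR : 1 ≤ R) (h1 : D M = 0)
    {a b c b' c' : ℤ} (ha : 0 ≤ a) (hab : a ≤ b) (hbc : b ≤ c) (hc : c ≤ M) (hab' : a ≤ b') (hbc' : b' ≤ c')
    (hc' : c' ≤ M) (hbb : b' = b ∨ b' = b + 1 ∨ b = b' + 1) (hcc : c' = c ∨ c' = c + 1 ∨ c = c' + 1)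
    (hDbb : -R ≤ D b - D b' ∧ D b - D b' ≤ R) (hDcc : -R ≤ D c - D c' ∧ D c - D c' ≤ R)
    (hDbc : -(2 * R) ≤ D b - D c ∧ D b - D c ≤ 2 * R)
    (hDbc' : -(2 * R) ≤ D b' - D c' ∧ D b' - D c' ≤ 2 * R)
    {i : ℤ} (hi : 0 ≤ i) (hi' : i ≤ M - 1) :
    |th D i (mcod M D a b c i) - th D i (mcod M D a b' c' i)| ≤ 3 * R := by
  have hcM : c = M → D c = 0 := by rintro rfl; exact h1
  have hcM' : c' = M → D c' = 0 := by rintro rfl; exact h1
  have hib : i = b → D i = D b := by rintro rfl; rfl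
  have hic : i = c → D i = D c := by rintro rfl; rfl
  have hib' : i = b' → D i = D b' := by rintro rfl; rfl
  have hic' : i = c' → D i = D c' := by rintro rfl; rfl
  rw [th_in hi hi', th_in hi hi', abs_le]
  split_ifs <;> constructor <;> omega

private theorem dstep {M R : ℤ} {D : ℤ → ℤ} (hR : 1 ≤ R)
    (hD : ∀ i, 0 ≤ i → i < M → |D (i + 1) - D i| ≤ R) {u v : ℤ} (hu : 0 ≤ u) (hv : 0 ≤ v) (hu' : u ≤ M)
    (hv' : v ≤ M) (h : v = u ∨ v = u + 1 ∨ u = v + 1) : -R ≤ D u - D v ∧ D u - D v ≤ R := by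
  rcases h with h | h | h
  · subst h
    constructor <;> omega
  · subst h
    have h2 := abs_le.1 (hD u hu (by omega))
    constructor <;> omega
  · subst h
    exact abs_le.1 (hD v hv (by omega))

private theorem pdiff {M R : ℤ} {D : ℤ → ℤ} {L : ℤ} {E p : ℤ → ℤ} (h : Refi M R D L E p) {x y : ℤ} (hx : 0 ≤ x)
    (hx' : x ≤ L) (hy : 0 ≤ y) (hy' : y ≤ L) (hxy : |x - y| ≤ 1) :
    p y = p x ∨ p y = p x + 1 ∨ p x = p y + 1 := by
  rw [abs_le] at hxy
  rcases (by omega : y = x ∨ y = x + 1 ∨ x = y + 1) with h1 | h1 | h1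
  · subst h1
    exact Or.inl rfl
  · subst h1
    rcases h.pstep x hx (by omega) with h2 | h2 <;> omega
  · subst h1
    rcases h.pstep y hy (by omega) with h2 | h2 <;> omega

theorem mac_valid {M R : ℤ} {D : ℤ → ℤ} {L : ℤ} {E p : ℤ → ℤ} (hM : 1 ≤ M) (hR : 1 ≤ R) (h0 : D 0 = 0) (h1 : D M = 0)
    (h : Refi M R D L E p) {z k l : ℤ} (hz : 0 ≤ z) (hk : z ≤ k) (hl : k ≤ l) (hL : l ≤ L) (hEz : E z = 0) (hE : E k = E l) :
    VCode M R D 3 (2 * R) (mcod M D (p z) (p k) (p l)) := by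
  obtain ⟨a1, a2, a3⟩ := refi_mono h hz hk (by omega)
  obtain ⟨b1, b2, b3⟩ := refi_mono h (by omega : 0 ≤ k) hl hL
  have c1 := refi_close h hz (by omega)
  have c2 := refi_close h (by omega : 0 ≤ k) (by omega)
  have c3 := refi_close h (by omega : 0 ≤ l) hL
  refine valid_abs hM hR h0 h1 a1 a2 b2 b3 ?_ ?_
  · constructor <;> omega
  · constructor <;> omega

theorem mac_close {M R : ℤ} {D : ℤ → ℤ} {L : ℤ} {E p : ℤ → ℤ} (hM : 1 ≤ M) (hR : 1 ≤ R) (h0 : D 0 = 0) (h1 : D M = 0)
    (hD : ∀ i, 0 ≤ i → i < M → |D (i + 1) - D i| ≤ R)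
    (h : Refi M R D L E p) {z k l k' l' : ℤ} (hz : 0 ≤ z) (hEz : E z = 0) (hk : z ≤ k) (hl : k ≤ l) (hL : l ≤ L) (hE : E k = E l)
    (hk' : z ≤ k') (hl' : k' ≤ l') (hL' : l' ≤ L) (hE' : E k' = E l') (hkk : |k - k'| ≤ 1) (hll : |l - l'| ≤ 1)
    (i : ℤ) (hi : 0 ≤ i) (hi' : i ≤ M - 1) :
    |th D i (mcod M D (p z) (p k) (p l) i) - th D i (mcod M D (p z) (p k') (p l') i)| ≤ 3 * R := by
  obtain ⟨a1, a2, a3⟩ := refi_mono h hz hk (by omega)
  obtain ⟨b1, b2, b3⟩ := refi_mono h (by omega : 0 ≤ k) hl hL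
  obtain ⟨a1', a2', a3'⟩ := refi_mono h hz hk' (by omega)
  obtain ⟨b1', b2', b3'⟩ := refi_mono h (by omega : 0 ≤ k') hl' hL'
  have c2 := refi_close h (by omega : 0 ≤ k) (by omega)
  have c3 := refi_close h (by omega : 0 ≤ l) hL
  have c2' := refi_close h (by omega : 0 ≤ k') (by omega)
  have c3' := refi_close h (by omega : 0 ≤ l') hL'
  have d1 := pdiff h (by omega : 0 ≤ k) (by omega) (by omega : 0 ≤ k') (by omega) hkk
  have d2 := pdiff h (by omega : 0 ≤ l) (by omega) (by omega : 0 ≤ l') (by omega) hll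
  refine close_abs hR h1 a1 a2 b2 b3 a2' b2' b3' d1 d2 ?_ ?_ ?_ ?_ hi hi'
  · exact dstep hR hD (by omega) (by omega) (by omega) (by omega) d1
  · exact dstep hR hD (by omega) (by omega) (by omega) (by omega) d2
  · constructor <;> omega
  · constructor <;> omega

theorem mac_end {M R : ℤ} {D : ℤ → ℤ} {L : ℤ} {E p : ℤ → ℤ} (hM : 1 ≤ M) (hR : 1 ≤ R) (h0 : D 0 = 0) (h1 : D M = 0)
    (h : Refi M R D L E p) {z z' : ℤ} (hz : 0 ≤ z) (hzz : z ≤ z') (hL : z' ≤ L) (hE : E z = 0) (hE' : E z' = 0)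
    (i : ℤ) (hi : 0 ≤ i) (hi' : i ≤ M - 1) :
    |th D i (mcod M D (p z) (p z) (p z') i) - th D i (mcod M D (p z') (p z') (p z') i)| ≤ 3 * R := by
  obtain ⟨a1, a2, a3⟩ := refi_mono h hz hzz hL
  have c1 := refi_close h hz (by omega)
  rw [th_in hi hi', th_in hi hi', abs_le]
  split_ifs <;> constructor <;> omega

end

end Pool.Agent.H40.WM
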