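import Mathlib
import Pool.Agent.H40.WM.KDefs

/-!
# KMt: mountain climbing by the handshake lemma

Vertices: the pairs `(k,l)` with `z ≤ k ≤ l ≤ z'`, `E k = E l` (a finite set).  Edges: `(k,l) - (k',l')` with `|k-k'| = |l-l'| = 1`, except that
there is no edge between two diagonal vertices.  Degrees of non diagonal vertices `k < l`:
* `E k = E l` and steps `±1` imply `l - k` even, so `l ≥ k + 2` and all four candidates `(k±1,l±1)` satisfy `k' ≤ l'`.
* if `k = z` then `E l = 0`, so `l = z'` (positivity inside); if `l = z'` then `k = z`.  The vertex `(z,z')` has exactly one neighbour,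
  `(z+1,z'-1)` (both heights are `1` because `E > 0` inside; if `z' = z + 2` this neighbour is diagonal; `z' - z` is even and positive).
* if `z < k < l < z'`: let `a` be the number of the `k±1` with `E = E k + 1` and `b` the number of the `l±1` with `E = E l + 1`; the degree is
  `a b + (2-a)(2-b)`, which is even (`a,b ∈ {0,1,2}`: `2(2-b)`, `2`, `2b`).
Suppose no diagonal vertex is in the connected component of `(z,z')`.  Then in the component (a finite graph) exactly one vertex has odd
degree: contradiction to the handshake lemma (Mathlib: `SimpleGraph.even_card_odd_degree_vertices`, applied to the induced graph on the component,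
or `SimpleGraph.sum_degrees_eq_twice_card_edges`; or do a direct double counting over the finite component `C`: the number of the pairs
`(v,w) ∈ C × C` with `v ~ w` is even since `(v,w) ↦ (w,v)` is an involution without fixed points (`Finset.card_involution`-type lemma), and it
is the sum of the degrees).
So `(z,z')` is connected to some `(k0,k0)`; the relation `Climb` is symmetric, so the path can be reversed.
-/

set_option autoImplicit false

namespace Pool.Agent.H40.WM

open Pool.Agent.H40.SQ

noncomputable section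

private theorem climb_symm {E : ℤ → ℤ} {z z' : ℤ} {a b : ℤ × ℤ} (h : Climb E z z' a b) :
    Climb E z z' b a := by
  obtain ⟨h1, h2, h3, h4, h5, h6, h7, h8, h9, h10⟩ := h
  exact ⟨h5, h6, h7, h8, h1, h2, h3, h4, by rw [abs_sub_comm]; exact h9,
    by rw [abs_sub_comm]; exact h10⟩

private def sgb (b : Bool) : ℤ := if b = true then 1 else -1

private theorem sgb_inj {a b : Bool} (h : sgb a = sgb b) : a = b := by
  cases a <;> cases b <;> simp [sgb] at h ⊢

private theorem sgb_cases (b : Bool) : sgb b = 1 ∨ sgb b = -1 := by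
  cases b <;> simp [sgb]

private theorem exists_sgb {x : ℤ} (h : |x| = 1) : ∃ b, sgb b = x := by
  rcases (abs_eq (by norm_num : (0 : ℤ) ≤ 1)).1 h with h | h
  · exact ⟨true, by simp [sgb, h]⟩
  · exact ⟨false, by simp [sgb, h]⟩

private theorem par {E : ℤ → ℤ} {z z' : ℤ}
    (hstep : ∀ x, z ≤ x → x < z' → E (x + 1) = E x + 1 ∨ E (x + 1) = E x - 1) (k : ℤ)
    (hk : z ≤ k) (n : ℕ) : k + n ≤ z' → (E (k + n) - E k - n) % 2 = 0 := by
  induction n with
  | zero => intro _; simp
  | succ n ih =>
    intro hn
    push_cast at hn ⊢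
    have h1 := ih (by omega)
    rw [← add_assoc]
    rcases hstep (k + n) (by omega) (by omega) with h2 | h2 <;> rw [h2] <;> omega

private theorem even_deg : ∀ f g : Bool → Bool,
    Even ((Finset.univ : Finset (Bool × Bool)).filter (fun p => f p.1 = g p.2)).card := by
  decide

theorem climb (E : ℤ → ℤ) (z z' : ℤ) (hz : z < z')
    (hstep : ∀ x, z ≤ x → x < z' → E (x + 1) = E x + 1 ∨ E (x + 1) = E x - 1)
    (h0 : E z = 0) (h1 : E z' = 0) (hpos : ∀ x, z < x → x < z' → 0 < E x) :
    ∃ k0, z ≤ k0 ∧ k0 ≤ z' ∧ Relation.ReflTransGen (Climb E z z') (k0, k0) (z, z') := by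
  classical
  have hsym : ∀ {a b : ℤ × ℤ}, Relation.ReflTransGen (Climb E z z') a b →
      Relation.ReflTransGen (Climb E z z') b a := by
    intro a b h
    induction h with
    | refl => exact Relation.ReflTransGen.refl
    | tail _ h2 ih => exact Relation.ReflTransGen.head (climb_symm h2) ih
  by_contra hcon
  push Not at hcon
  have hV : ∀ v : ℤ × ℤ, Relation.ReflTransGen (Climb E z z') (z, z') v →
      z ≤ v.1 ∧ v.1 ≤ v.2 ∧ v.2 ≤ z' ∧ E v.1 = E v.2 := by
    intro v hv
    rcases Relation.ReflTransGen.cases_tail hv with h | ⟨c, _, h⟩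
    · rw [h]
      exact ⟨le_refl _, hz.le, le_refl _, h0.trans h1.symm⟩
    · exact ⟨h.2.2.2.2.1, h.2.2.2.2.2.1, h.2.2.2.2.2.2.1, h.2.2.2.2.2.2.2.1⟩
  have hnd : ∀ v : ℤ × ℤ, Relation.ReflTransGen (Climb E z z') (z, z') v → v.1 + 2 ≤ v.2 := by
    intro v hv
    obtain ⟨a1, a2, a3, a4⟩ := hV v hv
    have a5 : v.1 ≠ v.2 := by
      intro h
      refine hcon v.1 a1 (by omega) ?_
      have h2 : v = (v.1, v.1) := Prod.ext rfl h.symm
      rw [← h2]
      exact hsym hv
    have a6 := par hstep v.1 a1 (v.2 - v.1).toNat (by omega)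
    have a7 : v.1 + ((v.2 - v.1).toNat : ℤ) = v.2 := by omega
    rw [a7, a4] at a6
    omega
  have hfin : Finite {v : ℤ × ℤ // Relation.ReflTransGen (Climb E z z') (z, z') v} := by
    refine Set.Finite.subset (s := (Set.Icc z z') ×ˢ (Set.Icc z z'))
      ((Set.finite_Icc z z').prod (Set.finite_Icc z z')) ?_
    intro v hv
    obtain ⟨a1, a2, a3, a4⟩ := hV v hv
    exact ⟨⟨a1, a2.trans a3⟩, ⟨a1.trans a2, a3⟩⟩
  have : Fintype {v : ℤ × ℤ // Relation.ReflTransGen (Climb E z z') (z, z') v} :=
    Fintype.ofFinite _
  let G : SimpleGraph {v : ℤ × ℤ // Relation.ReflTransGen (Climb E z z') (z, z') v} :=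
    { Adj := fun a b => Climb E z z' a.1 b.1
      symm := ⟨fun _ _ h => climb_symm h⟩
      loopless := ⟨fun a h => by
        have := h.2.2.2.2.2.2.2.2.1
        simp at this⟩ }
  let v₀ : {v : ℤ × ℤ // Relation.ReflTransGen (Climb E z z') (z, z') v} :=
    ⟨(z, z'), Relation.ReflTransGen.refl⟩
  have hz2 : z + 2 ≤ z' := hnd (z, z') Relation.ReflTransGen.refl
  have e1 : E (z + 1) = 1 := by
    have a1 := hpos (z + 1) (by omega) (by omega)
    rcases hstep z (le_refl _) (by omega) with a2 | a2 <;> omega
  have e2 : E (z' - 1) = 1 := by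
    have a1 := hpos (z' - 1) (by omega) (by omega)
    have a2 := hstep (z' - 1) (by omega) (by omega)
    rw [sub_add_cancel] at a2
    rcases a2 with a2 | a2 <;> omega
  have hc0 : Climb E z z' (z, z') (z + 1, z' - 1) :=
    ⟨le_refl _, hz.le, le_refl _, h0.trans h1.symm, by simp, by simp; omega, by simp,
      e1.trans e2.symm, by simp, by simp⟩
  have hdeg0 : G.degree v₀ = 1 := by
    rw [SimpleGraph.degree, Finset.card_eq_one]
    refine ⟨⟨(z + 1, z' - 1), Relation.ReflTransGen.single hc0⟩, ?_⟩
    ext w
    rw [SimpleGraph.mem_neighborFinset, Finset.mem_singleton]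
    constructor
    · intro hw
      obtain ⟨b1, b2, b3, b4, b5, b6, b7, b8, b9, b10⟩ := hw
      apply Subtype.ext
      change z ≤ w.1.1 at b5
      change w.1.2 ≤ z' at b7
      change |z - w.1.1| = 1 at b9
      change |z' - w.1.2| = 1 at b10
      refine Prod.ext ?_ ?_
      · show w.1.1 = z + 1
        rcases (abs_eq (by norm_num : (0 : ℤ) ≤ 1)).1 b9 with c | c <;> omega
      · show w.1.2 = z' - 1
        rcases (abs_eq (by norm_num : (0 : ℤ) ≤ 1)).1 b10 with c | c <;> omega
    · intro hw
      rw [hw]
      exact hc0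
  obtain ⟨w, hw, hodd⟩ := G.exists_ne_odd_degree_of_exists_odd_degree v₀ (by rw [hdeg0]; exact odd_one)
  obtain ⟨⟨k, l⟩, hkl⟩ := w
  obtain ⟨a1, a2, a3, a4⟩ := hV _ hkl
  have a5 := hnd _ hkl
  simp only at a1 a2 a3 a4 a5
  have hk : z < k := by
    rcases a1.lt_or_eq with h | h
    · exact h
    · exfalso
      subst h
      have h2 : l = z' := by
        by_contra h3
        have := hpos l (by omega) (by omega)
        omega
      subst h2
      exact hw rfl
  have hl : l < z' := by
    rcases a3.lt_or_eq with h | h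
    · exact h
    · exfalso
      subst h
      have := hpos k hk (by omega)
      omega
  have sk : ∀ b, E (k + sgb b) = E k + 1 ∨ E (k + sgb b) = E k - 1 := by
    intro b
    rcases sgb_cases b with h | h <;> rw [h]
    · exact hstep k (by omega) (by omega)
    · have := hstep (k - 1) (by omega) (by omega)
      rw [sub_add_cancel] at this
      rw [← sub_eq_add_neg]
      rcases this with h | h <;> omega
  have sl : ∀ b, E (l + sgb b) = E l + 1 ∨ E (l + sgb b) = E l - 1 := by
    intro b
    rcases sgb_cases b with h | h <;> rw [h]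
    · exact hstep l (by omega) (by omega)
    · have := hstep (l - 1) (by omega) (by omega)
      rw [sub_add_cancel] at this
      rw [← sub_eq_add_neg]
      rcases this with h | h <;> omega
  have hiff : ∀ b c, (decide (E (k + sgb b) = E k + 1) = decide (E (l + sgb c) = E l + 1)) ↔
      E (k + sgb b) = E (l + sgb c) := by
    intro b c
    rcases sk b with h | h <;> rcases sl c with h' | h' <;> rw [h, h'] <;> simp <;> omega
  have hcl : ∀ b c, E (k + sgb b) = E (l + sgb c) →
      Climb E z z' (k, l) (k + sgb b, l + sgb c) := by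
    intro b c h
    have b1 := sgb_cases b
    have b2 := sgb_cases c
    refine ⟨a1, a2, a3, a4, ?_, ?_, ?_, h, ?_, ?_⟩
    · simp only
      omega
    · simp only
      omega
    · simp only
      omega
    · simp only
      rcases b1 with b1 | b1 <;> rw [b1] <;> simp
    · simp only
      rcases b2 with b2 | b2 <;> rw [b2] <;> simp
  have hev : Even (G.degree ⟨(k, l), hkl⟩) := by
    have h2 := even_deg (fun b => decide (E (k + sgb b) = E k + 1))
      (fun c => decide (E (l + sgb c) = E l + 1))
    have h3 : (Finset.filter (fun p : Bool × Bool =>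
        (fun b => decide (E (k + sgb b) = E k + 1)) p.1 =
          (fun c => decide (E (l + sgb c) = E l + 1)) p.2) Finset.univ).card =
        (G.neighborFinset ⟨(k, l), hkl⟩).card := by
      refine Finset.card_bij (fun p hp => ⟨(k + sgb p.1, l + sgb p.2),
        hkl.tail (hcl p.1 p.2 ((hiff p.1 p.2).1 (Finset.mem_filter.1 hp).2))⟩) ?_ ?_ ?_
      · intro p hp
        rw [SimpleGraph.mem_neighborFinset]
        exact hcl p.1 p.2 ((hiff p.1 p.2).1 (Finset.mem_filter.1 hp).2)
      · intro p hp p' hp' h
        have h4 := congrArg Subtype.val h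
        simp only [Prod.mk.injEq, add_right_inj] at h4
        exact Prod.ext (sgb_inj h4.1) (sgb_inj h4.2)
      · intro w hw
        rw [SimpleGraph.mem_neighborFinset] at hw
        obtain ⟨b1, b2, b3, b4, b5, b6, b7, b8, b9, b10⟩ := hw
        change |k - w.1.1| = 1 at b9
        change |l - w.1.2| = 1 at b10
        rw [abs_sub_comm] at b9 b10
        obtain ⟨b, hb⟩ := exists_sgb b9
        obtain ⟨c, hc⟩ := exists_sgb b10
        have e3 : k + sgb b = w.1.1 := by omega
        have e4 : l + sgb c = w.1.2 := by omega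
        refine ⟨(b, c), ?_, ?_⟩
        · rw [Finset.mem_filter]
          refine ⟨Finset.mem_univ _, (hiff b c).2 ?_⟩
          rw [e3, e4]
          exact b8
        · apply Subtype.ext
          exact Prod.ext e3 e4
    rw [SimpleGraph.degree, ← h3]
    exact h2
  exact (Nat.not_even_iff_odd.2 hodd) hev

end

end Pool.Agent.H40.WM
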