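import Mathlib
import Pool.Agent.H40.WM.KDefs

/-!
# KRef: refinement of an integer sequence to a `±1` walk

Induction on `M` (write `M = m : ℕ`).  `M = 0`: `L = 0`, `E = 0`, `p = 0` (`D 0 = 0`).  Step from `m` to `m+1`: extend the walk from `E L = 2 D m` to
`2 D (m+1)`:
* if `D (m+1) ≠ D m`: `|2 D (m+1) - 2 D m|` monotone steps, `p = m` during these steps except at the last point, where `p = m+1`; between, `E` lies
  between `2 D m` and `2 D (m+1)`, so `|E - 2 D m| ≤ 2 R`.
* if they are equal: one step up and one step down, `p = m` at the middle point, `p = m+1` at the last; `|E - 2 D m| ≤ 1 ≤ 2R`.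
-/

set_option autoImplicit false

namespace Pool.Agent.H40.WM

open Pool.Agent.H40.SQ

noncomputable section

/-- A walk up to the position `m` with the last value `v`. -/
private def Pre (R : ℤ) (D : ℤ → ℤ) (m v : ℤ) : Prop :=
  ∃ (L : ℤ) (E p : ℤ → ℤ), 0 ≤ L ∧ E 0 = 0 ∧ E L = v ∧
    (∀ x, 0 ≤ x → x < L → E (x + 1) = E x + 1 ∨ E (x + 1) = E x - 1) ∧ p 0 = 0 ∧ p L = m ∧
    (∀ x, 0 ≤ x → x < L → p (x + 1) = p x ∨ p (x + 1) = p x + 1) ∧
    (∀ x, 0 ≤ x → x ≤ L → |E x - 2 * D (p x)| ≤ 2 * R)

private theorem Pre.app {R : ℤ} {D : ℤ → ℤ} {m v m' v' : ℤ} (h : Pre R D m v)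
    (hv : v' = v + 1 ∨ v' = v - 1) (hm : m' = m ∨ m' = m + 1) (hc : |v' - 2 * D m'| ≤ 2 * R) :
    Pre R D m' v' := by
  obtain ⟨L, E, p, hL, e0, eL, es, p0, pL, ps, cl⟩ := h
  refine ⟨L + 1, fun x => if x ≤ L then E x else v', fun x => if x ≤ L then p x else m', by omega,
    ?_, ?_, ?_, ?_, ?_, ?_, ?_⟩
  · simp only [if_pos hL, e0]
  · exact if_neg (by omega)
  · intro x h1 h2
    by_cases h3 : x < L
    · simp only [if_pos h3.le, if_pos (show x + 1 ≤ L by omega)]
      exact es x h1 h3
    · have h4 : x = L := by omega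
      subst h4
      simp only [le_refl, if_true, if_neg (show ¬ x + 1 ≤ x by omega), eL]
      exact hv
  · simp only [if_pos hL, p0]
  · exact if_neg (by omega)
  · intro x h1 h2
    by_cases h3 : x < L
    · simp only [if_pos h3.le, if_pos (show x + 1 ≤ L by omega)]
      exact ps x h1 h3
    · have h4 : x = L := by omega
      subst h4
      simp only [le_refl, if_true, if_neg (show ¬ x + 1 ≤ x by omega), pL]
      exact hm
  · intro x h1 h2
    by_cases h3 : x ≤ L
    · simp only [if_pos h3]
      exact cl x h1 h3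
    · simp only [if_neg h3]
      exact hc

private theorem Pre.up {R : ℤ} {D : ℤ → ℤ} {m : ℤ} (h : Pre R D m (2 * D m)) (j : ℕ)
    (hj : (j : ℤ) ≤ 2 * R) : Pre R D m (2 * D m + j) := by
  induction j with
  | zero => simpa using h
  | succ j ih =>
    push_cast at hj
    refine (ih (by omega)).app (m' := m) (Or.inl ?_) (Or.inl rfl) ?_
    · push_cast
      ring
    · push_cast
      rw [abs_le]
      constructor <;> omega

private theorem Pre.down {R : ℤ} {D : ℤ → ℤ} {m : ℤ} (h : Pre R D m (2 * D m)) (j : ℕ)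
    (hj : (j : ℤ) ≤ 2 * R) : Pre R D m (2 * D m - j) := by
  induction j with
  | zero => simpa using h
  | succ j ih =>
    push_cast at hj
    refine (ih (by omega)).app (m' := m) (Or.inr ?_) (Or.inl rfl) ?_
    · push_cast
      ring
    · push_cast
      rw [abs_le]
      constructor <;> omega

theorem exists_refi (M R : ℤ) (hM : 0 ≤ M) (hR : 1 ≤ R) (D : ℤ → ℤ) (h0 : D 0 = 0)
    (hD : ∀ i, 0 ≤ i → i < M → |D (i + 1) - D i| ≤ R) :
    ∃ (L : ℤ) (E p : ℤ → ℤ), Refi M R D L E p := by
  have key : ∀ m : ℕ, (m : ℤ) ≤ M → Pre R D m (2 * D m) := by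
    intro m
    induction m with
    | zero =>
      intro _
      refine ⟨0, fun _ => 0, fun _ => 0, le_refl _, rfl, ?_, ?_, rfl, rfl, ?_, ?_⟩
      · simp [h0]
      · intro x h1 h2
        omega
      · intro x h1 h2
        omega
      · intro x h1 h2
        simp only [h0]
        norm_num
        omega
    | succ m ih =>
      intro hm
      push_cast at hm ⊢
      have h1 := ih (by omega)
      have h2 := hD m (by omega) (by omega)
      rw [abs_le] at h2
      rcases lt_trichotomy (D (m + 1)) (D m) with h3 | h3 | h3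
      · have h4 := h1.down (2 * (D m - D (m + 1)) - 1).toNat (by omega)
        refine h4.app (Or.inr ?_) (Or.inr rfl) ?_
        · omega
        · rw [abs_le]
          constructor <;> omega
      · have h4 := h1.up 1 (by push_cast; omega)
        refine h4.app (Or.inr ?_) (Or.inr rfl) ?_
        · rw [h3]
          push_cast
          ring
        · rw [abs_le]
          constructor <;> omega
      · have h4 := h1.up (2 * (D (m + 1) - D m) - 1).toNat (by omega)
        refine h4.app (Or.inl ?_) (Or.inr rfl) ?_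
        · omega
        · rw [abs_le]
          constructor <;> omega
  have hMn : ((M.toNat : ℕ) : ℤ) = M := Int.toNat_of_nonneg hM
  have h1 := key M.toNat (by omega)
  rw [hMn] at h1
  obtain ⟨L, E, p, hL, e0, eL, es, p0, pL, ps, cl⟩ := h1
  exact ⟨L, E, p, hL, e0, eL, es, p0, pL, ps, cl⟩

end

end Pool.Agent.H40.WM
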