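import Mathlib
import Pool.Agent.H40.WM.KMt
import Pool.Agent.H40.WM.KRef
import Pool.Agent.H40.WM.KMac
import Pool.Agent.H40.WM.KHyb

/-!
# KSeq: all codes from `X` to `Y`

Take a refinement (`exists_refi`).  For a zero `z ∈ [0,L]` of `E` let `Z z = mcod M D (p z) (p z) (p z)` (`(1,0)` on the blocks `< p z`, `(0,0)` after);
`Z 0 = fun _ => (false,0)` and `Z L = fun _ => (true,0)` (as functions: `max 0 (min i (M-1)) ≥ 0 = p 0` and `< M = p L`).
Claim: `Z z` is connected with `Z z'` when `z < z'` are consecutive zeros; then induction over the zeros (strong induction on `L - z`).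
Proof of the claim: `E` has constant sign on `(z,z')` (steps `±1`); apply `climb` to `E` or `-E`: a path of states from `(k0,k0)` to `(z,z')`.  For each step
of `Climb` (for `-E` the relation is the same as for `E`: `E a = E b ↔ -E a = -E b`) `mac_valid`, `mac_close`, `hyb_connect` connect
`mcod M D (p z) (p k) (p l)` with `mcod M D (p z) (p k') (p l')`.  `mcod M D (p z) (p k0) (p k0) = Z z` as functions.  At the end
`mac_end` and `hyb_connect` connect `mcod M D (p z) (p z) (p z')` with `Z z'`.
-/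

set_option autoImplicit false

namespace Pool.Agent.H40.WM

open Pool.Agent.H40.SQ

noncomputable section

private theorem seg_climb {M R : ℤ} {D : ℤ → ℤ} {L : ℤ} {E p : ℤ → ℤ} (hM : 1 ≤ M) (hR : 1 ≤ R) (h0 : D 0 = 0)
    (h1 : D M = 0) (hD : ∀ i, 0 ≤ i → i < M → |D (i + 1) - D i| ≤ R) (hr : Refi M R D L E p) {z z' : ℤ}
    (hz : 0 ≤ z) (hL : z' ≤ L) (hE : E z = 0) {F : ℤ → ℤ} (hF : ∀ x y, F x = F y → E x = E y) {a b : ℤ × ℤ}
    (h : Relation.ReflTransGen (Climb F z z') a b) :
    Relation.ReflTransGen (CStep M R D) (mcod M D (p z) (p a.1) (p a.2)) (mcod M D (p z) (p b.1) (p b.2)) := by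
  induction h with
  | refl => exact Relation.ReflTransGen.refl
  | @tail u v _ hs ih =>
    obtain ⟨s1, s2, s3, s4, s5, s6, s7, s8, s9, s10⟩ := hs
    refine ih.trans (hyb_connect hM hR
      (mac_valid hM hR h0 h1 hr hz s1 s2 (by omega) hE (hF _ _ s4))
      (mac_valid hM hR h0 h1 hr hz s5 s6 (by omega) hE (hF _ _ s8)) ?_)
    intro i hi hi'
    have h9 : |v.1 - u.1| ≤ 1 := by rw [abs_sub_comm]; omega
    have h10 : |v.2 - u.2| ≤ 1 := by rw [abs_sub_comm]; omega
    exact mac_close hM hR h0 h1 hD hr hz hE s5 s6 (by omega) (hF _ _ s8) s1 s2 (by omega) (hF _ _ s4)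
      h9 h10 i hi hi'

private theorem seg {M R : ℤ} {D : ℤ → ℤ} {L : ℤ} {E p : ℤ → ℤ} (hM : 1 ≤ M) (hR : 1 ≤ R) (h0 : D 0 = 0)
    (h1 : D M = 0) (hD : ∀ i, 0 ≤ i → i < M → |D (i + 1) - D i| ≤ R) (hr : Refi M R D L E p) {z z' : ℤ}
    (hz : 0 ≤ z) (hzz : z < z') (hL : z' ≤ L) (hE : E z = 0) (hE' : E z' = 0)
    (hne : ∀ x, z < x → x < z' → E x ≠ 0) :
    Relation.ReflTransGen (CStep M R D) (mcod M D (p z) (p z) (p z)) (mcod M D (p z') (p z') (p z')) := by
  -- a function with the same level sets, positive inside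
  have hF : ∃ F : ℤ → ℤ, (∀ x y, F x = F y → E x = E y) ∧
      (∀ x, z ≤ x → x < z' → F (x + 1) = F x + 1 ∨ F (x + 1) = F x - 1) ∧ F z = 0 ∧ F z' = 0 ∧
      (∀ x, z < x → x < z' → 0 < F x) := by
    have hs := hr.step z hz (by omega)
    rw [hE] at hs
    rcases hs with hs | hs
    · refine ⟨E, fun _ _ h => h, fun x hx hx' => hr.step x (by omega) (by omega), hE, hE', ?_⟩
      intro x hx
      induction x, (by omega : z + 1 ≤ x) using Int.le_induction with
      | base => intro _; omega
      | succ x hx2 ih =>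
        intro hx'
        have k1 := ih (by omega) (by omega)
        have k2 := hne (x + 1) (by omega) hx'
        rcases hr.step x (by omega) (by omega) with k3 | k3 <;> omega
    · refine ⟨fun x => - E x, fun _ _ h => by simpa using h, ?_, by simpa using hE, by simpa using hE', ?_⟩
      · intro x hx hx'
        show - E (x + 1) = - E x + 1 ∨ - E (x + 1) = - E x - 1
        rcases hr.step x (by omega) (by omega) with k3 | k3 <;> omega
      intro x hx
      show x < z' → 0 < - E x
      induction x, (by omega : z + 1 ≤ x) using Int.le_induction with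
      | base => intro _; omega
      | succ x hx2 ih =>
        intro hx'
        have k1 := ih (by omega) (by omega)
        have k2 := hne (x + 1) (by omega) hx'
        rcases hr.step x (by omega) (by omega) with k3 | k3 <;> omega
  obtain ⟨F, f1, f2, f3, f4, f5⟩ := hF
  obtain ⟨k0, -, -, hk⟩ := climb F z z' hzz f2 f3 f4 f5
  have h2 := seg_climb hM hR h0 h1 hD hr hz hL hE f1 hk
  have h3 : mcod M D (p z) (p k0) (p k0) = mcod M D (p z) (p z) (p z) := by
    funext i
    unfold mcod
    split_ifs <;> rfl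
  simp only at h2
  rw [h3] at h2
  refine h2.trans (hyb_connect hM hR
    (mac_valid hM hR h0 h1 hr hz le_rfl hzz.le hL hE (by rw [hE, hE']))
    (mac_valid hM hR h0 h1 hr (by omega) le_rfl le_rfl hL hE' rfl) ?_)
  intro i hi hi'
  rw [abs_sub_comm]
  exact mac_end hM hR h0 h1 hr hz hzz.le hL hE hE' i hi hi'

theorem codes_connected (M R : ℤ) (hM : 1 ≤ M) (hR : 1 ≤ R) (D : ℤ → ℤ) (h0 : D 0 = 0) (h1 : D M = 0)
    (hD : ∀ i, 0 ≤ i → i < M → |D (i + 1) - D i| ≤ R) :
    Relation.ReflTransGen (CStep M R D) (fun _ => (false, 0)) (fun _ => (true, 0)) := by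
  obtain ⟨L, E, p, hr⟩ := exists_refi M R (by omega) hR D h0 hD
  have hEL : E L = 0 := by rw [hr.EL, h1, mul_zero]
  have key : ∀ n : ℕ, ∀ z, 0 ≤ z → z ≤ L → E z = 0 → (L - z).toNat = n →
      Relation.ReflTransGen (CStep M R D) (mcod M D (p z) (p z) (p z)) (mcod M D (p L) (p L) (p L)) := by
    intro n
    induction n using Nat.strong_induction_on with
    | _ n ih =>
      intro z hz hzL hE hn
      rcases eq_or_lt_of_le hzL with h2 | h2
      · subst h2
        exact Relation.ReflTransGen.refl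
      · have hex : ∃ m : ℕ, z + 1 + m ≤ L ∧ E (z + 1 + m) = 0 := by
          refine ⟨(L - z - 1).toNat, by omega, ?_⟩
          have e : z + 1 + ((L - z - 1).toNat : ℤ) = L := by omega
          rw [e]
          exact hEL
        obtain ⟨m, ⟨m1, m2⟩, m3⟩ : ∃ m : ℕ, (z + 1 + m ≤ L ∧ E (z + 1 + m) = 0) ∧
            ∀ m' : ℕ, m' < m → ¬ (z + 1 + m' ≤ L ∧ E (z + 1 + m') = 0) := by
          classical
          exact ⟨Nat.find hex, Nat.find_spec hex, fun m' h => Nat.find_min hex h⟩
        refine (seg hM hR h0 h1 hD hr hz (by omega) m1 hE m2 ?_).trans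
          (ih _ ?_ (z + 1 + m) (by omega) m1 m2 rfl)
        · intro x hx hx' hEx
          refine m3 (x - z - 1).toNat (by omega) ⟨by omega, ?_⟩
          have e : z + 1 + ((x - z - 1).toNat : ℤ) = x := by omega
          rw [e]
          exact hEx
        · omega
  have h2 := key _ 0 le_rfl hr.hL hr.E0 rfl
  have e1 : mcod M D (p 0) (p 0) (p 0) = fun _ => (false, 0) := by
    funext i
    rw [hr.p0]
    unfold mcod
    rw [if_neg (by omega), if_neg (by omega), if_neg (by omega)]
  have e2 : mcod M D (p L) (p L) (p L) = fun _ => (true, 0) := by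
    funext i
    rw [hr.pL]
    unfold mcod
    rw [if_pos (by omega)]
  rw [e1, e2] at h2
  exact h2

end

end Pool.Agent.H40.WM
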