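import Mathlib
import Pool.Agent.H40.WM.HDefs
import Pool.Agent.H40.WM.KSeq
import Pool.Agent.H40.WM.ICon
import Pool.Agent.H40.WM.IRis
import Pool.Agent.H40.WM.HBas

/-!
# HChn: codes from the mountain layer

`X, Y` paths from `a` to `b`, `b = vt a n0 0`, not `Bad f t`, `f = ex2`, `t ≥ 1`.  Lines `ℓ_1 < ... < ℓ_{M-1}`: all regular indices of `f` in `[13000 t, n0 - 13000 t]` (possibly none: `M = 1`); `D i = lp Y ℓ_i - lp X ℓ_i` for `1 ≤ i ≤ M-1`, `D i = 0` otherwise.
* `|D (i+1) - D i| ≤ 390 t` for `0 ≤ i < M`: consecutive lines are consecutive regular indices: `≤ Sf f/2 ≤ t` (`cone_two` for `X` and `Y`, `not_bad`); `ℓ_1 ≤ 13128 t` (`reg_window`; if there is any line) so `|D 1| ≤ 2 (ℓ_1 + 1)/100 ≤ 264 t` (`cone_a`); `D (M-1)` similarly (`cone_b`, `lvl a b = 0`).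
* `codes_connected` (`R = 390 t`).  For a block code `c` let `σ k = c (#{i : ℓ_i ≤ k})`.  `Brk σ` = the lines `ℓ_i` with `c (i-1) ≠ c i` (all `ℓ_i ∈ [1, n0-1]`).  `VCode M R D 7 (5R) c → HCode σ`: `left, right, t0, t1` immediate (`#=0` for `k ≤ 0`; `# = M-1` for `k ≥ n0 - 1`); `mis`: `th D i (ξ,τ) + lp X ℓ_i = thl ℓ_i (ξ,τ)`, so the
  mismatch is `≤ 1950 t`; `tb`: let `k` be in the block `i`; `bl`: `|τ| ≤ |D i'| + 780 t`, `i' ≤ i`: `D 0 = 0`, and for `1 ≤ i' ≤ i`: `|D i'| ≤ 2(ℓ_{i'} + 1)/100 ≤ (k+1)/50` since `ℓ_{i'} ≤ ℓ_i ≤ k`; `br` similarly with `n0 - k` (`ℓ_{i'} > k`, `|D i'| ≤ 2 (n0 - ℓ_{i'} + 1)/100`).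
* `CStep → HStp`: the block `r`: `x = ℓ_r` (`-1` if `r = 0`), `y = ℓ_{r+1}` (`n0 + 1` if `r = M-1`); `y - x ≤ 128 t` in the middle, `≤ 13130 t` for the first or last block, and if `M = 1`: `n0 < 26128 t`, `y - x = n0 + 2 ≤ 26400 t`.  The breaks are lines, so none is strictly between `x` and `y`.
Finally map the chain (`Relation.ReflTransGen.lift`); the end codes are the constant ones.
-/

set_option autoImplicit false

namespace Pool.Agent.H40.WM

open Pool.Agent.H40.SQ

noncomputable section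

/-- enumeration of a finite set of integers -/
private theorem hc_enum (L : Finset ℤ) : ∃ (l cnt : ℤ → ℤ), (∀ i : ℤ, 1 ≤ i → i ≤ L.card → l i ∈ L) ∧
    (∀ k : ℤ, 0 ≤ cnt k ∧ cnt k ≤ L.card) ∧
    (∀ i k : ℤ, 1 ≤ i → i ≤ L.card → (l i ≤ k ↔ i ≤ cnt k)) ∧
    (∀ i j : ℤ, 1 ≤ i → i < j → j ≤ L.card → l i < l j) ∧
    (∀ z ∈ L, ∃ i : ℤ, 1 ≤ i ∧ i ≤ L.card ∧ l i = z) := by
  classical
  obtain ⟨e, he⟩ : ∃ e : Fin L.card ↪o ℤ, e = L.orderEmbOfFin rfl := ⟨_, rfl⟩
  have hmem : ∀ j, e j ∈ L := fun j => by rw [he]; exact Finset.orderEmbOfFin_mem L rfl j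
  have hsur : ∀ z ∈ L, ∃ j, e j = z := by
    intro z hz
    have h1 := Finset.range_orderEmbOfFin L rfl
    have h2 : z ∈ Set.range (L.orderEmbOfFin rfl) := by rw [h1]; exact hz
    obtain ⟨j, hj⟩ := h2
    exact ⟨j, by rw [he]; exact hj⟩
  refine ⟨fun i : ℤ => if h : 1 ≤ i ∧ i ≤ (L.card : ℤ) then e ⟨(i - 1).toNat, by omega⟩ else 0,
    fun k : ℤ => ((L.filter (fun z => z ≤ k)).card : ℤ), ?_, ?_, ?_, ?_, ?_⟩
  · intro i h1 h2
    simp only [dif_pos (And.intro h1 h2)]
    exact hmem _
  · intro k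
    have h := Finset.card_le_card (Finset.filter_subset (fun z => z ≤ k) L)
    show (0 : ℤ) ≤ ((L.filter (fun z => z ≤ k)).card : ℤ) ∧ ((L.filter (fun z => z ≤ k)).card : ℤ) ≤ L.card
    omega
  · intro i k h1 h2
    simp only [dif_pos (And.intro h1 h2)]
    constructor
    · intro h3
      have h4 : (Finset.Iic (⟨(i - 1).toNat, by omega⟩ : Fin L.card)).image e ⊆
          L.filter (fun z => z ≤ k) := by
        intro z hz
        rw [Finset.mem_image] at hz
        obtain ⟨j, hj, rfl⟩ := hz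
        rw [Finset.mem_filter]
        exact ⟨hmem j, (e.monotone (Finset.mem_Iic.1 hj)).trans h3⟩
      have h5 := Finset.card_le_card h4
      rw [Finset.card_image_of_injective _ e.injective, Fin.card_Iic] at h5
      have h6 : (((i - 1).toNat : ℕ) : ℤ) = i - 1 := Int.toNat_of_nonneg (by omega)
      simp only at h5
      omega
    · intro h3
      by_contra h4
      push Not at h4
      have h5 : L.filter (fun z => z ≤ k) ⊆
          (Finset.Iio (⟨(i - 1).toNat, by omega⟩ : Fin L.card)).image e := by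
        intro z hz
        rw [Finset.mem_filter] at hz
        obtain ⟨j, rfl⟩ := hsur z hz.1
        rw [Finset.mem_image]
        exact ⟨j, Finset.mem_Iio.2 (e.lt_iff_lt.1 (lt_of_le_of_lt hz.2 h4)), rfl⟩
      have h6 := Finset.card_le_card h5
      rw [Finset.card_image_of_injective _ e.injective, Fin.card_Iio] at h6
      have h7 : (((i - 1).toNat : ℕ) : ℤ) = i - 1 := Int.toNat_of_nonneg (by omega)
      simp only at h6
      omega
  · intro i j h1 h2 h3
    simp only [dif_pos (And.intro h1 (by omega : i ≤ (L.card : ℤ))), dif_pos (And.intro (by omega : (1 : ℤ) ≤ j) h3)]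
    refine e.lt_iff_lt.2 ?_
    rw [Fin.lt_def]
    simp only
    omega
  · intro z hz
    obtain ⟨j, rfl⟩ := hsur z hz
    have h1 := j.2
    refine ⟨(j : ℤ) + 1, by omega, by omega, ?_⟩
    have h2 : (1 : ℤ) ≤ (j : ℤ) + 1 ∧ (j : ℤ) + 1 ≤ L.card := by omega
    simp only [dif_pos h2]
    congr 1
    apply Fin.ext
    simp

private theorem hc_pb {X Y : Finset Edge} (a b : ℤ × ℤ) (k : ℤ) (D : ℤ → ℤ) (i : ℤ)
    (h : D i = lp a b Y k - lp a b X k) (c : Bool × ℤ) :
    thl a b X Y k c = lp a b X k + th D i c := by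
  unfold thl th Pb
  cases c.1
  · simp
  · simp only [if_true]
    rw [h]
    ring

theorem codes_chain {n : ℕ} {a b : ℤ × ℤ} {n0 : ℕ} {D : Finset Edge} (hD : Dom n a b n0 D) {X Y : Finset Edge} (hX : X ∈ PD D a b) (hY : Y ∈ PD D a b)
    {t : ℕ} (ht : 1 ≤ t) (hb : ¬ Bad (ex2 (uu a) X Y) t) :
    Relation.ReflTransGen (HStp a b n0 X Y t) (fun _ => (false, 0)) (fun _ => (true, 0)) := by
  classical
  obtain ⟨hXD, hXP⟩ := mem_PD.1 hX
  obtain ⟨hYD, hYP⟩ := mem_PD.1 hY
  have ht' : (1 : ℤ) ≤ (t : ℤ) := by exact_mod_cast ht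
  have hn0 := hD.pos
  have hub : uu b = uu a + 2 * n0 := by
    rw [hD.hb]
    unfold uu
    ring
  have hlvl : lvl a b = 0 := by
    have h1 : vv b = vv a := by
      rw [hD.hb]
      unfold vv
      ring
    unfold lvl
    rw [h1, hub]
    omega
  obtain ⟨f, hf⟩ : ∃ f, f = ex2 (uu a) X Y := ⟨_, rfl⟩
  rw [← hf] at hb
  have hfX : ∀ i, ex (uu a) X i ≤ f i := fun i => by rw [hf]; unfold ex2; omega
  have hfY : ∀ i, ex (uu a) Y i ≤ f i := fun i => by rw [hf]; unfold ex2; omega
  have hfs : FSup f := by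
    obtain ⟨N1, h1⟩ := ex_fsup (uu a) X
    obtain ⟨N2, h2⟩ := ex_fsup (uu a) Y
    refine ⟨max N1 N2, fun i hi => ?_⟩
    have h3 := le_max_left N1 N2
    have h4 := le_max_right N1 N2
    rw [hf]
    unfold ex2
    rw [h1 i (by omega), h2 i (by omega)]
  -- the lines
  obtain ⟨L, hL⟩ : ∃ L : Finset ℤ, L = (Finset.Icc (13000 * (t : ℤ)) (n0 - 13000 * (t : ℤ))).filter
      (fun k => Reg f k) := ⟨_, rfl⟩
  have hLm : ∀ k, k ∈ L ↔ Reg f k ∧ 13000 * (t : ℤ) ≤ k ∧ k ≤ n0 - 13000 * (t : ℤ) := by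
    intro k
    rw [hL, Finset.mem_filter, Finset.mem_Icc]
    tauto
  obtain ⟨l, cnt, hl1, hc1, hlc, hlt, hsur⟩ := hc_enum L
  obtain ⟨M, hM⟩ : ∃ M : ℤ, M = L.card + 1 := ⟨_, rfl⟩
  have hM1 : 1 ≤ M := by omega
  have hlm : ∀ i, 1 ≤ i → i ≤ M - 1 → Reg f (l i) ∧ 13000 * (t : ℤ) ≤ l i ∧
      l i ≤ n0 - 13000 * (t : ℤ) := fun i h1 h2 => (hLm _).1 (hl1 i h1 (by omega))
  have hcM : ∀ k, 0 ≤ cnt k ∧ cnt k ≤ M - 1 := fun k => by have := hc1 k; omega
  have hle : ∀ i k, 1 ≤ i → i ≤ M - 1 → (l i ≤ k ↔ i ≤ cnt k) := fun i k h1 h2 =>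
    hlc i k h1 (by omega)
  have hlt' : ∀ i j, 1 ≤ i → i < j → j ≤ M - 1 → l i < l j := fun i j h1 h2 h3 =>
    hlt i j h1 h2 (by omega)
  have hcl : ∀ i, 1 ≤ i → i ≤ M - 1 → cnt (l i) = i := by
    intro i h1 h2
    have h3 := (hle i (l i) h1 h2).1 le_rfl
    have h4 := hcM (l i)
    by_contra h5
    have h6 := (hle (i + 1) (l i) (by omega) (by omega)).2 (by omega)
    have h7 := hlt' i (i + 1) h1 (by omega) (by omega)
    omega
  -- a change of the block happens at a line
  have hstep : ∀ k, cnt (k - 1) ≠ cnt k → 1 ≤ cnt k ∧ l (cnt k) = k ∧ cnt (k - 1) = cnt k - 1 := by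
    intro k hk
    have h1 := hcM k
    have h2 := hcM (k - 1)
    have h3 : cnt (k - 1) ≤ cnt k := by
      by_contra h
      have h4 := (hle (cnt (k - 1)) (k - 1) (by omega) (by omega)).2 le_rfl
      have h5 := (hle (cnt (k - 1)) k (by omega) (by omega)).1 (by omega)
      omega
    have h4 : 1 ≤ cnt k := by omega
    have h5 := (hle (cnt k) k h4 (by omega)).2 le_rfl
    have h6 : ¬ l (cnt k) ≤ k - 1 := fun h => by
      have := (hle (cnt k) (k - 1) h4 (by omega)).1 h
      omega
    refine ⟨h4, by omega, ?_⟩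
    rcases (by omega : cnt k - 1 = 0 ∨ 1 ≤ cnt k - 1) with h7 | h7
    · omega
    · have h8 := hlt' (cnt k - 1) (cnt k) h7 (by omega) (by omega)
      have h9 := (hle (cnt k - 1) (k - 1) h7 (by omega)).1 (by omega)
      omega
  -- first and last line
  have hfirst : 2 ≤ M → l 1 < 13128 * (t : ℤ) := by
    intro h
    by_contra hno
    obtain ⟨x, h1, h2, h3⟩ := reg_window hfs ht hb (13000 * (t : ℤ))
    have h4 := hlm 1 le_rfl (by omega)
    obtain ⟨i, h5, h6, h7⟩ := hsur x ((hLm x).2 ⟨h3, h1, by omega⟩)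
    rcases (by omega : i = 1 ∨ 1 < i) with h8 | h8
    · rw [h8] at h7
      omega
    · have h9 := hlt' 1 i le_rfl h8 (by omega)
      omega
  have hlast : 2 ≤ M → n0 - 13128 * (t : ℤ) ≤ l (M - 1) := by
    intro h
    by_contra hno
    obtain ⟨x, h1, h2, h3⟩ := reg_window hfs ht hb (n0 - 13128 * (t : ℤ))
    have h4 := hlm (M - 1) (by omega) (by omega)
    obtain ⟨i, h5, h6, h7⟩ := hsur x ((hLm x).2 ⟨h3, by omega, by omega⟩)
    rcases (by omega : i = M - 1 ∨ i < M - 1) with h8 | h8
    · rw [h8] at h7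
      omega
    · have h9 := hlt' i (M - 1) h5 h8 (by omega)
      omega
  have hempty : M = 1 → (n0 : ℤ) < 26128 * (t : ℤ) := by
    intro h
    by_contra hno
    obtain ⟨x, h1, h2, h3⟩ := reg_window hfs ht hb (13000 * (t : ℤ))
    obtain ⟨i, h5, h6, h7⟩ := hsur x ((hLm x).2 ⟨h3, h1, by omega⟩)
    omega
  have hmid : ∀ i, 1 ≤ i → i < M - 1 → Sf f (l i) (l (i + 1)) < t ∧
      l (i + 1) - l i ≤ 128 * (t : ℤ) := by
    intro i h1 h2
    apply not_bad hb
    have h3 := hlm i h1 (by omega)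
    have h4 := hlm (i + 1) (by omega) (by omega)
    refine ⟨h3.1, h4.1, hlt' i (i + 1) h1 (by omega) (by omega), ?_⟩
    intro z hz1 hz2 hz3
    obtain ⟨j, h5, h6, h7⟩ := hsur z ((hLm z).2 ⟨hz3, by omega, by omega⟩)
    rw [← h7] at hz1 hz2
    rcases (by omega : j ≤ i ∨ i + 1 ≤ j) with h8 | h8
    · rcases h8.eq_or_lt with h9 | h9
      · rw [h9] at hz1
        omega
      · have := hlt' j i h5 h9 (by omega)
        omega
    · rcases h8.eq_or_lt with h9 | h9
      · rw [← h9] at hz2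
        omega
      · have := hlt' (i + 1) j (by omega) h9 (by omega)
        omega
  -- the level difference
  obtain ⟨DD, hDD⟩ : ∃ DD : ℤ → ℤ, DD = fun i => if 1 ≤ i ∧ i ≤ M - 1 then
      lp a b Y (l i) - lp a b X (l i) else 0 := ⟨_, rfl⟩
  have hDi : ∀ i, 1 ≤ i → i ≤ M - 1 → DD i = lp a b Y (l i) - lp a b X (l i) := by
    intro i h1 h2
    rw [hDD]
    exact if_pos ⟨h1, h2⟩
  have hD0 : DD 0 = 0 := by
    rw [hDD]
    exact if_neg (by omega)
  have hDM : DD M = 0 := by
    rw [hDD]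
    exact if_neg (by omega)
  have hDa : ∀ i, 1 ≤ i → i ≤ M - 1 → 50 * |DD i| ≤ l i + 1 := by
    intro i h1 h2
    have h3 := hlm i h1 h2
    have h4 := cone_a hXP n0 hub hfX h3.1 (by omega) (by omega)
    have h5 := cone_a hYP n0 hub hfY h3.1 (by omega) (by omega)
    rw [hDi i h1 h2]
    have h6 := abs_sub (lp a b Y (l i)) (lp a b X (l i))
    omega
  have hDb : ∀ i, 1 ≤ i → i ≤ M - 1 → 50 * |DD i| ≤ n0 - l i + 1 := by
    intro i h1 h2
    have h3 := hlm i h1 h2
    have h4 := cone_b hXP n0 hub hfX h3.1 (by omega) (by omega)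
    have h5 := cone_b hYP n0 hub hfY h3.1 (by omega) (by omega)
    rw [hlvl, zero_sub, abs_neg] at h4 h5
    rw [hDi i h1 h2]
    have h6 := abs_sub (lp a b Y (l i)) (lp a b X (l i))
    omega
  have hR : ∀ i, 0 ≤ i → i < M → |DD (i + 1) - DD i| ≤ 390 * (t : ℤ) := by
    intro i h1 h2
    rcases h1.eq_or_lt with h3 | h3
    · rw [← h3, zero_add, hD0, sub_zero]
      rcases (by omega : M = 1 ∨ 2 ≤ M) with h4 | h4
      · have : DD 1 = 0 := by rw [← h4]; exact hDM
        rw [this, abs_zero]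
        omega
      · have h5 := hDa 1 le_rfl (by omega)
        have h6 := hfirst h4
        omega
    · rcases (by omega : i = M - 1 ∨ i < M - 1) with h4 | h4
      · have e1 : i + 1 = M := by omega
        rw [e1, hDM, zero_sub, abs_neg]
        have h5 := hDb i (by omega) (by omega)
        have h6 := hlast (by omega)
        rw [← h4] at h6
        omega
      · have h5 := hlm i (by omega) (by omega)
        have h6 := hlm (i + 1) (by omega) (by omega)
        have h7 := hmid i (by omega) h4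
        have h8 := hlt' i (i + 1) (by omega) (by omega) (by omega)
        have h9 := cone_two hXP n0 hub hfX h5.1 h6.1 (by omega) h8.le (by omega)
        have h10 := cone_two hYP n0 hub hfY h5.1 h6.1 (by omega) h8.le (by omega)
        have h11 := Sf_mono hfX (l i) (l (i + 1))
        have h12 := Sf_mono hfY (l i) (l (i + 1))
        rw [hDi i (by omega) (by omega), hDi (i + 1) (by omega) (by omega)]
        have h13 : |lp a b Y (l (i + 1)) - lp a b X (l (i + 1)) - (lp a b Y (l i) - lp a b X (l i))| ≤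
            |lp a b X (l i) - lp a b X (l (i + 1))| + |lp a b Y (l i) - lp a b Y (l (i + 1))| := by
          have e : lp a b Y (l (i + 1)) - lp a b X (l (i + 1)) - (lp a b Y (l i) - lp a b X (l i)) =
              (lp a b X (l i) - lp a b X (l (i + 1))) - (lp a b Y (l i) - lp a b Y (l (i + 1))) := by ring
          rw [e]
          exact abs_sub _ _
        omega
  have hchain := codes_connected M (390 * (t : ℤ)) hM1 (by omega) DD hD0 hDM hR
  -- admissible codes
  have hcnt0 : ∀ k, k ≤ 0 → cnt k = 0 := by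
    intro k hk
    have h1 := hcM k
    by_contra h2
    have h3 := (hle (cnt k) k (by omega) (by omega)).2 le_rfl
    have h4 := hlm (cnt k) (by omega) (by omega)
    omega
  have hcnt1 : ∀ k, (n0 : ℤ) - 1 ≤ k → cnt k = M - 1 := by
    intro k hk
    have h1 := hcM k
    rcases (by omega : M = 1 ∨ 2 ≤ M) with h2 | h2
    · omega
    · have h3 := hlm (M - 1) (by omega) le_rfl
      have h4 := (hle (M - 1) k (by omega) le_rfl).1 (by omega)
      omega
  have hbrk : ∀ (c : ℤ → Bool × ℤ), ∀ k ∈ Brk n0 (fun k => c (cnt k)), 1 ≤ cnt k ∧ l (cnt k) = k ∧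
      cnt (k - 1) = cnt k - 1 ∧ c (cnt k - 1) ≠ c (cnt k) := by
    intro c k hk
    unfold Brk at hk
    have h1 := (Finset.mem_filter.1 hk).2
    have h2 : cnt (k - 1) ≠ cnt k := fun h => h1 (by simp only [h])
    obtain ⟨h3, h4, h5⟩ := hstep k h2
    refine ⟨h3, h4, h5, ?_⟩
    rw [← h5]
    exact h1
  have hcode : ∀ c : ℤ → Bool × ℤ, VCode M (390 * (t : ℤ)) DD 7 (5 * (390 * (t : ℤ))) c →
      HCode a b n0 X Y t (fun k => c (cnt k)) := by
    intro c hc
    refine ⟨?_, ?_, ?_, ?_, ?_, ?_, ?_, ?_⟩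
    · intro k hk
      simp only [hcnt0 k hk, hcnt0 0 le_rfl]
    · intro k hk
      simp only [hcnt1 k hk, hcnt1 _ le_rfl]
    · simp only [hcnt0 0 le_rfl]
      exact hc.t0
    · simp only [hcnt1 _ le_rfl]
      exact hc.tM
    · refine le_trans (Finset.card_le_card_of_injOn cnt ?_ ?_) hc.brk
      · intro k hk
        obtain ⟨h1, h2, h3, h4⟩ := hbrk c k hk
        have h5 := hcM k
        rw [Finset.mem_coe, Finset.mem_filter, Finset.mem_Icc]
        exact ⟨⟨h1, h5.2⟩, h4⟩
      · intro k hk k' hk' hkk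
        have h1 := hbrk c k hk
        have h2 := hbrk c k' hk'
        rw [← h1.2.1, ← h2.2.1, hkk]
    · intro k hk
      obtain ⟨h1, h2, h3, h4⟩ := hbrk c k hk
      have h5 := hlm (cnt k) h1 (hcM k).2
      rw [h2] at h5
      rw [← hf]
      exact h5
    · intro k hk
      obtain ⟨h1, h2, h3, h4⟩ := hbrk c k hk
      have h5 := hDi (cnt k) h1 (hcM k).2
      rw [h2] at h5
      have h6 := hc.mis (cnt k) h1 (hcM k).2
      show |thl a b X Y k (c (cnt k)) - thl a b X Y k (c (cnt (k - 1)))| ≤ 1950 * (t : ℤ)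
      rw [h3, hc_pb a b k DD (cnt k) h5, hc_pb a b k DD (cnt k) h5, abs_sub_comm]
      have e : lp a b X k + th DD (cnt k) (c (cnt k - 1)) - (lp a b X k + th DD (cnt k) (c (cnt k))) =
          th DD (cnt k) (c (cnt k - 1)) - th DD (cnt k) (c (cnt k)) := by ring
      rw [e]
      omega
    · intro k
      have h0 := hcM k
      constructor
      · obtain ⟨i', h1, h2, h3⟩ := hc.bl (cnt k) h0.1 h0.2
        have h8 := abs_nonneg k
        rcases h1.eq_or_lt with h4 | h4
        · rw [← h4, hD0, abs_zero] at h3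
          omega
        · have h5 := hDa i' (by omega) (by omega)
          have h6 := (hle i' k (by omega) (by omega)).2 h2
          have h7 := le_abs_self k
          omega
      · obtain ⟨i', h1, h2, h3⟩ := hc.br (cnt k) h0.1 h0.2
        have h8 := abs_nonneg ((n0 : ℤ) - k)
        rcases h2.eq_or_lt with h4 | h4
        · rw [h4, hDM, abs_zero] at h3
          omega
        · have h5 := hDb i' (by omega) (by omega)
          have h6 : ¬ l i' ≤ k := fun h => by
            have := (hle i' k (by omega) (by omega)).1 h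
            omega
          have h7 := le_abs_self ((n0 : ℤ) - k)
          omega
  -- steps
  refine Relation.ReflTransGen.lift (fun (c : ℤ → Bool × ℤ) (k : ℤ) => c (cnt k)) ?_ _ _ hchain
  intro c c' hcc
  show HStp a b n0 X Y t (fun k => c (cnt k)) (fun k => c' (cnt k))
  obtain ⟨hc, hc', r, hr0, hr1, hrr⟩ := hcc
  refine ⟨hcode c hc, hcode c' hc', if r = 0 then -1 else l r, if r = M - 1 then n0 + 1 else l (r + 1),
    ?_, ?_, ?_, ?_, ?_, ?_⟩
  · by_cases h : r = 0
    · left
      rw [if_pos h]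
    · right
      rw [if_neg h, ← hf]
      exact hlm r (by omega) hr1
  · by_cases h : r = M - 1
    · left
      rw [if_pos h]
    · right
      rw [if_neg h, ← hf]
      exact hlm (r + 1) (by omega) (by omega)
  · by_cases h : r = 0
    · rw [if_pos h]
      by_cases h' : r = M - 1
      · rw [if_pos h']
        omega
      · rw [if_neg h']
        have := hlm (r + 1) (by omega) (by omega)
        omega
    · rw [if_neg h]
      have h3 := hlm r (by omega) hr1
      by_cases h' : r = M - 1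
      · rw [if_pos h']
        omega
      · rw [if_neg h']
        exact hlt' r (r + 1) (by omega) (by omega) (by omega)
  · by_cases h : r = 0
    · rw [if_pos h]
      by_cases h' : r = M - 1
      · rw [if_pos h']
        have := hempty (by omega)
        omega
      · rw [if_neg h']
        have h3 := hfirst (by omega)
        rw [h, zero_add]
        omega
    · rw [if_neg h]
      by_cases h' : r = M - 1
      · rw [if_pos h']
        have h3 := hlast (by omega)
        rw [← h'] at h3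
        omega
      · rw [if_neg h']
        have h3 := (hmid r (by omega) (by omega)).2
        omega
  · intro k hk
    have h0 := hcM k
    symm
    apply hrr (cnt k) h0.1 h0.2
    intro hkr
    rcases hk with ⟨h1, h2⟩ | ⟨h1, h2⟩
    · by_cases h : r = 0
      · rw [if_pos h] at h1
        exact h1 rfl
      · rw [if_neg h] at h2
        have h3 := (hle r k (by omega) hr1).2 (by omega)
        omega
    · by_cases h : r = M - 1
      · rw [if_pos h] at h1
        exact h1 rfl
      · rw [if_neg h] at h2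
        have h3 := (hle (r + 1) k (by omega) (by omega)).1 h2
        omega
  · intro k hk
    have h1 : 1 ≤ cnt k ∧ l (cnt k) = k := by
      rcases Finset.mem_union.1 hk with h | h
      · exact ⟨(hbrk c k h).1, (hbrk c k h).2.1⟩
      · exact ⟨(hbrk c' k h).1, (hbrk c' k h).2.1⟩
    have h0 := hcM k
    rintro ⟨h2, h3⟩
    have h4 : r < cnt k := by
      by_cases h : r = 0
      · omega
      · rw [if_neg h] at h2
        have h5 := (hle r k (by omega) hr1).1 (by omega)
        by_contra h6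
        have h7 : cnt k = r := by omega
        rw [← h7, h1.2] at h2
        omega
    have h5 : cnt k ≤ r := by
      by_cases h : r = M - 1
      · omega
      · rw [if_neg h] at h3
        by_contra h6
        have h7 := (hle (r + 1) k (by omega) (by omega)).2 (by omega)
        omega
    omega

end

end Pool.Agent.H40.WM
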