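import Mathlib
import Pool.Agent.H40.WM.HBas

/-!
# HDcd: decoding

Fixed `σ`; two pairs `(X,Y)`, `(X1,Y1)` with the same `ZZ σ`, the same `ZZ (cmpl σ)` and the same levels `lp X k`, `lp Y k` at the breaks `k`.  Then all connectors agree (`thl` is a sum of `lp` and a translation; `thl_cmpl`), so `Zv` agree for both codes, and `Zm = ZZ \ Zv` (`Zm_Zv_disj`) agree for both codes.
An edge `e` with `k = kl e`, `σ k = (ξ,τ)`: if `ξ = false`: `e ∈ X ↔ shE (τ,τ) e ∈ Zm σ` (`mem_Zm`; `kl_shE`; `shE` is injective); if `ξ = true`: `e ∈ X ↔ shE (-τ,-τ) e ∈ Zm (cmpl σ)`.  The same for `Y`.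
-/

set_option autoImplicit false

namespace Pool.Agent.H40.WM

open Pool.Agent.H40.SQ

noncomputable section

private theorem hd_brk {n0 : ℕ} {σ : ℤ → Bool × ℤ} {i : ℤ} (h : i ∉ Brk n0 σ) (h1 : 1 ≤ i)
    (h2 : i < n0) : σ (i - 1) = σ i := by
  by_contra hne
  apply h
  unfold Brk
  rw [Finset.mem_filter, Finset.mem_Ico]
  exact ⟨⟨h1, h2⟩, hne⟩

private theorem hd_thl {a b : ℤ × ℤ} {X Y X₁ Y₁ : Finset Edge} {k : ℤ} (h : lp a b X k = lp a b X₁ k)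
    (h' : lp a b Y k = lp a b Y₁ k) (c : Bool × ℤ) : thl a b X Y k c = thl a b X₁ Y₁ k c := by
  unfold thl Pb
  split_ifs
  · rw [h']
  · rw [h]

private theorem hd_Zv {a b : ℤ × ℤ} (n0 : ℕ) {X Y X₁ Y₁ : Finset Edge} {σ : ℤ → Bool × ℤ}
    (h3 : ∀ k ∈ Brk n0 σ, lp a b X k = lp a b X₁ k ∧ lp a b Y k = lp a b Y₁ k) :
    Zv a b n0 X Y σ = Zv a b n0 X₁ Y₁ σ := by
  unfold Zv
  ext e
  rw [Finset.mem_biUnion, Finset.mem_biUnion]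
  refine exists_congr fun k => and_congr_right fun hk => ?_
  rw [Finset.mem_Ico] at hk
  by_cases hkB : k ∈ Brk n0 σ
  · obtain ⟨h4, h5⟩ := h3 k hkB
    unfold Zc
    rw [hd_thl h4 h5, hd_thl h4 h5]
  · have h4 := hd_brk hkB hk.1 hk.2
    rw [Zc_eq_empty h4, Zc_eq_empty h4]

private theorem hd_Zm {a b : ℤ × ℤ} (n0 : ℕ) (hm : uu b = uu a + 2 * n0) {X Y X₁ Y₁ : Finset Edge} (hX : IsP a b X) (hY : IsP a b Y)
    (hX₁ : IsP a b X₁) (hY₁ : IsP a b Y₁) {σ : ℤ → Bool × ℤ}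
    (hb : ∀ k ∈ Brk n0 σ, HC (uu a) X k ∧ HC (uu a) Y k) (hb₁ : ∀ k ∈ Brk n0 σ, HC (uu a) X₁ k ∧ HC (uu a) Y₁ k)
    (h1 : ZZ a b n0 X Y σ = ZZ a b n0 X₁ Y₁ σ)
    (h3 : ∀ k ∈ Brk n0 σ, lp a b X k = lp a b X₁ k ∧ lp a b Y k = lp a b Y₁ k) :
    Zm (uu a) X Y σ = Zm (uu a) X₁ Y₁ σ := by
  have d1 := Finset.disjoint_left.1 (Zm_Zv_disj hX hY n0 hm hb)
  have d2 := Finset.disjoint_left.1 (Zm_Zv_disj hX₁ hY₁ n0 hm hb₁)
  have hv := hd_Zv (a := a) (b := b) n0 h3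
  unfold ZZ at h1
  ext e
  have h4 : e ∈ Zm (uu a) X Y σ ∪ Zv a b n0 X Y σ ↔ e ∈ Zm (uu a) X₁ Y₁ σ ∪ Zv a b n0 X₁ Y₁ σ := by
    rw [h1]
  rw [Finset.mem_union, Finset.mem_union, hv] at h4
  rw [hv] at d1
  constructor
  · intro h5
    rcases h4.1 (Or.inl h5) with h6 | h6
    · exact h6
    · exact absurd h6 (d1 h5)
  · intro h5
    rcases h4.2 (Or.inl h5) with h6 | h6
    · exact h6
    · exact absurd h6 (d2 h5)

private theorem hd_mem {u : ℤ} {X Y : Finset Edge} {σ : ℤ → Bool × ℤ} (e : Edge) :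
    shE ((σ (kl u e)).2, (σ (kl u e)).2) e ∈ Zm u X Y σ ↔ e ∈ Pb X Y (σ (kl u e)).1 := by
  rw [mem_Zm, kl_shE]
  constructor
  · rintro ⟨e0, he0, h⟩
    have h2 : e0 = e := (shE_inj _ h).symm
    rw [h2] at he0
    exact he0
  · intro h
    exact ⟨e, h, rfl⟩

theorem zz_decode {a b : ℤ × ℤ} (n0 : ℕ) (hm : uu b = uu a + 2 * n0) {X Y X₁ Y₁ : Finset Edge} (hX : IsP a b X) (hY : IsP a b Y)
    (hX₁ : IsP a b X₁) (hY₁ : IsP a b Y₁) {σ : ℤ → Bool × ℤ}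
    (hb : ∀ k ∈ Brk n0 σ, HC (uu a) X k ∧ HC (uu a) Y k) (hb₁ : ∀ k ∈ Brk n0 σ, HC (uu a) X₁ k ∧ HC (uu a) Y₁ k)
    (h1 : ZZ a b n0 X Y σ = ZZ a b n0 X₁ Y₁ σ) (h2 : ZZ a b n0 X Y (cmpl σ) = ZZ a b n0 X₁ Y₁ (cmpl σ))
    (h3 : ∀ k ∈ Brk n0 σ, lp a b X k = lp a b X₁ k ∧ lp a b Y k = lp a b Y₁ k) : X = X₁ ∧ Y = Y₁ := by
  have m1 := hd_Zm n0 hm hX hY hX₁ hY₁ hb hb₁ h1 h3
  have m2 := hd_Zm (σ := cmpl σ) n0 hm hX hY hX₁ hY₁ (by rw [brk_cmpl]; exact hb)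
    (by rw [brk_cmpl]; exact hb₁) h2 (by rw [brk_cmpl]; exact h3)
  have key : ∀ e : Edge, (e ∈ Pb X Y (σ (kl (uu a) e)).1 ↔ e ∈ Pb X₁ Y₁ (σ (kl (uu a) e)).1) ∧
      (e ∈ Pb X Y (!(σ (kl (uu a) e)).1) ↔ e ∈ Pb X₁ Y₁ (!(σ (kl (uu a) e)).1)) := by
    intro e
    constructor
    · rw [← hd_mem, ← hd_mem, m1]
    · have h4 := hd_mem (u := uu a) (X := X) (Y := Y) (σ := cmpl σ) e
      have h5 := hd_mem (u := uu a) (X := X₁) (Y := Y₁) (σ := cmpl σ) e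
      have h6 : (cmpl σ (kl (uu a) e)).1 = !(σ (kl (uu a) e)).1 := rfl
      rw [h6] at h4 h5
      rw [← h4, ← h5, m2]
  constructor
  · ext e
    obtain ⟨k1, k2⟩ := key e
    cases hc : (σ (kl (uu a) e)).1
    · rw [hc] at k1
      simpa [Pb] using k1
    · rw [hc] at k2
      simpa [Pb] using k2
  · ext e
    obtain ⟨k1, k2⟩ := key e
    cases hc : (σ (kl (uu a) e)).1
    · rw [hc] at k2
      simpa [Pb] using k2
    · rw [hc] at k1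
      simpa [Pb] using k1

end

end Pool.Agent.H40.WM
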