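import Mathlib
import Pool.Agent.H40.WM.HBas

/-!
# HCrd: cardinalities

`|Zm σ| ≤ #{e ∈ X : σ(kl e).1 = false} + #{e ∈ Y : σ (kl e).1 = true}` (image), and for the complementary code the two complementary filters: the sum is `|X| + |Y|`.  `|Zc k| = 2 |difference|` (`Vert_card`), it is empty unless `k` is a break (`Zc_eq_empty`); at most 7 breaks with mismatch `≤ 1950 t` for `σ` and for `cmpl σ`
(`cmpl_code`): `|Zv| ≤ 7 * 2 * 1950 t = 27300 t` each.
-/

set_option autoImplicit false

namespace Pool.Agent.H40.WM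

open Pool.Agent.H40.SQ

noncomputable section

theorem zv_card {a b : ℤ × ℤ} {n0 : ℕ} {X Y : Finset Edge} {t : ℕ} {σ : ℤ → Bool × ℤ} (h : HCode a b n0 X Y t σ) :
    (Zv a b n0 X Y σ).card ≤ 27300 * t := by
  unfold Zv
  refine Finset.card_biUnion_le.trans ?_
  have h1 : ∑ k ∈ Finset.Ico 1 (n0 : ℤ), (Zc a b X Y σ k).card = ∑ k ∈ Brk n0 σ, (Zc a b X Y σ k).card := by
    unfold Brk
    rw [Finset.sum_filter]
    refine Finset.sum_congr rfl fun k _ => ?_
    split_ifs with hk
    · rfl
    · rw [Zc_eq_empty (not_not.1 hk), Finset.card_empty]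
  rw [h1]
  have h2 : ∀ k ∈ Brk n0 σ, (Zc a b X Y σ k).card ≤ 3900 * t := by
    intro k hk
    unfold Zc
    rw [Vert_card]
    have h3 := h.mis k hk
    rw [Int.abs_eq_natAbs] at h3
    omega
  refine (Finset.sum_le_sum h2).trans ?_
  rw [Finset.sum_const, smul_eq_mul]
  calc (Brk n0 σ).card * (3900 * t) ≤ 7 * (3900 * t) := Nat.mul_le_mul_right _ h.card
    _ = 27300 * t := by ring

private theorem hc_zm (u : ℤ) (X Y : Finset Edge) (σ : ℤ → Bool × ℤ) :
    (Zm u X Y σ).card ≤ (X.filter (fun e => (σ (kl u e)).1 = false)).card +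
      (Y.filter (fun e => (σ (kl u e)).1 = true)).card := by
  unfold Zm
  refine (Finset.card_union_le _ _).trans ?_
  exact Nat.add_le_add Finset.card_image_le Finset.card_image_le

private theorem hc_split (u : ℤ) (X : Finset Edge) (σ : ℤ → Bool × ℤ) :
    (X.filter (fun e => (σ (kl u e)).1 = false)).card +
      (X.filter (fun e => (σ (kl u e)).1 = true)).card = X.card := by
  rw [← Finset.card_filter_add_card_filter_not (s := X) (fun e => (σ (kl u e)).1 = false)]
  congr 2
  apply Finset.filter_congr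
  intro e _
  cases (σ (kl u e)).1 <;> simp

theorem zz_card {a b : ℤ × ℤ} {n0 : ℕ} {X Y : Finset Edge} {t : ℕ} {σ : ℤ → Bool × ℤ} (h : HCode a b n0 X Y t σ) :
    (ZZ a b n0 X Y σ).card + (ZZ a b n0 X Y (cmpl σ)).card ≤ X.card + Y.card + 54600 * t := by
  have h1 : (ZZ a b n0 X Y σ).card ≤ (Zm (uu a) X Y σ).card + (Zv a b n0 X Y σ).card := by
    unfold ZZ
    exact Finset.card_union_le _ _
  have h2 : (ZZ a b n0 X Y (cmpl σ)).card ≤
      (Zm (uu a) X Y (cmpl σ)).card + (Zv a b n0 X Y (cmpl σ)).card := by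
    unfold ZZ
    exact Finset.card_union_le _ _
  have h3 := zv_card h
  have h4 := zv_card (cmpl_code h)
  have h5 := hc_zm (uu a) X Y σ
  have h6 := hc_zm (uu a) X Y (cmpl σ)
  have h7 := hc_split (uu a) X σ
  have h8 := hc_split (uu a) Y σ
  have h9 : (X.filter (fun e => (cmpl σ (kl (uu a) e)).1 = false)) =
      (X.filter (fun e => (σ (kl (uu a) e)).1 = true)) := by
    apply Finset.filter_congr
    intro e _
    unfold cmpl
    cases (σ (kl (uu a) e)).1 <;> simp
  have h10 : (Y.filter (fun e => (cmpl σ (kl (uu a) e)).1 = true)) =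
      (Y.filter (fun e => (σ (kl (uu a) e)).1 = false)) := by
    apply Finset.filter_congr
    intro e _
    unfold cmpl
    cases (σ (kl (uu a) e)).1 <;> simp
  rw [h9, h10] at h6
  omega

end

end Pool.Agent.H40.WM
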