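import Mathlib
import Pool.Agent.H40.WM.HBas
import Pool.Agent.H40.WM.JApp
import Pool.Agent.H40.WM.JPc

/-!
# HPth: the coded set is a path from `a` to `b`

Hypotheses as in `HCode` (`left, right, t0, t1`, breaks half clean), `1 ≤ n0`.  For `1 ≤ k ≤ n0 - 1` half clean for `X` and `Y` let `Zl k = lf (Zm) k ∪ ⋃_{j ∈ Ico 1 k} Zc j`.
Claim: `LPa a k (thl k (σ (k-1))) (Zl k)`.  Strong induction on `k`.  If there is no break `< k`: `σ` is constant `= σ 0 = (ξ,0)` on `(-∞,k)`, the connectors are empty, `Zl k = lf (Pb ξ) k` (`Zm_lf`, `sh_zero`), `lpa_lf`.  Otherwise let `j < k` be the largest break: by induction `LPa a j (thl j (σ (j-1))) (Zl j)`;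
`σ = σ j = (ξ,t)` on `[j,k)`; `Zl k = Zl j ∪ Zc j ∪ sh (t,t) (pc (Pb ξ) j k)` (`Zm_pc`; connectors strictly between are empty), and `PCE a j (lp j + t) k (lp k + t)` for the last piece (`pce_pc`, `pce_sh` with `j := 0`); `append`.
End: no break at all: `ZZ = Pb ξ` (`Zm_const`; `left`/`right` and no breaks imply `σ` constant).  Otherwise with the last break `k`: `ZZ = Zl k ∪ Zc k ∪ sh (0,0) (rt (Pb ξ) k)`, `σ = σ (n0-1)`, `t = 0` on `[k,∞)`; `rpa_rt`; `finish` (`a ≠ b` since `uu a < uu b`).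
-/

set_option autoImplicit false

namespace Pool.Agent.H40.WM

open Pool.Agent.H40.SQ

noncomputable section

/-- left part of the coded set -/
private def hpZl (a b : ℤ × ℤ) (X Y : Finset Edge) (σ : ℤ → Bool × ℤ) (k : ℤ) : Finset Edge :=
  lf (uu a) (Zm (uu a) X Y σ) k ∪ (Finset.Ico 1 k).biUnion (Zc a b X Y σ)

private theorem hp_const {σ : ℤ → Bool × ℤ} {x y : ℤ} (h : ∀ i, x < i → i < y → σ (i - 1) = σ i)
    (i : ℤ) (h1 : x ≤ i) (h2 : i < y) : σ i = σ x := by
  induction i, h1 using Int.le_induction with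
  | base => rfl
  | succ n hn ih =>
    have h3 := h (n + 1) (by omega) h2
    rw [add_sub_cancel_right] at h3
    rw [← h3]
    exact ih (by omega)

private theorem hp_brk {n0 : ℕ} {σ : ℤ → Bool × ℤ} {i : ℤ} (h : i ∉ Brk n0 σ) (h1 : 1 ≤ i)
    (h2 : i < n0) : σ (i - 1) = σ i := by
  by_contra hne
  apply h
  unfold Brk
  rw [Finset.mem_filter, Finset.mem_Ico]
  exact ⟨⟨h1, h2⟩, hne⟩

/-- no break or a last break -/
private theorem hp_last (n0 : ℕ) (σ : ℤ → Bool × ℤ) (y : ℤ) :
    (∀ i ∈ Brk n0 σ, ¬ i < y) ∨ ∃ j ∈ Brk n0 σ, j < y ∧ ∀ i ∈ Brk n0 σ, i < y → i ≤ j := by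
  rcases ((Brk n0 σ).filter (fun i => i < y)).eq_empty_or_nonempty with h | h
  · left
    intro i hi hiy
    have h1 : i ∈ (Brk n0 σ).filter (fun i => i < y) := Finset.mem_filter.2 ⟨hi, hiy⟩
    rw [h] at h1
    exact Finset.notMem_empty _ h1
  · right
    refine ⟨((Brk n0 σ).filter (fun i => i < y)).max' h, ?_, ?_, ?_⟩
    · exact (Finset.mem_filter.1 (Finset.max'_mem _ h)).1
    · exact (Finset.mem_filter.1 (Finset.max'_mem _ h)).2
    · intro i hi hiy
      exact Finset.le_max' _ _ (Finset.mem_filter.2 ⟨hi, hiy⟩)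

private theorem hp_Zc_empty {a b : ℤ × ℤ} {n0 : ℕ} {X Y : Finset Edge} {σ : ℤ → Bool × ℤ} {i : ℤ}
    (h : i ∉ Brk n0 σ) (h1 : 1 ≤ i) (h2 : i < n0) : Zc a b X Y σ i = ∅ :=
  Zc_eq_empty (hp_brk h h1 h2)

private theorem hp_left {a b : ℤ × ℤ} {X Y : Finset Edge} (hX : IsP a b X) (hY : IsP a b Y) (n0 : ℕ)
    (hm : uu b = uu a + 2 * n0) {σ : ℤ → Bool × ℤ} (hl : ∀ k, k ≤ 0 → σ k = σ 0)
    (h0 : (σ 0).2 = 0) (hb : ∀ k ∈ Brk n0 σ, HC (uu a) X k ∧ HC (uu a) Y k) (m : ℕ) :
    ∀ k : ℤ, 1 ≤ k → k < n0 → k ≤ m → HC (uu a) X k → HC (uu a) Y k →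
      LPa a k (thl a b X Y k (σ (k - 1))) (hpZl a b X Y σ k) := by
  induction m with
  | zero =>
    intro k h1 _ h2
    push_cast at h2
    omega
  | succ m ih =>
    intro k hk1 hkn hkm hcX hcY
    rcases hp_last n0 σ k with hno | ⟨j, hj, hjk, hjmax⟩
    · -- no break
      have hc : ∀ i, i < k → σ i = σ 0 := by
        intro i hi
        rcases le_or_gt i 0 with h2 | h2
        · exact hl i h2
        · refine hp_const (x := 0) (y := k) (fun i h3 h4 => ?_) i h2.le hi
          exact hp_brk (fun h5 => hno i h5 h4) (by omega) (by omega)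
      have h2 : hpZl a b X Y σ k = lf (uu a) (Pb X Y (σ 0).1) k := by
        unfold hpZl
        rw [Zm_lf hc, h0, sh_zero]
        have h3 : (Finset.Ico 1 k).biUnion (Zc a b X Y σ) = ∅ := by
          rw [Finset.eq_empty_iff_forall_notMem]
          intro e he
          rw [Finset.mem_biUnion] at he
          obtain ⟨i, hi, hei⟩ := he
          rw [Finset.mem_Ico] at hi
          rw [hp_Zc_empty (n0 := n0) (fun h5 => hno i h5 hi.2) hi.1 (by omega)] at hei
          exact Finset.notMem_empty _ hei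
        rw [h3, Finset.union_empty]
      have h3 : thl a b X Y k (σ (k - 1)) = lp a b (Pb X Y (σ 0).1) k := by
        rw [hc (k - 1) (by omega)]
        unfold thl
        rw [h0, add_zero]
      rw [h2, h3]
      exact lpa_lf (pb_isP hX hY _) n0 hm (pb_hc hcX hcY _) (by omega) (by omega)
    · -- last break `j`
      have hj' : 1 ≤ j ∧ j < n0 := by
        unfold Brk at hj
        rw [Finset.mem_filter, Finset.mem_Ico] at hj
        exact hj.1
      obtain ⟨hjX, hjY⟩ := hb j hj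
      have hN := ih j hj'.1 hj'.2 (by push_cast at hkm; omega) hjX hjY
      have hc : ∀ i, j ≤ i → i < k → σ i = σ j := by
        intro i h1 h2
        refine hp_const (x := j) (y := k) (fun i h3 h4 => ?_) i h1 h2
        exact hp_brk (fun h5 => by have := hjmax i h5 h4; omega) (by omega) (by omega)
      have hT0 := pce_pc (pb_isP hX hY (σ j).1) n0 hm (pb_hc hjX hjY (σ j).1)
        (pb_hc hcX hcY (σ j).1) (by omega) hjk.le (by omega)
      have hT1 := pce_sh hT0 0 (σ j).2
      rw [add_zero, add_zero, neg_zero, zero_add, ← Zm_pc hc] at hT1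
      have hA := (append hN hT1 (by omega) hjk).1
      have h2 : thl a b X Y k (σ (k - 1)) = lp a b (Pb X Y (σ j).1) k + (σ j).2 := by
        rw [hc (k - 1) (by omega) (by omega)]
        rfl
      rw [h2]
      have h3 : hpZl a b X Y σ k = hpZl a b X Y σ j ∪
          Vert (vt a j (thl a b X Y j (σ (j - 1))))
            (lp a b (Pb X Y (σ j).1) j + (σ j).2 - thl a b X Y j (σ (j - 1))) ∪
          pc (uu a) (Zm (uu a) X Y σ) j k := by
        have h4 : Vert (vt a j (thl a b X Y j (σ (j - 1))))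
            (lp a b (Pb X Y (σ j).1) j + (σ j).2 - thl a b X Y j (σ (j - 1))) =
            Zc a b X Y σ j := rfl
        rw [h4]
        unfold hpZl lf pc
        ext e
        simp only [Finset.mem_union, Finset.mem_filter, Finset.mem_biUnion, Finset.mem_Ico]
        constructor
        · rintro (⟨h5, h6⟩ | ⟨i, h5, h6⟩)
          · rcases lt_or_ge (kl (uu a) e) j with h7 | h7
            · exact Or.inl (Or.inl (Or.inl ⟨h5, h7⟩))
            · exact Or.inr ⟨h5, h7, h6⟩
          · rcases lt_trichotomy i j with h7 | h7 | h7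
            · exact Or.inl (Or.inl (Or.inr ⟨i, ⟨h5.1, h7⟩, h6⟩))
            · rw [h7] at h6
              exact Or.inl (Or.inr h6)
            · rw [hp_Zc_empty (n0 := n0) (fun h8 => by have := hjmax i h8 h5.2; omega) h5.1
                (by omega)] at h6
              exact absurd h6 (Finset.notMem_empty _)
        · rintro (((⟨h5, h6⟩ | ⟨i, h5, h6⟩) | h5) | ⟨h5, h6, h7⟩)
          · exact Or.inl ⟨h5, by omega⟩
          · exact Or.inr ⟨i, ⟨h5.1, by omega⟩, h6⟩
          · exact Or.inr ⟨j, ⟨hj'.1, hjk⟩, h5⟩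
          · exact Or.inl ⟨h5, h7⟩
      rw [h3]
      exact hA

theorem zz_isP {a b : ℤ × ℤ} {X Y : Finset Edge} (hX : IsP a b X) (hY : IsP a b Y) (n0 : ℕ) (hn0 : 1 ≤ n0) (hm : uu b = uu a + 2 * n0)
    {σ : ℤ → Bool × ℤ} (hl : ∀ k, k ≤ 0 → σ k = σ 0) (hr : ∀ k, (n0 : ℤ) - 1 ≤ k → σ k = σ (n0 - 1)) (h0 : (σ 0).2 = 0) (h1 : (σ (n0 - 1)).2 = 0)
    (hb : ∀ k ∈ Brk n0 σ, HC (uu a) X k ∧ HC (uu a) Y k) : IsP a b (ZZ a b n0 X Y σ) := by
  have hab : a ≠ b := by
    rintro rfl
    omega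
  rcases hp_last n0 σ n0 with hno | ⟨k, hk, hkn, hkmax⟩
  · have hno' : ∀ i, 1 ≤ i → i < (n0 : ℤ) → i ∉ Brk n0 σ := fun i _ h2 h3 => hno i h3 h2
    have hc0 : ∀ i, 0 ≤ i → i < (n0 : ℤ) → σ i = σ 0 := by
      intro i h2 h3
      refine hp_const (x := 0) (y := n0) (fun i h4 h5 => ?_) i h2 h3
      exact hp_brk (hno' i (by omega) h5) (by omega) h5
    have hc : ∀ i, σ i = σ 0 := by
      intro i
      rcases le_or_gt i 0 with h2 | h2
      · exact hl i h2
      · rcases lt_or_ge i n0 with h3 | h3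
        · exact hc0 i h2.le h3
        · rw [hr i (by omega)]
          exact hc0 _ (by omega) (by omega)
    have h2 : ZZ a b n0 X Y σ = Pb X Y (σ 0).1 := by
      unfold ZZ Zv
      rw [Zm_const hc, h0, sh_zero]
      have h3 : (Finset.Ico 1 (n0 : ℤ)).biUnion (Zc a b X Y σ) = ∅ := by
        rw [Finset.eq_empty_iff_forall_notMem]
        intro e he
        rw [Finset.mem_biUnion] at he
        obtain ⟨i, hi, hei⟩ := he
        rw [Finset.mem_Ico] at hi
        rw [hp_Zc_empty (hno' i hi.1 hi.2) hi.1 hi.2] at hei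
        exact Finset.notMem_empty _ hei
      rw [h3, Finset.union_empty]
    rw [h2]
    exact pb_isP hX hY _
  · have hk' : 1 ≤ k ∧ k < n0 := by
      unfold Brk at hk
      rw [Finset.mem_filter, Finset.mem_Ico] at hk
      exact hk.1
    obtain ⟨hcX, hcY⟩ := hb k hk
    have hN := hp_left hX hY n0 hm hl h0 hb n0 k hk'.1 hk'.2 hk'.2.le hcX hcY
    have hc0 : ∀ i, k ≤ i → i < (n0 : ℤ) → σ i = σ k := by
      intro i h2 h3
      refine hp_const (x := k) (y := n0) (fun i h4 h5 => ?_) i h2 h3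
      exact hp_brk (fun h6 => by have := hkmax i h6 h5; omega) (by omega) h5
    have hck : σ k = σ (n0 - 1) := (hc0 (n0 - 1) (by omega) (by omega)).symm
    have hc : ∀ i, k ≤ i → σ i = σ k := by
      intro i h2
      rcases lt_or_ge i n0 with h3 | h3
      · exact hc0 i h2 h3
      · rw [hr i (by omega), hck]
    have ht : (σ k).2 = 0 := by rw [hck, h1]
    have hT0 := rpa_rt (pb_isP hX hY (σ k).1) n0 hm (pb_hc hcX hcY (σ k).1) (by omega)
      (by omega)
    have hT1 : RPa a b k (thl a b X Y k (σ k)) (rt (uu a) (Zm (uu a) X Y σ) k) := by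
      rw [Zm_rt hc, ht, sh_zero]
      have h2 : thl a b X Y k (σ k) = lp a b (Pb X Y (σ k).1) k := by
        unfold thl
        rw [ht, add_zero]
      rw [h2]
      exact hT0
    have hF := (finish hN hT1 hab).1
    have h3 : ZZ a b n0 X Y σ = hpZl a b X Y σ k ∪
        Vert (vt a k (thl a b X Y k (σ (k - 1))))
          (thl a b X Y k (σ k) - thl a b X Y k (σ (k - 1))) ∪
        rt (uu a) (Zm (uu a) X Y σ) k := by
      have h4 : Vert (vt a k (thl a b X Y k (σ (k - 1))))
          (thl a b X Y k (σ k) - thl a b X Y k (σ (k - 1))) = Zc a b X Y σ k := rfl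
      rw [h4]
      unfold hpZl ZZ Zv lf rt
      ext e
      simp only [Finset.mem_union, Finset.mem_filter, Finset.mem_biUnion, Finset.mem_Ico]
      constructor
      · rintro (h5 | ⟨i, h5, h6⟩)
        · rcases lt_or_ge (kl (uu a) e) k with h7 | h7
          · exact Or.inl (Or.inl (Or.inl ⟨h5, h7⟩))
          · exact Or.inr ⟨h5, h7⟩
        · rcases lt_trichotomy i k with h7 | h7 | h7
          · exact Or.inl (Or.inl (Or.inr ⟨i, ⟨h5.1, h7⟩, h6⟩))
          · rw [h7] at h6
            exact Or.inl (Or.inr h6)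
          · rw [hp_Zc_empty (n0 := n0) (fun h8 => by have := hkmax i h8 h5.2; omega) h5.1
              (by omega)] at h6
            exact absurd h6 (Finset.notMem_empty _)
      · rintro (((⟨h5, h6⟩ | ⟨i, h5, h6⟩) | h5) | ⟨h5, h6⟩)
        · exact Or.inl h5
        · exact Or.inr ⟨i, ⟨h5.1, by omega⟩, h6⟩
        · exact Or.inr ⟨k, ⟨hk'.1, hkn⟩, h5⟩
        · exact Or.inl h5
    rw [h3]
    exact hF

end

end Pool.Agent.H40.WM
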