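import Mathlib
import Pool.Agent.H40.WM.HBas
import Pool.Agent.H40.WM.ICon
import Pool.Agent.H40.WM.IRis
import Pool.Agent.H40.WM.TCone
import Pool.Agent.H40.WM.IVer

/-!
# HDom: coded paths lie in `D` and in the cone

`X, Y ∈ PD D a b`, not `Bad f t`, `f = ex2`, `t ≥ 1`.
* `lvl_mid`: for an edge `e0` of `X` or `Y` with `k = kl e0`, `128 t ≤ k ≤ n0 - 128 t`: there are regular `x ∈ [k - 128 t + 1, k]` and `y ∈ [k+1, k + 128 t]` (`reg_window`), both in `[0,n0]`; `cone_right` at `x`, `cone_a`: `100 |lvl z| ≤ (k - x + 1) + (x + 1) = k + 2`; `cone_left` at `y`, `cone_b` (`lvl a b = 0`):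
  `100 |lvl z| ≤ (y - k) + (n0 - y + 1) = n0 - k + 1`.
* edges of `Zm`: `e = shE (τ,τ) e0`, `k = kl e = kl e0`.  If `k < 13000 t` or `k ≥ n0 - 13000 t`: no break on that side, so `σ k = σ 0` or `σ (n0-1)`, `τ = 0`, `e = e0 ∈ D`.  Otherwise (`cd = min k (n0-k) ≥ 13000 t`) the level of the ends is at most `(cd+2)/100 + |τ| ≤ (cd+2)/100 + (cd+1)/50 + 780 t ≤ (9/100) cd + 1`: cone
  condition, `mem_cone`; also `4 |lvl| ≤ cd + 8`.
* connectors at a break `k ∈ [13000 t, n0 - 13000 t]`: `|lp (Pb) k| ≤ (min k (n0-k) + 1)/100` (`cone_a`, `cone_b`), so `|thl| ≤ ... + |τ|` with `τ = (σ k).2` or `(σ (k-1)).2`; `Vert_lvl`; the edges are in the double slices `k` or `k - 1`.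
* `near`: the edges `e` of `ZZ` with `cd < 130 t`: they are in `Zm` with `τ = 0`, so edges of `X` or `Y` with `kl < 130 t` or `kl > n0 - 130 t`.  Let `x0` be the largest regular index `≤ 0` (`≥ -128 t`), nothing of `X`, `Y` is left of it (`cut_left`); `Sf f x0 (130 t) ≤ Sf f x0 y ≤ (y - x0)/64` with `y` the first regular index `≥ 130 t`
  (`≤ 258 t`): so each of `X`, `Y` has at most `260 t + 7 t` such edges on the left (`pc_card`), the same on the right: total `≤ 4 * 267 t ≤ 1100 t`.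
-/

set_option autoImplicit false

namespace Pool.Agent.H40.WM

open Pool.Agent.H40.SQ

noncomputable section

private theorem hdom_fsup (u : ℤ) (X Y : Finset Edge) : FSup (ex2 u X Y) := by
  obtain ⟨N1, h1⟩ := ex_fsup u X
  obtain ⟨N2, h2⟩ := ex_fsup u Y
  refine ⟨max N1 N2, fun i hi => ?_⟩
  unfold ex2
  rw [h1 i (lt_of_le_of_lt (le_max_left _ _) hi), h2 i (lt_of_le_of_lt (le_max_right _ _) hi)]

private theorem hdom_HC {u : ℤ} {G : Finset Edge} {f : ℤ → ℕ} (hf : ∀ i, ex u G i ≤ f i) {x : ℤ} (hx : Reg f x) :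
    HC u G x := by
  obtain ⟨h1, h2⟩ := reg_zero hx
  have h3 := hf x
  have h4 := hf (x - 1)
  exact HC_of_ex (by omega) (by omega)

private theorem hdom_uu {n : ℕ} {a b : ℤ × ℤ} {n0 : ℕ} {D : Finset Edge} (hD : Dom n a b n0 D) :
    uu b = uu a + 2 * (n0 : ℕ) ∧ lvl a b = 0 := by
  constructor
  · rw [hD.hb]
    simp only [uu]
    ring
  · rw [hD.hb]
    simp only [lvl, uu, vv]
    omega

private theorem hdom_pb {D : Finset Edge} {a b : ℤ × ℤ} {X Y : Finset Edge} (hX : X ∈ PD D a b) (hY : Y ∈ PD D a b) (ξ : Bool) :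
    Pb X Y ξ ⊆ D ∧ IsP a b (Pb X Y ξ) := by
  refine ⟨?_, pb_isP (mem_PD.1 hX).2 (mem_PD.1 hY).2 ξ⟩
  unfold Pb
  split_ifs
  · exact (mem_PD.1 hY).1
  · exact (mem_PD.1 hX).1

/-- Levels in the middle. -/
private theorem lvl_mid {a b : ℤ × ℤ} {n0 : ℕ} {G : Finset Edge} (hG : IsP a b G) (hm : uu b = uu a + 2 * (n0 : ℕ)) (hlb : lvl a b = 0)
    {f : ℤ → ℕ} (hf : ∀ i, ex (uu a) G i ≤ f i) (hfs : FSup f) {t : ℕ} (ht : 1 ≤ t) (hb : ¬ Bad f t) {e : Edge} (he : e ∈ G)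
    (h1 : 128 * (t : ℤ) ≤ kl (uu a) e) (h2 : kl (uu a) e ≤ n0 - 128 * (t : ℤ)) {z : ℤ × ℤ} (hz : z ∈ ends e) :
    100 * |lvl a z| ≤ kl (uu a) e + 2 ∧ 100 * |lvl a z| ≤ n0 - kl (uu a) e + 1 := by
  obtain ⟨x, hx1, hx2, hxr⟩ := reg_window hfs ht hb (kl (uu a) e - 128 * (t : ℤ) + 1)
  obtain ⟨y, hy1, hy2, hyr⟩ := reg_window hfs ht hb (kl (uu a) e + 1)
  have c1 := cone_right hG n0 hm hf hxr (by omega) (by omega) he (by omega) hz
  have c2 := cone_a hG n0 hm hf hxr (by omega) (by omega)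
  have c3 := cone_left hG n0 hm hf hyr (by omega) (by omega) he (by omega) hz
  have c4 := cone_b hG n0 hm hf hyr (by omega) (by omega)
  rw [hlb, zero_sub, abs_neg] at c4
  have t1 : |lvl a z| ≤ |lvl a z - lp a b G x| + |lp a b G x| := by
    have := abs_add_le (lvl a z - lp a b G x) (lp a b G x)
    rwa [sub_add_cancel] at this
  have t2 : |lvl a z| ≤ |lvl a z - lp a b G y| + |lp a b G y| := by
    have := abs_add_le (lvl a z - lp a b G y) (lp a b G y)
    rwa [sub_add_cancel] at this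
  constructor
  · omega
  · omega

private theorem code_step {a b : ℤ × ℤ} {n0 : ℕ} {X Y : Finset Edge} {t : ℕ} {σ : ℤ → Bool × ℤ} (h : HCode a b n0 X Y t σ) {k : ℤ}
    (h1 : 1 ≤ k) (h2 : k < n0) (h3 : k < 13000 * (t : ℤ) ∨ (n0 : ℤ) - 13000 * (t : ℤ) < k) : σ (k - 1) = σ k := by
  by_contra hne
  have hk : k ∈ Brk n0 σ := by
    unfold Brk
    exact Finset.mem_filter.2 ⟨Finset.mem_Ico.2 ⟨h1, h2⟩, hne⟩
  obtain ⟨_, h4, h5⟩ := h.reg k hk
  omega

/-- No translation near the ends. -/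
private theorem code_t0 {a b : ℤ × ℤ} {n0 : ℕ} {X Y : Finset Edge} {t : ℕ} {σ : ℤ → Bool × ℤ} (h : HCode a b n0 X Y t σ) {k : ℤ}
    (h3 : k < 13000 * (t : ℤ) ∨ (n0 : ℤ) - 13000 * (t : ℤ) ≤ k) : (σ k).2 = 0 := by
  by_cases h1 : k ≤ 0
  · rw [h.left k h1]
    exact h.t0
  by_cases h2 : (n0 : ℤ) - 1 ≤ k
  · rw [h.right k h2]
    exact h.t1
  rcases h3 with h3 | h3
  · have key : ∀ j : ℕ, (j : ℤ) ≤ k → σ (j : ℤ) = σ 0 := by
      intro j
      induction j with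
      | zero => intro _; rfl
      | succ j ih =>
        intro hj
        push_cast at hj ⊢
        rw [← ih (by omega)]
        have h4 := code_step h (k := (j : ℤ) + 1) (by omega) (by omega) (Or.inl (by omega))
        rw [add_sub_cancel_right] at h4
        exact h4.symm
    have h4 := key k.toNat (by omega)
    have h5 : ((k.toNat : ℕ) : ℤ) = k := by omega
    rw [h5] at h4
    rw [h4]
    exact h.t0
  · have key : ∀ j : ℕ, k ≤ (n0 : ℤ) - 1 - j → σ ((n0 : ℤ) - 1 - j) = σ (n0 - 1) := by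
      intro j
      induction j with
      | zero => intro _; simp
      | succ j ih =>
        intro hj
        push_cast at hj ⊢
        rw [← ih (by omega)]
        have h4 := code_step h (k := (n0 : ℤ) - 1 - j) (by omega) (by omega) (Or.inr (by omega))
        have h5 : (n0 : ℤ) - 1 - j - 1 = (n0 : ℤ) - 1 - (j + 1) := by ring
        rw [h5] at h4
        exact h4
    have h4 := key ((n0 : ℤ) - 1 - k).toNat (by omega)
    have h5 : (n0 : ℤ) - 1 - (((n0 : ℤ) - 1 - k).toNat : ℕ) = k := by omega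
    rw [h5] at h4
    rw [h4]
    exact h.t1

private theorem lvl_sh {a z : ℤ × ℤ} {τ : ℤ} : lvl a z = lvl a (z.1 - τ, z.2 - τ) + τ := by
  have h := lvl_shift a (z.1 - τ, z.2 - τ) τ
  simp only [sub_add_cancel] at h
  exact h

/-- Edges of `Zm`. -/
private theorem zm_edge {n : ℕ} {a b : ℤ × ℤ} {n0 : ℕ} {D : Finset Edge} (hD : Dom n a b n0 D) {X Y : Finset Edge} (hX : X ∈ PD D a b) (hY : Y ∈ PD D a b)
    {t : ℕ} (ht : 1 ≤ t) (hb : ¬ Bad (ex2 (uu a) X Y) t) {σ : ℤ → Bool × ℤ} (h : HCode a b n0 X Y t σ) {e : Edge}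
    (he : e ∈ Zm (uu a) X Y σ) :
    (cd a n0 e < 13000 * (t : ℤ) → e ∈ Pb X Y (σ (kl (uu a) e)).1) ∧
      (130 * (t : ℤ) ≤ cd a n0 e → ∀ z ∈ ends e, 100 * |lvl a z| ≤ 9 * cd a n0 e + 4) := by
  obtain ⟨hm, hlb⟩ := hdom_uu hD
  obtain ⟨e0, he0, hee⟩ := mem_Zm.1 he
  obtain ⟨τ, hτ⟩ : ∃ τ : ℤ, τ = (σ (kl (uu a) e)).2 := ⟨_, rfl⟩
  obtain ⟨ξ, hξ⟩ : ∃ ξ : Bool, ξ = (σ (kl (uu a) e)).1 := ⟨_, rfl⟩
  rw [← hτ] at hee
  rw [← hξ] at he0
  rw [← hξ]
  have hkl : kl (uu a) e = kl (uu a) e0 := by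
    rw [hee, kl_shE]
  obtain ⟨hGD, hG⟩ := hdom_pb hX hY ξ
  constructor
  · intro hcd
    have h1 : τ = 0 := by
      rw [hτ]
      apply code_t0 h
      unfold cd at hcd
      rcases min_lt_iff.1 hcd with h2 | h2
      · exact Or.inl h2
      · exact Or.inr (by omega)
    rw [h1] at hee
    have h2 : shE ((0 : ℤ), (0 : ℤ)) e0 = e0 := by
      unfold shE
      simp
    rw [hee, h2]
    exact he0
  · intro hcd z hz
    have hz0 : (z.1 - τ, z.2 - τ) ∈ ends e0 := by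
      rw [hee] at hz
      exact (ends_shE (τ, τ) e0 z).1 hz
    have h1 := min_le_left (kl (uu a) e) ((n0 : ℤ) - kl (uu a) e)
    have h2 := min_le_right (kl (uu a) e) ((n0 : ℤ) - kl (uu a) e)
    have hcd' : cd a n0 e = min (kl (uu a) e) ((n0 : ℤ) - kl (uu a) e) := rfl
    have hmid := lvl_mid hG hm hlb (pb_ex (uu a) X Y ξ) (hdom_fsup (uu a) X Y) ht hb he0
      (by rw [← hkl]; omega) (by rw [← hkl]; omega) hz0
    rw [← hkl] at hmid
    rw [lvl_sh (τ := τ)]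
    have hab := abs_add_le (lvl a (z.1 - τ, z.2 - τ)) τ
    have htb := h.tb (kl (uu a) e)
    rw [← hτ] at htb
    have hcase : kl (uu a) e < 13000 * (t : ℤ) ∨ (n0 : ℤ) - 13000 * (t : ℤ) ≤ kl (uu a) e → τ = 0 := by
      intro h3
      rw [hτ]
      exact code_t0 h h3
    have hmin : min (kl (uu a) e) ((n0 : ℤ) - kl (uu a) e) = kl (uu a) e ∨
        min (kl (uu a) e) ((n0 : ℤ) - kl (uu a) e) = (n0 : ℤ) - kl (uu a) e := min_choice _ _
    rw [hcd'] at hcd ⊢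
    by_cases h3 : kl (uu a) e < 13000 * (t : ℤ) ∨ (n0 : ℤ) - 13000 * (t : ℤ) ≤ kl (uu a) e
    · have h7 : |τ| = 0 := by rw [hcase h3, abs_zero]
      rw [h7] at hab
      omega
    · have h4 : |kl (uu a) e| = kl (uu a) e := abs_of_nonneg (by omega)
      have h5 : |(n0 : ℤ) - kl (uu a) e| = (n0 : ℤ) - kl (uu a) e := abs_of_nonneg (by omega)
      rw [h4, h5] at htb
      omega

/-- Edges of the connectors. -/
private theorem zv_edge {n : ℕ} {a b : ℤ × ℤ} {n0 : ℕ} {D : Finset Edge} (hD : Dom n a b n0 D) {X Y : Finset Edge} (hX : X ∈ PD D a b) (hY : Y ∈ PD D a b)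
    {t : ℕ} (ht : 1 ≤ t) {σ : ℤ → Bool × ℤ} (h : HCode a b n0 X Y t σ) {e : Edge}
    (he : e ∈ Zv a b n0 X Y σ) :
    ∃ k c : ℤ, c ≤ k ∧ c ≤ n0 - k ∧ 13000 * (t : ℤ) ≤ c ∧ (us e = uu a + 2 * k ∨ us e = uu a + 2 * k - 1) ∧
      ∀ z ∈ ends e, 100 * |lvl a z| ≤ 9 * c + 105 := by
  obtain ⟨hm, hlb⟩ := hdom_uu hD
  unfold Zv at he
  obtain ⟨k, hk, he⟩ := Finset.mem_biUnion.1 he
  have hkb : k ∈ Brk n0 σ := by
    unfold Brk
    refine Finset.mem_filter.2 ⟨hk, ?_⟩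
    intro h1
    rw [Zc_eq_empty h1] at he
    exact absurd he (Finset.notMem_empty e)
  obtain ⟨hreg, h1, h2⟩ := h.reg k hkb
  obtain ⟨c, hc1, hc2, hc⟩ : ∃ c : ℤ, c ≤ k ∧ c ≤ (n0 : ℤ) - k ∧ (c = k ∨ c = (n0 : ℤ) - k) :=
    ⟨min k ((n0 : ℤ) - k), min_le_left _ _, min_le_right _ _, min_choice _ _⟩
  have hct : 13000 * (t : ℤ) ≤ c := by
    rcases hc with hc | hc
    · rw [hc]
      exact h1
    · rw [hc]
      omega
  refine ⟨k, c, hc1, hc2, hct, Zc_us he, ?_⟩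
  intro z hz
  have hlp : ∀ ξ : Bool, 100 * |lp a b (Pb X Y ξ) k| ≤ c + 1 := by
    intro ξ
    obtain ⟨hGD, hG⟩ := hdom_pb hX hY ξ
    have c2 := cone_a hG n0 hm (pb_ex (uu a) X Y ξ) hreg (by omega) (by omega)
    have c4 := cone_b hG n0 hm (pb_ex (uu a) X Y ξ) hreg (by omega) (by omega)
    rw [hlb, zero_sub, abs_neg] at c4
    omega
  have hV := Vert_lvl (rfl : vt a k (thl a b X Y k (σ (k - 1))) = vt a k (thl a b X Y k (σ (k - 1)))) he hz
  rw [add_sub_cancel] at hV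
  have hl1 : 100 * |thl a b X Y k (σ (k - 1))| ≤ 9 * c + 5 := by
    unfold thl
    have h3 := hlp (σ (k - 1)).1
    have h4 := h.tb (k - 1)
    have h5 : |k - 1| = k - 1 := abs_of_nonneg (by omega)
    have h6 : |(n0 : ℤ) - (k - 1)| = (n0 : ℤ) - (k - 1) := abs_of_nonneg (by omega)
    have h7 := abs_add_le (lp a b (Pb X Y (σ (k - 1)).1) k) (σ (k - 1)).2
    rw [h5, h6] at h4
    omega
  have hl2 : 100 * |thl a b X Y k (σ k)| ≤ 9 * c + 5 := by
    unfold thl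
    have h3 := hlp (σ k).1
    have h4 := h.tb k
    have h5 : |k| = k := abs_of_nonneg (by omega)
    have h6 : |(n0 : ℤ) - k| = (n0 : ℤ) - k := abs_of_nonneg (by omega)
    have h7 := abs_add_le (lp a b (Pb X Y (σ k).1) k) (σ k).2
    rw [h5, h6] at h4
    omega
  have a1 := abs_le.1 (le_refl |thl a b X Y k (σ (k - 1))|)
  have a2 := abs_le.1 (le_refl |thl a b X Y k (σ k)|)
  have a3 := min_choice (thl a b X Y k (σ (k - 1))) (thl a b X Y k (σ k))
  have a4 := max_choice (thl a b X Y k (σ (k - 1))) (thl a b X Y k (σ k))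
  have a5 : |lvl a z| = lvl a z ∨ |lvl a z| = - lvl a z := abs_choice _
  omega

private theorem zv_cd {a : ℤ × ℤ} {n0 : ℕ} {e : Edge} {k c : ℤ} (h1 : c ≤ k) (h2 : c ≤ n0 - k)
    (h3 : us e = uu a + 2 * k ∨ us e = uu a + 2 * k - 1) : c - 1 ≤ cd a n0 e := by
  unfold cd kl
  rcases h3 with h3 | h3
  · rw [h3]
    have : (uu a + 2 * k - uu a) / 2 = k := by omega
    rw [this]
    omega
  · rw [h3]
    have : (uu a + 2 * k - 1 - uu a) / 2 = k - 1 := by omega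
    rw [this]
    omega

theorem zz_lvl {n : ℕ} {a b : ℤ × ℤ} {n0 : ℕ} {D : Finset Edge} (hD : Dom n a b n0 D) {X Y : Finset Edge} (hX : X ∈ PD D a b) (hY : Y ∈ PD D a b)
    {t : ℕ} (ht : 1 ≤ t) (hb : ¬ Bad (ex2 (uu a) X Y) t) {σ : ℤ → Bool × ℤ} (h : HCode a b n0 X Y t σ) :
    ∀ e ∈ ZZ a b n0 X Y σ, 130 * (t : ℤ) ≤ cd a n0 e → ∀ z ∈ ends e, 4 * |lvl a z| ≤ cd a n0 e + 8 := by
  intro e he hcd z hz
  unfold ZZ at he
  rcases Finset.mem_union.1 he with he | he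
  · have h1 := (zm_edge hD hX hY ht hb h he).2 hcd z hz
    omega
  · obtain ⟨k, c, h1, h2, h3, h4, h5⟩ := zv_edge hD hX hY ht h he
    have h6 := zv_cd h1 h2 h4
    have h7 := h5 z hz
    omega

theorem zz_sub {n : ℕ} {a b : ℤ × ℤ} {n0 : ℕ} {D : Finset Edge} (hD : Dom n a b n0 D) {X Y : Finset Edge} (hX : X ∈ PD D a b) (hY : Y ∈ PD D a b)
    {t : ℕ} (ht : 1 ≤ t) (hb : ¬ Bad (ex2 (uu a) X Y) t) {σ : ℤ → Bool × ℤ} (h : HCode a b n0 X Y t σ) :
    ZZ a b n0 X Y σ ⊆ D := by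
  intro e he
  unfold ZZ at he
  obtain ⟨z, hz⟩ : ∃ z, z ∈ ends e := by
    refine ⟨(e.2.1, e.2.2), ?_⟩
    unfold ends
    split_ifs
    · simp
    · simp
  have huz := ends_uu hz
  rcases Finset.mem_union.1 he with he | he
  · obtain ⟨h1, h2⟩ := zm_edge hD hX hY ht hb h he
    by_cases h3 : cd a n0 e < 13000 * (t : ℤ)
    · exact (hdom_pb hX hY _).1 (h1 h3)
    · have h4 := h2 (by omega) z hz
      have h5 := min_le_left (kl (uu a) e) ((n0 : ℤ) - kl (uu a) e)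
      have h6 := min_le_right (kl (uu a) e) ((n0 : ℤ) - kl (uu a) e)
      have hcd' : cd a n0 e = min (kl (uu a) e) ((n0 : ℤ) - kl (uu a) e) := rfl
      rw [← hcd'] at h5 h6
      have hkl : kl (uu a) e = (us e - uu a) / 2 := rfl
      refine mem_cone hD.cone hz ?_ ?_
      · omega
      · omega
  · obtain ⟨k, c, h1, h2, h3, h4, h5⟩ := zv_edge hD hX hY ht h he
    have h7 := h5 z hz
    refine mem_cone hD.cone hz ?_ ?_
    · omega
    · omega

private theorem near_lf {a b : ℤ × ℤ} {m : ℕ} {G : Finset Edge} (hG : IsP a b G) (hm : uu b = uu a + 2 * m) {f : ℤ → ℕ}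
    (hf : ∀ i, ex (uu a) G i ≤ f i) (hfs : FSup f) {t : ℕ} (ht : 1 ≤ t) (hb : ¬ Bad f t) :
    (lf (uu a) G (130 * (t : ℤ))).card ≤ 265 * t := by
  obtain ⟨x, hx1, hx2, hxr⟩ := reg_window hfs ht hb (-(128 * (t : ℤ)))
  have hx0 : x ≤ 0 := by omega
  have he : lf (uu a) G x = ∅ := cut_left hG m hm x (hdom_HC hf hxr) hx0
  have h1 : lf (uu a) G (130 * (t : ℤ)) = pc (uu a) G x (130 * (t : ℤ)) := by
    unfold lf pc
    apply Finset.filter_congr
    intro e heG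
    constructor
    · intro h
      refine ⟨?_, h⟩
      by_contra hc
      have : e ∈ lf (uu a) G x := Finset.mem_filter.2 ⟨heG, by omega⟩
      rw [he] at this
      exact absurd this (Finset.notMem_empty e)
    · intro h
      exact h.2
  rw [h1, part_card hG m hm x (130 * (t : ℤ))]
  have h2 : (Finset.Ico x (130 * (t : ℤ)) ∩ Finset.Ico 0 (m : ℤ)).card ≤ (130 * (t : ℤ)).toNat := by
    have h3 : Finset.Ico x (130 * (t : ℤ)) ∩ Finset.Ico 0 (m : ℤ) ⊆ Finset.Ico 0 (130 * (t : ℤ)) := by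
      intro i hi
      rw [Finset.mem_inter, Finset.mem_Ico, Finset.mem_Ico] at hi
      rw [Finset.mem_Ico]
      omega
    have h4 := Finset.card_le_card h3
    rw [Int.card_Ico] at h4
    simpa using h4
  have h5 := Sf_mono hf x (130 * (t : ℤ))
  have h6 := hxr.1 (130 * (t : ℤ)) (by omega)
  omega

private theorem near_rt {a b : ℤ × ℤ} {m : ℕ} {G : Finset Edge} (hG : IsP a b G) (hm : uu b = uu a + 2 * m) {f : ℤ → ℕ}
    (hf : ∀ i, ex (uu a) G i ≤ f i) (hfs : FSup f) {t : ℕ} (ht : 1 ≤ t) (hb : ¬ Bad f t) :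
    (rt (uu a) G (m - 130 * (t : ℤ) + 1)).card ≤ 265 * t := by
  obtain ⟨x, hx1, hx2, hxr⟩ := reg_window hfs ht hb (m : ℤ)
  have he : rt (uu a) G x = ∅ := cut_right hG m hm x (hdom_HC hf hxr) hx1
  have h1 : rt (uu a) G (m - 130 * (t : ℤ) + 1) = pc (uu a) G (m - 130 * (t : ℤ) + 1) x := by
    unfold rt pc
    apply Finset.filter_congr
    intro e heG
    constructor
    · intro h
      refine ⟨h, ?_⟩
      by_contra hc
      have : e ∈ rt (uu a) G x := Finset.mem_filter.2 ⟨heG, by omega⟩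
      rw [he] at this
      exact absurd this (Finset.notMem_empty e)
    · intro h
      exact h.1
  rw [h1, part_card hG m hm (m - 130 * (t : ℤ) + 1) x]
  have h2 : (Finset.Ico (m - 130 * (t : ℤ) + 1) x ∩ Finset.Ico 0 (m : ℤ)).card ≤
      ((m : ℤ) - (m - 130 * (t : ℤ) + 1)).toNat := by
    have h3 : Finset.Ico (m - 130 * (t : ℤ) + 1) x ∩ Finset.Ico 0 (m : ℤ) ⊆
        Finset.Ico (m - 130 * (t : ℤ) + 1) m := by
      intro i hi
      rw [Finset.mem_inter, Finset.mem_Ico, Finset.mem_Ico] at hi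
      rw [Finset.mem_Ico]
      omega
    have h4 := Finset.card_le_card h3
    rwa [Int.card_Ico] at h4
  have h5 := Sf_mono hf (m - 130 * (t : ℤ) + 1) x
  have h6 := hxr.2 (m - 130 * (t : ℤ) + 1) (by omega)
  omega

theorem zz_near {n : ℕ} {a b : ℤ × ℤ} {n0 : ℕ} {D : Finset Edge} (hD : Dom n a b n0 D) {X Y : Finset Edge} (hX : X ∈ PD D a b) (hY : Y ∈ PD D a b)
    {t : ℕ} (ht : 1 ≤ t) (hb : ¬ Bad (ex2 (uu a) X Y) t) {σ : ℤ → Bool × ℤ} (h : HCode a b n0 X Y t σ) :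
    ((ZZ a b n0 X Y σ).filter (fun e => cd a n0 e < 130 * (t : ℤ))).card ≤ 1100 * t := by
  classical
  obtain ⟨hm, hlb⟩ := hdom_uu hD
  have hsub : (ZZ a b n0 X Y σ).filter (fun e => cd a n0 e < 130 * (t : ℤ)) ⊆
      (lf (uu a) (Pb X Y false) (130 * (t : ℤ)) ∪ lf (uu a) (Pb X Y true) (130 * (t : ℤ))) ∪
      (rt (uu a) (Pb X Y false) (n0 - 130 * (t : ℤ) + 1) ∪ rt (uu a) (Pb X Y true) (n0 - 130 * (t : ℤ) + 1)) := by
    intro e he
    obtain ⟨he, hcd⟩ := Finset.mem_filter.1 he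
    unfold ZZ at he
    rcases Finset.mem_union.1 he with he | he
    · have h1 := (zm_edge hD hX hY ht hb h he).1 (by omega)
      unfold cd at hcd
      rcases min_lt_iff.1 hcd with h2 | h2
      · apply Finset.mem_union_left
        cases hξ : (σ (kl (uu a) e)).1
        · rw [hξ] at h1
          exact Finset.mem_union_left _ (Finset.mem_filter.2 ⟨h1, h2⟩)
        · rw [hξ] at h1
          exact Finset.mem_union_right _ (Finset.mem_filter.2 ⟨h1, h2⟩)
      · apply Finset.mem_union_right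
        cases hξ : (σ (kl (uu a) e)).1
        · rw [hξ] at h1
          exact Finset.mem_union_left _ (Finset.mem_filter.2 ⟨h1, by omega⟩)
        · rw [hξ] at h1
          exact Finset.mem_union_right _ (Finset.mem_filter.2 ⟨h1, by omega⟩)
    · exfalso
      obtain ⟨k, c, h1, h2, h3, h4, _⟩ := zv_edge hD hX hY ht h he
      have h6 := zv_cd h1 h2 h4
      omega
  have hle := Finset.card_le_card hsub
  have u1 := Finset.card_union_le (lf (uu a) (Pb X Y false) (130 * (t : ℤ)) ∪ lf (uu a) (Pb X Y true) (130 * (t : ℤ)))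
    (rt (uu a) (Pb X Y false) (n0 - 130 * (t : ℤ) + 1) ∪ rt (uu a) (Pb X Y true) (n0 - 130 * (t : ℤ) + 1))
  have u2 := Finset.card_union_le (lf (uu a) (Pb X Y false) (130 * (t : ℤ))) (lf (uu a) (Pb X Y true) (130 * (t : ℤ)))
  have u3 := Finset.card_union_le (rt (uu a) (Pb X Y false) (n0 - 130 * (t : ℤ) + 1))
    (rt (uu a) (Pb X Y true) (n0 - 130 * (t : ℤ) + 1))
  have hfs := hdom_fsup (uu a) X Y
  have l1 := near_lf (hdom_pb hX hY false).2 hm (pb_ex (uu a) X Y false) hfs ht hb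
  have l2 := near_lf (hdom_pb hX hY true).2 hm (pb_ex (uu a) X Y true) hfs ht hb
  have l3 := near_rt (hdom_pb hX hY false).2 hm (pb_ex (uu a) X Y false) hfs ht hb
  have l4 := near_rt (hdom_pb hX hY true).2 hm (pb_ex (uu a) X Y true) hfs ht hb
  omega

/-- Constant codes are admissible and give back `X` and `Y`. -/
theorem const_code (a b : ℤ × ℤ) (n0 : ℕ) (X Y : Finset Edge) (t : ℕ) (ξ : Bool) :
    HCode a b n0 X Y t (fun _ => (ξ, 0)) ∧ ZZ a b n0 X Y (fun _ => (ξ, 0)) = Pb X Y ξ := by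
  have hB : Brk n0 (fun _ : ℤ => ((ξ, 0) : Bool × ℤ)) = ∅ := by
    unfold Brk
    rw [Finset.filter_eq_empty_iff]
    intro k _ hk
    exact hk rfl
  constructor
  · refine ⟨fun _ _ => rfl, fun _ _ => rfl, rfl, rfl, ?_, ?_, ?_, ?_⟩
    · rw [hB]
      simp
    · intro k hk
      rw [hB] at hk
      exact absurd hk (Finset.notMem_empty k)
    · intro k hk
      rw [hB] at hk
      exact absurd hk (Finset.notMem_empty k)
    · intro k
      have h1 := abs_nonneg k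
      have h2 := abs_nonneg ((n0 : ℤ) - k)
      simp only [abs_zero, mul_zero]
      constructor
      · positivity
      · positivity
  · unfold ZZ
    rw [Zm_const (c := (ξ, 0)) (fun _ => rfl), sh_zero]
    have hZ : Zv a b n0 X Y (fun _ : ℤ => ((ξ, 0) : Bool × ℤ)) = ∅ := by
      unfold Zv
      apply Finset.eq_empty_of_forall_notMem
      intro e he
      obtain ⟨k, _, he⟩ := Finset.mem_biUnion.1 he
      rw [Zc_eq_empty rfl] at he
      exact absurd he (Finset.notMem_empty e)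
    rw [hZ, Finset.union_empty]

end

end Pool.Agent.H40.WM
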