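import Mathlib
import Pool.Agent.H40.WM.HBas
import Pool.Agent.H40.WM.HCrd
import Pool.Agent.H40.WM.JPsi
import Pool.Agent.H40.WM.ITai
import Pool.Agent.H40.WM.QSym

/-!
# HPsi: costs

Claim: for every `σ` which is constant on `(-∞,0]` and on `[n0-1,∞)` and whose breaks are regular for `f = ex2`: `psi (Zm σ) + psi (Zm (cmpl σ)) ≤ psi X + psi Y + 12 |Brk σ|`.  Induction on `|Brk σ|`.
No break: `σ` is constant; `Zm_const`, `psi_sh`: equality.  Otherwise `k` = largest break, `σ' j = σ j` for `j < k`, `= σ (k-1)` for `j ≥ k`: its breaks are those of `σ` except `k`.  `Zm σ = lf (Zm σ) k ∪ R`, `R = rt (Zm σ) k = sh (t,t) (rt (Pb ξ) k)`, `(ξ,t) = σ k` (`Zm_rt`); `lf (Zm σ) k = lf (Zm σ') k`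
(`Zm` in the double slices `< k` depends only on `σ` there).  `psi_append` with `V = ∅`: `psi (Zm σ) ≤ psi (lf) + psi R + tail`, the tail of `R` equals that of `rt (Pb ξ) k` (`us_shE`), `≤ 3` (`tail_le`, `pb_ex`); `psi R = psi (rt (Pb ξ) k)`.  The same for `cmpl σ` (with `Pb (!ξ)`); the two `rt`'s are `rt X k` and `rt Y k`.
`psi_cut` for `Zm σ'` and `Zm (cmpl σ')` at `k` (`cmpl σ' = (cmpl σ)'`): `≥ psi (lf) + psi (rt ..) - 3`.  Altogether `≤ ... + 12`.
Then `psi (ZZ σ) ≤ psi (Zm σ) + |Zv|/10` (`psi_union_le`), `zv_card`, at most 7 breaks: `84 + 5460 t`.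
-/

set_option autoImplicit false

namespace Pool.Agent.H40.WM

open Pool.Agent.H40.SQ

noncomputable section

private theorem hs_psi (q : ℝ) (hq0 : 0 < q) (hq1 : q ≤ 1 / 10 ^ 6) (X Y : Finset Edge) (u k : ℤ) (ξ : Bool) :
    psi q (rt u (Pb X Y ξ) k) + psi q (rt u (Pb X Y (!ξ)) k) = psi q (rt u X k) + psi q (rt u Y k) := by
  cases ξ
  · simp [Pb]
  · simp [Pb, add_comm]

private theorem hs_tail {a b : ℤ × ℤ} {X Y : Finset Edge} (hX : IsP a b X) (hY : IsP a b Y) (n0 : ℕ)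
    (hm : uu b = uu a + 2 * n0) {k : ℤ} (hk : Reg (ex2 (uu a) X Y) k) (c : Bool × ℤ) :
    ∑ e ∈ sh (c.2, c.2) (rt (uu a) (Pb X Y c.1) k), ((1 : ℝ) / 2) ^ (us e - (uu a + 2 * k)).toNat ≤ 3 := by
  unfold sh
  rw [Finset.sum_image (fun x _ y _ h => shE_inj _ h)]
  refine le_trans (le_of_eq ?_) (tail_le (pb_isP hX hY c.1) n0 hm (pb_ex (uu a) X Y c.1) hk)
  refine Finset.sum_congr rfl fun e _ => ?_
  rw [us_shE]

/-- one code: upper bound at `k` -/
private theorem hs_up (q : ℝ) (hq0 : 0 < q) (hq1 : q ≤ 1 / 10 ^ 6) {a b : ℤ × ℤ} {X Y : Finset Edge}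
    (hX : IsP a b X) (hY : IsP a b Y) (n0 : ℕ) (hm : uu b = uu a + 2 * n0) {k : ℤ}
    (hk : Reg (ex2 (uu a) X Y) k) {σ : ℤ → Bool × ℤ} {c : Bool × ℤ} (hc : ∀ i, k ≤ i → σ i = c) :
    psi q (Zm (uu a) X Y σ) ≤ psi q (lf (uu a) (Zm (uu a) X Y σ) k) +
      psi q (rt (uu a) (Pb X Y c.1) k) + 3 := by
  have h1 := psi_append q hq0 hq1 (uu a + 2 * k) (N := lf (uu a) (Zm (uu a) X Y σ) k) (V := ∅)
    (T := rt (uu a) (Zm (uu a) X Y σ) k) (fun e he => by
      unfold lf at he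
      rw [Finset.mem_filter] at he
      have h2 := he.2
      unfold kl at h2
      omega) (fun e he => by
      unfold rt at he
      rw [Finset.mem_filter] at he
      have h2 := he.2
      unfold kl at h2
      omega)
  have h2 : lf (uu a) (Zm (uu a) X Y σ) k ∪ ∅ ∪ rt (uu a) (Zm (uu a) X Y σ) k =
      Zm (uu a) X Y σ := by
    unfold lf rt
    ext e
    simp only [Finset.mem_union, Finset.mem_filter, Finset.notMem_empty, or_false]
    constructor
    · rintro (h | h)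
      · exact h.1
      · exact h.1
    · intro h
      rcases lt_or_ge (kl (uu a) e) k with h3 | h3
      · exact Or.inl ⟨h, h3⟩
      · exact Or.inr ⟨h, h3⟩
  rw [h2] at h1
  have h3 := Zm_rt (u := uu a) (X := X) (Y := Y) (x := k) hc
  have h4 := hs_tail hX hY n0 hm hk c
  rw [← h3] at h4
  have h5 : psi q (rt (uu a) (Zm (uu a) X Y σ) k) = psi q (rt (uu a) (Pb X Y c.1) k) := by
    rw [h3]
    exact psi_sh q hq0 hq1 _ _
  rw [h5] at h1
  simp only [Finset.card_empty, Nat.cast_zero, zero_div, add_zero] at h1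
  linarith

/-- one code: lower bound at `k` -/
private theorem hs_dn (q : ℝ) (hq0 : 0 < q) (hq1 : q ≤ 1 / 10 ^ 6) {a b : ℤ × ℤ} {X Y : Finset Edge}
    (hX : IsP a b X) (hY : IsP a b Y) (n0 : ℕ) (hm : uu b = uu a + 2 * n0) {k : ℤ}
    (hk : Reg (ex2 (uu a) X Y) k) {σ : ℤ → Bool × ℤ} {c : Bool × ℤ} (hc : ∀ i, k ≤ i → σ i = c) :
    psi q (lf (uu a) (Zm (uu a) X Y σ) k) + psi q (rt (uu a) (Pb X Y c.1) k) ≤
      psi q (Zm (uu a) X Y σ) + 3 := by
  have h1 := psi_cut q hq0 hq1 (uu a) k (Zm (uu a) X Y σ)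
  have h3 := Zm_rt (u := uu a) (X := X) (Y := Y) (x := k) hc
  have h4 := hs_tail hX hY n0 hm hk c
  rw [← h3] at h4
  have h5 : psi q (rt (uu a) (Zm (uu a) X Y σ) k) = psi q (rt (uu a) (Pb X Y c.1) k) := by
    rw [h3]
    exact psi_sh q hq0 hq1 _ _
  rw [h5] at h1
  linarith

/-- the left part depends only on the code on the left -/
private theorem hs_lf {u : ℤ} {X Y : Finset Edge} {σ σ' : ℤ → Bool × ℤ} {k : ℤ}
    (h : ∀ i, i < k → σ i = σ' i) : lf u (Zm u X Y σ) k = lf u (Zm u X Y σ') k := by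
  unfold lf
  ext e
  rw [Finset.mem_filter, Finset.mem_filter, mem_Zm, mem_Zm]
  constructor
  · rintro ⟨h1, h2⟩
    rw [h _ h2] at h1
    exact ⟨h1, h2⟩
  · rintro ⟨h1, h2⟩
    rw [← h _ h2] at h1
    exact ⟨h1, h2⟩

private theorem hs_const {σ : ℤ → Bool × ℤ} {x y : ℤ} (h : ∀ i, x < i → i < y → σ (i - 1) = σ i)
    (i : ℤ) (h1 : x ≤ i) (h2 : i < y) : σ i = σ x := by
  induction i, h1 using Int.le_induction with
  | base => rfl
  | succ n hn ih =>
    have h3 := h (n + 1) (by omega) h2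
    rw [add_sub_cancel_right] at h3
    rw [← h3]
    exact ih (by omega)

private theorem hs_brk {n0 : ℕ} {σ : ℤ → Bool × ℤ} {i : ℤ} (h : i ∉ Brk n0 σ) (h1 : 1 ≤ i)
    (h2 : i < n0) : σ (i - 1) = σ i := by
  by_contra hne
  apply h
  unfold Brk
  rw [Finset.mem_filter, Finset.mem_Ico]
  exact ⟨⟨h1, h2⟩, hne⟩

private theorem hs_main (q : ℝ) (hq0 : 0 < q) (hq1 : q ≤ 1 / 10 ^ 6) {a b : ℤ × ℤ} {X Y : Finset Edge} (hX : IsP a b X) (hY : IsP a b Y) (n0 : ℕ)
    (hn0 : 1 ≤ n0) (hm : uu b = uu a + 2 * n0) (s : ℕ) :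
    ∀ σ : ℤ → Bool × ℤ, (∀ k, k ≤ 0 → σ k = σ 0) → (∀ k, (n0 : ℤ) - 1 ≤ k → σ k = σ (n0 - 1)) →
      (Brk n0 σ).card = s → (∀ k ∈ Brk n0 σ, Reg (ex2 (uu a) X Y) k) →
      psi q (Zm (uu a) X Y σ) + psi q (Zm (uu a) X Y (cmpl σ)) ≤ psi q X + psi q Y + 12 * s := by
  induction s with
  | zero =>
    intro σ hl hr hs _
    rw [Finset.card_eq_zero] at hs
    have hno : ∀ i, i ∉ Brk n0 σ := by
      intro i
      rw [hs]
      exact Finset.notMem_empty i
    have hc0 : ∀ i, 0 ≤ i → i < (n0 : ℤ) → σ i = σ 0 := by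
      intro i h2 h3
      refine hs_const (x := 0) (y := n0) (fun i h4 h5 => ?_) i h2 h3
      exact hs_brk (hno i) (by omega) h5
    have hc : ∀ i, σ i = σ 0 := by
      intro i
      rcases le_or_gt i 0 with h2 | h2
      · exact hl i h2
      · rcases lt_or_ge i n0 with h3 | h3
        · exact hc0 i h2.le h3
        · rw [hr i (by omega)]
          exact hc0 _ (by omega) (by omega)
    have hc' : ∀ i, cmpl σ i = cmpl σ 0 := by
      intro i
      unfold cmpl
      rw [hc i]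
    rw [Zm_const hc, Zm_const hc', psi_sh q hq0 hq1, psi_sh q hq0 hq1]
    have h1 : (cmpl σ 0).1 = !(σ 0).1 := rfl
    rw [h1]
    push_cast
    cases (σ 0).1
    · simp [Pb]
    · simp [Pb, add_comm]
  | succ s ih =>
    intro σ hl hr hs hreg
    have hne : (Brk n0 σ).Nonempty := by
      rw [← Finset.card_pos]
      omega
    obtain ⟨k, hkdef⟩ : ∃ k, k = (Brk n0 σ).max' hne := ⟨_, rfl⟩
    have hk : k ∈ Brk n0 σ := by rw [hkdef]; exact Finset.max'_mem _ _
    have hkmax : ∀ i ∈ Brk n0 σ, i ≤ k := by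
      intro i hi
      rw [hkdef]
      exact Finset.le_max' _ _ hi
    have hk' : (1 ≤ k ∧ k < n0) ∧ σ (k - 1) ≠ σ k := by
      have h := hk
      unfold Brk at h
      rwa [Finset.mem_filter, Finset.mem_Ico] at h
    have hkreg := hreg k hk
    -- right of `k`
    have hc0 : ∀ i, k ≤ i → i < (n0 : ℤ) → σ i = σ k := by
      intro i h2 h3
      refine hs_const (x := k) (y := n0) (fun i h4 h5 => ?_) i h2 h3
      exact hs_brk (fun h6 => by have := hkmax i h6; omega) (by omega) h5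
    have hck : σ k = σ (n0 - 1) := (hc0 (n0 - 1) (by omega) (by omega)).symm
    have hc : ∀ i, k ≤ i → σ i = σ k := by
      intro i h2
      rcases lt_or_ge i n0 with h3 | h3
      · exact hc0 i h2 h3
      · rw [hr i (by omega), hck]
    have hcc : ∀ i, k ≤ i → cmpl σ i = cmpl σ k := by
      intro i h2
      unfold cmpl
      rw [hc i h2]
    -- the new code
    obtain ⟨σ', hσ'⟩ : ∃ σ' : ℤ → Bool × ℤ, σ' = fun j => if j < k then σ j else σ (k - 1) :=
      ⟨_, rfl⟩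
    have hlt : ∀ i, i < k → σ' i = σ i := by
      intro i hi
      rw [hσ']
      exact if_pos hi
    have hge : ∀ i, k ≤ i → σ' i = σ (k - 1) := by
      intro i hi
      rw [hσ']
      exact if_neg (by omega)
    have hB : Brk n0 σ' = (Brk n0 σ).erase k := by
      ext i
      unfold Brk
      rw [Finset.mem_filter, Finset.mem_erase, Finset.mem_filter, Finset.mem_Ico]
      constructor
      · rintro ⟨h1, h2⟩
        have h3 : i < k := by
          by_contra hcon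
          apply h2
          rw [hge i (by omega)]
          rcases lt_or_ge (i - 1) k with h4 | h4
          · rw [hlt _ h4]
            congr 1
            omega
          · exact hge _ h4
        rw [hlt i h3, hlt (i - 1) (by omega)] at h2
        exact ⟨h3.ne, h1, h2⟩
      · rintro ⟨h1, h2, h3⟩
        have h4 : i ∈ Brk n0 σ := by
          unfold Brk
          rw [Finset.mem_filter, Finset.mem_Ico]
          exact ⟨h2, h3⟩
        have h5 := hkmax i h4
        have h6 : i < k := lt_of_le_of_ne h5 h1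
        rw [hlt i h6, hlt (i - 1) (by omega)]
        exact ⟨h2, h3⟩
    have hs' : (Brk n0 σ').card = s := by
      rw [hB, Finset.card_erase_of_mem hk, hs]
      rfl
    have hreg' : ∀ i ∈ Brk n0 σ', Reg (ex2 (uu a) X Y) i := by
      intro i hi
      rw [hB] at hi
      exact hreg i (Finset.mem_of_mem_erase hi)
    have hl' : ∀ i, i ≤ 0 → σ' i = σ' 0 := by
      intro i hi
      rw [hlt i (by omega), hlt 0 (by omega)]
      exact hl i hi
    have hr' : ∀ i, (n0 : ℤ) - 1 ≤ i → σ' i = σ' (n0 - 1) := by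
      intro i hi
      rw [hge i (by omega), hge _ (by omega)]
    have hIH := ih σ' hl' hr' hs' hreg'
    -- upper bounds
    have u1 := hs_up q hq0 hq1 hX hY n0 hm hkreg hc
    have u2 := hs_up q hq0 hq1 hX hY n0 hm hkreg hcc
    have hgec : ∀ i, k ≤ i → cmpl σ' i = cmpl σ (k - 1) := by
      intro i h2
      unfold cmpl
      rw [hge i h2]
    have d1 := hs_dn q hq0 hq1 hX hY n0 hm hkreg hge
    have d2 := hs_dn q hq0 hq1 hX hY n0 hm hkreg hgec
    have l1 : lf (uu a) (Zm (uu a) X Y σ) k = lf (uu a) (Zm (uu a) X Y σ') k :=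
      hs_lf fun i hi => (hlt i hi).symm
    have l2 : lf (uu a) (Zm (uu a) X Y (cmpl σ)) k = lf (uu a) (Zm (uu a) X Y (cmpl σ')) k :=
      hs_lf fun i hi => by
        unfold cmpl
        rw [hlt i hi]
    have p1 := hs_psi q hq0 hq1 X Y (uu a) k (σ k).1
    have p2 := hs_psi q hq0 hq1 X Y (uu a) k (σ (k - 1)).1
    have c1 : (cmpl σ k).1 = !(σ k).1 := rfl
    have c2 : (cmpl σ (k - 1)).1 = !(σ (k - 1)).1 := rfl
    rw [c1, l2] at u2
    rw [c2] at d2
    rw [l1] at u1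
    push_cast
    linarith

theorem zz_psi (q : ℝ) (hq0 : 0 < q) (hq1 : q ≤ 1 / 10 ^ 6) {a b : ℤ × ℤ} {X Y : Finset Edge} (hX : IsP a b X) (hY : IsP a b Y) (n0 : ℕ)
    (hn0 : 1 ≤ n0) (hm : uu b = uu a + 2 * n0) {t : ℕ} {σ : ℤ → Bool × ℤ} (h : HCode a b n0 X Y t σ) :
    psi q (ZZ a b n0 X Y σ) + psi q (ZZ a b n0 X Y (cmpl σ)) ≤ psi q X + psi q Y + 84 + 5460 * t := by
  have h1 := hs_main q hq0 hq1 hX hY n0 hn0 hm _ σ h.left h.right rfl (fun k hk => (h.reg k hk).1)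
  have h2 := psi_union_le q hq0 hq1 (Zm (uu a) X Y σ) (Zv a b n0 X Y σ)
  have h3 := psi_union_le q hq0 hq1 (Zm (uu a) X Y (cmpl σ)) (Zv a b n0 X Y (cmpl σ))
  have h4 := zv_card h
  have h5 := zv_card (cmpl_code h)
  have h6 : (((Zv a b n0 X Y σ).card : ℕ) : ℝ) ≤ 27300 * t := by exact_mod_cast h4
  have h7 : (((Zv a b n0 X Y (cmpl σ)).card : ℕ) : ℝ) ≤ 27300 * t := by exact_mod_cast h5
  have h8 : (((Brk n0 σ).card : ℕ) : ℝ) ≤ 7 := by exact_mod_cast h.card
  have e1 : ZZ a b n0 X Y σ = Zm (uu a) X Y σ ∪ Zv a b n0 X Y σ := rfl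
  have e2 : ZZ a b n0 X Y (cmpl σ) = Zm (uu a) X Y (cmpl σ) ∪ Zv a b n0 X Y (cmpl σ) := rfl
  rw [e1, e2]
  linarith

end

end Pool.Agent.H40.WM
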