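import Mathlib
import Pool.Agent.H40.WM.HPsi
import Pool.Agent.H40.WM.HDom
import Pool.Agent.H40.WM.HPth
import Pool.Agent.H40.WM.TW

/-!
# HWt: the product of the weights

`Z = ZZ σ`, `W = ZZ (cmpl σ)`; both are in `PD D a b` (`zz_isP`, `zz_sub`, `cmpl_code`).  `psiD_cone` (`T0`, `L = 130 t ≥ 3 T0 + 8` since `T0 ≤ t`; `zz_lvl`, `|Z| ≤ |D| ≤ 2^T0`): `psiD Z ≤ psi Z + 1 + 110 t` (`zz_near`), the same for `W`; and for the constant codes: `psi X ≤ psiD X + 1 + 110 t`, `psi Y ≤ ...`.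
So `psiD Z + psiD W ≤ psi X + psi Y + 84 + 5460 t + 2 + 220 t ≤ psiD X + psiD Y + 88 + 5900 t`, and `|Z| + |W| ≤ |X| + |Y| + 54600 t` (`zz_card`).
`omD X omD Y ≤ (1/q)^(54600 t) exp(88 + 5900 t) omD Z omD W ≤ (36/q)^(60000 t) omD Z omD W` (`exp 1 ≤ 36`, `t ≥ 1`).
-/

set_option autoImplicit false

namespace Pool.Agent.H40.WM

open Pool.Agent.H40.SQ

noncomputable section

theorem zz_PD {n : ℕ} {a b : ℤ × ℤ} {n0 : ℕ} {D : Finset Edge} (hD : Dom n a b n0 D) {X Y : Finset Edge} (hX : X ∈ PD D a b) (hY : Y ∈ PD D a b)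
    {t : ℕ} (ht : 1 ≤ t) (hb : ¬ Bad (ex2 (uu a) X Y) t) {σ : ℤ → Bool × ℤ} (h : HCode a b n0 X Y t σ) :
    ZZ a b n0 X Y σ ∈ PD D a b := by
  have hm : uu b = uu a + 2 * n0 := by
    rw [hD.hb]
    simp only [uu]
    ring
  exact mem_PD.2 ⟨zz_sub hD hX hY ht hb h,
    zz_isP (mem_PD.1 hX).2 (mem_PD.1 hY).2 n0 hD.pos hm h.left h.right h.t0 h.t1 (code_hc h)⟩

private theorem zz_cost (q : ℝ) (hq0 : 0 < q) (hq1 : q ≤ 1 / 10 ^ 6) {n : ℕ} {a b : ℤ × ℤ} {n0 : ℕ} {D : Finset Edge} (hD : Dom n a b n0 D)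
    {X Y : Finset Edge} (hX : X ∈ PD D a b) (hY : Y ∈ PD D a b) {t : ℕ} (ht : 1 ≤ t) (hT : 4 * n ^ 2 ≤ 2 ^ t)
    (hb : ¬ Bad (ex2 (uu a) X Y) t) {σ : ℤ → Bool × ℤ} (h : HCode a b n0 X Y t σ) :
    |psiD q D (ZZ a b n0 X Y σ) - psi q (ZZ a b n0 X Y σ)| ≤ 1 + 110 * (t : ℝ) := by
  have hc : (ZZ a b n0 X Y σ).card ≤ 2 ^ t :=
    ((Finset.card_le_card (zz_sub hD hX hY ht hb h)).trans hD.card).trans hT
  have hL : 3 * (t : ℤ) + 8 ≤ 130 * (t : ℤ) := by omega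
  have h1 := psiD_cone q hq0 hq1 hD.cone (ZZ a b n0 X Y σ) t (130 * (t : ℤ)) hc hL (zz_lvl hD hX hY ht hb h)
  have h2 : (((ZZ a b n0 X Y σ).filter (fun e => cd a n0 e < 130 * (t : ℤ))).card : ℝ) ≤ 1100 * (t : ℝ) := by
    exact_mod_cast zz_near hD hX hY ht hb h
  linarith

theorem zz_weight (q : ℝ) (hq0 : 0 < q) (hq1 : q ≤ 1 / 10 ^ 6) {n : ℕ} {a b : ℤ × ℤ} {n0 : ℕ} {D : Finset Edge} (hD : Dom n a b n0 D) {X Y : Finset Edge}
    (hX : X ∈ PD D a b) (hY : Y ∈ PD D a b) {t : ℕ} (ht : 1 ≤ t) (hT : 4 * n ^ 2 ≤ 2 ^ t) (hb : ¬ Bad (ex2 (uu a) X Y) t) {σ : ℤ → Bool × ℤ}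
    (h : HCode a b n0 X Y t σ) :
    omD q D X * omD q D Y ≤ (36 / q) ^ (60000 * t) * (omD q D (ZZ a b n0 X Y σ) * omD q D (ZZ a b n0 X Y (cmpl σ))) := by
  have hm : uu b = uu a + 2 * n0 := by
    rw [hD.hb]
    simp only [uu]
    ring
  have htr : (1 : ℝ) ≤ t := by exact_mod_cast ht
  have hq1' : q ≤ 1 := hq1.trans (by norm_num)
  have k1 := abs_le.1 (zz_cost q hq0 hq1 hD hX hY ht hT hb h)
  have k2 := abs_le.1 (zz_cost q hq0 hq1 hD hX hY ht hT hb (cmpl_code h))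
  have k3 := abs_le.1 (zz_cost q hq0 hq1 hD hX hY ht hT hb (const_code a b n0 X Y t false).1)
  have k4 := abs_le.1 (zz_cost q hq0 hq1 hD hX hY ht hT hb (const_code a b n0 X Y t true).1)
  rw [(const_code a b n0 X Y t false).2] at k3
  rw [(const_code a b n0 X Y t true).2] at k4
  have e3 : Pb X Y false = X := by simp [Pb]
  have e4 : Pb X Y true = Y := by simp [Pb]
  rw [e3] at k3
  rw [e4] at k4
  have k5 := zz_psi q hq0 hq1 (mem_PD.1 hX).2 (mem_PD.1 hY).2 n0 hD.pos hm h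
  have k6 := zz_card h
  obtain ⟨Z, hZ⟩ : ∃ Z, Z = ZZ a b n0 X Y σ := ⟨_, rfl⟩
  obtain ⟨W, hW⟩ : ∃ W, W = ZZ a b n0 X Y (cmpl σ) := ⟨_, rfl⟩
  rw [← hZ] at k1 k5 k6 ⊢
  rw [← hW] at k2 k5 k6 ⊢
  have hsum : psiD q D Z + psiD q D W ≤ psiD q D X + psiD q D Y + 60000 * (t : ℝ) := by
    linarith [k1.2, k2.2, k3.1, k4.1]
  unfold omD
  have a1 : q ^ X.card * Real.exp (- psiD q D X) * (q ^ Y.card * Real.exp (- psiD q D Y)) =
      q ^ (X.card + Y.card) * Real.exp (- (psiD q D X + psiD q D Y)) := by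
    rw [pow_add, neg_add, Real.exp_add]
    ring
  have a2 : q ^ Z.card * Real.exp (- psiD q D Z) * (q ^ W.card * Real.exp (- psiD q D W)) =
      q ^ (Z.card + W.card) * Real.exp (- (psiD q D Z + psiD q D W)) := by
    rw [pow_add, neg_add, Real.exp_add]
    ring
  rw [a1, a2]
  have b1 : Real.exp (- (psiD q D X + psiD q D Y)) ≤ 36 ^ (60000 * t) * Real.exp (- (psiD q D Z + psiD q D W)) := by
    have c1 : Real.exp (60000 * (t : ℝ)) ≤ 36 ^ (60000 * t) := by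
      have c2 : Real.exp (60000 * (t : ℝ)) = Real.exp 1 ^ (60000 * t) := by
        rw [← Real.exp_nat_mul]
        congr 1
        push_cast
        ring
      rw [c2]
      exact pow_le_pow_left₀ (Real.exp_pos 1).le (by linarith [Real.exp_one_lt_d9]) _
    calc Real.exp (- (psiD q D X + psiD q D Y))
        ≤ Real.exp (60000 * (t : ℝ) + - (psiD q D Z + psiD q D W)) := Real.exp_le_exp.2 (by linarith)
      _ = Real.exp (60000 * (t : ℝ)) * Real.exp (- (psiD q D Z + psiD q D W)) := Real.exp_add _ _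
      _ ≤ _ := mul_le_mul_of_nonneg_right c1 (Real.exp_pos _).le
  have b2 : q ^ (X.card + Y.card) ≤ (1 / q) ^ (60000 * t) * q ^ (Z.card + W.card) := by
    have c1 : q ^ (X.card + Y.card + 60000 * t) ≤ q ^ (Z.card + W.card) :=
      pow_le_pow_of_le_one hq0.le hq1' (by omega)
    have c2 : (1 / q) ^ (60000 * t) * q ^ (X.card + Y.card + 60000 * t) = q ^ (X.card + Y.card) := by
      rw [pow_add, one_div, inv_pow]
      have hne : q ^ (60000 * t) ≠ 0 := pow_ne_zero _ hq0.ne'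
      field_simp
    calc q ^ (X.card + Y.card) = (1 / q) ^ (60000 * t) * q ^ (X.card + Y.card + 60000 * t) := c2.symm
      _ ≤ _ := mul_le_mul_of_nonneg_left c1 (pow_nonneg (by positivity) _)
  have b3 : (36 / q) ^ (60000 * t) = (1 / q) ^ (60000 * t) * 36 ^ (60000 * t) := by
    rw [← mul_pow]
    congr 1
    ring
  rw [b3]
  calc q ^ (X.card + Y.card) * Real.exp (- (psiD q D X + psiD q D Y))
      ≤ ((1 / q) ^ (60000 * t) * q ^ (Z.card + W.card)) * (36 ^ (60000 * t) * Real.exp (- (psiD q D Z + psiD q D W))) :=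
        mul_le_mul b2 b1 (Real.exp_pos _).le (mul_nonneg (pow_nonneg (by positivity) _) (pow_nonneg hq0.le _))
    _ = _ := by ring

end

end Pool.Agent.H40.WM
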