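import Mathlib
import Pool.Agent.H40.WM.HPth
import Pool.Agent.H40.WM.HCrd
import Pool.Agent.H40.WM.HWt
import Pool.Agent.H40.WM.TPt
import Pool.Agent.H40.WM.IRis

/-!
# HLoc: a step changes the path only locally

Let `HStp σ σ'` with `x < y`.  Define `M = (part of Zm σ in the block) ∪ (Zc σ x if x ≠ -1) ∪ (Zc σ y if y ≠ n0+1)`, where the block is `{k : (x = -1 or x ≤ k) and (y = n0+1 or k < y)}`; `M'` the same with `σ'`.  The rest of `ZZ σ`: `Zm σ` outside the block (there `σ = σ'`) and the `Zc σ k` with `k ≠ x, y`; inside the block there are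
no breaks, and for `k` outside the closed block `σ (k-1) = σ' (k-1)`, `σ k = σ' k`: so the rest is the same set `Q` for `σ'`.  `M` and `Q` are disjoint, `M'` and `Q` are disjoint: pieces in different double slices; connectors at different lines are in different slices (`Zc_us`); connector against `Zm`: `Zm_Zv_disj`.
So `ZZ σ' = (ZZ σ \ M) ∪ M'`, `M ⊆ ZZ σ`, `M' ⊆ ZZ σ'`.
`M` is a path from `P` to `Q'`, `P = a` if `x = -1`, else `vt a x (thl x (σ (x-1)))`, `Q' = b` if `y = n0+1`, else `vt a y (thl y (σ y))`: `σ` is constant on the block `= (ξ,τ)`, the middle piece is `sh (τ,τ) (pc/lf/rt/all of Pb ξ)` (`τ = 0` if `x = -1` or `y = n0 + 1`, by `t0`, `t1`, `left`, `right`); paste with the connectors as in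
`JApp` (`paste3`/`Conn_union`; only connectedness of `M` and the fact that it has an edge at `P` are needed).  The same for `M'` with the same `P` (since `σ (x-1) = σ' (x-1)`), so `M ∪ M'` is connected (`Conn_union`) and nonempty.
Sizes: the middle piece: let `x' = max x 0..`, it is contained in the part of `Pb ξ` between regular lines: if `x ≠ -1` and `y ≠ n0+1` between `x` and `y`; if `x = -1` use the largest regular index `x0 ≤ 0`, `x0 ≥ -128 t` (nothing left of it), similarly `y0 ≤ n0 + 128 t` on the right: at most `2 * 26400 t + Sf f x0 y0`, and `Sf f x0 y0 ≤ (y0 - x0)/64 ≤ 500 t`;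
connectors: `2 * 2 * 1950 t`.  Total `≤ 52800 t + 500 t + 7800 t ≤ 62000 t`.
-/

set_option autoImplicit false

namespace Pool.Agent.H40.WM

open Pool.Agent.H40.SQ

noncomputable section

private theorem hl_const {σ : ℤ → Bool × ℤ} {x y : ℤ} (h : ∀ i, x < i → i < y → σ (i - 1) = σ i)
    (i : ℤ) (h1 : x ≤ i) (h2 : i < y) : σ i = σ x := by
  induction i, h1 using Int.le_induction with
  | base => rfl
  | succ n hn ih =>
    have h3 := h (n + 1) (by omega) h2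
    rw [add_sub_cancel_right] at h3
    rw [← h3]
    exact ih (by omega)

private theorem hl_brk {n0 : ℕ} {σ : ℤ → Bool × ℤ} {i : ℤ} (h : i ∉ Brk n0 σ) (h1 : 1 ≤ i)
    (h2 : i < n0) : σ (i - 1) = σ i := by
  by_contra hne
  apply h
  unfold Brk
  rw [Finset.mem_filter, Finset.mem_Ico]
  exact ⟨⟨h1, h2⟩, hne⟩

/-- connector at `k` unless `k = s` -/
private def hlC (a b : ℤ × ℤ) (X Y : Finset Edge) (σ : ℤ → Bool × ℤ) (s k : ℤ) : Finset Edge :=
  if k = s then ∅ else Zc a b X Y σ k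

/-- the block -/
private def hlM (a b : ℤ × ℤ) (n0 : ℕ) (X Y : Finset Edge) (σ : ℤ → Bool × ℤ) (x y x' y' : ℤ) : Finset Edge :=
  hlC a b X Y σ (-1) x ∪ pc (uu a) (Zm (uu a) X Y σ) x' y' ∪ hlC a b X Y σ ((n0 : ℤ) + 1) y

/-- the rest -/
private def hlQ (a b : ℤ × ℤ) (n0 : ℕ) (X Y : Finset Edge) (σ : ℤ → Bool × ℤ) (x y x' y' : ℤ) : Finset Edge :=
  (Zm (uu a) X Y σ).filter (fun e => ¬ (x' ≤ kl (uu a) e ∧ kl (uu a) e < y')) ∪
    ((Finset.Ico 1 (n0 : ℤ)).filter (fun k => k ≠ x ∧ k ≠ y)).biUnion (Zc a b X Y σ)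

/-- block data -/
private structure HB (n0 : ℕ) (x y x' y' : ℤ) : Prop where
  pos : 1 ≤ n0
  hx : (x = -1 ∧ x' ≤ 0) ∨ (x' = x ∧ 1 ≤ x ∧ x < n0)
  hy : (y = n0 + 1 ∧ (n0 : ℤ) ≤ y') ∨ (y' = y ∧ 1 ≤ y ∧ y < n0)
  lt : x < y

private theorem hl_union {a b : ℤ × ℤ} {n0 : ℕ} {X Y : Finset Edge} {σ : ℤ → Bool × ℤ} {x y x' y' : ℤ} (hB : HB n0 x y x' y') :
    ZZ a b n0 X Y σ = hlM a b n0 X Y σ x y x' y' ∪ hlQ a b n0 X Y σ x y x' y' := by
  obtain ⟨h0, hx, hy, hlt⟩ := hB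
  unfold ZZ Zv hlM hlQ hlC pc
  ext e
  simp only [Finset.mem_union, Finset.mem_filter, Finset.mem_biUnion, Finset.mem_Ico]
  constructor
  · rintro (h | ⟨k, hk, hek⟩)
    · by_cases hb : x' ≤ kl (uu a) e ∧ kl (uu a) e < y'
      · exact Or.inl (Or.inl (Or.inr ⟨h, hb⟩))
      · exact Or.inr (Or.inl ⟨h, hb⟩)
    · by_cases h1 : k = x
      · subst h1
        refine Or.inl (Or.inl (Or.inl ?_))
        rw [if_neg (by omega)]
        exact hek
      by_cases h2 : k = y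
      · subst h2
        refine Or.inl (Or.inr ?_)
        rw [if_neg (by omega)]
        exact hek
      exact Or.inr (Or.inr ⟨k, ⟨hk, h1, h2⟩, hek⟩)
  · rintro (((h | h) | h) | (h | ⟨k, hk, hek⟩))
    · by_cases h1 : x = -1
      · rw [if_pos h1] at h
        exact absurd h (Finset.notMem_empty _)
      · rw [if_neg h1] at h
        exact Or.inr ⟨x, by omega, h⟩
    · exact Or.inl h.1
    · by_cases h1 : y = n0 + 1
      · rw [if_pos h1] at h
        exact absurd h (Finset.notMem_empty _)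
      · rw [if_neg h1] at h
        exact Or.inr ⟨y, by omega, h⟩
    · exact Or.inl h.1
    · exact Or.inr ⟨k, hk.1, hek⟩

private theorem hl_disj {a b : ℤ × ℤ} {n0 : ℕ} {X Y : Finset Edge} (hX : IsP a b X) (hY : IsP a b Y) (hm : uu b = uu a + 2 * n0)
    {t : ℕ} {σ : ℤ → Bool × ℤ} (h : HCode a b n0 X Y t σ) {x y x' y' : ℤ} (hB : HB n0 x y x' y') :
    Disjoint (hlM a b n0 X Y σ x y x' y') (hlQ a b n0 X Y σ x y x' y') := by
  obtain ⟨h0, hx, hy, hlt⟩ := hB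
  have hd := Zm_Zv_disj hX hY n0 hm (code_hc h)
  rw [Finset.disjoint_left] at hd ⊢
  have hv : ∀ {e : Edge} {k : ℤ}, 1 ≤ k → k < n0 → e ∈ Zc a b X Y σ k → e ∈ Zv a b n0 X Y σ := by
    intro e k h1 h2 h3
    unfold Zv
    rw [Finset.mem_biUnion]
    exact ⟨k, Finset.mem_Ico.2 ⟨h1, h2⟩, h3⟩
  have hu : ∀ {e : Edge} {k j : ℤ}, e ∈ Zc a b X Y σ k → e ∈ Zc a b X Y σ j → k = j := by
    intro e k j h1 h2
    rcases Zc_us h1 with h3 | h3 <;> rcases Zc_us h2 with h4 | h4 <;> omega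
  intro e
  unfold hlM hlQ hlC pc
  simp only [Finset.mem_union, Finset.mem_filter, Finset.mem_biUnion, Finset.mem_Ico]
  rintro ((h1 | h1) | h1) (h2 | ⟨k, hk, h2⟩)
  · by_cases h3 : x = -1
    · rw [if_pos h3] at h1
      exact Finset.notMem_empty _ h1
    · rw [if_neg h3] at h1
      exact hd h2.1 (hv (by omega) (by omega) h1)
  · by_cases h3 : x = -1
    · rw [if_pos h3] at h1
      exact Finset.notMem_empty _ h1
    · rw [if_neg h3] at h1
      exact hk.2.1 (hu h2 h1)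
  · exact h2.2 h1.2
  · exact hd h1.1 (hv hk.1.1 hk.1.2 h2)
  · by_cases h3 : y = n0 + 1
    · rw [if_pos h3] at h1
      exact Finset.notMem_empty _ h1
    · rw [if_neg h3] at h1
      exact hd h2.1 (hv (by omega) (by omega) h1)
  · by_cases h3 : y = n0 + 1
    · rw [if_pos h3] at h1
      exact Finset.notMem_empty _ h1
    · rw [if_neg h3] at h1
      exact hk.2.2 (hu h2 h1)

private theorem hl_cst {a b : ℤ × ℤ} {n0 : ℕ} {X Y : Finset Edge} {t : ℕ} {σ : ℤ → Bool × ℤ} (h : HCode a b n0 X Y t σ)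
    {x y x' y' : ℤ} (hB : HB n0 x y x' y') (hn : ∀ k ∈ Brk n0 σ, ¬ (x < k ∧ k < y)) :
    ∀ k, x' ≤ k → k < y' → σ k = σ (max x 0) := by
  obtain ⟨h0, hx, hy, hlt⟩ := hB
  have hmid : ∀ k, max x 0 ≤ k → k < min y n0 → σ k = σ (max x 0) := by
    intro k h1 h2
    refine hl_const (x := max x 0) (y := min y n0) (fun i h3 h4 => ?_) k h1 h2
    exact hl_brk (fun h5 => hn i h5 (by omega)) (by omega) (by omega)
  intro k h1 h2
  rcases lt_or_ge k (max x 0) with h3 | h3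
  · have h4 : max x 0 = 0 := by omega
    rw [h4]
    exact h.left k (by omega)
  rcases lt_or_ge k (min y n0) with h4 | h4
  · exact hmid k h3 h4
  · rw [h.right k (by omega)]
    exact hmid _ (by omega) (by omega)

private theorem hl_pt_nonpos (a b : ℤ × ℤ) (m : ℕ) (G : Finset Edge) {x : ℤ} (hx : x ≤ 0) : pt a b m G x = a := by
  unfold pt lp
  rw [if_pos hx, max_eq_left (le_trans (min_le_left _ _) hx)]
  unfold vt
  ext
  · simp
  · simp

private theorem hl_pt_mid (a b : ℤ × ℤ) (m : ℕ) (G : Finset Edge) {x : ℤ} (hx0 : 0 ≤ x) (hx : x ≤ m) :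
    pt a b m G x = vt a x (lp a b G x) := by
  unfold pt
  rw [min_eq_left hx, max_eq_right hx0]

private theorem hl_Zc_isP (a b : ℤ × ℤ) (X Y : Finset Edge) (σ : ℤ → Bool × ℤ) (k : ℤ) :
    IsP (vt a k (thl a b X Y k (σ (k - 1)))) (vt a k (thl a b X Y k (σ k))) (Zc a b X Y σ k) := by
  have h1 := Vert_isP (vt a k (thl a b X Y k (σ (k - 1)))) (thl a b X Y k (σ k) - thl a b X Y k (σ (k - 1)))
  rw [← vt_shift] at h1
  have h2 : thl a b X Y k (σ (k - 1)) + (thl a b X Y k (σ k) - thl a b X Y k (σ (k - 1))) = thl a b X Y k (σ k) := by ring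
  rw [h2] at h1
  exact h1

private theorem hl_hc {u : ℤ} {X Y : Finset Edge} {k : ℤ} (h : Reg (ex2 u X Y) k) (ξ : Bool) : HC u (Pb X Y ξ) k := by
  have h1 := reg_zero h
  unfold ex2 at h1
  exact pb_hc (HC_of_ex (by omega) (by omega)) (HC_of_ex (by omega) (by omega)) ξ

/-- connectedness of the block -/
private theorem hl_conn {a b : ℤ × ℤ} {n0 : ℕ} {X Y : Finset Edge} (hX : IsP a b X) (hY : IsP a b Y) (hm : uu b = uu a + 2 * n0)
    {t : ℕ} {σ : ℤ → Bool × ℤ} (h : HCode a b n0 X Y t σ) {x y x' y' : ℤ} (hB : HB n0 x y x' y')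
    (hn : ∀ k ∈ Brk n0 σ, ¬ (x < k ∧ k < y)) (hrx : Reg (ex2 (uu a) X Y) x') (hry : Reg (ex2 (uu a) X Y) y') :
    Conn (hlM a b n0 X Y σ x y x' y') ∧
      ∃ e ∈ hlM a b n0 X Y σ x y x' y', (if x = -1 then a else vt a x (thl a b X Y x (σ (x - 1)))) ∈ ends e := by
  have hc := hl_cst h hB hn
  obtain ⟨h0, hx, hy, hlt⟩ := hB
  obtain ⟨c, hcd⟩ : ∃ c, c = σ (max x 0) := ⟨_, rfl⟩
  rw [← hcd] at hc
  have hxy : x' ≤ y' := by omega
  have hP0 := pt_pc (pb_isP hX hY c.1) n0 hm (hl_hc hrx c.1) (hl_hc hry c.1) hxy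
  have hne0 : (pc (uu a) (Pb X Y c.1) x' y').Nonempty := by
    rw [Finset.nonempty_iff_ne_empty]
    intro he
    have h1 := (IsP_empty_iff hP0).1 he
    have h2 := congrArg uu h1
    unfold pt at h2
    rw [vt_uu, vt_uu] at h2
    omega
  have hP1 := IsP_sh hP0 (c.2, c.2)
  have hmid : pc (uu a) (Zm (uu a) X Y σ) x' y' = sh (c.2, c.2) (pc (uu a) (Pb X Y c.1) x' y') := Zm_pc hc
  rw [← hmid] at hP1
  have hne1 : (pc (uu a) (Zm (uu a) X Y σ) x' y').Nonempty := by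
    rw [hmid]
    unfold sh
    exact hne0.image _
  obtain ⟨⟨e1, he1, hpe1⟩, ⟨e2, he2, hpe2⟩⟩ := IsP_touch hP1 hne1
  -- left connector
  have hL : IsP (if x = -1 then a else vt a x (thl a b X Y x (σ (x - 1))))
      ((pt a b n0 (Pb X Y c.1) x').1 + (c.2, c.2).1, (pt a b n0 (Pb X Y c.1) x').2 + (c.2, c.2).2) (hlC a b X Y σ (-1) x) := by
    unfold hlC
    rcases hx with ⟨hx1, hx2⟩ | ⟨hx1, hx2, hx3⟩
    · rw [if_pos hx1, if_pos hx1, hl_pt_nonpos _ _ _ _ hx2]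
      have h3 : c.2 = 0 := by
        rw [hcd, hx1]
        exact h.t0
      rw [h3]
      simp only [add_zero]
      exact IsP_empty a
    · rw [if_neg (by omega), if_neg (by omega), hx1, hl_pt_mid _ _ _ _ (by omega) (by omega)]
      have h3 : c = σ x := by rw [hcd, max_eq_left (by omega)]
      have h4 := hl_Zc_isP a b X Y σ x
      have h5 : vt a x (thl a b X Y x (σ x)) = ((vt a x (lp a b (Pb X Y c.1) x)).1 + (c.2, c.2).1, (vt a x (lp a b (Pb X Y c.1) x)).2 + (c.2, c.2).2) := by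
        rw [← vt_shift, h3]
        rfl
      rw [h5] at h4
      exact h4
  -- right connector
  have hR : ∃ q, IsP ((pt a b n0 (Pb X Y c.1) y').1 + (c.2, c.2).1, (pt a b n0 (Pb X Y c.1) y').2 + (c.2, c.2).2) q
      (hlC a b X Y σ ((n0 : ℤ) + 1) y) := by
    unfold hlC
    rcases hy with ⟨hy1, hy2⟩ | ⟨hy1, hy2, hy3⟩
    · rw [if_pos hy1]
      exact ⟨_, IsP_empty _⟩
    · rw [if_neg (by omega), hy1, hl_pt_mid _ _ _ _ (by omega) (by omega)]
      have h3 : σ (y - 1) = c := hc (y - 1) (by omega) (by omega)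
      refine ⟨vt a y (thl a b X Y y (σ y)), ?_⟩
      have h4 := hl_Zc_isP a b X Y σ y
      have h5 : vt a y (thl a b X Y y (σ (y - 1))) = ((vt a y (lp a b (Pb X Y c.1) y)).1 + (c.2, c.2).1, (vt a y (lp a b (Pb X Y c.1) y)).2 + (c.2, c.2).2) := by
        rw [← vt_shift, h3]
        rfl
      rw [h5] at h4
      exact h4
  obtain ⟨q, hR⟩ := hR
  -- left part
  have hLc : Conn (hlC a b X Y σ (-1) x ∪ pc (uu a) (Zm (uu a) X Y σ) x' y') ∧
      ∃ e ∈ hlC a b X Y σ (-1) x ∪ pc (uu a) (Zm (uu a) X Y σ) x' y',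
        (if x = -1 then a else vt a x (thl a b X Y x (σ (x - 1)))) ∈ ends e := by
    rcases Finset.eq_empty_or_nonempty (hlC a b X Y σ (-1) x) with he | he
    · have h1 := (IsP_empty_iff hL).1 he
      rw [he, Finset.empty_union, h1]
      exact ⟨hP1.conn, e1, he1, hpe1⟩
    · obtain ⟨⟨f1, hf1, hpf1⟩, ⟨f2, hf2, hpf2⟩⟩ := IsP_touch hL he
      refine ⟨Conn_union hL.conn hP1.conn ⟨f2, hf2, e1, he1, _, hpf2, hpe1⟩, f1, Finset.mem_union_left _ hf1, hpf1⟩
  obtain ⟨hL1, f, hf, hpf⟩ := hLc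
  unfold hlM
  refine ⟨?_, f, Finset.mem_union_left _ hf, hpf⟩
  apply Conn_union_or hL1 hR.conn
  intro _ h2
  obtain ⟨⟨g1, hg1, hpg1⟩, _⟩ := IsP_touch hR h2
  exact ⟨e2, Finset.mem_union_right _ he2, g1, hg1, _, hpe2, hpg1⟩

private theorem hl_C_card {a b : ℤ × ℤ} {n0 : ℕ} {X Y : Finset Edge} {t : ℕ} {σ : ℤ → Bool × ℤ} (h : HCode a b n0 X Y t σ)
    {s k : ℤ} (hk : k = s ∨ (1 ≤ k ∧ k < n0)) : (hlC a b X Y σ s k).card ≤ 3900 * t := by
  unfold hlC
  split_ifs with h1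
  · simp
  · rcases hk with hk | hk
    · exact absurd hk h1
    by_cases hb : k ∈ Brk n0 σ
    · have h2 := h.mis k hb
      unfold Zc
      rw [Vert_card]
      rw [← Int.natCast_natAbs] at h2
      omega
    · rw [Zc_eq_empty (hl_brk hb hk.1 hk.2)]
      simp

/-- size of the block -/
private theorem hl_card {a b : ℤ × ℤ} {n0 : ℕ} {X Y : Finset Edge} (hX : IsP a b X) (hY : IsP a b Y) (hm : uu b = uu a + 2 * n0)
    {t : ℕ} {σ : ℤ → Bool × ℤ} (h : HCode a b n0 X Y t σ) {x y x' y' : ℤ} (hB : HB n0 x y x' y')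
    (hn : ∀ k ∈ Brk n0 σ, ¬ (x < k ∧ k < y)) (hrx : Reg (ex2 (uu a) X Y) x') (hxy : y - x ≤ 26400 * (t : ℤ))
    (hxy' : y' - x' ≤ 26656 * (t : ℤ)) : (hlM a b n0 X Y σ x y x' y').card ≤ 62000 * t := by
  have hc := hl_cst h hB hn
  obtain ⟨h0, hx, hy, hlt⟩ := hB
  obtain ⟨c, hcd⟩ : ∃ c, c = σ (max x 0) := ⟨_, rfl⟩
  rw [← hcd] at hc
  have h1 : (pc (uu a) (Zm (uu a) X Y σ) x' y').card = (pc (uu a) (Pb X Y c.1) x' y').card := by
    rw [Zm_pc hc]
    unfold sh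
    exact Finset.card_image_of_injective _ (shE_inj _)
  have h2 := pc_card (pb_isP hX hY c.1) n0 hm (x := x') (y := y') (by omega)
  have h3 := Sf_mono (pb_ex (uu a) X Y c.1) x' y'
  have h4 := hrx.1 y' (by omega)
  have h5 := hl_C_card h (s := -1) (k := x) (by omega)
  have h6 := hl_C_card h (s := (n0 : ℤ) + 1) (k := y) (by omega)
  have h7 : (hlM a b n0 X Y σ x y x' y').card ≤ (hlC a b X Y σ (-1) x).card + (pc (uu a) (Zm (uu a) X Y σ) x' y').card +
      (hlC a b X Y σ ((n0 : ℤ) + 1) y).card := by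
    unfold hlM
    exact le_trans (Finset.card_union_le _ _) (Nat.add_le_add_right (Finset.card_union_le _ _) _)
  rw [h1] at h7
  have h8 : (max 0 (min y' (n0 : ℤ)) - max 0 (min x' (n0 : ℤ))) ≤ 26400 * (t : ℤ) := by omega
  omega

/-- the rest does not change -/
private theorem hl_rest {a b : ℤ × ℤ} {n0 : ℕ} {X Y : Finset Edge} (hX : IsP a b X) (hY : IsP a b Y) (hm : uu b = uu a + 2 * n0)
    {σ σ' : ℤ → Bool × ℤ} {x y x' y' : ℤ} (hB : HB n0 x y x' y')
    (hrx : Reg (ex2 (uu a) X Y) x') (hry : Reg (ex2 (uu a) X Y) y')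
    (he : ∀ k, (x ≠ -1 ∧ k < x) ∨ (y ≠ n0 + 1 ∧ y ≤ k) → σ k = σ' k)
    (hn : ∀ k ∈ Brk n0 σ ∪ Brk n0 σ', ¬ (x < k ∧ k < y)) :
    hlQ a b n0 X Y σ x y x' y' = hlQ a b n0 X Y σ' x y x' y' := by
  obtain ⟨h0, hx, hy, hlt⟩ := hB
  unfold hlQ
  congr 1
  · have hl : ∀ ξ, x = -1 → ∀ e ∈ Pb X Y ξ, x' ≤ kl (uu a) e := by
      intro ξ hx1 e hee
      by_contra hlt'
      have h1 := cut_left (pb_isP hX hY ξ) n0 hm x' (hl_hc hrx ξ) (by omega)
      have h2 : e ∈ lf (uu a) (Pb X Y ξ) x' := by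
        unfold lf
        exact Finset.mem_filter.2 ⟨hee, by omega⟩
      rw [h1] at h2
      exact Finset.notMem_empty _ h2
    have hr : ∀ ξ, y = n0 + 1 → ∀ e ∈ Pb X Y ξ, kl (uu a) e < y' := by
      intro ξ hy1 e hee
      by_contra hlt'
      have h1 := cut_right (pb_isP hX hY ξ) n0 hm y' (hl_hc hry ξ) (by omega)
      have h2 : e ∈ rt (uu a) (Pb X Y ξ) y' := by
        unfold rt
        exact Finset.mem_filter.2 ⟨hee, by omega⟩
      rw [h1] at h2
      exact Finset.notMem_empty _ h2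
    have key : ∀ τ τ' : ℤ → Bool × ℤ, (∀ k, (x ≠ -1 ∧ k < x) ∨ (y ≠ n0 + 1 ∧ y ≤ k) → τ k = τ' k) →
        ∀ e ∈ Zm (uu a) X Y τ, ¬ (x' ≤ kl (uu a) e ∧ kl (uu a) e < y') → e ∈ Zm (uu a) X Y τ' := by
      intro τ τ' hτ e hee hnb
      rw [mem_Zm] at hee ⊢
      obtain ⟨e0, he0, hee0⟩ := hee
      have hk : kl (uu a) e = kl (uu a) e0 := by rw [hee0, kl_shE]
      have h1 : τ (kl (uu a) e) = τ' (kl (uu a) e) := by
        apply hτ
        by_cases hx1 : x = -1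
        · have h2 := hl _ hx1 e0 he0
          by_cases hy1 : y = n0 + 1
          · have h3 := hr _ hy1 e0 he0
            exfalso
            exact hnb ⟨by omega, by omega⟩
          · right
            refine ⟨hy1, ?_⟩
            by_contra h4
            exact hnb ⟨by omega, by omega⟩
        · by_cases hy1 : y = n0 + 1
          · have h3 := hr _ hy1 e0 he0
            left
            refine ⟨hx1, ?_⟩
            by_contra h4
            exact hnb ⟨by omega, by omega⟩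
          · by_cases h5 : kl (uu a) e < x
            · exact Or.inl ⟨hx1, h5⟩
            · right
              refine ⟨hy1, ?_⟩
              by_contra h4
              exact hnb ⟨by omega, by omega⟩
      rw [← h1]
      exact ⟨e0, he0, hee0⟩
    ext e
    rw [Finset.mem_filter, Finset.mem_filter]
    constructor
    · rintro ⟨h1, h2⟩
      exact ⟨key σ σ' he e h1 h2, h2⟩
    · rintro ⟨h1, h2⟩
      exact ⟨key σ' σ (fun k hk => (he k hk).symm) e h1 h2, h2⟩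
  · apply Finset.biUnion_congr rfl
    intro k hk
    rw [Finset.mem_filter, Finset.mem_Ico] at hk
    by_cases h1 : x < k ∧ k < y
    · have h2 : k ∉ Brk n0 σ := fun h3 => hn k (Finset.mem_union_left _ h3) h1
      have h3 : k ∉ Brk n0 σ' := fun h3 => hn k (Finset.mem_union_right _ h3) h1
      rw [Zc_eq_empty (hl_brk h2 hk.1.1 hk.1.2), Zc_eq_empty (hl_brk h3 hk.1.1 hk.1.2)]
    · have h2 : σ k = σ' k := he k (by omega)
      have h3 : σ (k - 1) = σ' (k - 1) := he (k - 1) (by omega)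
      unfold Zc
      rw [h2, h3]

private theorem hl_fsup (u : ℤ) (X Y : Finset Edge) : FSup (ex2 u X Y) := by
  obtain ⟨N, hN⟩ := ex_fsup u X
  obtain ⟨N', hN'⟩ := ex_fsup u Y
  refine ⟨max N N', fun i hi => ?_⟩
  unfold ex2
  rw [hN i (lt_of_le_of_lt (le_max_left _ _) hi), hN' i (lt_of_le_of_lt (le_max_right _ _) hi)]

theorem zz_loc {n : ℕ} {a b : ℤ × ℤ} {n0 : ℕ} {D : Finset Edge} (hD : Dom n a b n0 D) {X Y : Finset Edge} (hX : X ∈ PD D a b) (hY : Y ∈ PD D a b)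
    {t : ℕ} (ht : 1 ≤ t) (hb : ¬ Bad (ex2 (uu a) X Y) t) {σ σ' : ℤ → Bool × ℤ} (h : HStp a b n0 X Y t σ σ') :
    ∃ M M' : Finset Edge, Loc (62000 * t) D M M' ∧ M ⊆ ZZ a b n0 X Y σ ∧ Disjoint (ZZ a b n0 X Y σ \ M) M' ∧
      ZZ a b n0 X Y σ' = (ZZ a b n0 X Y σ \ M) ∪ M' := by
  obtain ⟨hXD, hXp⟩ := mem_PD.1 hX
  obtain ⟨hYD, hYp⟩ := mem_PD.1 hY
  have hm : uu b = uu a + 2 * n0 := by
    rw [hD.hb]
    unfold uu
    simp only
    ring
  obtain ⟨c1, c2, x, y, hx, hy, hlt, hxy, he, hn⟩ := h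
  have hfs := hl_fsup (uu a) X Y
  have ht' : (1 : ℤ) ≤ t := by exact_mod_cast ht
  have h0' : (1 : ℤ) ≤ n0 := by exact_mod_cast hD.pos
  obtain ⟨x', hx1, hx2, hx3⟩ : ∃ x', Reg (ex2 (uu a) X Y) x' ∧ ((x = -1 ∧ x' ≤ 0) ∨ (x' = x ∧ 1 ≤ x ∧ x < n0)) ∧
      x - 128 * (t : ℤ) ≤ x' := by
    rcases hx with hx | ⟨hx, hx', hx''⟩
    · obtain ⟨x', h1, h2, h3⟩ := reg_window hfs ht hb (-1 - 128 * (t : ℤ))
      exact ⟨x', h3, Or.inl ⟨hx, by omega⟩, by omega⟩
    · exact ⟨x, hx, Or.inr ⟨rfl, by omega, by omega⟩, by omega⟩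
  obtain ⟨y', hy1, hy2, hy3⟩ : ∃ y', Reg (ex2 (uu a) X Y) y' ∧ ((y = n0 + 1 ∧ (n0 : ℤ) ≤ y') ∨ (y' = y ∧ 1 ≤ y ∧ y < n0)) ∧
      y' ≤ y + 128 * (t : ℤ) := by
    rcases hy with hy | ⟨hy, hy', hy''⟩
    · obtain ⟨y', h1, h2, h3⟩ := reg_window hfs ht hb n0
      exact ⟨y', h3, Or.inl ⟨hy, h1⟩, by omega⟩
    · exact ⟨y, hy, Or.inr ⟨rfl, by omega, by omega⟩, by omega⟩
  have hB : HB n0 x y x' y' := ⟨hD.pos, hx2, hy2, hlt⟩
  have hn1 : ∀ k ∈ Brk n0 σ, ¬ (x < k ∧ k < y) := fun k hk => hn k (Finset.mem_union_left _ hk)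
  have hn2 : ∀ k ∈ Brk n0 σ', ¬ (x < k ∧ k < y) := fun k hk => hn k (Finset.mem_union_right _ hk)
  have hU1 := hl_union (a := a) (b := b) (X := X) (Y := Y) (σ := σ) hB
  have hU2 := hl_union (a := a) (b := b) (X := X) (Y := Y) (σ := σ') hB
  have hd1 := hl_disj hXp hYp hm c1 hB
  have hd2 := hl_disj hXp hYp hm c2 hB
  obtain ⟨hC1, e1, he1, hp1⟩ := hl_conn hXp hYp hm c1 hB hn1 hx1 hy1
  obtain ⟨hC2, e2, he2, hp2⟩ := hl_conn hXp hYp hm c2 hB hn2 hx1 hy1
  have hk1 := hl_card hXp hYp hm c1 hB hn1 hx1 hxy (by omega)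
  have hk2 := hl_card hXp hYp hm c2 hB hn2 hx1 hxy (by omega)
  have hQ := hl_rest hXp hYp hm hB hx1 hy1 he hn
  have hD1 := (mem_PD.1 (zz_PD hD hX hY ht hb c1)).1
  have hD2 := (mem_PD.1 (zz_PD hD hX hY ht hb c2)).1
  have hPP : (if x = -1 then a else vt a x (thl a b X Y x (σ (x - 1)))) = (if x = -1 then a else vt a x (thl a b X Y x (σ' (x - 1)))) := by
    by_cases h1 : x = -1
    · rw [if_pos h1, if_pos h1]
    · rw [if_neg h1, if_neg h1, he (x - 1) (Or.inl ⟨h1, by omega⟩)]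
  have hsd : ZZ a b n0 X Y σ \ hlM a b n0 X Y σ x y x' y' = hlQ a b n0 X Y σ x y x' y' := by
    rw [hU1, Finset.union_sdiff_left]
    exact Finset.sdiff_eq_self_of_disjoint hd1.symm
  refine ⟨hlM a b n0 X Y σ x y x' y', hlM a b n0 X Y σ' x y x' y', ⟨?_, ?_, ?_, ?_, hk1, hk2⟩, ?_, ?_, ?_⟩
  · refine subset_trans ?_ hD1
    rw [hU1]
    exact Finset.subset_union_left
  · refine subset_trans ?_ hD2
    rw [hU2]
    exact Finset.subset_union_left
  · refine Conn_union hC1 hC2 ⟨e1, he1, e2, he2, _, hp1, ?_⟩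
    rw [hPP]
    exact hp2
  · exact ⟨e1, Finset.mem_union_left _ he1⟩
  · rw [hU1]
    exact Finset.subset_union_left
  · rw [hsd, hQ]
    exact hd2.symm
  · rw [hsd, hQ, hU2, Finset.union_comm]

end

end Pool.Agent.H40.WM
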