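import Mathlib
import Pool.Agent.H40.WM.HDefs

/-!
# HSet: a finite set containing all codes

Parameters: `p : Fin 7 → ℤ` with values in `[1, n0+1]` and `v : Fin 8 → Bool × ℤ` with second components in `[-B, B]`; the code is `k ↦ v (#{i : p i ≤ k})`.  A code with at most 7 breaks, constant on `(-∞,0]` and on `[n0-1,∞)`: let `p` enumerate the breaks increasingly (extended by `n0 + 1`) and `v j` = the value after `j` breaks
(`v j = σ (p (j-1))`, `v 0 = σ 0`).  Number of parameters `≤ (n0+1)^7 (2 (2B+1))^8`.  Use `Fintype.piFinset` and `Finset.image`.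
-/

set_option autoImplicit false

namespace Pool.Agent.H40.WM

open Pool.Agent.H40.SQ

noncomputable section

/-- Number of elements of `S` up to `k`. -/
private def hcnt (S : Finset ℤ) (k : ℤ) : ℕ := (S.filter (fun s => s ≤ k)).card

private def hcode (P : (Fin 7 → ℤ) × (Fin 8 → Bool × ℤ)) (k : ℤ) : Bool × ℤ :=
  if h : hcnt (Finset.univ.image P.1) k < 8 then P.2 ⟨hcnt (Finset.univ.image P.1) k, h⟩ else (false, 0)

private theorem hcnt_lt (p : Fin 7 → ℤ) (k : ℤ) : hcnt (Finset.univ.image p) k < 8 := by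
  unfold hcnt
  have h1 : ((Finset.univ.image p).filter (fun s => s ≤ k)).card ≤ (Finset.univ.image p).card :=
    Finset.card_filter_le _ _
  have h2 : (Finset.univ.image p).card ≤ (Finset.univ : Finset (Fin 7)).card := Finset.card_image_le
  rw [Finset.card_univ, Fintype.card_fin] at h2
  omega

private theorem hconst {n0 : ℕ} {σ : ℤ → Bool × ℤ} (hr : ∀ k, (n0 : ℤ) - 1 ≤ k → σ k = σ (n0 - 1)) (x : ℤ) (hx : 0 ≤ x) (d : ℕ)
    (hd : ∀ s ∈ Brk n0 σ, ¬ (x < s ∧ s ≤ x + d)) : σ (x + d) = σ x := by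
  induction d with
  | zero => simp
  | succ d ih =>
    have h1 : σ (x + d) = σ x := ih (fun s hs h => hd s hs ⟨h.1, by push_cast; linarith [h.2]⟩)
    rw [← h1]
    have e1 : x + ((d + 1 : ℕ) : ℤ) - 1 = x + d := by push_cast; ring
    by_cases hk : x + ((d + 1 : ℕ) : ℤ) < n0
    · by_contra hne
      have hm : x + ((d + 1 : ℕ) : ℤ) ∈ Brk n0 σ := by
        unfold Brk
        rw [Finset.mem_filter, Finset.mem_Ico]
        refine ⟨⟨by push_cast; omega, hk⟩, ?_⟩
        rw [e1]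
        exact fun h => hne h.symm
      exact hd _ hm ⟨by push_cast; omega, le_refl _⟩
    · rw [hr (x + ((d + 1 : ℕ) : ℤ)) (by omega), hr (x + d) (by push_cast at hk; omega)]

private theorem hsame {n0 : ℕ} {σ : ℤ → Bool × ℤ} (hl : ∀ k, k ≤ 0 → σ k = σ 0) (hr : ∀ k, (n0 : ℤ) - 1 ≤ k → σ k = σ (n0 - 1))
    {S : Finset ℤ} (hS : Brk n0 σ ⊆ S) {k k' : ℤ} (hkk : k ≤ k') (hc : hcnt S k = hcnt S k') : σ k = σ k' := by
  have hno : ∀ s ∈ S, ¬ (k < s ∧ s ≤ k') := by
    intro s hs h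
    have h1 : S.filter (fun s => s ≤ k) ⊂ S.filter (fun s => s ≤ k') := by
      rw [Finset.ssubset_iff_of_subset]
      · exact ⟨s, Finset.mem_filter.2 ⟨hs, h.2⟩, fun h2 => by
          have := (Finset.mem_filter.1 h2).2
          linarith [h.1]⟩
      · intro r hr
        exact Finset.mem_filter.2 ⟨(Finset.mem_filter.1 hr).1, (Finset.mem_filter.1 hr).2.trans hkk⟩
    have h2 := Finset.card_lt_card h1
    unfold hcnt at hc
    omega
  by_cases hk' : k' ≤ 0
  · rw [hl k' hk', hl k (hkk.trans hk')]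
  · obtain ⟨x, hx⟩ : ∃ x : ℤ, x = max k 0 := ⟨_, rfl⟩
    have hx0 : 0 ≤ x := by rw [hx]; exact le_max_right _ _
    have hxk : k ≤ x := by rw [hx]; exact le_max_left _ _
    have hxk' : x ≤ k' := by rw [hx]; exact max_le hkk (by omega)
    have h1 : σ k = σ x := by
      by_cases h0 : k ≤ 0
      · have : x = 0 := by rw [hx]; exact max_eq_right h0
        rw [this, hl k h0]
      · have : x = k := by rw [hx]; exact max_eq_left (by omega)
        rw [this]
    rw [h1]
    have h2 := hconst hr x hx0 (k' - x).toNat (fun s hs h => hno s (hS hs) ⟨lt_of_le_of_lt hxk h.1, by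
      have := h.2
      rw [Int.toNat_of_nonneg (by omega)] at this
      omega⟩)
    rw [Int.toNat_of_nonneg (by omega)] at h2
    rw [← h2]
    congr 1
    ring

open Classical in
theorem codes_finset (n0 B : ℕ) : ∃ V : Finset (ℤ → Bool × ℤ), V.card ≤ (n0 + 1) ^ 7 * (2 * (2 * B + 1)) ^ 8 ∧
    ∀ σ : ℤ → Bool × ℤ, (∀ k, k ≤ 0 → σ k = σ 0) → (∀ k, (n0 : ℤ) - 1 ≤ k → σ k = σ (n0 - 1)) → (Brk n0 σ).card ≤ 7 →
      (∀ k, |(σ k).2| ≤ B) → σ ∈ V := by
  refine ⟨((Fintype.piFinset (fun _ : Fin 7 => Finset.Icc (1 : ℤ) (n0 + 1))) ×ˢ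
    (Fintype.piFinset (fun _ : Fin 8 => (Finset.univ : Finset Bool) ×ˢ Finset.Icc (-(B : ℤ)) B))).image hcode, ?_, ?_⟩
  · refine Finset.card_image_le.trans ?_
    rw [Finset.card_product, Fintype.card_piFinset, Fintype.card_piFinset, Finset.prod_const, Finset.prod_const,
      Finset.card_univ, Finset.card_univ, Fintype.card_fin, Fintype.card_fin, Int.card_Icc, Finset.card_product,
      Int.card_Icc, Finset.card_univ, Fintype.card_bool]
    have e1 : ((n0 : ℤ) + 1 + 1 - 1).toNat = n0 + 1 := by omega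
    have e2 : ((B : ℤ) + 1 - -(B : ℤ)).toNat = 2 * B + 1 := by omega
    rw [e1, e2]
  · intro σ hl hr hc hB
    have hcard : Fintype.card (Brk n0 σ) ≤ Fintype.card (Fin 7) := by
      rw [Fintype.card_coe, Fintype.card_fin]
      exact hc
    obtain ⟨e⟩ := Function.Embedding.nonempty_of_card_le hcard
    obtain ⟨p, hp⟩ : ∃ p : Fin 7 → ℤ, p = Function.extend e (fun s => (s : ℤ)) (fun _ => (n0 : ℤ) + 1) := ⟨_, rfl⟩
    have hp1 : ∀ s : Brk n0 σ, p (e s) = s := fun s => by
      rw [hp]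
      exact e.injective.extend_apply _ _ s
    have hp2 : ∀ i, p i ∈ Finset.Icc (1 : ℤ) (n0 + 1) := by
      intro i
      by_cases hi : ∃ s, e s = i
      · obtain ⟨s, rfl⟩ := hi
        rw [hp1]
        have h1 := s.2
        unfold Brk at h1
        have h2 := Finset.mem_Ico.1 (Finset.mem_filter.1 h1).1
        exact Finset.mem_Icc.2 ⟨h2.1, by linarith [h2.2]⟩
      · rw [hp, Function.extend_apply' _ _ _ hi]
        exact Finset.mem_Icc.2 ⟨by omega, le_refl _⟩
    have hsub : Brk n0 σ ⊆ Finset.univ.image p := by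
      intro s hs
      exact Finset.mem_image.2 ⟨e ⟨s, hs⟩, Finset.mem_univ _, hp1 ⟨s, hs⟩⟩
    obtain ⟨v, hv⟩ : ∃ v : Fin 8 → Bool × ℤ, v = fun j : Fin 8 =>
        if h : ∃ k, hcnt (Finset.univ.image p) k = (j : ℕ) then σ h.choose else (false, 0) := ⟨_, rfl⟩
    have hv2 : ∀ j, v j ∈ (Finset.univ : Finset Bool) ×ˢ Finset.Icc (-(B : ℤ)) B := by
      intro j
      rw [Finset.mem_product]
      refine ⟨Finset.mem_univ _, Finset.mem_Icc.2 (abs_le.1 ?_)⟩
      rw [hv]
      by_cases h : ∃ k, hcnt (Finset.univ.image p) k = (j : ℕ)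
      · simp only [dif_pos h]
        exact hB _
      · simp only [dif_neg h]
        simp
    refine Finset.mem_image.2 ⟨(p, v), Finset.mem_product.2 ⟨Fintype.mem_piFinset.2 hp2, Fintype.mem_piFinset.2 hv2⟩, ?_⟩
    funext k
    unfold hcode
    rw [dif_pos (hcnt_lt p k), hv]
    have h : ∃ k', hcnt (Finset.univ.image p) k' = ((⟨hcnt (Finset.univ.image p) k, hcnt_lt p k⟩ : Fin 8) : ℕ) := ⟨k, rfl⟩
    simp only [dif_pos h]
    have h1 := h.choose_spec
    rcases le_total h.choose k with h2 | h2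
    · exact hsame hl hr hsub h2 h1
    · exact (hsame hl hr hsub h2 h1.symm).symm

end

end Pool.Agent.H40.WM
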