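import Mathlib
import Pool.Agent.H40.WM.QDefs

/-!
# KChn: a chain inequality

Among all chains from `x` to `y` take one with pairwise distinct vertices (all in `V`, so with at most `|V|` vertices), e.g. via
`SimpleGraph` on the subtype `V` with adjacency `a ≠ b ∧ (r a b ∨ r b a)`: reachable implies a path (`Walk.toPath`), whose vertices are distinct;
or by strong induction on the size of the set of allowed vertices: claim for `S ⊆ V`: if `ReflTransGen` of `r` restricted to `S` connects `x,y` then
there is a list.  Then `(f x - f y)^2 ≤ (number of steps) * ∑ over the steps (f a - f b)^2` (Cauchy-Schwarz, `sq_sum_le_card_mul_sum_sq`),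
and each step is a pair `(u,v) ∈ V × V` with `r u v` or `r v u`, distinct steps are distinct ordered pairs; `(f u - f v)^2` is symmetric, so the sum over the steps is at
most twice the sum over the ordered pairs with `r u v` (each unordered pair is used once).
-/

set_option autoImplicit false

namespace Pool.Agent.H40.WM

open Pool.Agent.H40.SQ

noncomputable section

private theorem kchn_avoid {α : Type} (R : α → α → Prop) (x y : α) (hxy : x ≠ y) {a : α}
    (h : Relation.ReflTransGen R a y) :
    (a ≠ x ∧ Relation.ReflTransGen (fun u v => R u v ∧ u ≠ x ∧ v ≠ x) a y) ∨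
      ∃ z, R x z ∧ z ≠ x ∧ Relation.ReflTransGen (fun u v => R u v ∧ u ≠ x ∧ v ≠ x) z y := by
  induction h using Relation.ReflTransGen.head_induction_on with
  | refl => exact Or.inl ⟨hxy.symm, Relation.ReflTransGen.refl⟩
  | @head a c hac hcy ih =>
    rcases ih with ⟨h1, h2⟩ | h1
    · by_cases ha : a = x
      · exact Or.inr ⟨c, ha ▸ hac, h1, h2⟩
      · exact Or.inl ⟨ha, Relation.ReflTransGen.head ⟨hac, ha, h1⟩ h2⟩
    · exact Or.inr h1

open Classical in
private theorem kchn_main {α : Type} (r : α → α → Prop) (f : α → ℝ) (n : ℕ) :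
    ∀ S : Finset α, S.card = n → ∀ x ∈ S, ∀ y,
      Relation.ReflTransGen (fun a b => r a b ∧ a ∈ S ∧ b ∈ S) x y →
      (f x - f y) ^ 2 ≤ (S.card : ℝ) * ∑ u ∈ S, ∑ v ∈ S.filter (fun v => r u v), (f u - f v) ^ 2 := by
  induction n with
  | zero =>
    intro S hS x hx
    rw [Finset.card_eq_zero] at hS
    rw [hS] at hx
    exact absurd hx (Finset.notMem_empty x)
  | succ n ih =>
    intro S hS x hx y h
    have hT : ∀ S' : Finset α,
        0 ≤ ∑ u ∈ S', ∑ v ∈ S'.filter (fun v => r u v), (f u - f v) ^ 2 := fun S' =>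
      Finset.sum_nonneg fun u _ => Finset.sum_nonneg fun v _ => sq_nonneg _
    by_cases hxy : x = y
    · rw [← hxy, sub_self]
      have h1 := hT S
      have h2 : (0 : ℝ) ^ 2 = 0 := by norm_num
      rw [h2]
      positivity
    · obtain ⟨h1, _⟩ | ⟨z, hz, hzx, hzy⟩ := kchn_avoid _ x y hxy h
      · exact absurd rfl h1
      have hzS' : z ∈ S.erase x := Finset.mem_erase.2 ⟨hzx, hz.2.2⟩
      have hcard : (S.erase x).card = n := by
        rw [Finset.card_erase_of_mem hx, hS]
        rfl
      have h3 : Relation.ReflTransGen (fun a b => r a b ∧ a ∈ S.erase x ∧ b ∈ S.erase x) z y := by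
        refine Relation.ReflTransGen.mono
          (p := fun a b => r a b ∧ a ∈ S.erase x ∧ b ∈ S.erase x) (fun u v huv => ?_) z y hzy
        exact ⟨huv.1.1, Finset.mem_erase.2 ⟨huv.2.1, huv.1.2.1⟩,
          Finset.mem_erase.2 ⟨huv.2.2, huv.1.2.2⟩⟩
      have h4 := ih (S.erase x) hcard z hzS' y h3
      have hn : 0 < n := hcard ▸ Finset.card_pos.2 ⟨z, hzS'⟩
      have hnR : (0 : ℝ) < n := by exact_mod_cast hn
      have h5 : (f x - f z) ^ 2 +
          ∑ u ∈ S.erase x, ∑ v ∈ (S.erase x).filter (fun v => r u v), (f u - f v) ^ 2 ≤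
          ∑ u ∈ S, ∑ v ∈ S.filter (fun v => r u v), (f u - f v) ^ 2 := by
        rw [← Finset.add_sum_erase S _ hx]
        refine add_le_add ?_ (Finset.sum_le_sum fun u _ => ?_)
        · exact Finset.single_le_sum (f := fun v => (f x - f v) ^ 2) (fun v _ => sq_nonneg _)
            (Finset.mem_filter.2 ⟨hz.2.2, hz.1⟩)
        · exact Finset.sum_le_sum_of_subset_of_nonneg
            (Finset.filter_subset_filter _ (Finset.erase_subset x S)) fun v _ _ => sq_nonneg _
      rw [hcard] at h4
      rw [hS]
      push_cast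
      set T := ∑ u ∈ S.erase x, ∑ v ∈ (S.erase x).filter (fun v => r u v), (f u - f v) ^ 2
      have h6 : (f x - f y) ^ 2 ≤ ((n : ℝ) + 1) * ((f x - f z) ^ 2 + T) := by
        have e : f x - f y = (f x - f z) + (f z - f y) := by ring
        rw [e]
        have h7 : 2 * ((f x - f z) * (f z - f y)) ≤
            n * (f x - f z) ^ 2 + (f z - f y) ^ 2 / n := by
          have h8 : 0 ≤ (n * (f x - f z) - (f z - f y)) ^ 2 / n := by positivity
          have h9 : (n * (f x - f z) - (f z - f y)) ^ 2 / n =
              n * (f x - f z) ^ 2 + (f z - f y) ^ 2 / n - 2 * ((f x - f z) * (f z - f y)) := by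
            field_simp
            ring
          linarith
        have h10 : (f z - f y) ^ 2 / n ≤ T := by
          rw [div_le_iff₀ hnR]
          linarith
        nlinarith
      exact h6.trans (mul_le_mul_of_nonneg_left h5 (by positivity))

open Classical in
theorem chain_sq {α : Type} (V : Finset α) (r : α → α → Prop) (hr : ∀ a b, r a b → a ∈ V ∧ b ∈ V)
    {x y : α} (hx : x ∈ V) (h : Relation.ReflTransGen r x y) (f : α → ℝ) :
    (f x - f y) ^ 2 ≤ 2 * (V.card : ℝ) * ∑ u ∈ V, ∑ v ∈ V.filter (fun v => r u v), (f u - f v) ^ 2 := by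
  have h1 := kchn_main r f V.card V rfl x hx y
    (Relation.ReflTransGen.mono (p := fun a b => r a b ∧ a ∈ V ∧ b ∈ V)
      (fun a b hab => ⟨hab, hr a b hab⟩) x y h)
  have h2 : 0 ≤ (V.card : ℝ) *
      ∑ u ∈ V, ∑ v ∈ V.filter (fun v => r u v), (f u - f v) ^ 2 :=
    mul_nonneg (Nat.cast_nonneg _)
      (Finset.sum_nonneg fun u _ => Finset.sum_nonneg fun v _ => sq_nonneg _)
  linarith

end

end Pool.Agent.H40.WM
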