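import Mathlib
import Pool.Agent.H40.WM.HChn
import Pool.Agent.H40.WM.HSet
import Pool.Agent.H40.WM.HLoc
import Pool.Agent.H40.WM.HDcd
import Pool.Agent.H40.WM.HWt
import Pool.Agent.H40.WM.KChn

/-!
# HMain: canonical paths

Let `V` = `codes_finset n0 (3 n0 + 1000 t)`... (`tb` gives `|(σ k).2| ≤ (n0 + 1 + 39000 t)/50 + ...`: for every `k`, `min |k| |n0-k| ≤ n0` inside and `σ` is constant outside, so `|(σ k).2| ≤ n0 + 1000 t =: B`).  For a non bad pair `(X,Y)`: `chain_sq` on `V` with `r = HStp a b n0 X Y t`, `f σ = g (ZZ σ)` (`codes_chain`; `const_code`):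
`(g X - g Y)^2 ≤ 2 |V| ∑_{σ,σ' ∈ V, HStp} (g (ZZ σ) - g (ZZ σ'))^2`.  Multiply by `omD X omD Y ≤ (36/q)^(60000 t) omD (ZZ σ) omD (ZZ (cmpl σ))` (`zz_weight`) and sum over the pairs.  For fixed `(σ,σ')` the map `(X,Y) ↦ (ZZ σ, ZZ (cmpl σ), (M,M'), (lp X k, lp Y k)_{k ∈ Brk σ})`, `(M,M')` from `zz_loc`, is injective (`zz_decode`, `code_hc`),
with values in `PD × PD × LocS × (a set of at most ((2 n0 + 5)^2)^7 elements)` (`cone_a`: `|lp| ≤ n0 + 1` at regular lines), and `(g (ZZ σ) - g (ZZ σ'))^2 = (g Z - g ((Z \ M) ∪ M'))^2`, with `M ⊆ Z`, `(Z \ M) ∪ M' ∈ PD` (`zz_PD`).  So the sum is at most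
`2 |V|^3 (36/q)^(60000 t) (2 n0+5)^14 * ZP * ∑_{(M,M')} ∑_Z omD Z (g Z - g ((Z \ M) ∪ M'))^2`.  `2 |V|^3 (2n0+5)^14 ≤ 36^(1000 t)`: `n0 ≤ 2n`, `4 n^2 ≤ 2^t`, `|V| ≤ (n0+1)^7 (2(2B+1))^8`, `B ≤ n0 + 1000 t`, `1000 t ≤ 2^(10 t)` etc. (crude).
-/

set_option autoImplicit false

namespace Pool.Agent.H40.WM

open Pool.Agent.H40.SQ

noncomputable section

/-- the numbers -/
private theorem hm_num {n n0 t : ℕ} (ht : 1 ≤ t) (hn0 : 1 ≤ n0) (hn : n0 ≤ 2 * n) (hT : 4 * n ^ 2 ≤ 2 ^ t) (V : ℕ)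
    (hV : V ≤ (n0 + 1) ^ 7 * (2 * (2 * (n0 + 1000 * t) + 1)) ^ 8) :
    2 * V * (V * V) * (2 * n0 + 5) ^ 14 ≤ 36 ^ (1000 * t) := by
  have hn1 : 1 ≤ n := by omega
  have h1 : n0 ≤ 2 ^ t := by
    refine hn.trans (le_trans ?_ hT)
    nlinarith
  have ht2 : t ≤ 2 ^ t := Nat.lt_two_pow_self.le
  have p1 : 1 ≤ 2 ^ t := Nat.one_le_two_pow
  have p2 : 2 ≤ 2 ^ t := by
    calc 2 = 2 ^ 1 := by norm_num
      _ ≤ 2 ^ t := Nat.pow_le_pow_right (by norm_num) ht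
  obtain ⟨z, hz⟩ : ∃ z, z = 2 ^ t := ⟨_, rfl⟩
  rw [← hz] at h1 ht2 p1 p2
  have a1 : n0 + 1 ≤ z ^ 2 := by nlinarith
  have a2 : 2 * n0 + 5 ≤ z ^ 4 := by
    have q1 : 2 * 2 ≤ z ^ 2 := by nlinarith
    have q2 : z ^ 4 = z ^ 2 * z ^ 2 := by ring
    nlinarith
  have a3 : 2 * (2 * (n0 + 1000 * t) + 1) ≤ z ^ 13 := by
    have q0 : 4096 ≤ z ^ 12 := by
      calc 4096 = 2 ^ 12 := by norm_num
        _ ≤ z ^ 12 := Nat.pow_le_pow_left p2 12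
    have q3 : z ^ 13 = z ^ 12 * z := by ring
    have q4 : 4096 * z ≤ z ^ 12 * z := Nat.mul_le_mul_right _ q0
    rw [q3]
    omega
  have b1 : V ≤ z ^ 118 := by
    refine hV.trans ?_
    calc (n0 + 1) ^ 7 * (2 * (2 * (n0 + 1000 * t) + 1)) ^ 8 ≤ (z ^ 2) ^ 7 * (z ^ 13) ^ 8 :=
          Nat.mul_le_mul (Nat.pow_le_pow_left a1 7) (Nat.pow_le_pow_left a3 8)
      _ = z ^ 118 := by ring
  calc 2 * V * (V * V) * (2 * n0 + 5) ^ 14 ≤ z * z ^ 118 * (z ^ 118 * z ^ 118) * (z ^ 4) ^ 14 := by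
        refine Nat.mul_le_mul (Nat.mul_le_mul (Nat.mul_le_mul p2 b1) (Nat.mul_le_mul b1 b1))
          (Nat.pow_le_pow_left a2 14)
    _ = z ^ 411 := by ring
    _ = 2 ^ (411 * t) := by rw [hz, ← pow_mul, mul_comm]
    _ ≤ 2 ^ (5000 * t) := Nat.pow_le_pow_right (by norm_num) (Nat.mul_le_mul_right _ (by norm_num))
    _ = (2 ^ 5) ^ (1000 * t) := by
        rw [← pow_mul]
        congr 1
        ring
    _ ≤ 36 ^ (1000 * t) := Nat.pow_le_pow_left (by norm_num) _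

/-- codes are in `V` -/
private theorem hm_tb {a b : ℤ × ℤ} {n0 : ℕ} (hn0 : 1 ≤ n0) {X Y : Finset Edge} {t : ℕ} (ht : 1 ≤ t) {σ : ℤ → Bool × ℤ}
    (h : HCode a b n0 X Y t σ) (k : ℤ) : |(σ k).2| ≤ ((n0 + 1000 * t : ℕ) : ℤ) := by
  push_cast
  rcases lt_or_ge k 0 with h1 | h1
  · rw [h.left k h1.le, h.t0, abs_zero]
    positivity
  · rcases lt_or_ge (n0 : ℤ) k with h2 | h2
    · rw [h.right k (by omega), h.t1, abs_zero]
      positivity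
    · have h3 := (h.tb k).1
      rw [abs_of_nonneg h1] at h3
      omega

open Classical in
/-- the pairs with a fixed step -/
private theorem hm_pair (q : ℝ) (hq0 : 0 < q) {n : ℕ} {a b : ℤ × ℤ} {n0 : ℕ} {D : Finset Edge}
    (hD : Dom n a b n0 D) {t : ℕ} (ht : 1 ≤ t) (g : Finset Edge → ℝ) (u v : ℤ → Bool × ℤ)
    (G : Finset (Finset Edge × Finset Edge))
    (hG : ∀ P ∈ G, P.1 ∈ PD D a b ∧ P.2 ∈ PD D a b ∧ ¬ Bad (ex2 (uu a) P.1 P.2) t ∧ HStp a b n0 P.1 P.2 t u v) :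
    ∑ P ∈ G, omD q D (ZZ a b n0 P.1 P.2 u) * omD q D (ZZ a b n0 P.1 P.2 (cmpl u)) *
      (g (ZZ a b n0 P.1 P.2 u) - g (ZZ a b n0 P.1 P.2 v)) ^ 2 ≤
    (((2 * n0 + 5) ^ 14 : ℕ) : ℝ) * (ZP q D a b * ∑ M ∈ LocS (62000 * t) D,
        ∑ Z ∈ (PD D a b).filter (fun Z => M.1 ⊆ Z ∧ Disjoint (Z \ M.1) M.2 ∧ (Z \ M.1) ∪ M.2 ∈ PD D a b),
          omD q D Z * (g Z - g ((Z \ M.1) ∪ M.2)) ^ 2) := by
  have hub : uu b = uu a + 2 * n0 := by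
    rw [hD.hb]
    unfold uu
    ring
  obtain ⟨F, hF⟩ : ∃ F : Finset Edge × Finset Edge → Finset (Finset Edge),
      F = fun M => (PD D a b).filter (fun Z => M.1 ⊆ Z ∧ Disjoint (Z \ M.1) M.2 ∧ (Z \ M.1) ∪ M.2 ∈ PD D a b) :=
    ⟨_, rfl⟩
  obtain ⟨S, hS⟩ : ∃ S, S = ∑ M ∈ LocS (62000 * t) D, ∑ Z ∈ F M,
      omD q D Z * (g Z - g ((Z \ M.1) ∪ M.2)) ^ 2 := ⟨_, rfl⟩
  have hS' : ∑ M ∈ LocS (62000 * t) D,
        ∑ Z ∈ (PD D a b).filter (fun Z => M.1 ⊆ Z ∧ Disjoint (Z \ M.1) M.2 ∧ (Z \ M.1) ∪ M.2 ∈ PD D a b),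
          omD q D Z * (g Z - g ((Z \ M.1) ∪ M.2)) ^ 2 = S := by
    rw [hS, hF]
  rw [hS']
  have hom : ∀ Z, 0 ≤ omD q D Z := fun Z => (omD_pos q hq0 D Z).le
  have hS0 : 0 ≤ S := by
    rw [hS]
    exact Finset.sum_nonneg fun M _ => Finset.sum_nonneg fun Z _ => mul_nonneg (hom Z) (sq_nonneg _)
  have hZP0 : 0 ≤ ZP q D a b := Finset.sum_nonneg fun Z _ => hom Z
  rcases G.eq_empty_or_nonempty with hGe | ⟨P0, hP0⟩
  · rw [hGe, Finset.sum_empty]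
    positivity
  have hcard7 : (Brk n0 u).card ≤ 7 := (hG P0 hP0).2.2.2.c1.card
  -- local pieces
  have hex : ∀ P : Finset Edge × Finset Edge, P ∈ G → ∃ MM : Finset Edge × Finset Edge,
      Loc (62000 * t) D MM.1 MM.2 ∧ MM.1 ⊆ ZZ a b n0 P.1 P.2 u ∧
      Disjoint (ZZ a b n0 P.1 P.2 u \ MM.1) MM.2 ∧
      ZZ a b n0 P.1 P.2 v = (ZZ a b n0 P.1 P.2 u \ MM.1) ∪ MM.2 := by
    intro P hP
    obtain ⟨h1, h2, h3, h4⟩ := hG P hP
    obtain ⟨M, M', k1, k2, k3, k4⟩ := zz_loc hD h1 h2 ht h3 h4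
    exact ⟨(M, M'), k1, k2, k3, k4⟩
  choose! mm hmm using hex
  -- the target
  obtain ⟨Λ, hΛ⟩ : ∃ Λ : Finset ({k // k ∈ Brk n0 u} → ℤ × ℤ), Λ = Fintype.piFinset
      (fun _ : {k // k ∈ Brk n0 u} => Finset.Icc (-(n0 + 2 : ℤ)) (n0 + 2) ×ˢ Finset.Icc (-(n0 + 2 : ℤ)) (n0 + 2)) :=
    ⟨_, rfl⟩
  have hΛc : Λ.card ≤ (2 * n0 + 5) ^ 14 := by
    rw [hΛ, Fintype.card_piFinset, Finset.prod_const, Finset.card_univ, Fintype.card_coe, Finset.card_product,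
      Int.card_Icc]
    have e : ((n0 : ℤ) + 2 + 1 - -(n0 + 2 : ℤ)).toNat = 2 * n0 + 5 := by omega
    rw [e, ← pow_two, ← pow_mul]
    exact Nat.pow_le_pow_right (by omega) (by omega)
  obtain ⟨h, hh⟩ : ∃ h : (((_ : Finset Edge × Finset Edge) × Finset Edge) × Finset Edge) ×
      ({k // k ∈ Brk n0 u} → ℤ × ℤ) → ℝ, h = fun x => omD q D x.1.1.2 *
        (g x.1.1.2 - g ((x.1.1.2 \ x.1.1.1.1) ∪ x.1.1.1.2)) ^ 2 * omD q D x.1.2 := ⟨_, rfl⟩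
  obtain ⟨φ, hφ⟩ : ∃ φ : Finset Edge × Finset Edge → (((_ : Finset Edge × Finset Edge) × Finset Edge) × Finset Edge) ×
      ({k // k ∈ Brk n0 u} → ℤ × ℤ), φ = fun P => ((⟨mm P, ZZ a b n0 P.1 P.2 u⟩, ZZ a b n0 P.1 P.2 (cmpl u)),
        fun k => (lp a b P.1 k.1, lp a b P.2 k.1)) := ⟨_, rfl⟩
  obtain ⟨TT, hTT⟩ : ∃ TT : Finset ((((_ : Finset Edge × Finset Edge) × Finset Edge) × Finset Edge) ×
      ({k // k ∈ Brk n0 u} → ℤ × ℤ)), TT = (((LocS (62000 * t) D).sigma F) ×ˢ (PD D a b)) ×ˢ Λ := ⟨_, rfl⟩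
  have hsumT : ∑ x ∈ TT, h x = (Λ.card : ℝ) * (ZP q D a b * S) := by
    rw [hTT, Finset.sum_product, hh]
    simp only [Finset.sum_const, nsmul_eq_mul]
    rw [← Finset.mul_sum, Finset.sum_product]
    congr 1
    simp only
    have e1 : ∀ s ∈ (LocS (62000 * t) D).sigma F, ∑ W ∈ PD D a b, omD q D s.2 *
        (g s.2 - g ((s.2 \ s.1.1) ∪ s.1.2)) ^ 2 * omD q D W =
        ZP q D a b * (omD q D s.2 * (g s.2 - g ((s.2 \ s.1.1) ∪ s.1.2)) ^ 2) := by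
      intro s _
      rw [← Finset.mul_sum]
      unfold ZP
      ring
    rw [Finset.sum_congr rfl e1, ← Finset.mul_sum, Finset.sum_sigma, hS]
  have hval : ∀ P ∈ G, omD q D (ZZ a b n0 P.1 P.2 u) * omD q D (ZZ a b n0 P.1 P.2 (cmpl u)) *
      (g (ZZ a b n0 P.1 P.2 u) - g (ZZ a b n0 P.1 P.2 v)) ^ 2 = h (φ P) := by
    intro P hP
    obtain ⟨k1, k2, k3, k4⟩ := hmm P hP
    rw [hh, hφ]
    simp only
    rw [← k4]
    ring
  have hinj : Set.InjOn φ G := by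
    intro P hP P' hP' heq
    obtain ⟨h1, h2, h3, h4⟩ := hG P hP
    obtain ⟨h1', h2', h3', h4'⟩ := hG P' hP'
    rw [hφ] at heq
    simp only at heq
    have e1 := congrArg (fun x => x.1.1.2) heq
    have e2 := congrArg (fun x => x.1.2) heq
    have e3 := congrArg (fun x => x.2) heq
    simp only at e1 e2 e3
    have hd := zz_decode n0 hub (mem_PD.1 h1).2 (mem_PD.1 h2).2 (mem_PD.1 h1').2 (mem_PD.1 h2').2
      (code_hc h4.c1) (code_hc h4'.c1) e1 e2 (by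
        intro k hk
        have e4 := congrFun e3 ⟨k, hk⟩
        simp only [Prod.mk.injEq] at e4
        exact e4)
    exact Prod.ext hd.1 hd.2
  have hmem : ∀ P ∈ G, φ P ∈ TT := by
    intro P hP
    obtain ⟨h1, h2, h3, h4⟩ := hG P hP
    obtain ⟨k1, k2, k3, k4⟩ := hmm P hP
    rw [hφ, hTT]
    simp only [Finset.mem_product, Finset.mem_sigma]
    refine ⟨⟨⟨?_, ?_⟩, ?_⟩, ?_⟩
    · unfold LocS
      rw [Finset.mem_filter, Finset.mem_product, Finset.mem_powerset, Finset.mem_powerset]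
      exact ⟨⟨k1.sub, k1.sub'⟩, k1⟩
    · rw [hF, Finset.mem_filter]
      refine ⟨zz_PD hD h1 h2 ht h3 h4.c1, k2, k3, ?_⟩
      rw [← k4]
      exact zz_PD hD h1 h2 ht h3 h4.c2
    · exact zz_PD hD h1 h2 ht h3 (cmpl_code h4.c1)
    · rw [hΛ, Fintype.mem_piFinset]
      intro k
      rw [Finset.mem_product, Finset.mem_Icc, Finset.mem_Icc]
      have hk := h4.c1.reg k.1 k.2
      have ht' : (1 : ℤ) ≤ (t : ℤ) := by exact_mod_cast ht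
      have c1 := cone_a (mem_PD.1 h1).2 n0 hub (f := ex2 (uu a) P.1 P.2)
        (fun i => by unfold ex2; omega) hk.1 (by omega) (by omega)
      have c2 := cone_a (mem_PD.1 h2).2 n0 hub (f := ex2 (uu a) P.1 P.2)
        (fun i => by unfold ex2; omega) hk.1 (by omega) (by omega)
      have d1 := abs_le.1 (show |lp a b P.1 k.1| ≤ n0 + 2 by omega)
      have d2 := abs_le.1 (show |lp a b P.2 k.1| ≤ n0 + 2 by omega)
      exact ⟨⟨d1.1, d1.2⟩, ⟨d2.1, d2.2⟩⟩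
  rw [Finset.sum_congr rfl hval, ← Finset.sum_image (f := h) hinj]
  refine (Finset.sum_le_sum_of_subset_of_nonneg (t := TT) ?_ ?_).trans ?_
  · intro x hx
    rw [Finset.mem_image] at hx
    obtain ⟨P, hP, rfl⟩ := hx
    exact hmem P hP
  · intro x _ _
    rw [hh]
    exact mul_nonneg (mul_nonneg (hom _) (sq_nonneg _)) (hom _)
  · rw [hsumT]
    refine mul_le_mul_of_nonneg_right ?_ (mul_nonneg hZP0 hS0)
    exact_mod_cast hΛc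

open Classical in
theorem hmain (q : ℝ) (hq0 : 0 < q) (hq1 : q ≤ 1 / 10 ^ 6) {n : ℕ} {a b : ℤ × ℤ} {n0 : ℕ} {D : Finset Edge} (hD : Dom n a b n0 D)
    {t : ℕ} (ht : 1 ≤ t) (hT : 4 * n ^ 2 ≤ 2 ^ t) (g : Finset Edge → ℝ) :
    ∑ P ∈ (PD D a b ×ˢ PD D a b).filter (fun P => ¬ Bad (ex2 (uu a) P.1 P.2) t), omD q D P.1 * omD q D P.2 * (g P.1 - g P.2) ^ 2 ≤
      (36 / q) ^ (61000 * t) * ZP q D a b * ∑ M ∈ LocS (62000 * t) D,
        ∑ Z ∈ (PD D a b).filter (fun Z => M.1 ⊆ Z ∧ Disjoint (Z \ M.1) M.2 ∧ (Z \ M.1) ∪ M.2 ∈ PD D a b),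
          omD q D Z * (g Z - g ((Z \ M.1) ∪ M.2)) ^ 2 := by
  have hub : uu b = uu a + 2 * n0 := by
    rw [hD.hb]
    unfold uu
    ring
  obtain ⟨V, hVc, hV⟩ := codes_finset n0 (n0 + 1000 * t)
  have hVm : ∀ {X Y : Finset Edge} {σ : ℤ → Bool × ℤ}, HCode a b n0 X Y t σ → σ ∈ V := by
    intro X Y σ h
    exact hV σ h.left h.right h.card (hm_tb hD.pos ht h)
  obtain ⟨S, hS⟩ : ∃ S, S = ∑ M ∈ LocS (62000 * t) D,
        ∑ Z ∈ (PD D a b).filter (fun Z => M.1 ⊆ Z ∧ Disjoint (Z \ M.1) M.2 ∧ (Z \ M.1) ∪ M.2 ∈ PD D a b),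
          omD q D Z * (g Z - g ((Z \ M.1) ∪ M.2)) ^ 2 := ⟨_, rfl⟩
  have hom : ∀ Z, 0 ≤ omD q D Z := fun Z => (omD_pos q hq0 D Z).le
  have hS0 : 0 ≤ S := by
    rw [hS]
    exact Finset.sum_nonneg fun M _ => Finset.sum_nonneg fun Z _ => mul_nonneg (hom Z) (sq_nonneg _)
  have hZP0 : 0 ≤ ZP q D a b := Finset.sum_nonneg fun Z _ => hom Z
  rw [← hS]
  obtain ⟨G, hG⟩ : ∃ G, G = (PD D a b ×ˢ PD D a b).filter (fun P => ¬ Bad (ex2 (uu a) P.1 P.2) t) := ⟨_, rfl⟩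
  rw [← hG]
  have hGm : ∀ P ∈ G, P.1 ∈ PD D a b ∧ P.2 ∈ PD D a b ∧ ¬ Bad (ex2 (uu a) P.1 P.2) t := by
    intro P hP
    rw [hG, Finset.mem_filter, Finset.mem_product] at hP
    exact ⟨hP.1.1, hP.1.2, hP.2⟩
  obtain ⟨w, hw⟩ : ∃ w : ℝ, w = (36 / q) ^ (60000 * t) := ⟨_, rfl⟩
  have hw0 : 0 ≤ w := by rw [hw]; positivity
  obtain ⟨T, hTd⟩ : ∃ T : Finset Edge × Finset Edge → (ℤ → Bool × ℤ) → (ℤ → Bool × ℤ) → ℝ,
      T = fun P u v => omD q D (ZZ a b n0 P.1 P.2 u) * omD q D (ZZ a b n0 P.1 P.2 (cmpl u)) *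
        (g (ZZ a b n0 P.1 P.2 u) - g (ZZ a b n0 P.1 P.2 v)) ^ 2 := ⟨_, rfl⟩
  -- one pair
  have hone : ∀ P ∈ G, omD q D P.1 * omD q D P.2 * (g P.1 - g P.2) ^ 2 ≤
      2 * (V.card : ℝ) * w * ∑ u ∈ V, ∑ v ∈ V, (if HStp a b n0 P.1 P.2 t u v then T P u v else 0) := by
    intro P hP
    obtain ⟨h1, h2, h3⟩ := hGm P hP
    have hch := codes_chain hD h1 h2 ht h3
    have hc := chain_sq V (HStp a b n0 P.1 P.2 t) (fun x y hxy => ⟨hVm hxy.c1, hVm hxy.c2⟩)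
      (hVm (const_code a b n0 P.1 P.2 t false).1) hch (fun σ => g (ZZ a b n0 P.1 P.2 σ))
    have e1 : ZZ a b n0 P.1 P.2 (fun _ => (false, 0)) = P.1 := (const_code a b n0 P.1 P.2 t false).2
    have e2 : ZZ a b n0 P.1 P.2 (fun _ => (true, 0)) = P.2 := (const_code a b n0 P.1 P.2 t true).2
    simp only [e1, e2] at hc
    have hom2 : 0 ≤ omD q D P.1 * omD q D P.2 := mul_nonneg (hom _) (hom _)
    have hc2 := mul_le_mul_of_nonneg_left hc hom2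
    refine hc2.trans ?_
    have e3 : omD q D P.1 * omD q D P.2 * (2 * (V.card : ℝ) * ∑ u ∈ V,
        ∑ v ∈ V.filter (fun v => HStp a b n0 P.1 P.2 t u v),
          (g (ZZ a b n0 P.1 P.2 u) - g (ZZ a b n0 P.1 P.2 v)) ^ 2) =
        2 * (V.card : ℝ) * ∑ u ∈ V, ∑ v ∈ V.filter (fun v => HStp a b n0 P.1 P.2 t u v),
          omD q D P.1 * omD q D P.2 * (g (ZZ a b n0 P.1 P.2 u) - g (ZZ a b n0 P.1 P.2 v)) ^ 2 := by
      simp only [← Finset.mul_sum]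
      ring
    have e4 : 2 * (V.card : ℝ) * w * ∑ u ∈ V, ∑ v ∈ V, (if HStp a b n0 P.1 P.2 t u v then T P u v else 0) =
        2 * (V.card : ℝ) * ∑ u ∈ V, ∑ v ∈ V.filter (fun v => HStp a b n0 P.1 P.2 t u v), w * T P u v := by
      rw [mul_assoc (2 * (V.card : ℝ)) w, Finset.mul_sum]
      congr 1
      refine Finset.sum_congr rfl fun u _ => ?_
      rw [← Finset.sum_filter, Finset.mul_sum]
    rw [e3, e4]
    refine mul_le_mul_of_nonneg_left ?_ (by positivity)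
    refine Finset.sum_le_sum fun u _ => Finset.sum_le_sum fun v hv => ?_
    have hst := (Finset.mem_filter.1 hv).2
    have hwt := zz_weight q hq0 hq1 hD h1 h2 ht hT h3 hst.c1
    rw [← hw] at hwt
    rw [hTd]
    have h5 := mul_le_mul_of_nonneg_right hwt (sq_nonneg (g (ZZ a b n0 P.1 P.2 u) - g (ZZ a b n0 P.1 P.2 v)))
    refine h5.trans (le_of_eq ?_)
    ring
  -- a fixed step
  have hpair : ∀ u v, ∑ P ∈ G, (if HStp a b n0 P.1 P.2 t u v then T P u v else 0) ≤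
      (((2 * n0 + 5) ^ 14 : ℕ) : ℝ) * (ZP q D a b * S) := by
    intro u v
    rw [← Finset.sum_filter, hTd, hS]
    refine hm_pair q hq0 hD ht g u v _ ?_
    intro P hP
    rw [Finset.mem_filter] at hP
    obtain ⟨h1, h2, h3⟩ := hGm P hP.1
    exact ⟨h1, h2, h3, hP.2⟩
  have htot : ∑ P ∈ G, omD q D P.1 * omD q D P.2 * (g P.1 - g P.2) ^ 2 ≤
      2 * (V.card : ℝ) * w * ((V.card : ℝ) * ((V.card : ℝ) *
        ((((2 * n0 + 5) ^ 14 : ℕ) : ℝ) * (ZP q D a b * S)))) := by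
    refine (Finset.sum_le_sum hone).trans ?_
    rw [← Finset.mul_sum]
    refine mul_le_mul_of_nonneg_left ?_ (by positivity)
    rw [Finset.sum_comm]
    calc ∑ u ∈ V, ∑ P ∈ G, ∑ v ∈ V, (if HStp a b n0 P.1 P.2 t u v then T P u v else 0)
        = ∑ u ∈ V, ∑ v ∈ V, ∑ P ∈ G, (if HStp a b n0 P.1 P.2 t u v then T P u v else 0) :=
          Finset.sum_congr rfl fun u _ => Finset.sum_comm
      _ ≤ ∑ u ∈ V, ∑ v ∈ V, (((2 * n0 + 5) ^ 14 : ℕ) : ℝ) * (ZP q D a b * S) :=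
          Finset.sum_le_sum fun u _ => Finset.sum_le_sum fun v _ => hpair u v
      _ = (V.card : ℝ) * ((V.card : ℝ) * ((((2 * n0 + 5) ^ 14 : ℕ) : ℝ) * (ZP q D a b * S))) := by
          simp only [Finset.sum_const, nsmul_eq_mul]
  refine htot.trans ?_
  have hnum := hm_num ht hD.pos hD.le hT V.card hVc
  have hnum' : 2 * (V.card : ℝ) * ((V.card : ℝ) * (V.card : ℝ)) * (((2 * n0 + 5) ^ 14 : ℕ) : ℝ) ≤
      (36 : ℝ) ^ (1000 * t) := by exact_mod_cast hnum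
  have hq1' : q ≤ 1 := hq1.trans (by norm_num)
  have h36 : (36 : ℝ) ^ (1000 * t) ≤ (36 / q) ^ (1000 * t) := by
    refine pow_le_pow_left₀ (by norm_num) ?_ _
    rw [le_div_iff₀ hq0]
    linarith
  have e5 : (36 / q) ^ (61000 * t) = w * (36 / q) ^ (1000 * t) := by
    rw [hw, ← pow_add]
    congr 1
    ring
  have hZS : 0 ≤ ZP q D a b * S := mul_nonneg hZP0 hS0
  calc 2 * (V.card : ℝ) * w * ((V.card : ℝ) * ((V.card : ℝ) *
        ((((2 * n0 + 5) ^ 14 : ℕ) : ℝ) * (ZP q D a b * S))))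
      = w * (2 * (V.card : ℝ) * ((V.card : ℝ) * (V.card : ℝ)) * (((2 * n0 + 5) ^ 14 : ℕ) : ℝ)) *
          (ZP q D a b * S) := by ring
    _ ≤ w * (36 / q) ^ (1000 * t) * (ZP q D a b * S) := by
        refine mul_le_mul_of_nonneg_right ?_ hZS
        exact mul_le_mul_of_nonneg_left (hnum'.trans h36) hw0
    _ = (36 / q) ^ (61000 * t) * ZP q D a b * S := by rw [e5]; ring

end

end Pool.Agent.H40.WM
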