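import Mathlib
import Pool.Agent.H40.WM.GDec
import Pool.Agent.H40.SQ.HSign

/-!
# GLev: the interface separates the heights `0` and `s`

Let `G ∈ PD (gD) a b`, `g = gP ∪ G` (`∈ EE(c)` by `ee_of`).  `hsignLab g e` = larger of the two heights on the sides of `e`; touching edges of `g` have the same label (`hsign_touch`).
An edge `e ∈ gP` has both faces known with heights `s 1_A` (`forced` for `g`, `0` outside), exactly one in `gA`: its label is `max 0 s`.  `dfc gP a = -1 ≠ 0`, so there is an edge of `gP` at `a`; `dfc G a = 1`, so there is an edge of `G` at `a`: it has the label `max 0 s`.  `G` is connected, so all its edges have this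
label (take `A` = edges of `G` with this label in `Conn`).  So every edge of `g` separates the heights `0` and `s` (the label and the label minus one).  Going along a row from the outside (`F_step`, induction): `F g i j ∈ {0, s}`.
-/

set_option autoImplicit false

namespace Pool.Agent.H40.WM

open Pool.Agent.H40.SQ

noncomputable section

open Classical in
/-- Heights of known faces. -/
private theorem glev_known {n : ℕ} {s c : ℤ} (h : Par n s c) {g : Finset Edge} (hg : g ∈ EEc n s c) {i j : ℤ}
    (hK : gK n c i j) : s * F g i j = if gA n c i j then 1 else 0 := by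
  rcases hK with hV | hB
  · exact forced h hg hV
  · have hOm : g ∈ Om n := by
      unfold EEc at hg
      exact (Finset.mem_filter.1 hg).1
    rw [F_supp hOm (fun hb => hB (mem_box'.mp hb)), mul_zero, if_neg (fun hA => hB hA.1)]

private theorem glev_dfc {G : Finset Edge} {z : ℤ × ℤ} (hz : dfc G z ≠ 0) : ∃ e ∈ G, z ∈ ends e := by
  by_contra hc
  push Not at hc
  apply hz
  have h0 : ∀ e, (e = Hr z ∨ e = Hl z ∨ e = Vu z ∨ e = Vd z) → ind G e = 0 := by
    intro e he
    unfold ind
    rw [if_neg]
    intro heG
    exact hc e heG (ends_iff.2 he)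
  unfold dfc
  rw [h0 (Hr z) (Or.inl rfl), h0 (Hl z) (Or.inr (Or.inl rfl)), h0 (Vu z) (Or.inr (Or.inr (Or.inl rfl))),
    h0 (Vd z) (Or.inr (Or.inr (Or.inr rfl)))]
  norm_num

theorem g_lev {n : ℕ} {s c : ℤ} (h : Par n s c) {G : Finset Edge} (hG : G ∈ PD (gD n c) (ga n c) (gb n c)) (i j : ℤ) :
    F (gP n s c ∪ G) i j = 0 ∨ F (gP n s c ∪ G) i j = s := by
  classical
  obtain ⟨hGD, hP⟩ := mem_PD.mp hG
  have hgE := ee_of h hGD hP.def'
  set g := gP n s c ∪ G with hgdef
  have hOm : g ∈ Om n := by
    have := hgE
    unfold EEc at this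
    exact (Finset.mem_filter.1 this).1
  have hE := (mem_Om.mp hOm).1
  have hs : s = 1 ∨ s = -1 := by
    rcases h.par with ⟨h1, -⟩ | ⟨h1, -⟩
    · exact Or.inl h1
    · exact Or.inr h1
  have hab : ga n c ≠ gb n c := by
    intro hc
    have h1 := gb_eq h
    have h2 := (gn0_pos h).1
    rw [← hc] at h1
    have h3 := congrArg Prod.fst h1
    simp only at h3
    omega
  -- edges of the frozen part
  have hfr : ∀ e ∈ gP n s c, hsignLab g e = max 0 s := by
    intro e he
    have hS : e ∈ gS n s c := by
      unfold gP at he
      exact (Finset.mem_sdiff.1 he).1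
    have hm := ((mem_gS h e).1 hS).2
    have hF := gP_fx h he
    obtain ⟨t, x, y⟩ := e
    unfold gFx at hF
    cases t
    · simp only [Bool.false_eq_true, if_false] at hm hF
      have k1 := glev_known h hgE hF.1
      have k2 := glev_known h hgE hF.2
      simp only [hsignLab, Bool.false_eq_true, if_false]
      by_cases hA : gA n c x y
      · have hB : ¬ gA n c x (y - 1) := fun hB => hm ⟨fun _ => hB, fun _ => hA⟩
        rw [if_pos hA] at k1
        rw [if_neg hB] at k2
        rcases hs with hs | hs <;> rw [hs] at k1 k2 ⊢ <;> omega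
      · have hB : gA n c x (y - 1) := by
          by_contra hB
          exact hm ⟨fun hA' => absurd hA' hA, fun hB' => absurd hB' hB⟩
        rw [if_neg hA] at k1
        rw [if_pos hB] at k2
        rcases hs with hs | hs <;> rw [hs] at k1 k2 ⊢ <;> omega
    · simp only [if_true] at hm hF
      have k1 := glev_known h hgE hF.1
      have k2 := glev_known h hgE hF.2
      simp only [hsignLab, if_true]
      by_cases hA : gA n c x y
      · have hB : ¬ gA n c (x - 1) y := fun hB => hm ⟨fun _ => hB, fun _ => hA⟩
        rw [if_pos hA] at k1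
        rw [if_neg hB] at k2
        rcases hs with hs | hs <;> rw [hs] at k1 k2 ⊢ <;> omega
      · have hB : gA n c (x - 1) y := by
          by_contra hB
          exact hm ⟨fun hA' => absurd hA' hA, fun hB' => absurd hB' hB⟩
        rw [if_neg hA] at k1
        rw [if_pos hB] at k2
        rcases hs with hs | hs <;> rw [hs] at k1 k2 ⊢ <;> omega
  -- one edge of the interface
  have hGne : G.Nonempty := by
    rw [Finset.nonempty_iff_ne_empty]
    intro h0
    exact hab ((IsP_empty_iff hP).1 h0)
  obtain ⟨e1, he1, hv1⟩ := (IsP_touch hP hGne).1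
  obtain ⟨e0, he0, hv0⟩ : ∃ e ∈ gP n s c, ga n c ∈ ends e := by
    apply glev_dfc
    rw [gP_dfc h, if_neg hab, if_pos rfl]
    norm_num
  have hl1 : hsignLab g e1 = max 0 s := by
    rw [← hfr e0 he0]
    exact hsign_touch hOm (Finset.mem_union_right _ he1) (Finset.mem_union_left _ he0) hv1 hv0
  have hint : ∀ e ∈ G, hsignLab g e = max 0 s := by
    by_contra hcon
    push Not at hcon
    obtain ⟨e2, he2, hne2⟩ := hcon
    have hA : G.filter (fun e => hsignLab g e = max 0 s) ≠ G := by
      intro h'
      rw [← h', Finset.mem_filter] at he2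
      exact hne2 he2.2
    obtain ⟨x, hx, y, hy, v, hv, hv'⟩ := hP.conn (G.filter (fun e => hsignLab g e = max 0 s))
      (Finset.filter_subset _ _) ⟨e1, Finset.mem_filter.mpr ⟨he1, hl1⟩⟩ hA
    rw [Finset.mem_filter] at hx
    rw [Finset.mem_sdiff, Finset.mem_filter] at hy
    apply hy.2
    refine ⟨hy.1, ?_⟩
    rw [← hx.2]
    exact (hsign_touch hOm (Finset.mem_union_right _ hx.1) (Finset.mem_union_right _ hy.1) hv hv').symm
  have hall : ∀ e ∈ g, hsignLab g e = max 0 s := by
    intro e he
    rcases Finset.mem_union.1 he with he | he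
    · exact hfr e he
    · exact hint e he
  -- rows
  have hrow : ∀ i, F g i j = 0 ∨ F g i j = s := by
    refine hsign_row (fun i hi => Or.inl (F_neg g i j hi)) ?_
    intro i hi
    have h2 := F_step hE i j
    by_cases hm : (true, i, j) ∈ g
    · have h1 := hall _ hm
      rw [hsign_mem hm] at h2
      simp only [hsignLab, if_true] at h1
      rcases hsign_sgn i j with hs' | hs' <;> rw [hs'] at h2 <;> rcases hs with hs | hs <;>
        rw [hs] at h1 hi ⊢ <;> omega
    · rw [hsign_not_mem hm, mul_zero] at h2
      have h3 : F g i j = F g (i - 1) j := by linarith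
      rw [h3]
      exact hi
  exact hrow i

end

end Pool.Agent.H40.WM
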