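import Mathlib
import Pool.Agent.H40.WM.VDefs
import Pool.Agent.H40.WM.VDec
import Pool.Agent.H40.WM.VSum
import Pool.Agent.H40.WM.GLev
import Pool.Agent.H40.WM.GDec
import Pool.Agent.H40.WM.GDom
import Pool.Agent.H40.WM.GEdg
import Pool.Agent.H40.SQ.HAdd
import Pool.Agent.H40.SQ.HStep

/-!
# VEe: the configurations `gP ∪ (G ∪ S)`

`D = gD n c`, `a, b = ga, gb`.
* `gD_sub`: `gD ⊆ E n` (the two extra edges `Hr a`, `Vu b` are in `E n`; see `GEdg`/`GDom`).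
* `pee_mem`: `G ∪ S ∈ DC D a b` (`ifc_union`, `ga_ne_gb`), `ee_of`.
* `pee_inj`: `gP` is disjoint from `gD` (`GFix`/`GDec`), so `G ∪ S = G' ∪ S'`; `G = ifc (G ∪ S) a = G'` (`ifc_union`), `S = (G ∪ S) \ G`.
* `pee_F`: `gP ∪ (G ∪ S) = (gP ∪ G) ∪ S` is a disjoint union (`S ⊆ D` is disjoint from `gP`, `ifc_union` for `G`, `S`): `F_union`.
* `pee_lev`: `g_lev` and `s = 1 ∨ s = -1` (`Par.par`): `|F (gP ∪ G)| ≤ 1`; difference of two such values is in `{-1,0,1}`.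
* `pee_swap`: `Z = (Z \ M) ∪ M` and `Z' = (Z \ M) ∪ M'` disjoint unions: `F (gP ∪ Z) - F (gP ∪ Z') = F M - F M'` (`F_union`, `gP` disjoint from `Z`, `Z'`).
-/

set_option autoImplicit false

namespace Pool.Agent.H40.WM

open Pool.Agent.H40.SQ

noncomputable section

theorem gD_sub {n : ℕ} {s c : ℤ} (h : Par n s c) : gD n c ⊆ E n := gD_E h

theorem pee_mem {n : ℕ} {s c : ℤ} (h : Par n s c) {G A : Finset Edge} (hG : G ∈ PD (gD n c) (ga n c) (gb n c))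
    (hA : A ∈ VCs (gD n c \ N1 G)) : gP n s c ∪ (G ∪ A) ∈ EEc n s c := by
  obtain ⟨h1, -, -⟩ := ifc_union (ga_ne_gb h) hG hA
  obtain ⟨h2, h3⟩ := mem_DC.mp h1
  exact ee_of h h2 h3

theorem pee_inj {n : ℕ} {s c : ℤ} (h : Par n s c) {G A G' A' : Finset Edge} (hG : G ∈ PD (gD n c) (ga n c) (gb n c))
    (hA : A ∈ VCs (gD n c \ N1 G)) (hG' : G' ∈ PD (gD n c) (ga n c) (gb n c)) (hA' : A' ∈ VCs (gD n c \ N1 G'))
    (he : gP n s c ∪ (G ∪ A) = gP n s c ∪ (G' ∪ A')) : G = G' ∧ A = A' := by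
  obtain ⟨h1, h2, h3⟩ := ifc_union (ga_ne_gb h) hG hA
  obtain ⟨h1', h2', h3'⟩ := ifc_union (ga_ne_gb h) hG' hA'
  have hd : Disjoint (gP n s c) (G ∪ A) :=
    Finset.disjoint_of_subset_right (mem_DC.mp h1).1 (gP_gD h)
  have hd' : Disjoint (gP n s c) (G' ∪ A') :=
    Finset.disjoint_of_subset_right (mem_DC.mp h1').1 (gP_gD h)
  have e1 : (gP n s c ∪ (G ∪ A)) \ gP n s c = G ∪ A :=
    Finset.union_sdiff_cancel_left hd
  have e2 : (gP n s c ∪ (G' ∪ A')) \ gP n s c = G' ∪ A' :=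
    Finset.union_sdiff_cancel_left hd'
  have e3 : G ∪ A = G' ∪ A' := by
    rw [← e1, ← e2, he]
  have e4 : G = G' := by
    rw [← h2, ← h2', e3]
  refine ⟨e4, ?_⟩
  have e5 : (G ∪ A) \ G = A := Finset.union_sdiff_cancel_left h3
  have e6 : (G' ∪ A') \ G' = A' := Finset.union_sdiff_cancel_left h3'
  rw [← e5, ← e6, e3, e4]

theorem pee_F {n : ℕ} {s c : ℤ} (h : Par n s c) {G A : Finset Edge} (hG : G ∈ PD (gD n c) (ga n c) (gb n c))
    (hA : A ∈ VCs (gD n c \ N1 G)) (i j : ℤ) : F (gP n s c ∪ (G ∪ A)) i j = F (gP n s c ∪ G) i j + F A i j := by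
  obtain ⟨h1, h2, h3⟩ := ifc_union (ga_ne_gb h) hG hA
  have hd : Disjoint (gP n s c) (G ∪ A) :=
    Finset.disjoint_of_subset_right (mem_DC.mp h1).1 (gP_gD h)
  rw [Finset.disjoint_union_right] at hd
  rw [← Finset.union_assoc]
  exact F_union (Finset.disjoint_union_left.2 ⟨hd.2, h3⟩) i j

theorem pee_lev {n : ℕ} {s c : ℤ} (h : Par n s c) {G G' : Finset Edge} (hG : G ∈ PD (gD n c) (ga n c) (gb n c))
    (hG' : G' ∈ PD (gD n c) (ga n c) (gb n c)) (i j : ℤ) :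
    |F (gP n s c ∪ G) i j| ≤ 1 ∧
      (F (gP n s c ∪ G) i j - F (gP n s c ∪ G') i j = 0 ∨ F (gP n s c ∪ G) i j - F (gP n s c ∪ G') i j = 1 ∨
        F (gP n s c ∪ G) i j - F (gP n s c ∪ G') i j = -1) := by
  have hs : s = 1 ∨ s = -1 := by
    rcases h.par with ⟨h1, -⟩ | ⟨h1, -⟩
    · exact Or.inl h1
    · exact Or.inr h1
  have h1 := g_lev h hG i j
  have h2 := g_lev h hG' i j
  rw [abs_le]
  rcases hs with hs | hs <;> rw [hs] at h1 h2 ⊢ <;> omega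

theorem pee_swap {n : ℕ} {s c : ℤ} (h : Par n s c) {Z M M' : Finset Edge} (hZ : Z ∈ PD (gD n c) (ga n c) (gb n c)) (hM : M ⊆ Z)
    (hd : Disjoint (Z \ M) M') (hZ' : (Z \ M) ∪ M' ∈ PD (gD n c) (ga n c) (gb n c)) (i j : ℤ) :
    F (gP n s c ∪ Z) i j - F (gP n s c ∪ ((Z \ M) ∪ M')) i j = F M i j - F M' i j := by
  have hZD := (mem_PD.mp hZ).1
  have hZD' := (mem_PD.mp hZ').1
  have d1 : Disjoint (gP n s c) Z := Finset.disjoint_of_subset_right hZD (gP_gD h)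
  have d2 : Disjoint (gP n s c) ((Z \ M) ∪ M') := Finset.disjoint_of_subset_right hZD' (gP_gD h)
  have d3 : Disjoint (Z \ M) M := Finset.sdiff_disjoint
  have e1 : Z = (Z \ M) ∪ M := (Finset.sdiff_union_of_subset hM).symm
  have e2 : F Z i j = F (Z \ M) i j + F M i j := by
    conv_lhs => rw [e1]
    exact F_union d3 i j
  rw [F_union d1, F_union d2, F_union hd, e2]
  ring

end

end Pool.Agent.H40.WM
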