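import Mathlib
import Pool.Agent.H40.WM.VDefs
import Pool.Agent.H40.SQ.LSum

/-!
# VFam: the number of local modifications

Group the pairs `(M,M') ∈ LocS m1 D` by `C = M ∪ M'`: a nonempty connected subset of `D` with at most `2 m1` elements.  For given `C` the number of the pairs of subsets with union `C` is at most `3^|C|` (`M' = (C \ M) ∪ V`, `V ⊆ M`; `∑_{M ⊆ C} 2^|M| = 3^|C|`, `Finset.sum_pow_mul_eq_add_pow` or `Finset.prod_add`).
`3^|C| = 54^|C| (1/18)^|C| ≤ 54^(2 m1) (1/18)^|C|`.  Every `C` contains some `e ∈ D`: `∑_C (1/18)^|C| ≤ ∑_{e ∈ D} ∑_{C ∋ e} (1/18)^|C| ≤ |D|` (`animal_tail` with `x = 1/18`, `m = 0`).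
-/

set_option autoImplicit false

namespace Pool.Agent.H40.WM

open Pool.Agent.H40.SQ

noncomputable section

open Classical in
/-- the number of the pairs of subsets with union `C` -/
private theorem vfam_pairs (C : Finset Edge) :
    ((C.powerset ×ˢ C.powerset).filter (fun P => P.1 ∪ P.2 = C)).card ≤ 3 ^ C.card := by
  have h1 : (C.powerset.sigma (fun M => M.powerset)).card = 3 ^ C.card := by
    rw [Finset.card_sigma]
    have h2 := Finset.sum_pow_mul_eq_add_pow (2 : ℕ) 1 C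
    have h3 : ∑ M ∈ C.powerset, M.powerset.card = ∑ M ∈ C.powerset, 2 ^ M.card * 1 ^ (C.card - M.card) := by
      apply Finset.sum_congr rfl
      intro M _
      rw [Finset.card_powerset, one_pow, mul_one]
    rw [h3, h2]
  rw [← h1]
  refine Finset.card_le_card_of_injOn (fun P => (⟨P.1, P.2 ∩ P.1⟩ : (_ : Finset Edge) × Finset Edge)) ?_ ?_
  · intro P hP
    obtain ⟨h2, -⟩ := Finset.mem_filter.1 (Finset.mem_coe.1 hP)
    exact Finset.mem_coe.2 (Finset.mem_sigma.2 ⟨(Finset.mem_product.1 h2).1,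
      Finset.mem_powerset.2 Finset.inter_subset_right⟩)
  · intro P hP P' hP' he
    obtain ⟨-, h3⟩ := Finset.mem_filter.1 (Finset.mem_coe.1 hP)
    obtain ⟨-, h3'⟩ := Finset.mem_filter.1 (Finset.mem_coe.1 hP')
    have e1 : P.1 = P'.1 := congrArg Sigma.fst he
    have e2 : P.2 ∩ P.1 = P'.2 ∩ P'.1 := congrArg (fun x : (_ : Finset Edge) × Finset Edge => x.2) he
    have e3 : ∀ P : Finset Edge × Finset Edge, P.1 ∪ P.2 = C → P.2 = (C \ P.1) ∪ (P.2 ∩ P.1) := by
      intro P hP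
      ext e
      rw [← hP]
      simp only [Finset.mem_union, Finset.mem_sdiff, Finset.mem_inter]
      tauto
    refine Prod.ext e1 ?_
    rw [e3 P h3, e3 P' h3', e2, e1]

theorem locS_card (m1 : ℕ) (D : Finset Edge) : ((LocS m1 D).card : ℝ) ≤ D.card * 54 ^ (2 * m1) := by
  classical
  obtain ⟨T, hT⟩ : ∃ T, T = D.powerset.filter (fun C => C.Nonempty ∧ Conn C ∧ C.card ≤ 2 * m1) := ⟨_, rfl⟩
  have hmaps : ∀ P ∈ LocS m1 D, P.1 ∪ P.2 ∈ T := by
    intro P hP
    unfold LocS at hP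
    obtain ⟨-, h⟩ := Finset.mem_filter.1 hP
    rw [hT]
    refine Finset.mem_filter.2 ⟨Finset.mem_powerset.2 (Finset.union_subset h.sub h.sub'), h.ne, h.conn, ?_⟩
    have h1 := Finset.card_union_le P.1 P.2
    have h2 := h.card
    have h3 := h.card'
    omega
  have hcard : (LocS m1 D).card ≤ ∑ C ∈ T, 3 ^ C.card := by
    rw [Finset.card_eq_sum_card_fiberwise hmaps]
    apply Finset.sum_le_sum
    intro C _
    refine le_trans (Finset.card_le_card ?_) (vfam_pairs C)
    intro P hP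
    obtain ⟨-, h2⟩ := Finset.mem_filter.1 hP
    refine Finset.mem_filter.2 ⟨Finset.mem_product.2 ⟨Finset.mem_powerset.2 ?_, Finset.mem_powerset.2 ?_⟩, h2⟩
    · rw [← h2]
      exact Finset.subset_union_left
    · rw [← h2]
      exact Finset.subset_union_right
  have hw : ∀ C ∈ T, ((3 : ℝ)) ^ C.card ≤ 54 ^ (2 * m1) * ((1 : ℝ) / 18) ^ C.card := by
    intro C hC
    rw [hT] at hC
    obtain ⟨-, -, -, h3⟩ := Finset.mem_filter.1 hC
    have h4 : ((3 : ℝ)) ^ C.card = 54 ^ C.card * ((1 : ℝ) / 18) ^ C.card := by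
      rw [← mul_pow]
      norm_num
    rw [h4]
    exact mul_le_mul_of_nonneg_right (pow_le_pow_right₀ (by norm_num) h3) (by positivity)
  have hone : ∑ C ∈ T, ((1 : ℝ) / 18) ^ C.card ≤ D.card := by
    have h1 : ∀ C ∈ T, ((1 : ℝ) / 18) ^ C.card ≤ ∑ e ∈ D, if e ∈ C then ((1 : ℝ) / 18) ^ C.card else 0 := by
      intro C hC
      rw [hT] at hC
      obtain ⟨h2, ⟨e, he⟩, -, -⟩ := Finset.mem_filter.1 hC
      have h3 : e ∈ D := Finset.mem_powerset.1 h2 he
      have h4 := Finset.single_le_sum (f := fun e => if e ∈ C then ((1 : ℝ) / 18) ^ C.card else 0)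
        (fun b _ => by
          show (0 : ℝ) ≤ if b ∈ C then ((1 : ℝ) / 18) ^ C.card else 0
          split_ifs
          · positivity
          · exact le_rfl) h3
      simp only [he, if_true] at h4
      exact h4
    refine (Finset.sum_le_sum h1).trans ?_
    rw [Finset.sum_comm]
    have h2 : ∀ e ∈ D, ∑ C ∈ T, (if e ∈ C then ((1 : ℝ) / 18) ^ C.card else 0) ≤ 1 := by
      intro e _
      rw [← Finset.sum_filter]
      have h3 := animal_tail D e (T.filter (fun C => e ∈ C)) (fun C hC => by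
        obtain ⟨h4, h5⟩ := Finset.mem_filter.1 hC
        rw [hT] at h4
        obtain ⟨h6, -, h7, -⟩ := Finset.mem_filter.1 h4
        exact ⟨Finset.mem_powerset.1 h6, h5, h7⟩) (1 / 18) (by norm_num) (by norm_num) 0 (fun _ _ => Nat.zero_le _)
      rw [pow_zero] at h3
      exact h3
    refine (Finset.sum_le_sum h2).trans (le_of_eq ?_)
    rw [Finset.sum_const, nsmul_eq_mul, mul_one]
  calc ((LocS m1 D).card : ℝ) ≤ ((∑ C ∈ T, 3 ^ C.card : ℕ) : ℝ) := by exact_mod_cast hcard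
    _ = ∑ C ∈ T, (3 : ℝ) ^ C.card := by push_cast; rfl
    _ ≤ ∑ C ∈ T, 54 ^ (2 * m1) * ((1 : ℝ) / 18) ^ C.card := Finset.sum_le_sum hw
    _ = 54 ^ (2 * m1) * ∑ C ∈ T, ((1 : ℝ) / 18) ^ C.card := by rw [Finset.mul_sum]
    _ ≤ 54 ^ (2 * m1) * D.card := mul_le_mul_of_nonneg_left hone (by positivity)
    _ = D.card * 54 ^ (2 * m1) := mul_comm _ _

end

end Pool.Agent.H40.WM
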