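import Mathlib
import Pool.Agent.H40.WM.VDefs
import Pool.Agent.H40.WM.VDec
import Pool.Agent.H40.WM.QBas

/-!
# VMix: decomposition of the variance

`w X = omD q D X`, `g X = gmn q D f X`, `κ = (∑ w g)/ZP`.
* For fixed `G`: `∑_S q^(|G|+|S|) (f (G ∪ S) - κ)^2 = gvr G + (g G - κ)^2 q^|G| ZV (D \ N1 G)` (the cross term vanishes because `g G` is the mean) and `q^|G| ZV (D \ N1 G) = ZV D w G` (`exp_psiD`).
* `∑_X w X (g X - κ)^2 = (1/(2 ZP)) ∑_{X,Y} w X w Y (g X - g Y)^2` (expand; `ZP = ∑ w`, `ZP_def`).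
* `gmn_abs`: mean of numbers in `[-B,B]`.
-/

set_option autoImplicit false

namespace Pool.Agent.H40.WM

open Pool.Agent.H40.SQ

noncomputable section

theorem gmn_abs (q : ℝ) (hq0 : 0 < q) (D : Finset Edge) (f : Finset Edge → ℝ) (G : Finset Edge) (B : ℝ)
    (hf : ∀ A ∈ VCs (D \ N1 G), |f (G ∪ A)| ≤ B) : |gmn q D f G| ≤ B := by
  have hW : 0 < ZV q (D \ N1 G) := ZV_pos q hq0.le _
  unfold gmn
  rw [abs_div, abs_of_pos hW, div_le_iff₀ hW]
  refine (Finset.abs_sum_le_sum_abs _ _).trans ?_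
  unfold ZV
  rw [Finset.mul_sum]
  refine Finset.sum_le_sum fun A hA => ?_
  rw [abs_mul, abs_of_pos (pow_pos hq0 _), mul_comm]
  exact mul_le_mul_of_nonneg_right (hf A hA) (pow_pos hq0 _).le

theorem gvr_nonneg (q : ℝ) (hq0 : 0 < q) (D : Finset Edge) (f : Finset Edge → ℝ) (G : Finset Edge) : 0 ≤ gvr q D f G := by
  unfold gvr
  exact Finset.sum_nonneg fun S _ => mul_nonneg (pow_pos hq0 _).le (sq_nonneg _)

theorem vmix_one (q : ℝ) (hq0 : 0 < q) (D : Finset Edge) (f : Finset Edge → ℝ) (G : Finset Edge) (κ : ℝ) :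
    ∑ A ∈ VCs (D \ N1 G), q ^ (G.card + A.card) * (f (G ∪ A) - κ) ^ 2 =
      gvr q D f G + ZV q D * (omD q D G * (gmn q D f G - κ) ^ 2) := by
  have hW : 0 < ZV q (D \ N1 G) := ZV_pos q hq0.le _
  have h0 : ∑ A ∈ VCs (D \ N1 G), q ^ A.card * (f (G ∪ A) - gmn q D f G) = 0 := by
    have h1 : ∑ A ∈ VCs (D \ N1 G), q ^ A.card * (f (G ∪ A) - gmn q D f G) =
        ∑ A ∈ VCs (D \ N1 G), q ^ A.card * f (G ∪ A) - gmn q D f G * ZV q (D \ N1 G) := by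
      unfold ZV
      rw [Finset.mul_sum, ← Finset.sum_sub_distrib]
      refine Finset.sum_congr rfl fun A _ => ?_
      ring
    rw [h1]
    unfold gmn
    rw [div_mul_cancel₀ _ hW.ne', sub_self]
  have h2 : ∑ A ∈ VCs (D \ N1 G), q ^ (G.card + A.card) * (f (G ∪ A) - κ) ^ 2 =
      gvr q D f G + 2 * (gmn q D f G - κ) * q ^ G.card *
        (∑ A ∈ VCs (D \ N1 G), q ^ A.card * (f (G ∪ A) - gmn q D f G)) +
        (gmn q D f G - κ) ^ 2 * (q ^ G.card * ZV q (D \ N1 G)) := by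
    unfold gvr
    conv_rhs => unfold ZV
    rw [Finset.mul_sum, Finset.mul_sum, Finset.mul_sum, ← Finset.sum_add_distrib,
      ← Finset.sum_add_distrib]
    refine Finset.sum_congr rfl fun A _ => ?_
    rw [pow_add]
    ring
  rw [h2, h0, ← exp_psiD q hq0]
  ring

theorem vmix_two {ι : Type*} (s : Finset ι) (w g : ι → ℝ) (hZ : 0 < ∑ x ∈ s, w x) :
    ∑ x ∈ s, w x * (g x - (∑ y ∈ s, w y * g y) / ∑ y ∈ s, w y) ^ 2 =
      1 / (2 * ∑ y ∈ s, w y) * ∑ P ∈ s ×ˢ s, w P.1 * w P.2 * (g P.1 - g P.2) ^ 2 := by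
  have h1 : ∀ κ : ℝ, ∑ x ∈ s, w x * (g x - κ) ^ 2 =
      ∑ x ∈ s, w x * g x ^ 2 - 2 * κ * (∑ x ∈ s, w x * g x) + κ ^ 2 * ∑ x ∈ s, w x := by
    intro κ
    rw [Finset.mul_sum, Finset.mul_sum, ← Finset.sum_sub_distrib, ← Finset.sum_add_distrib]
    refine Finset.sum_congr rfl fun x _ => ?_
    ring
  have h2 : ∑ P ∈ s ×ˢ s, w P.1 * w P.2 * (g P.1 - g P.2) ^ 2 =
      2 * ((∑ x ∈ s, w x) * (∑ x ∈ s, w x * g x ^ 2)) - 2 * (∑ x ∈ s, w x * g x) ^ 2 := by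
    rw [Finset.sum_product]
    have h3 : ∀ x ∈ s, ∑ y ∈ s, w x * w y * (g x - g y) ^ 2 =
        w x * (∑ y ∈ s, w y * g y ^ 2) - 2 * (w x * g x) * (∑ y ∈ s, w y * g y) +
          w x * g x ^ 2 * ∑ y ∈ s, w y := by
      intro x _
      rw [Finset.mul_sum, Finset.mul_sum, Finset.mul_sum, ← Finset.sum_sub_distrib,
        ← Finset.sum_add_distrib]
      refine Finset.sum_congr rfl fun y _ => ?_
      ring
    rw [Finset.sum_congr rfl h3, Finset.sum_add_distrib, Finset.sum_sub_distrib,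
      ← Finset.sum_mul, ← Finset.sum_mul, ← Finset.sum_mul, ← Finset.mul_sum]
    ring
  rw [h1, h2]
  field_simp
  ring

theorem var_mix (q : ℝ) (hq0 : 0 < q) (D : Finset Edge) (a b : ℤ × ℤ) (f : Finset Edge → ℝ) (hZ : 0 < ZP q D a b) :
    ∑ G ∈ PD D a b, ∑ A ∈ VCs (D \ N1 G), q ^ (G.card + A.card) *
        (f (G ∪ A) - (∑ X ∈ PD D a b, omD q D X * gmn q D f X) / ZP q D a b) ^ 2 =
      ∑ G ∈ PD D a b, gvr q D f G + ZV q D / (2 * ZP q D a b) *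
        ∑ P ∈ PD D a b ×ˢ PD D a b, omD q D P.1 * omD q D P.2 * (gmn q D f P.1 - gmn q D f P.2) ^ 2 := by
  rw [Finset.sum_congr rfl (fun G _ => vmix_one q hq0 D f G _), Finset.sum_add_distrib,
    ← Finset.mul_sum]
  have h := vmix_two (PD D a b) (omD q D) (gmn q D f) hZ
  unfold ZP
  rw [h]
  ring

end

end Pool.Agent.H40.WM
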