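import Mathlib
import Pool.Agent.H40.WM.ADefs

/-!
# MDefs: pairs of configurations whose heights differ by an indicator function (definitions only)

`MP n X Y D`: `F X = F Y + 1_D`.  `per D` = number of vertical boundary edges of `D`.  `kdD` = decoding data (compare `SQ.kd`).
-/

set_option autoImplicit false

namespace Pool.Agent.H40.WM

open Pool.Agent.H40.SQ

noncomputable section

structure MP (n : ℕ) (X Y : Finset Edge) (D : Finset (ℤ × ℤ)) : Prop where
  hX : X ∈ Om n
  hY : Y ∈ Om n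
  eq : ∀ i j : ℤ, F X i j = F Y i j + if (i, j) ∈ D then 1 else 0

/-- The number of vertical boundary edges of `D`. -/
def per (D : Finset (ℤ × ℤ)) : ℕ :=
  ((D ∪ D.image (fun x => (x.1 + 1, x.2))).filter (fun x => ¬ (x ∈ D ↔ (x.1 - 1, x.2) ∈ D))).card

/-- Decoding data. -/
def kdD (n : ℕ) (Y : Finset Edge) (D : Finset (ℤ × ℤ)) (c r b j : ℤ) (s : Bool) : ℕ :=
  ((Finset.Ico 0 (n : ℤ)).filter (fun i => ((s = true ∧ b ≤ i) ∨ (s = false ∧ i < b)) ∧
    (i, j) ∈ D ∧ F Y i j = pf c r b i j - 1)).card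

end

end Pool.Agent.H40.WM
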