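import Mathlib
import Pool.Agent.H40.WM.MDefs
import Pool.Agent.H40.SQ.PSt
import Pool.Agent.H40.SQ.PLin
import Pool.Agent.H40.SQ.HCfg
import Pool.Agent.H40.SQ.HLat
import Pool.Agent.H40.SQ.HStep

/-!
# MSt: the states of the path (analogue of `SQ.PSt` for monotone pairs)

`lo X Y = F Y` and `hi X Y = F X` because `F Y ≤ F X`.  `stf X Y c r b = min (max (F Y) pf) (F X)`: `Val0` by `val0_max`, `val0_min`, `pf_val0`;
outside the box `F X = F Y = 0`, so it is `0`.  Then `cfg_mem`, `F_cfg` (as in `SQ.PSt`).  `mp_pt`: on `D` `F X = F Y + 1`, off `D` `F X = F Y`.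
-/

set_option autoImplicit false

namespace Pool.Agent.H40.WM

open Pool.Agent.H40.SQ

noncomputable section

private theorem mst_le {n : ℕ} {X Y : Finset Edge} {D : Finset (ℤ × ℤ)} (h : MP n X Y D) (i j : ℤ) :
    F Y i j ≤ F X i j := by
  have h1 := h.eq i j
  split_ifs at h1 <;> omega

theorem mp_lo {n : ℕ} {X Y : Finset Edge} {D : Finset (ℤ × ℤ)} (h : MP n X Y D) (i j : ℤ) : lo X Y i j = F Y i j := by
  have h1 := mst_le h i j
  unfold lo
  omega

theorem mp_hi {n : ℕ} {X Y : Finset Edge} {D : Finset (ℤ × ℤ)} (h : MP n X Y D) (i j : ℤ) : hi X Y i j = F X i j := by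
  have h1 := mst_le h i j
  unfold hi
  omega

theorem mp_val {n : ℕ} {X Y : Finset Edge} {D : Finset (ℤ × ℤ)} (h : MP n X Y D) (c r b : ℤ) : Val n (stf X Y c r b) := by
  have hX := val_F h.hX
  have hY := val_F h.hY
  refine ⟨?_, fun i j hij => ?_⟩
  · exact val0_min (val0_max (val0_min hX.1 hY.1) (pf_val0 c r b)) (val0_max hX.1 hY.1)
  · have h1 := hX.2 i j hij
    have h2 := hY.2 i j hij
    unfold stf lo hi
    rw [h1, h2]
    omega

theorem mp_mem {n : ℕ} {X Y : Finset Edge} {D : Finset (ℤ × ℤ)} (h : MP n X Y D) (c r b : ℤ) : stc n X Y c r b ∈ Om n :=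
  cfg_mem (mp_val h c r b)

theorem mp_F {n : ℕ} {X Y : Finset Edge} {D : Finset (ℤ × ℤ)} (h : MP n X Y D) (c r b i j : ℤ) :
    F (stc n X Y c r b) i j = stf X Y c r b i j :=
  F_cfg (mp_val h c r b) i j

theorem mp_between {n : ℕ} {X Y : Finset Edge} {D : Finset (ℤ × ℤ)} (h : MP n X Y D) (c r b i j : ℤ) :
    F Y i j ≤ F (stc n X Y c r b) i j ∧ F (stc n X Y c r b) i j ≤ F X i j := by
  rw [mp_F h]
  have h1 := mp_lo h i j
  have h2 := mp_hi h i j
  have h3 := mst_le h i j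
  unfold stf
  rw [h1, h2]
  omega

theorem mp_pt {n : ℕ} {X Y : Finset Edge} {D : Finset (ℤ × ℤ)} (h : MP n X Y D) (c r b i j : ℤ) :
    stf X Y c r b i j = F Y i j + if (i, j) ∈ D ∧ F Y i j < pf c r b i j then 1 else 0 := by
  have h1 := mp_lo h i j
  have h2 := mp_hi h i j
  have h3 := h.eq i j
  unfold stf
  rw [h1, h2, h3]
  by_cases hD : (i, j) ∈ D
  · by_cases hp : F Y i j < pf c r b i j
    · rw [if_pos hD, if_pos ⟨hD, hp⟩]
      omega
    · rw [if_pos hD, if_neg (fun h4 => hp h4.2)]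
      omega
  · rw [if_neg hD, if_neg (fun h4 => hD h4.1)]
    omega

end

end Pool.Agent.H40.WM
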