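import Mathlib
import Pool.Agent.H40.WM.MSt
import Pool.Agent.H40.SQ.PDec

/-!
# MDec: decoding (analogue of `SQ.PDec`; copy and adapt that proof)

With `f = F Y`, `f' = F Y'`, `p = pf c r b`, `g` the common height function of the state: off `D` `f = g = f'`.  On `D`: `g = f + 1` if `f < p`, `g = f` if `f ≥ p` (`mp_pt`).
So `g < p → f = g - 1`, `g > p → f = g`, and if `g = p` then `f ∈ {p-1, p}`; the faces of `D` with `f = p - 1` on one side of a row form an initial segment of the
faces of `D` with `g = p` (`sub_Lin_mono`), and their number is `kdD`.  So `f = f'`, `Y = Y'` (`F_inj`) and `F X = f + 1_D = F X'`.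
-/

set_option autoImplicit false

namespace Pool.Agent.H40.WM

open Pool.Agent.H40.SQ

noncomputable section

/-- on one side of a row the sweeping function is linear -/
private theorem mdec_side (c r b j i₀ : ℤ) : ∃ c' : ℤ, ∀ i : ℤ,
    ((b ≤ i₀ ∧ b ≤ i) ∨ (i₀ < b ∧ i < b)) → pf c r b i j = Lin c' i j := by
  by_cases h1 : j < r ∨ (j = r ∧ b ≤ i₀)
  · refine ⟨c + 1, fun i hi => ?_⟩
    unfold pf
    rw [if_pos (by omega)]
  · refine ⟨c, fun i hi => ?_⟩
    unfold pf
    rw [if_neg (by omega)]

/-- the faces of `D` are in the box -/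
theorem mdec_box {n : ℕ} {X Y : Finset Edge} {D : Finset (ℤ × ℤ)} (h : MP n X Y D) {i j : ℤ}
    (hD : (i, j) ∈ D) : (i, j) ∈ box n := by
  by_contra hb
  have h1 := h.eq i j
  rw [(val_F h.hX).2 i j hb, (val_F h.hY).2 i j hb, if_pos hD] at h1
  omega

/-- the pointwise relation between the common height function and the lower heights -/
private theorem mdec_pt {n : ℕ} {X Y : Finset Edge} {D : Finset (ℤ × ℤ)} (h : MP n X Y D)
    (c r b i j : ℤ) :
    ((i, j) ∉ D → stf X Y c r b i j = F Y i j) ∧
      ((i, j) ∈ D → (F Y i j < pf c r b i j → stf X Y c r b i j = F Y i j + 1) ∧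
        (pf c r b i j ≤ F Y i j → stf X Y c r b i j = F Y i j)) := by
  have h1 := mp_pt h c r b i j
  constructor
  · intro h0
    rw [if_neg (fun hh => h0 hh.1)] at h1
    omega
  · intro h0
    constructor
    · intro h4
      rw [if_pos ⟨h0, h4⟩] at h1
      exact h1
    · intro h4
      rw [if_neg (fun hh => absurd hh.2 (not_lt.mpr h4))] at h1
      omega

private theorem mdec_aux {n : ℕ} {X Y X' Y' : Finset Edge} {D : Finset (ℤ × ℤ)}
    (h : MP n X Y D) (h' : MP n X' Y' D)
    (c r b : ℤ) (hst : ∀ i j, stf X Y c r b i j = stf X' Y' c r b i j)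
    (hkd : ∀ j : ℤ, ∀ s : Bool, kdD n Y D c r b j s = kdD n Y' D c r b j s) (i₀ j : ℤ)
    (hκ : (i₀, j) ∈ D) (h1 : F Y i₀ j = pf c r b i₀ j - 1)
    (h2 : F Y' i₀ j = pf c r b i₀ j) : False := by
  classical
  obtain ⟨c', hc'⟩ := mdec_side c r b j i₀
  have hp0 : pf c r b i₀ j = Lin c' i₀ j := hc' i₀ (by omega)
  -- the side
  let s : Bool := decide (b ≤ i₀)
  have hs : ∀ i : ℤ, ((s = true ∧ b ≤ i) ∨ (s = false ∧ i < b)) ↔
      ((b ≤ i₀ ∧ b ≤ i) ∨ (i₀ < b ∧ i < b)) := by
    intro i
    simp only [s, decide_eq_true_eq, decide_eq_false_iff_not, not_le]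
  have hk := hkd j s
  unfold kdD at hk
  have hlt : ((Finset.Ico 0 (n : ℤ)).filter (fun i => ((s = true ∧ b ≤ i) ∨ (s = false ∧ i < b)) ∧
      (i, j) ∈ D ∧ F Y' i j = pf c r b i j - 1)) ⊂
      ((Finset.Ico 0 (n : ℤ)).filter (fun i => ((s = true ∧ b ≤ i) ∨ (s = false ∧ i < b)) ∧
      (i, j) ∈ D ∧ F Y i j = pf c r b i j - 1)) := by
    rw [Finset.ssubset_iff_of_subset]
    · refine ⟨i₀, ?_, ?_⟩
      · rw [Finset.mem_filter]
        refine ⟨?_, (hs i₀).mpr (by omega), hκ, h1⟩
        exact (Finset.mem_product.mp (mdec_box h hκ)).1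
      · rw [Finset.mem_filter]
        rintro ⟨-, -, -, h3⟩
        omega
    · intro i hi
      rw [Finset.mem_filter] at hi ⊢
      obtain ⟨hi1, hi2, hi3, hi4⟩ := hi
      refine ⟨hi1, hi2, hi3, ?_⟩
      have hpi : pf c r b i j = Lin c' i j := hc' i ((hs i).mp hi2)
      have e1 := ((mdec_pt h' c r b i j).2 hi3).1 (by omega)
      have e2 := hst i j
      have e3 := (mdec_pt h c r b i j).2 hi3
      by_contra hne
      have e4 : F Y i j = pf c r b i j := by
        rcases lt_or_ge (F Y i j) (pf c r b i j) with hlt | hge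
        · have := e3.1 hlt
          omega
        · have := e3.2 hge
          omega
      rcases le_or_gt i₀ i with hle | hgt
      · have := sub_Lin_mono (val_F h'.hY).1 c' j hle
        omega
      · have := sub_Lin_mono (val_F h.hY).1 c' j hgt.le
        omega
  have := Finset.card_lt_card hlt
  omega

theorem mp_decode {n : ℕ} {X Y X' Y' : Finset Edge} {D : Finset (ℤ × ℤ)} (h : MP n X Y D) (h' : MP n X' Y' D) (c r b : ℤ)
    (hst : stc n X Y c r b = stc n X' Y' c r b)
    (hkd : ∀ j : ℤ, ∀ s : Bool, kdD n Y D c r b j s = kdD n Y' D c r b j s) : X = X' ∧ Y = Y' := by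
  have hst' : ∀ i j, stf X Y c r b i j = stf X' Y' c r b i j := by
    intro i j
    rw [← mp_F h, ← mp_F h', hst]
  have hlo : ∀ i j, F Y i j = F Y' i j := by
    intro i j
    have e0 := hst' i j
    have e1 := mdec_pt h c r b i j
    have e2 := mdec_pt h' c r b i j
    by_cases hκ : (i, j) ∈ D
    · have f1 := e1.2 hκ
      have f2 := e2.2 hκ
      by_contra hne
      rcases lt_or_ge (F Y i j) (pf c r b i j) with g1 | g1
      · have a1 := f1.1 g1
        rcases lt_or_ge (F Y' i j) (pf c r b i j) with g2 | g2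
        · have a2 := f2.1 g2
          omega
        · have a2 := f2.2 g2
          exact mdec_aux h h' c r b hst' hkd i j hκ (by omega) (by omega)
      · have a1 := f1.2 g1
        rcases lt_or_ge (F Y' i j) (pf c r b i j) with g2 | g2
        · have a2 := f2.1 g2
          exact mdec_aux h' h c r b (fun i j => (hst' i j).symm) (fun j s => (hkd j s).symm) i j hκ
            (by omega) (by omega)
        · have a2 := f2.2 g2
          omega
    · have := e1.1 hκ
      have := e2.1 hκ
      omega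
  refine ⟨F_inj h.hX h'.hX fun i j => ?_, F_inj h.hY h'.hY hlo⟩
  rw [h.eq i j, h'.eq i j, hlo]

end

end Pool.Agent.H40.WM
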