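import Mathlib
import Pool.Agent.H40.WM.MSt
import Pool.Agent.H40.SQ.PEn
import Pool.Agent.H40.SQ.PTv
import Pool.Agent.H40.SQ.HCard

/-!
# MEn: energy of the states (analogue of `SQ.PEn`)

`card_eq_tv`: `|η| = 2 ∑_rows TV(F η)`.  In the row `j`: `stf = F Y + 1_{D ∩ A}`, `A = {F Y < pf}` (`mp_pt`).  For `j ≠ r`, `A` is an initial segment of the row
(`sub_Lin_mono`), so `TV(1_{D∩A}) ≤ TV(1_D)` (`tv_cut_left`, with `v i = 1` iff `(i,j) ∈ D`; `D ⊆ box n` because `F X = F Y = 0` outside).  For `j = r`, `A` changes at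
most 3 times (`pen_count`), so `TV(1_{D∩A}) ≤ TV(1_D) + 3` (`tv_cut3`), and it is `0` if the row of `D` is empty; otherwise `TV(1_D) ≥ 2`, so `TV(1_{D ∩ A}) ≤ (5/2) TV(1_D)`
(in integers: `2 TV(1_{D∩A}) ≤ 5 TV(1_D)`).
`∑_rows TV(1_D) = per D` (the pairs `(i,j)` with exactly one of `(i,j), (i-1,j)` in `D`; `0 ≤ i ≤ n`).  So
`|η| ≤ |Y| + 5 per D`; and `F Y = F X - 1_D` gives `|Y| ≤ |X| + 2 per D`, similarly `|X| ≤ |Y| + 2 per D`.
-/

set_option autoImplicit false

namespace Pool.Agent.H40.WM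

open Pool.Agent.H40.SQ

noncomputable section

private theorem men_tele (d : ℤ → ℤ) (n : ℕ) :
    ∑ i ∈ Finset.Icc 0 (n : ℤ), (d i - d (i - 1)) = d n - d (-1) := by
  induction n with
  | zero =>
    have h : Finset.Icc (0 : ℤ) ((0 : ℕ) : ℤ) = {0} := by
      ext x
      rw [Finset.mem_Icc, Finset.mem_singleton]
      omega
    rw [h, Finset.sum_singleton]
    rfl
  | succ n ih =>
    have h : Finset.Icc (0 : ℤ) ((n + 1 : ℕ) : ℤ) =
        insert ((n + 1 : ℕ) : ℤ) (Finset.Icc (0 : ℤ) (n : ℤ)) := by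
      ext x
      rw [Finset.mem_insert, Finset.mem_Icc, Finset.mem_Icc]
      omega
    have h2 : ((n + 1 : ℕ) : ℤ) ∉ Finset.Icc (0 : ℤ) (n : ℤ) := by
      rw [Finset.mem_Icc]
      omega
    rw [h, Finset.sum_insert h2, ih]
    have h3 : ((n + 1 : ℕ) : ℤ) - 1 = n := by push_cast; ring
    rw [h3]
    ring

/-- A nonempty row has total variation at least two. -/
private theorem men_two (n : ℕ) (v : ℤ → ℤ) (h0 : v (-1) = 0) (hn : v n = 0) (i0 : ℤ) (hi : -1 ≤ i0)
    (hi' : i0 < n) (hv : v i0 = 1) : 2 ≤ ∑ i ∈ Finset.Icc 0 (n : ℤ), |v i - v (i - 1)| := by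
  have h1 := men_tele (fun i => if i ≤ i0 then v i else 2 - v i) n
  rw [if_neg (by omega), if_pos hi, h0, hn] at h1
  have h2 : ∑ i ∈ Finset.Icc 0 (n : ℤ), ((if i ≤ i0 then v i else 2 - v i) -
      (if i - 1 ≤ i0 then v (i - 1) else 2 - v (i - 1))) ≤
      ∑ i ∈ Finset.Icc 0 (n : ℤ), |v i - v (i - 1)| := by
    refine Finset.sum_le_sum fun i _ => ?_
    have h3 := le_abs_self (v i - v (i - 1))
    have h4 := neg_abs_le (v i - v (i - 1))
    by_cases a : i ≤ i0
    · rw [if_pos a, if_pos (by omega)]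
      exact h3
    · rw [if_neg a]
      by_cases b : i - 1 ≤ i0
      · rw [if_pos b]
        have e : i - 1 = i0 := by omega
        rw [e] at h4 ⊢
        omega
      · rw [if_neg b]
        omega
  linarith

/-- The indicator of `D`. -/
private def dI (D : Finset (ℤ × ℤ)) (i j : ℤ) : ℤ := if (i, j) ∈ D then 1 else 0

private theorem dI_01 (D : Finset (ℤ × ℤ)) (i j : ℤ) : dI D i j = 0 ∨ dI D i j = 1 := by
  unfold dI
  split_ifs
  · exact Or.inr rfl
  · exact Or.inl rfl

private theorem mp_box {n : ℕ} {X Y : Finset Edge} {D : Finset (ℤ × ℤ)} (h : MP n X Y D) (i j : ℤ)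
    (hb : (i, j) ∉ box n) : (i, j) ∉ D := by
  intro hD
  have h1 := h.eq i j
  rw [(val_F h.hX).2 i j hb, (val_F h.hY).2 i j hb, if_pos hD] at h1
  omega

private theorem dI_neg {n : ℕ} {X Y : Finset Edge} {D : Finset (ℤ × ℤ)} (h : MP n X Y D) (i j : ℤ)
    (hi : i < 0) : dI D i j = 0 := by
  unfold dI
  rw [if_neg]
  apply mp_box h
  unfold box
  rw [Finset.mem_product, Finset.mem_Ico]
  intro h2
  exact absurd h2.1.1 (not_le.mpr hi)

private theorem dI_big {n : ℕ} {X Y : Finset Edge} {D : Finset (ℤ × ℤ)} (h : MP n X Y D) (i j : ℤ)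
    (hi : (n : ℤ) ≤ i) : dI D i j = 0 := by
  unfold dI
  rw [if_neg]
  apply mp_box h
  unfold box
  rw [Finset.mem_product, Finset.mem_Ico]
  intro h2
  exact absurd h2.1.2 (not_lt.mpr hi)

/-- The perimeter is the sum of the total variations of the rows. -/
private theorem per_eq {n : ℕ} {X Y : Finset Edge} {D : Finset (ℤ × ℤ)} (h : MP n X Y D) :
    (per D : ℤ) = ∑ j ∈ Finset.Ico 0 (n : ℤ), ∑ i ∈ Finset.Icc 0 (n : ℤ),
      |dI D i j - dI D (i - 1) j| := by
  classical
  have h1 : ∀ i j : ℤ, |dI D i j - dI D (i - 1) j| =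
      if ¬ ((i, j) ∈ D ↔ (i - 1, j) ∈ D) then 1 else 0 := by
    intro i j
    unfold dI
    by_cases a : (i, j) ∈ D <;> by_cases b : (i - 1, j) ∈ D <;> simp [a, b]
  simp only [h1]
  rw [← Finset.sum_product' (Finset.Ico 0 (n : ℤ)) (Finset.Icc 0 (n : ℤ))
    (fun j i => if ¬ ((i, j) ∈ D ↔ (i - 1, j) ∈ D) then (1 : ℤ) else 0), Finset.sum_boole]
  congr 1
  unfold per
  refine Finset.card_bij (fun x _ => (x.2, x.1)) ?_ ?_ ?_
  · rintro ⟨i, j⟩ hx
    rw [Finset.mem_filter] at hx
    rw [Finset.mem_filter, Finset.mem_product, Finset.mem_Ico, Finset.mem_Icc]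
    refine ⟨?_, hx.2⟩
    dsimp only
    have h2 : (i, j) ∈ D ∨ (i - 1, j) ∈ D := by
      by_contra h3
      push Not at h3
      exact hx.2 ⟨fun h4 => absurd h4 h3.1, fun h4 => absurd h4 h3.2⟩
    rcases h2 with h2 | h2
    · have h3 : (i, j) ∈ box n := by
        by_contra h4
        exact mp_box h i j h4 h2
      unfold box at h3
      rw [Finset.mem_product, Finset.mem_Ico, Finset.mem_Ico] at h3
      dsimp only at h3
      omega
    · have h3 : (i - 1, j) ∈ box n := by
        by_contra h4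
        exact mp_box h (i - 1) j h4 h2
      unfold box at h3
      rw [Finset.mem_product, Finset.mem_Ico, Finset.mem_Ico] at h3
      dsimp only at h3
      omega
  · rintro ⟨i, j⟩ _ ⟨i', j'⟩ _ he
    simp only [Prod.mk.injEq] at he ⊢
    exact ⟨he.2, he.1⟩
  · rintro ⟨j, i⟩ hy
    rw [Finset.mem_filter] at hy
    refine ⟨(i, j), ?_, rfl⟩
    rw [Finset.mem_filter]
    refine ⟨?_, hy.2⟩
    have h2 : (i, j) ∈ D ∨ (i - 1, j) ∈ D := by
      by_contra h3
      push Not at h3
      exact hy.2 ⟨fun h4 => absurd h4 h3.1, fun h4 => absurd h4 h3.2⟩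
    rw [Finset.mem_union, Finset.mem_image]
    rcases h2 with h2 | h2
    · exact Or.inl h2
    · refine Or.inr ⟨(i - 1, j), h2, ?_⟩
      simp

/-- The cut row. -/
private theorem men_cut {n : ℕ} {X Y : Finset Edge} {D : Finset (ℤ × ℤ)} (h : MP n X Y D)
    (c r b j : ℤ) :
    2 * ∑ i ∈ Finset.Icc 0 (n : ℤ), |(if F Y i j < pf c r b i j then dI D i j else 0) -
        (if F Y (i - 1) j < pf c r b (i - 1) j then dI D (i - 1) j else 0)| ≤
      5 * ∑ i ∈ Finset.Icc 0 (n : ℤ), |dI D i j - dI D (i - 1) j| := by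
  classical
  have hYv := (val_F h.hY).1
  obtain ⟨A, hA⟩ : ∃ A : ℤ → Prop, ∀ i, A i ↔ F Y i j < pf c r b i j := ⟨_, fun _ => Iff.rfl⟩
  have hrew : ∑ i ∈ Finset.Icc 0 (n : ℤ), |(if F Y i j < pf c r b i j then dI D i j else 0) -
        (if F Y (i - 1) j < pf c r b (i - 1) j then dI D (i - 1) j else 0)| =
      ∑ i ∈ Finset.Icc 0 (n : ℤ), |(if A i then dI D i j else 0) -
        (if A (i - 1) then dI D (i - 1) j else 0)| := by
    refine Finset.sum_congr rfl fun i _ => ?_
    have e : ∀ i, (if F Y i j < pf c r b i j then dI D i j else 0) =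
        (if A i then dI D i j else 0) := by
      intro i
      by_cases a : A i
      · rw [if_pos a, if_pos ((hA i).1 a)]
      · rw [if_neg a, if_neg (fun h2 => a ((hA i).2 h2))]
    rw [e, e]
  rw [hrew]
  have hnn : 0 ≤ ∑ i ∈ Finset.Icc 0 (n : ℤ), |dI D i j - dI D (i - 1) j| :=
    Finset.sum_nonneg fun i _ => abs_nonneg _
  by_cases hj : j = r
  · subst hj
    have hmono : ∀ i i', i ≤ i' → (i' < b ∨ b ≤ i) →
        F Y i j - pf c j b i j ≤ F Y i' j - pf c j b i' j := by
      intro i i' hii hb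
      rcases hb with hb | hb
      · rw [pen_pf_left c j b i (by omega), pen_pf_left c j b i' hb]
        exact sub_Lin_mono hYv c j hii
      · rw [pen_pf_right c j b i hb, pen_pf_right c j b i' (by omega)]
        exact sub_Lin_mono hYv (c + 1) j hii
    have h3 := tv_cut3 n 3 (fun i => dI D i j) (fun i => dI_01 D i j) A (by
      refine pen_count n b A ?_ ?_
      · intro i i' hii hb h
        rw [hA] at h ⊢
        have := hmono i i' hii (Or.inl hb)
        omega
      · intro i i' hb hii h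
        rw [hA] at h ⊢
        have := hmono i i' hii (Or.inr hb)
        omega)
    by_cases hrow : ∃ i0, dI D i0 j = 1
    · obtain ⟨i0, hi0⟩ := hrow
      have a1 : -1 ≤ i0 := by
        by_contra h4
        rw [dI_neg h i0 j (by omega)] at hi0
        omega
      have a2 : i0 < n := by
        by_contra h4
        rw [dI_big h i0 j (by omega)] at hi0
        omega
      have h4 := men_two n (fun i => dI D i j) (dI_neg h (-1) j (by norm_num))
        (dI_big h n j le_rfl) i0 a1 a2 hi0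
      push_cast at h3
      linarith
    · push Not at hrow
      have hz : ∀ i, dI D i j = 0 := fun i => (dI_01 D i j).resolve_right (hrow i)
      have h4 : ∑ i ∈ Finset.Icc 0 (n : ℤ), |(if A i then dI D i j else 0) -
          (if A (i - 1) then dI D (i - 1) j else 0)| = 0 := by
        apply Finset.sum_eq_zero
        intro i _
        rw [hz, hz]
        simp
      rw [h4]
      linarith
  · have hmono : ∀ i i', i ≤ i' → F Y i j - pf c r b i j ≤ F Y i' j - pf c r b i' j := by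
      intro i i' hii
      rcases lt_or_gt_of_ne hj with h | h
      · rw [pen_pf_lt c r b i j h, pen_pf_lt c r b i' j h]
        exact sub_Lin_mono hYv (c + 1) j hii
      · rw [pen_pf_gt c r b i j h, pen_pf_gt c r b i' j h]
        exact sub_Lin_mono hYv c j hii
    have h3 := tv_cut_left n (fun i => dI D i j) (fun i => dI_01 D i j)
      (fun i hi => dI_neg h i j hi) (fun i hi => dI_big h i j hi) A (by
      intro i i' hii h
      rw [hA] at h ⊢
      have := hmono i i' hii
      omega)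
    linarith

theorem mp_per {n : ℕ} {X Y : Finset Edge} {D : Finset (ℤ × ℤ)} (h : MP n X Y D) :
    X.card ≤ Y.card + 2 * per D ∧ Y.card ≤ X.card + 2 * per D := by
  have h1 := card_eq_tv h.hX
  have h2 := card_eq_tv h.hY
  have h3 := per_eq h
  have hX : ∀ i j, F X i j = F Y i j + dI D i j := h.eq
  have h4 : ∑ j ∈ Finset.Ico 0 (n : ℤ), ∑ i ∈ Finset.Icc 0 (n : ℤ), |F X i j - F X (i - 1) j| ≤
      ∑ j ∈ Finset.Ico 0 (n : ℤ), ∑ i ∈ Finset.Icc 0 (n : ℤ), |F Y i j - F Y (i - 1) j| +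
      ∑ j ∈ Finset.Ico 0 (n : ℤ), ∑ i ∈ Finset.Icc 0 (n : ℤ), |dI D i j - dI D (i - 1) j| := by
    rw [← Finset.sum_add_distrib]
    refine Finset.sum_le_sum fun j _ => ?_
    rw [← Finset.sum_add_distrib]
    refine Finset.sum_le_sum fun i _ => ?_
    rw [hX, hX]
    have e : F Y i j + dI D i j - (F Y (i - 1) j + dI D (i - 1) j) =
        (F Y i j - F Y (i - 1) j) + (dI D i j - dI D (i - 1) j) := by ring
    rw [e]
    exact abs_add_le _ _
  have h5 : ∑ j ∈ Finset.Ico 0 (n : ℤ), ∑ i ∈ Finset.Icc 0 (n : ℤ), |F Y i j - F Y (i - 1) j| ≤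
      ∑ j ∈ Finset.Ico 0 (n : ℤ), ∑ i ∈ Finset.Icc 0 (n : ℤ), |F X i j - F X (i - 1) j| +
      ∑ j ∈ Finset.Ico 0 (n : ℤ), ∑ i ∈ Finset.Icc 0 (n : ℤ), |dI D i j - dI D (i - 1) j| := by
    rw [← Finset.sum_add_distrib]
    refine Finset.sum_le_sum fun j _ => ?_
    rw [← Finset.sum_add_distrib]
    refine Finset.sum_le_sum fun i _ => ?_
    rw [hX, hX]
    have e : F Y i j - F Y (i - 1) j =
        (F Y i j + dI D i j - (F Y (i - 1) j + dI D (i - 1) j)) + -(dI D i j - dI D (i - 1) j) := by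
      ring
    rw [e]
    refine (abs_add_le _ _).trans ?_
    rw [abs_neg]
  constructor
  · have : ((X.card : ℕ) : ℤ) ≤ ((Y.card + 2 * per D : ℕ) : ℤ) := by
      push_cast
      linarith
    exact_mod_cast this
  · have : ((Y.card : ℕ) : ℤ) ≤ ((X.card + 2 * per D : ℕ) : ℤ) := by
      push_cast
      linarith
    exact_mod_cast this

theorem mp_card {n : ℕ} {X Y : Finset Edge} {D : Finset (ℤ × ℤ)} (h : MP n X Y D) (c r b : ℤ) :
    (stc n X Y c r b).card ≤ X.card + 7 * per D ∧ (stc n X Y c r b).card ≤ Y.card + 5 * per D := by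
  have h1 := card_eq_tv (mp_mem h c r b)
  have h2 := card_eq_tv h.hY
  have h3 := per_eq h
  have h4 := (mp_per h).2
  have hst : ∀ i j, F (stc n X Y c r b) i j =
      F Y i j + (if F Y i j < pf c r b i j then dI D i j else 0) := by
    intro i j
    rw [mp_F h, mp_pt h]
    congr 1
    unfold dI
    by_cases a : F Y i j < pf c r b i j <;> by_cases b : (i, j) ∈ D <;> simp [a, b]
  have h5 : 2 * ∑ j ∈ Finset.Ico 0 (n : ℤ), ∑ i ∈ Finset.Icc 0 (n : ℤ),
      |F (stc n X Y c r b) i j - F (stc n X Y c r b) (i - 1) j| ≤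
      2 * ∑ j ∈ Finset.Ico 0 (n : ℤ), ∑ i ∈ Finset.Icc 0 (n : ℤ), |F Y i j - F Y (i - 1) j| +
      5 * ∑ j ∈ Finset.Ico 0 (n : ℤ), ∑ i ∈ Finset.Icc 0 (n : ℤ), |dI D i j - dI D (i - 1) j| := by
    rw [Finset.mul_sum, Finset.mul_sum, Finset.mul_sum, ← Finset.sum_add_distrib]
    refine Finset.sum_le_sum fun j _ => ?_
    have h6 := men_cut h c r b j
    have h7 : ∑ i ∈ Finset.Icc 0 (n : ℤ),
        |F (stc n X Y c r b) i j - F (stc n X Y c r b) (i - 1) j| ≤
        ∑ i ∈ Finset.Icc 0 (n : ℤ), |F Y i j - F Y (i - 1) j| +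
        ∑ i ∈ Finset.Icc 0 (n : ℤ), |(if F Y i j < pf c r b i j then dI D i j else 0) -
          (if F Y (i - 1) j < pf c r b (i - 1) j then dI D (i - 1) j else 0)| := by
      rw [← Finset.sum_add_distrib]
      refine Finset.sum_le_sum fun i _ => ?_
      rw [hst, hst]
      have e : F Y i j + (if F Y i j < pf c r b i j then dI D i j else 0) -
          (F Y (i - 1) j + (if F Y (i - 1) j < pf c r b (i - 1) j then dI D (i - 1) j else 0)) =
          (F Y i j - F Y (i - 1) j) + ((if F Y i j < pf c r b i j then dI D i j else 0) -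
          (if F Y (i - 1) j < pf c r b (i - 1) j then dI D (i - 1) j else 0)) := by ring
      rw [e]
      exact abs_add_le _ _
    linarith
  have h8 : (stc n X Y c r b).card ≤ Y.card + 5 * per D := by
    have : (((stc n X Y c r b).card : ℕ) : ℤ) ≤ ((Y.card + 5 * per D : ℕ) : ℤ) := by
      push_cast
      linarith
    exact_mod_cast this
  refine ⟨?_, h8⟩
  omega

end

end Pool.Agent.H40.WM
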