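import Mathlib
import Pool.Agent.H40.WM.MDec
import Pool.Agent.H40.WM.MEn
import Pool.Agent.H40.SQ.PKd

/-!
# MSum: weighted number of the pairs with a given state (analogue of `SQ.sum_states`; copy and adapt that proof)

The map `P ↦ (stc n P.1 P.2 c r b, (kdD n P.2 D c r b j s)_{j ∈ J, s})` is injective on `T` (`mp_decode`; for `j ∉ J` the data vanish because `D` has no face in the row),
values of `kdD` in `[0,n]`.  `q^|P.1| ≤ q^(-7 per D) q^|η|`, the same for `P.2` (`mp_card`, `q ≤ 1`); `1 ≤ 2^K ∏ (1/2)^kdD` by `hK`; `∑_k ∏ (1/2)^k ≤ 2^(2 |J|) = 4^|J|`.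
-/

set_option autoImplicit false

namespace Pool.Agent.H40.WM

open Pool.Agent.H40.SQ

noncomputable section

private theorem msum_kd_le (n : ℕ) (Y : Finset Edge) (D : Finset (ℤ × ℤ)) (c r b j : ℤ) (t : Bool) :
    kdD n Y D c r b j t ≤ n := by
  unfold kdD
  refine (Finset.card_filter_le _ _).trans ?_
  rw [Int.card_Ico]
  simp

private theorem msum_kd_zero (n : ℕ) (Y : Finset Edge) (D : Finset (ℤ × ℤ)) (c r b j : ℤ)
    (t : Bool) (hz : ∀ i, (i, j) ∉ D) : kdD n Y D c r b j t = 0 := by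
  unfold kdD
  rw [Finset.card_eq_zero, Finset.filter_eq_empty_iff]
  rintro i _ ⟨_, h2, _⟩
  exact hz i h2

private theorem msum_point {n K : ℕ} {q : ℝ} (hq0 : 0 < q) {D : Finset (ℤ × ℤ)}
    {J : Finset ℤ} (c r b : ℤ) {Y : Finset Edge} {w : ℝ} {η : Finset Edge}
    (h1 : w * q ^ (7 * per D) ≤ q ^ η.card)
    (hK : ∑ j ∈ J, ∑ s : Bool, kdD n Y D c r b j s ≤ K) :
    w ≤ 2 ^ K / q ^ (7 * per D) * (q ^ η.card *
      ∏ x ∈ (J ×ˢ (Finset.univ : Finset Bool)).attach,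
        ((1 : ℝ) / 2) ^ kdD n Y D c r b x.1.1 x.1.2) := by
  have h2 : ∏ x ∈ (J ×ˢ (Finset.univ : Finset Bool)).attach,
      ((1 : ℝ) / 2) ^ kdD n Y D c r b x.1.1 x.1.2 =
      ((1 : ℝ) / 2) ^ (∑ x ∈ J ×ˢ (Finset.univ : Finset Bool), kdD n Y D c r b x.1 x.2) := by
    rw [Finset.prod_attach (J ×ˢ (Finset.univ : Finset Bool))
      (fun x => ((1 : ℝ) / 2) ^ kdD n Y D c r b x.1 x.2), Finset.prod_pow_eq_pow_sum]
  have h3 : ∑ x ∈ J ×ˢ (Finset.univ : Finset Bool), kdD n Y D c r b x.1 x.2 ≤ K := by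
    rw [Finset.sum_product]
    exact hK
  have h4 : (1 : ℝ) ≤ 2 ^ K *
      ((1 : ℝ) / 2) ^ (∑ x ∈ J ×ˢ (Finset.univ : Finset Bool), kdD n Y D c r b x.1 x.2) := by
    calc (1 : ℝ) = 2 ^ K * ((1 : ℝ) / 2) ^ K := by rw [← mul_pow]; norm_num
      _ ≤ _ := mul_le_mul_of_nonneg_left
        (pow_le_pow_of_le_one (by norm_num) (by norm_num) h3) (by positivity)
  rw [h2]
  have hq6 : 0 < q ^ (7 * per D) := by positivity
  have h5 : w ≤ q ^ η.card / q ^ (7 * per D) := by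
    rw [le_div_iff₀ hq6]
    exact h1
  calc w ≤ q ^ η.card / q ^ (7 * per D) := h5
    _ = q ^ η.card / q ^ (7 * per D) * 1 := by ring
    _ ≤ q ^ η.card / q ^ (7 * per D) * (2 ^ K *
      ((1 : ℝ) / 2) ^ (∑ x ∈ J ×ˢ (Finset.univ : Finset Bool), kdD n Y D c r b x.1 x.2)) :=
        mul_le_mul_of_nonneg_left h4 (by positivity)
    _ = _ := by ring

open Classical in
private theorem msum_gen (n K : ℕ) (q : ℝ) (hq0 : 0 < q) (D : Finset (ℤ × ℤ)) (J : Finset ℤ)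
    (hJ : ∀ x ∈ D, x.2 ∈ J)
    (c r b : ℤ) (T : Finset (Finset Edge × Finset Edge)) (hT : ∀ P ∈ T, MP n P.1 P.2 D)
    (hK : ∀ P ∈ T, ∑ j ∈ J, ∑ s : Bool, kdD n P.2 D c r b j s ≤ K) (φ : Finset Edge → ℝ)
    (hφ : ∀ η, 0 ≤ φ η) (w : Finset Edge × Finset Edge → ℝ)
    (hw : ∀ P ∈ T, w P * q ^ (7 * per D) ≤ q ^ (stc n P.1 P.2 c r b).card) :
    ∑ P ∈ T, w P * φ (stc n P.1 P.2 c r b) ≤
      2 ^ K * 4 ^ J.card / q ^ (7 * per D) * ∑ η ∈ Om n, q ^ η.card * φ η := by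
  set I := J ×ˢ (Finset.univ : Finset Bool) with hI
  set KK : Finset Edge × Finset Edge → (x : ℤ × Bool) → x ∈ I → ℕ :=
    fun P x _ => kdD n P.2 D c r b x.1 x.2 with hKK
  set G : Finset Edge × Finset Edge → Finset Edge × ((x : ℤ × Bool) → x ∈ I → ℕ) :=
    fun P => (stc n P.1 P.2 c r b, KK P) with hGdef
  set f : Finset Edge × ((x : ℤ × Bool) → x ∈ I → ℕ) → ℝ := fun y =>
    2 ^ K / q ^ (7 * per D) * (q ^ y.1.card * φ y.1 *
      ∏ x ∈ I.attach, ((1 : ℝ) / 2) ^ y.2 x.1 x.2) with hf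
  have hf0 : ∀ y, 0 ≤ f y := by
    intro y
    have h1 := hφ y.1
    have h2 : 0 ≤ ∏ x ∈ I.attach, ((1 : ℝ) / 2) ^ y.2 x.1 x.2 :=
      Finset.prod_nonneg fun x _ => by positivity
    simp only [hf]
    positivity
  have hle : ∀ P ∈ T, w P * φ (stc n P.1 P.2 c r b) ≤ f (G P) := by
    intro P hP
    have h4 := msum_point hq0 c r b (hw P hP) (hK P hP)
    calc w P * φ (stc n P.1 P.2 c r b)
        ≤ (2 ^ K / q ^ (7 * per D) * (q ^ (stc n P.1 P.2 c r b).card *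
          ∏ x ∈ (J ×ˢ (Finset.univ : Finset Bool)).attach, ((1 : ℝ) / 2) ^
            kdD n P.2 D c r b x.1.1 x.1.2)) *
          φ (stc n P.1 P.2 c r b) := mul_le_mul_of_nonneg_right h4 (hφ _)
      _ = f (G P) := by
          simp only [hf, hGdef, hKK]
          ring
  have hinj : Set.InjOn G (T : Set (Finset Edge × Finset Edge)) := by
    intro P hP P' hP' hGG
    have e1 : stc n P.1 P.2 c r b = stc n P'.1 P'.2 c r b := congrArg Prod.fst hGG
    have e2 : KK P = KK P' := congrArg Prod.snd hGG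
    have h3 := mp_decode (hT P hP) (hT P' hP') c r b e1 ?_
    · exact Prod.ext h3.1 h3.2
    intro j t
    by_cases hj : j ∈ J
    · have hx : (j, t) ∈ I := by
        rw [hI]
        exact Finset.mem_product.mpr ⟨hj, Finset.mem_univ _⟩
      exact congrFun (congrFun e2 (j, t)) hx
    · have hz : ∀ i, (i, j) ∉ D := fun i hi => hj (hJ (i, j) hi)
      rw [msum_kd_zero n _ D c r b j t hz, msum_kd_zero n _ D c r b j t hz]
  have himg : T.image G ⊆ Om n ×ˢ I.pi (fun _ => Finset.range (n + 1)) := by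
    intro y hy
    rw [Finset.mem_image] at hy
    obtain ⟨P, hP, rfl⟩ := hy
    rw [Finset.mem_product]
    refine ⟨mp_mem (hT P hP) c r b, ?_⟩
    rw [Finset.mem_pi]
    intro x hx
    rw [Finset.mem_range]
    exact Nat.lt_succ_of_le (msum_kd_le n _ D c r b x.1 x.2)
  have hgeo : ∏ x ∈ I, ∑ k ∈ Finset.range (n + 1), ((1 : ℝ) / 2) ^ k ≤ 4 ^ J.card := by
    calc ∏ x ∈ I, ∑ k ∈ Finset.range (n + 1), ((1 : ℝ) / 2) ^ k ≤ ∏ x ∈ I, (2 : ℝ) := by
          refine Finset.prod_le_prod (fun x _ => Finset.sum_nonneg fun k _ => by positivity)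
            fun x _ => sum_geometric_two_le (n + 1)
      _ = 2 ^ I.card := by rw [Finset.prod_const]
      _ = 4 ^ J.card := by
          rw [hI, Finset.card_product, Finset.card_univ, Fintype.card_bool, mul_comm, pow_mul]
          norm_num
  calc ∑ P ∈ T, w P * φ (stc n P.1 P.2 c r b)
      ≤ ∑ P ∈ T, f (G P) := Finset.sum_le_sum hle
    _ = ∑ y ∈ T.image G, f y := (Finset.sum_image hinj).symm
    _ ≤ ∑ y ∈ Om n ×ˢ I.pi (fun _ => Finset.range (n + 1)), f y :=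
        Finset.sum_le_sum_of_subset_of_nonneg himg fun y _ _ => hf0 y
    _ = ∑ η ∈ Om n, ∑ k ∈ I.pi (fun _ => Finset.range (n + 1)), f (η, k) :=
        Finset.sum_product _ _ _
    _ = ∑ η ∈ Om n, 2 ^ K / q ^ (7 * per D) * (q ^ η.card * φ η) *
          ∏ x ∈ I, ∑ k ∈ Finset.range (n + 1), ((1 : ℝ) / 2) ^ k := by
        refine Finset.sum_congr rfl fun η _ => ?_
        rw [Finset.prod_sum, Finset.mul_sum]
        refine Finset.sum_congr rfl fun k _ => ?_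
        simp only [hf]
        ring
    _ ≤ ∑ η ∈ Om n, 2 ^ K / q ^ (7 * per D) * (q ^ η.card * φ η) * 4 ^ J.card := by
        refine Finset.sum_le_sum fun η _ => mul_le_mul_of_nonneg_left hgeo ?_
        have := hφ η
        positivity
    _ = 2 ^ K * 4 ^ J.card / q ^ (7 * per D) * ∑ η ∈ Om n, q ^ η.card * φ η := by
        rw [Finset.mul_sum]
        refine Finset.sum_congr rfl fun η _ => ?_
        ring

theorem mp_sum (n K : ℕ) (q : ℝ) (hq0 : 0 < q) (hq1 : q ≤ 1) (D : Finset (ℤ × ℤ)) (J : Finset ℤ) (hJ : ∀ x ∈ D, x.2 ∈ J)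
    (c r b : ℤ) (T : Finset (Finset Edge × Finset Edge)) (hT : ∀ P ∈ T, MP n P.1 P.2 D)
    (hK : ∀ P ∈ T, ∑ j ∈ J, ∑ s : Bool, kdD n P.2 D c r b j s ≤ K) (φ : Finset Edge → ℝ) (hφ : ∀ η, 0 ≤ φ η) :
    (∑ P ∈ T, q ^ P.1.card * φ (stc n P.1 P.2 c r b) ≤
      2 ^ K * 4 ^ J.card / q ^ (7 * per D) * ∑ η ∈ Om n, q ^ η.card * φ η) ∧
    (∑ P ∈ T, q ^ P.2.card * φ (stc n P.1 P.2 c r b) ≤
      2 ^ K * 4 ^ J.card / q ^ (7 * per D) * ∑ η ∈ Om n, q ^ η.card * φ η) := by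
  constructor
  · refine msum_gen n K q hq0 D J hJ c r b T hT hK φ hφ (fun P => q ^ P.1.card) fun P hP => ?_
    have h1 := (mp_card (hT P hP) c r b).1
    show q ^ P.1.card * q ^ (7 * per D) ≤ _
    rw [← pow_add]
    exact pow_le_pow_of_le_one hq0.le hq1 h1
  · refine msum_gen n K q hq0 D J hJ c r b T hT hK φ hφ (fun P => q ^ P.2.card) fun P hP => ?_
    have h1 := (mp_card (hT P hP) c r b).2
    show q ^ P.2.card * q ^ (7 * per D) ≤ _
    rw [← pow_add]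
    exact pow_le_pow_of_le_one hq0.le hq1 (by omega)

end

end Pool.Agent.H40.WM
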