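import Mathlib
import Pool.Agent.H40.WM.MSt
import Pool.Agent.H40.SQ.PTel
import Pool.Agent.H40.SQ.HFlip

/-!
# MTel: the path connects `Y` and `X` (analogue of `SQ.PTel`; copy and adapt that proof)

`mp_step`: `stc c r b` and `stc c r (b+1)` have the same heights except possibly at `(b,r)` (`pf_ne`); there `pf` increases by `0` or `1`, so the heights agree or
the first is larger by one (then `(b,r) ∈ D`, and `flip_of_heights`).  `mp_path`: telescoping over `c ∈ Ico (-3n) (4n)`, `r`, `b` and Cauchy-Schwarz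
with `7n * n * n` terms, exactly as in `SQ.PTel` (there the last step is missing: keep the difference of consecutive states).
-/

set_option autoImplicit false

namespace Pool.Agent.H40.WM

open Pool.Agent.H40.SQ

noncomputable section

private theorem mtel_tel (G : ℤ → ℝ) (a : ℤ) (k : ℕ) :
    ∑ b ∈ Finset.Ico a (a + k), (G b - G (b + 1)) = G a - G (a + k) := by
  induction k with
  | zero => simp
  | succ k ih =>
    have e : Finset.Ico a (a + ((k + 1 : ℕ) : ℤ)) = insert (a + k) (Finset.Ico a (a + k)) := by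
      ext x
      simp only [Finset.mem_Ico, Finset.mem_insert]
      push_cast
      omega
    rw [e, Finset.sum_insert (by simp), ih]
    have e' : a + ((k + 1 : ℕ) : ℤ) = a + k + 1 := by push_cast; ring
    rw [e']
    ring

private theorem mtel_congr {n : ℕ} {X Y : Finset Edge} {D : Finset (ℤ × ℤ)} (h : MP n X Y D)
    {c r b c' r' b' : ℤ} (hp : ∀ i j, (i, j) ∈ box n → pf c r b i j = pf c' r' b' i j) :
    stc n X Y c r b = stc n X Y c' r' b' := by
  refine F_inj (mp_mem h c r b) (mp_mem h c' r' b') fun i j => ?_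
  rw [mp_F h, mp_F h]
  by_cases hb : (i, j) ∈ box n
  · unfold stf
    rw [hp i j hb]
  · rw [(mp_val h c r b).2 i j hb, (mp_val h c' r' b').2 i j hb]

private theorem mtel_box {n : ℕ} {i j : ℤ} :
    (i, j) ∈ box n ↔ (0 ≤ i ∧ i < n) ∧ 0 ≤ j ∧ j < n := by
  unfold box
  rw [Finset.mem_product, Finset.mem_Ico, Finset.mem_Ico]

theorem mp_step {n : ℕ} {X Y : Finset Edge} {D : Finset (ℤ × ℤ)} (h : MP n X Y D) (c r b : ℤ) (hb : (b, r) ∈ box n) :
    stc n X Y c r b = stc n X Y c r (b + 1) ∨ ((b, r) ∈ D ∧ flip (b, r) (stc n X Y c r (b + 1)) = stc n X Y c r b) := by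
  have hne : ∀ i j, (i, j) ≠ (b, r) → stf X Y c r b i j = stf X Y c r (b + 1) i j := by
    intro i j hij
    unfold stf
    rw [pf_ne c r b i j hij]
  have hp1 : pf c r b b r = Lin (c + 1) b r := by
    unfold pf
    rw [if_pos (by omega)]
  have hp2 : pf c r (b + 1) b r = Lin c b r := by
    unfold pf
    rw [if_neg (by omega)]
  have hl := Lin_succ c b r
  have h1 := mp_pt h c r b b r
  have h2 := mp_pt h c r (b + 1) b r
  rw [hp1] at h1
  rw [hp2] at h2
  have hcase : stf X Y c r b b r = stf X Y c r (b + 1) b r ∨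
      ((b, r) ∈ D ∧ stf X Y c r b b r = stf X Y c r (b + 1) b r + 1) := by
    by_cases hD : (b, r) ∈ D
    · simp only [hD, true_and] at h1 h2
      by_cases h3 : F Y b r < Lin (c + 1) b r
      · by_cases h4 : F Y b r < Lin c b r
        · rw [if_pos h3] at h1
          rw [if_pos h4] at h2
          left
          omega
        · rw [if_pos h3] at h1
          rw [if_neg h4] at h2
          right
          refine ⟨hD, ?_⟩
          omega
      · by_cases h4 : F Y b r < Lin c b r
        · exfalso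
          split_ifs at hl <;> omega
        · rw [if_neg h3] at h1
          rw [if_neg h4] at h2
          left
          omega
    · simp only [hD, false_and, if_false] at h1 h2
      left
      omega
  rcases hcase with hc | ⟨hD, hc⟩
  · left
    refine F_inj (mp_mem h c r b) (mp_mem h c r (b + 1)) fun i j => ?_
    rw [mp_F h, mp_F h]
    by_cases hij : (i, j) = (b, r)
    · rw [Prod.mk.injEq] at hij
      rw [hij.1, hij.2, hc]
    · exact hne i j hij
  · right
    refine ⟨hD, flip_of_heights hb (mp_mem h c r (b + 1)) (mp_mem h c r b) (fun i j hij => ?_) ?_⟩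
    · rw [mp_F h, mp_F h, hne i j hij]
    · rw [mp_F h, mp_F h]
      exact hc

private theorem mtel_total {n : ℕ} (hn : 1 ≤ n) {X Y : Finset Edge} {D : Finset (ℤ × ℤ)}
    (h : MP n X Y D) (g : Finset Edge → ℝ) :
    (∑ c ∈ Finset.Ico (-(3 * n : ℤ)) (4 * n), ∑ x ∈ box n,
      (g (stc n X Y c x.2 x.1) - g (stc n X Y c x.2 (x.1 + 1)))) = g X - g Y := by
  have h1 : ∀ c : ℤ, ∑ x ∈ box n, (g (stc n X Y c x.2 x.1) - g (stc n X Y c x.2 (x.1 + 1))) =
      g (stc n X Y (c + 1) 0 n) - g (stc n X Y c 0 n) := by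
    intro c
    unfold box
    rw [Finset.sum_product_right]
    have h2 : ∀ r ∈ Finset.Ico 0 (n : ℤ), ∑ b ∈ Finset.Ico 0 (n : ℤ),
        (g (stc n X Y c (b, r).2 (b, r).1) - g (stc n X Y c (b, r).2 ((b, r).1 + 1))) =
        -(g (stc n X Y c r n) - g (stc n X Y c (r + 1) n)) := by
      intro r _
      have h3 := mtel_tel (fun b => g (stc n X Y c r b)) 0 n
      simp only [zero_add] at h3
      have h4 : stc n X Y c r 0 = stc n X Y c (r + 1) n := by
        refine mtel_congr h fun i j hij => ?_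
        rw [mtel_box] at hij
        unfold pf
        by_cases hj : j ≤ r
        · rw [if_pos (by omega), if_pos (by omega)]
        · rw [if_neg (by omega), if_neg (by omega)]
      simp only
      rw [h3, h4]
      ring
    rw [Finset.sum_congr rfl h2, Finset.sum_neg_distrib]
    have h5 := mtel_tel (fun r => g (stc n X Y c r n)) 0 n
    simp only [zero_add] at h5
    rw [h5]
    have h6 : stc n X Y c n n = stc n X Y (c + 1) 0 n := by
      refine mtel_congr h fun i j hij => ?_
      rw [mtel_box] at hij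
      unfold pf
      rw [if_pos (by omega), if_neg (by omega)]
    rw [h6]
    ring
  rw [Finset.sum_congr rfl fun c _ => h1 c]
  have h7 : ∑ c ∈ Finset.Ico (-(3 * n : ℤ)) (4 * n),
      (g (stc n X Y (c + 1) 0 n) - g (stc n X Y c 0 n)) =
      -(g (stc n X Y (-(3 * n : ℤ)) 0 n) - g (stc n X Y (4 * n) 0 n)) := by
    have h8 := mtel_tel (fun c => g (stc n X Y c 0 n)) (-(3 * n : ℤ)) (7 * n)
    have e : -(3 * n : ℤ) + ((7 * n : ℕ) : ℤ) = 4 * n := by push_cast; ring
    rw [e] at h8
    rw [← h8, ← Finset.sum_neg_distrib]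
    refine Finset.sum_congr rfl fun c _ => ?_
    ring
  rw [h7]
  -- the endpoints
  have hX := val_F h.hX
  have hY := val_F h.hY
  have hlo : stc n X Y (-(3 * n : ℤ)) 0 n = Y := by
    refine F_inj (mp_mem h _ _ _) h.hY fun i j => ?_
    rw [mp_F h]
    by_cases hb : (i, j) ∈ box n
    · have hb' := mtel_box.mp hb
      have a1 := Lin_bounds (-(3 * n : ℤ)) i j
      have a3 := abs_le.mp (val_bound hY i j)
      have a4 : pf (-(3 * n : ℤ)) 0 n i j = Lin (-(3 * n : ℤ)) i j := by
        unfold pf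
        rw [if_neg (by omega)]
      rw [mp_pt h, a4, if_neg (by omega), add_zero]
    · rw [(mp_val h _ _ _).2 i j hb, hY.2 i j hb]
  have hhi : stc n X Y (4 * n) 0 n = X := by
    refine F_inj (mp_mem h _ _ _) h.hX fun i j => ?_
    rw [mp_F h]
    by_cases hb : (i, j) ∈ box n
    · have hb' := mtel_box.mp hb
      have a1 := Lin_bounds (4 * n : ℤ) i j
      have a3 := abs_le.mp (val_bound hY i j)
      have a5 := abs_le.mp (val_bound hX i j)
      have a4 : pf (4 * n : ℤ) 0 n i j = Lin (4 * n : ℤ) i j := by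
        unfold pf
        rw [if_neg (by omega)]
      have a6 := h.eq i j
      rw [mp_pt h, a4, a6]
      by_cases hD : (i, j) ∈ D
      · rw [if_pos hD] at a6 ⊢
        rw [if_pos ⟨hD, by omega⟩]
      · rw [if_neg hD, if_neg (fun hh => hD hh.1)]
    · rw [(mp_val h _ _ _).2 i j hb, hX.2 i j hb]
  rw [hlo, hhi]
  ring

theorem mp_path {n : ℕ} (hn : 1 ≤ n) {X Y : Finset Edge} {D : Finset (ℤ × ℤ)} (h : MP n X Y D) (g : Finset Edge → ℝ) :
    (g X - g Y) ^ 2 ≤ 7 * (n : ℝ) ^ 3 * ∑ c ∈ Finset.Ico (-(3 * n : ℤ)) (4 * n), ∑ x ∈ box n,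
      (g (stc n X Y c x.2 x.1) - g (stc n X Y c x.2 (x.1 + 1))) ^ 2 := by
  rw [← mtel_total hn h g, ← Finset.sum_product', ← Finset.sum_product']
  refine (sq_sum_le_card_mul_sum_sq).trans ?_
  have hcard : ((Finset.Ico (-(3 * n : ℤ)) (4 * n) ×ˢ box n).card : ℝ) = 7 * (n : ℝ) ^ 3 := by
    rw [Finset.card_product]
    unfold box
    rw [Finset.card_product, Int.card_Ico, Int.card_Ico]
    have e1 : (4 * (n : ℤ) - -(3 * n)).toNat = 7 * n := by omega
    have e2 : ((n : ℤ) - 0).toNat = n := by omega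
    rw [e1, e2]
    push_cast
    ring
  rw [hcard]

end

end Pool.Agent.H40.WM
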