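import Mathlib
import Pool.Agent.H40.WM.MSum
import Pool.Agent.H40.WM.MTel

/-!
# MCmp: comparison with the Dirichlet form of single flips inside `EE`

`EE` contains all configurations between two of its members (hypothesis `hc`), so all states of the paths are in `EE` (`mp_between`).
`(g X - g Y)^2 ≤ 7 n^3 ∑_c ∑_x (g (stc c x.2 x.1) - g (stc c x.2 (x.1+1)))^2` (`mp_path`) and each term is at most `φ_x(stc c x.2 (x.1+1))` with
`φ_x(η) = (g (flip x η) - g η)^2` if `η ∈ EE` and `flip x η ∈ EE`, and `0` otherwise (`mp_step`).  Sum over `P ∈ T` with `mp_sum` (for `c, r = x.2, b = x.1 + 1`), then over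
`x ∈ box n` and the `7 n` values of `c`.
-/

set_option autoImplicit false

namespace Pool.Agent.H40.WM

open Pool.Agent.H40.SQ

noncomputable section

/-- The squared increment of the flip at `x` inside `EE`. -/
private def mcPhi (EE : Finset (Finset Edge)) (g : Finset Edge → ℝ) (x : ℤ × ℤ) (η : Finset Edge) : ℝ :=
  if η ∈ EE then (if flip x η ∈ EE then (g (flip x η) - g η) ^ 2 else 0) else 0

private theorem mcPhi_nonneg (EE : Finset (Finset Edge)) (g : Finset Edge → ℝ) (x : ℤ × ℤ) (η : Finset Edge) :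
    0 ≤ mcPhi EE g x η := by
  unfold mcPhi
  split_ifs
  · exact sq_nonneg _
  · exact le_rfl
  · exact le_rfl

private theorem mc_dir (n : ℕ) (q : ℝ) (EE : Finset (Finset Edge)) (hE : EE ⊆ Om n) (g : Finset Edge → ℝ) :
    ∑ x ∈ box n, ∑ η ∈ Om n, q ^ η.card * mcPhi EE g x η = Dir q n EE g := by
  unfold Dir
  refine Finset.sum_congr rfl fun x _ => ?_
  rw [Finset.sum_filter]
  have h1 : ∑ η ∈ EE, q ^ η.card * mcPhi EE g x η = ∑ η ∈ Om n, q ^ η.card * mcPhi EE g x η := by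
    refine Finset.sum_subset hE fun η _ hη => ?_
    unfold mcPhi
    rw [if_neg hη, mul_zero]
  rw [← h1]
  refine Finset.sum_congr rfl fun η hη => ?_
  unfold mcPhi
  rw [if_pos hη]
  by_cases h : flip x η ∈ EE
  · rw [if_pos h, if_pos h]
  · rw [if_neg h, if_neg h, mul_zero]

private theorem mc_term {n : ℕ} {EE : Finset (Finset Edge)}
    (hc : ∀ X ∈ EE, ∀ Y ∈ EE, ∀ η ∈ Om n, (∀ i j : ℤ, F Y i j ≤ F η i j ∧ F η i j ≤ F X i j) → η ∈ EE)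
    {D : Finset (ℤ × ℤ)} {X Y : Finset Edge} (h : MP n X Y D) (hX : X ∈ EE) (hY : Y ∈ EE) (g : Finset Edge → ℝ)
    (c : ℤ) (x : ℤ × ℤ) (hx : x ∈ box n) :
    (g (stc n X Y c x.2 x.1) - g (stc n X Y c x.2 (x.1 + 1))) ^ 2 ≤ mcPhi EE g x (stc n X Y c x.2 (x.1 + 1)) := by
  have hin : ∀ r b : ℤ, stc n X Y c r b ∈ EE := fun r b =>
    hc X hX Y hY _ (mp_mem h c r b) (fun i j => mp_between h c r b i j)
  rcases mp_step h c x.2 x.1 hx with h1 | ⟨_, h1⟩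
  · rw [← h1, sub_self]
    have : (0 : ℝ) ^ 2 = 0 := by norm_num
    rw [this]
    exact mcPhi_nonneg _ _ _ _
  · have h2 : flip x (stc n X Y c x.2 (x.1 + 1)) = stc n X Y c x.2 x.1 := h1
    unfold mcPhi
    rw [if_pos (hin _ _), h2, if_pos (hin _ _)]

private theorem mc_path {n : ℕ} (hn : 1 ≤ n) {EE : Finset (Finset Edge)}
    (hc : ∀ X ∈ EE, ∀ Y ∈ EE, ∀ η ∈ Om n, (∀ i j : ℤ, F Y i j ≤ F η i j ∧ F η i j ≤ F X i j) → η ∈ EE)
    {D : Finset (ℤ × ℤ)} {X Y : Finset Edge} (h : MP n X Y D) (hX : X ∈ EE) (hY : Y ∈ EE) (g : Finset Edge → ℝ) :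
    (g X - g Y) ^ 2 ≤ 7 * (n : ℝ) ^ 3 * ∑ c ∈ Finset.Ico (-(3 * n : ℤ)) (4 * n), ∑ x ∈ box n,
      mcPhi EE g x (stc n X Y c x.2 (x.1 + 1)) := by
  refine (mp_path hn h g).trans (mul_le_mul_of_nonneg_left ?_ (by positivity))
  exact Finset.sum_le_sum fun c _ => Finset.sum_le_sum fun x hx => mc_term hc h hX hY g c x hx

private theorem mc_sum (n : ℕ) (hn : 1 ≤ n) (q : ℝ) (hq0 : 0 < q) (EE : Finset (Finset Edge)) (hE : EE ⊆ Om n)
    (hc : ∀ X ∈ EE, ∀ Y ∈ EE, ∀ η ∈ Om n, (∀ i j : ℤ, F Y i j ≤ F η i j ∧ F η i j ≤ F X i j) → η ∈ EE)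
    (D : Finset (ℤ × ℤ)) (T : Finset (Finset Edge × Finset Edge)) (hT : ∀ P ∈ T, MP n P.1 P.2 D ∧ P.1 ∈ EE ∧ P.2 ∈ EE)
    (g : Finset Edge → ℝ) (w : Finset Edge × Finset Edge → ℝ) (hw : ∀ P, 0 ≤ w P) (C : ℝ)
    (hC : ∀ (c r b : ℤ) (φ : Finset Edge → ℝ), (∀ η, 0 ≤ φ η) →
      ∑ P ∈ T, w P * φ (stc n P.1 P.2 c r b) ≤ C * ∑ η ∈ Om n, q ^ η.card * φ η) :
    ∑ P ∈ T, w P * (g P.1 - g P.2) ^ 2 ≤ 49 * (n : ℝ) ^ 4 * C * Dir q n EE g := by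
  set I := Finset.Ico (-(3 * n : ℤ)) (4 * n) with hI
  have h1 : ∑ P ∈ T, w P * (g P.1 - g P.2) ^ 2 ≤ ∑ P ∈ T, ∑ c ∈ I, ∑ x ∈ box n,
      7 * (n : ℝ) ^ 3 * (w P * mcPhi EE g x (stc n P.1 P.2 c x.2 (x.1 + 1))) := by
    refine Finset.sum_le_sum fun P hP => ?_
    obtain ⟨h, hX, hY⟩ := hT P hP
    refine (mul_le_mul_of_nonneg_left (mc_path hn hc h hX hY g) (hw P)).trans (le_of_eq ?_)
    simp only [Finset.mul_sum]
    refine Finset.sum_congr rfl fun c _ => Finset.sum_congr rfl fun x _ => ?_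
    ring
  have h2 : ∑ P ∈ T, ∑ c ∈ I, ∑ x ∈ box n,
      7 * (n : ℝ) ^ 3 * (w P * mcPhi EE g x (stc n P.1 P.2 c x.2 (x.1 + 1))) =
      ∑ c ∈ I, ∑ x ∈ box n, 7 * (n : ℝ) ^ 3 *
        ∑ P ∈ T, w P * mcPhi EE g x (stc n P.1 P.2 c x.2 (x.1 + 1)) := by
    rw [Finset.sum_comm]
    refine Finset.sum_congr rfl fun c _ => ?_
    rw [Finset.sum_comm]
    refine Finset.sum_congr rfl fun x _ => ?_
    rw [Finset.mul_sum]
  have h3 : ∑ c ∈ I, ∑ x ∈ box n, 7 * (n : ℝ) ^ 3 *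
        ∑ P ∈ T, w P * mcPhi EE g x (stc n P.1 P.2 c x.2 (x.1 + 1)) ≤
      ∑ c ∈ I, ∑ x ∈ box n, 7 * (n : ℝ) ^ 3 * (C * ∑ η ∈ Om n, q ^ η.card * mcPhi EE g x η) := by
    refine Finset.sum_le_sum fun c _ => Finset.sum_le_sum fun x _ => ?_
    exact mul_le_mul_of_nonneg_left (hC c x.2 (x.1 + 1) (mcPhi EE g x) (mcPhi_nonneg EE g x)) (by positivity)
  have hcard : (I.card : ℝ) = 7 * n := by
    rw [hI, Int.card_Ico]
    have e1 : (4 * (n : ℤ) - -(3 * n)).toNat = 7 * n := by omega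
    rw [e1]
    push_cast
    ring
  refine (h1.trans (h2.le.trans h3)).trans (le_of_eq ?_)
  rw [Finset.sum_const, nsmul_eq_mul, hcard, ← Finset.mul_sum, ← Finset.mul_sum, mc_dir n q EE hE g]
  ring

theorem mp_cmp (n K : ℕ) (hn : 1 ≤ n) (q : ℝ) (hq0 : 0 < q) (hq1 : q ≤ 1) (EE : Finset (Finset Edge)) (hE : EE ⊆ Om n)
    (hc : ∀ X ∈ EE, ∀ Y ∈ EE, ∀ η ∈ Om n, (∀ i j : ℤ, F Y i j ≤ F η i j ∧ F η i j ≤ F X i j) → η ∈ EE)
    (D : Finset (ℤ × ℤ)) (J : Finset ℤ) (hJ : ∀ x ∈ D, x.2 ∈ J)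
    (T : Finset (Finset Edge × Finset Edge)) (hT : ∀ P ∈ T, MP n P.1 P.2 D ∧ P.1 ∈ EE ∧ P.2 ∈ EE)
    (hK : ∀ P ∈ T, ∀ c r b : ℤ, ∑ j ∈ J, ∑ s : Bool, kdD n P.2 D c r b j s ≤ K) (g : Finset Edge → ℝ) :
    (∑ P ∈ T, q ^ P.1.card * (g P.1 - g P.2) ^ 2 ≤
      49 * (n : ℝ) ^ 4 * (2 ^ K * 4 ^ J.card / q ^ (7 * per D)) * Dir q n EE g) ∧
    (∑ P ∈ T, q ^ P.2.card * (g P.1 - g P.2) ^ 2 ≤
      49 * (n : ℝ) ^ 4 * (2 ^ K * 4 ^ J.card / q ^ (7 * per D)) * Dir q n EE g) := by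
  constructor
  · refine mc_sum n hn q hq0 EE hE hc D T hT g (fun P => q ^ P.1.card) (fun P => by positivity) _ ?_
    intro c r b φ hφ
    exact (mp_sum n K q hq0 hq1 D J hJ c r b T (fun P hP => (hT P hP).1) (fun P hP => hK P hP c r b) φ hφ).1
  · refine mc_sum n hn q hq0 EE hE hc D T hT g (fun P => q ^ P.2.card) (fun P => by positivity) _ ?_
    intro c r b φ hφ
    exact (mp_sum n K q hq0 hq1 D J hJ c r b T (fun P hP => (hT P hP).1) (fun P hP => hK P hP c r b) φ hφ).2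

end

end Pool.Agent.H40.WM
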