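import Mathlib
import Pool.Agent.H40.WM.MCmp

/-!
# MTwo: pairs of configurations of an up-set whose heights differ by at most one

`s = 1`: let `Z = cfg n (max (F X) (F X'))`, `(X,X') = P`.  `max` is admissible (`val0_max`), `F Z = F X + 1_{D2} = F X' + 1_{D1}` (`D1, D2` disjoint), `Z ∈ EE` since `Z` is above `X`.
`MP n Z X D2` and `MP n Z X' D1`.  `s = -1`: `Z = cfg n (min (F X) (F X'))`, `MP n X Z D1`, `MP n X' Z D2`, `Z ∈ EE` because `-F Z ≥ -F X`.
`(g X - g X')^2 ≤ 2 (g X - g Z)^2 + 2 (g Z - g X')^2`.  Apply `mp_cmp` to the two families of pairs (`P ↦ (Z,X)` resp. `(Z,X')` are injective because `D1, D2` are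
fixed: `X` determines `Z` and `X'`).  Weights: in the first family the weight is `q^|X|` (one of the two forms of `mp_cmp`); in the second we have `q^|X|` where
`q^|Z|` is needed: `|Z| ≤ |X| + 2 per` (`mp_per`), so `q^|X| ≤ q^|Z| / q^(2 per)`.  An up-set satisfies the convexity hypothesis `hc` of `mp_cmp` (for `s = 1` use `Y`, for `s = -1` use `X`).
The bound on the decoding data: the lower configuration of each pair has, at the faces of the respective `D`, the height of `X` or of `X'`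
(`s = 1`: `kdD n X D2`, `kdD n X' D1`; `s = -1`: on `D1` `F Z = F X'`, on `D2` `F Z = F X`), and a face counted has height `pf - 1 ∈ {Lin (c-2), Lin (c-1)}`
(`Lin_sub_two`; `pf` is `Lin c` or `Lin (c+1)`); the two sides are disjoint: total `≤ 2 M`; so `K = 2 M`, `2^K = 4^M`.
-/

set_option autoImplicit false

namespace Pool.Agent.H40.WM

open Pool.Agent.H40.SQ

noncomputable section

private theorem dir_nonneg (q : ℝ) (hq0 : 0 < q) (n : ℕ) (EE : Finset (Finset Edge))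
    (g : Finset Edge → ℝ) : 0 ≤ Dir q n EE g := by
  unfold Dir
  exact Finset.sum_nonneg fun x _ => Finset.sum_nonneg fun η _ =>
    mul_nonneg (pow_pos hq0 _).le (sq_nonneg _)

/-- The decoding data of a family whose lower configuration agrees with `W` on `D`. -/
private theorem kd_bound (n M : ℕ) (Y W : Finset Edge) (D : Finset (ℤ × ℤ)) (J : Finset ℤ)
    (hYW : ∀ i j : ℤ, (i, j) ∈ D → F Y i j = F W i j)
    (hG : ∀ c : ℤ, ∑ j ∈ J, ((Finset.Ico 0 (n : ℤ)).filter (fun i => F W i j = Lin c i j)).card ≤ M)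
    (c r b : ℤ) : ∑ j ∈ J, ∑ s : Bool, kdD n Y D c r b j s ≤ 2 * M := by
  classical
  have h1 : ∀ j ∈ J, ∑ s : Bool, kdD n Y D c r b j s ≤
      ((Finset.Ico 0 (n : ℤ)).filter (fun i => F W i j = Lin (c - 2) i j)).card +
      ((Finset.Ico 0 (n : ℤ)).filter (fun i => F W i j = Lin (c - 1) i j)).card := by
    intro j _
    rw [Fintype.sum_bool]
    unfold kdD
    rw [← Finset.card_union_of_disjoint]
    · refine (Finset.card_le_card ?_).trans (Finset.card_union_le _ _)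
      intro i hi
      rw [Finset.mem_union, Finset.mem_filter, Finset.mem_filter] at hi
      rw [Finset.mem_union, Finset.mem_filter, Finset.mem_filter]
      have h2 : i ∈ Finset.Ico 0 (n : ℤ) ∧ (i, j) ∈ D ∧ F Y i j = pf c r b i j - 1 := by
        rcases hi with hi | hi
        · exact ⟨hi.1, hi.2.2⟩
        · exact ⟨hi.1, hi.2.2⟩
      obtain ⟨h3, h4, h5⟩ := h2
      rw [hYW i j h4] at h5
      unfold pf at h5
      split_ifs at h5
      · right
        refine ⟨h3, ?_⟩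
        have := Lin_sub_two (c + 1) i j
        have e : c + 1 - 2 = c - 1 := by ring
        rw [e] at this
        omega
      · left
        refine ⟨h3, ?_⟩
        have := Lin_sub_two c i j
        omega
    · rw [Finset.disjoint_left]
      intro i hi hi'
      rw [Finset.mem_filter] at hi hi'
      rcases hi.2.1 with h | h <;> rcases hi'.2.1 with h' | h'
      · simp at h'
      · omega
      · simp at h
      · simp at h
  refine (Finset.sum_le_sum h1).trans ?_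
  rw [Finset.sum_add_distrib]
  have h2 := hG (c - 2)
  have h3 := hG (c - 1)
  omega

/-- One family of pairs. -/
private theorem half (n K : ℕ) (hn : 1 ≤ n) (q : ℝ) (hq0 : 0 < q) (hq1 : q ≤ 1)
    (EE : Finset (Finset Edge)) (hE : EE ⊆ Om n)
    (hc : ∀ X ∈ EE, ∀ Y ∈ EE, ∀ η ∈ Om n, (∀ i j : ℤ, F Y i j ≤ F η i j ∧ F η i j ≤ F X i j) → η ∈ EE)
    (D : Finset (ℤ × ℤ)) (J : Finset ℤ) (hJ : ∀ x ∈ D, x.2 ∈ J)
    (T : Finset (Finset Edge × Finset Edge)) (a b : Finset Edge × Finset Edge → Finset Edge)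
    (hinj : ∀ P ∈ T, ∀ P' ∈ T, a P = a P' → b P = b P' → P = P')
    (hT : ∀ P ∈ T, MP n (a P) (b P) D ∧ a P ∈ EE ∧ b P ∈ EE)
    (hK : ∀ P ∈ T, ∀ c r b' : ℤ, ∑ j ∈ J, ∑ s : Bool, kdD n (b P) D c r b' j s ≤ K)
    (g : Finset Edge → ℝ) :
    (∑ P ∈ T, q ^ (a P).card * (g (a P) - g (b P)) ^ 2 ≤
      49 * (n : ℝ) ^ 4 * (2 ^ K * 4 ^ J.card / q ^ (7 * per D)) * Dir q n EE g) ∧
    (∑ P ∈ T, q ^ (b P).card * (g (a P) - g (b P)) ^ 2 ≤
      49 * (n : ℝ) ^ 4 * (2 ^ K * 4 ^ J.card / q ^ (7 * per D)) * Dir q n EE g) := by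
  classical
  have hi : Set.InjOn (fun P => (a P, b P)) (T : Set (Finset Edge × Finset Edge)) := by
    intro P hP P' hP' he
    simp only [Prod.mk.injEq] at he
    exact hinj P hP P' hP' he.1 he.2
  have h := mp_cmp n K hn q hq0 hq1 EE hE hc D J hJ (T.image (fun P => (a P, b P))) (by
    intro Q hQ
    obtain ⟨P, hP, rfl⟩ := Finset.mem_image.1 hQ
    exact hT P hP) (by
    intro Q hQ
    obtain ⟨P, hP, rfl⟩ := Finset.mem_image.1 hQ
    exact hK P hP) g
  rw [Finset.sum_image hi, Finset.sum_image hi] at h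
  exact h

/-- The final estimate. -/
private theorem fin_est (q : ℝ) (hq0 : 0 < q) (hq1 : q ≤ 1) (n M J a b : ℕ) (Di S S1 S2 : ℝ)
    (hD : 0 ≤ Di) (hS : S ≤ 2 * S1 + 2 * (S2 / q ^ (2 * b)))
    (h1 : S1 ≤ 49 * (n : ℝ) ^ 4 * (2 ^ (2 * M) * 4 ^ J / q ^ (7 * b)) * Di)
    (h2 : S2 ≤ 49 * (n : ℝ) ^ 4 * (2 ^ (2 * M) * 4 ^ J / q ^ (7 * a)) * Di) :
    S ≤ 200 * (n : ℝ) ^ 4 * (4 ^ M * 4 ^ J / q ^ (9 * (a + b))) * Di := by
  have e4 : (2 : ℝ) ^ (2 * M) = 4 ^ M := by
    rw [pow_mul]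
    norm_num
  rw [e4] at h1 h2
  have hq : ∀ m m' : ℕ, m ≤ m' → 1 / q ^ m ≤ 1 / q ^ m' := by
    intro m m' h
    exact one_div_le_one_div_of_le (pow_pos hq0 _) (pow_le_pow_of_le_one hq0.le hq1 h)
  obtain ⟨A, hA⟩ : ∃ A : ℝ, A = (n : ℝ) ^ 4 * (4 ^ M * 4 ^ J) * Di := ⟨_, rfl⟩
  have hA0 : 0 ≤ A := by
    rw [hA]
    positivity
  have h1' : S1 ≤ 49 * A * (1 / q ^ (9 * (a + b))) := by
    refine h1.trans ?_
    have e : 49 * (n : ℝ) ^ 4 * (4 ^ M * 4 ^ J / q ^ (7 * b)) * Di = 49 * A * (1 / q ^ (7 * b)) := by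
      rw [hA]
      ring
    rw [e]
    exact mul_le_mul_of_nonneg_left (hq _ _ (by omega)) (by positivity)
  have h2' : S2 / q ^ (2 * b) ≤ 49 * A * (1 / q ^ (9 * (a + b))) := by
    have hp : (0 : ℝ) < q ^ (2 * b) := pow_pos hq0 _
    refine (div_le_div_of_nonneg_right h2 hp.le).trans ?_
    have e : 49 * (n : ℝ) ^ 4 * (4 ^ M * 4 ^ J / q ^ (7 * a)) * Di / q ^ (2 * b) =
        49 * A * (1 / q ^ (7 * a + 2 * b)) := by
      rw [hA, pow_add, one_div, mul_inv]
      ring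
    rw [e]
    exact mul_le_mul_of_nonneg_left (hq _ _ (by omega)) (by positivity)
  have e : 200 * (n : ℝ) ^ 4 * (4 ^ M * 4 ^ J / q ^ (9 * (a + b))) * Di =
      200 * A * (1 / q ^ (9 * (a + b))) := by
    rw [hA]
    ring
  rw [e]
  have hp : (0 : ℝ) ≤ A * (1 / q ^ (9 * (a + b))) := by positivity
  nlinarith

theorem mp_two (n M : ℕ) (hn : 1 ≤ n) (q : ℝ) (hq0 : 0 < q) (hq1 : q ≤ 1) (s : ℤ) (hs : s = 1 ∨ s = -1)
    (EE : Finset (Finset Edge)) (hE : UpS n s EE)
    (D1 D2 : Finset (ℤ × ℤ)) (hd : Disjoint D1 D2) (J : Finset ℤ) (hJ : ∀ x ∈ D1 ∪ D2, x.2 ∈ J)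
    (T : Finset (Finset Edge × Finset Edge))
    (hT : ∀ P ∈ T, P.1 ∈ EE ∧ P.2 ∈ EE ∧ ∀ i j : ℤ,
      F P.1 i j + (if (i, j) ∈ D2 then 1 else 0) = F P.2 i j + if (i, j) ∈ D1 then 1 else 0)
    (hG : ∀ P ∈ T, ∀ c : ℤ,
      ∑ j ∈ J, ((Finset.Ico 0 (n : ℤ)).filter (fun i => F P.1 i j = Lin c i j)).card ≤ M ∧
      ∑ j ∈ J, ((Finset.Ico 0 (n : ℤ)).filter (fun i => F P.2 i j = Lin c i j)).card ≤ M) (g : Finset Edge → ℝ) :
    ∑ P ∈ T, q ^ P.1.card * (g P.1 - g P.2) ^ 2 ≤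
      200 * (n : ℝ) ^ 4 * (4 ^ M * 4 ^ J.card / q ^ (9 * (per D1 + per D2))) * Dir q n EE g := by
  classical
  obtain ⟨hEO, hEup⟩ := hE
  have hdis : ∀ i j : ℤ, (i, j) ∈ D1 → (i, j) ∉ D2 := fun i j h => Finset.disjoint_left.1 hd h
  have hJ1 : ∀ x ∈ D1, x.2 ∈ J := fun x hx => hJ x (Finset.mem_union_left _ hx)
  have hJ2 : ∀ x ∈ D2, x.2 ∈ J := fun x hx => hJ x (Finset.mem_union_right _ hx)
  have hsq : ∀ x y z : ℝ, (x - z) ^ 2 ≤ 2 * (x - y) ^ 2 + 2 * (y - z) ^ 2 := by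
    intro x y z
    nlinarith [sq_nonneg ((x - y) - (y - z))]
  have hDn := dir_nonneg q hq0 n EE g
  have hwt : ∀ (u v w : ℕ), v ≤ u + w → q ^ u ≤ q ^ v / q ^ w := by
    intro u v w h
    rw [le_div_iff₀ (pow_pos hq0 _), ← pow_add]
    exact pow_le_pow_of_le_one hq0.le hq1 h
  rcases hs with rfl | rfl
  · -- raise
    have hc : ∀ X ∈ EE, ∀ Y ∈ EE, ∀ η ∈ Om n,
        (∀ i j : ℤ, F Y i j ≤ F η i j ∧ F η i j ≤ F X i j) → η ∈ EE := by
      intro X _ Y hY η hη h
      refine hEup Y hY η hη ?_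
      intro i j
      rw [one_mul, one_mul]
      exact (h i j).1
    have hZ : ∀ P ∈ T, ∃ Z, Z ∈ EE ∧ MP n Z P.1 D2 ∧ MP n Z P.2 D1 := by
      intro P hP
      obtain ⟨h1, h2, h3⟩ := hT P hP
      have v1 := val_F (hEO h1)
      have v2 := val_F (hEO h2)
      have hv : Val n (fun i j => max (F P.1 i j) (F P.2 i j)) := by
        refine ⟨val0_max v1.1 v2.1, fun i j hij => ?_⟩
        show max (F P.1 i j) (F P.2 i j) = 0
        rw [v1.2 i j hij, v2.2 i j hij]
        exact max_self _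
      have hF : ∀ i j, F (cfg n (fun i j => max (F P.1 i j) (F P.2 i j))) i j =
          max (F P.1 i j) (F P.2 i j) := F_cfg hv
      refine ⟨cfg n (fun i j => max (F P.1 i j) (F P.2 i j)), ?_, ⟨cfg_mem hv, hEO h1, ?_⟩,
        ⟨cfg_mem hv, hEO h2, ?_⟩⟩
      · refine hEup P.1 h1 _ (cfg_mem hv) ?_
        intro i j
        rw [one_mul, one_mul, hF]
        exact le_max_left _ _
      · intro i j
        rw [hF]
        have h4 := h3 i j
        by_cases a1 : (i, j) ∈ D1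
        · rw [if_pos a1, if_neg (hdis i j a1)] at h4
          rw [if_neg (hdis i j a1)]
          omega
        · rw [if_neg a1] at h4
          split_ifs at h4 ⊢ <;> omega
      · intro i j
        rw [hF]
        have h4 := h3 i j
        by_cases a1 : (i, j) ∈ D1
        · rw [if_pos a1, if_neg (hdis i j a1)] at h4
          rw [if_pos a1]
          omega
        · rw [if_neg a1] at h4 ⊢
          split_ifs at h4 <;> omega
    choose! Z hZE hZ1 hZ2 using hZ
    have i1 : ∀ P ∈ T, ∀ P' ∈ T, Z P = Z P' → P.1 = P'.1 → P = P' := by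
      intro P hP P' hP' e1 e2
      refine Prod.ext e2 ?_
      refine F_inj (hZ2 P hP).hY (hZ2 P' hP').hY ?_
      intro i j
      have a1 := (hZ2 P hP).eq i j
      have a2 := (hZ2 P' hP').eq i j
      rw [e1] at a1
      omega
    have i2 : ∀ P ∈ T, ∀ P' ∈ T, Z P = Z P' → P.2 = P'.2 → P = P' := by
      intro P hP P' hP' e1 e2
      refine Prod.ext ?_ e2
      refine F_inj (hZ1 P hP).hY (hZ1 P' hP').hY ?_
      intro i j
      have a1 := (hZ1 P hP).eq i j
      have a2 := (hZ1 P' hP').eq i j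
      rw [e1] at a1
      omega
    have f1 := (half n (2 * M) hn q hq0 hq1 EE hEO hc D2 J hJ2 T Z Prod.fst i1
      (fun P hP => ⟨hZ1 P hP, hZE P hP, (hT P hP).1⟩)
      (fun P hP c r b => kd_bound n M P.1 P.1 D2 J (fun _ _ _ => rfl)
        (fun c => (hG P hP c).1) c r b) g).2
    have f2 := (half n (2 * M) hn q hq0 hq1 EE hEO hc D1 J hJ1 T Z Prod.snd i2
      (fun P hP => ⟨hZ2 P hP, hZE P hP, (hT P hP).2.1⟩)
      (fun P hP c r b => kd_bound n M P.2 P.2 D1 J (fun _ _ _ => rfl)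
        (fun c => (hG P hP c).2) c r b) g).1
    refine fin_est q hq0 hq1 n M J.card (per D1) (per D2) (Dir q n EE g) _ _ _ hDn ?_ f1 f2
    rw [Finset.sum_div, Finset.mul_sum, Finset.mul_sum, ← Finset.sum_add_distrib]
    refine Finset.sum_le_sum fun P hP => ?_
    have a1 := hsq (g P.1) (g (Z P)) (g P.2)
    have a2 := hwt P.1.card (Z P).card (2 * per D2) (mp_per (hZ1 P hP)).1
    have a3 : (0 : ℝ) < q ^ P.1.card := pow_pos hq0 _
    have a4 : (0 : ℝ) ≤ (g (Z P) - g P.2) ^ 2 := sq_nonneg _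
    have a5 : (g P.1 - g (Z P)) ^ 2 = (g (Z P) - g P.1) ^ 2 := by ring
    rw [a5] at a1
    calc q ^ P.1.card * (g P.1 - g P.2) ^ 2
        ≤ q ^ P.1.card * (2 * (g (Z P) - g P.1) ^ 2 + 2 * (g (Z P) - g P.2) ^ 2) :=
          mul_le_mul_of_nonneg_left a1 a3.le
      _ = 2 * (q ^ P.1.card * (g (Z P) - g P.1) ^ 2) +
          2 * (q ^ P.1.card * (g (Z P) - g P.2) ^ 2) := by ring
      _ ≤ 2 * (q ^ P.1.card * (g (Z P) - g P.1) ^ 2) +
          2 * (q ^ (Z P).card / q ^ (2 * per D2) * (g (Z P) - g P.2) ^ 2) := by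
          have := mul_le_mul_of_nonneg_right a2 a4
          linarith
      _ = 2 * (q ^ P.1.card * (g (Z P) - g P.1) ^ 2) +
          2 * (q ^ (Z P).card * (g (Z P) - g P.2) ^ 2 / q ^ (2 * per D2)) := by ring
  · -- lower
    have hc : ∀ X ∈ EE, ∀ Y ∈ EE, ∀ η ∈ Om n,
        (∀ i j : ℤ, F Y i j ≤ F η i j ∧ F η i j ≤ F X i j) → η ∈ EE := by
      intro X hX Y _ η hη h
      refine hEup X hX η hη ?_
      intro i j
      have := (h i j).2
      omega
    have hZ : ∀ P ∈ T, ∃ Z, Z ∈ EE ∧ MP n P.1 Z D1 ∧ MP n P.2 Z D2 := by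
      intro P hP
      obtain ⟨h1, h2, h3⟩ := hT P hP
      have v1 := val_F (hEO h1)
      have v2 := val_F (hEO h2)
      have hv : Val n (fun i j => min (F P.1 i j) (F P.2 i j)) := by
        refine ⟨val0_min v1.1 v2.1, fun i j hij => ?_⟩
        show min (F P.1 i j) (F P.2 i j) = 0
        rw [v1.2 i j hij, v2.2 i j hij]
        exact min_self _
      have hF : ∀ i j, F (cfg n (fun i j => min (F P.1 i j) (F P.2 i j))) i j =
          min (F P.1 i j) (F P.2 i j) := F_cfg hv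
      refine ⟨cfg n (fun i j => min (F P.1 i j) (F P.2 i j)), ?_, ⟨hEO h1, cfg_mem hv, ?_⟩,
        ⟨hEO h2, cfg_mem hv, ?_⟩⟩
      · refine hEup P.1 h1 _ (cfg_mem hv) ?_
        intro i j
        rw [hF]
        have := min_le_left (F P.1 i j) (F P.2 i j)
        omega
      · intro i j
        rw [hF]
        have h4 := h3 i j
        by_cases a1 : (i, j) ∈ D1
        · rw [if_pos a1, if_neg (hdis i j a1)] at h4
          rw [if_pos a1]
          omega
        · rw [if_neg a1] at h4 ⊢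
          split_ifs at h4 <;> omega
      · intro i j
        rw [hF]
        have h4 := h3 i j
        by_cases a1 : (i, j) ∈ D1
        · rw [if_pos a1, if_neg (hdis i j a1)] at h4
          rw [if_neg (hdis i j a1)]
          omega
        · rw [if_neg a1] at h4
          split_ifs at h4 ⊢ <;> omega
    choose! Z hZE hZ1 hZ2 using hZ
    have i1 : ∀ P ∈ T, ∀ P' ∈ T, P.1 = P'.1 → Z P = Z P' → P = P' := by
      intro P hP P' hP' e2 e1
      refine Prod.ext e2 ?_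
      refine F_inj (hZ2 P hP).hX (hZ2 P' hP').hX ?_
      intro i j
      have a1 := (hZ2 P hP).eq i j
      have a2 := (hZ2 P' hP').eq i j
      rw [e1] at a1
      omega
    have i2 : ∀ P ∈ T, ∀ P' ∈ T, P.2 = P'.2 → Z P = Z P' → P = P' := by
      intro P hP P' hP' e2 e1
      refine Prod.ext ?_ e2
      refine F_inj (hZ1 P hP).hX (hZ1 P' hP').hX ?_
      intro i j
      have a1 := (hZ1 P hP).eq i j
      have a2 := (hZ1 P' hP').eq i j
      rw [e1] at a1
      omega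
    have g1 : ∀ P ∈ T, ∀ i j : ℤ, (i, j) ∈ D1 → F (Z P) i j = F P.2 i j := by
      intro P hP i j hij
      have a1 := (hZ2 P hP).eq i j
      rw [if_neg (hdis i j hij)] at a1
      omega
    have g2 : ∀ P ∈ T, ∀ i j : ℤ, (i, j) ∈ D2 → F (Z P) i j = F P.1 i j := by
      intro P hP i j hij
      have a1 := (hZ1 P hP).eq i j
      rw [if_neg (fun h => hdis i j h hij)] at a1
      omega
    have f1 := (half n (2 * M) hn q hq0 hq1 EE hEO hc D1 J hJ1 T Prod.fst Z i1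
      (fun P hP => ⟨hZ1 P hP, (hT P hP).1, hZE P hP⟩)
      (fun P hP c r b => kd_bound n M (Z P) P.2 D1 J (g1 P hP)
        (fun c => (hG P hP c).2) c r b) g).1
    have f2 := (half n (2 * M) hn q hq0 hq1 EE hEO hc D2 J hJ2 T Prod.snd Z i2
      (fun P hP => ⟨hZ2 P hP, (hT P hP).2.1, hZE P hP⟩)
      (fun P hP c r b => kd_bound n M (Z P) P.1 D2 J (g2 P hP)
        (fun c => (hG P hP c).1) c r b) g).2
    have hfin := fin_est q hq0 hq1 n M J.card (per D2) (per D1) (Dir q n EE g)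
      (∑ P ∈ T, q ^ P.1.card * (g P.1 - g P.2) ^ 2) _ _ hDn ?_ f1 f2
    · rw [add_comm (per D1) (per D2)]
      exact hfin
    rw [Finset.sum_div, Finset.mul_sum, Finset.mul_sum, ← Finset.sum_add_distrib]
    refine Finset.sum_le_sum fun P hP => ?_
    have a1 := hsq (g P.1) (g (Z P)) (g P.2)
    have a2 := hwt P.1.card (Z P).card (2 * per D1) (mp_per (hZ1 P hP)).2
    have a3 : (0 : ℝ) < q ^ P.1.card := pow_pos hq0 _
    have a4 : (0 : ℝ) ≤ (g P.2 - g (Z P)) ^ 2 := sq_nonneg _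
    have a5 : (g (Z P) - g P.2) ^ 2 = (g P.2 - g (Z P)) ^ 2 := by ring
    rw [a5] at a1
    calc q ^ P.1.card * (g P.1 - g P.2) ^ 2
        ≤ q ^ P.1.card * (2 * (g P.1 - g (Z P)) ^ 2 + 2 * (g P.2 - g (Z P)) ^ 2) :=
          mul_le_mul_of_nonneg_left a1 a3.le
      _ = 2 * (q ^ P.1.card * (g P.1 - g (Z P)) ^ 2) +
          2 * (q ^ P.1.card * (g P.2 - g (Z P)) ^ 2) := by ring
      _ ≤ 2 * (q ^ P.1.card * (g P.1 - g (Z P)) ^ 2) +
          2 * (q ^ (Z P).card / q ^ (2 * per D1) * (g P.2 - g (Z P)) ^ 2) := by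
          have := mul_le_mul_of_nonneg_right a2 a4
          linarith
      _ = 2 * (q ^ P.1.card * (g P.1 - g (Z P)) ^ 2) +
          2 * (q ^ (Z P).card * (g P.2 - g (Z P)) ^ 2 / q ^ (2 * per D1)) := by ring

end

end Pool.Agent.H40.WM
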