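import Mathlib
import Pool.Agent.H40.WM.VDefs
import Pool.Agent.H40.WM.MDefs
import Pool.Agent.H40.SQ.LSpr
import Pool.Agent.H40.SQ.LNb
import Pool.Agent.H40.SQ.PLin

/-!
# VWin: rows, agreements with the sweeping functions, boundary edges

* `win`: if `R` has no vertical edge take `r0 = 0`; otherwise `r0` = the least `j` of a vertical edge of `R`; `conn_spread` with `φ e = e.2.2` (`tch_coord`).
* `cntg`: `Lin (c + 2d) = Lin c + d` for `d = -2,...,2` (`Lin_sub_two`), so `{F g = Lin c}` is contained in the union of the five sets `{F S = Lin (c + 2d)}`; `Good` for each: `5 * 8 (ℓ+1) ≤ 64 (ℓ+1)`.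
* `per_le`: membership in `D = {x ∈ box n : δ x = v}` is equivalent to `δ x = v` (`v ≠ 0`, `δ = 0` outside the box).  If `x` is counted by `per` then `δ x.1 x.2 ≠ δ (x.1 - 1) x.2`, so `(true, x.1, x.2) ∈ R`; `x ↦ (true, x.1, x.2)` is injective.
* `row_zero`: if the row `j` contains no vertical edge of `R` then `δ` is constant on it (`hs`) and `0` outside the box (two-sided: for `i < 0` it is `0`, then induction upwards, `hsign_row`).
-/

set_option autoImplicit false

namespace Pool.Agent.H40.WM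

open Pool.Agent.H40.SQ

noncomputable section

theorem win {R : Finset Edge} (hR : Conn R) {ℓ : ℕ} (hc : R.card ≤ ℓ) :
    ∃ r0 : ℤ, ∀ i j : ℤ, (true, i, j) ∈ R → r0 ≤ j ∧ j < r0 + ℓ + 1 := by
  classical
  by_cases hne : (R.filter (fun e => e.1 = true)).Nonempty
  · obtain ⟨e0, he0, hmin⟩ := Finset.exists_min_image _ (fun e : Edge => e.2.2) hne
    rw [Finset.mem_filter] at he0
    refine ⟨e0.2.2, fun i j hij => ?_⟩
    have h1 := hmin (true, i, j) (Finset.mem_filter.2 ⟨hij, rfl⟩)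
    have h2 := conn_spread R hR (fun e : Edge => e.2.2) (fun a b h => (tch_coord h).2) hij he0.1
    have h3 : (R.card : ℤ) ≤ ℓ := by exact_mod_cast hc
    simp only at h1 h2
    rw [abs_lt] at h2
    constructor
    · exact h1
    · omega
  · refine ⟨0, fun i j hij => ?_⟩
    exact absurd ⟨(true, i, j), Finset.mem_filter.2 ⟨hij, rfl⟩⟩ hne

private theorem vwin_Lin (c d i j : ℤ) : Lin (c + 2 * d) i j = Lin c i j + d := by
  unfold Lin
  omega

theorem cntg {n ℓ : ℕ} {A g : Finset Edge} (hA : Good n ℓ (8 * (ℓ + 1)) A) (h : ∀ i j : ℤ, |F g i j - F A i j| ≤ 2) (c r0 : ℤ) :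
    ∑ j ∈ Finset.Ico r0 (r0 + ℓ + 1) ∩ Finset.Ico 0 (n : ℤ),
      ((Finset.Ico 0 (n : ℤ)).filter (fun i => F g i j = Lin c i j)).card ≤ 64 * (ℓ + 1) := by
  classical
  have h1 : ∀ j ∈ Finset.Ico r0 (r0 + ℓ + 1) ∩ Finset.Ico 0 (n : ℤ),
      ((Finset.Ico 0 (n : ℤ)).filter (fun i => F g i j = Lin c i j)).card ≤
        ∑ d ∈ Finset.Icc (-2 : ℤ) 2,
          ((Finset.Ico 0 (n : ℤ)).filter (fun i => F A i j = Lin (c + 2 * d) i j)).card := by
    intro j _
    have h2 : (Finset.Ico 0 (n : ℤ)).filter (fun i => F g i j = Lin c i j) ⊆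
        (Finset.Icc (-2 : ℤ) 2).biUnion (fun d =>
          (Finset.Ico 0 (n : ℤ)).filter (fun i => F A i j = Lin (c + 2 * d) i j)) := by
      intro i hi
      rw [Finset.mem_filter] at hi
      rw [Finset.mem_biUnion]
      have h3 := h i j
      rw [abs_le] at h3
      refine ⟨F A i j - F g i j, ?_, ?_⟩
      · rw [Finset.mem_Icc]
        omega
      · rw [Finset.mem_filter, vwin_Lin]
        refine ⟨hi.1, ?_⟩
        rw [← hi.2]
        ring
    exact (Finset.card_le_card h2).trans Finset.card_biUnion_le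
  refine (Finset.sum_le_sum h1).trans ?_
  rw [Finset.sum_comm]
  have h2 : ∀ d ∈ Finset.Icc (-2 : ℤ) 2, ∑ j ∈ Finset.Ico r0 (r0 + ℓ + 1) ∩ Finset.Ico 0 (n : ℤ),
      ((Finset.Ico 0 (n : ℤ)).filter (fun i => F A i j = Lin (c + 2 * d) i j)).card ≤
        8 * (ℓ + 1) := fun d _ => hA (c + 2 * d) r0
  refine (Finset.sum_le_sum h2).trans ?_
  rw [Finset.sum_const, smul_eq_mul]
  have h3 : (Finset.Icc (-2 : ℤ) 2).card = 5 := by decide
  rw [h3]
  omega

theorem per_le {n : ℕ} {R : Finset Edge} (δ : ℤ → ℤ → ℤ) (h0 : ∀ i j : ℤ, (i, j) ∉ box n → δ i j = 0)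
    (hs : ∀ i j : ℤ, (true, i, j) ∉ R → δ i j = δ (i - 1) j) (v : ℤ) (hv : v ≠ 0) :
    per ((box n).filter (fun x => δ x.1 x.2 = v)) ≤ R.card := by
  classical
  have hmem : ∀ x : ℤ × ℤ, x ∈ (box n).filter (fun x => δ x.1 x.2 = v) ↔ δ x.1 x.2 = v := by
    intro x
    rw [Finset.mem_filter]
    constructor
    · exact fun h => h.2
    · intro h
      refine ⟨?_, h⟩
      by_contra hcon
      exact hv (h.symm.trans (h0 x.1 x.2 hcon))
  unfold per
  apply Finset.card_le_card_of_injOn (fun x : ℤ × ℤ => ((true, x.1, x.2) : Edge))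
  · intro x hx
    rw [Finset.mem_coe, Finset.mem_filter] at hx
    rw [Finset.mem_coe]
    by_contra hcon
    apply hx.2
    rw [hmem, hmem]
    show δ x.1 x.2 = v ↔ δ (x.1 - 1) x.2 = v
    rw [hs x.1 x.2 hcon]
  · intro a _ b _ hab
    simp only [Prod.mk.injEq, true_and] at hab
    exact Prod.ext hab.1 hab.2

theorem row_zero {n : ℕ} {R : Finset Edge} (δ : ℤ → ℤ → ℤ) (h0 : ∀ i j : ℤ, (i, j) ∉ box n → δ i j = 0)
    (hs : ∀ i j : ℤ, (true, i, j) ∉ R → δ i j = δ (i - 1) j) (j : ℤ) (hj : ∀ i : ℤ, (true, i, j) ∉ R) (i : ℤ) : δ i j = 0 := by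
  have hneg : ∀ i : ℤ, i < 0 → δ i j = 0 := by
    intro i hi
    apply h0
    unfold box
    rw [Finset.mem_product, Finset.mem_Ico]
    intro h
    have := h.1.1
    simp only at this
    omega
  rcases lt_or_ge i 0 with hi | hi
  · exact hneg i hi
  · have h1 : ∀ k : ℤ, -1 ≤ k → δ k j = 0 := by
      intro k hk
      induction k, hk using Int.leInduction with
      | base => exact hneg _ (by norm_num)
      | succ k _ ih =>
        rw [hs (k + 1) j (hj (k + 1))]
        have : k + 1 - 1 = k := by ring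
        rw [this]
        exact ih
    exact h1 i (by omega)

end

end Pool.Agent.H40.WM
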