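import Mathlib
import Pool.Agent.H40.WM.VDefs
import Pool.Agent.H40.WM.VWin
import Pool.Agent.H40.WM.MTwo
import Pool.Agent.H40.SQ.HStep

/-!
# VLc: comparison for a family of local modifications

If `T` is empty the left side is `0` (`Dir ≥ 0`).  Otherwise take a member of `T`: `δ = 0` outside the box (`F_supp`), `δ i j = δ (i-1) j` if `(true,i,j) ∉ R` (`F_step` for both configurations, `EE ⊆ Om n`, the same edges outside `R`).
`D1 = {x ∈ box n : δ x = 1}`, `D2 = {x ∈ box n : δ x = -1}`: disjoint, `F P.1 + 1_{D2} = F P.2 + 1_{D1}` (`hδ`).  `r0` from `win`, `J = Ico r0 (r0+ℓ+1) ∩ Ico 0 n`: a face of `D1 ∪ D2` is in the box and its row contains a vertical edge of `R` (`row_zero`), so its row is in `J`.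
`mp_two` with `M = 64 (ℓ+1)` (`cntg` twice).  `|J| ≤ ℓ + 1`: `4^M 4^|J| ≤ 4^(65 (ℓ+1))`; `per D1 + per D2 ≤ 2 ℓ` (`per_le`): `q^(9 (per D1 + per D2)) ≥ q^(18 ℓ)`.
-/

set_option autoImplicit false

namespace Pool.Agent.H40.WM

open Pool.Agent.H40.SQ

noncomputable section

private theorem dir_nonneg' (q : ℝ) (hq0 : 0 < q) (n : ℕ) (EE : Finset (Finset Edge))
    (g : Finset Edge → ℝ) : 0 ≤ Dir q n EE g := by
  unfold Dir
  exact Finset.sum_nonneg fun x _ => Finset.sum_nonneg fun η _ =>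
    mul_nonneg (pow_pos hq0 _).le (sq_nonneg _)

theorem loc_cmp {n : ℕ} (hn : 1 ≤ n) (q : ℝ) (hq0 : 0 < q) (hq1 : q ≤ 1) {s : ℤ} (hs : s = 1 ∨ s = -1) {EE : Finset (Finset Edge)}
    (hE : UpS n s EE) {ℓ : ℕ} {R : Finset Edge} (hR : Conn R) (hRc : R.card ≤ ℓ) (δ : ℤ → ℤ → ℤ)
    (hδ : ∀ i j : ℤ, δ i j = 0 ∨ δ i j = 1 ∨ δ i j = -1) (T : Finset (Finset Edge × Finset Edge))
    (hT : ∀ P ∈ T, P.1 ∈ EE ∧ P.2 ∈ EE ∧ (∀ e, e ∉ R → (e ∈ P.1 ↔ e ∈ P.2)) ∧ (∀ i j : ℤ, F P.1 i j - F P.2 i j = δ i j) ∧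
      ∃ A : Finset Edge, Good n ℓ (8 * (ℓ + 1)) A ∧ ∀ i j : ℤ, |F P.1 i j - F A i j| ≤ 2 ∧ |F P.2 i j - F A i j| ≤ 2)
    (u : Finset Edge → ℝ) :
    ∑ P ∈ T, q ^ P.1.card * (u P.1 - u P.2) ^ 2 ≤
      200 * (n : ℝ) ^ 4 * (4 ^ (65 * (ℓ + 1)) / q ^ (18 * ℓ)) * Dir q n EE u := by
  classical
  have hDn := dir_nonneg' q hq0 n EE u
  rcases T.eq_empty_or_nonempty with rfl | ⟨P0, hP0⟩
  · rw [Finset.sum_empty]
    positivity
  have hEO := hE.1
  obtain ⟨a1, a2, a3, a4, -⟩ := hT P0 hP0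
  have h0 : ∀ i j : ℤ, (i, j) ∉ box n → δ i j = 0 := by
    intro i j hij
    rw [← a4 i j, F_supp (hEO a1) hij, F_supp (hEO a2) hij, sub_zero]
  have hs' : ∀ i j : ℤ, (true, i, j) ∉ R → δ i j = δ (i - 1) j := by
    intro i j hij
    have b1 := F_step (mem_Om.mp (hEO a1)).1 i j
    have b2 := F_step (mem_Om.mp (hEO a2)).1 i j
    have b3 : ind P0.1 (true, i, j) = ind P0.2 (true, i, j) := by
      unfold ind
      simp only [a3 _ hij]
    rw [b3] at b1
    rw [← a4 i j, ← a4 (i - 1) j]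
    linarith
  obtain ⟨r0, hr0⟩ := win hR hRc
  obtain ⟨D1, hD1⟩ : ∃ D1, D1 = (box n).filter (fun x => δ x.1 x.2 = 1) := ⟨_, rfl⟩
  obtain ⟨D2, hD2⟩ : ∃ D2, D2 = (box n).filter (fun x => δ x.1 x.2 = -1) := ⟨_, rfl⟩
  obtain ⟨J, hJ⟩ : ∃ J, J = Finset.Ico r0 (r0 + ℓ + 1) ∩ Finset.Ico 0 (n : ℤ) := ⟨_, rfl⟩
  have m1 : ∀ i j : ℤ, (i, j) ∈ D1 ↔ δ i j = 1 := by
    intro i j
    rw [hD1, Finset.mem_filter]
    constructor
    · exact fun h => h.2
    · intro h
      refine ⟨?_, h⟩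
      by_contra hc
      have := h0 i j hc
      omega
  have m2 : ∀ i j : ℤ, (i, j) ∈ D2 ↔ δ i j = -1 := by
    intro i j
    rw [hD2, Finset.mem_filter]
    constructor
    · exact fun h => h.2
    · intro h
      refine ⟨?_, h⟩
      by_contra hc
      have := h0 i j hc
      omega
  have hd : Disjoint D1 D2 := by
    rw [Finset.disjoint_left]
    rintro ⟨i, j⟩ h1 h2
    rw [m1] at h1
    rw [m2] at h2
    omega
  have hJ' : ∀ x ∈ D1 ∪ D2, x.2 ∈ J := by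
    rintro ⟨i, j⟩ hx
    have hne : δ i j ≠ 0 := by
      rcases Finset.mem_union.mp hx with h | h
      · rw [m1] at h
        omega
      · rw [m2] at h
        omega
    have hb : (i, j) ∈ box n := by
      by_contra hc
      exact hne (h0 i j hc)
    unfold box at hb
    rw [Finset.mem_product] at hb
    rw [hJ, Finset.mem_inter, Finset.mem_Ico]
    refine ⟨?_, hb.2⟩
    have : ∃ i', (true, i', j) ∈ R := by
      by_contra hc
      push Not at hc
      exact hne (row_zero δ h0 hs' j hc i)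
    obtain ⟨i', hi'⟩ := this
    exact hr0 i' j hi'
  have hJc : J.card ≤ ℓ + 1 := by
    rw [hJ]
    refine (Finset.card_le_card Finset.inter_subset_left).trans ?_
    rw [Int.card_Ico]
    omega
  have h := mp_two n (64 * (ℓ + 1)) hn q hq0 hq1 s hs EE hE D1 D2 hd J hJ' T (by
      intro P hP
      obtain ⟨b1, b2, -, b4, -⟩ := hT P hP
      refine ⟨b1, b2, fun i j => ?_⟩
      have c1 := b4 i j
      have e1 := m1 i j
      have e2 := m2 i j
      rcases hδ i j with h | h | h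
      · rw [if_neg (by rw [e2]; omega), if_neg (by rw [e1]; omega)]
        omega
      · rw [if_neg (by rw [e2]; omega), if_pos (by rw [e1]; omega)]
        omega
      · rw [if_pos (by rw [e2]; omega), if_neg (by rw [e1]; omega)]
        omega)
    (by
      intro P hP c
      obtain ⟨-, -, -, -, A, hA, hA2⟩ := hT P hP
      rw [hJ]
      exact ⟨cntg hA (fun i j => (hA2 i j).1) c r0, cntg hA (fun i j => (hA2 i j).2) c r0⟩) u
  refine h.trans ?_
  refine mul_le_mul_of_nonneg_right ?_ hDn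
  refine mul_le_mul_of_nonneg_left ?_ (by positivity)
  have p1 : per D1 ≤ ℓ := by
    rw [hD1]
    exact (per_le δ h0 hs' 1 (by norm_num)).trans hRc
  have p2 : per D2 ≤ ℓ := by
    rw [hD2]
    exact (per_le δ h0 hs' (-1) (by norm_num)).trans hRc
  have e1 : (4 : ℝ) ^ (64 * (ℓ + 1)) * 4 ^ J.card ≤ 4 ^ (65 * (ℓ + 1)) := by
    rw [← pow_add]
    exact pow_le_pow_right₀ (by norm_num) (by omega)
  have e2 : q ^ (18 * ℓ) ≤ q ^ (9 * (per D1 + per D2)) :=
    pow_le_pow_of_le_one hq0.le hq1 (by omega)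
  exact div_le_div₀ (by positivity) e1 (pow_pos hq0 _) e2

end

end Pool.Agent.H40.WM
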