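import Mathlib
import Pool.Agent.H40.WM.VDefs
import Pool.Agent.H40.WM.QBas
import Pool.Agent.H40.SQ.CDec
import Pool.Agent.H40.SQ.CUni

/-!
# VPol: small polymers inside `D`

* `polD_st`: `PolD n ℓ D ⊆ Pol n ℓ`; a member `κ ∈ X` satisfies `κ ⊆ U X`; `U X ⊆ D` iff all `κ ∈ X` are `⊆ D`.
* `polD_U`: `U_mem` (`U X ∈ Om n`, so `VC (U X)`).
* `U_erase`: `U_disj`.
* `polD_sum`: `U` is injective on `St (PolD n ℓ D) inc` (`U_inj`), its image is the set on the right (`polD_st`): `Finset.sum_image`.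
* `nice_mem`: unfold `Nice`.
-/

set_option autoImplicit false

namespace Pool.Agent.H40.WM

open Pool.Agent.H40.SQ

noncomputable section

theorem polD_st {n ℓ : ℕ} {D : Finset Edge} {X : Finset (Finset Edge)} :
    X ∈ St (PolD n ℓ D) inc ↔ X ∈ St (Pol n ℓ) inc ∧ U X ⊆ D := by
  classical
  rw [mem_St, mem_St]
  constructor
  · rintro ⟨h1, h2⟩
    refine ⟨⟨fun κ hκ => (Finset.mem_filter.mp (h1 hκ)).1, h2⟩, ?_⟩
    intro e he
    unfold U at he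
    rw [Finset.mem_biUnion] at he
    obtain ⟨κ, hκ, he⟩ := he
    exact (Finset.mem_filter.mp (h1 hκ)).2 he
  · rintro ⟨⟨h1, h2⟩, h3⟩
    refine ⟨fun κ hκ => ?_, h2⟩
    unfold PolD
    rw [Finset.mem_filter]
    refine ⟨h1 hκ, fun e he => h3 ?_⟩
    unfold U
    rw [Finset.mem_biUnion]
    exact ⟨κ, hκ, he⟩

theorem polD_U {n ℓ : ℕ} {D : Finset Edge} {X : Finset (Finset Edge)} (hX : X ∈ St (PolD n ℓ D) inc) : U X ∈ VCs D := by
  obtain ⟨h1, h2⟩ := polD_st.mp hX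
  exact mem_VCs.mpr ⟨h2, (mem_Om.mp (U_mem h1)).2⟩

theorem U_erase {n ℓ : ℕ} {X : Finset (Finset Edge)} (hX : X ∈ St (Pol n ℓ) inc) {κ : Finset Edge} (hκ : κ ∈ X) :
    U (X.erase κ) = U X \ κ ∧ κ ⊆ U X := by
  obtain ⟨h1, h2⟩ := U_disj hX hκ
  rw [h2]
  refine ⟨?_, Finset.subset_union_right⟩
  rw [Finset.union_sdiff_right]
  exact (Finset.sdiff_eq_self_of_disjoint h1).symm

open Classical in
theorem polD_sum (n ℓ : ℕ) (D : Finset Edge) (f : Finset Edge → ℝ) :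
    ∑ X ∈ St (PolD n ℓ D) inc, f (U X) = ∑ S ∈ (VCs D).filter (fun S => ∃ X ∈ St (Pol n ℓ) inc, U X = S), f S := by
  have h : (VCs D).filter (fun S => ∃ X ∈ St (Pol n ℓ) inc, U X = S) =
      (St (PolD n ℓ D) inc).image U := by
    ext S
    rw [Finset.mem_filter, Finset.mem_image]
    constructor
    · rintro ⟨h1, X, hX, rfl⟩
      exact ⟨X, polD_st.mpr ⟨hX, (mem_VCs.mp h1).1⟩, rfl⟩
    · rintro ⟨X, hX, rfl⟩
      exact ⟨polD_U hX, X, (polD_st.mp hX).1, rfl⟩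
  rw [h, Finset.sum_image]
  intro X hX Y hY hXY
  exact U_inj (polD_st.mp hX).1 (polD_st.mp hY).1 hXY

open Classical in
theorem nice_mem {n ℓ : ℕ} {D S : Finset Edge} :
    S ∈ Nice n ℓ D ↔ S ∈ VCs D ∧ (∃ X ∈ St (Pol n ℓ) inc, U X = S) ∧ Good n ℓ (8 * (ℓ + 1)) S := by
  unfold Nice
  rw [Finset.mem_filter]

end

end Pool.Agent.H40.WM
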