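import Mathlib
import Pool.Agent.H40.WM.VDefs
import Pool.Agent.H40.WM.VPol
import Pool.Agent.H40.WM.VPr
import Pool.Agent.H40.SQ.TBad

/-!
# VBd: the weight of the sets of polymers in `D` which are not good

Copy the proof of `SQ.bad_bound` (`Pool/Agent/H40/SQ/TBad.lean`, with its private lemmas) with `PolD n ℓ D` instead of `Pol n ℓ` and `prob_D` instead of `prob_heights`; everything else (`window_range`, `exists_choice`, `pi_sum`) concerns one `X ∈ St (Pol n ℓ) inc` (`polD_st`) or no `X` at all.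
-/

set_option autoImplicit false

namespace Pool.Agent.H40.WM

open Pool.Agent.H40.SQ

noncomputable section

private theorem union_bound {α β : Type*} (S : Finset α) (T : Finset β) (P : α → Prop)
    (A : β → α → Prop) [DecidablePred P] [∀ t, DecidablePred (A t)] (w : α → ℝ)
    (hw : ∀ X, 0 ≤ w X)
    (h : ∀ X ∈ S, P X → ∃ t ∈ T, A t X) :
    ∑ X ∈ S.filter P, w X ≤ ∑ t ∈ T, ∑ X ∈ S.filter (A t), w X := by
  simp only [Finset.sum_filter]
  rw [Finset.sum_comm]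
  refine Finset.sum_le_sum fun X hX => ?_
  split_ifs with hP
  · obtain ⟨t, ht, hA⟩ := h X hX hP
    have h1 := Finset.single_le_sum (f := fun t => if A t X then w X else 0)
      (fun t _ => by split_ifs <;> [exact hw X; exact le_rfl]) ht
    simp only [if_pos hA] at h1
    exact h1
  · refine Finset.sum_nonneg fun t _ => ?_
    split_ifs
    · exact hw X
    · exact le_rfl

/-- the window of rows -/
private def Jw (n ℓ : ℕ) (r0 : ℤ) : Finset ℤ :=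
  Finset.Ico r0 (r0 + ℓ + 1) ∩ Finset.Ico 0 (n : ℤ)

private theorem Jw_card (n ℓ : ℕ) (r0 : ℤ) : (Jw n ℓ r0).card ≤ ℓ + 1 := by
  unfold Jw
  refine (Finset.card_le_card Finset.inter_subset_left).trans ?_
  rw [Int.card_Ico]
  omega

private theorem window_range {n ℓ : ℕ} {X : Finset (Finset Edge)} (hX : X ∈ St (Pol n ℓ) inc)
    {c r0 : ℤ} (h : 8 * (ℓ + 1) < ∑ j ∈ Jw n ℓ r0,
      ((Finset.Ico 0 (n : ℤ)).filter (fun i => F (U X) i j = Lin c i j)).card) :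
    c ∈ Finset.Icc (-(2 * n : ℤ) - 1) (3 * n) ∧ r0 ∈ Finset.Icc (-(ℓ : ℤ)) (n - 1) := by
  obtain ⟨j, hj, hk⟩ : ∃ j ∈ Jw n ℓ r0,
      ((Finset.Ico 0 (n : ℤ)).filter (fun i => F (U X) i j = Lin c i j)).card ≠ 0 := by
    by_contra hcon
    push Not at hcon
    rw [Finset.sum_eq_zero hcon] at h
    omega
  rw [Finset.card_ne_zero] at hk
  obtain ⟨i, hi⟩ := hk
  rw [Finset.mem_filter, Finset.mem_Ico] at hi
  obtain ⟨⟨hi0, hi1⟩, hi2⟩ := hi
  have h1 := val_bound (val_F (U_mem hX)) i j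
  rw [hi2, abs_le] at h1
  have h2 := Lin_bounds c i j
  unfold Jw at hj
  rw [Finset.mem_inter, Finset.mem_Ico, Finset.mem_Ico] at hj
  rw [Finset.mem_Icc, Finset.mem_Icc]
  constructor <;> constructor <;> omega

/-- the anchor function given by a dependent choice -/
private def yf (J : Finset ℤ) (p : ∀ j ∈ J, ℤ) (j : ℤ) : ℤ := if h : j ∈ J then p j h else 0

private theorem exists_choice {n ℓ : ℕ} {X : Finset (Finset Edge)} {c r0 : ℤ}
    (h : 8 * (ℓ + 1) < ∑ j ∈ Jw n ℓ r0,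
      ((Finset.Ico 0 (n : ℤ)).filter (fun i => F (U X) i j = Lin c i j)).card) :
    ∃ p ∈ (Jw n ℓ r0).pi (fun _ => insert c (Finset.Ico 0 (n : ℤ))),
      ℓ + 1 ≤ ∑ j ∈ Jw n ℓ r0, (Lin c (yf (Jw n ℓ r0) p j) j).natAbs ∧
      ∀ j ∈ Jw n ℓ r0, (((Lin c (yf (Jw n ℓ r0) p j) j).natAbs : ℕ) : ℤ) ≤
        |F (U X) (yf (Jw n ℓ r0) p j) j| := by
  choose g hg1 hg2 hg3 using fun j => anchor n (U X) c j
  have hy : ∀ j ∈ Jw n ℓ r0, yf (Jw n ℓ r0) (fun j _ => g j) j = g j := by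
    intro j hj
    unfold yf
    rw [dif_pos hj]
  refine ⟨fun j _ => g j, ?_, ?_, ?_⟩
  · rw [Finset.mem_pi]
    intro j _
    rw [Finset.mem_insert]
    exact (hg1 j).symm
  · rw [Finset.sum_congr rfl fun j hj => by rw [hy j hj]]
    have h1 : (∑ j ∈ Jw n ℓ r0,
        ((Finset.Ico 0 (n : ℤ)).filter (fun i => F (U X) i j = Lin c i j)).card) ≤
        ∑ j ∈ Jw n ℓ r0, (4 * (Lin c (g j) j).natAbs + 3) := by
      refine Finset.sum_le_sum fun j _ => ?_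
      have h2 := hg3 j
      rw [Int.abs_eq_natAbs] at h2
      exact_mod_cast h2
    rw [Finset.sum_add_distrib, ← Finset.mul_sum, Finset.sum_const, smul_eq_mul] at h1
    have h2 := Jw_card n ℓ r0
    omega
  · intro j hj
    rw [hy j hj, ← Int.abs_eq_natAbs]
    exact hg2 j

private theorem pi_sum (n ℓ : ℕ) (c r0 : ℤ) (x : ℝ) (hx0 : 0 ≤ x) (hx1 : x ≤ 1 / 2) :
    ∑ p ∈ (Jw n ℓ r0).pi (fun _ => insert c (Finset.Ico 0 (n : ℤ))),
      x ^ (∑ j ∈ Jw n ℓ r0, (Lin c (yf (Jw n ℓ r0) p j) j).natAbs) ≤ 6 ^ (ℓ + 1) := by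
  have h1 := Finset.prod_sum (Jw n ℓ r0) (fun _ => insert c (Finset.Ico 0 (n : ℤ)))
    (fun j i => x ^ (Lin c i j).natAbs)
  have h2 : ∑ p ∈ (Jw n ℓ r0).pi (fun _ => insert c (Finset.Ico 0 (n : ℤ))),
      x ^ (∑ j ∈ Jw n ℓ r0, (Lin c (yf (Jw n ℓ r0) p j) j).natAbs) =
      ∏ j ∈ Jw n ℓ r0, ∑ i ∈ insert c (Finset.Ico 0 (n : ℤ)), x ^ (Lin c i j).natAbs := by
    rw [h1]
    refine Finset.sum_congr rfl fun p _ => ?_
    rw [← Finset.sum_attach, ← Finset.prod_pow_eq_pow_sum]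
    refine Finset.prod_congr rfl fun j _ => ?_
    unfold yf
    rw [dif_pos j.2]
  rw [h2]
  refine (Finset.prod_le_prod (fun j _ => ?_) fun j _ => Lin_sum c j x hx0 hx1 _).trans ?_
  · exact Finset.sum_nonneg fun i _ => pow_nonneg hx0 _
  · rw [Finset.prod_const]
    exact pow_le_pow_right₀ (by norm_num) (Jw_card n ℓ r0)

open Classical in
private theorem window_bound (n ℓ : ℕ) (q : ℝ) (hq0 : 0 < q) (hq1 : q ≤ 1 / 1000)
    (D : Finset Edge) (c r0 : ℤ) :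
    ∑ X ∈ (St (PolD n ℓ D) inc).filter (fun X => 8 * (ℓ + 1) < ∑ j ∈ Jw n ℓ r0,
      ((Finset.Ico 0 (n : ℤ)).filter (fun i => F (U X) i j = Lin c i j)).card),
        q ^ (U X).card ≤
      (26 * q) ^ (ℓ + 1) * ∑ X ∈ St (PolD n ℓ D) inc, q ^ (U X).card := by
  obtain ⟨Z, hZ⟩ : ∃ Z, Z = ∑ X ∈ St (PolD n ℓ D) inc, q ^ (U X).card := ⟨_, rfl⟩
  have hZ0 : 0 ≤ Z := by
    rw [hZ]
    exact Finset.sum_nonneg fun X _ => by positivity
  have h1 := union_bound (St (PolD n ℓ D) inc)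
    (((Jw n ℓ r0).pi (fun _ => insert c (Finset.Ico 0 (n : ℤ)))).filter
      (fun p => ℓ + 1 ≤ ∑ j ∈ Jw n ℓ r0, (Lin c (yf (Jw n ℓ r0) p j) j).natAbs))
    (fun X => 8 * (ℓ + 1) < ∑ j ∈ Jw n ℓ r0,
      ((Finset.Ico 0 (n : ℤ)).filter (fun i => F (U X) i j = Lin c i j)).card)
    (fun p X => ∀ j ∈ Jw n ℓ r0, (((Lin c (yf (Jw n ℓ r0) p j) j).natAbs : ℕ) : ℤ) ≤
        |F (U X) (yf (Jw n ℓ r0) p j) j|)
    (fun X => q ^ (U X).card) (fun X => by positivity) (by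
      intro X _ hX
      obtain ⟨p, hp1, hp2, hp3⟩ := exists_choice hX
      exact ⟨p, Finset.mem_filter.2 ⟨hp1, hp2⟩, hp3⟩)
  refine h1.trans ?_
  rw [← hZ]
  have hx1 : (36 * q) ^ 2 ≤ 1 / 2 := by nlinarith
  have h36 : 36 * q ≤ 1 := by linarith
  calc _ ≤ ∑ p ∈ ((Jw n ℓ r0).pi (fun _ => insert c (Finset.Ico 0 (n : ℤ)))).filter
        (fun p => ℓ + 1 ≤ ∑ j ∈ Jw n ℓ r0, (Lin c (yf (Jw n ℓ r0) p j) j).natAbs),
        ((36 * q) ^ 2) ^ (∑ j ∈ Jw n ℓ r0, (Lin c (yf (Jw n ℓ r0) p j) j).natAbs) *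
          (((36 * q) ^ 2) ^ (ℓ + 1) * Real.exp 1 ^ (ℓ + 1) * Z) := by
        refine Finset.sum_le_sum fun p hp => ?_
        rw [Finset.mem_filter] at hp
        have h2 := prob_D n ℓ q hq0 h36 D (Jw n ℓ r0) (yf (Jw n ℓ r0) p)
          (fun j => (Lin c (yf (Jw n ℓ r0) p j) j).natAbs)
        rw [← hZ] at h2
        refine h2.trans ?_
        have h3 : (36 * q) ^ (4 * ∑ j ∈ Jw n ℓ r0, (Lin c (yf (Jw n ℓ r0) p j) j).natAbs) ≤
            ((36 * q) ^ 2) ^ (∑ j ∈ Jw n ℓ r0, (Lin c (yf (Jw n ℓ r0) p j) j).natAbs) *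
              ((36 * q) ^ 2) ^ (ℓ + 1) := by
          rw [← pow_add, ← pow_mul]
          refine pow_le_pow_of_le_one (by positivity) h36 ?_
          omega
        have h4 : Real.exp ((Jw n ℓ r0).card) ≤ Real.exp 1 ^ (ℓ + 1) := by
          rw [← Real.exp_nat_mul, mul_one]
          refine Real.exp_le_exp.2 ?_
          exact_mod_cast Jw_card n ℓ r0
        calc _ ≤ (((36 * q) ^ 2) ^ (∑ j ∈ Jw n ℓ r0,
              (Lin c (yf (Jw n ℓ r0) p j) j).natAbs) * ((36 * q) ^ 2) ^ (ℓ + 1)) *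
              (Real.exp 1 ^ (ℓ + 1)) * Z := by
              refine mul_le_mul_of_nonneg_right ?_ hZ0
              exact mul_le_mul h3 h4 (by positivity) (by positivity)
          _ = _ := by ring
    _ ≤ ∑ p ∈ (Jw n ℓ r0).pi (fun _ => insert c (Finset.Ico 0 (n : ℤ))),
        ((36 * q) ^ 2) ^ (∑ j ∈ Jw n ℓ r0, (Lin c (yf (Jw n ℓ r0) p j) j).natAbs) *
          (((36 * q) ^ 2) ^ (ℓ + 1) * Real.exp 1 ^ (ℓ + 1) * Z) := by
        refine Finset.sum_le_sum_of_subset_of_nonneg (Finset.filter_subset _ _) ?_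
        intro p _ _
        positivity
    _ ≤ 6 ^ (ℓ + 1) * (((36 * q) ^ 2) ^ (ℓ + 1) * Real.exp 1 ^ (ℓ + 1) * Z) := by
        rw [← Finset.sum_mul]
        refine mul_le_mul_of_nonneg_right ?_ (by positivity)
        exact pi_sum n ℓ c r0 _ (by positivity) hx1
    _ = (6 * Real.exp 1 * (36 * q) ^ 2) ^ (ℓ + 1) * Z := by
        generalize (36 * q) ^ 2 = A
        rw [mul_pow, mul_pow]
        ring
    _ ≤ (26 * q) ^ (ℓ + 1) * Z := by
        refine mul_le_mul_of_nonneg_right ?_ hZ0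
        refine pow_le_pow_left₀ (by positivity) ?_ _
        have he := Real.exp_one_lt_d9
        have h5 : 6 * Real.exp 1 * (36 * q) ^ 2 = (7776 * Real.exp 1 * q) * q := by ring
        rw [h5]
        refine mul_le_mul_of_nonneg_right ?_ hq0.le
        have h6 : 7776 * Real.exp 1 * q ≤ 7776 * Real.exp 1 * (1 / 1000) :=
          mul_le_mul_of_nonneg_left hq1 (by positivity)
        linarith

open Classical in
theorem bad_D (n ℓ : ℕ) (q : ℝ) (hq0 : 0 < q) (hq1 : q ≤ 1 / 1000) (D : Finset Edge) :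
    ∑ X ∈ (St (PolD n ℓ D) inc).filter (fun X => ¬ Good n ℓ (8 * (ℓ + 1)) (U X)), q ^ (U X).card ≤
      (5 * n + 2) * (n + ℓ) * (26 * q) ^ (ℓ + 1) * ∑ X ∈ St (PolD n ℓ D) inc, q ^ (U X).card := by
  have h1 := union_bound (St (PolD n ℓ D) inc)
    (Finset.Icc (-(2 * n : ℤ) - 1) (3 * n) ×ˢ Finset.Icc (-(ℓ : ℤ)) (n - 1))
    (fun X => ¬ Good n ℓ (8 * (ℓ + 1)) (U X))
    (fun t X => 8 * (ℓ + 1) < ∑ j ∈ Jw n ℓ t.2,
      ((Finset.Ico 0 (n : ℤ)).filter (fun i => F (U X) i j = Lin t.1 i j)).card)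
    (fun X => q ^ (U X).card) (fun X => by positivity) (by
      intro X hX hG
      unfold Good at hG
      push Not at hG
      obtain ⟨c, r0, h⟩ := hG
      obtain ⟨h2, h3⟩ := window_range (polD_st.mp hX).1 h
      exact ⟨(c, r0), Finset.mem_product.2 ⟨h2, h3⟩, h⟩)
  refine h1.trans ?_
  refine (Finset.sum_le_sum fun t _ => window_bound n ℓ q hq0 hq1 D t.1 t.2).trans ?_
  rw [Finset.sum_const, Finset.card_product, Int.card_Icc, Int.card_Icc, nsmul_eq_mul]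
  have h2 : ((3 * n : ℤ) + 1 - (-(2 * n : ℤ) - 1)).toNat = 5 * n + 2 := by omega
  have h3 : ((n : ℤ) - 1 + 1 - -(ℓ : ℤ)).toNat = n + ℓ := by omega
  rw [h2, h3]
  push_cast
  rw [mul_assoc ((5 * (n : ℝ) + 2) * ((n : ℝ) + ℓ))]

end

end Pool.Agent.H40.WM
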