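import Mathlib
import Pool.Agent.H40.WM.VDefs
import Pool.Agent.H40.WM.VPol
import Pool.Agent.H40.SQ.CBig
import Pool.Agent.H40.SQ.LSum

/-!
# VBig: the weight of the configurations in `D` with a big polymer

The same as `SQ.CBig` (`big_bound`; its private lemmas can be copied): `S ∈ VCs D ⊆ Om n` which is not in the image contains a polymer `κ ∈ Pol n (E n).card` with `κ.card ≥ ℓ + 1`, `κ ⊆ S`, `S \ κ ∈ Om n`, and `S \ κ ⊆ D`: `S \ κ ∈ VCs D`.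
The map `S ↦ (κ, S \ κ)` is injective; `∑_{κ big} q^|κ| ≤ |E n| (18 q)^(ℓ+1)`.
-/

set_option autoImplicit false

namespace Pool.Agent.H40.WM

open Pool.Agent.H40.SQ

noncomputable section

private theorem vbig_polys (n ℓ N : ℕ) (q : ℝ) (hq0 : 0 < q) (hq1 : 18 * q ≤ 1) :
    ∑ κ ∈ (Pol n N).filter (fun κ => ℓ + 1 ≤ κ.card), q ^ κ.card ≤ (E n).card * (18 * q) ^ (ℓ + 1) := by
  classical
  have h1 : ∀ κ ∈ (Pol n N).filter (fun κ => ℓ + 1 ≤ κ.card), q ^ κ.card ≤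
      ∑ e ∈ E n, if e ∈ κ then q ^ κ.card else 0 := by
    intro κ hκ
    obtain ⟨h2, _⟩ := Finset.mem_filter.1 hκ
    obtain ⟨h3, ⟨e, he⟩, _⟩ := mem_Pol.1 h2
    have h4 := Finset.single_le_sum (f := fun e => if e ∈ κ then q ^ κ.card else 0)
      (fun b _ => by
        show (0 : ℝ) ≤ if b ∈ κ then q ^ κ.card else 0
        split_ifs
        · positivity
        · exact le_rfl) (h3 he)
    simp only [he, if_true] at h4
    exact h4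
  refine (Finset.sum_le_sum h1).trans ?_
  rw [Finset.sum_comm]
  have h2 : ∀ e ∈ E n, ∑ κ ∈ (Pol n N).filter (fun κ => ℓ + 1 ≤ κ.card),
      (if e ∈ κ then q ^ κ.card else 0) ≤ (18 * q) ^ (ℓ + 1) := by
    intro e _
    rw [← Finset.sum_filter]
    refine animal_tail (E n) e _ ?_ q hq0.le hq1 (ℓ + 1) ?_
    · intro κ hκ
      obtain ⟨h3, h4⟩ := Finset.mem_filter.1 hκ
      obtain ⟨h5, _⟩ := Finset.mem_filter.1 h3
      obtain ⟨h6, _, h7, _⟩ := mem_Pol.1 h5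
      exact ⟨h6, h4, h7⟩
    · intro κ hκ
      obtain ⟨h3, _⟩ := Finset.mem_filter.1 hκ
      exact (Finset.mem_filter.1 h3).2
  refine (Finset.sum_le_sum h2).trans (le_of_eq ?_)
  rw [Finset.sum_const, nsmul_eq_mul]

private theorem vbig_split {n ℓ : ℕ} {γ : Finset Edge} (hγ : γ ∈ Om n)
    (hbad : ∀ X ∈ St (Pol n ℓ) inc, U X ≠ γ) :
    ∃ κ ∈ Pol n (E n).card, ℓ + 1 ≤ κ.card ∧ κ ⊆ γ ∧ γ \ κ ∈ Om n := by
  classical
  obtain ⟨X, hX, hU⟩ := exists_decomp hγ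
  have h1 : ∃ κ ∈ X, ℓ + 1 ≤ κ.card := by
    by_contra hn
    push Not at hn
    refine hbad X ?_ hU
    obtain ⟨h2, h3⟩ := mem_St.1 hX
    refine mem_St.2 ⟨fun κ hκ => ?_, h3⟩
    obtain ⟨h4, h5, h6, h7, _⟩ := mem_Pol.1 (h2 hκ)
    exact mem_Pol.2 ⟨h4, h5, h6, h7, by have := hn κ hκ; omega⟩
  obtain ⟨κ, hκ, hc⟩ := h1
  obtain ⟨h2, h3⟩ := mem_St.1 hX
  obtain ⟨h4, h5⟩ := U_disj hX hκ
  have hXe : X.erase κ ∈ St (Pol n (E n).card) inc :=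
    mem_St.2 ⟨(Finset.erase_subset _ _).trans h2, fun a ha b hb hab =>
      h3 a (Finset.mem_of_mem_erase ha) b (Finset.mem_of_mem_erase hb) hab⟩
  have h6 : γ \ κ = U (X.erase κ) := by
    rw [← hU, h5]
    exact Finset.union_sdiff_cancel_right h4
  refine ⟨κ, h2 hκ, hc, ?_, ?_⟩
  · rw [← hU, h5]; exact Finset.subset_union_right
  · rw [h6]; exact U_mem hXe

open Classical in
theorem big_D (n ℓ : ℕ) (q : ℝ) (hq0 : 0 < q) (hq1 : 18 * q ≤ 1) {D : Finset Edge} (hD : D ⊆ E n) :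
    ∑ S ∈ (VCs D).filter (fun S => ¬ ∃ X ∈ St (Pol n ℓ) inc, U X = S), q ^ S.card ≤
      (E n).card * (18 * q) ^ (ℓ + 1) * ZV q D := by
  obtain ⟨B, hB⟩ : ∃ B, B = (VCs D).filter (fun S => ¬ ∃ X ∈ St (Pol n ℓ) inc, U X = S) := ⟨_, rfl⟩
  rw [← hB]
  have h1 : ∀ γ ∈ B, ∃ κ ∈ Pol n (E n).card, ℓ + 1 ≤ κ.card ∧ κ ⊆ γ ∧ γ \ κ ∈ VCs D := by
    intro γ hγ
    rw [hB] at hγ
    obtain ⟨h2, h3⟩ := Finset.mem_filter.1 hγ
    obtain ⟨h4, h5⟩ := mem_VCs.1 h2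
    obtain ⟨κ, hκ, hc, hs, hO⟩ := vbig_split (ℓ := ℓ) (mem_Om.2 ⟨h4.trans hD, h5⟩)
      (fun X hX hU => h3 ⟨X, hX, hU⟩)
    exact ⟨κ, hκ, hc, hs, mem_VCs.2 ⟨Finset.sdiff_subset.trans h4, (mem_Om.1 hO).2⟩⟩
  obtain ⟨k, hk⟩ : ∃ k : Finset Edge → Finset Edge,
      ∀ γ ∈ B, k γ ∈ Pol n (E n).card ∧ ℓ + 1 ≤ (k γ).card ∧ k γ ⊆ γ ∧ γ \ k γ ∈ VCs D := by
    choose! k hk using h1
    exact ⟨k, fun γ hγ => by
      obtain ⟨h2, h3, h4, h5⟩ := hk γ hγ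
      exact ⟨h2, h3, h4, h5⟩⟩
  obtain ⟨G, hG⟩ : ∃ G : Finset Edge × Finset Edge → ℝ, G = fun x => q ^ x.1.card * q ^ x.2.card :=
    ⟨_, rfl⟩
  have hinj : Set.InjOn (fun γ => (k γ, γ \ k γ)) (B : Set (Finset Edge)) := by
    intro γ hγ γ' hγ' h
    have e1 : k γ = k γ' := congrArg Prod.fst h
    have e2 : γ \ k γ = γ' \ k γ' := congrArg Prod.snd h
    have e3 : γ = γ \ k γ ∪ k γ := (Finset.sdiff_union_of_subset (hk γ hγ).2.2.1).symm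
    have e4 : γ' = γ' \ k γ' ∪ k γ' := (Finset.sdiff_union_of_subset (hk γ' hγ').2.2.1).symm
    rw [e3, e4, e2, e1]
  have h2 : ∀ γ ∈ B, q ^ γ.card = G (k γ, γ \ k γ) := by
    intro γ hγ
    rw [hG]
    simp only
    rw [← pow_add]
    congr 1
    have := Finset.card_sdiff_add_card_eq_card (hk γ hγ).2.2.1
    omega
  rw [Finset.sum_congr rfl h2]
  have h3 : ∑ γ ∈ B, G (k γ, γ \ k γ) = ∑ x ∈ B.image (fun γ => (k γ, γ \ k γ)), G x :=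
    (Finset.sum_image hinj).symm
  rw [h3]
  have h4 : B.image (fun γ => (k γ, γ \ k γ)) ⊆
      ((Pol n (E n).card).filter (fun κ => ℓ + 1 ≤ κ.card)) ×ˢ VCs D := by
    intro x hx
    obtain ⟨γ, hγ, rfl⟩ := Finset.mem_image.1 hx
    obtain ⟨h5, h6, _, h7⟩ := hk γ hγ
    exact Finset.mem_product.2 ⟨Finset.mem_filter.2 ⟨h5, h6⟩, h7⟩
  refine (Finset.sum_le_sum_of_subset_of_nonneg h4 fun x _ _ => by
    rw [hG]; simp only; positivity).trans ?_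
  rw [Finset.sum_product, hG]
  simp only
  rw [← Finset.sum_mul_sum]
  exact mul_le_mul_of_nonneg_right (vbig_polys n ℓ _ q hq0 hq1)
    (Finset.sum_nonneg fun γ _ => by positivity)

end

end Pool.Agent.H40.WM
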