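import Mathlib
import Pool.Agent.H40.WM.VDefs
import Pool.Agent.H40.WM.VPol
import Pool.Agent.H40.WM.VBig
import Pool.Agent.H40.WM.VBd
import Pool.Agent.H40.WM.QBas

/-!
# VNic: the weight of the configurations in `D` which are not nice

* `card_E`: `E n` is a union of `n^2` sets `sq c` of at most `4` elements.
* `nice_D`: a configuration which is not nice is not in the image of `U` (`big_D`) or it is and is not good (`bad_D` with `polD_sum`).  `∑_X q^|U X| ≤ ZV q D` (`polD_sum`).  `(18 q)^(ℓ+1) ≤ (26 q)^(ℓ+1)`.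
-/

set_option autoImplicit false

namespace Pool.Agent.H40.WM

open Pool.Agent.H40.SQ

noncomputable section

theorem card_E (n : ℕ) : (E n).card ≤ 4 * n ^ 2 := by
  unfold E
  refine Finset.card_biUnion_le.trans ?_
  have h1 : ∀ c ∈ box n, (SQ.sq c).card ≤ 4 := by
    intro c _
    unfold SQ.sq
    exact Finset.card_le_four
  refine (Finset.sum_le_card_nsmul _ _ _ h1).trans ?_
  unfold box
  rw [Finset.card_product, Int.card_Ico, smul_eq_mul, sub_zero, Int.toNat_natCast]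
  exact le_of_eq (by ring)

theorem btl_nonneg (n ℓ : ℕ) (q : ℝ) (hq0 : 0 < q) : 0 ≤ btl n ℓ q := by
  unfold btl
  positivity

open Classical in
theorem nice_D (n ℓ : ℕ) (q : ℝ) (hq0 : 0 < q) (hq1 : q ≤ 1 / 1000) {D : Finset Edge} (hD : D ⊆ E n) :
    ∑ S ∈ (VCs D).filter (fun S => S ∉ Nice n ℓ D), q ^ S.card ≤ btl n ℓ q * ZV q D := by
  have hZ : 0 ≤ ZV q D := (ZV_pos q hq0.le D).le
  have h1 : ∑ S ∈ (VCs D).filter (fun S => S ∉ Nice n ℓ D), q ^ S.card ≤
      ∑ S ∈ (VCs D).filter (fun S => ¬ ∃ X ∈ St (Pol n ℓ) inc, U X = S), q ^ S.card +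
      ∑ S ∈ (VCs D).filter (fun S => ∃ X ∈ St (Pol n ℓ) inc, U X = S),
        (if ¬ Good n ℓ (8 * (ℓ + 1)) S then q ^ S.card else 0) := by
    rw [Finset.sum_filter, Finset.sum_filter, Finset.sum_filter, ← Finset.sum_add_distrib]
    refine Finset.sum_le_sum fun S hS => ?_
    have hp : 0 ≤ q ^ S.card := by positivity
    by_cases hN : S ∈ Nice n ℓ D
    · rw [if_neg (not_not_intro hN)]
      split_ifs <;> linarith
    · rw [if_pos hN]
      by_cases hE : ∃ X ∈ St (Pol n ℓ) inc, U X = S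
      · rw [if_neg (not_not_intro hE), if_pos hE, if_pos, zero_add]
        intro hG
        exact hN (nice_mem.mpr ⟨hS, hE, hG⟩)
      · rw [if_pos hE, if_neg hE, add_zero]
  have h2 := big_D n ℓ q hq0 (by linarith) hD
  have h3 := bad_D n ℓ q hq0 hq1 D
  rw [Finset.sum_filter, polD_sum n ℓ D (fun S => if ¬ Good n ℓ (8 * (ℓ + 1)) S then q ^ S.card else 0),
    polD_sum n ℓ D (fun S => q ^ S.card)] at h3
  have h4 : ∑ S ∈ (VCs D).filter (fun S => ∃ X ∈ St (Pol n ℓ) inc, U X = S), q ^ S.card ≤ ZV q D := by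
    unfold ZV
    refine Finset.sum_le_sum_of_subset_of_nonneg (Finset.filter_subset _ _) ?_
    intro S _ _
    positivity
  have h5 : (18 * q) ^ (ℓ + 1) ≤ (26 * q) ^ (ℓ + 1) :=
    pow_le_pow_left₀ (by positivity) (by linarith) _
  have h6 : ((E n).card : ℝ) ≤ 4 * (n : ℝ) ^ 2 := by exact_mod_cast card_E n
  have h7 : ((E n).card : ℝ) * (18 * q) ^ (ℓ + 1) * ZV q D ≤
      4 * (n : ℝ) ^ 2 * (26 * q) ^ (ℓ + 1) * ZV q D := by
    refine mul_le_mul_of_nonneg_right ?_ hZ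
    exact mul_le_mul h6 h5 (by positivity) (by positivity)
  have h8 : (5 * (n : ℝ) + 2) * (n + ℓ) * (26 * q) ^ (ℓ + 1) *
      ∑ S ∈ (VCs D).filter (fun S => ∃ X ∈ St (Pol n ℓ) inc, U X = S), q ^ S.card ≤
      (5 * (n : ℝ) + 2) * (n + ℓ) * (26 * q) ^ (ℓ + 1) * ZV q D :=
    mul_le_mul_of_nonneg_left h4 (by positivity)
  refine h1.trans ((add_le_add (h2.trans h7) (h3.trans h8)).trans (le_of_eq ?_))
  unfold btl
  ring

end

end Pool.Agent.H40.WM
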