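import Mathlib
import Pool.Agent.H40.WM.VDefs
import Pool.Agent.H40.WM.VNic
import Pool.Agent.H40.WM.VLc
import Pool.Agent.H40.WM.VEe
import Pool.Agent.H40.WM.VSum
import Pool.Agent.H40.WM.GDec
import Pool.Agent.H40.WM.QBas
import Pool.Agent.H40.WM.VPol

/-!
# VL: local modification of the interface

`M = P.1`, `M' = P.2`, `Z' = (Z \ M) ∪ M'`, `D = gD n c`, `P0 = gP n s c`.  Split the sum over `S ∈ VCs D''`, `D'' = D \ (N1 Z ∪ N1 Z')`, into `S ∈ Nice n ℓ D''` and the others.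
* Others: `(u - u')^2 ≤ 4 B^2` (`pee_mem` for `Z` and for `Z'`: `VCs_mono`), `nice_D` for `D'' ⊆ E n`: `≤ 4 B^2 btl ZV D'' ≤ 4 B^2 btl ZV (D \ N1 Z)` (`ZV_mono`); the sum over `Z ∈ LZ ⊆ PD` with `q^(|P0|+|Z|)` is at most `ZE` (`ee_sum`, `ee_card`).
* Nice: `T` = image of the pairs `(Z,S)` under `(P0 ∪ (Z ∪ S), P0 ∪ (Z' ∪ S))` (injective by `pee_inj`; weight `q^(|P0| + |Z| + |S|)` by `ee_card`).  `loc_cmp` with `R = M ∪ M'` (`Loc.conn`, `|R| ≤ 2 m1 ≤ ℓ`), `δ = F M - F M'`: `δ = F (P0 ∪ Z) - F (P0 ∪ Z')` (`pee_swap`), values in `{0,1,-1}` by `pee_lev` for any `Z ∈ LZ`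
  (if `LZ` is empty everything is `0`); outside `R` the two configurations have the same edges; `F P.1 - F P.2 = δ` (`pee_F` twice); `A = S`: `|F P.1 - F S| ≤ 1`, `|F P.2 - F S| ≤ 1` (`pee_F`, `pee_lev`).
  `200 n^4 * 4^(65(ℓ+1)) / q^(18ℓ) ≤ Avl` (`n ≥ 5`).
-/

set_option autoImplicit false

namespace Pool.Agent.H40.WM

open Pool.Agent.H40.SQ

noncomputable section

open Classical in
private theorem mem_LZ {D : Finset Edge} {a b : ℤ × ℤ} {P : Finset Edge × Finset Edge} {Z : Finset Edge} :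
    Z ∈ LZ D a b P ↔ Z ∈ PD D a b ∧ P.1 ⊆ Z ∧ Disjoint (Z \ P.1) P.2 ∧ (Z \ P.1) ∪ P.2 ∈ PD D a b := by
  unfold LZ
  rw [Finset.mem_filter]

private theorem vl_sq {a b B : ℝ} (ha : |a| ≤ B) (hb : |b| ≤ B) : (a - b) ^ 2 ≤ 4 * B ^ 2 := by
  have h1 := abs_le.mp ha
  have h2 := abs_le.mp hb
  nlinarith [h1.1, h1.2, h2.1, h2.2]

private theorem vl_dir (q : ℝ) (hq0 : 0 < q) (n : ℕ) (EE : Finset (Finset Edge))
    (g : Finset Edge → ℝ) : 0 ≤ Dir q n EE g := by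
  unfold Dir
  exact Finset.sum_nonneg fun x _ => Finset.sum_nonneg fun η _ =>
    mul_nonneg (pow_pos hq0 _).le (sq_nonneg _)

theorem loc_var {n : ℕ} {s c : ℤ} (h : Par n s c) (q : ℝ) (hq0 : 0 < q) (hq1 : q ≤ 1 / 1000) {m1 ℓ : ℕ} (hℓ : 2 * m1 ≤ ℓ)
    (u : Finset Edge → ℝ) (B : ℝ) (hB : 0 ≤ B) (hu : ∀ g ∈ EEc n s c, |u g| ≤ B) (P : Finset Edge × Finset Edge)
    (hP : Loc m1 (gD n c) P.1 P.2) :
    q ^ (gP n s c).card * ∑ Z ∈ LZ (gD n c) (ga n c) (gb n c) P,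
        gdf q (gD n c) (fun g => u (gP n s c ∪ g)) Z ((Z \ P.1) ∪ P.2) ≤
      Avl n ℓ q * Dir q n (EEc n s c) u + 4 * btl n ℓ q * B ^ 2 * ZE q (EEc n s c) := by
  classical
  have hDn := vl_dir q hq0 n (EEc n s c) u
  have hpw : ∀ k : ℕ, (0 : ℝ) < q ^ k := fun k => pow_pos hq0 k
  have hbt := btl_nonneg n ℓ q hq0
  have hB2 : 0 ≤ 4 * B ^ 2 := by positivity
  obtain ⟨W, hW⟩ : ∃ W : Finset Edge → Finset Edge, W = fun Z => (Z \ P.1) ∪ P.2 := ⟨_, rfl⟩
  have hW' : ∀ Z, (Z \ P.1) ∪ P.2 = W Z := fun Z => by rw [hW]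
  obtain ⟨D2, hD2⟩ : ∃ D2 : Finset Edge → Finset Edge, D2 = fun Z => gD n c \ (N1 Z ∪ N1 (W Z)) := ⟨_, rfl⟩
  have s1 : ∀ Z, D2 Z ⊆ gD n c \ N1 Z := fun Z => by
    rw [hD2]
    exact Finset.sdiff_subset_sdiff (le_refl _) Finset.subset_union_left
  have s2 : ∀ Z, D2 Z ⊆ gD n c \ N1 (W Z) := fun Z => by
    rw [hD2]
    exact Finset.sdiff_subset_sdiff (le_refl _) Finset.subset_union_right
  have s3 : ∀ Z, D2 Z ⊆ E n := fun Z => ((s1 Z).trans Finset.sdiff_subset).trans (gD_sub h)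
  obtain ⟨t, ht⟩ : ∃ t : Finset Edge → Finset Edge → ℝ, t = fun Z S => q ^ (Z.card + S.card) *
    (u (gP n s c ∪ (Z ∪ S)) - u (gP n s c ∪ (W Z ∪ S))) ^ 2 := ⟨_, rfl⟩
  have hgdf : ∀ Z, gdf q (gD n c) (fun g => u (gP n s c ∪ g)) Z ((Z \ P.1) ∪ P.2) =
      ∑ S ∈ Nice n ℓ (D2 Z), t Z S + ∑ S ∈ (VCs (D2 Z)).filter (fun S => S ∉ Nice n ℓ (D2 Z)), t Z S := by
    intro Z
    unfold gdf
    rw [hW' Z]
    have e1 : gD n c \ (N1 Z ∪ N1 (W Z)) = D2 Z := by rw [hD2]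
    rw [e1]
    rw [← Finset.sum_filter_add_sum_filter_not (VCs (D2 Z)) (fun S => S ∈ Nice n ℓ (D2 Z))]
    have e2 : (VCs (D2 Z)).filter (fun S => S ∈ Nice n ℓ (D2 Z)) = Nice n ℓ (D2 Z) := by
      ext S
      rw [Finset.mem_filter]
      exact ⟨fun h => h.2, fun h => ⟨(nice_mem.mp h).1, h⟩⟩
    rw [e2, ht]
  have hz : ∀ Z ∈ LZ (gD n c) (ga n c) (gb n c) P, Z ∈ PD (gD n c) (ga n c) (gb n c) ∧ P.1 ⊆ Z ∧
      Disjoint (Z \ P.1) P.2 ∧ W Z ∈ PD (gD n c) (ga n c) (gb n c) := by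
    intro Z hZ
    have := mem_LZ.mp hZ
    rw [hW' Z] at this
    exact this
  -- the others
  have hoth : ∀ Z ∈ LZ (gD n c) (ga n c) (gb n c) P,
      ∑ S ∈ (VCs (D2 Z)).filter (fun S => S ∉ Nice n ℓ (D2 Z)), t Z S ≤
        4 * btl n ℓ q * B ^ 2 * (q ^ Z.card * ZV q (gD n c \ N1 Z)) := by
    intro Z hZ
    obtain ⟨z1, z2, z3, z4⟩ := hz Z hZ
    calc ∑ S ∈ (VCs (D2 Z)).filter (fun S => S ∉ Nice n ℓ (D2 Z)), t Z S
        ≤ ∑ S ∈ (VCs (D2 Z)).filter (fun S => S ∉ Nice n ℓ (D2 Z)), q ^ Z.card * (4 * B ^ 2) * q ^ S.card := by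
          refine Finset.sum_le_sum fun S hS => ?_
          have hS1 := (Finset.mem_filter.mp hS).1
          have b1 := hu _ (pee_mem h z1 (VCs_mono (s1 Z) hS1))
          have b2 := hu _ (pee_mem h z4 (VCs_mono (s2 Z) hS1))
          rw [ht]
          have b3 := mul_le_mul_of_nonneg_left (vl_sq b1 b2) (hpw (Z.card + S.card)).le
          refine b3.trans (le_of_eq ?_)
          rw [pow_add]
          ring
      _ = q ^ Z.card * (4 * B ^ 2) * ∑ S ∈ (VCs (D2 Z)).filter (fun S => S ∉ Nice n ℓ (D2 Z)), q ^ S.card := by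
          rw [Finset.mul_sum]
      _ ≤ q ^ Z.card * (4 * B ^ 2) * (btl n ℓ q * ZV q (gD n c \ N1 Z)) := by
          refine mul_le_mul_of_nonneg_left ?_ (mul_nonneg (hpw _).le hB2)
          refine (nice_D n ℓ q hq0 hq1 (s3 Z)).trans ?_
          exact mul_le_mul_of_nonneg_left (ZV_mono q hq0.le (s1 Z)) hbt
      _ = _ := by ring
  have hoth2 : q ^ (gP n s c).card * ∑ Z ∈ LZ (gD n c) (ga n c) (gb n c) P,
      ∑ S ∈ (VCs (D2 Z)).filter (fun S => S ∉ Nice n ℓ (D2 Z)), t Z S ≤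
        4 * btl n ℓ q * B ^ 2 * ZE q (EEc n s c) := by
    have e1 : ZE q (EEc n s c) = q ^ (gP n s c).card *
        ∑ Z ∈ PD (gD n c) (ga n c) (gb n c), q ^ Z.card * ZV q (gD n c \ N1 Z) := by
      unfold ZE
      rw [ee_sum h, Finset.mul_sum]
      refine Finset.sum_congr rfl fun Z hZ => ?_
      unfold ZV
      rw [Finset.mul_sum, Finset.mul_sum]
      refine Finset.sum_congr rfl fun S hS => ?_
      rw [ee_card h hZ hS, pow_add, pow_add]
    have e2 : ∑ Z ∈ LZ (gD n c) (ga n c) (gb n c) P,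
        ∑ S ∈ (VCs (D2 Z)).filter (fun S => S ∉ Nice n ℓ (D2 Z)), t Z S ≤
        4 * btl n ℓ q * B ^ 2 * ∑ Z ∈ PD (gD n c) (ga n c) (gb n c), q ^ Z.card * ZV q (gD n c \ N1 Z) := by
      refine (Finset.sum_le_sum hoth).trans ?_
      rw [← Finset.mul_sum]
      refine mul_le_mul_of_nonneg_left ?_ (by positivity)
      refine Finset.sum_le_sum_of_subset_of_nonneg (fun Z hZ => (hz Z hZ).1) fun Z _ _ => ?_
      exact mul_nonneg (hpw _).le (ZV_pos q hq0.le _).le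
    refine (mul_le_mul_of_nonneg_left e2 (hpw _).le).trans (le_of_eq ?_)
    rw [e1]
    ring
  -- the nice ones
  have hnice : q ^ (gP n s c).card * ∑ Z ∈ LZ (gD n c) (ga n c) (gb n c) P,
      ∑ S ∈ Nice n ℓ (D2 Z), t Z S ≤ Avl n ℓ q * Dir q n (EEc n s c) u := by
    have hA : 200 * (n : ℝ) ^ 4 * (4 ^ (65 * (ℓ + 1)) / q ^ (18 * ℓ)) ≤ Avl n ℓ q := by
      unfold Avl
      have hn1 : (1 : ℝ) ≤ (n : ℝ) ^ 2 := by
        have : (1 : ℝ) ≤ n := by
          have := h.hn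
          exact_mod_cast (by omega : 1 ≤ n)
        nlinarith
      have h18 : (1 : ℝ) ≤ 18 ^ ℓ := one_le_pow₀ (by norm_num)
      have hX : (0 : ℝ) ≤ 4 ^ (65 * (ℓ + 1)) / q ^ (18 * ℓ) := by positivity
      have e1 : 1600 * (n : ℝ) ^ 6 * 18 ^ ℓ * 4 ^ (65 * (ℓ + 1)) / q ^ (18 * ℓ) =
          (1600 * (n : ℝ) ^ 4 * ((n : ℝ) ^ 2 * 18 ^ ℓ)) * (4 ^ (65 * (ℓ + 1)) / q ^ (18 * ℓ)) := by
        ring
      rw [e1]
      refine mul_le_mul_of_nonneg_right ?_ hX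
      have h3 : (1 : ℝ) ≤ (n : ℝ) ^ 2 * 18 ^ ℓ := one_le_mul_of_one_le_of_one_le hn1 h18
      have h4 : (0 : ℝ) ≤ (n : ℝ) ^ 4 := by positivity
      nlinarith
    rcases (LZ (gD n c) (ga n c) (gb n c) P).eq_empty_or_nonempty with he | ⟨Z0, hZ0⟩
    · rw [he, Finset.sum_empty, mul_zero]
      refine mul_nonneg ?_ hDn
      refine le_trans ?_ hA
      positivity
    obtain ⟨y1, y2, y3, y4⟩ := hz Z0 hZ0
    obtain ⟨φ, hφ⟩ : ∃ φ : (_ : Finset Edge) × Finset Edge → Finset Edge × Finset Edge,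
      φ = fun p => (gP n s c ∪ (p.1 ∪ p.2), gP n s c ∪ (W p.1 ∪ p.2)) := ⟨_, rfl⟩
    obtain ⟨I, hI⟩ : ∃ I : Finset ((_ : Finset Edge) × Finset Edge),
      I = (LZ (gD n c) (ga n c) (gb n c) P).sigma (fun Z => Nice n ℓ (D2 Z)) := ⟨_, rfl⟩
    have hIm : ∀ p ∈ I, p.1 ∈ LZ (gD n c) (ga n c) (gb n c) P ∧ p.2 ∈ Nice n ℓ (D2 p.1) := by
      intro p hp
      rw [hI, Finset.mem_sigma] at hp
      exact hp
    have hinj : Set.InjOn φ (I : Set ((_ : Finset Edge) × Finset Edge)) := by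
      intro p hp p' hp' he
      have hp := hIm p (Finset.mem_coe.mp hp)
      have hp' := hIm p' (Finset.mem_coe.mp hp')
      have n1 := nice_mem.mp hp.2
      have n2 := nice_mem.mp hp'.2
      rw [hφ] at he
      have he1 := (Prod.mk.injEq _ _ _ _).mp he
      have := pee_inj h (hz _ hp.1).1 (VCs_mono (s1 _) n1.1) (hz _ hp'.1).1 (VCs_mono (s1 _) n2.1) he1.1
      obtain ⟨p1, p2⟩ := p
      obtain ⟨p1', p2'⟩ := p'
      simp only at this
      rw [this.1, this.2]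
    have hloc := loc_cmp (by have := h.hn; omega : 1 ≤ n) q hq0 (by linarith) (s := s)
      (by rcases h.par with h1 | h1
          · exact Or.inl h1.1
          · exact Or.inr h1.1) (EE := EEc n s c) ee_up (ℓ := ℓ) (R := P.1 ∪ P.2) hP.conn
      (by
        have := Finset.card_union_le P.1 P.2
        have := hP.card
        have := hP.card'
        omega)
      (fun i j => F P.1 i j - F P.2 i j)
      (by
        intro i j
        have e1 := pee_swap h y1 y2 y3 (by rw [hW' Z0]; exact y4) i j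
        have e2 := (pee_lev h y1 y4 i j).2
        rw [hW' Z0] at e1
        rw [e1] at e2
        exact e2)
      (I.image φ)
      (by
        intro Q hQ
        obtain ⟨p, hp, rfl⟩ := Finset.mem_image.mp hQ
        obtain ⟨p1, p2⟩ := hIm p hp
        obtain ⟨z1, z2, z3, z4⟩ := hz _ p1
        obtain ⟨n1, n2, n3⟩ := nice_mem.mp p2
        have v1 := VCs_mono (s1 _) n1
        have v2 := VCs_mono (s2 _) n1
        rw [hφ]
        refine ⟨pee_mem h z1 v1, pee_mem h z4 v2, ?_, ?_, p.2, n3, ?_⟩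
        · intro e he
          rw [Finset.mem_union] at he
          push Not at he
          simp only [Finset.mem_union, hW, Finset.mem_sdiff]
          tauto
        · intro i j
          have e1 := pee_F h z1 v1 i j
          have e2 := pee_F h z4 v2 i j
          have e3 := pee_swap h z1 z2 z3 (by rw [hW' p.1]; exact z4) i j
          rw [hW' p.1] at e3
          simp only
          rw [e1, e2]
          linarith
        · intro i j
          have e1 := pee_F h z1 v1 i j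
          have e2 := pee_F h z4 v2 i j
          have l1 := (pee_lev h z1 z1 i j).1
          have l2 := (pee_lev h z4 z4 i j).1
          simp only
          rw [e1, e2, add_sub_cancel_right, add_sub_cancel_right]
          exact ⟨by linarith, by linarith⟩)
      u
    have e1 : q ^ (gP n s c).card * ∑ Z ∈ LZ (gD n c) (ga n c) (gb n c) P, ∑ S ∈ Nice n ℓ (D2 Z), t Z S =
        ∑ Q ∈ I.image φ, q ^ Q.1.card * (u Q.1 - u Q.2) ^ 2 := by
      rw [Finset.sum_image hinj, hI, Finset.sum_sigma, Finset.mul_sum]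
      refine Finset.sum_congr rfl fun Z hZ => ?_
      rw [Finset.mul_sum]
      refine Finset.sum_congr rfl fun S hS => ?_
      obtain ⟨z1, z2, z3, z4⟩ := hz Z hZ
      have v1 := VCs_mono (s1 _) (nice_mem.mp hS).1
      rw [hφ, ht]
      simp only
      rw [ee_card h z1 v1, pow_add q (gP n s c).card]
      ring
    rw [e1]
    exact hloc.trans (mul_le_mul_of_nonneg_right hA hDn)
  have hsplit : ∑ Z ∈ LZ (gD n c) (ga n c) (gb n c) P,
      gdf q (gD n c) (fun g => u (gP n s c ∪ g)) Z ((Z \ P.1) ∪ P.2) =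
      ∑ Z ∈ LZ (gD n c) (ga n c) (gb n c) P, ∑ S ∈ Nice n ℓ (D2 Z), t Z S +
      ∑ Z ∈ LZ (gD n c) (ga n c) (gb n c) P,
        ∑ S ∈ (VCs (D2 Z)).filter (fun S => S ∉ Nice n ℓ (D2 Z)), t Z S := by
    rw [← Finset.sum_add_distrib]
    exact Finset.sum_congr rfl fun Z _ => hgdf Z
  rw [hsplit, mul_add]
  exact add_le_add hnice hoth2

end

end Pool.Agent.H40.WM
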