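import Mathlib
import Pool.Agent.H40.WM.VDefs
import Pool.Agent.H40.WM.VDec
import Pool.Agent.H40.WM.QPsi
import Pool.Agent.H40.WM.QBas

/-!
# VM: comparison of the conditional means of two paths

`Z' = (Z \ M) ∪ M'`, `A = D \ (N1 Z ∪ N1 Z')`.
* `zv_ratio`: `D \ N1 (X ∪ Y)`: `log ZV (D \ N1 X) - log ZV (D \ N1 (X ∪ Y)) = psiD (X ∪ Y) - psiD X ≤ |Y|/10` (`psiD_union_le`), exponentiate (`ZV_pos`).
  Since `Z ∪ Z' = Z ∪ M' = Z' ∪ M` and `N1 Z ∪ N1 Z' = N1 (Z ∪ Z')` (`N1_union`): `ZV (D \ N1 Z) ≤ exp (m1/10) ZV A` and `ZV (D \ N1 Z') ≤ exp (m1/10) ZV A`.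
* `cs_mean`: for weights `w ≥ 0` on a finite set `Ω`, total `W > 0`, `Ω' ⊆ Ω` with total `W' > 0`, `m, m'` the means of `f` on `Ω`, `Ω'`: `(m - m')^2 W' ≤ ∑_Ω w (f - m)^2` (Cauchy-Schwarz: `W' (m' - m) = ∑_{Ω'} w (f - m)`).
* `gmn_diff`: `g = gmn Z`, `g' = gmn Z'`, `m, m'` = means over `VCs A` (weight `q^|S|`) of `f (Z ∪ S)`, `f (Z' ∪ S)`.  `(g - g')^2 ≤ 3 ((g - m)^2 + (m - m')^2 + (m' - g')^2)`.
  `(g - m)^2 ≤ V/ZV A`, `V = ∑_S q^|S| (f (Z ∪ S) - g)^2 = gvr Z / q^|Z|`; similarly for `Z'`; `(m - m')^2 ZV A ≤ ∑_{S ∈ VCs A} q^|S| (f (Z ∪ S) - f (Z' ∪ S))^2 = gdf / q^|Z|`.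
  Multiply by `ZV q D * omD q D Z = q^|Z| ZV (D \ N1 Z) ≤ q^|Z| exp (m1/10) ZV A` (`exp_psiD`): the first and the third term give `3 exp (m1/10) (gvr Z + gdf)`; the second: `3 exp (m1/10) q^|Z| gvr Z' / q^|Z'| ≤ 3 exp (m1/10) q^(-m1) gvr Z'` because `|Z'| ≤ |Z| + m1`.
  `exp (1/10) ≤ 36`, `q ≤ 1`.
-/

set_option autoImplicit false

namespace Pool.Agent.H40.WM

open Pool.Agent.H40.SQ

noncomputable section

theorem zv_ratio (q : ℝ) (hq0 : 0 < q) (hq1 : q ≤ 1 / 10 ^ 6) (D X Y : Finset Edge) :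
    ZV q (D \ N1 X) ≤ Real.exp ((Y.card : ℝ) / 10) * ZV q (D \ N1 (X ∪ Y)) := by
  have h1 := psiD_union_le q hq0 hq1 D X Y
  unfold psiD at h1
  have p1 : 0 < ZV q (D \ N1 X) := ZV_pos q hq0.le _
  have p2 : 0 < ZV q (D \ N1 (X ∪ Y)) := ZV_pos q hq0.le _
  have h2 : Real.log (ZV q (D \ N1 X)) ≤ (Y.card : ℝ) / 10 + Real.log (ZV q (D \ N1 (X ∪ Y))) := by linarith
  calc ZV q (D \ N1 X) = Real.exp (Real.log (ZV q (D \ N1 X))) := (Real.exp_log p1).symm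
    _ ≤ Real.exp ((Y.card : ℝ) / 10 + Real.log (ZV q (D \ N1 (X ∪ Y)))) := Real.exp_le_exp.2 h2
    _ = _ := by rw [Real.exp_add, Real.exp_log p2]

private theorem vm_cs {ι : Type} (Ω : Finset ι) (w f : ι → ℝ) (hw : ∀ x ∈ Ω, 0 ≤ w x) (t m : ℝ)
    (hm : m * ∑ x ∈ Ω, w x = ∑ x ∈ Ω, w x * f x) :
    (t - m) ^ 2 * ∑ x ∈ Ω, w x ≤ ∑ x ∈ Ω, w x * (f x - t) ^ 2 := by
  have h1 : ∑ x ∈ Ω, w x * (f x - t) ^ 2 = ∑ x ∈ Ω, w x * (f x - m) ^ 2 + (t - m) ^ 2 * ∑ x ∈ Ω, w x := by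
    have h2 : ∀ x ∈ Ω, w x * (f x - t) ^ 2 =
        w x * (f x - m) ^ 2 + (2 * (m - t) * (w x * f x) + ((t - m) ^ 2 - 2 * (m - t) * m) * w x) := by
      intro x _
      ring
    rw [Finset.sum_congr rfl h2, Finset.sum_add_distrib, Finset.sum_add_distrib, ← Finset.mul_sum, ← Finset.mul_sum,
      ← hm]
    ring
  have h3 : 0 ≤ ∑ x ∈ Ω, w x * (f x - m) ^ 2 := Finset.sum_nonneg fun x hx => mul_nonneg (hw x hx) (sq_nonneg _)
  linarith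

theorem cs_mean {ι : Type} [DecidableEq ι] (Ω Ω' : Finset ι) (hΩ : Ω' ⊆ Ω) (w f : ι → ℝ) (hw : ∀ x ∈ Ω, 0 ≤ w x)
    (h1 : 0 < ∑ x ∈ Ω, w x) (h2 : 0 < ∑ x ∈ Ω', w x) (m m' : ℝ) (hm : m * ∑ x ∈ Ω, w x = ∑ x ∈ Ω, w x * f x)
    (hm' : m' * ∑ x ∈ Ω', w x = ∑ x ∈ Ω', w x * f x) :
    (m - m') ^ 2 * ∑ x ∈ Ω', w x ≤ ∑ x ∈ Ω, w x * (f x - m) ^ 2 :=
  (vm_cs Ω' w f (fun x hx => hw x (hΩ hx)) m m' hm').trans
    (Finset.sum_le_sum_of_subset_of_nonneg hΩ fun x hx _ => mul_nonneg (hw x hx) (sq_nonneg _))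

theorem gmn_diff (q : ℝ) (hq0 : 0 < q) (hq1 : q ≤ 1 / 10 ^ 6) (D : Finset Edge) (f : Finset Edge → ℝ) (m1 : ℕ)
    {Z M M' : Finset Edge} (hM : M ⊆ Z) (hd : Disjoint (Z \ M) M') (hc : M.card ≤ m1) (hc' : M'.card ≤ m1) :
    ZV q D * omD q D Z * (gmn q D f Z - gmn q D f ((Z \ M) ∪ M')) ^ 2 ≤
      3 * (36 / q) ^ m1 * (gvr q D f Z + gvr q D f ((Z \ M) ∪ M') + gdf q D f Z ((Z \ M) ∪ M')) := by
  have hq1' : q ≤ 1 := hq1.trans (by norm_num)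
  have hpw : ∀ k : ℕ, 0 < q ^ k := fun k => pow_pos hq0 k
  obtain ⟨Z', hZ'⟩ : ∃ Z', Z' = (Z \ M) ∪ M' := ⟨_, rfl⟩
  rw [← hZ']
  obtain ⟨A, hA⟩ : ∃ A, A = D \ (N1 Z ∪ N1 Z') := ⟨_, rfl⟩
  have hA1 : A ⊆ D \ N1 Z := by
    rw [hA]
    exact Finset.sdiff_subset_sdiff (Finset.Subset.refl D) Finset.subset_union_left
  have hA2 : A ⊆ D \ N1 Z' := by
    rw [hA]
    exact Finset.sdiff_subset_sdiff (Finset.Subset.refl D) Finset.subset_union_right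
  have hA3 : A = D \ N1 (Z ∪ M') := by
    rw [hA, ← N1_union]
    congr 2
    rw [hZ', ← Finset.union_assoc, Finset.union_eq_left.2 Finset.sdiff_subset]
  have W0 : 0 < ZV q A := ZV_pos q hq0.le A
  obtain ⟨W, hW⟩ : ∃ W, W = ZV q A := ⟨_, rfl⟩
  obtain ⟨m, hm⟩ : ∃ m, m = (∑ S ∈ VCs A, q ^ S.card * f (Z ∪ S)) / ZV q A := ⟨_, rfl⟩
  obtain ⟨m', hm'⟩ : ∃ m, m = (∑ S ∈ VCs A, q ^ S.card * f (Z' ∪ S)) / ZV q A := ⟨_, rfl⟩
  have em : m * ∑ S ∈ VCs A, q ^ S.card = ∑ S ∈ VCs A, q ^ S.card * f (Z ∪ S) := by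
    rw [hm]
    exact div_mul_cancel₀ _ W0.ne'
  have em' : m' * ∑ S ∈ VCs A, q ^ S.card = ∑ S ∈ VCs A, q ^ S.card * f (Z' ∪ S) := by
    rw [hm']
    exact div_mul_cancel₀ _ W0.ne'
  obtain ⟨g, hg⟩ : ∃ g, g = gmn q D f Z := ⟨_, rfl⟩
  obtain ⟨g', hg'⟩ : ∃ g, g = gmn q D f Z' := ⟨_, rfl⟩
  have sub : ∀ {B : Finset Edge} (Y : Finset Edge) (t y : ℝ), A ⊆ B →
      (y * ∑ S ∈ VCs A, q ^ S.card = ∑ S ∈ VCs A, q ^ S.card * f (Y ∪ S)) →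
      (t - y) ^ 2 * W ≤ ∑ S ∈ VCs B, q ^ S.card * (f (Y ∪ S) - t) ^ 2 := by
    intro B Y t y hB hy
    rw [hW]
    exact (vm_cs (VCs A) (fun S => q ^ S.card) (fun S => f (Y ∪ S)) (fun S _ => (hpw _).le) t y hy).trans
      (Finset.sum_le_sum_of_subset_of_nonneg (VCs_mono hB) fun S _ _ => mul_nonneg (hpw _).le (sq_nonneg _))
  have t1 : q ^ Z.card * ((g - m) ^ 2 * W) ≤ gvr q D f Z := by
    have h1 := mul_le_mul_of_nonneg_left (sub Z g m hA1 em) (hpw Z.card).le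
    refine h1.trans (le_of_eq ?_)
    unfold gvr
    rw [← hg, Finset.mul_sum]
    apply Finset.sum_congr rfl
    intro S _
    rw [pow_add]
    ring
  have t2 : q ^ Z'.card * ((g' - m') ^ 2 * W) ≤ gvr q D f Z' := by
    have h1 := mul_le_mul_of_nonneg_left (sub Z' g' m' hA2 em') (hpw Z'.card).le
    refine h1.trans (le_of_eq ?_)
    unfold gvr
    rw [← hg', Finset.mul_sum]
    apply Finset.sum_congr rfl
    intro S _
    rw [pow_add]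
    ring
  have t3 : q ^ Z.card * ((m - m') ^ 2 * W) ≤ gdf q D f Z Z' := by
    have h1 : (0 - (m - m')) ^ 2 * W ≤ ∑ S ∈ VCs A, q ^ S.card * ((f (Z ∪ S) - f (Z' ∪ S)) - 0) ^ 2 := by
      rw [hW]
      refine vm_cs (VCs A) (fun S => q ^ S.card) (fun S => f (Z ∪ S) - f (Z' ∪ S)) (fun S _ => (hpw _).le) 0 (m - m') ?_
      rw [sub_mul, em, em', ← Finset.sum_sub_distrib]
      apply Finset.sum_congr rfl
      intro S _
      ring
    rw [zero_sub, neg_sq] at h1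
    have h2 := mul_le_mul_of_nonneg_left h1 (hpw Z.card).le
    refine h2.trans (le_of_eq ?_)
    unfold gdf
    rw [← hA, Finset.mul_sum]
    apply Finset.sum_congr rfl
    intro S _
    rw [pow_add, sub_zero]
    ring
  have hcard : Z'.card ≤ Z.card + m1 := by
    rw [hZ']
    refine (Finset.card_union_le _ _).trans ?_
    have := Finset.card_le_card (Finset.sdiff_subset (s := Z) (t := M))
    omega
  have t2' : q ^ Z.card * ((g' - m') ^ 2 * W) ≤ (1 / q) ^ m1 * gvr q D f Z' := by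
    have h1 : q ^ m1 * q ^ Z.card ≤ q ^ Z'.card := by
      rw [← pow_add]
      exact pow_le_pow_of_le_one hq0.le hq1' (by omega)
    have h0 : 0 ≤ (g' - m') ^ 2 * W := by
      rw [hW]
      exact mul_nonneg (sq_nonneg _) W0.le
    have h2 := (mul_le_mul_of_nonneg_right h1 h0).trans t2
    have h3 := mul_le_mul_of_nonneg_left h2 (by positivity : (0 : ℝ) ≤ (1 / q) ^ m1)
    refine le_trans (le_of_eq ?_) h3
    rw [one_div, inv_pow]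
    have h4 : q ^ m1 ≠ 0 := (hpw m1).ne'
    field_simp
  have hexp : Real.exp ((M'.card : ℝ) / 10) ≤ 36 ^ m1 := by
    have h1 : (M'.card : ℝ) / 10 ≤ (m1 : ℝ) * (1 / 10) := by
      have : (M'.card : ℝ) ≤ m1 := by exact_mod_cast hc'
      linarith
    calc Real.exp ((M'.card : ℝ) / 10) ≤ Real.exp ((m1 : ℝ) * (1 / 10)) := Real.exp_le_exp.2 h1
      _ = Real.exp (1 / 10) ^ m1 := Real.exp_nat_mul _ _
      _ ≤ 36 ^ m1 := by
        apply pow_le_pow_left₀ (Real.exp_pos _).le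
        have h2 : Real.exp (1 / 10) ≤ Real.exp 1 := Real.exp_le_exp.2 (by norm_num)
        have h3 := Real.exp_one_lt_d9
        linarith
  have hratio : ZV q (D \ N1 Z) ≤ 36 ^ m1 * W := by
    have h1 := zv_ratio q hq0 hq1 D Z M'
    rw [← hA3, ← hW] at h1
    exact h1.trans (mul_le_mul_of_nonneg_right hexp (by rw [hW]; exact W0.le))
  have hsq : (g - g') ^ 2 ≤ 3 * ((g - m) ^ 2 + (m - m') ^ 2 + (g' - m') ^ 2) := by
    nlinarith [sq_nonneg ((g - m) - (m - m')), sq_nonneg ((g - m) - (m' - g')), sq_nonneg ((m - m') - (m' - g'))]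
  have hone : (1 : ℝ) ≤ (1 / q) ^ m1 := by
    apply one_le_pow₀
    rw [le_div_iff₀ hq0, one_mul]
    exact hq1'
  have g1 : 0 ≤ gvr q D f Z := le_trans (mul_nonneg (hpw _).le (mul_nonneg (sq_nonneg _) (by rw [hW]; exact W0.le))) t1
  have g3 : 0 ≤ gdf q D f Z Z' := le_trans (mul_nonneg (hpw _).le (mul_nonneg (sq_nonneg _) (by rw [hW]; exact W0.le))) t3
  rw [exp_psiD q hq0, ← hg, ← hg']
  have hW0 : 0 ≤ W := by rw [hW]; exact W0.le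
  have h36 : (0 : ℝ) < 36 ^ m1 := by positivity
  calc q ^ Z.card * ZV q (D \ N1 Z) * (g - g') ^ 2 ≤ q ^ Z.card * (36 ^ m1 * W) * (3 * ((g - m) ^ 2 + (m - m') ^ 2 + (g' - m') ^ 2)) := by
        apply mul_le_mul _ hsq (sq_nonneg _) (by positivity)
        exact mul_le_mul_of_nonneg_left hratio (hpw _).le
    _ = 3 * 36 ^ m1 * (q ^ Z.card * ((g - m) ^ 2 * W) + q ^ Z.card * ((g' - m') ^ 2 * W) + q ^ Z.card * ((m - m') ^ 2 * W)) := by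
        ring
    _ ≤ 3 * 36 ^ m1 * ((1 / q) ^ m1 * gvr q D f Z + (1 / q) ^ m1 * gvr q D f Z' + (1 / q) ^ m1 * gdf q D f Z Z') := by
        apply mul_le_mul_of_nonneg_left _ (by positivity)
        refine add_le_add (add_le_add (t1.trans ?_) t2') (t3.trans ?_)
        · exact le_mul_of_one_le_left g1 hone
        · exact le_mul_of_one_le_left g3 hone
    _ = 3 * (36 / q) ^ m1 * (gvr q D f Z + gvr q D f Z' + gdf q D f Z Z') := by
        have : (36 / q) ^ m1 = 36 ^ m1 * (1 / q) ^ m1 := by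
          rw [← mul_pow]
          congr 1
          ring
        rw [this]
        ring

end

end Pool.Agent.H40.WM
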