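import Mathlib
import Pool.Agent.H40.WM.VDefs
import Pool.Agent.H40.WM.VPol
import Pool.Agent.H40.WM.VBig
import Pool.Agent.H40.WM.VBd
import Pool.Agent.H40.WM.VNic
import Pool.Agent.H40.SQ.GPoin
import Pool.Agent.H40.SQ.AsWP

/-!
# VGas: Poincare inequality of the gas on `D`

As in `SQ.AsWP` (`weak_poincare`).  `St' = St (PolD n ℓ D) inc`, `c0 = (∑_{X ∈ St'} q^|U X| f (U X)) / ∑_{X ∈ St'} q^|U X|`, `|c0| ≤ B`.  `∑_S q^|S| (f S - mean)^2 ≤ ∑_S q^|S| (f S - c0)^2` (the mean minimises; `mean_min` in `AsWP` is private, copy).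
Split `VCs D` into the image of `U` on `St'` (`polD_sum`) and the rest.
* Rest: `(f S - c0)^2 ≤ 4 B^2`, `big_D`: `≤ 4 B^2 |E n| (18q)^(ℓ+1) ZV ≤ 4 B^2 btl ZV` (`card_E`).
* Image: `gas_poincare` for `P = PolD n ℓ D`, `r = inc`, `w κ = q^|κ|` (`U_wt`), `s κ = |κ|`, `θ = 1/2` (`pol_theta`, `Q ⊆ PolD ⊆ Pol`): `≤ 2 ∑_X ∑_{κ ∈ X} q^|U X| (f (U X) - f (U (X.erase κ)))^2`, `U (X.erase κ) = U X \ κ` (`U_erase`).
  `X` not good: each square `≤ 4 B^2`, `|X| ≤ |E n| ≤ 4 n^2`, `bad_D`: `≤ 2 * 4 B^2 * 4 n^2 * btl * ZV`.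
  `X` good: `U X ∈ Nice n ℓ D`, `κ ⊆ U X`, `κ ∈ Pol n ℓ`: exchange the sums; the map `X ↦ U X` is injective: `≤ 2 ∑_κ ∑_{S ∈ Nice, κ ⊆ S}`.
* `4 + 32 n^2 ≤ 40 n^2`.
-/

set_option autoImplicit false

namespace Pool.Agent.H40.WM

open Pool.Agent.H40.SQ

noncomputable section

/-- The mean minimises the quadratic deviation. -/
private theorem vgas_min {α : Type} (S : Finset α) (W g : α → ℝ) (c : ℝ)
    (hZ : 0 < ∑ x ∈ S, W x) :
    ∑ x ∈ S, W x * (g x - (∑ y ∈ S, W y * g y) / (∑ y ∈ S, W y)) ^ 2 ≤ ∑ x ∈ S, W x * (g x - c) ^ 2 := by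
  set m := (∑ y ∈ S, W y * g y) / (∑ y ∈ S, W y) with hm
  have h0 : ∑ y ∈ S, W y * g y = m * ∑ y ∈ S, W y := by
    rw [hm, div_mul_cancel₀ _ hZ.ne']
  have h1 : ∑ x ∈ S, W x * (g x - c) ^ 2 - ∑ x ∈ S, W x * (g x - m) ^ 2 =
      (m - c) ^ 2 * ∑ x ∈ S, W x := by
    rw [← Finset.sum_sub_distrib]
    have : ∀ x ∈ S, W x * (g x - c) ^ 2 - W x * (g x - m) ^ 2 =
        2 * (m - c) * (W x * g x) + (c ^ 2 - m ^ 2) * W x := by
      intro x _; ring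
    rw [Finset.sum_congr rfl this, Finset.sum_add_distrib, ← Finset.mul_sum, ← Finset.mul_sum, h0]
    ring
  have h2 : 0 ≤ (m - c) ^ 2 * ∑ x ∈ S, W x := by positivity
  linarith

private theorem vgas_card {n ℓ : ℕ} {X : Finset (Finset Edge)} (hX : X ∈ St (Pol n ℓ) inc) :
    X.card ≤ (E n).card := by
  have h1 : X.card ≤ (U X).card := by
    rw [U_card hX, Finset.card_eq_sum_ones]
    apply Finset.sum_le_sum
    intro κ hκ
    have := (mem_Pol.mp ((mem_St.mp hX).1 hκ)).2.1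
    exact Finset.card_pos.mpr this
  exact h1.trans (Finset.card_le_card (mem_Om.mp (U_mem hX)).1)

private theorem vgas_sq {a b B : ℝ} (ha : |a| ≤ B) (hb : |b| ≤ B) : (a - b) ^ 2 ≤ 4 * B ^ 2 := by
  have h1 := abs_le.mp ha
  have h2 := abs_le.mp hb
  nlinarith [h1.1, h1.2, h2.1, h2.2]

private theorem vgas_erase {P : Finset (Finset Edge)} {X : Finset (Finset Edge)} (hX : X ∈ St P inc) (κ : Finset Edge) :
    X.erase κ ∈ St P inc := by
  obtain ⟨h2, h3⟩ := mem_St.1 hX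
  exact mem_St.2 ⟨(Finset.erase_subset _ _).trans h2, fun a ha b hb hab =>
      h3 a (Finset.mem_of_mem_erase ha) b (Finset.mem_of_mem_erase hb) hab⟩

open Classical in
theorem gas_D (n ℓ : ℕ) (hn : 1 ≤ n) (q : ℝ) (hq0 : 0 < q) (hq1 : q ≤ 1 / 1000) {D : Finset Edge} (hD : D ⊆ E n) (f : Finset Edge → ℝ)
    (B : ℝ) (hB : 0 ≤ B) (hf : ∀ S ∈ VCs D, |f S| ≤ B) :
    ∑ S ∈ VCs D, q ^ S.card * (f S - (∑ T ∈ VCs D, q ^ T.card * f T) / ZV q D) ^ 2 ≤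
      2 * ∑ κ ∈ Pol n ℓ, ∑ S ∈ (Nice n ℓ D).filter (fun S => κ ⊆ S), q ^ S.card * (f S - f (S \ κ)) ^ 2 +
        40 * (n : ℝ) ^ 2 * btl n ℓ q * B ^ 2 * ZV q D := by
  have hn1 : (1 : ℝ) ≤ n := by exact_mod_cast hn
  have hn0 : (0 : ℝ) < n := by linarith
  have hB2 : 0 ≤ 4 * B ^ 2 := by positivity
  have hE0 : (0 : ℝ) ≤ ((E n).card : ℝ) := Nat.cast_nonneg _
  have hE4 : ((E n).card : ℝ) ≤ 4 * (n : ℝ) ^ 2 := by exact_mod_cast card_E n
  have hpw : ∀ k : ℕ, 0 ≤ q ^ k := fun k => (pow_pos hq0 k).le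
  have hpw' : ∀ k : ℕ, 0 < q ^ k := fun k => pow_pos hq0 k
  obtain ⟨S, hS⟩ : ∃ S, S = St (PolD n ℓ D) inc := ⟨_, rfl⟩
  have hSP : ∀ X ∈ S, X ∈ St (Pol n ℓ) inc := fun X hX => by
    rw [hS] at hX
    exact (polD_st.1 hX).1
  have hSV : ∀ X ∈ S, U X ∈ VCs D := fun X hX => by
    rw [hS] at hX
    exact polD_U hX
  have hempty : (∅ : Finset (Finset Edge)) ∈ S := by
    rw [hS, mem_St]
    exact ⟨Finset.empty_subset _, fun a ha => absurd ha (Finset.notMem_empty a)⟩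
  have hsumU : ∀ g : Finset Edge → ℝ, ∑ X ∈ S, g (U X) =
      ∑ T ∈ (VCs D).filter (fun T => ∃ X ∈ St (Pol n ℓ) inc, U X = T), g T := fun g => by
    rw [hS]
    exact polD_sum n ℓ D g
  have hZl : ∑ X ∈ S, q ^ (U X).card ≤ ZV q D := by
    rw [hsumU (fun γ => q ^ γ.card)]
    unfold ZV
    exact Finset.sum_le_sum_of_subset_of_nonneg (Finset.filter_subset _ _) (fun γ _ _ => hpw _)
  have hZl0 : 0 < ∑ X ∈ S, q ^ (U X).card :=
    Finset.sum_pos (fun X _ => hpw' _) ⟨∅, hempty⟩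
  have hZn0 : 0 < ZV q D := lt_of_lt_of_le hZl0 hZl
  have hwt : ∀ X ∈ S, wt (fun κ : Finset Edge => q ^ κ.card) X = q ^ (U X).card := fun X hX => U_wt (hSP X hX) q
  obtain ⟨w, hw⟩ : ∃ w : Finset Edge → ℝ, w = fun κ => q ^ κ.card := ⟨_, rfl⟩
  rw [← hw] at hwt
  obtain ⟨c0, hc0⟩ : ∃ c0, c0 = (∑ Y ∈ S, wt w Y * f (U Y)) / (∑ Y ∈ S, wt w Y) := ⟨_, rfl⟩
  have hZw : ∑ Y ∈ S, wt w Y = ∑ X ∈ S, q ^ (U X).card := Finset.sum_congr rfl hwt
  have hc0B : |c0| ≤ B := by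
    rw [hc0, hZw, abs_div, abs_of_pos hZl0, div_le_iff₀ hZl0]
    calc |∑ Y ∈ S, wt w Y * f (U Y)| ≤ ∑ Y ∈ S, |wt w Y * f (U Y)| := Finset.abs_sum_le_sum_abs _ _
      _ ≤ ∑ Y ∈ S, B * q ^ (U Y).card := by
          apply Finset.sum_le_sum
          intro Y hY
          rw [hwt Y hY, abs_mul, abs_of_pos (hpw' _), mul_comm]
          exact mul_le_mul_of_nonneg_right (hf _ (hSV Y hY)) (hpw _)
      _ = B * ∑ X ∈ S, q ^ (U X).card := by rw [Finset.mul_sum]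
  -- the mean minimises
  have hstep0 : ∑ T ∈ VCs D, q ^ T.card * (f T - (∑ T ∈ VCs D, q ^ T.card * f T) / ZV q D) ^ 2 ≤
      ∑ T ∈ VCs D, q ^ T.card * (f T - c0) ^ 2 :=
    vgas_min (VCs D) (fun γ => q ^ γ.card) f c0 hZn0
  -- split
  have hsplit : ∑ T ∈ VCs D, q ^ T.card * (f T - c0) ^ 2 =
      ∑ X ∈ S, q ^ (U X).card * (f (U X) - c0) ^ 2 +
      ∑ T ∈ (VCs D).filter (fun T => ¬ ∃ X ∈ St (Pol n ℓ) inc, U X = T), q ^ T.card * (f T - c0) ^ 2 := by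
    rw [← Finset.sum_filter_add_sum_filter_not (VCs D) (fun T => ∃ X ∈ St (Pol n ℓ) inc, U X = T)]
    congr 1
    exact (hsumU (fun T => q ^ T.card * (f T - c0) ^ 2)).symm
  -- rest
  have hrest : ∑ T ∈ (VCs D).filter (fun T => ¬ ∃ X ∈ St (Pol n ℓ) inc, U X = T), q ^ T.card * (f T - c0) ^ 2 ≤
      4 * B ^ 2 * ((E n).card * (18 * q) ^ (ℓ + 1) * ZV q D) := by
    calc ∑ T ∈ (VCs D).filter (fun T => ¬ ∃ X ∈ St (Pol n ℓ) inc, U X = T), q ^ T.card * (f T - c0) ^ 2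
        ≤ ∑ T ∈ (VCs D).filter (fun T => ¬ ∃ X ∈ St (Pol n ℓ) inc, U X = T), 4 * B ^ 2 * q ^ T.card := by
          apply Finset.sum_le_sum
          intro γ hγ
          rw [mul_comm]
          exact mul_le_mul_of_nonneg_right (vgas_sq (hf γ (Finset.mem_filter.mp hγ).1) hc0B) (hpw _)
      _ = 4 * B ^ 2 * ∑ T ∈ (VCs D).filter (fun T => ¬ ∃ X ∈ St (Pol n ℓ) inc, U X = T), q ^ T.card := by
          rw [Finset.mul_sum]
      _ ≤ 4 * B ^ 2 * ((E n).card * (18 * q) ^ (ℓ + 1) * ZV q D) := by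
          apply mul_le_mul_of_nonneg_left _ hB2
          exact big_D n ℓ q hq0 (by linarith) hD
  -- Poincare for the gas
  obtain ⟨T, hT⟩ : ∃ T : Finset (Finset Edge) → ℝ,
      T = fun X => ∑ κ ∈ X, q ^ (U X).card * (f (U X) - f (U (X.erase κ))) ^ 2 := ⟨_, rfl⟩
  have hPD : PolD n ℓ D ⊆ Pol n ℓ := Finset.filter_subset _ _
  have hgas : ∑ X ∈ S, q ^ (U X).card * (f (U X) - c0) ^ 2 ≤ 2 * ∑ X ∈ S, T X := by
    have h1 := gas_poincare (PolD n ℓ D) inc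
      (by rintro a b ⟨x, hx, y, hy, hxy⟩; exact ⟨y, hy, x, hx, tch_symm hxy⟩)
      (by
        intro a ha
        obtain ⟨x, hx⟩ := (mem_Pol.mp (hPD ha)).2.1
        exact ⟨x, hx, x, hx, tch_refl x⟩)
      w (fun κ => (κ.card : ℝ)) (fun κ _ => by rw [hw]; exact hpw' _)
      (by
        intro κ hκ
        have := Finset.card_pos.mpr (mem_Pol.mp (hPD hκ)).2.1
        exact_mod_cast this)
      (1 / 2) (by norm_num) (by norm_num)
      (by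
        intro κ hκ Q hQ hQ'
        rw [hw]
        exact pol_theta n ℓ q hq0 hq1 κ (hPD hκ) Q (hQ.trans hPD) hQ')
      (fun X => f (U X))
    rw [← hS, ← hc0] at h1
    have h2 : ∑ X ∈ S, wt w X * (f (U X) - c0) ^ 2 = ∑ X ∈ S, q ^ (U X).card * (f (U X) - c0) ^ 2 :=
      Finset.sum_congr rfl (fun X hX => by rw [hwt X hX])
    have h3 : ∑ X ∈ S, ∑ κ ∈ X, wt w X * (f (U X) - f (U (X.erase κ))) ^ 2 = ∑ X ∈ S, T X :=
      Finset.sum_congr rfl (fun X hX => by rw [hT, hwt X hX])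
    rw [h2, h3] at h1
    linarith
  have hsplit2 : ∑ X ∈ S, T X = ∑ X ∈ S.filter (fun X => Good n ℓ (8 * (ℓ + 1)) (U X)), T X +
      ∑ X ∈ S.filter (fun X => ¬ Good n ℓ (8 * (ℓ + 1)) (U X)), T X :=
    (Finset.sum_filter_add_sum_filter_not S (fun X => Good n ℓ (8 * (ℓ + 1)) (U X)) T).symm
  -- good sets of polymers
  obtain ⟨h, hh⟩ : ∃ h : Finset Edge → Finset Edge → ℝ, h = fun κ T => q ^ T.card * (f T - f (T \ κ)) ^ 2 := ⟨_, rfl⟩
  have hh0 : ∀ κ T, 0 ≤ h κ T := fun κ T => by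
    rw [hh]
    exact mul_nonneg (hpw _) (sq_nonneg _)
  have hgood : ∑ X ∈ S.filter (fun X => Good n ℓ (8 * (ℓ + 1)) (U X)), T X ≤
      ∑ κ ∈ Pol n ℓ, ∑ R ∈ (Nice n ℓ D).filter (fun R => κ ⊆ R), h κ R := by
    have h1 : ∀ X ∈ S.filter (fun X => Good n ℓ (8 * (ℓ + 1)) (U X)), T X ≤
        ∑ κ ∈ Pol n ℓ, if κ ⊆ U X then h κ (U X) else 0 := by
      intro X hX
      have hXS := (Finset.mem_filter.mp hX).1
      have h2 : T X = ∑ κ ∈ X, if κ ⊆ U X then h κ (U X) else 0 := by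
        rw [hT]
        apply Finset.sum_congr rfl
        intro κ hκ
        obtain ⟨h3, h4⟩ := U_erase (hSP X hXS) hκ
        rw [if_pos h4, hh, h3]
      rw [h2]
      apply Finset.sum_le_sum_of_subset_of_nonneg (mem_St.1 (hSP X hXS)).1
      intro κ _ _
      split_ifs
      · exact hh0 _ _
      · exact le_rfl
    refine (Finset.sum_le_sum h1).trans ?_
    obtain ⟨G, hG⟩ : ∃ G : Finset Edge → ℝ, G = fun R => ∑ κ ∈ Pol n ℓ, if κ ⊆ R then h κ R else 0 := ⟨_, rfl⟩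
    have hG0 : ∀ R, 0 ≤ G R := by
      intro R
      rw [hG]
      apply Finset.sum_nonneg
      intro κ _
      show 0 ≤ if κ ⊆ R then h κ R else 0
      split_ifs
      · exact hh0 _ _
      · exact le_rfl
    have h3 : ∑ X ∈ S.filter (fun X => Good n ℓ (8 * (ℓ + 1)) (U X)), (∑ κ ∈ Pol n ℓ, if κ ⊆ U X then h κ (U X) else 0) =
        ∑ R ∈ (S.filter (fun X => Good n ℓ (8 * (ℓ + 1)) (U X))).image U, G R := by
      rw [Finset.sum_image]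
      · rw [hG]
      · intro X hX Y hY hXY
        exact U_inj (hSP X (Finset.mem_filter.mp hX).1) (hSP Y (Finset.mem_filter.mp hY).1) hXY
    rw [h3]
    have h4 : (S.filter (fun X => Good n ℓ (8 * (ℓ + 1)) (U X))).image U ⊆ Nice n ℓ D := by
      intro R hR
      obtain ⟨X, hX, rfl⟩ := Finset.mem_image.1 hR
      obtain ⟨hX1, hX2⟩ := Finset.mem_filter.1 hX
      exact nice_mem.2 ⟨hSV X hX1, ⟨X, hSP X hX1, rfl⟩, hX2⟩
    refine (Finset.sum_le_sum_of_subset_of_nonneg h4 fun R _ _ => hG0 R).trans (le_of_eq ?_)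
    rw [hG, Finset.sum_comm]
    apply Finset.sum_congr rfl
    intro κ _
    rw [Finset.sum_filter]
  have hbad : ∑ X ∈ S.filter (fun X => ¬ Good n ℓ (8 * (ℓ + 1)) (U X)), T X ≤
      4 * B ^ 2 * (E n).card * ((5 * n + 2) * (n + ℓ) * (26 * q) ^ (ℓ + 1) * ZV q D) := by
    calc ∑ X ∈ S.filter (fun X => ¬ Good n ℓ (8 * (ℓ + 1)) (U X)), T X
        ≤ ∑ X ∈ S.filter (fun X => ¬ Good n ℓ (8 * (ℓ + 1)) (U X)), 4 * B ^ 2 * (E n).card * q ^ (U X).card := by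
          apply Finset.sum_le_sum
          intro X hX
          have hXS := (Finset.mem_filter.mp hX).1
          have h1 : ∀ κ ∈ X, q ^ (U X).card * (f (U X) - f (U (X.erase κ))) ^ 2 ≤ q ^ (U X).card * (4 * B ^ 2) := by
            intro κ _
            apply mul_le_mul_of_nonneg_left _ (hpw _)
            refine vgas_sq (hf _ (hSV X hXS)) (hf _ (hSV _ ?_))
            rw [hS] at hXS ⊢
            exact vgas_erase hXS κ
          calc T X = ∑ κ ∈ X, q ^ (U X).card * (f (U X) - f (U (X.erase κ))) ^ 2 := by rw [hT]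
            _ ≤ ∑ κ ∈ X, q ^ (U X).card * (4 * B ^ 2) := Finset.sum_le_sum h1
            _ = (X.card : ℝ) * (q ^ (U X).card * (4 * B ^ 2)) := by rw [Finset.sum_const, nsmul_eq_mul]
            _ ≤ ((E n).card : ℝ) * (q ^ (U X).card * (4 * B ^ 2)) := by
                apply mul_le_mul_of_nonneg_right _ (mul_nonneg (hpw _) hB2)
                exact_mod_cast vgas_card (hSP X hXS)
            _ = 4 * B ^ 2 * (E n).card * q ^ (U X).card := by ring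
      _ = 4 * B ^ 2 * (E n).card * ∑ X ∈ S.filter (fun X => ¬ Good n ℓ (8 * (ℓ + 1)) (U X)), q ^ (U X).card := by
          rw [Finset.mul_sum]
      _ ≤ 4 * B ^ 2 * (E n).card * ((5 * n + 2) * (n + ℓ) * (26 * q) ^ (ℓ + 1) * ZV q D) := by
          apply mul_le_mul_of_nonneg_left _ (mul_nonneg hB2 hE0)
          have hb := bad_D n ℓ q hq0 hq1 D
          rw [← hS] at hb
          exact hb.trans (mul_le_mul_of_nonneg_left hZl (by positivity))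
  -- constants
  obtain ⟨R, hR⟩ : ∃ R : ℝ, R = (26 * q) ^ (ℓ + 1) := ⟨_, rfl⟩
  obtain ⟨A, hA⟩ : ∃ A : ℝ, A = (5 * n + 2) * (n + ℓ) := ⟨_, rfl⟩
  have hR0 : 0 ≤ R := by rw [hR]; positivity
  have hA0 : 0 ≤ A := by rw [hA]; positivity
  have h18 : (18 * q) ^ (ℓ + 1) ≤ R := by
    rw [hR]
    exact pow_le_pow_left₀ (by positivity) (by linarith) _
  have h18' : (0 : ℝ) ≤ (18 * q) ^ (ℓ + 1) := by positivity
  have hbtl : btl n ℓ q = (4 * (n : ℝ) ^ 2 + A) * R := by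
    unfold btl
    rw [hR, hA]
  rw [← hR, ← hA] at hbad
  obtain ⟨Z, hZ⟩ : ∃ Z : ℝ, Z = ZV q D := ⟨_, rfl⟩
  rw [← hZ] at hZn0 hbad hrest hstep0 ⊢
  have k1 : 4 * B ^ 2 * ((E n).card * (18 * q) ^ (ℓ + 1) * Z) ≤ 4 * (btl n ℓ q * B ^ 2 * Z) := by
    rw [hbtl]
    have e1 : ((E n).card : ℝ) * (18 * q) ^ (ℓ + 1) ≤ (4 * (n : ℝ) ^ 2) * R :=
      mul_le_mul hE4 h18 h18' (by positivity)
    have e2 : (4 * (n : ℝ) ^ 2) * R ≤ (4 * (n : ℝ) ^ 2 + A) * R := mul_le_mul_of_nonneg_right (by linarith) hR0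
    have e3 := mul_le_mul_of_nonneg_left (e1.trans e2) (mul_nonneg hB2 hZn0.le)
    calc 4 * B ^ 2 * ((E n).card * (18 * q) ^ (ℓ + 1) * Z) = 4 * B ^ 2 * Z * ((E n).card * (18 * q) ^ (ℓ + 1)) := by ring
      _ ≤ _ := e3
      _ = _ := by ring
  have k2 : 4 * B ^ 2 * (E n).card * (A * R * Z) ≤ 16 * (n : ℝ) ^ 2 * (btl n ℓ q * B ^ 2 * Z) := by
    rw [hbtl]
    have e1 : ((E n).card : ℝ) * (A * R) ≤ (4 * (n : ℝ) ^ 2) * ((4 * (n : ℝ) ^ 2 + A) * R) := by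
      apply mul_le_mul hE4 _ (by positivity) (by positivity)
      apply mul_le_mul_of_nonneg_right _ hR0
      have : 0 ≤ 4 * (n : ℝ) ^ 2 := by positivity
      linarith
    have e3 := mul_le_mul_of_nonneg_left e1 (mul_nonneg hB2 hZn0.le)
    calc 4 * B ^ 2 * (E n).card * (A * R * Z) = 4 * B ^ 2 * Z * ((E n).card * (A * R)) := by ring
      _ ≤ _ := e3
      _ = _ := by ring
  have k3 : 0 ≤ btl n ℓ q * B ^ 2 * Z := by
    have := btl_nonneg n ℓ q hq0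
    positivity
  have k4 : 4 * (btl n ℓ q * B ^ 2 * Z) ≤ 8 * (n : ℝ) ^ 2 * (btl n ℓ q * B ^ 2 * Z) := by
    apply mul_le_mul_of_nonneg_right _ k3
    nlinarith
  have hfin : ∑ κ ∈ Pol n ℓ, ∑ R ∈ (Nice n ℓ D).filter (fun R => κ ⊆ R), h κ R =
      ∑ κ ∈ Pol n ℓ, ∑ S ∈ (Nice n ℓ D).filter (fun S => κ ⊆ S), q ^ S.card * (f S - f (S \ κ)) ^ 2 := by
    rw [hh]
  rw [hfin] at hgood
  rw [hsplit2] at hgas
  calc _ ≤ _ := hstep0.trans hsplit.le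
    _ ≤ 2 * (∑ κ ∈ Pol n ℓ, ∑ S ∈ (Nice n ℓ D).filter (fun S => κ ⊆ S), q ^ S.card * (f S - f (S \ κ)) ^ 2 +
        16 * (n : ℝ) ^ 2 * (btl n ℓ q * B ^ 2 * Z)) + 8 * (n : ℝ) ^ 2 * (btl n ℓ q * B ^ 2 * Z) := by
      refine add_le_add (hgas.trans ?_) (hrest.trans (k1.trans k4))
      apply mul_le_mul_of_nonneg_left _ (by norm_num)
      exact add_le_add hgood (hbad.trans k2)
    _ = _ := by ring

end

end Pool.Agent.H40.WM
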