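import Mathlib
import Pool.Agent.H40.WM.VDefs
import Pool.Agent.H40.WM.VGas
import Pool.Agent.H40.WM.VLc
import Pool.Agent.H40.WM.VEe
import Pool.Agent.H40.WM.VSum
import Pool.Agent.H40.WM.GDec
import Pool.Agent.H40.SQ.LSum
import Pool.Agent.H40.SQ.HSign

/-!
# VV: variance of the gas, summed over the interface

`D = gD n c`, `P0 = gP n s c`, `f g = u (P0 ∪ g)`.  For `G ∈ PD D a b` apply `gas_D` to `D \ N1 G ⊆ E n` (`gD_sub`) and `S ↦ f (G ∪ S)` (`|.| ≤ B` by `pee_mem`): `gvr q D f G = q^|G| ∑_S q^|S| (f (G ∪ S) - gmn)^2`.  Multiply by `q^(|P0| + |G|)` and sum over `G`.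
* The second term: `40 n^2 btl B^2 q^|P0| ∑_G q^|G| ZV (D \ N1 G) = 40 n^2 btl B^2 ZE` (`ee_sum`, `ee_card`, or `ZE_eq` with `exp_psiD`).
* The first: for fixed `κ ∈ Pol n ℓ` let `T` = the set of the pairs `(P0 ∪ (G ∪ S), P0 ∪ (G ∪ (S \ κ)))`, `G ∈ PD`, `S ∈ Nice n ℓ (D \ N1 G)`, `κ ⊆ S` (image; injective by `pee_inj`, `ee_card` for the weight).  `loc_cmp` with `R = κ`, `δ = F κ` (`sign_of_conn`: `κ ∈ Om n` is connected; values in `{0,1}` or `{0,-1}`), `A = S` (good):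
  `F P.1 = F (P0 ∪ G) + F S`, `F P.2 = F (P0 ∪ G) + F (S \ κ)` (`pee_F`; `S \ κ ∈ VCs` by `VC_sdiff`), `F S = F (S \ κ) + F κ` (`F_union`): `|F P.1 - F S| ≤ 1`, `|F P.2 - F S| ≤ 2` (`pee_lev`).
* `2 |Pol n ℓ| * 200 n^4 * 4^(65(ℓ+1)) / q^(18ℓ) ≤ Avl` (`pol_card`, `card_E`).
-/

set_option autoImplicit false

namespace Pool.Agent.H40.WM

open Pool.Agent.H40.SQ

noncomputable section

private theorem vv_dir (q : ℝ) (hq0 : 0 < q) (n : ℕ) (EE : Finset (Finset Edge)) (u : Finset Edge → ℝ) :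
    0 ≤ Dir q n EE u := by
  unfold Dir
  exact Finset.sum_nonneg fun x _ => Finset.sum_nonneg fun g _ => mul_nonneg (pow_pos hq0 _).le (sq_nonneg _)

private theorem vv_sign {n ℓ : ℕ} {κ : Finset Edge} (hκ : κ ∈ Pol n ℓ) (i j : ℤ) :
    F κ i j = 0 ∨ F κ i j = 1 ∨ F κ i j = -1 := by
  obtain ⟨k1, k2, k3, k4, k5⟩ := mem_Pol.1 hκ
  rcases sign_of_conn (n := n) (mem_Om.2 ⟨k1, k4⟩) k3 k2 with h1 | h1
  · rcases h1 i j with h2 | h2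
    · exact Or.inl h2
    · exact Or.inr (Or.inl h2)
  · rcases h1 i j with h2 | h2
    · exact Or.inl h2
    · exact Or.inr (Or.inr h2)

private theorem vv_abs {a b k : ℤ} (ha : |a| ≤ 1) (hk : k = 0 ∨ k = 1 ∨ k = -1) :
    |a + (b + k) - (b + k)| ≤ 2 ∧ |a + b - (b + k)| ≤ 2 := by
  have h := abs_le.1 ha
  constructor
  · rw [abs_le]
    omega
  · rw [abs_le]
    omega

private theorem vv_iff {P G S κ : Finset Edge} {e : Edge} (he : e ∉ κ) :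
    e ∈ P ∪ (G ∪ S) ↔ e ∈ P ∪ (G ∪ (S \ κ)) := by
  rw [Finset.mem_union, Finset.mem_union, Finset.mem_union, Finset.mem_union, Finset.mem_sdiff]
  constructor
  · rintro (h | h | h)
    · exact Or.inl h
    · exact Or.inr (Or.inl h)
    · exact Or.inr (Or.inr ⟨h, he⟩)
  · rintro (h | h | h)
    · exact Or.inl h
    · exact Or.inr (Or.inl h)
    · exact Or.inr (Or.inr h.1)

private theorem vv_fam {n ℓ : ℕ} {s c : ℤ} (h : Par n s c) {κ G S : Finset Edge} (hκ : κ ∈ Pol n ℓ)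
    (hG : G ∈ PD (gD n c) (ga n c) (gb n c)) (hS : S ∈ VCs (gD n c \ N1 G)) (hκS : κ ⊆ S) :
    gP n s c ∪ (G ∪ S) ∈ EEc n s c ∧ gP n s c ∪ (G ∪ (S \ κ)) ∈ EEc n s c ∧
    (∀ e, e ∉ κ → (e ∈ gP n s c ∪ (G ∪ S) ↔ e ∈ gP n s c ∪ (G ∪ (S \ κ)))) ∧
    (∀ i j : ℤ, F (gP n s c ∪ (G ∪ S)) i j - F (gP n s c ∪ (G ∪ (S \ κ))) i j = F κ i j) ∧
    ∀ i j : ℤ, |F (gP n s c ∪ (G ∪ S)) i j - F S i j| ≤ 2 ∧ |F (gP n s c ∪ (G ∪ (S \ κ))) i j - F S i j| ≤ 2 := by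
  obtain ⟨k1, k2, k3, k4, k5⟩ := mem_Pol.1 hκ
  obtain ⟨h6, h7⟩ := mem_VCs.1 hS
  have h8 : S \ κ ∈ VCs (gD n c \ N1 G) := mem_VCs.2 ⟨Finset.sdiff_subset.trans h6, VC_sdiff hκS h7 k4⟩
  have hF : ∀ i j, F S i j = F (S \ κ) i j + F κ i j := by
    intro i j
    have h9 : S = S \ κ ∪ κ := (Finset.sdiff_union_of_subset hκS).symm
    conv_lhs => rw [h9]
    exact F_union Finset.sdiff_disjoint i j
  refine ⟨pee_mem h hG hS, pee_mem h hG h8, fun e he => vv_iff he, ?_, ?_⟩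
  · intro i j
    rw [pee_F h hG hS i j, pee_F h hG h8 i j, hF i j]
    ring
  · intro i j
    obtain ⟨hl, -⟩ := pee_lev h hG hG i j
    rw [pee_F h hG hS i j, pee_F h hG h8 i j, hF i j]
    exact vv_abs hl (vv_sign hκ i j)

open Classical in
private theorem vv_pol {n : ℕ} {s c : ℤ} (h : Par n s c) (q : ℝ) (hq0 : 0 < q) (hq1 : q ≤ 1) (ℓ : ℕ) (u : Finset Edge → ℝ)
    {κ : Finset Edge} (hκ : κ ∈ Pol n ℓ) :
    ∑ G ∈ PD (gD n c) (ga n c) (gb n c), ∑ S ∈ (Nice n ℓ (gD n c \ N1 G)).filter (fun S => κ ⊆ S),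
      q ^ ((gP n s c).card + (G.card + S.card)) * (u (gP n s c ∪ (G ∪ S)) - u (gP n s c ∪ (G ∪ (S \ κ)))) ^ 2 ≤
      200 * (n : ℝ) ^ 4 * (4 ^ (65 * (ℓ + 1)) / q ^ (18 * ℓ)) * Dir q n (EEc n s c) u := by
  have hn : 1 ≤ n := by
    have := h.hn
    omega
  have hs : s = 1 ∨ s = -1 := by
    rcases h.par with h1 | h1
    · exact Or.inl h1.1
    · exact Or.inr h1.1
  obtain ⟨k1, k2, k3, k4, k5⟩ := mem_Pol.1 hκ
  obtain ⟨I, hI⟩ : ∃ I : Finset (Finset Edge × Finset Edge),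
      I = ((PD (gD n c) (ga n c) (gb n c)) ×ˢ (gD n c).powerset).filter
        (fun p => p.2 ∈ Nice n ℓ (gD n c \ N1 p.1) ∧ κ ⊆ p.2) := ⟨_, rfl⟩
  have hmem : ∀ p, p ∈ I ↔ p.1 ∈ PD (gD n c) (ga n c) (gb n c) ∧ p.2 ∈ Nice n ℓ (gD n c \ N1 p.1) ∧ κ ⊆ p.2 := by
    intro p
    rw [hI, Finset.mem_filter, Finset.mem_product]
    constructor
    · rintro ⟨⟨h1, _⟩, h3⟩
      exact ⟨h1, h3⟩
    · rintro ⟨h1, h2, h3⟩
      refine ⟨⟨h1, Finset.mem_powerset.2 ?_⟩, h2, h3⟩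
      exact (mem_VCs.1 (nice_mem.1 h2).1).1.trans Finset.sdiff_subset
  obtain ⟨φ, hφ⟩ : ∃ φ : Finset Edge × Finset Edge → Finset Edge × Finset Edge,
      φ = fun p => (gP n s c ∪ (p.1 ∪ p.2), gP n s c ∪ (p.1 ∪ (p.2 \ κ))) := ⟨_, rfl⟩
  have hinj : Set.InjOn φ (I : Set (Finset Edge × Finset Edge)) := by
    intro p hp p' hp' he
    obtain ⟨a1, a2, a3⟩ := (hmem p).1 hp
    obtain ⟨b1, b2, b3⟩ := (hmem p').1 hp'
    rw [hφ] at he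
    have he1 := congrArg Prod.fst he
    obtain ⟨e1, e2⟩ := pee_inj h a1 (nice_mem.1 a2).1 b1 (nice_mem.1 b2).1 he1
    exact Prod.ext e1 e2
  have hsum : ∑ G ∈ PD (gD n c) (ga n c) (gb n c), ∑ S ∈ (Nice n ℓ (gD n c \ N1 G)).filter (fun S => κ ⊆ S),
      q ^ ((gP n s c).card + (G.card + S.card)) * (u (gP n s c ∪ (G ∪ S)) - u (gP n s c ∪ (G ∪ (S \ κ)))) ^ 2 =
      ∑ P ∈ I.image φ, q ^ P.1.card * (u P.1 - u P.2) ^ 2 := by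
    rw [Finset.sum_image hinj, Finset.sum_sigma']
    refine Finset.sum_bij' (fun x _ => (x.1, x.2)) (fun p _ => ⟨p.1, p.2⟩) ?_ ?_ ?_ ?_ ?_
    · rintro ⟨G, S⟩ hx
      obtain ⟨h1, h2⟩ := Finset.mem_sigma.1 hx
      obtain ⟨h3, h4⟩ := Finset.mem_filter.1 h2
      exact (hmem _).2 ⟨h1, h3, h4⟩
    · rintro ⟨G, S⟩ hx
      obtain ⟨h1, h3, h4⟩ := (hmem _).1 hx
      exact Finset.mem_sigma.2 ⟨h1, Finset.mem_filter.2 ⟨h3, h4⟩⟩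
    · rintro ⟨G, S⟩ _
      rfl
    · rintro ⟨G, S⟩ _
      rfl
    · rintro ⟨G, S⟩ hx
      obtain ⟨h1, h2⟩ := Finset.mem_sigma.1 hx
      obtain ⟨h3, h4⟩ := Finset.mem_filter.1 h2
      rw [hφ]
      show _ = q ^ (gP n s c ∪ (G ∪ S)).card * _
      rw [ee_card h h1 (nice_mem.1 h3).1]
  rw [hsum]
  refine loc_cmp hn q hq0 hq1 hs (ee_up (n := n) (s := s) (c := c)) k3 k5 (F κ) ?_ _ ?_ u
  · exact vv_sign hκ
  · intro P hP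
    obtain ⟨⟨G, S⟩, hp, rfl⟩ := Finset.mem_image.1 hP
    obtain ⟨h1, h2, h3⟩ := (hmem _).1 hp
    obtain ⟨h4, -, h5⟩ := nice_mem.1 h2
    rw [hφ]
    obtain ⟨m1, m2, m3, m4, m5⟩ := vv_fam h hκ h1 h4 h3
    exact ⟨m1, m2, m3, m4, S, h5, m5⟩

theorem gas_var {n : ℕ} {s c : ℤ} (h : Par n s c) (q : ℝ) (hq0 : 0 < q) (hq1 : q ≤ 1 / 1000) (ℓ : ℕ) (u : Finset Edge → ℝ)
    (B : ℝ) (hB : 0 ≤ B) (hu : ∀ g ∈ EEc n s c, |u g| ≤ B) :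
    q ^ (gP n s c).card * ∑ G ∈ PD (gD n c) (ga n c) (gb n c), gvr q (gD n c) (fun g => u (gP n s c ∪ g)) G ≤
      Avl n ℓ q * Dir q n (EEc n s c) u + 40 * (n : ℝ) ^ 2 * btl n ℓ q * B ^ 2 * ZE q (EEc n s c) := by
  classical
  have hn : 1 ≤ n := by
    have := h.hn
    omega
  have hpw : ∀ k : ℕ, 0 ≤ q ^ k := fun k => (pow_pos hq0 k).le
  obtain ⟨D, hD⟩ : ∃ D, D = gD n c := ⟨_, rfl⟩
  obtain ⟨P0, hP0⟩ : ∃ P0, P0 = gP n s c := ⟨_, rfl⟩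
  have hDE : D ⊆ E n := by rw [hD]; exact gD_sub h
  -- one path
  have hone : ∀ G ∈ PD D (ga n c) (gb n c), gvr q D (fun g => u (P0 ∪ g)) G ≤
      q ^ G.card * (2 * ∑ κ ∈ Pol n ℓ, ∑ S ∈ (Nice n ℓ (D \ N1 G)).filter (fun S => κ ⊆ S),
        q ^ S.card * (u (P0 ∪ (G ∪ S)) - u (P0 ∪ (G ∪ (S \ κ)))) ^ 2 +
        40 * (n : ℝ) ^ 2 * btl n ℓ q * B ^ 2 * ZV q (D \ N1 G)) := by
    intro G hG
    have h1 := gas_D n ℓ hn q hq0 hq1 (D := D \ N1 G) (Finset.sdiff_subset.trans hDE)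
      (fun S => u (P0 ∪ (G ∪ S))) B hB (fun S hS => by
        apply hu
        rw [hP0]
        rw [hD] at hG hS
        exact pee_mem h hG hS)
    have h2 : gvr q D (fun g => u (P0 ∪ g)) G = q ^ G.card * ∑ S ∈ VCs (D \ N1 G), q ^ S.card *
        (u (P0 ∪ (G ∪ S)) - (∑ T ∈ VCs (D \ N1 G), q ^ T.card * u (P0 ∪ (G ∪ T))) / ZV q (D \ N1 G)) ^ 2 := by
      unfold gvr gmn
      rw [Finset.mul_sum]
      apply Finset.sum_congr rfl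
      intro S _
      rw [pow_add]
      ring
    rw [h2]
    exact mul_le_mul_of_nonneg_left h1 (hpw _)
  rw [← hD, ← hP0]
  have hsum := mul_le_mul_of_nonneg_left (Finset.sum_le_sum hone) (hpw P0.card)
  refine hsum.trans ?_
  have hsplit : q ^ P0.card * ∑ G ∈ PD D (ga n c) (gb n c), q ^ G.card *
      (2 * ∑ κ ∈ Pol n ℓ, ∑ S ∈ (Nice n ℓ (D \ N1 G)).filter (fun S => κ ⊆ S),
        q ^ S.card * (u (P0 ∪ (G ∪ S)) - u (P0 ∪ (G ∪ (S \ κ)))) ^ 2 +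
        40 * (n : ℝ) ^ 2 * btl n ℓ q * B ^ 2 * ZV q (D \ N1 G)) =
      2 * ∑ κ ∈ Pol n ℓ, ∑ G ∈ PD D (ga n c) (gb n c), ∑ S ∈ (Nice n ℓ (D \ N1 G)).filter (fun S => κ ⊆ S),
        q ^ (P0.card + (G.card + S.card)) * (u (P0 ∪ (G ∪ S)) - u (P0 ∪ (G ∪ (S \ κ)))) ^ 2 +
      40 * (n : ℝ) ^ 2 * btl n ℓ q * B ^ 2 * (q ^ P0.card * ∑ G ∈ PD D (ga n c) (gb n c), q ^ G.card * ZV q (D \ N1 G)) := by
    rw [Finset.sum_comm (s := Pol n ℓ)]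
    rw [Finset.mul_sum, Finset.mul_sum, Finset.mul_sum, Finset.mul_sum, ← Finset.sum_add_distrib]
    apply Finset.sum_congr rfl
    intro G _
    have e1 : q ^ P0.card * (q ^ G.card * ∑ κ ∈ Pol n ℓ, ∑ S ∈ (Nice n ℓ (D \ N1 G)).filter (fun S => κ ⊆ S),
        q ^ S.card * (u (P0 ∪ (G ∪ S)) - u (P0 ∪ (G ∪ (S \ κ)))) ^ 2) =
        ∑ κ ∈ Pol n ℓ, ∑ S ∈ (Nice n ℓ (D \ N1 G)).filter (fun S => κ ⊆ S),
          q ^ (P0.card + (G.card + S.card)) * (u (P0 ∪ (G ∪ S)) - u (P0 ∪ (G ∪ (S \ κ)))) ^ 2 := by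
      rw [Finset.mul_sum, Finset.mul_sum]
      apply Finset.sum_congr rfl
      intro κ _
      rw [Finset.mul_sum, Finset.mul_sum]
      apply Finset.sum_congr rfl
      intro S _
      rw [pow_add, pow_add]
      ring
    rw [← e1]
    ring
  rw [hsplit]
  have hfirst : 2 * ∑ κ ∈ Pol n ℓ, ∑ G ∈ PD D (ga n c) (gb n c), ∑ S ∈ (Nice n ℓ (D \ N1 G)).filter (fun S => κ ⊆ S),
        q ^ (P0.card + (G.card + S.card)) * (u (P0 ∪ (G ∪ S)) - u (P0 ∪ (G ∪ (S \ κ)))) ^ 2 ≤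
      Avl n ℓ q * Dir q n (EEc n s c) u := by
    have hd := vv_dir q hq0 n (EEc n s c) u
    have h1 : ∑ κ ∈ Pol n ℓ, ∑ G ∈ PD D (ga n c) (gb n c), ∑ S ∈ (Nice n ℓ (D \ N1 G)).filter (fun S => κ ⊆ S),
        q ^ (P0.card + (G.card + S.card)) * (u (P0 ∪ (G ∪ S)) - u (P0 ∪ (G ∪ (S \ κ)))) ^ 2 ≤
        ∑ κ ∈ Pol n ℓ, 200 * (n : ℝ) ^ 4 * (4 ^ (65 * (ℓ + 1)) / q ^ (18 * ℓ)) * Dir q n (EEc n s c) u := by
      apply Finset.sum_le_sum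
      intro κ hκ
      rw [hD, hP0]
      exact vv_pol h q hq0 (by linarith) ℓ u hκ
    rw [Finset.sum_const, nsmul_eq_mul] at h1
    have h2 : ((Pol n ℓ).card : ℝ) ≤ 4 * (n : ℝ) ^ 2 * 18 ^ ℓ := by
      refine (pol_card n ℓ).trans ?_
      apply mul_le_mul_of_nonneg_right _ (by positivity)
      exact_mod_cast card_E n
    have h3 : 0 ≤ 200 * (n : ℝ) ^ 4 * (4 ^ (65 * (ℓ + 1)) / q ^ (18 * ℓ)) * Dir q n (EEc n s c) u := by positivity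
    have h4 := h1.trans (mul_le_mul_of_nonneg_right h2 h3)
    have h5 : Avl n ℓ q * Dir q n (EEc n s c) u = 2 * (4 * (n : ℝ) ^ 2 * 18 ^ ℓ *
        (200 * (n : ℝ) ^ 4 * (4 ^ (65 * (ℓ + 1)) / q ^ (18 * ℓ)) * Dir q n (EEc n s c) u)) := by
      unfold Avl
      ring
    rw [h5]
    linarith
  have hsecond : q ^ P0.card * ∑ G ∈ PD D (ga n c) (gb n c), q ^ G.card * ZV q (D \ N1 G) = ZE q (EEc n s c) := by
    unfold ZE
    rw [ee_sum h, Finset.mul_sum, ← hD]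
    apply Finset.sum_congr rfl
    intro G hG
    unfold ZV
    rw [Finset.mul_sum, Finset.mul_sum]
    apply Finset.sum_congr rfl
    intro S hS
    rw [hD] at hG hS
    rw [ee_card h hG hS, pow_add, pow_add, hP0]
  rw [hsecond]
  exact add_le_add hfirst le_rfl

end

end Pool.Agent.H40.WM
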