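import Mathlib
import Pool.Agent.H40.WM.VDefs
import Pool.Agent.H40.WM.VV
import Pool.Agent.H40.WM.VL
import Pool.Agent.H40.WM.VM

/-!
# VS: sum over the paths for one local modification

Sum `gmn_diff` (`|P.1|, |P.2| ≤ m1` by `Loc`) over `Z ∈ LZ`.  The map `Z ↦ Z' = (Z \ P.1) ∪ P.2` is injective on `LZ` (`Z = (Z' \ P.2) ∪ P.1`: `P.2` is disjoint from `Z \ P.1`, `P.1 ⊆ Z`) with values in `PD`, and `gvr ≥ 0`: `∑_{Z ∈ LZ} gvr Z' ≤ ∑_{G ∈ PD} gvr G`.  Multiply by `q^|gP|`: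
`gas_var` twice and `loc_var` once: `3 (36/q)^m1 (2 (Avl Dir + 40 n^2 btl B^2 ZE) + Avl Dir + 4 btl B^2 ZE) ≤ 9 (36/q)^m1 (Avl Dir + 40 n^2 btl B^2 ZE)`.
-/

set_option autoImplicit false

namespace Pool.Agent.H40.WM

open Pool.Agent.H40.SQ

noncomputable section

private theorem vs_gvr_nonneg (q : ℝ) (hq0 : 0 < q) (D : Finset Edge) (f : Finset Edge → ℝ) (G : Finset Edge) :
    0 ≤ gvr q D f G := by
  unfold gvr
  exact Finset.sum_nonneg fun A _ => mul_nonneg (pow_pos hq0 _).le (sq_nonneg _)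

private theorem vs_mem_LZ {D : Finset Edge} {a b : ℤ × ℤ} {P : Finset Edge × Finset Edge} {Z : Finset Edge} :
    Z ∈ LZ D a b P ↔ Z ∈ PD D a b ∧ P.1 ⊆ Z ∧ Disjoint (Z \ P.1) P.2 ∧ (Z \ P.1) ∪ P.2 ∈ PD D a b := by
  classical
  unfold LZ
  rw [Finset.mem_filter]

theorem loc_sum {n : ℕ} {s c : ℤ} (h : Par n s c) (q : ℝ) (hq0 : 0 < q) (hq1 : q ≤ 1 / 10 ^ 6) {m1 ℓ : ℕ} (hℓ : 2 * m1 ≤ ℓ)
    (u : Finset Edge → ℝ) (B : ℝ) (hB : 0 ≤ B) (hu : ∀ g ∈ EEc n s c, |u g| ≤ B) (P : Finset Edge × Finset Edge)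
    (hP : Loc m1 (gD n c) P.1 P.2) :
    q ^ (gP n s c).card * (ZV q (gD n c) * ∑ Z ∈ LZ (gD n c) (ga n c) (gb n c) P,
        omD q (gD n c) Z * (gmn q (gD n c) (fun g => u (gP n s c ∪ g)) Z -
          gmn q (gD n c) (fun g => u (gP n s c ∪ g)) ((Z \ P.1) ∪ P.2)) ^ 2) ≤
      9 * (36 / q) ^ m1 * (Avl n ℓ q * Dir q n (EEc n s c) u + 40 * (n : ℝ) ^ 2 * btl n ℓ q * B ^ 2 * ZE q (EEc n s c)) := by
  classical
  have hq3 : q ≤ 1 / 1000 := hq1.trans (by norm_num)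
  have e1 := gas_var h q hq0 hq3 ℓ u B hB hu
  have e2 := loc_var h q hq0 hq3 hℓ u B hB hu P hP
  have h5 := h.hn
  set D := gD n c with hD
  set f : Finset Edge → ℝ := fun g => u (gP n s c ∪ g) with hf
  have hx0 : (0 : ℝ) ≤ (36 / q) ^ m1 := by positivity
  have hw : (0 : ℝ) ≤ q ^ (gP n s c).card := (pow_pos hq0 _).le
  -- pointwise
  have h1 : ∀ Z ∈ LZ D (ga n c) (gb n c) P, ZV q D * (omD q D Z * (gmn q D f Z - gmn q D f ((Z \ P.1) ∪ P.2)) ^ 2) ≤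
      3 * (36 / q) ^ m1 * (gvr q D f Z + gvr q D f ((Z \ P.1) ∪ P.2) + gdf q D f Z ((Z \ P.1) ∪ P.2)) := by
    intro Z hZ
    obtain ⟨_, h3, h4, _⟩ := vs_mem_LZ.1 hZ
    have := gmn_diff q hq0 hq1 D f m1 h3 h4 hP.card hP.card'
    rw [mul_assoc] at this
    exact this
  have h2 : ZV q D * ∑ Z ∈ LZ D (ga n c) (gb n c) P, omD q D Z * (gmn q D f Z - gmn q D f ((Z \ P.1) ∪ P.2)) ^ 2 ≤
      3 * (36 / q) ^ m1 * (∑ Z ∈ LZ D (ga n c) (gb n c) P, gvr q D f Z +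
        ∑ Z ∈ LZ D (ga n c) (gb n c) P, gvr q D f ((Z \ P.1) ∪ P.2) +
        ∑ Z ∈ LZ D (ga n c) (gb n c) P, gdf q D f Z ((Z \ P.1) ∪ P.2)) := by
    rw [Finset.mul_sum, ← Finset.sum_add_distrib, ← Finset.sum_add_distrib, Finset.mul_sum]
    exact Finset.sum_le_sum h1
  have h3 : ∑ Z ∈ LZ D (ga n c) (gb n c) P, gvr q D f Z ≤ ∑ G ∈ PD D (ga n c) (gb n c), gvr q D f G :=
    Finset.sum_le_sum_of_subset_of_nonneg (fun Z hZ => (vs_mem_LZ.1 hZ).1) fun G _ _ => vs_gvr_nonneg q hq0 D f G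
  have hinj : Set.InjOn (fun Z => (Z \ P.1) ∪ P.2) (LZ D (ga n c) (gb n c) P : Set (Finset Edge)) := by
    intro Z hZ W hW he
    obtain ⟨_, z1, z2, _⟩ := vs_mem_LZ.1 (Finset.mem_coe.1 hZ)
    obtain ⟨_, w1, w2, _⟩ := vs_mem_LZ.1 (Finset.mem_coe.1 hW)
    have e3 : ((Z \ P.1) ∪ P.2) \ P.2 = ((W \ P.1) ∪ P.2) \ P.2 := congrArg (fun X => X \ P.2) he
    rw [Finset.union_sdiff_right, Finset.union_sdiff_right, Finset.sdiff_eq_self_of_disjoint z2,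
      Finset.sdiff_eq_self_of_disjoint w2] at e3
    have e4 : (Z \ P.1) ∪ P.1 = (W \ P.1) ∪ P.1 := congrArg (fun X => X ∪ P.1) e3
    rw [Finset.sdiff_union_of_subset z1, Finset.sdiff_union_of_subset w1] at e4
    exact e4
  have h4 : ∑ Z ∈ LZ D (ga n c) (gb n c) P, gvr q D f ((Z \ P.1) ∪ P.2) ≤ ∑ G ∈ PD D (ga n c) (gb n c), gvr q D f G := by
    have e5 : ∑ Z ∈ LZ D (ga n c) (gb n c) P, gvr q D f ((Z \ P.1) ∪ P.2) =
        ∑ G ∈ (LZ D (ga n c) (gb n c) P).image (fun Z => (Z \ P.1) ∪ P.2), gvr q D f G :=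
      (Finset.sum_image hinj).symm
    rw [e5]
    refine Finset.sum_le_sum_of_subset_of_nonneg ?_ fun G _ _ => vs_gvr_nonneg q hq0 D f G
    intro G hG
    obtain ⟨Z, hZ, rfl⟩ := Finset.mem_image.1 hG
    exact (vs_mem_LZ.1 hZ).2.2.2
  obtain ⟨V, hV⟩ : ∃ V, V = ∑ G ∈ PD D (ga n c) (gb n c), gvr q D f G := ⟨_, rfl⟩
  obtain ⟨L, hL⟩ : ∃ L, L = ∑ Z ∈ LZ D (ga n c) (gb n c) P, gdf q D f Z ((Z \ P.1) ∪ P.2) := ⟨_, rfl⟩
  rw [← hV] at e1 h3 h4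
  rw [← hL] at e2 h2
  have hZE : 0 ≤ ZE q (EEc n s c) := by
    unfold ZE
    exact Finset.sum_nonneg fun g _ => (pow_pos hq0 _).le
  have hbt : 0 ≤ btl n ℓ q := by
    unfold btl
    positivity
  have hn1 : (1 : ℝ) ≤ (n : ℝ) ^ 2 := by
    have : (1 : ℝ) ≤ n := by exact_mod_cast (by omega : 1 ≤ n)
    nlinarith
  have h6 : 4 * btl n ℓ q * B ^ 2 * ZE q (EEc n s c) ≤ 40 * (n : ℝ) ^ 2 * btl n ℓ q * B ^ 2 * ZE q (EEc n s c) := by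
    have h7 : 0 ≤ btl n ℓ q * B ^ 2 * ZE q (EEc n s c) := by positivity
    nlinarith
  calc q ^ (gP n s c).card * (ZV q D * ∑ Z ∈ LZ D (ga n c) (gb n c) P, omD q D Z *
        (gmn q D f Z - gmn q D f ((Z \ P.1) ∪ P.2)) ^ 2)
      ≤ q ^ (gP n s c).card * (3 * (36 / q) ^ m1 * (V + V + L)) := by
        refine mul_le_mul_of_nonneg_left (h2.trans ?_) hw
        refine mul_le_mul_of_nonneg_left ?_ (by positivity)
        linarith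
    _ = 3 * (36 / q) ^ m1 * (q ^ (gP n s c).card * V + q ^ (gP n s c).card * V + q ^ (gP n s c).card * L) := by ring
    _ ≤ 3 * (36 / q) ^ m1 * (3 * (Avl n ℓ q * Dir q n (EEc n s c) u + 40 * (n : ℝ) ^ 2 * btl n ℓ q * B ^ 2 * ZE q (EEc n s c))) := by
        refine mul_le_mul_of_nonneg_left ?_ (by positivity)
        linarith
    _ = _ := by ring

end

end Pool.Agent.H40.WM
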