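import Mathlib
import Pool.Agent.H40.WM.VDefs
import Pool.Agent.H40.WM.VS
import Pool.Agent.H40.WM.VFam
import Pool.Agent.H40.WM.VMix
import Pool.Agent.H40.WM.HMain
import Pool.Agent.H40.WM.TAct
import Pool.Agent.H40.WM.VSum
import Pool.Agent.H40.WM.VEe
import Pool.Agent.H40.WM.IVer
import Pool.Agent.H40.WM.GDom

/-!
# VWP: weak Poincare inequality on `EE(c)` with explicit constants

`D = gD n c`, `P0 = gP n s c`, `f g = u (P0 ∪ g)`, `ZE = q^|P0| ZV D ZP` (`ZE_eq`), `Dom n a b n0 D` (`g_dom`).  `ZP > 0` (`PD` is nonempty, e.g. the straight path: `Dom.str`, `Str_isP`; or `ZP ≥ 0` and `ZE > 0` because `EEc` is nonempty, or: if `EEc` is empty everything is `0`).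
`∑_g q^|g| (u g - mu)^2 ≤ ∑_g q^|g| (u g - κ)^2` (the mean minimises), `κ` as in `var_mix`; `ee_sum`, `ee_card`: it is `q^|P0|` times the left side of `var_mix`.
* `q^|P0| ∑ gvr ≤ Avl Dir + 40 n^2 btl B^2 ZE` (`gas_var`).
* pairs which are not `Bad t`: `hmain` (`1 ≤ t`, `4 n^2 ≤ 2^t0 ≤ 2^t`) with `g = gmn q D f`; the filter set there is `LZ D a b M` (`M = P`); `loc_sum` for every `M ∈ LocS (62000 t) D` (`2 * 62000 t ≤ ℓ`): together `q^|P0| ZV D /(2 ZP) * (...) ≤ (1/2) (36/q)^(61000 t) |LocS| 9 (36/q)^(62000 t) (Avl Dir + 40 n^2 btl B^2 ZE)`.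
  `|LocS| ≤ 4 n^2 54^(124000 t)` (`locS_card`, `Dom.card`) and `54^(124000 t) ≤ (36/q)^(248000 t)`.  So it is at most `18 n^2 (36/q)^(371000 t) (...)`.
* bad pairs: `(g X - g Y)^2 ≤ 4 B^2` (`gmn_abs`, `pee_mem`), `act`: `q^|P0| ZV D/(2 ZP) * 4 B^2 (36/q)^(200100 t0) (36^600 q)^t ZP^2 = 2 B^2 (...) ZE`.
* `1 + 18 n^2 (36/q)^(371000 t) ≤ 20 n^2 (36/q)^(371000 t)`.
-/

set_option autoImplicit false

namespace Pool.Agent.H40.WM

open Pool.Agent.H40.SQ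

noncomputable section

private theorem wp_min {α : Type} (S : Finset α) (w g : α → ℝ) (c : ℝ) (hZ : 0 < ∑ x ∈ S, w x) :
    ∑ x ∈ S, w x * (g x - (∑ y ∈ S, w y * g y) / (∑ y ∈ S, w y)) ^ 2 ≤ ∑ x ∈ S, w x * (g x - c) ^ 2 := by
  set m := (∑ y ∈ S, w y * g y) / (∑ y ∈ S, w y) with hm
  have h0 : ∑ y ∈ S, w y * g y = m * ∑ y ∈ S, w y := by
    rw [hm, div_mul_cancel₀ _ hZ.ne']
  have h1 : ∑ x ∈ S, w x * (g x - c) ^ 2 - ∑ x ∈ S, w x * (g x - m) ^ 2 =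
      (m - c) ^ 2 * ∑ x ∈ S, w x := by
    rw [← Finset.sum_sub_distrib]
    have : ∀ x ∈ S, w x * (g x - c) ^ 2 - w x * (g x - m) ^ 2 =
        2 * (m - c) * (w x * g x) + (c ^ 2 - m ^ 2) * w x := by
      intro x _; ring
    rw [Finset.sum_congr rfl this, Finset.sum_add_distrib, ← Finset.mul_sum, ← Finset.mul_sum, h0]
    ring
  have h2 : 0 ≤ (m - c) ^ 2 * ∑ x ∈ S, w x := by positivity
  linarith

private theorem wp_q (q : ℝ) (hq0 : 0 < q) (hq1 : 36 ^ 2000 * q ≤ 1) : q ≤ 1 / 10 ^ 6 := by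
  rw [le_div_iff₀ (by norm_num)]
  refine le_trans ?_ hq1
  rw [mul_comm]
  refine mul_le_mul_of_nonneg_right ?_ hq0.le
  calc (10 : ℝ) ^ 6 ≤ 36 ^ 6 := by norm_num
    _ ≤ 36 ^ 2000 := pow_le_pow_right₀ (by norm_num) (by norm_num)

private theorem wp_sq {x y B : ℝ} (hx : |x| ≤ B) (hy : |y| ≤ B) : (x - y) ^ 2 ≤ 4 * B ^ 2 := by
  have h1 := abs_le.1 hx
  have h2 := abs_le.1 hy
  nlinarith [h1.1, h1.2, h2.1, h2.2]

private theorem wp_one (q : ℝ) (hq0 : 0 < q) (hq1 : q ≤ 1 / 1000) : 1 ≤ 36 / q := by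
  rw [le_div_iff₀ hq0]
  linarith

private theorem wp_two (x R : ℝ) (hx : 1 ≤ x) (hR : 0 ≤ R) : R ≤ 2 * x * R := by
  nlinarith

private theorem wp_fin (X R b g t1 : ℝ) (h1 : g ≤ R) (h2 : R ≤ 2 * X * R) (h3 : t1 ≤ 18 * X * R) :
    g + b + t1 ≤ 20 * X * R + b := by
  linarith

/-- The numerical estimate of the number of local modifications. -/
private theorem wp_num (q : ℝ) (hq0 : 0 < q) (hq1 : q ≤ 1 / 10 ^ 6) (n t N : ℕ) (hN : N ≤ 4 * n ^ 2) :
    (N : ℝ) * 54 ^ (2 * (62000 * t)) * ((36 / q) ^ (61000 * t) * (36 / q) ^ (62000 * t)) ≤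
      4 * (n : ℝ) ^ 2 * (36 / q) ^ (371000 * t) := by
  have hx : (36 : ℝ) * 10 ^ 6 ≤ 36 / q := by
    rw [le_div_iff₀ hq0]
    have : q * 10 ^ 6 ≤ 1 := by
      rw [le_div_iff₀ (by norm_num)] at hq1
      exact hq1
    nlinarith
  have hx54 : (54 : ℝ) ^ 2 ≤ 36 / q := le_trans (by norm_num) hx
  have hx1 : (1 : ℝ) ≤ 36 / q := le_trans (by norm_num) hx
  have h1 : (54 : ℝ) ^ (2 * (62000 * t)) ≤ (36 / q) ^ (62000 * t) := by
    rw [pow_mul]
    exact pow_le_pow_left₀ (by positivity) hx54 _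
  have h2 : (N : ℝ) ≤ 4 * (n : ℝ) ^ 2 := by exact_mod_cast hN
  have hx0 : (0 : ℝ) < 36 / q := lt_of_lt_of_le one_pos hx1
  calc (N : ℝ) * 54 ^ (2 * (62000 * t)) * ((36 / q) ^ (61000 * t) * (36 / q) ^ (62000 * t))
      ≤ (4 * (n : ℝ) ^ 2) * (36 / q) ^ (62000 * t) * ((36 / q) ^ (61000 * t) * (36 / q) ^ (62000 * t)) := by
        refine mul_le_mul_of_nonneg_right ?_ (by positivity)
        exact mul_le_mul h2 h1 (by positivity) (by positivity)
    _ = 4 * (n : ℝ) ^ 2 * (36 / q) ^ (62000 * t + (61000 * t + 62000 * t)) := by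
        rw [pow_add, pow_add]
        ring
    _ ≤ 4 * (n : ℝ) ^ 2 * (36 / q) ^ (371000 * t) := by
        refine mul_le_mul_of_nonneg_left ?_ (by positivity)
        exact pow_le_pow_right₀ hx1 (by omega)

theorem wp_ee {n : ℕ} {s c : ℤ} (h : Par n s c) (q : ℝ) (hq0 : 0 < q) (hq1 : 36 ^ 2000 * q ≤ 1) (t0 t ℓ : ℕ) (ht0 : 1 ≤ t0)
    (hT : 4 * n ^ 2 ≤ 2 ^ t0) (htt : t0 ≤ t) (hℓ : 124000 * t ≤ ℓ) :
    WPo q n (EEc n s c) (20 * (n : ℝ) ^ 2 * (36 / q) ^ (371000 * t) * Avl n ℓ q)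
      (20 * (n : ℝ) ^ 2 * (36 / q) ^ (371000 * t) * (40 * (n : ℝ) ^ 2 * btl n ℓ q) +
        2 * (36 / q) ^ (200100 * t0) * (36 ^ 600 * q) ^ t) := by
  classical
  intro u B hB hu
  have h5 := h.hn
  have hq6 : q ≤ 1 / 10 ^ 6 := wp_q q hq0 hq1
  have hq3 : q ≤ 1 / 1000 := hq6.trans (by norm_num)
  have hdom := g_dom h
  have ht : 1 ≤ t := ht0.trans htt
  have hT' : 4 * n ^ 2 ≤ 2 ^ t := hT.trans (Nat.pow_le_pow_right (by norm_num) htt)
  have hgv := gas_var h q hq0 hq3 ℓ u B hB hu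
  have hls : ∀ P ∈ LocS (62000 * t) (gD n c), _ := fun P hP =>
    loc_sum h q hq0 hq6 (m1 := 62000 * t) (ℓ := ℓ) (by omega) u B hB hu P (Finset.mem_filter.1 hP).2
  have hpm : ∀ G ∈ PD (gD n c) (ga n c) (gb n c), ∀ A ∈ VCs (gD n c \ N1 G), |u (gP n s c ∪ (G ∪ A))| ≤ B :=
    fun G hG A hA => hu _ (pee_mem h hG hA)
  have hesum := ee_sum h (fun g => q ^ g.card * (u g - (∑ X ∈ PD (gD n c) (ga n c) (gb n c),
    omD q (gD n c) X * gmn q (gD n c) (fun g => u (gP n s c ∪ g)) X) / ZP q (gD n c) (ga n c) (gb n c)) ^ 2)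
  have hcard : ∀ G ∈ PD (gD n c) (ga n c) (gb n c), ∀ A ∈ VCs (gD n c \ N1 G),
      (gP n s c ∪ (G ∪ A)).card = (gP n s c).card + (G.card + A.card) := fun G hG A hA => ee_card h hG hA
  have hZE := ZE_eq h q hq0
  have hact := act q hq0 hq1 hdom t0 ht0 hT t ((PD (gD n c) (ga n c) (gb n c) ×ˢ PD (gD n c) (ga n c) (gb n c)).filter
    (fun P => Bad (ex2 (uu (ga n c)) P.1 P.2) t)) (by
      intro P hP
      obtain ⟨h1, h2⟩ := Finset.mem_filter.1 hP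
      obtain ⟨h3, h4⟩ := Finset.mem_product.1 h1
      exact ⟨h3, h4, Or.inr h2⟩)
  have hmn := hmain q hq0 hq6 hdom ht hT' (gmn q (gD n c) (fun g => u (gP n s c ∪ g)))
  have hLcard := locS_card (62000 * t) (gD n c)
  have hDcard := hdom.card
  have hStr : Str (ga n c) (gn0 n c) ∈ PD (gD n c) (ga n c) (gb n c) := by
    refine mem_PD.2 ⟨hdom.str, ?_⟩
    rw [hdom.hb]
    exact Str_isP _ _
  set D := gD n c with hD
  set a := ga n c with ha
  set b := gb n c with hb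
  set P0 := gP n s c with hP0
  set EE := EEc n s c with hEE
  set f : Finset Edge → ℝ := fun g => u (P0 ∪ g) with hf
  have hom : ∀ G, 0 < omD q D G := fun G => by
    unfold omD
    exact mul_pos (pow_pos hq0 _) (Real.exp_pos _)
  have hZP : 0 < ZP q D a b := by
    unfold ZP
    exact Finset.sum_pos (fun G _ => hom G) ⟨_, hStr⟩
  have hZV : 0 < ZV q D := ZV_pos q hq0.le D
  have hw0 : 0 < q ^ P0.card := pow_pos hq0 _
  have hZEpos : 0 < ZE q EE := by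
    rw [hZE]
    positivity
  have hDir : 0 ≤ Dir q n EE u := by
    unfold Dir
    exact Finset.sum_nonneg fun x _ => Finset.sum_nonneg fun η _ => mul_nonneg (pow_pos hq0 _).le (sq_nonneg _)
  obtain ⟨κ, hκ⟩ : ∃ κ, κ = (∑ X ∈ PD D a b, omD q D X * gmn q D f X) / ZP q D a b := ⟨_, rfl⟩
  -- step 1: the mean minimises
  have s1 : ∑ g ∈ EE, q ^ g.card * (u g - mu q EE u) ^ 2 ≤ ∑ g ∈ EE, q ^ g.card * (u g - κ) ^ 2 := by
    have := wp_min EE (fun g => q ^ g.card) u κ (by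
      have := hZEpos
      unfold ZE at this
      exact this)
    unfold mu ZE
    exact this
  -- step 2: decomposition
  have s2 : ∑ g ∈ EE, q ^ g.card * (u g - κ) ^ 2 =
      q ^ P0.card * (∑ G ∈ PD D a b, gvr q D f G + ZV q D / (2 * ZP q D a b) *
        ∑ P ∈ PD D a b ×ˢ PD D a b, omD q D P.1 * omD q D P.2 * (gmn q D f P.1 - gmn q D f P.2) ^ 2) := by
    rw [← var_mix q hq0 D a b f hZP, ← hκ]
    rw [← hκ] at hesum
    rw [hesum, Finset.mul_sum]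
    refine Finset.sum_congr rfl fun G hG => ?_
    rw [Finset.mul_sum]
    refine Finset.sum_congr rfl fun A hA => ?_
    rw [hcard G hG A hA, pow_add, mul_assoc]
  -- step 3: split of the pairs
  obtain ⟨Tg, hTg⟩ : ∃ Tg, Tg = ∑ P ∈ (PD D a b ×ˢ PD D a b).filter (fun P => ¬ Bad (ex2 (uu a) P.1 P.2) t),
    omD q D P.1 * omD q D P.2 * (gmn q D f P.1 - gmn q D f P.2) ^ 2 := ⟨_, rfl⟩
  obtain ⟨Tb, hTb⟩ : ∃ Tb, Tb = ∑ P ∈ (PD D a b ×ˢ PD D a b).filter (fun P => Bad (ex2 (uu a) P.1 P.2) t),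
    omD q D P.1 * omD q D P.2 * (gmn q D f P.1 - gmn q D f P.2) ^ 2 := ⟨_, rfl⟩
  have s3 : ∑ P ∈ PD D a b ×ˢ PD D a b, omD q D P.1 * omD q D P.2 * (gmn q D f P.1 - gmn q D f P.2) ^ 2 = Tb + Tg := by
    rw [hTg, hTb]
    exact (Finset.sum_filter_add_sum_filter_not _ _ _).symm
  obtain ⟨R, hR⟩ : ∃ R, R = Avl n ℓ q * Dir q n EE u + 40 * (n : ℝ) ^ 2 * btl n ℓ q * B ^ 2 * ZE q EE := ⟨_, rfl⟩
  have hR0 : 0 ≤ R := by
    rw [hR]
    have h1 : 0 ≤ Avl n ℓ q := by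
      unfold Avl
      positivity
    have h2 : 0 ≤ btl n ℓ q := by
      unfold btl
      positivity
    have h3 := hZEpos.le
    positivity
  rw [← hR] at hgv
  -- good pairs
  have s4 : q ^ P0.card * (ZV q D / (2 * ZP q D a b) * Tg) ≤ 18 * (n : ℝ) ^ 2 * (36 / q) ^ (371000 * t) * R := by
    have h1 : Tg ≤ (36 / q) ^ (61000 * t) * ZP q D a b * ∑ M ∈ LocS (62000 * t) D, ∑ Z ∈ LZ D a b M,
        omD q D Z * (gmn q D f Z - gmn q D f ((Z \ M.1) ∪ M.2)) ^ 2 := by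
      rw [hTg]
      exact hmn
    have h2 : q ^ P0.card * (ZV q D * ∑ M ∈ LocS (62000 * t) D, ∑ Z ∈ LZ D a b M,
        omD q D Z * (gmn q D f Z - gmn q D f ((Z \ M.1) ∪ M.2)) ^ 2) ≤
        (LocS (62000 * t) D).card * (9 * (36 / q) ^ (62000 * t) * R) := by
      rw [Finset.mul_sum, Finset.mul_sum, ← nsmul_eq_mul, ← Finset.sum_const]
      refine Finset.sum_le_sum fun M hM => ?_
      have := hls M hM
      rw [← hR] at this
      exact this
    have h3 : q ^ P0.card * (ZV q D / (2 * ZP q D a b) * Tg) ≤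
        (1 / 2) * (36 / q) ^ (61000 * t) * ((LocS (62000 * t) D).card * (9 * (36 / q) ^ (62000 * t) * R)) := by
      calc q ^ P0.card * (ZV q D / (2 * ZP q D a b) * Tg)
          ≤ q ^ P0.card * (ZV q D / (2 * ZP q D a b) * ((36 / q) ^ (61000 * t) * ZP q D a b *
            ∑ M ∈ LocS (62000 * t) D, ∑ Z ∈ LZ D a b M,
              omD q D Z * (gmn q D f Z - gmn q D f ((Z \ M.1) ∪ M.2)) ^ 2)) := by
            refine mul_le_mul_of_nonneg_left ?_ hw0.le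
            exact mul_le_mul_of_nonneg_left h1 (by positivity)
        _ = (1 / 2) * (36 / q) ^ (61000 * t) * (q ^ P0.card * (ZV q D *
            ∑ M ∈ LocS (62000 * t) D, ∑ Z ∈ LZ D a b M,
              omD q D Z * (gmn q D f Z - gmn q D f ((Z \ M.1) ∪ M.2)) ^ 2)) := by
            have hz := hZP.ne'
            field_simp
        _ ≤ _ := mul_le_mul_of_nonneg_left h2 (by positivity)
    refine h3.trans ?_
    have h4 := wp_num q hq0 hq6 n t D.card hDcard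
    calc (1 / 2 : ℝ) * (36 / q) ^ (61000 * t) * ((LocS (62000 * t) D).card * (9 * (36 / q) ^ (62000 * t) * R))
        = (9 / 2) * ((LocS (62000 * t) D).card * ((36 / q) ^ (61000 * t) * (36 / q) ^ (62000 * t))) * R := by ring
      _ ≤ (9 / 2) * ((D.card * 54 ^ (2 * (62000 * t))) * ((36 / q) ^ (61000 * t) * (36 / q) ^ (62000 * t))) * R := by
          refine mul_le_mul_of_nonneg_right ?_ hR0
          refine mul_le_mul_of_nonneg_left ?_ (by norm_num)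
          exact mul_le_mul_of_nonneg_right hLcard (by positivity)
      _ ≤ (9 / 2) * (4 * (n : ℝ) ^ 2 * (36 / q) ^ (371000 * t)) * R := by
          refine mul_le_mul_of_nonneg_right ?_ hR0
          exact mul_le_mul_of_nonneg_left h4 (by norm_num)
      _ = _ := by ring
  -- bad pairs
  have s5 : q ^ P0.card * (ZV q D / (2 * ZP q D a b) * Tb) ≤
      2 * (36 / q) ^ (200100 * t0) * (36 ^ 600 * q) ^ t * B ^ 2 * ZE q EE := by
    have h1 : Tb ≤ 4 * B ^ 2 * ((36 / q) ^ (200100 * t0) * (36 ^ 600 * q) ^ t * ZP q D a b ^ 2) := by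
      refine le_trans ?_ (mul_le_mul_of_nonneg_left hact (by positivity))
      rw [hTb, Finset.mul_sum]
      refine Finset.sum_le_sum fun P hP => ?_
      obtain ⟨h2, _⟩ := Finset.mem_filter.1 hP
      obtain ⟨h3, h4⟩ := Finset.mem_product.1 h2
      have h8 : (gmn q D f P.1 - gmn q D f P.2) ^ 2 ≤ 4 * B ^ 2 :=
        wp_sq (gmn_abs q hq0 D f P.1 B (hpm P.1 h3)) (gmn_abs q hq0 D f P.2 B (hpm P.2 h4))
      rw [mul_comm (4 * B ^ 2)]
      exact mul_le_mul_of_nonneg_left h8 (mul_pos (hom _) (hom _)).le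
    calc q ^ P0.card * (ZV q D / (2 * ZP q D a b) * Tb)
        ≤ q ^ P0.card * (ZV q D / (2 * ZP q D a b) *
          (4 * B ^ 2 * ((36 / q) ^ (200100 * t0) * (36 ^ 600 * q) ^ t * ZP q D a b ^ 2))) := by
          refine mul_le_mul_of_nonneg_left ?_ hw0.le
          exact mul_le_mul_of_nonneg_left h1 (by positivity)
      _ = 2 * (36 / q) ^ (200100 * t0) * (36 ^ 600 * q) ^ t * B ^ 2 * (q ^ P0.card * (ZV q D * ZP q D a b)) := by
          have hz := hZP.ne'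
          obtain ⟨X1, hX1⟩ : ∃ X1, X1 = (36 / q) ^ (200100 * t0) := ⟨_, rfl⟩
          obtain ⟨X2, hX2⟩ : ∃ X2, X2 = (36 ^ 600 * q) ^ t := ⟨_, rfl⟩
          rw [← hX1, ← hX2]
          field_simp
          ring
      _ = _ := by rw [hZE]
  -- sum
  have hn1 : (1 : ℝ) ≤ (n : ℝ) ^ 2 := by
    have : (1 : ℝ) ≤ n := by exact_mod_cast (by omega : 1 ≤ n)
    exact one_le_pow₀ this
  have hx1 : (1 : ℝ) ≤ (36 / q) ^ (371000 * t) := one_le_pow₀ (wp_one q hq0 hq3)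
  obtain ⟨X, hX⟩ : ∃ X, X = (n : ℝ) ^ 2 * (36 / q) ^ (371000 * t) := ⟨_, rfl⟩
  have hX1 : 1 ≤ X := by
    rw [hX]
    calc (1 : ℝ) = 1 * 1 := by ring
      _ ≤ _ := mul_le_mul hn1 hx1 zero_le_one (by positivity)
  have s6 : R ≤ 2 * X * R := wp_two X R hX1 hR0
  have s7 : q ^ P0.card * (∑ G ∈ PD D a b, gvr q D f G + ZV q D / (2 * ZP q D a b) * (Tb + Tg)) =
      q ^ P0.card * ∑ G ∈ PD D a b, gvr q D f G + q ^ P0.card * (ZV q D / (2 * ZP q D a b) * Tb) +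
        q ^ P0.card * (ZV q D / (2 * ZP q D a b) * Tg) := by ring
  rw [s3, s7] at s2
  refine s1.trans ?_
  rw [s2]
  have s4' : q ^ P0.card * (ZV q D / (2 * ZP q D a b) * Tg) ≤ 18 * X * R := by
    refine s4.trans (le_of_eq ?_)
    rw [hX]
    ring
  have e : (20 * (n : ℝ) ^ 2 * (36 / q) ^ (371000 * t) * Avl n ℓ q) * Dir q n EE u +
      (20 * (n : ℝ) ^ 2 * (36 / q) ^ (371000 * t) * (40 * (n : ℝ) ^ 2 * btl n ℓ q) +
        2 * (36 / q) ^ (200100 * t0) * (36 ^ 600 * q) ^ t) * B ^ 2 * ZE q EE =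
      20 * X * R + 2 * (36 / q) ^ (200100 * t0) * (36 ^ 600 * q) ^ t * B ^ 2 * ZE q EE := by
    rw [hR, hX]
    ring
  rw [e]
  exact (add_le_add (add_le_add le_rfl s5) le_rfl).trans (wp_fin X R _ _ _ hgv s6 s4')

end

end Pool.Agent.H40.WM
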