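import Mathlib
import Pool.Agent.H40.WM.VWP
import Pool.Agent.H40.WM.VPb

/-!
# VHwp: the weak Poincare inequality on all sets `EE(c)` with polynomial constants

`vpar` and `wp_ee`; `WPo` is monotone in both constants (`Dir ≥ 0`, `ZE ≥ 0`, `B^2 ≥ 0`).
-/

set_option autoImplicit false

namespace Pool.Agent.H40.WM

open Pool.Agent.H40.SQ

noncomputable section

theorem dir_nn (q : ℝ) (hq0 : 0 < q) (n : ℕ) (EE : Finset (Finset Edge)) (u : Finset Edge → ℝ) : 0 ≤ Dir q n EE u := by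
  unfold Dir
  exact Finset.sum_nonneg fun x _ => Finset.sum_nonneg fun η _ => mul_nonneg (pow_pos hq0 _).le (sq_nonneg _)

theorem ze_nn (q : ℝ) (hq0 : 0 < q) (EE : Finset (Finset Edge)) : 0 ≤ ZE q EE := by
  unfold ZE
  exact Finset.sum_nonneg fun η _ => (pow_pos hq0 _).le

theorem wpo_mono (q : ℝ) (hq0 : 0 < q) (n : ℕ) (EE : Finset (Finset Edge)) {A A' β β' : ℝ} (hA : A ≤ A') (hβ : β ≤ β')
    (h : WPo q n EE A β) : WPo q n EE A' β' := by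
  intro u B hB hu
  refine (h u B hB hu).trans ?_
  have h1 := mul_le_mul_of_nonneg_right hA (dir_nn q hq0 n EE u)
  have h2 := mul_le_mul_of_nonneg_right (mul_le_mul_of_nonneg_right hβ (sq_nonneg B)) (ze_nn q hq0 EE)
  linarith

theorem hwp (q : ℝ) (hq0 : 0 < q) (hq1 : 36 ^ 2000 * q ≤ 1) :
    ∀ K : ℕ, ∃ C : ℕ, ∀ N : ℕ, 2 ≤ N → ∀ n : ℕ, n ≤ N → ∀ s c : ℤ, Par n s c →
      WPo q n (EEc n s c) ((N : ℝ) ^ C) (1 / (N : ℝ) ^ K) := by
  intro K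
  obtain ⟨C, hC⟩ := vpar q hq0 hq1 K
  refine ⟨C, fun N hN n hn s c h => ?_⟩
  have h5 := h.hn
  obtain ⟨t0, t, ℓ, h1, h2, h3, h4, h5, h6⟩ := hC N hN n (by omega) hn
  exact wpo_mono q hq0 n _ h5 h6 (wp_ee h q hq0 hq1 t0 t ℓ h1 h2 h3 h4)

end

end Pool.Agent.H40.WM
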