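import Mathlib
import Pool.Agent.H40.WM.VHwp
import Pool.Agent.H40.WM.BFin
import Pool.Agent.H40.WM.AFro

/-!
# Fin: the frozen statement

Everything together: `hwp` (weak Poincare inequalities), `ladders_of` (ladders), `frozen_of_ladders`.
-/

set_option autoImplicit false

namespace Pool.Agent.H40.WM

open Pool.Agent.H40.SQ

noncomputable section

theorem all_ladders : ∀ q : ℝ, 0 < q → q ≤ 1 / 36 ^ 2000 → ∃ C0 : ℕ, ∀ K : ℕ, ∃ C : ℕ, ∀ n : ℕ, 2 ≤ n → ∀ s : ℤ, (s = 1 ∨ s = -1) →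
      ∃ (r : ℕ) (EE : ℕ → Finset (Finset Edge)), r ≤ n ^ 3 ∧
        Ladder q n s ((n : ℝ) ^ C0) ((n : ℝ) ^ C) (1 / (n : ℝ) ^ K) r EE := by
  intro q hq0 hq1
  have h1 : (36 : ℝ) ^ 2000 * q ≤ 1 := by
    have h2 : (0 : ℝ) < 36 ^ 2000 := by positivity
    calc (36 : ℝ) ^ 2000 * q ≤ 36 ^ 2000 * (1 / 36 ^ 2000) := mul_le_mul_of_nonneg_left hq1 h2.le
      _ = 1 := mul_one_div_cancel h2.ne'
  exact ladders_of q hq0 h1 (hwp q hq0 h1)

end

end Pool.Agent.H40.WM
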