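import Mathlib
import Pool.Agent.H40.WM.Fin
import Pool.Agent.H40.SQ.FAvg

/-!
# Own: rapid mixing in total variation distance from the stationary distribution, explicit threshold

`par_explicit` is `par` with the explicit threshold; `osc_pow`: geometric decay of oscillations;
`rapid`: the final form.
-/

set_option autoImplicit false

namespace Pool.Agent.H40.WM

open Pool.Agent.H40.SQ

noncomputable section

theorem par_explicit (q0 : ℝ) (hq0 : 0 < q0) (hq01 : q0 ≤ 1)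
    (h : ∀ q : ℝ, 0 < q → q ≤ q0 → ∃ C0 : ℕ, ∀ K : ℕ, ∃ C : ℕ, ∀ n : ℕ, 2 ≤ n → ∀ s : ℤ, (s = 1 ∨ s = -1) →
      ∃ (r : ℕ) (EE : ℕ → Finset (Finset Edge)), r ≤ n ^ 3 ∧
        Ladder q n s ((n : ℝ) ^ C0) ((n : ℝ) ^ C) (1 / (n : ℝ) ^ K) r EE) :
    ∀ lam : ℝ, 0 < lam → lam < q0 ^ 4 → lam < 1 / 4 →
      ∃ (C : ℝ) (k : ℕ), ∀ n : ℕ, 2 ≤ n → ∀ t : ℕ, C * (n : ℝ) ^ k ≤ (t : ℝ) →
        ∀ ψ : Finset Edge → ℝ, (∀ g ∈ Om n, 0 ≤ ψ g ∧ ψ g ≤ 1) →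
          ∀ g ∈ Om n, ∀ g' ∈ Om n, |((TP lam n) ^ t) ψ g - ((TP lam n) ^ t) ψ g'| ≤ 1 / 4 := by
  intro lam hl0 hlq hl4
  obtain ⟨q, hq0', hq4⟩ : ∃ q : ℝ, 0 < q ∧ q ^ 4 = lam := by
    refine ⟨lam ^ ((1 : ℝ) / 4), Real.rpow_pos_of_pos hl0 _, ?_⟩
    rw [← Real.rpow_natCast, ← Real.rpow_mul hl0.le]
    norm_num
  have hqq : q ≤ q0 := by
    by_contra hc
    push Not at hc
    have : q0 ^ 4 < q ^ 4 := pow_lt_pow_left₀ hc hq0.le (by norm_num)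
    linarith
  obtain ⟨C0, hC0⟩ := h q hq0' hqq
  obtain ⟨C, hC⟩ := hC0 (C0 + 26)
  have hlp : 0 < 4 / lam + 1 := by positivity
  set M : ℝ := (4 / lam + 1) * ((C0 : ℝ) + 26) + 1 with hM
  have hMp : 0 < M := by positivity
  refine ⟨256 * M ^ 2, 2 * C + 14, ?_⟩
  intro n hn t ht ψ hψ
  have hn1 : (1 : ℝ) ≤ n := by exact_mod_cast (by omega : 1 ≤ n)
  have hn2 : (2 : ℝ) ≤ n := by exact_mod_cast hn
  have hn0 : (0 : ℝ) < n := by linarith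
  obtain ⟨r, EE, hr, hL⟩ := hC n hn 1 (Or.inl rfl)
  obtain ⟨r', EE', hr', hL'⟩ := hC n hn (-1) (Or.inr rfl)
  set A' : ℝ := 4 * (n : ℝ) ^ 2 * (n : ℝ) ^ C / lam + 1 with hA'
  have hA'1 : 1 ≤ A' := by
    have : 0 ≤ 4 * (n : ℝ) ^ 2 * (n : ℝ) ^ C / lam := by positivity
    linarith
  have hA'0 : 0 < A' := by linarith
  set t1 : ℕ := ⌈A' * (((C0 : ℝ) + 26) * n)⌉₊ with ht1
  have ht1l : A' * (((C0 : ℝ) + 26) * n) ≤ (t1 : ℝ) := Nat.le_ceil _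
  have ht1u : (t1 : ℝ) ≤ A' * (((C0 : ℝ) + 26) * n) + 1 := by
    have := Nat.ceil_lt_add_one (a := A' * (((C0 : ℝ) + 26) * n)) (by positivity)
    exact this.le
  have hA'u : A' ≤ (4 / lam + 1) * (n : ℝ) ^ (C + 2) := by
    have e1 : 4 * (n : ℝ) ^ 2 * (n : ℝ) ^ C / lam = (4 / lam) * (n : ℝ) ^ (C + 2) := by
      rw [pow_add]; ring
    have e2 : (1 : ℝ) ≤ (n : ℝ) ^ (C + 2) := one_le_pow₀ hn1
    rw [hA', e1, add_mul, one_mul]
    linarith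
  have ht1M : (t1 : ℝ) ≤ M * (n : ℝ) ^ (C + 3) := by
    have e2 : (1 : ℝ) ≤ (n : ℝ) ^ (C + 3) := one_le_pow₀ hn1
    have e3 : A' * (((C0 : ℝ) + 26) * n) ≤ (4 / lam + 1) * (n : ℝ) ^ (C + 2) * (((C0 : ℝ) + 26) * n) :=
      mul_le_mul_of_nonneg_right hA'u (by positivity)
    have e4 : (4 / lam + 1) * (n : ℝ) ^ (C + 2) * (((C0 : ℝ) + 26) * n) =
        (4 / lam + 1) * ((C0 : ℝ) + 26) * (n : ℝ) ^ (C + 3) := by
      rw [show C + 3 = (C + 2) + 1 by omega, pow_succ]; ring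
    rw [hM, add_mul, one_mul]
    linarith
  have hexp : (1 - 1 / A') ^ t1 ≤ 1 / (n : ℝ) ^ (C0 + 26) := by
    have h1 : 0 ≤ 1 - 1 / A' := by
      rw [sub_nonneg, div_le_one hA'0]; exact hA'1
    have h2 : 1 - 1 / A' ≤ Real.exp (-(1 / A')) := by
      have := Real.add_one_le_exp (-(1 / A'))
      linarith
    have h3 : (1 - 1 / A') ^ t1 ≤ Real.exp (-(1 / A')) ^ t1 := pow_le_pow_left₀ h1 h2 _
    have h4 : Real.exp (-(1 / A')) ^ t1 = Real.exp (-((t1 : ℝ) / A')) := by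
      rw [← Real.exp_nat_mul]; congr 1; ring
    have h5 : ((C0 : ℝ) + 26) * n ≤ (t1 : ℝ) / A' := by
      rw [le_div_iff₀ hA'0]; linarith
    have h6 : Real.exp (-((t1 : ℝ) / A')) ≤ Real.exp (-(((C0 : ℝ) + 26) * n)) := by
      apply Real.exp_le_exp.mpr; linarith
    have h7 : Real.exp (-(((C0 : ℝ) + 26) * n)) = (Real.exp (-(n : ℝ))) ^ (C0 + 26) := by
      rw [← Real.exp_nat_mul]; congr 1; push_cast; ring
    have h8 : Real.exp (-(n : ℝ)) ≤ 1 / (n : ℝ) := by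
      rw [Real.exp_neg, ← one_div]
      apply one_div_le_one_div_of_le hn0
      have := Real.add_one_le_exp (n : ℝ)
      linarith
    have h9 : (Real.exp (-(n : ℝ))) ^ (C0 + 26) ≤ (1 / (n : ℝ)) ^ (C0 + 26) :=
      pow_le_pow_left₀ (Real.exp_pos _).le h8 _
    rw [one_div_pow] at h9
    calc (1 - 1 / A') ^ t1 ≤ _ := h3
      _ = _ := h4
      _ ≤ _ := h6
      _ = _ := h7
      _ ≤ _ := h9
  have hsq : Real.sqrt ((n : ℝ) ^ C0 * ((1 - 1 / A') ^ t1 + 1 / (n : ℝ) ^ (C0 + 26))) ≤ (3 / 2) / (n : ℝ) ^ 13 := by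
    apply Real.sqrt_le_iff.mpr
    refine ⟨by positivity, ?_⟩
    have h1 : (n : ℝ) ^ C0 * ((1 - 1 / A') ^ t1 + 1 / (n : ℝ) ^ (C0 + 26)) ≤
        (n : ℝ) ^ C0 * (1 / (n : ℝ) ^ (C0 + 26) + 1 / (n : ℝ) ^ (C0 + 26)) :=
      mul_le_mul_of_nonneg_left (by linarith) (by positivity)
    have h2 : (n : ℝ) ^ C0 * (1 / (n : ℝ) ^ (C0 + 26) + 1 / (n : ℝ) ^ (C0 + 26)) = 2 / (n : ℝ) ^ 26 := by
      rw [pow_add]; field_simp; ring
    have h3 : ((3 / 2) / (n : ℝ) ^ 13) ^ 2 = (9 / 4) / (n : ℝ) ^ 26 := by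
      rw [div_pow, ← pow_mul]; norm_num
    rw [h3]
    rw [h2] at h1
    refine h1.trans ?_
    exact div_le_div_of_nonneg_right (by norm_num) (by positivity)
  have hδ : ∀ g ∈ Om n, ∀ g' ∈ Om n, |((TL lam n) ^ (t1 * n ^ 3)) ψ g - ((TL lam n) ^ (t1 * n ^ 3)) ψ g'| ≤ 1 / 8 := by
    intro g hg g' hg'
    have h1 := ladder_mix n (by omega) q lam hq4 hq0' (hqq.trans hq01) ((n : ℝ) ^ C0) ((n : ℝ) ^ C)
      (1 / (n : ℝ) ^ (C0 + 26)) (by positivity) (by positivity) (by positivity) r r' EE EE' hL hL' t1 (t1 * n ^ 3)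
      (Nat.mul_le_mul_left _ hr) (Nat.mul_le_mul_left _ hr') ψ hψ g hg g' hg'
    refine h1.trans ?_
    rw [← hA']
    have hrr : (r : ℝ) + r' ≤ 2 * (n : ℝ) ^ 3 := by
      have a1 : (r : ℝ) ≤ (n : ℝ) ^ 3 := by exact_mod_cast hr
      have a2 : (r' : ℝ) ≤ (n : ℝ) ^ 3 := by exact_mod_cast hr'
      linarith
    have h2 : 4 * (n : ℝ) ^ 3 * ((r : ℝ) + r') *
        Real.sqrt ((n : ℝ) ^ C0 * ((1 - 1 / A') ^ t1 + 1 / (n : ℝ) ^ (C0 + 26))) ≤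
        4 * (n : ℝ) ^ 3 * (2 * (n : ℝ) ^ 3) * ((3 / 2) / (n : ℝ) ^ 13) := by
      apply mul_le_mul
      · exact mul_le_mul_of_nonneg_left hrr (by positivity)
      · exact hsq
      · exact Real.sqrt_nonneg _
      · positivity
    refine h2.trans ?_
    have h3 : 4 * (n : ℝ) ^ 3 * (2 * (n : ℝ) ^ 3) * ((3 / 2) / (n : ℝ) ^ 13) = 12 / (n : ℝ) ^ 7 := by
      field_simp; ring
    rw [h3, div_le_div_iff₀ (by positivity) (by norm_num)]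
    have h4 : (2 : ℝ) ^ 7 ≤ (n : ℝ) ^ 7 := pow_le_pow_left₀ (by norm_num) hn2 7
    norm_num at h4
    linarith
  intro g hg g' hg'
  have hfin := nonlazy n hn lam hl0.le (by linarith) t (t1 * n ^ 3) ψ hψ (1 / 8) hδ g hg g' hg'
  refine hfin.trans ?_
  have hT : ((t1 * n ^ 3 : ℕ) : ℝ) ≤ M * (n : ℝ) ^ (C + 6) := by
    push_cast
    have : (t1 : ℝ) * (n : ℝ) ^ 3 ≤ M * (n : ℝ) ^ (C + 3) * (n : ℝ) ^ 3 :=
      mul_le_mul_of_nonneg_right ht1M (by positivity)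
    refine this.trans (le_of_eq ?_)
    rw [show C + 6 = (C + 3) + 3 by omega, pow_add (n : ℝ) (C + 3) 3]; ring
  have hsq2 : 16 * ((t1 * n ^ 3 : ℕ) : ℝ) ≤ Real.sqrt (2 * ((1 - lam) / (n : ℝ) ^ 2) * ((t : ℝ) + 1)) := by
    apply Real.le_sqrt_of_sq_le
    have h1 : (16 * ((t1 * n ^ 3 : ℕ) : ℝ)) ^ 2 ≤ (16 * (M * (n : ℝ) ^ (C + 6))) ^ 2 := by
      apply pow_le_pow_left₀ (by positivity)
      linarith
    have h2 : (16 * (M * (n : ℝ) ^ (C + 6))) ^ 2 = 256 * M ^ 2 * (n : ℝ) ^ (2 * C + 12) := by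
      rw [mul_pow, mul_pow, ← pow_mul, show (C + 6) * 2 = 2 * C + 12 by ring]; ring
    have h3 : 256 * M ^ 2 * (n : ℝ) ^ (2 * C + 12) = 256 * M ^ 2 * (n : ℝ) ^ (2 * C + 14) / (n : ℝ) ^ 2 := by
      rw [show 2 * C + 14 = (2 * C + 12) + 2 by omega, pow_add (n : ℝ) (2 * C + 12) 2]
      field_simp
    have h4 : 256 * M ^ 2 * (n : ℝ) ^ (2 * C + 14) / (n : ℝ) ^ 2 ≤ ((t : ℝ) + 1) / (n : ℝ) ^ 2 :=
      div_le_div_of_nonneg_right (by linarith) (by positivity)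
    have h5 : ((t : ℝ) + 1) / (n : ℝ) ^ 2 ≤ 2 * ((1 - lam) / (n : ℝ) ^ 2) * ((t : ℝ) + 1) := by
      have : 2 * ((1 - lam) / (n : ℝ) ^ 2) * ((t : ℝ) + 1) = (2 * (1 - lam)) * (((t : ℝ) + 1) / (n : ℝ) ^ 2) := by
        ring
      rw [this]
      have h6 : 0 ≤ ((t : ℝ) + 1) / (n : ℝ) ^ 2 := by positivity
      nlinarith
    calc _ ≤ _ := h1
      _ = _ := h2
      _ = _ := h3
      _ ≤ _ := h4
      _ ≤ _ := h5
  have hsp : 0 < Real.sqrt (2 * ((1 - lam) / (n : ℝ) ^ 2) * ((t : ℝ) + 1)) := by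
    apply Real.sqrt_pos.mpr
    have : 0 < 1 - lam := by linarith
    positivity
  have hd : ((t1 * n ^ 3 : ℕ) : ℝ) / Real.sqrt (2 * ((1 - lam) / (n : ℝ) ^ 2) * ((t : ℝ) + 1)) ≤ 1 / 16 := by
    rw [div_le_iff₀ hsp]
    linarith
  linarith


private theorem own_pow_sup (n : ℕ) (lam : ℝ) (h0 : 0 ≤ lam) (h1 : lam ≤ 1) (t : ℕ) (g : Finset Edge → ℝ)
    (a b : ℝ) (hg : ∀ γ ∈ Om n, a ≤ g γ ∧ g γ ≤ b) :
    ∀ γ ∈ Om n, a ≤ ((TP lam n) ^ t) g γ ∧ ((TP lam n) ^ t) g γ ≤ b := by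
  induction t with
  | zero => exact hg
  | succ t ih =>
    rw [pow_succ', Module.End.mul_apply]
    exact TP_sup n lam h0 h1 _ a b ih

private theorem own_const (n : ℕ) (lam c : ℝ) (t : ℕ) :
    ((TP lam n) ^ t) (fun _ => c) = fun _ => c := by
  induction t with
  | zero => rfl
  | succ t ih => rw [pow_succ', Module.End.mul_apply, ih, TP_const]

/-- Geometric decay of the oscillation. -/
theorem osc_pow (n : ℕ) (lam : ℝ) (T : ℕ)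
    (hT : ∀ ψ : Finset Edge → ℝ, (∀ g ∈ Om n, 0 ≤ ψ g ∧ ψ g ≤ 1) →
      ∀ g ∈ Om n, ∀ g' ∈ Om n, |((TP lam n) ^ T) ψ g - ((TP lam n) ^ T) ψ g'| ≤ 1 / 4)
    (hne : (Om n).Nonempty) (j : ℕ) :
    ∀ ψ : Finset Edge → ℝ, (∀ g ∈ Om n, 0 ≤ ψ g ∧ ψ g ≤ 1) →
      ∀ g ∈ Om n, ∀ g' ∈ Om n,
        |((TP lam n) ^ (j * T)) ψ g - ((TP lam n) ^ (j * T)) ψ g'| ≤ (1 / 4) ^ j := by
  induction j with
  | zero =>
    intro ψ hψ g hg g' hg'
    rw [Nat.zero_mul, pow_zero, Module.End.one_apply, pow_zero]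
    have a1 := hψ g hg
    have a2 := hψ g' hg'
    rw [abs_le]
    constructor <;> linarith [a1.1, a1.2, a2.1, a2.2]
  | succ j ih =>
    intro ψ hψ g hg g' hg'
    have hD : (0 : ℝ) < (1 / 4) ^ j := by positivity
    obtain ⟨D, hDD⟩ : ∃ D : ℝ, D = (1 / 4) ^ j := ⟨_, rfl⟩
    rw [← hDD] at hD
    obtain ⟨u, hu⟩ : ∃ u, u = ((TP lam n) ^ (j * T)) ψ := ⟨_, rfl⟩
    have hosc : ∀ g ∈ Om n, ∀ g' ∈ Om n, |u g - u g'| ≤ D := by
      intro a ha b hb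
      rw [hu, hDD]
      exact ih ψ hψ a ha b hb
    obtain ⟨g0, hg0, hmin⟩ := Finset.exists_min_image (Om n) u hne
    have e1 : ((TP lam n) ^ ((j + 1) * T)) ψ = ((TP lam n) ^ T) u := by
      rw [hu, Nat.add_mul, Nat.one_mul, Nat.add_comm, pow_add, Module.End.mul_apply]
    obtain ⟨v, hv⟩ : ∃ v : Finset Edge → ℝ, v = (1 / D) • (u - fun _ => u g0) := ⟨_, rfl⟩
    have hva : ∀ a, v a = (1 / D) * (u a - u g0) := by
      intro a
      rw [hv, Pi.smul_apply, Pi.sub_apply, smul_eq_mul]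
    have hv01 : ∀ a ∈ Om n, 0 ≤ v a ∧ v a ≤ 1 := by
      intro a ha
      rw [hva]
      have b1 := hmin a ha
      have b2 := (abs_le.1 (hosc a ha g0 hg0)).2
      constructor
      · exact mul_nonneg (by positivity) (by linarith)
      · rw [one_div, inv_mul_le_iff₀ hD]
        linarith
    have e2 : ∀ a, ((TP lam n) ^ T) v a = (1 / D) * (((TP lam n) ^ T) u a - u g0) := by
      intro a
      rw [hv, map_smul, map_sub, own_const, Pi.smul_apply, Pi.sub_apply, smul_eq_mul]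
    have h2 := hT v hv01 g hg g' hg'
    rw [e2, e2] at h2
    have e3 : 1 / D * (((TP lam n) ^ T) u g - u g0) - 1 / D * (((TP lam n) ^ T) u g' - u g0) =
        (1 / D) * (((TP lam n) ^ T) u g - ((TP lam n) ^ T) u g') := by ring
    rw [e3, abs_mul, abs_of_pos (by positivity), one_div, inv_mul_le_iff₀ hD] at h2
    rw [e1, pow_succ, ← hDD]
    exact h2

theorem osc_pow' (n : ℕ) (lam : ℝ) (h0 : 0 ≤ lam) (h1 : lam ≤ 1) (T : ℕ)
    (hT : ∀ ψ : Finset Edge → ℝ, (∀ g ∈ Om n, 0 ≤ ψ g ∧ ψ g ≤ 1) →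
      ∀ g ∈ Om n, ∀ g' ∈ Om n, |((TP lam n) ^ T) ψ g - ((TP lam n) ^ T) ψ g'| ≤ 1 / 4)
    (hne : (Om n).Nonempty) (j t : ℕ) (ht : j * T ≤ t) :
    ∀ ψ : Finset Edge → ℝ, (∀ g ∈ Om n, 0 ≤ ψ g ∧ ψ g ≤ 1) →
      ∀ g ∈ Om n, ∀ g' ∈ Om n,
        |((TP lam n) ^ t) ψ g - ((TP lam n) ^ t) ψ g'| ≤ (1 / 4) ^ j := by
  intro ψ hψ g hg g' hg'
  obtain ⟨s, rfl⟩ : ∃ s, t = j * T + s := ⟨t - j * T, by omega⟩
  rw [pow_add, Module.End.mul_apply]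
  exact osc_pow n lam T hT hne j _ (own_pow_sup n lam h0 h1 s ψ 0 1 hψ) g hg g' hg'

private theorem own_empty (n : ℕ) : (∅ : Finset Edge) ∈ Om n := by
  rw [mem_Om]
  refine ⟨Finset.empty_subset _, ?_⟩
  intro i j
  simp [ind]

private theorem own_Zn_pos (n : ℕ) (q : ℝ) (hq0 : 0 < q) : 0 < Zn q n := by
  unfold Zn
  exact Finset.sum_pos (fun γ _ => pow_pos hq0 _) ⟨∅, own_empty n⟩

/-- the total variation distance as a difference of expectations -/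
private theorem own_tv (n : ℕ) (μ ν : Finset Edge → ℝ) (h1 : ∑ η ∈ Om n, μ η = 1)
    (h2 : ∑ η ∈ Om n, ν η = 1) (ψ : Finset Edge → ℝ) (hψ : ∀ η, ψ η = if ν η ≤ μ η then 1 else 0) :
    tv n μ ν = ∑ η ∈ Om n, μ η * ψ η - ∑ η ∈ Om n, ν η * ψ η := by
  unfold tv
  rw [Reach_eq]
  have h3 : ∑ η ∈ Om n, |μ η - ν η| = ∑ η ∈ Om n, (2 * (μ η * ψ η - ν η * ψ η) - (μ η - ν η)) := by
    refine Finset.sum_congr rfl fun η _ => ?_
    rw [hψ η]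
    by_cases h : ν η ≤ μ η
    · rw [if_pos h, abs_of_nonneg (by linarith)]
      ring
    · rw [if_neg h, abs_of_neg (by linarith [not_le.1 h])]
      ring
  rw [h3, Finset.sum_sub_distrib, ← Finset.mul_sum, Finset.sum_sub_distrib, Finset.sum_sub_distrib,
    h1, h2]
  ring

/-- The weighted mean is invariant. -/
private theorem own_mean (n : ℕ) (q lam : ℝ) (hq : q ^ 4 = lam) (g : Finset Edge → ℝ) (t : ℕ) :
    ∑ γ ∈ Om n, q ^ γ.card * ((TP lam n) ^ t) g γ = ∑ γ ∈ Om n, q ^ γ.card * g γ := by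
  induction t with
  | zero => rfl
  | succ t ih =>
    rw [pow_succ', Module.End.mul_apply, ← ih]
    have h1 := TP_sa n q lam hq (((TP lam n) ^ t) g) (fun _ => 1)
    rw [TP_const] at h1
    simpa using h1

/-- **Rapid mixing, final form.** -/
theorem rapid (lam : ℝ) (hl0 : 0 < lam) (hl1 : lam < 1 / 36 ^ 8000) :
    ∃ (C : ℝ) (k : ℕ), ∀ n : ℕ, 1 ≤ n →
      (∃ T : ℕ, (T : ℝ) ≤ C * (n : ℝ) ^ k ∧
        ∀ γ ∈ Om n, tv n (law lam n γ T) (piL lam n) ≤ 1 / 4) ∧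
      ∀ j t : ℕ, (j : ℝ) * (C * (n : ℝ) ^ k) ≤ (t : ℝ) →
        ∀ γ ∈ Om n, tv n (law lam n γ t) (piL lam n) ≤ (1 / 4) ^ j := by
  have e36 : (1 / 36 ^ 2000 : ℝ) ^ 4 = 1 / 36 ^ 8000 := by
    rw [div_pow, one_pow, ← pow_mul]
  have hq01 : (1 / 36 ^ 2000 : ℝ) ≤ 1 := by
    rw [div_le_one (by positivity)]
    exact one_le_pow₀ (by norm_num)
  have hl4 : lam < 1 / 4 := by
    refine lt_of_lt_of_le hl1 ?_
    apply one_div_le_one_div_of_le (by norm_num)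
    calc (4 : ℝ) ≤ 36 ^ 1 := by norm_num
      _ ≤ 36 ^ 8000 := pow_le_pow_right₀ (by norm_num) (by norm_num)
  obtain ⟨C, k, hC⟩ := par_explicit (1 / 36 ^ 2000) (by positivity) hq01 all_ladders lam hl0
    (by rw [e36]; exact hl1) hl4
  obtain ⟨C1, hC1⟩ : ∃ C1, C1 = max C 1 := ⟨_, rfl⟩
  have hC1a : C ≤ C1 := by rw [hC1]; exact le_max_left _ _
  have hC1b : 1 ≤ C1 := by rw [hC1]; exact le_max_right _ _
  refine ⟨2 * C1, k, fun n hn => ?_⟩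
  have hn1 : (1 : ℝ) ≤ n := by exact_mod_cast hn
  have hnk : (1 : ℝ) ≤ (n : ℝ) ^ k := one_le_pow₀ hn1
  have hX1 : 1 ≤ C1 * (n : ℝ) ^ k := by
    calc (1 : ℝ) = 1 * 1 := by ring
      _ ≤ C1 * (n : ℝ) ^ k := mul_le_mul hC1b hnk (by norm_num) (by linarith)
  obtain ⟨T, hT⟩ : ∃ T : ℕ, T = ⌈C1 * (n : ℝ) ^ k⌉₊ := ⟨_, rfl⟩
  have hT1 : C1 * (n : ℝ) ^ k ≤ (T : ℝ) := by rw [hT]; exact Nat.le_ceil _
  have hT2 : (T : ℝ) ≤ 2 * C1 * (n : ℝ) ^ k := by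
    have := (Nat.ceil_lt_add_one (a := C1 * (n : ℝ) ^ k) (by linarith)).le
    rw [← hT] at this
    linarith
  have hTT : ∀ ψ : Finset Edge → ℝ, (∀ g ∈ Om n, 0 ≤ ψ g ∧ ψ g ≤ 1) →
      ∀ g ∈ Om n, ∀ g' ∈ Om n, |((TP lam n) ^ T) ψ g - ((TP lam n) ^ T) ψ g'| ≤ 1 / 4 := by
    intro ψ hψ
    rcases Nat.lt_or_ge n 2 with hn2 | hn2
    · obtain rfl : n = 1 := by omega
      refine one_case lam hl0.le hl4.le T ?_ ψ hψ
      have : (1 : ℝ) ≤ (T : ℝ) := by linarith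
      exact_mod_cast this
    · refine hC n hn2 T ?_ ψ hψ
      refine le_trans ?_ hT1
      exact mul_le_mul_of_nonneg_right hC1a (by positivity)
  obtain ⟨q, hq0, hq4⟩ : ∃ q : ℝ, 0 < q ∧ q ^ 4 = lam := by
    refine ⟨lam ^ ((1 : ℝ) / 4), Real.rpow_pos_of_pos hl0 _, ?_⟩
    rw [← Real.rpow_natCast, ← Real.rpow_mul hl0.le]
    norm_num
  have hZ := own_Zn_pos n q hq0
  have hpi : ∀ η, piL lam n η = q ^ η.card / Zn q n := fun η => piL_eq n q lam hq4 hq0 η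
  have hpisum : ∑ η ∈ Om n, piL lam n η = 1 := by
    rw [Finset.sum_congr rfl fun η _ => hpi η, ← Finset.sum_div]
    exact div_self hZ.ne'
  have key : ∀ j t : ℕ, j * T ≤ t → ∀ γ ∈ Om n, tv n (law lam n γ t) (piL lam n) ≤ (1 / 4) ^ j := by
    intro j t hjt γ hγ
    obtain ⟨ψ, hψ⟩ : ∃ ψ : Finset Edge → ℝ, ∀ η, ψ η = if piL lam n η ≤ law lam n γ t η then 1 else 0 :=
      ⟨fun η => if piL lam n η ≤ law lam n γ t η then 1 else 0, fun _ => rfl⟩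
    have hψ01 : ∀ g ∈ Om n, 0 ≤ ψ g ∧ ψ g ≤ 1 := by
      intro g _
      rw [hψ]
      split_ifs <;> norm_num
    have hlaw1 : ∑ η ∈ Om n, law lam n γ t η = 1 := by
      have h1 := law_TP n hn lam hγ t (fun _ => 1)
      rw [own_const] at h1
      simpa using h1
    rw [own_tv n (law lam n γ t) (piL lam n) hlaw1 hpisum ψ hψ, law_TP n hn lam hγ t ψ]
    have hosc := osc_pow' n lam hl0.le (by linarith) T hTT ⟨∅, own_empty n⟩ j t hjt ψ hψ01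
    have e1 : ∑ η ∈ Om n, piL lam n η * ψ η = ∑ η ∈ Om n, piL lam n η * ((TP lam n) ^ t) ψ η := by
      have h1 := own_mean n q lam hq4 ψ t
      have h2 : ∀ f : Finset Edge → ℝ, ∑ η ∈ Om n, piL lam n η * f η =
          (∑ η ∈ Om n, q ^ η.card * f η) / Zn q n := by
        intro f
        rw [Finset.sum_div]
        refine Finset.sum_congr rfl fun η _ => ?_
        rw [hpi]
        ring
      rw [h2, h2, h1]
    rw [e1]
    have e2 : ((TP lam n) ^ t) ψ γ = ∑ η ∈ Om n, piL lam n η * ((TP lam n) ^ t) ψ γ := by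
      rw [← Finset.sum_mul, hpisum, one_mul]
    rw [e2, ← Finset.sum_sub_distrib]
    calc ∑ η ∈ Om n, (piL lam n η * ((TP lam n) ^ t) ψ γ - piL lam n η * ((TP lam n) ^ t) ψ η)
        ≤ ∑ η ∈ Om n, piL lam n η * (1 / 4) ^ j := by
          refine Finset.sum_le_sum fun η hη => ?_
          rw [← mul_sub]
          refine mul_le_mul_of_nonneg_left ?_ ?_
          · exact (abs_le.1 (hosc γ hγ η hη)).2
          · rw [hpi]
            exact div_nonneg (pow_pos hq0 _).le hZ.le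
      _ = (1 / 4) ^ j := by rw [← Finset.sum_mul, hpisum, one_mul]
  refine ⟨⟨T, hT2, fun γ hγ => ?_⟩, fun j t hjt γ hγ => ?_⟩
  · have := key 1 T (by omega) γ hγ
    rwa [pow_one] at this
  · refine key j t ?_ γ hγ
    have h1 : ((j * T : ℕ) : ℝ) ≤ (t : ℝ) := by
      push_cast
      refine le_trans ?_ hjt
      exact mul_le_mul_of_nonneg_left hT2 (by positivity)
    exact_mod_cast h1

end

end Pool.Agent.H40.WM
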